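import Pool.Agent.TTT.Sym2

set_option autoImplicit false
set_option maxRecDepth 100000

namespace Pool.Agent.TTT.H06

def t155 : T TT 256 :=
  (.f k42 k21 6 (.q k58 [(.s k26 k10 3 (.s k48 k53 2 (.s k32 k16 3 (.d k37 k47 k15 2 6))))] (.c k5
  (.l (.s k26 k10 3 (.s k48 k53 2 (.s k37 k15 6 (.d k32 k47 k16 2 3))))) (.c k10 (.q k2 [(.s k3 k1 0
  (.s k43 k23 5 (.s k41 k40 0 (.d k22 k62 k60 5 6)))), (.s k62 k22 5 (.s k48 k53 2 (.s k50 k54 1 (.s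
  k34 k18 3 (.d k51 k49 k17 0 4))))), (.s k3 k1 0 (.s k48 k53 2 (.s k16 k32 3 (.s k18 k33 4 (.s k34
  k50 3 (.d k17 k19 k51 0 4))))))] .n) (.c k15 (.q k2 [(.s k3 k1 0 (.s k43 k23 5 (.s k41 k40 0 (.d
  k22 k62 k60 5 6)))), (.s k62 k22 5 (.s k26 k10 3 (.s k50 k54 1 (.s k34 k18 3 (.d k38 k46 k14 1
  5))))), (.s k3 k1 0 (.s k48 k53 2 (.s k16 k32 3 (.s k18 k33 4 (.s k34 k50 3 (.d k17 k19 k51 0
  4))))))] .n) (.c k16 (.q k2 [(.s k3 k1 0 (.s k43 k23 5 (.s k41 k40 0 (.d k22 k62 k60 5 6)))), (.s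
  k62 k22 5 (.s k26 k10 3 (.s k50 k54 1 (.s k34 k18 3 (.d k38 k46 k14 1 5))))), (.s k3 k1 0 (.s k26
  k10 3 (.s k48 k53 2 (.s k33 k18 4 (.s k37 k15 6 (.s k41 k45 1 (.d k43 k40 k23 0 5)))))))] (.c k23
  (.l (.s k3 k1 0 (.s k22 k62 5 (.s k26 k10 3 (.s k18 k30 1 (.d k48 k53 k33 2 4)))))) (.c k26 (.q
  k31 [(.s k3 k1 0 (.s k43 k23 5 (.s k41 k40 0 (.d k22 k62 k60 5 6)))), (.s k62 k22 5 (.s k48 k53 2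
  (.s k50 k54 1 (.s k51 k49 0 (.d k34 k18 k17 3 4))))), (.s k3 k1 0 (.s k23 k43 5 (.s k15 k47 3 (.s
  k7 k11 1 (.s k39 k55 3 (.d k27 k19 k51 1 5))))))] (.c k23 (.l (.s k3 k1 0 (.s k48 k53 2 (.s k18
  k33 4 (.s k50 k34 3 (.d k62 k54 k22 1 5)))))) (.c k61 (.l (.s k22 k62 5 (.s k3 k1 0 (.s k41 k60 6
  (.d k43 k40 k23 0 5))))) .n))) (.c k31 (.l (.s k26 k10 3 (.s k3 k1 0 (.s k22 k62 5 (.s k41 k60 6
  (.d k43 k40 k23 0 5)))))) .n)))) (.c k26 (.q k2 [(.s k3 k1 0 (.s k43 k23 5 (.s k41 k40 0 (.d k22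
  k62 k60 5 6)))), (.s k3 k1 0 (.s k48 k53 2 (.s k16 k32 3 (.s k18 k33 4 (.s k34 k50 3 (.d k17 k19
  k51 0 4)))))), (.s k62 k22 5 (.s k48 k53 2 (.s k50 k54 1 (.s k51 k49 0 (.d k34 k18 k17 3 4)))))]
  (.c k16 (.q k31 [(.s k3 k1 0 (.s k43 k23 5 (.s k41 k40 0 (.d k22 k62 k60 5 6)))), (.s k62 k22 5
  (.s k48 k53 2 (.s k50 k54 1 (.s k51 k49 0 (.d k34 k18 k17 3 4))))), (.s k3 k1 0 (.s k23 k43 5 (.s
  k15 k47 3 (.s k7 k11 1 (.s k39 k55 3 (.d k27 k19 k51 1 5))))))] (.c k23 (.l (.s k3 k1 0 (.s k48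
  k53 2 (.s k18 k33 4 (.s k50 k34 3 (.d k62 k54 k22 1 5)))))) (.c k61 (.l (.s k22 k62 5 (.s k3 k1 0
  (.s k41 k60 6 (.d k43 k40 k23 0 5))))) .n))) (.c k31 (.q k16 [(.d k48 k53 k32 2 3), (.s k3 k1 0
  (.s k22 k62 5 (.s k41 k60 6 (.d k43 k40 k23 0 5))))] .n) (.c k61 (.l (.s k22 k62 5 (.s k3 k1 0 (.s
  k41 k60 6 (.d k43 k40 k23 0 5))))) .n)))) (.c k32 (.q k2 [(.s k3 k1 0 (.s k22 k62 5 (.s k41 k60 6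
  (.d k43 k40 k23 0 5)))), (.s k62 k22 5 (.s k26 k10 3 (.s k50 k54 1 (.s k34 k18 3 (.d k38 k46 k14 1
  5))))), (.s k3 k1 0 (.s k10 k26 3 (.s k5 k15 2 (.s k6 k14 1 (.s k12 k9 2 (.d k4 k7 k8 0 1))))))]
  .n) (.c k37 (.q k2 [(.s k3 k1 0 (.s k43 k23 5 (.s k41 k40 0 (.d k22 k62 k60 5 6)))), (.s k62 k22 5
  (.s k26 k10 3 (.s k50 k54 1 (.s k34 k18 3 (.d k38 k46 k14 1 5))))), (.s k3 k1 0 (.s k10 k26 3 (.s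
  k6 k14 1 (.s k9 k12 2 (.s k11 k8 0 (.d k15 k5 k7 2 1))))))] (.c k5 (.l (.s k53 k48 2 (.s k3 k1 0
  (.s k22 k62 5 (.s k41 k60 6 (.d k43 k40 k23 0 5)))))) (.c k53 (.q k5 [(.d k10 k15 k26 2 3), (.s k3
  k1 0 (.s k22 k62 5 (.s k41 k60 6 (.d k43 k40 k23 0 5))))] .n) .n))) (.c k47 (.q k2 [(.s k3 k1 0
  (.s k43 k23 5 (.s k41 k40 0 (.d k22 k62 k60 5 6)))), (.s k62 k22 5 (.s k26 k10 3 (.s k50 k54 1 (.s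
  k34 k18 3 (.d k38 k46 k14 1 5))))), (.s k3 k1 0 (.s k10 k26 3 (.s k5 k15 2 (.s k6 k14 1 (.s k12 k9
  2 (.d k4 k7 k8 0 1))))))] (.c k165 (.q k224 [(.s k3 k1 0 (.s k43 k23 5 (.s k41 k40 0 (.d k22 k62
  k60 5 6)))), (.s k62 k22 5 (.s k26 k10 3 (.s k50 k54 1 (.s k34 k18 3 (.d k38 k46 k14 1 5))))), (.s
  k3 k1 0 (.s k10 k26 3 (.s k5 k15 2 (.s k6 k14 1 (.s k12 k9 2 (.d k4 k7 k8 0 1))))))] .n) (.c k224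
  (.q k165 [(.s k3 k1 0 (.s k43 k23 5 (.s k41 k40 0 (.d k22 k62 k60 5 6)))), (.s k62 k22 5 (.s k26
  k10 3 (.s k50 k54 1 (.s k34 k18 3 (.d k38 k46 k14 1 5))))), (.s k3 k1 0 (.s k10 k26 3 (.s k5 k15 2
  (.s k6 k14 1 (.s k12 k9 2 (.d k4 k7 k8 0 1))))))] .n) .n))) (.c k48 (.q k2 [(.s k3 k1 0 (.s k43
  k23 5 (.s k41 k40 0 (.d k22 k62 k60 5 6)))), (.s k62 k22 5 (.s k26 k10 3 (.s k50 k54 1 (.s k38 k14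
  5 (.d k34 k46 k18 1 3))))), (.s k3 k1 0 (.s k10 k26 3 (.s k15 k5 2 (.s k6 k14 1 (.s k9 k12 2 (.d
  k11 k8 k7 0 1))))))] .n) (.c k53 (.q k2 [(.s k3 k1 0 (.s k43 k23 5 (.s k41 k40 0 (.d k22 k62 k60 5
  6)))), (.s k62 k22 5 (.s k26 k10 3 (.s k50 k54 1 (.s k34 k18 3 (.d k38 k46 k14 1 5))))), (.s k3 k1
  0 (.s k10 k26 3 (.s k5 k15 2 (.s k6 k14 1 (.s k12 k9 2 (.d k4 k7 k8 0 1))))))] (.c k5 (.q k37 [(.s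
  k26 k10 3 (.s k15 k48 6 (.d k47 k32 k31 2 3))), (.s k3 k1 0 (.s k22 k62 5 (.s k41 k60 6 (.d k43
  k40 k23 0 5))))] .n) (.c k37 (.q k5 [(.d k10 k15 k26 2 3), (.s k3 k1 0 (.s k22 k62 5 (.s k41 k60 6
  (.d k43 k40 k23 0 5))))] .n) .n))) .n))))))))))))

def t159 : T TT 256 :=
  (.f k42 k21 6 (.q k58 [(.s k26 k10 3 (.s k48 k53 2 (.s k32 k16 3 (.d k37 k47 k15 2 6))))] (.c k5
  (.l (.s k26 k10 3 (.s k48 k53 2 (.s k37 k15 6 (.d k32 k47 k16 2 3))))) (.c k10 (.q k2 [(.s k3 k1 0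
  (.s k43 k23 5 (.s k41 k40 0 (.d k22 k62 k60 5 6)))), (.s k62 k22 5 (.s k48 k53 2 (.s k50 k54 1 (.s
  k34 k18 3 (.d k51 k49 k17 0 4))))), (.s k3 k1 0 (.s k48 k53 2 (.s k16 k32 3 (.s k18 k33 4 (.s k34
  k50 3 (.d k17 k19 k51 0 4))))))] .n) (.c k15 (.q k2 [(.s k3 k1 0 (.s k43 k23 5 (.s k41 k40 0 (.d
  k22 k62 k60 5 6)))), (.s k62 k22 5 (.s k26 k10 3 (.s k50 k54 1 (.s k34 k18 3 (.d k38 k46 k14 1
  5))))), (.s k3 k1 0 (.s k48 k53 2 (.s k16 k32 3 (.s k18 k33 4 (.s k34 k50 3 (.d k17 k19 k51 0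
  4))))))] .n) (.c k16 (.q k2 [(.s k3 k1 0 (.s k43 k23 5 (.s k41 k40 0 (.d k22 k62 k60 5 6)))), (.s
  k62 k22 5 (.s k26 k10 3 (.s k50 k54 1 (.s k34 k18 3 (.d k38 k46 k14 1 5))))), (.s k3 k1 0 (.s k26
  k10 3 (.s k48 k53 2 (.s k33 k18 4 (.s k37 k15 6 (.s k41 k45 1 (.d k43 k40 k23 0 5)))))))] (.c k23
  (.l (.s k3 k1 0 (.s k22 k62 5 (.s k26 k10 3 (.s k18 k30 1 (.d k48 k53 k33 2 4)))))) (.c k26 (.q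
  k31 [(.s k3 k1 0 (.s k43 k23 5 (.s k41 k40 0 (.d k22 k62 k60 5 6)))), (.s k62 k22 5 (.s k48 k53 2
  (.s k50 k54 1 (.s k51 k49 0 (.d k34 k18 k17 3 4))))), (.s k3 k1 0 (.s k23 k43 5 (.s k15 k47 3 (.s
  k7 k11 1 (.s k39 k55 3 (.d k27 k19 k51 1 5))))))] (.c k23 (.l (.s k3 k1 0 (.s k48 k53 2 (.s k18
  k33 4 (.s k50 k34 3 (.d k62 k54 k22 1 5)))))) (.c k61 (.l (.s k22 k62 5 (.s k3 k1 0 (.s k41 k60 6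
  (.d k43 k40 k23 0 5))))) .n))) (.c k31 (.l (.s k26 k10 3 (.s k3 k1 0 (.s k22 k62 5 (.s k41 k60 6
  (.d k43 k40 k23 0 5)))))) .n)))) (.c k26 (.f k48 k53 2 (.f k16 k32 3 (.q k2 [(.s k3 k1 0 (.s k22
  k62 5 (.s k41 k60 6 (.d k43 k40 k23 0 5)))), (.s k62 k22 5 (.s k50 k54 1 (.s k51 k49 0 (.d k34 k18
  k17 3 4)))), (.s k3 k1 0 (.s k18 k33 4 (.s k34 k50 3 (.d k17 k19 k51 0 4))))] (.c k5 (.q k37 [(.s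
  k3 k1 0 (.s k22 k62 5 (.s k33 k18 4 (.d k41 k45 k60 1 6)))), (.s k62 k22 5 (.s k50 k54 1 (.s k51
  k49 0 (.d k34 k18 k17 3 4)))), (.s k22 k62 5 (.s k52 k7 4 (.s k60 k56 1 (.d k3 k41 k1 6 0)))), (.s
  k3 k1 0 (.s k18 k33 4 (.s k34 k50 3 (.d k17 k19 k51 0 4))))] .n) (.c k37 (.q k5 [(.s k3 k1 0 (.s
  k22 k62 5 (.s k41 k60 6 (.d k43 k40 k23 0 5)))), (.s k62 k22 5 (.s k50 k54 1 (.s k51 k49 0 (.d k34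
  k18 k17 3 4)))), (.s k3 k1 0 (.s k18 k33 4 (.s k34 k50 3 (.d k17 k19 k51 0 4))))] (.c k61 (.l (.s
  k22 k62 5 (.s k3 k1 0 (.s k41 k60 6 (.d k43 k40 k23 0 5))))) .n)) (.c k61 (.l (.s k22 k62 5 (.s k3
  k1 0 (.s k41 k60 6 (.d k43 k40 k23 0 5))))) .n)))))) (.c k32 (.q k2 [(.s k3 k1 0 (.s k22 k62 5 (.s
  k41 k60 6 (.d k43 k40 k23 0 5)))), (.s k62 k22 5 (.s k26 k10 3 (.s k50 k54 1 (.s k34 k18 3 (.d k38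
  k46 k14 1 5))))), (.s k3 k1 0 (.s k10 k26 3 (.s k5 k15 2 (.s k6 k14 1 (.s k12 k9 2 (.d k4 k7 k8 0
  1))))))] .n) (.c k37 (.q k2 [(.s k3 k1 0 (.s k43 k23 5 (.s k41 k40 0 (.d k22 k62 k60 5 6)))), (.s
  k62 k22 5 (.s k26 k10 3 (.s k50 k54 1 (.s k34 k18 3 (.d k38 k46 k14 1 5))))), (.s k3 k1 0 (.s k10
  k26 3 (.s k6 k14 1 (.s k9 k12 2 (.s k11 k8 0 (.d k15 k5 k7 2 1))))))] (.c k5 (.l (.s k53 k48 2 (.s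
  k3 k1 0 (.s k22 k62 5 (.s k41 k60 6 (.d k43 k40 k23 0 5)))))) (.c k53 (.q k5 [(.d k10 k15 k26 2
  3), (.s k3 k1 0 (.s k22 k62 5 (.s k41 k60 6 (.d k43 k40 k23 0 5))))] .n) .n))) (.c k47 (.q k2 [(.s
  k3 k1 0 (.s k43 k23 5 (.s k41 k40 0 (.d k22 k62 k60 5 6)))), (.s k62 k22 5 (.s k26 k10 3 (.s k50
  k54 1 (.s k34 k18 3 (.d k38 k46 k14 1 5))))), (.s k3 k1 0 (.s k10 k26 3 (.s k5 k15 2 (.s k6 k14 1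
  (.s k12 k9 2 (.d k4 k7 k8 0 1))))))] (.c k165 (.q k224 [(.s k3 k1 0 (.s k43 k23 5 (.s k41 k40 0
  (.d k22 k62 k60 5 6)))), (.s k62 k22 5 (.s k26 k10 3 (.s k50 k54 1 (.s k34 k18 3 (.d k38 k46 k14 1
  5))))), (.s k3 k1 0 (.s k10 k26 3 (.s k5 k15 2 (.s k6 k14 1 (.s k12 k9 2 (.d k4 k7 k8 0 1))))))]
  .n) (.c k224 (.q k165 [(.s k3 k1 0 (.s k43 k23 5 (.s k41 k40 0 (.d k22 k62 k60 5 6)))), (.s k62
  k22 5 (.s k26 k10 3 (.s k50 k54 1 (.s k34 k18 3 (.d k38 k46 k14 1 5))))), (.s k3 k1 0 (.s k10 k26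
  3 (.s k5 k15 2 (.s k6 k14 1 (.s k12 k9 2 (.d k4 k7 k8 0 1))))))] .n) .n))) (.c k48 (.q k2 [(.s k3
  k1 0 (.s k43 k23 5 (.s k41 k40 0 (.d k22 k62 k60 5 6)))), (.s k62 k22 5 (.s k26 k10 3 (.s k50 k54
  1 (.s k38 k14 5 (.d k34 k46 k18 1 3))))), (.s k3 k1 0 (.s k10 k26 3 (.s k15 k5 2 (.s k6 k14 1 (.s
  k9 k12 2 (.d k11 k8 k7 0 1))))))] .n) (.c k53 (.q k2 [(.s k3 k1 0 (.s k43 k23 5 (.s k41 k40 0 (.d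
  k22 k62 k60 5 6)))), (.s k62 k22 5 (.s k26 k10 3 (.s k50 k54 1 (.s k34 k18 3 (.d k38 k46 k14 1
  5))))), (.s k3 k1 0 (.s k10 k26 3 (.s k5 k15 2 (.s k6 k14 1 (.s k12 k9 2 (.d k4 k7 k8 0 1))))))]
  (.c k5 (.q k37 [(.s k26 k10 3 (.s k15 k48 6 (.d k47 k32 k31 2 3))), (.s k3 k1 0 (.s k22 k62 5 (.s
  k41 k60 6 (.d k43 k40 k23 0 5))))] .n) (.c k37 (.q k5 [(.d k10 k15 k26 2 3), (.s k3 k1 0 (.s k22
  k62 5 (.s k41 k60 6 (.d k43 k40 k23 0 5))))] .n) .n))) .n))))))))))))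

def t170 : T TT 256 :=
  (.f k42 k21 6 (.q k58 [(.s k26 k10 3 (.s k48 k53 2 (.s k32 k16 3 (.d k37 k47 k15 2 6)))), (.s k48
  k53 2 (.s k32 k16 3 (.s k37 k47 2 (.d k26 k10 k15 3 6))))] (.c k5 (.l (.s k26 k10 3 (.s k48 k53 2
  (.s k37 k15 6 (.d k32 k47 k16 2 3))))) (.c k10 (.q k2 [(.s k3 k1 0 (.s k22 k62 5 (.s k41 k60 6 (.d
  k43 k40 k23 0 5)))), (.s k62 k22 5 (.s k48 k53 2 (.s k50 k54 1 (.s k34 k18 3 (.d k51 k49 k17 0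
  4))))), (.s k3 k1 0 (.s k48 k53 2 (.s k16 k32 3 (.s k18 k33 4 (.s k34 k50 3 (.d k17 k19 k51 0
  4))))))] (.c k90 (.q k250 [(.s k3 k1 0 (.s k22 k62 5 (.s k41 k60 6 (.d k43 k40 k23 0 5)))), (.s
  k62 k22 5 (.s k48 k53 2 (.s k50 k54 1 (.s k34 k18 3 (.d k51 k49 k17 0 4))))), (.s k3 k1 0 (.s k48
  k53 2 (.s k16 k32 3 (.s k18 k33 4 (.s k34 k50 3 (.d k17 k19 k51 0 4))))))] (.c k74 (.l (.s k122
  k186 7 (.s k3 k1 0 (.s k22 k62 5 (.s k41 k60 6 (.d k43 k40 k23 0 5)))))) (.c k122 (.q k74 [(.s k3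
  k1 0 (.s k43 k23 5 (.s k41 k40 0 (.d k22 k62 k60 5 6)))), (.s k62 k22 5 (.s k48 k53 2 (.s k50 k54
  1 (.s k34 k18 3 (.d k51 k49 k17 0 4))))), (.s k3 k1 0 (.s k48 k53 2 (.s k16 k32 3 (.s k18 k33 4
  (.s k34 k50 3 (.d k17 k19 k51 0 4))))))] .n) .n))) (.c k250 (.q k90 [(.s k3 k1 0 (.s k22 k62 5 (.s
  k41 k60 6 (.d k43 k40 k23 0 5)))), (.s k62 k22 5 (.s k48 k53 2 (.s k50 k54 1 (.s k34 k18 3 (.d k51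
  k49 k17 0 4))))), (.s k3 k1 0 (.s k48 k53 2 (.s k16 k32 3 (.s k18 k33 4 (.s k34 k50 3 (.d k17 k19
  k51 0 4))))))] .n) .n))) (.c k15 (.q k2 [(.s k3 k1 0 (.s k22 k62 5 (.s k43 k23 5 (.d k41 k40 k60 0
  6)))), (.s k62 k22 5 (.s k26 k10 3 (.s k50 k54 1 (.s k34 k18 3 (.d k38 k46 k14 1 5))))), (.s k3 k1
  0 (.s k48 k53 2 (.s k16 k32 3 (.s k18 k33 4 (.s k34 k50 3 (.d k17 k19 k51 0 4))))))] .n) (.c k16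
  (.q k2 [(.s k3 k1 0 (.s k22 k62 5 (.s k41 k60 6 (.d k43 k40 k23 0 5)))), (.s k62 k22 5 (.s k26 k10
  3 (.s k50 k54 1 (.s k34 k18 3 (.d k38 k46 k14 1 5))))), (.s k3 k1 0 (.s k26 k10 3 (.s k48 k53 2
  (.s k33 k18 4 (.s k37 k15 6 (.s k41 k45 1 (.d k43 k40 k23 0 5)))))))] (.c k23 (.l (.s k3 k1 0 (.s
  k22 k62 5 (.s k26 k10 3 (.s k18 k30 1 (.d k48 k53 k33 2 4)))))) (.c k26 (.q k31 [(.s k3 k1 0 (.s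
  k22 k62 5 (.s k41 k60 6 (.d k43 k40 k23 0 5)))), (.s k62 k22 5 (.s k48 k53 2 (.s k50 k54 1 (.s k51
  k49 0 (.d k34 k18 k17 3 4))))), (.s k3 k1 0 (.s k23 k43 5 (.s k15 k47 3 (.s k7 k11 1 (.s k39 k55 3
  (.d k27 k19 k51 1 5))))))] (.c k23 (.l (.s k3 k1 0 (.s k48 k53 2 (.s k18 k33 4 (.s k50 k34 3 (.d
  k62 k54 k22 1 5)))))) (.c k61 (.l (.s k22 k62 5 (.s k3 k1 0 (.s k41 k60 6 (.d k43 k40 k23 0 5)))))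
  .n))) (.c k31 (.l (.s k26 k10 3 (.s k3 k1 0 (.s k22 k62 5 (.s k41 k60 6 (.d k43 k40 k23 0 5))))))
  .n)))) (.c k26 (.q k2 [(.s k3 k1 0 (.s k22 k62 5 (.s k41 k60 6 (.d k43 k40 k23 0 5)))), (.s k62
  k22 5 (.s k48 k53 2 (.s k50 k54 1 (.s k51 k49 0 (.d k34 k18 k17 3 4))))), (.s k3 k1 0 (.s k48 k53
  2 (.s k16 k32 3 (.s k18 k33 4 (.s k34 k50 3 (.d k17 k19 k51 0 4))))))] (.c k16 (.q k31 [(.s k3 k1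
  0 (.s k22 k62 5 (.s k41 k60 6 (.d k43 k40 k23 0 5)))), (.s k62 k22 5 (.s k48 k53 2 (.s k50 k54 1
  (.s k51 k49 0 (.d k34 k18 k17 3 4))))), (.s k3 k1 0 (.s k23 k43 5 (.s k15 k47 3 (.s k7 k11 1 (.s
  k39 k55 3 (.d k27 k19 k51 1 5))))))] (.c k23 (.l (.s k3 k1 0 (.s k48 k53 2 (.s k18 k33 4 (.s k50
  k34 3 (.d k62 k54 k22 1 5)))))) (.c k61 (.l (.s k22 k62 5 (.s k3 k1 0 (.s k41 k60 6 (.d k43 k40
  k23 0 5))))) .n))) (.c k31 (.q k16 [(.d k48 k53 k32 2 3), (.s k3 k1 0 (.s k22 k62 5 (.s k41 k60 6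
  (.d k43 k40 k23 0 5))))] .n) (.c k61 (.l (.s k22 k62 5 (.s k3 k1 0 (.s k41 k60 6 (.d k43 k40 k23 0
  5))))) .n)))) (.c k32 (.q k2 [(.s k3 k1 0 (.s k22 k62 5 (.s k41 k60 6 (.d k43 k40 k23 0 5)))), (.s
  k62 k22 5 (.s k26 k10 3 (.s k50 k54 1 (.s k34 k18 3 (.d k38 k46 k14 1 5))))), (.s k3 k1 0 (.s k10
  k26 3 (.s k5 k15 2 (.s k6 k14 1 (.s k12 k9 2 (.d k4 k7 k8 0 1))))))] (.c k101 (.q k239 [(.s k3 k1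
  0 (.s k22 k62 5 (.s k41 k60 6 (.d k43 k40 k23 0 5)))), (.s k62 k22 5 (.s k26 k10 3 (.s k50 k54 1
  (.s k34 k18 3 (.d k38 k46 k14 1 5))))), (.s k3 k1 0 (.s k10 k26 3 (.s k5 k15 2 (.s k6 k14 1 (.s
  k12 k9 2 (.d k4 k7 k8 0 1))))))] (.c k96 (.q k111 [(.s k10 k26 3 (.s k47 k175 7 (.d k15 k31 k5 3
  2))), (.s k3 k1 0 (.s k22 k62 5 (.s k41 k60 6 (.d k43 k40 k23 0 5))))] (.c k160 (.q k224 [(.s k10
  k26 3 (.s k15 k5 2 (.d k47 k31 k175 3 7))), (.s k3 k1 0 (.s k22 k62 5 (.s k41 k60 6 (.d k43 k40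
  k23 0 5))))] (.c k165 (.l (.s k175 k47 7 (.s k3 k1 0 (.s k22 k62 5 (.s k41 k60 6 (.d k43 k40 k23 0
  5)))))) (.c k175 (.q k165 [(.s k3 k1 0 (.s k22 k62 5 (.s k41 k60 6 (.d k43 k40 k23 0 5)))), (.s
  k10 k26 3 (.s k15 k5 2 (.s k240 k90 14 (.s k207 k159 11 (.d k229 k218 k234 6 2)))))] .n) .n))) (.c
  k224 (.q k160 [(.s k10 k26 3 (.s k47 k175 7 (.d k15 k31 k5 3 2))), (.s k3 k1 0 (.s k22 k62 5 (.s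
  k41 k60 6 (.d k43 k40 k23 0 5))))] (.c k47 (.q k165 [(.s k240 k80 11 (.s k10 k26 3 (.d k15 k5 k90
  2 14))), (.s k3 k1 0 (.s k22 k62 5 (.s k41 k60 6 (.d k43 k40 k23 0 5))))] .n) (.c k165 (.l (.s k47
  k175 7 (.s k10 k26 3 (.d k15 k31 k5 3 2)))) .n))) .n))) (.c k111 (.q k96 [(.s k3 k1 0 (.s k22 k62
  5 (.s k41 k60 6 (.d k43 k40 k23 0 5)))), (.s k62 k22 5 (.s k26 k10 3 (.s k50 k54 1 (.s k34 k18 3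
  (.d k38 k46 k14 1 5))))), (.s k3 k1 0 (.s k10 k26 3 (.s k5 k15 2 (.s k6 k14 1 (.s k12 k9 2 (.d k4
  k7 k8 0 1))))))] .n) .n))) (.c k239 (.q k101 [(.s k3 k1 0 (.s k22 k62 5 (.s k41 k60 6 (.d k43 k40
  k23 0 5)))), (.s k62 k22 5 (.s k26 k10 3 (.s k50 k54 1 (.s k34 k18 3 (.d k38 k46 k14 1 5))))), (.s
  k3 k1 0 (.s k10 k26 3 (.s k5 k15 2 (.s k6 k14 1 (.s k12 k9 2 (.d k4 k7 k8 0 1))))))] .n) .n))) (.c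
  k37 (.q k2 [(.s k3 k1 0 (.s k22 k62 5 (.s k41 k60 6 (.d k43 k40 k23 0 5)))), (.s k62 k22 5 (.s k26
  k10 3 (.s k50 k54 1 (.s k34 k18 3 (.d k38 k46 k14 1 5))))), (.s k3 k1 0 (.s k10 k26 3 (.s k6 k14 1
  (.s k9 k12 2 (.s k11 k8 0 (.d k15 k5 k7 2 1))))))] (.c k5 (.l (.s k53 k48 2 (.s k3 k1 0 (.s k22
  k62 5 (.s k41 k60 6 (.d k43 k40 k23 0 5)))))) (.c k53 (.q k5 [(.d k10 k15 k26 2 3), (.s k3 k1 0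
  (.s k22 k62 5 (.s k41 k60 6 (.d k43 k40 k23 0 5))))] .n) .n))) (.c k47 (.q k2 [(.s k3 k1 0 (.s k22
  k62 5 (.s k41 k60 6 (.d k43 k40 k23 0 5)))), (.s k62 k22 5 (.s k26 k10 3 (.s k50 k54 1 (.s k34 k18
  3 (.d k38 k46 k14 1 5))))), (.s k3 k1 0 (.s k10 k26 3 (.s k5 k15 2 (.s k6 k14 1 (.s k12 k9 2 (.d
  k4 k7 k8 0 1))))))] (.c k165 (.q k224 [(.s k3 k1 0 (.s k22 k62 5 (.s k41 k60 6 (.d k43 k40 k23 0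
  5)))), (.s k62 k22 5 (.s k26 k10 3 (.s k50 k54 1 (.s k34 k18 3 (.d k38 k46 k14 1 5))))), (.s k3 k1
  0 (.s k10 k26 3 (.s k5 k15 2 (.s k6 k14 1 (.s k12 k9 2 (.d k4 k7 k8 0 1))))))] (.c k160 (.q k175
  [(.s k3 k1 0 (.s k22 k62 5 (.s k41 k60 6 (.d k43 k40 k23 0 5)))), (.s k62 k22 5 (.s k26 k10 3 (.s
  k50 k54 1 (.s k34 k18 3 (.d k38 k46 k14 1 5))))), (.s k3 k1 0 (.s k10 k26 3 (.s k5 k15 2 (.s k6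
  k14 1 (.s k12 k9 2 (.d k4 k7 k8 0 1))))))] .n) (.c k175 (.q k160 [(.s k32 k96 7 (.d k48 k53 k16 2
  3)), (.s k3 k1 0 (.s k22 k62 5 (.s k41 k60 6 (.d k43 k40 k23 0 5))))] (.c k111 (.q k239 [(.s k48
  k53 2 (.d k32 k96 k16 7 3)), (.s k3 k1 0 (.s k22 k62 5 (.s k41 k60 6 (.d k43 k40 k23 0 5))))] (.c
  k96 (.q k101 [(.s k3 k1 0 (.s k22 k62 5 (.s k41 k60 6 (.d k43 k40 k23 0 5)))), (.s k240 k80 11 (.s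
  k48 k53 2 (.s k207 k154 14 (.d k229 k234 k218 2 6))))] .n) (.c k101 (.l (.s k96 k32 7 (.s k240 k80
  11 (.s k48 k53 2 (.d k192 k208 k144 3 11))))) .n))) (.c k239 (.q k111 [(.s k32 k96 7 (.d k48 k53
  k16 2 3)), (.s k3 k1 0 (.s k22 k62 5 (.s k41 k60 6 (.d k43 k40 k23 0 5))))] (.c k32 (.q k101 [(.s
  k48 k53 2 (.d k207 k159 k154 11 14)), (.s k3 k1 0 (.s k22 k62 5 (.s k41 k60 6 (.d k43 k40 k23 0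
  5))))] .n) (.c k101 (.l (.s k32 k96 7 (.d k48 k53 k16 2 3))) .n))) .n))) .n))) (.c k224 (.q k165
  [(.s k3 k1 0 (.s k22 k62 5 (.s k41 k60 6 (.d k43 k40 k23 0 5)))), (.s k62 k22 5 (.s k26 k10 3 (.s
  k50 k54 1 (.s k34 k18 3 (.d k38 k46 k14 1 5))))), (.s k3 k1 0 (.s k10 k26 3 (.s k5 k15 2 (.s k6
  k14 1 (.s k12 k9 2 (.d k4 k7 k8 0 1))))))] .n) .n))) (.c k48 (.q k2 [(.s k3 k1 0 (.s k22 k62 5 (.s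
  k43 k23 5 (.d k41 k40 k60 0 6)))), (.s k62 k22 5 (.s k26 k10 3 (.s k50 k54 1 (.s k38 k14 5 (.d k34
  k46 k18 1 3))))), (.s k3 k1 0 (.s k10 k26 3 (.s k15 k5 2 (.s k6 k14 1 (.s k9 k12 2 (.d k11 k8 k7 0
  1))))))] .n) (.c k53 (.q k2 [(.s k3 k1 0 (.s k22 k62 5 (.s k41 k60 6 (.d k43 k40 k23 0 5)))), (.s
  k62 k22 5 (.s k26 k10 3 (.s k50 k54 1 (.s k34 k18 3 (.d k38 k46 k14 1 5))))), (.s k3 k1 0 (.s k10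
  k26 3 (.s k5 k15 2 (.s k6 k14 1 (.s k12 k9 2 (.d k4 k7 k8 0 1))))))] (.c k5 (.q k37 [(.s k26 k10 3
  (.s k15 k48 6 (.d k47 k32 k31 2 3))), (.s k3 k1 0 (.s k22 k62 5 (.s k41 k60 6 (.d k43 k40 k23 0
  5))))] .n) (.c k37 (.q k5 [(.d k10 k15 k26 2 3), (.s k3 k1 0 (.s k22 k62 5 (.s k41 k60 6 (.d k43
  k40 k23 0 5))))] .n) .n))) .n))))))))))))

def t171 : T TT 256 :=
  (.f k42 k21 6 (.q k58 [(.s k26 k10 3 (.s k48 k53 2 (.s k32 k16 3 (.d k37 k47 k15 2 6))))] (.c k5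
  (.l (.s k26 k10 3 (.s k48 k53 2 (.s k37 k15 6 (.d k32 k47 k16 2 3))))) (.c k10 (.q k2 [(.s k3 k1 0
  (.s k43 k23 5 (.s k41 k40 0 (.d k22 k62 k60 5 6)))), (.s k62 k22 5 (.s k48 k53 2 (.s k50 k54 1 (.s
  k34 k18 3 (.d k51 k49 k17 0 4))))), (.s k3 k1 0 (.s k48 k53 2 (.s k16 k32 3 (.s k18 k33 4 (.s k34
  k50 3 (.d k17 k19 k51 0 4))))))] .n) (.c k15 (.q k2 [(.s k3 k1 0 (.s k43 k23 5 (.s k41 k40 0 (.d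
  k22 k62 k60 5 6)))), (.s k62 k22 5 (.s k26 k10 3 (.s k50 k54 1 (.s k34 k18 3 (.d k38 k46 k14 1
  5))))), (.s k3 k1 0 (.s k48 k53 2 (.s k16 k32 3 (.s k18 k33 4 (.s k34 k50 3 (.d k17 k19 k51 0
  4))))))] .n) (.c k16 (.q k2 [(.s k3 k1 0 (.s k43 k23 5 (.s k41 k40 0 (.d k22 k62 k60 5 6)))), (.s
  k62 k22 5 (.s k26 k10 3 (.s k50 k54 1 (.s k34 k18 3 (.d k38 k46 k14 1 5))))), (.s k3 k1 0 (.s k26
  k10 3 (.s k48 k53 2 (.s k33 k18 4 (.s k37 k15 6 (.s k41 k45 1 (.d k43 k40 k23 0 5)))))))] (.c k23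
  (.l (.s k3 k1 0 (.s k22 k62 5 (.s k26 k10 3 (.s k18 k30 1 (.d k48 k53 k33 2 4)))))) (.c k26 (.q
  k31 [(.s k3 k1 0 (.s k43 k23 5 (.s k41 k40 0 (.d k22 k62 k60 5 6)))), (.s k62 k22 5 (.s k48 k53 2
  (.s k50 k54 1 (.s k51 k49 0 (.d k34 k18 k17 3 4))))), (.s k3 k1 0 (.s k23 k43 5 (.s k15 k47 3 (.s
  k7 k11 1 (.s k39 k55 3 (.d k27 k19 k51 1 5))))))] (.c k23 (.l (.s k3 k1 0 (.s k48 k53 2 (.s k18
  k33 4 (.s k50 k34 3 (.d k62 k54 k22 1 5)))))) (.c k61 (.l (.s k22 k62 5 (.s k3 k1 0 (.s k41 k60 6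
  (.d k43 k40 k23 0 5))))) .n))) (.c k31 (.l (.s k26 k10 3 (.s k3 k1 0 (.s k22 k62 5 (.s k41 k60 6
  (.d k43 k40 k23 0 5)))))) .n)))) (.c k26 (.q k2 [(.s k3 k1 0 (.s k43 k23 5 (.s k41 k40 0 (.d k22
  k62 k60 5 6)))), (.s k3 k1 0 (.s k48 k53 2 (.s k16 k32 3 (.s k18 k33 4 (.s k34 k50 3 (.d k17 k19
  k51 0 4)))))), (.s k62 k22 5 (.s k48 k53 2 (.s k50 k54 1 (.s k51 k49 0 (.d k34 k18 k17 3 4)))))]
  (.c k16 (.q k31 [(.s k3 k1 0 (.s k43 k23 5 (.s k41 k40 0 (.d k22 k62 k60 5 6)))), (.s k62 k22 5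
  (.s k48 k53 2 (.s k50 k54 1 (.s k51 k49 0 (.d k34 k18 k17 3 4))))), (.s k3 k1 0 (.s k23 k43 5 (.s
  k15 k47 3 (.s k7 k11 1 (.s k39 k55 3 (.d k27 k19 k51 1 5))))))] (.c k23 (.l (.s k3 k1 0 (.s k48
  k53 2 (.s k18 k33 4 (.s k50 k34 3 (.d k62 k54 k22 1 5)))))) (.c k61 (.l (.s k22 k62 5 (.s k3 k1 0
  (.s k41 k60 6 (.d k43 k40 k23 0 5))))) .n))) (.c k31 (.q k16 [(.d k48 k53 k32 2 3), (.s k3 k1 0
  (.s k22 k62 5 (.s k41 k60 6 (.d k43 k40 k23 0 5))))] .n) (.c k61 (.l (.s k22 k62 5 (.s k3 k1 0 (.s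
  k41 k60 6 (.d k43 k40 k23 0 5))))) .n)))) (.c k32 (.q k2 [(.s k3 k1 0 (.s k22 k62 5 (.s k41 k60 6
  (.d k43 k40 k23 0 5)))), (.s k62 k22 5 (.s k26 k10 3 (.s k50 k54 1 (.s k34 k18 3 (.d k38 k46 k14 1
  5))))), (.s k3 k1 0 (.s k10 k26 3 (.s k5 k15 2 (.s k6 k14 1 (.s k12 k9 2 (.d k4 k7 k8 0 1))))))]
  .n) (.c k37 (.q k2 [(.s k3 k1 0 (.s k43 k23 5 (.s k41 k40 0 (.d k22 k62 k60 5 6)))), (.s k62 k22 5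
  (.s k26 k10 3 (.s k50 k54 1 (.s k34 k18 3 (.d k38 k46 k14 1 5))))), (.s k3 k1 0 (.s k10 k26 3 (.s
  k6 k14 1 (.s k9 k12 2 (.s k11 k8 0 (.d k15 k5 k7 2 1))))))] (.c k5 (.l (.s k53 k48 2 (.s k3 k1 0
  (.s k22 k62 5 (.s k41 k60 6 (.d k43 k40 k23 0 5)))))) (.c k53 (.q k5 [(.d k10 k15 k26 2 3), (.s k3
  k1 0 (.s k22 k62 5 (.s k41 k60 6 (.d k43 k40 k23 0 5))))] .n) .n))) (.c k47 (.q k2 [(.s k3 k1 0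
  (.s k43 k23 5 (.s k41 k40 0 (.d k22 k62 k60 5 6)))), (.s k62 k22 5 (.s k26 k10 3 (.s k50 k54 1 (.s
  k34 k18 3 (.d k38 k46 k14 1 5))))), (.s k3 k1 0 (.s k10 k26 3 (.s k5 k15 2 (.s k6 k14 1 (.s k12 k9
  2 (.d k4 k7 k8 0 1))))))] (.c k165 (.q k224 [(.s k3 k1 0 (.s k43 k23 5 (.s k41 k40 0 (.d k22 k62
  k60 5 6)))), (.s k62 k22 5 (.s k26 k10 3 (.s k50 k54 1 (.s k34 k18 3 (.d k38 k46 k14 1 5))))), (.s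
  k3 k1 0 (.s k10 k26 3 (.s k5 k15 2 (.s k6 k14 1 (.s k12 k9 2 (.d k4 k7 k8 0 1))))))] .n) (.c k224
  (.q k165 [(.s k3 k1 0 (.s k43 k23 5 (.s k41 k40 0 (.d k22 k62 k60 5 6)))), (.s k62 k22 5 (.s k26
  k10 3 (.s k50 k54 1 (.s k34 k18 3 (.d k38 k46 k14 1 5))))), (.s k3 k1 0 (.s k10 k26 3 (.s k5 k15 2
  (.s k6 k14 1 (.s k12 k9 2 (.d k4 k7 k8 0 1))))))] .n) .n))) (.c k48 (.q k2 [(.s k3 k1 0 (.s k43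
  k23 5 (.s k41 k40 0 (.d k22 k62 k60 5 6)))), (.s k62 k22 5 (.s k26 k10 3 (.s k50 k54 1 (.s k38 k14
  5 (.d k34 k46 k18 1 3))))), (.s k3 k1 0 (.s k10 k26 3 (.s k15 k5 2 (.s k6 k14 1 (.s k9 k12 2 (.d
  k11 k8 k7 0 1))))))] .n) (.c k53 (.q k2 [(.s k3 k1 0 (.s k43 k23 5 (.s k41 k40 0 (.d k22 k62 k60 5
  6)))), (.s k62 k22 5 (.s k26 k10 3 (.s k50 k54 1 (.s k34 k18 3 (.d k38 k46 k14 1 5))))), (.s k3 k1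
  0 (.s k10 k26 3 (.s k5 k15 2 (.s k6 k14 1 (.s k12 k9 2 (.d k4 k7 k8 0 1))))))] (.c k5 (.q k37 [(.s
  k26 k10 3 (.s k15 k48 6 (.d k47 k32 k31 2 3))), (.s k3 k1 0 (.s k22 k62 5 (.s k41 k60 6 (.d k43
  k40 k23 0 5))))] .n) (.c k37 (.q k5 [(.d k10 k15 k26 2 3), (.s k3 k1 0 (.s k22 k62 5 (.s k41 k60 6
  (.d k43 k40 k23 0 5))))] .n) .n))) .n))))))))))))

def t175 : T TT 256 :=
  (.f k42 k21 6 (.q k58 [(.s k26 k10 3 (.s k48 k53 2 (.s k32 k16 3 (.d k37 k47 k15 2 6))))] (.c k5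
  (.l (.s k26 k10 3 (.s k48 k53 2 (.s k37 k15 6 (.d k32 k47 k16 2 3))))) (.c k10 (.q k2 [(.s k3 k1 0
  (.s k43 k23 5 (.s k41 k40 0 (.d k22 k62 k60 5 6)))), (.s k62 k22 5 (.s k48 k53 2 (.s k50 k54 1 (.s
  k34 k18 3 (.d k51 k49 k17 0 4))))), (.s k3 k1 0 (.s k48 k53 2 (.s k16 k32 3 (.s k18 k33 4 (.s k34
  k50 3 (.d k17 k19 k51 0 4))))))] .n) (.c k15 (.q k2 [(.s k3 k1 0 (.s k43 k23 5 (.s k41 k40 0 (.d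
  k22 k62 k60 5 6)))), (.s k62 k22 5 (.s k26 k10 3 (.s k50 k54 1 (.s k34 k18 3 (.d k38 k46 k14 1
  5))))), (.s k3 k1 0 (.s k48 k53 2 (.s k16 k32 3 (.s k18 k33 4 (.s k34 k50 3 (.d k17 k19 k51 0
  4))))))] (.c k95 (.q k255 [(.s k3 k1 0 (.s k43 k23 5 (.s k41 k40 0 (.d k22 k62 k60 5 6)))), (.s
  k170 k85 14 (.s k62 k22 5 (.s k254 k86 13 (.s k126 k190 7 (.d k252 k253 k189 0 8))))), (.s k3 k1 0
  (.s k170 k85 14 (.s k86 k254 13 (.s k169 k252 14 (.d k171 k168 k87 0 13)))))] .n) (.c k255 (.q k95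
  [(.s k3 k1 0 (.s k43 k23 5 (.s k41 k40 0 (.d k22 k62 k60 5 6)))), (.s k62 k22 5 (.s k26 k10 3 (.s
  k50 k54 1 (.s k34 k18 3 (.d k38 k46 k14 1 5))))), (.s k3 k1 0 (.s k48 k53 2 (.s k16 k32 3 (.s k18
  k33 4 (.s k34 k50 3 (.d k17 k19 k51 0 4))))))] .n) .n))) (.c k16 (.q k2 [(.s k3 k1 0 (.s k43 k23 5
  (.s k41 k40 0 (.d k22 k62 k60 5 6)))), (.s k62 k22 5 (.s k26 k10 3 (.s k50 k54 1 (.s k34 k18 3 (.d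
  k38 k46 k14 1 5))))), (.s k3 k1 0 (.s k26 k10 3 (.s k48 k53 2 (.s k33 k18 4 (.s k37 k15 6 (.s k41
  k45 1 (.d k43 k40 k23 0 5)))))))] (.c k23 (.l (.s k3 k1 0 (.s k22 k62 5 (.s k26 k10 3 (.s k18 k30
  1 (.d k48 k53 k33 2 4)))))) (.c k26 (.q k31 [(.s k3 k1 0 (.s k43 k23 5 (.s k41 k40 0 (.d k22 k62
  k60 5 6)))), (.s k62 k22 5 (.s k48 k53 2 (.s k50 k54 1 (.s k51 k49 0 (.d k34 k18 k17 3 4))))), (.s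
  k3 k1 0 (.s k23 k43 5 (.s k15 k47 3 (.s k7 k11 1 (.s k39 k55 3 (.d k27 k19 k51 1 5))))))] (.c k23
  (.l (.s k3 k1 0 (.s k48 k53 2 (.s k18 k33 4 (.s k50 k34 3 (.d k62 k54 k22 1 5)))))) (.c k61 (.l
  (.s k22 k62 5 (.s k3 k1 0 (.s k41 k60 6 (.d k43 k40 k23 0 5))))) .n))) (.c k31 (.l (.s k26 k10 3
  (.s k3 k1 0 (.s k22 k62 5 (.s k41 k60 6 (.d k43 k40 k23 0 5)))))) .n)))) (.c k26 (.q k2 [(.s k3 k1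
  0 (.s k43 k23 5 (.s k41 k40 0 (.d k22 k62 k60 5 6)))), (.s k3 k1 0 (.s k48 k53 2 (.s k16 k32 3 (.s
  k18 k33 4 (.s k34 k50 3 (.d k17 k19 k51 0 4)))))), (.s k62 k22 5 (.s k48 k53 2 (.s k50 k54 1 (.s
  k51 k49 0 (.d k34 k18 k17 3 4)))))] (.c k16 (.q k31 [(.s k3 k1 0 (.s k43 k23 5 (.s k41 k40 0 (.d
  k22 k62 k60 5 6)))), (.s k62 k22 5 (.s k48 k53 2 (.s k50 k54 1 (.s k51 k49 0 (.d k34 k18 k17 3
  4))))), (.s k3 k1 0 (.s k23 k43 5 (.s k15 k47 3 (.s k7 k11 1 (.s k39 k55 3 (.d k27 k19 k51 1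
  5))))))] (.c k23 (.l (.s k3 k1 0 (.s k48 k53 2 (.s k18 k33 4 (.s k50 k34 3 (.d k62 k54 k22 1
  5)))))) (.c k61 (.l (.s k22 k62 5 (.s k3 k1 0 (.s k41 k60 6 (.d k43 k40 k23 0 5))))) .n))) (.c k31
  (.q k16 [(.d k48 k53 k32 2 3), (.s k3 k1 0 (.s k22 k62 5 (.s k41 k60 6 (.d k43 k40 k23 0 5))))]
  .n) (.c k61 (.l (.s k22 k62 5 (.s k3 k1 0 (.s k41 k60 6 (.d k43 k40 k23 0 5))))) .n)))) (.c k32
  (.q k2 [(.s k3 k1 0 (.s k22 k62 5 (.s k41 k60 6 (.d k43 k40 k23 0 5)))), (.s k62 k22 5 (.s k26 k10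
  3 (.s k50 k54 1 (.s k34 k18 3 (.d k38 k46 k14 1 5))))), (.s k3 k1 0 (.s k10 k26 3 (.s k5 k15 2 (.s
  k6 k14 1 (.s k12 k9 2 (.d k4 k7 k8 0 1))))))] .n) (.c k37 (.q k2 [(.s k3 k1 0 (.s k43 k23 5 (.s
  k41 k40 0 (.d k22 k62 k60 5 6)))), (.s k62 k22 5 (.s k26 k10 3 (.s k50 k54 1 (.s k34 k18 3 (.d k38
  k46 k14 1 5))))), (.s k3 k1 0 (.s k10 k26 3 (.s k6 k14 1 (.s k9 k12 2 (.s k11 k8 0 (.d k15 k5 k7 2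
  1))))))] (.c k5 (.l (.s k53 k48 2 (.s k3 k1 0 (.s k22 k62 5 (.s k41 k60 6 (.d k43 k40 k23 0
  5)))))) (.c k53 (.q k5 [(.d k10 k15 k26 2 3), (.s k3 k1 0 (.s k22 k62 5 (.s k41 k60 6 (.d k43 k40
  k23 0 5))))] .n) .n))) (.c k47 (.q k240 [(.s k48 k53 2 (.s k112 k176 7 (.s k122 k181 10 (.s k186
  k250 7 (.d k117 k127 k255 2 10))))), (.s k80 k160 11 (.s k48 k53 2 (.s k16 k32 3 (.s k144 k208 7
  (.s k96 k192 11 (.d k112 k64 k176 3 7)))))), (.s k10 k26 3 (.s k122 k181 10 (.s k250 k186 7 (.s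
  k170 k90 11 (.d k255 k245 k85 2 14)))))] (.c k111 (.q k239 [(.s k48 k53 2 (.s k112 k176 7 (.s k122
  k181 10 (.s k186 k250 7 (.d k117 k127 k255 2 10))))), (.s k80 k160 11 (.s k48 k53 2 (.s k16 k32 3
  (.s k144 k208 7 (.s k96 k192 11 (.d k112 k64 k176 3 7)))))), (.s k10 k26 3 (.s k122 k181 10 (.s
  k250 k186 7 (.s k170 k90 11 (.d k255 k245 k85 2 14)))))] (.c k96 (.q k101 [(.s k32 k170 10 (.d k48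
  k53 k16 2 3)), (.s k10 k26 3 (.s k15 k5 2 (.s k122 k181 10 (.s k250 k186 7 (.d k90 k165 k170 14
  11)))))] (.c k16 (.l (.s k170 k32 10 (.s k255 k85 14 (.s k48 k53 2 (.d k207 k223 k154 3 14)))))
  (.c k53 (.l (.s k10 k26 3 (.s k170 k32 10 (.s k255 k85 14 (.d k250 k245 k90 2 11))))) (.c k165 (.q
  k224 [(.s k48 k53 2 (.d k32 k170 k16 10 3)), (.s k10 k26 3 (.s k170 k32 10 (.s k255 k85 14 (.d
  k250 k245 k90 2 11)))), (.s k48 k53 2 (.s k207 k154 14 (.d k229 k234 k218 2 6)))] (.c k5 (.l (.s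
  k160 k80 11 (.s k32 k170 10 (.d k48 k53 k16 2 3)))) (.c k160 (.l (.s k170 k32 10 (.s k255 k85 14
  (.s k10 k26 3 (.d k250 k245 k90 2 11))))) (.c k170 (.l (.s k160 k80 11 (.s k48 k53 2 (.s k207 k154
  14 (.d k229 k234 k218 2 6))))) .n)))) (.c k170 (.l (.s k10 k26 3 (.s k48 k53 2 (.s k112 k176 7 (.s
  k90 k79 6 (.d k15 k5 k165 2 14)))))) (.c k224 (.q k165 [(.s k32 k170 10 (.d k48 k53 k16 2 3)), (.s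
  k15 k90 14 (.d k10 k5 k26 2 3))] (.c k32 (.l (.s k160 k80 11 (.s k10 k26 3 (.d k15 k5 k90 2 14))))
  (.c k160 (.l (.s k32 k170 10 (.d k48 k53 k16 2 3))) .n))) .n)))))) (.c k101 (.q k96 [(.s k80 k160
  11 (.s k112 k64 3 (.d k48 k53 k176 2 7))), (.s k10 k26 3 (.s k15 k5 2 (.s k122 k181 10 (.s k250
  k186 7 (.d k90 k165 k170 14 11))))), (.s k160 k80 11 (.s k48 k53 2 (.d k32 k224 k16 7 3)))] (.c
  k53 (.l (.s k80 k160 11 (.s k64 k112 3 (.s k192 k128 7 (.s k144 k48 11 (.d k208 k224 k16 3 7))))))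
  (.c k165 (.q k224 [(.d k160 k32 k80 7 11), (.s k48 k53 2 (.d k192 k208 k144 3 11))] (.c k37 (.l
  (.s k229 k234 2 (.d k160 k32 k80 7 11))) (.c k160 (.q k170 [(.s k192 k208 3 (.d k48 k53 k144 2
  11)), (.s k229 k234 2 (.s k255 k85 14 (.d k207 k223 k218 3 6)))] (.c k37 (.l (.s k229 k234 2 (.s
  k255 k85 14 (.d k207 k223 k218 3 6)))) (.c k229 (.q k37 [(.s k26 k10 3 (.d k48 k53 k15 2 6)), (.s
  k48 k53 2 (.d k192 k208 k144 3 11)), (.s k255 k85 14 (.s k10 k26 3 (.d k250 k245 k90 2 11)))] .n)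
  .n))) (.c k170 (.l (.d k160 k32 k80 7 11)) (.c k229 (.q k37 [(.d k160 k32 k80 7 11), (.s k26 k10 3
  (.d k48 k53 k15 2 6))] (.c k160 (.q k170 [(.s k26 k10 3 (.d k48 k53 k15 2 6)), (.s k48 k53 2 (.d
  k192 k208 k144 3 11)), (.s k255 k85 14 (.s k10 k26 3 (.d k250 k245 k90 2 11)))] .n) (.c k170 (.l
  (.d k160 k32 k80 7 11)) .n))) .n))))) (.c k224 (.q k165 [(.s k10 k26 3 (.d k15 k5 k90 2 14)), (.s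
  k80 k160 11 (.s k112 k64 3 (.d k48 k53 k176 2 7)))] .n) .n)))) (.c k165 (.q k224 [(.s k160 k80 11
  (.s k48 k53 2 (.d k32 k96 k16 7 3))), (.s k10 k26 3 (.s k122 k181 10 (.s k250 k186 7 (.s k170 k90
  11 (.d k255 k245 k85 2 14)))))] (.c k16 (.l (.s k160 k80 11 (.s k96 k32 7 (.s k48 k53 2 (.d k192
  k208 k144 3 11))))) (.c k96 (.q k101 [(.s k48 k53 2 (.d k32 k170 k16 10 3)), (.s k10 k26 3 (.s
  k170 k32 10 (.s k255 k85 14 (.d k250 k245 k90 2 11)))), (.s k48 k53 2 (.s k207 k154 14 (.d k229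
  k234 k218 2 6)))] (.c k5 (.l (.s k160 k80 11 (.s k32 k170 10 (.d k48 k53 k16 2 3)))) (.c k160 (.l
  (.s k170 k32 10 (.s k255 k85 14 (.s k10 k26 3 (.d k250 k245 k90 2 11))))) (.c k170 (.l (.s k160
  k80 11 (.s k48 k53 2 (.s k207 k154 14 (.d k229 k234 k218 2 6))))) .n)))) (.c k101 (.q k96 [(.d
  k160 k32 k80 7 11), (.s k48 k53 2 (.d k192 k208 k144 3 11))] (.c k37 (.l (.s k229 k234 2 (.d k160
  k32 k80 7 11))) (.c k160 (.q k170 [(.s k192 k208 3 (.d k48 k53 k144 2 11)), (.s k229 k234 2 (.s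
  k255 k85 14 (.d k207 k223 k218 3 6)))] (.c k37 (.l (.s k229 k234 2 (.s k255 k85 14 (.d k207 k223
  k218 3 6)))) (.c k229 (.q k37 [(.s k26 k10 3 (.d k48 k53 k15 2 6)), (.s k48 k53 2 (.d k192 k208
  k144 3 11)), (.s k255 k85 14 (.s k10 k26 3 (.d k250 k245 k90 2 11)))] .n) .n))) (.c k170 (.l (.d
  k160 k32 k80 7 11)) (.c k229 (.q k37 [(.d k160 k32 k80 7 11), (.s k26 k10 3 (.d k48 k53 k15 2 6))]
  (.c k160 (.q k170 [(.s k26 k10 3 (.d k48 k53 k15 2 6)), (.s k48 k53 2 (.d k192 k208 k144 3 11)),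
  (.s k255 k85 14 (.s k10 k26 3 (.d k250 k245 k90 2 11)))] .n) (.c k170 (.l (.d k160 k32 k80 7 11))
  .n))) .n))))) (.c k160 (.q k170 [(.s k48 k53 2 (.d k32 k101 k16 10 3)), (.s k10 k26 3 (.s k250 k90
  11 (.d k122 k186 k181 7 10)))] (.c k16 (.l (.s k255 k85 14 (.s k122 k181 10 (.d k250 k245 k186 2
  7)))) (.c k96 (.l (.s k101 k32 10 (.s k255 k85 14 (.s k10 k26 3 (.d k250 k245 k90 2 11))))) (.c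
  k101 (.q k96 [(.s k192 k208 3 (.d k48 k53 k144 2 11)), (.s k229 k234 2 (.s k255 k85 14 (.d k207
  k223 k218 3 6)))] (.c k37 (.l (.s k229 k234 2 (.s k255 k85 14 (.d k207 k223 k218 3 6)))) (.c k229
  (.q k37 [(.s k26 k10 3 (.d k48 k53 k15 2 6)), (.s k48 k53 2 (.d k192 k208 k144 3 11)), (.s k255
  k85 14 (.s k10 k26 3 (.d k250 k245 k90 2 11)))] .n) .n))) .n)))) (.c k170 (.l (.s k160 k80 11 (.s
  k48 k53 2 (.d k32 k16 k96 3 7)))) .n)))))) (.c k176 (.l (.s k160 k80 11 (.s k48 k53 2 (.s k32 k16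
  3 (.s k224 k96 7 (.s k101 k170 10 (.s k207 k154 14 (.d k229 k234 k218 2 6)))))))) (.c k224 (.q
  k165 [(.s k10 k26 3 (.d k15 k5 k90 2 14)), (.s k80 k160 11 (.s k90 k15 14 (.s k85 k95 2 (.s k255
  k170 14 (.d k245 k250 k5 2 11))))), (.s k10 k26 3 (.s k122 k181 10 (.s k250 k186 7 (.s k170 k90 11
  (.d k255 k245 k85 2 14)))))] (.c k90 (.l (.s k10 k26 3 (.s k5 k15 2 (.s k245 k85 11 (.s k122 k181
  10 (.d k250 k255 k186 2 7)))))) (.c k96 (.q k101 [(.s k32 k170 10 (.d k48 k53 k16 2 3)), (.s k15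
  k90 14 (.d k10 k5 k26 2 3))] (.c k32 (.l (.s k160 k80 11 (.s k10 k26 3 (.d k15 k5 k90 2 14)))) (.c
  k160 (.l (.s k32 k170 10 (.d k48 k53 k16 2 3))) .n))) (.c k101 (.q k96 [(.s k10 k26 3 (.d k15 k5
  k90 2 14)), (.s k80 k160 11 (.s k112 k64 3 (.d k48 k53 k176 2 7)))] .n) .n)))) .n)))))) (.c k165
  (.q k224 [(.s k160 k80 11 (.s k48 k53 2 (.d k32 k16 k96 3 7))), (.s k10 k26 3 (.s k122 k181 10 (.s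
  k250 k186 7 (.s k170 k90 11 (.d k255 k245 k85 2 14)))))] (.c k16 (.l (.s k160 k80 11 (.s k96 k32 7
  (.s k48 k53 2 (.d k192 k208 k144 3 11))))) (.c k111 (.q k239 [(.s k160 k80 11 (.s k48 k53 2 (.d
  k32 k96 k16 7 3))), (.s k10 k26 3 (.s k122 k181 10 (.s k250 k186 7 (.s k170 k90 11 (.d k255 k245
  k85 2 14)))))] (.c k16 (.l (.s k160 k80 11 (.s k96 k32 7 (.s k48 k53 2 (.d k192 k208 k144 3
  11))))) (.c k96 (.q k101 [(.s k48 k53 2 (.d k32 k170 k16 10 3)), (.s k10 k26 3 (.s k170 k32 10 (.s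
  k255 k85 14 (.d k250 k245 k90 2 11)))), (.s k48 k53 2 (.s k207 k154 14 (.d k229 k234 k218 2 6)))]
  (.c k5 (.l (.s k160 k80 11 (.s k32 k170 10 (.d k48 k53 k16 2 3)))) (.c k160 (.l (.s k170 k32 10
  (.s k255 k85 14 (.s k10 k26 3 (.d k250 k245 k90 2 11))))) (.c k170 (.l (.s k160 k80 11 (.s k48 k53
  2 (.s k207 k154 14 (.d k229 k234 k218 2 6))))) .n)))) (.c k101 (.q k96 [(.d k160 k32 k80 7 11),
  (.s k48 k53 2 (.d k192 k208 k144 3 11))] (.c k37 (.l (.s k229 k234 2 (.d k160 k32 k80 7 11))) (.c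
  k160 (.q k170 [(.s k192 k208 3 (.d k48 k53 k144 2 11)), (.s k229 k234 2 (.s k255 k85 14 (.d k207
  k223 k218 3 6)))] (.c k37 (.l (.s k229 k234 2 (.s k255 k85 14 (.d k207 k223 k218 3 6)))) (.c k229
  (.q k37 [(.s k26 k10 3 (.d k48 k53 k15 2 6)), (.s k48 k53 2 (.d k192 k208 k144 3 11)), (.s k255
  k85 14 (.s k10 k26 3 (.d k250 k245 k90 2 11)))] .n) .n))) (.c k170 (.l (.d k160 k32 k80 7 11)) (.c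
  k229 (.q k37 [(.d k160 k32 k80 7 11), (.s k26 k10 3 (.d k48 k53 k15 2 6))] (.c k160 (.q k170 [(.s
  k26 k10 3 (.d k48 k53 k15 2 6)), (.s k48 k53 2 (.d k192 k208 k144 3 11)), (.s k255 k85 14 (.s k10
  k26 3 (.d k250 k245 k90 2 11)))] .n) (.c k170 (.l (.d k160 k32 k80 7 11)) .n))) .n))))) (.c k160
  (.q k170 [(.s k48 k53 2 (.d k32 k101 k16 10 3)), (.s k10 k26 3 (.s k250 k90 11 (.d k122 k186 k181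
  7 10)))] (.c k16 (.l (.s k255 k85 14 (.s k122 k181 10 (.d k250 k245 k186 2 7)))) (.c k96 (.l (.s
  k101 k32 10 (.s k255 k85 14 (.s k10 k26 3 (.d k250 k245 k90 2 11))))) (.c k101 (.q k96 [(.s k192
  k208 3 (.d k48 k53 k144 2 11)), (.s k229 k234 2 (.s k255 k85 14 (.d k207 k223 k218 3 6)))] (.c k37
  (.l (.s k229 k234 2 (.s k255 k85 14 (.d k207 k223 k218 3 6)))) (.c k229 (.q k37 [(.s k26 k10 3 (.d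
  k48 k53 k15 2 6)), (.s k48 k53 2 (.d k192 k208 k144 3 11)), (.s k255 k85 14 (.s k10 k26 3 (.d k250
  k245 k90 2 11)))] .n) .n))) .n)))) (.c k170 (.l (.s k160 k80 11 (.s k48 k53 2 (.d k32 k16 k96 3
  7)))) .n)))))) (.c k160 (.q k170 [(.s k10 k26 3 (.s k250 k90 11 (.d k122 k186 k181 7 10))), (.s
  k192 k208 3 (.s k128 k64 7 (.s k191 k149 6 (.d k255 k127 k85 7 14)))), (.s k255 k85 14 (.s k122
  k181 10 (.d k250 k245 k186 2 7)))] (.c k111 (.q k239 [(.s k48 k53 2 (.d k32 k101 k16 10 3)), (.s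
  k10 k26 3 (.s k250 k90 11 (.d k122 k186 k181 7 10)))] (.c k16 (.l (.s k255 k85 14 (.s k122 k181 10
  (.d k250 k245 k186 2 7)))) (.c k96 (.l (.s k101 k32 10 (.s k255 k85 14 (.s k10 k26 3 (.d k250 k245
  k90 2 11))))) (.c k101 (.q k96 [(.s k192 k208 3 (.d k48 k53 k144 2 11)), (.s k229 k234 2 (.s k255
  k85 14 (.d k207 k223 k218 3 6)))] (.c k37 (.l (.s k229 k234 2 (.s k255 k85 14 (.d k207 k223 k218 3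
  6)))) (.c k229 (.q k37 [(.s k26 k10 3 (.d k48 k53 k15 2 6)), (.s k48 k53 2 (.d k192 k208 k144 3
  11)), (.s k255 k85 14 (.s k10 k26 3 (.d k250 k245 k90 2 11)))] .n) .n))) .n)))) (.c k181 (.l (.s
  k255 k85 14 (.s k10 k26 3 (.d k250 k245 k90 2 11)))) (.c k239 (.q k111 [(.s k10 k26 3 (.s k250 k90
  11 (.d k122 k186 k181 7 10))), (.s k48 k53 2 (.s k207 k159 11 (.s k138 k69 10 (.d k154 k186 k101 3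
  14)))), (.s k255 k85 14 (.s k10 k26 3 (.d k250 k245 k90 2 11)))] .n) .n)))) (.c k170 (.l (.s k160
  k80 11 (.s k32 k96 7 (.d k48 k53 k16 2 3)))) (.c k239 (.q k111 [(.s k160 k80 11 (.s k32 k96 7 (.d
  k48 k53 k16 2 3))), (.s k10 k26 3 (.s k207 k159 11 (.s k138 k69 10 (.s k202 k74 7 (.d k192 k197
  k208 2 3))))), (.s k160 k80 11 (.s k96 k32 7 (.s k48 k53 2 (.d k192 k208 k144 3 11))))] (.c k160
  (.q k170 [(.s k10 k26 3 (.s k250 k90 11 (.d k122 k186 k181 7 10))), (.s k48 k53 2 (.s k207 k159 11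
  (.s k138 k69 10 (.d k154 k186 k101 3 14)))), (.s k255 k85 14 (.s k10 k26 3 (.d k250 k245 k90 2
  11)))] .n) (.c k170 (.l (.s k160 k80 11 (.s k32 k96 7 (.d k48 k53 k16 2 3)))) .n))) .n)))))) (.c
  k176 (.l (.s k10 k26 3 (.s k53 k48 2 (.s k181 k122 10 (.s k245 k117 7 (.s k255 k250 2 (.s k85 k170
  14 (.d k5 k15 k165 2 11)))))))) (.c k224 (.q k165 [(.s k10 k26 3 (.d k15 k5 k90 2 14)), (.s k80
  k160 11 (.s k90 k15 14 (.s k85 k95 2 (.s k255 k170 14 (.d k245 k250 k5 2 11))))), (.s k10 k26 3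
  (.s k122 k181 10 (.s k250 k186 7 (.s k170 k90 11 (.d k255 k245 k85 2 14)))))] (.c k90 (.l (.s k10
  k26 3 (.s k5 k15 2 (.s k245 k85 11 (.s k122 k181 10 (.d k250 k255 k186 2 7)))))) (.c k111 (.q k239
  [(.s k10 k26 3 (.d k15 k5 k90 2 14)), (.s k80 k160 11 (.s k90 k15 14 (.s k85 k95 2 (.s k255 k170
  14 (.d k245 k250 k5 2 11))))), (.s k10 k26 3 (.s k122 k181 10 (.s k250 k186 7 (.s k170 k90 11 (.d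
  k255 k245 k85 2 14)))))] (.c k90 (.l (.s k10 k26 3 (.s k5 k15 2 (.s k245 k85 11 (.s k122 k181 10
  (.d k250 k255 k186 2 7)))))) (.c k96 (.q k101 [(.s k32 k170 10 (.d k48 k53 k16 2 3)), (.s k15 k90
  14 (.d k10 k5 k26 2 3))] (.c k32 (.l (.s k160 k80 11 (.s k10 k26 3 (.d k15 k5 k90 2 14)))) (.c
  k160 (.l (.s k32 k170 10 (.d k48 k53 k16 2 3))) .n))) (.c k101 (.q k96 [(.s k10 k26 3 (.d k15 k5
  k90 2 14)), (.s k80 k160 11 (.s k112 k64 3 (.d k48 k53 k176 2 7)))] .n) .n)))) (.c k239 (.q k111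
  [(.s k10 k26 3 (.d k15 k5 k90 2 14)), (.s k48 k53 2 (.s k176 k112 7 (.s k207 k159 11 (.d k154 k143
  k101 6 14))))] (.c k5 (.l (.s k26 k10 3 (.s k15 k90 14 (.d k48 k53 k37 2 6)))) (.c k229 (.q k234
  [(.s k10 k26 3 (.d k15 k5 k90 2 14)), (.s k48 k53 2 (.s k176 k112 7 (.s k207 k159 11 (.d k154 k143
  k101 6 14))))] (.c k5 (.l (.s k26 k10 3 (.s k15 k90 14 (.d k48 k53 k37 2 6)))) .n)) (.c k234 (.q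
  k229 [(.d k207 k218 k159 6 11), (.s k10 k26 3 (.d k15 k5 k90 2 14))] .n) .n)))) .n)))) (.c k239
  (.q k111 [(.s k48 k53 2 (.s k112 k176 7 (.s k122 k181 10 (.s k186 k250 7 (.d k117 k127 k255 2
  10))))), (.s k26 k10 3 (.s k48 k53 2 (.s k207 k159 11 (.s k154 k101 14 (.d k218 k229 k90 6 7))))),
  (.s k10 k26 3 (.s k122 k181 10 (.s k250 k186 7 (.s k170 k90 11 (.d k255 k245 k85 2 14)))))] (.c
  k165 (.q k224 [(.s k160 k80 11 (.s k32 k96 7 (.d k48 k53 k16 2 3))), (.s k10 k26 3 (.s k207 k159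
  11 (.s k138 k69 10 (.s k202 k74 7 (.d k192 k197 k208 2 3))))), (.s k160 k80 11 (.s k96 k32 7 (.s
  k48 k53 2 (.d k192 k208 k144 3 11))))] (.c k160 (.q k170 [(.s k10 k26 3 (.s k250 k90 11 (.d k122
  k186 k181 7 10))), (.s k48 k53 2 (.s k207 k159 11 (.s k138 k69 10 (.d k154 k186 k101 3 14)))), (.s
  k255 k85 14 (.s k10 k26 3 (.d k250 k245 k90 2 11)))] .n) (.c k170 (.l (.s k160 k80 11 (.s k32 k96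
  7 (.d k48 k53 k16 2 3)))) .n))) (.c k191 (.l (.s k48 k53 2 (.s k112 k176 7 (.s k122 k181 10 (.s
  k186 k250 7 (.d k117 k127 k255 2 10)))))) (.c k224 (.q k165 [(.s k10 k26 3 (.d k15 k5 k90 2 14)),
  (.s k48 k53 2 (.s k176 k112 7 (.s k207 k159 11 (.d k154 k143 k101 6 14))))] (.c k5 (.l (.s k26 k10
  3 (.s k15 k90 14 (.d k48 k53 k37 2 6)))) (.c k229 (.q k234 [(.s k10 k26 3 (.d k15 k5 k90 2 14)),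
  (.s k48 k53 2 (.s k176 k112 7 (.s k207 k159 11 (.d k154 k143 k101 6 14))))] (.c k5 (.l (.s k26 k10
  3 (.s k15 k90 14 (.d k48 k53 k37 2 6)))) .n)) (.c k234 (.q k229 [(.d k207 k218 k159 6 11), (.s k10
  k26 3 (.d k15 k5 k90 2 14))] .n) .n)))) .n)))) .n)))))) (.c k48 (.q k2 [(.s k3 k1 0 (.s k43 k23 5
  (.s k41 k40 0 (.d k22 k62 k60 5 6)))), (.s k62 k22 5 (.s k26 k10 3 (.s k50 k54 1 (.s k38 k14 5 (.d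
  k34 k46 k18 1 3))))), (.s k3 k1 0 (.s k10 k26 3 (.s k15 k5 2 (.s k6 k14 1 (.s k9 k12 2 (.d k11 k8
  k7 0 1))))))] .n) (.c k53 (.q k2 [(.s k3 k1 0 (.s k43 k23 5 (.s k41 k40 0 (.d k22 k62 k60 5 6)))),
  (.s k62 k22 5 (.s k26 k10 3 (.s k50 k54 1 (.s k34 k18 3 (.d k38 k46 k14 1 5))))), (.s k3 k1 0 (.s
  k10 k26 3 (.s k5 k15 2 (.s k6 k14 1 (.s k12 k9 2 (.d k4 k7 k8 0 1))))))] (.c k5 (.q k37 [(.s k26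
  k10 3 (.s k15 k48 6 (.d k47 k32 k31 2 3))), (.s k3 k1 0 (.s k22 k62 5 (.s k41 k60 6 (.d k43 k40
  k23 0 5))))] .n) (.c k37 (.q k5 [(.d k10 k15 k26 2 3), (.s k3 k1 0 (.s k22 k62 5 (.s k41 k60 6 (.d
  k43 k40 k23 0 5))))] .n) .n))) .n))))))))))))

def t191 : T TT 256 :=
  (.f k42 k21 6 (.q k12 [(.s k46 k29 4 (.s k8 k4 1 (.s k38 k34 1 (.d k25 k59 k51 4 6))))] (.c k4 (.q
  k3 [(.s k43 k23 5 (.s k2 k1 0 (.s k41 k40 0 (.d k22 k62 k60 5 6)))), (.s k6 k9 2 (.s k46 k29 4 (.s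
  k38 k34 1 (.s k22 k54 3 (.d k2 k1 k62 0 5))))), (.s k9 k6 2 (.s k46 k29 4 (.s k38 k34 1 (.s k25
  k51 6 (.s k41 k57 3 (.d k43 k40 k23 0 5))))))] (.c k38 (.q k55 [(.s k43 k23 5 (.s k2 k1 0 (.s k41
  k40 0 (.d k22 k62 k60 5 6)))), (.s k23 k43 5 (.s k39 k7 3 (.s k51 k59 1 (.s k19 k35 3 (.d k27 k31
  k15 1 5))))), (.s k2 k1 0 (.s k6 k9 2 (.s k14 k10 1 (.s k46 k29 4 (.d k62 k30 k22 3 5)))))] (.c
  k41 (.l (.s k9 k6 2 (.s k43 k23 5 (.s k59 k51 1 (.s k8 k25 4 (.d k11 k10 k27 0 3)))))) .n)) (.c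
  k55 (.q k38 [(.d k46 k34 k29 1 4), (.s k2 k1 0 (.s k22 k62 5 (.d k6 k9 k54 2 3)))] .n) .n))) (.c
  k8 (.q k3 [(.s k2 k1 0 (.s k22 k62 5 (.s k41 k60 6 (.d k43 k40 k23 0 5)))), (.s k6 k9 2 (.s k46
  k29 4 (.s k38 k34 1 (.s k22 k54 3 (.d k2 k1 k62 0 5))))), (.s k9 k6 2 (.s k46 k29 4 (.s k38 k34 1
  (.s k25 k51 6 (.s k41 k57 3 (.d k43 k40 k23 0 5))))))] .n) (.c k17 (.l (.s k8 k4 1 (.s k25 k59 4
  (.s k38 k51 6 (.d k46 k34 k29 1 4))))) (.c k25 (.q k3 [(.s k43 k23 5 (.s k2 k1 0 (.s k41 k40 0 (.d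
  k22 k62 k60 5 6)))), (.s k1 k2 0 (.s k8 k4 1 (.s k9 k6 2 (.s k5 k13 1 (.d k10 k11 k15 0 2))))),
  (.s k6 k9 2 (.s k43 k23 5 (.s k41 k40 0 (.s k22 k60 6 (.s k38 k54 3 (.d k46 k29 k34 4 1))))))] (.c
  k17 (.l (.s k29 k46 4 (.s k2 k1 0 (.s k22 k62 5 (.s k41 k60 6 (.d k43 k40 k23 0 5)))))) (.c k29
  (.q k17 [(.s k43 k23 5 (.s k2 k1 0 (.s k41 k40 0 (.d k22 k62 k60 5 6)))), (.s k4 k8 1 (.s k51 k34
  4 (.s k6 k9 2 (.s k23 k43 5 (.s k55 k59 1 (.d k7 k5 k39 0 3)))))), (.s k1 k2 0 (.s k8 k4 1 (.s k9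
  k6 2 (.s k5 k13 1 (.d k10 k11 k15 0 2)))))] .n) .n))) (.c k29 (.q k3 [(.s k43 k23 5 (.s k2 k1 0
  (.s k41 k40 0 (.d k22 k62 k60 5 6)))), (.s k1 k2 0 (.s k8 k4 1 (.s k9 k6 2 (.s k5 k13 1 (.d k10
  k11 k15 0 2))))), (.s k8 k4 1 (.s k9 k6 2 (.s k43 k23 5 (.s k25 k59 4 (.d k41 k40 k57 0 3)))))]
  (.c k17 (.q k25 [(.d k8 k4 k59 1 4), (.s k9 k6 2 (.s k43 k23 5 (.d k41 k40 k57 0 3)))] .n) (.c k25
  (.q k17 [(.s k43 k23 5 (.s k2 k1 0 (.s k41 k40 0 (.d k22 k62 k60 5 6)))), (.s k4 k8 1 (.s k51 k34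
  4 (.s k6 k9 2 (.s k23 k43 5 (.s k55 k59 1 (.d k7 k5 k39 0 3)))))), (.s k1 k2 0 (.s k8 k4 1 (.s k9
  k6 2 (.s k5 k13 1 (.d k10 k11 k15 0 2)))))] .n) .n))) (.c k34 (.q k3 [(.s k43 k23 5 (.s k2 k1 0
  (.s k41 k40 0 (.d k22 k62 k60 5 6)))), (.s k1 k2 0 (.s k8 k4 1 (.s k9 k6 2 (.s k5 k13 1 (.d k10
  k11 k15 0 2))))), (.s k8 k4 1 (.s k9 k6 2 (.s k43 k23 5 (.s k25 k59 4 (.d k41 k40 k57 0 3)))))]
  .n) (.c k38 (.q k3 [(.s k43 k23 5 (.s k2 k1 0 (.s k41 k40 0 (.d k22 k62 k60 5 6)))), (.s k1 k2 0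
  (.s k9 k6 2 (.s k5 k13 1 (.s k10 k15 2 (.d k8 k4 k11 1 0))))), (.s k9 k6 2 (.s k43 k23 5 (.s k41
  k40 0 (.s k25 k57 3 (.d k8 k4 k59 1 4)))))] (.c k4 (.q k55 [(.s k43 k23 5 (.s k2 k1 0 (.s k41 k40
  0 (.d k22 k62 k60 5 6)))), (.s k23 k43 5 (.s k39 k7 3 (.s k51 k59 1 (.s k19 k35 3 (.d k27 k31 k15
  1 5))))), (.s k2 k1 0 (.s k6 k9 2 (.s k14 k10 1 (.s k46 k29 4 (.d k62 k30 k22 3 5)))))] (.c k41
  (.l (.s k9 k6 2 (.s k43 k23 5 (.s k59 k51 1 (.s k8 k25 4 (.d k11 k10 k27 0 3)))))) .n)) (.c k22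
  (.l (.s k2 k1 0 (.s k4 k8 1 (.s k6 k9 2 (.s k10 k14 1 (.d k5 k7 k15 0 2)))))) (.c k55 (.l (.s k4
  k8 1 (.s k2 k1 0 (.s k22 k62 5 (.s k41 k60 6 (.d k43 k40 k23 0 5)))))) .n)))) (.c k46 (.q k3 [(.s
  k2 k1 0 (.s k43 k23 5 (.s k41 k40 0 (.d k22 k62 k60 5 6)))), (.s k1 k2 0 (.s k8 k4 1 (.s k9 k6 2
  (.s k5 k13 1 (.d k10 k11 k15 0 2))))), (.s k8 k4 1 (.s k9 k6 2 (.s k43 k23 5 (.s k25 k59 4 (.d k41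
  k40 k57 0 3)))))] (.c k166 (.q k226 [(.s k2 k1 0 (.s k43 k23 5 (.s k41 k40 0 (.d k22 k62 k60 5
  6)))), (.s k1 k2 0 (.s k8 k4 1 (.s k9 k6 2 (.s k5 k13 1 (.d k10 k11 k15 0 2))))), (.s k8 k4 1 (.s
  k9 k6 2 (.s k43 k23 5 (.s k25 k59 4 (.d k41 k40 k57 0 3)))))] .n) (.c k226 (.q k166 [(.s k2 k1 0
  (.s k43 k23 5 (.s k41 k40 0 (.d k22 k62 k60 5 6)))), (.s k4 k8 1 (.s k85 k247 12 (.s k170 k255 14
  (.s k243 k89 14 (.d k162 k174 k81 1 12)))))] .n) .n))) (.c k51 (.q k3 [(.s k43 k23 5 (.s k2 k1 0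
  (.s k41 k40 0 (.d k22 k62 k60 5 6)))), (.s k1 k2 0 (.s k8 k4 1 (.s k9 k6 2 (.s k5 k13 1 (.d k10
  k11 k15 0 2))))), (.s k8 k4 1 (.s k9 k6 2 (.s k43 k23 5 (.s k25 k59 4 (.d k41 k40 k57 0 3)))))]
  .n) (.c k55 (.l (.s k46 k29 4 (.s k8 k4 1 (.s k38 k34 1 (.d k25 k59 k51 4 6))))) (.c k59 (.q k3
  [(.s k43 k23 5 (.s k2 k1 0 (.s k41 k40 0 (.d k22 k62 k60 5 6)))), (.s k1 k2 0 (.s k8 k4 1 (.s k9
  k6 2 (.s k5 k13 1 (.d k10 k11 k15 0 2))))), (.s k6 k9 2 (.s k43 k23 5 (.s k46 k29 4 (.s k38 k34 1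
  (.s k22 k54 3 (.d k41 k40 k60 0 6))))))] (.c k153 (.q k200 [(.s k43 k23 5 (.s k2 k1 0 (.s k41 k40
  0 (.d k22 k62 k60 5 6)))), (.s k8 k4 1 (.s k9 k6 2 (.s k136 k72 7 (.s k204 k68 9 (.s k137 k70 10
  (.d k11 k10 k74 0 8))))))] .n) (.c k200 (.q k153 [(.s k43 k23 5 (.s k2 k1 0 (.s k41 k40 0 (.d k22
  k62 k60 5 6)))), (.s k1 k2 0 (.s k8 k4 1 (.s k9 k6 2 (.s k5 k13 1 (.d k10 k11 k15 0 2))))), (.s k6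
  k9 2 (.s k43 k23 5 (.s k46 k29 4 (.s k38 k34 1 (.s k22 k54 3 (.d k41 k40 k60 0 6))))))] .n) .n)))
  .n)))))))))))))

def t192 : T TT 256 :=
  (.q k12 [(.s k8 k4 1 (.s k46 k29 4 (.s k42 k21 6 (.s k38 k34 1 (.d k25 k59 k51 4 6)))))] (.c k4
  (.q k62 [(.s k46 k29 4 (.s k30 k14 3 (.s k60 k61 0 (.s k44 k28 3 (.d k45 k47 k15 0 4))))), (.s k42
  k21 6 (.s k22 k2 5 (.s k60 k61 0 (.s k40 k20 5 (.d k41 k43 k3 0 6))))), (.s k42 k21 6 (.s k2 k22 5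
  (.s k46 k29 4 (.s k14 k30 3 (.s k6 k10 1 (.d k3 k1 k9 0 2))))))] .n) (.c k8 (.q k62 [(.s k42 k21 6
  (.s k22 k2 5 (.s k60 k61 0 (.s k40 k20 5 (.d k41 k43 k3 0 6))))), (.s k46 k29 4 (.s k30 k14 3 (.s
  k60 k61 0 (.s k44 k28 3 (.d k45 k47 k15 0 4))))), (.s k42 k21 6 (.s k2 k22 5 (.s k46 k29 4 (.s k14
  k30 3 (.s k6 k10 1 (.d k3 k9 k1 2 0))))))] .n) (.c k17 (.l (.s k8 k4 1 (.s k42 k21 6 (.s k25 k59 4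
  (.s k38 k51 6 (.d k46 k29 k34 4 1)))))) (.c k21 (.q k62 [(.s k46 k29 4 (.s k30 k14 3 (.s k60 k61 0
  (.s k44 k28 3 (.d k45 k47 k15 0 4))))), (.s k4 k8 1 (.s k60 k61 0 (.s k20 k40 5 (.s k36 k52 3 (.s
  k24 k48 5 (.d k28 k16 k44 1 3)))))), (.s k8 k4 1 (.s k46 k29 4 (.s k14 k30 3 (.s k15 k13 0 (.s k10
  k5 2 (.s k9 k11 0 (.d k6 k2 k3 1 2)))))))] (.c k1 (.l (.s k8 k4 1 (.s k46 k29 4 (.s k14 k30 3 (.s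
  k15 k13 0 (.s k10 k5 2 (.s k9 k11 0 (.d k6 k2 k3 1 2)))))))) (.c k28 (.q k15 [(.s k14 k13 0 (.d
  k46 k30 k29 3 4)), (.s k4 k8 1 (.s k5 k10 2 (.s k6 k7 0 (.s k9 k3 2 (.d k13 k14 k1 0 1)))))] (.c
  k13 (.l (.s k46 k29 4 (.s k30 k14 3 (.d k60 k61 k45 0 4)))) (.c k14 (.l (.s k4 k8 1 (.s k5 k10 2
  (.s k6 k7 0 (.s k9 k3 2 (.s k13 k1 1 (.s k29 k46 4 (.d k61 k60 k45 0 3)))))))) .n))) (.c k61 (.q
  k10 [(.s k15 k5 2 (.s k14 k13 0 (.d k46 k29 k30 4 3))), (.s k4 k8 1 (.s k5 k15 2 (.s k6 k7 0 (.s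
  k2 k14 1 (.d k3 k1 k9 0 2))))), (.s k8 k4 1 (.s k9 k11 0 (.s k46 k29 4 (.s k14 k30 3 (.d k6 k2 k3
  1 2)))))] (.c k1 (.q k41 [(.s k46 k29 4 (.s k14 k30 3 (.d k15 k13 k5 0 2))), (.s k8 k4 1 (.s k9
  k11 0 (.s k25 k57 3 (.s k59 k42 4 (.d k51 k55 k38 1 6)))))] (.c k25 (.l (.s k4 k8 1 (.s k5 k15 2
  (.s k6 k7 0 (.s k14 k2 1 (.d k46 k30 k29 3 4)))))) .n)) (.c k9 (.l (.s k15 k5 2 (.s k46 k29 4 (.d
  k14 k13 k30 0 3)))) (.c k14 (.l (.s k8 k4 1 (.s k5 k15 2 (.s k9 k11 0 (.s k1 k13 1 (.d k3 k2 k6 0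
  2)))))) (.c k41 (.q k1 [(.s k3 k2 0 (.s k8 k4 1 (.d k9 k11 k6 0 2))), (.s k2 k3 0 (.s k15 k5 2 (.d
  k14 k13 k6 0 1))), (.s k8 k4 1 (.s k5 k15 2 (.d k9 k11 k13 0 1)))] .n) .n))))) .n)))) (.c k25 (.q
  k15 [(.s k8 k4 1 (.s k10 k5 2 (.s k9 k11 0 (.s k6 k3 2 (.d k14 k13 k2 0 1))))), (.s k13 k14 0 (.s
  k29 k46 4 (.s k45 k61 3 (.s k30 k60 4 (.d k31 k28 k47 0 3))))), (.s k5 k10 2 (.s k21 k42 6 (.s k37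
  k53 3 (.s k26 k48 6 (.d k31 k16 k47 2 3)))))] .n) (.c k29 (.q k15 [(.s k4 k8 1 (.s k5 k10 2 (.s k6
  k7 0 (.s k13 k14 0 (.d k9 k1 k3 1 2))))), (.s k5 k10 2 (.s k21 k42 6 (.s k37 k53 3 (.s k26 k48 6
  (.d k31 k16 k47 2 3))))), (.s k4 k8 1 (.s k21 k42 6 (.s k38 k55 4 (.s k14 k13 0 (.s k26 k50 5 (.d
  k31 k16 k47 2 3))))))] .n) (.c k34 (.l (.s k4 k8 1 (.s k21 k42 6 (.s k38 k55 4 (.s k25 k51 6 (.d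
  k29 k46 k17 4 1)))))) (.c k38 (.q k15 [(.s k4 k8 1 (.s k5 k10 2 (.s k6 k7 0 (.s k9 k3 2 (.d k13
  k14 k1 0 1))))), (.s k5 k10 2 (.s k21 k42 6 (.s k37 k53 3 (.s k26 k48 6 (.d k31 k16 k47 2 3))))),
  (.s k13 k14 0 (.s k29 k46 4 (.s k45 k61 3 (.s k30 k60 4 (.d k31 k28 k47 0 3)))))] .n) (.c k42 (.f
  k8 k4 1 (.f k46 k29 4 (.q k15 [(.s k14 k13 0 (.s k47 k31 3 (.s k45 k44 0 (.d k30 k62 k60 3 4)))),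
  (.s k10 k5 2 (.s k9 k11 0 (.s k6 k3 2 (.d k14 k13 k2 0 1))))] (.c k13 (.l (.s k10 k5 2 (.s k9 k11
  0 (.s k6 k3 2 (.s k14 k2 1 (.s k47 k31 3 (.s k45 k44 0 (.d k30 k62 k60 3 4)))))))) (.c k14 (.q
  k170 [(.s k85 k255 14 (.s k89 k251 12 (.s k243 k166 14 (.d k81 k93 k162 1 12)))), (.s k10 k5 2 (.s
  k89 k251 12 (.s k90 k250 11 (.s k88 k91 0 (.d k240 k164 k165 13 14))))), (.s k5 k10 2 (.s k85 k255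
  14 (.s k165 k245 11 (.s k240 k90 14 (.d k160 k175 k80 2 11)))))] (.c k90 (.l (.s k85 k255 14 (.s
  k89 k251 12 (.s k81 k93 1 (.d k243 k162 k166 12 14))))) .n)) (.c k170 (.q k234 [(.s k14 k13 0 (.s
  k47 k31 3 (.s k45 k44 0 (.d k30 k62 k60 3 4)))), (.s k10 k5 2 (.s k9 k11 0 (.s k6 k3 2 (.d k14 k13
  k2 0 1))))] (.c k13 (.l (.s k10 k5 2 (.s k9 k11 0 (.s k6 k3 2 (.s k14 k2 1 (.s k47 k31 3 (.s k45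
  k44 0 (.d k30 k62 k60 3 4)))))))) (.c k14 (.q k45 [(.d k47 k44 k31 0 3), (.s k10 k5 2 (.s k11 k9 0
  (.s k60 k30 4 (.s k40 k20 5 (.s k56 k24 3 (.s k26 k41 4 (.d k48 k52 k37 1 6)))))))] (.c k31 (.l
  (.s k44 k47 0 (.d k60 k28 k30 3 4))) .n)) .n))) (.c k234 (.q k170 [(.s k10 k5 2 (.s k9 k11 0 (.s
  k6 k3 2 (.d k14 k13 k2 0 1)))), (.s k255 k85 14 (.s k89 k251 12 (.s k166 k243 14 (.d k174 k162 k93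
  1 12))))] (.c k213 (.l (.s k255 k85 14 (.s k89 k251 12 (.s k166 k243 14 (.d k174 k162 k93 1
  12))))) (.c k255 (.q k213 [(.s k14 k13 0 (.s k47 k31 3 (.s k45 k44 0 (.d k30 k62 k60 3 4)))), (.s
  k10 k5 2 (.s k89 k251 12 (.s k90 k250 11 (.s k243 k166 14 (.d k91 k88 k167 0 13)))))] .n) .n)))
  .n))))))) (.c k46 (.f k42 k21 6 (.q k15 [(.s k47 k31 3 (.s k10 k5 2 (.s k37 k32 2 (.d k26 k58 k48
  3 6)))), (.s k4 k8 1 (.s k5 k10 2 (.s k6 k7 0 (.s k9 k3 2 (.d k13 k14 k1 0 1))))), (.s k8 k4 1 (.s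
  k25 k59 4 (.s k13 k14 0 (.s k37 k49 5 (.d k47 k32 k31 2 3)))))] (.c k166 (.q k226 [(.s k47 k31 3
  (.s k10 k5 2 (.s k37 k32 2 (.d k26 k58 k48 3 6)))), (.s k4 k8 1 (.s k5 k10 2 (.s k6 k7 0 (.s k9 k3
  2 (.d k13 k14 k1 0 1))))), (.s k8 k4 1 (.s k25 k59 4 (.s k13 k14 0 (.s k37 k49 5 (.d k47 k32 k31 2
  3)))))] .n) (.c k226 (.q k166 [(.s k47 k31 3 (.s k10 k5 2 (.s k37 k32 2 (.d k26 k58 k48 3 6)))),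
  (.s k4 k8 1 (.s k85 k247 12 (.s k170 k255 14 (.s k243 k89 14 (.d k162 k174 k81 1 12)))))] (.c k209
  (.l (.s k243 k89 14 (.s k4 k8 1 (.s k162 k81 12 (.s k85 k247 12 (.d k170 k174 k255 1 14)))))) (.c
  k243 (.q k209 [(.s k47 k31 3 (.s k10 k5 2 (.s k37 k32 2 (.d k26 k58 k48 3 6)))), (.s k4 k8 1 (.s
  k5 k10 2 (.s k6 k7 0 (.s k9 k3 2 (.d k13 k14 k1 0 1))))), (.s k8 k4 1 (.s k25 k59 4 (.s k13 k14 0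
  (.s k37 k49 5 (.d k47 k32 k31 2 3)))))] .n) .n))) .n)))) (.c k51 (.q k15 [(.s k4 k8 1 (.s k5 k10 2
  (.s k6 k7 0 (.s k13 k14 0 (.d k9 k1 k3 1 2))))), (.s k5 k10 2 (.s k21 k42 6 (.s k37 k53 3 (.s k26
  k48 6 (.d k31 k16 k47 2 3))))), (.s k13 k14 0 (.s k29 k46 4 (.s k45 k61 3 (.s k30 k60 4 (.d k31
  k28 k47 0 3)))))] (.c k98 (.q k145 [(.s k4 k8 1 (.s k5 k10 2 (.s k6 k7 0 (.s k13 k14 0 (.d k9 k1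
  k3 1 2))))), (.s k5 k10 2 (.s k21 k42 6 (.s k37 k53 3 (.s k26 k48 6 (.d k31 k16 k47 2 3))))), (.s
  k13 k14 0 (.s k29 k46 4 (.s k45 k61 3 (.s k30 k60 4 (.d k31 k28 k47 0 3)))))] (.c k102 (.q k110
  [(.s k4 k8 1 (.s k5 k10 2 (.s k6 k7 0 (.s k13 k14 0 (.d k9 k1 k3 1 2))))), (.s k204 k157 12 (.s
  k46 k29 4 (.s k76 k140 7 (.s k174 k238 7 (.d k93 k127 k255 4 12)))))] (.c k153 (.l (.s k204 k157
  12 (.s k46 k29 4 (.s k76 k140 7 (.s k174 k238 7 (.d k93 k127 k255 4 12)))))) (.c k204 (.q k153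
  [(.s k4 k8 1 (.s k5 k10 2 (.s k6 k7 0 (.s k13 k14 0 (.d k9 k1 k3 1 2))))), (.s k21 k42 6 (.s k29
  k46 4 (.s k17 k25 1 (.s k209 k81 7 (.d k149 k157 k89 1 9)))))] (.c k8 (.l (.s k5 k10 2 (.s k21 k42
  6 (.s k37 k53 3 (.s k26 k48 6 (.d k31 k16 k47 2 3)))))) (.c k196 (.q k200 [(.s k4 k8 1 (.s k13 k14
  0 (.s k5 k10 2 (.s k9 k1 1 (.d k6 k7 k3 0 2))))), (.s k21 k42 6 (.s k29 k46 4 (.s k17 k25 1 (.s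
  k209 k81 7 (.d k149 k157 k89 1 9)))))] (.c k8 (.l (.s k5 k10 2 (.s k21 k42 6 (.s k37 k53 3 (.s k26
  k48 6 (.d k31 k16 k47 2 3)))))) (.c k55 (.l (.s k149 k157 1 (.s k21 k42 6 (.s k29 k46 4 (.s k17
  k25 1 (.d k85 k213 k221 7 9)))))) (.c k149 (.q k55 [(.s k4 k8 1 (.d k21 k38 k42 4 6)), (.s k5 k10
  2 (.s k21 k42 6 (.s k37 k53 3 (.s k26 k48 6 (.d k31 k16 k47 2 3))))), (.s k4 k8 1 (.s k5 k10 2 (.s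
  k6 k7 0 (.s k9 k3 2 (.d k13 k14 k1 0 1)))))] .n) .n)))) (.c k200 (.q k196 [(.s k8 k4 1 (.s k14 k13
  0 (.s k10 k5 2 (.s k6 k2 1 (.d k9 k11 k3 0 2))))), (.s k21 k42 6 (.s k29 k46 4 (.s k17 k25 1 (.s
  k209 k81 7 (.d k149 k157 k89 1 9)))))] (.c k8 (.l (.s k5 k10 2 (.s k21 k42 6 (.s k37 k53 3 (.s k26
  k48 6 (.d k31 k16 k47 2 3)))))) .n)) .n)))) .n))) (.c k110 (.q k102 [(.s k4 k8 1 (.s k5 k10 2 (.s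
  k6 k7 0 (.s k13 k14 0 (.d k9 k1 k3 1 2))))), (.s k5 k10 2 (.s k21 k42 6 (.s k37 k53 3 (.s k26 k48
  6 (.d k31 k16 k47 2 3))))), (.s k13 k14 0 (.s k29 k46 4 (.s k45 k61 3 (.s k30 k60 4 (.d k31 k28
  k47 0 3)))))] .n) .n))) (.c k145 (.q k98 [(.s k4 k8 1 (.s k5 k10 2 (.s k6 k7 0 (.s k13 k14 0 (.d
  k9 k1 k3 1 2))))), (.s k5 k10 2 (.s k21 k42 6 (.s k37 k53 3 (.s k26 k48 6 (.d k31 k16 k47 2
  3))))), (.s k13 k14 0 (.s k29 k46 4 (.s k45 k61 3 (.s k30 k60 4 (.d k31 k28 k47 0 3)))))] .n)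
  .n))) (.c k55 (.l (.s k8 k4 1 (.s k46 k29 4 (.s k42 k21 6 (.s k38 k34 1 (.d k25 k59 k51 4 6))))))
  (.c k59 (.l (.s k4 k8 1 (.s k29 k46 4 (.s k21 k42 6 (.s k25 k17 1 (.d k38 k55 k51 4 6))))))
  .n))))))))))))))

def t193 : T TT 256 :=
  (.q k12 [(.s k8 k4 1 (.s k46 k29 4 (.s k42 k21 6 (.s k38 k34 1 (.d k25 k59 k51 4 6)))))] (.c k4
  (.q k13 [(.s k15 k14 0 (.s k29 k46 4 (.s k45 k61 3 (.s k30 k60 4 (.d k31 k28 k47 0 3))))), (.s k21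
  k42 6 (.s k15 k14 0 (.s k5 k10 2 (.s k37 k53 3 (.s k26 k48 6 (.d k31 k16 k47 2 3)))))), (.s k21
  k42 6 (.s k29 k46 4 (.s k61 k45 3 (.s k1 k41 5 (.s k3 k2 0 (.d k9 k5 k6 1 2))))))] (.c k47 (.l (.s
  k21 k42 6 (.s k15 k14 0 (.s k5 k10 2 (.s k1 k9 1 (.s k61 k41 5 (.d k29 k45 k46 3 4))))))) .n)) (.c
  k8 (.q k13 [(.s k15 k14 0 (.s k29 k46 4 (.s k45 k61 3 (.s k30 k60 4 (.d k31 k28 k47 0 3))))), (.s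
  k21 k42 6 (.s k15 k14 0 (.s k5 k10 2 (.s k37 k53 3 (.s k26 k48 6 (.d k31 k16 k47 2 3)))))), (.s
  k21 k42 6 (.s k29 k46 4 (.s k61 k45 3 (.s k1 k41 5 (.s k3 k2 0 (.d k9 k5 k6 1 2))))))] (.c k47 (.l
  (.s k21 k42 6 (.s k15 k14 0 (.s k5 k10 2 (.s k37 k53 3 (.s k29 k46 4 (.d k25 k17 k49 1 5)))))))
  .n)) (.c k17 (.l (.s k8 k4 1 (.s k42 k21 6 (.s k25 k59 4 (.s k38 k51 6 (.d k46 k29 k34 4 1))))))
  (.c k21 (.q k13 [(.s k4 k8 1 (.s k15 k14 0 (.s k5 k10 2 (.s k6 k7 0 (.d k9 k1 k3 1 2))))), (.s k15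
  k14 0 (.s k29 k46 4 (.s k31 k47 3 (.s k30 k28 0 (.d k45 k61 k60 3 4)))))] (.c k14 (.q k170 [(.s k4
  k8 1 (.s k85 k255 14 (.s k166 k247 12 (.s k243 k89 14 (.d k162 k174 k81 1 12))))), (.s k255 k85 14
  (.s k29 k46 4 (.s k93 k174 12 (.s k157 k221 7 (.s k110 k204 12 (.d k127 k76 k191 4 7)))))), (.s k8
  k4 1 (.s k89 k251 12 (.s k165 k241 13 (.s k160 k175 2 (.s k240 k80 11 (.s k88 k164 13 (.d k90 k91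
  k15 0 14)))))))] .n) (.c k15 (.f k8 k4 1 (.l (.s k29 k46 4 (.s k61 k45 3 (.s k60 k62 0 (.s k40 k20
  5 (.s k24 k56 3 (.s k36 k48 5 (.d k44 k32 k28 1 3))))))))) .n))) (.c k25 (.q k13 [(.s k15 k14 0
  (.s k5 k10 2 (.s k9 k1 1 (.s k6 k3 2 (.d k4 k7 k8 0 1))))), (.s k15 k14 0 (.s k29 k46 4 (.s k45
  k61 3 (.s k30 k60 4 (.d k31 k28 k47 0 3))))), (.s k21 k42 6 (.s k29 k46 4 (.s k61 k45 3 (.s k1 k41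
  5 (.s k3 k2 0 (.d k9 k5 k6 1 2))))))] .n) (.c k29 (.q k3 [(.s k1 k2 0 (.s k8 k4 1 (.s k9 k6 2 (.s
  k10 k11 0 (.d k5 k13 k15 1 2))))), (.s k1 k2 0 (.s k21 k42 6 (.s k23 k43 5 (.s k22 k20 0 (.d k41
  k61 k60 5 6))))), (.s k4 k8 1 (.s k21 k42 6 (.s k6 k9 2 (.s k23 k43 5 (.s k38 k55 4 (.d k22 k20
  k54 0 3))))))] .n) (.c k34 (.l (.s k4 k8 1 (.s k21 k42 6 (.s k38 k55 4 (.s k25 k51 6 (.d k29 k46
  k17 4 1)))))) (.c k38 (.q k3 [(.s k1 k2 0 (.s k9 k6 2 (.s k5 k13 1 (.s k10 k15 2 (.d k8 k11 k4 0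
  1))))), (.s k1 k2 0 (.s k21 k42 6 (.s k41 k61 5 (.s k22 k60 6 (.d k23 k20 k43 0 5))))), (.s k42
  k21 6 (.s k9 k6 2 (.s k43 k23 5 (.s k41 k40 0 (.s k25 k57 3 (.d k8 k4 k59 1 4))))))] (.c k22 (.l
  (.s k2 k1 0 (.s k4 k8 1 (.s k6 k9 2 (.s k10 k14 1 (.d k5 k7 k15 0 2)))))) .n)) (.c k42 (.q k170
  [(.s k8 k4 1 (.s k85 k255 14 (.s k89 k251 12 (.s k243 k166 14 (.d k81 k93 k162 1 12))))), (.s k255
  k85 14 (.s k29 k46 4 (.s k93 k174 12 (.s k157 k221 7 (.s k110 k204 12 (.d k127 k76 k191 4 7)))))),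
  (.s k4 k8 1 (.s k85 k255 14 (.s k166 k247 12 (.s k243 k89 14 (.d k162 k174 k81 1 12)))))] (.c k85
  (.f k8 k4 1 (.l (.s k89 k251 12 (.s k29 k46 4 (.s k166 k243 14 (.s k149 k209 9 (.s k128 k191 6 (.s
  k132 k183 4 (.d k192 k64 k72 7 9))))))))) (.c k166 (.l (.s k255 k85 14 (.s k46 k29 4 (.s k174 k93
  12 (.s k110 k238 7 (.s k157 k204 12 (.d k191 k127 k140 7 4))))))) (.c k255 (.f k8 k4 1 (.l (.s k89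
  k251 12 (.s k29 k46 4 (.s k149 k209 9 (.s k128 k191 6 (.s k192 k64 7 (.s k132 k72 9 (.d k166 k243
  k183 14 4))))))))) .n)))) (.c k46 (.q k3 [(.s k1 k2 0 (.s k8 k4 1 (.s k9 k6 2 (.s k10 k11 0 (.d k5
  k13 k15 1 2))))), (.s k1 k2 0 (.s k21 k42 6 (.s k41 k61 5 (.s k22 k60 6 (.d k23 k20 k43 0 5))))),
  (.s k4 k8 1 (.s k21 k42 6 (.s k6 k9 2 (.s k23 k43 5 (.s k38 k55 4 (.d k22 k20 k54 0 3))))))] (.c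
  k166 (.q k226 [(.s k1 k2 0 (.s k8 k4 1 (.s k9 k6 2 (.s k10 k11 0 (.d k5 k13 k15 1 2))))), (.s k1
  k2 0 (.s k21 k42 6 (.s k41 k61 5 (.s k22 k60 6 (.d k23 k20 k43 0 5))))), (.s k4 k8 1 (.s k21 k42 6
  (.s k6 k9 2 (.s k23 k43 5 (.s k38 k55 4 (.d k22 k20 k54 0 3))))))] .n) (.c k226 (.q k166 [(.s k1
  k2 0 (.s k8 k4 1 (.s k9 k6 2 (.s k10 k11 0 (.d k5 k13 k15 1 2))))), (.s k4 k8 1 (.s k85 k247 12
  (.s k170 k255 14 (.s k243 k89 14 (.d k162 k174 k81 1 12))))), (.s k1 k2 0 (.s k21 k42 6 (.s k41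
  k61 5 (.s k22 k60 6 (.d k23 k20 k43 0 5)))))] .n) .n))) (.c k51 (.q k3 [(.s k1 k2 0 (.s k8 k4 1
  (.s k9 k6 2 (.s k10 k11 0 (.d k5 k13 k15 1 2))))), (.s k1 k2 0 (.s k21 k42 6 (.s k41 k61 5 (.s k22
  k60 6 (.d k23 k20 k43 0 5))))), (.s k4 k8 1 (.s k21 k42 6 (.s k6 k9 2 (.s k23 k43 5 (.s k38 k55 4
  (.d k22 k20 k54 0 3))))))] .n) (.c k55 (.l (.s k8 k4 1 (.s k46 k29 4 (.s k42 k21 6 (.s k38 k34 1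
  (.d k25 k59 k51 4 6)))))) (.c k59 (.l (.s k4 k8 1 (.s k29 k46 4 (.s k21 k42 6 (.s k25 k17 1 (.d
  k38 k55 k51 4 6)))))) .n))))))))))))))

def t194 : T TT 256 :=
  (.q k62 [(.s k42 k21 6 (.s k22 k2 5 (.s k60 k61 0 (.s k40 k20 5 (.d k41 k43 k3 0 6))))), (.s k42
  k21 6 (.s k60 k61 0 (.s k40 k20 5 (.s k41 k43 0 (.d k22 k2 k3 5 6)))))] (.c k1 (.l (.s k42 k21 6
  (.s k22 k2 5 (.s k60 k61 0 (.s k41 k3 6 (.d k40 k43 k20 0 5)))))) (.c k2 (.q k12 [(.s k4 k8 1 (.s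
  k21 k42 6 (.s k38 k55 4 (.s k25 k51 6 (.d k29 k17 k46 1 4))))), (.s k46 k29 4 (.s k30 k14 3 (.s
  k60 k61 0 (.s k44 k28 3 (.d k45 k47 k15 0 4))))), (.s k4 k8 1 (.s k60 k61 0 (.s k20 k40 5 (.s k36
  k52 3 (.s k24 k48 5 (.d k28 k16 k44 1 3))))))] (.c k66 (.q k130 [(.s k4 k8 1 (.s k21 k42 6 (.s k38
  k55 4 (.s k25 k51 6 (.d k29 k17 k46 1 4))))), (.s k46 k29 4 (.s k30 k14 3 (.s k60 k61 0 (.s k44
  k28 3 (.d k45 k47 k15 0 4))))), (.s k4 k8 1 (.s k195 k65 8 (.s k134 k73 10 (.s k69 k199 8 (.d k138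
  k142 k207 1 10)))))] (.c k86 (.q k126 [(.s k60 k61 0 (.s k190 k254 7 (.s k170 k150 5 (.d k255 k125
  k85 8 14)))), (.s k4 k8 1 (.s k21 k42 6 (.s k38 k55 4 (.s k25 k51 6 (.d k29 k17 k46 1 4)))))] (.c
  k170 (.l (.s k254 k190 7 (.s k4 k8 1 (.s k195 k65 8 (.s k134 k73 10 (.s k69 k199 8 (.d k138 k142
  k207 1 10))))))) (.c k234 (.l (.s k195 k65 8 (.s k60 k61 0 (.s k150 k105 14 (.d k190 k170 k254 5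
  7))))) (.c k254 (.q k170 [(.s k60 k61 0 (.s k150 k190 5 (.d k195 k65 k105 8 14))), (.s k255 k85 14
  (.s k189 k252 8 (.s k190 k150 5 (.d k191 k127 k188 7 0))))] (.c k150 (.l (.s k255 k85 14 (.s k60
  k61 0 (.s k125 k190 8 (.d k127 k124 k191 0 7))))) (.c k190 (.l (.s k195 k65 8 (.s k60 k61 0 (.s
  k40 k20 5 (.d k105 k235 k150 8 14))))) (.c k214 (.q k234 [(.s k60 k61 0 (.s k150 k190 5 (.d k195
  k65 k105 8 14))), (.s k4 k8 1 (.s k21 k42 6 (.s k38 k55 4 (.s k25 k51 6 (.d k29 k17 k46 1 4)))))]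
  (.c k22 (.l (.s k150 k190 5 (.s k195 k65 8 (.d k60 k61 k105 0 14)))) (.c k150 (.q k22 [(.s k21 k42
  6 (.s k60 k61 0 (.d k20 k23 k40 0 5))), (.s k4 k8 1 (.s k21 k42 6 (.s k38 k55 4 (.s k25 k51 6 (.d
  k29 k17 k46 1 4))))), (.s k255 k85 14 (.s k60 k61 0 (.s k125 k190 8 (.d k127 k124 k191 0 7))))]
  .n) .n))) (.c k234 (.q k214 [(.s k252 k189 8 (.d k195 k233 k65 6 8)), (.s k255 k85 14 (.s k60 k61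
  0 (.d k190 k150 k125 5 8)))] .n) .n))))) .n)))) (.c k126 (.q k86 [(.s k4 k8 1 (.s k21 k42 6 (.s
  k38 k55 4 (.s k25 k51 6 (.d k29 k17 k46 1 4))))), (.s k46 k29 4 (.s k30 k14 3 (.s k60 k61 0 (.s
  k44 k28 3 (.d k45 k47 k15 0 4))))), (.s k4 k8 1 (.s k195 k65 8 (.s k134 k73 10 (.s k69 k199 8 (.d
  k138 k142 k207 1 10)))))] .n) .n))) (.c k130 (.q k66 [(.s k4 k8 1 (.s k21 k42 6 (.s k38 k55 4 (.s
  k25 k51 6 (.d k29 k17 k46 1 4))))), (.s k46 k29 4 (.s k30 k14 3 (.s k60 k61 0 (.s k44 k28 3 (.d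
  k45 k47 k15 0 4))))), (.s k4 k8 1 (.s k60 k61 0 (.s k20 k40 5 (.s k36 k52 3 (.s k24 k48 5 (.d k28
  k16 k44 1 3))))))] .n) .n))) (.c k3 (.q k12 [(.s k8 k4 1 (.s k46 k29 4 (.s k42 k21 6 (.s k38 k34 1
  (.d k25 k59 k51 4 6))))), (.s k46 k29 4 (.s k30 k14 3 (.s k60 k61 0 (.s k44 k28 3 (.d k45 k47 k15
  0 4))))), (.s k4 k8 1 (.s k60 k61 0 (.s k20 k40 5 (.s k36 k52 3 (.s k24 k48 5 (.d k28 k16 k44 1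
  3))))))] .n) (.c k20 (.q k12 [(.s k4 k8 1 (.s k21 k42 6 (.s k38 k55 4 (.s k25 k51 6 (.d k29 k17
  k46 1 4))))), (.s k46 k29 4 (.s k30 k14 3 (.s k60 k61 0 (.s k44 k28 3 (.d k45 k47 k15 0 4))))),
  (.s k8 k4 1 (.s k42 k21 6 (.s k22 k2 5 (.s k25 k59 4 (.s k28 k19 2 (.d k60 k61 k44 0 3))))))] .n)
  (.c k21 (.q k12 [(.s k4 k8 1 (.s k60 k61 0 (.s k20 k40 5 (.s k36 k52 3 (.s k24 k48 5 (.d k28 k16
  k44 1 3)))))), (.s k8 k4 1 (.s k46 k29 4 (.s k14 k30 3 (.s k15 k13 0 (.s k10 k5 2 (.s k9 k11 0 (.d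
  k6 k2 k3 1 2))))))), (.s k46 k29 4 (.s k30 k14 3 (.s k60 k61 0 (.s k44 k28 3 (.d k45 k47 k15 0
  4)))))] (.c k1 (.l (.s k8 k4 1 (.s k46 k29 4 (.s k14 k30 3 (.s k15 k13 0 (.s k10 k5 2 (.s k9 k11 0
  (.d k6 k2 k3 1 2)))))))) (.c k28 (.q k170 [(.s k4 k8 1 (.s k85 k255 14 (.s k166 k247 12 (.s k162
  k174 1 (.d k243 k81 k89 12 14))))), (.s k85 k255 14 (.s k60 k61 0 (.s k20 k40 5 (.s k150 k215 8
  (.s k195 k105 14 (.d k130 k190 k65 5 8)))))), (.s k8 k4 1 (.s k89 k251 12 (.s k60 k61 0 (.s k40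
  k20 5 (.s k105 k235 8 (.s k73 k121 3 (.d k195 k134 k150 10 14)))))))] .n) (.c k61 (.q k3 [(.s k4
  k8 1 (.s k6 k9 2 (.s k5 k7 0 (.s k10 k15 2 (.d k2 k1 k14 0 1))))), (.s k6 k9 2 (.s k46 k29 4 (.s
  k14 k30 3 (.d k2 k1 k10 0 1))))] (.c k1 (.q k41 [(.s k22 k60 6 (.s k43 k23 5 (.d k42 k40 k2 0
  5))), (.s k6 k9 2 (.s k22 k60 6 (.s k38 k54 3 (.s k51 k25 6 (.d k35 k44 k19 2 3))))), (.s k8 k4 1
  (.s k9 k6 2 (.s k25 k57 3 (.s k42 k59 4 (.d k43 k40 k23 0 5)))))] .n) (.c k2 (.l (.s k4 k8 1 (.s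
  k6 k9 2 (.s k5 k7 0 (.s k46 k29 4 (.s k14 k30 3 (.d k15 k13 k10 0 2))))))) (.c k6 (.q k170 [(.s k4
  k8 1 (.s k85 k255 14 (.s k166 k247 12 (.s k243 k89 14 (.d k162 k174 k81 1 12))))), (.s k1 k2 0 (.s
  k85 k255 14 (.s k169 k253 13 (.s k168 k171 0 (.d k252 k84 k86 13 14))))), (.s k8 k4 1 (.s k23 k43
  5 (.s k89 k251 12 (.s k29 k46 4 (.s k149 k209 9 (.s k86 k212 8 (.d k2 k1 k254 0 13)))))))] (.c k1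
  (.q k41 [(.s k43 k23 5 (.s k40 k42 0 (.d k60 k20 k22 5 6))), (.s k4 k8 1 (.s k85 k255 14 (.s k166
  k247 12 (.s k243 k89 14 (.d k162 k174 k81 1 12)))))] .n) (.c k41 (.l (.s k1 k2 0 (.s k85 k255 14
  (.s k169 k253 13 (.s k252 k86 14 (.d k168 k171 k84 0 13)))))) .n))) (.c k9 (.q k41 [(.s k22 k60 6
  (.d k2 k1 k42 0 5)), (.s k2 k1 0 (.s k46 k29 4 (.s k14 k30 3 (.s k10 k6 1 (.d k15 k13 k5 0 2))))),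
  (.s k43 k23 5 (.s k40 k42 0 (.d k60 k20 k22 5 6)))] .n) (.c k10 (.l (.s k1 k2 0 (.s k46 k29 4 (.s
  k9 k6 2 (.s k14 k30 3 (.d k13 k15 k5 0 1)))))) (.c k14 (.l (.s k1 k2 0 (.s k8 k4 1 (.s k9 k6 2 (.s
  k10 k11 0 (.d k5 k13 k15 1 2)))))) (.c k41 (.l (.s k1 k2 0 (.s k8 k4 1 (.s k9 k6 2 (.s k5 k13 1
  (.d k10 k11 k15 0 2)))))) .n)))))))) .n)))) (.c k22 (.q k12 [(.s k4 k8 1 (.s k21 k42 6 (.s k38 k55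
  4 (.s k25 k51 6 (.d k29 k17 k46 1 4))))), (.s k46 k29 4 (.s k30 k14 3 (.s k60 k61 0 (.s k45 k15 4
  (.d k44 k47 k28 0 3))))), (.s k4 k8 1 (.s k60 k61 0 (.s k20 k40 5 (.s k36 k52 3 (.s k24 k48 5 (.d
  k28 k16 k44 1 3))))))] .n) (.c k40 (.q k12 [(.s k8 k4 1 (.s k46 k29 4 (.s k42 k21 6 (.s k38 k34 1
  (.d k25 k59 k51 4 6))))), (.s k46 k29 4 (.s k30 k14 3 (.s k60 k61 0 (.s k44 k28 3 (.d k45 k47 k15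
  0 4))))), (.s k8 k4 1 (.s k42 k21 6 (.s k22 k2 5 (.s k25 k59 4 (.s k28 k19 2 (.d k60 k61 k44 0
  3))))))] .n) (.c k41 (.q k12 [(.s k8 k4 1 (.s k46 k29 4 (.s k42 k21 6 (.s k38 k34 1 (.d k25 k59
  k51 4 6))))), (.s k46 k29 4 (.s k30 k14 3 (.s k60 k61 0 (.s k44 k28 3 (.d k45 k47 k15 0 4))))),
  (.s k4 k8 1 (.s k21 k42 6 (.s k38 k55 4 (.s k25 k51 6 (.d k29 k17 k46 1 4))))), (.s k4 k8 1 (.s
  k60 k61 0 (.s k20 k40 5 (.s k36 k52 3 (.s k24 k48 5 (.d k28 k16 k44 1 3))))))] (.c k21 (.l (.s k8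
  k4 1 (.s k46 k29 4 (.s k14 k30 3 (.s k15 k13 0 (.s k10 k5 2 (.s k6 k2 1 (.d k9 k11 k3 0 2))))))))
  .n)) (.c k42 (.q k12 [(.s k46 k29 4 (.s k30 k14 3 (.s k60 k61 0 (.s k44 k28 3 (.d k45 k47 k15 0
  4))))), (.s k4 k8 1 (.s k60 k61 0 (.s k20 k40 5 (.s k36 k52 3 (.s k24 k48 5 (.d k28 k16 k44 1
  3)))))), (.s k8 k4 1 (.s k46 k29 4 (.s k14 k30 3 (.s k15 k13 0 (.s k10 k5 2 (.s k6 k2 1 (.d k9 k11
  k3 0 2)))))))] (.c k28 (.q k170 [(.s k8 k4 1 (.s k85 k255 14 (.s k89 k251 12 (.s k243 k166 14 (.d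
  k81 k93 k162 1 12))))), (.s k85 k255 14 (.s k60 k61 0 (.s k20 k40 5 (.s k150 k215 8 (.s k195 k105
  14 (.d k130 k190 k65 5 8)))))), (.s k8 k4 1 (.s k89 k251 12 (.s k60 k61 0 (.s k40 k20 5 (.s k105
  k235 8 (.s k73 k121 3 (.d k195 k134 k150 10 14)))))))] .n) (.c k61 (.q k14 [(.d k46 k30 k29 3 4),
  (.s k8 k4 1 (.s k15 k13 0 (.s k10 k5 2 (.s k6 k2 1 (.d k9 k11 k3 0 2)))))] (.c k29 (.l (.s k8 k4 1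
  (.s k30 k46 3 (.s k15 k13 0 (.s k45 k60 4 (.s k10 k5 2 (.s k6 k2 1 (.d k9 k11 k3 0 2)))))))) (.c
  k170 (.q k234 [(.d k46 k30 k29 3 4), (.s k8 k4 1 (.s k15 k13 0 (.s k10 k5 2 (.s k6 k2 1 (.d k9 k11
  k3 0 2)))))] (.c k29 (.l (.s k8 k4 1 (.s k30 k46 3 (.s k15 k13 0 (.s k45 k60 4 (.s k10 k5 2 (.s k6
  k2 1 (.d k9 k11 k3 0 2)))))))) .n)) (.c k234 (.q k170 [(.d k46 k30 k29 3 4), (.s k4 k8 1 (.s k85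
  k255 14 (.s k166 k247 12 (.s k243 k89 14 (.d k162 k174 k81 1 12)))))] (.c k214 (.q k254 [(.d k46
  k30 k29 3 4), (.s k255 k85 14 (.d k174 k94 k93 11 12))] .n) (.c k254 (.q k214 [(.d k46 k30 k29 3
  4), (.s k4 k8 1 (.s k85 k255 14 (.s k166 k247 12 (.s k243 k89 14 (.d k162 k174 k81 1 12)))))] .n)
  .n))) .n)))) (.c k170 (.q k234 [(.s k46 k29 4 (.s k30 k14 3 (.s k60 k61 0 (.s k44 k28 3 (.d k45
  k47 k15 0 4))))), (.s k4 k8 1 (.s k60 k61 0 (.s k20 k40 5 (.s k36 k52 3 (.s k24 k48 5 (.d k28 k16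
  k44 1 3)))))), (.s k8 k4 1 (.s k46 k29 4 (.s k14 k30 3 (.s k15 k13 0 (.s k10 k5 2 (.s k6 k2 1 (.d
  k9 k11 k3 0 2)))))))] (.c k28 (.q k3 [(.s k2 k1 0 (.s k6 k9 2 (.s k46 k29 4 (.d k14 k30 k10 3
  1)))), (.s k1 k2 0 (.s k4 k8 1 (.s k29 k46 4 (.s k61 k60 0 (.s k21 k41 5 (.s k38 k55 4 (.d k25 k17
  k51 1 6))))))), (.s k2 k1 0 (.s k4 k8 1 (.s k6 k9 2 (.s k5 k7 0 (.d k10 k14 k15 1 2)))))] (.c k1
  (.l (.s k4 k8 1 (.s k6 k9 2 (.s k5 k7 0 (.s k10 k15 2 (.s k14 k2 1 (.d k46 k30 k29 3 4))))))) (.c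
  k2 (.l (.s k9 k6 2 (.s k29 k46 4 (.s k61 k60 0 (.s k13 k45 3 (.s k5 k1 1 (.d k15 k14 k10 0
  2))))))) .n))) (.c k61 (.q k14 [(.d k46 k30 k29 3 4), (.s k8 k4 1 (.s k15 k13 0 (.s k10 k5 2 (.s
  k6 k2 1 (.d k9 k11 k3 0 2)))))] (.c k29 (.l (.s k8 k4 1 (.s k30 k46 3 (.s k15 k13 0 (.s k45 k60 4
  (.s k10 k5 2 (.s k6 k2 1 (.d k9 k11 k3 0 2)))))))) .n)) .n))) (.c k234 (.q k170 [(.s k46 k29 4 (.s
  k30 k14 3 (.s k60 k61 0 (.s k44 k28 3 (.d k45 k47 k15 0 4))))), (.s k4 k8 1 (.s k85 k255 14 (.s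
  k166 k247 12 (.s k243 k89 14 (.d k162 k174 k81 1 12)))))] (.c k214 (.q k254 [(.s k255 k85 14 (.s
  k60 k61 0 (.d k190 k126 k125 7 8))), (.s k2 k86 13 (.s k3 k1 0 (.s k6 k9 2 (.s k14 k10 1 (.d k46
  k30 k29 3 4)))))] (.c k126 (.l (.s k255 k85 14 (.s k46 k29 4 (.s k174 k93 12 (.d k14 k30 k94 3
  11))))) .n)) (.c k254 (.q k214 [(.s k46 k29 4 (.s k30 k14 3 (.s k60 k61 0 (.s k44 k28 3 (.d k45
  k47 k15 0 4))))), (.s k4 k8 1 (.s k85 k255 14 (.s k166 k247 12 (.s k243 k89 14 (.d k162 k174 k81 1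
  12)))))] (.c k174 (.l (.s k8 k4 1 (.s k85 k255 14 (.s k89 k251 12 (.s k243 k166 14 (.d k81 k93
  k162 1 12)))))) .n)) .n))) .n))))) (.c k43 (.q k12 [(.s k8 k4 1 (.s k46 k29 4 (.s k42 k21 6 (.s
  k38 k34 1 (.d k25 k59 k51 4 6))))), (.s k46 k29 4 (.s k30 k14 3 (.s k60 k61 0 (.s k44 k28 3 (.d
  k45 k47 k15 0 4))))), (.s k4 k8 1 (.s k60 k61 0 (.s k20 k40 5 (.s k36 k52 3 (.s k24 k48 5 (.d k28
  k16 k44 1 3))))))] (.c k169 (.q k232 [(.s k8 k4 1 (.s k46 k29 4 (.s k42 k21 6 (.s k38 k34 1 (.d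
  k25 k59 k51 4 6))))), (.s k46 k29 4 (.s k30 k14 3 (.s k60 k61 0 (.s k44 k28 3 (.d k45 k47 k15 0
  4))))), (.s k4 k8 1 (.s k60 k61 0 (.s k20 k40 5 (.s k36 k52 3 (.s k24 k48 5 (.d k28 k16 k44 1
  3))))))] .n) (.c k232 (.q k169 [(.s k8 k4 1 (.s k46 k29 4 (.s k42 k21 6 (.s k38 k34 1 (.d k25 k59
  k51 4 6))))), (.s k46 k29 4 (.s k30 k14 3 (.s k60 k61 0 (.s k44 k28 3 (.d k45 k47 k15 0 4))))),
  (.s k4 k8 1 (.s k60 k61 0 (.s k20 k40 5 (.s k36 k52 3 (.s k24 k48 5 (.d k28 k16 k44 1 3))))))] .n)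
  .n))) (.c k60 (.q k12 [(.s k8 k4 1 (.s k46 k29 4 (.s k42 k21 6 (.s k38 k34 1 (.d k25 k59 k51 4
  6))))), (.s k8 k4 1 (.s k46 k29 4 (.s k14 k30 3 (.s k15 k13 0 (.s k10 k5 2 (.s k6 k2 1 (.d k9 k11
  k3 0 2))))))), (.s k42 k21 6 (.s k2 k22 5 (.s k3 k1 0 (.s k6 k9 2 (.s k46 k29 4 (.d k14 k10 k30 1
  3)))))), (.s k4 k8 1 (.s k42 k21 6 (.s k2 k22 5 (.s k3 k1 0 (.s k6 k9 2 (.s k10 k14 1 (.d k5 k7
  k15 0 2)))))))] .n) (.c k61 (.q k14 [(.s k42 k21 6 (.s k22 k2 5 (.s k46 k30 3 (.s k38 k34 1 (.s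
  k54 k6 3 (.d k50 k58 k26 1 5)))))), (.s k42 k21 6 (.s k46 k30 3 (.s k12 k29 4 (.s k8 k4 1 (.s k25
  k59 4 (.d k38 k34 k51 1 6)))))), (.s k42 k21 6 (.s k2 k22 5 (.s k10 k6 1 (.s k15 k5 2 (.s k26 k58
  3 (.s k37 k48 6 (.d k47 k32 k31 2 3)))))))] (.c k1 (.q k3 [(.s k43 k23 5 (.s k42 k21 6 (.s k41 k40
  0 (.d k22 k2 k60 5 6)))), (.s k46 k30 3 (.s k12 k29 4 (.s k4 k8 1 (.s k6 k9 2 (.s k5 k7 0 (.d k15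
  k13 k10 0 2))))))] (.c k21 (.q k41 [(.s k22 k60 6 (.s k43 k23 5 (.d k42 k40 k2 0 5))), (.s k46 k30
  3 (.s k12 k29 4 (.s k6 k9 2 (.s k10 k2 1 (.d k15 k13 k5 0 2)))))] (.c k2 (.l (.s k43 k23 5 (.s k40
  k42 0 (.d k60 k20 k22 5 6)))) .n)) (.c k41 (.l (.s k21 k42 6 (.s k46 k30 3 (.s k12 k29 4 (.s k6 k9
  2 (.s k10 k2 1 (.d k15 k13 k5 0 2))))))) .n))) (.c k21 (.q k12 [(.d k46 k30 k29 3 4), (.s k8 k4 1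
  (.s k15 k13 0 (.s k10 k5 2 (.s k6 k2 1 (.d k9 k11 k3 0 2)))))] (.c k1 (.q k41 [(.d k46 k30 k29 3
  4), (.s k8 k4 1 (.s k15 k13 0 (.s k10 k5 2 (.s k9 k11 0 (.d k6 k2 k3 1 2)))))] (.c k29 (.l (.s k8
  k4 1 (.s k30 k46 3 (.s k15 k13 0 (.s k45 k60 4 (.s k10 k5 2 (.s k9 k11 0 (.d k6 k2 k3 1 2))))))))
  .n)) (.c k29 (.l (.s k8 k4 1 (.s k30 k46 3 (.s k15 k13 0 (.s k45 k60 4 (.s k10 k5 2 (.s k6 k2 1
  (.d k9 k11 k3 0 2)))))))) (.c k41 (.q k1 [(.d k46 k30 k29 3 4), (.s k2 k3 0 (.s k10 k6 1 (.d k15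
  k13 k5 0 2)))] .n) .n)))) (.c k38 (.l (.s k42 k21 6 (.s k2 k22 5 (.s k6 k10 1 (.s k46 k30 3 (.s
  k12 k29 4 (.d k3 k1 k9 0 2))))))) (.c k41 (.q k12 [(.d k46 k30 k29 3 4), (.s k4 k8 1 (.s k21 k42 6
  (.s k38 k55 4 (.s k26 k50 5 (.s k31 k16 2 (.d k15 k13 k47 0 3))))))] (.c k1 (.l (.s k21 k42 6 (.d
  k46 k30 k29 3 4))) (.c k21 (.q k1 [(.d k46 k30 k29 3 4), (.s k2 k3 0 (.s k10 k6 1 (.d k15 k13 k5 0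
  2)))] .n) .n))) (.c k42 (.q k12 [(.d k46 k30 k29 3 4), (.s k8 k4 1 (.s k15 k13 0 (.s k10 k5 2 (.s
  k6 k2 1 (.d k9 k11 k3 0 2)))))] (.c k29 (.l (.s k8 k4 1 (.s k30 k46 3 (.s k15 k13 0 (.s k45 k60 4
  (.s k10 k5 2 (.s k6 k2 1 (.d k9 k11 k3 0 2)))))))) (.c k170 (.q k234 [(.d k46 k30 k29 3 4), (.s k8
  k4 1 (.s k15 k13 0 (.s k10 k5 2 (.s k6 k2 1 (.d k9 k11 k3 0 2)))))] (.c k29 (.l (.s k8 k4 1 (.s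
  k30 k46 3 (.s k15 k13 0 (.s k45 k60 4 (.s k10 k5 2 (.s k6 k2 1 (.d k9 k11 k3 0 2)))))))) .n)) (.c
  k234 (.q k170 [(.d k46 k30 k29 3 4), (.s k4 k8 1 (.s k85 k255 14 (.s k166 k247 12 (.s k243 k89 14
  (.d k162 k174 k81 1 12)))))] (.c k214 (.q k254 [(.d k46 k30 k29 3 4), (.s k255 k85 14 (.d k174 k94
  k93 11 12))] .n) (.c k254 (.q k214 [(.d k46 k30 k29 3 4), (.s k4 k8 1 (.s k85 k255 14 (.s k166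
  k247 12 (.s k243 k89 14 (.d k162 k174 k81 1 12)))))] .n) .n))) .n)))) .n)))))) .n)))))))))))))

def t195 : T TT 256 :=
  (.q k15 [(.s k10 k5 2 (.s k47 k31 3 (.s k42 k21 6 (.s k37 k32 2 (.d k26 k58 k48 3 6)))))] (.c k5
  (.q k3 [(.s k1 k2 0 (.s k21 k42 6 (.s k41 k61 5 (.s k22 k60 6 (.d k23 k20 k43 0 5))))), (.s k7 k11
  1 (.s k23 k43 5 (.s k39 k55 3 (.s k27 k51 5 (.d k31 k19 k47 1 3))))), (.s k1 k2 0 (.s k21 k42 6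
  (.s k41 k61 5 (.s k11 k7 1 (.s k26 k56 4 (.d k31 k16 k47 2 3))))))] .n) (.c k10 (.q k3 [(.s k2 k1
  0 (.s k43 k23 5 (.s k42 k21 6 (.s k41 k40 0 (.d k22 k62 k60 5 6))))), (.s k7 k11 1 (.s k23 k43 5
  (.s k39 k55 3 (.s k27 k51 5 (.d k31 k19 k47 1 3))))), (.s k1 k2 0 (.s k21 k42 6 (.s k41 k61 5 (.s
  k11 k7 1 (.s k26 k56 4 (.d k31 k16 k47 2 3))))))] .n) (.c k16 (.l (.s k10 k5 2 (.s k42 k21 6 (.s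
  k26 k58 3 (.s k37 k48 6 (.d k47 k31 k32 3 2)))))) (.c k21 (.q k3 [(.s k1 k2 0 (.s k5 k10 2 (.s k9
  k13 1 (.s k7 k11 1 (.d k6 k4 k12 0 2))))), (.s k7 k11 1 (.s k23 k43 5 (.s k39 k55 3 (.s k27 k51 5
  (.d k31 k19 k47 1 3)))))] (.c k4 (.l (.s k2 k1 0 (.s k10 k5 2 (.s k6 k14 1 (.s k9 k12 2 (.d k11 k7
  k8 1 0)))))) (.c k7 (.q k170 [(.s k1 k2 0 (.s k85 k255 14 (.s k169 k253 13 (.s k168 k171 0 (.d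
  k252 k84 k86 13 14))))), (.s k5 k10 2 (.s k85 k255 14 (.s k165 k245 11 (.s k240 k90 14 (.d k160
  k175 k80 2 11))))), (.s k2 k1 0 (.s k10 k5 2 (.s k86 k254 13 (.s k90 k250 11 (.s k82 k94 1 (.d
  k240 k161 k165 12 14))))))] .n) (.c k11 (.q k170 [(.s k1 k2 0 (.s k85 k255 14 (.s k169 k253 13 (.s
  k252 k86 14 (.d k168 k171 k84 0 13))))), (.s k2 k1 0 (.s k10 k5 2 (.s k86 k254 13 (.s k90 k250 11
  (.s k82 k94 1 (.d k240 k161 k165 12 14)))))), (.s k5 k10 2 (.s k85 k255 14 (.s k165 k245 11 (.s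
  k240 k90 14 (.d k160 k175 k80 2 11)))))] .n) .n)))) (.c k26 (.q k3 [(.s k1 k2 0 (.s k5 k10 2 (.s
  k9 k13 1 (.s k6 k12 2 (.d k7 k4 k11 0 1))))), (.s k7 k11 1 (.s k23 k43 5 (.s k39 k55 3 (.s k27 k51
  5 (.d k31 k19 k47 1 3))))), (.s k1 k2 0 (.s k21 k42 6 (.s k41 k61 5 (.s k22 k60 6 (.d k23 k20 k43
  0 5)))))] .n) (.c k31 (.q k3 [(.s k1 k2 0 (.s k5 k10 2 (.s k9 k13 1 (.s k7 k11 1 (.d k6 k4 k12 0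
  2))))), (.s k1 k2 0 (.s k21 k42 6 (.s k41 k61 5 (.s k22 k60 6 (.d k23 k20 k43 0 5))))), (.s k5 k10
  2 (.s k21 k42 6 (.s k7 k11 1 (.s k23 k43 5 (.s k37 k53 3 (.d k22 k20 k52 0 4))))))] .n) (.c k32
  (.l (.s k5 k10 2 (.s k21 k42 6 (.s k37 k53 3 (.s k26 k48 6 (.d k31 k47 k16 3 2)))))) (.c k37 (.q
  k3 [(.s k1 k2 0 (.s k5 k10 2 (.s k7 k11 1 (.s k6 k4 0 (.d k9 k13 k12 1 2))))), (.s k7 k11 1 (.s
  k23 k43 5 (.s k39 k55 3 (.s k27 k51 5 (.d k31 k19 k47 1 3))))), (.s k1 k2 0 (.s k21 k42 6 (.s k41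
  k61 5 (.s k22 k60 6 (.d k23 k20 k43 0 5)))))] .n) (.c k42 (.q k170 [(.s k10 k5 2 (.s k85 k255 14
  (.s k90 k250 11 (.s k240 k165 14 (.d k80 k95 k160 2 11))))), (.s k255 k85 14 (.s k31 k47 3 (.s k95
  k175 11 (.s k159 k223 7 (.s k111 k207 11 (.d k127 k79 k191 3 7)))))), (.s k5 k10 2 (.s k85 k255 14
  (.s k165 k245 11 (.s k240 k90 14 (.d k160 k175 k80 2 11)))))] (.c k85 (.q k3 [(.s k1 k2 0 (.s k5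
  k10 2 (.s k9 k13 1 (.s k7 k11 1 (.d k6 k4 k12 0 2))))), (.s k7 k11 1 (.s k23 k43 5 (.s k39 k55 3
  (.s k27 k51 5 (.d k31 k19 k47 1 3))))), (.s k2 k1 0 (.s k10 k5 2 (.s k86 k254 13 (.s k90 k250 11
  (.s k82 k94 1 (.d k240 k165 k161 14 12))))))] (.c k64 (.q k127 [(.s k10 k5 2 (.s k90 k250 11 (.s
  k31 k47 3 (.s k149 k208 10 (.d k191 k128 k255 6 7))))), (.s k1 k2 0 (.s k5 k10 2 (.s k9 k13 1 (.s
  k6 k12 2 (.d k7 k4 k11 0 1))))), (.s k2 k1 0 (.s k86 k254 13 (.s k23 k43 5 (.s k149 k212 8 (.d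
  k191 k128 k255 6 7)))))] .n) (.c k127 (.q k64 [(.s k1 k2 0 (.s k5 k10 2 (.s k9 k13 1 (.s k7 k11 1
  (.d k6 k4 k12 0 2))))), (.s k10 k5 2 (.s k128 k192 7 (.s k90 k250 11 (.s k31 k47 3 (.d k149 k191
  k208 6 10))))), (.s k2 k1 0 (.s k128 k192 7 (.s k86 k254 13 (.s k23 k43 5 (.d k149 k191 k212 6
  8)))))] .n) .n))) (.c k165 (.l (.s k255 k85 14 (.s k47 k31 3 (.s k175 k95 11 (.s k111 k239 7 (.s
  k159 k207 11 (.d k191 k127 k143 7 3))))))) (.c k255 (.q k3 [(.s k2 k1 0 (.s k11 k7 1 (.s k10 k5 2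
  (.s k9 k8 0 (.d k6 k14 k12 1 2))))), (.s k7 k11 1 (.s k23 k43 5 (.s k39 k55 3 (.s k27 k51 5 (.d
  k31 k19 k47 1 3))))), (.s k2 k1 0 (.s k10 k5 2 (.s k86 k254 13 (.s k252 k169 14 (.s k90 k250 11
  (.d k94 k82 k173 1 12))))))] (.c k215 (.q k235 [(.s k2 k1 0 (.s k10 k5 2 (.s k6 k14 1 (.s k9 k12 2
  (.d k11 k8 k7 0 1))))), (.s k7 k11 1 (.s k23 k43 5 (.s k39 k55 3 (.s k27 k51 5 (.d k31 k19 k47 1
  3))))), (.s k2 k1 0 (.s k86 k254 13 (.s k43 k23 5 (.s k171 k107 7 (.d k169 k252 k168 14 0)))))]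
  .n) (.c k235 (.q k215 [(.s k2 k1 0 (.s k11 k7 1 (.s k10 k5 2 (.s k9 k8 0 (.d k6 k14 k12 1 2))))),
  (.s k7 k11 1 (.s k23 k43 5 (.s k39 k55 3 (.s k27 k51 5 (.d k31 k19 k47 1 3))))), (.s k2 k1 0 (.s
  k10 k5 2 (.s k86 k254 13 (.s k252 k169 14 (.s k90 k250 11 (.d k94 k82 k173 1 12))))))] .n) .n)))
  .n)))) (.c k47 (.q k3 [(.s k1 k2 0 (.s k5 k10 2 (.s k9 k13 1 (.s k7 k11 1 (.d k6 k4 k12 0 2))))),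
  (.s k1 k2 0 (.s k21 k42 6 (.s k41 k61 5 (.s k22 k60 6 (.d k23 k20 k43 0 5))))), (.s k5 k10 2 (.s
  k21 k42 6 (.s k7 k11 1 (.s k23 k43 5 (.s k37 k53 3 (.d k22 k20 k52 0 4))))))] (.c k165 (.q k224
  [(.s k1 k2 0 (.s k5 k10 2 (.s k7 k11 1 (.s k6 k4 0 (.d k9 k13 k12 1 2))))), (.s k1 k2 0 (.s k21
  k42 6 (.s k41 k61 5 (.s k22 k60 6 (.d k23 k20 k43 0 5))))), (.s k5 k10 2 (.s k21 k42 6 (.s k7 k11
  1 (.s k23 k43 5 (.s k37 k53 3 (.d k22 k20 k52 0 4))))))] .n) (.c k224 (.q k165 [(.s k1 k2 0 (.s k5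
  k10 2 (.s k9 k13 1 (.s k7 k11 1 (.d k6 k4 k12 0 2))))), (.s k5 k10 2 (.s k85 k245 11 (.s k170 k255
  14 (.s k240 k90 14 (.d k160 k175 k80 2 11))))), (.s k1 k2 0 (.s k21 k42 6 (.s k41 k61 5 (.s k22
  k60 6 (.d k23 k20 k43 0 5)))))] .n) .n))) (.c k48 (.q k3 [(.s k1 k2 0 (.s k5 k10 2 (.s k9 k13 1
  (.s k7 k11 1 (.d k6 k4 k12 0 2))))), (.s k7 k11 1 (.s k23 k43 5 (.s k39 k55 3 (.s k27 k51 5 (.d
  k31 k19 k47 1 3))))), (.s k1 k2 0 (.s k21 k42 6 (.s k41 k61 5 (.s k22 k60 6 (.d k23 k20 k43 0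
  5)))))] (.c k97 (.q k146 [(.s k1 k2 0 (.s k5 k10 2 (.s k9 k13 1 (.s k7 k11 1 (.d k6 k4 k12 0
  2))))), (.s k7 k11 1 (.s k23 k43 5 (.s k39 k55 3 (.s k27 k51 5 (.d k31 k19 k47 1 3))))), (.s k1 k2
  0 (.s k21 k42 6 (.s k41 k61 5 (.s k22 k60 6 (.d k23 k20 k43 0 5)))))] .n) (.c k146 (.q k97 [(.s k1
  k2 0 (.s k5 k10 2 (.s k9 k13 1 (.s k7 k11 1 (.d k6 k4 k12 0 2))))), (.s k7 k11 1 (.s k23 k43 5 (.s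
  k39 k55 3 (.s k27 k51 5 (.d k31 k19 k47 1 3))))), (.s k1 k2 0 (.s k21 k42 6 (.s k41 k61 5 (.s k22
  k60 6 (.d k23 k20 k43 0 5)))))] .n) .n))) (.c k53 (.l (.s k10 k5 2 (.s k47 k31 3 (.s k42 k21 6 (.s
  k37 k32 2 (.d k26 k58 k48 3 6)))))) (.c k58 (.l (.s k5 k10 2 (.s k31 k47 3 (.s k21 k42 6 (.s k26
  k16 2 (.d k37 k53 k48 3 6)))))) .n))))))))))))))

def t197 : T TT 256 :=
  (.q k3 [(.s k2 k1 0 (.s k43 k23 5 (.s k42 k21 6 (.s k41 k40 0 (.d k22 k62 k60 5 6)))))] (.c k1 (.q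
  k15 [(.s k7 k11 1 (.s k23 k43 5 (.s k39 k55 3 (.s k27 k51 5 (.d k31 k19 k47 1 3))))), (.s k5 k10 2
  (.s k21 k42 6 (.s k37 k53 3 (.s k26 k48 6 (.d k31 k16 k47 2 3))))), (.s k5 k10 2 (.s k21 k42 6 (.s
  k7 k11 1 (.s k23 k43 5 (.s k4 k6 0 (.d k55 k39 k38 3 4))))))] .n) (.c k2 (.q k15 [(.s k7 k11 1 (.s
  k23 k43 5 (.s k39 k55 3 (.s k27 k51 5 (.d k31 k19 k47 1 3))))), (.s k5 k10 2 (.s k21 k42 6 (.s k37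
  k53 3 (.s k26 k48 6 (.d k31 k16 k47 2 3))))), (.s k5 k10 2 (.s k21 k42 6 (.s k7 k11 1 (.s k23 k43
  5 (.s k37 k53 3 (.d k22 k20 k52 0 4))))))] .n) (.c k20 (.l (.s k2 k1 0 (.s k42 k21 6 (.s k22 k62 5
  (.s k41 k60 6 (.d k43 k23 k40 5 0)))))) (.c k21 (.q k15 [(.s k1 k2 0 (.s k5 k10 2 (.s k9 k13 1 (.s
  k6 k12 2 (.d k7 k4 k11 0 1))))), (.s k7 k11 1 (.s k23 k43 5 (.s k39 k55 3 (.s k27 k51 5 (.d k31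
  k19 k47 1 3)))))] (.c k4 (.l (.s k2 k1 0 (.s k10 k5 2 (.s k6 k14 1 (.s k9 k12 2 (.d k11 k7 k8 1
  0)))))) (.c k7 (.q k170 [(.s k1 k2 0 (.s k85 k255 14 (.s k169 k253 13 (.s k168 k171 0 (.d k252 k84
  k86 13 14))))), (.s k5 k10 2 (.s k85 k255 14 (.s k165 k245 11 (.s k240 k90 14 (.d k160 k175 k80 2
  11))))), (.s k2 k1 0 (.s k10 k5 2 (.s k86 k254 13 (.s k90 k250 11 (.s k82 k94 1 (.d k240 k161 k165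
  12 14))))))] .n) (.c k11 (.q k170 [(.s k1 k2 0 (.s k85 k255 14 (.s k169 k253 13 (.s k252 k86 14
  (.d k168 k171 k84 0 13))))), (.s k5 k10 2 (.s k85 k255 14 (.s k165 k245 11 (.s k160 k175 2 (.d
  k240 k80 k90 11 14))))), (.s k2 k1 0 (.s k10 k5 2 (.s k86 k254 13 (.s k90 k250 11 (.s k82 k94 1
  (.d k240 k161 k165 12 14))))))] .n) .n)))) (.c k22 (.q k15 [(.s k1 k2 0 (.s k5 k10 2 (.s k9 k13 1
  (.s k6 k12 2 (.d k7 k4 k11 0 1))))), (.s k7 k11 1 (.s k23 k43 5 (.s k39 k55 3 (.s k27 k51 5 (.d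
  k31 k19 k47 1 3))))), (.s k5 k10 2 (.s k21 k42 6 (.s k37 k53 3 (.s k26 k48 6 (.d k31 k16 k47 2
  3)))))] .n) (.c k23 (.q k15 [(.s k1 k2 0 (.s k5 k10 2 (.s k9 k13 1 (.s k6 k12 2 (.d k7 k4 k11 0
  1))))), (.s k5 k10 2 (.s k21 k42 6 (.s k37 k53 3 (.s k26 k48 6 (.d k31 k16 k47 2 3))))), (.s k1 k2
  0 (.s k21 k42 6 (.s k41 k61 5 (.s k11 k7 1 (.s k26 k56 4 (.d k31 k16 k47 2 3))))))] .n) (.c k40
  (.l (.s k1 k2 0 (.s k21 k42 6 (.s k41 k61 5 (.s k22 k60 6 (.d k23 k43 k20 5 0)))))) (.c k41 (.q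
  k15 [(.s k1 k2 0 (.s k5 k10 2 (.s k9 k13 1 (.s k6 k12 2 (.d k7 k4 k11 0 1))))), (.s k5 k10 2 (.s
  k21 k42 6 (.s k37 k53 3 (.s k26 k48 6 (.d k31 k16 k47 2 3))))), (.s k7 k11 1 (.s k23 k43 5 (.s k39
  k55 3 (.s k27 k51 5 (.d k31 k19 k47 1 3)))))] .n) (.c k42 (.q k170 [(.s k2 k1 0 (.s k85 k255 14
  (.s k86 k254 13 (.s k252 k169 14 (.d k84 k87 k168 0 13))))), (.s k255 k85 14 (.s k23 k43 5 (.s k87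
  k171 13 (.s k151 k215 7 (.s k107 k195 13 (.d k127 k67 k191 5 7)))))), (.s k1 k2 0 (.s k85 k255 14
  (.s k169 k253 13 (.s k252 k86 14 (.d k168 k171 k84 0 13)))))] (.c k85 (.q k127 [(.s k2 k1 0 (.s
  k86 k254 13 (.s k169 k252 14 (.s k255 k191 7 (.d k171 k168 k87 0 13))))), (.s k255 k191 7 (.s k87
  k171 13 (.s k107 k67 5 (.s k151 k195 13 (.d k23 k43 k215 5 7))))), (.s k2 k1 0 (.s k86 k254 13 (.s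
  k23 k43 5 (.s k149 k212 8 (.d k191 k128 k255 6 7)))))] (.c k191 (.l (.s k2 k1 0 (.s k86 k254 13
  (.s k43 k23 5 (.s k169 k252 14 (.s k171 k168 0 (.s k107 k235 7 (.d k87 k255 k67 13 5)))))))) (.c
  k255 (.q k15 [(.s k1 k2 0 (.s k5 k10 2 (.s k9 k13 1 (.s k7 k11 1 (.d k6 k4 k12 0 2))))), (.s k7
  k11 1 (.s k23 k43 5 (.s k39 k55 3 (.s k27 k51 5 (.d k31 k19 k47 1 3))))), (.s k2 k1 0 (.s k10 k5 2
  (.s k86 k254 13 (.s k90 k250 11 (.s k82 k94 1 (.d k240 k165 k161 14 12))))))] .n) .n))) (.c k169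
  (.l (.s k255 k85 14 (.s k43 k23 5 (.s k171 k87 13 (.s k107 k235 7 (.s k151 k195 13 (.d k191 k127
  k131 7 5))))))) (.c k255 (.q k15 [(.s k2 k1 0 (.s k10 k5 2 (.s k6 k14 1 (.s k9 k12 2 (.d k11 k8 k7
  0 1))))), (.s k7 k11 1 (.s k23 k43 5 (.s k39 k55 3 (.s k27 k51 5 (.d k31 k19 k47 1 3))))), (.s k2
  k1 0 (.s k10 k5 2 (.s k86 k254 13 (.s k252 k169 14 (.s k90 k250 11 (.d k94 k82 k173 1 12))))))]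
  .n) .n)))) (.c k43 (.q k15 [(.s k1 k2 0 (.s k5 k10 2 (.s k9 k13 1 (.s k6 k12 2 (.d k7 k4 k11 0
  1))))), (.s k5 k10 2 (.s k21 k42 6 (.s k37 k53 3 (.s k26 k48 6 (.d k31 k16 k47 2 3))))), (.s k1 k2
  0 (.s k21 k42 6 (.s k41 k61 5 (.s k11 k7 1 (.s k26 k56 4 (.d k31 k16 k47 2 3))))))] (.c k169 (.q
  k232 [(.s k1 k2 0 (.s k5 k10 2 (.s k9 k13 1 (.s k6 k12 2 (.d k7 k4 k11 0 1))))), (.s k5 k10 2 (.s
  k21 k42 6 (.s k37 k53 3 (.s k26 k48 6 (.d k31 k16 k47 2 3))))), (.s k1 k2 0 (.s k21 k42 6 (.s k41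
  k61 5 (.s k11 k7 1 (.s k26 k56 4 (.d k31 k16 k47 2 3))))))] .n) (.c k232 (.q k169 [(.s k1 k2 0 (.s
  k5 k10 2 (.s k9 k13 1 (.s k6 k12 2 (.d k7 k4 k11 0 1))))), (.s k5 k10 2 (.s k21 k42 6 (.s k37 k53
  3 (.s k26 k48 6 (.d k31 k16 k47 2 3))))), (.s k1 k2 0 (.s k85 k253 13 (.s k170 k255 14 (.s k252
  k86 14 (.d k168 k171 k84 0 13)))))] .n) .n))) (.c k60 (.q k15 [(.s k1 k2 0 (.s k5 k10 2 (.s k9 k13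
  1 (.s k7 k11 1 (.d k6 k4 k12 0 2))))), (.s k5 k10 2 (.s k21 k42 6 (.s k37 k53 3 (.s k26 k48 6 (.d
  k31 k16 k47 2 3))))), (.s k7 k11 1 (.s k23 k43 5 (.s k39 k55 3 (.s k27 k51 5 (.d k31 k19 k47 1
  3)))))] .n) (.c k61 (.l (.s k2 k1 0 (.s k43 k23 5 (.s k42 k21 6 (.s k41 k40 0 (.d k22 k62 k60 5
  6)))))) (.c k62 (.l (.s k1 k2 0 (.s k23 k43 5 (.s k21 k42 6 (.s k22 k20 0 (.d k41 k61 k60 5
  6)))))) .n))))))))))))))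

def t198 : T TT 256 :=
  (.q k3 [(.s k2 k1 0 (.s k43 k23 5 (.s k42 k21 6 (.s k41 k40 0 (.d k22 k62 k60 5 6)))))] (.c k1 (.q
  k15 [(.s k5 k10 2 (.s k21 k42 6 (.s k37 k53 3 (.s k26 k48 6 (.d k31 k16 k47 2 3))))), (.s k7 k11 1
  (.s k23 k43 5 (.s k39 k55 3 (.s k27 k51 5 (.d k31 k19 k47 1 3))))), (.s k5 k10 2 (.s k21 k42 6 (.s
  k7 k11 1 (.s k23 k43 5 (.s k4 k6 0 (.d k55 k39 k38 3 4))))))] .n) (.c k2 (.q k15 [(.s k10 k5 2 (.s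
  k47 k31 3 (.s k42 k21 6 (.s k37 k32 2 (.d k26 k58 k48 3 6))))), (.s k7 k11 1 (.s k23 k43 5 (.s k39
  k55 3 (.s k27 k51 5 (.d k31 k19 k47 1 3))))), (.s k5 k10 2 (.s k21 k42 6 (.s k7 k11 1 (.s k23 k43
  5 (.s k37 k53 3 (.d k22 k20 k52 0 4))))))] .n) (.c k20 (.l (.s k2 k1 0 (.s k42 k21 6 (.s k22 k62 5
  (.s k41 k60 6 (.d k43 k23 k40 5 0)))))) (.c k21 (.q k15 [(.s k1 k2 0 (.s k5 k10 2 (.s k9 k13 1 (.s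
  k6 k12 2 (.d k7 k4 k11 0 1))))), (.s k7 k11 1 (.s k23 k43 5 (.s k39 k55 3 (.s k27 k51 5 (.d k31
  k19 k47 1 3)))))] (.c k4 (.l (.s k2 k1 0 (.s k10 k5 2 (.s k6 k14 1 (.s k9 k12 2 (.d k11 k7 k8 1
  0)))))) (.c k7 (.q k170 [(.s k1 k2 0 (.s k85 k255 14 (.s k169 k253 13 (.s k168 k171 0 (.d k252 k84
  k86 13 14))))), (.s k5 k10 2 (.s k85 k255 14 (.s k165 k245 11 (.s k240 k90 14 (.d k160 k175 k80 2
  11))))), (.s k2 k1 0 (.s k10 k5 2 (.s k86 k254 13 (.s k90 k250 11 (.s k82 k94 1 (.d k240 k161 k165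
  12 14))))))] .n) (.c k11 (.q k170 [(.s k1 k2 0 (.s k85 k255 14 (.s k169 k253 13 (.s k252 k86 14
  (.d k168 k171 k84 0 13))))), (.s k5 k10 2 (.s k85 k255 14 (.s k165 k245 11 (.s k160 k175 2 (.d
  k240 k80 k90 11 14))))), (.s k2 k1 0 (.s k10 k5 2 (.s k86 k254 13 (.s k90 k250 11 (.s k82 k94 1
  (.d k240 k161 k165 12 14))))))] .n) .n)))) (.c k22 (.q k15 [(.s k2 k1 0 (.s k10 k5 2 (.s k6 k14 1
  (.s k9 k12 2 (.d k11 k8 k7 0 1))))), (.s k10 k5 2 (.s k42 k21 6 (.s k26 k58 3 (.s k37 k48 6 (.d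
  k47 k32 k31 2 3))))), (.s k7 k11 1 (.s k23 k43 5 (.s k39 k55 3 (.s k27 k51 5 (.d k31 k19 k47 1
  3)))))] .n) (.c k23 (.q k15 [(.s k1 k2 0 (.s k5 k10 2 (.s k9 k13 1 (.s k6 k12 2 (.d k7 k4 k11 0
  1))))), (.s k5 k10 2 (.s k21 k42 6 (.s k37 k53 3 (.s k26 k48 6 (.d k31 k16 k47 2 3))))), (.s k1 k2
  0 (.s k21 k42 6 (.s k41 k61 5 (.s k11 k7 1 (.s k26 k56 4 (.d k31 k16 k47 2 3))))))] .n) (.c k40
  (.l (.s k1 k2 0 (.s k21 k42 6 (.s k41 k61 5 (.s k22 k60 6 (.d k23 k43 k20 5 0)))))) (.c k41 (.q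
  k15 [(.s k1 k2 0 (.s k5 k10 2 (.s k9 k13 1 (.s k6 k12 2 (.d k7 k4 k11 0 1))))), (.s k5 k10 2 (.s
  k21 k42 6 (.s k37 k53 3 (.s k26 k48 6 (.d k31 k16 k47 2 3))))), (.s k7 k11 1 (.s k23 k43 5 (.s k39
  k55 3 (.s k27 k51 5 (.d k31 k19 k47 1 3)))))] .n) (.c k42 (.q k170 [(.s k2 k1 0 (.s k85 k255 14
  (.s k86 k254 13 (.s k252 k169 14 (.d k84 k87 k168 0 13))))), (.s k255 k85 14 (.s k23 k43 5 (.s k87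
  k171 13 (.s k151 k215 7 (.s k107 k195 13 (.d k127 k67 k191 5 7)))))), (.s k1 k2 0 (.s k85 k255 14
  (.s k169 k253 13 (.s k252 k86 14 (.d k168 k171 k84 0 13)))))] (.c k85 (.q k127 [(.s k2 k1 0 (.s
  k86 k254 13 (.s k169 k252 14 (.s k255 k191 7 (.d k171 k168 k87 0 13))))), (.s k255 k191 7 (.s k87
  k171 13 (.s k107 k67 5 (.s k151 k195 13 (.d k23 k43 k215 5 7))))), (.s k2 k1 0 (.s k86 k254 13 (.s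
  k23 k43 5 (.s k149 k212 8 (.d k191 k128 k255 6 7)))))] (.c k191 (.l (.s k2 k1 0 (.s k86 k254 13
  (.s k43 k23 5 (.s k169 k252 14 (.s k171 k168 0 (.s k107 k235 7 (.d k87 k255 k67 13 5)))))))) (.c
  k255 (.q k15 [(.s k1 k2 0 (.s k5 k10 2 (.s k9 k13 1 (.s k7 k11 1 (.d k6 k4 k12 0 2))))), (.s k7
  k11 1 (.s k23 k43 5 (.s k39 k55 3 (.s k27 k51 5 (.d k31 k19 k47 1 3))))), (.s k2 k1 0 (.s k10 k5 2
  (.s k86 k254 13 (.s k90 k250 11 (.s k82 k94 1 (.d k240 k165 k161 14 12))))))] .n) .n))) (.c k169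
  (.l (.s k255 k85 14 (.s k43 k23 5 (.s k171 k87 13 (.s k107 k235 7 (.s k151 k195 13 (.d k191 k127
  k131 7 5))))))) (.c k255 (.q k15 [(.s k2 k1 0 (.s k10 k5 2 (.s k6 k14 1 (.s k9 k12 2 (.d k11 k8 k7
  0 1))))), (.s k7 k11 1 (.s k23 k43 5 (.s k39 k55 3 (.s k27 k51 5 (.d k31 k19 k47 1 3))))), (.s k2
  k1 0 (.s k10 k5 2 (.s k86 k254 13 (.s k252 k169 14 (.s k90 k250 11 (.d k94 k82 k173 1 12))))))]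
  .n) .n)))) (.c k43 (.q k15 [(.s k1 k2 0 (.s k5 k10 2 (.s k9 k13 1 (.s k6 k12 2 (.d k7 k4 k11 0
  1))))), (.s k5 k10 2 (.s k21 k42 6 (.s k37 k53 3 (.s k26 k48 6 (.d k31 k16 k47 2 3))))), (.s k1 k2
  0 (.s k21 k42 6 (.s k41 k61 5 (.s k11 k7 1 (.s k26 k56 4 (.d k31 k16 k47 2 3))))))] (.c k169 (.q
  k232 [(.s k1 k2 0 (.s k5 k10 2 (.s k9 k13 1 (.s k6 k12 2 (.d k7 k4 k11 0 1))))), (.s k5 k10 2 (.s
  k21 k42 6 (.s k37 k53 3 (.s k26 k48 6 (.d k31 k16 k47 2 3))))), (.s k1 k2 0 (.s k21 k42 6 (.s k41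
  k61 5 (.s k11 k7 1 (.s k26 k56 4 (.d k31 k16 k47 2 3))))))] .n) (.c k232 (.q k169 [(.s k1 k2 0 (.s
  k5 k10 2 (.s k9 k13 1 (.s k6 k12 2 (.d k7 k4 k11 0 1))))), (.s k5 k10 2 (.s k21 k42 6 (.s k37 k53
  3 (.s k26 k48 6 (.d k31 k16 k47 2 3))))), (.s k1 k2 0 (.s k85 k253 13 (.s k170 k255 14 (.s k252
  k86 14 (.d k168 k171 k84 0 13)))))] .n) .n))) (.c k60 (.q k15 [(.s k1 k2 0 (.s k5 k10 2 (.s k9 k13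
  1 (.s k7 k11 1 (.d k6 k4 k12 0 2))))), (.s k5 k10 2 (.s k21 k42 6 (.s k37 k53 3 (.s k26 k48 6 (.d
  k31 k16 k47 2 3))))), (.s k7 k11 1 (.s k23 k43 5 (.s k39 k55 3 (.s k27 k51 5 (.d k31 k19 k47 1
  3)))))] .n) (.c k61 (.l (.s k2 k1 0 (.s k43 k23 5 (.s k42 k21 6 (.s k41 k40 0 (.d k22 k62 k60 5
  6)))))) (.c k62 (.l (.s k1 k2 0 (.s k23 k43 5 (.s k21 k42 6 (.s k22 k20 0 (.d k41 k61 k60 5
  6)))))) .n))))))))))))))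

def t199 : T TT 256 :=
  (.f k42 k21 6 (.q k58 [(.s k26 k10 3 (.s k48 k53 2 (.s k32 k16 3 (.d k37 k47 k15 2 6))))] (.c k5
  (.l (.s k26 k10 3 (.s k48 k53 2 (.s k37 k15 6 (.d k32 k47 k16 2 3))))) (.c k10 (.q k60 [(.s k40
  k20 5 (.s k41 k43 0 (.s k22 k3 6 (.d k62 k61 k2 0 5)))), (.s k48 k53 2 (.s k56 k52 1 (.s k57 k59 0
  (.s k54 k51 2 (.d k62 k61 k50 0 1))))), (.s k40 k20 5 (.s k48 k53 2 (.s k56 k52 1 (.s k8 k24 3 (.d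
  k59 k57 k25 0 4)))))] .n) (.c k15 (.q k60 [(.s k62 k61 0 (.s k40 k20 5 (.s k22 k2 5 (.d k41 k43 k3
  0 6)))), (.s k48 k53 2 (.s k56 k52 1 (.s k57 k59 0 (.s k54 k51 2 (.d k62 k61 k50 0 1))))), (.s k40
  k20 5 (.s k26 k10 3 (.s k41 k43 0 (.s k56 k11 4 (.d k48 k52 k53 1 2)))))] .n) (.c k16 (.q k60 [(.s
  k62 k61 0 (.s k22 k2 5 (.s k41 k3 6 (.d k40 k43 k20 0 5)))), (.s k48 k53 2 (.s k56 k52 1 (.s k57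
  k59 0 (.s k54 k51 2 (.d k62 k61 k50 0 1))))), (.s k40 k20 5 (.s k26 k10 3 (.s k41 k43 0 (.s k56
  k11 4 (.d k48 k52 k53 1 2)))))] (.c k26 (.q k31 [(.s k62 k61 0 (.s k22 k2 5 (.s k41 k3 6 (.d k40
  k43 k20 0 5)))), (.s k15 k47 3 (.s k30 k45 4 (.s k29 k28 0 (.s k46 k12 4 (.d k62 k61 k14 0 3))))),
  (.s k40 k20 5 (.s k47 k15 3 (.s k37 k32 2 (.s k41 k43 0 (.s k22 k3 6 (.s k48 k53 2 (.d k52 k7 k56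
  4 1)))))))] (.c k20 (.l (.s k15 k47 3 (.s k30 k45 4 (.s k62 k61 0 (.s k46 k14 3 (.d k29 k28 k12 0
  4)))))) .n)) (.c k31 (.l (.s k26 k10 3 (.s k40 k20 5 (.s k41 k43 0 (.s k22 k3 6 (.d k62 k61 k2 0
  5)))))) .n))) (.c k26 (.q k60 [(.s k62 k61 0 (.s k40 k20 5 (.s k22 k2 5 (.d k41 k43 k3 0 6)))),
  (.s k48 k53 2 (.s k56 k52 1 (.s k57 k59 0 (.s k54 k51 2 (.d k62 k61 k50 0 1))))), (.s k40 k20 5
  (.s k48 k53 2 (.s k56 k52 1 (.s k8 k24 3 (.d k59 k25 k57 4 0)))))] (.c k16 (.q k31 [(.s k62 k61 0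
  (.s k22 k2 5 (.s k41 k3 6 (.d k40 k43 k20 0 5)))), (.s k15 k47 3 (.s k30 k45 4 (.s k29 k28 0 (.s
  k46 k12 4 (.d k62 k61 k14 0 3))))), (.s k40 k20 5 (.s k47 k15 3 (.s k37 k32 2 (.s k41 k43 0 (.s
  k22 k3 6 (.s k48 k53 2 (.d k52 k7 k56 4 1)))))))] (.c k20 (.l (.s k15 k47 3 (.s k30 k45 4 (.s k62
  k61 0 (.s k46 k14 3 (.d k29 k28 k12 0 4)))))) .n)) (.c k31 (.q k16 [(.d k48 k53 k32 2 3), (.s k40
  k20 5 (.s k41 k43 0 (.s k22 k3 6 (.d k62 k61 k2 0 5))))] .n) .n))) (.c k32 (.q k60 [(.s k62 k61 0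
  (.s k40 k20 5 (.s k22 k2 5 (.d k41 k43 k3 0 6)))), (.s k48 k53 2 (.s k56 k52 1 (.s k57 k59 0 (.s
  k54 k51 2 (.d k62 k61 k50 0 1))))), (.s k40 k20 5 (.s k26 k10 3 (.s k41 k43 0 (.s k56 k11 4 (.d
  k48 k52 k53 1 2)))))] .n) (.c k37 (.q k60 [(.s k62 k61 0 (.s k40 k20 5 (.s k22 k2 5 (.d k41 k43 k3
  0 6)))), (.s k53 k48 2 (.s k61 k62 0 (.s k57 k49 1 (.s k51 k54 2 (.d k59 k56 k55 0 1))))), (.s k40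
  k20 5 (.s k26 k10 3 (.s k41 k43 0 (.s k56 k11 4 (.d k48 k53 k52 2 1)))))] (.c k5 (.l (.s k53 k48 2
  (.s k40 k20 5 (.s k41 k43 0 (.s k22 k3 6 (.d k62 k61 k2 0 5)))))) (.c k53 (.q k5 [(.d k10 k15 k26
  2 3), (.s k40 k20 5 (.s k41 k43 0 (.s k22 k3 6 (.d k62 k61 k2 0 5))))] .n) .n))) (.c k47 (.q k60
  [(.s k62 k61 0 (.s k40 k20 5 (.s k22 k2 5 (.d k41 k43 k3 0 6)))), (.s k48 k53 2 (.s k56 k52 1 (.s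
  k57 k59 0 (.s k54 k51 2 (.d k62 k61 k50 0 1))))), (.s k40 k20 5 (.s k26 k10 3 (.s k41 k43 0 (.s
  k56 k11 4 (.d k48 k52 k53 1 2)))))] (.c k165 (.q k224 [(.s k62 k61 0 (.s k40 k20 5 (.s k22 k2 5
  (.d k41 k43 k3 0 6)))), (.s k48 k53 2 (.s k56 k52 1 (.s k57 k59 0 (.s k54 k51 2 (.d k62 k61 k50 0
  1))))), (.s k40 k20 5 (.s k26 k10 3 (.s k41 k43 0 (.s k56 k11 4 (.d k48 k52 k53 1 2)))))] .n) (.c
  k224 (.q k165 [(.s k62 k61 0 (.s k40 k20 5 (.s k22 k2 5 (.d k41 k43 k3 0 6)))), (.s k48 k53 2 (.s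
  k56 k52 1 (.s k57 k59 0 (.s k54 k51 2 (.d k62 k61 k50 0 1))))), (.s k40 k20 5 (.s k26 k10 3 (.s
  k41 k43 0 (.s k56 k11 4 (.d k48 k52 k53 1 2)))))] .n) .n))) (.c k48 (.q k60 [(.s k62 k61 0 (.s k40
  k20 5 (.s k22 k2 5 (.d k41 k43 k3 0 6)))), (.s k10 k26 3 (.s k15 k5 2 (.s k30 k45 4 (.s k31 k47 3
  (.s k29 k28 0 (.s k46 k12 4 (.d k62 k61 k14 0 3))))))), (.s k40 k20 5 (.s k26 k10 3 (.s k41 k43 0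
  (.s k56 k11 4 (.s k8 k24 3 (.d k59 k57 k25 0 4))))))] .n) (.c k53 (.q k60 [(.s k40 k20 5 (.s k41
  k43 0 (.s k22 k3 6 (.d k62 k61 k2 0 5)))), (.s k26 k10 3 (.s k62 k61 0 (.s k22 k2 5 (.s k30 k18 1
  (.s k14 k46 3 (.d k50 k54 k38 1 5)))))), (.s k40 k20 5 (.s k26 k10 3 (.s k41 k43 0 (.s k56 k11 4
  (.s k8 k24 3 (.d k59 k57 k25 0 4))))))] (.c k5 (.q k37 [(.s k26 k10 3 (.s k15 k48 6 (.d k47 k32
  k31 2 3))), (.s k40 k20 5 (.s k41 k43 0 (.s k22 k3 6 (.d k62 k61 k2 0 5))))] .n) (.c k22 (.l (.s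
  k26 k10 3 (.s k62 k61 0 (.s k54 k50 1 (.s k57 k51 2 (.s k56 k59 0 (.s k41 k11 4 (.d k40 k43 k20 0
  5)))))))) (.c k37 (.q k5 [(.d k10 k15 k26 2 3), (.s k40 k20 5 (.s k41 k43 0 (.s k22 k3 6 (.d k62
  k61 k2 0 5))))] .n) (.c k41 (.q k37 [(.s k26 k10 3 (.s k15 k48 6 (.d k47 k32 k31 2 3))), (.s k40
  k20 5 (.s k32 k47 2 (.s k36 k44 1 (.s k38 k39 0 (.s k46 k34 1 (.s k12 k29 4 (.d k48 k16 k24 3
  5))))))), (.s k26 k10 3 (.s k15 k48 6 (.s k30 k45 4 (.s k22 k18 1 (.d k62 k61 k2 0 5)))))] (.c k1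
  (.l (.s k61 k62 0 (.s k10 k26 3 (.s k15 k5 2 (.d k47 k31 k32 3 2))))) (.c k48 (.l (.s k10 k26 3
  (.s k15 k5 2 (.d k47 k31 k32 3 2)))) (.c k61 (.q k1 [(.s k26 k10 3 (.s k15 k48 6 (.d k47 k32 k31 2
  3))), (.s k2 k3 0 (.s k22 k62 5 (.s k52 k7 4 (.s k32 k47 2 (.d k48 k56 k16 1 3))))), (.s k2 k3 0
  (.s k22 k62 5 (.s k52 k7 4 (.s k26 k10 3 (.d k48 k15 k56 6 1)))))] (.c k15 (.l (.s k2 k3 0 (.s k22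
  k62 5 (.s k32 k47 2 (.s k48 k16 3 (.d k52 k7 k56 4 1)))))) (.c k48 (.l (.s k10 k26 3 (.s k15 k5 2
  (.d k47 k31 k32 3 2)))) (.c k49 (.q k57 [(.s k51 k54 2 (.d k59 k55 k56 1 0)), (.s k10 k26 3 (.s
  k15 k5 2 (.d k47 k31 k32 3 2)))] (.c k56 (.l (.s k2 k3 0 (.s k62 k22 5 (.d k54 k50 k51 1 2))))
  .n)) (.c k57 (.q k49 [(.s k26 k10 3 (.s k15 k48 6 (.d k47 k32 k31 2 3))), (.s k25 k13 5 (.s k17
  k33 3 (.s k51 k34 4 (.d k59 k55 k8 1 4))))] (.c k9 (.l (.s k25 k13 5 (.s k17 k33 3 (.s k51 k34 4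
  (.d k59 k55 k8 1 4))))) (.c k25 (.q k9 [(.s k5 k13 1 (.d k10 k15 k26 2 3)), (.s k3 k2 0 (.s k32
  k47 2 (.s k48 k16 3 (.d k33 k17 k18 3 4))))] (.c k17 (.q k29 [(.s k3 k2 0 (.d k12 k6 k46 2 4)),
  (.s k5 k13 1 (.d k10 k15 k26 2 3))] .n) (.c k26 (.l (.s k5 k13 1 (.s k15 k10 2 (.d k47 k32 k31 2
  3)))) (.c k29 (.l (.s k17 k33 3 (.s k10 k26 3 (.d k5 k13 k15 1 2)))) .n)))) (.c k32 (.l (.s k10
  k26 3 (.s k5 k15 2 (.d k13 k9 k25 1 5)))) .n)))) .n))))) .n)))) .n))))) .n))))))))))))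

def t202 : T TT 256 :=
  (.f k42 k21 6 (.q k58 [(.s k26 k10 3 (.s k48 k53 2 (.s k32 k16 3 (.d k37 k47 k15 2 6)))), (.s k48
  k53 2 (.s k32 k16 3 (.s k37 k47 2 (.d k26 k10 k15 3 6))))] (.c k5 (.l (.s k26 k10 3 (.s k48 k53 2
  (.s k37 k15 6 (.d k32 k47 k16 2 3))))) (.c k10 (.q k12 [(.s k46 k29 4 (.s k8 k4 1 (.s k38 k34 1
  (.d k25 k59 k51 4 6)))), (.s k4 k8 1 (.s k48 k53 2 (.s k32 k16 3 (.s k36 k24 5 (.s k20 k52 3 (.d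
  k40 k44 k60 1 5)))))), (.s k46 k29 4 (.s k38 k34 1 (.s k48 k53 2 (.s k32 k16 3 (.s k36 k24 5 (.d
  k37 k39 k47 0 2))))))] (.c k74 (.q k138 [(.s k46 k29 4 (.s k8 k4 1 (.s k38 k34 1 (.d k25 k59 k51 4
  6)))), (.s k207 k69 10 (.s k48 k53 2 (.s k16 k32 3 (.s k154 k101 14 (.s k85 k223 10 (.d k170 k186
  k255 3 14))))))] (.c k90 (.q k122 [(.s k8 k4 1 (.s k46 k29 4 (.s k38 k34 1 (.d k25 k59 k51 4
  6)))), (.s k207 k69 10 (.s k48 k53 2 (.s k154 k101 14 (.d k186 k170 k250 3 7))))] (.c k170 (.l (.s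
  k250 k186 7 (.s k8 k4 1 (.s k25 k59 4 (.s k38 k51 6 (.d k46 k34 k29 1 4)))))) (.c k250 (.q k170
  [(.s k207 k69 10 (.s k154 k186 3 (.d k48 k53 k101 2 14))), (.s k8 k4 1 (.s k25 k59 4 (.s k38 k51 6
  (.d k46 k34 k29 1 4))))] (.c k218 (.q k234 [(.s k207 k69 10 (.s k154 k186 3 (.d k48 k53 k101 2
  14))), (.s k8 k4 1 (.s k25 k59 4 (.s k38 k51 6 (.d k46 k34 k29 1 4))))] (.c k26 (.l (.s k154 k186
  3 (.s k207 k69 10 (.d k48 k53 k101 2 14)))) (.c k154 (.q k26 [(.s k48 k53 2 (.s k32 k16 3 (.d k37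
  k47 k15 2 6))), (.s k8 k4 1 (.s k25 k59 4 (.s k38 k51 6 (.d k46 k34 k29 1 4))))] .n) .n))) (.c
  k234 (.q k218 [(.s k240 k181 10 (.d k207 k229 k69 6 10)), (.s k255 k85 14 (.s k48 k53 2 (.d k186
  k154 k117 3 10)))] .n) .n))) .n))) (.c k122 (.q k90 [(.s k46 k29 4 (.s k8 k4 1 (.s k38 k34 1 (.d
  k25 k59 k51 4 6)))), (.s k207 k69 10 (.s k48 k53 2 (.s k16 k32 3 (.s k154 k101 14 (.s k85 k223 10
  (.d k170 k186 k255 3 14))))))] .n) .n))) (.c k138 (.q k74 [(.s k46 k29 4 (.s k8 k4 1 (.s k38 k34 1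
  (.d k25 k59 k51 4 6)))), (.s k4 k8 1 (.s k48 k53 2 (.s k32 k16 3 (.s k36 k24 5 (.s k20 k52 3 (.d
  k40 k44 k60 1 5)))))), (.s k46 k29 4 (.s k38 k34 1 (.s k48 k53 2 (.s k32 k16 3 (.s k36 k24 5 (.d
  k37 k39 k47 0 2))))))] .n) .n))) (.c k15 (.q k12 [(.s k46 k29 4 (.s k8 k4 1 (.s k38 k34 1 (.d k25
  k59 k51 4 6)))), (.s k4 k8 1 (.s k48 k53 2 (.s k32 k16 3 (.s k36 k24 5 (.s k20 k52 3 (.d k40 k44
  k60 1 5)))))), (.s k26 k10 3 (.s k46 k29 4 (.s k38 k34 1 (.s k25 k51 6 (.s k48 k53 2 (.d k24 k27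
  k36 0 5))))))] .n) (.c k16 (.q k12 [(.s k46 k29 4 (.s k8 k4 1 (.s k38 k34 1 (.d k25 k59 k51 4
  6)))), (.s k26 k10 3 (.s k48 k53 2 (.s k24 k36 5 (.s k25 k27 0 (.d k8 k4 k59 1 4))))), (.s k26 k10
  3 (.s k48 k53 2 (.s k36 k24 5 (.s k37 k15 6 (.s k38 k39 0 (.d k46 k34 k29 1 4))))))] (.c k26 (.q
  k31 [(.s k46 k29 4 (.s k8 k4 1 (.s k38 k34 1 (.d k25 k59 k51 4 6)))), (.s k29 k46 4 (.s k15 k47 3
  (.s k30 k28 0 (.s k45 k60 4 (.d k13 k14 k61 0 3))))), (.s k8 k4 1 (.s k48 k53 2 (.s k24 k36 5 (.s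
  k56 k40 3 (.d k59 k57 k25 0 4)))))] .n) (.c k31 (.l (.s k26 k10 3 (.s k8 k4 1 (.s k25 k59 4 (.s
  k38 k51 6 (.d k46 k34 k29 1 4)))))) .n))) (.c k26 (.q k12 [(.s k46 k29 4 (.s k8 k4 1 (.s k38 k34 1
  (.d k25 k59 k51 4 6)))), (.s k8 k4 1 (.s k48 k53 2 (.s k16 k32 3 (.s k24 k36 5 (.s k40 k56 3 (.d
  k20 k28 k60 1 5)))))), (.s k46 k29 4 (.s k38 k34 1 (.s k48 k53 2 (.s k36 k24 5 (.s k37 k39 0 (.d
  k32 k16 k47 3 2))))))] (.c k16 (.q k31 [(.s k46 k29 4 (.s k8 k4 1 (.s k38 k34 1 (.d k25 k59 k51 4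
  6)))), (.s k29 k46 4 (.s k15 k47 3 (.s k30 k28 0 (.s k45 k60 4 (.d k13 k14 k61 0 3))))), (.s k8 k4
  1 (.s k48 k53 2 (.s k24 k36 5 (.s k56 k40 3 (.d k59 k57 k25 0 4)))))] .n) (.c k31 (.q k16 [(.d k48
  k53 k32 2 3), (.s k8 k4 1 (.s k25 k59 4 (.s k38 k51 6 (.d k46 k34 k29 1 4))))] .n) (.c k38 (.l (.s
  k4 k8 1 (.s k48 k53 2 (.s k36 k24 5 (.s k20 k52 3 (.s k40 k60 5 (.d k32 k44 k16 1 3))))))) .n))))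
  (.c k32 (.q k12 [(.s k8 k4 1 (.s k25 k59 4 (.s k38 k51 6 (.d k46 k34 k29 1 4)))), (.s k10 k26 3
  (.s k15 k5 2 (.s k14 k13 0 (.s k46 k29 4 (.s k62 k30 3 (.d k2 k22 k6 5 1)))))), (.s k4 k8 1 (.s
  k10 k26 3 (.s k5 k15 2 (.s k6 k7 0 (.s k2 k14 1 (.d k3 k1 k9 0 2))))))] .n) (.c k37 (.q k12 [(.s
  k46 k29 4 (.s k8 k4 1 (.s k38 k34 1 (.d k25 k59 k51 4 6)))), (.s k4 k8 1 (.s k10 k26 3 (.s k5 k15
  2 (.s k48 k53 2 (.s k6 k7 0 (.s k3 k9 2 (.d k2 k1 k14 0 1))))))), (.s k26 k10 3 (.s k46 k29 4 (.s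
  k38 k34 1 (.s k25 k51 6 (.s k24 k27 0 (.d k48 k53 k36 2 5))))))] (.c k5 (.l (.s k53 k48 2 (.s k8
  k4 1 (.s k25 k59 4 (.s k38 k51 6 (.d k46 k34 k29 1 4)))))) (.c k53 (.q k5 [(.d k10 k15 k26 2 3),
  (.s k8 k4 1 (.s k25 k59 4 (.s k38 k51 6 (.d k46 k34 k29 1 4))))] .n) .n))) (.c k47 (.q k12 [(.s
  k46 k29 4 (.s k8 k4 1 (.s k38 k34 1 (.d k25 k59 k51 4 6)))), (.s k4 k8 1 (.s k10 k26 3 (.s k5 k15
  2 (.s k6 k7 0 (.s k2 k14 1 (.d k3 k1 k9 0 2)))))), (.s k10 k26 3 (.s k15 k5 2 (.s k14 k13 0 (.s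
  k46 k29 4 (.s k62 k30 3 (.d k2 k22 k6 5 1))))))] (.c k165 (.q k224 [(.s k46 k29 4 (.s k8 k4 1 (.s
  k38 k34 1 (.d k25 k59 k51 4 6)))), (.s k4 k8 1 (.s k10 k26 3 (.s k5 k15 2 (.s k6 k7 0 (.s k2 k14 1
  (.d k3 k1 k9 0 2)))))), (.s k10 k26 3 (.s k15 k5 2 (.s k14 k13 0 (.s k46 k29 4 (.s k62 k30 3 (.d
  k2 k22 k6 5 1))))))] .n) (.c k224 (.q k165 [(.s k46 k29 4 (.s k8 k4 1 (.s k38 k34 1 (.d k25 k59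
  k51 4 6)))), (.s k4 k8 1 (.s k10 k26 3 (.s k5 k15 2 (.s k6 k7 0 (.s k2 k14 1 (.d k3 k1 k9 0
  2)))))), (.s k10 k26 3 (.s k15 k5 2 (.s k14 k13 0 (.s k46 k29 4 (.s k62 k30 3 (.d k2 k22 k6 5
  1))))))] .n) .n))) (.c k48 (.q k12 [(.s k46 k29 4 (.s k8 k4 1 (.s k38 k34 1 (.d k25 k59 k51 4
  6)))), (.s k10 k26 3 (.s k15 k5 2 (.s k14 k13 0 (.s k46 k29 4 (.s k62 k30 3 (.d k2 k22 k6 5
  1)))))), (.s k8 k4 1 (.s k10 k26 3 (.s k15 k5 2 (.s k9 k11 0 (.s k6 k3 2 (.d k14 k13 k2 0 1))))))]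
  .n) (.c k53 (.q k12 [(.s k46 k29 4 (.s k8 k4 1 (.s k38 k34 1 (.d k25 k59 k51 4 6)))), (.s k4 k8 1
  (.s k10 k26 3 (.s k5 k15 2 (.s k6 k7 0 (.s k3 k9 2 (.d k2 k1 k14 0 1)))))), (.s k26 k10 3 (.s k46
  k29 4 (.s k38 k34 1 (.s k14 k50 5 (.s k15 k13 0 (.s k37 k48 6 (.d k47 k32 k31 2 3)))))))] (.c k5
  (.q k37 [(.s k26 k10 3 (.s k15 k48 6 (.d k47 k32 k31 2 3))), (.s k8 k4 1 (.s k25 k59 4 (.s k38 k51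
  6 (.d k46 k34 k29 1 4))))] .n) (.c k37 (.q k5 [(.d k10 k15 k26 2 3), (.s k8 k4 1 (.s k25 k59 4 (.s
  k38 k51 6 (.d k46 k34 k29 1 4))))] .n) .n))) .n))))))))))))

def t203 : T TT 256 :=
  (.q k12 [(.s k8 k4 1 (.s k46 k29 4 (.s k42 k21 6 (.s k38 k34 1 (.d k25 k59 k51 4 6)))))] (.c k4
  (.q k62 [(.s k46 k29 4 (.s k30 k14 3 (.s k60 k61 0 (.s k44 k28 3 (.d k45 k47 k15 0 4))))), (.s k42
  k21 6 (.s k22 k2 5 (.s k60 k61 0 (.s k40 k20 5 (.d k41 k43 k3 0 6))))), (.s k42 k21 6 (.s k2 k22 5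
  (.s k46 k29 4 (.s k14 k30 3 (.s k6 k10 1 (.d k3 k1 k9 0 2))))))] .n) (.c k8 (.q k62 [(.s k42 k21 6
  (.s k22 k2 5 (.s k60 k61 0 (.s k40 k20 5 (.d k41 k43 k3 0 6))))), (.s k46 k29 4 (.s k30 k14 3 (.s
  k60 k61 0 (.s k44 k28 3 (.d k45 k47 k15 0 4))))), (.s k42 k21 6 (.s k2 k22 5 (.s k46 k29 4 (.s k14
  k30 3 (.s k6 k10 1 (.d k3 k9 k1 2 0))))))] (.c k73 (.q k138 [(.s k42 k21 6 (.s k22 k2 5 (.s k60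
  k61 0 (.s k40 k20 5 (.d k41 k43 k3 0 6))))), (.s k46 k29 4 (.s k30 k14 3 (.s k60 k61 0 (.s k44 k28
  3 (.d k45 k47 k15 0 4))))), (.s k42 k21 6 (.s k207 k69 10 (.s k2 k22 5 (.s k206 k70 9 (.s k110
  k158 11 (.d k204 k205 k157 0 12))))))] .n) (.c k138 (.q k73 [(.s k46 k29 4 (.s k30 k14 3 (.s k60
  k61 0 (.s k44 k28 3 (.d k45 k47 k15 0 4))))), (.s k42 k21 6 (.s k22 k2 5 (.s k60 k61 0 (.s k40 k20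
  5 (.d k41 k43 k3 0 6))))), (.s k42 k21 6 (.s k2 k22 5 (.s k46 k29 4 (.s k14 k30 3 (.s k6 k10 1 (.d
  k3 k9 k1 2 0))))))] .n) .n))) (.c k17 (.l (.s k8 k4 1 (.s k42 k21 6 (.s k25 k59 4 (.s k38 k51 6
  (.d k46 k29 k34 4 1)))))) (.c k21 (.q k62 [(.s k46 k29 4 (.s k30 k14 3 (.s k60 k61 0 (.s k44 k28 3
  (.d k45 k47 k15 0 4))))), (.s k4 k8 1 (.s k60 k61 0 (.s k20 k40 5 (.s k36 k52 3 (.s k24 k48 5 (.d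
  k28 k16 k44 1 3)))))), (.s k8 k4 1 (.s k46 k29 4 (.s k14 k30 3 (.s k15 k13 0 (.s k10 k5 2 (.s k9
  k11 0 (.d k6 k2 k3 1 2)))))))] (.c k1 (.l (.s k8 k4 1 (.s k46 k29 4 (.s k14 k30 3 (.s k15 k13 0
  (.s k10 k5 2 (.s k9 k11 0 (.d k6 k2 k3 1 2)))))))) (.c k28 (.q k3 [(.s k2 k1 0 (.s k22 k42 5 (.d
  k60 k61 k41 0 6))), (.s k4 k8 1 (.s k6 k9 2 (.s k5 k7 0 (.s k10 k15 2 (.s k14 k2 1 (.d k46 k30 k29
  3 4))))))] (.c k2 (.l (.s k9 k6 2 (.s k29 k46 4 (.s k61 k60 0 (.s k13 k45 3 (.s k5 k1 1 (.d k15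
  k14 k10 0 2))))))) .n)) (.c k61 (.q k14 [(.d k46 k30 k29 3 4), (.s k8 k4 1 (.s k15 k13 0 (.s k10
  k5 2 (.s k6 k2 1 (.d k9 k11 k3 0 2)))))] (.c k1 (.q k41 [(.d k46 k30 k29 3 4), (.s k8 k4 1 (.s k15
  k13 0 (.s k10 k5 2 (.s k9 k11 0 (.d k6 k2 k3 1 2)))))] (.c k29 (.l (.s k8 k4 1 (.s k30 k46 3 (.s
  k15 k13 0 (.s k45 k60 4 (.s k10 k5 2 (.s k9 k11 0 (.d k6 k2 k3 1 2)))))))) .n)) (.c k29 (.l (.s k8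
  k4 1 (.s k30 k46 3 (.s k15 k13 0 (.s k45 k60 4 (.s k10 k5 2 (.s k6 k2 1 (.d k9 k11 k3 0 2))))))))
  (.c k41 (.q k1 [(.d k46 k30 k29 3 4), (.s k2 k3 0 (.s k10 k6 1 (.d k15 k13 k5 0 2)))] .n) .n))))
  .n)))) (.c k25 (.q k3 [(.s k1 k2 0 (.s k8 k4 1 (.s k9 k6 2 (.s k5 k13 1 (.d k10 k11 k15 0 2))))),
  (.s k2 k1 0 (.s k42 k21 6 (.s k22 k62 5 (.s k41 k60 6 (.d k43 k40 k23 0 5))))), (.s k21 k42 6 (.s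
  k6 k9 2 (.s k23 k43 5 (.s k22 k20 0 (.s k38 k54 3 (.d k4 k8 k55 1 4))))))] .n) (.c k29 (.q k3 [(.s
  k1 k2 0 (.s k8 k4 1 (.s k9 k6 2 (.s k5 k13 1 (.d k10 k11 k15 0 2))))), (.s k1 k2 0 (.s k21 k42 6
  (.s k23 k43 5 (.s k22 k20 0 (.d k41 k61 k60 5 6))))), (.s k4 k8 1 (.s k21 k42 6 (.s k6 k9 2 (.s
  k23 k43 5 (.s k38 k55 4 (.d k22 k20 k54 0 3))))))] .n) (.c k34 (.l (.s k4 k8 1 (.s k21 k42 6 (.s
  k38 k55 4 (.s k25 k51 6 (.d k29 k46 k17 4 1)))))) (.c k38 (.q k3 [(.s k1 k2 0 (.s k9 k6 2 (.s k5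
  k13 1 (.s k10 k15 2 (.d k8 k11 k4 0 1))))), (.s k1 k2 0 (.s k21 k42 6 (.s k41 k61 5 (.s k22 k60 6
  (.d k23 k20 k43 0 5))))), (.s k42 k21 6 (.s k9 k6 2 (.s k43 k23 5 (.s k41 k40 0 (.s k25 k57 3 (.d
  k8 k4 k59 1 4))))))] (.c k22 (.l (.s k2 k1 0 (.s k4 k8 1 (.s k6 k9 2 (.s k10 k14 1 (.d k5 k7 k15 0
  2)))))) .n)) (.c k42 (.q k170 [(.s k8 k4 1 (.s k85 k255 14 (.s k89 k251 12 (.s k243 k166 14 (.d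
  k81 k93 k162 1 12))))), (.s k255 k85 14 (.s k29 k46 4 (.s k93 k174 12 (.s k157 k221 7 (.s k110
  k204 12 (.d k127 k76 k191 4 7)))))), (.s k4 k8 1 (.s k85 k255 14 (.s k166 k247 12 (.s k243 k89 14
  (.d k162 k174 k81 1 12)))))] (.c k85 (.f k8 k4 1 (.l (.s k89 k251 12 (.s k29 k46 4 (.s k166 k243
  14 (.s k149 k209 9 (.s k128 k191 6 (.s k132 k183 4 (.d k192 k64 k72 7 9))))))))) (.c k166 (.l (.s
  k255 k85 14 (.s k46 k29 4 (.s k174 k93 12 (.s k110 k238 7 (.s k157 k204 12 (.d k191 k127 k140 7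
  4))))))) (.c k255 (.f k8 k4 1 (.l (.s k89 k251 12 (.s k29 k46 4 (.s k149 k209 9 (.s k128 k191 6
  (.s k192 k64 7 (.s k132 k72 9 (.d k166 k243 k183 14 4))))))))) .n)))) (.c k46 (.q k3 [(.s k1 k2 0
  (.s k8 k4 1 (.s k9 k6 2 (.s k5 k13 1 (.d k10 k11 k15 0 2))))), (.s k1 k2 0 (.s k21 k42 6 (.s k41
  k61 5 (.s k22 k60 6 (.d k23 k20 k43 0 5))))), (.s k4 k8 1 (.s k21 k42 6 (.s k6 k9 2 (.s k23 k43 5
  (.s k38 k55 4 (.d k22 k20 k54 0 3))))))] (.c k166 (.q k226 [(.s k1 k2 0 (.s k21 k42 6 (.s k41 k61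
  5 (.s k22 k60 6 (.d k23 k20 k43 0 5))))), (.s k1 k2 0 (.s k8 k4 1 (.s k9 k6 2 (.s k5 k13 1 (.d k10
  k11 k15 0 2))))), (.s k4 k8 1 (.s k21 k42 6 (.s k6 k9 2 (.s k23 k43 5 (.s k38 k55 4 (.d k22 k20
  k54 0 3))))))] .n) (.c k226 (.q k166 [(.s k1 k2 0 (.s k8 k4 1 (.s k9 k6 2 (.s k5 k13 1 (.d k10 k11
  k15 0 2))))), (.s k4 k8 1 (.s k85 k247 12 (.s k170 k255 14 (.s k243 k89 14 (.d k162 k174 k81 1
  12))))), (.s k1 k2 0 (.s k21 k42 6 (.s k41 k61 5 (.s k22 k60 6 (.d k23 k20 k43 0 5)))))] .n) .n)))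
  (.c k51 (.q k3 [(.s k1 k2 0 (.s k8 k4 1 (.s k9 k6 2 (.s k5 k13 1 (.d k10 k11 k15 0 2))))), (.s k1
  k2 0 (.s k21 k42 6 (.s k41 k61 5 (.s k22 k60 6 (.d k23 k20 k43 0 5))))), (.s k4 k8 1 (.s k21 k42 6
  (.s k6 k9 2 (.s k23 k43 5 (.s k38 k55 4 (.d k22 k20 k54 0 3))))))] .n) (.c k55 (.l (.s k8 k4 1 (.s
  k46 k29 4 (.s k42 k21 6 (.s k38 k34 1 (.d k25 k59 k51 4 6)))))) (.c k59 (.l (.s k4 k8 1 (.s k29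
  k46 4 (.s k21 k42 6 (.s k25 k17 1 (.d k38 k55 k51 4 6)))))) .n))))))))))))))

def t207 : T TT 256 :=
  (.q k12 [(.s k8 k4 1 (.s k46 k29 4 (.s k42 k21 6 (.s k38 k34 1 (.d k25 k59 k51 4 6)))))] (.c k4
  (.q k60 [(.s k20 k40 5 (.s k21 k42 6 (.s k22 k23 0 (.s k41 k3 6 (.d k61 k62 k1 0 5))))), (.s k28
  k44 3 (.s k29 k46 4 (.s k30 k31 0 (.s k45 k15 4 (.d k61 k62 k13 0 3))))), (.s k20 k40 5 (.s k21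
  k42 6 (.s k28 k44 3 (.s k29 k46 4 (.s k16 k24 1 (.d k31 k30 k26 0 2))))))] .n) (.c k8 (.q k60 [(.s
  k40 k20 5 (.s k62 k61 0 (.s k42 k21 6 (.s k22 k2 5 (.d k41 k43 k3 0 6))))), (.s k28 k44 3 (.s k29
  k46 4 (.s k30 k31 0 (.s k45 k15 4 (.d k61 k62 k13 0 3))))), (.s k20 k40 5 (.s k21 k42 6 (.s k28
  k44 3 (.s k29 k46 4 (.s k25 k17 1 (.d k22 k23 k19 0 2))))))] .n) (.c k17 (.l (.s k8 k4 1 (.s k42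
  k21 6 (.s k25 k59 4 (.s k38 k51 6 (.d k46 k29 k34 4 1)))))) (.c k21 (.q k60 [(.s k4 k8 1 (.s k20
  k40 5 (.s k36 k52 3 (.s k28 k44 3 (.d k24 k16 k48 1 5))))), (.s k28 k44 3 (.s k29 k46 4 (.s k30
  k31 0 (.s k45 k15 4 (.d k61 k62 k13 0 3)))))] (.c k16 (.l (.s k8 k4 1 (.s k40 k20 5 (.s k24 k56 3
  (.s k36 k48 5 (.d k44 k28 k32 3 1)))))) (.c k28 (.q k42 [(.s k8 k4 1 (.s k46 k29 4 (.s k38 k34 1
  (.d k25 k59 k51 4 6)))), (.s k40 k20 5 (.s k41 k43 0 (.s k22 k3 6 (.d k62 k61 k2 0 5))))] .n) (.c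
  k44 (.q k42 [(.s k8 k4 1 (.s k46 k29 4 (.s k38 k34 1 (.d k25 k59 k51 4 6)))), (.s k40 k20 5 (.s
  k41 k43 0 (.s k22 k3 6 (.d k62 k61 k2 0 5))))] .n) .n)))) (.c k25 (.q k60 [(.s k8 k4 1 (.s k40 k20
  5 (.s k24 k56 3 (.s k36 k48 5 (.d k44 k32 k28 1 3))))), (.s k40 k20 5 (.s k42 k21 6 (.s k41 k43 0
  (.s k22 k3 6 (.d k62 k61 k2 0 5))))), (.s k28 k44 3 (.s k29 k46 4 (.s k30 k31 0 (.s k45 k15 4 (.d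
  k61 k62 k13 0 3)))))] .n) (.c k29 (.q k60 [(.s k4 k8 1 (.s k20 k40 5 (.s k36 k52 3 (.s k28 k44 3
  (.d k24 k16 k48 1 5))))), (.s k20 k40 5 (.s k21 k42 6 (.s k22 k23 0 (.s k41 k3 6 (.d k61 k62 k1 0
  5))))), (.s k4 k8 1 (.s k21 k42 6 (.s k38 k55 4 (.s k44 k28 3 (.s k41 k35 2 (.d k61 k62 k1 0
  5))))))] .n) (.c k34 (.l (.s k4 k8 1 (.s k21 k42 6 (.s k38 k55 4 (.s k25 k51 6 (.d k29 k46 k17 4
  1)))))) (.c k38 (.q k60 [(.s k4 k8 1 (.s k20 k40 5 (.s k36 k52 3 (.s k24 k48 5 (.d k28 k16 k44 1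
  3))))), (.s k20 k40 5 (.s k21 k42 6 (.s k22 k23 0 (.s k41 k3 6 (.d k61 k62 k1 0 5))))), (.s k28
  k44 3 (.s k29 k46 4 (.s k30 k31 0 (.s k45 k15 4 (.d k61 k62 k13 0 3)))))] .n) (.c k42 (.q k170
  [(.s k8 k4 1 (.s k85 k255 14 (.s k89 k251 12 (.s k243 k166 14 (.d k81 k93 k162 1 12))))), (.s k255
  k85 14 (.s k29 k46 4 (.s k93 k174 12 (.s k157 k221 7 (.s k110 k204 12 (.d k127 k76 k191 4 7)))))),
  (.s k4 k8 1 (.s k85 k255 14 (.s k166 k247 12 (.s k243 k89 14 (.d k162 k174 k81 1 12)))))] (.c k85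
  (.q k60 [(.s k4 k8 1 (.s k20 k40 5 (.s k36 k52 3 (.s k28 k44 3 (.d k24 k16 k48 1 5))))), (.s k28
  k44 3 (.s k29 k46 4 (.s k30 k31 0 (.s k45 k15 4 (.d k61 k62 k13 0 3))))), (.s k8 k4 1 (.s k40 k20
  5 (.s k89 k251 12 (.s k105 k235 8 (.s k73 k121 3 (.d k195 k150 k134 14 10))))))] (.c k64 (.q k127
  [(.s k40 k20 5 (.s k105 k235 8 (.s k61 k62 0 (.s k149 k193 13 (.d k191 k128 k255 6 7))))), (.s k4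
  k8 1 (.s k20 k40 5 (.s k36 k52 3 (.s k24 k48 5 (.d k28 k16 k44 1 3))))), (.s k8 k4 1 (.s k89 k251
  12 (.s k29 k46 4 (.s k149 k209 9 (.d k191 k128 k255 6 7)))))] .n) (.c k127 (.q k64 [(.s k4 k8 1
  (.s k20 k40 5 (.s k36 k52 3 (.s k28 k44 3 (.d k24 k16 k48 1 5))))), (.s k40 k20 5 (.s k128 k192 7
  (.s k105 k235 8 (.s k61 k62 0 (.d k149 k191 k193 6 13))))), (.s k8 k4 1 (.s k128 k192 7 (.s k89
  k251 12 (.s k29 k46 4 (.d k149 k191 k209 6 9)))))] .n) .n))) (.c k166 (.l (.s k255 k85 14 (.s k46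
  k29 4 (.s k174 k93 12 (.s k110 k238 7 (.s k157 k204 12 (.d k191 k127 k140 7 4))))))) (.c k255 (.q
  k60 [(.s k8 k4 1 (.s k44 k28 3 (.s k40 k20 5 (.s k36 k32 1 (.d k24 k56 k48 3 5))))), (.s k28 k44 3
  (.s k29 k46 4 (.s k30 k31 0 (.s k45 k15 4 (.d k61 k62 k13 0 3))))), (.s k8 k4 1 (.s k40 k20 5 (.s
  k89 k251 12 (.s k243 k166 14 (.s k105 k235 8 (.d k121 k73 k182 3 10))))))] (.c k223 (.q k239 [(.s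
  k40 k20 5 (.s k44 k28 3 (.d k32 k36 k101 1 10))), (.s k8 k4 1 (.s k89 k251 12 (.s k44 k28 3 (.s
  k174 k109 8 (.d k166 k243 k162 14 1))))), (.s k4 k8 1 (.s k20 k40 5 (.s k36 k52 3 (.s k32 k101 10
  (.d k48 k24 k16 5 3)))))] .n) (.c k239 (.q k223 [(.s k8 k4 1 (.s k44 k28 3 (.s k40 k20 5 (.s k36
  k32 1 (.d k24 k56 k48 3 5))))), (.s k28 k44 3 (.s k29 k46 4 (.s k30 k31 0 (.s k45 k15 4 (.d k61
  k62 k13 0 3))))), (.s k8 k4 1 (.s k40 k20 5 (.s k89 k251 12 (.s k243 k166 14 (.s k105 k235 8 (.d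
  k121 k73 k182 3 10))))))] .n) .n))) .n)))) (.c k46 (.f k42 k21 6 (.q k60 [(.s k62 k61 0 (.s k40
  k20 5 (.s k22 k2 5 (.d k41 k43 k3 0 6)))), (.s k4 k8 1 (.s k20 k40 5 (.s k36 k52 3 (.s k24 k48 5
  (.d k28 k16 k44 1 3))))), (.s k8 k4 1 (.s k25 k59 4 (.s k28 k44 3 (.s k22 k19 2 (.d k62 k61 k2 0
  5)))))] (.c k166 (.q k226 [(.s k62 k61 0 (.s k40 k20 5 (.s k22 k2 5 (.d k41 k43 k3 0 6)))), (.s k4
  k8 1 (.s k20 k40 5 (.s k36 k52 3 (.s k24 k48 5 (.d k28 k16 k44 1 3))))), (.s k8 k4 1 (.s k25 k59 4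
  (.s k28 k44 3 (.s k22 k19 2 (.d k62 k61 k2 0 5)))))] .n) (.c k226 (.q k166 [(.s k62 k61 0 (.s k40
  k20 5 (.s k22 k2 5 (.d k41 k43 k3 0 6)))), (.s k4 k8 1 (.s k85 k247 12 (.s k170 k255 14 (.s k243
  k89 14 (.d k162 k174 k81 1 12)))))] .n) .n)))) (.c k51 (.f k42 k21 6 (.q k60 [(.s k62 k61 0 (.s
  k40 k20 5 (.s k22 k2 5 (.d k41 k43 k3 0 6)))), (.s k4 k8 1 (.s k20 k40 5 (.s k36 k52 3 (.s k24 k48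
  5 (.d k28 k16 k44 1 3))))), (.s k8 k4 1 (.s k25 k59 4 (.s k28 k44 3 (.s k22 k19 2 (.d k62 k61 k2 0
  5)))))] (.c k103 (.q k155 [(.s k62 k61 0 (.s k40 k20 5 (.s k22 k2 5 (.d k41 k43 k3 0 6)))), (.s k4
  k8 1 (.s k20 k40 5 (.s k36 k52 3 (.s k24 k48 5 (.d k28 k16 k44 1 3))))), (.s k8 k4 1 (.s k25 k59 4
  (.s k28 k44 3 (.s k22 k19 2 (.d k62 k61 k2 0 5)))))] .n) (.c k155 (.q k103 [(.s k62 k61 0 (.s k40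
  k20 5 (.s k22 k2 5 (.d k41 k43 k3 0 6)))), (.s k4 k8 1 (.s k20 k40 5 (.s k36 k52 3 (.s k24 k48 5
  (.d k28 k16 k44 1 3))))), (.s k8 k4 1 (.s k25 k59 4 (.s k28 k44 3 (.s k22 k19 2 (.d k62 k61 k2 0
  5)))))] .n) .n)))) (.c k55 (.l (.s k8 k4 1 (.s k46 k29 4 (.s k42 k21 6 (.s k38 k34 1 (.d k25 k59
  k51 4 6)))))) (.c k59 (.l (.s k4 k8 1 (.s k29 k46 4 (.s k21 k42 6 (.s k25 k17 1 (.d k38 k55 k51 4
  6)))))) .n))))))))))))))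

def t213 : T TT 256 :=
  (.q k12 [(.s k4 k8 1 (.s k21 k42 6 (.s k38 k55 4 (.s k25 k51 6 (.d k29 k17 k46 1 4))))), (.s k8 k4
  1 (.s k42 k21 6 (.s k25 k59 4 (.s k38 k51 6 (.d k46 k34 k29 1 4)))))] (.c k4 (.q k62 [(.s k46 k29
  4 (.s k30 k14 3 (.s k60 k61 0 (.s k44 k28 3 (.d k45 k47 k15 0 4))))), (.s k42 k21 6 (.s k22 k2 5
  (.s k60 k61 0 (.s k40 k20 5 (.d k41 k43 k3 0 6))))), (.s k42 k21 6 (.s k2 k22 5 (.s k46 k29 4 (.s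
  k14 k30 3 (.s k6 k10 1 (.d k3 k1 k9 0 2))))))] .n) (.c k8 (.q k62 [(.s k46 k29 4 (.s k30 k14 3 (.s
  k60 k61 0 (.s k44 k28 3 (.d k45 k47 k15 0 4))))), (.s k42 k21 6 (.s k22 k2 5 (.s k60 k61 0 (.s k40
  k20 5 (.d k41 k43 k3 0 6))))), (.s k42 k21 6 (.s k2 k22 5 (.s k46 k29 4 (.s k14 k30 3 (.s k6 k10 1
  (.d k3 k9 k1 2 0))))))] .n) (.c k21 (.q k85 [(.s k4 k8 1 (.s k166 k247 12 (.s k89 k243 14 (.s k93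
  k81 1 (.d k255 k174 k170 12 14))))), (.s k255 k170 14 (.s k46 k29 4 (.s k174 k93 12 (.s k110 k238
  7 (.s k157 k204 12 (.d k191 k140 k127 4 7))))))] (.c k93 (.l (.s k4 k8 1 (.s k170 k255 14 (.s k166
  k247 12 (.s k243 k89 14 (.d k162 k174 k81 1 12)))))) (.c k170 (.q k3 [(.s k1 k2 0 (.s k9 k6 2 (.s
  k5 k13 1 (.s k10 k15 2 (.d k8 k11 k4 0 1))))), (.s k1 k2 0 (.s k4 k8 1 (.s k169 k253 13 (.s k166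
  k247 12 (.s k163 k172 2 (.d k243 k89 k83 14 11)))))), (.s k4 k8 1 (.s k6 k9 2 (.s k166 k247 12 (.s
  k86 k246 11 (.s k252 k169 14 (.d k84 k168 k87 13 0)))))), (.s k1 k2 0 (.s k169 k253 13 (.s k9 k6 2
  (.s k89 k249 11 (.s k243 k166 14 (.d k81 k162 k93 12 1))))))] (.c k42 (.q k234 [(.s k1 k2 0 (.s k9
  k6 2 (.s k5 k13 1 (.s k10 k15 2 (.d k8 k11 k4 0 1))))), (.s k4 k8 1 (.s k6 k9 2 (.s k166 k247 12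
  (.s k86 k246 11 (.s k252 k169 14 (.d k84 k168 k87 13 0)))))), (.s k1 k2 0 (.s k4 k8 1 (.s k169
  k253 13 (.s k166 k247 12 (.s k163 k172 2 (.d k243 k89 k83 14 11)))))), (.s k1 k2 0 (.s k169 k253
  13 (.s k9 k6 2 (.s k89 k249 11 (.s k243 k166 14 (.d k81 k162 k93 12 1))))))] (.c k86 (.l (.s k2 k1
  0 (.s k4 k8 1 (.s k6 k9 2 (.s k10 k14 1 (.d k5 k7 k15 0 2)))))) .n)) (.c k86 (.l (.s k2 k1 0 (.s
  k4 k8 1 (.s k6 k9 2 (.s k10 k14 1 (.d k5 k7 k15 0 2)))))) (.c k234 (.q k42 [(.s k2 k1 0 (.s k22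
  k62 5 (.s k41 k60 6 (.d k43 k40 k23 0 5)))), (.s k8 k4 1 (.s k25 k59 4 (.s k38 k51 6 (.d k46 k34
  k29 1 4))))] (.c k192 (.q k255 [(.s k1 k2 0 (.s k87 k171 13 (.s k86 k84 0 (.d k169 k253 k252 13
  14)))), (.s k4 k8 1 (.s k166 k247 12 (.s k89 k243 14 (.d k93 k81 k174 1 12))))] .n) (.c k255 (.q
  k192 [(.s k2 k1 0 (.s k22 k62 5 (.s k43 k23 5 (.d k41 k40 k60 0 6)))), (.s k8 k4 1 (.s k25 k59 4
  (.s k38 k51 6 (.d k46 k34 k29 1 4))))] .n) .n))) .n)))) (.c k174 (.l (.s k8 k4 1 (.s k170 k255 14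
  (.s k89 k251 12 (.s k243 k166 14 (.d k81 k93 k162 1 12)))))) (.c k255 (.q k3 [(.s k1 k2 0 (.s k9
  k6 2 (.s k5 k13 1 (.s k10 k15 2 (.d k8 k11 k4 0 1))))), (.s k1 k2 0 (.s k4 k8 1 (.s k169 k253 13
  (.s k252 k86 14 (.s k166 k247 12 (.d k172 k163 k92 2 11)))))), (.s k4 k8 1 (.s k6 k9 2 (.s k166
  k247 12 (.s k86 k246 11 (.s k252 k169 14 (.d k84 k87 k168 0 13)))))), (.s k1 k2 0 (.s k169 k253 13
  (.s k9 k6 2 (.s k89 k249 11 (.s k243 k166 14 (.d k81 k93 k162 1 12))))))] (.c k192 (.q k234 [(.s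
  k1 k2 0 (.s k8 k4 1 (.s k9 k6 2 (.s k5 k13 1 (.d k10 k11 k15 0 2))))), (.s k1 k2 0 (.s k4 k8 1 (.s
  k169 k253 13 (.s k252 k86 14 (.s k166 k247 12 (.d k172 k163 k92 2 11)))))), (.s k4 k8 1 (.s k6 k9
  2 (.s k166 k247 12 (.s k86 k246 11 (.s k252 k169 14 (.d k84 k87 k168 0 13)))))), (.s k1 k2 0 (.s
  k169 k253 13 (.s k9 k6 2 (.s k89 k249 11 (.s k243 k166 14 (.d k81 k93 k162 1 12))))))] .n) (.c
  k234 (.q k192 [(.s k1 k2 0 (.s k8 k4 1 (.s k9 k6 2 (.s k5 k13 1 (.d k10 k11 k15 0 2))))), (.s k4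
  k8 1 (.s k128 k64 7 (.s k132 k72 9 (.s k68 k196 7 (.d k136 k140 k204 1 9))))), (.s k1 k2 0 (.s
  k128 k64 7 (.s k129 k66 8 (.s k65 k193 7 (.d k130 k131 k195 0 8)))))] (.c k42 (.q k170 [(.s k1 k2
  0 (.s k169 k253 13 (.s k168 k171 0 (.d k252 k84 k86 13 14)))), (.s k4 k8 1 (.s k166 k247 12 (.s
  k243 k89 14 (.d k162 k174 k81 1 12))))] .n) (.c k170 (.q k42 [(.s k2 k1 0 (.s k22 k62 5 (.s k43
  k23 5 (.d k41 k40 k60 0 6)))), (.s k8 k4 1 (.s k25 k59 4 (.s k38 k51 6 (.d k46 k34 k29 1 4))))]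
  .n) .n))) .n))) .n))))) (.c k25 (.q k3 [(.s k1 k2 0 (.s k8 k4 1 (.s k9 k6 2 (.s k10 k11 0 (.d k5
  k13 k15 1 2))))), (.s k2 k1 0 (.s k42 k21 6 (.s k22 k62 5 (.s k41 k60 6 (.d k43 k40 k23 0 5))))),
  (.s k21 k42 6 (.s k6 k9 2 (.s k23 k43 5 (.s k22 k20 0 (.s k38 k54 3 (.d k4 k8 k55 1 4))))))] .n)
  (.c k29 (.q k3 [(.s k1 k2 0 (.s k8 k4 1 (.s k9 k6 2 (.s k10 k11 0 (.d k5 k13 k15 1 2))))), (.s k1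
  k2 0 (.s k21 k42 6 (.s k23 k43 5 (.s k22 k20 0 (.d k41 k61 k60 5 6))))), (.s k4 k8 1 (.s k21 k42 6
  (.s k6 k9 2 (.s k23 k43 5 (.s k38 k55 4 (.d k22 k20 k54 0 3))))))] .n) (.c k38 (.q k3 [(.s k1 k2 0
  (.s k9 k6 2 (.s k5 k13 1 (.s k10 k15 2 (.d k8 k11 k4 0 1))))), (.s k1 k2 0 (.s k21 k42 6 (.s k41
  k61 5 (.s k22 k60 6 (.d k23 k20 k43 0 5))))), (.s k42 k21 6 (.s k9 k6 2 (.s k43 k23 5 (.s k41 k40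
  0 (.s k25 k57 3 (.d k8 k4 k59 1 4))))))] (.c k22 (.l (.s k2 k1 0 (.s k4 k8 1 (.s k6 k9 2 (.s k10
  k14 1 (.d k5 k7 k15 0 2)))))) .n)) (.c k42 (.q k170 [(.s k8 k4 1 (.s k85 k255 14 (.s k89 k251 12
  (.s k243 k166 14 (.d k81 k93 k162 1 12))))), (.s k255 k85 14 (.s k29 k46 4 (.s k93 k174 12 (.s
  k157 k221 7 (.s k110 k204 12 (.d k127 k76 k191 4 7)))))), (.s k4 k8 1 (.s k85 k255 14 (.s k166
  k247 12 (.s k243 k89 14 (.d k162 k174 k81 1 12)))))] (.c k85 (.f k8 k4 1 (.l (.s k89 k251 12 (.s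
  k29 k46 4 (.s k166 k243 14 (.s k149 k209 9 (.s k128 k191 6 (.s k132 k183 4 (.d k192 k64 k72 7
  9))))))))) (.c k166 (.l (.s k255 k85 14 (.s k46 k29 4 (.s k174 k93 12 (.s k110 k238 7 (.s k157
  k204 12 (.d k191 k127 k140 7 4))))))) (.c k255 (.f k8 k4 1 (.l (.s k89 k251 12 (.s k29 k46 4 (.s
  k149 k209 9 (.s k128 k191 6 (.s k192 k64 7 (.s k132 k72 9 (.d k166 k243 k183 14 4))))))))) .n))))
  (.c k46 (.q k3 [(.s k1 k2 0 (.s k8 k4 1 (.s k9 k6 2 (.s k5 k13 1 (.d k10 k11 k15 0 2))))), (.s k1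
  k2 0 (.s k21 k42 6 (.s k41 k61 5 (.s k22 k60 6 (.d k23 k20 k43 0 5))))), (.s k4 k8 1 (.s k21 k42 6
  (.s k6 k9 2 (.s k23 k43 5 (.s k38 k55 4 (.d k22 k20 k54 0 3))))))] (.c k166 (.q k226 [(.s k1 k2 0
  (.s k21 k42 6 (.s k41 k61 5 (.s k22 k60 6 (.d k23 k20 k43 0 5))))), (.s k1 k2 0 (.s k8 k4 1 (.s k9
  k6 2 (.s k5 k13 1 (.d k10 k11 k15 0 2))))), (.s k4 k8 1 (.s k21 k42 6 (.s k6 k9 2 (.s k23 k43 5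
  (.s k38 k55 4 (.d k22 k20 k54 0 3))))))] .n) (.c k226 (.q k166 [(.s k1 k2 0 (.s k8 k4 1 (.s k9 k6
  2 (.s k5 k13 1 (.d k10 k11 k15 0 2))))), (.s k4 k8 1 (.s k85 k247 12 (.s k170 k255 14 (.s k243 k89
  14 (.d k162 k174 k81 1 12))))), (.s k1 k2 0 (.s k21 k42 6 (.s k41 k61 5 (.s k22 k60 6 (.d k23 k20
  k43 0 5)))))] .n) .n))) (.c k51 (.q k3 [(.s k1 k2 0 (.s k8 k4 1 (.s k9 k6 2 (.s k5 k13 1 (.d k10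
  k11 k15 0 2))))), (.s k1 k2 0 (.s k21 k42 6 (.s k41 k61 5 (.s k22 k60 6 (.d k23 k20 k43 0 5))))),
  (.s k4 k8 1 (.s k21 k42 6 (.s k6 k9 2 (.s k23 k43 5 (.s k38 k55 4 (.d k22 k20 k54 0 3))))))] .n)
  (.c k55 (.l (.s k8 k4 1 (.s k46 k29 4 (.s k42 k21 6 (.s k38 k34 1 (.d k25 k59 k51 4 6)))))) (.c
  k59 (.l (.s k4 k8 1 (.s k29 k46 4 (.s k21 k42 6 (.s k25 k17 1 (.d k38 k55 k51 4 6))))))
  .n))))))))))))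

def t214 : T TT 256 :=
  (.q k12 [(.s k8 k4 1 (.s k46 k29 4 (.s k42 k21 6 (.s k38 k34 1 (.d k25 k59 k51 4 6)))))] (.c k4
  (.q k60 [(.s k20 k40 5 (.s k21 k42 6 (.s k22 k23 0 (.s k41 k3 6 (.d k61 k62 k1 0 5))))), (.s k28
  k44 3 (.s k29 k46 4 (.s k30 k31 0 (.s k45 k15 4 (.d k61 k62 k13 0 3))))), (.s k20 k40 5 (.s k21
  k42 6 (.s k28 k44 3 (.s k29 k46 4 (.s k16 k24 1 (.d k31 k30 k26 0 2))))))] .n) (.c k8 (.q k60 [(.s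
  k40 k20 5 (.s k62 k61 0 (.s k42 k21 6 (.s k22 k2 5 (.d k41 k43 k3 0 6))))), (.s k28 k44 3 (.s k29
  k46 4 (.s k30 k31 0 (.s k45 k15 4 (.d k61 k62 k13 0 3))))), (.s k20 k40 5 (.s k21 k42 6 (.s k28
  k44 3 (.s k29 k46 4 (.s k25 k17 1 (.d k22 k23 k19 0 2))))))] .n) (.c k17 (.l (.s k8 k4 1 (.s k42
  k21 6 (.s k25 k59 4 (.s k38 k51 6 (.d k46 k29 k34 4 1)))))) (.c k21 (.q k60 [(.s k4 k8 1 (.s k20
  k40 5 (.s k36 k52 3 (.s k24 k48 5 (.d k28 k16 k44 1 3))))), (.s k28 k44 3 (.s k29 k46 4 (.s k30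
  k31 0 (.s k45 k15 4 (.d k61 k62 k13 0 3)))))] (.c k16 (.l (.s k8 k4 1 (.s k40 k20 5 (.s k24 k56 3
  (.s k36 k48 5 (.d k44 k28 k32 3 1)))))) (.c k28 (.q k170 [(.s k4 k8 1 (.s k85 k255 14 (.s k166
  k247 12 (.s k162 k174 1 (.d k243 k81 k89 12 14))))), (.s k20 k40 5 (.s k85 k255 14 (.s k150 k215 8
  (.s k195 k105 14 (.d k130 k190 k65 5 8))))), (.s k8 k4 1 (.s k40 k20 5 (.s k89 k251 12 (.s k105
  k235 8 (.s k73 k121 3 (.d k195 k134 k150 10 14))))))] .n) (.c k44 (.q k170 [(.s k4 k8 1 (.s k85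
  k255 14 (.s k166 k247 12 (.s k243 k89 14 (.d k162 k174 k81 1 12))))), (.s k20 k40 5 (.s k85 k255
  14 (.s k150 k215 8 (.s k130 k190 5 (.d k195 k65 k105 8 14))))), (.s k8 k4 1 (.s k40 k20 5 (.s k89
  k251 12 (.s k105 k235 8 (.s k73 k121 3 (.d k195 k134 k150 10 14))))))] .n) .n)))) (.c k25 (.q k60
  [(.s k8 k4 1 (.s k40 k20 5 (.s k24 k56 3 (.s k36 k48 5 (.d k44 k32 k28 1 3))))), (.s k40 k20 5 (.s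
  k42 k21 6 (.s k41 k43 0 (.s k22 k3 6 (.d k62 k61 k2 0 5))))), (.s k28 k44 3 (.s k29 k46 4 (.s k30
  k31 0 (.s k45 k15 4 (.d k61 k62 k13 0 3)))))] .n) (.c k29 (.q k60 [(.s k4 k8 1 (.s k20 k40 5 (.s
  k36 k52 3 (.s k24 k48 5 (.d k28 k16 k44 1 3))))), (.s k20 k40 5 (.s k21 k42 6 (.s k22 k23 0 (.s
  k41 k3 6 (.d k61 k62 k1 0 5))))), (.s k4 k8 1 (.s k21 k42 6 (.s k38 k55 4 (.s k44 k28 3 (.s k41
  k35 2 (.d k61 k62 k1 0 5))))))] .n) (.c k34 (.l (.s k4 k8 1 (.s k21 k42 6 (.s k38 k55 4 (.s k25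
  k51 6 (.d k29 k46 k17 4 1)))))) (.c k38 (.q k60 [(.s k4 k8 1 (.s k20 k40 5 (.s k36 k52 3 (.s k24
  k48 5 (.d k28 k16 k44 1 3))))), (.s k20 k40 5 (.s k21 k42 6 (.s k22 k23 0 (.s k41 k3 6 (.d k61 k62
  k1 0 5))))), (.s k28 k44 3 (.s k29 k46 4 (.s k30 k31 0 (.s k45 k15 4 (.d k61 k62 k13 0 3)))))] .n)
  (.c k42 (.q k170 [(.s k8 k4 1 (.s k85 k255 14 (.s k89 k251 12 (.s k243 k166 14 (.d k81 k93 k162 1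
  12))))), (.s k255 k85 14 (.s k29 k46 4 (.s k93 k174 12 (.s k157 k221 7 (.s k110 k204 12 (.d k127
  k76 k191 4 7)))))), (.s k4 k8 1 (.s k85 k255 14 (.s k166 k247 12 (.s k243 k89 14 (.d k162 k174 k81
  1 12)))))] (.c k85 (.q k127 [(.s k8 k4 1 (.s k89 k251 12 (.s k166 k243 14 (.s k255 k191 7 (.d k174
  k162 k93 1 12))))), (.s k255 k191 7 (.s k93 k174 12 (.s k110 k76 4 (.s k157 k204 12 (.d k29 k46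
  k221 4 7))))), (.s k8 k4 1 (.s k89 k251 12 (.s k29 k46 4 (.s k149 k209 9 (.d k191 k128 k255 6
  7)))))] (.c k191 (.l (.s k8 k4 1 (.s k89 k251 12 (.s k46 k29 4 (.s k166 k243 14 (.s k174 k162 1
  (.s k110 k238 7 (.d k93 k255 k76 12 4)))))))) (.c k255 (.q k60 [(.s k4 k8 1 (.s k20 k40 5 (.s k36
  k52 3 (.s k28 k44 3 (.d k24 k16 k48 1 5))))), (.s k28 k44 3 (.s k29 k46 4 (.s k30 k31 0 (.s k45
  k15 4 (.d k61 k62 k13 0 3))))), (.s k8 k4 1 (.s k40 k20 5 (.s k89 k251 12 (.s k105 k235 8 (.s k73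
  k121 3 (.d k195 k150 k134 14 10))))))] .n) .n))) (.c k166 (.l (.s k255 k85 14 (.s k46 k29 4 (.s
  k174 k93 12 (.s k110 k238 7 (.s k157 k204 12 (.d k191 k127 k140 7 4))))))) (.c k255 (.q k60 [(.s
  k8 k4 1 (.s k40 k20 5 (.s k24 k56 3 (.s k36 k48 5 (.d k44 k32 k28 1 3))))), (.s k28 k44 3 (.s k29
  k46 4 (.s k30 k31 0 (.s k45 k15 4 (.d k61 k62 k13 0 3))))), (.s k8 k4 1 (.s k40 k20 5 (.s k89 k251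
  12 (.s k243 k166 14 (.s k105 k235 8 (.d k121 k73 k182 3 10))))))] .n) .n)))) (.c k46 (.q k60 [(.s
  k4 k8 1 (.s k20 k40 5 (.s k36 k52 3 (.s k24 k48 5 (.d k28 k16 k44 1 3))))), (.s k20 k40 5 (.s k21
  k42 6 (.s k22 k23 0 (.s k41 k3 6 (.d k61 k62 k1 0 5))))), (.s k4 k8 1 (.s k21 k42 6 (.s k38 k55 4
  (.s k44 k28 3 (.s k41 k35 2 (.d k61 k62 k1 0 5))))))] (.c k166 (.q k226 [(.s k4 k8 1 (.s k20 k40 5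
  (.s k36 k52 3 (.s k24 k48 5 (.d k28 k16 k44 1 3))))), (.s k20 k40 5 (.s k21 k42 6 (.s k22 k23 0
  (.s k41 k3 6 (.d k61 k62 k1 0 5))))), (.s k4 k8 1 (.s k21 k42 6 (.s k38 k55 4 (.s k44 k28 3 (.s
  k41 k35 2 (.d k61 k62 k1 0 5))))))] .n) (.c k226 (.q k166 [(.s k4 k8 1 (.s k20 k40 5 (.s k36 k52 3
  (.s k24 k48 5 (.d k28 k16 k44 1 3))))), (.s k20 k40 5 (.s k21 k42 6 (.s k22 k23 0 (.s k41 k3 6 (.d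
  k61 k62 k1 0 5))))), (.s k4 k8 1 (.s k85 k247 12 (.s k170 k255 14 (.s k243 k89 14 (.d k162 k174
  k81 1 12)))))] .n) .n))) (.c k51 (.q k60 [(.s k4 k8 1 (.s k20 k40 5 (.s k36 k52 3 (.s k28 k44 3
  (.d k24 k16 k48 1 5))))), (.s k20 k40 5 (.s k21 k42 6 (.s k22 k23 0 (.s k41 k3 6 (.d k61 k62 k1 0
  5))))), (.s k28 k44 3 (.s k29 k46 4 (.s k30 k31 0 (.s k45 k15 4 (.d k61 k62 k13 0 3)))))] .n) (.c
  k55 (.l (.s k8 k4 1 (.s k46 k29 4 (.s k42 k21 6 (.s k38 k34 1 (.d k25 k59 k51 4 6)))))) (.c k59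
  (.l (.s k4 k8 1 (.s k29 k46 4 (.s k21 k42 6 (.s k25 k17 1 (.d k38 k55 k51 4 6))))))
  .n))))))))))))))

def t215 : T TT 256 :=
  (.q k12 [(.s k8 k4 1 (.s k46 k29 4 (.s k42 k21 6 (.s k38 k34 1 (.d k25 k59 k51 4 6)))))] (.c k4
  (.q k60 [(.s k28 k44 3 (.s k29 k46 4 (.s k30 k31 0 (.s k45 k15 4 (.d k61 k62 k13 0 3))))), (.s k20
  k40 5 (.s k21 k42 6 (.s k22 k23 0 (.s k41 k3 6 (.d k61 k62 k1 0 5))))), (.s k20 k40 5 (.s k21 k42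
  6 (.s k28 k44 3 (.s k29 k46 4 (.s k16 k24 1 (.d k31 k30 k26 0 2))))))] .n) (.c k8 (.q k60 [(.s k28
  k44 3 (.s k29 k46 4 (.s k30 k31 0 (.s k45 k15 4 (.d k61 k62 k13 0 3))))), (.s k20 k40 5 (.s k21
  k42 6 (.s k22 k23 0 (.s k41 k3 6 (.d k61 k62 k1 0 5))))), (.s k20 k40 5 (.s k21 k42 6 (.s k28 k44
  3 (.s k29 k46 4 (.s k25 k17 1 (.d k22 k23 k19 0 2))))))] .n) (.c k17 (.l (.s k8 k4 1 (.s k42 k21 6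
  (.s k25 k59 4 (.s k38 k51 6 (.d k46 k29 k34 4 1)))))) (.c k21 (.q k60 [(.s k4 k8 1 (.s k20 k40 5
  (.s k36 k52 3 (.s k24 k48 5 (.d k28 k16 k44 1 3))))), (.s k28 k44 3 (.s k29 k46 4 (.s k30 k31 0
  (.s k45 k15 4 (.d k61 k62 k13 0 3)))))] (.c k16 (.l (.s k8 k4 1 (.s k40 k20 5 (.s k24 k56 3 (.s
  k36 k48 5 (.d k44 k28 k32 3 1)))))) (.c k28 (.q k170 [(.s k4 k8 1 (.s k85 k255 14 (.s k166 k247 12
  (.s k162 k174 1 (.d k243 k81 k89 12 14))))), (.s k40 k20 5 (.s k105 k235 8 (.s k255 k85 14 (.s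
  k150 k195 14 (.d k190 k130 k125 5 8))))), (.s k8 k4 1 (.s k89 k251 12 (.s k29 k46 4 (.s k149 k209
  9 (.s k61 k62 0 (.s k105 k193 13 (.d k40 k20 k235 5 8)))))))] (.c k235 (.l (.s k8 k4 1 (.s k255
  k85 14 (.s k89 k251 12 (.s k166 k243 14 (.d k174 k162 k93 1 12)))))) .n)) (.c k44 (.q k170 [(.s
  k40 k20 5 (.s k85 k255 14 (.s k105 k235 8 (.s k195 k150 14 (.d k65 k125 k130 5 8))))), (.s k4 k8 1
  (.s k85 k255 14 (.s k166 k247 12 (.s k243 k89 14 (.d k162 k174 k81 1 12))))), (.s k8 k4 1 (.s k89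
  k251 12 (.s k29 k46 4 (.s k149 k209 9 (.s k61 k62 0 (.s k105 k193 13 (.d k40 k20 k235 5 8)))))))]
  (.c k235 (.l (.s k8 k4 1 (.s k255 k85 14 (.s k89 k251 12 (.s k166 k243 14 (.d k174 k162 k93 1
  12)))))) .n)) .n)))) (.c k25 (.q k60 [(.s k4 k8 1 (.s k20 k40 5 (.s k36 k52 3 (.s k24 k48 5 (.d
  k28 k16 k44 1 3))))), (.s k28 k44 3 (.s k29 k46 4 (.s k30 k31 0 (.s k45 k15 4 (.d k61 k62 k13 0
  3))))), (.s k20 k40 5 (.s k21 k42 6 (.s k22 k23 0 (.s k41 k3 6 (.d k61 k62 k1 0 5)))))] .n) (.c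
  k29 (.q k60 [(.s k4 k8 1 (.s k20 k40 5 (.s k36 k52 3 (.s k24 k48 5 (.d k28 k16 k44 1 3))))), (.s
  k20 k40 5 (.s k21 k42 6 (.s k22 k23 0 (.s k41 k3 6 (.d k61 k62 k1 0 5))))), (.s k4 k8 1 (.s k21
  k42 6 (.s k38 k55 4 (.s k44 k28 3 (.s k41 k35 2 (.d k61 k62 k1 0 5))))))] .n) (.c k34 (.l (.s k4
  k8 1 (.s k21 k42 6 (.s k38 k55 4 (.s k25 k51 6 (.d k29 k46 k17 4 1)))))) (.c k38 (.q k60 [(.s k4
  k8 1 (.s k20 k40 5 (.s k36 k52 3 (.s k24 k48 5 (.d k28 k16 k44 1 3))))), (.s k20 k40 5 (.s k21 k42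
  6 (.s k22 k23 0 (.s k41 k3 6 (.d k61 k62 k1 0 5))))), (.s k28 k44 3 (.s k29 k46 4 (.s k30 k31 0
  (.s k45 k15 4 (.d k61 k62 k13 0 3)))))] .n) (.c k42 (.q k170 [(.s k8 k4 1 (.s k85 k255 14 (.s k89
  k251 12 (.s k243 k166 14 (.d k81 k93 k162 1 12))))), (.s k255 k85 14 (.s k29 k46 4 (.s k93 k174 12
  (.s k157 k221 7 (.s k110 k204 12 (.d k127 k76 k191 4 7)))))), (.s k4 k8 1 (.s k85 k255 14 (.s k166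
  k247 12 (.s k243 k89 14 (.d k162 k174 k81 1 12)))))] (.c k85 (.q k60 [(.s k4 k8 1 (.s k20 k40 5
  (.s k36 k52 3 (.s k24 k48 5 (.d k28 k16 k44 1 3))))), (.s k28 k44 3 (.s k29 k46 4 (.s k30 k31 0
  (.s k45 k15 4 (.d k61 k62 k13 0 3))))), (.s k8 k4 1 (.s k89 k251 12 (.s k29 k46 4 (.s k149 k209 9
  (.s k61 k62 0 (.s k105 k193 13 (.d k40 k20 k235 5 8)))))))] (.c k20 (.q k150 [(.s k130 k190 5 (.d
  k195 k65 k105 8 14)), (.s k8 k4 1 (.s k89 k251 12 (.d k28 k44 k211 3 10)))] (.c k64 (.q k127 [(.s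
  k255 k191 7 (.d k190 k130 k125 5 8)), (.s k8 k4 1 (.s k89 k251 12 (.d k28 k44 k211 3 10)))] .n)
  (.c k127 (.q k64 [(.s k130 k190 5 (.d k195 k65 k105 8 14)), (.s k8 k4 1 (.s k89 k251 12 (.d k28
  k44 k211 3 10)))] .n) .n))) (.c k64 (.q k127 [(.s k4 k8 1 (.s k20 k40 5 (.s k36 k52 3 (.s k24 k48
  5 (.d k28 k16 k44 1 3))))), (.s k28 k44 3 (.s k29 k46 4 (.s k30 k31 0 (.s k45 k15 4 (.d k61 k62
  k13 0 3))))), (.s k8 k4 1 (.s k89 k251 12 (.s k29 k46 4 (.s k149 k209 9 (.d k191 k128 k255 6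
  7)))))] (.c k20 (.q k150 [(.s k255 k191 7 (.d k190 k130 k125 5 8)), (.s k8 k4 1 (.s k89 k251 12
  (.d k28 k44 k211 3 10)))] .n) (.c k150 (.l (.s k20 k40 5 (.s k4 k8 1 (.s k36 k52 3 (.s k24 k48 5
  (.d k28 k16 k44 1 3)))))) .n))) (.c k127 (.q k64 [(.s k128 k192 7 (.s k61 k62 0 (.s k149 k191 6
  (.s k105 k193 13 (.d k40 k20 k235 5 8))))), (.s k4 k8 1 (.s k20 k40 5 (.s k36 k52 3 (.s k24 k48 5
  (.d k28 k16 k44 1 3)))))] (.c k20 (.q k150 [(.s k130 k190 5 (.d k195 k65 k105 8 14)), (.s k8 k4 1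
  (.s k89 k251 12 (.d k28 k44 k211 3 10)))] .n) (.c k40 (.l (.s k8 k4 1 (.s k128 k192 7 (.s k89 k251
  12 (.s k29 k46 4 (.d k149 k191 k209 6 9)))))) (.c k150 (.l (.s k20 k40 5 (.s k4 k8 1 (.s k36 k52 3
  (.s k24 k48 5 (.d k28 k16 k44 1 3)))))) .n)))) (.c k150 (.l (.s k20 k40 5 (.s k4 k8 1 (.s k36 k52
  3 (.s k24 k48 5 (.d k28 k16 k44 1 3)))))) .n))))) (.c k166 (.l (.s k255 k85 14 (.s k46 k29 4 (.s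
  k174 k93 12 (.s k110 k238 7 (.s k157 k204 12 (.d k191 k127 k140 7 4))))))) (.c k255 (.q k195 [(.s
  k8 k4 1 (.s k65 k130 8 (.s k73 k134 10 (.s k138 k203 8 (.d k69 k77 k207 1 10))))), (.s k8 k4 1 (.s
  k130 k65 8 (.s k89 k251 12 (.s k243 k166 14 (.s k150 k190 5 (.d k211 k227 k28 3 10)))))), (.s k130
  k65 8 (.s k134 k73 10 (.s k150 k190 5 (.s k166 k182 3 (.s k243 k89 14 (.d k162 k174 k81 1
  12)))))), (.s k8 k4 1 (.s k89 k251 12 (.s k73 k134 10 (.s k105 k121 3 (.s k40 k235 8 (.d k60 k20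
  k150 5 14))))))] .n) .n)))) (.c k46 (.q k60 [(.s k4 k8 1 (.s k20 k40 5 (.s k36 k52 3 (.s k24 k48 5
  (.d k28 k16 k44 1 3))))), (.s k20 k40 5 (.s k21 k42 6 (.s k22 k23 0 (.s k41 k3 6 (.d k61 k62 k1 0
  5))))), (.s k4 k8 1 (.s k21 k42 6 (.s k38 k55 4 (.s k44 k28 3 (.s k41 k35 2 (.d k61 k62 k1 0
  5))))))] (.c k166 (.q k226 [(.s k4 k8 1 (.s k20 k40 5 (.s k36 k52 3 (.s k24 k48 5 (.d k28 k16 k44
  1 3))))), (.s k20 k40 5 (.s k21 k42 6 (.s k22 k23 0 (.s k41 k3 6 (.d k61 k62 k1 0 5))))), (.s k4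
  k8 1 (.s k21 k42 6 (.s k38 k55 4 (.s k44 k28 3 (.s k41 k35 2 (.d k61 k62 k1 0 5))))))] .n) (.c
  k226 (.q k166 [(.s k4 k8 1 (.s k20 k40 5 (.s k36 k52 3 (.s k24 k48 5 (.d k28 k16 k44 1 3))))), (.s
  k20 k40 5 (.s k21 k42 6 (.s k22 k23 0 (.s k41 k3 6 (.d k61 k62 k1 0 5))))), (.s k4 k8 1 (.s k85
  k247 12 (.s k170 k255 14 (.s k243 k89 14 (.d k162 k174 k81 1 12)))))] .n) .n))) (.c k51 (.q k60
  [(.s k4 k8 1 (.s k20 k40 5 (.s k36 k52 3 (.s k28 k44 3 (.d k24 k16 k48 1 5))))), (.s k20 k40 5 (.s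
  k21 k42 6 (.s k22 k23 0 (.s k41 k3 6 (.d k61 k62 k1 0 5))))), (.s k28 k44 3 (.s k29 k46 4 (.s k30
  k31 0 (.s k45 k15 4 (.d k61 k62 k13 0 3)))))] .n) (.c k55 (.l (.s k8 k4 1 (.s k46 k29 4 (.s k42
  k21 6 (.s k38 k34 1 (.d k25 k59 k51 4 6)))))) (.c k59 (.l (.s k4 k8 1 (.s k29 k46 4 (.s k21 k42 6
  (.s k25 k17 1 (.d k38 k55 k51 4 6)))))) .n))))))))))))))

def t218 : T TT 256 :=
  (.f k42 k21 6 (.q k62 [(.s k22 k2 5 (.s k60 k61 0 (.s k40 k20 5 (.d k41 k43 k3 0 6))))] (.c k1 (.l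
  (.s k22 k2 5 (.s k60 k61 0 (.s k41 k3 6 (.d k40 k43 k20 0 5))))) (.c k2 (.q k15 [(.s k47 k31 3 (.s
  k10 k5 2 (.s k37 k32 2 (.d k26 k58 k48 3 6)))), (.s k31 k47 3 (.s k60 k61 0 (.s k30 k45 4 (.s k29
  k28 0 (.d k46 k14 k12 3 4))))), (.s k10 k5 2 (.s k26 k58 3 (.s k37 k48 6 (.s k60 k61 0 (.s k40 k20
  5 (.s k45 k30 4 (.d k41 k43 k33 0 1)))))))] .n) (.c k3 (.q k15 [(.s k47 k31 3 (.s k10 k5 2 (.s k37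
  k32 2 (.d k26 k58 k48 3 6)))), (.s k31 k47 3 (.s k60 k61 0 (.s k30 k45 4 (.s k46 k14 3 (.d k29 k28
  k12 0 4))))), (.s k10 k5 2 (.s k2 k22 5 (.s k14 k6 1 (.s k12 k13 0 (.d k46 k30 k29 3 4)))))] .n)
  (.c k20 (.q k15 [(.s k47 k31 3 (.s k10 k5 2 (.s k37 k32 2 (.d k26 k58 k48 3 6)))), (.s k31 k47 3
  (.s k60 k61 0 (.s k30 k45 4 (.s k46 k14 3 (.d k29 k28 k12 0 4))))), (.s k10 k5 2 (.s k22 k2 5 (.s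
  k26 k58 3 (.s k30 k18 1 (.d k60 k61 k45 0 4)))))] (.c k22 (.q k23 [(.s k47 k31 3 (.s k10 k5 2 (.s
  k37 k32 2 (.d k26 k58 k48 3 6)))), (.s k3 k43 5 (.s k7 k11 1 (.s k39 k55 3 (.s k27 k51 5 (.d k31
  k19 k47 1 3))))), (.s k5 k10 2 (.s k3 k43 5 (.s k1 k2 0 (.s k9 k13 1 (.s k6 k12 2 (.d k7 k4 k11 0
  1))))))] .n) (.c k23 (.l (.s k22 k2 5 (.s k10 k5 2 (.s k26 k58 3 (.s k37 k48 6 (.d k47 k32 k31 2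
  3)))))) .n))) (.c k22 (.q k15 [(.s k47 k31 3 (.s k10 k5 2 (.s k37 k32 2 (.d k26 k58 k48 3 6)))),
  (.s k31 k47 3 (.s k60 k61 0 (.s k30 k45 4 (.s k46 k14 3 (.d k29 k28 k12 0 4))))), (.s k10 k5 2 (.s
  k26 k58 3 (.s k37 k48 6 (.s k60 k61 0 (.s k45 k30 4 (.s k41 k33 1 (.d k40 k20 k43 5 0)))))))] (.c
  k20 (.q k23 [(.s k47 k31 3 (.s k10 k5 2 (.s k37 k32 2 (.d k26 k58 k48 3 6)))), (.s k3 k43 5 (.s k7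
  k11 1 (.s k39 k55 3 (.s k27 k51 5 (.d k31 k19 k47 1 3))))), (.s k5 k10 2 (.s k3 k43 5 (.s k1 k2 0
  (.s k9 k13 1 (.s k6 k12 2 (.d k7 k4 k11 0 1))))))] .n) (.c k23 (.q k20 [(.d k60 k61 k40 0 5), (.s
  k10 k5 2 (.s k26 k58 3 (.s k37 k48 6 (.d k47 k32 k31 2 3))))] .n) .n))) (.c k40 (.q k15 [(.s k10
  k5 2 (.s k26 k58 3 (.s k37 k48 6 (.d k47 k32 k31 2 3)))), (.s k31 k47 3 (.s k60 k61 0 (.s k30 k45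
  4 (.s k46 k14 3 (.d k29 k28 k12 0 4))))), (.s k10 k5 2 (.s k2 k22 5 (.s k14 k6 1 (.s k12 k13 0 (.d
  k46 k30 k29 3 4)))))] .n) (.c k41 (.q k10 [(.s k15 k5 2 (.s k47 k31 3 (.s k37 k32 2 (.d k26 k58
  k48 3 6)))), (.s k2 k22 5 (.s k14 k6 1 (.s k26 k58 3 (.s k38 k50 5 (.d k46 k34 k30 1 3))))), (.s
  k15 k5 2 (.s k2 k22 5 (.s k14 k6 1 (.s k12 k13 0 (.d k46 k30 k29 3 4)))))] (.c k1 (.l (.s k61 k60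
  0 (.s k15 k5 2 (.s k26 k58 3 (.s k37 k48 6 (.d k47 k32 k31 2 3)))))) (.c k61 (.q k1 [(.d k2 k3 k22
  0 5), (.s k15 k5 2 (.s k26 k58 3 (.s k37 k48 6 (.d k47 k32 k31 2 3))))] .n) .n))) (.c k43 (.q k15
  [(.s k47 k31 3 (.s k10 k5 2 (.s k37 k32 2 (.d k26 k58 k48 3 6)))), (.s k31 k47 3 (.s k60 k61 0 (.s
  k30 k45 4 (.s k46 k14 3 (.d k29 k28 k12 0 4))))), (.s k10 k5 2 (.s k2 k22 5 (.s k14 k6 1 (.s k12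
  k13 0 (.d k46 k30 k29 3 4)))))] (.c k169 (.q k232 [(.s k47 k31 3 (.s k10 k5 2 (.s k37 k32 2 (.d
  k26 k58 k48 3 6)))), (.s k31 k47 3 (.s k60 k61 0 (.s k30 k45 4 (.s k46 k14 3 (.d k29 k28 k12 0
  4))))), (.s k10 k5 2 (.s k2 k22 5 (.s k14 k6 1 (.s k12 k13 0 (.d k46 k30 k29 3 4)))))] .n) (.c
  k232 (.q k169 [(.s k47 k31 3 (.s k10 k5 2 (.s k37 k32 2 (.d k26 k58 k48 3 6)))), (.s k31 k47 3 (.s
  k60 k61 0 (.s k30 k45 4 (.s k46 k14 3 (.d k29 k28 k12 0 4))))), (.s k10 k5 2 (.s k2 k22 5 (.s k14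
  k6 1 (.s k12 k13 0 (.d k46 k30 k29 3 4)))))] .n) .n))) (.c k60 (.q k15 [(.s k47 k31 3 (.s k10 k5 2
  (.s k37 k32 2 (.d k26 k58 k48 3 6)))), (.s k2 k22 5 (.s k3 k1 0 (.s k7 k11 1 (.s k23 k43 5 (.s k39
  k55 3 (.s k27 k51 5 (.d k31 k19 k47 1 3))))))), (.s k10 k5 2 (.s k2 k22 5 (.s k14 k6 1 (.s k12 k13
  0 (.d k46 k30 k29 3 4)))))] .n) (.c k61 (.q k10 [(.s k15 k5 2 (.s k47 k31 3 (.s k37 k32 2 (.d k26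
  k58 k48 3 6)))), (.s k2 k22 5 (.s k14 k6 1 (.s k26 k58 3 (.s k38 k50 5 (.d k46 k34 k30 1 3))))),
  (.s k15 k5 2 (.s k2 k22 5 (.s k14 k6 1 (.s k12 k13 0 (.d k46 k29 k30 4 3)))))] (.c k1 (.q k41 [(.s
  k22 k2 5 (.s k3 k60 6 (.d k43 k40 k23 0 5))), (.s k15 k5 2 (.s k26 k58 3 (.s k37 k48 6 (.d k47 k32
  k31 2 3))))] .n) (.c k41 (.q k1 [(.d k2 k3 k22 0 5), (.s k15 k5 2 (.s k26 k58 3 (.s k37 k48 6 (.d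
  k47 k32 k31 2 3))))] .n) .n))) .n))))))))))))

def t219 : T TT 256 :=
  (.f k42 k21 6 (.q k62 [(.s k22 k2 5 (.s k60 k61 0 (.s k40 k20 5 (.d k41 k43 k3 0 6))))] (.c k1 (.l
  (.s k22 k2 5 (.s k60 k61 0 (.s k41 k3 6 (.d k40 k43 k20 0 5))))) (.c k2 (.q k15 [(.s k47 k31 3 (.s
  k10 k5 2 (.s k37 k32 2 (.d k26 k58 k48 3 6)))), (.s k31 k47 3 (.s k60 k61 0 (.s k30 k45 4 (.s k29
  k28 0 (.d k46 k14 k12 3 4))))), (.s k10 k5 2 (.s k26 k58 3 (.s k37 k48 6 (.s k60 k61 0 (.s k40 k20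
  5 (.s k45 k30 4 (.d k41 k43 k33 0 1)))))))] .n) (.c k3 (.q k15 [(.s k47 k31 3 (.s k10 k5 2 (.s k37
  k32 2 (.d k26 k58 k48 3 6)))), (.s k31 k47 3 (.s k60 k61 0 (.s k30 k45 4 (.s k46 k14 3 (.d k29 k28
  k12 0 4))))), (.s k10 k5 2 (.s k2 k22 5 (.s k14 k6 1 (.s k12 k13 0 (.d k46 k30 k29 3 4)))))] .n)
  (.c k20 (.q k15 [(.s k47 k31 3 (.s k10 k5 2 (.s k37 k32 2 (.d k26 k58 k48 3 6)))), (.s k31 k47 3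
  (.s k60 k61 0 (.s k30 k45 4 (.s k46 k14 3 (.d k29 k28 k12 0 4))))), (.s k10 k5 2 (.s k22 k2 5 (.s
  k26 k58 3 (.s k30 k18 1 (.d k60 k61 k45 0 4)))))] (.c k22 (.q k23 [(.s k47 k31 3 (.s k10 k5 2 (.s
  k37 k32 2 (.d k26 k58 k48 3 6)))), (.s k3 k43 5 (.s k7 k11 1 (.s k39 k55 3 (.s k27 k51 5 (.d k31
  k19 k47 1 3))))), (.s k5 k10 2 (.s k3 k43 5 (.s k1 k2 0 (.s k9 k13 1 (.s k6 k12 2 (.d k7 k4 k11 0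
  1))))))] .n) (.c k23 (.l (.s k22 k2 5 (.s k10 k5 2 (.s k26 k58 3 (.s k37 k48 6 (.d k47 k32 k31 2
  3)))))) .n))) (.c k22 (.q k15 [(.s k47 k31 3 (.s k10 k5 2 (.s k37 k32 2 (.d k26 k58 k48 3 6)))),
  (.s k31 k47 3 (.s k60 k61 0 (.s k30 k45 4 (.s k46 k14 3 (.d k29 k28 k12 0 4))))), (.s k10 k5 2 (.s
  k26 k58 3 (.s k37 k48 6 (.s k60 k61 0 (.s k45 k30 4 (.s k41 k33 1 (.d k40 k20 k43 5 0)))))))] (.c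
  k20 (.q k23 [(.s k47 k31 3 (.s k10 k5 2 (.s k37 k32 2 (.d k26 k58 k48 3 6)))), (.s k3 k43 5 (.s k7
  k11 1 (.s k39 k55 3 (.s k27 k51 5 (.d k31 k19 k47 1 3))))), (.s k5 k10 2 (.s k3 k43 5 (.s k1 k2 0
  (.s k9 k13 1 (.s k6 k12 2 (.d k7 k4 k11 0 1))))))] .n) (.c k23 (.q k20 [(.d k60 k61 k40 0 5), (.s
  k10 k5 2 (.s k26 k58 3 (.s k37 k48 6 (.d k47 k32 k31 2 3))))] .n) .n))) (.c k40 (.q k15 [(.s k10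
  k5 2 (.s k26 k58 3 (.s k37 k48 6 (.d k47 k32 k31 2 3)))), (.s k31 k47 3 (.s k60 k61 0 (.s k30 k45
  4 (.s k46 k14 3 (.d k29 k28 k12 0 4))))), (.s k10 k5 2 (.s k2 k22 5 (.s k14 k6 1 (.s k12 k13 0 (.d
  k46 k30 k29 3 4)))))] .n) (.c k41 (.q k10 [(.s k15 k5 2 (.s k47 k31 3 (.s k37 k32 2 (.d k26 k58
  k48 3 6)))), (.s k2 k22 5 (.s k14 k6 1 (.s k26 k58 3 (.s k38 k50 5 (.d k46 k34 k30 1 3))))), (.s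
  k15 k5 2 (.s k2 k22 5 (.s k14 k6 1 (.s k12 k13 0 (.d k46 k30 k29 3 4)))))] (.c k1 (.l (.s k61 k60
  0 (.s k15 k5 2 (.s k26 k58 3 (.s k37 k48 6 (.d k47 k32 k31 2 3)))))) (.c k61 (.q k1 [(.d k2 k3 k22
  0 5), (.s k15 k5 2 (.s k26 k58 3 (.s k37 k48 6 (.d k47 k32 k31 2 3))))] .n) .n))) (.c k43 (.q k15
  [(.s k47 k31 3 (.s k10 k5 2 (.s k37 k32 2 (.d k26 k58 k48 3 6)))), (.s k31 k47 3 (.s k60 k61 0 (.s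
  k30 k45 4 (.s k46 k14 3 (.d k29 k28 k12 0 4))))), (.s k10 k5 2 (.s k2 k22 5 (.s k14 k6 1 (.s k12
  k13 0 (.d k46 k30 k29 3 4)))))] (.c k169 (.q k232 [(.s k47 k31 3 (.s k10 k5 2 (.s k37 k32 2 (.d
  k26 k58 k48 3 6)))), (.s k31 k47 3 (.s k60 k61 0 (.s k30 k45 4 (.s k46 k14 3 (.d k29 k28 k12 0
  4))))), (.s k10 k5 2 (.s k2 k22 5 (.s k14 k6 1 (.s k12 k13 0 (.d k46 k30 k29 3 4)))))] .n) (.c
  k232 (.q k169 [(.s k47 k31 3 (.s k10 k5 2 (.s k37 k32 2 (.d k26 k58 k48 3 6)))), (.s k31 k47 3 (.s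
  k60 k61 0 (.s k30 k45 4 (.s k46 k14 3 (.d k29 k28 k12 0 4))))), (.s k10 k5 2 (.s k2 k22 5 (.s k14
  k6 1 (.s k12 k13 0 (.d k46 k30 k29 3 4)))))] .n) .n))) (.c k60 (.q k15 [(.s k47 k31 3 (.s k10 k5 2
  (.s k37 k32 2 (.d k26 k58 k48 3 6)))), (.s k2 k22 5 (.s k3 k1 0 (.s k7 k11 1 (.s k23 k43 5 (.s k39
  k55 3 (.s k27 k51 5 (.d k31 k19 k47 1 3))))))), (.s k10 k5 2 (.s k2 k22 5 (.s k14 k6 1 (.s k12 k13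
  0 (.d k46 k30 k29 3 4)))))] .n) (.c k61 (.q k10 [(.s k15 k5 2 (.s k47 k31 3 (.s k37 k32 2 (.d k26
  k58 k48 3 6)))), (.s k2 k22 5 (.s k14 k6 1 (.s k26 k58 3 (.s k38 k50 5 (.d k46 k34 k30 1 3))))),
  (.s k15 k5 2 (.s k2 k22 5 (.s k14 k6 1 (.s k12 k13 0 (.d k46 k29 k30 4 3)))))] (.c k1 (.q k41 [(.s
  k22 k2 5 (.s k3 k60 6 (.d k43 k40 k23 0 5))), (.s k15 k5 2 (.s k26 k58 3 (.s k37 k48 6 (.d k47 k32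
  k31 2 3))))] .n) (.c k41 (.q k1 [(.d k2 k3 k22 0 5), (.s k15 k5 2 (.s k26 k58 3 (.s k37 k48 6 (.d
  k47 k32 k31 2 3))))] .n) .n))) .n))))))))))))

def t223 : T TT 256 :=
  (.q k12 [(.s k8 k4 1 (.s k46 k29 4 (.s k42 k21 6 (.s k38 k34 1 (.d k25 k59 k51 4 6)))))] (.c k4
  (.q k62 [(.s k42 k21 6 (.s k22 k2 5 (.s k60 k61 0 (.s k41 k3 6 (.d k40 k43 k20 0 5))))), (.s k46
  k29 4 (.s k30 k14 3 (.s k60 k61 0 (.s k44 k28 3 (.d k45 k47 k15 0 4))))), (.s k42 k21 6 (.s k2 k22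
  5 (.s k46 k29 4 (.s k14 k30 3 (.s k6 k10 1 (.d k3 k1 k9 0 2))))))] .n) (.c k8 (.q k62 [(.s k42 k21
  6 (.s k22 k2 5 (.s k60 k61 0 (.s k40 k20 5 (.d k41 k43 k3 0 6))))), (.s k46 k29 4 (.s k30 k14 3
  (.s k60 k61 0 (.s k44 k28 3 (.d k45 k47 k15 0 4))))), (.s k42 k21 6 (.s k2 k22 5 (.s k46 k29 4 (.s
  k14 k30 3 (.s k6 k10 1 (.d k3 k9 k1 2 0))))))] .n) (.c k17 (.l (.s k8 k4 1 (.s k42 k21 6 (.s k25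
  k59 4 (.s k38 k51 6 (.d k46 k29 k34 4 1)))))) (.c k21 (.q k170 [(.s k4 k8 1 (.s k85 k255 14 (.s
  k166 k247 12 (.s k162 k174 1 (.d k243 k81 k89 12 14))))), (.s k255 k85 14 (.s k29 k46 4 (.s k93
  k174 12 (.s k157 k221 7 (.s k110 k204 12 (.d k127 k76 k191 4 7))))))] (.c k85 (.f k8 k4 1 (.l (.s
  k89 k251 12 (.s k29 k46 4 (.s k166 k243 14 (.s k149 k209 9 (.s k128 k191 6 (.s k132 k183 4 (.d
  k192 k64 k72 7 9))))))))) (.c k166 (.l (.s k255 k85 14 (.s k46 k29 4 (.s k174 k93 12 (.s k110 k238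
  7 (.s k157 k204 12 (.d k191 k127 k140 7 4))))))) (.c k174 (.l (.s k8 k4 1 (.s k85 k255 14 (.s k89
  k251 12 (.s k243 k166 14 (.d k81 k93 k162 1 12)))))) (.c k255 (.f k8 k4 1 (.l (.s k89 k251 12 (.s
  k29 k46 4 (.s k149 k209 9 (.s k128 k191 6 (.s k192 k64 7 (.s k132 k72 9 (.d k166 k243 k183 14
  4))))))))) .n))))) (.c k25 (.q k3 [(.s k1 k2 0 (.s k8 k4 1 (.s k9 k6 2 (.s k10 k11 0 (.d k5 k13
  k15 1 2))))), (.s k2 k1 0 (.s k42 k21 6 (.s k22 k62 5 (.s k41 k60 6 (.d k43 k40 k23 0 5))))), (.s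
  k21 k42 6 (.s k6 k9 2 (.s k23 k43 5 (.s k22 k20 0 (.s k38 k54 3 (.d k4 k8 k55 1 4))))))] .n) (.c
  k29 (.q k3 [(.s k1 k2 0 (.s k8 k4 1 (.s k9 k6 2 (.s k10 k11 0 (.d k5 k13 k15 1 2))))), (.s k1 k2 0
  (.s k21 k42 6 (.s k23 k43 5 (.s k22 k20 0 (.d k41 k61 k60 5 6))))), (.s k4 k8 1 (.s k21 k42 6 (.s
  k6 k9 2 (.s k23 k43 5 (.s k38 k55 4 (.d k22 k20 k54 0 3))))))] .n) (.c k34 (.l (.s k4 k8 1 (.s k21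
  k42 6 (.s k38 k55 4 (.s k25 k51 6 (.d k29 k46 k17 4 1)))))) (.c k38 (.q k3 [(.s k1 k2 0 (.s k9 k6
  2 (.s k5 k13 1 (.s k10 k15 2 (.d k8 k11 k4 0 1))))), (.s k1 k2 0 (.s k21 k42 6 (.s k41 k61 5 (.s
  k22 k60 6 (.d k23 k20 k43 0 5))))), (.s k42 k21 6 (.s k9 k6 2 (.s k43 k23 5 (.s k41 k40 0 (.s k25
  k57 3 (.d k8 k4 k59 1 4))))))] (.c k22 (.l (.s k2 k1 0 (.s k4 k8 1 (.s k6 k9 2 (.s k10 k14 1 (.d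
  k5 k7 k15 0 2)))))) .n)) (.c k42 (.q k170 [(.s k8 k4 1 (.s k85 k255 14 (.s k89 k251 12 (.s k243
  k166 14 (.d k81 k93 k162 1 12))))), (.s k255 k85 14 (.s k29 k46 4 (.s k93 k174 12 (.s k157 k221 7
  (.s k110 k204 12 (.d k127 k76 k191 4 7)))))), (.s k4 k8 1 (.s k85 k255 14 (.s k166 k247 12 (.s
  k243 k89 14 (.d k162 k174 k81 1 12)))))] (.c k85 (.f k8 k4 1 (.l (.s k89 k251 12 (.s k29 k46 4 (.s
  k166 k243 14 (.s k149 k209 9 (.s k128 k191 6 (.s k132 k183 4 (.d k192 k64 k72 7 9))))))))) (.c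
  k166 (.l (.s k255 k85 14 (.s k46 k29 4 (.s k174 k93 12 (.s k110 k238 7 (.s k157 k204 12 (.d k191
  k127 k140 7 4))))))) (.c k255 (.f k8 k4 1 (.l (.s k89 k251 12 (.s k29 k46 4 (.s k149 k209 9 (.s
  k128 k191 6 (.s k192 k64 7 (.s k132 k72 9 (.d k166 k243 k183 14 4))))))))) .n)))) (.c k46 (.f k42
  k21 6 (.q k3 [(.s k2 k1 0 (.s k43 k23 5 (.s k41 k40 0 (.d k22 k62 k60 5 6)))), (.s k1 k2 0 (.s k8
  k4 1 (.s k9 k6 2 (.s k5 k13 1 (.d k10 k11 k15 0 2))))), (.s k8 k4 1 (.s k9 k6 2 (.s k43 k23 5 (.s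
  k25 k59 4 (.d k41 k40 k57 0 3)))))] (.c k166 (.q k226 [(.s k2 k1 0 (.s k43 k23 5 (.s k41 k40 0 (.d
  k22 k62 k60 5 6)))), (.s k1 k2 0 (.s k8 k4 1 (.s k9 k6 2 (.s k5 k13 1 (.d k10 k11 k15 0 2))))),
  (.s k8 k4 1 (.s k9 k6 2 (.s k43 k23 5 (.s k25 k59 4 (.d k41 k40 k57 0 3)))))] .n) (.c k226 (.q
  k166 [(.s k2 k1 0 (.s k43 k23 5 (.s k41 k40 0 (.d k22 k62 k60 5 6)))), (.s k4 k8 1 (.s k85 k247 12
  (.s k170 k255 14 (.s k243 k89 14 (.d k162 k174 k81 1 12)))))] .n) .n)))) (.c k51 (.q k3 [(.s k1 k2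
  0 (.s k8 k4 1 (.s k9 k6 2 (.s k5 k13 1 (.d k10 k11 k15 0 2))))), (.s k1 k2 0 (.s k21 k42 6 (.s k41
  k61 5 (.s k22 k60 6 (.d k23 k20 k43 0 5))))), (.s k4 k8 1 (.s k21 k42 6 (.s k6 k9 2 (.s k23 k43 5
  (.s k38 k55 4 (.d k22 k20 k54 0 3))))))] .n) (.c k55 (.l (.s k8 k4 1 (.s k46 k29 4 (.s k42 k21 6
  (.s k38 k34 1 (.d k25 k59 k51 4 6)))))) (.c k59 (.l (.s k4 k8 1 (.s k29 k46 4 (.s k21 k42 6 (.s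
  k25 k17 1 (.d k38 k55 k51 4 6)))))) .n))))))))))))))

def t234 : T TT 256 :=
  (.f k42 k21 6 (.q k62 [(.s k22 k2 5 (.s k60 k61 0 (.s k40 k20 5 (.d k41 k43 k3 0 6))))] (.c k1 (.l
  (.s k22 k2 5 (.s k60 k61 0 (.s k41 k3 6 (.d k40 k43 k20 0 5))))) (.c k2 (.q k10 [(.s k15 k5 2 (.s
  k47 k31 3 (.s k37 k32 2 (.d k26 k58 k48 3 6)))), (.s k15 k5 2 (.s k31 k47 3 (.s k60 k61 0 (.s k30
  k45 4 (.s k46 k14 3 (.d k29 k28 k12 0 4)))))), (.s k58 k26 3 (.s k54 k50 1 (.s k60 k61 0 (.s k51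
  k57 2 (.s k55 k59 1 (.d k53 k52 k48 0 2))))))] (.c k31 (.l (.s k15 k5 2 (.s k26 k58 3 (.s k37 k48
  6 (.s k60 k61 0 (.s k40 k20 5 (.s k45 k30 4 (.d k41 k43 k33 0 1)))))))) (.c k53 (.l (.s k26 k58 3
  (.s k15 k5 2 (.s k37 k48 6 (.d k47 k32 k31 2 3))))) .n))) (.c k3 (.q k10 [(.s k15 k5 2 (.s k47 k31
  3 (.s k37 k32 2 (.d k26 k58 k48 3 6)))), (.s k2 k22 5 (.s k14 k6 1 (.s k26 k58 3 (.s k38 k50 5 (.d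
  k46 k34 k30 1 3))))), (.s k15 k5 2 (.s k2 k22 5 (.s k14 k6 1 (.s k12 k13 0 (.d k46 k30 k29 3
  4)))))] .n) (.c k20 (.q k10 [(.s k15 k5 2 (.s k47 k31 3 (.s k37 k32 2 (.d k26 k58 k48 3 6)))), (.s
  k22 k2 5 (.s k26 k58 3 (.s k30 k18 1 (.s k60 k61 0 (.d k15 k5 k45 2 4))))), (.s k15 k5 2 (.s k60
  k61 0 (.s k30 k45 4 (.s k14 k46 3 (.d k2 k22 k6 5 1)))))] (.c k5 (.l (.s k58 k26 3 (.s k53 k48 2
  (.s k54 k50 1 (.s k55 k52 0 (.s k51 k59 1 (.d k60 k61 k57 0 2))))))) (.c k15 (.l (.s k58 k26 3 (.s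
  k48 k53 2 (.s k50 k54 1 (.s k51 k49 0 (.s k34 k17 4 (.d k2 k18 k22 3 5))))))) (.c k22 (.q k23 [(.s
  k15 k5 2 (.s k47 k31 3 (.s k37 k32 2 (.d k26 k58 k48 3 6)))), (.s k3 k43 5 (.s k2 k1 0 (.s k14 k6
  1 (.s k26 k58 3 (.s k38 k50 5 (.d k46 k34 k30 1 3)))))), (.s k5 k15 2 (.s k3 k43 5 (.s k1 k2 0 (.s
  k9 k13 1 (.s k12 k6 2 (.d k8 k11 k4 0 1))))))] .n) (.c k23 (.l (.s k22 k2 5 (.s k15 k5 2 (.s k26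
  k58 3 (.s k37 k48 6 (.d k47 k32 k31 2 3)))))) .n))))) (.c k22 (.q k10 [(.s k15 k5 2 (.s k47 k31 3
  (.s k37 k32 2 (.d k26 k58 k48 3 6)))), (.s k15 k5 2 (.s k31 k47 3 (.s k60 k61 0 (.s k30 k45 4 (.s
  k46 k14 3 (.d k29 k28 k12 0 4)))))), (.s k58 k26 3 (.s k54 k50 1 (.s k60 k61 0 (.s k51 k57 2 (.s
  k55 k59 1 (.d k53 k52 k48 0 2))))))] (.c k20 (.q k23 [(.s k15 k5 2 (.s k47 k31 3 (.s k37 k32 2 (.d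
  k26 k58 k48 3 6)))), (.s k3 k43 5 (.s k2 k1 0 (.s k14 k6 1 (.s k26 k58 3 (.s k38 k50 5 (.d k46 k34
  k30 1 3)))))), (.s k5 k15 2 (.s k3 k43 5 (.s k1 k2 0 (.s k9 k13 1 (.s k12 k6 2 (.d k8 k11 k4 0
  1))))))] .n) (.c k23 (.q k20 [(.d k60 k61 k40 0 5), (.s k15 k5 2 (.s k26 k58 3 (.s k37 k48 6 (.d
  k47 k32 k31 2 3))))] .n) (.c k31 (.l (.s k15 k5 2 (.s k26 k58 3 (.s k37 k48 6 (.s k60 k61 0 (.s
  k45 k30 4 (.s k41 k33 1 (.d k40 k43 k20 0 5)))))))) (.c k53 (.l (.s k26 k58 3 (.s k15 k5 2 (.s k37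
  k48 6 (.d k47 k32 k31 2 3))))) .n))))) (.c k40 (.q k10 [(.s k15 k5 2 (.s k26 k58 3 (.s k37 k48 6
  (.d k47 k32 k31 2 3)))), (.s k2 k22 5 (.s k14 k6 1 (.s k26 k58 3 (.s k38 k50 5 (.d k46 k34 k30 1
  3))))), (.s k15 k5 2 (.s k2 k22 5 (.s k14 k6 1 (.s k12 k13 0 (.d k46 k30 k29 3 4)))))] .n) (.c k41
  (.q k10 [(.s k15 k5 2 (.s k47 k31 3 (.s k37 k32 2 (.d k26 k58 k48 3 6)))), (.s k2 k22 5 (.s k14 k6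
  1 (.s k26 k58 3 (.s k38 k50 5 (.d k46 k34 k30 1 3))))), (.s k15 k5 2 (.s k2 k22 5 (.s k14 k6 1 (.s
  k12 k13 0 (.d k46 k30 k29 3 4)))))] (.c k1 (.l (.s k61 k60 0 (.s k15 k5 2 (.s k26 k58 3 (.s k37
  k48 6 (.d k47 k32 k31 2 3)))))) (.c k61 (.q k1 [(.d k2 k3 k22 0 5), (.s k15 k5 2 (.s k26 k58 3 (.s
  k37 k48 6 (.d k47 k32 k31 2 3))))] .n) .n))) (.c k43 (.q k10 [(.s k15 k5 2 (.s k47 k31 3 (.s k37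
  k32 2 (.d k26 k58 k48 3 6)))), (.s k2 k22 5 (.s k14 k6 1 (.s k26 k58 3 (.s k38 k50 5 (.d k46 k34
  k30 1 3))))), (.s k15 k5 2 (.s k2 k22 5 (.s k14 k6 1 (.s k12 k13 0 (.d k46 k30 k29 3 4)))))] (.c
  k169 (.q k232 [(.s k15 k5 2 (.s k47 k31 3 (.s k37 k32 2 (.d k26 k58 k48 3 6)))), (.s k2 k22 5 (.s
  k14 k6 1 (.s k26 k58 3 (.s k38 k50 5 (.d k46 k34 k30 1 3))))), (.s k15 k5 2 (.s k2 k22 5 (.s k14
  k6 1 (.s k12 k13 0 (.d k46 k30 k29 3 4)))))] .n) (.c k232 (.q k169 [(.s k15 k5 2 (.s k47 k31 3 (.s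
  k37 k32 2 (.d k26 k58 k48 3 6)))), (.s k2 k22 5 (.s k14 k6 1 (.s k26 k58 3 (.s k38 k50 5 (.d k46
  k34 k30 1 3))))), (.s k15 k5 2 (.s k2 k22 5 (.s k14 k6 1 (.s k12 k13 0 (.d k46 k30 k29 3 4)))))]
  (.c k233 (.q k235 [(.s k15 k5 2 (.s k47 k31 3 (.s k37 k32 2 (.d k26 k58 k48 3 6)))), (.s k2 k22 5
  (.s k14 k6 1 (.s k26 k58 3 (.s k38 k50 5 (.d k46 k34 k30 1 3))))), (.s k15 k5 2 (.s k2 k22 5 (.s
  k14 k6 1 (.s k12 k13 0 (.d k46 k30 k29 3 4)))))] .n) (.c k235 (.q k233 [(.s k22 k2 5 (.s k60 k61 0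
  (.d k41 k3 k105 6 7))), (.s k15 k5 2 (.s k26 k58 3 (.s k37 k48 6 (.d k47 k32 k31 2 3))))] (.c k107
  (.q k171 [(.s k22 k2 5 (.s k60 k61 0 (.d k41 k105 k3 7 6))), (.s k15 k5 2 (.s k26 k58 3 (.s k37
  k48 6 (.d k47 k32 k31 2 3))))] (.c k104 (.l (.s k105 k41 7 (.s k15 k5 2 (.s k26 k58 3 (.s k37 k48
  6 (.d k47 k32 k31 2 3)))))) (.c k105 (.q k104 [(.s k15 k5 2 (.s k47 k31 3 (.s k37 k32 2 (.d k26
  k58 k48 3 6)))), (.s k2 k22 5 (.s k1 k3 0 (.s k85 k253 13 (.d k170 k168 k255 0 14))))] (.c k40 (.l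
  (.s k170 k168 0 (.s k85 k255 14 (.s k1 k253 13 (.d k2 k3 k22 0 5))))) (.c k170 (.q k40 [(.d k60
  k61 k20 0 5), (.s k15 k5 2 (.s k26 k58 3 (.s k37 k48 6 (.d k47 k32 k31 2 3))))] .n) .n))) .n)))
  (.c k171 (.q k107 [(.s k22 k2 5 (.s k60 k61 0 (.d k41 k3 k105 6 7))), (.s k15 k5 2 (.s k26 k58 3
  (.s k37 k48 6 (.d k47 k32 k31 2 3))))] .n) .n))) .n))) .n))) (.c k60 (.q k10 [(.s k15 k5 2 (.s k47
  k31 3 (.s k37 k32 2 (.d k26 k58 k48 3 6)))), (.s k2 k22 5 (.s k14 k6 1 (.s k26 k58 3 (.s k38 k50 5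
  (.d k46 k34 k30 1 3))))), (.s k15 k5 2 (.s k2 k22 5 (.s k14 k6 1 (.s k12 k13 0 (.d k46 k30 k29 3
  4)))))] .n) (.c k61 (.q k10 [(.s k15 k5 2 (.s k47 k31 3 (.s k37 k32 2 (.d k26 k58 k48 3 6)))), (.s
  k2 k22 5 (.s k14 k6 1 (.s k26 k58 3 (.s k38 k50 5 (.d k46 k34 k30 1 3))))), (.s k15 k5 2 (.s k2
  k22 5 (.s k14 k6 1 (.s k12 k13 0 (.d k46 k29 k30 4 3)))))] (.c k1 (.q k41 [(.s k22 k2 5 (.s k3 k60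
  6 (.d k43 k40 k23 0 5))), (.s k15 k5 2 (.s k26 k58 3 (.s k37 k48 6 (.d k47 k32 k31 2 3))))] .n)
  (.c k41 (.q k1 [(.d k2 k3 k22 0 5), (.s k15 k5 2 (.s k26 k58 3 (.s k37 k48 6 (.d k47 k32 k31 2
  3))))] .n) .n))) .n))))))))))))

def t235 : T TT 256 :=
  (.q k3 [(.s k1 k2 0 (.s k21 k42 6 (.s k41 k61 5 (.s k22 k60 6 (.d k23 k20 k43 0 5))))), (.s k2 k1
  0 (.s k42 k21 6 (.s k22 k62 5 (.s k41 k60 6 (.d k43 k40 k23 0 5)))))] (.c k1 (.q k15 [(.s k5 k10 2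
  (.s k21 k42 6 (.s k37 k53 3 (.s k26 k48 6 (.d k31 k16 k47 2 3))))), (.s k7 k11 1 (.s k23 k43 5 (.s
  k39 k55 3 (.s k27 k51 5 (.d k31 k19 k47 1 3))))), (.s k5 k10 2 (.s k21 k42 6 (.s k7 k11 1 (.s k23
  k43 5 (.s k4 k6 0 (.d k55 k39 k38 3 4))))))] .n) (.c k2 (.q k15 [(.s k10 k5 2 (.s k47 k31 3 (.s
  k42 k21 6 (.s k37 k32 2 (.d k26 k58 k48 3 6))))), (.s k7 k11 1 (.s k23 k43 5 (.s k39 k55 3 (.s k27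
  k51 5 (.d k31 k19 k47 1 3))))), (.s k5 k10 2 (.s k21 k42 6 (.s k7 k11 1 (.s k23 k43 5 (.s k37 k53
  3 (.d k22 k20 k52 0 4))))))] .n) (.c k21 (.q k15 [(.s k1 k2 0 (.s k5 k10 2 (.s k9 k13 1 (.s k6 k12
  2 (.d k7 k4 k11 0 1))))), (.s k7 k11 1 (.s k23 k43 5 (.s k39 k55 3 (.s k27 k51 5 (.d k31 k19 k47 1
  3)))))] (.c k4 (.l (.s k2 k1 0 (.s k10 k5 2 (.s k6 k14 1 (.s k9 k12 2 (.d k11 k7 k8 1 0)))))) (.c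
  k7 (.q k169 [(.s k1 k2 0 (.s k85 k253 13 (.s k170 k255 14 (.s k168 k171 0 (.d k252 k84 k86 13
  14))))), (.s k43 k23 5 (.s k252 k86 14 (.s k47 k31 3 (.s k173 k94 12 (.s k236 k110 8 (.d k35 k39
  k102 1 10)))))), (.s k1 k2 0 (.s k5 k10 2 (.s k85 k253 13 (.s k165 k245 11 (.s k240 k90 14 (.d
  k161 k173 k82 1 12))))))] .n) (.c k11 (.q k169 [(.s k1 k2 0 (.s k85 k253 13 (.s k170 k255 14 (.s
  k252 k86 14 (.d k168 k171 k84 0 13))))), (.s k43 k23 5 (.s k252 k86 14 (.s k47 k31 3 (.s k173 k94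
  12 (.s k35 k39 1 (.d k236 k110 k102 8 10)))))), (.s k1 k2 0 (.s k5 k10 2 (.s k85 k253 13 (.s k165
  k245 11 (.s k240 k90 14 (.d k161 k173 k82 1 12))))))] .n) .n)))) (.c k22 (.q k15 [(.s k2 k1 0 (.s
  k10 k5 2 (.s k6 k14 1 (.s k9 k12 2 (.d k11 k8 k7 0 1))))), (.s k10 k5 2 (.s k42 k21 6 (.s k26 k58
  3 (.s k37 k48 6 (.d k47 k32 k31 2 3))))), (.s k7 k11 1 (.s k23 k43 5 (.s k39 k55 3 (.s k27 k51 5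
  (.d k31 k19 k47 1 3)))))] .n) (.c k23 (.q k15 [(.s k1 k2 0 (.s k5 k10 2 (.s k9 k13 1 (.s k6 k12 2
  (.d k7 k4 k11 0 1))))), (.s k5 k10 2 (.s k21 k42 6 (.s k37 k53 3 (.s k26 k48 6 (.d k31 k16 k47 2
  3))))), (.s k1 k2 0 (.s k21 k42 6 (.s k41 k61 5 (.s k11 k7 1 (.s k26 k56 4 (.d k31 k16 k47 2
  3))))))] .n) (.c k41 (.q k15 [(.s k1 k2 0 (.s k5 k10 2 (.s k9 k13 1 (.s k6 k12 2 (.d k7 k4 k11 0
  1))))), (.s k5 k10 2 (.s k21 k42 6 (.s k37 k53 3 (.s k26 k48 6 (.d k31 k16 k47 2 3))))), (.s k7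
  k11 1 (.s k23 k43 5 (.s k39 k55 3 (.s k27 k51 5 (.d k31 k19 k47 1 3)))))] .n) (.c k42 (.q k170
  [(.s k2 k1 0 (.s k255 k85 14 (.s k86 k254 13 (.s k169 k252 14 (.d k171 k168 k87 0 13))))), (.s
  k255 k85 14 (.s k87 k171 13 (.s k127 k191 7 (.s k107 k67 5 (.s k151 k195 13 (.d k23 k43 k215 5
  7)))))), (.s k1 k2 0 (.s k85 k255 14 (.s k169 k253 13 (.s k252 k86 14 (.d k168 k171 k84 0 13)))))]
  (.c k85 (.f k2 k1 0 (.l (.s k86 k254 13 (.s k23 k43 5 (.s k169 k252 14 (.s k149 k212 8 (.s k128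
  k191 6 (.s k129 k189 5 (.d k192 k64 k66 7 8))))))))) (.c k171 (.l (.s k2 k1 0 (.s k85 k255 14 (.s
  k86 k254 13 (.s k252 k169 14 (.d k84 k87 k168 0 13)))))) (.c k255 (.f k2 k1 0 (.l (.s k86 k254 13
  (.s k23 k43 5 (.s k149 k212 8 (.s k128 k191 6 (.s k192 k64 7 (.s k129 k66 8 (.d k169 k252 k189 14
  5))))))))) .n)))) (.c k43 (.q k169 [(.s k2 k1 0 (.s k86 k252 14 (.s k170 k254 13 (.s k255 k85 14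
  (.d k171 k168 k87 0 13))))), (.s k1 k2 0 (.s k21 k42 6 (.s k85 k253 13 (.s k149 k213 7 (.s k129
  k189 5 (.s k193 k65 7 (.d k61 k41 k105 5 13)))))))] (.c k1 (.q k170 [(.s k171 k168 0 (.d k255 k87
  k85 13 14)), (.s k252 k86 14 (.d k168 k171 k84 0 13))] (.c k107 (.l (.s k171 k168 0 (.d k255 k87
  k85 13 14))) (.c k168 (.l (.s k21 k42 6 (.s k85 k255 14 (.s k252 k86 14 (.s k149 k213 7 (.d k189
  k126 k129 8 5)))))) (.c k171 (.q k107 [(.s k255 k85 14 (.s k127 k191 7 (.s k67 k87 5 (.d k195 k131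
  k151 7 13)))), (.s k21 k42 6 (.s k85 k255 14 (.s k252 k86 14 (.s k149 k213 7 (.d k189 k126 k129 8
  5))))), (.s k195 k151 13 (.s k130 k65 8 (.s k131 k67 7 (.d k150 k190 k188 5 6))))] (.c k195 (.l
  (.s k255 k85 14 (.s k252 k86 14 (.s k126 k189 8 (.s k127 k191 7 (.s k125 k124 0 (.s k190 k60 8 (.d
  k254 k253 k62 0 7)))))))) .n)) .n)))) (.c k2 (.q k171 [(.s k255 k87 13 (.d k170 k168 k85 0 14)),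
  (.s k252 k86 14 (.d k168 k170 k84 0 13))] (.c k168 (.l (.s k255 k87 13 (.s k85 k170 14 (.s k253 k1
  13 (.d k252 k254 k86 0 14))))) (.c k170 (.l (.s k255 k87 13 (.s k252 k86 14 (.s k254 k253 0 (.s
  k126 k189 8 (.s k190 k62 7 (.s k125 k60 8 (.d k127 k124 k191 0 7)))))))) .n))) (.c k85 (.f k2 k1 0
  (.l (.s k42 k21 6 (.s k22 k62 5 (.s k86 k252 14 (.s k150 k214 7 (.s k131 k188 6 (.s k195 k67 7 (.d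
  k60 k41 k105 6 14))))))))) (.c k107 (.q k171 [(.s k252 k86 14 (.d k168 k170 k84 0 13)), (.s k1 k2
  0 (.s k85 k253 13 (.d k255 k87 k170 13 14)))] (.c k104 (.q k105 [(.s k252 k86 14 (.d k168 k170 k84
  0 13)), (.s k1 k2 0 (.s k41 k233 7 (.d k21 k61 k42 5 6)))] .n) (.c k105 (.q k104 [(.s k170 k168 0
  (.d k255 k87 k85 13 14)), (.s k252 k86 14 (.d k168 k170 k84 0 13))] (.c k40 (.l (.s k170 k168 0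
  (.d k255 k87 k85 13 14))) (.c k168 (.l (.s k1 k2 0 (.s k85 k253 13 (.d k255 k87 k170 13 14)))) (.c
  k170 (.q k40 [(.s k168 k232 7 (.d k252 k84 k86 13 14)), (.s k2 k1 0 (.s k60 k20 5 (.s k42 k21 6
  (.d k22 k41 k62 6 5))))] (.c k42 (.q k234 [(.s k168 k232 7 (.d k252 k84 k86 13 14)), (.s k60 k20 5
  (.s k255 k87 13 (.d k192 k213 k148 6 13)))] .n) (.c k234 (.l (.s k42 k21 6 (.s k252 k86 14 (.d
  k168 k232 k84 7 13)))) .n))) .n)))) (.c k170 (.l (.s k1 k2 0 (.s k85 k253 13 (.s k86 k252 14 (.d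
  k87 k255 k84 13 0))))) .n)))) (.c k170 (.f k2 k1 0 (.l (.s k42 k21 6 (.s k22 k62 5 (.s k86 k252 14
  (.s k150 k214 7 (.s k131 k188 6 (.s k195 k67 7 (.d k60 k41 k105 6 14))))))))) (.c k171 (.q k107
  [(.s k86 k252 14 (.s k195 k151 13 (.s k131 k67 7 (.s k150 k188 6 (.s k22 k214 7 (.d k60 k41 k105 6
  14)))))), (.s k1 k2 0 (.s k21 k42 6 (.s k85 k253 13 (.s k252 k86 14 (.s k149 k213 7 (.d k189 k126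
  k129 8 5)))))), (.s k1 k2 0 (.s k85 k253 13 (.s k255 k170 14 (.s k86 k252 14 (.s k127 k191 7 (.d
  k87 k84 k67 0 5)))))), (.s k1 k2 0 (.s k21 k42 6 (.s k41 k61 5 (.s k105 k233 7 (.s k195 k151 13
  (.d k60 k22 k150 6 14))))))] .n) (.c k253 (.l (.s k2 k1 0 (.s k86 k252 14 (.s k170 k254 13 (.s
  k255 k85 14 (.d k171 k168 k87 0 13)))))) .n)))))))) (.c k60 (.q k15 [(.s k1 k2 0 (.s k5 k10 2 (.s
  k9 k13 1 (.s k7 k11 1 (.d k6 k4 k12 0 2))))), (.s k5 k10 2 (.s k21 k42 6 (.s k37 k53 3 (.s k26 k48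
  6 (.d k31 k16 k47 2 3))))), (.s k7 k11 1 (.s k23 k43 5 (.s k39 k55 3 (.s k27 k51 5 (.d k31 k19 k47
  1 3)))))] .n) (.c k61 (.l (.s k2 k1 0 (.s k43 k23 5 (.s k42 k21 6 (.s k41 k40 0 (.d k22 k62 k60 5
  6)))))) (.c k62 (.l (.s k1 k2 0 (.s k23 k43 5 (.s k21 k42 6 (.s k22 k20 0 (.d k41 k61 k60 5
  6)))))) .n))))))))))))

def t239 : T TT 256 :=
  (.q k12 [(.s k8 k4 1 (.s k46 k29 4 (.s k42 k21 6 (.s k38 k34 1 (.d k25 k59 k51 4 6)))))] (.c k4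
  (.q k60 [(.s k20 k40 5 (.s k21 k42 6 (.s k22 k23 0 (.s k41 k3 6 (.d k61 k62 k1 0 5))))), (.s k28
  k44 3 (.s k29 k46 4 (.s k30 k31 0 (.s k45 k15 4 (.d k61 k62 k13 0 3))))), (.s k20 k40 5 (.s k21
  k42 6 (.s k28 k44 3 (.s k29 k46 4 (.s k16 k24 1 (.d k31 k30 k26 0 2))))))] .n) (.c k8 (.q k60 [(.s
  k40 k20 5 (.s k62 k61 0 (.s k42 k21 6 (.s k22 k2 5 (.d k41 k43 k3 0 6))))), (.s k28 k44 3 (.s k29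
  k46 4 (.s k30 k31 0 (.s k45 k15 4 (.d k61 k62 k13 0 3))))), (.s k20 k40 5 (.s k21 k42 6 (.s k28
  k44 3 (.s k29 k46 4 (.s k25 k17 1 (.d k22 k23 k19 0 2))))))] .n) (.c k17 (.l (.s k8 k4 1 (.s k42
  k21 6 (.s k25 k59 4 (.s k38 k51 6 (.d k46 k29 k34 4 1)))))) (.c k21 (.q k60 [(.s k4 k8 1 (.s k20
  k40 5 (.s k36 k52 3 (.s k24 k48 5 (.d k28 k16 k44 1 3))))), (.s k28 k44 3 (.s k29 k46 4 (.s k30
  k31 0 (.s k45 k15 4 (.d k61 k62 k13 0 3)))))] (.c k16 (.l (.s k8 k4 1 (.s k40 k20 5 (.s k24 k56 3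
  (.s k36 k48 5 (.d k44 k28 k32 3 1)))))) (.c k28 (.q k170 [(.s k20 k40 5 (.s k85 k255 14 (.s k150
  k215 8 (.s k195 k105 14 (.d k130 k190 k65 5 8))))), (.s k8 k4 1 (.s k255 k85 14 (.s k89 k251 12
  (.s k166 k243 14 (.d k174 k162 k93 1 12))))), (.s k8 k4 1 (.s k40 k20 5 (.s k89 k251 12 (.s k105
  k235 8 (.s k73 k121 3 (.d k195 k134 k150 10 14))))))] .n) (.c k44 (.q k109 [(.s k4 k8 1 (.s k207
  k158 12 (.s k69 k138 10 (.s k134 k199 8 (.s k73 k195 10 (.d k77 k65 k142 1 8)))))), (.s k29 k46 4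
  (.s k61 k62 0 (.s k157 k205 11 (.s k93 k221 7 (.s k255 k174 12 (.d k125 k77 k190 3 8))))))] (.c
  k77 (.l (.s k61 k62 0 (.s k158 k207 12 (.s k157 k205 11 (.s k204 k110 12 (.d k156 k159 k108 0
  11)))))) .n)) .n)))) (.c k25 (.q k60 [(.s k8 k4 1 (.s k40 k20 5 (.s k24 k56 3 (.s k36 k48 5 (.d
  k44 k32 k28 1 3))))), (.s k40 k20 5 (.s k42 k21 6 (.s k41 k43 0 (.s k22 k3 6 (.d k62 k61 k2 0
  5))))), (.s k28 k44 3 (.s k29 k46 4 (.s k30 k31 0 (.s k45 k15 4 (.d k61 k62 k13 0 3)))))] .n) (.c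
  k29 (.q k60 [(.s k4 k8 1 (.s k20 k40 5 (.s k36 k52 3 (.s k24 k48 5 (.d k28 k16 k44 1 3))))), (.s
  k20 k40 5 (.s k21 k42 6 (.s k22 k23 0 (.s k41 k3 6 (.d k61 k62 k1 0 5))))), (.s k4 k8 1 (.s k21
  k42 6 (.s k38 k55 4 (.s k44 k28 3 (.s k41 k35 2 (.d k61 k62 k1 0 5))))))] .n) (.c k34 (.l (.s k4
  k8 1 (.s k21 k42 6 (.s k38 k55 4 (.s k25 k51 6 (.d k29 k46 k17 4 1)))))) (.c k38 (.q k60 [(.s k4
  k8 1 (.s k20 k40 5 (.s k36 k52 3 (.s k24 k48 5 (.d k28 k16 k44 1 3))))), (.s k20 k40 5 (.s k21 k42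
  6 (.s k22 k23 0 (.s k41 k3 6 (.d k61 k62 k1 0 5))))), (.s k28 k44 3 (.s k29 k46 4 (.s k30 k31 0
  (.s k45 k15 4 (.d k61 k62 k13 0 3)))))] .n) (.c k42 (.q k170 [(.s k8 k4 1 (.s k255 k85 14 (.s k89
  k251 12 (.s k166 k243 14 (.d k174 k162 k93 1 12))))), (.s k255 k85 14 (.s k29 k46 4 (.s k93 k174
  12 (.s k157 k221 7 (.s k110 k204 12 (.d k127 k76 k191 4 7)))))), (.s k4 k8 1 (.s k85 k255 14 (.s
  k166 k247 12 (.s k243 k89 14 (.d k162 k174 k81 1 12)))))] (.c k85 (.q k127 [(.s k8 k4 1 (.s k89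
  k251 12 (.s k166 k243 14 (.s k255 k191 7 (.d k174 k162 k93 1 12))))), (.s k255 k191 7 (.s k93 k174
  12 (.s k110 k76 4 (.s k157 k204 12 (.d k29 k46 k221 4 7))))), (.s k8 k4 1 (.s k89 k251 12 (.s k29
  k46 4 (.s k149 k209 9 (.d k191 k128 k255 6 7)))))] (.c k191 (.l (.s k8 k4 1 (.s k89 k251 12 (.s
  k46 k29 4 (.s k166 k243 14 (.s k174 k162 1 (.s k110 k238 7 (.d k93 k255 k76 12 4)))))))) (.c k255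
  (.q k207 [(.s k4 k8 1 (.s k69 k138 10 (.s k134 k199 8 (.s k77 k142 8 (.d k73 k65 k195 1 10))))),
  (.s k77 k142 8 (.s k111 k159 11 (.s k79 k95 3 (.s k76 k78 0 (.s k204 k140 7 (.d k110 k93 k157 4
  12)))))), (.s k8 k4 1 (.s k138 k69 10 (.s k89 k251 12 (.s k154 k186 3 (.s k24 k219 8 (.d k48 k101
  k36 14 5))))))] .n) .n))) (.c k166 (.l (.s k255 k85 14 (.s k46 k29 4 (.s k174 k93 12 (.s k110 k238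
  7 (.s k157 k204 12 (.d k191 k127 k140 7 4))))))) (.c k174 (.l (.s k8 k4 1 (.s k85 k255 14 (.s k89
  k251 12 (.s k243 k166 14 (.d k81 k93 k162 1 12)))))) (.c k255 (.q k207 [(.s k8 k4 1 (.s k142 k77 8
  (.s k138 k69 10 (.s k134 k130 1 (.d k73 k203 k195 8 10))))), (.s k8 k4 1 (.s k89 k251 12 (.s k77
  k142 8 (.s k243 k166 14 (.s k101 k113 5 (.s k154 k48 14 (.d k219 k231 k24 5 8))))))), (.s k138 k69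
  10 (.s k142 k77 8 (.s k154 k186 3 (.s k166 k178 5 (.s k243 k89 14 (.d k162 k174 k81 1 12)))))),
  (.s k8 k4 1 (.s k138 k69 10 (.s k89 k251 12 (.s k243 k166 14 (.s k154 k186 3 (.d k219 k231 k24 5
  8))))))] .n) .n))))) (.c k46 (.q k60 [(.s k4 k8 1 (.s k20 k40 5 (.s k36 k52 3 (.s k24 k48 5 (.d
  k28 k16 k44 1 3))))), (.s k20 k40 5 (.s k21 k42 6 (.s k22 k23 0 (.s k41 k3 6 (.d k61 k62 k1 0
  5))))), (.s k4 k8 1 (.s k21 k42 6 (.s k38 k55 4 (.s k44 k28 3 (.s k41 k35 2 (.d k61 k62 k1 0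
  5))))))] (.c k166 (.q k226 [(.s k4 k8 1 (.s k20 k40 5 (.s k36 k52 3 (.s k24 k48 5 (.d k28 k16 k44
  1 3))))), (.s k20 k40 5 (.s k21 k42 6 (.s k22 k23 0 (.s k41 k3 6 (.d k61 k62 k1 0 5))))), (.s k4
  k8 1 (.s k21 k42 6 (.s k38 k55 4 (.s k44 k28 3 (.s k41 k35 2 (.d k61 k62 k1 0 5))))))] .n) (.c
  k226 (.q k166 [(.s k4 k8 1 (.s k20 k40 5 (.s k36 k52 3 (.s k24 k48 5 (.d k28 k16 k44 1 3))))), (.s
  k20 k40 5 (.s k21 k42 6 (.s k22 k23 0 (.s k41 k3 6 (.d k61 k62 k1 0 5))))), (.s k4 k8 1 (.s k85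
  k247 12 (.s k170 k255 14 (.s k243 k89 14 (.d k162 k174 k81 1 12)))))] .n) .n))) (.c k51 (.q k60
  [(.s k4 k8 1 (.s k20 k40 5 (.s k36 k52 3 (.s k24 k48 5 (.d k28 k16 k44 1 3))))), (.s k20 k40 5 (.s
  k21 k42 6 (.s k22 k23 0 (.s k41 k3 6 (.d k61 k62 k1 0 5))))), (.s k28 k44 3 (.s k29 k46 4 (.s k30
  k31 0 (.s k45 k15 4 (.d k61 k62 k13 0 3)))))] .n) (.c k55 (.l (.s k8 k4 1 (.s k46 k29 4 (.s k42
  k21 6 (.s k38 k34 1 (.d k25 k59 k51 4 6)))))) (.c k59 (.l (.s k4 k8 1 (.s k29 k46 4 (.s k21 k42 6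
  (.s k25 k17 1 (.d k38 k55 k51 4 6)))))) .n))))))))))))))

def t255 : T TT 256 :=
  (.q k12 [(.s k8 k4 1 (.s k46 k29 4 (.s k42 k21 6 (.s k38 k34 1 (.d k25 k59 k51 4 6)))))] (.c k4
  (.q k28 [(.s k60 k44 3 (.s k29 k46 4 (.s k30 k31 0 (.s k45 k15 4 (.d k61 k62 k13 0 3))))), (.s k21
  k42 6 (.s k60 k44 3 (.s k20 k40 5 (.s k22 k23 0 (.s k41 k3 6 (.d k61 k62 k1 0 5)))))), (.s k21 k42
  6 (.s k29 k46 4 (.s k31 k30 0 (.s k16 k26 2 (.s k48 k32 3 (.d k24 k20 k36 1 5))))))] (.c k62 (.l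
  (.s k21 k42 6 (.s k60 k44 3 (.s k20 k40 5 (.s k29 k46 4 (.s k16 k24 1 (.d k31 k30 k26 0 2)))))))
  .n)) (.c k8 (.q k28 [(.s k60 k44 3 (.s k29 k46 4 (.s k30 k31 0 (.s k45 k15 4 (.d k61 k62 k13 0
  3))))), (.s k21 k42 6 (.s k60 k44 3 (.s k20 k40 5 (.s k22 k23 0 (.s k41 k3 6 (.d k61 k62 k1 0
  5)))))), (.s k21 k42 6 (.s k29 k46 4 (.s k31 k30 0 (.s k16 k26 2 (.s k48 k32 3 (.d k24 k20 k36 1
  5))))))] (.c k62 (.l (.s k21 k42 6 (.s k60 k44 3 (.s k20 k40 5 (.s k29 k46 4 (.s k25 k17 1 (.d k22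
  k23 k19 0 2))))))) .n)) (.c k17 (.l (.s k8 k4 1 (.s k42 k21 6 (.s k25 k59 4 (.s k38 k51 6 (.d k46
  k29 k34 4 1)))))) (.c k21 (.q k28 [(.s k4 k8 1 (.s k60 k44 3 (.s k20 k40 5 (.s k36 k52 3 (.d k24
  k16 k48 1 5))))), (.s k60 k44 3 (.s k29 k46 4 (.s k61 k62 0 (.s k45 k13 3 (.d k30 k31 k15 0
  4)))))] (.c k44 (.q k3 [(.s k1 k2 0 (.s k9 k6 2 (.s k5 k13 1 (.s k10 k15 2 (.d k8 k11 k4 0 1))))),
  (.s k23 k43 5 (.s k29 k46 4 (.s k31 k30 0 (.s k19 k27 1 (.s k51 k35 3 (.d k25 k38 k22 6 2))))))]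
  (.c k11 (.l (.s k2 k1 0 (.s k4 k8 1 (.s k6 k9 2 (.s k10 k14 1 (.d k5 k7 k15 0 2)))))) (.c k14 (.l
  (.s k1 k2 0 (.s k8 k4 1 (.s k9 k6 2 (.s k10 k11 0 (.d k5 k13 k15 1 2)))))) .n))) (.c k60 (.f k8 k4
  1 (.l (.s k29 k46 4 (.s k31 k30 0 (.s k15 k47 3 (.s k10 k5 2 (.s k9 k11 0 (.s k6 k3 2 (.d k14 k13
  k2 0 1))))))))) .n))) (.c k25 (.q k28 [(.s k60 k44 3 (.s k20 k40 5 (.s k24 k16 1 (.s k36 k48 5 (.d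
  k4 k8 k52 1 3))))), (.s k60 k44 3 (.s k29 k46 4 (.s k30 k31 0 (.s k45 k15 4 (.d k61 k62 k13 0
  3))))), (.s k21 k42 6 (.s k29 k46 4 (.s k31 k30 0 (.s k16 k26 2 (.s k48 k32 3 (.d k24 k20 k36 1
  5))))))] .n) (.c k29 (.q k3 [(.s k1 k2 0 (.s k8 k4 1 (.s k9 k6 2 (.s k10 k11 0 (.d k5 k13 k15 1
  2))))), (.s k1 k2 0 (.s k21 k42 6 (.s k23 k43 5 (.s k22 k20 0 (.d k41 k61 k60 5 6))))), (.s k4 k8
  1 (.s k21 k42 6 (.s k6 k9 2 (.s k23 k43 5 (.s k38 k55 4 (.d k22 k20 k54 0 3))))))] .n) (.c k34 (.l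
  (.s k4 k8 1 (.s k21 k42 6 (.s k38 k55 4 (.s k25 k51 6 (.d k29 k46 k17 4 1)))))) (.c k38 (.q k3
  [(.s k2 k1 0 (.s k4 k8 1 (.s k6 k9 2 (.s k10 k14 1 (.d k5 k7 k15 0 2))))), (.s k1 k2 0 (.s k21 k42
  6 (.s k41 k61 5 (.s k22 k60 6 (.d k23 k20 k43 0 5))))), (.s k42 k21 6 (.s k9 k6 2 (.s k43 k23 5
  (.s k41 k40 0 (.s k25 k57 3 (.d k8 k4 k59 1 4))))))] .n) (.c k42 (.q k28 [(.s k60 k44 3 (.s k20
  k40 5 (.s k24 k16 1 (.s k36 k48 5 (.d k4 k8 k52 1 3))))), (.s k60 k44 3 (.s k29 k46 4 (.s k30 k31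
  0 (.s k45 k15 4 (.d k61 k62 k13 0 3)))))] (.c k44 (.f k8 k4 1 (.q k3 [(.s k9 k6 2 (.s k10 k11 0
  (.s k5 k15 2 (.d k1 k2 k13 0 1)))), (.s k23 k43 5 (.s k29 k46 4 (.s k31 k30 0 (.s k19 k27 1 (.s
  k51 k35 3 (.d k25 k38 k22 6 2))))))] (.c k11 (.l (.s k1 k2 0 (.s k9 k6 2 (.s k5 k13 1 (.s k29 k46
  4 (.s k31 k30 0 (.d k15 k10 k47 2 3))))))) (.c k170 (.q k234 [(.s k9 k6 2 (.s k10 k11 0 (.s k5 k15
  2 (.d k1 k2 k13 0 1)))), (.s k23 k43 5 (.s k29 k46 4 (.s k31 k30 0 (.s k19 k27 1 (.s k51 k35 3 (.d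
  k25 k38 k22 6 2))))))] (.c k11 (.l (.s k1 k2 0 (.s k9 k6 2 (.s k5 k13 1 (.s k29 k46 4 (.s k31 k30
  0 (.d k15 k10 k47 2 3))))))) .n)) (.c k234 (.q k170 [(.s k9 k6 2 (.s k10 k11 0 (.s k5 k15 2 (.d k1
  k2 k13 0 1)))), (.s k2 k1 0 (.s k86 k254 13 (.s k252 k169 14 (.s k89 k251 12 (.d k92 k83 k172 2
  11))))), (.s k9 k6 2 (.s k10 k11 0 (.s k29 k46 4 (.s k31 k30 0 (.d k15 k5 k47 2 3)))))] (.c k192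
  (.q k213 [(.s k1 k2 0 (.s k9 k6 2 (.s k5 k13 1 (.d k10 k11 k15 0 2)))), (.s k2 k1 0 (.s k86 k254
  13 (.s k252 k169 14 (.s k89 k251 12 (.d k92 k83 k172 2 11))))), (.s k9 k6 2 (.s k10 k11 0 (.s k29
  k46 4 (.s k31 k30 0 (.d k15 k5 k47 2 3)))))] .n) (.c k213 (.q k192 [(.s k1 k2 0 (.s k9 k6 2 (.s k5
  k13 1 (.d k10 k11 k15 0 2)))), (.s k64 k128 7 (.s k72 k132 9 (.s k136 k200 7 (.d k68 k76 k204 1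
  9))))] .n) .n))) .n))))) (.c k60 (.f k8 k4 1 (.l (.s k29 k46 4 (.s k31 k30 0 (.s k15 k47 3 (.s k10
  k5 2 (.s k9 k11 0 (.s k6 k3 2 (.d k14 k13 k2 0 1))))))))) (.c k170 (.q k234 [(.s k60 k44 3 (.s k29
  k46 4 (.s k30 k31 0 (.s k45 k15 4 (.d k61 k62 k13 0 3))))), (.s k4 k8 1 (.s k60 k44 3 (.s k20 k40
  5 (.s k36 k52 3 (.d k24 k16 k48 1 5)))))] (.c k44 (.q k3 [(.s k1 k2 0 (.s k8 k4 1 (.s k9 k6 2 (.s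
  k5 k13 1 (.d k10 k11 k15 0 2))))), (.s k23 k43 5 (.s k29 k46 4 (.s k31 k30 0 (.s k19 k27 1 (.s k51
  k35 3 (.d k25 k38 k22 6 2)))))), (.s k2 k1 0 (.s k4 k8 1 (.s k6 k9 2 (.s k10 k14 1 (.d k5 k7 k15 0
  2)))))] (.c k11 (.l (.s k2 k1 0 (.s k4 k8 1 (.s k6 k9 2 (.s k10 k14 1 (.d k5 k7 k15 0 2)))))) (.c
  k14 (.l (.s k1 k2 0 (.s k8 k4 1 (.s k9 k6 2 (.s k10 k11 0 (.d k5 k13 k15 1 2)))))) .n))) (.c k60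
  (.f k8 k4 1 (.l (.s k29 k46 4 (.s k31 k30 0 (.s k15 k47 3 (.s k10 k5 2 (.s k9 k11 0 (.s k6 k3 2
  (.d k14 k13 k2 0 1))))))))) .n))) (.c k234 (.q k170 [(.s k60 k44 3 (.s k20 k40 5 (.s k24 k16 1 (.s
  k36 k48 5 (.d k4 k8 k52 1 3))))), (.s k60 k44 3 (.s k29 k46 4 (.s k30 k31 0 (.s k45 k15 4 (.d k61
  k62 k13 0 3)))))] (.c k44 (.l (.s k8 k4 1 (.s k89 k251 12 (.s k150 k211 10 (.s k130 k190 5 (.s
  k195 k65 8 (.s k73 k134 10 (.d k105 k60 k121 14 3)))))))) (.c k60 (.f k8 k4 1 (.l (.s k89 k251 12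
  (.s k29 k46 4 (.s k31 k30 0 (.s k15 k47 3 (.s k10 k5 2 (.s k90 k250 11 (.d k149 k209 k208 9
  10))))))))) (.c k192 (.q k213 [(.s k4 k8 1 (.s k60 k44 3 (.s k20 k40 5 (.s k36 k52 3 (.d k24 k16
  k48 1 5))))), (.s k60 k44 3 (.s k29 k46 4 (.s k30 k31 0 (.s k45 k15 4 (.d k61 k62 k13 0 3))))),
  (.s k8 k4 1 (.s k89 k251 12 (.s k29 k46 4 (.s k149 k209 9 (.s k85 k21 7 (.s k81 k93 1 (.d k243
  k166 k162 14 12)))))))] .n) (.c k213 (.q k192 [(.s k8 k4 1 (.s k64 k128 7 (.s k72 k132 9 (.s k68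
  k76 1 (.d k136 k200 k204 7 9))))), (.s k60 k44 3 (.s k29 k46 4 (.s k30 k31 0 (.s k45 k15 4 (.d k61
  k62 k13 0 3)))))] .n) .n))))) .n))))) (.c k46 (.q k3 [(.s k1 k2 0 (.s k8 k4 1 (.s k9 k6 2 (.s k5
  k13 1 (.d k10 k11 k15 0 2))))), (.s k1 k2 0 (.s k21 k42 6 (.s k41 k61 5 (.s k22 k60 6 (.d k23 k20
  k43 0 5))))), (.s k4 k8 1 (.s k21 k42 6 (.s k6 k9 2 (.s k23 k43 5 (.s k38 k55 4 (.d k22 k20 k54 0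
  3))))))] (.c k166 (.q k226 [(.s k1 k2 0 (.s k8 k4 1 (.s k9 k6 2 (.s k5 k13 1 (.d k10 k11 k15 0
  2))))), (.s k1 k2 0 (.s k21 k42 6 (.s k41 k61 5 (.s k22 k60 6 (.d k23 k20 k43 0 5))))), (.s k4 k8
  1 (.s k21 k42 6 (.s k6 k9 2 (.s k23 k43 5 (.s k38 k55 4 (.d k22 k20 k54 0 3))))))] .n) (.c k226
  (.q k166 [(.s k1 k2 0 (.s k8 k4 1 (.s k9 k6 2 (.s k5 k13 1 (.d k10 k11 k15 0 2))))), (.s k6 k9 2
  (.s k86 k246 11 (.s k169 k252 14 (.s k243 k89 14 (.d k163 k172 k83 2 11))))), (.s k1 k2 0 (.s k21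
  k42 6 (.s k41 k61 5 (.s k22 k60 6 (.d k23 k20 k43 0 5)))))] .n) .n))) (.c k51 (.f k8 k4 1 (.q k3
  [(.s k1 k2 0 (.s k9 k6 2 (.s k5 k13 1 (.d k10 k11 k15 0 2)))), (.s k1 k2 0 (.s k21 k42 6 (.s k41
  k61 5 (.s k22 k60 6 (.d k23 k20 k43 0 5))))), (.s k42 k21 6 (.s k9 k6 2 (.s k43 k23 5 (.s k25 k59
  4 (.d k41 k40 k57 0 3)))))] (.c k119 (.q k187 [(.s k1 k2 0 (.s k9 k6 2 (.s k5 k13 1 (.d k10 k11
  k15 0 2)))), (.s k1 k2 0 (.s k21 k42 6 (.s k41 k61 5 (.s k22 k60 6 (.d k23 k20 k43 0 5))))), (.s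
  k42 k21 6 (.s k9 k6 2 (.s k43 k23 5 (.s k25 k59 4 (.d k41 k40 k57 0 3)))))] .n) (.c k187 (.q k119
  [(.s k1 k2 0 (.s k9 k6 2 (.s k5 k13 1 (.d k10 k11 k15 0 2)))), (.s k1 k2 0 (.s k21 k42 6 (.s k41
  k61 5 (.s k22 k60 6 (.d k23 k20 k43 0 5))))), (.s k42 k21 6 (.s k9 k6 2 (.s k43 k23 5 (.s k25 k59
  4 (.d k41 k40 k57 0 3)))))] .n) .n)))) (.c k55 (.l (.s k8 k4 1 (.s k46 k29 4 (.s k42 k21 6 (.s k38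
  k34 1 (.d k25 k59 k51 4 6)))))) (.c k59 (.l (.s k4 k8 1 (.s k29 k46 4 (.s k21 k42 6 (.s k25 k17 1
  (.d k38 k55 k51 4 6)))))) .n))))))))))))))

theorem c155 : rootOK2 k63 k106 k155 t155 = true := by decide +kernel

theorem c159 : rootOK2 k63 k106 k159 t159 = true := by decide +kernel

theorem c170 : rootOK2 k63 k106 k170 t170 = true := by decide +kernel

theorem c171 : rootOK2 k63 k106 k171 t171 = true := by decide +kernel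

theorem c175 : rootOK2 k63 k106 k175 t175 = true := by decide +kernel

theorem c191 : rootOK2 k63 k106 k191 t191 = true := by decide +kernel

theorem c192 : rootOK2 k63 k106 k192 t192 = true := by decide +kernel

theorem c193 : rootOK2 k63 k106 k193 t193 = true := by decide +kernel

theorem c194 : rootOK2 k63 k106 k194 t194 = true := by decide +kernel

theorem c195 : rootOK2 k63 k106 k195 t195 = true := by decide +kernel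

theorem c197 : rootOK2 k63 k106 k197 t197 = true := by decide +kernel

theorem c198 : rootOK2 k63 k106 k198 t198 = true := by decide +kernel

theorem c199 : rootOK2 k63 k106 k199 t199 = true := by decide +kernel

theorem c202 : rootOK2 k63 k106 k202 t202 = true := by decide +kernel

theorem c203 : rootOK2 k63 k106 k203 t203 = true := by decide +kernel

theorem c207 : rootOK2 k63 k106 k207 t207 = true := by decide +kernel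

theorem c213 : rootOK2 k63 k106 k213 t213 = true := by decide +kernel

theorem c214 : rootOK2 k63 k106 k214 t214 = true := by decide +kernel

theorem c215 : rootOK2 k63 k106 k215 t215 = true := by decide +kernel

theorem c218 : rootOK2 k63 k106 k218 t218 = true := by decide +kernel

theorem c219 : rootOK2 k63 k106 k219 t219 = true := by decide +kernel

theorem c223 : rootOK2 k63 k106 k223 t223 = true := by decide +kernel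

theorem c234 : rootOK2 k63 k106 k234 t234 = true := by decide +kernel

theorem c235 : rootOK2 k63 k106 k235 t235 = true := by decide +kernel

theorem c239 : rootOK2 k63 k106 k239 t239 = true := by decide +kernel

theorem c255 : rootOK2 k63 k106 k255 t255 = true := by decide +kernel

def l : List Nat :=
  [k155.c, k159.c, k170.c, k171.c, k175.c, k191.c, k192.c, k193.c, k194.c, k195.c, k197.c, k198.c,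
  k199.c, k202.c, k203.c, k207.c, k213.c, k214.c, k215.c, k218.c, k219.c, k223.c, k234.c, k235.c,
  k239.c, k255.c]

theorem ok : AllQ k63.c k106.c l :=
  allQ_cons c155 (allQ_cons c159 (allQ_cons c170 (allQ_cons c171 (allQ_cons c175 (
  allQ_cons c191 (allQ_cons c192 (allQ_cons c193 (allQ_cons c194 (allQ_cons c195 (
  allQ_cons c197 (allQ_cons c198 (allQ_cons c199 (allQ_cons c202 (allQ_cons c203 (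
  allQ_cons c207 (allQ_cons c213 (allQ_cons c214 (allQ_cons c215 (allQ_cons c218 (
  allQ_cons c219 (allQ_cons c223 (allQ_cons c234 (allQ_cons c235 (allQ_cons c239 (
  allQ_cons c255 (allQ_nil _ _))))))))))))))))))))))))))

end Pool.Agent.TTT.H06
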