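import Pool.Agent.TTT.Sym2

set_option autoImplicit false
set_option maxRecDepth 100000

namespace Pool.Agent.TTT.I01

def t1 : T TT 256 :=
  (.q k21 [(.s k5 k10 2 (.s k63 k42 6 (.s k37 k53 3 (.s k26 k48 6 (.d k31 k16 k47 2 3))))), (.s k10
  k5 2 (.s k42 k63 6 (.s k26 k58 3 (.s k48 k37 6 (.d k16 k31 k32 2 3)))))] (.c k5 (.q k12 [(.s k4 k8
  1 (.s k42 k63 6 (.s k38 k55 4 (.s k51 k25 6 (.d k34 k46 k17 1 4))))), (.s k63 k42 6 (.s k46 k29 4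
  (.s k47 k31 3 (.s k45 k44 0 (.s k30 k60 4 (.d k14 k13 k62 0 3)))))), (.s k4 k8 1 (.s k38 k55 4 (.s
  k13 k14 0 (.s k25 k51 6 (.s k37 k49 5 (.s k48 k26 6 (.d k36 k39 k24 0 5)))))))] (.c k9 (.l (.s k13
  k14 0 (.s k4 k8 1 (.s k42 k63 6 (.s k38 k55 4 (.s k51 k25 6 (.d k34 k46 k17 1 4))))))) (.c k13 (.q
  k9 [(.s k8 k4 1 (.s k11 k10 0 (.d k3 k7 k6 1 2))), (.s k4 k8 1 (.s k42 k63 6 (.s k38 k55 4 (.s k51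
  k25 6 (.d k34 k46 k17 1 4)))))] (.c k4 (.l (.s k63 k42 6 (.s k3 k6 2 (.s k7 k11 1 (.s k23 k43 5
  (.s k39 k55 3 (.s k27 k51 5 (.d k31 k19 k47 1 3)))))))) (.c k8 (.l (.s k63 k42 6 (.s k3 k6 2 (.s
  k7 k11 1 (.s k23 k43 5 (.s k39 k55 3 (.s k27 k51 5 (.d k31 k19 k47 1 3)))))))) .n))) (.c k63 (.l
  (.s k4 k8 1 (.s k38 k55 4 (.s k51 k25 6 (.s k39 k27 5 (.s k37 k36 0 (.s k26 k48 6 (.d k14 k13 k50
  0 5)))))))) .n)))) (.c k10 (.q k12 [(.s k8 k4 1 (.s k42 k63 6 (.s k25 k59 4 (.s k51 k38 6 (.d k17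
  k29 k34 1 4))))), (.s k63 k42 6 (.s k14 k13 0 (.s k46 k29 4 (.s k30 k62 3 (.s k45 k60 4 (.d k47
  k44 k31 0 3)))))), (.s k4 k8 1 (.s k38 k55 4 (.s k14 k13 0 (.s k26 k50 5 (.s k16 k31 2 (.d k48 k32
  k37 3 6))))))] (.c k170 (.q k250 [(.s k8 k4 1 (.s k42 k63 6 (.s k25 k59 4 (.s k51 k38 6 (.d k17
  k29 k34 1 4))))), (.s k63 k42 6 (.s k14 k13 0 (.s k46 k29 4 (.s k30 k62 3 (.s k45 k60 4 (.d k47
  k44 k31 0 3)))))), (.s k4 k8 1 (.s k38 k55 4 (.s k14 k13 0 (.s k26 k50 5 (.s k16 k31 2 (.d k48 k32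
  k37 3 6))))))] .n) (.c k250 (.q k170 [(.s k8 k4 1 (.s k42 k63 6 (.s k25 k59 4 (.s k51 k38 6 (.d
  k17 k29 k34 1 4))))), (.s k63 k42 6 (.s k85 k255 14 (.s k149 k213 7 (.s k192 k106 14 (.d k128 k191
  k64 6 7))))), (.s k4 k8 1 (.s k85 k255 14 (.s k166 k247 12 (.s k243 k89 14 (.d k162 k174 k81 1
  12)))))] .n) .n))) (.c k16 (.q k12 [(.s k4 k8 1 (.s k42 k63 6 (.s k38 k55 4 (.s k51 k25 6 (.d k34
  k46 k17 1 4))))), (.s k8 k4 1 (.s k10 k5 2 (.s k9 k11 0 (.s k6 k3 2 (.d k14 k13 k2 0 1))))), (.s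
  k5 k10 2 (.s k63 k42 6 (.s k37 k53 3 (.s k13 k14 0 (.s k29 k46 4 (.d k25 k17 k49 1 5))))))] .n)
  (.c k26 (.q k12 [(.s k4 k8 1 (.s k42 k63 6 (.s k38 k55 4 (.s k34 k46 1 (.d k51 k17 k25 4 6))))),
  (.s k8 k4 1 (.s k10 k5 2 (.s k9 k11 0 (.s k6 k3 2 (.d k14 k13 k2 0 1))))), (.s k5 k10 2 (.s k37
  k53 3 (.s k13 k14 0 (.s k25 k49 5 (.s k17 k29 1 (.d k51 k38 k34 6 4))))))] (.c k154 (.q k218 [(.s
  k4 k8 1 (.s k42 k63 6 (.s k38 k55 4 (.s k34 k46 1 (.d k51 k17 k25 4 6))))), (.s k8 k4 1 (.s k10 k5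
  2 (.s k9 k11 0 (.s k6 k3 2 (.d k14 k13 k2 0 1))))), (.s k5 k10 2 (.s k37 k53 3 (.s k13 k14 0 (.s
  k25 k49 5 (.s k17 k29 1 (.d k51 k38 k34 6 4))))))] .n) (.c k218 (.q k154 [(.s k4 k8 1 (.s k42 k63
  6 (.s k38 k55 4 (.s k34 k46 1 (.d k51 k17 k25 4 6))))), (.s k8 k4 1 (.s k10 k5 2 (.s k9 k11 0 (.s
  k6 k3 2 (.d k14 k13 k2 0 1))))), (.s k5 k10 2 (.s k37 k53 3 (.s k13 k14 0 (.s k25 k49 5 (.s k17
  k29 1 (.d k51 k38 k34 6 4))))))] .n) .n))) (.c k31 (.l (.s k5 k10 2 (.s k42 k63 6 (.s k37 k53 3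
  (.s k48 k26 6 (.d k32 k47 k16 2 3)))))) (.c k37 (.q k12 [(.s k4 k8 1 (.s k42 k63 6 (.s k38 k55 4
  (.s k34 k46 1 (.d k51 k17 k25 4 6))))), (.s k8 k4 1 (.s k10 k5 2 (.s k9 k11 0 (.s k6 k3 2 (.d k14
  k13 k2 0 1))))), (.s k63 k42 6 (.s k13 k14 0 (.s k29 k46 4 (.s k45 k61 3 (.s k30 k60 4 (.d k31 k47
  k28 3 0))))))] .n) (.c k42 (.q k12 [(.s k8 k4 1 (.s k10 k5 2 (.s k9 k11 0 (.s k6 k3 2 (.d k14 k13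
  k2 0 1))))), (.s k4 k8 1 (.s k38 k55 4 (.s k13 k14 0 (.s k25 k51 6 (.s k37 k49 5 (.s k48 k26 6 (.d
  k36 k39 k24 0 5))))))), (.s k5 k10 2 (.s k37 k53 3 (.s k13 k14 0 (.s k25 k49 5 (.s k51 k38 6 (.d
  k17 k34 k29 4 1)))))), (.s k4 k8 1 (.s k5 k10 2 (.s k38 k55 4 (.s k37 k53 3 (.s k36 k39 0 (.d k48
  k26 k24 6 5))))))] (.c k10 (.l (.s k4 k8 1 (.s k38 k55 4 (.s k14 k13 0 (.s k26 k50 5 (.s k48 k37 6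
  (.d k16 k32 k31 3 2))))))) .n)) (.c k48 (.q k12 [(.s k4 k8 1 (.s k42 k63 6 (.s k38 k55 4 (.s k51
  k25 6 (.d k34 k46 k17 1 4))))), (.s k8 k4 1 (.s k10 k5 2 (.s k9 k11 0 (.s k6 k3 2 (.d k14 k13 k2 0
  1))))), (.s k5 k10 2 (.s k63 k42 6 (.s k37 k53 3 (.s k13 k14 0 (.s k29 k46 4 (.d k25 k17 k49 1
  5))))))] .n) (.c k53 (.l (.s k10 k5 2 (.s k42 k63 6 (.s k26 k58 3 (.s k48 k37 6 (.d k16 k31 k32 2
  3)))))) (.c k58 (.l (.s k5 k10 2 (.s k42 k63 6 (.s k37 k53 3 (.s k48 k26 6 (.d k32 k47 k16 2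
  3)))))) (.c k63 (.q k12 [(.s k8 k4 1 (.s k10 k5 2 (.s k9 k11 0 (.s k14 k13 0 (.d k6 k2 k3 1
  2))))), (.s k4 k8 1 (.s k38 k55 4 (.s k51 k25 6 (.s k39 k27 5 (.s k37 k36 0 (.s k26 k48 6 (.d k14
  k13 k50 0 5))))))), (.s k5 k10 2 (.s k37 k53 3 (.s k13 k14 0 (.s k25 k49 5 (.s k51 k38 6 (.d k17
  k29 k34 1 4)))))), (.s k4 k8 1 (.s k38 k55 4 (.s k51 k25 6 (.s k39 k27 5 (.s k37 k36 0 (.d k5 k10
  k53 2 3))))))] .n) .n))))))))))))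

def t2 : T TT 256 :=
  (.f k10 k5 2 (.q k74 [(.s k138 k202 7 (.s k69 k207 10 (.s k192 k133 10 (.d k64 k79 k128 2 7))))]
  (.c k64 (.l (.s k138 k202 7 (.s k207 k69 10 (.s k133 k192 10 (.d k143 k128 k79 2 7))))) (.c k69
  (.q k11 [(.s k8 k9 0 (.s k138 k202 7 (.s k73 k203 8 (.s k200 k137 8 (.d k72 k75 k136 0 7))))), (.s
  k3 k7 1 (.s k137 k200 8 (.s k70 k204 10 (.s k66 k78 1 (.d k192 k133 k129 10 8))))), (.s k8 k9 0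
  (.s k12 k4 1 (.s k138 k202 7 (.s k13 k14 0 (.s k133 k192 10 (.d k73 k203 k193 8 9))))))] (.c k133
  (.q k197 [(.s k3 k7 1 (.s k138 k202 7 (.s k137 k200 8 (.s k136 k139 0 (.d k204 k70 k68 10 9))))),
  (.s k8 k9 0 (.s k138 k202 7 (.s k73 k203 8 (.s k200 k137 8 (.d k72 k75 k136 0 7))))), (.s k3 k7 1
  (.s k202 k138 7 (.s k207 k192 2 (.s k139 k71 9 (.s k75 k203 7 (.s k135 k195 9 (.d k143 k131 k79 1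
  7))))))), (.s k8 k9 0 (.s k12 k4 1 (.s k200 k137 8 (.s k72 k136 7 (.s k73 k75 0 (.s k134 k195 10
  (.d k14 k13 k194 0 9)))))))] (.c k138 (.f k9 k8 0 (.l (.s k3 k7 1 (.s k137 k200 8 (.s k70 k204 10
  (.s k73 k201 7 (.s k67 k76 2 (.s k195 k131 7 (.d k12 k6 k134 2 10))))))))) .n)) (.c k197 (.l (.s
  k133 k192 10 (.s k3 k7 1 (.s k137 k200 8 (.s k204 k70 10 (.d k141 k129 k78 1 8)))))) .n))) (.c k79
  (.f k133 k192 10 (.q k11 [(.s k3 k7 1 (.s k137 k200 8 (.s k141 k129 1 (.d k204 k78 k70 8 10)))),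
  (.s k8 k9 0 (.s k138 k202 7 (.s k73 k203 8 (.s k200 k137 8 (.d k72 k75 k136 0 7))))), (.s k8 k9 0
  (.s k12 k4 1 (.s k138 k202 7 (.s k13 k14 0 (.d k73 k203 k193 8 9)))))] (.c k101 (.q k112 [(.s k3
  k7 1 (.s k137 k200 8 (.s k141 k129 1 (.d k204 k78 k70 8 10)))), (.s k8 k9 0 (.s k138 k202 7 (.s
  k73 k203 8 (.s k200 k137 8 (.d k72 k75 k136 0 7))))), (.s k8 k9 0 (.s k12 k4 1 (.s k138 k202 7 (.s
  k13 k14 0 (.d k73 k203 k193 8 9)))))] .n) (.c k112 (.q k101 [(.s k3 k7 1 (.s k137 k200 8 (.s k141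
  k129 1 (.d k204 k78 k70 8 10)))), (.s k8 k9 0 (.s k138 k202 7 (.s k73 k203 8 (.s k200 k137 8 (.d
  k72 k75 k136 0 7))))), (.s k8 k9 0 (.s k12 k4 1 (.s k138 k202 7 (.s k13 k14 0 (.d k73 k203 k193 8
  9)))))] .n) .n)))) (.c k128 (.q k11 [(.s k8 k9 0 (.s k138 k202 7 (.s k73 k203 8 (.s k200 k137 8
  (.d k72 k75 k136 0 7))))), (.s k3 k7 1 (.s k137 k200 8 (.s k70 k204 10 (.s k66 k78 1 (.d k192 k129
  k133 8 10))))), (.s k3 k7 1 (.s k8 k9 0 (.s k138 k202 7 (.s k207 k69 10 (.s k139 k71 9 (.d k203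
  k75 k73 7 8))))))] .n) (.c k133 (.q k11 [(.s k3 k7 1 (.s k138 k202 7 (.s k137 k200 8 (.s k136 k139
  0 (.d k204 k70 k68 10 9))))), (.s k8 k9 0 (.s k138 k202 7 (.s k73 k203 8 (.s k200 k137 8 (.d k72
  k75 k136 0 7))))), (.s k3 k7 1 (.s k8 k9 0 (.s k138 k202 7 (.s k203 k73 8 (.s k139 k75 7 (.d k207
  k69 k71 10 9)))))), (.s k8 k9 0 (.s k12 k4 1 (.s k200 k137 8 (.s k72 k136 7 (.s k73 k75 0 (.s k134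
  k195 10 (.d k14 k13 k194 0 9)))))))] (.c k69 (.q k197 [(.s k3 k7 1 (.s k138 k202 7 (.s k137 k200 8
  (.s k136 k139 0 (.d k204 k70 k68 10 9))))), (.s k8 k9 0 (.s k138 k202 7 (.s k73 k203 8 (.s k200
  k137 8 (.d k72 k75 k136 0 7))))), (.s k3 k7 1 (.s k202 k138 7 (.s k207 k192 2 (.s k139 k71 9 (.s
  k75 k203 7 (.s k135 k195 9 (.d k143 k131 k79 1 7))))))), (.s k8 k9 0 (.s k12 k4 1 (.s k200 k137 8
  (.s k72 k136 7 (.s k73 k75 0 (.s k134 k195 10 (.d k14 k13 k194 0 9)))))))] (.c k138 (.f k9 k8 0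
  (.l (.s k3 k7 1 (.s k137 k200 8 (.s k70 k204 10 (.s k73 k201 7 (.s k67 k76 2 (.s k195 k131 7 (.d
  k12 k6 k134 2 10))))))))) .n)) (.c k137 (.l (.s k8 k9 0 (.s k12 k4 1 (.s k138 k202 7 (.s k73 k203
  8 (.s k134 k195 10 (.d k14 k13 k194 0 9))))))) (.c k138 (.f k9 k8 0 (.l (.s k3 k7 1 (.s k137 k200
  8 (.s k70 k204 10 (.s k73 k201 7 (.s k67 k76 2 (.s k195 k131 7 (.d k12 k6 k134 2 10))))))))) (.c
  k197 (.q k69 [(.d k138 k202 k207 7 10), (.s k3 k7 1 (.s k137 k200 8 (.s k70 k204 10 (.s k64 k79 2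
  (.s k66 k78 1 (.d k192 k128 k129 7 8))))))] .n) (.c k201 (.l (.s k8 k9 0 (.s k138 k202 7 (.s k73
  k203 8 (.s k200 k137 8 (.d k72 k75 k136 0 7)))))) .n)))))) (.c k138 (.q k8 [(.s k11 k9 0 (.s k200
  k137 8 (.s k136 k72 7 (.s k204 k68 9 (.d k192 k196 k133 1 10))))), (.s k12 k4 1 (.s k13 k14 0 (.s
  k133 k192 10 (.s k73 k193 9 (.s k195 k134 10 (.d k75 k72 k135 0 9)))))), (.s k12 k4 1 (.s k192
  k133 10 (.s k72 k132 9 (.s k200 k136 7 (.d k11 k137 k9 8 0)))))] (.c k70 (.q k206 [(.s k12 k4 1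
  (.s k13 k14 0 (.s k133 k192 10 (.s k73 k193 9 (.s k75 k72 0 (.d k195 k135 k134 9 10)))))), (.s k11
  k9 0 (.s k200 k137 8 (.s k136 k72 7 (.s k204 k68 9 (.d k192 k196 k133 1 10))))), (.s k12 k4 1 (.s
  k192 k133 10 (.s k72 k132 9 (.s k200 k136 7 (.d k11 k137 k9 8 0)))))] (.c k72 (.l (.s k12 k4 1 (.s
  k14 k13 0 (.s k134 k194 9 (.s k195 k73 10 (.s k133 k192 10 (.d k135 k132 k75 0 9))))))) (.c k133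
  (.l (.s k12 k4 1 (.s k14 k13 0 (.s k134 k194 9 (.s k73 k195 10 (.s k72 k75 0 (.s k200 k136 7 (.d
  k11 k9 k137 0 8)))))))) (.c k192 (.l (.s k12 k4 1 (.s k11 k9 0 (.s k200 k137 8 (.s k136 k72 7 (.s
  k204 k68 9 (.s k78 k141 8 (.d k14 k13 k142 0 7)))))))) .n)))) (.c k72 (.l (.s k12 k4 1 (.s k14 k13
  0 (.s k134 k194 9 (.s k195 k73 10 (.s k133 k192 10 (.d k135 k132 k75 0 9))))))) (.c k133 (.l (.s
  k12 k4 1 (.s k14 k13 0 (.s k134 k194 9 (.s k73 k195 10 (.s k72 k75 0 (.s k200 k136 7 (.d k11 k9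
  k137 0 8)))))))) (.c k192 (.q k70 [(.s k11 k9 0 (.s k137 k200 8 (.d k3 k204 k7 10 1))), (.s k78
  k66 1 (.s k204 k141 8 (.s k136 k68 9 (.s k200 k72 7 (.d k137 k3 k11 10 8))))), (.s k12 k4 1 (.s k9
  k11 0 (.s k6 k3 2 (.s k134 k198 7 (.d k14 k13 k194 0 9)))))] (.c k3 (.l (.s k11 k9 0 (.s k200 k137
  8 (.s k136 k72 7 (.s k204 k68 9 (.d k78 k66 k141 1 8)))))) (.c k11 (.l (.s k12 k4 1 (.s k13 k14 0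
  (.s k78 k66 1 (.s k141 k204 8 (.s k77 k205 7 (.s k207 k142 8 (.d k79 k76 k143 0 7)))))))) .n)))
  (.c k206 (.q k70 [(.s k133 k192 10 (.s k7 k196 8 (.d k11 k9 k3 0 1))), (.s k11 k9 0 (.s k137 k200
  8 (.s k204 k3 10 (.d k78 k66 k141 1 8)))), (.s k192 k133 10 (.s k78 k66 1 (.s k204 k141 8 (.s k136
  k68 9 (.d k200 k196 k72 1 7))))), (.s k11 k9 0 (.s k7 k3 1 (.d k133 k196 k192 8 10)))] .n)
  .n)))))) (.c k192 (.q k11 [(.s k8 k9 0 (.s k138 k202 7 (.s k73 k203 8 (.s k200 k137 8 (.d k72 k75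
  k136 0 7))))), (.s k3 k7 1 (.s k137 k200 8 (.s k204 k70 10 (.s k136 k68 9 (.d k138 k139 k202 0
  7))))), (.s k3 k7 1 (.s k8 k9 0 (.s k138 k202 7 (.s k207 k69 10 (.s k139 k71 9 (.d k203 k75 k73 7
  8))))))] (.c k138 (.q k69 [(.s k3 k7 1 (.s k137 k200 8 (.s k205 k1 9 (.s k79 k64 2 (.s k207 k143 7
  (.d k204 k206 k70 0 10)))))), (.s k9 k8 0 (.s k137 k200 8 (.s k73 k201 7 (.s k65 k77 1 (.s k195
  k130 8 (.d k75 k72 k135 0 9)))))), (.s k3 k7 1 (.s k79 k64 2 (.s k207 k143 7 (.s k71 k139 9 (.s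
  k70 k68 0 (.s k78 k66 1 (.d k204 k137 k141 10 8)))))))] (.c k70 (.q k206 [(.s k137 k200 8 (.s k205
  k1 9 (.s k79 k64 2 (.d k207 k204 k143 0 7)))), (.s k9 k8 0 (.s k137 k200 8 (.s k73 k201 7 (.s k65
  k77 1 (.s k195 k130 8 (.d k75 k72 k135 0 9)))))), (.s k8 k9 0 (.s k12 k4 1 (.s k79 k64 2 (.s k207
  k143 7 (.s k142 k77 8 (.d k14 k13 k78 0 7))))))] (.c k9 (.l (.s k137 k200 8 (.s k79 k64 2 (.s k207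
  k143 7 (.d k205 k204 k1 0 9))))) .n)) (.c k137 (.f k3 k7 1 (.l (.s k8 k9 0 (.s k4 k12 1 (.s k199
  k134 8 (.s k79 k64 2 (.s k207 k143 7 (.s k139 k71 9 (.d k203 k195 k75 1 7))))))))) (.c k204 (.f k3
  k7 1 (.l (.s k8 k9 0 (.s k4 k12 1 (.s k199 k134 8 (.s k79 k64 2 (.s k207 k143 7 (.s k139 k71 9 (.d
  k203 k195 k75 1 7))))))))) (.c k206 (.q k70 [(.s k137 k200 8 (.d k3 k204 k7 10 1)), (.s k68 k71 0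
  (.s k204 k136 9 (.d k78 k66 k141 1 8))), (.s k3 k7 1 (.s k79 k64 2 (.s k207 k143 7 (.d k71 k68
  k139 0 9))))] .n) .n))))) (.c k202 (.l (.s k8 k9 0 (.s k12 k4 1 (.s k200 k137 8 (.s k72 k136 7 (.s
  k73 k75 0 (.s k134 k195 10 (.d k14 k13 k194 0 9)))))))) .n))) (.c k197 (.l (.s k138 k202 7 (.s k69
  k207 10 (.s k192 k133 10 (.d k64 k79 k128 2 7))))) (.c k202 (.q k11 [(.s k8 k9 0 (.s k200 k137 8
  (.s k136 k72 7 (.s k204 k68 9 (.d k192 k196 k133 1 10))))), (.s k3 k7 1 (.s k192 k133 10 (.s k66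
  k129 8 (.s k70 k78 1 (.d k137 k200 k204 8 10))))), (.s k8 k9 0 (.s k12 k4 1 (.s k200 k137 8 (.s
  k72 k136 7 (.s k73 k75 0 (.s k134 k195 10 (.d k14 k13 k194 0 9))))))), (.s k8 k9 0 (.s k12 k4 1
  (.s k13 k14 0 (.s k133 k192 10 (.s k73 k193 9 (.s k203 k138 8 (.d k75 k72 k139 0 7)))))))] .n) (.c
  k207 (.q k11 [(.s k3 k7 1 (.s k138 k202 7 (.s k137 k200 8 (.s k136 k139 0 (.d k204 k68 k70 9
  10))))), (.s k8 k9 0 (.s k138 k202 7 (.s k73 k203 8 (.s k200 k137 8 (.d k72 k75 k136 0 7))))), (.s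
  k3 k7 1 (.s k137 k200 8 (.s k70 k204 10 (.s k66 k78 1 (.d k192 k129 k133 8 10))))), (.s k8 k9 0
  (.s k12 k4 1 (.s k138 k202 7 (.s k192 k133 10 (.s k72 k132 9 (.d k73 k75 k203 0 8))))))] (.c k192
  (.l (.s k3 k7 1 (.s k137 k200 8 (.s k204 k70 10 (.s k136 k68 9 (.d k138 k139 k202 0 7)))))) .n))
  .n))))))))))))

def t3 : T TT 256 :=
  (.q k21 [(.s k10 k5 2 (.s k42 k63 6 (.s k26 k58 3 (.s k48 k37 6 (.d k16 k31 k32 2 3))))), (.s k5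
  k10 2 (.s k63 k42 6 (.s k37 k53 3 (.s k26 k48 6 (.d k31 k16 k47 2 3)))))] (.c k5 (.q k12 [(.s k4
  k8 1 (.s k42 k63 6 (.s k38 k55 4 (.s k51 k25 6 (.d k34 k46 k17 1 4))))), (.s k63 k42 6 (.s k14 k13
  0 (.s k46 k29 4 (.s k30 k62 3 (.s k45 k60 4 (.d k47 k44 k31 0 3)))))), (.s k4 k8 1 (.s k38 k55 4
  (.s k14 k13 0 (.s k26 k50 5 (.s k16 k31 2 (.d k48 k32 k37 3 6))))))] .n) (.c k10 (.q k12 [(.s k8
  k4 1 (.s k42 k63 6 (.s k25 k59 4 (.s k51 k38 6 (.d k17 k29 k34 1 4))))), (.s k63 k42 6 (.s k14 k13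
  0 (.s k46 k29 4 (.s k30 k62 3 (.s k45 k60 4 (.d k47 k44 k31 0 3)))))), (.s k4 k8 1 (.s k38 k55 4
  (.s k14 k13 0 (.s k26 k50 5 (.s k16 k31 2 (.d k48 k32 k37 3 6))))))] (.c k170 (.q k250 [(.s k8 k4
  1 (.s k42 k63 6 (.s k25 k59 4 (.s k51 k38 6 (.d k17 k29 k34 1 4))))), (.s k63 k42 6 (.s k14 k13 0
  (.s k46 k29 4 (.s k30 k62 3 (.s k45 k60 4 (.d k47 k44 k31 0 3)))))), (.s k4 k8 1 (.s k38 k55 4 (.s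
  k14 k13 0 (.s k26 k50 5 (.s k16 k31 2 (.d k48 k32 k37 3 6))))))] .n) (.c k250 (.q k170 [(.s k8 k4
  1 (.s k42 k63 6 (.s k25 k59 4 (.s k51 k38 6 (.d k17 k29 k34 1 4))))), (.s k63 k42 6 (.s k85 k255
  14 (.s k149 k213 7 (.s k192 k106 14 (.d k128 k191 k64 6 7))))), (.s k4 k8 1 (.s k85 k255 14 (.s
  k166 k247 12 (.s k243 k89 14 (.d k162 k174 k81 1 12)))))] .n) .n))) (.c k16 (.q k12 [(.s k4 k8 1
  (.s k42 k63 6 (.s k38 k55 4 (.s k51 k25 6 (.d k34 k46 k17 1 4))))), (.s k4 k8 1 (.s k5 k10 2 (.s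
  k38 k55 4 (.s k37 k53 3 (.s k14 k13 0 (.d k26 k50 k48 5 6)))))), (.s k5 k10 2 (.s k63 k42 6 (.s
  k37 k53 3 (.s k13 k14 0 (.s k29 k46 4 (.d k25 k17 k49 1 5))))))] (.c k38 (.l (.s k8 k4 1 (.s k5
  k10 2 (.s k42 k63 6 (.s k37 k53 3 (.s k25 k59 4 (.d k13 k14 k49 0 5))))))) .n)) (.c k26 (.q k12
  [(.s k4 k8 1 (.s k42 k63 6 (.s k38 k55 4 (.s k34 k46 1 (.d k51 k17 k25 4 6))))), (.s k63 k42 6 (.s
  k13 k14 0 (.s k29 k46 4 (.s k45 k61 3 (.s k30 k60 4 (.d k31 k28 k47 0 3)))))), (.s k4 k8 1 (.s k5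
  k10 2 (.s k38 k55 4 (.s k37 k53 3 (.s k13 k14 0 (.d k25 k49 k51 5 6))))))] (.c k38 (.l (.s k8 k4 1
  (.s k5 k10 2 (.s k42 k63 6 (.s k37 k53 3 (.s k25 k59 4 (.d k13 k14 k49 0 5))))))) (.c k42 (.l (.s
  k4 k8 1 (.s k38 k55 4 (.s k13 k14 0 (.s k25 k51 6 (.s k37 k49 5 (.d k5 k10 k53 2 3))))))) (.c k154
  (.q k218 [(.s k4 k8 1 (.s k42 k63 6 (.s k38 k55 4 (.s k34 k46 1 (.d k51 k17 k25 4 6))))), (.s k63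
  k42 6 (.s k13 k14 0 (.s k29 k46 4 (.s k45 k61 3 (.s k30 k60 4 (.d k31 k28 k47 0 3)))))), (.s k4 k8
  1 (.s k5 k10 2 (.s k38 k55 4 (.s k37 k53 3 (.s k13 k14 0 (.d k25 k49 k51 5 6))))))] (.c k38 (.l
  (.s k8 k4 1 (.s k5 k10 2 (.s k42 k63 6 (.s k37 k53 3 (.s k25 k59 4 (.d k13 k14 k49 0 5))))))) (.c
  k42 (.l (.s k4 k8 1 (.s k38 k55 4 (.s k13 k14 0 (.s k25 k51 6 (.s k37 k49 5 (.d k5 k10 k53 2
  3))))))) .n))) (.c k218 (.q k154 [(.s k4 k8 1 (.s k42 k63 6 (.s k38 k55 4 (.s k34 k46 1 (.d k51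
  k17 k25 4 6))))), (.s k63 k42 6 (.s k13 k14 0 (.s k29 k46 4 (.s k45 k61 3 (.s k30 k60 4 (.d k31
  k28 k47 0 3)))))), (.s k4 k8 1 (.s k5 k10 2 (.s k38 k55 4 (.s k37 k53 3 (.s k13 k14 0 (.d k25 k49
  k51 5 6))))))] (.c k38 (.l (.s k8 k4 1 (.s k5 k10 2 (.s k42 k63 6 (.s k37 k53 3 (.s k25 k59 4 (.d
  k13 k14 k49 0 5))))))) (.c k42 (.l (.s k4 k8 1 (.s k38 k55 4 (.s k13 k14 0 (.s k25 k51 6 (.s k37
  k49 5 (.d k5 k10 k53 2 3))))))) .n))) .n))))) (.c k31 (.l (.s k5 k10 2 (.s k42 k63 6 (.s k37 k53 3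
  (.s k48 k26 6 (.d k32 k47 k16 2 3)))))) (.c k37 (.q k12 [(.s k4 k8 1 (.s k42 k63 6 (.s k38 k55 4
  (.s k34 k46 1 (.d k51 k17 k25 4 6))))), (.s k5 k10 2 (.s k63 k42 6 (.s k13 k14 0 (.s k29 k46 4 (.s
  k61 k45 3 (.d k1 k41 k9 5 1)))))), (.s k5 k10 2 (.s k63 k42 6 (.s k13 k14 0 (.s k1 k9 1 (.s k61
  k41 5 (.d k29 k45 k46 3 4))))))] (.c k42 (.q k47 [(.s k4 k8 1 (.s k38 k55 4 (.s k14 k13 0 (.s k26
  k50 5 (.d k31 k16 k63 2 3))))), (.s k63 k31 3 (.s k46 k29 4 (.s k45 k44 0 (.s k30 k60 4 (.d k14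
  k13 k62 0 3))))), (.s k4 k8 1 (.s k38 k55 4 (.s k25 k51 6 (.s k63 k31 3 (.d k29 k17 k46 1 4)))))]
  (.c k31 (.l (.s k4 k8 1 (.s k38 k55 4 (.s k13 k14 0 (.s k25 k51 6 (.s k29 k17 1 (.s k45 k61 3 (.d
  k46 k63 k44 4 0)))))))) (.c k63 (.l (.s k5 k10 2 (.s k13 k14 0 (.s k1 k9 1 (.s k61 k41 5 (.s k45
  k29 3 (.s k60 k30 4 (.d k44 k46 k28 0 3)))))))) .n))) (.c k46 (.l (.s k8 k4 1 (.s k42 k63 6 (.s
  k25 k59 4 (.s k51 k38 6 (.d k17 k29 k34 1 4)))))) (.c k63 (.q k23 [(.s k4 k8 1 (.s k5 k10 2 (.s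
  k55 k38 4 (.d k7 k39 k6 3 0)))), (.s k20 k22 0 (.s k60 k40 5 (.s k28 k44 3 (.s k30 k45 4 (.s k31
  k29 0 (.d k16 k24 k26 1 2)))))), (.s k4 k8 1 (.s k10 k5 2 (.s k38 k55 4 (.s k14 k13 0 (.s k6 k2 1
  (.d k22 k20 k54 0 3))))))] .n) .n)))) (.c k42 (.q k12 [(.s k4 k8 1 (.s k38 k55 4 (.s k14 k13 0 (.s
  k26 k50 5 (.s k48 k37 6 (.d k16 k32 k31 3 2)))))), (.s k5 k10 2 (.s k37 k53 3 (.s k13 k14 0 (.s
  k25 k49 5 (.s k51 k38 6 (.d k17 k34 k29 4 1)))))), (.s k4 k8 1 (.s k5 k10 2 (.s k38 k55 4 (.s k37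
  k53 3 (.s k36 k39 0 (.d k48 k26 k24 6 5))))))] (.c k25 (.l (.s k5 k10 2 (.s k37 k53 3 (.s k14 k13
  0 (.s k26 k48 6 (.s k38 k50 5 (.d k4 k8 k55 1 4))))))) (.c k26 (.l (.s k4 k8 1 (.s k38 k55 4 (.s
  k13 k14 0 (.s k25 k51 6 (.s k37 k49 5 (.d k5 k10 k53 2 3))))))) (.c k37 (.q k47 [(.s k4 k8 1 (.s
  k38 k55 4 (.s k14 k13 0 (.s k26 k50 5 (.d k31 k16 k63 2 3))))), (.s k63 k31 3 (.s k46 k29 4 (.s
  k45 k44 0 (.s k30 k60 4 (.d k14 k13 k62 0 3))))), (.s k4 k8 1 (.s k38 k55 4 (.s k25 k51 6 (.s k63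
  k31 3 (.d k29 k17 k46 1 4)))))] (.c k31 (.l (.s k4 k8 1 (.s k38 k55 4 (.s k13 k14 0 (.s k25 k51 6
  (.s k29 k17 1 (.s k45 k61 3 (.d k46 k63 k44 4 0)))))))) (.c k63 (.l (.s k5 k10 2 (.s k13 k14 0 (.s
  k1 k9 1 (.s k61 k41 5 (.s k45 k29 3 (.s k60 k30 4 (.d k44 k46 k28 0 3)))))))) .n))) (.c k38 (.l
  (.s k5 k10 2 (.s k37 k53 3 (.s k13 k14 0 (.s k1 k9 1 (.s k41 k61 5 (.s k49 k25 5 (.d k33 k45 k17 1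
  3)))))))) .n))))) (.c k48 (.q k12 [(.s k4 k8 1 (.s k42 k63 6 (.s k38 k55 4 (.s k51 k25 6 (.d k34
  k46 k17 1 4))))), (.s k4 k8 1 (.s k63 k42 6 (.s k38 k55 4 (.s k14 k13 0 (.s k31 k47 3 (.d k26 k16
  k50 2 5)))))), (.s k5 k10 2 (.s k63 k42 6 (.s k37 k53 3 (.s k13 k14 0 (.s k29 k46 4 (.d k25 k17
  k49 1 5))))))] (.c k18 (.q k33 [(.s k4 k8 1 (.s k42 k63 6 (.s k38 k55 4 (.s k51 k25 6 (.d k34 k46
  k17 1 4))))), (.s k5 k10 2 (.s k37 k53 3 (.s k13 k14 0 (.s k1 k9 1 (.d k41 k45 k61 1 5))))), (.s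
  k4 k8 1 (.s k63 k42 6 (.s k38 k55 4 (.s k25 k51 6 (.d k29 k17 k46 1 4)))))] (.c k8 (.l (.s k5 k10
  2 (.s k37 k53 3 (.s k13 k14 0 (.s k49 k25 5 (.d k1 k9 k17 1 3)))))) (.c k63 (.l (.s k5 k10 2 (.s
  k13 k14 0 (.s k1 k9 1 (.s k49 k17 3 (.d k37 k53 k25 3 5)))))) .n))) (.c k25 (.l (.s k4 k8 1 (.s
  k10 k5 2 (.s k42 k63 6 (.s k38 k55 4 (.s k14 k13 0 (.d k26 k58 k50 3 5))))))) (.c k33 (.q k18 [(.s
  k4 k8 1 (.s k42 k63 6 (.s k38 k55 4 (.s k51 k25 6 (.d k34 k46 k17 1 4))))), (.s k63 k42 6 (.s k29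
  k46 4 (.s k31 k47 3 (.s k26 k16 2 (.d k30 k28 k22 0 1))))), (.s k4 k8 1 (.s k5 k10 2 (.s k38 k55 4
  (.s k37 k53 3 (.s k13 k14 0 (.d k25 k49 k51 5 6))))))] (.c k38 (.l (.s k63 k42 6 (.s k31 k47 3 (.s
  k16 k26 2 (.s k17 k19 0 (.d k29 k46 k25 4 1)))))) (.c k63 (.l (.s k4 k8 1 (.s k5 k10 2 (.s k38 k55
  4 (.s k51 k25 6 (.s k39 k27 5 (.d k37 k36 k53 0 3))))))) .n))) (.c k38 (.l (.s k8 k4 1 (.s k5 k10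
  2 (.s k42 k63 6 (.s k25 k59 4 (.s k13 k14 0 (.d k37 k53 k49 3 5))))))) (.c k42 (.l (.s k4 k8 1 (.s
  k5 k10 2 (.s k38 k55 4 (.s k37 k53 3 (.s k13 k14 0 (.d k25 k49 k51 5 6))))))) (.c k63 (.l (.s k4
  k8 1 (.s k5 k10 2 (.s k38 k55 4 (.s k51 k25 6 (.s k39 k27 5 (.d k37 k36 k53 0 3))))))) .n)))))))
  (.c k53 (.l (.s k10 k5 2 (.s k42 k63 6 (.s k26 k58 3 (.s k48 k37 6 (.d k16 k31 k32 2 3)))))) (.c
  k58 (.l (.s k5 k10 2 (.s k42 k63 6 (.s k37 k53 3 (.s k48 k26 6 (.d k32 k47 k16 2 3)))))) (.c k63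
  (.q k12 [(.s k4 k8 1 (.s k38 k55 4 (.s k14 k13 0 (.s k26 k50 5 (.s k48 k37 6 (.d k16 k31 k32 2
  3)))))), (.s k4 k8 1 (.s k5 k10 2 (.s k7 k6 0 (.s k37 k53 3 (.s k48 k26 6 (.s k36 k24 5 (.d k52
  k20 k22 3 4))))))), (.s k5 k10 2 (.s k37 k53 3 (.s k13 k14 0 (.s k25 k49 5 (.s k51 k38 6 (.d k17
  k29 k34 1 4)))))), (.s k4 k8 1 (.s k5 k10 2 (.s k38 k55 4 (.s k37 k53 3 (.s k51 k25 6 (.d k39 k36
  k27 0 5))))))] (.c k23 (.q k43 [(.s k4 k8 1 (.s k38 k55 4 (.s k14 k13 0 (.s k26 k50 5 (.s k48 k37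
  6 (.d k16 k31 k32 2 3)))))), (.s k4 k8 1 (.s k5 k10 2 (.s k7 k6 0 (.s k37 k53 3 (.s k48 k26 6 (.s
  k36 k24 5 (.d k52 k20 k22 3 4))))))), (.s k8 k4 1 (.s k10 k5 2 (.s k11 k9 0 (.s k27 k59 3 (.s k51
  k39 5 (.s k17 k34 4 (.d k25 k29 k38 1 6))))))), (.s k5 k10 2 (.s k37 k53 3 (.s k13 k14 0 (.s k25
  k49 5 (.s k51 k38 6 (.d k17 k29 k34 1 4))))))] (.c k25 (.l (.s k4 k8 1 (.s k5 k10 2 (.s k38 k55 4
  (.s k37 k53 3 (.s k14 k13 0 (.d k26 k48 k50 6 5))))))) .n)) (.c k25 (.l (.s k4 k8 1 (.s k5 k10 2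
  (.s k38 k55 4 (.s k37 k53 3 (.s k14 k13 0 (.d k26 k48 k50 6 5))))))) (.c k37 (.q k23 [(.s k4 k8 1
  (.s k5 k10 2 (.s k55 k38 4 (.d k7 k39 k6 3 0)))), (.s k20 k22 0 (.s k60 k40 5 (.s k28 k44 3 (.s
  k30 k45 4 (.s k31 k29 0 (.d k16 k24 k26 1 2)))))), (.s k4 k8 1 (.s k10 k5 2 (.s k38 k55 4 (.s k14
  k13 0 (.s k6 k2 1 (.d k22 k20 k54 0 3))))))] .n) (.c k43 (.q k23 [(.s k4 k8 1 (.s k5 k10 2 (.s k55
  k38 4 (.d k7 k6 k39 0 3)))), (.s k4 k8 1 (.s k38 k55 4 (.s k14 k13 0 (.s k26 k50 5 (.s k48 k37 6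
  (.d k16 k31 k32 2 3)))))), (.s k5 k10 2 (.s k37 k53 3 (.s k13 k14 0 (.s k25 k49 5 (.s k51 k38 6
  (.d k17 k29 k34 1 4))))))] (.c k38 (.l (.s k4 k8 1 (.s k5 k10 2 (.s k7 k6 0 (.s k37 k53 3 (.d k22
  k20 k52 0 4)))))) .n)) (.c k48 (.l (.s k4 k8 1 (.s k5 k10 2 (.s k38 k55 4 (.s k51 k25 6 (.s k39
  k27 5 (.d k37 k36 k53 0 3))))))) .n)))))) .n))))))))))))

def t5_1 : T TT 256 :=
  (.q k63 [(.s k7 k11 1 (.s k23 k43 5 (.s k39 k55 3 (.s k27 k51 5 (.d k31 k19 k47 1 3))))), (.s k21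
  k42 6 (.s k23 k43 5 (.s k31 k47 3 (.s k26 k16 2 (.s k22 k20 0 (.s k18 k30 1 (.d k48 k37 k33 6
  4))))))), (.s k42 k21 6 (.s k7 k11 1 (.s k47 k31 3 (.s k37 k32 2 (.s k22 k52 4 (.s k62 k2 5 (.d
  k60 k61 k41 0 6))))))), (.s k42 k21 6 (.s k11 k7 1 (.s k43 k23 5 (.s k41 k40 0 (.s k26 k56 4 (.s
  k58 k10 3 (.d k48 k53 k37 2 6)))))))] (.c k9 (.q k13 [(.s k11 k7 1 (.s k43 k23 5 (.s k27 k59 3 (.s
  k39 k51 5 (.d k47 k35 k31 1 3))))), (.s k12 k14 0 (.s k29 k46 4 (.s k45 k61 3 (.s k30 k60 4 (.d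
  k31 k28 k47 0 3))))), (.s k21 k42 6 (.s k23 k43 5 (.s k12 k14 0 (.s k4 k8 1 (.s k55 k38 4 (.d k7
  k11 k39 1 3))))))] .n) (.c k13 (.q k9 [(.s k11 k7 1 (.s k8 k10 0 (.d k12 k4 k6 1 2))), (.s k7 k11
  1 (.s k23 k43 5 (.s k39 k55 3 (.s k27 k51 5 (.d k31 k19 k47 1 3)))))] (.c k7 (.l (.s k21 k42 6 (.s
  k12 k6 2 (.s k4 k8 1 (.s k38 k55 4 (.s k25 k51 6 (.d k29 k17 k46 1 4))))))) (.c k11 (.l (.s k21
  k42 6 (.s k12 k6 2 (.s k4 k8 1 (.s k38 k55 4 (.s k25 k51 6 (.d k29 k17 k46 1 4))))))) .n))) .n)))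

def t5_2 : T TT 256 :=
  (.q k63 [(.s k7 k11 1 (.s k23 k43 5 (.s k39 k55 3 (.s k27 k51 5 (.d k31 k19 k47 1 3))))), (.s k21
  k42 6 (.s k11 k7 1 (.s k31 k47 3 (.s k26 k16 2 (.s k41 k56 4 (.s k61 k1 5 (.d k60 k62 k22 0
  6))))))), (.s k21 k42 6 (.s k23 k43 5 (.s k31 k47 3 (.s k26 k16 2 (.s k22 k20 0 (.s k18 k30 1 (.d
  k48 k37 k33 6 4))))))), (.s k42 k21 6 (.s k11 k7 1 (.s k43 k23 5 (.s k41 k40 0 (.s k26 k56 4 (.s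
  k58 k10 3 (.d k48 k53 k37 2 6)))))))] .n)

def t5_4 : T TT 256 :=
  (.f k1 k2 0 (.q k48 [(.s k32 k16 3 (.s k33 k18 4 (.s k17 k49 3 (.d k34 k35 k51 0 4)))), (.s k16
  k32 3 (.s k26 k37 6 (.s k21 k31 2 (.s k41 k61 5 (.d k11 k7 k56 1 4))))), (.s k7 k11 1 (.s k33 k18
  4 (.s k37 k26 6 (.s k22 k52 4 (.d k41 k45 k60 1 6)))))] (.c k6 (.l (.s k7 k11 1 (.s k32 k16 3 (.s
  k33 k18 4 (.s k17 k49 3 (.d k34 k35 k51 0 4)))))) (.c k7 (.q k6 [(.s k32 k16 3 (.s k33 k18 4 (.s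
  k17 k49 3 (.d k34 k35 k51 0 4)))), (.s k16 k32 3 (.s k26 k37 6 (.s k21 k31 2 (.s k41 k61 5 (.s k56
  k11 4 (.d k60 k52 k22 1 6)))))), (.s k12 k9 2 (.s k33 k18 4 (.s k13 k14 0 (.s k37 k26 6 (.d k49
  k17 k25 3 5)))))] .n) .n))))

def t5_6 : T TT 256 :=
  (.f k7 k11 1 (.q k22 [(.s k60 k41 6 (.s k37 k52 4 (.s k26 k48 6 (.d k30 k18 k45 1 4)))), (.s k1 k2
  0 (.s k41 k60 6 (.s k21 k61 5 (.s k63 k42 6 (.d k23 k20 k43 0 5))))), (.s k2 k1 0 (.s k42 k62 5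
  (.s k37 k52 4 (.s k32 k47 2 (.d k48 k16 k26 3 6)))))] (.c k169 (.q k248 [(.s k41 k60 6 (.s k37 k52
  4 (.s k33 k45 1 (.d k48 k18 k26 4 6)))), (.s k1 k2 0 (.s k41 k60 6 (.s k21 k61 5 (.s k63 k42 6 (.d
  k23 k20 k43 0 5))))), (.s k2 k1 0 (.s k42 k62 5 (.s k37 k52 4 (.s k32 k47 2 (.d k48 k16 k26 3
  6)))))] .n) (.c k248 (.q k169 [(.s k60 k41 6 (.s k37 k52 4 (.s k26 k48 6 (.d k30 k18 k45 1 4)))),
  (.s k1 k2 0 (.s k85 k253 13 (.s k170 k255 14 (.s k252 k86 14 (.d k168 k171 k84 0 13)))))] .n)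
  .n))))

def t5_7 : T TT 256 :=
  (.q k48 [(.s k1 k2 0 (.s k32 k16 3 (.s k33 k18 4 (.s k17 k49 3 (.d k34 k35 k51 0 4))))), (.s k1 k2
  0 (.s k16 k32 3 (.s k26 k37 6 (.s k21 k31 2 (.s k41 k61 5 (.s k56 k11 4 (.d k60 k52 k22 1
  6))))))), (.s k16 k32 3 (.s k18 k33 4 (.s k26 k37 6 (.s k21 k31 2 (.s k22 k30 1 (.s k20 k23 0 (.d
  k60 k41 k40 6 5))))))), (.s k2 k1 0 (.s k18 k33 4 (.s k26 k37 6 (.s k22 k30 1 (.s k42 k62 5 (.s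
  k58 k10 3 (.d k63 k53 k21 2 6)))))))] (.c k4 (.q k6 [(.s k2 k1 0 (.s k14 k10 1 (.d k12 k13 k9 0
  2))), (.s k1 k2 0 (.s k32 k16 3 (.s k33 k18 4 (.s k17 k49 3 (.d k34 k35 k51 0 4)))))] (.c k1 (.l
  (.s k12 k9 2 (.s k13 k14 0 (.s k36 k24 5 (.s k37 k26 6 (.s k25 k49 5 (.d k38 k39 k51 0 6)))))))
  (.c k2 (.l (.s k12 k9 2 (.s k18 k33 4 (.s k26 k37 6 (.s k22 k30 1 (.s k38 k54 3 (.d k14 k13 k50 0
  5))))))) .n))) (.c k6 (.q k4 [(.s k1 k2 0 (.s k32 k16 3 (.s k33 k18 4 (.s k17 k49 3 (.d k34 k35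
  k51 0 4))))), (.s k12 k8 1 (.s k32 k16 3 (.s k36 k24 5 (.s k20 k52 3 (.d k40 k44 k60 1 5)))))] (.c
  k16 (.l (.s k2 k1 0 (.s k12 k8 1 (.s k18 k33 4 (.s k50 k34 3 (.s k26 k37 6 (.d k14 k13 k38 0
  5))))))) (.c k32 (.l (.s k1 k2 0 (.s k12 k8 1 (.s k33 k18 4 (.s k49 k17 3 (.s k37 k26 6 (.d k13
  k14 k25 0 5))))))) .n))) .n)))

def t5_8 : T TT 256 :=
  (.q k63 [(.s k1 k2 0 (.s k21 k42 6 (.s k41 k61 5 (.s k22 k60 6 (.d k23 k20 k43 0 5))))), (.s k7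
  k11 1 (.s k23 k43 5 (.s k39 k55 3 (.s k27 k51 5 (.d k31 k19 k47 1 3))))), (.s k1 k2 0 (.s k21 k42
  6 (.s k41 k61 5 (.s k11 k7 1 (.s k26 k56 4 (.d k31 k16 k47 2 3))))))] (.c k59 (.l (.s k2 k1 0 (.s
  k42 k21 6 (.s k22 k62 5 (.s k41 k60 6 (.d k43 k40 k23 0 5)))))) .n))

def t5_9 : T TT 256 :=
  (.q k63 [(.s k1 k2 0 (.s k21 k42 6 (.s k41 k61 5 (.s k22 k60 6 (.d k23 k20 k43 0 5))))), (.s k7
  k11 1 (.s k23 k43 5 (.s k39 k55 3 (.s k27 k51 5 (.d k31 k19 k47 1 3))))), (.s k1 k2 0 (.s k21 k42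
  6 (.s k41 k61 5 (.s k11 k7 1 (.s k26 k56 4 (.d k31 k16 k47 2 3))))))] (.c k1 (.q k13 [(.s k11 k7 1
  (.s k43 k23 5 (.s k27 k59 3 (.s k39 k51 5 (.d k47 k35 k31 1 3))))), (.s k12 k14 0 (.s k29 k46 4
  (.s k45 k61 3 (.s k30 k60 4 (.d k31 k28 k47 0 3))))), (.s k21 k42 6 (.s k23 k43 5 (.s k12 k14 0
  (.s k4 k8 1 (.s k55 k38 4 (.d k7 k11 k39 1 3))))))] .n) (.c k13 (.l (.s k1 k2 0 (.s k21 k42 6 (.s
  k41 k61 5 (.s k22 k60 6 (.d k23 k20 k43 0 5)))))) .n)))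

def t5_10 : T TT 256 :=
  (.q k63 [(.s k1 k2 0 (.s k21 k42 6 (.s k41 k61 5 (.s k22 k60 6 (.d k23 k20 k43 0 5))))), (.s k7
  k11 1 (.s k23 k43 5 (.s k39 k55 3 (.s k27 k51 5 (.d k31 k19 k47 1 3))))), (.s k1 k2 0 (.s k21 k42
  6 (.s k41 k61 5 (.s k11 k7 1 (.s k26 k56 4 (.d k31 k16 k47 2 3))))))] (.c k170 (.q k250 [(.s k7
  k11 1 (.s k23 k43 5 (.s k39 k55 3 (.s k27 k51 5 (.d k31 k19 k47 1 3))))), (.s k1 k2 0 (.s k21 k42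
  6 (.s k41 k61 5 (.s k22 k60 6 (.d k23 k20 k43 0 5))))), (.s k1 k2 0 (.s k21 k42 6 (.s k41 k61 5
  (.s k11 k7 1 (.s k26 k56 4 (.d k31 k16 k47 2 3))))))] .n) (.c k250 (.q k170 [(.s k1 k2 0 (.s k21
  k42 6 (.s k41 k61 5 (.s k22 k60 6 (.d k23 k20 k43 0 5))))), (.s k21 k42 6 (.s k85 k255 14 (.s k149
  k213 7 (.s k192 k106 14 (.d k128 k191 k64 6 7))))), (.s k1 k2 0 (.s k85 k255 14 (.s k169 k253 13
  (.s k252 k86 14 (.d k168 k171 k84 0 13)))))] .n) .n)))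

def t5_11 : T TT 256 :=
  (.q k48 [(.s k1 k2 0 (.s k32 k16 3 (.s k33 k18 4 (.s k17 k49 3 (.d k34 k35 k51 0 4))))), (.s k2 k1
  0 (.s k32 k16 3 (.s k37 k26 6 (.s k42 k47 2 (.s k22 k62 5 (.s k52 k7 4 (.d k60 k56 k41 1 6))))))),
  (.s k16 k32 3 (.s k18 k33 4 (.s k26 k37 6 (.s k21 k31 2 (.s k22 k30 1 (.s k20 k23 0 (.d k60 k41
  k40 6 5))))))), (.s k2 k1 0 (.s k18 k33 4 (.s k26 k37 6 (.s k22 k30 1 (.s k42 k62 5 (.s k58 k10 3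
  (.d k63 k53 k21 2 6)))))))] (.c k169 (.q k248 [(.s k1 k2 0 (.s k32 k16 3 (.s k33 k18 4 (.s k17 k49
  3 (.d k34 k35 k51 0 4))))), (.s k2 k1 0 (.s k32 k16 3 (.s k37 k26 6 (.s k42 k47 2 (.s k22 k62 5
  (.s k52 k7 4 (.d k60 k56 k41 1 6))))))), (.s k16 k32 3 (.s k18 k33 4 (.s k26 k37 6 (.s k21 k31 2
  (.s k22 k30 1 (.s k20 k23 0 (.d k60 k41 k40 6 5))))))), (.s k2 k1 0 (.s k18 k33 4 (.s k26 k37 6
  (.s k22 k30 1 (.s k42 k62 5 (.s k58 k10 3 (.d k63 k53 k21 2 6)))))))] .n) (.c k248 (.q k169 [(.s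
  k1 k2 0 (.s k32 k16 3 (.s k33 k18 4 (.s k17 k49 3 (.d k34 k35 k51 0 4))))), (.s k18 k33 4 (.s k86
  k252 14 (.s k154 k222 9 (.s k207 k101 14 (.d k139 k184 k71 4 9))))), (.s k1 k2 0 (.s k85 k253 13
  (.s k170 k255 14 (.s k252 k86 14 (.d k168 k171 k84 0 13)))))] .n) .n)))

def t5_12 : T TT 256 :=
  (.q k22 [(.s k1 k2 0 (.s k41 k60 6 (.s k21 k61 5 (.s k63 k42 6 (.d k23 k20 k43 0 5))))), (.s k7
  k11 1 (.s k41 k60 6 (.s k37 k52 4 (.s k48 k26 6 (.d k33 k45 k18 1 4))))), (.s k2 k1 0 (.s k42 k62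
  5 (.s k7 k11 1 (.s k37 k52 4 (.s k32 k47 2 (.d k48 k16 k26 3 6))))))] .n)

def t5_13 : T TT 256 :=
  (.q k22 [(.s k1 k2 0 (.s k41 k60 6 (.s k21 k61 5 (.s k63 k42 6 (.d k23 k20 k43 0 5))))), (.s k7
  k11 1 (.s k41 k60 6 (.s k37 k52 4 (.s k48 k26 6 (.d k33 k45 k18 1 4))))), (.s k7 k11 1 (.s k37 k52
  4 (.s k48 k26 6 (.s k32 k16 3 (.s k42 k47 2 (.d k2 k1 k62 0 5))))))] (.c k1 (.q k9 [(.s k11 k7 1
  (.s k8 k10 0 (.d k12 k4 k6 1 2))), (.s k7 k11 1 (.s k41 k60 6 (.s k37 k52 4 (.s k48 k26 6 (.d k33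
  k45 k18 1 4))))), (.s k41 k60 6 (.s k25 k57 3 (.s k19 k28 2 (.s k51 k35 3 (.d k12 k6 k38 2 6)))))]
  .n) (.c k9 (.l (.s k1 k2 0 (.s k41 k60 6 (.s k21 k61 5 (.s k63 k42 6 (.d k23 k20 k43 0 5)))))) (.c
  k41 (.q k9 [(.s k11 k7 1 (.s k8 k10 0 (.d k12 k4 k6 1 2))), (.s k2 k1 0 (.s k42 k62 5 (.s k7 k11 1
  (.s k37 k52 4 (.s k32 k47 2 (.d k48 k26 k16 6 3)))))), (.s k2 k1 0 (.s k42 k62 5 (.s k6 k12 2 (.s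
  k10 k14 1 (.s k26 k58 3 (.s k48 k37 6 (.d k18 k30 k33 1 4)))))))] .n) .n))))

def t5_14 : T TT 256 :=
  (.q k22 [(.s k1 k2 0 (.s k41 k60 6 (.s k21 k61 5 (.s k63 k42 6 (.d k23 k20 k43 0 5))))), (.s k7
  k11 1 (.s k41 k60 6 (.s k37 k52 4 (.s k48 k26 6 (.d k33 k45 k18 1 4))))), (.s k2 k1 0 (.s k42 k62
  5 (.s k7 k11 1 (.s k37 k52 4 (.s k32 k47 2 (.d k48 k16 k26 3 6))))))] (.c k166 (.q k242 [(.s k1 k2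
  0 (.s k41 k60 6 (.s k21 k61 5 (.s k63 k42 6 (.d k23 k20 k43 0 5))))), (.s k7 k11 1 (.s k41 k60 6
  (.s k37 k52 4 (.s k48 k26 6 (.d k33 k45 k18 1 4))))), (.s k2 k1 0 (.s k42 k62 5 (.s k7 k11 1 (.s
  k37 k52 4 (.s k32 k47 2 (.d k48 k16 k26 3 6))))))] .n) (.c k242 (.q k166 [(.s k1 k2 0 (.s k41 k60
  6 (.s k21 k61 5 (.s k63 k42 6 (.d k23 k20 k43 0 5))))), (.s k7 k11 1 (.s k41 k60 6 (.s k37 k52 4
  (.s k48 k26 6 (.d k33 k45 k18 1 4))))), (.s k2 k1 0 (.s k42 k62 5 (.s k7 k11 1 (.s k37 k52 4 (.s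
  k32 k47 2 (.d k48 k16 k26 3 6))))))] .n) .n)))

def t5_16 : T TT 256 :=
  (.q k22 [(.s k1 k2 0 (.s k41 k60 6 (.s k21 k61 5 (.s k63 k42 6 (.d k23 k20 k43 0 5))))), (.s k7
  k11 1 (.s k41 k60 6 (.s k37 k52 4 (.s k33 k45 1 (.d k48 k18 k26 4 6))))), (.s k2 k1 0 (.s k42 k62
  5 (.s k7 k11 1 (.s k37 k52 4 (.s k47 k32 2 (.d k63 k31 k21 3 6))))))] .n)

def t5_17 : T TT 256 :=
  (.q k22 [(.s k1 k2 0 (.s k41 k60 6 (.s k21 k61 5 (.s k63 k42 6 (.d k23 k20 k43 0 5))))), (.s k7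
  k11 1 (.s k41 k60 6 (.s k37 k52 4 (.s k48 k26 6 (.d k33 k45 k18 1 4))))), (.s k2 k1 0 (.s k42 k62
  5 (.s k7 k11 1 (.s k37 k52 4 (.s k32 k47 2 (.d k48 k16 k26 3 6))))))] .n)

def t5_18 : T TT 256 :=
  (.q k22 [(.s k1 k2 0 (.s k41 k60 6 (.s k21 k61 5 (.s k63 k42 6 (.d k23 k20 k43 0 5))))), (.s k2 k1
  0 (.s k42 k62 5 (.s k7 k11 1 (.s k37 k52 4 (.s k32 k47 2 (.d k48 k16 k26 3 6))))))] (.c k1 (.f k7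
  k11 1 (.l (.s k41 k60 6 (.s k37 k52 4 (.s k48 k26 6 (.s k32 k16 3 (.s k42 k47 2 (.s k43 k40 0 (.d
  k63 k21 k23 6 5))))))))) (.c k2 (.f k7 k11 1 (.l (.s k41 k60 6 (.s k37 k52 4 (.s k48 k26 6 (.s k32
  k16 3 (.s k42 k47 2 (.s k43 k40 0 (.d k63 k21 k23 6 5))))))))) (.c k42 (.l (.s k1 k2 0 (.s k11 k7
  1 (.s k41 k60 6 (.s k21 k61 5 (.s k26 k56 4 (.s k48 k37 6 (.d k16 k32 k31 3 2)))))))) (.c k62 (.l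
  (.s k1 k2 0 (.s k41 k60 6 (.s k21 k61 5 (.s k63 k42 6 (.d k23 k20 k43 0 5)))))) .n)))))

def t5_19 : T TT 256 :=
  (.q k22 [(.s k1 k2 0 (.s k41 k60 6 (.s k21 k61 5 (.s k63 k42 6 (.d k23 k20 k43 0 5))))), (.s k7
  k11 1 (.s k41 k60 6 (.s k37 k52 4 (.s k48 k26 6 (.d k33 k45 k18 1 4))))), (.s k2 k1 0 (.s k42 k62
  5 (.s k7 k11 1 (.s k37 k52 4 (.s k32 k47 2 (.d k48 k16 k26 3 6))))))] .n)

def t5_20 : T TT 256 :=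
  (.q k22 [(.s k2 k1 0 (.s k42 k62 5 (.s k41 k60 6 (.s k43 k40 0 (.d k63 k23 k21 5 6))))), (.s k7
  k11 1 (.s k41 k60 6 (.s k37 k52 4 (.s k48 k26 6 (.d k33 k45 k18 1 4))))), (.s k2 k1 0 (.s k42 k62
  5 (.s k7 k11 1 (.s k37 k52 4 (.s k32 k47 2 (.d k48 k16 k26 3 6))))))] .n)

def t5_21 : T TT 256 :=
  (.q k37 [(.s k7 k11 1 (.s k22 k52 4 (.s k41 k60 6 (.s k33 k45 1 (.d k48 k18 k26 4 6))))), (.s k1
  k2 0 (.s k48 k26 6 (.s k33 k18 4 (.s k17 k49 3 (.s k34 k51 4 (.d k32 k16 k35 3 0))))))] (.c k18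
  (.l (.s k11 k7 1 (.s k26 k48 6 (.s k41 k56 4 (.s k60 k22 6 (.d k45 k33 k30 1 4)))))) (.c k22 (.l
  (.s k2 k1 0 (.s k48 k26 6 (.s k16 k32 3 (.s k18 k33 4 (.s k34 k50 3 (.d k17 k19 k51 0 4))))))) (.c
  k26 (.f k7 k11 1 (.l (.s k2 k1 0 (.s k22 k52 4 (.s k42 k62 5 (.s k41 k60 6 (.s k32 k47 2 (.s k33
  k45 1 (.d k48 k16 k18 3 4))))))))) (.c k33 (.l (.s k7 k11 1 (.s k22 k52 4 (.s k60 k41 6 (.s k26
  k48 6 (.d k30 k18 k45 1 4)))))) (.c k48 (.f k7 k11 1 (.l (.s k2 k1 0 (.s k22 k52 4 (.s k42 k62 5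
  (.s k47 k32 2 (.s k63 k31 3 (.s k43 k23 5 (.d k41 k60 k40 6 0))))))))) .n))))))

def t5_22 : T TT 256 :=
  (.q k69 [(.s k1 k2 0 (.s k138 k207 10 (.s k137 k205 9 (.s k204 k70 10 (.d k136 k139 k68 0 9))))),
  (.s k207 k138 10 (.s k11 k7 1 (.s k139 k71 9 (.s k75 k203 7 (.s k135 k195 9 (.d k143 k131 k79 1
  7)))))), (.s k1 k2 0 (.s k137 k205 9 (.s k11 k7 1 (.s k74 k200 8 (.s k64 k79 2 (.d k192 k128 k133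
  7 10))))))] .n)

def t5_23 : T TT 256 :=
  (.q k48 [(.s k1 k2 0 (.s k32 k16 3 (.s k33 k18 4 (.s k17 k49 3 (.d k34 k35 k51 0 4))))), (.s k7
  k11 1 (.s k33 k18 4 (.s k37 k26 6 (.s k22 k52 4 (.d k41 k45 k60 1 6))))), (.s k1 k2 0 (.s k16 k32
  3 (.s k11 k7 1 (.s k26 k37 6 (.s k41 k56 4 (.d k21 k31 k61 2 5))))))] .n)

def t5_24 : T TT 256 :=
  (.q k48 [(.s k1 k2 0 (.s k33 k18 4 (.s k17 k49 3 (.s k34 k51 4 (.d k32 k35 k16 0 3))))), (.s k7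
  k11 1 (.s k33 k18 4 (.s k37 k26 6 (.s k22 k52 4 (.d k41 k45 k60 1 6))))), (.s k1 k2 0 (.s k16 k32
  3 (.s k11 k7 1 (.s k26 k37 6 (.s k41 k56 4 (.d k21 k31 k61 2 5))))))] .n)

def t5_25 : T TT 256 :=
  (.q k48 [(.s k1 k2 0 (.s k32 k16 3 (.s k33 k18 4 (.s k34 k35 0 (.d k17 k49 k51 3 4))))), (.s k7
  k11 1 (.s k33 k18 4 (.s k37 k26 6 (.s k22 k52 4 (.d k41 k45 k60 1 6))))), (.s k1 k2 0 (.s k16 k32
  3 (.s k11 k7 1 (.s k26 k37 6 (.s k41 k56 4 (.d k21 k31 k61 2 5))))))] .n)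

def t5_26 : T TT 256 :=
  (.q k63 [(.s k1 k2 0 (.s k21 k42 6 (.s k41 k61 5 (.s k22 k60 6 (.d k23 k20 k43 0 5))))), (.s k11
  k7 1 (.s k43 k23 5 (.s k27 k59 3 (.s k39 k51 5 (.d k47 k35 k31 1 3))))), (.s k2 k1 0 (.s k42 k21 6
  (.s k22 k62 5 (.s k7 k11 1 (.s k37 k52 4 (.d k47 k31 k32 3 2))))))] (.c k154 (.q k218 [(.s k1 k2 0
  (.s k21 k42 6 (.s k41 k61 5 (.s k22 k60 6 (.d k23 k20 k43 0 5))))), (.s k11 k7 1 (.s k43 k23 5 (.s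
  k27 k59 3 (.s k39 k51 5 (.d k47 k35 k31 1 3))))), (.s k2 k1 0 (.s k42 k21 6 (.s k22 k62 5 (.s k7
  k11 1 (.s k37 k52 4 (.d k47 k31 k32 3 2))))))] .n) (.c k218 (.q k154 [(.s k1 k2 0 (.s k21 k42 6
  (.s k41 k61 5 (.s k22 k60 6 (.d k23 k20 k43 0 5))))), (.s k11 k7 1 (.s k43 k23 5 (.s k27 k59 3 (.s
  k39 k51 5 (.d k47 k35 k31 1 3))))), (.s k2 k1 0 (.s k42 k21 6 (.s k22 k62 5 (.s k7 k11 1 (.s k37
  k52 4 (.d k47 k31 k32 3 2))))))] .n) .n)))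

def t5_27 : T TT 256 :=
  (.f k1 k2 0 (.q k48 [(.s k32 k16 3 (.s k33 k18 4 (.s k17 k49 3 (.d k34 k35 k51 0 4)))), (.s k16
  k32 3 (.s k11 k7 1 (.s k26 k37 6 (.s k41 k56 4 (.d k21 k31 k61 2 5))))), (.s k7 k11 1 (.s k33 k18
  4 (.s k37 k26 6 (.s k22 k52 4 (.d k41 k45 k60 1 6)))))] (.c k153 (.q k216 [(.s k32 k16 3 (.s k33
  k18 4 (.s k34 k35 0 (.d k17 k49 k51 3 4)))), (.s k16 k32 3 (.s k11 k7 1 (.s k26 k37 6 (.s k41 k56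
  4 (.d k21 k31 k61 2 5))))), (.s k7 k11 1 (.s k33 k18 4 (.s k37 k26 6 (.s k22 k52 4 (.d k41 k45 k60
  1 6)))))] .n) (.c k216 (.q k153 [(.s k32 k16 3 (.s k33 k18 4 (.s k17 k49 3 (.d k34 k35 k51 0
  4)))), (.s k16 k32 3 (.s k11 k7 1 (.s k26 k37 6 (.s k41 k56 4 (.d k21 k31 k61 2 5))))), (.s k7 k11
  1 (.s k33 k18 4 (.s k37 k26 6 (.s k22 k52 4 (.d k41 k45 k60 1 6)))))] .n) .n))))

def t5_28 : T TT 256 :=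
  (.q k48 [(.s k1 k2 0 (.s k33 k18 4 (.s k17 k49 3 (.s k34 k51 4 (.d k32 k35 k16 0 3))))), (.s k7
  k11 1 (.s k33 k18 4 (.s k37 k26 6 (.s k22 k52 4 (.d k41 k45 k60 1 6))))), (.s k1 k2 0 (.s k16 k32
  3 (.s k11 k7 1 (.s k26 k37 6 (.s k41 k56 4 (.d k21 k31 k61 2 5))))))] .n)

def t5_29 : T TT 256 :=
  (.q k48 [(.s k1 k2 0 (.s k32 k16 3 (.s k33 k18 4 (.s k17 k49 3 (.d k34 k35 k51 0 4))))), (.s k7
  k11 1 (.s k33 k18 4 (.s k37 k26 6 (.s k22 k52 4 (.d k41 k45 k60 1 6))))), (.s k1 k2 0 (.s k16 k32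
  3 (.s k11 k7 1 (.s k26 k37 6 (.s k41 k56 4 (.d k21 k31 k61 2 5))))))] .n)

def t5_30 : T TT 256 :=
  (.q k48 [(.s k1 k2 0 (.s k32 k16 3 (.s k33 k18 4 (.s k17 k49 3 (.d k34 k35 k51 0 4))))), (.s k7
  k11 1 (.s k33 k18 4 (.s k37 k26 6 (.s k22 k52 4 (.d k41 k45 k60 1 6))))), (.s k1 k2 0 (.s k16 k32
  3 (.s k11 k7 1 (.s k26 k37 6 (.s k41 k56 4 (.d k21 k31 k61 2 5)))))), (.s k2 k1 0 (.s k16 k32 3
  (.s k18 k33 4 (.s k34 k50 3 (.d k17 k19 k51 0 4)))))] (.c k150 (.q k210 [(.s k1 k2 0 (.s k32 k16 3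
  (.s k33 k18 4 (.s k17 k49 3 (.d k34 k35 k51 0 4))))), (.s k7 k11 1 (.s k33 k18 4 (.s k37 k26 6 (.s
  k22 k52 4 (.d k41 k45 k60 1 6))))), (.s k1 k2 0 (.s k16 k32 3 (.s k11 k7 1 (.s k26 k37 6 (.s k41
  k56 4 (.d k21 k31 k61 2 5)))))), (.s k2 k1 0 (.s k16 k32 3 (.s k18 k33 4 (.s k34 k50 3 (.d k17 k19
  k51 0 4)))))] .n) (.c k210 (.q k150 [(.s k2 k1 0 (.s k16 k32 3 (.s k18 k33 4 (.s k34 k50 3 (.d k17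
  k19 k51 0 4))))), (.s k7 k11 1 (.s k33 k18 4 (.s k37 k26 6 (.s k22 k52 4 (.d k41 k45 k60 1 6))))),
  (.s k1 k2 0 (.s k16 k32 3 (.s k11 k7 1 (.s k26 k37 6 (.s k41 k56 4 (.d k21 k31 k61 2 5))))))] .n)
  .n)))

def t5_31 : T TT 256 :=
  (.q k69 [(.s k1 k2 0 (.s k138 k207 10 (.s k137 k205 9 (.s k204 k70 10 (.d k136 k139 k68 0 9))))),
  (.s k207 k138 10 (.s k11 k7 1 (.s k139 k71 9 (.s k75 k203 7 (.s k135 k195 9 (.d k143 k131 k79 1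
  7)))))), (.s k1 k2 0 (.s k137 k205 9 (.s k11 k7 1 (.s k74 k200 8 (.s k64 k79 2 (.d k192 k128 k133
  7 10))))))] (.c k149 (.q k208 [(.s k1 k2 0 (.s k138 k207 10 (.s k137 k205 9 (.s k204 k70 10 (.d
  k136 k139 k68 0 9))))), (.s k207 k138 10 (.s k11 k7 1 (.s k139 k71 9 (.s k75 k203 7 (.s k135 k195
  9 (.d k143 k131 k79 1 7)))))), (.s k1 k2 0 (.s k137 k205 9 (.s k11 k7 1 (.s k74 k200 8 (.s k64 k79
  2 (.d k192 k128 k133 7 10))))))] .n) (.c k208 (.q k149 [(.s k1 k2 0 (.s k138 k207 10 (.s k137 k205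
  9 (.s k204 k70 10 (.d k136 k139 k68 0 9))))), (.s k207 k138 10 (.s k11 k7 1 (.s k139 k71 9 (.s k75
  k203 7 (.s k135 k195 9 (.d k143 k131 k79 1 7)))))), (.s k1 k2 0 (.s k137 k205 9 (.s k11 k7 1 (.s
  k74 k200 8 (.s k64 k79 2 (.d k192 k128 k133 7 10))))))] .n) .n)))

def t5_32 : T TT 256 :=
  (.q k63 [(.s k1 k2 0 (.s k21 k42 6 (.s k41 k61 5 (.s k22 k60 6 (.d k23 k20 k43 0 5))))), (.s k7
  k11 1 (.s k23 k43 5 (.s k39 k55 3 (.s k27 k51 5 (.d k31 k19 k47 1 3))))), (.s k1 k2 0 (.s k21 k42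
  6 (.s k41 k61 5 (.s k11 k7 1 (.s k26 k56 4 (.d k31 k47 k16 3 2))))))] (.c k47 (.l (.s k2 k1 0 (.s
  k42 k21 6 (.s k22 k62 5 (.s k41 k60 6 (.d k43 k40 k23 0 5)))))) .n))

def t5_33 : T TT 256 :=
  (.q k63 [(.s k1 k2 0 (.s k21 k42 6 (.s k41 k61 5 (.s k22 k60 6 (.d k23 k20 k43 0 5))))), (.s k7
  k11 1 (.s k23 k43 5 (.s k39 k55 3 (.s k27 k51 5 (.d k31 k19 k47 1 3))))), (.s k1 k2 0 (.s k21 k42
  6 (.s k41 k61 5 (.s k11 k7 1 (.s k26 k56 4 (.d k31 k16 k47 2 3))))))] .n)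

def t5_34 : T TT 256 :=
  (.q k63 [(.s k7 k11 1 (.s k23 k43 5 (.s k39 k55 3 (.s k27 k51 5 (.d k31 k19 k47 1 3))))), (.s k1
  k2 0 (.s k21 k42 6 (.s k41 k61 5 (.s k22 k60 6 (.d k23 k20 k43 0 5))))), (.s k1 k2 0 (.s k21 k42 6
  (.s k41 k61 5 (.s k11 k7 1 (.s k26 k56 4 (.d k31 k16 k47 2 3))))))] .n)

def t5_35 : T TT 256 :=
  (.q k63 [(.s k1 k2 0 (.s k21 k42 6 (.s k41 k61 5 (.s k22 k60 6 (.d k23 k20 k43 0 5))))), (.s k7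
  k11 1 (.s k23 k43 5 (.s k39 k55 3 (.s k27 k51 5 (.d k31 k47 k19 3 1))))), (.s k1 k2 0 (.s k21 k42
  6 (.s k41 k61 5 (.s k11 k7 1 (.s k26 k56 4 (.d k31 k16 k47 2 3))))))] .n)

def t5_36 : T TT 256 :=
  (.q k48 [(.s k1 k2 0 (.s k32 k16 3 (.s k33 k18 4 (.s k17 k49 3 (.d k34 k35 k51 0 4))))), (.s k7
  k11 1 (.s k33 k18 4 (.s k37 k26 6 (.s k22 k52 4 (.d k41 k45 k60 1 6))))), (.s k1 k2 0 (.s k16 k32
  3 (.s k11 k7 1 (.s k26 k37 6 (.s k41 k56 4 (.d k21 k31 k61 2 5))))))] .n)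

def t5_37 : T TT 256 :=
  (.q k63 [(.s k1 k2 0 (.s k21 k42 6 (.s k41 k61 5 (.s k22 k60 6 (.d k23 k20 k43 0 5))))), (.s k7
  k11 1 (.s k23 k43 5 (.s k39 k55 3 (.s k27 k51 5 (.d k31 k19 k47 1 3))))), (.s k1 k2 0 (.s k21 k42
  6 (.s k41 k61 5 (.s k11 k7 1 (.s k26 k56 4 (.d k31 k47 k16 3 2))))))] (.c k21 (.q k53 [(.s k7 k11
  1 (.s k23 k43 5 (.s k39 k55 3 (.s k27 k51 5 (.d k31 k19 k47 1 3))))), (.s k1 k2 0 (.s k48 k58 2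
  (.s k33 k18 4 (.s k17 k49 3 (.s k34 k51 4 (.d k32 k35 k16 0 3))))))] (.c k51 (.l (.s k23 k43 5 (.s
  k31 k47 3 (.s k19 k27 1 (.s k48 k58 2 (.s k18 k33 4 (.d k16 k32 k17 3 0))))))) .n)) (.c k47 (.q
  k48 [(.s k1 k2 0 (.s k32 k16 3 (.s k21 k42 6 (.s k41 k61 5 (.s k22 k60 6 (.d k23 k20 k43 0
  5)))))), (.s k1 k2 0 (.s k32 k16 3 (.s k33 k18 4 (.s k17 k49 3 (.d k34 k35 k51 0 4))))), (.s k32
  k16 3 (.s k21 k42 6 (.s k18 k33 4 (.s k23 k43 5 (.s k22 k20 0 (.s k30 k26 1 (.d k60 k45 k41 4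
  6)))))))] (.c k16 (.l (.s k2 k1 0 (.s k42 k21 6 (.s k53 k58 2 (.s k22 k62 5 (.s k41 k60 6 (.d k43
  k40 k23 0 5))))))) (.c k21 (.l (.s k53 k58 2 (.s k1 k2 0 (.s k32 k16 3 (.s k33 k18 4 (.s k17 k49 3
  (.d k34 k35 k51 0 4))))))) (.c k32 (.l (.s k42 k21 6 (.s k53 k58 2 (.s k2 k1 0 (.s k22 k62 5 (.s
  k41 k60 6 (.d k43 k40 k23 0 5))))))) (.c k42 (.l (.s k32 k16 3 (.s k1 k2 0 (.s k33 k18 4 (.s k17
  k49 3 (.d k34 k35 k51 0 4)))))) (.c k53 (.l (.s k21 k42 6 (.s k32 k16 3 (.s k1 k2 0 (.s k41 k61 5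
  (.s k22 k60 6 (.d k23 k20 k43 0 5))))))) .n)))))) (.c k53 (.l (.s k21 k42 6 (.s k1 k2 0 (.s k41
  k61 5 (.s k22 k60 6 (.d k23 k20 k43 0 5)))))) .n))))

def t5_38 : T TT 256 :=
  (.q k69 [(.s k1 k2 0 (.s k138 k207 10 (.s k137 k205 9 (.s k204 k70 10 (.d k136 k139 k68 0 9))))),
  (.s k207 k138 10 (.s k11 k7 1 (.s k139 k71 9 (.s k75 k203 7 (.s k135 k195 9 (.d k143 k131 k79 1
  7)))))), (.s k1 k2 0 (.s k137 k205 9 (.s k11 k7 1 (.s k74 k200 8 (.s k64 k79 2 (.d k192 k128 k133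
  7 10))))))] .n)

def t5_39 : T TT 256 :=
  (.q k48 [(.s k1 k2 0 (.s k32 k16 3 (.s k33 k18 4 (.s k17 k49 3 (.d k34 k35 k51 0 4))))), (.s k7
  k11 1 (.s k33 k18 4 (.s k37 k26 6 (.s k22 k52 4 (.d k41 k45 k60 1 6))))), (.s k1 k2 0 (.s k16 k32
  3 (.s k11 k7 1 (.s k26 k37 6 (.s k41 k56 4 (.d k21 k31 k61 2 5))))))] .n)

def t5_40 : T TT 256 :=
  (.q k69 [(.s k1 k2 0 (.s k138 k207 10 (.s k137 k205 9 (.s k204 k70 10 (.d k136 k139 k68 0 9))))),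
  (.s k207 k138 10 (.s k11 k7 1 (.s k139 k71 9 (.s k75 k203 7 (.s k135 k195 9 (.d k143 k131 k79 1
  7)))))), (.s k1 k2 0 (.s k137 k205 9 (.s k11 k7 1 (.s k74 k200 8 (.s k64 k79 2 (.d k192 k128 k133
  7 10))))))] .n)

def t5_41 : T TT 256 :=
  (.q k69 [(.s k1 k2 0 (.s k138 k207 10 (.s k137 k205 9 (.s k204 k70 10 (.d k136 k139 k68 0 9))))),
  (.s k207 k138 10 (.s k11 k7 1 (.s k139 k71 9 (.s k75 k203 7 (.s k135 k195 9 (.d k143 k131 k79 1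
  7)))))), (.s k1 k2 0 (.s k137 k205 9 (.s k11 k7 1 (.s k74 k200 8 (.s k64 k79 2 (.d k192 k128 k133
  7 10))))))] .n)

def t5_42 : T TT 256 :=
  (.q k69 [(.s k1 k2 0 (.s k138 k207 10 (.s k137 k205 9 (.s k204 k70 10 (.d k136 k139 k68 0 9))))),
  (.s k207 k138 10 (.s k11 k7 1 (.s k139 k71 9 (.s k75 k203 7 (.s k135 k195 9 (.d k143 k131 k79 1
  7)))))), (.s k1 k2 0 (.s k137 k205 9 (.s k11 k7 1 (.s k74 k200 8 (.s k64 k79 2 (.d k192 k128 k133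
  7 10))))))] .n)

def t5_43 : T TT 256 :=
  (.q k48 [(.s k1 k2 0 (.s k32 k16 3 (.s k33 k18 4 (.s k17 k49 3 (.d k34 k35 k51 0 4))))), (.s k7
  k11 1 (.s k33 k18 4 (.s k37 k26 6 (.s k22 k52 4 (.d k41 k45 k60 1 6))))), (.s k1 k2 0 (.s k16 k32
  3 (.s k11 k7 1 (.s k26 k37 6 (.s k41 k56 4 (.d k21 k31 k61 2 5))))))] .n)

def t5_44 : T TT 256 :=
  (.q k69 [(.s k1 k2 0 (.s k138 k207 10 (.s k137 k205 9 (.s k204 k70 10 (.d k136 k139 k68 0 9))))),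
  (.s k207 k138 10 (.s k11 k7 1 (.s k139 k71 9 (.s k75 k203 7 (.s k135 k195 9 (.d k143 k131 k79 1
  7)))))), (.s k1 k2 0 (.s k137 k205 9 (.s k11 k7 1 (.s k74 k200 8 (.s k64 k79 2 (.d k192 k128 k133
  7 10))))))] .n)

def t5_45 : T TT 256 :=
  (.q k69 [(.s k1 k2 0 (.s k138 k207 10 (.s k137 k205 9 (.s k204 k70 10 (.d k136 k139 k68 0 9))))),
  (.s k207 k138 10 (.s k11 k7 1 (.s k139 k71 9 (.s k75 k203 7 (.s k135 k195 9 (.d k143 k131 k79 1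
  7)))))), (.s k1 k2 0 (.s k137 k205 9 (.s k11 k7 1 (.s k74 k200 8 (.s k64 k79 2 (.d k192 k128 k133
  7 10))))))] .n)

def t5_46 : T TT 256 :=
  (.q k48 [(.s k1 k2 0 (.s k32 k16 3 (.s k33 k18 4 (.s k17 k49 3 (.d k34 k35 k51 0 4))))), (.s k7
  k11 1 (.s k33 k18 4 (.s k37 k26 6 (.s k22 k52 4 (.d k41 k45 k60 1 6))))), (.s k1 k2 0 (.s k16 k32
  3 (.s k11 k7 1 (.s k26 k37 6 (.s k41 k56 4 (.d k21 k31 k61 2 5))))))] .n)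

def t5_47 : T TT 256 :=
  (.q k69 [(.s k1 k2 0 (.s k138 k207 10 (.s k137 k205 9 (.s k204 k70 10 (.d k136 k139 k68 0 9))))),
  (.s k207 k138 10 (.s k11 k7 1 (.s k139 k71 9 (.s k75 k203 7 (.s k135 k195 9 (.d k143 k131 k79 1
  7)))))), (.s k1 k2 0 (.s k137 k205 9 (.s k11 k7 1 (.s k74 k200 8 (.s k64 k79 2 (.d k192 k128 k133
  7 10))))))] .n)

def t5_48 : T TT 256 :=
  (.q k69 [(.s k1 k2 0 (.s k138 k207 10 (.s k137 k205 9 (.s k204 k70 10 (.d k136 k139 k68 0 9))))),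
  (.s k207 k138 10 (.s k11 k7 1 (.s k139 k71 9 (.s k75 k203 7 (.s k135 k195 9 (.d k143 k131 k79 1
  7)))))), (.s k1 k2 0 (.s k137 k205 9 (.s k11 k7 1 (.s k74 k200 8 (.s k64 k79 2 (.d k192 k128 k133
  7 10))))))] .n)

def t5_49 : T TT 256 :=
  (.q k48 [(.s k16 k32 3 (.s k18 k33 4 (.s k17 k19 0 (.s k34 k51 4 (.d k2 k1 k50 0 3))))), (.s k7
  k11 1 (.s k33 k18 4 (.s k37 k26 6 (.s k22 k52 4 (.d k41 k45 k60 1 6))))), (.s k1 k2 0 (.s k16 k32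
  3 (.s k11 k7 1 (.s k26 k37 6 (.s k41 k56 4 (.d k21 k31 k61 2 5))))))] .n)

def t5_50 : T TT 256 :=
  (.q k69 [(.s k1 k2 0 (.s k138 k207 10 (.s k137 k205 9 (.s k204 k70 10 (.d k136 k139 k68 0 9))))),
  (.s k207 k138 10 (.s k11 k7 1 (.s k139 k71 9 (.s k75 k203 7 (.s k135 k195 9 (.d k143 k131 k79 1
  7)))))), (.s k1 k2 0 (.s k137 k205 9 (.s k11 k7 1 (.s k74 k200 8 (.s k64 k79 2 (.d k192 k128 k133
  7 10))))))] .n)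

def t5_51 : T TT 256 :=
  (.q k69 [(.s k1 k2 0 (.s k138 k207 10 (.s k137 k205 9 (.s k204 k70 10 (.d k136 k139 k68 0 9))))),
  (.s k207 k138 10 (.s k11 k7 1 (.s k139 k71 9 (.s k75 k203 7 (.s k135 k195 9 (.d k143 k131 k79 1
  7)))))), (.s k1 k2 0 (.s k137 k205 9 (.s k11 k7 1 (.s k74 k200 8 (.s k64 k79 2 (.d k192 k128 k133
  7 10))))))] .n)

def t5_52 : T TT 256 :=
  (.q k69 [(.s k1 k2 0 (.s k138 k207 10 (.s k137 k205 9 (.s k204 k70 10 (.d k136 k139 k68 0 9))))),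
  (.s k207 k138 10 (.s k11 k7 1 (.s k139 k71 9 (.s k75 k203 7 (.s k135 k195 9 (.d k143 k131 k79 1
  7)))))), (.s k1 k2 0 (.s k137 k205 9 (.s k11 k7 1 (.s k74 k200 8 (.s k64 k79 2 (.d k192 k128 k133
  7 10))))))] .n)

def t5_53 : T TT 256 :=
  (.q k21 [(.s k1 k2 0 (.s k63 k42 6 (.s k23 k43 5 (.s k22 k20 0 (.d k41 k61 k60 5 6))))), (.s k1 k2
  0 (.s k41 k61 5 (.s k11 k7 1 (.s k26 k56 4 (.s k16 k31 2 (.d k48 k32 k37 3 6)))))), (.s k63 k42 6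
  (.s k11 k7 1 (.s k43 k23 5 (.s k27 k59 3 (.s k39 k51 5 (.d k47 k35 k31 1 3))))))] .n)

def t5_54 : T TT 256 :=
  (.q k69 [(.s k1 k2 0 (.s k138 k207 10 (.s k137 k205 9 (.s k204 k70 10 (.d k136 k139 k68 0 9))))),
  (.s k207 k138 10 (.s k11 k7 1 (.s k139 k71 9 (.s k75 k203 7 (.s k135 k195 9 (.d k143 k131 k79 1
  7)))))), (.s k1 k2 0 (.s k137 k205 9 (.s k11 k7 1 (.s k74 k200 8 (.s k64 k79 2 (.d k192 k128 k133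
  7 10))))))] .n)

def t5_55 : T TT 256 :=
  (.q k69 [(.s k1 k2 0 (.s k138 k207 10 (.s k137 k205 9 (.s k204 k70 10 (.d k136 k139 k68 0 9))))),
  (.s k207 k138 10 (.s k11 k7 1 (.s k139 k71 9 (.s k75 k203 7 (.s k135 k195 9 (.d k143 k131 k79 1
  7)))))), (.s k1 k2 0 (.s k137 k205 9 (.s k11 k7 1 (.s k74 k200 8 (.s k64 k79 2 (.d k192 k128 k133
  7 10))))))] .n)

def t5_56 : T TT 256 :=
  (.q k69 [(.s k1 k2 0 (.s k138 k207 10 (.s k137 k205 9 (.s k204 k70 10 (.d k136 k139 k68 0 9))))),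
  (.s k207 k138 10 (.s k11 k7 1 (.s k139 k71 9 (.s k75 k203 7 (.s k135 k195 9 (.d k143 k131 k79 1
  7)))))), (.s k1 k2 0 (.s k137 k205 9 (.s k11 k7 1 (.s k74 k200 8 (.s k64 k79 2 (.d k192 k128 k133
  7 10))))))] .n)

def t5_57 : T TT 256 :=
  (.q k69 [(.s k1 k2 0 (.s k138 k207 10 (.s k137 k205 9 (.s k204 k70 10 (.d k136 k139 k68 0 9))))),
  (.s k207 k138 10 (.s k11 k7 1 (.s k139 k71 9 (.s k75 k203 7 (.s k135 k195 9 (.d k143 k131 k79 1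
  7)))))), (.s k1 k2 0 (.s k137 k205 9 (.s k11 k7 1 (.s k74 k200 8 (.s k64 k79 2 (.d k192 k128 k133
  7 10))))))] .n)

def t5_58 : T TT 256 :=
  (.q k69 [(.s k1 k2 0 (.s k138 k207 10 (.s k137 k205 9 (.s k204 k70 10 (.d k136 k139 k68 0 9))))),
  (.s k207 k138 10 (.s k11 k7 1 (.s k139 k71 9 (.s k75 k203 7 (.s k135 k195 9 (.d k143 k131 k79 1
  7)))))), (.s k1 k2 0 (.s k137 k205 9 (.s k11 k7 1 (.s k74 k200 8 (.s k64 k79 2 (.d k192 k128 k133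
  7 10))))))] .n)

def t5_59 : T TT 256 :=
  (.q k69 [(.s k1 k2 0 (.s k138 k207 10 (.s k137 k205 9 (.s k204 k70 10 (.d k136 k139 k68 0 9))))),
  (.s k207 k138 10 (.s k11 k7 1 (.s k139 k71 9 (.s k75 k203 7 (.s k135 k195 9 (.d k143 k131 k79 1
  7)))))), (.s k1 k2 0 (.s k137 k205 9 (.s k11 k7 1 (.s k74 k200 8 (.s k64 k79 2 (.d k192 k128 k133
  7 10))))))] .n)

def t5_60 : T TT 256 :=
  (.q k48 [(.s k1 k2 0 (.s k32 k16 3 (.s k33 k18 4 (.s k17 k49 3 (.d k34 k35 k51 0 4))))), (.s k2 k1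
  0 (.s k7 k11 1 (.s k37 k26 6 (.s k22 k52 4 (.s k42 k62 5 (.s k47 k32 2 (.d k63 k31 k21 3 6))))))),
  (.s k16 k32 3 (.s k18 k33 4 (.s k26 k37 6 (.s k21 k31 2 (.s k22 k30 1 (.s k23 k20 0 (.d k63 k42
  k43 6 5)))))))] (.c k32 (.l (.s k1 k2 0 (.s k11 k7 1 (.s k26 k37 6 (.s k41 k56 4 (.s k21 k61 5 (.s
  k31 k16 2 (.d k63 k47 k42 3 6)))))))) .n))

def t5_61 : T TT 256 :=
  (.q k69 [(.s k1 k2 0 (.s k207 k138 10 (.s k71 k139 9 (.s k70 k68 0 (.d k137 k205 k204 9 10))))),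
  (.s k1 k2 0 (.s k137 k205 9 (.s k11 k7 1 (.s k74 k200 8 (.s k64 k79 2 (.d k192 k128 k133 7
  10)))))), (.s k207 k138 10 (.s k11 k7 1 (.s k139 k71 9 (.s k75 k203 7 (.s k135 k195 9 (.d k143
  k131 k79 1 7))))))] .n)

def t5_62 : T TT 256 :=
  (.q k69 [(.s k1 k2 0 (.s k138 k207 10 (.s k137 k205 9 (.s k204 k70 10 (.d k136 k139 k68 0 9))))),
  (.s k207 k138 10 (.s k11 k7 1 (.s k139 k71 9 (.s k75 k203 7 (.s k135 k195 9 (.d k143 k131 k79 1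
  7)))))), (.s k1 k2 0 (.s k137 k205 9 (.s k11 k7 1 (.s k74 k200 8 (.s k64 k79 2 (.d k192 k128 k133
  7 10))))))] .n)

def t5_63 : T TT 256 :=
  (.q k69 [(.s k1 k2 0 (.s k138 k207 10 (.s k137 k205 9 (.s k204 k70 10 (.d k136 k139 k68 0 9))))),
  (.s k207 k138 10 (.s k11 k7 1 (.s k139 k71 9 (.s k75 k203 7 (.s k135 k195 9 (.d k143 k131 k79 1
  7)))))), (.s k1 k2 0 (.s k137 k205 9 (.s k11 k7 1 (.s k74 k200 8 (.s k64 k79 2 (.d k192 k128 k133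
  7 10))))))] .n)

def t5_64 : T TT 256 :=
  (.q k69 [(.s k1 k2 0 (.s k138 k207 10 (.s k137 k205 9 (.s k204 k70 10 (.d k136 k139 k68 0 9))))),
  (.s k207 k138 10 (.s k11 k7 1 (.s k139 k71 9 (.s k75 k203 7 (.s k135 k195 9 (.d k143 k131 k79 1
  7)))))), (.s k1 k2 0 (.s k137 k205 9 (.s k7 k11 1 (.s k70 k204 10 (.s k133 k196 8 (.s k192 k74 10
  (.d k129 k141 k66 1 8)))))))] (.c k207 (.l (.s k1 k2 0 (.s k137 k205 9 (.s k11 k7 1 (.s k204 k70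
  10 (.s k74 k200 8 (.s k133 k192 10 (.d k141 k129 k78 1 8)))))))) .n))

def t5_65 : T TT 256 :=
  (.q k69 [(.s k1 k2 0 (.s k138 k207 10 (.s k137 k205 9 (.s k204 k70 10 (.d k136 k139 k68 0 9))))),
  (.s k207 k138 10 (.s k11 k7 1 (.s k139 k71 9 (.s k75 k203 7 (.s k135 k195 9 (.d k143 k131 k79 1
  7)))))), (.s k1 k2 0 (.s k137 k205 9 (.s k11 k7 1 (.s k74 k200 8 (.s k64 k79 2 (.d k192 k128 k133
  7 10))))))] .n)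

def t5_66 : T TT 256 :=
  (.q k69 [(.s k1 k2 0 (.s k138 k207 10 (.s k137 k205 9 (.s k136 k139 0 (.d k204 k68 k70 9 10))))),
  (.s k207 k138 10 (.s k11 k7 1 (.s k139 k71 9 (.s k75 k203 7 (.s k135 k195 9 (.d k143 k131 k79 1
  7)))))), (.s k1 k2 0 (.s k137 k205 9 (.s k11 k7 1 (.s k74 k200 8 (.s k64 k79 2 (.d k192 k128 k133
  7 10))))))] .n)

def t5_67 : T TT 256 :=
  (.q k69 [(.s k1 k2 0 (.s k138 k207 10 (.s k137 k205 9 (.s k136 k139 0 (.d k204 k68 k70 9 10))))),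
  (.s k207 k138 10 (.s k11 k7 1 (.s k139 k71 9 (.s k75 k203 7 (.s k135 k195 9 (.d k143 k79 k131 7
  1)))))), (.s k1 k2 0 (.s k137 k205 9 (.s k11 k7 1 (.s k74 k200 8 (.s k64 k79 2 (.d k192 k128 k133
  7 10))))))] .n)

def t5_68 : T TT 256 :=
  (.q k37 [(.s k11 k7 1 (.s k26 k48 6 (.s k41 k56 4 (.s k60 k22 6 (.d k45 k33 k30 1 4))))), (.s k2
  k1 0 (.s k48 k26 6 (.s k16 k32 3 (.s k18 k33 4 (.s k34 k50 3 (.d k17 k19 k51 0 4)))))), (.s k2 k1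
  0 (.s k7 k11 1 (.s k22 k52 4 (.s k42 k62 5 (.s k63 k21 6 (.d k47 k32 k31 2 3))))))] .n)

def t5_69 : T TT 256 :=
  (.f k1 k2 0 (.q k48 [(.s k32 k16 3 (.s k33 k18 4 (.s k17 k49 3 (.d k34 k35 k51 0 4)))), (.s k16
  k32 3 (.s k11 k7 1 (.s k26 k37 6 (.s k41 k56 4 (.d k21 k31 k61 2 5))))), (.s k7 k11 1 (.s k33 k18
  4 (.s k37 k26 6 (.s k22 k52 4 (.d k41 k45 k60 1 6)))))] (.c k133 (.q k197 [(.s k32 k16 3 (.s k33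
  k18 4 (.s k17 k49 3 (.d k34 k35 k51 0 4)))), (.s k16 k32 3 (.s k11 k7 1 (.s k26 k37 6 (.s k41 k56
  4 (.d k21 k31 k61 2 5))))), (.s k7 k11 1 (.s k33 k18 4 (.s k37 k26 6 (.s k22 k52 4 (.d k41 k45 k60
  1 6)))))] .n) (.c k197 (.q k133 [(.s k32 k16 3 (.s k33 k18 4 (.s k17 k49 3 (.d k34 k35 k51 0
  4)))), (.s k16 k32 3 (.s k11 k7 1 (.s k26 k37 6 (.s k41 k56 4 (.d k21 k31 k61 2 5))))), (.s k7 k11
  1 (.s k33 k18 4 (.s k37 k26 6 (.s k22 k52 4 (.d k41 k45 k60 1 6)))))] .n) .n))))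

def t5_70 : T TT 256 :=
  (.q k37 [(.s k7 k11 1 (.s k22 k52 4 (.s k60 k41 6 (.s k26 k48 6 (.d k30 k18 k45 1 4))))), (.s k2
  k1 0 (.s k48 k26 6 (.s k16 k32 3 (.s k18 k33 4 (.s k34 k50 3 (.d k17 k19 k51 0 4)))))), (.s k2 k1
  0 (.s k7 k11 1 (.s k22 k52 4 (.s k42 k62 5 (.s k63 k21 6 (.d k47 k32 k31 2 3))))))] .n)

def t5_71 : T TT 256 :=
  (.q k37 [(.s k7 k11 1 (.s k22 k52 4 (.s k60 k41 6 (.s k26 k48 6 (.d k30 k18 k45 1 4))))), (.s k2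
  k1 0 (.s k48 k26 6 (.s k16 k32 3 (.s k18 k33 4 (.s k34 k50 3 (.d k17 k19 k51 0 4)))))), (.s k2 k1
  0 (.s k7 k11 1 (.s k22 k52 4 (.s k42 k62 5 (.s k63 k21 6 (.d k47 k32 k31 2 3))))))] .n)

def t5_72 : T TT 256 :=
  (.q k37 [(.s k11 k7 1 (.s k26 k48 6 (.s k41 k56 4 (.s k60 k22 6 (.d k45 k33 k30 1 4))))), (.s k2
  k1 0 (.s k48 k26 6 (.s k16 k32 3 (.s k18 k33 4 (.s k34 k50 3 (.d k17 k19 k51 0 4)))))), (.s k2 k1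
  0 (.s k7 k11 1 (.s k22 k52 4 (.s k42 k62 5 (.s k63 k21 6 (.d k47 k32 k31 2 3))))))] .n)

def t5_73 : T TT 256 :=
  (.q k37 [(.s k11 k7 1 (.s k26 k48 6 (.s k41 k56 4 (.s k60 k22 6 (.d k45 k33 k30 1 4))))), (.s k2
  k1 0 (.s k48 k26 6 (.s k16 k32 3 (.s k18 k33 4 (.s k34 k50 3 (.d k17 k19 k51 0 4)))))), (.s k2 k1
  0 (.s k7 k11 1 (.s k22 k52 4 (.s k42 k62 5 (.s k63 k21 6 (.d k47 k32 k31 2 3))))))] .n)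

def t5_74 : T TT 256 :=
  (.q k37 [(.s k11 k7 1 (.s k26 k48 6 (.s k41 k56 4 (.s k60 k22 6 (.d k45 k33 k30 1 4))))), (.s k2
  k1 0 (.s k48 k26 6 (.s k16 k32 3 (.s k18 k33 4 (.s k34 k50 3 (.d k17 k19 k51 0 4)))))), (.s k2 k1
  0 (.s k7 k11 1 (.s k22 k52 4 (.s k42 k62 5 (.s k63 k21 6 (.d k47 k32 k31 2 3))))))] (.c k106 (.q
  k122 [(.s k11 k7 1 (.s k26 k48 6 (.s k41 k56 4 (.s k60 k22 6 (.d k45 k33 k30 1 4))))), (.s k2 k1 0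
  (.s k48 k26 6 (.s k16 k32 3 (.s k18 k33 4 (.s k34 k50 3 (.d k17 k19 k51 0 4)))))), (.s k2 k1 0 (.s
  k7 k11 1 (.s k22 k52 4 (.s k42 k62 5 (.s k63 k21 6 (.d k47 k32 k31 2 3))))))] .n) (.c k122 (.q
  k106 [(.s k11 k7 1 (.s k26 k48 6 (.s k41 k56 4 (.s k60 k22 6 (.d k45 k33 k30 1 4))))), (.s k2 k1 0
  (.s k48 k26 6 (.s k16 k32 3 (.s k18 k33 4 (.s k34 k50 3 (.d k17 k19 k51 0 4)))))), (.s k2 k1 0 (.s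
  k7 k11 1 (.s k22 k52 4 (.s k42 k62 5 (.s k63 k21 6 (.d k47 k32 k31 2 3))))))] .n) .n)))

def t5_75 : T TT 256 :=
  (.f k1 k2 0 (.q k48 [(.s k32 k16 3 (.s k33 k18 4 (.s k17 k49 3 (.d k34 k35 k51 0 4)))), (.s k16
  k32 3 (.s k11 k7 1 (.s k26 k37 6 (.s k41 k56 4 (.d k21 k31 k61 2 5))))), (.s k7 k11 1 (.s k33 k18
  4 (.s k37 k26 6 (.s k22 k52 4 (.d k41 k45 k60 1 6)))))] (.c k105 (.q k120 [(.s k32 k16 3 (.s k33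
  k18 4 (.s k17 k49 3 (.d k34 k35 k51 0 4)))), (.s k16 k32 3 (.s k11 k7 1 (.s k26 k37 6 (.s k41 k56
  4 (.d k21 k31 k61 2 5))))), (.s k7 k11 1 (.s k33 k18 4 (.s k37 k26 6 (.s k22 k52 4 (.d k41 k45 k60
  1 6)))))] .n) (.c k120 (.q k105 [(.s k32 k16 3 (.s k33 k18 4 (.s k17 k49 3 (.d k34 k35 k51 0
  4)))), (.s k16 k32 3 (.s k11 k7 1 (.s k26 k37 6 (.s k41 k56 4 (.d k21 k31 k61 2 5))))), (.s k7 k11
  1 (.s k33 k18 4 (.s k37 k26 6 (.s k22 k52 4 (.d k41 k45 k60 1 6)))))] .n) .n))))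

def t5_76 : T TT 256 :=
  (.q k63 [(.s k1 k2 0 (.s k21 k42 6 (.s k41 k61 5 (.s k22 k60 6 (.d k23 k20 k43 0 5))))), (.s k7
  k11 1 (.s k23 k43 5 (.s k39 k55 3 (.s k27 k51 5 (.d k31 k19 k47 1 3))))), (.s k1 k2 0 (.s k21 k42
  6 (.s k41 k61 5 (.s k11 k7 1 (.s k26 k56 4 (.d k31 k16 k47 2 3))))))] .n)

def t5_77 : T TT 256 :=
  (.q k37 [(.s k11 k7 1 (.s k26 k48 6 (.s k41 k56 4 (.s k60 k22 6 (.d k45 k33 k30 1 4))))), (.s k2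
  k1 0 (.s k48 k26 6 (.s k16 k32 3 (.s k18 k33 4 (.s k34 k50 3 (.d k17 k19 k51 0 4)))))), (.s k2 k1
  0 (.s k7 k11 1 (.s k22 k52 4 (.s k42 k62 5 (.s k63 k21 6 (.d k47 k32 k31 2 3))))))] .n)

def t5_78 : T TT 256 :=
  (.f k1 k2 0 (.q k48 [(.s k32 k16 3 (.s k33 k18 4 (.s k17 k49 3 (.d k34 k35 k51 0 4)))), (.s k16
  k32 3 (.s k11 k7 1 (.s k26 k37 6 (.s k41 k56 4 (.d k21 k31 k61 2 5))))), (.s k7 k11 1 (.s k33 k18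
  4 (.s k37 k26 6 (.s k22 k52 4 (.d k41 k45 k60 1 6)))))] (.c k102 (.q k114 [(.s k32 k16 3 (.s k33
  k18 4 (.s k17 k49 3 (.d k34 k35 k51 0 4)))), (.s k16 k32 3 (.s k11 k7 1 (.s k26 k37 6 (.s k41 k56
  4 (.d k21 k31 k61 2 5))))), (.s k7 k11 1 (.s k33 k18 4 (.s k37 k26 6 (.s k22 k52 4 (.d k41 k45 k60
  1 6)))))] .n) (.c k114 (.q k102 [(.s k32 k16 3 (.s k33 k18 4 (.s k17 k49 3 (.d k34 k35 k51 0
  4)))), (.s k16 k32 3 (.s k11 k7 1 (.s k26 k37 6 (.s k41 k56 4 (.d k21 k31 k61 2 5))))), (.s k7 k11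
  1 (.s k33 k18 4 (.s k37 k26 6 (.s k22 k52 4 (.d k41 k45 k60 1 6)))))] .n) .n))))

def t5_79 : T TT 256 :=
  (.q k37 [(.s k11 k7 1 (.s k26 k48 6 (.s k41 k56 4 (.s k60 k22 6 (.d k45 k33 k30 1 4))))), (.s k2
  k1 0 (.s k48 k26 6 (.s k16 k32 3 (.s k18 k33 4 (.s k34 k50 3 (.d k17 k19 k51 0 4)))))), (.s k2 k1
  0 (.s k7 k11 1 (.s k22 k52 4 (.s k42 k62 5 (.s k63 k21 6 (.d k47 k32 k31 2 3))))))] (.c k101 (.q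
  k112 [(.s k11 k7 1 (.s k26 k48 6 (.s k41 k56 4 (.s k60 k22 6 (.d k45 k33 k30 1 4))))), (.s k2 k1 0
  (.s k48 k26 6 (.s k16 k32 3 (.s k18 k33 4 (.s k34 k50 3 (.d k17 k19 k51 0 4)))))), (.s k2 k1 0 (.s
  k7 k11 1 (.s k22 k52 4 (.s k42 k62 5 (.s k63 k21 6 (.d k47 k32 k31 2 3))))))] .n) (.c k112 (.q
  k101 [(.s k7 k11 1 (.s k22 k52 4 (.s k41 k60 6 (.s k33 k45 1 (.d k48 k18 k26 4 6))))), (.s k2 k1 0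
  (.s k48 k26 6 (.s k16 k32 3 (.s k18 k33 4 (.s k34 k50 3 (.d k17 k19 k51 0 4)))))), (.s k2 k1 0 (.s
  k7 k11 1 (.s k22 k52 4 (.s k42 k62 5 (.s k63 k21 6 (.d k47 k32 k31 2 3))))))] .n) .n)))

def t5_80 : T TT 256 :=
  (.q k63 [(.s k1 k2 0 (.s k21 k42 6 (.s k41 k61 5 (.s k22 k60 6 (.d k23 k20 k43 0 5))))), (.s k7
  k11 1 (.s k23 k43 5 (.s k39 k55 3 (.s k27 k51 5 (.d k31 k19 k47 1 3))))), (.s k1 k2 0 (.s k21 k42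
  6 (.s k41 k61 5 (.s k11 k7 1 (.s k26 k56 4 (.d k31 k16 k47 2 3))))))] (.c k85 (.q k95 [(.s k1 k2 0
  (.s k21 k42 6 (.s k41 k61 5 (.s k22 k60 6 (.d k23 k20 k43 0 5))))), (.s k7 k11 1 (.s k255 k175 11
  (.s k87 k171 13 (.s k167 k247 11 (.d k91 k83 k243 1 13)))))] (.c k165 (.q k245 [(.s k1 k2 0 (.s
  k21 k42 6 (.s k41 k61 5 (.s k22 k60 6 (.d k23 k20 k43 0 5))))), (.s k7 k11 1 (.s k255 k175 11 (.s
  k87 k171 13 (.s k167 k247 11 (.d k91 k83 k243 1 13)))))] .n) (.c k245 (.q k165 [(.s k1 k2 0 (.s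
  k21 k42 6 (.s k41 k61 5 (.s k22 k60 6 (.d k23 k20 k43 0 5))))), (.s k42 k21 6 (.s k47 k31 3 (.s
  k175 k255 11 (.s k106 k224 10 (.d k170 k160 k234 2 7))))), (.s k2 k1 0 (.s k7 k11 1 (.s k86 k244
  12 (.s k170 k254 13 (.d k175 k160 k255 2 11)))))] .n) .n))) (.c k95 (.q k85 [(.s k1 k2 0 (.s k21
  k42 6 (.s k41 k61 5 (.s k22 k60 6 (.d k23 k20 k43 0 5))))), (.s k21 k42 6 (.s k170 k255 14 (.s
  k149 k213 7 (.s k192 k106 14 (.d k128 k191 k64 6 7))))), (.s k1 k2 0 (.s k170 k255 14 (.s k169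
  k253 13 (.s k252 k86 14 (.d k168 k171 k84 0 13)))))] .n) .n)))

def t5_81 : T TT 256 :=
  (.q k48 [(.s k1 k2 0 (.s k33 k18 4 (.s k17 k49 3 (.s k34 k51 4 (.d k32 k35 k16 0 3))))), (.s k7
  k11 1 (.s k33 k18 4 (.s k37 k26 6 (.s k22 k52 4 (.d k41 k45 k60 1 6))))), (.s k1 k2 0 (.s k16 k32
  3 (.s k11 k7 1 (.s k26 k37 6 (.s k41 k56 4 (.d k21 k31 k61 2 5))))))] .n)

def t5_82 : T TT 256 :=
  (.q k48 [(.s k2 k1 0 (.s k16 k32 3 (.s k18 k33 4 (.s k34 k50 3 (.d k17 k19 k51 0 4))))), (.s k7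
  k11 1 (.s k33 k18 4 (.s k37 k26 6 (.s k22 k52 4 (.d k41 k45 k60 1 6))))), (.s k1 k2 0 (.s k16 k32
  3 (.s k11 k7 1 (.s k26 k37 6 (.s k41 k56 4 (.d k21 k31 k61 2 5))))))] (.c k86 (.q k94 [(.s k2 k1 0
  (.s k16 k32 3 (.s k18 k33 4 (.s k34 k50 3 (.d k17 k19 k51 0 4))))), (.s k7 k11 1 (.s k33 k18 4 (.s
  k37 k26 6 (.s k22 k52 4 (.d k41 k45 k60 1 6))))), (.s k1 k2 0 (.s k16 k32 3 (.s k11 k7 1 (.s k26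
  k37 6 (.s k41 k56 4 (.d k21 k31 k61 2 5))))))] .n) (.c k94 (.q k86 [(.s k2 k1 0 (.s k16 k32 3 (.s
  k18 k33 4 (.s k34 k50 3 (.d k17 k19 k51 0 4))))), (.s k7 k11 1 (.s k33 k18 4 (.s k37 k26 6 (.s k22
  k52 4 (.d k41 k45 k60 1 6))))), (.s k1 k2 0 (.s k169 k252 14 (.s k85 k253 13 (.s k255 k170 14 (.d
  k87 k84 k171 0 13)))))] .n) .n)))

def t5_83 : T TT 256 :=
  (.q k37 [(.s k11 k7 1 (.s k26 k48 6 (.s k41 k56 4 (.s k60 k22 6 (.d k45 k33 k30 1 4))))), (.s k2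
  k1 0 (.s k48 k26 6 (.s k16 k32 3 (.s k18 k33 4 (.s k34 k50 3 (.d k17 k19 k51 0 4)))))), (.s k2 k1
  0 (.s k7 k11 1 (.s k22 k52 4 (.s k42 k62 5 (.s k63 k21 6 (.d k47 k32 k31 2 3))))))] .n)

def t5_84 : T TT 256 :=
  (.q k37 [(.s k11 k7 1 (.s k26 k48 6 (.s k41 k56 4 (.s k60 k22 6 (.d k45 k33 k30 1 4))))), (.s k2
  k1 0 (.s k48 k26 6 (.s k16 k32 3 (.s k18 k33 4 (.s k34 k50 3 (.d k17 k19 k51 0 4)))))), (.s k2 k1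
  0 (.s k7 k11 1 (.s k22 k52 4 (.s k42 k62 5 (.s k63 k21 6 (.d k47 k32 k31 2 3))))))] .n)

def t5_85 : T TT 256 :=
  (.f k1 k2 0 (.q k21 [(.s k42 k63 6 (.s k41 k61 5 (.s k60 k22 6 (.d k40 k43 k20 0 5)))), (.s k41
  k61 5 (.s k11 k7 1 (.s k26 k56 4 (.s k16 k31 2 (.d k48 k32 k37 3 6))))), (.s k63 k42 6 (.s k11 k7
  1 (.s k43 k23 5 (.s k27 k59 3 (.s k39 k51 5 (.d k47 k35 k31 1 3))))))] (.c k80 (.q k95 [(.s k42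
  k63 6 (.s k41 k61 5 (.s k60 k22 6 (.d k40 k43 k20 0 5)))), (.s k7 k11 1 (.s k255 k175 11 (.s k87
  k171 13 (.s k167 k247 11 (.d k91 k83 k243 1 13)))))] (.c k165 (.q k245 [(.s k42 k63 6 (.s k41 k61
  5 (.s k60 k22 6 (.d k40 k43 k20 0 5)))), (.s k7 k11 1 (.s k255 k175 11 (.s k87 k171 13 (.s k167
  k247 11 (.d k91 k83 k243 1 13)))))] .n) (.c k245 (.q k165 [(.s k42 k63 6 (.s k41 k61 5 (.s k60 k22
  6 (.d k40 k43 k20 0 5)))), (.s k7 k11 1 (.s k255 k175 11 (.s k87 k171 13 (.s k167 k247 11 (.d k91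
  k83 k243 1 13)))))] .n) .n))) (.c k95 (.q k80 [(.s k42 k63 6 (.s k41 k61 5 (.s k60 k22 6 (.d k40
  k43 k20 0 5)))), (.s k41 k61 5 (.s k11 k7 1 (.s k26 k56 4 (.s k16 k31 2 (.d k48 k32 k37 3 6))))),
  (.s k63 k42 6 (.s k11 k7 1 (.s k43 k23 5 (.s k27 k59 3 (.s k39 k51 5 (.d k47 k35 k31 1 3))))))]
  (.c k165 (.q k245 [(.s k42 k63 6 (.s k41 k61 5 (.s k60 k22 6 (.d k40 k43 k20 0 5)))), (.s k41 k61
  5 (.s k11 k7 1 (.s k26 k56 4 (.s k16 k31 2 (.d k48 k32 k37 3 6))))), (.s k63 k42 6 (.s k11 k7 1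
  (.s k43 k23 5 (.s k27 k59 3 (.s k39 k51 5 (.d k47 k35 k31 1 3))))))] .n) (.c k245 (.q k165 [(.s
  k42 k63 6 (.s k41 k61 5 (.s k60 k22 6 (.d k40 k43 k20 0 5)))), (.s k240 k160 11 (.s k7 k11 1 (.s
  k161 k82 12 (.s k86 k244 12 (.d k169 k173 k252 1 14)))))] .n) .n))) (.c k165 (.q k245 [(.s k42 k63
  6 (.s k41 k61 5 (.s k60 k22 6 (.d k40 k43 k20 0 5)))), (.s k41 k61 5 (.s k11 k7 1 (.s k26 k56 4
  (.s k16 k31 2 (.d k48 k32 k37 3 6))))), (.s k63 k42 6 (.s k11 k7 1 (.s k43 k23 5 (.s k27 k59 3 (.s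
  k39 k51 5 (.d k47 k35 k31 1 3))))))] (.c k80 (.q k95 [(.s k42 k63 6 (.s k41 k61 5 (.s k60 k22 6
  (.d k40 k43 k20 0 5)))), (.s k7 k11 1 (.s k255 k175 11 (.s k87 k171 13 (.s k167 k247 11 (.d k91
  k83 k243 1 13)))))] .n) (.c k95 (.q k80 [(.s k42 k63 6 (.s k41 k61 5 (.s k60 k22 6 (.d k40 k43 k20
  0 5)))), (.s k41 k61 5 (.s k11 k7 1 (.s k26 k56 4 (.s k16 k31 2 (.d k48 k32 k37 3 6))))), (.s k63
  k42 6 (.s k11 k7 1 (.s k43 k23 5 (.s k27 k59 3 (.s k39 k51 5 (.d k47 k35 k31 1 3))))))] .n) .n)))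
  (.c k245 (.q k165 [(.s k42 k63 6 (.s k41 k61 5 (.s k60 k22 6 (.d k40 k43 k20 0 5)))), (.s k41 k61
  5 (.s k11 k7 1 (.s k26 k56 4 (.s k16 k31 2 (.d k48 k32 k37 3 6))))), (.s k63 k42 6 (.s k11 k7 1
  (.s k43 k23 5 (.s k27 k59 3 (.s k39 k51 5 (.d k47 k35 k31 1 3))))))] (.c k80 (.q k95 [(.s k42 k63
  6 (.s k41 k61 5 (.s k60 k22 6 (.d k40 k43 k20 0 5)))), (.s k7 k11 1 (.s k255 k175 11 (.s k87 k171
  13 (.s k167 k247 11 (.d k91 k83 k243 1 13)))))] .n) (.c k95 (.q k80 [(.s k42 k63 6 (.s k41 k61 5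
  (.s k60 k22 6 (.d k40 k43 k20 0 5)))), (.s k240 k160 11 (.s k7 k11 1 (.s k161 k82 12 (.s k86 k244
  12 (.d k169 k173 k252 1 14)))))] .n) .n))) .n))))))

def t5_86 : T TT 256 :=
  (.q k48 [(.s k2 k1 0 (.s k16 k32 3 (.s k18 k33 4 (.s k34 k50 3 (.d k17 k19 k51 0 4))))), (.s k7
  k11 1 (.s k33 k18 4 (.s k37 k26 6 (.s k22 k52 4 (.d k41 k45 k60 1 6))))), (.s k1 k2 0 (.s k16 k32
  3 (.s k11 k7 1 (.s k26 k37 6 (.s k41 k56 4 (.d k21 k31 k61 2 5))))))] (.c k82 (.q k94 [(.s k2 k1 0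
  (.s k16 k32 3 (.s k18 k33 4 (.s k34 k50 3 (.d k17 k19 k51 0 4))))), (.s k7 k11 1 (.s k33 k18 4 (.s
  k37 k26 6 (.s k22 k52 4 (.d k41 k45 k60 1 6))))), (.s k1 k2 0 (.s k16 k32 3 (.s k11 k7 1 (.s k26
  k37 6 (.s k41 k56 4 (.d k21 k31 k61 2 5))))))] .n) (.c k94 (.q k82 [(.s k1 k2 0 (.s k161 k240 12
  (.s k81 k241 11 (.s k243 k162 12 (.d k83 k80 k163 0 11))))), (.s k7 k11 1 (.s k33 k18 4 (.s k37
  k26 6 (.s k22 k52 4 (.d k41 k45 k60 1 6)))))] .n) .n)))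

def t5_87 : T TT 256 :=
  (.q k63 [(.s k1 k2 0 (.s k21 k42 6 (.s k41 k61 5 (.s k22 k60 6 (.d k23 k20 k43 0 5))))), (.s k7
  k11 1 (.s k23 k43 5 (.s k39 k55 3 (.s k27 k51 5 (.d k31 k19 k47 1 3))))), (.s k1 k2 0 (.s k21 k42
  6 (.s k41 k61 5 (.s k11 k7 1 (.s k26 k56 4 (.d k31 k16 k47 2 3))))))] .n)

def t5_88 : T TT 256 :=
  (.q k91 [(.s k7 k11 1 (.s k167 k243 13 (.s k87 k247 11 (.s k255 k171 13 (.d k95 k83 k175 1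
  11))))), (.s k1 k2 0 (.s k243 k167 13 (.s k81 k162 12 (.s k161 k241 11 (.s k82 k240 12 (.d k83 k80
  k163 0 11)))))), (.s k2 k1 0 (.s k11 k7 1 (.s k171 k251 11 (.s k255 k87 13 (.s k170 k85 14 (.s k86
  k254 13 (.d k169 k168 k252 0 14)))))))] (.c k167 (.q k63 [(.s k1 k2 0 (.s k21 k42 6 (.s k41 k61 5
  (.s k22 k60 6 (.d k23 k20 k43 0 5))))), (.s k7 k11 1 (.s k23 k43 5 (.s k39 k55 3 (.s k27 k51 5 (.d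
  k31 k19 k47 1 3))))), (.s k1 k2 0 (.s k21 k42 6 (.s k41 k61 5 (.s k11 k7 1 (.s k26 k56 4 (.d k31
  k16 k47 2 3))))))] .n) .n))

def t5_89 : T TT 256 :=
  (.q k91 [(.s k7 k11 1 (.s k167 k243 13 (.s k87 k247 11 (.s k255 k171 13 (.d k95 k83 k175 1
  11))))), (.s k1 k2 0 (.s k243 k167 13 (.s k81 k162 12 (.s k161 k241 11 (.s k82 k240 12 (.d k83 k80
  k163 0 11)))))), (.s k2 k1 0 (.s k11 k7 1 (.s k171 k251 11 (.s k255 k87 13 (.s k170 k85 14 (.s k86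
  k254 13 (.d k169 k168 k252 0 14)))))))] (.c k167 (.q k48 [(.s k1 k2 0 (.s k32 k16 3 (.s k33 k18 4
  (.s k17 k49 3 (.d k34 k35 k51 0 4))))), (.s k7 k11 1 (.s k33 k18 4 (.s k37 k26 6 (.s k22 k52 4 (.d
  k41 k45 k60 1 6))))), (.s k1 k2 0 (.s k16 k32 3 (.s k11 k7 1 (.s k26 k37 6 (.s k41 k56 4 (.d k21
  k31 k61 2 5))))))] .n) .n))

def t5_91 : T TT 256 :=
  (.q k63 [(.s k1 k2 0 (.s k21 k42 6 (.s k41 k61 5 (.s k22 k60 6 (.d k23 k20 k43 0 5))))), (.s k7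
  k11 1 (.s k23 k43 5 (.s k39 k55 3 (.s k27 k51 5 (.d k31 k19 k47 1 3))))), (.s k1 k2 0 (.s k21 k42
  6 (.s k41 k61 5 (.s k11 k7 1 (.s k26 k56 4 (.d k31 k16 k47 2 3))))))] (.c k88 (.q k89 [(.s k1 k2 0
  (.s k21 k42 6 (.s k41 k61 5 (.s k22 k60 6 (.d k23 k20 k43 0 5))))), (.s k7 k11 1 (.s k23 k43 5 (.s
  k39 k55 3 (.s k27 k51 5 (.d k31 k19 k47 1 3))))), (.s k1 k2 0 (.s k21 k42 6 (.s k41 k61 5 (.s k11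
  k7 1 (.s k26 k56 4 (.d k31 k16 k47 2 3))))))] .n) (.c k89 (.q k88 [(.s k1 k2 0 (.s k21 k42 6 (.s
  k41 k61 5 (.s k22 k60 6 (.d k23 k20 k43 0 5))))), (.s k7 k11 1 (.s k23 k43 5 (.s k39 k55 3 (.s k27
  k51 5 (.d k31 k19 k47 1 3))))), (.s k1 k2 0 (.s k21 k42 6 (.s k41 k61 5 (.s k11 k7 1 (.s k26 k56 4
  (.d k31 k16 k47 2 3))))))] .n) .n)))

def t5_92 : T TT 256 :=
  (.q k48 [(.s k1 k2 0 (.s k32 k16 3 (.s k33 k18 4 (.s k17 k49 3 (.d k34 k35 k51 0 4))))), (.s k7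
  k11 1 (.s k33 k18 4 (.s k37 k26 6 (.s k22 k52 4 (.d k41 k45 k60 1 6))))), (.s k1 k2 0 (.s k16 k32
  3 (.s k11 k7 1 (.s k26 k37 6 (.s k41 k56 4 (.d k21 k31 k61 2 5))))))] .n)

def t5_93 : T TT 256 :=
  (.q k48 [(.s k1 k2 0 (.s k32 k16 3 (.s k33 k18 4 (.s k17 k49 3 (.d k34 k35 k51 0 4))))), (.s k7
  k11 1 (.s k33 k18 4 (.s k37 k26 6 (.s k22 k52 4 (.d k41 k45 k60 1 6))))), (.s k1 k2 0 (.s k16 k32
  3 (.s k11 k7 1 (.s k26 k37 6 (.s k41 k56 4 (.d k21 k31 k61 2 5))))))] .n)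

def t5_94 : T TT 256 :=
  (.q k48 [(.s k1 k2 0 (.s k32 k16 3 (.s k33 k18 4 (.s k17 k49 3 (.d k34 k35 k51 0 4))))), (.s k7
  k11 1 (.s k33 k18 4 (.s k37 k26 6 (.s k22 k52 4 (.d k41 k45 k60 1 6))))), (.s k1 k2 0 (.s k16 k32
  3 (.s k11 k7 1 (.s k26 k37 6 (.s k41 k56 4 (.d k21 k31 k61 2 5))))))] (.c k82 (.q k86 [(.s k2 k1 0
  (.s k16 k32 3 (.s k18 k33 4 (.s k34 k50 3 (.d k17 k19 k51 0 4))))), (.s k7 k11 1 (.s k33 k18 4 (.s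
  k37 k26 6 (.s k22 k52 4 (.d k41 k45 k60 1 6))))), (.s k1 k2 0 (.s k169 k252 14 (.s k85 k253 13 (.s
  k255 k170 14 (.d k87 k84 k171 0 13)))))] .n) (.c k86 (.q k82 [(.s k1 k2 0 (.s k161 k240 12 (.s k81
  k241 11 (.s k243 k162 12 (.d k83 k80 k163 0 11))))), (.s k7 k11 1 (.s k33 k18 4 (.s k37 k26 6 (.s
  k22 k52 4 (.d k41 k45 k60 1 6)))))] .n) .n)))

def t5_95 : T TT 256 :=
  (.q k63 [(.s k1 k2 0 (.s k21 k42 6 (.s k41 k61 5 (.s k22 k60 6 (.d k23 k20 k43 0 5))))), (.s k7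
  k11 1 (.s k23 k43 5 (.s k39 k55 3 (.s k27 k51 5 (.d k31 k19 k47 1 3))))), (.s k1 k2 0 (.s k21 k42
  6 (.s k41 k61 5 (.s k11 k7 1 (.s k26 k56 4 (.d k31 k16 k47 2 3))))))] (.c k80 (.q k85 [(.s k1 k2 0
  (.s k21 k42 6 (.s k41 k61 5 (.s k22 k60 6 (.d k23 k20 k43 0 5))))), (.s k21 k42 6 (.s k170 k255 14
  (.s k149 k213 7 (.s k192 k106 14 (.d k128 k191 k64 6 7))))), (.s k1 k2 0 (.s k170 k255 14 (.s k169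
  k253 13 (.s k252 k86 14 (.d k168 k171 k84 0 13)))))] .n) (.c k85 (.q k80 [(.s k1 k2 0 (.s k21 k42
  6 (.s k41 k61 5 (.s k22 k60 6 (.d k23 k20 k43 0 5))))), (.s k7 k11 1 (.s k23 k43 5 (.s k39 k55 3
  (.s k27 k51 5 (.d k31 k19 k47 1 3))))), (.s k2 k1 0 (.s k240 k160 11 (.s k82 k161 12 (.s k162 k242
  11 (.d k81 k83 k243 0 12)))))] (.c k165 (.q k245 [(.s k1 k2 0 (.s k21 k42 6 (.s k41 k61 5 (.s k22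
  k60 6 (.d k23 k20 k43 0 5))))), (.s k7 k11 1 (.s k23 k43 5 (.s k39 k55 3 (.s k27 k51 5 (.d k31 k19
  k47 1 3))))), (.s k2 k1 0 (.s k240 k160 11 (.s k82 k161 12 (.s k162 k242 11 (.d k81 k83 k243 0
  12)))))] .n) (.c k245 (.q k165 [(.s k1 k2 0 (.s k21 k42 6 (.s k41 k61 5 (.s k22 k60 6 (.d k23 k20
  k43 0 5))))), (.s k42 k21 6 (.s k160 k240 11 (.s k47 k31 3 (.s k106 k224 10 (.d k170 k175 k234 2
  7))))), (.s k2 k1 0 (.s k160 k240 11 (.s k7 k11 1 (.s k86 k244 12 (.d k170 k175 k254 2 13)))))]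
  .n) .n))) .n)))

def t5_96 : T TT 256 :=
  (.q k48 [(.s k1 k2 0 (.s k32 k16 3 (.s k33 k18 4 (.s k17 k49 3 (.d k34 k35 k51 0 4))))), (.s k7
  k11 1 (.s k33 k18 4 (.s k37 k26 6 (.s k22 k52 4 (.d k41 k45 k60 1 6))))), (.s k1 k2 0 (.s k16 k32
  3 (.s k11 k7 1 (.s k26 k37 6 (.s k41 k56 4 (.d k21 k31 k61 2 5))))))] .n)

def t5_97 : T TT 256 :=
  (.q k48 [(.s k1 k2 0 (.s k32 k16 3 (.s k33 k18 4 (.s k34 k35 0 (.d k17 k49 k51 3 4))))), (.s k7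
  k11 1 (.s k33 k18 4 (.s k37 k26 6 (.s k22 k52 4 (.d k41 k45 k60 1 6))))), (.s k1 k2 0 (.s k16 k32
  3 (.s k11 k7 1 (.s k26 k37 6 (.s k41 k56 4 (.d k21 k31 k61 2 5))))))] .n)

def t5_98 : T TT 256 :=
  (.q k48 [(.s k1 k2 0 (.s k32 k16 3 (.s k33 k18 4 (.s k17 k49 3 (.d k34 k35 k51 0 4))))), (.s k7
  k11 1 (.s k33 k18 4 (.s k37 k26 6 (.s k22 k52 4 (.d k41 k45 k60 1 6))))), (.s k1 k2 0 (.s k16 k32
  3 (.s k11 k7 1 (.s k26 k37 6 (.s k41 k56 4 (.d k21 k31 k61 2 5))))))] .n)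

def t5_99 : T TT 256 :=
  (.q k48 [(.s k1 k2 0 (.s k32 k16 3 (.s k33 k18 4 (.s k17 k49 3 (.d k34 k35 k51 0 4))))), (.s k7
  k11 1 (.s k33 k18 4 (.s k37 k26 6 (.s k22 k52 4 (.d k41 k45 k60 1 6))))), (.s k1 k2 0 (.s k16 k32
  3 (.s k11 k7 1 (.s k26 k37 6 (.s k41 k56 4 (.d k21 k31 k61 2 5))))))] .n)

def t5_100 : T TT 256 :=
  (.q k48 [(.s k1 k2 0 (.s k32 k16 3 (.s k33 k18 4 (.s k17 k49 3 (.d k34 k35 k51 0 4))))), (.s k7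
  k11 1 (.s k33 k18 4 (.s k37 k26 6 (.s k22 k52 4 (.d k41 k45 k60 1 6))))), (.s k1 k2 0 (.s k16 k32
  3 (.s k11 k7 1 (.s k26 k37 6 (.s k41 k56 4 (.d k21 k31 k61 2 5))))))] .n)

def t5_101 : T TT 256 :=
  (.f k1 k2 0 (.q k48 [(.s k32 k16 3 (.s k33 k18 4 (.s k34 k35 0 (.d k17 k49 k51 3 4)))), (.s k16
  k32 3 (.s k11 k7 1 (.s k26 k37 6 (.s k41 k56 4 (.d k21 k31 k61 2 5))))), (.s k7 k11 1 (.s k33 k18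
  4 (.s k37 k26 6 (.s k22 k52 4 (.d k41 k45 k60 1 6)))))] (.c k79 (.q k112 [(.s k32 k16 3 (.s k33
  k18 4 (.s k34 k35 0 (.d k17 k49 k51 3 4)))), (.s k16 k32 3 (.s k11 k7 1 (.s k26 k37 6 (.s k41 k56
  4 (.d k21 k31 k61 2 5))))), (.s k7 k11 1 (.s k33 k18 4 (.s k37 k26 6 (.s k22 k52 4 (.d k41 k45 k60
  1 6)))))] .n) (.c k112 (.q k79 [(.s k32 k16 3 (.s k33 k18 4 (.s k34 k35 0 (.d k17 k49 k51 3 4)))),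
  (.s k16 k32 3 (.s k11 k7 1 (.s k26 k37 6 (.s k41 k56 4 (.d k21 k31 k61 2 5))))), (.s k7 k11 1 (.s
  k33 k18 4 (.s k37 k26 6 (.s k22 k52 4 (.d k41 k45 k60 1 6)))))] .n) .n))))

def t5_102 : T TT 256 :=
  (.q k63 [(.s k1 k2 0 (.s k21 k42 6 (.s k41 k61 5 (.s k22 k60 6 (.d k23 k20 k43 0 5))))), (.s k7
  k11 1 (.s k23 k43 5 (.s k39 k55 3 (.s k27 k51 5 (.d k31 k19 k47 1 3))))), (.s k1 k2 0 (.s k21 k42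
  6 (.s k41 k61 5 (.s k11 k7 1 (.s k26 k56 4 (.d k31 k16 k47 2 3))))))] (.c k78 (.q k114 [(.s k1 k2
  0 (.s k21 k42 6 (.s k41 k61 5 (.s k22 k60 6 (.d k23 k20 k43 0 5))))), (.s k7 k11 1 (.s k23 k43 5
  (.s k39 k55 3 (.s k27 k51 5 (.d k31 k19 k47 1 3))))), (.s k1 k2 0 (.s k21 k42 6 (.s k41 k61 5 (.s
  k11 k7 1 (.s k26 k56 4 (.d k31 k16 k47 2 3))))))] .n) (.c k114 (.q k78 [(.s k1 k2 0 (.s k21 k42 6
  (.s k41 k61 5 (.s k22 k60 6 (.d k23 k20 k43 0 5))))), (.s k7 k11 1 (.s k204 k141 8 (.s k70 k137 10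
  (.s k133 k196 8 (.d k74 k66 k192 1 10)))))] .n) .n)))

def t5_103 : T TT 256 :=
  (.q k48 [(.s k1 k2 0 (.s k32 k16 3 (.s k33 k18 4 (.s k17 k49 3 (.d k34 k35 k51 0 4))))), (.s k7
  k11 1 (.s k33 k18 4 (.s k37 k26 6 (.s k22 k52 4 (.d k41 k45 k60 1 6))))), (.s k1 k2 0 (.s k16 k32
  3 (.s k11 k7 1 (.s k26 k37 6 (.s k41 k56 4 (.d k21 k31 k61 2 5))))))] .n)

def t5_104 : T TT 256 :=
  (.q k48 [(.s k1 k2 0 (.s k32 k16 3 (.s k33 k18 4 (.s k17 k49 3 (.d k34 k35 k51 0 4))))), (.s k7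
  k11 1 (.s k33 k18 4 (.s k37 k26 6 (.s k22 k52 4 (.d k41 k45 k60 1 6))))), (.s k1 k2 0 (.s k16 k32
  3 (.s k11 k7 1 (.s k26 k37 6 (.s k41 k56 4 (.d k21 k31 k61 2 5))))))] .n)

def t5_105 : T TT 256 :=
  (.q k75 [(.s k7 k11 1 (.s k135 k195 9 (.s k71 k199 7 (.s k207 k139 9 (.d k79 k67 k143 1 7))))),
  (.s k1 k2 0 (.s k195 k135 9 (.s k65 k130 8 (.s k129 k193 7 (.s k66 k192 8 (.d k67 k64 k131 0
  7)))))), (.s k2 k1 0 (.s k11 k7 1 (.s k139 k203 7 (.s k207 k71 9 (.s k138 k69 10 (.s k70 k206 9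
  (.d k137 k136 k204 0 10)))))))] (.c k135 (.q k48 [(.s k1 k2 0 (.s k32 k16 3 (.s k33 k18 4 (.s k17
  k49 3 (.d k34 k35 k51 0 4))))), (.s k7 k11 1 (.s k33 k18 4 (.s k37 k26 6 (.s k22 k52 4 (.d k41 k45
  k60 1 6))))), (.s k1 k2 0 (.s k16 k32 3 (.s k11 k7 1 (.s k26 k37 6 (.s k41 k56 4 (.d k21 k31 k61 2
  5))))))] .n) .n))

def t5_106 : T TT 256 :=
  (.q k74 [(.s k7 k11 1 (.s k133 k192 10 (.s k70 k196 8 (.s k204 k137 10 (.d k78 k66 k141 1 8))))),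
  (.s k1 k2 0 (.s k192 k133 10 (.s k128 k64 7 (.s k129 k66 8 (.s k65 k193 7 (.d k130 k131 k195 0
  8)))))), (.s k1 k2 0 (.s k11 k7 1 (.s k137 k200 8 (.s k69 k205 9 (.s k207 k138 10 (.d k79 k64 k143
  2 7))))))] .n)

def t5_107 : T TT 256 :=
  (.q k74 [(.s k7 k11 1 (.s k133 k192 10 (.s k70 k196 8 (.s k204 k137 10 (.d k78 k66 k141 1 8))))),
  (.s k1 k2 0 (.s k192 k133 10 (.s k128 k64 7 (.s k129 k66 8 (.s k65 k193 7 (.d k130 k131 k195 0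
  8)))))), (.s k1 k2 0 (.s k11 k7 1 (.s k137 k200 8 (.s k69 k205 9 (.s k207 k138 10 (.d k79 k64 k143
  2 7))))))] .n)

def t5_108 : T TT 256 :=
  (.q k48 [(.s k1 k2 0 (.s k32 k16 3 (.s k33 k18 4 (.s k17 k49 3 (.d k34 k35 k51 0 4))))), (.s k7
  k11 1 (.s k33 k18 4 (.s k37 k26 6 (.s k22 k52 4 (.d k41 k45 k60 1 6))))), (.s k1 k2 0 (.s k16 k32
  3 (.s k11 k7 1 (.s k26 k37 6 (.s k41 k56 4 (.d k21 k31 k61 2 5))))))] .n)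

def t5_109 : T TT 256 :=
  (.q k74 [(.s k7 k11 1 (.s k133 k192 10 (.s k70 k196 8 (.s k204 k137 10 (.d k78 k66 k141 1 8))))),
  (.s k1 k2 0 (.s k192 k133 10 (.s k128 k64 7 (.s k129 k66 8 (.s k65 k193 7 (.d k130 k131 k195 0
  8)))))), (.s k1 k2 0 (.s k11 k7 1 (.s k137 k200 8 (.s k69 k205 9 (.s k207 k138 10 (.d k79 k64 k143
  2 7))))))] .n)

def t5_110 : T TT 256 :=
  (.q k74 [(.s k7 k11 1 (.s k133 k192 10 (.s k70 k196 8 (.s k204 k137 10 (.d k78 k66 k141 1 8))))),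
  (.s k1 k2 0 (.s k192 k133 10 (.s k128 k64 7 (.s k129 k66 8 (.s k65 k193 7 (.d k130 k131 k195 0
  8)))))), (.s k1 k2 0 (.s k11 k7 1 (.s k137 k200 8 (.s k69 k205 9 (.s k207 k138 10 (.d k79 k64 k143
  2 7))))))] .n)

def t5_111 : T TT 256 :=
  (.q k48 [(.s k1 k2 0 (.s k32 k16 3 (.s k33 k18 4 (.s k17 k49 3 (.d k34 k35 k51 0 4))))), (.s k7
  k11 1 (.s k33 k18 4 (.s k37 k26 6 (.s k22 k52 4 (.d k41 k45 k60 1 6))))), (.s k1 k2 0 (.s k16 k32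
  3 (.s k11 k7 1 (.s k26 k37 6 (.s k41 k56 4 (.d k21 k31 k61 2 5))))))] .n)

def t5_112 : T TT 256 :=
  (.f k1 k2 0 (.q k74 [(.s k7 k11 1 (.s k133 k192 10 (.s k70 k196 8 (.s k204 k137 10 (.d k78 k66
  k141 1 8))))), (.s k192 k133 10 (.s k128 k64 7 (.s k129 k66 8 (.s k65 k193 7 (.d k130 k131 k195 0
  8))))), (.s k11 k7 1 (.s k137 k200 8 (.s k69 k205 9 (.s k207 k138 10 (.d k79 k64 k143 2 7)))))]
  (.c k79 (.q k101 [(.s k7 k11 1 (.s k133 k192 10 (.s k70 k196 8 (.s k204 k137 10 (.d k78 k66 k141 1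
  8))))), (.s k192 k133 10 (.s k128 k64 7 (.s k129 k66 8 (.s k65 k193 7 (.d k130 k131 k195 0 8))))),
  (.s k11 k7 1 (.s k137 k200 8 (.s k69 k205 9 (.s k138 k207 10 (.s k136 k139 0 (.d k204 k68 k70 9
  10))))))] .n) (.c k101 (.q k79 [(.s k207 k143 7 (.d k69 k64 k138 2 10)), (.s k7 k11 1 (.s k133
  k192 10 (.s k70 k196 8 (.s k204 k137 10 (.d k78 k66 k141 1 8)))))] .n) .n))))

def t5_113 : T TT 256 :=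
  (.q k48 [(.s k1 k2 0 (.s k32 k16 3 (.s k33 k18 4 (.s k34 k35 0 (.d k17 k49 k51 3 4))))), (.s k7
  k11 1 (.s k33 k18 4 (.s k37 k26 6 (.s k22 k52 4 (.d k41 k45 k60 1 6))))), (.s k1 k2 0 (.s k16 k32
  3 (.s k11 k7 1 (.s k26 k37 6 (.s k41 k56 4 (.d k21 k31 k61 2 5))))))] .n)

def t5_114 : T TT 256 :=
  (.q k48 [(.s k1 k2 0 (.s k32 k16 3 (.s k33 k18 4 (.s k17 k49 3 (.d k34 k35 k51 0 4))))), (.s k7
  k11 1 (.s k33 k18 4 (.s k37 k26 6 (.s k22 k52 4 (.d k41 k45 k60 1 6))))), (.s k1 k2 0 (.s k16 k32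
  3 (.s k11 k7 1 (.s k26 k37 6 (.s k41 k56 4 (.d k21 k31 k61 2 5))))))] (.c k78 (.q k102 [(.s k1 k2
  0 (.s k32 k16 3 (.s k33 k18 4 (.s k17 k49 3 (.d k34 k35 k51 0 4))))), (.s k7 k11 1 (.s k33 k18 4
  (.s k37 k26 6 (.s k22 k52 4 (.d k41 k45 k60 1 6))))), (.s k1 k2 0 (.s k16 k32 3 (.s k11 k7 1 (.s
  k26 k37 6 (.s k41 k56 4 (.d k21 k31 k61 2 5))))))] .n) (.c k102 (.q k78 [(.s k1 k2 0 (.s k32 k16 3
  (.s k33 k18 4 (.s k17 k49 3 (.d k34 k35 k51 0 4))))), (.s k7 k11 1 (.s k204 k141 8 (.s k70 k137 10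
  (.s k133 k196 8 (.d k74 k66 k192 1 10)))))] .n) .n)))

def t5_115 : T TT 256 :=
  (.q k63 [(.s k1 k2 0 (.s k21 k42 6 (.s k41 k61 5 (.s k22 k60 6 (.d k23 k20 k43 0 5))))), (.s k7
  k11 1 (.s k23 k43 5 (.s k39 k55 3 (.s k27 k51 5 (.d k31 k19 k47 1 3))))), (.s k1 k2 0 (.s k21 k42
  6 (.s k41 k61 5 (.s k11 k7 1 (.s k26 k56 4 (.d k31 k16 k47 2 3))))))] .n)

def t5_116 : T TT 256 :=
  (.q k63 [(.s k1 k2 0 (.s k21 k42 6 (.s k41 k61 5 (.s k22 k60 6 (.d k23 k20 k43 0 5))))), (.s k7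
  k11 1 (.s k23 k43 5 (.s k39 k55 3 (.s k27 k51 5 (.d k31 k19 k47 1 3))))), (.s k1 k2 0 (.s k21 k42
  6 (.s k41 k61 5 (.s k11 k7 1 (.s k26 k56 4 (.d k31 k16 k47 2 3))))))] .n)

def t5_117 : T TT 256 :=
  (.q k63 [(.s k1 k2 0 (.s k21 k42 6 (.s k41 k61 5 (.s k22 k60 6 (.d k23 k20 k43 0 5))))), (.s k7
  k11 1 (.s k23 k43 5 (.s k39 k55 3 (.s k27 k51 5 (.d k31 k19 k47 1 3))))), (.s k1 k2 0 (.s k21 k42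
  6 (.s k41 k61 5 (.s k11 k7 1 (.s k26 k56 4 (.d k31 k16 k47 2 3))))))] .n)

def t5_118 : T TT 256 :=
  (.q k63 [(.s k1 k2 0 (.s k21 k42 6 (.s k41 k61 5 (.s k22 k60 6 (.d k23 k20 k43 0 5))))), (.s k7
  k11 1 (.s k23 k43 5 (.s k39 k55 3 (.s k27 k51 5 (.d k31 k19 k47 1 3))))), (.s k1 k2 0 (.s k21 k42
  6 (.s k41 k61 5 (.s k11 k7 1 (.s k26 k56 4 (.d k31 k16 k47 2 3))))))] .n)

def t5_119 : T TT 256 :=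
  (.q k63 [(.s k1 k2 0 (.s k21 k42 6 (.s k41 k61 5 (.s k22 k60 6 (.d k23 k20 k43 0 5))))), (.s k7
  k11 1 (.s k23 k43 5 (.s k39 k55 3 (.s k27 k51 5 (.d k31 k19 k47 1 3))))), (.s k1 k2 0 (.s k21 k42
  6 (.s k41 k61 5 (.s k11 k7 1 (.s k26 k56 4 (.d k31 k16 k47 2 3))))))] .n)

def t5_120 : T TT 256 :=
  (.q k75 [(.s k7 k11 1 (.s k135 k195 9 (.s k71 k199 7 (.s k207 k139 9 (.d k79 k67 k143 1 7))))),
  (.s k1 k2 0 (.s k195 k135 9 (.s k65 k130 8 (.s k129 k193 7 (.s k66 k192 8 (.d k67 k64 k131 0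
  7)))))), (.s k2 k1 0 (.s k11 k7 1 (.s k139 k203 7 (.s k207 k71 9 (.s k138 k69 10 (.s k70 k206 9
  (.d k137 k136 k204 0 10)))))))] (.c k135 (.q k63 [(.s k1 k2 0 (.s k21 k42 6 (.s k41 k61 5 (.s k23
  k43 5 (.d k22 k20 k60 0 6))))), (.s k7 k11 1 (.s k23 k43 5 (.s k39 k55 3 (.s k27 k51 5 (.d k31 k19
  k47 1 3))))), (.s k1 k2 0 (.s k21 k42 6 (.s k41 k61 5 (.s k11 k7 1 (.s k26 k56 4 (.d k31 k16 k47 2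
  3))))))] .n) .n))

def t5_121 : T TT 256 :=
  (.q k74 [(.s k7 k11 1 (.s k133 k192 10 (.s k70 k196 8 (.s k204 k137 10 (.d k78 k66 k141 1 8))))),
  (.s k1 k2 0 (.s k192 k133 10 (.s k128 k64 7 (.s k129 k66 8 (.s k65 k193 7 (.d k130 k131 k195 0
  8)))))), (.s k1 k2 0 (.s k11 k7 1 (.s k137 k200 8 (.s k69 k205 9 (.s k207 k138 10 (.d k79 k64 k143
  2 7))))))] .n)

def t5_122 : T TT 256 :=
  (.q k74 [(.s k7 k11 1 (.s k133 k192 10 (.s k70 k196 8 (.s k204 k137 10 (.d k78 k66 k141 1 8))))),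
  (.s k1 k2 0 (.s k192 k133 10 (.s k128 k64 7 (.s k129 k66 8 (.s k65 k193 7 (.d k130 k131 k195 0
  8)))))), (.s k1 k2 0 (.s k11 k7 1 (.s k137 k200 8 (.s k69 k205 9 (.s k207 k138 10 (.d k79 k64 k143
  2 7))))))] .n)

def t5_123 : T TT 256 :=
  (.q k74 [(.s k7 k11 1 (.s k133 k192 10 (.s k70 k196 8 (.s k204 k137 10 (.d k78 k66 k141 1 8))))),
  (.s k1 k2 0 (.s k192 k133 10 (.s k128 k64 7 (.s k129 k66 8 (.s k65 k193 7 (.d k130 k131 k195 0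
  8)))))), (.s k1 k2 0 (.s k11 k7 1 (.s k137 k200 8 (.s k69 k205 9 (.s k207 k138 10 (.d k79 k64 k143
  2 7))))))] .n)

def t5_124 : T TT 256 :=
  (.q k74 [(.s k7 k11 1 (.s k133 k192 10 (.s k70 k196 8 (.s k204 k137 10 (.d k78 k66 k141 1 8))))),
  (.s k1 k2 0 (.s k192 k133 10 (.s k128 k64 7 (.s k129 k66 8 (.s k65 k193 7 (.d k130 k131 k195 0
  8)))))), (.s k1 k2 0 (.s k11 k7 1 (.s k137 k200 8 (.s k69 k205 9 (.s k207 k138 10 (.d k79 k64 k143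
  2 7))))))] .n)

def t5_125 : T TT 256 :=
  (.q k74 [(.s k7 k11 1 (.s k133 k192 10 (.s k70 k196 8 (.s k204 k137 10 (.d k78 k66 k141 1 8))))),
  (.s k1 k2 0 (.s k192 k133 10 (.s k128 k64 7 (.s k129 k66 8 (.s k65 k193 7 (.d k130 k131 k195 0
  8)))))), (.s k1 k2 0 (.s k11 k7 1 (.s k137 k200 8 (.s k69 k205 9 (.s k207 k138 10 (.d k79 k64 k143
  2 7))))))] .n)

def t5_126 : T TT 256 :=
  (.q k74 [(.s k7 k11 1 (.s k133 k192 10 (.s k70 k196 8 (.s k204 k137 10 (.d k78 k66 k141 1 8))))),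
  (.s k1 k2 0 (.s k192 k133 10 (.s k128 k64 7 (.s k129 k66 8 (.s k65 k193 7 (.d k130 k131 k195 0
  8)))))), (.s k1 k2 0 (.s k11 k7 1 (.s k137 k200 8 (.s k69 k205 9 (.s k207 k138 10 (.d k79 k64 k143
  2 7))))))] .n)

def t5_127 : T TT 256 :=
  (.q k74 [(.s k7 k11 1 (.s k133 k192 10 (.s k70 k196 8 (.s k204 k137 10 (.d k78 k66 k141 1 8))))),
  (.s k1 k2 0 (.s k192 k133 10 (.s k128 k64 7 (.s k129 k66 8 (.s k65 k193 7 (.d k130 k131 k195 0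
  8)))))), (.s k1 k2 0 (.s k11 k7 1 (.s k137 k200 8 (.s k69 k205 9 (.s k207 k138 10 (.d k79 k64 k143
  2 7))))))] .n)

def t5_128 : T TT 256 :=
  (.q k48 [(.s k1 k2 0 (.s k32 k16 3 (.s k33 k18 4 (.s k17 k49 3 (.d k34 k35 k51 0 4))))), (.s k7
  k11 1 (.s k33 k18 4 (.s k37 k26 6 (.s k22 k52 4 (.d k41 k45 k60 1 6))))), (.s k1 k2 0 (.s k16 k32
  3 (.s k11 k7 1 (.s k26 k37 6 (.s k41 k56 4 (.d k21 k31 k61 2 5))))))] .n)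

def t5_129 : T TT 256 :=
  (.q k48 [(.s k1 k2 0 (.s k32 k16 3 (.s k33 k18 4 (.s k17 k49 3 (.d k34 k35 k51 0 4))))), (.s k7
  k11 1 (.s k33 k18 4 (.s k37 k26 6 (.s k22 k52 4 (.d k41 k45 k60 1 6))))), (.s k1 k2 0 (.s k16 k32
  3 (.s k11 k7 1 (.s k26 k37 6 (.s k41 k56 4 (.d k21 k31 k61 2 5))))))] .n)

def t5_130 : T TT 256 :=
  (.q k48 [(.s k1 k2 0 (.s k32 k16 3 (.s k33 k18 4 (.s k17 k49 3 (.d k34 k35 k51 0 4))))), (.s k7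
  k11 1 (.s k33 k18 4 (.s k37 k26 6 (.s k22 k52 4 (.d k41 k45 k60 1 6))))), (.s k1 k2 0 (.s k16 k32
  3 (.s k11 k7 1 (.s k26 k37 6 (.s k41 k56 4 (.d k21 k31 k61 2 5))))))] .n)

def t5_131 : T TT 256 :=
  (.q k48 [(.s k1 k2 0 (.s k32 k16 3 (.s k33 k18 4 (.s k17 k49 3 (.d k34 k35 k51 0 4))))), (.s k7
  k11 1 (.s k33 k18 4 (.s k37 k26 6 (.s k22 k52 4 (.d k41 k45 k60 1 6))))), (.s k1 k2 0 (.s k16 k32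
  3 (.s k11 k7 1 (.s k26 k37 6 (.s k41 k56 4 (.d k21 k31 k61 2 5))))))] .n)

def t5_132 : T TT 256 :=
  (.q k48 [(.s k1 k2 0 (.s k32 k16 3 (.s k33 k18 4 (.s k17 k49 3 (.d k34 k35 k51 0 4))))), (.s k7
  k11 1 (.s k33 k18 4 (.s k37 k26 6 (.s k22 k52 4 (.d k41 k45 k60 1 6))))), (.s k1 k2 0 (.s k16 k32
  3 (.s k11 k7 1 (.s k26 k37 6 (.s k41 k56 4 (.d k21 k31 k61 2 5))))))] .n)

def t5_133 : T TT 256 :=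
  (.f k1 k2 0 (.q k48 [(.s k32 k16 3 (.s k33 k18 4 (.s k17 k49 3 (.d k34 k35 k51 0 4)))), (.s k16
  k32 3 (.s k11 k7 1 (.s k26 k37 6 (.s k41 k56 4 (.d k21 k31 k61 2 5))))), (.s k7 k11 1 (.s k33 k18
  4 (.s k37 k26 6 (.s k22 k52 4 (.d k41 k45 k60 1 6)))))] (.c k69 (.q k197 [(.s k32 k16 3 (.s k33
  k18 4 (.s k17 k49 3 (.d k34 k35 k51 0 4)))), (.s k16 k32 3 (.s k11 k7 1 (.s k26 k37 6 (.s k41 k56
  4 (.d k21 k31 k61 2 5))))), (.s k7 k11 1 (.s k33 k18 4 (.s k37 k26 6 (.s k22 k52 4 (.d k41 k45 k60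
  1 6)))))] .n) (.c k197 (.q k69 [(.s k32 k16 3 (.s k33 k18 4 (.s k17 k49 3 (.d k34 k35 k51 0 4)))),
  (.s k138 k207 10 (.s k137 k205 9 (.s k204 k70 10 (.d k136 k139 k68 0 9))))] .n) .n))))

def t5_134 : T TT 256 :=
  (.q k48 [(.s k1 k2 0 (.s k32 k16 3 (.s k33 k18 4 (.s k17 k49 3 (.d k34 k35 k51 0 4))))), (.s k7
  k11 1 (.s k33 k18 4 (.s k37 k26 6 (.s k22 k52 4 (.d k41 k45 k60 1 6))))), (.s k1 k2 0 (.s k16 k32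
  3 (.s k11 k7 1 (.s k26 k37 6 (.s k41 k56 4 (.d k21 k31 k61 2 5))))))] .n)

def t5_135 : T TT 256 :=
  (.q k48 [(.s k1 k2 0 (.s k32 k16 3 (.s k33 k18 4 (.s k17 k49 3 (.d k34 k35 k51 0 4))))), (.s k7
  k11 1 (.s k33 k18 4 (.s k37 k26 6 (.s k22 k52 4 (.d k41 k45 k60 1 6))))), (.s k1 k2 0 (.s k16 k32
  3 (.s k11 k7 1 (.s k26 k37 6 (.s k41 k56 4 (.d k21 k31 k61 2 5))))))] .n)

def t5_136 : T TT 256 :=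
  (.q k63 [(.s k1 k2 0 (.s k21 k42 6 (.s k41 k61 5 (.s k22 k60 6 (.d k23 k20 k43 0 5))))), (.s k7
  k11 1 (.s k23 k43 5 (.s k39 k55 3 (.s k27 k51 5 (.d k31 k19 k47 1 3))))), (.s k1 k2 0 (.s k21 k42
  6 (.s k41 k61 5 (.s k11 k7 1 (.s k26 k56 4 (.d k31 k16 k47 2 3))))))] .n)

def t5_137 : T TT 256 :=
  (.q k48 [(.s k1 k2 0 (.s k32 k16 3 (.s k33 k18 4 (.s k17 k49 3 (.d k34 k35 k51 0 4))))), (.s k7
  k11 1 (.s k33 k18 4 (.s k37 k26 6 (.s k22 k52 4 (.d k41 k45 k60 1 6))))), (.s k1 k2 0 (.s k16 k32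
  3 (.s k11 k7 1 (.s k26 k37 6 (.s k41 k56 4 (.d k21 k31 k61 2 5))))))] .n)

def t5_138 : T TT 256 :=
  (.q k63 [(.s k1 k2 0 (.s k21 k42 6 (.s k41 k61 5 (.s k22 k60 6 (.d k23 k20 k43 0 5))))), (.s k7
  k11 1 (.s k23 k43 5 (.s k39 k55 3 (.s k27 k51 5 (.d k31 k19 k47 1 3))))), (.s k1 k2 0 (.s k21 k42
  6 (.s k41 k61 5 (.s k11 k7 1 (.s k26 k56 4 (.d k31 k16 k47 2 3))))))] .n)

def t5_139 : T TT 256 :=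
  (.q k48 [(.s k1 k2 0 (.s k32 k16 3 (.s k33 k18 4 (.s k17 k49 3 (.d k34 k35 k51 0 4))))), (.s k7
  k11 1 (.s k33 k18 4 (.s k37 k26 6 (.s k22 k52 4 (.d k41 k45 k60 1 6))))), (.s k1 k2 0 (.s k16 k32
  3 (.s k11 k7 1 (.s k26 k37 6 (.s k41 k56 4 (.d k21 k31 k61 2 5))))))] .n)

def t5_140 : T TT 256 :=
  (.q k63 [(.s k1 k2 0 (.s k21 k42 6 (.s k41 k61 5 (.s k22 k60 6 (.d k23 k20 k43 0 5))))), (.s k7
  k11 1 (.s k23 k43 5 (.s k39 k55 3 (.s k27 k51 5 (.d k31 k19 k47 1 3))))), (.s k1 k2 0 (.s k21 k42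
  6 (.s k41 k61 5 (.s k11 k7 1 (.s k26 k56 4 (.d k31 k16 k47 2 3))))))] .n)

def t5_141 : T TT 256 :=
  (.q k48 [(.s k1 k2 0 (.s k32 k16 3 (.s k33 k18 4 (.s k17 k49 3 (.d k34 k35 k51 0 4))))), (.s k7
  k11 1 (.s k33 k18 4 (.s k37 k26 6 (.s k22 k52 4 (.d k41 k45 k60 1 6))))), (.s k1 k2 0 (.s k16 k32
  3 (.s k11 k7 1 (.s k26 k37 6 (.s k41 k56 4 (.d k21 k31 k61 2 5))))))] .n)

def t5_142 : T TT 256 :=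
  (.q k63 [(.s k1 k2 0 (.s k21 k42 6 (.s k41 k61 5 (.s k22 k60 6 (.d k23 k20 k43 0 5))))), (.s k7
  k11 1 (.s k23 k43 5 (.s k39 k55 3 (.s k27 k51 5 (.d k31 k19 k47 1 3))))), (.s k1 k2 0 (.s k21 k42
  6 (.s k41 k61 5 (.s k11 k7 1 (.s k26 k56 4 (.d k31 k16 k47 2 3))))))] .n)

def t5_143 : T TT 256 :=
  (.q k48 [(.s k1 k2 0 (.s k32 k16 3 (.s k33 k18 4 (.s k17 k49 3 (.d k34 k35 k51 0 4))))), (.s k7
  k11 1 (.s k33 k18 4 (.s k37 k26 6 (.s k22 k52 4 (.d k41 k45 k60 1 6))))), (.s k1 k2 0 (.s k16 k32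
  3 (.s k11 k7 1 (.s k26 k37 6 (.s k41 k56 4 (.d k21 k31 k61 2 5))))))] .n)

def t5_144 : T TT 256 :=
  (.q k63 [(.s k1 k2 0 (.s k21 k42 6 (.s k41 k61 5 (.s k22 k60 6 (.d k23 k20 k43 0 5))))), (.s k7
  k11 1 (.s k23 k43 5 (.s k39 k55 3 (.s k27 k51 5 (.d k31 k19 k47 1 3))))), (.s k1 k2 0 (.s k21 k42
  6 (.s k41 k61 5 (.s k11 k7 1 (.s k26 k56 4 (.d k31 k16 k47 2 3))))))] .n)

def t5_145 : T TT 256 :=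
  (.q k48 [(.s k1 k2 0 (.s k32 k16 3 (.s k33 k18 4 (.s k34 k35 0 (.d k17 k49 k51 3 4))))), (.s k7
  k11 1 (.s k33 k18 4 (.s k37 k26 6 (.s k22 k52 4 (.d k41 k45 k60 1 6))))), (.s k1 k2 0 (.s k16 k32
  3 (.s k11 k7 1 (.s k26 k37 6 (.s k41 k56 4 (.d k21 k31 k61 2 5))))))] .n)

def t5_146 : T TT 256 :=
  (.q k63 [(.s k1 k2 0 (.s k21 k42 6 (.s k41 k61 5 (.s k22 k60 6 (.d k23 k20 k43 0 5))))), (.s k7
  k11 1 (.s k23 k43 5 (.s k39 k55 3 (.s k27 k51 5 (.d k31 k19 k47 1 3))))), (.s k1 k2 0 (.s k21 k42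
  6 (.s k41 k61 5 (.s k11 k7 1 (.s k26 k56 4 (.d k31 k16 k47 2 3))))))] .n)

def t5_147 : T TT 256 :=
  (.q k48 [(.s k1 k2 0 (.s k32 k16 3 (.s k33 k18 4 (.s k17 k49 3 (.d k34 k35 k51 0 4))))), (.s k7
  k11 1 (.s k33 k18 4 (.s k37 k26 6 (.s k22 k52 4 (.d k41 k45 k60 1 6))))), (.s k1 k2 0 (.s k16 k32
  3 (.s k11 k7 1 (.s k26 k37 6 (.s k41 k56 4 (.d k21 k31 k61 2 5))))))] .n)

def t5_148 : T TT 256 :=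
  (.q k63 [(.s k1 k2 0 (.s k21 k42 6 (.s k41 k61 5 (.s k23 k43 5 (.d k22 k20 k60 0 6))))), (.s k7
  k11 1 (.s k23 k43 5 (.s k39 k55 3 (.s k27 k51 5 (.d k31 k19 k47 1 3))))), (.s k1 k2 0 (.s k21 k42
  6 (.s k41 k61 5 (.s k11 k7 1 (.s k26 k56 4 (.d k31 k16 k47 2 3))))))] .n)

def t5_149 : T TT 256 :=
  (.q k48 [(.s k1 k2 0 (.s k32 k16 3 (.s k33 k18 4 (.s k17 k49 3 (.d k34 k35 k51 0 4))))), (.s k7
  k11 1 (.s k33 k18 4 (.s k37 k26 6 (.s k22 k52 4 (.d k41 k45 k60 1 6))))), (.s k1 k2 0 (.s k16 k32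
  3 (.s k11 k7 1 (.s k26 k37 6 (.s k41 k56 4 (.d k21 k31 k61 2 5))))))] (.c k31 (.q k208 [(.s k1 k2
  0 (.s k33 k18 4 (.s k17 k49 3 (.s k34 k51 4 (.d k32 k35 k16 0 3))))), (.s k11 k7 1 (.s k18 k33 4
  (.s k26 k37 6 (.s k41 k56 4 (.d k22 k30 k60 1 6))))), (.s k2 k1 0 (.s k7 k11 1 (.s k37 k26 6 (.s
  k22 k52 4 (.s k42 k62 5 (.d k32 k16 k47 3 2))))))] .n) (.c k208 (.q k31 [(.s k16 k32 3 (.d k26 k21
  k37 2 6)), (.s k7 k11 1 (.s k33 k18 4 (.s k37 k26 6 (.s k22 k52 4 (.d k41 k45 k60 1 6))))), (.s k1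
  k2 0 (.s k32 k16 3 (.s k33 k18 4 (.s k17 k49 3 (.d k34 k35 k51 0 4)))))] .n) .n)))

def t5_150 : T TT 256 :=
  (.q k63 [(.s k1 k2 0 (.s k21 k42 6 (.s k41 k61 5 (.s k23 k43 5 (.d k22 k20 k60 0 6))))), (.s k7
  k11 1 (.s k23 k43 5 (.s k39 k55 3 (.s k27 k51 5 (.d k31 k19 k47 1 3))))), (.s k1 k2 0 (.s k21 k42
  6 (.s k41 k61 5 (.s k11 k7 1 (.s k26 k56 4 (.d k31 k16 k47 2 3))))))] (.c k30 (.q k210 [(.s k1 k2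
  0 (.s k21 k42 6 (.s k41 k61 5 (.s k23 k43 5 (.d k22 k20 k60 0 6))))), (.s k7 k11 1 (.s k23 k43 5
  (.s k39 k55 3 (.s k27 k51 5 (.d k31 k19 k47 1 3))))), (.s k1 k2 0 (.s k21 k42 6 (.s k41 k61 5 (.s
  k11 k7 1 (.s k26 k56 4 (.d k31 k16 k47 2 3))))))] .n) (.c k210 (.q k30 [(.s k1 k2 0 (.s k21 k42 6
  (.s k41 k61 5 (.d k60 k22 k45 6 4)))), (.s k7 k11 1 (.s k23 k43 5 (.s k39 k55 3 (.s k27 k51 5 (.d
  k31 k19 k47 1 3)))))] .n) .n)))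

def t5_151 : T TT 256 :=
  (.q k48 [(.s k1 k2 0 (.s k32 k16 3 (.s k33 k18 4 (.s k17 k49 3 (.d k34 k35 k51 0 4))))), (.s k7
  k11 1 (.s k33 k18 4 (.s k37 k26 6 (.s k22 k52 4 (.d k41 k45 k60 1 6))))), (.s k1 k2 0 (.s k16 k32
  3 (.s k11 k7 1 (.s k26 k37 6 (.s k41 k56 4 (.d k21 k31 k61 2 5))))))] .n)

def t5_152 : T TT 256 :=
  (.q k48 [(.s k1 k2 0 (.s k33 k18 4 (.s k17 k49 3 (.s k34 k51 4 (.d k32 k35 k16 0 3))))), (.s k7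
  k11 1 (.s k33 k18 4 (.s k37 k26 6 (.s k22 k52 4 (.d k41 k45 k60 1 6))))), (.s k1 k2 0 (.s k16 k32
  3 (.s k11 k7 1 (.s k26 k37 6 (.s k41 k56 4 (.d k21 k31 k61 2 5))))))] .n)

def t5_153 : T TT 256 :=
  (.q k27 [(.s k7 k11 1 (.s k39 k51 5 (.s k23 k55 3 (.s k63 k43 5 (.d k31 k19 k47 1 3))))), (.s k1
  k2 0 (.s k51 k39 5 (.s k17 k34 4 (.s k33 k49 3 (.s k18 k48 4 (.d k19 k16 k35 0 3)))))), (.s k2 k1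
  0 (.s k11 k7 1 (.s k43 k59 3 (.s k63 k23 5 (.s k42 k21 6 (.s k22 k62 5 (.d k41 k40 k60 0 6)))))))]
  (.c k39 (.q k48 [(.s k1 k2 0 (.s k32 k16 3 (.s k33 k18 4 (.s k17 k49 3 (.d k34 k35 k51 0 4))))),
  (.s k7 k11 1 (.s k33 k18 4 (.s k37 k26 6 (.s k22 k52 4 (.d k41 k45 k60 1 6))))), (.s k1 k2 0 (.s
  k16 k32 3 (.s k11 k7 1 (.s k26 k37 6 (.s k41 k56 4 (.d k21 k31 k61 2 5))))))] .n) .n))

def t5_154 : T TT 256 :=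
  (.q k26 [(.s k7 k11 1 (.s k37 k48 6 (.s k22 k52 4 (.s k60 k41 6 (.d k30 k18 k45 1 4))))), (.s k1
  k2 0 (.s k48 k37 6 (.s k32 k16 3 (.s k33 k18 4 (.s k17 k49 3 (.d k34 k35 k51 0 4)))))), (.s k1 k2
  0 (.s k11 k7 1 (.s k41 k56 4 (.s k21 k61 5 (.s k63 k42 6 (.d k31 k16 k47 2 3))))))] .n)

def t5_155 : T TT 256 :=
  (.q k48 [(.s k1 k2 0 (.s k32 k16 3 (.s k33 k18 4 (.s k17 k49 3 (.d k34 k35 k51 0 4))))), (.s k7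
  k11 1 (.s k33 k18 4 (.s k37 k26 6 (.s k22 k52 4 (.d k41 k45 k60 1 6))))), (.s k1 k2 0 (.s k16 k32
  3 (.s k11 k7 1 (.s k26 k37 6 (.s k41 k56 4 (.d k21 k31 k61 2 5))))))] .n)

def t5_156 : T TT 256 :=
  (.q k48 [(.s k1 k2 0 (.s k32 k16 3 (.s k33 k18 4 (.s k17 k49 3 (.d k34 k35 k51 0 4))))), (.s k7
  k11 1 (.s k33 k18 4 (.s k37 k26 6 (.s k22 k52 4 (.d k41 k45 k60 1 6))))), (.s k1 k2 0 (.s k16 k32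
  3 (.s k11 k7 1 (.s k26 k37 6 (.s k41 k56 4 (.d k21 k31 k61 2 5))))))] .n)

def t5_157 : T TT 256 :=
  (.q k48 [(.s k1 k2 0 (.s k32 k16 3 (.s k33 k18 4 (.s k17 k49 3 (.d k34 k35 k51 0 4))))), (.s k7
  k11 1 (.s k33 k18 4 (.s k37 k26 6 (.s k22 k52 4 (.d k41 k45 k60 1 6))))), (.s k1 k2 0 (.s k16 k32
  3 (.s k11 k7 1 (.s k26 k37 6 (.s k41 k56 4 (.d k21 k31 k61 2 5))))))] .n)

def t5_158 : T TT 256 :=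
  (.q k48 [(.s k1 k2 0 (.s k32 k16 3 (.s k33 k18 4 (.s k17 k49 3 (.d k34 k35 k51 0 4))))), (.s k7
  k11 1 (.s k33 k18 4 (.s k37 k26 6 (.s k22 k52 4 (.d k41 k45 k60 1 6))))), (.s k1 k2 0 (.s k16 k32
  3 (.s k11 k7 1 (.s k26 k37 6 (.s k41 k56 4 (.d k21 k31 k61 2 5))))))] .n)

def t5_159 : T TT 256 :=
  (.q k26 [(.s k7 k11 1 (.s k37 k48 6 (.s k22 k52 4 (.s k60 k41 6 (.d k30 k18 k45 1 4))))), (.s k1
  k2 0 (.s k48 k37 6 (.s k32 k16 3 (.s k33 k18 4 (.s k17 k49 3 (.d k34 k35 k51 0 4)))))), (.s k1 k2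
  0 (.s k11 k7 1 (.s k41 k56 4 (.s k21 k61 5 (.s k63 k42 6 (.d k31 k16 k47 2 3))))))] .n)

def t5_160 : T TT 256 :=
  (.q k48 [(.s k1 k2 0 (.s k32 k16 3 (.s k33 k18 4 (.s k17 k49 3 (.d k34 k35 k51 0 4))))), (.s k7
  k11 1 (.s k33 k18 4 (.s k37 k26 6 (.s k22 k52 4 (.d k41 k45 k60 1 6))))), (.s k1 k2 0 (.s k16 k32
  3 (.s k11 k7 1 (.s k26 k37 6 (.s k41 k56 4 (.d k21 k31 k61 2 5))))))] .n)

def t5_161 : T TT 256 :=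
  (.q k26 [(.s k7 k11 1 (.s k37 k48 6 (.s k22 k52 4 (.s k60 k41 6 (.d k30 k18 k45 1 4))))), (.s k1
  k2 0 (.s k48 k37 6 (.s k32 k16 3 (.s k33 k18 4 (.s k17 k49 3 (.d k34 k35 k51 0 4)))))), (.s k1 k2
  0 (.s k11 k7 1 (.s k41 k56 4 (.s k21 k61 5 (.s k63 k42 6 (.d k31 k16 k47 2 3))))))] .n)

def t5_162 : T TT 256 :=
  (.q k26 [(.s k7 k11 1 (.s k37 k48 6 (.s k22 k52 4 (.s k60 k41 6 (.d k30 k18 k45 1 4))))), (.s k1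
  k2 0 (.s k48 k37 6 (.s k32 k16 3 (.s k33 k18 4 (.s k17 k49 3 (.d k34 k35 k51 0 4)))))), (.s k1 k2
  0 (.s k11 k7 1 (.s k41 k56 4 (.s k21 k61 5 (.s k63 k42 6 (.d k31 k16 k47 2 3))))))] .n)

def t5_163 : T TT 256 :=
  (.q k48 [(.s k1 k2 0 (.s k32 k16 3 (.s k33 k18 4 (.s k17 k49 3 (.d k34 k35 k51 0 4))))), (.s k7
  k11 1 (.s k33 k18 4 (.s k37 k26 6 (.s k22 k52 4 (.d k41 k45 k60 1 6))))), (.s k1 k2 0 (.s k16 k32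
  3 (.s k11 k7 1 (.s k26 k37 6 (.s k41 k56 4 (.d k21 k31 k61 2 5))))))] .n)

def t5_164 : T TT 256 :=
  (.q k26 [(.s k7 k11 1 (.s k37 k48 6 (.s k22 k52 4 (.s k60 k41 6 (.d k30 k18 k45 1 4))))), (.s k1
  k2 0 (.s k48 k37 6 (.s k32 k16 3 (.s k33 k18 4 (.s k17 k49 3 (.d k34 k35 k51 0 4)))))), (.s k1 k2
  0 (.s k11 k7 1 (.s k41 k56 4 (.s k21 k61 5 (.s k63 k42 6 (.d k31 k16 k47 2 3))))))] .n)

def t5_165 : T TT 256 :=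
  (.q k26 [(.s k7 k11 1 (.s k37 k48 6 (.s k22 k52 4 (.s k60 k41 6 (.d k30 k18 k45 1 4))))), (.s k1
  k2 0 (.s k48 k37 6 (.s k32 k16 3 (.s k33 k18 4 (.s k17 k49 3 (.d k34 k35 k51 0 4)))))), (.s k1 k2
  0 (.s k11 k7 1 (.s k41 k56 4 (.s k21 k61 5 (.s k63 k42 6 (.d k31 k16 k47 2 3))))))] (.c k85 (.q
  k245 [(.s k7 k11 1 (.s k37 k48 6 (.s k22 k52 4 (.s k60 k41 6 (.d k30 k18 k45 1 4))))), (.s k1 k2 0
  (.s k48 k37 6 (.s k32 k16 3 (.s k33 k18 4 (.s k17 k49 3 (.d k34 k35 k51 0 4)))))), (.s k1 k2 0 (.s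
  k11 k7 1 (.s k41 k56 4 (.s k21 k61 5 (.s k63 k42 6 (.d k31 k16 k47 2 3))))))] (.c k80 (.q k95 [(.s
  k7 k11 1 (.s k37 k48 6 (.s k22 k52 4 (.s k60 k41 6 (.d k30 k18 k45 1 4))))), (.s k1 k2 0 (.s k48
  k37 6 (.s k32 k16 3 (.s k33 k18 4 (.s k17 k49 3 (.d k34 k35 k51 0 4)))))), (.s k7 k11 1 (.s k255
  k175 11 (.s k87 k171 13 (.s k167 k247 11 (.d k91 k83 k243 1 13)))))] .n) (.c k95 (.q k80 [(.s k7
  k11 1 (.s k37 k48 6 (.s k22 k52 4 (.s k60 k41 6 (.d k30 k18 k45 1 4))))), (.s k2 k1 0 (.s k240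
  k160 11 (.s k82 k161 12 (.s k162 k242 11 (.d k81 k83 k243 0 12)))))] (.c k169 (.l (.s k11 k7 1 (.s
  k41 k56 4 (.s k22 k60 6 (.s k48 k37 6 (.d k18 k30 k33 1 4)))))) .n)) .n))) (.c k245 (.q k85 [(.s
  k7 k11 1 (.s k37 k48 6 (.s k22 k52 4 (.s k60 k41 6 (.d k30 k18 k45 1 4))))), (.s k1 k2 0 (.s k170
  k255 14 (.s k169 k253 13 (.s k168 k171 0 (.d k252 k84 k86 13 14)))))] (.c k169 (.l (.s k11 k7 1
  (.s k41 k56 4 (.s k22 k60 6 (.s k48 k37 6 (.d k18 k30 k33 1 4)))))) .n)) .n)))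

def t5_166 : T TT 256 :=
  (.q k48 [(.s k1 k2 0 (.s k32 k16 3 (.s k33 k18 4 (.s k17 k49 3 (.d k34 k35 k51 0 4))))), (.s k7
  k11 1 (.s k33 k18 4 (.s k37 k26 6 (.s k22 k52 4 (.d k41 k45 k60 1 6))))), (.s k1 k2 0 (.s k16 k32
  3 (.s k11 k7 1 (.s k26 k37 6 (.s k41 k56 4 (.d k21 k31 k61 2 5))))))] (.c k14 (.q k242 [(.s k1 k2
  0 (.s k32 k16 3 (.s k33 k18 4 (.s k17 k49 3 (.d k34 k35 k51 0 4))))), (.s k7 k11 1 (.s k33 k18 4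
  (.s k37 k26 6 (.s k22 k52 4 (.d k41 k45 k60 1 6))))), (.s k1 k2 0 (.s k16 k32 3 (.s k11 k7 1 (.s
  k26 k37 6 (.s k41 k56 4 (.d k21 k31 k61 2 5))))))] .n) (.c k242 (.q k14 [(.s k2 k1 0 (.s k6 k10 1
  (.d k12 k13 k9 0 2))), (.s k7 k11 1 (.s k33 k18 4 (.s k37 k26 6 (.s k22 k52 4 (.d k41 k45 k60 1
  6)))))] .n) .n)))

def t5_167 : T TT 256 :=
  (.q k48 [(.s k1 k2 0 (.s k32 k16 3 (.s k33 k18 4 (.s k17 k49 3 (.d k34 k35 k51 0 4))))), (.s k7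
  k11 1 (.s k33 k18 4 (.s k37 k26 6 (.s k22 k52 4 (.d k41 k45 k60 1 6))))), (.s k1 k2 0 (.s k16 k32
  3 (.s k11 k7 1 (.s k26 k37 6 (.s k41 k56 4 (.d k21 k31 k61 2 5))))))] .n)

def t5_168 : T TT 256 :=
  (.q k48 [(.s k1 k2 0 (.s k32 k16 3 (.s k33 k18 4 (.s k17 k49 3 (.d k34 k35 k51 0 4))))), (.s k7
  k11 1 (.s k33 k18 4 (.s k37 k26 6 (.s k22 k52 4 (.d k41 k45 k60 1 6))))), (.s k1 k2 0 (.s k16 k32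
  3 (.s k11 k7 1 (.s k26 k37 6 (.s k41 k56 4 (.d k21 k31 k61 2 5))))))] .n)

def t5_169 : T TT 256 :=
  (.q k48 [(.s k1 k2 0 (.s k32 k16 3 (.s k33 k18 4 (.s k17 k49 3 (.d k34 k35 k51 0 4))))), (.s k11
  k7 1 (.s k18 k33 4 (.s k26 k37 6 (.s k41 k56 4 (.d k22 k30 k60 1 6))))), (.s k1 k2 0 (.s k16 k32 3
  (.s k11 k7 1 (.s k26 k37 6 (.s k41 k56 4 (.d k21 k31 k61 2 5))))))] (.c k11 (.q k248 [(.s k1 k2 0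
  (.s k32 k16 3 (.s k33 k18 4 (.s k17 k49 3 (.d k34 k35 k51 0 4))))), (.s k2 k1 0 (.s k32 k16 3 (.s
  k37 k26 6 (.s k42 k47 2 (.s k22 k62 5 (.s k52 k7 4 (.d k60 k56 k41 1 6))))))), (.s k16 k32 3 (.s
  k18 k33 4 (.s k26 k37 6 (.s k21 k31 2 (.s k22 k30 1 (.s k20 k23 0 (.d k60 k41 k40 6 5))))))), (.s
  k2 k1 0 (.s k18 k33 4 (.s k26 k37 6 (.s k22 k30 1 (.s k42 k62 5 (.s k58 k10 3 (.d k63 k53 k21 2
  6)))))))] .n) (.c k248 (.l (.s k11 k7 1 (.s k18 k33 4 (.s k26 k37 6 (.s k41 k56 4 (.d k22 k30 k60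
  1 6)))))) .n)))

def t5_170 : T TT 256 :=
  (.q k48 [(.s k1 k2 0 (.s k32 k16 3 (.s k33 k18 4 (.s k17 k49 3 (.d k34 k35 k51 0 4))))), (.s k7
  k11 1 (.s k33 k18 4 (.s k37 k26 6 (.s k22 k52 4 (.d k41 k45 k60 1 6))))), (.s k1 k2 0 (.s k16 k32
  3 (.s k11 k7 1 (.s k26 k37 6 (.s k41 k56 4 (.d k21 k31 k61 2 5))))))] (.c k10 (.q k250 [(.s k1 k2
  0 (.s k32 k16 3 (.s k33 k18 4 (.s k17 k49 3 (.d k34 k35 k51 0 4))))), (.s k7 k11 1 (.s k33 k18 4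
  (.s k37 k26 6 (.s k22 k52 4 (.d k41 k45 k60 1 6))))), (.s k1 k2 0 (.s k16 k32 3 (.s k11 k7 1 (.s
  k26 k37 6 (.s k41 k56 4 (.d k21 k31 k61 2 5))))))] .n) (.c k250 (.q k10 [(.s k2 k1 0 (.s k6 k14 1
  (.s k9 k12 2 (.d k11 k8 k7 0 1)))), (.s k16 k32 3 (.s k26 k37 6 (.s k42 k58 3 (.d k21 k31 k63 2
  6))))] .n) .n)))

def t5_171 : T TT 256 :=
  (.q k48 [(.s k1 k2 0 (.s k32 k16 3 (.s k33 k18 4 (.s k17 k49 3 (.d k34 k35 k51 0 4))))), (.s k7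
  k11 1 (.s k33 k18 4 (.s k37 k26 6 (.s k22 k52 4 (.d k41 k45 k60 1 6))))), (.s k1 k2 0 (.s k16 k32
  3 (.s k11 k7 1 (.s k26 k37 6 (.s k41 k56 4 (.d k21 k31 k61 2 5))))))] .n)

def t5_172 : T TT 256 :=
  (.q k48 [(.s k1 k2 0 (.s k32 k16 3 (.s k33 k18 4 (.s k17 k49 3 (.d k34 k35 k51 0 4))))), (.s k7
  k11 1 (.s k33 k18 4 (.s k37 k26 6 (.s k22 k52 4 (.d k41 k45 k60 1 6))))), (.s k1 k2 0 (.s k16 k32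
  3 (.s k11 k7 1 (.s k26 k37 6 (.s k41 k56 4 (.d k21 k31 k61 2 5))))))] .n)

def t5_173 : T TT 256 :=
  (.q k48 [(.s k1 k2 0 (.s k32 k16 3 (.s k33 k18 4 (.s k17 k49 3 (.d k34 k35 k51 0 4))))), (.s k7
  k11 1 (.s k33 k18 4 (.s k37 k26 6 (.s k22 k52 4 (.d k41 k45 k60 1 6))))), (.s k1 k2 0 (.s k16 k32
  3 (.s k11 k7 1 (.s k26 k37 6 (.s k41 k56 4 (.d k21 k31 k61 2 5))))))] .n)

def t5_174 : T TT 256 :=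
  (.q k48 [(.s k1 k2 0 (.s k32 k16 3 (.s k33 k18 4 (.s k17 k49 3 (.d k34 k35 k51 0 4))))), (.s k7
  k11 1 (.s k33 k18 4 (.s k37 k26 6 (.s k22 k52 4 (.d k41 k45 k60 1 6))))), (.s k1 k2 0 (.s k16 k32
  3 (.s k11 k7 1 (.s k26 k37 6 (.s k41 k56 4 (.d k21 k31 k61 2 5))))))] .n)

def t5_175 : T TT 256 :=
  (.q k48 [(.s k1 k2 0 (.s k32 k16 3 (.s k33 k18 4 (.s k17 k49 3 (.d k34 k35 k51 0 4))))), (.s k7
  k11 1 (.s k33 k18 4 (.s k37 k26 6 (.s k22 k52 4 (.d k41 k45 k60 1 6))))), (.s k1 k2 0 (.s k16 k32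
  3 (.s k11 k7 1 (.s k26 k37 6 (.s k41 k56 4 (.d k21 k31 k61 2 5))))))] .n)

def t5_176 : T TT 256 :=
  (.q k48 [(.s k1 k2 0 (.s k32 k16 3 (.s k33 k18 4 (.s k17 k49 3 (.d k34 k35 k51 0 4))))), (.s k7
  k11 1 (.s k33 k18 4 (.s k37 k26 6 (.s k22 k52 4 (.d k41 k45 k60 1 6))))), (.s k1 k2 0 (.s k16 k32
  3 (.s k11 k7 1 (.s k26 k37 6 (.s k41 k56 4 (.d k21 k31 k61 2 5))))))] .n)

def t5_177 : T TT 256 :=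
  (.q k48 [(.s k1 k2 0 (.s k32 k16 3 (.s k33 k18 4 (.s k34 k35 0 (.d k17 k49 k51 3 4))))), (.s k7
  k11 1 (.s k33 k18 4 (.s k37 k26 6 (.s k22 k52 4 (.d k41 k45 k60 1 6))))), (.s k1 k2 0 (.s k16 k32
  3 (.s k11 k7 1 (.s k26 k37 6 (.s k41 k56 4 (.d k21 k31 k61 2 5))))))] .n)

def t5_178 : T TT 256 :=
  (.q k48 [(.s k1 k2 0 (.s k32 k16 3 (.s k33 k18 4 (.s k17 k49 3 (.d k34 k35 k51 0 4))))), (.s k7
  k11 1 (.s k33 k18 4 (.s k37 k26 6 (.s k22 k52 4 (.d k41 k45 k60 1 6))))), (.s k1 k2 0 (.s k16 k32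
  3 (.s k11 k7 1 (.s k26 k37 6 (.s k41 k56 4 (.d k21 k31 k61 2 5))))))] .n)

def t5_179 : T TT 256 :=
  (.q k48 [(.s k1 k2 0 (.s k32 k16 3 (.s k33 k18 4 (.s k17 k49 3 (.d k34 k35 k51 0 4))))), (.s k7
  k11 1 (.s k33 k18 4 (.s k37 k26 6 (.s k22 k52 4 (.d k41 k45 k60 1 6))))), (.s k1 k2 0 (.s k16 k32
  3 (.s k11 k7 1 (.s k26 k37 6 (.s k41 k56 4 (.d k21 k31 k61 2 5))))))] .n)

def t5_180 : T TT 256 :=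
  (.q k48 [(.s k1 k2 0 (.s k32 k16 3 (.s k33 k18 4 (.s k17 k49 3 (.d k34 k35 k51 0 4))))), (.s k7
  k11 1 (.s k33 k18 4 (.s k37 k26 6 (.s k22 k52 4 (.d k41 k45 k60 1 6))))), (.s k1 k2 0 (.s k16 k32
  3 (.s k11 k7 1 (.s k26 k37 6 (.s k41 k56 4 (.d k21 k31 k61 2 5))))))] .n)

def t5_181 : T TT 256 :=
  (.q k48 [(.s k1 k2 0 (.s k32 k16 3 (.s k33 k18 4 (.s k17 k49 3 (.d k34 k35 k51 0 4))))), (.s k7
  k11 1 (.s k33 k18 4 (.s k37 k26 6 (.s k22 k52 4 (.d k41 k45 k60 1 6))))), (.s k1 k2 0 (.s k16 k32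
  3 (.s k11 k7 1 (.s k26 k37 6 (.s k41 k56 4 (.d k21 k31 k61 2 5))))))] .n)

def t5_182 : T TT 256 :=
  (.q k48 [(.s k1 k2 0 (.s k32 k16 3 (.s k33 k18 4 (.s k17 k49 3 (.d k34 k35 k51 0 4))))), (.s k7
  k11 1 (.s k33 k18 4 (.s k37 k26 6 (.s k22 k52 4 (.d k41 k45 k60 1 6))))), (.s k1 k2 0 (.s k16 k32
  3 (.s k11 k7 1 (.s k26 k37 6 (.s k41 k56 4 (.d k21 k31 k61 2 5))))))] .n)

def t5_183 : T TT 256 :=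
  (.q k48 [(.s k1 k2 0 (.s k32 k16 3 (.s k33 k18 4 (.s k17 k49 3 (.d k34 k35 k51 0 4))))), (.s k7
  k11 1 (.s k33 k18 4 (.s k37 k26 6 (.s k22 k52 4 (.d k41 k45 k60 1 6))))), (.s k1 k2 0 (.s k16 k32
  3 (.s k11 k7 1 (.s k26 k37 6 (.s k41 k56 4 (.d k21 k31 k61 2 5))))))] .n)

def t5_184 : T TT 256 :=
  (.q k48 [(.s k1 k2 0 (.s k32 k16 3 (.s k33 k18 4 (.s k17 k49 3 (.d k34 k35 k51 0 4))))), (.s k7
  k11 1 (.s k33 k18 4 (.s k37 k26 6 (.s k22 k52 4 (.d k41 k45 k60 1 6))))), (.s k1 k2 0 (.s k16 k32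
  3 (.s k11 k7 1 (.s k26 k37 6 (.s k41 k56 4 (.d k21 k31 k61 2 5))))))] .n)

def t5_185 : T TT 256 :=
  (.q k48 [(.s k1 k2 0 (.s k32 k16 3 (.s k33 k18 4 (.s k34 k35 0 (.d k17 k49 k51 3 4))))), (.s k7
  k11 1 (.s k33 k18 4 (.s k37 k26 6 (.s k22 k52 4 (.d k41 k45 k60 1 6))))), (.s k1 k2 0 (.s k16 k32
  3 (.s k11 k7 1 (.s k26 k37 6 (.s k41 k56 4 (.d k21 k31 k61 2 5))))))] .n)

def t5_186 : T TT 256 :=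
  (.q k48 [(.s k1 k2 0 (.s k32 k16 3 (.s k33 k18 4 (.s k17 k49 3 (.d k34 k35 k51 0 4))))), (.s k7
  k11 1 (.s k33 k18 4 (.s k37 k26 6 (.s k22 k52 4 (.d k41 k45 k60 1 6))))), (.s k1 k2 0 (.s k16 k32
  3 (.s k11 k7 1 (.s k26 k37 6 (.s k41 k56 4 (.d k21 k31 k61 2 5))))))] .n)

def t5_187 : T TT 256 :=
  (.q k48 [(.s k1 k2 0 (.s k32 k16 3 (.s k33 k18 4 (.s k17 k49 3 (.d k34 k35 k51 0 4))))), (.s k7
  k11 1 (.s k33 k18 4 (.s k37 k26 6 (.s k22 k52 4 (.d k41 k45 k60 1 6))))), (.s k1 k2 0 (.s k16 k32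
  3 (.s k11 k7 1 (.s k26 k37 6 (.s k41 k56 4 (.d k21 k31 k61 2 5))))))] .n)

def t5_188 : T TT 256 :=
  (.q k48 [(.s k1 k2 0 (.s k32 k16 3 (.s k33 k18 4 (.s k17 k49 3 (.d k34 k35 k51 0 4))))), (.s k7
  k11 1 (.s k33 k18 4 (.s k37 k26 6 (.s k22 k52 4 (.d k41 k45 k60 1 6))))), (.s k1 k2 0 (.s k16 k32
  3 (.s k11 k7 1 (.s k26 k37 6 (.s k41 k56 4 (.d k21 k31 k61 2 5))))))] .n)

def t5_189 : T TT 256 :=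
  (.q k48 [(.s k1 k2 0 (.s k32 k16 3 (.s k33 k18 4 (.s k17 k49 3 (.d k34 k35 k51 0 4))))), (.s k7
  k11 1 (.s k33 k18 4 (.s k37 k26 6 (.s k22 k52 4 (.d k41 k45 k60 1 6))))), (.s k1 k2 0 (.s k16 k32
  3 (.s k11 k7 1 (.s k26 k37 6 (.s k41 k56 4 (.d k21 k31 k61 2 5))))))] .n)

def t5_190 : T TT 256 :=
  (.q k48 [(.s k1 k2 0 (.s k32 k16 3 (.s k33 k18 4 (.s k17 k49 3 (.d k34 k35 k51 0 4))))), (.s k7
  k11 1 (.s k33 k18 4 (.s k37 k26 6 (.s k22 k52 4 (.d k41 k45 k60 1 6))))), (.s k1 k2 0 (.s k16 k32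
  3 (.s k11 k7 1 (.s k26 k37 6 (.s k41 k56 4 (.d k21 k31 k61 2 5))))))] .n)

def t5_191 : T TT 256 :=
  (.q k48 [(.s k1 k2 0 (.s k32 k16 3 (.s k33 k18 4 (.s k17 k49 3 (.d k34 k35 k51 0 4))))), (.s k7
  k11 1 (.s k33 k18 4 (.s k37 k26 6 (.s k22 k52 4 (.d k41 k45 k60 1 6))))), (.s k1 k2 0 (.s k16 k32
  3 (.s k11 k7 1 (.s k26 k37 6 (.s k41 k56 4 (.d k21 k31 k61 2 5))))))] .n)

def t5_192 : T TT 256 :=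
  (.q k48 [(.s k1 k2 0 (.s k32 k16 3 (.s k33 k18 4 (.s k17 k49 3 (.d k34 k35 k51 0 4))))), (.s k7
  k11 1 (.s k33 k18 4 (.s k37 k26 6 (.s k22 k52 4 (.d k41 k45 k60 1 6))))), (.s k1 k2 0 (.s k16 k32
  3 (.s k11 k7 1 (.s k26 k37 6 (.s k41 k56 4 (.d k21 k31 k61 2 5))))))] .n)

def t5_193 : T TT 256 :=
  (.q k48 [(.s k1 k2 0 (.s k32 k16 3 (.s k33 k18 4 (.s k34 k35 0 (.d k17 k49 k51 3 4))))), (.s k7
  k11 1 (.s k33 k18 4 (.s k37 k26 6 (.s k22 k52 4 (.d k41 k45 k60 1 6))))), (.s k1 k2 0 (.s k16 k32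
  3 (.s k11 k7 1 (.s k26 k37 6 (.s k41 k56 4 (.d k21 k31 k61 2 5))))))] .n)

def t5_194 : T TT 256 :=
  (.q k48 [(.s k1 k2 0 (.s k32 k16 3 (.s k33 k18 4 (.s k17 k49 3 (.d k34 k35 k51 0 4))))), (.s k7
  k11 1 (.s k33 k18 4 (.s k37 k26 6 (.s k22 k52 4 (.d k41 k45 k60 1 6))))), (.s k1 k2 0 (.s k16 k32
  3 (.s k11 k7 1 (.s k26 k37 6 (.s k41 k56 4 (.d k21 k31 k61 2 5))))))] .n)

def t5_195 : T TT 256 :=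
  (.q k48 [(.s k1 k2 0 (.s k32 k16 3 (.s k33 k18 4 (.s k17 k49 3 (.d k34 k35 k51 0 4))))), (.s k7
  k11 1 (.s k33 k18 4 (.s k37 k26 6 (.s k22 k52 4 (.d k41 k45 k60 1 6))))), (.s k1 k2 0 (.s k16 k32
  3 (.s k11 k7 1 (.s k26 k37 6 (.s k41 k56 4 (.d k21 k31 k61 2 5))))))] .n)

def t5_196 : T TT 256 :=
  (.q k48 [(.s k1 k2 0 (.s k32 k16 3 (.s k33 k18 4 (.s k17 k49 3 (.d k34 k35 k51 0 4))))), (.s k7
  k11 1 (.s k33 k18 4 (.s k37 k26 6 (.s k22 k52 4 (.d k41 k45 k60 1 6))))), (.s k1 k2 0 (.s k16 k32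
  3 (.s k11 k7 1 (.s k26 k37 6 (.s k41 k56 4 (.d k21 k31 k61 2 5))))))] .n)

def t5_197 : T TT 256 :=
  (.q k69 [(.s k1 k2 0 (.s k207 k138 10 (.s k71 k139 9 (.s k70 k68 0 (.d k137 k205 k204 9 10))))),
  (.s k1 k2 0 (.s k137 k205 9 (.s k11 k7 1 (.s k74 k200 8 (.s k64 k79 2 (.d k192 k128 k133 7
  10)))))), (.s k207 k138 10 (.s k11 k7 1 (.s k139 k71 9 (.s k75 k203 7 (.s k135 k195 9 (.d k143
  k131 k79 1 7))))))] .n)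

def t5_198 : T TT 256 :=
  (.q k48 [(.s k1 k2 0 (.s k32 k16 3 (.s k33 k18 4 (.s k17 k49 3 (.d k34 k35 k51 0 4))))), (.s k7
  k11 1 (.s k33 k18 4 (.s k37 k26 6 (.s k22 k52 4 (.d k41 k45 k60 1 6))))), (.s k1 k2 0 (.s k16 k32
  3 (.s k11 k7 1 (.s k26 k37 6 (.s k41 k56 4 (.d k21 k31 k61 2 5))))))] .n)

def t5_199 : T TT 256 :=
  (.q k48 [(.s k1 k2 0 (.s k32 k16 3 (.s k33 k18 4 (.s k17 k49 3 (.d k34 k35 k51 0 4))))), (.s k7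
  k11 1 (.s k33 k18 4 (.s k37 k26 6 (.s k22 k52 4 (.d k41 k45 k60 1 6))))), (.s k1 k2 0 (.s k16 k32
  3 (.s k11 k7 1 (.s k26 k37 6 (.s k41 k56 4 (.d k21 k31 k61 2 5))))))] .n)

def t5_200 : T TT 256 :=
  (.q k48 [(.s k1 k2 0 (.s k32 k16 3 (.s k33 k18 4 (.s k17 k49 3 (.d k34 k35 k51 0 4))))), (.s k7
  k11 1 (.s k33 k18 4 (.s k37 k26 6 (.s k22 k52 4 (.d k41 k45 k60 1 6))))), (.s k1 k2 0 (.s k16 k32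
  3 (.s k11 k7 1 (.s k26 k37 6 (.s k41 k56 4 (.d k21 k31 k61 2 5))))))] .n)

def t5_201 : T TT 256 :=
  (.q k48 [(.s k1 k2 0 (.s k32 k16 3 (.s k33 k18 4 (.s k17 k49 3 (.d k34 k35 k51 0 4))))), (.s k7
  k11 1 (.s k33 k18 4 (.s k37 k26 6 (.s k22 k52 4 (.d k41 k45 k60 1 6))))), (.s k1 k2 0 (.s k16 k32
  3 (.s k11 k7 1 (.s k26 k37 6 (.s k41 k56 4 (.d k21 k31 k61 2 5))))))] .n)

def t5_202 : T TT 256 :=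
  (.q k48 [(.s k1 k2 0 (.s k32 k16 3 (.s k33 k18 4 (.s k17 k49 3 (.d k34 k35 k51 0 4))))), (.s k7
  k11 1 (.s k33 k18 4 (.s k37 k26 6 (.s k22 k52 4 (.d k41 k45 k60 1 6))))), (.s k1 k2 0 (.s k16 k32
  3 (.s k11 k7 1 (.s k26 k37 6 (.s k41 k56 4 (.d k21 k31 k61 2 5))))))] .n)

def t5_203 : T TT 256 :=
  (.q k48 [(.s k1 k2 0 (.s k32 k16 3 (.s k33 k18 4 (.s k17 k49 3 (.d k34 k35 k51 0 4))))), (.s k7
  k11 1 (.s k33 k18 4 (.s k37 k26 6 (.s k22 k52 4 (.d k41 k45 k60 1 6))))), (.s k1 k2 0 (.s k16 k32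
  3 (.s k11 k7 1 (.s k26 k37 6 (.s k41 k56 4 (.d k21 k31 k61 2 5))))))] .n)

def t5_204 : T TT 256 :=
  (.q k48 [(.s k1 k2 0 (.s k32 k16 3 (.s k33 k18 4 (.s k17 k49 3 (.d k34 k35 k51 0 4))))), (.s k7
  k11 1 (.s k33 k18 4 (.s k37 k26 6 (.s k22 k52 4 (.d k41 k45 k60 1 6))))), (.s k1 k2 0 (.s k16 k32
  3 (.s k11 k7 1 (.s k26 k37 6 (.s k41 k56 4 (.d k21 k31 k61 2 5))))))] .n)

def t5_205 : T TT 256 :=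
  (.q k26 [(.s k7 k11 1 (.s k37 k48 6 (.s k22 k52 4 (.s k60 k41 6 (.d k30 k18 k45 1 4))))), (.s k1
  k2 0 (.s k48 k37 6 (.s k32 k16 3 (.s k33 k18 4 (.s k17 k49 3 (.d k34 k35 k51 0 4)))))), (.s k1 k2
  0 (.s k11 k7 1 (.s k41 k56 4 (.s k21 k61 5 (.s k63 k42 6 (.d k31 k16 k47 2 3))))))] .n)

def t5_206 : T TT 256 :=
  (.q k48 [(.s k1 k2 0 (.s k32 k16 3 (.s k33 k18 4 (.s k17 k49 3 (.d k34 k35 k51 0 4))))), (.s k7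
  k11 1 (.s k33 k18 4 (.s k37 k26 6 (.s k22 k52 4 (.d k41 k45 k60 1 6))))), (.s k1 k2 0 (.s k16 k32
  3 (.s k11 k7 1 (.s k26 k37 6 (.s k41 k56 4 (.d k21 k31 k61 2 5))))))] .n)

def t5_207 : T TT 256 :=
  (.q k26 [(.s k7 k11 1 (.s k37 k48 6 (.s k22 k52 4 (.s k60 k41 6 (.d k30 k18 k45 1 4))))), (.s k1
  k2 0 (.s k48 k37 6 (.s k32 k16 3 (.s k33 k18 4 (.s k17 k49 3 (.d k34 k35 k51 0 4)))))), (.s k1 k2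
  0 (.s k11 k7 1 (.s k41 k56 4 (.s k21 k61 5 (.s k63 k42 6 (.d k31 k16 k47 2 3))))))] .n)

def t5_208 : T TT 256 :=
  (.q k63 [(.s k1 k2 0 (.s k21 k42 6 (.s k41 k61 5 (.s k22 k60 6 (.d k23 k20 k43 0 5))))), (.s k7
  k11 1 (.s k23 k43 5 (.s k39 k55 3 (.s k27 k51 5 (.d k31 k19 k47 1 3))))), (.s k1 k2 0 (.s k21 k42
  6 (.s k41 k61 5 (.s k11 k7 1 (.s k26 k56 4 (.d k31 k16 k47 2 3))))))] (.c k31 (.q k149 [(.s k1 k2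
  0 (.s k21 k42 6 (.s k41 k61 5 (.s k22 k60 6 (.d k23 k20 k43 0 5))))), (.s k21 k42 6 (.s k85 k213 7
  (.s k170 k255 14 (.s k192 k106 14 (.d k128 k191 k64 6 7))))), (.s k23 k43 5 (.s k86 k212 8 (.s
  k169 k252 14 (.s k192 k106 14 (.d k129 k189 k66 5 8)))))] .n) (.c k149 (.l (.s k31 k47 3 (.s k7
  k11 1 (.s k23 k43 5 (.s k39 k55 3 (.d k27 k19 k51 1 5)))))) .n)))

def t5_209 : T TT 256 :=
  (.q k26 [(.s k7 k11 1 (.s k37 k48 6 (.s k22 k52 4 (.s k60 k41 6 (.d k30 k18 k45 1 4))))), (.s k1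
  k2 0 (.s k48 k37 6 (.s k32 k16 3 (.s k33 k18 4 (.s k17 k49 3 (.d k34 k35 k51 0 4)))))), (.s k1 k2
  0 (.s k11 k7 1 (.s k41 k56 4 (.s k21 k61 5 (.s k63 k42 6 (.d k31 k16 k47 2 3))))))] .n)

def t5_210 : T TT 256 :=
  (.f k1 k2 0 (.q k69 [(.s k138 k207 10 (.s k137 k205 9 (.s k204 k70 10 (.d k136 k139 k68 0 9)))),
  (.s k137 k205 9 (.s k11 k7 1 (.s k74 k200 8 (.s k64 k79 2 (.d k192 k128 k133 7 10))))), (.s k207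
  k138 10 (.s k11 k7 1 (.s k139 k71 9 (.s k75 k203 7 (.s k135 k195 9 (.d k143 k131 k79 1 7))))))]
  (.c k30 (.q k150 [(.s k138 k207 10 (.s k137 k205 9 (.s k204 k70 10 (.d k136 k139 k68 0 9)))), (.s
  k137 k205 9 (.s k11 k7 1 (.s k74 k200 8 (.s k64 k79 2 (.d k192 k128 k133 7 10))))), (.s k207 k138
  10 (.s k11 k7 1 (.s k139 k71 9 (.s k75 k203 7 (.s k135 k195 9 (.d k143 k131 k79 1 7))))))] .n) (.c
  k150 (.q k30 [(.s k138 k207 10 (.s k137 k205 9 (.s k204 k70 10 (.d k136 k139 k68 0 9)))), (.s k7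
  k11 1 (.s k60 k45 4 (.s k22 k41 6 (.s k37 k52 4 (.d k26 k18 k48 1 6)))))] .n) .n))))

def t5_211 : T TT 256 :=
  (.q k26 [(.s k7 k11 1 (.s k37 k48 6 (.s k22 k52 4 (.s k60 k41 6 (.d k30 k18 k45 1 4))))), (.s k1
  k2 0 (.s k48 k37 6 (.s k32 k16 3 (.s k33 k18 4 (.s k17 k49 3 (.d k34 k35 k51 0 4)))))), (.s k1 k2
  0 (.s k11 k7 1 (.s k41 k56 4 (.s k21 k61 5 (.s k63 k42 6 (.d k31 k16 k47 2 3))))))] .n)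

def t5_212 : T TT 256 :=
  (.q k26 [(.s k7 k11 1 (.s k37 k48 6 (.s k22 k52 4 (.s k60 k41 6 (.d k30 k18 k45 1 4))))), (.s k1
  k2 0 (.s k48 k37 6 (.s k32 k16 3 (.s k33 k18 4 (.s k17 k49 3 (.d k34 k35 k51 0 4)))))), (.s k1 k2
  0 (.s k11 k7 1 (.s k41 k56 4 (.s k21 k61 5 (.s k63 k42 6 (.d k31 k16 k47 2 3))))))] .n)

def t5_213 : T TT 256 :=
  (.q k26 [(.s k7 k11 1 (.s k37 k48 6 (.s k22 k52 4 (.s k60 k41 6 (.d k30 k18 k45 1 4))))), (.s k1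
  k2 0 (.s k48 k37 6 (.s k32 k16 3 (.s k33 k18 4 (.s k17 k49 3 (.d k34 k35 k51 0 4)))))), (.s k1 k2
  0 (.s k11 k7 1 (.s k41 k56 4 (.s k21 k61 5 (.s k63 k42 6 (.d k31 k16 k47 2 3))))))] .n)

def t5_214 : T TT 256 :=
  (.q k26 [(.s k7 k11 1 (.s k37 k48 6 (.s k22 k52 4 (.s k60 k41 6 (.d k30 k18 k45 1 4))))), (.s k1
  k2 0 (.s k48 k37 6 (.s k32 k16 3 (.s k33 k18 4 (.s k17 k49 3 (.d k34 k35 k51 0 4)))))), (.s k1 k2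
  0 (.s k11 k7 1 (.s k41 k56 4 (.s k21 k61 5 (.s k63 k42 6 (.d k31 k16 k47 2 3))))))] .n)

def t5_215 : T TT 256 :=
  (.q k26 [(.s k7 k11 1 (.s k37 k48 6 (.s k22 k52 4 (.s k60 k41 6 (.d k30 k18 k45 1 4))))), (.s k1
  k2 0 (.s k48 k37 6 (.s k32 k16 3 (.s k33 k18 4 (.s k17 k49 3 (.d k34 k35 k51 0 4)))))), (.s k1 k2
  0 (.s k11 k7 1 (.s k41 k56 4 (.s k21 k61 5 (.s k63 k42 6 (.d k31 k16 k47 2 3))))))] .n)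

def t5_216 : T TT 256 :=
  (.q k27 [(.s k7 k11 1 (.s k39 k51 5 (.s k23 k55 3 (.s k63 k43 5 (.d k31 k19 k47 1 3))))), (.s k1
  k2 0 (.s k51 k39 5 (.s k17 k34 4 (.s k33 k49 3 (.s k18 k48 4 (.d k19 k16 k35 0 3)))))), (.s k2 k1
  0 (.s k11 k7 1 (.s k43 k59 3 (.s k63 k23 5 (.s k42 k21 6 (.s k22 k62 5 (.d k41 k40 k60 0 6)))))))]
  (.c k39 (.q k26 [(.s k7 k11 1 (.s k37 k48 6 (.s k22 k52 4 (.s k60 k41 6 (.d k30 k18 k45 1 4))))),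
  (.s k1 k2 0 (.s k48 k37 6 (.s k32 k16 3 (.s k33 k18 4 (.s k17 k49 3 (.d k34 k35 k51 0 4)))))), (.s
  k11 k7 1 (.s k41 k56 4 (.s k43 k59 3 (.s k42 k40 0 (.d k63 k23 k21 5 6)))))] .n) .n))

def t5_217 : T TT 256 :=
  (.q k63 [(.s k1 k2 0 (.s k21 k42 6 (.s k41 k61 5 (.s k22 k60 6 (.d k23 k20 k43 0 5))))), (.s k7
  k11 1 (.s k23 k43 5 (.s k39 k55 3 (.s k27 k51 5 (.d k31 k19 k47 1 3))))), (.s k1 k2 0 (.s k21 k42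
  6 (.s k41 k61 5 (.s k11 k7 1 (.s k26 k56 4 (.d k31 k16 k47 2 3))))))] .n)

def t5_218 : T TT 256 :=
  (.q k48 [(.s k1 k2 0 (.s k32 k16 3 (.s k33 k18 4 (.s k17 k49 3 (.d k34 k35 k51 0 4))))), (.s k11
  k7 1 (.s k18 k33 4 (.s k26 k37 6 (.s k41 k56 4 (.d k22 k30 k60 1 6))))), (.s k1 k2 0 (.s k16 k32 3
  (.s k11 k7 1 (.s k26 k37 6 (.s k41 k56 4 (.d k21 k31 k61 2 5))))))] (.c k26 (.q k154 [(.s k1 k2 0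
  (.s k33 k18 4 (.s k17 k49 3 (.s k34 k51 4 (.d k32 k35 k16 0 3))))), (.s k16 k32 3 (.s k85 k223 10
  (.s k170 k255 14 (.s k207 k101 14 (.d k138 k186 k69 3 10))))), (.s k18 k33 4 (.s k86 k222 9 (.s
  k169 k252 14 (.s k207 k101 14 (.d k139 k184 k71 4 9)))))] .n) (.c k154 (.l (.s k26 k37 6 (.s k11
  k7 1 (.s k18 k33 4 (.s k41 k56 4 (.d k22 k30 k60 1 6)))))) .n)))

def t5_219 : T TT 256 :=
  (.q k21 [(.s k1 k2 0 (.s k42 k63 6 (.s k41 k61 5 (.s k60 k22 6 (.d k40 k43 k20 0 5))))), (.s k63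
  k42 6 (.s k11 k7 1 (.s k43 k23 5 (.s k27 k59 3 (.s k39 k51 5 (.d k47 k35 k31 1 3)))))), (.s k1 k2
  0 (.s k41 k61 5 (.s k11 k7 1 (.s k26 k56 4 (.s k16 k31 2 (.d k48 k32 k37 3 6))))))] .n)

def t5_220 : T TT 256 :=
  (.q k26 [(.s k7 k11 1 (.s k37 k48 6 (.s k22 k52 4 (.s k60 k41 6 (.d k30 k18 k45 1 4))))), (.s k1
  k2 0 (.s k48 k37 6 (.s k32 k16 3 (.s k33 k18 4 (.s k17 k49 3 (.d k34 k35 k51 0 4)))))), (.s k1 k2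
  0 (.s k11 k7 1 (.s k41 k56 4 (.s k21 k61 5 (.s k63 k42 6 (.d k31 k16 k47 2 3))))))] .n)

def t5_221 : T TT 256 :=
  (.q k21 [(.s k1 k2 0 (.s k42 k63 6 (.s k41 k61 5 (.s k60 k22 6 (.d k40 k43 k20 0 5))))), (.s k63
  k42 6 (.s k11 k7 1 (.s k43 k23 5 (.s k27 k59 3 (.s k39 k51 5 (.d k47 k35 k31 1 3)))))), (.s k1 k2
  0 (.s k41 k61 5 (.s k11 k7 1 (.s k26 k56 4 (.s k16 k31 2 (.d k48 k32 k37 3 6))))))] .n)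

def t5_222 : T TT 256 :=
  (.q k21 [(.s k1 k2 0 (.s k42 k63 6 (.s k41 k61 5 (.s k60 k22 6 (.d k40 k43 k20 0 5))))), (.s k63
  k42 6 (.s k11 k7 1 (.s k43 k23 5 (.s k27 k59 3 (.s k39 k51 5 (.d k47 k35 k31 1 3)))))), (.s k1 k2
  0 (.s k41 k61 5 (.s k11 k7 1 (.s k26 k56 4 (.s k16 k31 2 (.d k48 k32 k37 3 6))))))] .n)

def t5_223 : T TT 256 :=
  (.q k26 [(.s k7 k11 1 (.s k37 k48 6 (.s k22 k52 4 (.s k60 k41 6 (.d k30 k18 k45 1 4))))), (.s k1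
  k2 0 (.s k48 k37 6 (.s k32 k16 3 (.s k33 k18 4 (.s k17 k49 3 (.d k34 k35 k51 0 4)))))), (.s k1 k2
  0 (.s k11 k7 1 (.s k41 k56 4 (.s k21 k61 5 (.s k63 k42 6 (.d k31 k16 k47 2 3))))))] .n)

def t5_224 : T TT 256 :=
  (.q k21 [(.s k1 k2 0 (.s k42 k63 6 (.s k41 k61 5 (.s k60 k22 6 (.d k40 k43 k20 0 5))))), (.s k63
  k42 6 (.s k11 k7 1 (.s k43 k23 5 (.s k27 k59 3 (.s k39 k51 5 (.d k47 k35 k31 1 3)))))), (.s k1 k2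
  0 (.s k41 k61 5 (.s k11 k7 1 (.s k26 k56 4 (.s k16 k31 2 (.d k48 k32 k37 3 6))))))] .n)

def t5_225 : T TT 256 :=
  (.q k26 [(.s k7 k11 1 (.s k37 k48 6 (.s k22 k52 4 (.s k60 k41 6 (.d k30 k18 k45 1 4))))), (.s k1
  k2 0 (.s k48 k37 6 (.s k32 k16 3 (.s k33 k18 4 (.s k17 k49 3 (.d k34 k35 k51 0 4)))))), (.s k1 k2
  0 (.s k11 k7 1 (.s k41 k56 4 (.s k21 k61 5 (.s k63 k42 6 (.d k31 k16 k47 2 3))))))] .n)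

def t5_226 : T TT 256 :=
  (.q k21 [(.s k1 k2 0 (.s k42 k63 6 (.s k41 k61 5 (.s k60 k22 6 (.d k40 k43 k20 0 5))))), (.s k63
  k42 6 (.s k11 k7 1 (.s k43 k23 5 (.s k27 k59 3 (.s k39 k51 5 (.d k47 k35 k31 1 3)))))), (.s k1 k2
  0 (.s k41 k61 5 (.s k11 k7 1 (.s k26 k56 4 (.s k16 k31 2 (.d k48 k32 k37 3 6))))))] .n)

def t5_227 : T TT 256 :=
  (.q k26 [(.s k7 k11 1 (.s k37 k48 6 (.s k22 k52 4 (.s k60 k41 6 (.d k30 k18 k45 1 4))))), (.s k1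
  k2 0 (.s k48 k37 6 (.s k32 k16 3 (.s k33 k18 4 (.s k17 k49 3 (.d k34 k35 k51 0 4)))))), (.s k1 k2
  0 (.s k11 k7 1 (.s k41 k56 4 (.s k21 k61 5 (.s k63 k42 6 (.d k31 k16 k47 2 3))))))] .n)

def t5_228 : T TT 256 :=
  (.q k21 [(.s k1 k2 0 (.s k42 k63 6 (.s k41 k61 5 (.s k60 k22 6 (.d k40 k43 k20 0 5))))), (.s k63
  k42 6 (.s k11 k7 1 (.s k43 k23 5 (.s k27 k59 3 (.s k39 k51 5 (.d k47 k35 k31 1 3)))))), (.s k1 k2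
  0 (.s k41 k61 5 (.s k11 k7 1 (.s k26 k56 4 (.s k16 k31 2 (.d k48 k32 k37 3 6))))))] .n)

def t5_229 : T TT 256 :=
  (.q k26 [(.s k7 k11 1 (.s k37 k48 6 (.s k22 k52 4 (.s k60 k41 6 (.d k30 k18 k45 1 4))))), (.s k1
  k2 0 (.s k48 k37 6 (.s k32 k16 3 (.s k33 k18 4 (.s k17 k49 3 (.d k34 k35 k51 0 4)))))), (.s k1 k2
  0 (.s k11 k7 1 (.s k41 k56 4 (.s k21 k61 5 (.s k63 k42 6 (.d k31 k16 k47 2 3))))))] .n)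

def t5_230 : T TT 256 :=
  (.q k21 [(.s k1 k2 0 (.s k42 k63 6 (.s k41 k61 5 (.s k60 k22 6 (.d k40 k43 k20 0 5))))), (.s k63
  k42 6 (.s k11 k7 1 (.s k43 k23 5 (.s k27 k59 3 (.s k39 k51 5 (.d k47 k35 k31 1 3)))))), (.s k1 k2
  0 (.s k41 k61 5 (.s k11 k7 1 (.s k26 k56 4 (.s k16 k31 2 (.d k48 k32 k37 3 6))))))] .n)

def t5_231 : T TT 256 :=
  (.q k21 [(.s k1 k2 0 (.s k42 k63 6 (.s k41 k61 5 (.s k60 k22 6 (.d k40 k43 k20 0 5))))), (.s k63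
  k42 6 (.s k11 k7 1 (.s k43 k23 5 (.s k27 k59 3 (.s k39 k51 5 (.d k47 k35 k31 1 3)))))), (.s k1 k2
  0 (.s k41 k61 5 (.s k11 k7 1 (.s k26 k56 4 (.s k16 k31 2 (.d k48 k32 k37 3 6))))))] .n)

def t5_232 : T TT 256 :=
  (.q k26 [(.s k7 k11 1 (.s k37 k48 6 (.s k22 k52 4 (.s k60 k41 6 (.d k30 k18 k45 1 4))))), (.s k1
  k2 0 (.s k48 k37 6 (.s k32 k16 3 (.s k33 k18 4 (.s k17 k49 3 (.d k34 k35 k51 0 4)))))), (.s k1 k2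
  0 (.s k11 k7 1 (.s k41 k56 4 (.s k21 k61 5 (.s k63 k42 6 (.d k31 k16 k47 2 3))))))] .n)

def t5_233 : T TT 256 :=
  (.q k21 [(.s k1 k2 0 (.s k42 k63 6 (.s k41 k61 5 (.s k60 k22 6 (.d k40 k43 k20 0 5))))), (.s k63
  k42 6 (.s k11 k7 1 (.s k43 k23 5 (.s k27 k59 3 (.s k39 k51 5 (.d k47 k35 k31 1 3)))))), (.s k1 k2
  0 (.s k41 k61 5 (.s k11 k7 1 (.s k26 k56 4 (.s k16 k31 2 (.d k48 k32 k37 3 6))))))] .n)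

def t5_234 : T TT 256 :=
  (.q k26 [(.s k7 k11 1 (.s k37 k48 6 (.s k22 k52 4 (.s k60 k41 6 (.d k30 k18 k45 1 4))))), (.s k1
  k2 0 (.s k48 k37 6 (.s k32 k16 3 (.s k33 k18 4 (.s k17 k49 3 (.d k34 k35 k51 0 4)))))), (.s k1 k2
  0 (.s k11 k7 1 (.s k41 k56 4 (.s k21 k61 5 (.s k63 k42 6 (.d k31 k16 k47 2 3))))))] .n)

def t5_235 : T TT 256 :=
  (.q k69 [(.s k1 k2 0 (.s k138 k207 10 (.s k137 k205 9 (.s k204 k70 10 (.d k136 k139 k68 0 9))))),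
  (.s k207 k138 10 (.s k11 k7 1 (.s k139 k71 9 (.s k75 k203 7 (.s k135 k195 9 (.d k143 k131 k79 1
  7)))))), (.s k1 k2 0 (.s k137 k205 9 (.s k11 k7 1 (.s k74 k200 8 (.s k64 k79 2 (.d k192 k128 k133
  7 10))))))] .n)

def t5_236 : T TT 256 :=
  (.q k21 [(.s k1 k2 0 (.s k42 k63 6 (.s k41 k61 5 (.s k60 k22 6 (.d k40 k43 k20 0 5))))), (.s k63
  k42 6 (.s k11 k7 1 (.s k43 k23 5 (.s k27 k59 3 (.s k39 k51 5 (.d k47 k35 k31 1 3)))))), (.s k1 k2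
  0 (.s k41 k61 5 (.s k11 k7 1 (.s k26 k56 4 (.s k16 k31 2 (.d k48 k32 k37 3 6))))))] .n)

def t5_237 : T TT 256 :=
  (.q k26 [(.s k7 k11 1 (.s k37 k48 6 (.s k22 k52 4 (.s k60 k41 6 (.d k30 k18 k45 1 4))))), (.s k1
  k2 0 (.s k48 k37 6 (.s k32 k16 3 (.s k33 k18 4 (.s k17 k49 3 (.d k34 k35 k51 0 4)))))), (.s k1 k2
  0 (.s k11 k7 1 (.s k41 k56 4 (.s k21 k61 5 (.s k63 k42 6 (.d k31 k16 k47 2 3))))))] .n)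

def t5_238 : T TT 256 :=
  (.q k69 [(.s k1 k2 0 (.s k138 k207 10 (.s k137 k205 9 (.s k204 k70 10 (.d k136 k139 k68 0 9))))),
  (.s k207 k138 10 (.s k11 k7 1 (.s k139 k71 9 (.s k75 k203 7 (.s k135 k195 9 (.d k143 k131 k79 1
  7)))))), (.s k1 k2 0 (.s k137 k205 9 (.s k11 k7 1 (.s k74 k200 8 (.s k64 k79 2 (.d k192 k128 k133
  7 10))))))] .n)

def t5_239 : T TT 256 :=
  (.q k21 [(.s k1 k2 0 (.s k42 k63 6 (.s k41 k61 5 (.s k60 k22 6 (.d k40 k43 k20 0 5))))), (.s k63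
  k42 6 (.s k11 k7 1 (.s k43 k23 5 (.s k27 k59 3 (.s k39 k51 5 (.d k47 k35 k31 1 3)))))), (.s k1 k2
  0 (.s k41 k61 5 (.s k11 k7 1 (.s k26 k56 4 (.s k16 k31 2 (.d k48 k32 k37 3 6))))))] .n)

def t5_240 : T TT 256 :=
  (.q k69 [(.s k1 k2 0 (.s k138 k207 10 (.s k137 k205 9 (.s k204 k70 10 (.d k136 k139 k68 0 9))))),
  (.s k207 k138 10 (.s k11 k7 1 (.s k139 k71 9 (.s k75 k203 7 (.s k135 k195 9 (.d k143 k131 k79 1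
  7)))))), (.s k1 k2 0 (.s k137 k205 9 (.s k11 k7 1 (.s k74 k200 8 (.s k64 k79 2 (.d k192 k128 k133
  7 10))))))] .n)

def t5_241 : T TT 256 :=
  (.q k26 [(.s k7 k11 1 (.s k37 k48 6 (.s k22 k52 4 (.s k60 k41 6 (.d k30 k18 k45 1 4))))), (.s k1
  k2 0 (.s k48 k37 6 (.s k32 k16 3 (.s k33 k18 4 (.s k17 k49 3 (.d k34 k35 k51 0 4)))))), (.s k1 k2
  0 (.s k11 k7 1 (.s k41 k56 4 (.s k21 k61 5 (.s k63 k42 6 (.d k31 k16 k47 2 3))))))] .n)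

def t5_242 : T TT 256 :=
  (.q k21 [(.s k1 k2 0 (.s k42 k63 6 (.s k41 k61 5 (.s k60 k22 6 (.d k40 k43 k20 0 5))))), (.s k63
  k42 6 (.s k11 k7 1 (.s k43 k23 5 (.s k27 k59 3 (.s k39 k51 5 (.d k47 k35 k31 1 3)))))), (.s k1 k2
  0 (.s k41 k61 5 (.s k11 k7 1 (.s k26 k56 4 (.s k16 k31 2 (.d k48 k32 k37 3 6))))))] (.c k14 (.q
  k166 [(.s k1 k2 0 (.s k42 k63 6 (.s k41 k61 5 (.s k60 k22 6 (.d k40 k43 k20 0 5))))), (.s k63 k42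
  6 (.s k11 k7 1 (.s k43 k23 5 (.s k27 k59 3 (.s k39 k51 5 (.d k47 k35 k31 1 3)))))), (.s k1 k2 0
  (.s k41 k61 5 (.s k11 k7 1 (.s k26 k56 4 (.s k16 k31 2 (.d k48 k32 k37 3 6))))))] (.c k6 (.l (.s
  k2 k1 0 (.s k42 k63 6 (.s k22 k62 5 (.s k60 k41 6 (.d k20 k23 k40 0 5)))))) .n)) (.c k166 (.q k14
  [(.s k2 k1 0 (.s k6 k10 1 (.d k12 k13 k9 0 2))), (.s k63 k42 6 (.s k7 k11 1 (.s k23 k43 5 (.s k39
  k55 3 (.s k27 k51 5 (.d k31 k19 k47 1 3))))))] .n) .n)))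

def t5_243 : T TT 256 :=
  (.q k69 [(.s k1 k2 0 (.s k138 k207 10 (.s k137 k205 9 (.s k204 k70 10 (.d k136 k139 k68 0 9))))),
  (.s k207 k138 10 (.s k11 k7 1 (.s k139 k71 9 (.s k75 k203 7 (.s k135 k195 9 (.d k143 k131 k79 1
  7)))))), (.s k1 k2 0 (.s k137 k205 9 (.s k11 k7 1 (.s k74 k200 8 (.s k64 k79 2 (.d k192 k128 k133
  7 10))))))] .n)

def t5_244 : T TT 256 :=
  (.q k26 [(.s k7 k11 1 (.s k37 k48 6 (.s k22 k52 4 (.s k60 k41 6 (.d k30 k18 k45 1 4))))), (.s k1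
  k2 0 (.s k48 k37 6 (.s k32 k16 3 (.s k33 k18 4 (.s k17 k49 3 (.d k34 k35 k51 0 4)))))), (.s k1 k2
  0 (.s k11 k7 1 (.s k41 k56 4 (.s k21 k61 5 (.s k63 k42 6 (.d k31 k16 k47 2 3))))))] .n)

def t5_245 : T TT 256 :=
  (.f k1 k2 0 (.q k69 [(.s k138 k207 10 (.s k137 k205 9 (.s k204 k70 10 (.d k136 k139 k68 0 9)))),
  (.s k137 k205 9 (.s k11 k7 1 (.s k74 k200 8 (.s k64 k79 2 (.d k192 k128 k133 7 10))))), (.s k207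
  k138 10 (.s k11 k7 1 (.s k139 k71 9 (.s k75 k203 7 (.s k135 k195 9 (.d k143 k131 k79 1 7))))))]
  (.c k85 (.q k165 [(.s k138 k207 10 (.s k137 k205 9 (.s k204 k70 10 (.d k136 k139 k68 0 9)))), (.s
  k137 k205 9 (.s k11 k7 1 (.s k74 k200 8 (.s k64 k79 2 (.d k192 k128 k133 7 10))))), (.s k207 k138
  10 (.s k11 k7 1 (.s k139 k71 9 (.s k75 k203 7 (.s k135 k195 9 (.d k143 k131 k79 1 7))))))] (.c k80
  (.q k95 [(.s k138 k207 10 (.s k137 k205 9 (.s k204 k70 10 (.d k136 k139 k68 0 9)))), (.s k7 k11 1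
  (.s k255 k175 11 (.s k87 k171 13 (.s k167 k247 11 (.d k91 k83 k243 1 13)))))] .n) (.c k95 (.q k80
  [(.s k138 k207 10 (.s k137 k205 9 (.s k204 k70 10 (.d k136 k139 k68 0 9)))), (.s k240 k160 11 (.s
  k7 k11 1 (.s k161 k82 12 (.s k86 k244 12 (.d k169 k173 k252 1 14)))))] .n) .n))) (.c k165 (.q k85
  [(.s k138 k207 10 (.s k137 k205 9 (.s k204 k70 10 (.d k136 k139 k68 0 9)))), (.s k170 k255 14 (.s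
  k169 k253 13 (.s k252 k86 14 (.d k168 k171 k84 0 13))))] .n) .n))))

def t5_246 : T TT 256 :=
  (.q k26 [(.s k7 k11 1 (.s k37 k48 6 (.s k22 k52 4 (.s k60 k41 6 (.d k30 k18 k45 1 4))))), (.s k1
  k2 0 (.s k48 k37 6 (.s k32 k16 3 (.s k33 k18 4 (.s k17 k49 3 (.d k34 k35 k51 0 4)))))), (.s k1 k2
  0 (.s k11 k7 1 (.s k41 k56 4 (.s k21 k61 5 (.s k63 k42 6 (.d k31 k16 k47 2 3))))))] .n)

def t5_247 : T TT 256 :=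
  (.q k26 [(.s k7 k11 1 (.s k37 k48 6 (.s k22 k52 4 (.s k60 k41 6 (.d k30 k18 k45 1 4))))), (.s k1
  k2 0 (.s k48 k37 6 (.s k32 k16 3 (.s k33 k18 4 (.s k17 k49 3 (.d k34 k35 k51 0 4)))))), (.s k1 k2
  0 (.s k11 k7 1 (.s k41 k56 4 (.s k21 k61 5 (.s k63 k42 6 (.d k31 k16 k47 2 3))))))] .n)

def t5_248 : T TT 256 :=
  (.q k26 [(.s k48 k37 6 (.s k18 k33 4 (.s k22 k30 1 (.s k41 k60 6 (.d k11 k7 k56 1 4))))), (.s k1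
  k2 0 (.s k11 k7 1 (.s k41 k56 4 (.s k21 k61 5 (.s k63 k42 6 (.d k31 k16 k47 2 3)))))), (.s k1 k2 0
  (.s k48 k37 6 (.s k32 k16 3 (.s k33 k18 4 (.s k17 k49 3 (.d k34 k35 k51 0 4))))))] (.c k11 (.q
  k169 [(.s k1 k2 0 (.s k85 k253 13 (.s k170 k255 14 (.s k252 k86 14 (.d k168 k171 k84 0 13))))),
  (.s k86 k252 14 (.s k48 k37 6 (.s k18 k33 4 (.s k154 k222 9 (.s k207 k101 14 (.d k139 k184 k71 4
  9)))))), (.s k1 k2 0 (.s k48 k37 6 (.s k32 k16 3 (.s k33 k18 4 (.s k17 k49 3 (.d k34 k35 k51 0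
  4))))))] .n) (.c k21 (.l (.s k11 k7 1 (.s k41 k56 4 (.s k22 k60 6 (.s k18 k30 1 (.d k48 k33 k37 4
  6)))))) (.c k169 (.l (.s k11 k7 1 (.s k41 k56 4 (.s k22 k60 6 (.s k48 k37 6 (.d k18 k30 k33 1
  4)))))) .n))))

def t5_249 : T TT 256 :=
  (.q k48 [(.s k1 k2 0 (.s k32 k16 3 (.s k33 k18 4 (.s k17 k49 3 (.d k34 k35 k51 0 4))))), (.s k7
  k11 1 (.s k33 k18 4 (.s k37 k26 6 (.s k22 k52 4 (.d k41 k45 k60 1 6))))), (.s k1 k2 0 (.s k16 k32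
  3 (.s k11 k7 1 (.s k26 k37 6 (.s k41 k56 4 (.d k21 k31 k61 2 5))))))] .n)

def t5_250 : T TT 256 :=
  (.q k48 [(.s k1 k2 0 (.s k32 k16 3 (.s k33 k18 4 (.s k17 k49 3 (.d k34 k35 k51 0 4))))), (.s k7
  k11 1 (.s k33 k18 4 (.s k37 k26 6 (.s k22 k52 4 (.d k41 k45 k60 1 6))))), (.s k1 k2 0 (.s k16 k32
  3 (.s k11 k7 1 (.s k26 k37 6 (.s k41 k56 4 (.d k21 k31 k61 2 5))))))] (.c k10 (.q k170 [(.s k1 k2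
  0 (.s k32 k16 3 (.s k33 k18 4 (.s k17 k49 3 (.d k34 k35 k51 0 4))))), (.s k16 k32 3 (.s k85 k255
  14 (.s k154 k223 10 (.s k207 k101 14 (.d k138 k186 k69 3 10))))), (.s k1 k2 0 (.s k85 k255 14 (.s
  k169 k253 13 (.s k252 k86 14 (.d k168 k171 k84 0 13)))))] .n) (.c k170 (.q k10 [(.s k2 k1 0 (.s k6
  k14 1 (.s k9 k12 2 (.d k11 k8 k7 0 1)))), (.s k16 k32 3 (.s k26 k37 6 (.s k42 k58 3 (.d k21 k31
  k63 2 6))))] .n) .n)))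

def t5_251 : T TT 256 :=
  (.q k21 [(.s k1 k2 0 (.s k42 k63 6 (.s k41 k61 5 (.s k60 k22 6 (.d k40 k43 k20 0 5))))), (.s k63
  k42 6 (.s k11 k7 1 (.s k43 k23 5 (.s k27 k59 3 (.s k39 k51 5 (.d k47 k35 k31 1 3)))))), (.s k1 k2
  0 (.s k41 k61 5 (.s k11 k7 1 (.s k26 k56 4 (.s k16 k31 2 (.d k48 k32 k37 3 6))))))] .n)

def t5_252 : T TT 256 :=
  (.q k21 [(.s k1 k2 0 (.s k42 k63 6 (.s k41 k61 5 (.s k60 k22 6 (.d k40 k43 k20 0 5))))), (.s k63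
  k42 6 (.s k11 k7 1 (.s k43 k23 5 (.s k27 k59 3 (.s k39 k51 5 (.d k47 k35 k31 1 3)))))), (.s k1 k2
  0 (.s k41 k61 5 (.s k11 k7 1 (.s k26 k56 4 (.s k16 k31 2 (.d k48 k32 k37 3 6))))))] .n)

def t5_253 : T TT 256 :=
  (.q k26 [(.s k7 k11 1 (.s k37 k48 6 (.s k22 k52 4 (.s k60 k41 6 (.d k30 k18 k45 1 4))))), (.s k1
  k2 0 (.s k48 k37 6 (.s k32 k16 3 (.s k33 k18 4 (.s k17 k49 3 (.d k34 k35 k51 0 4)))))), (.s k1 k2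
  0 (.s k11 k7 1 (.s k41 k56 4 (.s k21 k61 5 (.s k63 k42 6 (.d k31 k16 k47 2 3))))))] .n)

def t5_254 : T TT 256 :=
  (.q k21 [(.s k1 k2 0 (.s k42 k63 6 (.s k41 k61 5 (.s k60 k22 6 (.d k40 k43 k20 0 5))))), (.s k63
  k42 6 (.s k11 k7 1 (.s k43 k23 5 (.s k27 k59 3 (.s k39 k51 5 (.d k47 k35 k31 1 3)))))), (.s k1 k2
  0 (.s k41 k61 5 (.s k11 k7 1 (.s k26 k56 4 (.s k16 k31 2 (.d k48 k32 k37 3 6))))))] .n)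

def t5_255 : T TT 256 :=
  (.q k26 [(.s k7 k11 1 (.s k37 k48 6 (.s k22 k52 4 (.s k60 k41 6 (.d k30 k18 k45 1 4))))), (.s k1
  k2 0 (.s k48 k37 6 (.s k32 k16 3 (.s k33 k18 4 (.s k17 k49 3 (.d k34 k35 k51 0 4)))))), (.s k1 k2
  0 (.s k11 k7 1 (.s k41 k56 4 (.s k21 k61 5 (.s k63 k42 6 (.d k31 k16 k47 2 3))))))] .n)

def t5 : T TT 256 :=
  (.q k3 [] (.c k1 t5_1 (.c k2 t5_2 (.c k4 t5_4 (.c k6 t5_6 (.c k7 t5_7 (.c k8 t5_8 (.c k9 t5_9 (.c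
  k10 t5_10 (.c k11 t5_11 (.c k12 t5_12 (.c k13 t5_13 (.c k14 t5_14 (.c k16 t5_16 (.c k17 t5_17 (.c
  k18 t5_18 (.c k19 t5_19 (.c k20 t5_20 (.c k21 t5_21 (.c k22 t5_22 (.c k23 t5_23 (.c k24 t5_24 (.c
  k25 t5_25 (.c k26 t5_26 (.c k27 t5_27 (.c k28 t5_28 (.c k29 t5_29 (.c k30 t5_30 (.c k31 t5_31 (.c
  k32 t5_32 (.c k33 t5_33 (.c k34 t5_34 (.c k35 t5_35 (.c k36 t5_36 (.c k37 t5_37 (.c k38 t5_38 (.c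
  k39 t5_39 (.c k40 t5_40 (.c k41 t5_41 (.c k42 t5_42 (.c k43 t5_43 (.c k44 t5_44 (.c k45 t5_45 (.c
  k46 t5_46 (.c k47 t5_47 (.c k48 t5_48 (.c k49 t5_49 (.c k50 t5_50 (.c k51 t5_51 (.c k52 t5_52 (.c
  k53 t5_53 (.c k54 t5_54 (.c k55 t5_55 (.c k56 t5_56 (.c k57 t5_57 (.c k58 t5_58 (.c k59 t5_59 (.c
  k60 t5_60 (.c k61 t5_61 (.c k62 t5_62 (.c k63 t5_63 (.c k64 t5_64 (.c k65 t5_65 (.c k66 t5_66 (.c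
  k67 t5_67 (.c k68 t5_68 (.c k69 t5_69 (.c k70 t5_70 (.c k71 t5_71 (.c k72 t5_72 (.c k73 t5_73 (.c
  k74 t5_74 (.c k75 t5_75 (.c k76 t5_76 (.c k77 t5_77 (.c k78 t5_78 (.c k79 t5_79 (.c k80 t5_80 (.c
  k81 t5_81 (.c k82 t5_82 (.c k83 t5_83 (.c k84 t5_84 (.c k85 t5_85 (.c k86 t5_86 (.c k87 t5_87 (.c
  k88 t5_88 (.c k89 t5_89 (.c k91 t5_91 (.c k92 t5_92 (.c k93 t5_93 (.c k94 t5_94 (.c k95 t5_95 (.c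
  k96 t5_96 (.c k97 t5_97 (.c k98 t5_98 (.c k99 t5_99 (.c k100 t5_100 (.c k101 t5_101 (.c k102
  t5_102 (.c k103 t5_103 (.c k104 t5_104 (.c k105 t5_105 (.c k106 t5_106 (.c k107 t5_107 (.c k108
  t5_108 (.c k109 t5_109 (.c k110 t5_110 (.c k111 t5_111 (.c k112 t5_112 (.c k113 t5_113 (.c k114
  t5_114 (.c k115 t5_115 (.c k116 t5_116 (.c k117 t5_117 (.c k118 t5_118 (.c k119 t5_119 (.c k120
  t5_120 (.c k121 t5_121 (.c k122 t5_122 (.c k123 t5_123 (.c k124 t5_124 (.c k125 t5_125 (.c k126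
  t5_126 (.c k127 t5_127 (.c k128 t5_128 (.c k129 t5_129 (.c k130 t5_130 (.c k131 t5_131 (.c k132
  t5_132 (.c k133 t5_133 (.c k134 t5_134 (.c k135 t5_135 (.c k136 t5_136 (.c k137 t5_137 (.c k138
  t5_138 (.c k139 t5_139 (.c k140 t5_140 (.c k141 t5_141 (.c k142 t5_142 (.c k143 t5_143 (.c k144
  t5_144 (.c k145 t5_145 (.c k146 t5_146 (.c k147 t5_147 (.c k148 t5_148 (.c k149 t5_149 (.c k150
  t5_150 (.c k151 t5_151 (.c k152 t5_152 (.c k153 t5_153 (.c k154 t5_154 (.c k155 t5_155 (.c k156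
  t5_156 (.c k157 t5_157 (.c k158 t5_158 (.c k159 t5_159 (.c k160 t5_160 (.c k161 t5_161 (.c k162
  t5_162 (.c k163 t5_163 (.c k164 t5_164 (.c k165 t5_165 (.c k166 t5_166 (.c k167 t5_167 (.c k168
  t5_168 (.c k169 t5_169 (.c k170 t5_170 (.c k171 t5_171 (.c k172 t5_172 (.c k173 t5_173 (.c k174
  t5_174 (.c k175 t5_175 (.c k176 t5_176 (.c k177 t5_177 (.c k178 t5_178 (.c k179 t5_179 (.c k180
  t5_180 (.c k181 t5_181 (.c k182 t5_182 (.c k183 t5_183 (.c k184 t5_184 (.c k185 t5_185 (.c k186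
  t5_186 (.c k187 t5_187 (.c k188 t5_188 (.c k189 t5_189 (.c k190 t5_190 (.c k191 t5_191 (.c k192
  t5_192 (.c k193 t5_193 (.c k194 t5_194 (.c k195 t5_195 (.c k196 t5_196 (.c k197 t5_197 (.c k198
  t5_198 (.c k199 t5_199 (.c k200 t5_200 (.c k201 t5_201 (.c k202 t5_202 (.c k203 t5_203 (.c k204
  t5_204 (.c k205 t5_205 (.c k206 t5_206 (.c k207 t5_207 (.c k208 t5_208 (.c k209 t5_209 (.c k210
  t5_210 (.c k211 t5_211 (.c k212 t5_212 (.c k213 t5_213 (.c k214 t5_214 (.c k215 t5_215 (.c k216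
  t5_216 (.c k217 t5_217 (.c k218 t5_218 (.c k219 t5_219 (.c k220 t5_220 (.c k221 t5_221 (.c k222
  t5_222 (.c k223 t5_223 (.c k224 t5_224 (.c k225 t5_225 (.c k226 t5_226 (.c k227 t5_227 (.c k228
  t5_228 (.c k229 t5_229 (.c k230 t5_230 (.c k231 t5_231 (.c k232 t5_232 (.c k233 t5_233 (.c k234
  t5_234 (.c k235 t5_235 (.c k236 t5_236 (.c k237 t5_237 (.c k238 t5_238 (.c k239 t5_239 (.c k240
  t5_240 (.c k241 t5_241 (.c k242 t5_242 (.c k243 t5_243 (.c k244 t5_244 (.c k245 t5_245 (.c k246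
  t5_246 (.c k247 t5_247 (.c k248 t5_248 (.c k249 t5_249 (.c k250 t5_250 (.c k251 t5_251 (.c k252
  t5_252 (.c k253 t5_253 (.c k254 t5_254 (.c k255 t5_255
  .n))))))))))))))))))))))))))))))))))))))))))))))))))))))))))))))))))))))))))))))))
  ))))))))))))))))))))))))))))))))))))))))))))))))))))))))))))))))))))))))))))))))
  )))))))))))))))))))))))))))))))))))))))))))))))))))))))))))))))))))))))))))))))) ))))))))))))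

def t6 : T TT 256 :=
  (.q k26 [(.s k10 k5 2 (.s k42 k58 3 (.s k21 k63 6 (.s k48 k37 6 (.d k16 k31 k32 2 3))))), (.s k5
  k10 2 (.s k37 k48 6 (.s k21 k53 3 (.s k63 k42 6 (.d k31 k16 k47 2 3)))))] (.c k5 (.q k4 [(.s k12
  k8 1 (.s k14 k13 0 (.s k38 k50 5 (.s k21 k55 4 (.s k63 k42 6 (.d k31 k16 k47 2 3)))))), (.s k12 k8
  1 (.s k48 k37 6 (.s k32 k16 3 (.s k36 k24 5 (.s k20 k52 3 (.d k40 k44 k60 1 5)))))), (.s k12 k8 1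
  (.s k13 k14 0 (.s k37 k48 6 (.s k25 k49 5 (.s k51 k38 6 (.d k27 k24 k39 0 5))))))] (.c k8 (.q k3
  [(.s k7 k11 1 (.s k37 k48 6 (.s k22 k52 4 (.s k60 k41 6 (.d k30 k18 k45 1 4))))), (.s k1 k2 0 (.s
  k48 k37 6 (.s k32 k16 3 (.s k33 k18 4 (.s k17 k49 3 (.d k34 k35 k51 0 4)))))), (.s k1 k2 0 (.s k11
  k7 1 (.s k41 k56 4 (.s k21 k61 5 (.s k63 k42 6 (.d k31 k16 k47 2 3))))))] (.c k10 (.l (.s k11 k7 1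
  (.s k41 k56 4 (.s k22 k60 6 (.s k48 k37 6 (.d k18 k30 k33 1 4)))))) .n)) (.c k12 (.q k3 [(.s k7
  k11 1 (.s k37 k48 6 (.s k22 k52 4 (.s k60 k41 6 (.d k30 k18 k45 1 4))))), (.s k1 k2 0 (.s k48 k37
  6 (.s k32 k16 3 (.s k33 k18 4 (.s k17 k49 3 (.d k34 k35 k51 0 4)))))), (.s k1 k2 0 (.s k11 k7 1
  (.s k41 k56 4 (.s k21 k61 5 (.s k63 k42 6 (.d k31 k16 k47 2 3))))))] .n) .n))) (.c k10 (.q k14
  [(.s k12 k13 0 (.s k38 k50 5 (.s k25 k51 6 (.s k48 k37 6 (.d k24 k27 k36 0 5))))), (.s k12 k13 0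
  (.s k4 k8 1 (.s k38 k50 5 (.s k21 k55 4 (.s k63 k42 6 (.d k31 k16 k47 2 3)))))), (.s k12 k13 0 (.s
  k4 k8 1 (.s k48 k37 6 (.s k32 k16 3 (.s k36 k24 5 (.s k20 k52 3 (.d k40 k44 k60 1 5)))))))] (.c
  k12 (.l (.s k50 k38 5 (.s k48 k37 6 (.s k32 k16 3 (.s k51 k49 0 (.s k34 k17 4 (.s k18 k2 3 (.d k33
  k35 k3 0 4)))))))) (.c k13 (.q k4 [(.s k38 k50 5 (.s k21 k55 4 (.s k63 k42 6 (.d k31 k16 k47 2
  3)))), (.s k12 k8 1 (.s k48 k37 6 (.s k32 k16 3 (.s k36 k24 5 (.s k20 k52 3 (.d k40 k44 k60 1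
  5))))))] (.c k16 (.l (.s k12 k8 1 (.s k38 k50 5 (.s k25 k51 6 (.s k48 k37 6 (.d k24 k27 k36 0
  5)))))) (.c k170 (.q k250 [(.s k38 k50 5 (.s k21 k55 4 (.s k63 k42 6 (.d k31 k16 k47 2 3)))), (.s
  k12 k8 1 (.s k48 k37 6 (.s k32 k16 3 (.s k36 k24 5 (.s k20 k52 3 (.d k40 k44 k60 1 5))))))] (.c
  k16 (.l (.s k12 k8 1 (.s k38 k50 5 (.s k25 k51 6 (.s k48 k37 6 (.d k24 k27 k36 0 5)))))) .n)) (.c
  k250 (.q k170 [(.s k38 k50 5 (.s k21 k55 4 (.s k63 k42 6 (.d k31 k16 k47 2 3)))), (.s k12 k8 1 (.s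
  k85 k255 14 (.s k166 k247 12 (.s k243 k89 14 (.d k162 k174 k81 1 12)))))] .n) .n)))) (.c k25 (.l
  (.s k12 k13 0 (.s k4 k8 1 (.s k38 k50 5 (.s k21 k55 4 (.s k16 k31 2 (.d k48 k37 k32 6 3))))))) (.c
  k170 (.q k250 [(.s k12 k13 0 (.s k38 k50 5 (.s k25 k51 6 (.s k48 k37 6 (.d k24 k27 k36 0 5))))),
  (.s k12 k13 0 (.s k4 k8 1 (.s k38 k50 5 (.s k21 k55 4 (.s k63 k42 6 (.d k31 k16 k47 2 3)))))), (.s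
  k12 k13 0 (.s k4 k8 1 (.s k48 k37 6 (.s k32 k16 3 (.s k36 k24 5 (.s k20 k52 3 (.d k40 k44 k60 1
  5)))))))] (.c k12 (.l (.s k50 k38 5 (.s k48 k37 6 (.s k32 k16 3 (.s k51 k49 0 (.s k34 k17 4 (.s
  k18 k2 3 (.d k33 k35 k3 0 4)))))))) (.c k13 (.q k4 [(.s k38 k50 5 (.s k21 k55 4 (.s k63 k42 6 (.d
  k31 k16 k47 2 3)))), (.s k12 k8 1 (.s k48 k37 6 (.s k32 k16 3 (.s k36 k24 5 (.s k20 k52 3 (.d k40
  k44 k60 1 5))))))] (.c k16 (.l (.s k12 k8 1 (.s k38 k50 5 (.s k25 k51 6 (.s k48 k37 6 (.d k24 k27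
  k36 0 5)))))) .n)) (.c k25 (.l (.s k12 k13 0 (.s k4 k8 1 (.s k38 k50 5 (.s k21 k55 4 (.s k16 k31 2
  (.d k48 k37 k32 6 3))))))) .n)))) (.c k250 (.q k170 [(.s k12 k13 0 (.s k38 k50 5 (.s k25 k51 6 (.s
  k48 k37 6 (.d k24 k27 k36 0 5))))), (.s k85 k255 14 (.s k48 k37 6 (.s k16 k32 3 (.s k154 k223 10
  (.s k207 k101 14 (.d k138 k186 k69 3 10)))))), (.s k85 k255 14 (.s k12 k13 0 (.s k4 k8 1 (.s k166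
  k247 12 (.s k243 k89 14 (.d k162 k174 k81 1 12))))))] .n) .n)))))) (.c k16 (.l (.s k10 k5 2 (.s
  k42 k58 3 (.s k63 k21 6 (.s k37 k48 6 (.d k47 k32 k31 2 3)))))) (.c k21 (.q k3 [(.s k7 k11 1 (.s
  k37 k48 6 (.s k22 k52 4 (.s k30 k18 1 (.d k60 k45 k41 4 6))))), (.s k1 k2 0 (.s k48 k37 6 (.s k32
  k16 3 (.s k33 k18 4 (.s k17 k49 3 (.d k34 k35 k51 0 4)))))), (.s k2 k1 0 (.s k11 k7 1 (.s k41 k56
  4 (.s k22 k60 6 (.s k42 k62 5 (.d k10 k5 k58 2 3))))))] (.c k48 (.l (.s k2 k1 0 (.s k10 k5 2 (.s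
  k42 k58 3 (.s k22 k62 5 (.s k41 k60 6 (.d k11 k7 k56 1 4))))))) .n)) (.c k31 (.q k3 [(.s k7 k11 1
  (.s k37 k48 6 (.s k22 k52 4 (.s k60 k41 6 (.d k30 k18 k45 1 4))))), (.s k1 k2 0 (.s k48 k37 6 (.s
  k32 k16 3 (.s k33 k18 4 (.s k17 k49 3 (.d k34 k35 k51 0 4)))))), (.s k1 k2 0 (.s k11 k7 1 (.s k41
  k56 4 (.s k21 k61 5 (.s k42 k63 6 (.d k10 k5 k58 2 3))))))] (.c k149 (.q k208 [(.s k7 k11 1 (.s
  k37 k48 6 (.s k22 k52 4 (.s k60 k41 6 (.d k30 k18 k45 1 4))))), (.s k1 k2 0 (.s k48 k37 6 (.s k32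
  k16 3 (.s k33 k18 4 (.s k17 k49 3 (.d k34 k35 k51 0 4)))))), (.s k1 k2 0 (.s k11 k7 1 (.s k41 k56
  4 (.s k21 k61 5 (.s k42 k63 6 (.d k10 k5 k58 2 3))))))] .n) (.c k208 (.q k149 [(.s k7 k11 1 (.s
  k37 k48 6 (.s k22 k52 4 (.s k60 k41 6 (.d k30 k18 k45 1 4))))), (.s k1 k2 0 (.s k48 k37 6 (.s k32
  k16 3 (.s k33 k18 4 (.s k17 k49 3 (.d k34 k35 k51 0 4)))))), (.s k1 k2 0 (.s k11 k7 1 (.s k41 k56
  4 (.s k21 k61 5 (.s k42 k63 6 (.d k10 k5 k58 2 3))))))] .n) .n))) (.c k37 (.q k21 [(.s k42 k63 6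
  (.d k10 k5 k58 2 3)), (.s k63 k42 6 (.d k31 k47 k16 3 2))] (.c k42 (.q k4 [(.s k38 k55 4 (.s k14
  k50 5 (.d k12 k13 k8 0 1))), (.s k8 k12 1 (.s k10 k5 2 (.s k11 k9 0 (.s k3 k7 1 (.s k1 k2 0 (.d
  k41 k56 k61 4 5))))))] (.c k8 (.l (.s k38 k55 4 (.s k14 k50 5 (.s k12 k13 0 (.s k25 k51 6 (.s k16
  k31 2 (.s k24 k27 0 (.d k48 k32 k36 3 5)))))))) (.c k12 (.q k3 [(.s k11 k7 1 (.s k41 k56 4 (.d k1
  k2 k61 0 5))), (.s k2 k1 0 (.s k38 k55 4 (.s k50 k14 5 (.s k18 k34 3 (.s k16 k31 2 (.d k48 k32 k33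
  3 4)))))), (.s k7 k11 1 (.s k55 k38 4 (.s k39 k23 3 (.s k51 k27 5 (.s k31 k16 2 (.d k63 k59 k47 1
  3))))))] (.c k32 (.q k47 [(.d k31 k16 k63 2 3), (.s k1 k2 0 (.s k41 k61 5 (.d k11 k7 k56 1 4)))]
  .n) (.c k47 (.q k32 [(.d k16 k31 k48 2 3), (.s k1 k2 0 (.s k41 k61 5 (.d k11 k7 k56 1 4)))] .n)
  .n))) (.c k13 (.l (.s k12 k8 1 (.s k38 k55 4 (.s k25 k51 6 (.s k16 k31 2 (.s k24 k27 0 (.d k48 k32
  k36 3 5))))))) (.c k32 (.q k47 [(.d k31 k16 k63 2 3), (.s k12 k8 1 (.s k38 k55 4 (.d k14 k13 k50 0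
  5)))] .n) (.c k47 (.q k32 [(.d k16 k31 k48 2 3), (.s k12 k8 1 (.s k38 k55 4 (.d k14 k13 k50 0
  5)))] .n) .n)))))) (.c k63 (.q k3 [(.s k1 k2 0 (.s k41 k61 5 (.d k11 k7 k56 1 4))), (.s k11 k7 1
  (.s k41 k56 4 (.s k22 k60 6 (.s k16 k31 2 (.s k48 k32 3 (.d k18 k30 k33 1 4)))))), (.s k2 k1 0 (.s
  k10 k5 2 (.s k42 k58 3 (.s k22 k62 5 (.s k16 k31 2 (.s k48 k32 3 (.d k18 k30 k33 1 4))))))), (.s
  k11 k7 1 (.s k41 k56 4 (.d k1 k2 k61 0 5)))] (.c k7 (.l (.s k1 k2 0 (.s k41 k61 5 (.s k56 k11 4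
  (.s k16 k31 2 (.s k48 k32 3 (.d k60 k52 k22 1 6))))))) (.c k61 (.l (.s k2 k1 0 (.s k10 k5 2 (.s
  k42 k58 3 (.s k22 k62 5 (.s k60 k41 6 (.d k30 k45 k18 4 1))))))) .n))) .n))) (.c k42 (.q k21 [(.s
  k37 k48 6 (.d k5 k10 k53 2 3)), (.s k48 k37 6 (.d k16 k32 k31 3 2))] (.c k37 (.q k4 [(.s k38 k55 4
  (.s k14 k50 5 (.d k12 k13 k8 0 1))), (.s k8 k12 1 (.s k10 k5 2 (.s k11 k9 0 (.s k3 k7 1 (.s k1 k2
  0 (.d k41 k56 k61 4 5))))))] (.c k8 (.l (.s k38 k55 4 (.s k14 k50 5 (.s k12 k13 0 (.s k25 k51 6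
  (.s k16 k31 2 (.s k24 k27 0 (.d k48 k32 k36 3 5)))))))) (.c k12 (.q k3 [(.s k11 k7 1 (.s k41 k56 4
  (.d k1 k2 k61 0 5))), (.s k2 k1 0 (.s k38 k55 4 (.s k50 k14 5 (.s k18 k34 3 (.s k16 k31 2 (.d k48
  k32 k33 3 4)))))), (.s k7 k11 1 (.s k55 k38 4 (.s k39 k23 3 (.s k51 k27 5 (.s k31 k16 2 (.d k63
  k59 k47 1 3))))))] (.c k32 (.q k47 [(.d k31 k16 k63 2 3), (.s k1 k2 0 (.s k41 k61 5 (.d k11 k7 k56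
  1 4)))] .n) (.c k47 (.q k32 [(.d k16 k31 k48 2 3), (.s k1 k2 0 (.s k41 k61 5 (.d k11 k7 k56 1
  4)))] .n) .n))) (.c k13 (.l (.s k12 k8 1 (.s k38 k55 4 (.s k25 k51 6 (.s k16 k31 2 (.s k24 k27 0
  (.d k48 k32 k36 3 5))))))) (.c k32 (.q k47 [(.d k31 k16 k63 2 3), (.s k12 k8 1 (.s k38 k55 4 (.d
  k14 k13 k50 0 5)))] .n) (.c k47 (.q k32 [(.d k16 k31 k48 2 3), (.s k12 k8 1 (.s k38 k55 4 (.d k14
  k13 k50 0 5)))] .n) .n)))))) (.c k48 (.q k3 [(.s k1 k2 0 (.s k41 k61 5 (.d k11 k7 k56 1 4))), (.s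
  k7 k11 1 (.s k31 k16 2 (.s k63 k47 3 (.s k23 k43 5 (.s k39 k55 3 (.d k27 k19 k51 1 5)))))), (.s k1
  k2 0 (.s k41 k61 5 (.s k22 k60 6 (.s k31 k16 2 (.s k63 k47 3 (.d k23 k20 k43 0 5))))))] (.c k41
  (.l (.s k5 k10 2 (.s k7 k11 1 (.s k37 k53 3 (.s k22 k52 4 (.s k31 k16 2 (.s k63 k47 3 (.d k23 k20
  k43 0 5)))))))) .n)) .n))) (.c k48 (.q k21 [(.s k63 k42 6 (.d k31 k16 k47 2 3)), (.s k10 k5 2 (.d
  k42 k58 k63 3 6))] (.c k42 (.q k3 [(.s k1 k2 0 (.s k41 k61 5 (.d k11 k7 k56 1 4))), (.s k7 k11 1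
  (.s k31 k16 2 (.s k63 k47 3 (.s k23 k43 5 (.s k39 k55 3 (.d k27 k19 k51 1 5)))))), (.s k1 k2 0 (.s
  k41 k61 5 (.s k22 k60 6 (.s k31 k16 2 (.s k63 k47 3 (.d k23 k20 k43 0 5))))))] (.c k41 (.l (.s k5
  k10 2 (.s k7 k11 1 (.s k37 k53 3 (.s k22 k52 4 (.s k31 k16 2 (.s k63 k47 3 (.d k23 k20 k43 0
  5)))))))) .n)) (.c k63 (.q k3 [(.s k1 k2 0 (.s k41 k61 5 (.d k11 k7 k56 1 4))), (.s k11 k7 1 (.s
  k41 k56 4 (.s k60 k22 6 (.s k40 k20 5 (.s k42 k43 0 (.d k10 k5 k58 2 3)))))), (.s k1 k2 0 (.s k41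
  k61 5 (.s k60 k22 6 (.s k40 k20 5 (.s k42 k43 0 (.d k10 k58 k5 3 2))))))] (.c k10 (.l (.s k11 k7 1
  (.s k41 k56 4 (.d k1 k2 k61 0 5)))) (.c k41 (.q k14 [(.s k12 k13 0 (.s k4 k8 1 (.d k38 k55 k50 4
  5))), (.s k1 k2 0 (.s k5 k10 2 (.d k13 k12 k9 0 1)))] (.c k12 (.l (.s k2 k1 0 (.s k10 k5 2 (.s k50
  k38 5 (.s k18 k34 3 (.s k22 k30 1 (.d k42 k58 k62 3 5))))))) (.c k13 (.l (.s k10 k5 2 (.s k38 k50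
  5 (.s k11 k7 1 (.s k4 k55 4 (.d k8 k9 k12 0 1)))))) (.c k53 (.q k58 [(.d k10 k5 k42 2 3), (.s k12
  k13 0 (.s k4 k8 1 (.d k38 k55 k50 4 5)))] .n) (.c k58 (.q k53 [(.d k5 k10 k37 2 3), (.s k12 k13 0
  (.s k4 k8 1 (.d k38 k55 k50 4 5)))] .n) .n))))) (.c k53 (.q k58 [(.d k10 k5 k42 2 3), (.s k1 k2 0
  (.s k41 k61 5 (.d k11 k7 k56 1 4)))] (.c k10 (.l (.s k11 k7 1 (.s k41 k56 4 (.d k1 k2 k61 0 5))))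
  .n)) (.c k58 (.q k53 [(.d k5 k10 k37 2 3), (.s k1 k2 0 (.s k41 k61 5 (.d k11 k7 k56 1 4)))] (.c
  k10 (.l (.s k11 k7 1 (.s k41 k56 4 (.d k1 k2 k61 0 5)))) .n)) (.c k60 (.l (.s k1 k2 0 (.s k11 k7 1
  (.d k41 k56 k61 4 5)))) .n)))))) .n))) (.c k53 (.l (.s k10 k5 2 (.s k42 k58 3 (.s k21 k63 6 (.s
  k48 k37 6 (.d k16 k31 k32 2 3)))))) (.c k58 (.l (.s k5 k10 2 (.s k37 k48 6 (.s k21 k53 3 (.s k63
  k42 6 (.d k31 k16 k47 2 3)))))) (.c k63 (.q k3 [(.s k7 k11 1 (.s k37 k48 6 (.s k22 k52 4 (.s k60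
  k41 6 (.d k30 k18 k45 1 4))))), (.s k1 k2 0 (.s k48 k37 6 (.s k32 k16 3 (.s k33 k18 4 (.s k17 k49
  3 (.d k34 k35 k51 0 4)))))), (.s k11 k7 1 (.s k41 k56 4 (.s k60 k22 6 (.s k40 k20 5 (.s k42 k43 0
  (.d k10 k5 k58 2 3))))))] (.c k37 (.l (.s k2 k1 0 (.s k10 k5 2 (.s k42 k58 3 (.s k22 k62 5 (.s k60
  k41 6 (.d k30 k45 k18 4 1))))))) .n)) .n))))))))))))

def t7 : T TT 256 :=
  (.q k21 [(.s k5 k10 2 (.s k63 k42 6 (.s k37 k53 3 (.s k26 k48 6 (.d k31 k16 k47 2 3))))), (.s k10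
  k5 2 (.s k42 k63 6 (.s k26 k58 3 (.s k48 k37 6 (.d k16 k31 k32 2 3)))))] (.c k5 (.q k12 [(.s k4 k8
  1 (.s k63 k42 6 (.s k29 k46 4 (.s k25 k17 1 (.d k38 k55 k51 4 6))))), (.s k4 k8 1 (.s k38 k55 4
  (.s k14 k13 0 (.s k26 k50 5 (.s k16 k31 2 (.d k48 k32 k37 3 6)))))), (.s k63 k42 6 (.s k14 k13 0
  (.s k46 k29 4 (.s k30 k62 3 (.s k45 k60 4 (.d k47 k44 k31 0 3))))))] (.c k4 (.q k6 [(.s k14 k13 0
  (.s k2 k10 1 (.d k3 k1 k9 0 2))), (.s k63 k42 6 (.s k13 k14 0 (.s k29 k46 4 (.s k45 k61 3 (.s k30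
  k60 4 (.d k31 k28 k47 0 3))))))] (.c k13 (.l (.s k42 k63 6 (.s k3 k9 2 (.s k1 k2 0 (.s k41 k61 5
  (.s k60 k22 6 (.d k40 k43 k20 0 5))))))) (.c k14 (.l (.s k42 k63 6 (.s k3 k9 2 (.s k1 k2 0 (.s k41
  k61 5 (.s k60 k22 6 (.d k40 k43 k20 0 5))))))) .n))) (.c k6 (.l (.s k4 k8 1 (.s k42 k63 6 (.s k38
  k55 4 (.s k51 k25 6 (.d k34 k46 k17 1 4)))))) .n))) (.c k10 (.q k12 [(.s k8 k4 1 (.s k42 k63 6 (.s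
  k25 k59 4 (.s k51 k38 6 (.d k17 k29 k34 1 4))))), (.s k63 k42 6 (.s k14 k13 0 (.s k46 k29 4 (.s
  k30 k62 3 (.s k45 k60 4 (.d k47 k44 k31 0 3)))))), (.s k4 k8 1 (.s k38 k55 4 (.s k14 k13 0 (.s k26
  k50 5 (.s k16 k31 2 (.d k48 k32 k37 3 6))))))] (.c k170 (.q k250 [(.s k8 k4 1 (.s k42 k63 6 (.s
  k25 k59 4 (.s k51 k38 6 (.d k17 k29 k34 1 4))))), (.s k63 k42 6 (.s k14 k13 0 (.s k46 k29 4 (.s
  k30 k62 3 (.s k45 k60 4 (.d k47 k44 k31 0 3)))))), (.s k4 k8 1 (.s k38 k55 4 (.s k14 k13 0 (.s k26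
  k50 5 (.s k16 k31 2 (.d k48 k32 k37 3 6))))))] .n) (.c k250 (.q k170 [(.s k8 k4 1 (.s k42 k63 6
  (.s k25 k59 4 (.s k51 k38 6 (.d k17 k29 k34 1 4))))), (.s k63 k42 6 (.s k85 k255 14 (.s k149 k213
  7 (.s k192 k106 14 (.d k128 k191 k64 6 7))))), (.s k4 k8 1 (.s k85 k255 14 (.s k166 k247 12 (.s
  k243 k89 14 (.d k162 k174 k81 1 12)))))] .n) .n))) (.c k16 (.q k12 [(.s k8 k4 1 (.s k14 k13 0 (.s
  k10 k5 2 (.s k6 k2 1 (.d k9 k11 k3 0 2))))), (.s k4 k8 1 (.s k42 k63 6 (.s k38 k55 4 (.s k51 k25 6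
  (.d k34 k46 k17 1 4))))), (.s k5 k10 2 (.s k63 k42 6 (.s k37 k53 3 (.s k13 k14 0 (.s k29 k46 4 (.d
  k25 k17 k49 1 5))))))] .n) (.c k26 (.q k12 [(.s k8 k4 1 (.s k14 k13 0 (.s k10 k5 2 (.s k6 k2 1 (.d
  k9 k11 k3 0 2))))), (.s k4 k8 1 (.s k42 k63 6 (.s k38 k55 4 (.s k51 k25 6 (.d k34 k46 k17 1
  4))))), (.s k5 k10 2 (.s k37 k53 3 (.s k13 k14 0 (.s k25 k49 5 (.s k17 k29 1 (.d k51 k38 k34 6
  4))))))] (.c k154 (.q k218 [(.s k8 k4 1 (.s k14 k13 0 (.s k10 k5 2 (.s k6 k2 1 (.d k9 k11 k3 0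
  2))))), (.s k4 k8 1 (.s k42 k63 6 (.s k38 k55 4 (.s k51 k25 6 (.d k34 k46 k17 1 4))))), (.s k5 k10
  2 (.s k37 k53 3 (.s k13 k14 0 (.s k25 k49 5 (.s k17 k29 1 (.d k51 k38 k34 6 4))))))] .n) (.c k218
  (.q k154 [(.s k8 k4 1 (.s k14 k13 0 (.s k10 k5 2 (.s k6 k2 1 (.d k9 k11 k3 0 2))))), (.s k4 k8 1
  (.s k42 k63 6 (.s k38 k55 4 (.s k51 k25 6 (.d k34 k46 k17 1 4))))), (.s k5 k10 2 (.s k37 k53 3 (.s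
  k13 k14 0 (.s k25 k49 5 (.s k17 k29 1 (.d k51 k38 k34 6 4))))))] .n) .n))) (.c k31 (.l (.s k5 k10
  2 (.s k42 k63 6 (.s k37 k53 3 (.s k48 k26 6 (.d k32 k47 k16 2 3)))))) (.c k37 (.q k12 [(.s k4 k8 1
  (.s k42 k63 6 (.s k38 k55 4 (.s k34 k46 1 (.d k51 k17 k25 4 6))))), (.s k8 k4 1 (.s k14 k13 0 (.s
  k10 k5 2 (.s k6 k2 1 (.d k9 k11 k3 0 2))))), (.s k5 k10 2 (.s k63 k42 6 (.s k13 k14 0 (.s k29 k46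
  4 (.s k61 k45 3 (.d k1 k41 k9 5 1))))))] (.c k22 (.q k52 [(.s k4 k8 1 (.s k42 k63 6 (.s k38 k55 4
  (.s k34 k46 1 (.d k51 k17 k25 4 6))))), (.s k8 k4 1 (.s k14 k13 0 (.s k10 k5 2 (.s k6 k2 1 (.d k9
  k11 k3 0 2))))), (.s k5 k10 2 (.s k63 k42 6 (.s k13 k14 0 (.s k29 k46 4 (.s k61 k45 3 (.d k1 k41
  k9 5 1))))))] (.c k42 (.l (.s k4 k8 1 (.s k36 k20 3 (.s k38 k55 4 (.s k14 k13 0 (.s k24 k48 5 (.s
  k25 k51 6 (.d k26 k50 k27 5 0)))))))) .n)) (.c k52 (.q k22 [(.s k10 k5 2 (.s k42 k63 6 (.s k2 k62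
  5 (.d k14 k6 k13 1 0)))), (.s k4 k8 1 (.s k42 k63 6 (.s k38 k55 4 (.s k34 k46 1 (.d k51 k17 k25 4
  6))))), (.s k4 k8 1 (.s k10 k5 2 (.s k38 k55 4 (.s k14 k13 0 (.d k6 k54 k2 3 1)))))] (.c k4 (.l
  (.s k42 k63 6 (.s k2 k62 5 (.s k14 k13 0 (.d k10 k6 k5 1 2))))) .n)) .n))) (.c k42 (.q k12 [(.s k8
  k4 1 (.s k14 k13 0 (.s k10 k5 2 (.s k6 k2 1 (.d k9 k11 k3 0 2))))), (.s k4 k8 1 (.s k38 k55 4 (.s
  k14 k13 0 (.s k26 k50 5 (.s k48 k37 6 (.d k16 k32 k31 3 2)))))), (.s k5 k10 2 (.s k37 k53 3 (.s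
  k13 k14 0 (.s k25 k49 5 (.s k51 k38 6 (.d k17 k34 k29 4 1)))))), (.s k4 k8 1 (.s k5 k10 2 (.s k38
  k55 4 (.s k37 k53 3 (.s k39 k36 0 (.d k51 k25 k27 6 5))))))] .n) (.c k48 (.q k12 [(.s k8 k4 1 (.s
  k14 k13 0 (.s k10 k5 2 (.s k6 k2 1 (.d k9 k11 k3 0 2))))), (.s k4 k8 1 (.s k42 k63 6 (.s k38 k55 4
  (.s k51 k25 6 (.d k34 k46 k17 1 4))))), (.s k5 k10 2 (.s k63 k42 6 (.s k37 k53 3 (.s k13 k14 0 (.s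
  k29 k46 4 (.d k25 k17 k49 1 5))))))] .n) (.c k53 (.l (.s k10 k5 2 (.s k42 k63 6 (.s k26 k58 3 (.s
  k48 k37 6 (.d k16 k31 k32 2 3)))))) (.c k58 (.l (.s k5 k10 2 (.s k42 k63 6 (.s k37 k53 3 (.s k48
  k26 6 (.d k32 k47 k16 2 3)))))) (.c k63 (.q k12 [(.s k8 k4 1 (.s k14 k13 0 (.s k10 k5 2 (.s k6 k2
  1 (.d k9 k11 k3 0 2))))), (.s k4 k8 1 (.s k38 k55 4 (.s k14 k13 0 (.s k26 k50 5 (.s k48 k37 6 (.d
  k16 k31 k32 2 3)))))), (.s k5 k10 2 (.s k37 k53 3 (.s k13 k14 0 (.s k25 k49 5 (.s k51 k38 6 (.d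
  k17 k29 k34 1 4)))))), (.s k4 k8 1 (.s k5 k10 2 (.s k38 k55 4 (.s k37 k53 3 (.s k51 k25 6 (.d k39
  k36 k27 0 5))))))] .n) .n))))))))))))

theorem c1 : rootOK2 k15 k90 k1 t1 = true := by decide +kernel

theorem c2 : rootOK2 k15 k90 k2 t2 = true := by decide +kernel

theorem c3 : rootOK2 k15 k90 k3 t3 = true := by decide +kernel

theorem c5 : rootOK2 k15 k90 k5 t5 = true := by decide +kernel

theorem c6 : rootOK2 k15 k90 k6 t6 = true := by decide +kernel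

theorem c7 : rootOK2 k15 k90 k7 t7 = true := by decide +kernel

def l : List Nat :=
  [k1.c, k2.c, k3.c, k5.c, k6.c, k7.c]

theorem ok : AllQ k15.c k90.c l :=
  allQ_cons c1 (allQ_cons c2 (allQ_cons c3 (allQ_cons c5 (allQ_cons c6 (allQ_cons c7 (allQ_nil _ _
  ))))))

end Pool.Agent.TTT.I01
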