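import Pool.Agent.TTT.Sym2

set_option autoImplicit false
set_option maxRecDepth 100000

namespace Pool.Agent.TTT.I02

def t10_1 : T TT 256 :=
  (.q k63 [(.s k21 k42 6 (.s k85 k255 14 (.s k149 k213 7 (.s k128 k191 6 (.d k192 k64 k106 7
  14))))), (.s k255 k85 14 (.s k31 k47 3 (.s k95 k175 11 (.s k159 k223 7 (.s k111 k207 11 (.d k127
  k79 k191 3 7)))))), (.s k42 k21 6 (.s k47 k31 3 (.s k32 k37 2 (.s k101 k239 10 (.s k106 k234 7 (.s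
  k224 k165 10 (.d k96 k111 k160 2 7)))))))] .n)

def t10_2 : T TT 256 :=
  (.q k63 [(.s k42 k21 6 (.s k85 k255 14 (.s k106 k234 7 (.s k192 k149 14 (.d k64 k127 k128 6
  7))))), (.s k255 k85 14 (.s k31 k47 3 (.s k95 k175 11 (.s k159 k223 7 (.s k111 k207 11 (.d k127
  k79 k191 3 7)))))), (.s k42 k21 6 (.s k47 k31 3 (.s k32 k37 2 (.s k101 k239 10 (.s k106 k234 7 (.s
  k224 k165 10 (.d k96 k111 k160 2 7)))))))] (.c k6 (.q k14 [(.s k12 k13 0 (.s k46 k29 4 (.s k30 k62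
  3 (.s k45 k60 4 (.d k47 k44 k31 0 3))))), (.s k42 k21 6 (.s k255 k85 14 (.s k106 k234 7 (.s k149
  k192 14 (.d k191 k128 k127 6 7)))))] (.c k42 (.l (.s k12 k13 0 (.s k46 k29 4 (.s k47 k31 3 (.s k45
  k44 0 (.d k30 k62 k60 3 4)))))) .n)) (.c k14 (.q k6 [(.s k42 k21 6 (.s k85 k255 14 (.s k106 k234 7
  (.s k192 k149 14 (.d k64 k127 k128 6 7))))), (.s k255 k85 14 (.s k31 k47 3 (.s k95 k175 11 (.s
  k159 k223 7 (.s k111 k207 11 (.d k127 k79 k191 3 7)))))), (.s k42 k21 6 (.s k47 k31 3 (.s k32 k37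
  2 (.s k101 k239 10 (.s k106 k234 7 (.s k224 k165 10 (.d k96 k111 k160 2 7)))))))] (.c k31 (.l (.s
  k21 k42 6 (.s k85 k255 14 (.s k149 k213 7 (.s k192 k106 14 (.d k128 k191 k64 6 7)))))) (.c k166
  (.q k242 [(.s k42 k21 6 (.s k85 k255 14 (.s k106 k234 7 (.s k192 k149 14 (.d k64 k127 k128 6
  7))))), (.s k255 k85 14 (.s k31 k47 3 (.s k95 k175 11 (.s k159 k223 7 (.s k111 k207 11 (.d k127
  k79 k191 3 7)))))), (.s k42 k21 6 (.s k47 k31 3 (.s k32 k37 2 (.s k101 k239 10 (.s k106 k234 7 (.s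
  k224 k165 10 (.d k96 k111 k160 2 7)))))))] (.c k31 (.l (.s k21 k42 6 (.s k85 k255 14 (.s k149 k213
  7 (.s k192 k106 14 (.d k128 k191 k64 6 7)))))) .n)) (.c k242 (.q k166 [(.s k85 k255 14 (.s k4 k247
  12 (.s k12 k8 1 (.s k7 k5 0 (.d k3 k11 k9 1 2))))), (.s k21 k42 6 (.s k85 k255 14 (.s k149 k213 7
  (.s k192 k106 14 (.d k128 k191 k64 6 7))))), (.s k42 k21 6 (.s k106 k234 7 (.s k46 k226 9 (.s k12
  k29 4 (.s k8 k4 1 (.d k89 k251 k243 12 14))))))] (.c k82 (.l (.s k162 k174 1 (.s k243 k81 12 (.s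
  k85 k255 14 (.s k4 k247 12 (.d k12 k8 k89 1 14)))))) (.c k162 (.q k82 [(.s k85 k255 14 (.s k4 k247
  12 (.s k12 k8 1 (.s k7 k5 0 (.d k3 k11 k9 1 2))))), (.s k21 k42 6 (.s k85 k255 14 (.s k149 k213 7
  (.s k192 k106 14 (.d k128 k191 k64 6 7))))), (.s k42 k21 6 (.s k106 k234 7 (.s k46 k226 9 (.s k12
  k29 4 (.s k8 k4 1 (.d k89 k251 k243 12 14))))))] .n) .n))) .n)))) (.c k31 (.l (.s k21 k42 6 (.s
  k85 k255 14 (.s k149 k213 7 (.s k192 k106 14 (.d k128 k191 k64 6 7)))))) .n))))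

def t10_3 : T TT 256 :=
  (.q k63 [(.s k42 k21 6 (.s k85 k255 14 (.s k106 k234 7 (.s k192 k149 14 (.d k64 k127 k128 6
  7))))), (.s k255 k85 14 (.s k31 k47 3 (.s k95 k175 11 (.s k159 k223 7 (.s k111 k207 11 (.d k127
  k79 k191 3 7)))))), (.s k42 k21 6 (.s k47 k31 3 (.s k32 k37 2 (.s k101 k239 10 (.s k106 k234 7 (.s
  k224 k165 10 (.d k96 k111 k160 2 7)))))))] (.c k31 (.l (.s k21 k42 6 (.s k85 k255 14 (.s k149 k213
  7 (.s k192 k106 14 (.d k128 k191 k64 6 7)))))) .n))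

def t10_4 : T TT 256 :=
  (.q k63 [(.s k21 k42 6 (.s k85 k255 14 (.s k149 k213 7 (.s k128 k191 6 (.d k192 k64 k106 7
  14))))), (.s k255 k85 14 (.s k31 k47 3 (.s k95 k175 11 (.s k159 k223 7 (.s k111 k207 11 (.d k127
  k79 k191 3 7)))))), (.s k42 k21 6 (.s k47 k31 3 (.s k32 k37 2 (.s k101 k239 10 (.s k106 k234 7 (.s
  k224 k165 10 (.d k96 k111 k160 2 7)))))))] .n)

def t10_5 : T TT 256 :=
  (.q k63 [(.s k21 k42 6 (.s k85 k255 14 (.s k149 k213 7 (.s k128 k191 6 (.d k192 k64 k106 7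
  14))))), (.s k255 k85 14 (.s k31 k47 3 (.s k95 k175 11 (.s k159 k223 7 (.s k111 k207 11 (.d k127
  k79 k191 3 7)))))), (.s k42 k21 6 (.s k47 k31 3 (.s k106 k234 7 (.s k165 k224 10 (.s k175 k160 2
  (.s k239 k111 7 (.d k32 k37 k101 2 10)))))))] .n)

def t10_6 : T TT 256 :=
  (.q k63 [(.s k42 k21 6 (.s k85 k255 14 (.s k106 k234 7 (.s k192 k149 14 (.d k64 k127 k128 6
  7))))), (.s k255 k85 14 (.s k31 k47 3 (.s k95 k175 11 (.s k159 k223 7 (.s k111 k207 11 (.d k127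
  k79 k191 3 7)))))), (.s k42 k21 6 (.s k47 k31 3 (.s k32 k37 2 (.s k101 k239 10 (.s k106 k234 7 (.s
  k224 k165 10 (.d k96 k111 k160 2 7)))))))] (.c k2 (.q k14 [(.s k12 k13 0 (.s k46 k29 4 (.s k30 k62
  3 (.s k45 k60 4 (.d k47 k44 k31 0 3))))), (.s k42 k21 6 (.s k255 k85 14 (.s k106 k234 7 (.s k149
  k192 14 (.d k191 k128 k127 6 7)))))] (.c k42 (.l (.s k12 k13 0 (.s k46 k29 4 (.s k47 k31 3 (.s k45
  k44 0 (.d k30 k62 k60 3 4)))))) .n)) (.c k14 (.q k2 [(.s k3 k1 0 (.s k42 k21 6 (.s k43 k23 5 (.s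
  k41 k40 0 (.d k22 k62 k60 5 6))))), (.s k21 k42 6 (.s k85 k255 14 (.s k149 k213 7 (.s k192 k106 14
  (.d k128 k191 k64 6 7))))), (.s k3 k1 0 (.s k85 k255 14 (.s k86 k254 13 (.s k252 k169 14 (.d k84
  k87 k168 0 13)))))] (.c k166 (.q k242 [(.s k3 k1 0 (.s k42 k21 6 (.s k43 k23 5 (.s k41 k40 0 (.d
  k22 k62 k60 5 6))))), (.s k21 k42 6 (.s k85 k255 14 (.s k149 k213 7 (.s k192 k106 14 (.d k128 k191
  k64 6 7))))), (.s k3 k1 0 (.s k85 k255 14 (.s k86 k254 13 (.s k252 k169 14 (.d k84 k87 k168 0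
  13)))))] (.c k86 (.q k246 [(.s k3 k1 0 (.s k42 k21 6 (.s k22 k62 5 (.s k41 k60 6 (.d k43 k40 k23 0
  5))))), (.s k3 k1 0 (.s k255 k85 14 (.s k82 k162 11 (.s k240 k161 12 (.d k250 k254 k245 1 2))))),
  (.s k21 k42 6 (.s k85 k255 14 (.s k149 k213 7 (.s k192 k106 14 (.d k128 k191 k64 6 7)))))] (.c k82
  (.q k94 [(.s k252 k173 12 (.s k254 k250 1 (.d k255 k253 k85 0 14))), (.s k3 k1 0 (.s k42 k21 6 (.s
  k22 k62 5 (.s k41 k60 6 (.d k43 k40 k23 0 5)))))] .n) (.c k94 (.l (.s k82 k162 11 (.s k3 k1 0 (.s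
  k255 k85 14 (.s k240 k161 12 (.d k250 k254 k245 1 2)))))) .n))) (.c k246 (.l (.s k86 k254 13 (.s
  k3 k1 0 (.s k85 k255 14 (.s k252 k169 14 (.d k84 k87 k168 0 13)))))) .n))) (.c k242 (.q k166 [(.s
  k3 k1 0 (.s k42 k21 6 (.s k43 k23 5 (.s k41 k40 0 (.d k22 k62 k60 5 6))))), (.s k21 k42 6 (.s k85
  k255 14 (.s k149 k213 7 (.s k192 k106 14 (.d k128 k191 k64 6 7))))), (.s k3 k1 0 (.s k85 k255 14
  (.s k86 k254 13 (.s k252 k169 14 (.d k84 k87 k168 0 13)))))] .n) .n))) (.c k31 (.l (.s k21 k42 6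
  (.s k85 k255 14 (.s k149 k213 7 (.s k192 k106 14 (.d k128 k191 k64 6 7)))))) .n))))

def t10_7 : T TT 256 :=
  (.q k63 [(.s k42 k21 6 (.s k85 k255 14 (.s k106 k234 7 (.s k192 k149 14 (.d k64 k127 k128 6
  7))))), (.s k255 k85 14 (.s k31 k47 3 (.s k95 k175 11 (.s k159 k223 7 (.s k111 k207 11 (.d k127
  k79 k191 3 7)))))), (.s k42 k21 6 (.s k47 k31 3 (.s k32 k37 2 (.s k101 k239 10 (.s k106 k234 7 (.s
  k224 k165 10 (.d k96 k111 k160 2 7)))))))] (.c k31 (.l (.s k21 k42 6 (.s k85 k255 14 (.s k149 k213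
  7 (.s k192 k106 14 (.d k128 k191 k64 6 7)))))) .n))

def t10_8 : T TT 256 :=
  (.q k63 [(.s k42 k21 6 (.s k85 k255 14 (.s k106 k234 7 (.s k192 k149 14 (.d k64 k127 k128 6
  7))))), (.s k255 k85 14 (.s k31 k47 3 (.s k95 k175 11 (.s k159 k223 7 (.s k111 k207 11 (.d k127
  k79 k191 3 7)))))), (.s k42 k21 6 (.s k47 k31 3 (.s k32 k37 2 (.s k101 k239 10 (.s k106 k234 7 (.s
  k224 k165 10 (.d k96 k111 k160 2 7)))))))] (.c k9 (.q k11 [(.s k3 k7 1 (.s k43 k23 5 (.s k27 k59 3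
  (.s k39 k51 5 (.d k47 k35 k31 1 3))))), (.s k42 k21 6 (.s k255 k85 14 (.s k106 k234 7 (.s k149
  k192 14 (.d k191 k128 k127 6 7)))))] (.c k42 (.l (.s k3 k7 1 (.s k43 k23 5 (.s k47 k31 3 (.s k39
  k35 1 (.d k27 k59 k51 3 5)))))) .n)) (.c k11 (.q k9 [(.s k42 k21 6 (.s k85 k255 14 (.s k106 k234 7
  (.s k192 k149 14 (.d k64 k127 k128 6 7))))), (.s k255 k85 14 (.s k31 k47 3 (.s k95 k175 11 (.s
  k159 k223 7 (.s k111 k207 11 (.d k127 k79 k191 3 7)))))), (.s k42 k21 6 (.s k47 k31 3 (.s k32 k37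
  2 (.s k101 k239 10 (.s k106 k234 7 (.s k224 k165 10 (.d k96 k111 k160 2 7)))))))] (.c k31 (.l (.s
  k21 k42 6 (.s k85 k255 14 (.s k149 k213 7 (.s k192 k106 14 (.d k128 k191 k64 6 7)))))) (.c k169
  (.q k248 [(.s k42 k21 6 (.s k85 k255 14 (.s k106 k234 7 (.s k192 k149 14 (.d k64 k127 k128 6
  7))))), (.s k255 k85 14 (.s k31 k47 3 (.s k95 k175 11 (.s k159 k223 7 (.s k111 k207 11 (.d k127
  k79 k191 3 7)))))), (.s k42 k21 6 (.s k47 k31 3 (.s k32 k37 2 (.s k101 k239 10 (.s k106 k234 7 (.s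
  k224 k165 10 (.d k96 k111 k160 2 7)))))))] (.c k31 (.l (.s k21 k42 6 (.s k85 k255 14 (.s k149 k213
  7 (.s k192 k106 14 (.d k128 k191 k64 6 7)))))) .n)) (.c k248 (.q k169 [(.s k85 k255 14 (.s k1 k253
  13 (.s k3 k2 0 (.s k13 k5 1 (.d k12 k14 k6 0 2))))), (.s k21 k42 6 (.s k85 k255 14 (.s k149 k213 7
  (.s k192 k106 14 (.d k128 k191 k64 6 7))))), (.s k42 k21 6 (.s k106 k234 7 (.s k43 k232 8 (.s k3
  k23 5 (.s k2 k1 0 (.d k86 k254 k252 13 14))))))] (.c k88 (.l (.s k168 k171 0 (.s k252 k84 13 (.s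
  k85 k255 14 (.s k1 k253 13 (.d k3 k2 k86 0 14)))))) (.c k168 (.q k88 [(.s k85 k255 14 (.s k1 k253
  13 (.s k3 k2 0 (.s k13 k5 1 (.d k12 k14 k6 0 2))))), (.s k21 k42 6 (.s k85 k255 14 (.s k149 k213 7
  (.s k192 k106 14 (.d k128 k191 k64 6 7))))), (.s k42 k21 6 (.s k106 k234 7 (.s k43 k232 8 (.s k3
  k23 5 (.s k2 k1 0 (.d k86 k254 k252 13 14))))))] .n) .n))) .n)))) (.c k31 (.l (.s k21 k42 6 (.s
  k85 k255 14 (.s k149 k213 7 (.s k192 k106 14 (.d k128 k191 k64 6 7)))))) .n))))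

def t10_9 : T TT 256 :=
  (.f k85 k255 14 (.q k48 [(.s k16 k32 3 (.s k154 k223 10 (.s k138 k186 3 (.d k207 k69 k101 10
  14)))), (.s k16 k32 3 (.s k26 k37 6 (.s k21 k31 2 (.s k149 k213 7 (.s k128 k191 6 (.s k192 k64 7
  (.d k63 k42 k106 6 14)))))))] (.c k8 (.q k11 [(.s k16 k32 3 (.s k154 k223 10 (.s k138 k186 3 (.d
  k207 k69 k101 10 14)))), (.s k3 k7 1 (.s k1 k2 0 (.s k169 k253 13 (.s k252 k86 14 (.d k168 k171
  k84 0 13)))))] .n) (.c k11 (.q k8 [(.s k16 k32 3 (.s k154 k223 10 (.s k207 k101 14 (.d k138 k186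
  k69 3 10)))), (.s k12 k4 1 (.s k89 k251 12 (.s k243 k166 14 (.d k81 k93 k162 1 12))))] (.c k169
  (.q k248 [(.s k12 k4 1 (.s k89 k251 12 (.s k81 k93 1 (.d k243 k162 k166 12 14)))), (.s k16 k32 3
  (.s k154 k223 10 (.s k207 k101 14 (.d k138 k186 k69 3 10))))] (.c k89 (.q k249 [(.s k16 k32 3 (.s
  k154 k223 10 (.s k138 k186 3 (.d k207 k69 k101 10 14)))), (.s k12 k4 1 (.s k13 k14 0 (.s k36 k24 5
  (.s k37 k26 6 (.s k25 k49 5 (.d k38 k39 k51 0 6))))))] (.c k88 (.q k91 [(.s k4 k12 1 (.s k243 k167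
  13 (.s k162 k81 12 (.d k166 k174 k247 1 12)))), (.s k16 k32 3 (.s k154 k223 10 (.s k207 k101 14
  (.d k138 k186 k69 3 10))))] .n) (.c k91 (.l (.s k88 k168 11 (.s k16 k32 3 (.s k154 k223 10 (.s
  k207 k101 14 (.d k138 k186 k69 3 10)))))) (.c k154 (.l (.s k12 k4 1 (.s k16 k32 3 (.s k24 k36 5
  (.s k40 k56 3 (.d k20 k28 k60 1 5)))))) .n)))) (.c k249 (.l (.s k89 k251 12 (.s k12 k4 1 (.s k243
  k166 14 (.d k81 k93 k162 1 12))))) .n))) (.c k248 (.q k169 [(.s k16 k32 3 (.s k154 k223 10 (.s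
  k207 k101 14 (.d k138 k186 k69 3 10)))), (.s k12 k4 1 (.s k89 k251 12 (.s k243 k166 14 (.d k81 k93
  k162 1 12))))] .n) .n))) (.c k16 (.q k11 [(.s k3 k7 1 (.s k18 k33 4 (.s k26 k37 6 (.s k41 k56 4
  (.d k22 k30 k60 1 6))))), (.s k3 k7 1 (.s k1 k2 0 (.s k169 k253 13 (.s k252 k86 14 (.d k168 k171
  k84 0 13)))))] (.c k3 (.l (.s k26 k37 6 (.s k56 k41 4 (.s k60 k52 1 (.s k20 k40 5 (.s k150 k215 8
  (.s k195 k105 14 (.d k130 k190 k65 5 8)))))))) (.c k7 (.q k8 [(.s k89 k251 12 (.s k81 k93 1 (.s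
  k243 k162 12 (.d k12 k4 k166 1 14)))), (.s k26 k37 6 (.s k56 k41 4 (.s k40 k24 3 (.d k60 k52 k20 1
  5))))] .n) .n))) (.c k32 (.q k11 [(.s k3 k7 1 (.s k1 k2 0 (.s k169 k253 13 (.s k168 k171 0 (.d
  k252 k84 k86 13 14))))), (.s k3 k7 1 (.s k18 k33 4 (.s k26 k37 6 (.s k41 k56 4 (.d k22 k30 k60 1
  6)))))] (.c k3 (.l (.s k26 k37 6 (.s k56 k41 4 (.s k60 k52 1 (.s k20 k40 5 (.s k150 k215 8 (.s
  k195 k105 14 (.d k130 k190 k65 5 8)))))))) (.c k7 (.q k8 [(.s k12 k4 1 (.s k89 k251 12 (.s k81 k93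
  1 (.d k243 k162 k166 12 14)))), (.s k26 k37 6 (.s k56 k41 4 (.s k40 k24 3 (.d k60 k52 k20 1 5))))]
  .n) .n))) .n))))))

def t10_11 : T TT 256 :=
  (.q k63 [(.s k42 k21 6 (.s k85 k255 14 (.s k106 k234 7 (.s k192 k149 14 (.d k64 k127 k128 6
  7))))), (.s k255 k85 14 (.s k31 k47 3 (.s k95 k175 11 (.s k159 k223 7 (.s k111 k207 11 (.d k127
  k79 k191 3 7)))))), (.s k42 k21 6 (.s k47 k31 3 (.s k32 k37 2 (.s k101 k239 10 (.s k106 k234 7 (.s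
  k224 k165 10 (.d k96 k111 k160 2 7)))))))] (.c k8 (.q k9 [(.s k42 k21 6 (.s k85 k255 14 (.s k106
  k234 7 (.s k192 k149 14 (.d k64 k127 k128 6 7))))), (.s k255 k85 14 (.s k31 k47 3 (.s k95 k175 11
  (.s k159 k223 7 (.s k111 k207 11 (.d k127 k79 k191 3 7)))))), (.s k42 k21 6 (.s k47 k31 3 (.s k32
  k37 2 (.s k101 k239 10 (.s k106 k234 7 (.s k224 k165 10 (.d k96 k111 k160 2 7)))))))] (.c k31 (.l
  (.s k21 k42 6 (.s k85 k255 14 (.s k149 k213 7 (.s k192 k106 14 (.d k128 k191 k64 6 7)))))) (.c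
  k169 (.q k248 [(.s k42 k21 6 (.s k85 k255 14 (.s k106 k234 7 (.s k192 k149 14 (.d k64 k127 k128 6
  7))))), (.s k255 k85 14 (.s k31 k47 3 (.s k95 k175 11 (.s k159 k223 7 (.s k111 k207 11 (.d k127
  k79 k191 3 7)))))), (.s k42 k21 6 (.s k47 k31 3 (.s k32 k37 2 (.s k101 k239 10 (.s k106 k234 7 (.s
  k224 k165 10 (.d k96 k111 k160 2 7)))))))] (.c k31 (.l (.s k21 k42 6 (.s k85 k255 14 (.s k149 k213
  7 (.s k192 k106 14 (.d k128 k191 k64 6 7)))))) .n)) (.c k248 (.q k169 [(.s k85 k255 14 (.s k1 k253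
  13 (.s k3 k2 0 (.s k13 k5 1 (.d k12 k14 k6 0 2))))), (.s k21 k42 6 (.s k85 k255 14 (.s k149 k213 7
  (.s k192 k106 14 (.d k128 k191 k64 6 7))))), (.s k42 k21 6 (.s k106 k234 7 (.s k43 k232 8 (.s k3
  k23 5 (.s k2 k1 0 (.d k86 k254 k252 13 14))))))] (.c k88 (.l (.s k168 k171 0 (.s k252 k84 13 (.s
  k85 k255 14 (.s k1 k253 13 (.d k3 k2 k86 0 14)))))) (.c k168 (.q k88 [(.s k85 k255 14 (.s k1 k253
  13 (.s k3 k2 0 (.s k13 k5 1 (.d k12 k14 k6 0 2))))), (.s k21 k42 6 (.s k85 k255 14 (.s k149 k213 7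
  (.s k192 k106 14 (.d k128 k191 k64 6 7))))), (.s k42 k21 6 (.s k106 k234 7 (.s k43 k232 8 (.s k3
  k23 5 (.s k2 k1 0 (.d k86 k254 k252 13 14))))))] .n) .n))) .n)))) (.c k9 (.q k8 [(.s k12 k4 1 (.s
  k42 k21 6 (.s k46 k29 4 (.s k38 k34 1 (.d k25 k59 k51 4 6))))), (.s k21 k42 6 (.s k85 k255 14 (.s
  k149 k213 7 (.s k192 k106 14 (.d k128 k191 k64 6 7))))), (.s k12 k4 1 (.s k85 k255 14 (.s k89 k251
  12 (.s k243 k166 14 (.d k81 k93 k162 1 12)))))] (.c k169 (.q k248 [(.s k12 k4 1 (.s k42 k21 6 (.s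
  k46 k29 4 (.s k38 k34 1 (.d k25 k59 k51 4 6))))), (.s k21 k42 6 (.s k85 k255 14 (.s k149 k213 7
  (.s k192 k106 14 (.d k128 k191 k64 6 7))))), (.s k12 k4 1 (.s k85 k255 14 (.s k89 k251 12 (.s k243
  k166 14 (.d k81 k93 k162 1 12)))))] (.c k89 (.q k249 [(.s k12 k4 1 (.s k42 k21 6 (.s k25 k59 4 (.s
  k38 k51 6 (.d k46 k34 k29 1 4))))), (.s k12 k4 1 (.s k255 k85 14 (.s k88 k168 11 (.s k240 k164 13
  (.d k250 k251 k245 0 2))))), (.s k21 k42 6 (.s k85 k255 14 (.s k149 k213 7 (.s k192 k106 14 (.d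
  k128 k191 k64 6 7)))))] (.c k88 (.q k91 [(.s k243 k167 13 (.s k251 k250 0 (.d k255 k247 k85 1
  14))), (.s k12 k4 1 (.s k42 k21 6 (.s k25 k59 4 (.s k38 k51 6 (.d k46 k34 k29 1 4)))))] .n) (.c
  k91 (.l (.s k88 k168 11 (.s k12 k4 1 (.s k255 k85 14 (.s k240 k164 13 (.d k250 k251 k245 0 2))))))
  .n))) (.c k249 (.l (.s k89 k251 12 (.s k12 k4 1 (.s k85 k255 14 (.s k243 k166 14 (.d k81 k93 k162
  1 12)))))) .n))) (.c k248 (.q k169 [(.s k12 k4 1 (.s k42 k21 6 (.s k46 k29 4 (.s k38 k34 1 (.d k25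
  k59 k51 4 6))))), (.s k21 k42 6 (.s k85 k255 14 (.s k149 k213 7 (.s k192 k106 14 (.d k128 k191 k64
  6 7))))), (.s k12 k4 1 (.s k85 k255 14 (.s k89 k251 12 (.s k243 k166 14 (.d k81 k93 k162 1
  12)))))] .n) .n))) (.c k31 (.l (.s k21 k42 6 (.s k85 k255 14 (.s k149 k213 7 (.s k192 k106 14 (.d
  k128 k191 k64 6 7)))))) (.c k169 (.q k248 [(.s k21 k42 6 (.s k85 k255 14 (.s k149 k213 7 (.s k128
  k191 6 (.d k192 k64 k106 7 14))))), (.s k255 k85 14 (.s k31 k47 3 (.s k95 k175 11 (.s k159 k223 7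
  (.s k111 k207 11 (.d k127 k79 k191 3 7)))))), (.s k42 k21 6 (.s k47 k31 3 (.s k32 k37 2 (.s k101
  k239 10 (.s k106 k234 7 (.s k224 k165 10 (.d k96 k111 k160 2 7)))))))] (.c k8 (.q k9 [(.s k42 k21
  6 (.s k85 k255 14 (.s k106 k234 7 (.s k192 k149 14 (.d k64 k127 k128 6 7))))), (.s k255 k85 14 (.s
  k31 k47 3 (.s k95 k175 11 (.s k159 k223 7 (.s k111 k207 11 (.d k127 k79 k191 3 7)))))), (.s k42
  k21 6 (.s k47 k31 3 (.s k32 k37 2 (.s k101 k239 10 (.s k106 k234 7 (.s k224 k165 10 (.d k96 k111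
  k160 2 7)))))))] (.c k31 (.l (.s k21 k42 6 (.s k85 k255 14 (.s k149 k213 7 (.s k192 k106 14 (.d
  k128 k191 k64 6 7)))))) .n)) (.c k9 (.q k8 [(.s k12 k4 1 (.s k42 k21 6 (.s k46 k29 4 (.s k38 k34 1
  (.d k25 k59 k51 4 6))))), (.s k21 k42 6 (.s k85 k255 14 (.s k149 k213 7 (.s k192 k106 14 (.d k128
  k191 k64 6 7))))), (.s k12 k4 1 (.s k85 k255 14 (.s k89 k251 12 (.s k243 k166 14 (.d k81 k93 k162
  1 12)))))] (.c k89 (.q k249 [(.s k12 k4 1 (.s k42 k21 6 (.s k25 k59 4 (.s k38 k51 6 (.d k46 k34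
  k29 1 4))))), (.s k12 k4 1 (.s k255 k85 14 (.s k88 k168 11 (.s k240 k164 13 (.d k250 k251 k245 0
  2))))), (.s k21 k42 6 (.s k85 k255 14 (.s k149 k213 7 (.s k192 k106 14 (.d k128 k191 k64 6 7)))))]
  (.c k88 (.q k91 [(.s k243 k167 13 (.s k251 k250 0 (.d k255 k247 k85 1 14))), (.s k12 k4 1 (.s k42
  k21 6 (.s k25 k59 4 (.s k38 k51 6 (.d k46 k34 k29 1 4)))))] .n) (.c k91 (.l (.s k88 k168 11 (.s
  k12 k4 1 (.s k255 k85 14 (.s k240 k164 13 (.d k250 k251 k245 0 2)))))) .n))) (.c k249 (.l (.s k89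
  k251 12 (.s k12 k4 1 (.s k85 k255 14 (.s k243 k166 14 (.d k81 k93 k162 1 12)))))) .n))) .n))) (.c
  k248 (.q k169 [(.s k42 k21 6 (.s k85 k255 14 (.s k106 k234 7 (.s k192 k149 14 (.d k64 k127 k128 6
  7))))), (.s k85 k255 14 (.s k1 k253 13 (.s k3 k2 0 (.s k252 k86 14 (.d k168 k171 k84 0 13))))),
  (.s k42 k21 6 (.s k106 k234 7 (.s k43 k232 8 (.s k3 k23 5 (.s k2 k1 0 (.d k86 k254 k252 13
  14))))))] (.c k8 (.q k9 [(.s k85 k255 14 (.s k1 k253 13 (.s k3 k2 0 (.s k13 k5 1 (.d k12 k14 k6 0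
  2))))), (.s k21 k42 6 (.s k85 k255 14 (.s k149 k213 7 (.s k192 k106 14 (.d k128 k191 k64 6 7))))),
  (.s k42 k21 6 (.s k106 k234 7 (.s k43 k232 8 (.s k3 k23 5 (.s k2 k1 0 (.d k86 k254 k252 13
  14))))))] (.c k88 (.l (.s k168 k171 0 (.s k252 k84 13 (.s k85 k255 14 (.s k1 k253 13 (.d k3 k2 k86
  0 14)))))) (.c k168 (.q k88 [(.s k85 k255 14 (.s k1 k253 13 (.s k3 k2 0 (.s k13 k5 1 (.d k12 k14
  k6 0 2))))), (.s k21 k42 6 (.s k85 k255 14 (.s k149 k213 7 (.s k192 k106 14 (.d k128 k191 k64 6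
  7))))), (.s k42 k21 6 (.s k106 k234 7 (.s k43 k232 8 (.s k3 k23 5 (.s k2 k1 0 (.d k86 k254 k252 13
  14))))))] .n) .n))) (.c k9 (.q k8 [(.s k12 k4 1 (.s k42 k21 6 (.s k46 k29 4 (.s k38 k34 1 (.d k25
  k59 k51 4 6))))), (.s k21 k42 6 (.s k85 k255 14 (.s k149 k213 7 (.s k192 k106 14 (.d k128 k191 k64
  6 7))))), (.s k12 k4 1 (.s k85 k255 14 (.s k89 k251 12 (.s k243 k166 14 (.d k81 k93 k162 1
  12)))))] .n) .n))) .n))))))

def t10_12 : T TT 256 :=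
  (.q k63 [(.s k42 k21 6 (.s k85 k255 14 (.s k106 k234 7 (.s k192 k149 14 (.d k64 k127 k128 6
  7))))), (.s k255 k85 14 (.s k31 k47 3 (.s k95 k175 11 (.s k159 k223 7 (.s k111 k207 11 (.d k127
  k79 k191 3 7)))))), (.s k42 k21 6 (.s k47 k31 3 (.s k32 k37 2 (.s k101 k239 10 (.s k106 k234 7 (.s
  k224 k165 10 (.d k96 k111 k160 2 7)))))))] (.c k31 (.l (.s k21 k42 6 (.s k85 k255 14 (.s k149 k213
  7 (.s k192 k106 14 (.d k128 k191 k64 6 7)))))) .n))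

def t10_13 : T TT 256 :=
  (.q k63 [(.s k42 k21 6 (.s k85 k255 14 (.s k106 k234 7 (.s k192 k149 14 (.d k64 k127 k128 6
  7))))), (.s k255 k85 14 (.s k31 k47 3 (.s k95 k175 11 (.s k159 k223 7 (.s k111 k207 11 (.d k127
  k79 k191 3 7)))))), (.s k42 k21 6 (.s k47 k31 3 (.s k32 k37 2 (.s k101 k239 10 (.s k106 k234 7 (.s
  k224 k165 10 (.d k96 k111 k160 2 7)))))))] (.c k31 (.l (.s k21 k42 6 (.s k85 k255 14 (.s k149 k213
  7 (.s k192 k106 14 (.d k128 k191 k64 6 7)))))) .n))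

def t10_14 : T TT 256 :=
  (.q k63 [(.s k42 k21 6 (.s k85 k255 14 (.s k106 k234 7 (.s k192 k149 14 (.d k64 k127 k128 6
  7))))), (.s k255 k85 14 (.s k31 k47 3 (.s k95 k175 11 (.s k159 k223 7 (.s k111 k207 11 (.d k127
  k79 k191 3 7)))))), (.s k42 k21 6 (.s k47 k31 3 (.s k32 k37 2 (.s k101 k239 10 (.s k106 k234 7 (.s
  k224 k165 10 (.d k96 k111 k160 2 7)))))))] (.c k2 (.q k6 [(.s k42 k21 6 (.s k85 k255 14 (.s k106
  k234 7 (.s k192 k149 14 (.d k64 k127 k128 6 7))))), (.s k255 k85 14 (.s k31 k47 3 (.s k95 k175 11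
  (.s k159 k223 7 (.s k111 k207 11 (.d k127 k79 k191 3 7)))))), (.s k42 k21 6 (.s k47 k31 3 (.s k32
  k37 2 (.s k101 k239 10 (.s k106 k234 7 (.s k224 k165 10 (.d k96 k111 k160 2 7)))))))] (.c k31 (.l
  (.s k21 k42 6 (.s k85 k255 14 (.s k149 k213 7 (.s k192 k106 14 (.d k128 k191 k64 6 7)))))) (.c
  k166 (.q k242 [(.s k42 k21 6 (.s k85 k255 14 (.s k106 k234 7 (.s k192 k149 14 (.d k64 k127 k128 6
  7))))), (.s k255 k85 14 (.s k31 k47 3 (.s k95 k175 11 (.s k159 k223 7 (.s k111 k207 11 (.d k127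
  k79 k191 3 7)))))), (.s k42 k21 6 (.s k47 k31 3 (.s k32 k37 2 (.s k101 k239 10 (.s k106 k234 7 (.s
  k224 k165 10 (.d k96 k111 k160 2 7)))))))] (.c k31 (.l (.s k21 k42 6 (.s k85 k255 14 (.s k149 k213
  7 (.s k192 k106 14 (.d k128 k191 k64 6 7)))))) .n)) (.c k242 (.q k166 [(.s k85 k255 14 (.s k4 k247
  12 (.s k12 k8 1 (.s k7 k5 0 (.d k3 k11 k9 1 2))))), (.s k21 k42 6 (.s k85 k255 14 (.s k149 k213 7
  (.s k192 k106 14 (.d k128 k191 k64 6 7))))), (.s k42 k21 6 (.s k106 k234 7 (.s k46 k226 9 (.s k12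
  k29 4 (.s k8 k4 1 (.d k89 k251 k243 12 14))))))] (.c k82 (.l (.s k162 k174 1 (.s k243 k81 12 (.s
  k85 k255 14 (.s k4 k247 12 (.d k12 k8 k89 1 14)))))) (.c k162 (.q k82 [(.s k85 k255 14 (.s k4 k247
  12 (.s k12 k8 1 (.s k7 k5 0 (.d k3 k11 k9 1 2))))), (.s k21 k42 6 (.s k85 k255 14 (.s k149 k213 7
  (.s k192 k106 14 (.d k128 k191 k64 6 7))))), (.s k42 k21 6 (.s k106 k234 7 (.s k46 k226 9 (.s k12
  k29 4 (.s k8 k4 1 (.d k89 k251 k243 12 14))))))] .n) .n))) .n)))) (.c k6 (.q k2 [(.s k3 k1 0 (.s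
  k42 k21 6 (.s k43 k23 5 (.s k41 k40 0 (.d k22 k62 k60 5 6))))), (.s k21 k42 6 (.s k85 k255 14 (.s
  k149 k213 7 (.s k192 k106 14 (.d k128 k191 k64 6 7))))), (.s k3 k1 0 (.s k85 k255 14 (.s k86 k254
  13 (.s k252 k169 14 (.d k84 k87 k168 0 13)))))] (.c k166 (.q k242 [(.s k3 k1 0 (.s k42 k21 6 (.s
  k43 k23 5 (.s k41 k40 0 (.d k22 k62 k60 5 6))))), (.s k21 k42 6 (.s k85 k255 14 (.s k149 k213 7
  (.s k192 k106 14 (.d k128 k191 k64 6 7))))), (.s k3 k1 0 (.s k85 k255 14 (.s k86 k254 13 (.s k252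
  k169 14 (.d k84 k87 k168 0 13)))))] (.c k86 (.q k246 [(.s k3 k1 0 (.s k42 k21 6 (.s k22 k62 5 (.s
  k41 k60 6 (.d k43 k40 k23 0 5))))), (.s k3 k1 0 (.s k255 k85 14 (.s k82 k162 11 (.s k240 k161 12
  (.d k250 k254 k245 1 2))))), (.s k21 k42 6 (.s k85 k255 14 (.s k149 k213 7 (.s k192 k106 14 (.d
  k128 k191 k64 6 7)))))] (.c k82 (.q k94 [(.s k252 k173 12 (.s k254 k250 1 (.d k255 k253 k85 0
  14))), (.s k3 k1 0 (.s k42 k21 6 (.s k22 k62 5 (.s k41 k60 6 (.d k43 k40 k23 0 5)))))] .n) (.c k94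
  (.l (.s k82 k162 11 (.s k3 k1 0 (.s k255 k85 14 (.s k240 k161 12 (.d k250 k254 k245 1 2))))))
  .n))) (.c k246 (.l (.s k86 k254 13 (.s k3 k1 0 (.s k85 k255 14 (.s k252 k169 14 (.d k84 k87 k168 0
  13)))))) .n))) (.c k242 (.q k166 [(.s k3 k1 0 (.s k42 k21 6 (.s k43 k23 5 (.s k41 k40 0 (.d k22
  k62 k60 5 6))))), (.s k21 k42 6 (.s k85 k255 14 (.s k149 k213 7 (.s k192 k106 14 (.d k128 k191 k64
  6 7))))), (.s k3 k1 0 (.s k85 k255 14 (.s k86 k254 13 (.s k252 k169 14 (.d k84 k87 k168 0 13)))))]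
  .n) .n))) (.c k31 (.l (.s k21 k42 6 (.s k85 k255 14 (.s k149 k213 7 (.s k192 k106 14 (.d k128 k191
  k64 6 7)))))) (.c k166 (.q k242 [(.s k21 k42 6 (.s k85 k255 14 (.s k149 k213 7 (.s k128 k191 6 (.d
  k192 k64 k106 7 14))))), (.s k255 k85 14 (.s k31 k47 3 (.s k95 k175 11 (.s k159 k223 7 (.s k111
  k207 11 (.d k127 k79 k191 3 7)))))), (.s k42 k21 6 (.s k47 k31 3 (.s k32 k37 2 (.s k101 k239 10
  (.s k106 k234 7 (.s k224 k165 10 (.d k96 k111 k160 2 7)))))))] (.c k2 (.q k6 [(.s k42 k21 6 (.s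
  k85 k255 14 (.s k106 k234 7 (.s k192 k149 14 (.d k64 k127 k128 6 7))))), (.s k255 k85 14 (.s k31
  k47 3 (.s k95 k175 11 (.s k159 k223 7 (.s k111 k207 11 (.d k127 k79 k191 3 7)))))), (.s k42 k21 6
  (.s k47 k31 3 (.s k32 k37 2 (.s k101 k239 10 (.s k106 k234 7 (.s k224 k165 10 (.d k96 k111 k160 2
  7)))))))] (.c k31 (.l (.s k21 k42 6 (.s k85 k255 14 (.s k149 k213 7 (.s k192 k106 14 (.d k128 k191
  k64 6 7)))))) .n)) (.c k6 (.q k2 [(.s k3 k1 0 (.s k42 k21 6 (.s k43 k23 5 (.s k41 k40 0 (.d k22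
  k62 k60 5 6))))), (.s k21 k42 6 (.s k85 k255 14 (.s k149 k213 7 (.s k192 k106 14 (.d k128 k191 k64
  6 7))))), (.s k3 k1 0 (.s k85 k255 14 (.s k86 k254 13 (.s k252 k169 14 (.d k84 k87 k168 0 13)))))]
  (.c k86 (.q k246 [(.s k3 k1 0 (.s k42 k21 6 (.s k22 k62 5 (.s k41 k60 6 (.d k43 k40 k23 0 5))))),
  (.s k3 k1 0 (.s k255 k85 14 (.s k82 k162 11 (.s k240 k161 12 (.d k250 k254 k245 1 2))))), (.s k21
  k42 6 (.s k85 k255 14 (.s k149 k213 7 (.s k192 k106 14 (.d k128 k191 k64 6 7)))))] (.c k82 (.q k94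
  [(.s k252 k173 12 (.s k254 k250 1 (.d k255 k253 k85 0 14))), (.s k3 k1 0 (.s k42 k21 6 (.s k22 k62
  5 (.s k41 k60 6 (.d k43 k40 k23 0 5)))))] .n) (.c k94 (.l (.s k82 k162 11 (.s k3 k1 0 (.s k255 k85
  14 (.s k240 k161 12 (.d k250 k254 k245 1 2)))))) .n))) (.c k246 (.l (.s k86 k254 13 (.s k3 k1 0
  (.s k85 k255 14 (.s k252 k169 14 (.d k84 k87 k168 0 13)))))) .n))) .n))) (.c k242 (.q k166 [(.s
  k42 k21 6 (.s k85 k255 14 (.s k106 k234 7 (.s k192 k149 14 (.d k64 k127 k128 6 7))))), (.s k85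
  k255 14 (.s k4 k247 12 (.s k12 k8 1 (.s k243 k89 14 (.d k162 k174 k81 1 12))))), (.s k42 k21 6 (.s
  k106 k234 7 (.s k46 k226 9 (.s k12 k29 4 (.s k8 k4 1 (.d k89 k251 k243 12 14))))))] (.c k2 (.q k6
  [(.s k85 k255 14 (.s k4 k247 12 (.s k12 k8 1 (.s k7 k5 0 (.d k3 k11 k9 1 2))))), (.s k21 k42 6 (.s
  k85 k255 14 (.s k149 k213 7 (.s k192 k106 14 (.d k128 k191 k64 6 7))))), (.s k42 k21 6 (.s k106
  k234 7 (.s k46 k226 9 (.s k12 k29 4 (.s k8 k4 1 (.d k89 k251 k243 12 14))))))] (.c k82 (.l (.s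
  k162 k174 1 (.s k243 k81 12 (.s k85 k255 14 (.s k4 k247 12 (.d k12 k8 k89 1 14)))))) (.c k162 (.q
  k82 [(.s k85 k255 14 (.s k4 k247 12 (.s k12 k8 1 (.s k7 k5 0 (.d k3 k11 k9 1 2))))), (.s k21 k42 6
  (.s k85 k255 14 (.s k149 k213 7 (.s k192 k106 14 (.d k128 k191 k64 6 7))))), (.s k42 k21 6 (.s
  k106 k234 7 (.s k46 k226 9 (.s k12 k29 4 (.s k8 k4 1 (.d k89 k251 k243 12 14))))))] .n) .n))) (.c
  k6 (.q k2 [(.s k3 k1 0 (.s k42 k21 6 (.s k43 k23 5 (.s k41 k40 0 (.d k22 k62 k60 5 6))))), (.s k21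
  k42 6 (.s k85 k255 14 (.s k149 k213 7 (.s k192 k106 14 (.d k128 k191 k64 6 7))))), (.s k3 k1 0 (.s
  k85 k255 14 (.s k86 k254 13 (.s k252 k169 14 (.d k84 k87 k168 0 13)))))] .n) .n))) .n))))))

def t10_16 : T TT 256 :=
  (.q k63 [(.s k21 k42 6 (.s k85 k255 14 (.s k149 k213 7 (.s k128 k191 6 (.d k192 k64 k106 7
  14))))), (.s k255 k85 14 (.s k31 k47 3 (.s k95 k175 11 (.s k127 k191 7 (.s k111 k79 3 (.d k159
  k223 k207 7 11))))))] (.c k85 (.q k154 [(.s k42 k21 6 (.s k138 k186 3 (.s k207 k69 10 (.s k101 k48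
  14 (.s k32 k239 10 (.d k47 k31 k37 3 2)))))), (.s k138 k186 3 (.s k207 k69 10 (.s k143 k79 7 (.s
  k159 k111 11 (.s k165 k176 6 (.d k175 k191 k160 3 2)))))), (.s k42 k21 6 (.s k106 k234 7 (.s k149
  k192 14 (.s k191 k128 6 (.s k255 k127 7 (.s k159 k144 2 (.d k175 k95 k143 11 3)))))))] (.c k80 (.q
  k95 [(.s k31 k47 3 (.s k159 k223 7 (.s k138 k186 3 (.d k207 k69 k111 10 11)))), (.s k42 k21 6 (.s
  k175 k255 11 (.s k106 k234 7 (.s k165 k160 2 (.d k47 k31 k224 3 10))))), (.s k138 k186 3 (.s k207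
  k69 10 (.s k79 k143 7 (.d k111 k127 k159 3 11))))] (.c k144 (.q k208 [(.s k31 k47 3 (.s k159 k223
  7 (.s k138 k186 3 (.d k207 k69 k111 10 11)))), (.s k42 k21 6 (.s k175 k255 11 (.s k106 k234 7 (.s
  k165 k160 2 (.d k47 k31 k224 3 10))))), (.s k138 k186 3 (.s k207 k69 10 (.s k79 k143 7 (.d k111
  k127 k159 3 11))))] .n) (.c k208 (.q k144 [(.s k31 k47 3 (.d k159 k149 k223 2 7)), (.s k149 k159 2
  (.s k255 k175 11 (.d k191 k128 k127 6 7)))] (.c k31 (.l (.s k149 k159 2 (.s k255 k175 11 (.d k191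
  k128 k127 6 7)))) (.c k149 (.l (.s k31 k47 3 (.s k159 k223 7 (.s k207 k111 11 (.d k138 k186 k69 3
  10))))) (.c k159 (.l (.s k42 k21 6 (.s k175 k255 11 (.s k106 k234 7 (.s k165 k160 2 (.d k47 k31
  k224 3 10)))))) .n)))) .n))) (.c k95 (.q k80 [(.s k42 k21 6 (.s k160 k240 11 (.s k106 k234 7 (.s
  k165 k175 2 (.d k47 k31 k224 3 10))))), (.s k160 k240 11 (.s k138 k186 3 (.s k207 k69 10 (.s k143
  k79 7 (.d k165 k175 k176 2 6))))), (.s k42 k21 6 (.s k106 k234 7 (.s k58 k202 11 (.s k48 k53 2 (.s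
  k207 k101 14 (.d k138 k69 k186 10 3))))))] .n) .n))) (.c k191 (.l (.s k42 k21 6 (.s k85 k255 14
  (.s k106 k234 7 (.s k192 k149 14 (.d k64 k127 k128 6 7)))))) (.c k255 (.q k2 [(.s k3 k1 0 (.s k42
  k21 6 (.s k22 k62 5 (.s k43 k23 5 (.d k41 k40 k60 0 6))))), (.s k3 k1 0 (.s k86 k254 13 (.s k23
  k43 5 (.s k149 k212 8 (.s k192 k106 14 (.d k128 k191 k64 6 7)))))), (.s k42 k21 6 (.s k62 k22 5
  (.s k86 k254 13 (.s k106 k234 7 (.s k194 k150 13 (.d k66 k126 k130 5 7))))))] (.c k23 (.l (.s k3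
  k1 0 (.s k42 k21 6 (.s k22 k62 5 (.s k7 k11 1 (.s k37 k52 4 (.d k47 k31 k32 3 2))))))) .n)) .n))))

def t10_17 : T TT 256 :=
  (.q k48 [(.s k16 k32 3 (.s k85 k255 14 (.s k154 k223 10 (.s k138 k186 3 (.d k207 k69 k101 10
  14))))), (.s k32 k16 3 (.s k37 k26 6 (.s k101 k239 10 (.s k165 k229 7 (.s k160 k175 2 (.s k224 k96
  7 (.d k47 k42 k106 2 10))))))), (.s k255 k85 14 (.s k37 k26 6 (.s k186 k117 10 (.s k154 k138 3 (.s
  k101 k207 14 (.s k165 k229 7 (.d k175 k95 k160 11 2)))))))] (.c k101 (.f k85 k255 14 (.l (.s k16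
  k32 3 (.s k26 k37 6 (.s k21 k31 2 (.s k149 k213 7 (.s k128 k191 6 (.s k192 k64 7 (.d k63 k42 k106
  6 14))))))))) (.c k154 (.f k85 k255 14 (.l (.s k16 k32 3 (.s k26 k37 6 (.s k21 k31 2 (.s k149 k213
  7 (.s k128 k191 6 (.s k192 k64 7 (.d k63 k42 k106 6 14))))))))) .n)))

def t10_18 : T TT 256 :=
  (.q k48 [(.s k16 k32 3 (.s k85 k255 14 (.s k154 k223 10 (.s k138 k186 3 (.d k207 k69 k101 10
  14))))), (.s k32 k16 3 (.s k37 k26 6 (.s k101 k239 10 (.s k165 k229 7 (.s k160 k175 2 (.s k224 k96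
  7 (.d k47 k42 k106 2 10))))))), (.s k255 k85 14 (.s k37 k26 6 (.s k186 k117 10 (.s k154 k138 3 (.s
  k101 k207 14 (.s k165 k229 7 (.d k175 k95 k160 11 2)))))))] (.c k101 (.f k85 k255 14 (.l (.s k16
  k32 3 (.s k26 k37 6 (.s k21 k31 2 (.s k149 k213 7 (.s k128 k191 6 (.s k192 k64 7 (.d k63 k42 k106
  6 14))))))))) (.c k154 (.f k85 k255 14 (.l (.s k16 k32 3 (.s k26 k37 6 (.s k21 k31 2 (.s k149 k213
  7 (.s k128 k191 6 (.s k192 k64 7 (.d k63 k42 k106 6 14))))))))) .n)))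

def t10_19 : T TT 256 :=
  (.q k48 [(.s k16 k32 3 (.s k85 k255 14 (.s k154 k223 10 (.s k138 k186 3 (.d k207 k69 k101 10
  14))))), (.s k32 k16 3 (.s k37 k26 6 (.s k101 k239 10 (.s k165 k229 7 (.s k160 k175 2 (.s k224 k96
  7 (.d k47 k42 k106 2 10))))))), (.s k255 k85 14 (.s k37 k26 6 (.s k186 k117 10 (.s k154 k138 3 (.s
  k101 k207 14 (.s k165 k229 7 (.d k175 k95 k160 11 2)))))))] (.c k101 (.f k85 k255 14 (.l (.s k16
  k32 3 (.s k26 k37 6 (.s k21 k31 2 (.s k149 k213 7 (.s k128 k191 6 (.s k192 k64 7 (.d k63 k42 k106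
  6 14))))))))) (.c k154 (.f k85 k255 14 (.l (.s k16 k32 3 (.s k26 k37 6 (.s k21 k31 2 (.s k149 k213
  7 (.s k128 k191 6 (.s k192 k64 7 (.d k63 k42 k106 6 14))))))))) .n)))

def t10_20 : T TT 256 :=
  (.q k48 [(.s k16 k32 3 (.s k85 k255 14 (.s k154 k223 10 (.s k138 k186 3 (.d k207 k69 k101 10
  14))))), (.s k32 k16 3 (.s k37 k26 6 (.s k101 k239 10 (.s k165 k229 7 (.s k160 k175 2 (.s k224 k96
  7 (.d k47 k42 k106 2 10))))))), (.s k255 k85 14 (.s k37 k26 6 (.s k186 k117 10 (.s k154 k138 3 (.s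
  k101 k207 14 (.s k165 k229 7 (.d k175 k95 k160 11 2)))))))] (.c k101 (.f k85 k255 14 (.l (.s k16
  k32 3 (.s k26 k37 6 (.s k21 k31 2 (.s k149 k213 7 (.s k128 k191 6 (.s k192 k64 7 (.d k63 k42 k106
  6 14))))))))) (.c k154 (.f k85 k255 14 (.l (.s k16 k32 3 (.s k26 k37 6 (.s k21 k31 2 (.s k149 k213
  7 (.s k128 k191 6 (.s k192 k64 7 (.d k63 k42 k106 6 14))))))))) .n)))

def t10_21 : T TT 256 :=
  (.q k207 [(.s k138 k69 10 (.s k85 k255 14 (.s k154 k186 3 (.s k16 k223 10 (.d k48 k32 k101 3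
  14))))), (.s k255 k85 14 (.s k79 k143 7 (.s k95 k175 11 (.s k111 k127 3 (.s k159 k63 11 (.d k223
  k239 k31 3 7)))))), (.s k138 k69 10 (.s k143 k79 7 (.s k128 k133 2 (.s k149 k191 6 (.s k154 k186 3
  (.s k176 k165 6 (.d k144 k159 k160 2 3)))))))] .n)

def t10_22 : T TT 256 :=
  (.q k63 [(.s k42 k21 6 (.s k85 k255 14 (.s k106 k234 7 (.s k192 k149 14 (.d k64 k127 k128 6
  7))))), (.s k255 k85 14 (.s k31 k47 3 (.s k95 k175 11 (.s k159 k223 7 (.s k111 k207 11 (.d k127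
  k79 k191 3 7)))))), (.s k42 k21 6 (.s k47 k31 3 (.s k32 k37 2 (.s k101 k239 10 (.s k106 k234 7 (.s
  k224 k165 10 (.d k96 k111 k160 2 7)))))))] (.c k31 (.l (.s k21 k42 6 (.s k85 k255 14 (.s k149 k213
  7 (.s k192 k106 14 (.d k128 k191 k64 6 7)))))) .n))

def t10_23 : T TT 256 :=
  (.q k63 [(.s k21 k42 6 (.s k85 k255 14 (.s k149 k213 7 (.s k128 k191 6 (.d k192 k64 k106 7
  14))))), (.s k255 k85 14 (.s k31 k47 3 (.s k95 k175 11 (.s k159 k223 7 (.s k111 k207 11 (.d k127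
  k79 k191 3 7)))))), (.s k42 k21 6 (.s k47 k31 3 (.s k32 k37 2 (.s k101 k239 10 (.s k106 k234 7 (.s
  k224 k165 10 (.d k96 k111 k160 2 7)))))))] .n)

def t10_24 : T TT 256 :=
  (.q k63 [(.s k42 k21 6 (.s k85 k255 14 (.s k106 k234 7 (.s k192 k149 14 (.d k64 k127 k128 6
  7))))), (.s k255 k85 14 (.s k31 k47 3 (.s k95 k175 11 (.s k159 k223 7 (.s k111 k207 11 (.d k127
  k79 k191 3 7)))))), (.s k42 k21 6 (.s k47 k31 3 (.s k32 k37 2 (.s k101 k239 10 (.s k106 k234 7 (.s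
  k224 k165 10 (.d k96 k111 k160 2 7)))))))] (.c k31 (.l (.s k21 k42 6 (.s k85 k255 14 (.s k149 k213
  7 (.s k192 k106 14 (.d k128 k191 k64 6 7)))))) .n))

def t10_25 : T TT 256 :=
  (.q k63 [(.s k42 k21 6 (.s k85 k255 14 (.s k106 k234 7 (.s k192 k149 14 (.d k64 k127 k128 6
  7))))), (.s k255 k85 14 (.s k31 k47 3 (.s k95 k175 11 (.s k159 k223 7 (.s k111 k207 11 (.d k127
  k79 k191 3 7)))))), (.s k42 k21 6 (.s k47 k31 3 (.s k32 k37 2 (.s k101 k239 10 (.s k106 k234 7 (.s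
  k224 k165 10 (.d k96 k111 k160 2 7)))))))] (.c k31 (.l (.s k21 k42 6 (.s k85 k255 14 (.s k149 k213
  7 (.s k192 k106 14 (.d k128 k191 k64 6 7)))))) .n))

def t10_26 : T TT 256 :=
  (.q k154 [(.s k85 k255 14 (.s k16 k223 10 (.s k48 k32 3 (.s k138 k186 3 (.d k207 k69 k101 10
  14))))), (.s k138 k186 3 (.s k207 k69 10 (.s k143 k79 7 (.s k128 k133 2 (.s k149 k191 6 (.s k176
  k165 6 (.d k144 k159 k160 2 3)))))))] (.c k42 (.q k58 [(.s k85 k255 14 (.s k138 k186 3 (.s k207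
  k69 10 (.s k16 k223 10 (.d k48 k32 k101 3 14))))), (.s k202 k106 11 (.s k138 k186 3 (.s k207 k69
  10 (.s k143 k79 7 (.s k128 k133 2 (.d k192 k197 k64 2 7)))))), (.s k85 k255 14 (.s k106 k202 11
  (.s k64 k127 6 (.s k192 k128 7 (.s k63 k149 14 (.s k48 k53 2 (.d k16 k32 k223 3 10)))))))] (.c
  k101 (.l (.s k202 k106 11 (.s k138 k186 3 (.s k207 k69 10 (.s k192 k197 2 (.s k128 k64 7 (.d k133
  k74 k143 10 2))))))) (.c k138 (.q k74 [(.s k85 k255 14 (.s k192 k133 10 (.s k106 k202 11 (.d k64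
  k128 k127 7 6)))), (.s k85 k255 14 (.s k16 k223 10 (.s k48 k32 3 (.s k63 k53 2 (.s k106 k202 11
  (.d k192 k133 k149 10 14)))))), (.s k192 k133 10 (.s k128 k64 7 (.s k106 k202 11 (.d k149 k191 k63
  6 14)))), (.s k85 k255 14 (.s k192 k133 10 (.s k128 k64 7 (.s k16 k223 10 (.s k48 k32 3 (.s k144
  k96 11 (.d k149 k159 k191 2 6))))))), (.s k85 k255 14 (.s k16 k223 10 (.s k32 k48 3 (.s k106 k202
  11 (.s k64 k127 6 (.s k69 k79 2 (.d k101 k117 k239 3 10)))))))] .n) .n))) (.c k58 (.q k42 [(.s k85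
  k255 14 (.s k106 k234 7 (.s k64 k127 6 (.s k192 k128 7 (.d k63 k21 k149 6 14))))), (.s k85 k255 14
  (.s k16 k223 10 (.s k48 k32 3 (.s k207 k101 14 (.d k138 k186 k69 3 10)))))] (.c k85 (.l (.s k63
  k21 6 (.s k106 k234 7 (.s k149 k192 14 (.s k138 k186 3 (.s k207 k69 10 (.d k159 k144 k111 2
  11))))))) (.c k255 (.l (.s k63 k21 6 (.s k106 k234 7 (.s k192 k149 14 (.s k128 k64 7 (.s k133 k74
  10 (.d k138 k143 k186 2 3))))))) .n))) (.c k69 (.l (.s k255 k85 14 (.s k186 k138 3 (.s k48 k117 10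
  (.s k101 k207 14 (.d k32 k16 k239 3 10)))))) (.c k101 (.q k42 [(.s k85 k255 14 (.s k106 k234 7 (.s
  k64 k127 6 (.s k192 k128 7 (.d k63 k21 k149 6 14))))), (.s k63 k21 6 (.s k85 k255 14 (.s k16 k223
  10 (.s k32 k48 3 (.d k47 k31 k37 3 2))))), (.s k85 k255 14 (.s k106 k234 7 (.s k202 k58 11 (.s
  k138 k186 3 (.s k207 k69 10 (.s k192 k197 2 (.d k64 k127 k128 6 7)))))))] (.c k79 (.q k112 [(.s
  k85 k255 14 (.s k106 k234 7 (.s k64 k127 6 (.s k192 k128 7 (.d k63 k21 k149 6 14))))), (.s k63 k21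
  6 (.s k85 k255 14 (.s k16 k223 10 (.s k32 k48 3 (.d k47 k31 k37 3 2))))), (.s k85 k255 14 (.s k106
  k234 7 (.s k58 k202 11 (.s k127 k64 6 (.s k122 k117 2 (.d k186 k138 k250 3 7))))))] (.c k85 (.l
  (.s k63 k21 6 (.s k106 k234 7 (.s k149 k192 14 (.s k138 k186 3 (.s k159 k144 2 (.d k207 k69 k111
  10 11))))))) (.c k255 (.l (.s k63 k21 6 (.s k106 k234 7 (.s k202 k58 11 (.s k192 k149 14 (.s k138
  k186 3 (.d k207 k197 k69 2 10))))))) .n))) (.c k85 (.l (.s k63 k21 6 (.s k106 k234 7 (.s k149 k192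
  14 (.s k138 k186 3 (.s k159 k144 2 (.d k207 k69 k111 10 11))))))) (.c k112 (.q k79 [(.s k207 k143
  7 (.d k138 k186 k69 3 10)), (.s k63 k21 6 (.s k255 k85 14 (.s k95 k175 11 (.d k127 k111 k191 3
  7))))] (.c k69 (.l (.s k143 k207 7 (.s k165 k176 6 (.s k175 k160 2 (.d k255 k95 k85 11 14)))))
  .n)) (.c k255 (.l (.s k63 k21 6 (.s k106 k234 7 (.s k202 k58 11 (.s k192 k149 14 (.s k138 k186 3
  (.d k207 k197 k69 2 10))))))) .n))))) (.c k138 (.q k74 [(.s k85 k255 14 (.s k192 k133 10 (.s k128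
  k64 7 (.s k149 k191 6 (.s k21 k213 7 (.d k63 k42 k106 6 14)))))), (.s k85 k255 14 (.s k16 k223 10
  (.s k48 k32 3 (.s k207 k101 14 (.s k79 k143 7 (.s k64 k69 2 (.d k192 k128 k133 7 10))))))), (.s
  k192 k133 10 (.s k128 k64 7 (.s k149 k191 6 (.s k144 k159 2 (.s k48 k96 11 (.s k32 k16 3 (.d k101
  k239 k207 10 14)))))))] (.c k42 (.q k58 [(.s k85 k255 14 (.s k192 k133 10 (.s k106 k202 11 (.d k64
  k128 k127 7 6)))), (.s k85 k255 14 (.s k16 k223 10 (.s k48 k32 3 (.s k63 k53 2 (.s k106 k202 11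
  (.d k192 k133 k149 10 14)))))), (.s k192 k133 10 (.s k128 k64 7 (.s k106 k202 11 (.d k149 k191 k63
  6 14)))), (.s k85 k255 14 (.s k192 k133 10 (.s k128 k64 7 (.s k16 k223 10 (.s k48 k32 3 (.s k144
  k96 11 (.d k149 k159 k191 2 6))))))), (.s k85 k255 14 (.s k16 k223 10 (.s k32 k48 3 (.s k106 k202
  11 (.s k64 k127 6 (.s k69 k79 2 (.d k101 k117 k239 3 10)))))))] .n) (.c k58 (.q k42 [(.s k63 k21 6
  (.s k106 k234 7 (.d k192 k133 k149 10 14))), (.s k255 k85 14 (.s k192 k133 10 (.d k234 k213 k106 6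
  7))), (.s k63 k21 6 (.s k85 k255 14 (.s k47 k31 3 (.s k16 k223 10 (.d k32 k37 k48 2 3)))))] .n)
  (.c k64 (.q k42 [(.s k63 k21 6 (.s k106 k234 7 (.d k192 k133 k149 10 14))), (.s k255 k85 14 (.s
  k192 k133 10 (.d k234 k106 k213 7 6))), (.s k63 k21 6 (.s k85 k255 14 (.s k47 k31 3 (.s k16 k223
  10 (.d k32 k37 k48 2 3)))))] .n) (.c k128 (.q k42 [(.s k63 k21 6 (.s k106 k234 7 (.d k192 k133
  k149 10 14))), (.s k255 k85 14 (.s k234 k106 7 (.d k192 k133 k213 10 6))), (.s k63 k21 6 (.s k85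
  k255 14 (.s k47 k31 3 (.s k16 k223 10 (.d k32 k37 k48 2 3)))))] (.c k133 (.q k143 [(.s k255 k85 14
  (.s k165 k176 6 (.d k175 k160 k95 2 11))), (.s k63 k21 6 (.s k106 k234 7 (.s k165 k176 6 (.d k47
  k31 k224 3 10)))), (.s k63 k21 6 (.s k255 k85 14 (.s k191 k127 7 (.d k175 k95 k159 11 3))))] .n)
  (.c k143 (.l (.s k133 k192 10 (.s k63 k21 6 (.s k85 k255 14 (.s k47 k31 3 (.s k16 k223 10 (.d k32
  k37 k48 2 3))))))) .n))) (.c k133 (.q k42 [(.s k63 k21 6 (.s k85 k255 14 (.s k16 k223 10 (.s k32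
  k48 3 (.d k47 k31 k37 3 2))))), (.s k63 k21 6 (.s k85 k255 14 (.s k106 k234 7 (.s k192 k149 14 (.d
  k64 k128 k127 7 6))))), (.s k85 k255 14 (.s k16 k223 10 (.s k32 k48 3 (.s k106 k234 7 (.s k64 k127
  6 (.s k69 k79 2 (.d k101 k117 k239 3 10))))))), (.s k63 k21 6 (.s k106 k234 7 (.s k58 k202 11 (.s
  k48 k53 2 (.s k101 k207 14 (.d k32 k16 k239 3 10))))))] (.c k16 (.l (.s k63 k21 6 (.s k31 k47 3
  (.s k85 k255 14 (.s k106 k234 7 (.s k192 k149 14 (.d k64 k127 k128 6 7))))))) (.c k63 (.q k143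
  [(.s k255 k85 14 (.s k165 k176 6 (.d k175 k95 k160 11 2))), (.s k85 k255 14 (.s k79 k207 7 (.s
  k106 k234 7 (.d k64 k127 k69 6 2)))), (.s k207 k79 7 (.s k101 k48 14 (.s k32 k239 10 (.s k37 k47 2
  (.d k165 k176 k229 6 7)))))] .n) (.c k128 (.q k143 [(.s k255 k85 14 (.s k165 k176 6 (.d k175 k160
  k95 2 11))), (.s k63 k21 6 (.s k106 k234 7 (.s k165 k176 6 (.d k47 k31 k224 3 10)))), (.s k63 k21
  6 (.s k255 k85 14 (.s k191 k127 7 (.d k175 k95 k159 11 3))))] .n) (.c k143 (.q k128 [(.s k21 k63 6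
  (.s k85 k255 14 (.d k149 k191 k213 6 7))), (.s k63 k21 6 (.s k192 k64 7 (.d k106 k234 k149 7
  14))), (.s k64 k192 7 (.s k85 k255 14 (.d k106 k234 k127 7 6)))] .n) .n))))) (.c k143 (.l (.s k85
  k255 14 (.s k192 k133 10 (.s k128 k64 7 (.s k149 k191 6 (.s k21 k213 7 (.d k63 k42 k106 6
  14))))))) (.c k192 (.q k42 [(.s k63 k21 6 (.s k85 k255 14 (.s k47 k31 3 (.s k16 k223 10 (.d k32
  k37 k48 2 3))))), (.s k85 k255 14 (.s k16 k223 10 (.s k48 k32 3 (.s k207 k101 14 (.s k79 k143 7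
  (.s k64 k69 2 (.d k106 k234 k127 7 6))))))), (.s k63 k21 6 (.s k255 k85 14 (.s k191 k127 7 (.s
  k149 k128 6 (.s k159 k144 2 (.d k175 k143 k95 3 11))))))] (.c k16 (.l (.s k63 k21 6 (.s k31 k47 3
  (.s k255 k85 14 (.s k95 k175 11 (.s k159 k223 7 (.s k111 k207 11 (.d k127 k79 k191 3 7)))))))) (.c
  k48 (.l (.s k63 k21 6 (.s k255 k85 14 (.s k31 k47 3 (.s k95 k175 11 (.s k159 k223 7 (.s k111 k207
  11 (.d k127 k79 k191 3 7)))))))) (.c k85 (.l (.s k63 k21 6 (.s k31 k47 3 (.s k106 k234 7 (.s k58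
  k202 11 (.s k48 k53 2 (.s k32 k16 3 (.d k101 k207 k239 14 10)))))))) (.c k213 (.l (.s k63 k21 6
  (.s k85 k255 14 (.s k234 k106 7 (.s k47 k31 3 (.s k16 k223 10 (.d k32 k37 k48 2 3))))))) (.c k255
  (.q k16 [(.s k63 k21 6 (.s k47 k31 3 (.d k32 k37 k48 2 3))), (.s k32 k48 3 (.s k47 k37 2 (.s k239
  k101 10 (.s k175 k111 7 (.s k165 k160 2 (.d k106 k234 k224 7 10))))))] (.c k32 (.f k63 k21 6 (.q
  k111 [(.s k31 k47 3 (.s k223 k85 10 (.d k159 k95 k207 7 11))), (.s k207 k159 11 (.s k101 k48 14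
  (.d k106 k96 k234 2 7))), (.s k47 k31 3 (.s k223 k85 10 (.s k175 k239 7 (.s k165 k160 2 (.d k106
  k234 k224 7 10)))))] (.c k213 (.l (.s k234 k106 7 (.s k31 k47 3 (.s k159 k207 11 (.d k223 k95 k85
  7 10))))) (.c k234 (.q k213 [(.s k31 k47 3 (.s k223 k85 10 (.d k159 k95 k207 7 11))), (.s k207
  k159 11 (.s k143 k79 7 (.s k165 k176 6 (.s k175 k160 2 (.d k47 k31 k239 3 7))))), (.s k47 k31 3
  (.s k223 k85 10 (.s k175 k239 7 (.s k160 k165 2 (.s k80 k240 11 (.d k208 k218 k144 2 7))))))] (.c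
  k31 (.l (.s k223 k85 10 (.s k159 k207 11 (.s k144 k149 2 (.d k208 k80 k218 7 2))))) (.c k47 (.l
  (.s k223 k85 10 (.s k159 k207 11 (.s k144 k149 2 (.d k208 k80 k218 7 2))))) .n))) .n)))) (.c k37
  (.l (.s k48 k32 3 (.s k63 k21 6 (.s k31 k47 3 (.s k223 k85 10 (.s k207 k101 14 (.d k159 k95 k111 7
  11))))))) (.c k47 (.l (.s k48 k32 3 (.s k63 k21 6 (.s k58 k53 2 (.d k106 k234 k202 7 11))))) (.c
  k48 (.l (.s k63 k21 6 (.s k47 k31 3 (.s k32 k37 2 (.s k239 k101 10 (.s k175 k111 7 (.s k165 k160 2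
  (.d k106 k234 k224 7 10)))))))) (.c k213 (.l (.s k234 k106 7 (.s k32 k48 3 (.s k63 k21 6 (.d k47
  k37 k31 2 3))))) (.c k234 (.q k213 [(.s k85 k223 10 (.d k21 k63 k149 6 7)), (.s k32 k48 3 (.s k63
  k21 6 (.d k47 k37 k31 2 3)))] (.c k21 (.q k208 [(.d k223 k218 k85 2 10), (.s k48 k32 3 (.s k80
  k144 7 (.s k160 k240 11 (.s k207 k101 14 (.s k165 k175 2 (.d k143 k79 k176 7 6))))))] .n) (.c k63
  (.l (.s k48 k32 3 (.s k85 k223 10 (.s k149 k21 7 (.s k207 k101 14 (.s k191 k128 6 (.s k159 k144 2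
  (.d k143 k79 k175 7 3)))))))) .n))) .n))))))) .n)))))) .n)))))))) (.c k186 (.q k42 [(.s k85 k255
  14 (.s k106 k234 7 (.s k64 k127 6 (.s k192 k128 7 (.d k63 k21 k149 6 14))))), (.s k63 k21 6 (.s
  k106 k234 7 (.s k58 k202 11 (.s k48 k53 2 (.s k101 k207 14 (.d k32 k16 k239 3 10)))))), (.s k63
  k21 6 (.s k85 k255 14 (.s k47 k31 3 (.s k16 k223 10 (.d k32 k48 k37 3 2)))))] (.c k21 (.q k63 [(.s
  k255 k85 14 (.s k106 k234 7 (.s k149 k192 14 (.d k191 k128 k127 6 7)))), (.s k106 k234 7 (.s k58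
  k202 11 (.s k48 k53 2 (.s k101 k207 14 (.d k32 k16 k239 3 10))))), (.s k85 k255 14 (.s k47 k31 3
  (.s k16 k223 10 (.d k32 k48 k37 3 2))))] (.c k16 (.l (.s k31 k47 3 (.s k85 k255 14 (.s k106 k234 7
  (.s k192 k149 14 (.d k64 k127 k128 6 7)))))) (.c k31 (.q k16 [(.d k85 k223 k255 10 14), (.s k48
  k32 3 (.s k106 k234 7 (.d k58 k53 k202 2 11)))] (.c k149 (.q k208 [(.d k85 k223 k255 10 14), (.s
  k48 k32 3 (.s k106 k234 7 (.d k58 k53 k202 2 11)))] (.c k85 (.q k213 [(.s k48 k32 3 (.s k106 k234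
  7 (.d k58 k53 k202 2 11))), (.s k80 k144 7 (.s k240 k160 11 (.s k234 k106 7 (.d k192 k224 k255 3
  6)))), (.s k48 k32 3 (.s k80 k144 7 (.s k240 k160 11 (.s k207 k101 14 (.d k218 k223 k229 2 6)))))]
  (.c k80 (.q k95 [(.s k255 k175 11 (.d k234 k192 k106 6 7)), (.s k32 k48 3 (.s k255 k175 11 (.s
  k239 k101 10 (.d k223 k218 k207 2 3)))), (.s k48 k32 3 (.s k106 k234 7 (.d k58 k53 k202 2 11)))]
  .n) (.c k95 (.l (.s k80 k144 7 (.s k48 k32 3 (.s k106 k234 7 (.d k58 k53 k202 2 11))))) .n))) (.c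
  k213 (.l (.d k85 k223 k255 10 14)) .n))) (.c k208 (.q k149 [(.d k85 k223 k255 10 14), (.d k106
  k234 k192 7 14)] .n) .n))) .n))) (.c k48 (.l (.s k63 k21 6 (.s k255 k85 14 (.s k106 k234 7 (.s
  k149 k192 14 (.d k191 k128 k127 6 7)))))) (.c k63 (.q k74 [(.s k192 k133 10 (.s k234 k106 7 (.d
  k255 k213 k85 6 14))), (.s k85 k255 14 (.s k16 k223 10 (.s k48 k32 3 (.s k207 k101 14 (.s k69 k138
  10 (.d k79 k64 k143 2 7)))))), (.s k192 k133 10 (.s k64 k128 7 (.s k106 k234 7 (.s k202 k58 11 (.s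
  k69 k79 2 (.d k207 k138 k197 10 2))))))] .n) .n)))) (.c k207 (.q k42 [(.s k85 k255 14 (.s k106
  k234 7 (.s k64 k127 6 (.s k192 k128 7 (.d k63 k21 k149 6 14))))), (.s k255 k85 14 (.s k186 k138 3
  (.s k48 k117 10 (.s k32 k16 3 (.s k47 k37 2 (.d k63 k31 k21 3 6))))))] (.c k21 (.q k16 [(.d k85
  k223 k255 10 14), (.s k32 k48 3 (.s k47 k37 2 (.s k239 k101 10 (.s k106 k234 7 (.s k165 k224 10
  (.d k175 k160 k111 2 7))))))] .n) (.c k63 (.q k16 [(.d k85 k223 k255 10 14), (.s k32 k48 3 (.s k47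
  k37 2 (.s k239 k101 10 (.s k106 k234 7 (.s k165 k224 10 (.d k175 k111 k160 7 2))))))] (.c k111 (.q
  k159 [(.d k85 k223 k255 10 14), (.s k186 k138 3 (.s k149 k144 2 (.s k191 k128 6 (.s k143 k175 3
  (.d k176 k181 k165 2 6)))))] .n) (.c k159 (.q k111 [(.d k85 k223 k255 10 14), (.s k32 k48 3 (.s
  k47 k37 2 (.d k239 k175 k101 7 10)))] .n) .n))) (.c k85 (.l (.s k63 k21 6 (.s k106 k234 7 (.s k149
  k192 14 (.s k191 k128 6 (.s k255 k127 7 (.s k159 k144 2 (.d k175 k143 k95 3 11)))))))) (.c k255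
  (.l (.s k63 k21 6 (.s k106 k234 7 (.s k192 k149 14 (.s k128 k64 7 (.s k133 k74 10 (.d k138 k143
  k186 2 3))))))) .n))))) .n))))))))

def t10_27 : T TT 256 :=
  (.q k207 [(.s k138 k69 10 (.s k85 k255 14 (.s k154 k186 3 (.s k16 k223 10 (.d k48 k32 k101 3
  14))))), (.s k255 k85 14 (.s k79 k143 7 (.s k95 k175 11 (.s k111 k127 3 (.s k159 k63 11 (.d k223
  k239 k31 3 7)))))), (.s k138 k69 10 (.s k143 k79 7 (.s k128 k133 2 (.s k149 k191 6 (.s k154 k186 3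
  (.s k176 k165 6 (.d k144 k159 k160 2 3)))))))] (.c k153 (.q k216 [(.s k138 k69 10 (.s k85 k255 14
  (.s k154 k186 3 (.s k16 k223 10 (.d k48 k32 k101 3 14))))), (.s k255 k85 14 (.s k79 k143 7 (.s k95
  k175 11 (.s k111 k127 3 (.s k159 k63 11 (.d k223 k239 k31 3 7)))))), (.s k138 k69 10 (.s k143 k79
  7 (.s k128 k133 2 (.s k149 k191 6 (.s k154 k186 3 (.s k176 k165 6 (.d k144 k159 k160 2 3)))))))]
  .n) (.c k216 (.q k153 [(.s k138 k69 10 (.s k85 k255 14 (.s k154 k186 3 (.s k16 k223 10 (.d k48 k32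
  k101 3 14))))), (.s k85 k255 14 (.s k17 k221 9 (.s k51 k34 4 (.s k204 k102 14 (.d k136 k187 k68 4
  9)))))] (.c k85 (.l (.s k138 k69 10 (.s k136 k187 4 (.s k204 k68 9 (.s k102 k51 14 (.s k154 k186 3
  (.d k206 k205 k50 0 13))))))) (.c k255 (.l (.s k138 k69 10 (.s k136 k187 4 (.s k204 k68 9 (.s k51
  k102 14 (.s k155 k103 13 (.d k154 k152 k186 0 3))))))) .n))) .n)))

def t10_28 : T TT 256 :=
  (.q k207 [(.s k69 k138 10 (.s k85 k255 14 (.s k101 k117 3 (.s k32 k239 10 (.d k48 k16 k154 3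
  14))))), (.s k255 k85 14 (.s k79 k143 7 (.s k95 k175 11 (.s k111 k127 3 (.s k159 k63 11 (.d k223
  k239 k31 3 7)))))), (.s k138 k69 10 (.s k143 k79 7 (.s k128 k133 2 (.s k149 k191 6 (.s k154 k186 3
  (.s k176 k165 6 (.d k144 k159 k160 2 3)))))))] .n)

def t10_29 : T TT 256 :=
  (.q k207 [(.s k138 k69 10 (.s k85 k255 14 (.s k154 k186 3 (.s k16 k223 10 (.d k48 k32 k101 3
  14))))), (.s k255 k85 14 (.s k79 k143 7 (.s k95 k175 11 (.s k111 k127 3 (.s k159 k63 11 (.d k223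
  k239 k31 3 7)))))), (.s k138 k69 10 (.s k143 k79 7 (.s k128 k133 2 (.s k149 k191 6 (.s k154 k186 3
  (.s k176 k165 6 (.d k144 k159 k160 2 3)))))))] .n)

def t10_30 : T TT 256 :=
  (.q k207 [(.s k138 k69 10 (.s k85 k255 14 (.s k154 k186 3 (.s k16 k223 10 (.d k48 k32 k101 3
  14))))), (.s k255 k85 14 (.s k79 k143 7 (.s k95 k175 11 (.s k111 k127 3 (.s k159 k63 11 (.d k223
  k239 k31 3 7)))))), (.s k138 k69 10 (.s k143 k79 7 (.s k128 k133 2 (.s k149 k191 6 (.s k154 k186 3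
  (.s k176 k165 6 (.d k144 k159 k160 2 3)))))))] (.c k150 (.q k210 [(.s k138 k69 10 (.s k85 k255 14
  (.s k154 k186 3 (.s k16 k223 10 (.d k48 k32 k101 3 14))))), (.s k255 k85 14 (.s k79 k143 7 (.s k95
  k175 11 (.s k111 k127 3 (.s k159 k63 11 (.d k223 k239 k31 3 7)))))), (.s k138 k69 10 (.s k143 k79
  7 (.s k128 k133 2 (.s k149 k191 6 (.s k154 k186 3 (.s k176 k165 6 (.d k144 k159 k160 2 3)))))))]
  .n) (.c k210 (.q k150 [(.s k138 k69 10 (.s k85 k255 14 (.s k154 k186 3 (.s k16 k223 10 (.d k48 k32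
  k101 3 14))))), (.s k85 k255 14 (.s k20 k215 8 (.s k60 k40 5 (.s k195 k105 14 (.d k130 k190 k65 5
  8)))))] (.c k85 (.l (.s k138 k69 10 (.s k130 k190 5 (.s k195 k65 8 (.s k105 k60 14 (.s k154 k186 3
  (.d k203 k199 k56 1 12))))))) (.c k255 (.l (.s k138 k69 10 (.s k130 k190 5 (.s k195 k65 8 (.s k60
  k105 14 (.s k158 k109 12 (.d k154 k146 k186 1 3))))))) .n))) .n)))

def t10_31 : T TT 256 :=
  (.q k192 [(.s k64 k128 7 (.s k85 k255 14 (.s k106 k127 6 (.s k42 k234 7 (.d k63 k149 k21 14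
  6))))), (.s k128 k64 7 (.s k133 k74 10 (.s k149 k191 6 (.s k165 k181 3 (.s k160 k175 2 (.s k176
  k144 3 (.d k143 k138 k154 2 6))))))), (.s k255 k85 14 (.s k133 k74 10 (.s k234 k213 6 (.s k106 k42
  7 (.s k149 k63 14 (.s k165 k181 3 (.d k175 k95 k160 11 2)))))))] (.c k106 (.f k85 k255 14 (.l (.s
  k64 k128 7 (.s k74 k133 10 (.s k69 k79 2 (.s k101 k117 3 (.s k32 k239 10 (.s k48 k16 3 (.d k207
  k138 k154 10 14))))))))) (.c k149 (.q k208 [(.s k240 k224 3 (.s k160 k80 11 (.s k175 k165 2 (.d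
  k255 k95 k85 11 14)))), (.s k64 k128 7 (.s k240 k224 3 (.s k80 k160 11 (.s k144 k16 7 (.d k96 k112
  k48 3 11))))), (.s k64 k128 7 (.s k255 k85 14 (.s k74 k133 10 (.s k69 k79 2 (.s k213 k234 6 (.s
  k223 k218 2 (.d k207 k138 k239 10 3)))))))] (.c k80 (.l (.s k255 k85 14 (.s k95 k175 11 (.s k240
  k224 3 (.s k213 k234 6 (.s k218 k223 2 (.s k229 k207 6 (.d k245 k250 k197 2 3)))))))) .n)) (.c
  k208 (.q k149 [(.d k128 k191 k64 6 7), (.s k85 k255 14 (.s k21 k213 7 (.d k63 k42 k106 6 14)))]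
  .n) .n))))

def t10_32 : T TT 256 :=
  (.q k63 [(.s k42 k21 6 (.s k85 k255 14 (.s k106 k234 7 (.s k192 k149 14 (.d k64 k127 k128 6
  7))))), (.s k255 k85 14 (.s k95 k175 11 (.s k127 k191 7 (.s k111 k79 3 (.s k159 k207 11 (.d k31
  k47 k223 3 7)))))), (.s k21 k42 6 (.s k85 k255 14 (.s k149 k213 7 (.s k192 k106 14 (.d k128 k191
  k64 6 7)))))] (.c k85 (.q k95 [(.s k42 k21 6 (.s k255 k175 11 (.s k106 k234 7 (.s k149 k192 14 (.d
  k191 k128 k127 6 7))))), (.s k31 k47 3 (.s k175 k255 11 (.s k159 k223 7 (.s k207 k111 11 (.d k143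
  k191 k79 3 7))))), (.s k47 k31 3 (.s k175 k255 11 (.s k111 k239 7 (.s k207 k159 11 (.d k79 k127
  k143 3 7)))))] (.c k175 (.q k166 [(.s k42 k21 6 (.s k106 k234 7 (.s k149 k192 14 (.s k183 k132 4
  (.s k243 k123 9 (.d k162 k174 k81 1 12)))))), (.s k31 k47 3 (.s k162 k174 1 (.s k243 k81 12 (.s
  k91 k167 13 (.s k151 k211 9 (.s k107 k195 13 (.d k123 k75 k183 3 9))))))), (.s k42 k21 6 (.s k106
  k234 7 (.s k46 k226 9 (.s k12 k29 4 (.s k8 k4 1 (.d k89 k251 k243 12 14))))))] (.c k42 (.l (.s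
  k162 k174 1 (.s k243 k81 12 (.s k183 k123 9 (.s k149 k132 4 (.s k192 k106 14 (.d k128 k64 k191 7
  6))))))) (.c k243 (.l (.s k42 k21 6 (.s k106 k234 7 (.s k46 k226 9 (.s k34 k38 1 (.s k238 k102 9
  (.d k174 k162 k110 1 7))))))) .n))) (.c k255 (.l (.s k31 k47 3 (.s k159 k223 7 (.s k207 k111 11
  (.s k138 k69 10 (.s k143 k79 7 (.s k128 k133 2 (.d k191 k175 k149 3 6)))))))) .n))) (.c k255 (.q
  k166 [(.s k42 k21 6 (.s k106 k234 7 (.s k162 k174 1 (.s k243 k81 12 (.s k123 k183 9 (.d k89 k12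
  k72 14 4)))))), (.s k42 k21 6 (.s k106 k234 7 (.s k46 k226 9 (.s k34 k38 1 (.s k238 k102 9 (.d
  k174 k162 k110 1 7)))))), (.s k31 k47 3 (.s k162 k174 1 (.s k243 k81 12 (.s k91 k167 13 (.s k151
  k211 9 (.s k107 k195 13 (.d k123 k75 k183 3 9))))))), (.s k42 k21 6 (.s k106 k234 7 (.s k46 k226 9
  (.s k12 k29 4 (.s k8 k4 1 (.d k89 k251 k243 12 14))))))] (.c k42 (.l (.s k162 k174 1 (.s k243 k81
  12 (.s k183 k123 9 (.s k149 k132 4 (.s k192 k106 14 (.d k128 k191 k64 6 7))))))) .n)) .n)))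

def t10_33 : T TT 256 :=
  (.q k63 [(.s k42 k21 6 (.s k85 k255 14 (.s k106 k234 7 (.s k192 k149 14 (.d k64 k127 k128 6
  7))))), (.s k255 k85 14 (.s k31 k47 3 (.s k95 k175 11 (.s k159 k223 7 (.s k111 k207 11 (.d k127
  k79 k191 3 7)))))), (.s k42 k21 6 (.s k47 k31 3 (.s k32 k37 2 (.s k101 k239 10 (.s k106 k234 7 (.s
  k224 k165 10 (.d k96 k111 k160 2 7)))))))] (.c k31 (.l (.s k21 k42 6 (.s k85 k255 14 (.s k149 k213
  7 (.s k192 k106 14 (.d k128 k191 k64 6 7)))))) .n))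

def t10_34 : T TT 256 :=
  (.q k63 [(.s k42 k21 6 (.s k85 k255 14 (.s k106 k234 7 (.s k192 k149 14 (.d k64 k127 k128 6
  7))))), (.s k255 k85 14 (.s k31 k47 3 (.s k95 k175 11 (.s k159 k223 7 (.s k111 k207 11 (.d k127
  k79 k191 3 7)))))), (.s k42 k21 6 (.s k47 k31 3 (.s k32 k37 2 (.s k101 k239 10 (.s k106 k234 7 (.s
  k224 k165 10 (.d k96 k111 k160 2 7)))))))] (.c k31 (.l (.s k21 k42 6 (.s k85 k255 14 (.s k149 k213
  7 (.s k192 k106 14 (.d k128 k191 k64 6 7)))))) .n))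

def t10_35 : T TT 256 :=
  (.q k63 [(.s k42 k21 6 (.s k85 k255 14 (.s k106 k234 7 (.s k192 k149 14 (.d k64 k127 k128 6
  7))))), (.s k255 k85 14 (.s k31 k47 3 (.s k95 k175 11 (.s k159 k223 7 (.s k111 k207 11 (.d k127
  k79 k191 3 7)))))), (.s k42 k21 6 (.s k47 k31 3 (.s k32 k37 2 (.s k101 k239 10 (.s k106 k234 7 (.s
  k224 k165 10 (.d k96 k111 k160 2 7)))))))] (.c k31 (.l (.s k21 k42 6 (.s k85 k255 14 (.s k149 k213
  7 (.s k192 k106 14 (.d k128 k191 k64 6 7)))))) .n))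

def t10_36 : T TT 256 :=
  (.q k63 [(.s k42 k21 6 (.s k85 k255 14 (.s k106 k234 7 (.s k192 k149 14 (.d k64 k127 k128 6
  7))))), (.s k255 k85 14 (.s k31 k47 3 (.s k95 k175 11 (.s k159 k223 7 (.s k111 k207 11 (.d k127
  k79 k191 3 7)))))), (.s k42 k21 6 (.s k47 k31 3 (.s k32 k37 2 (.s k101 k239 10 (.s k106 k234 7 (.s
  k224 k165 10 (.d k96 k111 k160 2 7)))))))] (.c k31 (.l (.s k21 k42 6 (.s k85 k255 14 (.s k149 k213
  7 (.s k192 k106 14 (.d k128 k191 k64 6 7)))))) .n))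

def t10_37 : T TT 256 :=
  (.q k63 [(.s k42 k21 6 (.s k85 k255 14 (.s k106 k234 7 (.s k192 k149 14 (.d k64 k127 k128 6
  7))))), (.s k255 k85 14 (.s k95 k175 11 (.s k127 k191 7 (.s k111 k79 3 (.s k159 k207 11 (.d k31
  k47 k223 3 7)))))), (.s k21 k42 6 (.s k85 k255 14 (.s k149 k213 7 (.s k192 k106 14 (.d k128 k191
  k64 6 7)))))] (.c k85 (.q k95 [(.s k42 k21 6 (.s k255 k175 11 (.s k106 k234 7 (.s k149 k192 14 (.d
  k191 k128 k127 6 7))))), (.s k31 k47 3 (.s k175 k255 11 (.s k159 k223 7 (.s k207 k111 11 (.d k143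
  k191 k79 3 7))))), (.s k47 k31 3 (.s k175 k255 11 (.s k111 k239 7 (.s k207 k159 11 (.d k79 k127
  k143 3 7)))))] (.c k175 (.q k154 [(.s k31 k47 3 (.s k159 k223 7 (.s k138 k186 3 (.d k207 k111 k69
  11 10)))), (.s k42 k21 6 (.s k106 k234 7 (.s k149 k192 14 (.s k159 k144 2 (.d k31 k47 k223 3
  7))))), (.s k138 k186 3 (.s k207 k69 10 (.s k79 k143 7 (.d k111 k159 k127 11 3))))] (.c k159 (.l
  (.s k42 k21 6 (.s k106 k234 7 (.s k58 k202 11 (.s k138 k186 3 (.s k207 k69 10 (.d k48 k53 k101 2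
  14))))))) .n)) (.c k255 (.l (.s k31 k47 3 (.s k159 k223 7 (.s k207 k111 11 (.s k138 k69 10 (.s
  k143 k79 7 (.s k128 k133 2 (.d k191 k175 k149 3 6)))))))) .n))) (.c k255 (.q k154 [(.s k42 k21 6
  (.s k138 k186 3 (.s k207 k69 10 (.s k159 k111 11 (.s k149 k144 2 (.d k106 k234 k192 7 14)))))),
  (.s k47 k31 3 (.s k138 k186 3 (.s k207 k69 10 (.s k111 k159 11 (.s k239 k175 7 (.d k101 k48 k32 14
  10)))))), (.s k42 k21 6 (.s k106 k234 7 (.s k192 k149 14 (.s k128 k64 7 (.s k133 k74 10 (.d k138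
  k143 k186 2 3)))))), (.s k42 k21 6 (.s k106 k234 7 (.s k202 k58 11 (.s k192 k149 14 (.s k207 k197
  2 (.s k111 k159 11 (.d k101 k96 k48 2 14)))))))] (.c k149 (.l (.s k42 k21 6 (.s k106 k234 7 (.s
  k58 k202 11 (.s k138 k186 3 (.s k207 k69 10 (.d k48 k53 k101 2 14))))))) .n)) .n)))

def t10_38 : T TT 256 :=
  (.q k63 [(.s k42 k21 6 (.s k85 k255 14 (.s k106 k234 7 (.s k192 k149 14 (.d k64 k127 k128 6
  7))))), (.s k255 k85 14 (.s k31 k47 3 (.s k95 k175 11 (.s k159 k223 7 (.s k111 k207 11 (.d k127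
  k79 k191 3 7)))))), (.s k42 k21 6 (.s k47 k31 3 (.s k32 k37 2 (.s k101 k239 10 (.s k106 k234 7 (.s
  k224 k165 10 (.d k96 k111 k160 2 7)))))))] (.c k31 (.l (.s k21 k42 6 (.s k85 k255 14 (.s k149 k213
  7 (.s k192 k106 14 (.d k128 k191 k64 6 7)))))) .n))

def t10_39 : T TT 256 :=
  (.q k63 [(.s k42 k21 6 (.s k85 k255 14 (.s k106 k234 7 (.s k192 k149 14 (.d k64 k127 k128 6
  7))))), (.s k255 k85 14 (.s k31 k47 3 (.s k95 k175 11 (.s k159 k223 7 (.s k111 k207 11 (.d k127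
  k79 k191 3 7)))))), (.s k42 k21 6 (.s k47 k31 3 (.s k32 k37 2 (.s k101 k239 10 (.s k106 k234 7 (.s
  k224 k165 10 (.d k96 k111 k160 2 7)))))))] (.c k31 (.l (.s k21 k42 6 (.s k85 k255 14 (.s k149 k213
  7 (.s k192 k106 14 (.d k128 k191 k64 6 7)))))) .n))

def t10_40 : T TT 256 :=
  (.q k63 [(.s k42 k21 6 (.s k85 k255 14 (.s k106 k234 7 (.s k192 k149 14 (.d k64 k127 k128 6
  7))))), (.s k255 k85 14 (.s k31 k47 3 (.s k95 k175 11 (.s k159 k223 7 (.s k111 k207 11 (.d k127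
  k79 k191 3 7)))))), (.s k42 k21 6 (.s k47 k31 3 (.s k32 k37 2 (.s k101 k239 10 (.s k106 k234 7 (.s
  k224 k165 10 (.d k96 k111 k160 2 7)))))))] (.c k31 (.l (.s k21 k42 6 (.s k85 k255 14 (.s k149 k213
  7 (.s k192 k106 14 (.d k128 k191 k64 6 7)))))) .n))

def t10_41 : T TT 256 :=
  (.q k63 [(.s k42 k21 6 (.s k85 k255 14 (.s k106 k234 7 (.s k192 k149 14 (.d k64 k127 k128 6
  7))))), (.s k255 k85 14 (.s k31 k47 3 (.s k95 k175 11 (.s k159 k223 7 (.s k111 k207 11 (.d k127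
  k79 k191 3 7)))))), (.s k42 k21 6 (.s k47 k31 3 (.s k32 k37 2 (.s k101 k239 10 (.s k106 k234 7 (.s
  k224 k165 10 (.d k96 k111 k160 2 7)))))))] (.c k31 (.l (.s k21 k42 6 (.s k85 k255 14 (.s k149 k213
  7 (.s k192 k106 14 (.d k128 k191 k64 6 7)))))) .n))

def t10_42 : T TT 256 :=
  (.q k207 [(.s k138 k69 10 (.s k85 k255 14 (.s k154 k186 3 (.s k16 k223 10 (.d k48 k32 k101 3
  14))))), (.s k255 k85 14 (.s k79 k143 7 (.s k95 k175 11 (.s k111 k127 3 (.s k159 k63 11 (.d k223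
  k239 k31 3 7)))))), (.s k138 k69 10 (.s k143 k79 7 (.s k128 k133 2 (.s k149 k191 6 (.s k154 k186 3
  (.s k176 k165 6 (.d k144 k159 k160 2 3)))))))] (.c k26 (.q k58 [(.s k138 k69 10 (.s k85 k255 14
  (.s k154 k186 3 (.s k16 k223 10 (.d k48 k32 k101 3 14))))), (.s k255 k85 14 (.s k79 k143 7 (.s k95
  k175 11 (.s k111 k127 3 (.s k159 k63 11 (.d k223 k239 k31 3 7)))))), (.s k138 k69 10 (.s k143 k79
  7 (.s k128 k133 2 (.s k154 k186 3 (.s k202 k106 11 (.d k192 k197 k64 2 7))))))] (.c k154 (.q k218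
  [(.s k240 k229 6 (.s k160 k80 11 (.s k175 k165 2 (.d k255 k95 k85 11 14)))), (.s k240 k229 6 (.s
  k80 k160 11 (.s k255 k85 14 (.s k223 k239 3 (.s k213 k208 2 (.s k234 k192 6 (.d k250 k245 k202 2
  3))))))), (.s k138 k69 10 (.s k255 k85 14 (.s k143 k79 7 (.s k128 k133 2 (.s k191 k149 6 (.d k175
  k159 k95 3 11))))))] (.c k80 (.l (.s k255 k85 14 (.s k95 k175 11 (.s k79 k143 7 (.s k111 k127 3
  (.s k159 k63 11 (.d k223 k239 k31 3 7))))))) (.c k85 (.q k16 [(.s k48 k32 3 (.s k240 k229 6 (.s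
  k80 k160 11 (.s k144 k208 7 (.s k96 k192 11 (.d k112 k64 k176 3 7)))))), (.s k48 k32 3 (.s k138
  k69 10 (.s k143 k79 7 (.s k63 k53 2 (.s k159 k111 11 (.s k128 k133 2 (.d k191 k175 k149 3
  6))))))), (.s k69 k138 10 (.s k79 k143 7 (.s k74 k64 2 (.s k240 k229 6 (.s k80 k160 11 (.s k208
  k144 7 (.d k192 k133 k224 10 3))))))), (.s k32 k48 3 (.s k239 k101 10 (.s k240 k229 6 (.s k80 k160
  11 (.s k223 k255 3 (.d k208 k213 k144 2 7))))))] (.c k80 (.q k95 [(.s k32 k48 3 (.s k255 k175 11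
  (.d k239 k223 k101 3 10))), (.s k48 k32 3 (.s k79 k143 7 (.s k63 k53 2 (.d k111 k127 k159 3
  11)))), (.s k138 k69 10 (.s k143 k79 7 (.s k175 k255 11 (.s k128 k133 2 (.d k191 k159 k149 3
  6)))))] .n) (.c k95 (.q k80 [(.d k240 k229 k160 6 11), (.s k32 k48 3 (.s k208 k144 7 (.s k239 k101
  10 (.d k223 k213 k255 2 3))))] .n) .n))) (.c k255 (.l (.s k138 k69 10 (.s k143 k79 7 (.s k128 k133
  2 (.s k191 k149 6 (.s k240 k229 6 (.s k160 k80 11 (.d k175 k165 k159 2 3)))))))) .n)))) (.c k218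
  (.q k154 [(.d k138 k186 k69 3 10), (.s k85 k255 14 (.s k16 k223 10 (.d k48 k32 k101 3 14)))] .n)
  .n))) (.c k58 (.q k26 [(.s k48 k37 6 (.s k32 k16 3 (.d k101 k239 k154 10 14))), (.s k138 k69 10
  (.s k255 k85 14 (.s k143 k79 7 (.s k128 k133 2 (.s k191 k149 6 (.d k175 k95 k159 11 3))))))] (.c
  k101 (.l (.s k138 k69 10 (.s k48 k37 6 (.s k186 k154 3 (.d k255 k117 k85 10 14))))) .n)) .n)))

def t10_43 : T TT 256 :=
  (.q k63 [(.s k42 k21 6 (.s k85 k255 14 (.s k106 k234 7 (.s k192 k149 14 (.d k64 k127 k128 6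
  7))))), (.s k255 k85 14 (.s k31 k47 3 (.s k95 k175 11 (.s k159 k223 7 (.s k111 k207 11 (.d k127
  k79 k191 3 7)))))), (.s k42 k21 6 (.s k47 k31 3 (.s k32 k37 2 (.s k101 k239 10 (.s k106 k234 7 (.s
  k224 k165 10 (.d k96 k111 k160 2 7)))))))] (.c k31 (.l (.s k21 k42 6 (.s k85 k255 14 (.s k149 k213
  7 (.s k192 k106 14 (.d k128 k191 k64 6 7)))))) .n))

def t10_44 : T TT 256 :=
  (.q k63 [(.s k42 k21 6 (.s k85 k255 14 (.s k106 k234 7 (.s k192 k149 14 (.d k64 k127 k128 6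
  7))))), (.s k255 k85 14 (.s k31 k47 3 (.s k95 k175 11 (.s k159 k223 7 (.s k111 k207 11 (.d k127
  k79 k191 3 7)))))), (.s k42 k21 6 (.s k47 k31 3 (.s k32 k37 2 (.s k101 k239 10 (.s k106 k234 7 (.s
  k224 k165 10 (.d k96 k111 k160 2 7)))))))] (.c k31 (.l (.s k21 k42 6 (.s k85 k255 14 (.s k149 k213
  7 (.s k192 k106 14 (.d k128 k191 k64 6 7)))))) .n))

def t10_45 : T TT 256 :=
  (.q k63 [(.s k42 k21 6 (.s k85 k255 14 (.s k106 k234 7 (.s k192 k149 14 (.d k64 k127 k128 6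
  7))))), (.s k255 k85 14 (.s k31 k47 3 (.s k95 k175 11 (.s k159 k223 7 (.s k111 k207 11 (.d k127
  k79 k191 3 7)))))), (.s k42 k21 6 (.s k47 k31 3 (.s k32 k37 2 (.s k101 k239 10 (.s k106 k234 7 (.s
  k224 k165 10 (.d k96 k111 k160 2 7)))))))] (.c k31 (.l (.s k21 k42 6 (.s k85 k255 14 (.s k149 k213
  7 (.s k192 k106 14 (.d k128 k191 k64 6 7)))))) .n))

def t10_46 : T TT 256 :=
  (.q k63 [(.s k42 k21 6 (.s k85 k255 14 (.s k106 k234 7 (.s k192 k149 14 (.d k64 k127 k128 6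
  7))))), (.s k255 k85 14 (.s k31 k47 3 (.s k95 k175 11 (.s k159 k223 7 (.s k111 k207 11 (.d k127
  k79 k191 3 7)))))), (.s k42 k21 6 (.s k47 k31 3 (.s k32 k37 2 (.s k101 k239 10 (.s k106 k234 7 (.s
  k224 k165 10 (.d k96 k111 k160 2 7)))))))] (.c k31 (.l (.s k21 k42 6 (.s k85 k255 14 (.s k149 k213
  7 (.s k192 k106 14 (.d k128 k191 k64 6 7)))))) .n))

def t10_47 : T TT 256 :=
  (.q k2 [(.s k3 k1 0 (.s k85 k255 14 (.s k86 k254 13 (.s k84 k87 0 (.d k252 k168 k169 13 14))))),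
  (.s k3 k1 0 (.s k255 k85 14 (.s k7 k11 1 (.s k87 k171 13 (.s k167 k247 11 (.s k91 k243 13 (.d k95
  k83 k175 1 11)))))))] (.c k1 (.q k166 [(.s k85 k255 14 (.s k4 k247 12 (.s k12 k8 1 (.s k162 k174 1
  (.d k243 k81 k89 12 14))))), (.s k255 k85 14 (.s k254 k86 13 (.s k174 k162 1 (.s k94 k14 11 (.d
  k252 k253 k173 0 12))))), (.s k86 k254 13 (.s k246 k6 11 (.s k162 k174 1 (.s k243 k81 12 (.s k252
  k249 2 (.s k168 k84 13 (.d k169 k171 k3 0 14))))))), (.s k85 k255 14 (.s k86 k254 13 (.s k4 k247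
  12 (.s k12 k8 1 (.s k6 k246 11 (.s k7 k5 0 (.d k3 k11 k9 1 2)))))))] .n) (.c k3 (.l (.s k255 k85
  14 (.s k254 k86 13 (.s k95 k175 11 (.s k252 k253 0 (.s k94 k173 12 (.s k174 k14 11 (.d k93 k92 k12
  0 12)))))))) (.c k85 (.q k166 [(.s k3 k1 0 (.s k162 k174 1 (.s k81 k243 12 (.s k82 k242 11 (.s
  k240 k161 12 (.d k80 k83 k160 0 11)))))), (.s k3 k1 0 (.s k86 k254 13 (.s k7 k11 1 (.s k6 k246 11
  (.s k4 k5 0 (.d k12 k8 k9 1 2)))))), (.s k86 k254 13 (.s k246 k6 11 (.s k162 k174 1 (.s k243 k81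
  12 (.s k252 k249 2 (.s k168 k84 13 (.d k169 k171 k3 0 14)))))))] (.c k3 (.l (.s k254 k86 13 (.s
  k174 k162 1 (.s k94 k14 11 (.s k252 k173 12 (.s k255 k253 0 (.s k93 k12 12 (.d k95 k92 k175 0
  11)))))))) (.c k80 (.q k95 [(.s k86 k254 13 (.s k175 k255 11 (.s k165 k160 2 (.s k7 k244 12 (.d k3
  k1 k11 0 1))))), (.s k3 k1 0 (.s k162 k174 1 (.s k243 k81 12 (.s k83 k163 11 (.d k91 k87 k167 1
  13))))), (.s k254 k86 13 (.s k175 k255 11 (.s k174 k162 1 (.s k94 k14 11 (.d k173 k172 k252 0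
  12)))))] .n) (.c k95 (.q k80 [(.s k162 k174 1 (.s k81 k243 12 (.d k82 k83 k242 0 11))), (.s k3 k1
  0 (.s k160 k240 11 (.s k86 k254 13 (.s k7 k11 1 (.d k165 k175 k244 2 12)))))] .n) (.c k169 (.l (.s
  k86 k254 13 (.s k162 k174 1 (.s k243 k81 12 (.s k89 k12 14 (.s k83 k92 2 (.d k3 k1 k163 0
  11))))))) .n))))) (.c k87 (.l (.s k3 k1 0 (.s k255 k85 14 (.s k86 k254 13 (.s k7 k11 1 (.s k165
  k244 12 (.d k175 k95 k160 11 2))))))) (.c k169 (.f k85 k255 14 (.q k8 [(.s k12 k4 1 (.s k89 k251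
  12 (.s k81 k93 1 (.d k243 k162 k166 12 14)))), (.s k1 k3 0 (.s k12 k4 1 (.s k13 k14 0 (.s k5 k9 1
  (.s k165 k245 11 (.d k89 k251 k241 12 13)))))), (.s k3 k1 0 (.s k86 k254 13 (.s k89 k251 12 (.s
  k81 k93 1 (.s k243 k162 12 (.d k83 k92 k163 2 11))))))] (.c k11 (.q k248 [(.s k86 k254 13 (.s k168
  k88 11 (.d k84 k252 k87 13 0))), (.s k12 k4 1 (.s k89 k251 12 (.s k243 k166 14 (.d k81 k93 k162 1
  12)))), (.s k86 k254 13 (.s k84 k87 0 (.d k168 k252 k88 13 11)))] .n) (.c k12 (.l (.s k3 k1 0 (.s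
  k86 k254 13 (.s k89 k251 12 (.s k83 k92 2 (.s k243 k163 11 (.d k81 k93 k162 1 12))))))) (.c k89
  (.l (.s k3 k1 0 (.s k4 k12 1 (.s k86 k254 13 (.s k166 k247 12 (.s k6 k246 11 (.d k7 k5 k11 0
  1))))))) (.c k248 (.q k11 [(.d k3 k1 k7 0 1), (.s k12 k4 1 (.s k89 k251 12 (.s k243 k166 14 (.d
  k81 k93 k162 1 12))))] .n) (.c k251 (.l (.s k3 k1 0 (.s k4 k12 1 (.s k86 k254 13 (.s k247 k166 12
  (.s k87 k84 0 (.d k7 k11 k167 1 11))))))) .n))))))) (.c k253 (.l (.s k3 k1 0 (.s k85 k255 14 (.s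
  k86 k254 13 (.s k252 k169 14 (.d k84 k87 k168 0 13)))))) (.c k255 (.q k166 [(.s k3 k1 0 (.s k162
  k174 1 (.s k81 k243 12 (.s k82 k242 11 (.s k240 k161 12 (.d k80 k83 k160 0 11)))))), (.s k3 k1 0
  (.s k86 k254 13 (.s k7 k11 1 (.s k6 k246 11 (.s k4 k5 0 (.d k12 k8 k9 1 2)))))), (.s k86 k254 13
  (.s k246 k6 11 (.s k162 k174 1 (.s k243 k81 12 (.s k252 k249 2 (.s k168 k84 13 (.d k169 k171 k3 0
  14)))))))] (.c k3 (.l (.s k162 k174 1 (.s k243 k81 12 (.s k242 k82 11 (.s k167 k91 13 (.s k164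
  k165 0 (.s k240 k241 0 (.d k12 k88 k89 13 14)))))))) (.c k12 (.l (.s k3 k1 0 (.s k86 k254 13 (.s
  k252 k169 14 (.s k246 k6 11 (.s k243 k249 2 (.d k162 k174 k81 1 12))))))) .n))) .n))))))))

def t10_48 : T TT 256 :=
  (.q k63 [(.s k42 k21 6 (.s k85 k255 14 (.s k106 k234 7 (.s k192 k149 14 (.d k64 k127 k128 6
  7))))), (.s k255 k85 14 (.s k31 k47 3 (.s k95 k175 11 (.s k159 k223 7 (.s k111 k207 11 (.d k127
  k79 k191 3 7)))))), (.s k42 k21 6 (.s k47 k31 3 (.s k32 k37 2 (.s k101 k239 10 (.s k106 k234 7 (.s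
  k224 k165 10 (.d k96 k111 k160 2 7)))))))] (.c k31 (.l (.s k21 k42 6 (.s k85 k255 14 (.s k149 k213
  7 (.s k192 k106 14 (.d k128 k191 k64 6 7)))))) .n))

def t10_49 : T TT 256 :=
  (.q k63 [(.s k42 k21 6 (.s k85 k255 14 (.s k106 k234 7 (.s k192 k149 14 (.d k64 k127 k128 6
  7))))), (.s k255 k85 14 (.s k31 k47 3 (.s k95 k175 11 (.s k159 k223 7 (.s k111 k207 11 (.d k127
  k79 k191 3 7)))))), (.s k42 k21 6 (.s k47 k31 3 (.s k32 k37 2 (.s k101 k239 10 (.s k106 k234 7 (.s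
  k224 k165 10 (.d k96 k111 k160 2 7)))))))] (.c k31 (.l (.s k21 k42 6 (.s k85 k255 14 (.s k149 k213
  7 (.s k192 k106 14 (.d k128 k191 k64 6 7)))))) .n))

def t10_50 : T TT 256 :=
  (.q k63 [(.s k42 k21 6 (.s k85 k255 14 (.s k106 k234 7 (.s k192 k149 14 (.d k64 k127 k128 6
  7))))), (.s k255 k85 14 (.s k31 k47 3 (.s k95 k175 11 (.s k159 k223 7 (.s k111 k207 11 (.d k127
  k79 k191 3 7)))))), (.s k42 k21 6 (.s k47 k31 3 (.s k32 k37 2 (.s k101 k239 10 (.s k106 k234 7 (.s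
  k224 k165 10 (.d k96 k111 k160 2 7)))))))] (.c k31 (.l (.s k21 k42 6 (.s k85 k255 14 (.s k149 k213
  7 (.s k192 k106 14 (.d k128 k191 k64 6 7)))))) .n))

def t10_51 : T TT 256 :=
  (.q k63 [(.s k42 k21 6 (.s k85 k255 14 (.s k106 k234 7 (.s k192 k149 14 (.d k64 k127 k128 6
  7))))), (.s k255 k85 14 (.s k31 k47 3 (.s k95 k175 11 (.s k159 k223 7 (.s k111 k207 11 (.d k127
  k79 k191 3 7)))))), (.s k42 k21 6 (.s k47 k31 3 (.s k32 k37 2 (.s k101 k239 10 (.s k106 k234 7 (.s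
  k224 k165 10 (.d k96 k111 k160 2 7)))))))] (.c k31 (.l (.s k21 k42 6 (.s k85 k255 14 (.s k149 k213
  7 (.s k192 k106 14 (.d k128 k191 k64 6 7)))))) .n))

def t10_52 : T TT 256 :=
  (.q k63 [(.s k42 k21 6 (.s k85 k255 14 (.s k106 k234 7 (.s k192 k149 14 (.d k64 k127 k128 6
  7))))), (.s k255 k85 14 (.s k31 k47 3 (.s k95 k175 11 (.s k159 k223 7 (.s k111 k207 11 (.d k127
  k79 k191 3 7)))))), (.s k42 k21 6 (.s k47 k31 3 (.s k32 k37 2 (.s k101 k239 10 (.s k106 k234 7 (.s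
  k224 k165 10 (.d k96 k111 k160 2 7)))))))] (.c k31 (.l (.s k21 k42 6 (.s k85 k255 14 (.s k149 k213
  7 (.s k192 k106 14 (.d k128 k191 k64 6 7)))))) .n))

def t10_53 : T TT 256 :=
  (.q k63 [(.s k21 k42 6 (.s k85 k255 14 (.s k149 k213 7 (.s k128 k191 6 (.d k192 k64 k106 7
  14))))), (.s k255 k85 14 (.s k31 k47 3 (.s k95 k175 11 (.s k159 k223 7 (.s k111 k207 11 (.d k127
  k79 k191 3 7)))))), (.s k42 k21 6 (.s k47 k31 3 (.s k106 k234 7 (.s k165 k224 10 (.s k175 k160 2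
  (.s k239 k111 7 (.d k32 k37 k101 2 10)))))))] .n)

def t10_54 : T TT 256 :=
  (.q k63 [(.s k42 k21 6 (.s k85 k255 14 (.s k106 k234 7 (.s k192 k149 14 (.d k64 k127 k128 6
  7))))), (.s k255 k85 14 (.s k31 k47 3 (.s k95 k175 11 (.s k159 k223 7 (.s k111 k207 11 (.d k127
  k79 k191 3 7)))))), (.s k42 k21 6 (.s k47 k31 3 (.s k32 k37 2 (.s k101 k239 10 (.s k106 k234 7 (.s
  k224 k165 10 (.d k96 k111 k160 2 7)))))))] (.c k31 (.l (.s k21 k42 6 (.s k85 k255 14 (.s k149 k213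
  7 (.s k192 k106 14 (.d k128 k191 k64 6 7)))))) .n))

def t10_55 : T TT 256 :=
  (.q k63 [(.s k21 k42 6 (.s k85 k255 14 (.s k149 k213 7 (.s k128 k191 6 (.d k192 k64 k106 7
  14))))), (.s k255 k85 14 (.s k31 k47 3 (.s k95 k175 11 (.s k159 k223 7 (.s k111 k207 11 (.d k127
  k79 k191 3 7)))))), (.s k42 k21 6 (.s k47 k31 3 (.s k32 k37 2 (.s k101 k239 10 (.s k106 k234 7 (.s
  k224 k165 10 (.d k96 k111 k160 2 7)))))))] .n)

def t10_56 : T TT 256 :=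
  (.q k63 [(.s k42 k21 6 (.s k85 k255 14 (.s k106 k234 7 (.s k192 k149 14 (.d k64 k127 k128 6
  7))))), (.s k255 k85 14 (.s k31 k47 3 (.s k95 k175 11 (.s k159 k223 7 (.s k111 k207 11 (.d k127
  k79 k191 3 7)))))), (.s k42 k21 6 (.s k47 k31 3 (.s k32 k37 2 (.s k101 k239 10 (.s k106 k234 7 (.s
  k224 k165 10 (.d k96 k111 k160 2 7)))))))] (.c k31 (.l (.s k21 k42 6 (.s k85 k255 14 (.s k149 k213
  7 (.s k192 k106 14 (.d k128 k191 k64 6 7)))))) .n))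

def t10_57 : T TT 256 :=
  (.q k63 [(.s k42 k21 6 (.s k85 k255 14 (.s k106 k234 7 (.s k192 k149 14 (.d k64 k127 k128 6
  7))))), (.s k255 k85 14 (.s k31 k47 3 (.s k95 k175 11 (.s k159 k223 7 (.s k111 k207 11 (.d k127
  k79 k191 3 7)))))), (.s k42 k21 6 (.s k47 k31 3 (.s k32 k37 2 (.s k101 k239 10 (.s k106 k234 7 (.s
  k224 k165 10 (.d k96 k111 k160 2 7)))))))] (.c k31 (.l (.s k21 k42 6 (.s k85 k255 14 (.s k149 k213
  7 (.s k192 k106 14 (.d k128 k191 k64 6 7)))))) .n))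

def t10_58 : T TT 256 :=
  (.q k63 [(.s k42 k21 6 (.s k85 k255 14 (.s k106 k234 7 (.s k64 k127 6 (.d k192 k128 k149 7
  14))))), (.s k255 k85 14 (.s k31 k47 3 (.s k95 k175 11 (.s k159 k223 7 (.s k111 k207 11 (.d k127
  k79 k191 3 7)))))), (.s k42 k21 6 (.s k47 k31 3 (.s k32 k37 2 (.s k101 k239 10 (.s k106 k234 7 (.s
  k224 k165 10 (.d k96 k111 k160 2 7)))))))] (.c k26 (.l (.s k42 k21 6 (.s k85 k255 14 (.s k106 k234
  7 (.s k192 k149 14 (.d k64 k127 k128 6 7)))))) (.c k42 (.q k26 [(.s k31 k47 3 (.s k16 k21 2 (.d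
  k48 k32 k37 3 6))), (.s k255 k85 14 (.s k95 k175 11 (.s k127 k191 7 (.s k111 k79 3 (.s k159 k207
  11 (.d k31 k47 k223 3 7))))))] (.c k31 (.l (.s k85 k255 14 (.s k48 k37 6 (.s k32 k16 3 (.s k101
  k239 10 (.s k207 k154 14 (.d k69 k117 k138 3 10))))))) (.c k47 (.l (.s k85 k255 14 (.s k48 k37 6
  (.s k32 k16 3 (.s k101 k239 10 (.s k207 k154 14 (.d k69 k117 k138 3 10))))))) .n))) .n)))

def t10_59 : T TT 256 :=
  (.q k63 [(.s k42 k21 6 (.s k85 k255 14 (.s k106 k234 7 (.s k192 k149 14 (.d k64 k127 k128 6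
  7))))), (.s k255 k85 14 (.s k31 k47 3 (.s k95 k175 11 (.s k159 k223 7 (.s k111 k207 11 (.d k127
  k79 k191 3 7)))))), (.s k42 k21 6 (.s k47 k31 3 (.s k32 k37 2 (.s k101 k239 10 (.s k106 k234 7 (.s
  k224 k165 10 (.d k96 k111 k160 2 7)))))))] (.c k31 (.l (.s k21 k42 6 (.s k85 k255 14 (.s k149 k213
  7 (.s k192 k106 14 (.d k128 k191 k64 6 7)))))) .n))

def t10_60 : T TT 256 :=
  (.q k63 [(.s k42 k21 6 (.s k85 k255 14 (.s k106 k234 7 (.s k192 k149 14 (.d k64 k127 k128 6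
  7))))), (.s k255 k85 14 (.s k31 k47 3 (.s k95 k175 11 (.s k159 k223 7 (.s k111 k207 11 (.d k127
  k79 k191 3 7)))))), (.s k42 k21 6 (.s k47 k31 3 (.s k32 k37 2 (.s k101 k239 10 (.s k106 k234 7 (.s
  k224 k165 10 (.d k96 k111 k160 2 7)))))))] (.c k31 (.l (.s k21 k42 6 (.s k85 k255 14 (.s k149 k213
  7 (.s k192 k106 14 (.d k128 k191 k64 6 7)))))) .n))

def t10_61 : T TT 256 :=
  (.q k63 [(.s k21 k42 6 (.s k85 k255 14 (.s k149 k213 7 (.s k128 k191 6 (.d k192 k64 k106 7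
  14))))), (.s k255 k85 14 (.s k31 k47 3 (.s k95 k175 11 (.s k159 k223 7 (.s k111 k207 11 (.d k127
  k79 k191 3 7)))))), (.s k42 k21 6 (.s k47 k31 3 (.s k32 k37 2 (.s k101 k239 10 (.s k106 k234 7 (.s
  k224 k165 10 (.d k96 k111 k160 2 7)))))))] .n)

def t10_62 : T TT 256 :=
  (.q k63 [(.s k42 k21 6 (.s k85 k255 14 (.s k106 k234 7 (.s k192 k149 14 (.d k64 k127 k128 6
  7))))), (.s k255 k85 14 (.s k31 k47 3 (.s k95 k175 11 (.s k159 k223 7 (.s k111 k207 11 (.d k127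
  k79 k191 3 7)))))), (.s k42 k21 6 (.s k47 k31 3 (.s k32 k37 2 (.s k101 k239 10 (.s k106 k234 7 (.s
  k224 k165 10 (.d k96 k111 k160 2 7)))))))] (.c k31 (.l (.s k21 k42 6 (.s k85 k255 14 (.s k149 k213
  7 (.s k192 k106 14 (.d k128 k191 k64 6 7)))))) .n))

def t10_63 : T TT 256 :=
  (.q k48 [(.s k16 k32 3 (.s k85 k255 14 (.s k154 k223 10 (.s k138 k186 3 (.d k207 k69 k101 10
  14))))), (.s k32 k16 3 (.s k37 k26 6 (.s k101 k239 10 (.s k165 k229 7 (.s k160 k175 2 (.s k224 k96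
  7 (.d k47 k42 k106 2 10))))))), (.s k255 k85 14 (.s k37 k26 6 (.s k186 k117 10 (.s k154 k138 3 (.s
  k101 k207 14 (.s k165 k229 7 (.d k175 k95 k160 11 2)))))))] (.c k101 (.q k2 [(.s k3 k1 0 (.s k85
  k255 14 (.s k86 k254 13 (.s k84 k87 0 (.d k252 k168 k169 13 14))))), (.s k3 k1 0 (.s k16 k32 3 (.s
  k18 k33 4 (.s k34 k50 3 (.d k17 k19 k51 0 4))))), (.s k16 k32 3 (.s k85 k255 14 (.s k86 k254 13
  (.s k154 k223 10 (.s k18 k222 9 (.s k34 k50 3 (.d k17 k19 k51 0 4)))))))] (.c k79 (.q k112 [(.s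
  k240 k176 7 (.s k160 k80 11 (.s k175 k165 2 (.d k255 k95 k85 11 14)))), (.s k3 k1 0 (.s k16 k32 3
  (.s k18 k33 4 (.s k34 k50 3 (.d k17 k19 k51 0 4)))))] .n) (.c k112 (.q k79 [(.s k207 k143 7 (.s
  k138 k69 10 (.s k186 k154 3 (.d k255 k117 k85 10 14)))), (.s k3 k1 0 (.s k16 k32 3 (.s k18 k33 4
  (.s k34 k50 3 (.d k17 k19 k51 0 4)))))] .n) .n))) (.c k154 (.f k26 k37 6 (.q k2 [(.s k3 k1 0 (.s
  k16 k32 3 (.s k18 k33 4 (.s k17 k19 0 (.d k34 k50 k51 3 4))))), (.s k3 k1 0 (.s k85 k255 14 (.s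
  k86 k254 13 (.s k252 k169 14 (.d k84 k87 k168 0 13))))), (.s k255 k85 14 (.s k254 k86 13 (.s k186
  k117 10 (.s k50 k118 9 (.s k51 k49 0 (.d k34 k18 k17 3 4))))))] .n)) .n)))

def t10_64 : T TT 256 :=
  (.q k48 [(.s k16 k32 3 (.s k85 k255 14 (.s k154 k223 10 (.s k138 k186 3 (.d k207 k69 k101 10
  14))))), (.s k32 k16 3 (.s k37 k26 6 (.s k101 k239 10 (.s k165 k229 7 (.s k160 k175 2 (.s k224 k96
  7 (.d k47 k42 k106 2 10))))))), (.s k255 k85 14 (.s k37 k26 6 (.s k186 k117 10 (.s k154 k138 3 (.s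
  k101 k207 14 (.s k165 k229 7 (.d k175 k95 k160 11 2)))))))] (.c k101 (.f k16 k32 3 (.f k26 k37 6
  (.f k85 k255 14 (.l (.s k21 k31 2 (.s k154 k223 10 (.s k149 k213 7 (.s k128 k191 6 (.s k138 k186 3
  (.s k207 k69 10 (.d k143 k79 k133 7 2))))))))))) (.c k154 (.f k85 k255 14 (.f k26 k37 6 (.q k1
  [(.s k3 k2 0 (.s k169 k253 13 (.s k168 k171 0 (.d k252 k84 k86 13 14)))), (.s k32 k16 3 (.s k169
  k253 13 (.s k101 k239 10 (.s k33 k237 9 (.s k17 k49 3 (.d k34 k35 k51 0 4)))))), (.s k3 k2 0 (.s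
  k16 k32 3 (.s k11 k7 1 (.s k41 k56 4 (.d k21 k31 k61 2 5)))))] .n))) .n)))

def t10_65 : T TT 256 :=
  (.q k63 [(.s k42 k21 6 (.s k85 k255 14 (.s k106 k234 7 (.s k192 k149 14 (.d k64 k127 k128 6
  7))))), (.s k255 k85 14 (.s k31 k47 3 (.s k95 k175 11 (.s k159 k223 7 (.s k111 k207 11 (.d k127
  k79 k191 3 7)))))), (.s k42 k21 6 (.s k47 k31 3 (.s k32 k37 2 (.s k101 k239 10 (.s k106 k234 7 (.s
  k224 k165 10 (.d k96 k111 k160 2 7)))))))] (.c k31 (.l (.s k21 k42 6 (.s k85 k255 14 (.s k149 k213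
  7 (.s k192 k106 14 (.d k128 k191 k64 6 7)))))) .n))

def t10_66 : T TT 256 :=
  (.q k63 [(.s k42 k21 6 (.s k85 k255 14 (.s k106 k234 7 (.s k192 k149 14 (.d k64 k127 k128 6
  7))))), (.s k255 k85 14 (.s k31 k47 3 (.s k95 k175 11 (.s k159 k223 7 (.s k111 k207 11 (.d k127
  k79 k191 3 7)))))), (.s k42 k21 6 (.s k47 k31 3 (.s k32 k37 2 (.s k101 k239 10 (.s k106 k234 7 (.s
  k224 k165 10 (.d k96 k111 k160 2 7)))))))] (.c k31 (.l (.s k21 k42 6 (.s k85 k255 14 (.s k149 k213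
  7 (.s k192 k106 14 (.d k128 k191 k64 6 7)))))) .n))

def t10_67 : T TT 256 :=
  (.q k63 [(.s k42 k21 6 (.s k85 k255 14 (.s k106 k234 7 (.s k192 k149 14 (.d k64 k127 k128 6
  7))))), (.s k255 k85 14 (.s k31 k47 3 (.s k95 k175 11 (.s k159 k223 7 (.s k111 k207 11 (.d k127
  k79 k191 3 7)))))), (.s k42 k21 6 (.s k47 k31 3 (.s k32 k37 2 (.s k101 k239 10 (.s k106 k234 7 (.s
  k224 k165 10 (.d k96 k111 k160 2 7)))))))] (.c k31 (.l (.s k21 k42 6 (.s k85 k255 14 (.s k149 k213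
  7 (.s k192 k106 14 (.d k128 k191 k64 6 7)))))) .n))

def t10_68 : T TT 256 :=
  (.q k63 [(.s k42 k21 6 (.s k85 k255 14 (.s k106 k234 7 (.s k192 k149 14 (.d k64 k127 k128 6
  7))))), (.s k255 k85 14 (.s k31 k47 3 (.s k95 k175 11 (.s k159 k223 7 (.s k111 k207 11 (.d k127
  k79 k191 3 7)))))), (.s k42 k21 6 (.s k47 k31 3 (.s k32 k37 2 (.s k101 k239 10 (.s k106 k234 7 (.s
  k224 k165 10 (.d k96 k111 k160 2 7)))))))] (.c k31 (.l (.s k21 k42 6 (.s k85 k255 14 (.s k149 k213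
  7 (.s k192 k106 14 (.d k128 k191 k64 6 7)))))) .n))

def t10_69 : T TT 256 :=
  (.q k63 [(.s k42 k21 6 (.s k85 k255 14 (.s k106 k234 7 (.s k192 k149 14 (.d k64 k127 k128 6
  7))))), (.s k255 k85 14 (.s k31 k47 3 (.s k95 k175 11 (.s k159 k223 7 (.s k111 k207 11 (.d k127
  k79 k191 3 7)))))), (.s k42 k21 6 (.s k47 k31 3 (.s k32 k37 2 (.s k101 k239 10 (.s k106 k234 7 (.s
  k224 k165 10 (.d k96 k111 k160 2 7)))))))] (.c k31 (.l (.s k21 k42 6 (.s k85 k255 14 (.s k149 k213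
  7 (.s k192 k106 14 (.d k128 k191 k64 6 7)))))) .n))

def t10_70 : T TT 256 :=
  (.q k63 [(.s k42 k21 6 (.s k85 k255 14 (.s k106 k234 7 (.s k192 k149 14 (.d k64 k127 k128 6
  7))))), (.s k255 k85 14 (.s k31 k47 3 (.s k95 k175 11 (.s k159 k223 7 (.s k111 k207 11 (.d k127
  k79 k191 3 7)))))), (.s k42 k21 6 (.s k47 k31 3 (.s k32 k37 2 (.s k101 k239 10 (.s k106 k234 7 (.s
  k224 k165 10 (.d k96 k111 k160 2 7)))))))] (.c k31 (.l (.s k21 k42 6 (.s k85 k255 14 (.s k149 k213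
  7 (.s k192 k106 14 (.d k128 k191 k64 6 7)))))) .n))

def t10_71 : T TT 256 :=
  (.q k63 [(.s k42 k21 6 (.s k85 k255 14 (.s k106 k234 7 (.s k192 k149 14 (.d k64 k127 k128 6
  7))))), (.s k255 k85 14 (.s k31 k47 3 (.s k95 k175 11 (.s k159 k223 7 (.s k111 k207 11 (.d k127
  k79 k191 3 7)))))), (.s k42 k21 6 (.s k47 k31 3 (.s k32 k37 2 (.s k101 k239 10 (.s k106 k234 7 (.s
  k224 k165 10 (.d k96 k111 k160 2 7)))))))] (.c k31 (.l (.s k21 k42 6 (.s k85 k255 14 (.s k149 k213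
  7 (.s k192 k106 14 (.d k128 k191 k64 6 7)))))) .n))

def t10_72 : T TT 256 :=
  (.q k63 [(.s k42 k21 6 (.s k85 k255 14 (.s k106 k234 7 (.s k192 k149 14 (.d k64 k127 k128 6
  7))))), (.s k255 k85 14 (.s k31 k47 3 (.s k95 k175 11 (.s k159 k223 7 (.s k111 k207 11 (.d k127
  k79 k191 3 7)))))), (.s k42 k21 6 (.s k47 k31 3 (.s k32 k37 2 (.s k101 k239 10 (.s k106 k234 7 (.s
  k224 k165 10 (.d k96 k111 k160 2 7)))))))] (.c k31 (.l (.s k21 k42 6 (.s k85 k255 14 (.s k149 k213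
  7 (.s k192 k106 14 (.d k128 k191 k64 6 7)))))) .n))

def t10_73 : T TT 256 :=
  (.q k63 [(.s k42 k21 6 (.s k85 k255 14 (.s k106 k234 7 (.s k192 k149 14 (.d k64 k127 k128 6
  7))))), (.s k255 k85 14 (.s k31 k47 3 (.s k95 k175 11 (.s k159 k223 7 (.s k111 k207 11 (.d k127
  k79 k191 3 7)))))), (.s k42 k21 6 (.s k47 k31 3 (.s k32 k37 2 (.s k101 k239 10 (.s k106 k234 7 (.s
  k224 k165 10 (.d k96 k111 k160 2 7)))))))] (.c k31 (.l (.s k21 k42 6 (.s k85 k255 14 (.s k149 k213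
  7 (.s k192 k106 14 (.d k128 k191 k64 6 7)))))) .n))

def t10_74 : T TT 256 :=
  (.q k3 [(.s k2 k1 0 (.s k85 k255 14 (.s k86 k254 13 (.s k252 k169 14 (.d k84 k87 k168 0 13))))),
  (.s k255 k85 14 (.s k7 k11 1 (.s k87 k171 13 (.s k167 k247 11 (.s k91 k243 13 (.d k95 k83 k175 1
  11)))))), (.s k1 k2 0 (.s k85 k255 14 (.s k169 k253 13 (.s k252 k86 14 (.d k168 k171 k84 0
  13)))))] (.c k85 (.f k2 k1 0 (.l (.s k86 k254 13 (.s k7 k11 1 (.s k169 k252 14 (.s k165 k244 12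
  (.s k160 k175 2 (.s k161 k173 1 (.d k240 k80 k82 11 12))))))))) (.c k106 (.q k122 [(.s k1 k2 0 (.s
  k85 k255 14 (.s k169 k253 13 (.s k168 k171 0 (.d k252 k84 k86 13 14))))), (.s k255 k85 14 (.s k7
  k11 1 (.s k87 k171 13 (.s k167 k247 11 (.s k91 k243 13 (.d k95 k83 k175 1 11))))))] (.c k85 (.f k2
  k1 0 (.l (.s k86 k254 13 (.s k7 k11 1 (.s k169 k252 14 (.s k165 k244 12 (.s k160 k175 2 (.s k161
  k173 1 (.d k240 k80 k82 11 12))))))))) (.c k138 (.q k202 [(.s k2 k1 0 (.s k85 k255 14 (.s k86 k254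
  13 (.s k252 k169 14 (.d k84 k87 k168 0 13))))), (.s k255 k85 14 (.s k7 k11 1 (.s k87 k171 13 (.s
  k167 k247 11 (.s k91 k243 13 (.d k95 k83 k175 1 11)))))), (.s k1 k2 0 (.s k85 k255 14 (.s k169
  k253 13 (.s k252 k86 14 (.d k168 k171 k84 0 13)))))] (.c k85 (.f k2 k1 0 (.l (.s k86 k254 13 (.s
  k7 k11 1 (.s k169 k252 14 (.s k165 k244 12 (.s k160 k175 2 (.s k161 k173 1 (.d k240 k80 k82 11
  12))))))))) (.c k169 (.l (.s k255 k85 14 (.s k11 k7 1 (.s k171 k87 13 (.s k91 k251 11 (.s k167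
  k243 13 (.d k175 k95 k163 11 1))))))) (.c k255 (.f k2 k1 0 (.l (.s k86 k254 13 (.s k7 k11 1 (.s
  k165 k244 12 (.s k160 k175 2 (.s k240 k80 11 (.s k161 k82 12 (.d k169 k252 k173 14 1)))))))))
  .n)))) (.c k169 (.l (.s k255 k85 14 (.s k11 k7 1 (.s k171 k87 13 (.s k91 k251 11 (.s k167 k243 13
  (.d k175 k95 k163 11 1))))))) (.c k171 (.l (.s k2 k1 0 (.s k85 k255 14 (.s k86 k254 13 (.s k252
  k169 14 (.d k84 k87 k168 0 13)))))) (.c k202 (.q k138 [(.s k207 k69 10 (.s k85 k255 14 (.s k154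
  k186 3 (.s k16 k223 10 (.d k48 k32 k101 3 14))))), (.s k1 k2 0 (.s k69 k207 10 (.s k137 k205 9 (.s
  k204 k70 10 (.d k136 k139 k68 0 9))))), (.s k1 k2 0 (.s k85 k255 14 (.s k169 k253 13 (.s k252 k86
  14 (.d k168 k171 k84 0 13)))))] (.c k58 (.l (.s k154 k186 3 (.s k207 k69 10 (.s k85 k255 14 (.s
  k16 k223 10 (.d k48 k32 k101 3 14)))))) (.c k154 (.q k58 [(.s k1 k2 0 (.s k69 k207 10 (.s k137
  k205 9 (.s k204 k70 10 (.d k136 k139 k68 0 9))))), (.s k1 k2 0 (.s k85 k255 14 (.s k169 k253 13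
  (.s k252 k86 14 (.d k168 k171 k84 0 13))))), (.s k207 k69 10 (.s k255 k85 14 (.s k139 k71 9 (.s
  k171 k87 13 (.s k187 k155 3 (.d k136 k153 k137 4 0))))))] (.c k26 (.q k218 [(.s k207 k69 10 (.s
  k250 k186 7 (.s k240 k229 6 (.d k255 k245 k85 2 14)))), (.s k1 k2 0 (.s k69 k207 10 (.s k137 k205
  9 (.s k204 k70 10 (.d k136 k139 k68 0 9))))), (.s k1 k2 0 (.s k85 k255 14 (.s k169 k253 13 (.s
  k252 k86 14 (.d k168 k171 k84 0 13)))))] .n) (.c k218 (.q k26 [(.s k255 k85 14 (.s k48 k37 6 (.d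
  k186 k250 k117 7 10))), (.s k1 k2 0 (.s k69 k207 10 (.s k137 k205 9 (.s k204 k70 10 (.d k136 k139
  k68 0 9)))))] (.c k48 (.l (.s k1 k2 0 (.s k85 k255 14 (.s k169 k253 13 (.s k252 k86 14 (.d k168
  k171 k84 0 13)))))) (.c k234 (.l (.s k250 k186 7 (.s k255 k85 14 (.s k48 k37 6 (.s k63 k53 2 (.d
  k240 k245 k181 2 10)))))) (.c k250 (.q k234 [(.s k48 k37 6 (.s k16 k32 3 (.s k31 k21 2 (.d k63 k53
  k47 2 3)))), (.s k1 k2 0 (.s k85 k255 14 (.s k169 k253 13 (.s k252 k86 14 (.d k168 k171 k84 0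
  13)))))] .n) .n)))) .n))) .n))) (.c k255 (.q k138 [(.s k2 k1 0 (.s k69 k207 10 (.s k70 k206 9 (.s
  k204 k137 10 (.d k68 k71 k136 0 9))))), (.s k2 k1 0 (.s k206 k70 9 (.s k86 k254 13 (.s k154 k186 3
  (.s k18 k222 9 (.d k50 k34 k102 3 13)))))), (.s k207 k69 10 (.s k7 k11 1 (.s k71 k139 9 (.s k135
  k199 7 (.s k75 k195 9 (.d k79 k67 k143 1 7))))))] .n) .n))))))) (.c k122 (.q k106 [(.s k85 k255 14
  (.s k42 k234 7 (.s k63 k21 6 (.s k192 k149 14 (.d k64 k127 k128 6 7))))), (.s k1 k2 0 (.s k85 k255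
  14 (.s k169 k253 13 (.s k252 k86 14 (.d k168 k171 k84 0 13))))), (.s k1 k2 0 (.s k42 k234 7 (.s
  k21 k63 6 (.s k41 k61 5 (.s k60 k22 6 (.d k40 k43 k20 0 5))))))] (.c k138 (.q k202 [(.s k85 k255
  14 (.s k42 k234 7 (.s k63 k21 6 (.s k192 k149 14 (.d k64 k127 k128 6 7))))), (.s k1 k2 0 (.s k85
  k255 14 (.s k169 k253 13 (.s k252 k86 14 (.d k168 k171 k84 0 13))))), (.s k1 k2 0 (.s k42 k234 7
  (.s k21 k63 6 (.s k41 k61 5 (.s k60 k22 6 (.d k40 k43 k20 0 5))))))] .n) (.c k202 (.q k138 [(.s k1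
  k2 0 (.s k69 k207 10 (.s k137 k205 9 (.s k136 k139 0 (.d k204 k68 k70 9 10))))), (.s k207 k69 10
  (.s k85 k255 14 (.s k143 k79 7 (.s k64 k127 6 (.d k128 k133 k192 2 7))))), (.s k1 k2 0 (.s k85
  k255 14 (.s k169 k253 13 (.s k252 k86 14 (.d k168 k171 k84 0 13)))))] .n) .n))) (.c k138 (.q k202
  [(.s k2 k1 0 (.s k85 k255 14 (.s k86 k254 13 (.s k252 k169 14 (.d k84 k87 k168 0 13))))), (.s k255
  k85 14 (.s k7 k11 1 (.s k87 k171 13 (.s k167 k247 11 (.s k91 k243 13 (.d k95 k83 k175 1 11)))))),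
  (.s k1 k2 0 (.s k85 k255 14 (.s k169 k253 13 (.s k252 k86 14 (.d k168 k171 k84 0 13)))))] (.c k85
  (.f k2 k1 0 (.l (.s k86 k254 13 (.s k7 k11 1 (.s k169 k252 14 (.s k165 k244 12 (.s k160 k175 2 (.s
  k161 k173 1 (.d k240 k80 k82 11 12))))))))) (.c k106 (.q k122 [(.s k2 k1 0 (.s k85 k255 14 (.s k86
  k254 13 (.s k252 k169 14 (.d k84 k87 k168 0 13))))), (.s k255 k85 14 (.s k7 k11 1 (.s k87 k171 13
  (.s k167 k247 11 (.s k91 k243 13 (.d k95 k83 k175 1 11)))))), (.s k1 k2 0 (.s k85 k255 14 (.s k169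
  k253 13 (.s k252 k86 14 (.d k168 k171 k84 0 13)))))] (.c k85 (.f k2 k1 0 (.l (.s k86 k254 13 (.s
  k7 k11 1 (.s k169 k252 14 (.s k165 k244 12 (.s k160 k175 2 (.s k161 k173 1 (.d k240 k80 k82 11
  12))))))))) (.c k169 (.l (.s k255 k85 14 (.s k11 k7 1 (.s k171 k87 13 (.s k91 k251 11 (.s k167
  k243 13 (.d k175 k95 k163 11 1))))))) (.c k255 (.f k2 k1 0 (.l (.s k86 k254 13 (.s k7 k11 1 (.s
  k165 k244 12 (.s k160 k175 2 (.s k240 k80 11 (.s k161 k82 12 (.d k169 k252 k173 14 1)))))))))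
  .n)))) (.c k122 (.q k106 [(.s k85 k255 14 (.s k42 k234 7 (.s k63 k21 6 (.s k192 k149 14 (.d k64
  k127 k128 6 7))))), (.s k1 k2 0 (.s k85 k255 14 (.s k169 k253 13 (.s k252 k86 14 (.d k168 k171 k84
  0 13))))), (.s k1 k2 0 (.s k42 k234 7 (.s k21 k63 6 (.s k41 k61 5 (.s k60 k22 6 (.d k40 k43 k20 0
  5))))))] .n) (.c k169 (.l (.s k255 k85 14 (.s k11 k7 1 (.s k171 k87 13 (.s k91 k251 11 (.s k167
  k243 13 (.d k175 k95 k163 11 1))))))) (.c k255 (.q k106 [(.s k2 k1 0 (.s k86 k254 13 (.s k42 k234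
  7 (.s k62 k22 5 (.s k194 k150 13 (.d k66 k126 k130 5 7)))))), (.s k42 k234 7 (.s k63 k21 6 (.s k43
  k23 5 (.s k169 k232 8 (.s k252 k86 14 (.d k168 k171 k84 0 13)))))), (.s k2 k1 0 (.s k86 k254 13
  (.s k66 k126 5 (.s k192 k129 8 (.s k128 k64 7 (.d k149 k191 k63 6 14)))))), (.s k1 k2 0 (.s k42
  k234 7 (.s k21 k63 6 (.s k41 k61 5 (.s k60 k22 6 (.d k40 k43 k20 0 5))))))] (.c k192 (.l (.s k2 k1
  0 (.s k86 k254 13 (.s k252 k169 14 (.s k126 k66 5 (.s k63 k189 8 (.d k42 k21 k234 6 7))))))) .n))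
  .n)))))) (.c k169 (.l (.s k255 k85 14 (.s k11 k7 1 (.s k171 k87 13 (.s k91 k251 11 (.s k167 k243
  13 (.d k175 k95 k163 11 1))))))) (.c k202 (.q k138 [(.s k207 k69 10 (.s k85 k255 14 (.s k154 k186
  3 (.s k16 k223 10 (.d k48 k32 k101 3 14))))), (.s k1 k2 0 (.s k69 k207 10 (.s k137 k205 9 (.s k204
  k70 10 (.d k136 k139 k68 0 9))))), (.s k1 k2 0 (.s k85 k255 14 (.s k169 k253 13 (.s k252 k86 14
  (.d k168 k171 k84 0 13)))))] (.c k106 (.q k122 [(.s k207 k69 10 (.s k85 k255 14 (.s k154 k186 3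
  (.s k16 k223 10 (.d k48 k32 k101 3 14))))), (.s k1 k2 0 (.s k69 k207 10 (.s k137 k205 9 (.s k204
  k70 10 (.d k136 k139 k68 0 9))))), (.s k1 k2 0 (.s k85 k255 14 (.s k169 k253 13 (.s k252 k86 14
  (.d k168 k171 k84 0 13)))))] (.c k58 (.l (.s k154 k186 3 (.s k207 k69 10 (.s k85 k255 14 (.s k16
  k223 10 (.d k48 k32 k101 3 14)))))) (.c k154 (.q k58 [(.s k1 k2 0 (.s k69 k207 10 (.s k137 k205 9
  (.s k204 k70 10 (.d k136 k139 k68 0 9))))), (.s k1 k2 0 (.s k85 k255 14 (.s k169 k253 13 (.s k252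
  k86 14 (.d k168 k171 k84 0 13))))), (.s k207 k69 10 (.s k255 k85 14 (.s k139 k71 9 (.s k171 k87 13
  (.s k187 k155 3 (.d k136 k153 k137 4 0))))))] (.c k26 (.q k218 [(.s k207 k69 10 (.s k250 k186 7
  (.s k240 k229 6 (.d k255 k245 k85 2 14)))), (.s k1 k2 0 (.s k69 k207 10 (.s k137 k205 9 (.s k204
  k70 10 (.d k136 k139 k68 0 9))))), (.s k1 k2 0 (.s k85 k255 14 (.s k169 k253 13 (.s k252 k86 14
  (.d k168 k171 k84 0 13)))))] .n) (.c k218 (.q k26 [(.s k255 k85 14 (.s k48 k37 6 (.d k186 k250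
  k117 7 10))), (.s k1 k2 0 (.s k69 k207 10 (.s k137 k205 9 (.s k204 k70 10 (.d k136 k139 k68 0
  9)))))] (.c k48 (.l (.s k1 k2 0 (.s k85 k255 14 (.s k169 k253 13 (.s k252 k86 14 (.d k168 k171 k84
  0 13)))))) (.c k234 (.l (.s k250 k186 7 (.s k255 k85 14 (.s k48 k37 6 (.s k63 k53 2 (.d k240 k245
  k181 2 10)))))) (.c k250 (.q k234 [(.s k48 k37 6 (.s k16 k32 3 (.s k31 k21 2 (.d k63 k53 k47 2
  3)))), (.s k1 k2 0 (.s k85 k255 14 (.s k169 k253 13 (.s k252 k86 14 (.d k168 k171 k84 0 13)))))]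
  .n) .n)))) .n))) .n))) (.c k122 (.q k106 [(.s k1 k2 0 (.s k69 k207 10 (.s k137 k205 9 (.s k136
  k139 0 (.d k204 k68 k70 9 10))))), (.s k207 k69 10 (.s k85 k255 14 (.s k143 k79 7 (.s k64 k127 6
  (.d k128 k133 k192 2 7))))), (.s k1 k2 0 (.s k85 k255 14 (.s k169 k253 13 (.s k252 k86 14 (.d k168
  k171 k84 0 13)))))] .n) .n))) (.c k255 (.f k2 k1 0 (.l (.s k86 k254 13 (.s k7 k11 1 (.s k165 k244
  12 (.s k160 k175 2 (.s k240 k80 11 (.s k161 k82 12 (.d k169 k252 k173 14 1))))))))) .n))))))))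

def t10_75 : T TT 256 :=
  (.q k63 [(.s k42 k21 6 (.s k85 k255 14 (.s k106 k234 7 (.s k192 k149 14 (.d k64 k127 k128 6
  7))))), (.s k255 k85 14 (.s k31 k47 3 (.s k95 k175 11 (.s k159 k223 7 (.s k111 k207 11 (.d k127
  k79 k191 3 7)))))), (.s k42 k21 6 (.s k47 k31 3 (.s k32 k37 2 (.s k101 k239 10 (.s k106 k234 7 (.s
  k224 k165 10 (.d k96 k111 k160 2 7)))))))] (.c k31 (.l (.s k21 k42 6 (.s k85 k255 14 (.s k149 k213
  7 (.s k192 k106 14 (.d k128 k191 k64 6 7)))))) (.c k105 (.q k120 [(.s k21 k42 6 (.s k85 k255 14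
  (.s k149 k213 7 (.s k128 k191 6 (.d k192 k64 k106 7 14))))), (.s k255 k85 14 (.s k31 k47 3 (.s k95
  k175 11 (.s k159 k223 7 (.s k111 k207 11 (.d k127 k79 k191 3 7)))))), (.s k42 k21 6 (.s k47 k31 3
  (.s k32 k37 2 (.s k101 k239 10 (.s k106 k234 7 (.s k224 k165 10 (.d k96 k111 k160 2 7)))))))] .n)
  (.c k120 (.q k105 [(.s k85 k255 14 (.s k40 k235 8 (.s k60 k20 5 (.s k195 k150 14 (.d k65 k125 k130
  5 8))))), (.s k21 k42 6 (.s k85 k255 14 (.s k149 k213 7 (.s k192 k106 14 (.d k128 k191 k64 6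
  7))))), (.s k42 k21 6 (.s k40 k235 8 (.s k60 k20 5 (.s k41 k43 0 (.s k22 k3 6 (.d k62 k61 k2 0
  5))))))] .n) .n))))

def t10_76 : T TT 256 :=
  (.q k63 [(.s k42 k21 6 (.s k85 k255 14 (.s k106 k234 7 (.s k192 k149 14 (.d k64 k127 k128 6
  7))))), (.s k255 k85 14 (.s k31 k47 3 (.s k95 k175 11 (.s k159 k223 7 (.s k111 k207 11 (.d k127
  k79 k191 3 7)))))), (.s k42 k21 6 (.s k47 k31 3 (.s k32 k37 2 (.s k101 k239 10 (.s k106 k234 7 (.s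
  k224 k165 10 (.d k96 k111 k160 2 7)))))))] (.c k31 (.l (.s k21 k42 6 (.s k85 k255 14 (.s k149 k213
  7 (.s k192 k106 14 (.d k128 k191 k64 6 7)))))) .n))

def t10_77 : T TT 256 :=
  (.q k63 [(.s k42 k21 6 (.s k85 k255 14 (.s k106 k234 7 (.s k192 k149 14 (.d k64 k127 k128 6
  7))))), (.s k255 k85 14 (.s k31 k47 3 (.s k95 k175 11 (.s k159 k223 7 (.s k111 k207 11 (.d k127
  k79 k191 3 7)))))), (.s k42 k21 6 (.s k47 k31 3 (.s k32 k37 2 (.s k101 k239 10 (.s k106 k234 7 (.s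
  k224 k165 10 (.d k96 k111 k160 2 7)))))))] (.c k31 (.l (.s k21 k42 6 (.s k85 k255 14 (.s k149 k213
  7 (.s k192 k106 14 (.d k128 k191 k64 6 7)))))) .n))

def t10_78 : T TT 256 :=
  (.q k63 [(.s k42 k21 6 (.s k85 k255 14 (.s k106 k234 7 (.s k192 k149 14 (.d k64 k127 k128 6
  7))))), (.s k255 k85 14 (.s k31 k47 3 (.s k95 k175 11 (.s k159 k223 7 (.s k111 k207 11 (.d k127
  k79 k191 3 7)))))), (.s k42 k21 6 (.s k47 k31 3 (.s k32 k37 2 (.s k101 k239 10 (.s k106 k234 7 (.s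
  k224 k165 10 (.d k96 k111 k160 2 7)))))))] (.c k31 (.l (.s k21 k42 6 (.s k85 k255 14 (.s k149 k213
  7 (.s k192 k106 14 (.d k128 k191 k64 6 7)))))) (.c k102 (.q k114 [(.s k21 k42 6 (.s k85 k255 14
  (.s k149 k213 7 (.s k128 k191 6 (.d k192 k64 k106 7 14))))), (.s k255 k85 14 (.s k31 k47 3 (.s k95
  k175 11 (.s k159 k223 7 (.s k111 k207 11 (.d k127 k79 k191 3 7)))))), (.s k42 k21 6 (.s k47 k31 3
  (.s k32 k37 2 (.s k101 k239 10 (.s k106 k234 7 (.s k224 k165 10 (.d k96 k111 k160 2 7)))))))] .n)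
  (.c k114 (.q k102 [(.s k85 k255 14 (.s k34 k238 9 (.s k51 k17 4 (.s k204 k153 14 (.d k68 k119 k136
  4 9))))), (.s k21 k42 6 (.s k85 k255 14 (.s k149 k213 7 (.s k192 k106 14 (.d k128 k191 k64 6
  7))))), (.s k42 k21 6 (.s k34 k238 9 (.s k51 k17 4 (.s k38 k46 1 (.s k25 k12 6 (.d k59 k55 k8 1
  4))))))] .n) .n))))

def t10_79 : T TT 256 :=
  (.q k48 [(.s k16 k32 3 (.s k85 k255 14 (.s k154 k223 10 (.s k138 k186 3 (.d k207 k101 k69 14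
  10))))), (.s k32 k16 3 (.s k37 k26 6 (.s k101 k239 10 (.s k165 k229 7 (.s k160 k175 2 (.s k224 k96
  7 (.d k47 k42 k106 2 10))))))), (.s k255 k85 14 (.s k37 k26 6 (.s k186 k117 10 (.s k154 k138 3 (.s
  k101 k207 14 (.s k165 k229 7 (.d k175 k95 k160 11 2)))))))] (.c k101 (.q k112 [(.s k240 k176 7 (.s
  k160 k80 11 (.s k175 k165 2 (.d k255 k95 k85 11 14)))), (.s k16 k32 3 (.s k240 k176 7 (.s k80 k160
  11 (.s k144 k208 7 (.d k96 k64 k192 3 11))))), (.s k16 k32 3 (.s k255 k85 14 (.s k26 k37 6 (.s k21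
  k31 2 (.s k117 k186 10 (.s k127 k122 2 (.d k63 k42 k191 6 7)))))))] (.c k80 (.l (.s k255 k85 14
  (.s k95 k175 11 (.s k240 k176 7 (.s k117 k186 10 (.s k122 k127 2 (.s k181 k63 10 (.d k245 k250 k53
  2 7)))))))) .n)) (.c k112 (.q k101 [(.d k32 k16 k239 3 10), (.s k85 k255 14 (.s k207 k154 14 (.d
  k69 k117 k138 3 10)))] .n) (.c k154 (.f k26 k37 6 (.l (.s k16 k32 3 (.s k85 k255 14 (.s k21 k31 2
  (.s k149 k213 7 (.s k128 k191 6 (.s k192 k64 7 (.d k63 k42 k106 6 14))))))))) .n))))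

def t10_80 : T TT 256 :=
  (.q k207 [(.s k138 k69 10 (.s k154 k186 3 (.s k101 k48 14 (.s k239 k32 10 (.d k255 k85 k223 14
  3))))), (.s k255 k85 14 (.s k95 k175 11 (.s k79 k143 7 (.s k111 k127 3 (.s k159 k63 11 (.d k223
  k239 k31 3 7)))))), (.s k138 k69 10 (.s k143 k79 7 (.s k128 k133 2 (.s k149 k191 6 (.s k154 k186 3
  (.s k176 k165 6 (.d k144 k159 k160 2 3)))))))] (.c k85 (.q k95 [(.s k138 k69 10 (.s k255 k175 11
  (.s k154 k186 3 (.s k101 k48 14 (.d k239 k223 k32 3 10))))), (.s k79 k143 7 (.s k175 k255 11 (.s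
  k111 k127 3 (.s k47 k239 7 (.d k63 k31 k159 3 11))))), (.s k138 k69 10 (.s k143 k79 7 (.s k128
  k133 2 (.s k149 k191 6 (.s k154 k186 3 (.s k176 k165 6 (.d k144 k159 k160 2 3)))))))] .n) (.c k95
  (.l (.s k85 k255 14 (.s k69 k138 10 (.s k101 k117 3 (.s k32 k239 10 (.d k48 k16 k154 3 14))))))
  .n)))

def t10_81 : T TT 256 :=
  (.q k207 [(.s k138 k69 10 (.s k85 k255 14 (.s k154 k186 3 (.s k16 k223 10 (.d k48 k32 k101 3
  14))))), (.s k255 k85 14 (.s k79 k143 7 (.s k95 k175 11 (.s k111 k127 3 (.s k159 k63 11 (.d k223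
  k239 k31 3 7)))))), (.s k138 k69 10 (.s k143 k79 7 (.s k128 k133 2 (.s k149 k191 6 (.s k154 k186 3
  (.s k176 k165 6 (.d k144 k159 k160 2 3)))))))] .n)

def t10_82 : T TT 256 :=
  (.q k207 [(.s k138 k69 10 (.s k85 k255 14 (.s k154 k186 3 (.s k16 k223 10 (.d k48 k32 k101 3
  14))))), (.s k255 k85 14 (.s k79 k143 7 (.s k95 k175 11 (.s k111 k127 3 (.s k159 k63 11 (.d k223
  k239 k31 3 7)))))), (.s k138 k69 10 (.s k143 k79 7 (.s k128 k133 2 (.s k149 k191 6 (.s k154 k186 3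
  (.s k176 k165 6 (.d k144 k159 k160 2 3)))))))] (.c k86 (.q k94 [(.s k138 k69 10 (.s k85 k255 14
  (.s k154 k186 3 (.s k16 k223 10 (.d k48 k32 k101 3 14))))), (.s k79 k143 7 (.s k173 k252 12 (.s
  k109 k124 4 (.s k45 k237 7 (.d k60 k30 k158 4 12)))))] .n) (.c k94 (.q k86 [(.s k138 k69 10 (.s
  k85 k255 14 (.s k154 k186 3 (.s k16 k223 10 (.d k48 k32 k101 3 14))))), (.s k85 k255 14 (.s k2
  k254 13 (.s k3 k1 0 (.s k252 k169 14 (.d k84 k87 k168 0 13))))), (.s k138 k69 10 (.s k2 k254 13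
  (.s k3 k1 0 (.s k70 k206 9 (.s k137 k204 10 (.d k139 k136 k71 0 9))))))] .n) .n)))

def t10_83 : T TT 256 :=
  (.q k63 [(.s k42 k21 6 (.s k85 k255 14 (.s k106 k234 7 (.s k192 k149 14 (.d k64 k127 k128 6
  7))))), (.s k255 k85 14 (.s k31 k47 3 (.s k95 k175 11 (.s k159 k223 7 (.s k111 k207 11 (.d k127
  k79 k191 3 7)))))), (.s k42 k21 6 (.s k47 k31 3 (.s k32 k37 2 (.s k101 k239 10 (.s k106 k234 7 (.s
  k224 k165 10 (.d k96 k111 k160 2 7)))))))] (.c k31 (.l (.s k21 k42 6 (.s k85 k255 14 (.s k149 k213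
  7 (.s k192 k106 14 (.d k128 k191 k64 6 7)))))) .n))

def t10_84 : T TT 256 :=
  (.q k63 [(.s k42 k21 6 (.s k85 k255 14 (.s k106 k234 7 (.s k192 k149 14 (.d k64 k127 k128 6
  7))))), (.s k255 k85 14 (.s k31 k47 3 (.s k95 k175 11 (.s k159 k223 7 (.s k111 k207 11 (.d k127
  k79 k191 3 7)))))), (.s k42 k21 6 (.s k47 k31 3 (.s k32 k37 2 (.s k101 k239 10 (.s k106 k234 7 (.s
  k224 k165 10 (.d k96 k111 k160 2 7)))))))] (.c k31 (.l (.s k21 k42 6 (.s k85 k255 14 (.s k149 k213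
  7 (.s k192 k106 14 (.d k128 k191 k64 6 7)))))) .n))

def t10_85_1 : T TT 256 :=
  (.l (.s k42 k234 7 (.s k63 k21 6 (.s k47 k31 3 (.s k32 k37 2 (.s k101 k239 10 (.s k224 k165 10 (.d
  k96 k111 k160 2 7))))))))

def t10_85_2 : T TT 256 :=
  (.l (.s k42 k234 7 (.s k63 k21 6 (.s k47 k31 3 (.s k32 k37 2 (.s k101 k239 10 (.s k224 k165 10 (.d
  k96 k111 k160 2 7))))))))

def t10_85_3 : T TT 256 :=
  (.l (.s k42 k234 7 (.s k63 k21 6 (.s k47 k31 3 (.s k32 k37 2 (.s k101 k239 10 (.s k224 k165 10 (.d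
  k96 k111 k160 2 7))))))))

def t10_85_4 : T TT 256 :=
  (.l (.s k42 k234 7 (.s k63 k21 6 (.s k47 k31 3 (.s k32 k37 2 (.s k101 k239 10 (.s k224 k165 10 (.d
  k96 k111 k160 2 7))))))))

def t10_85_5 : T TT 256 :=
  (.l (.s k42 k234 7 (.s k63 k21 6 (.s k47 k31 3 (.s k165 k224 10 (.s k175 k160 2 (.s k239 k111 7
  (.d k32 k37 k101 2 10))))))))

def t10_85_6 : T TT 256 :=
  (.l (.s k42 k234 7 (.s k63 k21 6 (.s k47 k31 3 (.s k32 k37 2 (.s k101 k239 10 (.s k224 k165 10 (.d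
  k96 k111 k160 2 7))))))))

def t10_85_7 : T TT 256 :=
  (.l (.s k42 k234 7 (.s k63 k21 6 (.s k47 k31 3 (.s k32 k37 2 (.s k101 k239 10 (.s k224 k165 10 (.d
  k96 k111 k160 2 7))))))))

def t10_85_8 : T TT 256 :=
  (.l (.s k42 k234 7 (.s k63 k21 6 (.s k47 k31 3 (.s k32 k37 2 (.s k101 k239 10 (.s k224 k165 10 (.d
  k96 k111 k160 2 7))))))))

def t10_85_9 : T TT 256 :=
  (.l (.s k42 k234 7 (.s k63 k21 6 (.s k47 k31 3 (.s k32 k37 2 (.s k101 k239 10 (.s k224 k165 10 (.d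
  k96 k111 k160 2 7))))))))

def t10_85_11 : T TT 256 :=
  (.l (.s k42 k234 7 (.s k63 k21 6 (.s k47 k31 3 (.s k32 k37 2 (.s k101 k239 10 (.s k224 k165 10 (.d
  k96 k111 k160 2 7))))))))

def t10_85_12 : T TT 256 :=
  (.l (.s k42 k234 7 (.s k63 k21 6 (.s k47 k31 3 (.s k32 k37 2 (.s k101 k239 10 (.s k224 k165 10 (.d
  k96 k111 k160 2 7))))))))

def t10_85_13 : T TT 256 :=
  (.l (.s k42 k234 7 (.s k63 k21 6 (.s k47 k31 3 (.s k32 k37 2 (.s k101 k239 10 (.s k224 k165 10 (.d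
  k96 k111 k160 2 7))))))))

def t10_85_14 : T TT 256 :=
  (.l (.s k42 k234 7 (.s k63 k21 6 (.s k47 k31 3 (.s k32 k37 2 (.s k101 k239 10 (.s k224 k165 10 (.d
  k96 k111 k160 2 7))))))))

def t10_85_16 : T TT 256 :=
  (.f k42 k234 7 (.f k63 k21 6 (.f k31 k47 3 (.f k149 k192 14 (.l (.s k191 k128 6 (.s k255 k127 7
  (.s k95 k175 11 (.s k159 k223 7 (.s k154 k144 2 (.s k138 k186 3 (.d k207 k111 k69 11
  10))))))))))))

def t10_85_17 : T TT 256 :=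
  (.l (.s k42 k234 7 (.s k63 k21 6 (.s k47 k31 3 (.s k32 k37 2 (.s k101 k239 10 (.s k224 k165 10 (.d
  k96 k111 k160 2 7))))))))

def t10_85_18 : T TT 256 :=
  (.l (.s k42 k234 7 (.s k63 k21 6 (.s k47 k31 3 (.s k32 k37 2 (.s k101 k239 10 (.s k224 k165 10 (.d
  k96 k111 k160 2 7))))))))

def t10_85_19 : T TT 256 :=
  (.l (.s k42 k234 7 (.s k63 k21 6 (.s k47 k31 3 (.s k32 k37 2 (.s k101 k239 10 (.s k224 k165 10 (.d
  k96 k111 k160 2 7))))))))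

def t10_85_20 : T TT 256 :=
  (.l (.s k42 k234 7 (.s k63 k21 6 (.s k47 k31 3 (.s k32 k37 2 (.s k101 k239 10 (.s k224 k165 10 (.d
  k96 k111 k160 2 7))))))))

def t10_85_21 : T TT 256 :=
  (.q k149 [(.s k192 k63 14 (.d k128 k191 k64 6 7)), (.s k234 k42 7 (.s k192 k63 14 (.s k133 k74 10
  (.s k165 k181 3 (.s k175 k160 2 (.d k255 k95 k213 11 6))))))] (.c k63 (.l (.s k234 k42 7 (.s k128
  k191 6 (.s k192 k64 7 (.s k133 k74 10 (.s k165 k181 3 (.s k175 k160 2 (.d k255 k213 k95 6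
  11)))))))) (.c k80 (.q k95 [(.s k192 k63 14 (.d k128 k191 k64 6 7)), (.s k255 k175 11 (.s k234 k42
  7 (.d k192 k213 k63 6 14))), (.s k175 k255 11 (.s k191 k128 6 (.s k143 k159 3 (.s k165 k160 2 (.s
  k181 k133 3 (.d k176 k186 k154 2 6))))))] .n) (.c k95 (.q k80 [(.s k192 k63 14 (.d k128 k191 k64 6
  7)), (.s k160 k240 11 (.s k234 k42 7 (.s k165 k175 2 (.s k224 k47 10 (.s k32 k96 7 (.d k239 k229
  k101 2 10))))))] .n) (.c k192 (.q k2 [(.s k3 k1 0 (.s k86 k254 13 (.s k23 k212 8 (.s k43 k63 5 (.d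
  k169 k232 k252 8 14))))), (.s k86 k254 13 (.s k42 k234 7 (.s k66 k126 5 (.s k194 k130 7 (.d k62
  k22 k150 5 13))))), (.s k3 k1 0 (.s k7 k11 1 (.s k42 k234 7 (.s k22 k62 5 (.s k37 k52 4 (.s k48
  k26 6 (.d k32 k16 k47 3 2)))))))] (.c k80 (.q k95 [(.s k3 k1 0 (.s k86 k254 13 (.s k23 k212 8 (.s
  k43 k63 5 (.d k169 k232 k252 8 14))))), (.s k86 k254 13 (.s k42 k234 7 (.s k62 k22 5 (.s k194 k150
  13 (.d k66 k126 k130 5 7))))), (.s k3 k1 0 (.s k7 k11 1 (.s k255 k175 11 (.s k87 k171 13 (.s k167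
  k247 11 (.d k91 k83 k243 1 13))))))] .n) (.c k95 (.q k80 [(.s k3 k1 0 (.s k86 k254 13 (.s k23 k212
  8 (.s k43 k63 5 (.d k169 k232 k252 8 14))))), (.s k86 k254 13 (.s k42 k234 7 (.s k62 k22 5 (.s
  k194 k150 13 (.d k66 k126 k130 5 7))))), (.s k3 k1 0 (.s k240 k160 11 (.s k82 k161 12 (.s k162
  k242 11 (.d k81 k83 k243 0 12)))))] .n) .n))) .n)))))

def t10_85_22 : T TT 256 :=
  (.l (.s k42 k234 7 (.s k63 k21 6 (.s k47 k31 3 (.s k32 k37 2 (.s k101 k239 10 (.s k224 k165 10 (.d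
  k96 k111 k160 2 7))))))))

def t10_85_23 : T TT 256 :=
  (.l (.s k42 k234 7 (.s k63 k21 6 (.s k47 k31 3 (.s k32 k37 2 (.s k101 k239 10 (.s k224 k165 10 (.d
  k96 k111 k160 2 7))))))))

def t10_85_24 : T TT 256 :=
  (.l (.s k42 k234 7 (.s k63 k21 6 (.s k47 k31 3 (.s k32 k37 2 (.s k101 k239 10 (.s k224 k165 10 (.d
  k96 k111 k160 2 7))))))))

def t10_85_25 : T TT 256 :=
  (.l (.s k42 k234 7 (.s k63 k21 6 (.s k47 k31 3 (.s k32 k37 2 (.s k101 k239 10 (.s k224 k165 10 (.d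
  k96 k111 k160 2 7))))))))

def t10_85_26 : T TT 256 :=
  (.f k42 k234 7 (.f k63 k21 6 (.f k31 k47 3 (.f k149 k192 14 (.l (.s k191 k128 6 (.s k255 k127 7
  (.s k95 k175 11 (.s k159 k223 7 (.s k154 k144 2 (.s k138 k186 3 (.d k207 k111 k69 11
  10))))))))))))

def t10_85_27 : T TT 256 :=
  (.l (.s k42 k234 7 (.s k63 k21 6 (.s k47 k31 3 (.s k32 k37 2 (.s k101 k239 10 (.s k224 k165 10 (.d
  k96 k111 k160 2 7))))))))

def t10_85_28 : T TT 256 :=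
  (.l (.s k42 k234 7 (.s k63 k21 6 (.s k47 k31 3 (.s k32 k37 2 (.s k101 k239 10 (.s k224 k165 10 (.d
  k96 k111 k160 2 7))))))))

def t10_85_29 : T TT 256 :=
  (.l (.s k42 k234 7 (.s k63 k21 6 (.s k47 k31 3 (.s k32 k37 2 (.s k101 k239 10 (.s k224 k165 10 (.d
  k96 k111 k160 2 7))))))))

def t10_85_30 : T TT 256 :=
  (.l (.s k42 k234 7 (.s k63 k21 6 (.s k47 k31 3 (.s k32 k37 2 (.s k101 k239 10 (.s k224 k165 10 (.d
  k96 k111 k160 2 7))))))))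

def t10_85_31 : T TT 256 :=
  (.f k42 k234 7 (.f k63 k21 6 (.f k149 k192 14 (.f k191 k128 6 (.f k255 k127 7 (.f k95 k175 11 (.q
  k48 [(.s k53 k58 2 (.s k101 k197 11 (.d k32 k16 k239 3 10))), (.s k26 k37 6 (.s k186 k117 10 (.s
  k154 k138 3 (.d k58 k53 k202 2 11)))), (.s k186 k117 10 (.s k154 k138 3 (.s k101 k207 14 (.d k32
  k16 k239 3 10))))] (.c k16 (.l (.s k26 k37 6 (.s k186 k117 10 (.s k154 k138 3 (.d k58 k53 k202 2
  11))))) (.c k26 (.l (.s k16 k32 3 (.s k58 k53 2 (.s k186 k117 10 (.d k154 k138 k202 3 11))))) (.c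
  k101 (.l (.s k58 k53 2 (.s k154 k202 11 (.d k186 k138 k117 3 10)))) (.c k202 (.l (.s k32 k16 3 (.s
  k26 k37 6 (.s k101 k239 10 (.d k53 k58 k197 2 11))))) .n)))))))))))

def t10_85_32 : T TT 256 :=
  (.f k42 k234 7 (.l (.s k63 k21 6 (.s k47 k31 3 (.s k165 k224 10 (.s k149 k192 14 (.s k191 k128 6
  (.s k255 k127 7 (.d k175 k160 k95 2 11)))))))))

def t10_85_33 : T TT 256 :=
  (.l (.s k42 k234 7 (.s k63 k21 6 (.s k47 k31 3 (.s k32 k37 2 (.s k101 k239 10 (.s k224 k165 10 (.d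
  k96 k111 k160 2 7))))))))

def t10_85_34 : T TT 256 :=
  (.l (.s k42 k234 7 (.s k63 k21 6 (.s k47 k31 3 (.s k32 k37 2 (.s k101 k239 10 (.s k224 k165 10 (.d
  k96 k111 k160 2 7))))))))

def t10_85_35 : T TT 256 :=
  (.l (.s k42 k234 7 (.s k63 k21 6 (.s k47 k31 3 (.s k32 k37 2 (.s k101 k239 10 (.s k224 k165 10 (.d
  k96 k111 k160 2 7))))))))

def t10_85_36 : T TT 256 :=
  (.l (.s k42 k234 7 (.s k63 k21 6 (.s k47 k31 3 (.s k32 k37 2 (.s k101 k239 10 (.s k224 k165 10 (.d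
  k96 k111 k160 2 7))))))))

def t10_85_37 : T TT 256 :=
  (.f k42 k234 7 (.l (.s k63 k21 6 (.s k47 k31 3 (.s k165 k224 10 (.s k149 k192 14 (.s k191 k128 6
  (.s k255 k127 7 (.d k175 k160 k95 2 11)))))))))

def t10_85_38 : T TT 256 :=
  (.l (.s k42 k234 7 (.s k63 k21 6 (.s k47 k31 3 (.s k32 k37 2 (.s k101 k239 10 (.s k224 k165 10 (.d
  k96 k111 k160 2 7))))))))

def t10_85_39 : T TT 256 :=
  (.l (.s k42 k234 7 (.s k63 k21 6 (.s k47 k31 3 (.s k32 k37 2 (.s k101 k239 10 (.s k224 k165 10 (.d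
  k96 k111 k160 2 7))))))))

def t10_85_40 : T TT 256 :=
  (.l (.s k42 k234 7 (.s k63 k21 6 (.s k47 k31 3 (.s k32 k37 2 (.s k101 k239 10 (.s k224 k165 10 (.d
  k96 k111 k160 2 7))))))))

def t10_85_41 : T TT 256 :=
  (.l (.s k42 k234 7 (.s k63 k21 6 (.s k47 k31 3 (.s k32 k37 2 (.s k101 k239 10 (.s k224 k165 10 (.d
  k96 k111 k160 2 7))))))))

def t10_85_42 : T TT 256 :=
  (.q k149 [(.s k192 k63 14 (.d k128 k191 k64 6 7)), (.s k63 k192 14 (.s k47 k31 3 (.s k165 k224 10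
  (.s k181 k133 3 (.s k240 k122 10 (.d k160 k80 k175 11 2))))))] (.c k26 (.q k58 [(.s k192 k63 14
  (.d k128 k191 k64 6 7)), (.s k154 k202 11 (.s k63 k192 14 (.s k48 k53 2 (.s k32 k16 3 (.d k101
  k207 k239 14 10))))), (.s k154 k202 11 (.s k128 k191 6 (.s k138 k186 3 (.s k207 k69 10 (.d k143
  k133 k79 2 7)))))] (.c k80 (.q k95 [(.s k192 k63 14 (.d k128 k191 k64 6 7)), (.s k175 k255 11 (.s
  k154 k202 11 (.s k191 k128 6 (.d k159 k144 k143 2 3)))), (.s k175 k255 11 (.s k63 k192 14 (.s k47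
  k31 3 (.d k165 k160 k224 2 10))))] (.c k154 (.q k218 [(.s k192 k63 14 (.d k128 k191 k64 6 7)), (.s
  k175 k255 11 (.s k63 k192 14 (.s k47 k31 3 (.d k165 k160 k224 2 10))))] (.c k16 (.q k223 [(.s k31
  k159 7 (.d k63 k47 k192 3 14)), (.s k175 k255 11 (.s k191 k128 6 (.d k159 k31 k143 7 3)))] (.c k21
  (.l (.s k31 k159 7 (.d k63 k47 k192 3 14))) (.c k31 (.q k21 [(.s k192 k63 14 (.d k128 k191 k64 6
  7)), (.s k255 k175 11 (.s k192 k63 14 (.d k213 k208 k234 2 6))), (.s k255 k175 11 (.s k128 k191 6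
  (.s k207 k239 3 (.s k138 k69 10 (.d k143 k133 k79 2 7)))))] (.c k144 (.l (.s k208 k213 2 (.s k192
  k63 14 (.d k128 k191 k64 6 7)))) (.c k208 (.q k144 [(.s k192 k63 14 (.d k128 k191 k64 6 7)), (.s
  k175 k255 11 (.s k160 k165 2 (.d k128 k176 k191 3 6))), (.s k175 k255 11 (.s k165 k160 2 (.s k133
  k181 3 (.d k192 k74 k63 10 14))))] .n) .n))) (.c k144 (.l (.s k208 k213 2 (.s k31 k159 7 (.d k63
  k47 k192 3 14)))) (.c k159 (.l (.s k192 k63 14 (.d k128 k191 k64 6 7))) (.c k208 (.q k144 [(.s k31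
  k159 7 (.d k63 k47 k192 3 14)), (.s k175 k255 11 (.s k191 k128 6 (.d k159 k31 k143 7 3)))] (.c k21
  (.l (.s k31 k159 7 (.d k63 k47 k192 3 14))) (.c k31 (.q k21 [(.s k192 k63 14 (.d k128 k191 k64 6
  7)), (.s k175 k255 11 (.s k160 k165 2 (.d k128 k176 k191 3 6))), (.s k175 k255 11 (.s k165 k160 2
  (.s k133 k181 3 (.d k192 k74 k63 10 14))))] .n) (.c k159 (.l (.s k192 k63 14 (.d k128 k191 k64 6
  7))) .n)))) .n)))))) (.c k63 (.l (.s k175 k255 11 (.s k165 k160 2 (.s k133 k181 3 (.s k192 k74 10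
  (.d k128 k191 k64 6 7)))))) (.c k192 (.l (.s k175 k255 11 (.s k191 k128 6 (.s k159 k143 3 (.s k165
  k160 2 (.s k47 k224 10 (.d k31 k63 k223 3 7))))))) (.c k223 (.q k16 [(.s k192 k63 14 (.d k128 k191
  k64 6 7)), (.s k32 k48 3 (.s k175 k255 11 (.s k160 k165 2 (.s k96 k224 7 (.d k101 k239 k111 10
  2)))))] .n) .n))))) (.c k218 (.l (.s k154 k202 11 (.s k192 k63 14 (.d k128 k191 k64 6 7)))) .n)))
  (.c k95 (.q k80 [(.s k192 k63 14 (.d k128 k191 k64 6 7)), (.s k160 k240 11 (.s k154 k202 11 (.s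
  k128 k191 6 (.d k144 k159 k176 2 3)))), (.s k160 k240 11 (.s k63 k192 14 (.s k47 k31 3 (.d k165
  k224 k175 10 2))))] (.c k154 (.q k218 [(.s k192 k63 14 (.d k128 k191 k64 6 7)), (.s k160 k240 11
  (.s k63 k192 14 (.s k47 k31 3 (.d k165 k224 k175 10 2)))), (.s k240 k160 11 (.s k128 k191 6 (.s
  k207 k229 6 (.s k138 k69 10 (.d k143 k133 k79 2 7)))))] (.c k16 (.q k223 [(.s k192 k63 14 (.d k128
  k191 k64 6 7)), (.s k240 k160 11 (.s k192 k63 14 (.d k208 k213 k224 2 3))), (.s k240 k160 11 (.s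
  k128 k191 6 (.s k207 k229 6 (.s k138 k69 10 (.d k143 k133 k79 2 7)))))] (.c k21 (.q k31 [(.d k63
  k47 k192 3 14), (.s k240 k160 11 (.s k128 k191 6 (.s k192 k64 7 (.d k208 k213 k224 2 3))))] (.c
  k192 (.l (.s k160 k240 11 (.s k47 k63 3 (.d k165 k224 k175 10 2)))) .n)) (.c k31 (.q k21 [(.s k192
  k63 14 (.d k128 k191 k64 6 7)), (.s k240 k160 11 (.s k192 k63 14 (.d k208 k213 k224 2 3))), (.s
  k240 k160 11 (.s k128 k191 6 (.s k207 k229 6 (.s k138 k69 10 (.d k143 k133 k79 2 7)))))] .n) .n)))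
  (.c k223 (.q k16 [(.s k192 k63 14 (.d k128 k191 k64 6 7)), (.s k48 k32 3 (.d k63 k53 k192 2 14)),
  (.s k160 k240 11 (.s k128 k191 6 (.d k144 k176 k208 3 7)))] (.c k31 (.q k159 [(.s k192 k63 14 (.d
  k128 k191 k64 6 7)), (.s k48 k32 3 (.d k63 k53 k192 2 14)), (.s k160 k240 11 (.s k128 k191 6 (.d
  k144 k176 k208 3 7)))] .n) (.c k159 (.q k31 [(.d k63 k47 k192 3 14), (.s k160 k240 11 (.s k144
  k208 7 (.d k128 k176 k191 3 6)))] (.c k192 (.l (.s k48 k32 3 (.d k63 k47 k53 3 2))) .n)) .n)))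
  .n))) (.c k218 (.l (.s k154 k202 11 (.s k192 k63 14 (.d k128 k191 k64 6 7)))) .n))) (.c k154 (.q
  k218 [(.s k192 k63 14 (.d k128 k191 k64 6 7)), (.s k63 k192 14 (.s k47 k31 3 (.s k165 k224 10 (.s
  k181 k133 3 (.s k240 k122 10 (.d k160 k80 k175 11 2))))))] (.c k16 (.q k223 [(.s k192 k63 14 (.d
  k128 k191 k64 6 7)), (.s k192 k63 14 (.s k133 k74 10 (.s k165 k181 3 (.s k224 k47 10 (.d k208 k240
  k213 3 2)))))] (.c k21 (.q k31 [(.d k63 k47 k192 3 14), (.s k95 k159 7 (.s k255 k175 11 (.s k213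
  k208 2 (.s k192 k234 6 (.d k128 k191 k64 6 7)))))] (.c k80 (.l (.s k95 k159 7 (.d k63 k47 k192 3
  14))) (.c k95 (.q k80 [(.d k63 k47 k192 3 14), (.s k240 k160 11 (.s k128 k191 6 (.s k192 k64 7 (.d
  k208 k213 k224 2 3))))] (.c k192 (.l (.s k160 k240 11 (.s k47 k63 3 (.d k165 k224 k175 10 2))))
  .n)) (.c k192 (.l (.s k47 k63 3 (.s k95 k159 7 (.s k175 k255 11 (.d k165 k160 k224 2 10)))))
  .n)))) (.c k31 (.q k21 [(.s k192 k63 14 (.d k128 k191 k64 6 7)), (.s k192 k63 14 (.s k133 k74 10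
  (.s k165 k181 3 (.s k224 k47 10 (.d k208 k240 k213 3 2)))))] (.c k63 (.l (.s k128 k191 6 (.s k192
  k64 7 (.s k133 k74 10 (.s k165 k181 3 (.s k224 k47 10 (.d k208 k240 k213 3 2))))))) (.c k80 (.q
  k95 [(.s k192 k63 14 (.d k128 k191 k64 6 7)), (.s k255 k175 11 (.s k192 k63 14 (.d k213 k208 k234
  2 6))), (.s k255 k175 11 (.s k128 k191 6 (.s k207 k239 3 (.s k138 k69 10 (.d k143 k133 k79 2
  7)))))] (.c k144 (.l (.s k208 k213 2 (.s k192 k63 14 (.d k128 k191 k64 6 7)))) (.c k208 (.q k144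
  [(.s k192 k63 14 (.d k128 k191 k64 6 7)), (.s k175 k255 11 (.s k160 k165 2 (.d k128 k176 k191 3
  6))), (.s k175 k255 11 (.s k165 k160 2 (.s k133 k181 3 (.d k192 k74 k63 10 14))))] .n) .n))) (.c
  k95 (.q k80 [(.s k192 k63 14 (.d k128 k191 k64 6 7)), (.s k240 k160 11 (.s k192 k63 14 (.d k208
  k213 k224 2 3))), (.s k240 k160 11 (.s k128 k191 6 (.s k207 k229 6 (.s k138 k69 10 (.d k143 k133
  k79 2 7)))))] .n) (.c k192 (.q k255 [(.s k191 k128 6 (.s k207 k239 3 (.s k143 k79 7 (.d k175 k95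
  k159 11 3)))), (.s k239 k207 3 (.s k101 k32 10 (.s k111 k96 2 (.d k175 k47 k95 7 11)))), (.s k191
  k128 6 (.s k63 k127 7 (.s k48 k53 2 (.s k186 k117 10 (.s k122 k250 7 (.d k181 k176 k240 2
  10))))))] (.c k80 (.l (.s k95 k175 11 (.s k128 k191 6 (.s k207 k239 3 (.s k138 k69 10 (.d k143
  k133 k79 2 7)))))) (.c k95 (.q k80 [(.s k240 k160 11 (.d k207 k239 k229 3 6)), (.s k128 k191 6 (.s
  k207 k239 3 (.s k138 k69 10 (.d k143 k133 k79 2 7)))), (.s k240 k160 11 (.s k191 k128 6 (.s k63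
  k127 7 (.s k122 k181 10 (.d k250 k245 k186 2 7)))))] .n) (.c k101 (.l (.s k95 k175 11 (.s k191
  k128 6 (.s k127 k63 7 (.s k79 k111 3 (.d k207 k239 k143 3 7)))))) .n)))) .n))))) (.c k63 (.l (.s
  k128 k191 6 (.s k192 k64 7 (.s k133 k74 10 (.s k165 k181 3 (.s k224 k47 10 (.d k208 k240 k213 3
  2))))))) (.c k80 (.q k95 [(.s k31 k159 7 (.d k63 k47 k192 3 14)), (.s k175 k255 11 (.s k191 k128 6
  (.d k159 k31 k143 7 3)))] (.c k21 (.l (.s k31 k159 7 (.d k63 k47 k192 3 14))) (.c k31 (.q k21 [(.s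
  k192 k63 14 (.d k128 k191 k64 6 7)), (.s k255 k175 11 (.s k192 k63 14 (.d k213 k208 k234 2 6))),
  (.s k255 k175 11 (.s k128 k191 6 (.s k207 k239 3 (.s k138 k69 10 (.d k143 k133 k79 2 7)))))] (.c
  k144 (.l (.s k208 k213 2 (.s k192 k63 14 (.d k128 k191 k64 6 7)))) (.c k208 (.q k144 [(.s k192 k63
  14 (.d k128 k191 k64 6 7)), (.s k175 k255 11 (.s k160 k165 2 (.d k128 k176 k191 3 6))), (.s k175
  k255 11 (.s k165 k160 2 (.s k133 k181 3 (.d k192 k74 k63 10 14))))] .n) .n))) (.c k144 (.l (.s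
  k208 k213 2 (.s k31 k159 7 (.d k63 k47 k192 3 14)))) (.c k159 (.l (.s k192 k63 14 (.d k128 k191
  k64 6 7))) (.c k208 (.q k144 [(.s k31 k159 7 (.d k63 k47 k192 3 14)), (.s k175 k255 11 (.s k191
  k128 6 (.d k159 k31 k143 7 3)))] (.c k21 (.l (.s k31 k159 7 (.d k63 k47 k192 3 14))) (.c k31 (.q
  k21 [(.s k192 k63 14 (.d k128 k191 k64 6 7)), (.s k175 k255 11 (.s k160 k165 2 (.d k128 k176 k191
  3 6))), (.s k175 k255 11 (.s k165 k160 2 (.s k133 k181 3 (.d k192 k74 k63 10 14))))] .n) (.c k159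
  (.l (.s k192 k63 14 (.d k128 k191 k64 6 7))) .n)))) .n)))))) (.c k95 (.q k80 [(.s k192 k63 14 (.d
  k128 k191 k64 6 7)), (.s k240 k160 11 (.s k192 k63 14 (.d k208 k213 k224 2 3))), (.s k240 k160 11
  (.s k128 k191 6 (.s k207 k229 6 (.s k138 k69 10 (.d k143 k133 k79 2 7)))))] (.c k21 (.q k31 [(.d
  k63 k47 k192 3 14), (.s k240 k160 11 (.s k128 k191 6 (.s k192 k64 7 (.d k208 k213 k224 2 3))))]
  (.c k192 (.l (.s k160 k240 11 (.s k47 k63 3 (.d k165 k224 k175 10 2)))) .n)) (.c k31 (.q k21 [(.s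
  k192 k63 14 (.d k128 k191 k64 6 7)), (.s k240 k160 11 (.s k192 k63 14 (.d k208 k213 k224 2 3))),
  (.s k240 k160 11 (.s k128 k191 6 (.s k207 k229 6 (.s k138 k69 10 (.d k143 k133 k79 2 7)))))] .n)
  .n))) (.c k192 (.q k31 [(.s k47 k63 3 (.s k165 k224 10 (.s k175 k160 2 (.d k95 k159 k255 7 11)))),
  (.s k95 k159 7 (.s k255 k175 11 (.s k207 k239 3 (.s k138 k69 10 (.s k143 k79 7 (.d k128 k191 k133
  6 2)))))), (.s k63 k47 3 (.s k53 k48 2 (.s k101 k197 11 (.s k191 k128 6 (.s k255 k127 7 (.d k239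
  k207 k32 3 10))))))] (.c k47 (.l (.s k95 k159 7 (.s k255 k175 11 (.s k191 k128 6 (.s k63 k127 7
  (.s k53 k48 2 (.s k101 k197 11 (.d k239 k207 k32 3 10)))))))) (.c k80 (.l (.s k95 k159 7 (.s k47
  k63 3 (.s k175 k255 11 (.d k165 k160 k224 2 10))))) (.c k95 (.q k80 [(.s k160 k240 11 (.s k165
  k175 2 (.d k47 k224 k63 10 3))), (.s k240 k160 11 (.s k128 k191 6 (.s k207 k229 6 (.s k138 k69 10
  (.d k143 k133 k79 2 7))))), (.s k63 k47 3 (.s k53 k48 2 (.s k101 k197 11 (.s k191 k128 6 (.s k255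
  k127 7 (.d k239 k207 k32 3 10))))))] .n) (.c k255 (.l (.s k47 k63 3 (.s k165 k224 10 (.s k191 k128
  6 (.s k175 k160 2 (.d k159 k143 k95 3 7)))))) .n))))) .n))))))) (.c k63 (.l (.s k128 k191 6 (.s
  k192 k64 7 (.s k133 k74 10 (.s k165 k181 3 (.s k224 k47 10 (.s k160 k175 2 (.d k240 k208 k80 3
  11)))))))) (.c k80 (.q k95 [(.s k192 k63 14 (.d k128 k191 k64 6 7)), (.s k175 k255 11 (.s k63 k192
  14 (.s k47 k31 3 (.d k165 k160 k224 2 10))))] (.c k16 (.q k223 [(.s k31 k159 7 (.d k63 k47 k192 3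
  14)), (.s k175 k255 11 (.s k191 k128 6 (.d k159 k31 k143 7 3)))] (.c k21 (.l (.s k31 k159 7 (.d
  k63 k47 k192 3 14))) (.c k31 (.q k21 [(.s k192 k63 14 (.d k128 k191 k64 6 7)), (.s k255 k175 11
  (.s k192 k63 14 (.d k213 k208 k234 2 6))), (.s k255 k175 11 (.s k128 k191 6 (.s k207 k239 3 (.s
  k138 k69 10 (.d k143 k133 k79 2 7)))))] (.c k144 (.l (.s k208 k213 2 (.s k192 k63 14 (.d k128 k191
  k64 6 7)))) (.c k208 (.q k144 [(.s k192 k63 14 (.d k128 k191 k64 6 7)), (.s k175 k255 11 (.s k160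
  k165 2 (.d k128 k176 k191 3 6))), (.s k175 k255 11 (.s k165 k160 2 (.s k133 k181 3 (.d k192 k74
  k63 10 14))))] .n) .n))) (.c k144 (.l (.s k208 k213 2 (.s k31 k159 7 (.d k63 k47 k192 3 14)))) (.c
  k159 (.l (.s k192 k63 14 (.d k128 k191 k64 6 7))) (.c k208 (.q k144 [(.s k31 k159 7 (.d k63 k47
  k192 3 14)), (.s k175 k255 11 (.s k191 k128 6 (.d k159 k31 k143 7 3)))] (.c k21 (.l (.s k31 k159 7
  (.d k63 k47 k192 3 14))) (.c k31 (.q k21 [(.s k192 k63 14 (.d k128 k191 k64 6 7)), (.s k175 k255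
  11 (.s k160 k165 2 (.d k128 k176 k191 3 6))), (.s k175 k255 11 (.s k165 k160 2 (.s k133 k181 3 (.d
  k192 k74 k63 10 14))))] .n) (.c k159 (.l (.s k192 k63 14 (.d k128 k191 k64 6 7))) .n)))) .n))))))
  (.c k63 (.l (.s k175 k255 11 (.s k165 k160 2 (.s k133 k181 3 (.s k192 k74 10 (.d k128 k191 k64 6
  7)))))) (.c k192 (.l (.s k175 k255 11 (.s k191 k128 6 (.s k159 k143 3 (.s k165 k160 2 (.s k47 k224
  10 (.d k31 k63 k223 3 7))))))) (.c k223 (.q k16 [(.s k192 k63 14 (.d k128 k191 k64 6 7)), (.s k32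
  k48 3 (.s k175 k255 11 (.s k160 k165 2 (.s k96 k224 7 (.d k101 k239 k111 10 2)))))] .n) .n)))))
  (.c k95 (.q k80 [(.s k192 k63 14 (.d k128 k191 k64 6 7)), (.s k160 k240 11 (.s k63 k192 14 (.s k47
  k31 3 (.d k165 k224 k175 10 2)))), (.s k240 k160 11 (.s k128 k191 6 (.s k207 k229 6 (.s k138 k69
  10 (.d k143 k133 k79 2 7)))))] (.c k16 (.q k223 [(.s k192 k63 14 (.d k128 k191 k64 6 7)), (.s k240
  k160 11 (.s k192 k63 14 (.d k208 k213 k224 2 3))), (.s k240 k160 11 (.s k128 k191 6 (.s k207 k229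
  6 (.s k138 k69 10 (.d k143 k133 k79 2 7)))))] (.c k21 (.q k31 [(.d k63 k47 k192 3 14), (.s k240
  k160 11 (.s k128 k191 6 (.s k192 k64 7 (.d k208 k213 k224 2 3))))] (.c k192 (.l (.s k160 k240 11
  (.s k47 k63 3 (.d k165 k224 k175 10 2)))) .n)) (.c k31 (.q k21 [(.s k192 k63 14 (.d k128 k191 k64
  6 7)), (.s k240 k160 11 (.s k192 k63 14 (.d k208 k213 k224 2 3))), (.s k240 k160 11 (.s k128 k191
  6 (.s k207 k229 6 (.s k138 k69 10 (.d k143 k133 k79 2 7)))))] .n) .n))) (.c k223 (.q k16 [(.s k192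
  k63 14 (.d k128 k191 k64 6 7)), (.s k48 k32 3 (.d k63 k53 k192 2 14)), (.s k160 k240 11 (.s k128
  k191 6 (.d k144 k176 k208 3 7)))] (.c k31 (.q k159 [(.s k192 k63 14 (.d k128 k191 k64 6 7)), (.s
  k48 k32 3 (.d k63 k53 k192 2 14)), (.s k160 k240 11 (.s k128 k191 6 (.d k144 k176 k208 3 7)))] .n)
  (.c k159 (.q k31 [(.d k63 k47 k192 3 14), (.s k160 k240 11 (.s k144 k208 7 (.d k128 k176 k191 3
  6)))] (.c k192 (.l (.s k48 k32 3 (.d k63 k47 k53 3 2))) .n)) .n))) .n))) (.c k192 (.q k95 [(.s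
  k175 k255 11 (.s k191 k128 6 (.s k143 k159 3 (.s k207 k79 7 (.s k240 k229 6 (.d k160 k165 k80 2
  11)))))), (.s k255 k175 11 (.s k191 k128 6 (.s k63 k127 7 (.s k48 k53 2 (.s k186 k117 10 (.s k122
  k250 7 (.d k181 k176 k240 2 10))))))), (.s k175 k255 11 (.s k165 k160 2 (.s k47 k224 10 (.s k63
  k31 3 (.s k111 k239 7 (.s k53 k48 2 (.d k101 k96 k197 2 11)))))))] (.c k16 (.q k223 [(.s k175 k255
  11 (.s k191 k128 6 (.d k159 k31 k143 7 3))), (.s k175 k255 11 (.s k31 k159 7 (.s k165 k160 2 (.d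
  k47 k63 k224 3 10)))), (.s k255 k175 11 (.s k191 k128 6 (.s k127 k63 7 (.s k79 k111 3 (.d k207
  k239 k143 3 7)))))] (.c k21 (.l (.s k31 k159 7 (.s k47 k63 3 (.s k175 k255 11 (.d k165 k160 k224 2
  10))))) (.c k31 (.q k21 [(.s k255 k175 11 (.s k191 k128 6 (.s k127 k63 7 (.s k79 k111 3 (.d k207
  k239 k143 3 7))))), (.s k255 k175 11 (.s k191 k128 6 (.s k63 k127 7 (.s k48 k53 2 (.s k186 k117 10
  (.s k122 k250 7 (.d k181 k176 k240 2 10))))))), (.s k255 k175 11 (.s k128 k191 6 (.s k207 k239 3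
  (.s k138 k69 10 (.d k143 k133 k79 2 7)))))] (.c k128 (.l (.s k255 k175 11 (.s k207 k239 3 (.s k79
  k143 7 (.s k111 k127 3 (.s k101 k96 2 (.s k53 k197 11 (.d k63 k48 k159 2 11)))))))) (.c k175 (.q
  k255 [(.s k191 k128 6 (.s k127 k63 7 (.s k79 k111 3 (.d k207 k239 k143 3 7)))), (.s k239 k207 3
  (.s k101 k32 10 (.s k197 k53 11 (.s k213 k208 2 (.s k229 k245 3 (.s k224 k234 2 (.d k165 k37 k47 7
  10))))))), (.s k191 k128 6 (.s k63 k127 7 (.s k48 k53 2 (.s k186 k117 10 (.s k122 k250 7 (.d k181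
  k176 k240 2 10))))))] .n) (.c k191 (.f k255 k175 11 (.l (.s k239 k207 3 (.s k101 k32 10 (.s k197
  k53 11 (.s k213 k208 2 (.s k229 k245 3 (.s k224 k234 2 (.d k165 k37 k47 7 10))))))))) (.c k255 (.q
  k207 [(.s k138 k69 10 (.s k128 k191 6 (.d k143 k133 k79 2 7))), (.s k240 k229 6 (.s k160 k80 11
  (.s k165 k175 2 (.s k181 k133 3 (.s k122 k63 10 (.s k186 k250 7 (.d k191 k176 k128 2 6))))))), (.s
  k138 k69 10 (.s k143 k79 7 (.s k133 k128 2 (.s k165 k181 3 (.s k160 k175 2 (.d k240 k229 k80 6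
  11)))))), (.s k79 k143 7 (.s k111 k127 3 (.s k63 k159 11 (.s k53 k48 2 (.d k101 k96 k197 2
  11)))))] (.c k213 (.q k234 [(.s k138 k69 10 (.s k128 k191 6 (.d k143 k133 k79 2 7))), (.s k250
  k202 3 (.s k122 k186 7 (.s k240 k229 6 (.s k160 k80 11 (.s k181 k63 10 (.d k165 k175 k133 2
  3)))))), (.s k138 k69 10 (.s k143 k79 7 (.s k133 k128 2 (.s k165 k181 3 (.s k224 k47 10 (.d k229
  k239 k240 2 6)))))), (.s k79 k143 7 (.s k111 k127 3 (.s k63 k159 11 (.s k53 k48 2 (.d k101 k96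
  k197 2 11)))))] (.c k117 (.l (.s k143 k79 7 (.s k128 k191 6 (.d k138 k133 k69 2 10)))) .n)) (.c
  k234 (.l (.s k213 k208 2 (.s k138 k69 10 (.s k143 k79 7 (.d k128 k133 k191 2 6))))) .n))) .n)))))
  (.c k159 (.l (.s k255 k175 11 (.s k191 k128 6 (.s k127 k63 7 (.s k79 k111 3 (.d k207 k239 k143 3
  7)))))) (.c k175 (.l (.s k31 k159 7 (.s k63 k47 3 (.s k53 k48 2 (.s k101 k197 11 (.s k191 k128 6
  (.s k127 k255 7 (.d k111 k96 k79 2 3)))))))) (.c k255 (.q k207 [(.s k79 k143 7 (.s k111 k127 3 (.d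
  k159 k31 k63 7 11))), (.s k138 k69 10 (.s k143 k79 7 (.d k128 k133 k191 2 6))), (.s k240 k229 6
  (.s k160 k80 11 (.s k165 k175 2 (.s k47 k224 10 (.d k31 k63 k159 3 7)))))] (.c k21 (.l (.s k31
  k159 7 (.s k138 k69 10 (.s k143 k79 7 (.d k128 k133 k191 2 6))))) (.c k31 (.q k21 [(.s k138 k69 10
  (.s k128 k191 6 (.d k143 k133 k79 2 7))), (.s k240 k229 6 (.s k160 k80 11 (.s k165 k175 2 (.s k181
  k133 3 (.s k122 k63 10 (.s k186 k250 7 (.d k191 k176 k128 2 6))))))), (.s k138 k69 10 (.s k143 k79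
  7 (.s k133 k128 2 (.s k165 k181 3 (.s k160 k175 2 (.d k240 k229 k80 6 11)))))), (.s k79 k143 7 (.s
  k111 k127 3 (.s k63 k159 11 (.s k53 k48 2 (.d k101 k96 k197 2 11)))))] (.c k213 (.q k234 [(.s k138
  k69 10 (.s k128 k191 6 (.d k143 k133 k79 2 7))), (.s k250 k202 3 (.s k122 k186 7 (.s k240 k229 6
  (.s k160 k80 11 (.s k181 k63 10 (.d k165 k175 k133 2 3)))))), (.s k138 k69 10 (.s k143 k79 7 (.s
  k133 k128 2 (.s k165 k181 3 (.s k224 k47 10 (.d k229 k239 k240 2 6)))))), (.s k79 k143 7 (.s k111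
  k127 3 (.s k63 k159 11 (.s k53 k48 2 (.d k101 k96 k197 2 11)))))] (.c k117 (.l (.s k143 k79 7 (.s
  k128 k191 6 (.d k138 k133 k69 2 10)))) .n)) (.c k234 (.l (.s k213 k208 2 (.s k138 k69 10 (.s k143
  k79 7 (.d k128 k133 k191 2 6))))) .n))) (.c k213 (.q k234 [(.s k79 k143 7 (.s k111 k127 3 (.d k159
  k31 k63 7 11))), (.s k138 k69 10 (.s k143 k79 7 (.d k128 k133 k191 2 6))), (.s k31 k159 7 (.s k229
  k240 6 (.s k224 k239 2 (.d k47 k63 k165 3 10))))] (.c k21 (.l (.s k31 k159 7 (.s k138 k69 10 (.s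
  k143 k79 7 (.d k128 k133 k191 2 6))))) (.c k31 (.q k21 [(.s k138 k69 10 (.s k128 k191 6 (.d k143
  k133 k79 2 7))), (.s k250 k202 3 (.s k122 k186 7 (.s k240 k229 6 (.s k160 k80 11 (.s k181 k63 10
  (.d k165 k175 k133 2 3)))))), (.s k138 k69 10 (.s k143 k79 7 (.s k133 k128 2 (.s k165 k181 3 (.s
  k224 k47 10 (.d k229 k239 k240 2 6)))))), (.s k79 k143 7 (.s k111 k127 3 (.s k63 k159 11 (.s k53
  k48 2 (.d k101 k96 k197 2 11)))))] (.c k117 (.l (.s k143 k79 7 (.s k128 k191 6 (.d k138 k133 k69 2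
  10)))) .n)) .n))) (.c k234 (.l (.s k213 k208 2 (.s k138 k69 10 (.s k143 k79 7 (.d k128 k133 k191 2
  6))))) .n))))) .n)))))) (.c k101 (.l (.s k175 k255 11 (.s k191 k128 6 (.s k143 k159 3 (.s k160
  k165 2 (.s k240 k80 11 (.d k207 k229 k79 6 7))))))) (.c k175 (.q k130 [(.s k195 k65 8 (.s k150
  k190 5 (.s k151 k148 0 (.s k107 k63 13 (.d k105 k104 k60 0 14))))), (.s k128 k191 6 (.s k131 k129
  0 (.s k150 k190 5 (.s k188 k169 6 (.d k148 k151 k168 0 5))))), (.s k195 k65 8 (.s k135 k75 9 (.s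
  k128 k191 6 (.s k131 k129 0 (.s k143 k139 1 (.s k207 k79 7 (.d k138 k133 k69 2 10)))))))] (.c k16
  (.q k223 [(.s k195 k65 8 (.s k150 k190 5 (.s k151 k148 0 (.s k107 k63 13 (.d k105 k104 k60 0
  14))))), (.s k128 k191 6 (.s k131 k129 0 (.s k150 k190 5 (.s k188 k169 6 (.d k148 k151 k168 0
  5))))), (.s k195 k65 8 (.s k135 k75 9 (.s k31 k159 7 (.s k63 k47 3 (.s k151 k107 13 (.s k91 k211 9
  (.d k167 k183 k243 3 13)))))))] (.c k21 (.l (.s k31 k159 7 (.s k195 k65 8 (.s k63 k47 3 (.s k151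
  k107 13 (.d k150 k148 k190 0 5)))))) (.c k31 (.q k21 [(.s k195 k65 8 (.s k150 k190 5 (.s k151 k148
  0 (.s k107 k63 13 (.d k105 k104 k60 0 14))))), (.s k128 k191 6 (.s k131 k129 0 (.s k150 k190 5 (.s
  k188 k169 6 (.d k148 k151 k168 0 5))))), (.s k195 k65 8 (.s k135 k75 9 (.s k128 k191 6 (.s k131
  k129 0 (.s k143 k139 1 (.s k207 k79 7 (.d k138 k133 k69 2 10)))))))] .n) (.c k151 (.l (.s k195 k65
  8 (.s k135 k75 9 (.s k31 k159 7 (.s k47 k63 3 (.s k165 k224 10 (.d k150 k180 k190 4 5)))))))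
  .n)))) (.c k223 (.q k16 [(.s k195 k65 8 (.s k150 k190 5 (.s k151 k148 0 (.s k107 k63 13 (.d k105
  k104 k60 0 14))))), (.s k48 k32 3 (.s k195 k65 8 (.s k146 k97 12 (.s k81 k211 8 (.d k162 k178 k243
  3 12))))), (.s k128 k191 6 (.s k131 k129 0 (.s k150 k190 5 (.s k188 k169 6 (.d k148 k151 k168 0
  5)))))] .n) .n))) (.c k223 (.q k16 [(.s k255 k175 11 (.s k191 k128 6 (.s k63 k127 7 (.d k48 k53
  k32 2 3)))), (.s k32 k48 3 (.s k175 k255 11 (.s k160 k165 2 (.s k96 k224 7 (.d k101 k239 k111 10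
  2))))), (.s k175 k255 11 (.s k128 k191 6 (.s k160 k165 2 (.s k80 k240 11 (.d k144 k176 k208 3
  7)))))] (.c k175 (.l (.s k48 k32 3 (.s k63 k53 2 (.s k191 k128 6 (.s k255 k127 7 (.s k186 k117 10
  (.s k122 k250 7 (.d k181 k176 k240 2 10)))))))) (.c k255 (.l (.s k48 k32 3 (.s k63 k53 2 (.s k47
  k31 3 (.s k165 k224 10 (.s k181 k133 3 (.s k240 k122 10 (.d k160 k175 k80 2 11)))))))) .n))) (.c
  k240 (.l (.s k175 k255 11 (.s k191 k128 6 (.s k143 k159 3 (.s k79 k207 7 (.s k111 k127 3 (.s k239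
  k47 7 (.d k101 k32 k96 10 2)))))))) (.c k255 (.q k207 [(.s k138 k69 10 (.s k128 k191 6 (.d k143
  k133 k79 2 7))), (.s k240 k229 6 (.s k160 k80 11 (.s k165 k175 2 (.s k47 k224 10 (.s k63 k31 3 (.d
  k181 k133 k122 3 10))))))] (.c k16 (.q k223 [(.s k79 k143 7 (.s k111 k127 3 (.d k159 k31 k63 7
  11))), (.s k138 k69 10 (.s k143 k79 7 (.d k128 k133 k191 2 6))), (.s k240 k229 6 (.s k160 k80 11
  (.s k165 k175 2 (.s k47 k224 10 (.d k31 k63 k159 3 7)))))] (.c k21 (.l (.s k31 k159 7 (.s k138 k69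
  10 (.s k143 k79 7 (.d k128 k133 k191 2 6))))) (.c k31 (.q k21 [(.s k138 k69 10 (.s k128 k191 6 (.d
  k143 k133 k79 2 7))), (.s k240 k229 6 (.s k160 k80 11 (.s k165 k175 2 (.s k181 k133 3 (.s k122 k63
  10 (.s k186 k250 7 (.d k191 k176 k128 2 6))))))), (.s k138 k69 10 (.s k143 k79 7 (.s k133 k128 2
  (.s k165 k181 3 (.s k160 k175 2 (.d k240 k229 k80 6 11)))))), (.s k79 k143 7 (.s k111 k127 3 (.s
  k63 k159 11 (.s k53 k48 2 (.d k101 k96 k197 2 11)))))] (.c k213 (.q k234 [(.s k138 k69 10 (.s k128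
  k191 6 (.d k143 k133 k79 2 7))), (.s k250 k202 3 (.s k122 k186 7 (.s k240 k229 6 (.s k160 k80 11
  (.s k181 k63 10 (.d k165 k175 k133 2 3)))))), (.s k138 k69 10 (.s k143 k79 7 (.s k133 k128 2 (.s
  k165 k181 3 (.s k224 k47 10 (.d k229 k239 k240 2 6)))))), (.s k79 k143 7 (.s k111 k127 3 (.s k63
  k159 11 (.s k53 k48 2 (.d k101 k96 k197 2 11)))))] (.c k117 (.l (.s k143 k79 7 (.s k128 k191 6 (.d
  k138 k133 k69 2 10)))) .n)) (.c k234 (.l (.s k213 k208 2 (.s k138 k69 10 (.s k143 k79 7 (.d k128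
  k133 k191 2 6))))) .n))) (.c k213 (.q k234 [(.s k79 k143 7 (.s k111 k127 3 (.d k159 k31 k63 7
  11))), (.s k138 k69 10 (.s k143 k79 7 (.d k128 k133 k191 2 6))), (.s k31 k159 7 (.s k229 k240 6
  (.s k224 k239 2 (.d k47 k63 k165 3 10))))] (.c k21 (.l (.s k31 k159 7 (.s k138 k69 10 (.s k143 k79
  7 (.d k128 k133 k191 2 6))))) (.c k31 (.q k21 [(.s k138 k69 10 (.s k128 k191 6 (.d k143 k133 k79 2
  7))), (.s k250 k202 3 (.s k122 k186 7 (.s k240 k229 6 (.s k160 k80 11 (.s k181 k63 10 (.d k165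
  k175 k133 2 3)))))), (.s k138 k69 10 (.s k143 k79 7 (.s k133 k128 2 (.s k165 k181 3 (.s k224 k47
  10 (.d k229 k239 k240 2 6)))))), (.s k79 k143 7 (.s k111 k127 3 (.s k63 k159 11 (.s k53 k48 2 (.d
  k101 k96 k197 2 11)))))] (.c k117 (.l (.s k143 k79 7 (.s k128 k191 6 (.d k138 k133 k69 2 10))))
  .n)) .n))) (.c k234 (.l (.s k213 k208 2 (.s k138 k69 10 (.s k143 k79 7 (.d k128 k133 k191 2 6)))))
  .n))))) (.c k63 (.l (.s k138 k69 10 (.s k143 k79 7 (.d k128 k133 k191 2 6)))) (.c k133 (.l (.s k79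
  k143 7 (.s k111 k127 3 (.s k63 k159 11 (.s k53 k48 2 (.d k101 k96 k197 2 11)))))) (.c k213 (.q
  k234 [(.s k138 k69 10 (.s k128 k191 6 (.d k143 k133 k79 2 7))), (.s k79 k143 7 (.s k111 k127 3 (.s
  k63 k159 11 (.s k47 k31 3 (.s k165 k224 10 (.d k175 k160 k239 2 7)))))), (.s k138 k69 10 (.s k143
  k79 7 (.s k133 k128 2 (.s k165 k181 3 (.s k224 k47 10 (.d k229 k239 k240 2 6)))))), (.s k250 k202
  3 (.s k122 k186 7 (.s k240 k229 6 (.s k160 k80 11 (.s k181 k63 10 (.d k165 k175 k133 2 3))))))]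
  (.c k16 (.q k223 [(.s k79 k143 7 (.s k111 k127 3 (.d k159 k31 k63 7 11))), (.s k138 k69 10 (.s
  k143 k79 7 (.d k128 k133 k191 2 6))), (.s k31 k159 7 (.s k229 k240 6 (.s k224 k239 2 (.d k47 k63
  k165 3 10))))] (.c k21 (.l (.s k31 k159 7 (.s k138 k69 10 (.s k143 k79 7 (.d k128 k133 k191 2
  6))))) (.c k31 (.q k21 [(.s k138 k69 10 (.s k128 k191 6 (.d k143 k133 k79 2 7))), (.s k250 k202 3
  (.s k122 k186 7 (.s k240 k229 6 (.s k160 k80 11 (.s k181 k63 10 (.d k165 k175 k133 2 3)))))), (.s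
  k138 k69 10 (.s k143 k79 7 (.s k133 k128 2 (.s k165 k181 3 (.s k224 k47 10 (.d k229 k239 k240 2
  6)))))), (.s k79 k143 7 (.s k111 k127 3 (.s k63 k159 11 (.s k53 k48 2 (.d k101 k96 k197 2 11)))))]
  (.c k117 (.l (.s k143 k79 7 (.s k128 k191 6 (.d k138 k133 k69 2 10)))) .n)) .n))) (.c k223 (.q k16
  [(.s k138 k69 10 (.s k128 k191 6 (.d k143 k133 k79 2 7))), (.s k32 k48 3 (.s k229 k240 6 (.d k239
  k224 k101 2 10))), (.s k48 k32 3 (.s k79 k143 7 (.s k63 k53 2 (.d k111 k127 k159 3 11))))] .n)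
  .n))) (.c k223 (.q k16 [(.s k138 k69 10 (.s k128 k191 6 (.d k143 k133 k79 2 7))), (.s k32 k48 3
  (.s k101 k239 10 (.s k96 k111 2 (.s k160 k224 7 (.d k240 k229 k80 6 11))))), (.s k48 k32 3 (.s k79
  k143 7 (.s k63 k53 2 (.d k111 k127 k159 3 11))))] (.c k213 (.q k234 [(.s k138 k69 10 (.s k128 k191
  6 (.d k143 k133 k79 2 7))), (.s k32 k48 3 (.s k229 k240 6 (.d k239 k224 k101 2 10))), (.s k48 k32
  3 (.s k79 k143 7 (.s k63 k53 2 (.d k111 k127 k159 3 11))))] .n) (.c k234 (.q k213 [(.s k138 k69 10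
  (.s k128 k191 6 (.d k143 k133 k79 2 7))), (.s k32 k48 3 (.s k101 k239 10 (.s k197 k53 11 (.d k229
  k245 k240 3 6)))), (.s k48 k32 3 (.s k79 k143 7 (.s k63 k53 2 (.d k111 k127 k159 3 11))))] .n)
  .n))) (.c k234 (.q k213 [(.s k138 k69 10 (.s k128 k191 6 (.d k143 k133 k79 2 7))), (.s k240 k229 6
  (.s k160 k80 11 (.s k165 k175 2 (.s k181 k133 3 (.s k63 k122 10 (.d k47 k224 k31 10 3))))))] (.c
  k16 (.l (.s k223 k208 2 (.s k138 k69 10 (.s k143 k79 7 (.d k128 k133 k191 2 6))))) (.c k63 (.l (.s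
  k138 k69 10 (.s k143 k79 7 (.d k128 k133 k191 2 6)))) (.c k133 (.l (.s k79 k143 7 (.s k111 k127 3
  (.s k223 k208 2 (.d k159 k63 k31 11 7))))) (.c k223 (.q k16 [(.s k138 k69 10 (.s k128 k191 6 (.d
  k143 k133 k79 2 7))), (.s k32 k48 3 (.s k101 k239 10 (.s k197 k53 11 (.d k229 k245 k240 3 6)))),
  (.s k48 k32 3 (.s k79 k143 7 (.s k63 k53 2 (.d k111 k127 k159 3 11))))] .n) .n))))) .n)))))))
  .n))))))) (.c k223 (.q k16 [(.s k192 k63 14 (.d k128 k191 k64 6 7)), (.s k48 k32 3 (.d k63 k53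
  k192 2 14)), (.s k32 k48 3 (.s k101 k239 10 (.s k96 k111 2 (.s k160 k224 7 (.s k128 k191 6 (.s
  k144 k176 3 (.d k80 k240 k208 11 7)))))))] (.c k80 (.q k95 [(.s k192 k63 14 (.d k128 k191 k64 6
  7)), (.s k32 k48 3 (.s k175 k255 11 (.s k160 k165 2 (.s k96 k224 7 (.d k101 k239 k111 10 2)))))]
  .n) (.c k95 (.q k80 [(.s k192 k63 14 (.d k128 k191 k64 6 7)), (.s k48 k32 3 (.d k63 k53 k192 2
  14)), (.s k160 k240 11 (.s k128 k191 6 (.d k144 k176 k208 3 7)))] (.c k31 (.q k159 [(.s k192 k63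
  14 (.d k128 k191 k64 6 7)), (.s k48 k32 3 (.d k63 k53 k192 2 14)), (.s k160 k240 11 (.s k128 k191
  6 (.d k144 k176 k208 3 7)))] .n) (.c k159 (.q k31 [(.d k63 k47 k192 3 14), (.s k160 k240 11 (.s
  k144 k208 7 (.d k128 k176 k191 3 6)))] (.c k192 (.l (.s k48 k32 3 (.d k63 k47 k53 3 2))) .n))
  .n))) .n))) .n))))))) (.c k218 (.l (.s k154 k202 11 (.s k192 k63 14 (.d k128 k191 k64 6 7))))
  .n))))) (.c k58 (.q k26 [(.s k128 k191 6 (.d k192 k64 k63 7 14)), (.s k48 k37 6 (.s k32 k16 3 (.s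
  k101 k239 10 (.s k96 k111 2 (.s k144 k192 11 (.d k154 k159 k207 2 14))))))] (.c k80 (.q k95 [(.s
  k128 k191 6 (.d k192 k64 k63 7 14)), (.s k37 k48 6 (.s k175 k255 11 (.s k165 k160 2 (.s k101 k229
  7 (.s k239 k32 10 (.d k47 k224 k111 10 7))))))] (.c k63 (.l (.s k175 k255 11 (.s k165 k160 2 (.s
  k133 k181 3 (.s k192 k74 10 (.d k128 k191 k64 6 7)))))) .n)) (.c k95 (.q k80 [(.s k128 k191 6 (.d
  k192 k64 k63 7 14)), (.s k160 k240 11 (.s k48 k37 6 (.s k32 k16 3 (.s k224 k96 7 (.d k165 k47 k175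
  10 2)))))] .n) (.c k192 (.q k95 [(.s k48 k37 6 (.s k32 k16 3 (.s k101 k239 10 (.s k111 k96 2 (.s
  k79 k127 3 (.d k207 k154 k143 14 7)))))), (.s k175 k255 11 (.s k191 k128 6 (.s k143 k159 3 (.s
  k165 k160 2 (.s k181 k133 3 (.d k176 k186 k154 2 6)))))), (.s k37 k48 6 (.s k175 k255 11 (.s k165
  k160 2 (.s k101 k229 7 (.s k239 k32 10 (.d k47 k224 k111 10 7))))))] .n) .n)))) (.c k63 (.l (.s
  k128 k191 6 (.s k192 k64 7 (.s k133 k74 10 (.s k165 k181 3 (.s k224 k47 10 (.s k160 k175 2 (.d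
  k240 k208 k80 3 11)))))))) (.c k80 (.q k95 [(.s k192 k63 14 (.d k128 k191 k64 6 7)), (.s k175 k255
  11 (.s k63 k192 14 (.s k47 k31 3 (.d k165 k160 k224 2 10)))), (.s k175 k255 11 (.s k191 k128 6 (.s
  k143 k159 3 (.s k165 k160 2 (.s k181 k133 3 (.d k176 k186 k154 2 6))))))] (.c k26 (.q k58 [(.s
  k192 k63 14 (.d k128 k191 k64 6 7)), (.s k175 k255 11 (.s k154 k202 11 (.s k191 k128 6 (.d k159
  k144 k143 2 3)))), (.s k175 k255 11 (.s k63 k192 14 (.s k47 k31 3 (.d k165 k160 k224 2 10))))] (.c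
  k154 (.q k218 [(.s k192 k63 14 (.d k128 k191 k64 6 7)), (.s k175 k255 11 (.s k63 k192 14 (.s k47
  k31 3 (.d k165 k160 k224 2 10))))] (.c k16 (.q k223 [(.s k31 k159 7 (.d k63 k47 k192 3 14)), (.s
  k175 k255 11 (.s k191 k128 6 (.d k159 k31 k143 7 3)))] (.c k21 (.l (.s k31 k159 7 (.d k63 k47 k192
  3 14))) (.c k31 (.q k21 [(.s k192 k63 14 (.d k128 k191 k64 6 7)), (.s k255 k175 11 (.s k192 k63 14
  (.d k213 k208 k234 2 6))), (.s k255 k175 11 (.s k128 k191 6 (.s k207 k239 3 (.s k138 k69 10 (.d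
  k143 k133 k79 2 7)))))] (.c k144 (.l (.s k208 k213 2 (.s k192 k63 14 (.d k128 k191 k64 6 7)))) (.c
  k208 (.q k144 [(.s k192 k63 14 (.d k128 k191 k64 6 7)), (.s k175 k255 11 (.s k160 k165 2 (.d k128
  k176 k191 3 6))), (.s k175 k255 11 (.s k165 k160 2 (.s k133 k181 3 (.d k192 k74 k63 10 14))))] .n)
  .n))) (.c k144 (.l (.s k208 k213 2 (.s k31 k159 7 (.d k63 k47 k192 3 14)))) (.c k159 (.l (.s k192
  k63 14 (.d k128 k191 k64 6 7))) (.c k208 (.q k144 [(.s k31 k159 7 (.d k63 k47 k192 3 14)), (.s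
  k175 k255 11 (.s k191 k128 6 (.d k159 k31 k143 7 3)))] (.c k21 (.l (.s k31 k159 7 (.d k63 k47 k192
  3 14))) (.c k31 (.q k21 [(.s k192 k63 14 (.d k128 k191 k64 6 7)), (.s k175 k255 11 (.s k160 k165 2
  (.d k128 k176 k191 3 6))), (.s k175 k255 11 (.s k165 k160 2 (.s k133 k181 3 (.d k192 k74 k63 10
  14))))] .n) (.c k159 (.l (.s k192 k63 14 (.d k128 k191 k64 6 7))) .n)))) .n)))))) (.c k63 (.l (.s
  k175 k255 11 (.s k165 k160 2 (.s k133 k181 3 (.s k192 k74 10 (.d k128 k191 k64 6 7)))))) (.c k192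
  (.l (.s k175 k255 11 (.s k191 k128 6 (.s k159 k143 3 (.s k165 k160 2 (.s k47 k224 10 (.d k31 k63
  k223 3 7))))))) (.c k223 (.q k16 [(.s k192 k63 14 (.d k128 k191 k64 6 7)), (.s k32 k48 3 (.s k175
  k255 11 (.s k160 k165 2 (.s k96 k224 7 (.d k101 k239 k111 10 2)))))] .n) .n))))) (.c k218 (.l (.s
  k154 k202 11 (.s k192 k63 14 (.d k128 k191 k64 6 7)))) .n))) (.c k58 (.q k26 [(.s k128 k191 6 (.d
  k192 k64 k63 7 14)), (.s k37 k48 6 (.s k175 k255 11 (.s k165 k160 2 (.s k101 k229 7 (.s k239 k32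
  10 (.d k47 k224 k111 10 7))))))] (.c k63 (.l (.s k175 k255 11 (.s k165 k160 2 (.s k133 k181 3 (.s
  k192 k74 10 (.d k128 k191 k64 6 7)))))) .n)) .n))) (.c k95 (.q k80 [(.s k192 k63 14 (.d k128 k191
  k64 6 7)), (.s k160 k240 11 (.s k63 k192 14 (.s k47 k31 3 (.d k165 k224 k175 10 2))))] (.c k26 (.q
  k58 [(.s k192 k63 14 (.d k128 k191 k64 6 7)), (.s k160 k240 11 (.s k154 k202 11 (.s k128 k191 6
  (.d k144 k159 k176 2 3)))), (.s k160 k240 11 (.s k63 k192 14 (.s k47 k31 3 (.d k165 k224 k175 10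
  2))))] (.c k154 (.q k218 [(.s k192 k63 14 (.d k128 k191 k64 6 7)), (.s k160 k240 11 (.s k63 k192
  14 (.s k47 k31 3 (.d k165 k224 k175 10 2)))), (.s k240 k160 11 (.s k128 k191 6 (.s k207 k229 6 (.s
  k138 k69 10 (.d k143 k133 k79 2 7)))))] (.c k16 (.q k223 [(.s k192 k63 14 (.d k128 k191 k64 6 7)),
  (.s k240 k160 11 (.s k192 k63 14 (.d k208 k213 k224 2 3))), (.s k240 k160 11 (.s k128 k191 6 (.s
  k207 k229 6 (.s k138 k69 10 (.d k143 k133 k79 2 7)))))] (.c k21 (.q k31 [(.d k63 k47 k192 3 14),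
  (.s k240 k160 11 (.s k128 k191 6 (.s k192 k64 7 (.d k208 k213 k224 2 3))))] (.c k192 (.l (.s k160
  k240 11 (.s k47 k63 3 (.d k165 k224 k175 10 2)))) .n)) (.c k31 (.q k21 [(.s k192 k63 14 (.d k128
  k191 k64 6 7)), (.s k240 k160 11 (.s k192 k63 14 (.d k208 k213 k224 2 3))), (.s k240 k160 11 (.s
  k128 k191 6 (.s k207 k229 6 (.s k138 k69 10 (.d k143 k133 k79 2 7)))))] .n) .n))) (.c k223 (.q k16
  [(.s k192 k63 14 (.d k128 k191 k64 6 7)), (.s k48 k32 3 (.d k63 k53 k192 2 14)), (.s k160 k240 11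
  (.s k128 k191 6 (.d k144 k176 k208 3 7)))] (.c k31 (.q k159 [(.s k192 k63 14 (.d k128 k191 k64 6
  7)), (.s k48 k32 3 (.d k63 k53 k192 2 14)), (.s k160 k240 11 (.s k128 k191 6 (.d k144 k176 k208 3
  7)))] .n) (.c k159 (.q k31 [(.d k63 k47 k192 3 14), (.s k160 k240 11 (.s k144 k208 7 (.d k128 k176
  k191 3 6)))] (.c k192 (.l (.s k48 k32 3 (.d k63 k47 k53 3 2))) .n)) .n))) .n))) (.c k218 (.l (.s
  k154 k202 11 (.s k192 k63 14 (.d k128 k191 k64 6 7)))) .n))) (.c k58 (.q k26 [(.s k128 k191 6 (.d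
  k192 k64 k63 7 14)), (.s k160 k240 11 (.s k48 k37 6 (.s k32 k16 3 (.s k224 k96 7 (.d k165 k47 k175
  10 2)))))] .n) (.c k63 (.l (.s k160 k240 11 (.s k128 k191 6 (.s k192 k64 7 (.s k133 k74 10 (.d
  k165 k181 k175 3 2)))))) (.c k192 (.l (.s k160 k240 11 (.s k128 k191 6 (.s k176 k144 3 (.s k165
  k175 2 (.s k133 k181 3 (.d k143 k138 k154 2 6))))))) .n))))) (.c k192 (.q k154 [(.s k128 k191 6
  (.s k138 k186 3 (.s k143 k133 2 (.d k207 k79 k69 7 10)))), (.s k138 k186 3 (.s k207 k69 10 (.s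
  k159 k144 2 (.s k111 k63 11 (.d k101 k96 k48 2 14))))), (.s k191 k128 6 (.s k159 k144 2 (.s k143
  k175 3 (.s k207 k79 7 (.s k111 k63 11 (.d k101 k96 k48 2 14))))))] (.c k26 (.l (.s k58 k202 11 (.s
  k128 k191 6 (.s k138 k186 3 (.s k207 k69 10 (.d k143 k133 k79 2 7)))))) (.c k58 (.q k26 [(.s k48
  k37 6 (.s k32 k16 3 (.d k101 k239 k207 10 14))), (.s k128 k191 6 (.s k138 k186 3 (.s k143 k133 2
  (.s k176 k165 6 (.d k144 k159 k160 2 3)))))] (.c k80 (.q k95 [(.s k48 k37 6 (.s k255 k175 11 (.d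
  k186 k138 k117 3 10))), (.s k175 k255 11 (.s k191 k128 6 (.d k159 k144 k143 2 3))), (.s k48 k37 6
  (.s k32 k16 3 (.d k101 k239 k207 10 14)))] .n) (.c k95 (.q k80 [(.s k48 k37 6 (.s k32 k16 3 (.d
  k101 k239 k207 10 14))), (.s k160 k240 11 (.s k128 k191 6 (.d k144 k159 k176 2 3)))] .n) .n))) (.c
  k80 (.q k95 [(.s k175 k255 11 (.s k191 k128 6 (.d k159 k144 k143 2 3))), (.s k128 k191 6 (.s k138
  k186 3 (.s k207 k69 10 (.d k143 k133 k79 2 7)))), (.s k175 k255 11 (.s k138 k186 3 (.s k207 k69 10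
  (.s k143 k79 7 (.d k165 k160 k176 2 6)))))] (.c k26 (.l (.s k58 k202 11 (.s k175 k255 11 (.s k191
  k128 6 (.d k159 k144 k143 2 3))))) (.c k58 (.q k26 [(.s k48 k37 6 (.s k255 k175 11 (.d k186 k138
  k117 3 10))), (.s k175 k255 11 (.s k191 k128 6 (.d k159 k144 k143 2 3))), (.s k48 k37 6 (.s k32
  k16 3 (.d k101 k239 k207 10 14)))] .n) (.c k143 (.l (.s k175 k255 11 (.s k128 k191 6 (.s k144 k159
  2 (.d k160 k165 k176 2 3))))) .n)))) (.c k95 (.q k80 [(.s k160 k240 11 (.s k128 k191 6 (.d k144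
  k159 k176 2 3))), (.s k128 k191 6 (.s k138 k186 3 (.s k207 k69 10 (.d k143 k133 k79 2 7)))), (.s
  k160 k240 11 (.s k138 k186 3 (.s k207 k69 10 (.s k143 k79 7 (.d k165 k175 k176 2 6)))))] (.c k26
  (.l (.s k58 k202 11 (.s k160 k240 11 (.s k128 k191 6 (.d k144 k159 k176 2 3))))) (.c k58 (.q k26
  [(.s k48 k37 6 (.s k32 k16 3 (.d k101 k239 k207 10 14))), (.s k160 k240 11 (.s k128 k191 6 (.d
  k144 k159 k176 2 3)))] .n) (.c k176 (.l (.s k160 k240 11 (.s k191 k128 6 (.s k159 k144 2 (.d k175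
  k165 k143 2 3))))) .n)))) (.c k207 (.l (.s k128 k191 6 (.s k138 k186 3 (.s k143 k133 2 (.s k176
  k165 6 (.d k144 k159 k160 2 3)))))) .n)))))) .n)))))))

def t10_85_43 : T TT 256 :=
  (.l (.s k42 k234 7 (.s k63 k21 6 (.s k47 k31 3 (.s k32 k37 2 (.s k101 k239 10 (.s k224 k165 10 (.d
  k96 k111 k160 2 7))))))))

def t10_85_44 : T TT 256 :=
  (.l (.s k42 k234 7 (.s k63 k21 6 (.s k47 k31 3 (.s k32 k37 2 (.s k101 k239 10 (.s k224 k165 10 (.d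
  k96 k111 k160 2 7))))))))

def t10_85_45 : T TT 256 :=
  (.l (.s k42 k234 7 (.s k63 k21 6 (.s k47 k31 3 (.s k32 k37 2 (.s k101 k239 10 (.s k224 k165 10 (.d
  k96 k111 k160 2 7))))))))

def t10_85_46 : T TT 256 :=
  (.l (.s k42 k234 7 (.s k63 k21 6 (.s k47 k31 3 (.s k32 k37 2 (.s k101 k239 10 (.s k224 k165 10 (.d
  k96 k111 k160 2 7))))))))

def t10_85_47 : T TT 256 :=
  (.f k42 k234 7 (.f k63 k21 6 (.f k149 k192 14 (.f k191 k128 6 (.f k255 k127 7 (.q k80 [(.s k160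
  k240 11 (.d k175 k165 k95 2 11)), (.s k240 k160 11 (.s k181 k122 10 (.s k245 k250 2 (.s k117 k53 7
  (.d k186 k176 k48 2 10))))), (.s k175 k95 11 (.s k159 k143 3 (.s k111 k207 11 (.s k101 k96 2 (.s
  k32 k239 10 (.s k16 k48 3 (.d k144 k154 k208 2 7)))))))] .n))))))

def t10_85_48 : T TT 256 :=
  (.l (.s k42 k234 7 (.s k63 k21 6 (.s k47 k31 3 (.s k32 k37 2 (.s k101 k239 10 (.s k224 k165 10 (.d
  k96 k111 k160 2 7))))))))

def t10_85_49 : T TT 256 :=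
  (.l (.s k42 k234 7 (.s k63 k21 6 (.s k47 k31 3 (.s k32 k37 2 (.s k101 k239 10 (.s k224 k165 10 (.d
  k96 k111 k160 2 7))))))))

def t10_85_50 : T TT 256 :=
  (.l (.s k42 k234 7 (.s k63 k21 6 (.s k47 k31 3 (.s k32 k37 2 (.s k101 k239 10 (.s k224 k165 10 (.d
  k96 k111 k160 2 7))))))))

def t10_85_51 : T TT 256 :=
  (.l (.s k42 k234 7 (.s k63 k21 6 (.s k47 k31 3 (.s k32 k37 2 (.s k101 k239 10 (.s k224 k165 10 (.d
  k96 k111 k160 2 7))))))))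

def t10_85_52 : T TT 256 :=
  (.l (.s k42 k234 7 (.s k63 k21 6 (.s k47 k31 3 (.s k32 k37 2 (.s k101 k239 10 (.s k224 k165 10 (.d
  k96 k111 k160 2 7))))))))

def t10_85_53 : T TT 256 :=
  (.l (.s k42 k234 7 (.s k63 k21 6 (.s k47 k31 3 (.s k165 k224 10 (.s k175 k160 2 (.s k239 k111 7
  (.d k32 k37 k101 2 10))))))))

def t10_85_54 : T TT 256 :=
  (.l (.s k42 k234 7 (.s k63 k21 6 (.s k47 k31 3 (.s k32 k37 2 (.s k101 k239 10 (.s k224 k165 10 (.d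
  k96 k111 k160 2 7))))))))

def t10_85_55 : T TT 256 :=
  (.l (.s k42 k234 7 (.s k63 k21 6 (.s k47 k31 3 (.s k32 k37 2 (.s k101 k239 10 (.s k224 k165 10 (.d
  k96 k111 k160 2 7))))))))

def t10_85_56 : T TT 256 :=
  (.l (.s k42 k234 7 (.s k63 k21 6 (.s k47 k31 3 (.s k32 k37 2 (.s k101 k239 10 (.s k224 k165 10 (.d
  k96 k111 k160 2 7))))))))

def t10_85_57 : T TT 256 :=
  (.l (.s k42 k234 7 (.s k63 k21 6 (.s k47 k31 3 (.s k32 k37 2 (.s k101 k239 10 (.s k224 k165 10 (.d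
  k96 k111 k160 2 7))))))))

def t10_85_58 : T TT 256 :=
  (.l (.s k42 k234 7 (.s k63 k21 6 (.s k47 k31 3 (.s k32 k37 2 (.s k101 k239 10 (.s k224 k165 10 (.d
  k96 k111 k160 2 7))))))))

def t10_85_59 : T TT 256 :=
  (.l (.s k42 k234 7 (.s k63 k21 6 (.s k47 k31 3 (.s k32 k37 2 (.s k101 k239 10 (.s k224 k165 10 (.d
  k96 k111 k160 2 7))))))))

def t10_85_60 : T TT 256 :=
  (.l (.s k42 k234 7 (.s k63 k21 6 (.s k47 k31 3 (.s k32 k37 2 (.s k101 k239 10 (.s k224 k165 10 (.d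
  k96 k111 k160 2 7))))))))

def t10_85_61 : T TT 256 :=
  (.l (.s k42 k234 7 (.s k63 k21 6 (.s k47 k31 3 (.s k32 k37 2 (.s k101 k239 10 (.s k224 k165 10 (.d
  k96 k111 k160 2 7))))))))

def t10_85_62 : T TT 256 :=
  (.l (.s k42 k234 7 (.s k63 k21 6 (.s k47 k31 3 (.s k32 k37 2 (.s k101 k239 10 (.s k224 k165 10 (.d
  k96 k111 k160 2 7))))))))

def t10_85_63 : T TT 256 :=
  (.f k42 k234 7 (.q k2 [(.s k62 k22 5 (.s k86 k254 13 (.s k66 k126 5 (.d k194 k130 k150 7 13)))),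
  (.s k3 k1 0 (.s k22 k62 5 (.s k7 k11 1 (.s k37 k52 4 (.s k48 k26 6 (.d k32 k47 k16 2 3)))))), (.s
  k3 k1 0 (.s k86 k254 13 (.s k169 k252 14 (.s k43 k232 8 (.s k40 k41 0 (.s k235 k105 8 (.d k171
  k168 k107 0 7)))))))] (.c k80 (.q k95 [(.s k62 k22 5 (.s k86 k254 13 (.s k66 k126 5 (.d k194 k130
  k150 7 13)))), (.s k175 k255 11 (.s k165 k160 2 (.s k47 k224 10 (.s k32 k37 2 (.d k239 k111 k101 7
  10)))))] .n) (.c k95 (.q k80 [(.s k62 k22 5 (.s k86 k254 13 (.s k66 k126 5 (.d k194 k130 k150 7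
  13)))), (.s k3 k1 0 (.s k240 k160 11 (.s k82 k161 12 (.s k162 k242 11 (.d k81 k83 k243 0 12)))))]
  .n) .n))))

def t10_85_64 : T TT 256 :=
  (.l (.s k42 k234 7 (.s k63 k21 6 (.s k47 k31 3 (.s k32 k37 2 (.s k101 k239 10 (.s k224 k165 10 (.d
  k96 k111 k160 2 7))))))))

def t10_85_65 : T TT 256 :=
  (.l (.s k42 k234 7 (.s k63 k21 6 (.s k47 k31 3 (.s k32 k37 2 (.s k101 k239 10 (.s k224 k165 10 (.d
  k96 k111 k160 2 7))))))))

def t10_85_66 : T TT 256 :=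
  (.l (.s k42 k234 7 (.s k63 k21 6 (.s k47 k31 3 (.s k32 k37 2 (.s k101 k239 10 (.s k224 k165 10 (.d
  k96 k111 k160 2 7))))))))

def t10_85_67 : T TT 256 :=
  (.l (.s k42 k234 7 (.s k63 k21 6 (.s k47 k31 3 (.s k32 k37 2 (.s k101 k239 10 (.s k224 k165 10 (.d
  k96 k111 k160 2 7))))))))

def t10_85_68 : T TT 256 :=
  (.l (.s k42 k234 7 (.s k63 k21 6 (.s k47 k31 3 (.s k32 k37 2 (.s k101 k239 10 (.s k224 k165 10 (.d
  k96 k111 k160 2 7))))))))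

def t10_85_69 : T TT 256 :=
  (.l (.s k42 k234 7 (.s k63 k21 6 (.s k47 k31 3 (.s k32 k37 2 (.s k101 k239 10 (.s k224 k165 10 (.d
  k96 k111 k160 2 7))))))))

def t10_85_70 : T TT 256 :=
  (.l (.s k42 k234 7 (.s k63 k21 6 (.s k47 k31 3 (.s k32 k37 2 (.s k101 k239 10 (.s k224 k165 10 (.d
  k96 k111 k160 2 7))))))))

def t10_85_71 : T TT 256 :=
  (.l (.s k42 k234 7 (.s k63 k21 6 (.s k47 k31 3 (.s k32 k37 2 (.s k101 k239 10 (.s k224 k165 10 (.d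
  k96 k111 k160 2 7))))))))

def t10_85_72 : T TT 256 :=
  (.l (.s k42 k234 7 (.s k63 k21 6 (.s k47 k31 3 (.s k32 k37 2 (.s k101 k239 10 (.s k224 k165 10 (.d
  k96 k111 k160 2 7))))))))

def t10_85_73 : T TT 256 :=
  (.l (.s k42 k234 7 (.s k63 k21 6 (.s k47 k31 3 (.s k32 k37 2 (.s k101 k239 10 (.s k224 k165 10 (.d
  k96 k111 k160 2 7))))))))

def t10_85_74 : T TT 256 :=
  (.l (.s k42 k234 7 (.s k63 k21 6 (.s k47 k31 3 (.s k32 k37 2 (.s k101 k239 10 (.s k224 k165 10 (.d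
  k96 k111 k160 2 7))))))))

def t10_85_75 : T TT 256 :=
  (.l (.s k42 k234 7 (.s k63 k21 6 (.s k47 k31 3 (.s k32 k37 2 (.s k101 k239 10 (.s k224 k165 10 (.d
  k96 k111 k160 2 7))))))))

def t10_85_76 : T TT 256 :=
  (.l (.s k42 k234 7 (.s k63 k21 6 (.s k47 k31 3 (.s k32 k37 2 (.s k101 k239 10 (.s k224 k165 10 (.d
  k96 k111 k160 2 7))))))))

def t10_85_77 : T TT 256 :=
  (.l (.s k42 k234 7 (.s k63 k21 6 (.s k47 k31 3 (.s k32 k37 2 (.s k101 k239 10 (.s k224 k165 10 (.d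
  k96 k111 k160 2 7))))))))

def t10_85_78 : T TT 256 :=
  (.l (.s k42 k234 7 (.s k63 k21 6 (.s k47 k31 3 (.s k32 k37 2 (.s k101 k239 10 (.s k224 k165 10 (.d
  k96 k111 k160 2 7))))))))

def t10_85_79 : T TT 256 :=
  (.l (.s k42 k234 7 (.s k63 k21 6 (.s k47 k31 3 (.s k32 k37 2 (.s k101 k239 10 (.s k224 k165 10 (.d
  k96 k111 k160 2 7))))))))

def t10_85_80 : T TT 256 :=
  (.q k95 [(.s k255 k175 11 (.s k42 k234 7 (.s k63 k21 6 (.s k149 k192 14 (.d k191 k128 k127 6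
  7))))), (.s k175 k255 11 (.s k165 k160 2 (.s k47 k224 10 (.s k63 k31 3 (.s k111 k239 7 (.s k207
  k159 11 (.d k79 k127 k143 3 7))))))), (.s k175 k255 11 (.s k42 k234 7 (.s k165 k160 2 (.s k47 k224
  10 (.s k32 k37 2 (.d k239 k111 k101 7 10)))))), (.s k42 k234 7 (.s k63 k21 6 (.s k47 k31 3 (.s k32
  k37 2 (.s k101 k239 10 (.s k224 k165 10 (.d k96 k111 k160 2 7)))))))] (.c k234 (.l (.s k175 k255
  11 (.s k165 k160 2 (.s k47 k224 10 (.s k63 k31 3 (.s k42 k21 6 (.s k32 k37 2 (.d k239 k111 k101 7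
  10)))))))) .n))

def t10_85_81 : T TT 256 :=
  (.l (.s k42 k234 7 (.s k63 k21 6 (.s k47 k31 3 (.s k32 k37 2 (.s k101 k239 10 (.s k224 k165 10 (.d
  k96 k111 k160 2 7))))))))

def t10_85_82 : T TT 256 :=
  (.l (.s k42 k234 7 (.s k63 k21 6 (.s k47 k31 3 (.s k32 k37 2 (.s k101 k239 10 (.s k224 k165 10 (.d
  k96 k111 k160 2 7))))))))

def t10_85_83 : T TT 256 :=
  (.l (.s k42 k234 7 (.s k63 k21 6 (.s k47 k31 3 (.s k32 k37 2 (.s k101 k239 10 (.s k224 k165 10 (.d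
  k96 k111 k160 2 7))))))))

def t10_85_84 : T TT 256 :=
  (.l (.s k42 k234 7 (.s k63 k21 6 (.s k47 k31 3 (.s k32 k37 2 (.s k101 k239 10 (.s k224 k165 10 (.d
  k96 k111 k160 2 7))))))))

def t10_85_86 : T TT 256 :=
  (.l (.s k42 k234 7 (.s k63 k21 6 (.s k47 k31 3 (.s k32 k37 2 (.s k101 k239 10 (.s k224 k165 10 (.d
  k96 k111 k160 2 7))))))))

def t10_85_87 : T TT 256 :=
  (.l (.s k42 k234 7 (.s k63 k21 6 (.s k47 k31 3 (.s k32 k37 2 (.s k101 k239 10 (.s k224 k165 10 (.d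
  k96 k111 k160 2 7))))))))

def t10_85_88 : T TT 256 :=
  (.l (.s k42 k234 7 (.s k63 k21 6 (.s k47 k31 3 (.s k32 k37 2 (.s k101 k239 10 (.s k224 k165 10 (.d
  k96 k111 k160 2 7))))))))

def t10_85_89 : T TT 256 :=
  (.l (.s k42 k234 7 (.s k63 k21 6 (.s k47 k31 3 (.s k32 k37 2 (.s k101 k239 10 (.s k224 k165 10 (.d
  k96 k111 k160 2 7))))))))

def t10_85_91 : T TT 256 :=
  (.l (.s k42 k234 7 (.s k63 k21 6 (.s k47 k31 3 (.s k32 k37 2 (.s k101 k239 10 (.s k224 k165 10 (.d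
  k96 k111 k160 2 7))))))))

def t10_85_92 : T TT 256 :=
  (.l (.s k42 k234 7 (.s k63 k21 6 (.s k47 k31 3 (.s k32 k37 2 (.s k101 k239 10 (.s k224 k165 10 (.d
  k96 k111 k160 2 7))))))))

def t10_85_93 : T TT 256 :=
  (.l (.s k42 k234 7 (.s k63 k21 6 (.s k47 k31 3 (.s k32 k37 2 (.s k101 k239 10 (.s k224 k165 10 (.d
  k96 k111 k160 2 7))))))))

def t10_85_94 : T TT 256 :=
  (.l (.s k42 k234 7 (.s k63 k21 6 (.s k47 k31 3 (.s k32 k37 2 (.s k101 k239 10 (.s k224 k165 10 (.d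
  k96 k111 k160 2 7))))))))

def t10_85_95 : T TT 256 :=
  (.q k80 [(.s k160 k240 11 (.s k42 k234 7 (.s k63 k21 6 (.s k165 k175 2 (.d k47 k31 k224 3 10))))),
  (.s k160 k240 11 (.s k234 k42 7 (.s k165 k175 2 (.s k224 k47 10 (.s k32 k96 7 (.d k239 k229 k101 2
  10)))))), (.s k160 k240 11 (.s k42 k234 7 (.s k63 k21 6 (.s k47 k31 3 (.s k32 k37 2 (.s k96 k224 7
  (.d k101 k239 k111 10 2)))))))] (.c k42 (.q k58 [(.s k160 k240 11 (.s k154 k202 11 (.s k138 k186 3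
  (.s k207 k69 10 (.s k165 k175 2 (.d k143 k176 k79 6 7)))))), (.s k160 k240 11 (.s k165 k175 2 (.s
  k224 k47 10 (.s k32 k96 7 (.s k48 k16 3 (.s k37 k26 6 (.d k101 k239 k229 10 7))))))), (.s k154
  k202 11 (.s k138 k186 3 (.s k207 k69 10 (.s k143 k79 7 (.s k128 k133 2 (.s k149 k191 6 (.d k192
  k64 k63 7 14)))))))] (.c k101 (.l (.s k160 k240 11 (.s k154 k202 11 (.s k138 k186 3 (.s k165 k175
  2 (.s k143 k176 6 (.d k207 k79 k69 7 10))))))) (.c k154 (.q k16 [(.s k48 k32 3 (.s k144 k208 7 (.s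
  k63 k53 2 (.d k192 k149 k96 14 11)))), (.s k32 k48 3 (.s k160 k240 11 (.s k101 k239 10 (.d k96
  k111 k224 2 7)))), (.s k160 k240 11 (.s k144 k208 7 (.s k128 k176 3 (.s k192 k64 7 (.d k149 k191
  k63 6 14)))))] (.c k26 (.q k218 [(.s k48 k32 3 (.s k144 k208 7 (.s k63 k53 2 (.d k192 k149 k96 14
  11)))), (.s k32 k48 3 (.s k160 k240 11 (.s k101 k239 10 (.d k96 k111 k224 2 7)))), (.s k160 k240
  11 (.s k144 k208 7 (.s k128 k176 3 (.s k192 k64 7 (.d k149 k191 k63 6 14)))))] (.c k48 (.l (.s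
  k240 k160 11 (.s k208 k144 7 (.s k192 k224 3 (.s k128 k64 7 (.d k149 k191 k63 6 14)))))) .n)) (.c
  k48 (.l (.s k240 k160 11 (.s k208 k144 7 (.s k192 k224 3 (.s k128 k64 7 (.d k149 k191 k63 6
  14)))))) (.c k218 (.q k26 [(.d k48 k32 k37 3 6), (.s k160 k240 11 (.s k31 k21 2 (.s k47 k63 3 (.d
  k165 k175 k224 2 10))))] .n) .n)))) .n))) (.c k47 (.q k63 [(.d k42 k21 k234 6 7), (.s k160 k240 11
  (.s k149 k192 14 (.s k128 k191 6 (.s k176 k144 3 (.s k165 k175 2 (.s k133 k181 3 (.d k143 k138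
  k154 2 6)))))))] .n) (.c k160 (.q k63 [(.d k42 k21 k234 6 7), (.s k192 k149 14 (.s k64 k128 7 (.s
  k96 k112 3 (.s k101 k111 2 (.s k32 k239 10 (.d k48 k144 k16 11 3))))))] (.c k21 (.l (.s k47 k31 3
  (.s k234 k42 7 (.s k224 k165 10 (.s k239 k229 2 (.s k101 k32 10 (.d k111 k96 k175 2 7))))))) .n))
  (.c k224 (.l (.s k160 k240 11 (.s k42 k234 7 (.s k63 k21 6 (.s k47 k31 3 (.s k32 k37 2 (.s k239
  k101 10 (.d k175 k165 k111 2 7)))))))) (.c k234 (.l (.s k160 k240 11 (.s k165 k175 2 (.s k224 k47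
  10 (.s k32 k96 7 (.s k48 k16 3 (.s k37 k26 6 (.d k101 k239 k229 10 7)))))))) (.c k240 (.l (.s k42
  k234 7 (.s k63 k21 6 (.s k47 k31 3 (.s k32 k37 2 (.s k101 k239 10 (.s k224 k165 10 (.d k96 k111
  k160 2 7)))))))) .n)))))))

def t10_85_96 : T TT 256 :=
  (.l (.s k42 k234 7 (.s k63 k21 6 (.s k47 k31 3 (.s k32 k37 2 (.s k239 k101 10 (.s k165 k224 10 (.d
  k175 k160 k111 2 7))))))))

def t10_85_97 : T TT 256 :=
  (.l (.s k42 k234 7 (.s k63 k21 6 (.s k47 k31 3 (.s k32 k37 2 (.s k101 k239 10 (.s k224 k165 10 (.d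
  k96 k111 k160 2 7))))))))

def t10_85_98 : T TT 256 :=
  (.l (.s k42 k234 7 (.s k63 k21 6 (.s k47 k31 3 (.s k32 k37 2 (.s k101 k239 10 (.s k224 k165 10 (.d
  k96 k111 k160 2 7))))))))

def t10_85_99 : T TT 256 :=
  (.l (.s k42 k234 7 (.s k63 k21 6 (.s k47 k31 3 (.s k32 k37 2 (.s k101 k239 10 (.s k224 k165 10 (.d
  k96 k111 k160 2 7))))))))

def t10_85_100 : T TT 256 :=
  (.l (.s k42 k234 7 (.s k63 k21 6 (.s k47 k31 3 (.s k32 k37 2 (.s k101 k239 10 (.s k224 k165 10 (.d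
  k96 k111 k160 2 7))))))))

def t10_85_101 : T TT 256 :=
  (.f k42 k234 7 (.l (.s k63 k21 6 (.s k47 k31 3 (.s k165 k224 10 (.s k149 k192 14 (.s k191 k128 6
  (.s k255 k127 7 (.d k175 k160 k95 2 11)))))))))

def t10_85_102 : T TT 256 :=
  (.l (.s k42 k234 7 (.s k63 k21 6 (.s k47 k31 3 (.s k32 k37 2 (.s k101 k239 10 (.s k224 k165 10 (.d
  k96 k111 k160 2 7))))))))

def t10_85_103 : T TT 256 :=
  (.l (.s k42 k234 7 (.s k63 k21 6 (.s k47 k31 3 (.s k32 k37 2 (.s k101 k239 10 (.s k224 k165 10 (.d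
  k96 k111 k160 2 7))))))))

def t10_85_104 : T TT 256 :=
  (.l (.s k42 k234 7 (.s k63 k21 6 (.s k47 k31 3 (.s k32 k37 2 (.s k101 k239 10 (.s k224 k165 10 (.d
  k96 k111 k160 2 7))))))))

def t10_85_105 : T TT 256 :=
  (.l (.s k42 k234 7 (.s k63 k21 6 (.s k47 k31 3 (.s k32 k37 2 (.s k101 k239 10 (.s k224 k165 10 (.d
  k96 k111 k160 2 7))))))))

def t10_85_107 : T TT 256 :=
  (.l (.s k42 k234 7 (.s k63 k21 6 (.s k47 k31 3 (.s k32 k37 2 (.s k101 k239 10 (.s k224 k165 10 (.d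
  k96 k111 k160 2 7))))))))

def t10_85_108 : T TT 256 :=
  (.l (.s k42 k234 7 (.s k63 k21 6 (.s k47 k31 3 (.s k32 k37 2 (.s k101 k239 10 (.s k224 k165 10 (.d
  k96 k111 k160 2 7))))))))

def t10_85_109 : T TT 256 :=
  (.l (.s k42 k234 7 (.s k63 k21 6 (.s k47 k31 3 (.s k32 k37 2 (.s k101 k239 10 (.s k224 k165 10 (.d
  k96 k111 k160 2 7))))))))

def t10_85_110 : T TT 256 :=
  (.l (.s k42 k234 7 (.s k63 k21 6 (.s k47 k31 3 (.s k32 k37 2 (.s k101 k239 10 (.s k224 k165 10 (.d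
  k96 k111 k160 2 7))))))))

def t10_85_111 : T TT 256 :=
  (.f k42 k234 7 (.l (.s k63 k21 6 (.s k47 k31 3 (.s k32 k37 2 (.s k101 k239 10 (.s k149 k192 14 (.s
  k53 k197 11 (.d k48 k16 k58 3 2)))))))))

def t10_85_112 : T TT 256 :=
  (.l (.s k42 k234 7 (.s k63 k21 6 (.s k47 k31 3 (.s k32 k37 2 (.s k101 k239 10 (.s k224 k165 10 (.d
  k96 k111 k160 2 7))))))))

def t10_85_113 : T TT 256 :=
  (.l (.s k42 k234 7 (.s k63 k21 6 (.s k47 k31 3 (.s k32 k37 2 (.s k101 k239 10 (.s k224 k165 10 (.d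
  k96 k111 k160 2 7))))))))

def t10_85_114 : T TT 256 :=
  (.l (.s k42 k234 7 (.s k63 k21 6 (.s k47 k31 3 (.s k32 k37 2 (.s k101 k239 10 (.s k224 k165 10 (.d
  k96 k111 k160 2 7))))))))

def t10_85_115 : T TT 256 :=
  (.l (.s k42 k234 7 (.s k63 k21 6 (.s k47 k31 3 (.s k32 k37 2 (.s k101 k239 10 (.s k224 k165 10 (.d
  k96 k111 k160 2 7))))))))

def t10_85_116 : T TT 256 :=
  (.l (.s k42 k234 7 (.s k63 k21 6 (.s k47 k31 3 (.s k32 k37 2 (.s k101 k239 10 (.s k224 k165 10 (.d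
  k96 k111 k160 2 7))))))))

def t10_85_117 : T TT 256 :=
  (.l (.s k42 k234 7 (.s k63 k21 6 (.s k47 k31 3 (.s k32 k37 2 (.s k101 k239 10 (.s k224 k165 10 (.d
  k96 k111 k160 2 7))))))))

def t10_85_118 : T TT 256 :=
  (.l (.s k42 k234 7 (.s k63 k21 6 (.s k47 k31 3 (.s k32 k37 2 (.s k101 k239 10 (.s k224 k165 10 (.d
  k96 k111 k160 2 7))))))))

def t10_85_119 : T TT 256 :=
  (.l (.s k42 k234 7 (.s k63 k21 6 (.s k47 k31 3 (.s k32 k37 2 (.s k101 k239 10 (.s k224 k165 10 (.d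
  k96 k111 k160 2 7))))))))

def t10_85_120 : T TT 256 :=
  (.l (.s k42 k234 7 (.s k63 k21 6 (.s k47 k31 3 (.s k32 k37 2 (.s k101 k239 10 (.s k224 k165 10 (.d
  k96 k111 k160 2 7))))))))

def t10_85_121 : T TT 256 :=
  (.l (.s k42 k234 7 (.s k63 k21 6 (.s k47 k31 3 (.s k32 k37 2 (.s k101 k239 10 (.s k224 k165 10 (.d
  k96 k111 k160 2 7))))))))

def t10_85_122 : T TT 256 :=
  (.l (.s k42 k234 7 (.s k63 k21 6 (.s k47 k31 3 (.s k32 k37 2 (.s k101 k239 10 (.s k224 k165 10 (.d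
  k96 k111 k160 2 7))))))))

def t10_85_123 : T TT 256 :=
  (.l (.s k42 k234 7 (.s k63 k21 6 (.s k47 k31 3 (.s k32 k37 2 (.s k101 k239 10 (.s k224 k165 10 (.d
  k96 k111 k160 2 7))))))))

def t10_85_124 : T TT 256 :=
  (.l (.s k42 k234 7 (.s k63 k21 6 (.s k47 k31 3 (.s k32 k37 2 (.s k101 k239 10 (.s k224 k165 10 (.d
  k96 k111 k160 2 7))))))))

def t10_85_125 : T TT 256 :=
  (.l (.s k42 k234 7 (.s k63 k21 6 (.s k47 k31 3 (.s k32 k37 2 (.s k101 k239 10 (.s k224 k165 10 (.d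
  k96 k111 k160 2 7))))))))

def t10_85_126 : T TT 256 :=
  (.l (.s k42 k234 7 (.s k63 k21 6 (.s k47 k31 3 (.s k32 k37 2 (.s k101 k239 10 (.s k224 k165 10 (.d
  k96 k111 k160 2 7))))))))

def t10_85_127 : T TT 256 :=
  (.l (.s k42 k234 7 (.s k63 k21 6 (.s k47 k31 3 (.s k32 k37 2 (.s k101 k239 10 (.s k224 k165 10 (.d
  k96 k111 k160 2 7))))))))

def t10_85_128 : T TT 256 :=
  (.l (.s k42 k234 7 (.s k63 k21 6 (.s k47 k31 3 (.s k32 k37 2 (.s k101 k239 10 (.s k224 k165 10 (.d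
  k96 k111 k160 2 7))))))))

def t10_85_129 : T TT 256 :=
  (.l (.s k42 k234 7 (.s k63 k21 6 (.s k47 k31 3 (.s k32 k37 2 (.s k101 k239 10 (.s k224 k165 10 (.d
  k96 k111 k160 2 7))))))))

def t10_85_130 : T TT 256 :=
  (.l (.s k42 k234 7 (.s k63 k21 6 (.s k47 k31 3 (.s k32 k37 2 (.s k101 k239 10 (.s k224 k165 10 (.d
  k96 k111 k160 2 7))))))))

def t10_85_131 : T TT 256 :=
  (.l (.s k42 k234 7 (.s k63 k21 6 (.s k47 k31 3 (.s k32 k37 2 (.s k101 k239 10 (.s k224 k165 10 (.d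
  k96 k111 k160 2 7))))))))

def t10_85_132 : T TT 256 :=
  (.l (.s k42 k234 7 (.s k63 k21 6 (.s k47 k31 3 (.s k32 k37 2 (.s k101 k239 10 (.s k224 k165 10 (.d
  k96 k111 k160 2 7))))))))

def t10_85_133 : T TT 256 :=
  (.l (.s k42 k234 7 (.s k63 k21 6 (.s k47 k31 3 (.s k32 k37 2 (.s k101 k239 10 (.s k224 k165 10 (.d
  k96 k111 k160 2 7))))))))

def t10_85_134 : T TT 256 :=
  (.l (.s k42 k234 7 (.s k63 k21 6 (.s k47 k31 3 (.s k32 k37 2 (.s k101 k239 10 (.s k224 k165 10 (.d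
  k96 k111 k160 2 7))))))))

def t10_85_135 : T TT 256 :=
  (.l (.s k42 k234 7 (.s k63 k21 6 (.s k47 k31 3 (.s k32 k37 2 (.s k101 k239 10 (.s k224 k165 10 (.d
  k96 k111 k160 2 7))))))))

def t10_85_136 : T TT 256 :=
  (.l (.s k42 k234 7 (.s k63 k21 6 (.s k47 k31 3 (.s k32 k37 2 (.s k101 k239 10 (.s k224 k165 10 (.d
  k96 k111 k160 2 7))))))))

def t10_85_137 : T TT 256 :=
  (.l (.s k42 k234 7 (.s k63 k21 6 (.s k47 k31 3 (.s k32 k37 2 (.s k101 k239 10 (.s k224 k165 10 (.d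
  k96 k111 k160 2 7))))))))

def t10_85_138 : T TT 256 :=
  (.l (.s k42 k234 7 (.s k63 k21 6 (.s k47 k31 3 (.s k32 k37 2 (.s k101 k239 10 (.s k224 k165 10 (.d
  k96 k111 k160 2 7))))))))

def t10_85_139 : T TT 256 :=
  (.l (.s k42 k234 7 (.s k63 k21 6 (.s k47 k31 3 (.s k32 k37 2 (.s k101 k239 10 (.s k224 k165 10 (.d
  k96 k111 k160 2 7))))))))

def t10_85_140 : T TT 256 :=
  (.l (.s k42 k234 7 (.s k63 k21 6 (.s k47 k31 3 (.s k32 k37 2 (.s k101 k239 10 (.s k224 k165 10 (.d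
  k96 k111 k160 2 7))))))))

def t10_85_141 : T TT 256 :=
  (.l (.s k42 k234 7 (.s k63 k21 6 (.s k47 k31 3 (.s k32 k37 2 (.s k101 k239 10 (.s k224 k165 10 (.d
  k96 k111 k160 2 7))))))))

def t10_85_142 : T TT 256 :=
  (.l (.s k42 k234 7 (.s k63 k21 6 (.s k47 k31 3 (.s k32 k37 2 (.s k101 k239 10 (.s k224 k165 10 (.d
  k96 k111 k160 2 7))))))))

def t10_85_143 : T TT 256 :=
  (.l (.s k42 k234 7 (.s k63 k21 6 (.s k47 k31 3 (.s k32 k37 2 (.s k101 k239 10 (.s k224 k165 10 (.d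
  k96 k111 k160 2 7))))))))

def t10_85_144 : T TT 256 :=
  (.l (.s k42 k234 7 (.s k63 k21 6 (.s k47 k31 3 (.s k32 k37 2 (.s k101 k239 10 (.s k224 k165 10 (.d
  k96 k111 k160 2 7))))))))

def t10_85_145 : T TT 256 :=
  (.l (.s k42 k234 7 (.s k63 k21 6 (.s k47 k31 3 (.s k32 k37 2 (.s k101 k239 10 (.s k224 k165 10 (.d
  k96 k111 k160 2 7))))))))

def t10_85_146 : T TT 256 :=
  (.l (.s k42 k234 7 (.s k63 k21 6 (.s k47 k31 3 (.s k32 k37 2 (.s k101 k239 10 (.s k224 k165 10 (.d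
  k96 k111 k160 2 7))))))))

def t10_85_147 : T TT 256 :=
  (.l (.s k42 k234 7 (.s k63 k21 6 (.s k47 k31 3 (.s k32 k37 2 (.s k101 k239 10 (.s k224 k165 10 (.d
  k96 k111 k160 2 7))))))))

def t10_85_148 : T TT 256 :=
  (.l (.s k42 k234 7 (.s k63 k21 6 (.s k47 k31 3 (.s k32 k37 2 (.s k101 k239 10 (.s k224 k165 10 (.d
  k96 k111 k160 2 7))))))))

def t10_85_149 : T TT 256 :=
  (.q k31 [(.s k63 k47 3 (.d k42 k21 k234 6 7))] (.c k21 (.q k213 [(.s k47 k63 3 (.s k234 k42 7 (.s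
  k165 k224 10 (.s k175 k160 2 (.d k255 k95 k192 11 6))))), (.s k47 k63 3 (.s k42 k234 7 (.s k32 k37
  2 (.s k101 k239 10 (.s k224 k165 10 (.d k96 k111 k160 2 7)))))), (.s k63 k47 3 (.s k234 k42 7 (.s
  k255 k192 6 (.s k95 k175 11 (.s k159 k223 7 (.s k111 k207 11 (.d k127 k79 k191 3 7)))))))] (.c k32
  (.l (.s k47 k63 3 (.s k234 k42 7 (.s k165 k224 10 (.s k255 k192 6 (.d k175 k160 k95 2 11)))))) (.c
  k42 (.q k154 [(.s k47 k63 3 (.s k165 k224 10 (.s k138 k186 3 (.s k207 k69 10 (.d k143 k176 k79 6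
  7))))), (.s k58 k202 11 (.s k63 k47 3 (.s k48 k53 2 (.s k32 k16 3 (.d k101 k239 k207 10 14))))),
  (.s k47 k63 3 (.s k165 k224 10 (.s k143 k176 6 (.s k175 k160 2 (.s k95 k255 11 (.d k159 k191 k223
  3 7)))))), (.s k138 k186 3 (.s k207 k69 10 (.s k143 k79 7 (.s k165 k176 6 (.s k175 k160 2 (.s k95
  k255 11 (.d k159 k191 k223 3 7)))))))] (.c k26 (.l (.s k58 k202 11 (.s k63 k47 3 (.s k48 k53 2 (.s
  k32 k16 3 (.d k101 k239 k207 10 14)))))) (.c k58 (.q k26 [(.s k48 k37 6 (.s k32 k16 3 (.d k101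
  k239 k207 10 14))), (.s k138 k186 3 (.s k207 k69 10 (.s k143 k79 7 (.s k165 k176 6 (.d k47 k63
  k224 3 10)))))] (.c k47 (.l (.s k48 k37 6 (.s k32 k16 3 (.d k101 k239 k207 10 14)))) (.c k80 (.q
  k95 [(.s k175 k255 11 (.s k165 k160 2 (.d k47 k63 k224 3 10))), (.s k48 k37 6 (.s k32 k16 3 (.d
  k101 k239 k207 10 14)))] (.c k47 (.l (.s k48 k37 6 (.s k32 k16 3 (.d k101 k239 k207 10 14)))) .n))
  (.c k95 (.q k80 [(.s k160 k240 11 (.s k165 k175 2 (.d k47 k63 k224 3 10))), (.s k48 k37 6 (.s k32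
  k16 3 (.d k101 k239 k207 10 14)))] (.c k47 (.l (.s k48 k37 6 (.s k32 k16 3 (.d k101 k239 k207 10
  14)))) .n)) (.c k101 (.l (.s k47 k63 3 (.s k165 k224 10 (.s k138 k186 3 (.s k143 k176 6 (.d k207
  k79 k69 7 10)))))) (.c k207 (.l (.s k48 k37 6 (.s k32 k16 3 (.s k47 k63 3 (.s k101 k239 10 (.s
  k224 k165 10 (.d k96 k111 k160 2 7))))))) .n)))))) (.c k80 (.q k95 [(.s k47 k63 3 (.s k165 k224 10
  (.d k175 k160 k255 2 11))), (.s k63 k47 3 (.s k159 k223 7 (.s k138 k186 3 (.d k207 k69 k111 10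
  11)))), (.s k175 k255 11 (.s k159 k223 7 (.s k165 k160 2 (.d k143 k191 k176 3 6))))] (.c k26 (.l
  (.s k58 k202 11 (.s k47 k63 3 (.s k175 k255 11 (.d k165 k160 k224 2 10))))) (.c k58 (.q k26 [(.s
  k175 k255 11 (.s k165 k160 2 (.d k47 k63 k224 3 10))), (.s k48 k37 6 (.s k32 k16 3 (.d k101 k239
  k207 10 14)))] (.c k47 (.l (.s k48 k37 6 (.s k32 k16 3 (.d k101 k239 k207 10 14)))) .n)) .n))) (.c
  k95 (.q k80 [(.s k160 k240 11 (.s k165 k175 2 (.d k47 k63 k224 3 10))), (.s k63 k47 3 (.s k58 k202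
  11 (.s k48 k53 2 (.s k32 k16 3 (.d k101 k239 k207 10 14))))), (.s k160 k240 11 (.s k138 k186 3 (.s
  k207 k69 10 (.s k143 k79 7 (.d k165 k175 k176 2 6)))))] (.c k26 (.l (.s k58 k202 11 (.s k160 k240
  11 (.s k47 k63 3 (.d k165 k175 k224 2 10))))) (.c k58 (.q k26 [(.s k160 k240 11 (.s k165 k175 2
  (.d k47 k63 k224 3 10))), (.s k48 k37 6 (.s k32 k16 3 (.d k101 k239 k207 10 14)))] (.c k47 (.l (.s
  k48 k37 6 (.s k32 k16 3 (.d k101 k239 k207 10 14)))) .n)) .n))) .n))))) (.c k47 (.q k95 [(.s k255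
  k175 11 (.d k234 k192 k42 6 7)), (.s k175 k255 11 (.s k159 k223 7 (.s k143 k191 3 (.s k207 k79 7
  (.s k138 k69 10 (.s k154 k186 3 (.d k165 k176 k160 6 2)))))))] (.c k175 (.l (.s k223 k159 7 (.s
  k234 k42 7 (.s k255 k192 6 (.s k218 k208 2 (.s k250 k202 3 (.s k240 k245 2 (.d k207 k239 k229 3
  6)))))))) (.c k239 (.l (.s k234 k42 7 (.d k255 k192 k175 6 11))) (.c k255 (.q k154 [(.s k223 k159
  7 (.s k202 k58 11 (.s k218 k208 2 (.d k234 k42 k250 7 3)))), (.s k138 k186 3 (.s k207 k69 10 (.s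
  k79 k143 7 (.s k111 k127 3 (.d k101 k48 k96 14 2)))))] .n) .n)))) (.c k63 (.f k42 k234 7 (.q k2
  [(.s k86 k254 13 (.s k66 k126 5 (.s k194 k130 7 (.d k62 k22 k150 5 13)))), (.s k3 k1 0 (.s k22 k62
  5 (.s k7 k11 1 (.s k37 k52 4 (.s k48 k26 6 (.d k32 k47 k16 2 3)))))), (.s k3 k1 0 (.s k86 k254 13
  (.s k169 k252 14 (.s k43 k232 8 (.s k171 k168 0 (.s k235 k107 7 (.d k40 k41 k105 0 8)))))))] (.c
  k80 (.q k95 [(.s k86 k254 13 (.s k66 k126 5 (.s k194 k130 7 (.d k62 k22 k150 5 13)))), (.s k175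
  k255 11 (.s k165 k160 2 (.s k47 k224 10 (.s k32 k37 2 (.d k239 k111 k101 7 10)))))] .n) (.c k95
  (.q k80 [(.s k86 k254 13 (.s k66 k126 5 (.s k194 k130 7 (.d k62 k22 k150 5 13)))), (.s k3 k1 0 (.s
  k240 k160 11 (.s k82 k161 12 (.s k162 k242 11 (.d k81 k83 k243 0 12)))))] .n) .n)))) (.c k80 (.q
  k95 [(.s k255 k175 11 (.d k234 k192 k42 6 7)), (.s k47 k63 3 (.s k175 k255 11 (.d k165 k160 k224 2
  10))), (.s k47 k63 3 (.s k42 k234 7 (.s k32 k37 2 (.s k101 k239 10 (.s k224 k165 10 (.d k96 k111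
  k160 2 7))))))] .n) (.c k95 (.q k80 [(.s k160 k240 11 (.s k165 k175 2 (.d k47 k63 k224 3 10))),
  (.s k160 k240 11 (.s k234 k42 7 (.s k192 k255 6 (.s k64 k128 7 (.s k96 k112 3 (.s k32 k224 7 (.d
  k48 k16 k144 3 11))))))), (.s k47 k63 3 (.s k234 k42 7 (.s k224 k165 10 (.s k239 k229 2 (.s k101
  k32 10 (.d k111 k96 k175 2 7))))))] (.c k224 (.l (.s k160 k240 11 (.s k47 k63 3 (.s k42 k234 7 (.s
  k32 k37 2 (.s k239 k101 10 (.d k175 k165 k111 2 7))))))) .n)) (.c k234 (.l (.s k47 k63 3 (.s k165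
  k224 10 (.s k175 k160 2 (.s k239 k111 7 (.s k32 k101 10 (.s k48 k16 3 (.d k37 k42 k26 2 6))))))))
  .n)))))))) (.c k42 (.q k154 [(.s k47 k63 3 (.s k165 k224 10 (.s k138 k186 3 (.s k207 k69 10 (.d
  k143 k176 k79 6 7))))), (.s k58 k202 11 (.s k63 k47 3 (.s k48 k53 2 (.s k32 k16 3 (.d k101 k239
  k207 10 14))))), (.s k47 k63 3 (.s k165 k224 10 (.s k143 k176 6 (.s k175 k160 2 (.s k95 k255 11
  (.d k159 k191 k223 3 7)))))), (.s k138 k186 3 (.s k207 k69 10 (.s k143 k79 7 (.s k165 k176 6 (.s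
  k175 k160 2 (.s k95 k255 11 (.d k159 k191 k223 3 7)))))))] (.c k21 (.q k213 [(.s k47 k63 3 (.s
  k165 k224 10 (.s k138 k186 3 (.s k207 k69 10 (.d k143 k176 k79 6 7))))), (.s k58 k202 11 (.s k63
  k47 3 (.s k48 k53 2 (.s k32 k16 3 (.d k101 k239 k207 10 14))))), (.s k47 k63 3 (.s k165 k224 10
  (.s k143 k176 6 (.s k175 k160 2 (.s k95 k255 11 (.d k159 k191 k223 3 7)))))), (.s k138 k186 3 (.s
  k207 k69 10 (.s k143 k79 7 (.s k165 k176 6 (.s k175 k160 2 (.s k95 k255 11 (.d k159 k191 k223 3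
  7)))))))] (.c k26 (.l (.s k58 k202 11 (.s k63 k47 3 (.s k48 k53 2 (.s k32 k16 3 (.d k101 k239 k207
  10 14)))))) (.c k58 (.q k26 [(.s k48 k37 6 (.s k32 k16 3 (.d k101 k239 k207 10 14))), (.s k138
  k186 3 (.s k207 k69 10 (.s k143 k79 7 (.s k165 k176 6 (.d k47 k63 k224 3 10)))))] (.c k47 (.l (.s
  k48 k37 6 (.s k32 k16 3 (.d k101 k239 k207 10 14)))) (.c k80 (.q k95 [(.s k175 k255 11 (.s k165
  k160 2 (.d k47 k63 k224 3 10))), (.s k48 k37 6 (.s k32 k16 3 (.d k101 k239 k207 10 14)))] (.c k47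
  (.l (.s k48 k37 6 (.s k32 k16 3 (.d k101 k239 k207 10 14)))) .n)) (.c k95 (.q k80 [(.s k160 k240
  11 (.s k165 k175 2 (.d k47 k63 k224 3 10))), (.s k48 k37 6 (.s k32 k16 3 (.d k101 k239 k207 10
  14)))] (.c k47 (.l (.s k48 k37 6 (.s k32 k16 3 (.d k101 k239 k207 10 14)))) .n)) (.c k101 (.l (.s
  k47 k63 3 (.s k165 k224 10 (.s k138 k186 3 (.s k143 k176 6 (.d k207 k79 k69 7 10)))))) (.c k207
  (.l (.s k48 k37 6 (.s k32 k16 3 (.s k47 k63 3 (.s k101 k239 10 (.s k224 k165 10 (.d k96 k111 k160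
  2 7))))))) .n)))))) (.c k80 (.q k95 [(.s k47 k63 3 (.s k165 k224 10 (.d k175 k160 k255 2 11))),
  (.s k63 k47 3 (.s k159 k223 7 (.s k138 k186 3 (.d k207 k69 k111 10 11)))), (.s k175 k255 11 (.s
  k159 k223 7 (.s k165 k160 2 (.d k143 k191 k176 3 6))))] (.c k26 (.l (.s k58 k202 11 (.s k47 k63 3
  (.s k175 k255 11 (.d k165 k160 k224 2 10))))) (.c k58 (.q k26 [(.s k175 k255 11 (.s k165 k160 2
  (.d k47 k63 k224 3 10))), (.s k48 k37 6 (.s k32 k16 3 (.d k101 k239 k207 10 14)))] (.c k47 (.l (.s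
  k48 k37 6 (.s k32 k16 3 (.d k101 k239 k207 10 14)))) .n)) .n))) (.c k95 (.q k80 [(.s k160 k240 11
  (.s k165 k175 2 (.d k47 k63 k224 3 10))), (.s k63 k47 3 (.s k58 k202 11 (.s k48 k53 2 (.s k32 k16
  3 (.d k101 k239 k207 10 14))))), (.s k160 k240 11 (.s k138 k186 3 (.s k207 k69 10 (.s k143 k79 7
  (.d k165 k175 k176 2 6)))))] (.c k26 (.l (.s k58 k202 11 (.s k160 k240 11 (.s k47 k63 3 (.d k165
  k175 k224 2 10))))) (.c k58 (.q k26 [(.s k160 k240 11 (.s k165 k175 2 (.d k47 k63 k224 3 10))),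
  (.s k48 k37 6 (.s k32 k16 3 (.d k101 k239 k207 10 14)))] (.c k47 (.l (.s k48 k37 6 (.s k32 k16 3
  (.d k101 k239 k207 10 14)))) .n)) .n))) .n))))) (.c k26 (.l (.s k58 k202 11 (.s k63 k47 3 (.s k48
  k53 2 (.s k32 k16 3 (.d k101 k239 k207 10 14)))))) (.c k58 (.q k26 [(.s k48 k37 6 (.d k16 k21 k32
  2 3)), (.s k138 k186 3 (.s k207 k69 10 (.s k143 k79 7 (.s k165 k176 6 (.d k47 k63 k224 3 10)))))]
  (.c k21 (.q k213 [(.s k48 k37 6 (.s k32 k16 3 (.d k101 k239 k207 10 14))), (.s k138 k186 3 (.s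
  k207 k69 10 (.s k143 k79 7 (.s k165 k176 6 (.d k47 k63 k224 3 10)))))] (.c k47 (.l (.s k48 k37 6
  (.s k32 k16 3 (.d k101 k239 k207 10 14)))) (.c k80 (.q k95 [(.s k175 k255 11 (.s k165 k160 2 (.d
  k47 k63 k224 3 10))), (.s k48 k37 6 (.s k32 k16 3 (.d k101 k239 k207 10 14)))] (.c k47 (.l (.s k48
  k37 6 (.s k32 k16 3 (.d k101 k239 k207 10 14)))) .n)) (.c k95 (.q k80 [(.s k160 k240 11 (.s k165
  k175 2 (.d k47 k63 k224 3 10))), (.s k48 k37 6 (.s k32 k16 3 (.d k101 k239 k207 10 14)))] (.c k47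
  (.l (.s k48 k37 6 (.s k32 k16 3 (.d k101 k239 k207 10 14)))) .n)) (.c k101 (.l (.s k47 k63 3 (.s
  k165 k224 10 (.s k138 k186 3 (.s k143 k176 6 (.d k207 k79 k69 7 10)))))) (.c k207 (.l (.s k48 k37
  6 (.s k32 k16 3 (.s k47 k63 3 (.s k101 k239 10 (.s k224 k165 10 (.d k96 k111 k160 2 7)))))))
  .n)))))) (.c k47 (.l (.s k48 k37 6 (.s k32 k16 3 (.d k101 k239 k207 10 14)))) (.c k80 (.q k95 [(.s
  k48 k37 6 (.d k16 k21 k32 2 3)), (.s k175 k255 11 (.s k165 k160 2 (.d k47 k63 k224 3 10)))] (.c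
  k21 (.q k213 [(.s k175 k255 11 (.s k165 k160 2 (.d k47 k63 k224 3 10))), (.s k48 k37 6 (.s k32 k16
  3 (.d k101 k239 k207 10 14)))] (.c k47 (.l (.s k48 k37 6 (.s k32 k16 3 (.d k101 k239 k207 10
  14)))) .n)) (.c k47 (.l (.s k48 k37 6 (.s k32 k16 3 (.d k101 k239 k207 10 14)))) (.c k213 (.l (.s
  k21 k16 2 (.s k48 k37 6 (.s k255 k175 11 (.d k186 k138 k117 3 10))))) .n)))) (.c k95 (.q k80 [(.s
  k48 k37 6 (.d k16 k21 k32 2 3)), (.s k160 k240 11 (.s k165 k175 2 (.d k47 k63 k224 3 10)))] (.c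
  k21 (.q k213 [(.s k160 k240 11 (.s k165 k175 2 (.d k47 k63 k224 3 10))), (.s k48 k37 6 (.s k32 k16
  3 (.d k101 k239 k207 10 14)))] (.c k47 (.l (.s k48 k37 6 (.s k32 k16 3 (.d k101 k239 k207 10
  14)))) .n)) (.c k47 (.l (.s k48 k37 6 (.s k32 k16 3 (.d k101 k239 k207 10 14)))) (.c k213 (.l (.s
  k21 k16 2 (.s k160 k240 11 (.s k47 k63 3 (.d k165 k175 k224 2 10))))) .n)))) (.c k213 (.l (.s k21
  k16 2 (.s k48 k37 6 (.s k207 k101 14 (.d k138 k69 k186 10 3))))) .n)))))) (.c k80 (.q k95 [(.s k47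
  k63 3 (.s k165 k224 10 (.d k175 k160 k255 2 11))), (.s k63 k47 3 (.s k159 k223 7 (.s k138 k186 3
  (.d k207 k69 k111 10 11)))), (.s k175 k255 11 (.s k159 k223 7 (.s k165 k160 2 (.d k143 k191 k176 3
  6))))] (.c k21 (.q k213 [(.s k47 k63 3 (.s k165 k224 10 (.d k175 k160 k255 2 11))), (.s k63 k47 3
  (.s k159 k223 7 (.s k138 k186 3 (.d k207 k69 k111 10 11)))), (.s k175 k255 11 (.s k159 k223 7 (.s
  k165 k160 2 (.d k143 k191 k176 3 6))))] (.c k26 (.l (.s k58 k202 11 (.s k47 k63 3 (.s k175 k255 11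
  (.d k165 k160 k224 2 10))))) (.c k58 (.q k26 [(.s k175 k255 11 (.s k165 k160 2 (.d k47 k63 k224 3
  10))), (.s k48 k37 6 (.s k32 k16 3 (.d k101 k239 k207 10 14)))] (.c k47 (.l (.s k48 k37 6 (.s k32
  k16 3 (.d k101 k239 k207 10 14)))) .n)) .n))) (.c k26 (.l (.s k58 k202 11 (.s k47 k63 3 (.s k175
  k255 11 (.d k165 k160 k224 2 10))))) (.c k58 (.q k26 [(.s k48 k37 6 (.d k16 k21 k32 2 3)), (.s
  k175 k255 11 (.s k165 k160 2 (.d k47 k63 k224 3 10)))] (.c k21 (.q k213 [(.s k175 k255 11 (.s k165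
  k160 2 (.d k47 k63 k224 3 10))), (.s k48 k37 6 (.s k32 k16 3 (.d k101 k239 k207 10 14)))] (.c k47
  (.l (.s k48 k37 6 (.s k32 k16 3 (.d k101 k239 k207 10 14)))) .n)) (.c k47 (.l (.s k48 k37 6 (.s
  k32 k16 3 (.d k101 k239 k207 10 14)))) (.c k213 (.l (.s k21 k16 2 (.s k48 k37 6 (.s k255 k175 11
  (.d k186 k138 k117 3 10))))) .n)))) (.c k213 (.q k21 [(.s k47 k63 3 (.s k165 k224 10 (.d k175 k160
  k255 2 11))), (.s k63 k47 3 (.s k16 k26 2 (.s k58 k202 11 (.d k48 k32 k53 3 2)))), (.s k175 k255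
  11 (.s k159 k223 7 (.s k165 k160 2 (.d k143 k191 k176 3 6))))] (.c k26 (.l (.s k58 k202 11 (.s k47
  k63 3 (.s k175 k255 11 (.d k165 k160 k224 2 10))))) (.c k58 (.l (.s k26 k16 2 (.s k48 k37 6 (.s
  k255 k175 11 (.d k186 k138 k117 3 10))))) .n))) .n))))) (.c k95 (.q k80 [(.s k160 k240 11 (.s k165
  k175 2 (.d k47 k63 k224 3 10))), (.s k63 k47 3 (.s k58 k202 11 (.s k48 k53 2 (.s k32 k16 3 (.d
  k101 k239 k207 10 14))))), (.s k160 k240 11 (.s k138 k186 3 (.s k207 k69 10 (.s k143 k79 7 (.d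
  k165 k175 k176 2 6)))))] (.c k21 (.q k213 [(.s k160 k240 11 (.s k165 k175 2 (.d k47 k63 k224 3
  10))), (.s k63 k47 3 (.s k58 k202 11 (.s k48 k53 2 (.s k32 k16 3 (.d k101 k239 k207 10 14))))),
  (.s k160 k240 11 (.s k138 k186 3 (.s k207 k69 10 (.s k143 k79 7 (.d k165 k175 k176 2 6)))))] (.c
  k26 (.l (.s k58 k202 11 (.s k160 k240 11 (.s k47 k63 3 (.d k165 k175 k224 2 10))))) (.c k58 (.q
  k26 [(.s k160 k240 11 (.s k165 k175 2 (.d k47 k63 k224 3 10))), (.s k48 k37 6 (.s k32 k16 3 (.d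
  k101 k239 k207 10 14)))] (.c k47 (.l (.s k48 k37 6 (.s k32 k16 3 (.d k101 k239 k207 10 14)))) .n))
  .n))) (.c k26 (.l (.s k58 k202 11 (.s k160 k240 11 (.s k47 k63 3 (.d k165 k175 k224 2 10))))) (.c
  k58 (.q k26 [(.s k48 k37 6 (.d k16 k21 k32 2 3)), (.s k160 k240 11 (.s k165 k175 2 (.d k47 k63
  k224 3 10)))] (.c k21 (.q k213 [(.s k160 k240 11 (.s k165 k175 2 (.d k47 k63 k224 3 10))), (.s k48
  k37 6 (.s k32 k16 3 (.d k101 k239 k207 10 14)))] (.c k47 (.l (.s k48 k37 6 (.s k32 k16 3 (.d k101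
  k239 k207 10 14)))) .n)) (.c k47 (.l (.s k48 k37 6 (.s k32 k16 3 (.d k101 k239 k207 10 14)))) (.c
  k213 (.l (.s k21 k16 2 (.s k160 k240 11 (.s k47 k63 3 (.d k165 k175 k224 2 10))))) .n)))) (.c k213
  (.q k21 [(.s k160 k240 11 (.s k165 k175 2 (.d k47 k63 k224 3 10))), (.s k26 k16 2 (.s k138 k186 3
  (.s k207 k69 10 (.d k48 k101 k37 14 6))))] (.c k26 (.l (.s k58 k202 11 (.s k160 k240 11 (.s k47
  k63 3 (.d k165 k175 k224 2 10))))) (.c k58 (.l (.s k26 k16 2 (.s k160 k240 11 (.s k47 k63 3 (.d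
  k165 k175 k224 2 10))))) .n))) .n))))) (.c k213 (.q k21 [(.s k26 k16 2 (.s k138 k186 3 (.s k207
  k69 10 (.d k48 k101 k37 14 6)))), (.s k63 k47 3 (.s k16 k26 2 (.s k58 k202 11 (.d k48 k32 k53 3
  2)))), (.s k47 k63 3 (.s k165 k224 10 (.s k138 k186 3 (.s k207 k69 10 (.d k143 k176 k79 6 7)))))]
  (.c k26 (.l (.s k58 k202 11 (.s k63 k47 3 (.s k48 k53 2 (.s k32 k16 3 (.d k101 k239 k207 10
  14)))))) (.c k58 (.l (.s k26 k16 2 (.s k48 k37 6 (.s k207 k101 14 (.d k138 k69 k186 10 3))))) (.c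
  k80 (.q k95 [(.s k47 k63 3 (.s k165 k224 10 (.d k175 k160 k255 2 11))), (.s k63 k47 3 (.s k16 k26
  2 (.s k58 k202 11 (.d k48 k32 k53 3 2)))), (.s k175 k255 11 (.s k159 k223 7 (.s k165 k160 2 (.d
  k143 k191 k176 3 6))))] (.c k26 (.l (.s k58 k202 11 (.s k47 k63 3 (.s k175 k255 11 (.d k165 k160
  k224 2 10))))) (.c k58 (.l (.s k26 k16 2 (.s k48 k37 6 (.s k255 k175 11 (.d k186 k138 k117 3
  10))))) .n))) (.c k95 (.q k80 [(.s k160 k240 11 (.s k165 k175 2 (.d k47 k63 k224 3 10))), (.s k26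
  k16 2 (.s k138 k186 3 (.s k207 k69 10 (.d k48 k101 k37 14 6))))] (.c k26 (.l (.s k58 k202 11 (.s
  k160 k240 11 (.s k47 k63 3 (.d k165 k175 k224 2 10))))) (.c k58 (.l (.s k26 k16 2 (.s k160 k240 11
  (.s k47 k63 3 (.d k165 k175 k224 2 10))))) .n))) (.c k138 (.l (.s k47 k63 3 (.s k26 k16 2 (.s k48
  k37 6 (.s k165 k224 10 (.s k207 k101 14 (.d k143 k79 k176 7 6))))))) .n)))))) .n))))))) (.c k47
  (.f k42 k234 7 (.f k21 k63 6 (.q k2 [(.s k3 k1 0 (.s k22 k62 5 (.s k60 k41 6 (.d k20 k23 k40 0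
  5)))), (.s k62 k22 5 (.s k86 k254 13 (.s k66 k126 5 (.d k194 k130 k150 7 13)))), (.s k3 k1 0 (.s
  k16 k26 2 (.s k48 k32 3 (.s k18 k33 4 (.s k34 k50 3 (.d k17 k19 k51 0 4))))))] (.c k80 (.q k95
  [(.s k3 k1 0 (.s k22 k62 5 (.s k60 k41 6 (.d k20 k23 k40 0 5)))), (.s k62 k22 5 (.s k86 k254 13
  (.s k66 k126 5 (.d k194 k130 k150 7 13)))), (.s k3 k1 0 (.s k86 k254 13 (.s k7 k11 1 (.s k165 k244
  12 (.d k175 k160 k255 2 11)))))] .n) (.c k95 (.q k80 [(.s k3 k1 0 (.s k22 k62 5 (.s k60 k41 6 (.d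
  k20 k23 k40 0 5)))), (.s k62 k22 5 (.s k86 k254 13 (.s k66 k126 5 (.d k194 k130 k150 7 13)))), (.s
  k3 k1 0 (.s k160 k240 11 (.s k86 k254 13 (.s k7 k11 1 (.d k165 k175 k244 2 12)))))] .n) .n)))))
  (.c k63 (.q k2 [(.s k86 k254 13 (.s k42 k234 7 (.s k62 k22 5 (.s k66 k126 5 (.d k194 k130 k150 7
  13))))), (.s k3 k1 0 (.s k7 k11 1 (.s k42 k234 7 (.s k22 k62 5 (.s k37 k52 4 (.s k48 k26 6 (.d k32
  k47 k16 2 3))))))), (.s k3 k1 0 (.s k86 k254 13 (.s k66 k126 5 (.s k192 k129 8 (.s k64 k128 7 (.s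
  k65 k67 0 (.d k130 k194 k195 7 8)))))))] (.c k21 (.q k213 [(.s k86 k254 13 (.s k42 k234 7 (.s k62
  k22 5 (.s k194 k150 13 (.d k66 k126 k130 5 7))))), (.s k3 k1 0 (.s k7 k11 1 (.s k42 k234 7 (.s k22
  k62 5 (.s k37 k52 4 (.s k48 k26 6 (.d k32 k47 k16 2 3))))))), (.s k3 k1 0 (.s k86 k254 13 (.s k169
  k252 14 (.s k171 k168 0 (.s k255 k87 13 (.s k192 k234 6 (.d k66 k126 k129 5 8)))))))] (.c k80 (.q
  k95 [(.s k255 k175 11 (.d k234 k192 k42 6 7)), (.s k3 k1 0 (.s k86 k254 13 (.s k7 k11 1 (.s k165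
  k244 12 (.d k175 k160 k255 2 11))))), (.s k86 k254 13 (.s k42 k234 7 (.s k62 k22 5 (.s k194 k150
  13 (.d k66 k126 k130 5 7)))))] .n) (.c k95 (.q k80 [(.s k160 k240 11 (.s k86 k254 13 (.s k165 k175
  2 (.s k7 k244 12 (.d k3 k1 k11 0 1))))), (.s k86 k254 13 (.s k42 k234 7 (.s k62 k22 5 (.s k194
  k150 13 (.d k66 k126 k130 5 7))))), (.s k3 k1 0 (.s k240 k160 11 (.s k82 k161 12 (.s k162 k242 11
  (.d k81 k83 k243 0 12)))))] .n) (.c k234 (.l (.s k3 k1 0 (.s k86 k254 13 (.s k66 k126 5 (.s k192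
  k129 8 (.s k64 k128 7 (.s k65 k67 0 (.d k130 k194 k195 7 8)))))))) .n)))) (.c k62 (.f k42 k234 7
  (.l (.s k3 k1 0 (.s k86 k254 13 (.s k169 k252 14 (.s k43 k232 8 (.s k40 k41 0 (.s k235 k105 8 (.d
  k171 k168 k107 0 7))))))))) (.c k80 (.q k95 [(.s k3 k1 0 (.s k86 k254 13 (.s k169 k252 14 (.s k255
  k175 11 (.d k171 k168 k87 0 13))))), (.s k86 k254 13 (.s k42 k234 7 (.s k62 k22 5 (.s k194 k150 13
  (.d k66 k126 k130 5 7))))), (.s k3 k1 0 (.s k7 k11 1 (.s k255 k175 11 (.s k87 k171 13 (.s k167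
  k247 11 (.d k91 k83 k243 1 13))))))] (.c k21 (.q k213 [(.s k255 k175 11 (.d k234 k192 k42 6 7)),
  (.s k3 k1 0 (.s k86 k254 13 (.s k7 k11 1 (.s k165 k244 12 (.d k175 k160 k255 2 11))))), (.s k86
  k254 13 (.s k42 k234 7 (.s k62 k22 5 (.s k194 k150 13 (.d k66 k126 k130 5 7)))))] .n) (.c k213 (.q
  k21 [(.s k3 k1 0 (.s k86 k254 13 (.s k169 k252 14 (.s k255 k175 11 (.d k171 k168 k87 0 13))))),
  (.s k86 k254 13 (.s k42 k234 7 (.s k62 k22 5 (.s k194 k150 13 (.d k66 k126 k130 5 7))))), (.s k3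
  k1 0 (.s k42 k234 7 (.s k22 k62 5 (.s k60 k41 6 (.d k20 k23 k40 0 5)))))] (.c k255 (.l (.s k86
  k254 13 (.s k66 k126 5 (.s k194 k130 7 (.s k62 k150 13 (.d k42 k22 k234 5 7)))))) .n)) .n))) (.c
  k95 (.q k80 [(.s k3 k1 0 (.s k160 k240 11 (.s k86 k254 13 (.s k165 k175 2 (.d k7 k11 k244 1
  12))))), (.s k86 k254 13 (.s k42 k234 7 (.s k62 k22 5 (.s k194 k150 13 (.d k66 k126 k130 5 7))))),
  (.s k3 k1 0 (.s k240 k160 11 (.s k82 k161 12 (.s k162 k242 11 (.d k81 k83 k243 0 12)))))] (.c k21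
  (.q k213 [(.s k160 k240 11 (.s k86 k254 13 (.s k165 k175 2 (.s k7 k244 12 (.d k3 k1 k11 0 1))))),
  (.s k86 k254 13 (.s k42 k234 7 (.s k62 k22 5 (.s k194 k150 13 (.d k66 k126 k130 5 7))))), (.s k3
  k1 0 (.s k240 k160 11 (.s k82 k161 12 (.s k162 k242 11 (.d k81 k83 k243 0 12)))))] .n) (.c k213
  (.q k21 [(.s k3 k1 0 (.s k160 k240 11 (.s k86 k254 13 (.s k165 k175 2 (.d k7 k11 k244 1 12))))),
  (.s k160 k240 11 (.s k16 k26 2 (.s k32 k48 3 (.s k96 k224 7 (.d k101 k111 k239 2 10))))), (.s k3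
  k1 0 (.s k42 k234 7 (.s k22 k62 5 (.s k60 k41 6 (.d k20 k23 k40 0 5)))))] .n) .n))) (.c k213 (.q
  k21 [(.s k3 k1 0 (.s k42 k234 7 (.s k22 k62 5 (.s k60 k41 6 (.d k20 k23 k40 0 5))))), (.s k3 k1 0
  (.s k16 k26 2 (.s k48 k32 3 (.s k18 k33 4 (.s k34 k50 3 (.d k17 k19 k51 0 4)))))), (.s k86 k254 13
  (.s k42 k234 7 (.s k62 k22 5 (.s k194 k150 13 (.d k66 k126 k130 5 7)))))] (.c k42 (.l (.s k3 k1 0
  (.s k86 k254 13 (.s k66 k126 5 (.s k130 k194 7 (.s k65 k195 8 (.s k192 k129 8 (.d k64 k67 k128 0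
  7)))))))) (.c k80 (.q k95 [(.s k3 k1 0 (.s k86 k254 13 (.s k169 k252 14 (.s k255 k175 11 (.d k171
  k168 k87 0 13))))), (.s k86 k254 13 (.s k42 k234 7 (.s k62 k22 5 (.s k194 k150 13 (.d k66 k126
  k130 5 7))))), (.s k3 k1 0 (.s k42 k234 7 (.s k22 k62 5 (.s k60 k41 6 (.d k20 k23 k40 0 5)))))]
  (.c k255 (.l (.s k86 k254 13 (.s k66 k126 5 (.s k194 k130 7 (.s k62 k150 13 (.d k42 k22 k234 5
  7)))))) .n)) (.c k95 (.q k80 [(.s k3 k1 0 (.s k160 k240 11 (.s k86 k254 13 (.s k165 k175 2 (.d k7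
  k11 k244 1 12))))), (.s k160 k240 11 (.s k16 k26 2 (.s k32 k48 3 (.s k96 k224 7 (.d k101 k111 k239
  2 10))))), (.s k3 k1 0 (.s k42 k234 7 (.s k22 k62 5 (.s k60 k41 6 (.d k20 k23 k40 0 5)))))] .n)
  .n)))) .n)))))) (.c k80 (.q k95 [(.s k63 k47 3 (.d k42 k21 k234 6 7)), (.s k47 k63 3 (.s k175 k255
  11 (.d k165 k160 k224 2 10)))] (.c k21 (.q k213 [(.s k255 k175 11 (.d k234 k192 k42 6 7)), (.s k47
  k63 3 (.s k175 k255 11 (.d k165 k160 k224 2 10))), (.s k47 k63 3 (.s k42 k234 7 (.s k32 k37 2 (.s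
  k101 k239 10 (.s k224 k165 10 (.d k96 k111 k160 2 7))))))] .n) (.c k47 (.l (.s k175 k255 11 (.s
  k159 k223 7 (.s k42 k234 7 (.s k143 k191 3 (.s k207 k79 7 (.d k63 k21 k111 6 11))))))) (.c k63 (.l
  (.s k175 k255 11 (.s k42 k234 7 (.s k165 k160 2 (.s k47 k224 10 (.s k32 k37 2 (.d k239 k111 k101 7
  10))))))) (.c k213 (.q k21 [(.d k63 k47 k42 3 6), (.s k255 k175 11 (.s k16 k26 2 (.s k32 k48 3 (.s
  k223 k159 7 (.d k239 k207 k101 3 10)))))] (.c k42 (.l (.s k47 k63 3 (.s k175 k255 11 (.d k165 k160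
  k224 2 10)))) .n)) .n))))) (.c k95 (.q k80 [(.s k63 k47 3 (.d k42 k21 k234 6 7)), (.s k160 k240 11
  (.s k47 k63 3 (.d k165 k175 k224 2 10)))] (.c k21 (.q k213 [(.s k160 k240 11 (.s k165 k175 2 (.d
  k47 k63 k224 3 10))), (.s k160 k240 11 (.s k234 k42 7 (.s k192 k255 6 (.s k64 k128 7 (.s k96 k112
  3 (.s k32 k224 7 (.d k48 k16 k144 3 11))))))), (.s k47 k63 3 (.s k234 k42 7 (.s k224 k165 10 (.s
  k239 k229 2 (.s k101 k32 10 (.d k111 k96 k175 2 7))))))] (.c k224 (.l (.s k160 k240 11 (.s k47 k63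
  3 (.s k42 k234 7 (.s k32 k37 2 (.s k239 k101 10 (.d k175 k165 k111 2 7))))))) .n)) (.c k47 (.l (.s
  k160 k240 11 (.s k42 k234 7 (.s k21 k63 6 (.s k16 k26 2 (.s k32 k48 3 (.s k96 k224 7 (.d k101 k239
  k111 10 2)))))))) (.c k63 (.l (.s k160 k240 11 (.s k234 k42 7 (.s k165 k175 2 (.s k224 k47 10 (.s
  k32 k96 7 (.d k239 k229 k101 2 10))))))) (.c k213 (.q k21 [(.d k63 k47 k42 3 6), (.s k160 k240 11
  (.s k16 k26 2 (.s k32 k48 3 (.s k96 k224 7 (.d k101 k111 k239 2 10)))))] (.c k42 (.l (.s k160 k240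
  11 (.s k47 k63 3 (.d k165 k175 k224 2 10)))) .n)) .n))))) (.c k213 (.q k21 [(.d k63 k47 k42 3 6)]
  (.c k42 (.l (.s k47 k63 3 (.s k165 k224 10 (.s k175 k160 2 (.s k239 k111 7 (.s k32 k101 10 (.d k16
  k26 k48 2 3))))))) (.c k47 (.l (.d k42 k63 k234 6 7)) (.c k63 (.l (.s k16 k26 2 (.s k32 k48 3 (.s
  k101 k239 10 (.s k42 k234 7 (.s k47 k37 2 (.s k224 k165 10 (.d k96 k111 k160 2 7)))))))) (.c k80
  (.q k95 [(.d k63 k47 k42 3 6), (.s k255 k175 11 (.s k16 k26 2 (.s k32 k48 3 (.s k223 k159 7 (.d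
  k239 k207 k101 3 10)))))] (.c k42 (.l (.s k47 k63 3 (.s k175 k255 11 (.d k165 k160 k224 2 10))))
  .n)) (.c k95 (.q k80 [(.d k63 k47 k42 3 6), (.s k160 k240 11 (.s k16 k26 2 (.s k32 k48 3 (.s k96
  k224 7 (.d k101 k111 k239 2 10)))))] (.c k42 (.l (.s k160 k240 11 (.s k47 k63 3 (.d k165 k175 k224
  2 10)))) .n)) .n)))))) (.c k234 (.l (.s k47 k63 3 (.s k165 k224 10 (.s k175 k160 2 (.s k239 k111 7
  (.s k32 k101 10 (.s k48 k16 3 (.d k37 k42 k26 2 6)))))))) .n)))))))))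

def t10_85_150 : T TT 256 :=
  (.l (.s k42 k234 7 (.s k63 k21 6 (.s k47 k31 3 (.s k32 k37 2 (.s k101 k239 10 (.s k224 k165 10 (.d
  k96 k111 k160 2 7))))))))

def t10_85_151 : T TT 256 :=
  (.l (.s k42 k234 7 (.s k63 k21 6 (.s k47 k31 3 (.s k32 k37 2 (.s k101 k239 10 (.s k224 k165 10 (.d
  k96 k111 k160 2 7))))))))

def t10_85_152 : T TT 256 :=
  (.l (.s k42 k234 7 (.s k63 k21 6 (.s k47 k31 3 (.s k32 k37 2 (.s k101 k239 10 (.s k224 k165 10 (.d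
  k96 k111 k160 2 7))))))))

def t10_85_153 : T TT 256 :=
  (.l (.s k42 k234 7 (.s k63 k21 6 (.s k47 k31 3 (.s k32 k37 2 (.s k101 k239 10 (.s k224 k165 10 (.d
  k96 k111 k160 2 7))))))))

def t10_85_154 : T TT 256 :=
  (.l (.s k42 k234 7 (.s k63 k21 6 (.s k47 k31 3 (.s k32 k37 2 (.s k101 k239 10 (.s k224 k165 10 (.d
  k96 k111 k160 2 7))))))))

def t10_85_155 : T TT 256 :=
  (.l (.s k42 k234 7 (.s k63 k21 6 (.s k47 k31 3 (.s k32 k37 2 (.s k101 k239 10 (.s k224 k165 10 (.d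
  k96 k111 k160 2 7))))))))

def t10_85_156 : T TT 256 :=
  (.l (.s k42 k234 7 (.s k63 k21 6 (.s k47 k31 3 (.s k32 k37 2 (.s k101 k239 10 (.s k224 k165 10 (.d
  k96 k111 k160 2 7))))))))

def t10_85_157 : T TT 256 :=
  (.l (.s k42 k234 7 (.s k63 k21 6 (.s k47 k31 3 (.s k32 k37 2 (.s k101 k239 10 (.s k224 k165 10 (.d
  k96 k111 k160 2 7))))))))

def t10_85_158 : T TT 256 :=
  (.l (.s k42 k234 7 (.s k63 k21 6 (.s k47 k31 3 (.s k32 k37 2 (.s k101 k239 10 (.s k224 k165 10 (.d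
  k96 k111 k160 2 7))))))))

def t10_85_159 : T TT 256 :=
  (.l (.s k42 k234 7 (.s k63 k21 6 (.s k47 k31 3 (.s k32 k37 2 (.s k101 k239 10 (.s k224 k165 10 (.d
  k96 k111 k160 2 7))))))))

def t10_85_160 : T TT 256 :=
  (.f k42 k234 7 (.l (.s k63 k21 6 (.s k47 k31 3 (.s k32 k37 2 (.s k101 k239 10 (.s k149 k192 14 (.s
  k53 k197 11 (.d k48 k16 k58 3 2)))))))))

def t10_85_161 : T TT 256 :=
  (.l (.s k42 k234 7 (.s k63 k21 6 (.s k47 k31 3 (.s k32 k37 2 (.s k101 k239 10 (.s k224 k165 10 (.d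
  k96 k111 k160 2 7))))))))

def t10_85_162 : T TT 256 :=
  (.l (.s k42 k234 7 (.s k63 k21 6 (.s k47 k31 3 (.s k32 k37 2 (.s k101 k239 10 (.s k224 k165 10 (.d
  k96 k111 k160 2 7))))))))

def t10_85_163 : T TT 256 :=
  (.l (.s k42 k234 7 (.s k63 k21 6 (.s k47 k31 3 (.s k32 k37 2 (.s k101 k239 10 (.s k224 k165 10 (.d
  k96 k111 k160 2 7))))))))

def t10_85_164 : T TT 256 :=
  (.l (.s k42 k234 7 (.s k63 k21 6 (.s k47 k31 3 (.s k32 k37 2 (.s k101 k239 10 (.s k224 k165 10 (.d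
  k96 k111 k160 2 7))))))))

def t10_85_165 : T TT 256 :=
  (.f k42 k234 7 (.l (.s k63 k21 6 (.s k47 k31 3 (.s k32 k37 2 (.s k101 k239 10 (.s k149 k192 14 (.s
  k53 k197 11 (.d k48 k16 k58 3 2)))))))))

def t10_85_166 : T TT 256 :=
  (.l (.s k42 k234 7 (.s k63 k21 6 (.s k47 k31 3 (.s k32 k37 2 (.s k101 k239 10 (.s k224 k165 10 (.d
  k96 k111 k160 2 7))))))))

def t10_85_167 : T TT 256 :=
  (.l (.s k42 k234 7 (.s k63 k21 6 (.s k47 k31 3 (.s k32 k37 2 (.s k101 k239 10 (.s k224 k165 10 (.d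
  k96 k111 k160 2 7))))))))

def t10_85_168 : T TT 256 :=
  (.l (.s k42 k234 7 (.s k63 k21 6 (.s k47 k31 3 (.s k32 k37 2 (.s k101 k239 10 (.s k224 k165 10 (.d
  k96 k111 k160 2 7))))))))

def t10_85_169 : T TT 256 :=
  (.l (.s k42 k234 7 (.s k63 k21 6 (.s k47 k31 3 (.s k32 k37 2 (.s k101 k239 10 (.s k224 k165 10 (.d
  k96 k111 k160 2 7))))))))

def t10_85_171 : T TT 256 :=
  (.l (.s k42 k234 7 (.s k63 k21 6 (.s k47 k31 3 (.s k32 k37 2 (.s k101 k239 10 (.s k224 k165 10 (.d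
  k96 k111 k160 2 7))))))))

def t10_85_172 : T TT 256 :=
  (.l (.s k42 k234 7 (.s k63 k21 6 (.s k47 k31 3 (.s k32 k37 2 (.s k101 k239 10 (.s k224 k165 10 (.d
  k96 k111 k160 2 7))))))))

def t10_85_173 : T TT 256 :=
  (.l (.s k42 k234 7 (.s k63 k21 6 (.s k47 k31 3 (.s k32 k37 2 (.s k101 k239 10 (.s k224 k165 10 (.d
  k96 k111 k160 2 7))))))))

def t10_85_174 : T TT 256 :=
  (.l (.s k42 k234 7 (.s k63 k21 6 (.s k47 k31 3 (.s k32 k37 2 (.s k101 k239 10 (.s k224 k165 10 (.d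
  k96 k111 k160 2 7))))))))

def t10_85_175 : T TT 256 :=
  (.l (.s k42 k234 7 (.s k63 k21 6 (.s k47 k31 3 (.s k32 k37 2 (.s k101 k239 10 (.s k224 k165 10 (.d
  k96 k111 k160 2 7))))))))

def t10_85_176 : T TT 256 :=
  (.l (.s k42 k234 7 (.s k63 k21 6 (.s k47 k31 3 (.s k32 k37 2 (.s k101 k239 10 (.s k224 k165 10 (.d
  k96 k111 k160 2 7))))))))

def t10_85_177 : T TT 256 :=
  (.l (.s k42 k234 7 (.s k63 k21 6 (.s k47 k31 3 (.s k32 k37 2 (.s k101 k239 10 (.s k224 k165 10 (.d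
  k96 k111 k160 2 7))))))))

def t10_85_178 : T TT 256 :=
  (.l (.s k42 k234 7 (.s k63 k21 6 (.s k47 k31 3 (.s k32 k37 2 (.s k101 k239 10 (.s k224 k165 10 (.d
  k96 k111 k160 2 7))))))))

def t10_85_179 : T TT 256 :=
  (.l (.s k42 k234 7 (.s k63 k21 6 (.s k47 k31 3 (.s k32 k37 2 (.s k101 k239 10 (.s k224 k165 10 (.d
  k96 k111 k160 2 7))))))))

def t10_85_180 : T TT 256 :=
  (.l (.s k42 k234 7 (.s k63 k21 6 (.s k47 k31 3 (.s k32 k37 2 (.s k101 k239 10 (.s k224 k165 10 (.d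
  k96 k111 k160 2 7))))))))

def t10_85_181 : T TT 256 :=
  (.l (.s k42 k234 7 (.s k63 k21 6 (.s k47 k31 3 (.s k32 k37 2 (.s k101 k239 10 (.s k224 k165 10 (.d
  k96 k111 k160 2 7))))))))

def t10_85_182 : T TT 256 :=
  (.l (.s k42 k234 7 (.s k63 k21 6 (.s k47 k31 3 (.s k32 k37 2 (.s k101 k239 10 (.s k224 k165 10 (.d
  k96 k111 k160 2 7))))))))

def t10_85_183 : T TT 256 :=
  (.l (.s k42 k234 7 (.s k63 k21 6 (.s k47 k31 3 (.s k32 k37 2 (.s k101 k239 10 (.s k224 k165 10 (.d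
  k96 k111 k160 2 7))))))))

def t10_85_184 : T TT 256 :=
  (.l (.s k42 k234 7 (.s k63 k21 6 (.s k47 k31 3 (.s k32 k37 2 (.s k101 k239 10 (.s k224 k165 10 (.d
  k96 k111 k160 2 7))))))))

def t10_85_185 : T TT 256 :=
  (.l (.s k42 k234 7 (.s k63 k21 6 (.s k47 k31 3 (.s k32 k37 2 (.s k101 k239 10 (.s k224 k165 10 (.d
  k96 k111 k160 2 7))))))))

def t10_85_186 : T TT 256 :=
  (.l (.s k42 k234 7 (.s k63 k21 6 (.s k47 k31 3 (.s k32 k37 2 (.s k101 k239 10 (.s k224 k165 10 (.d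
  k96 k111 k160 2 7))))))))

def t10_85_187 : T TT 256 :=
  (.l (.s k42 k234 7 (.s k63 k21 6 (.s k47 k31 3 (.s k32 k37 2 (.s k101 k239 10 (.s k224 k165 10 (.d
  k96 k111 k160 2 7))))))))

def t10_85_188 : T TT 256 :=
  (.l (.s k42 k234 7 (.s k63 k21 6 (.s k47 k31 3 (.s k32 k37 2 (.s k101 k239 10 (.s k224 k165 10 (.d
  k96 k111 k160 2 7))))))))

def t10_85_189 : T TT 256 :=
  (.l (.s k42 k234 7 (.s k63 k21 6 (.s k47 k31 3 (.s k32 k37 2 (.s k101 k239 10 (.s k224 k165 10 (.d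
  k96 k111 k160 2 7))))))))

def t10_85_190 : T TT 256 :=
  (.l (.s k42 k234 7 (.s k63 k21 6 (.s k47 k31 3 (.s k32 k37 2 (.s k101 k239 10 (.s k224 k165 10 (.d
  k96 k111 k160 2 7))))))))

def t10_85_191 : T TT 256 :=
  (.l (.s k42 k234 7 (.s k63 k21 6 (.s k47 k31 3 (.s k32 k37 2 (.s k101 k239 10 (.s k224 k165 10 (.d
  k96 k111 k160 2 7))))))))

def t10_85_192 : T TT 256 :=
  (.l (.s k42 k234 7 (.s k63 k21 6 (.s k47 k31 3 (.s k32 k37 2 (.s k101 k239 10 (.s k224 k165 10 (.d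
  k96 k111 k160 2 7))))))))

def t10_85_193 : T TT 256 :=
  (.l (.s k42 k234 7 (.s k63 k21 6 (.s k47 k31 3 (.s k32 k37 2 (.s k101 k239 10 (.s k224 k165 10 (.d
  k96 k111 k160 2 7))))))))

def t10_85_194 : T TT 256 :=
  (.l (.s k42 k234 7 (.s k63 k21 6 (.s k47 k31 3 (.s k32 k37 2 (.s k101 k239 10 (.s k224 k165 10 (.d
  k96 k111 k160 2 7))))))))

def t10_85_195 : T TT 256 :=
  (.l (.s k42 k234 7 (.s k63 k21 6 (.s k47 k31 3 (.s k32 k37 2 (.s k101 k239 10 (.s k224 k165 10 (.d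
  k96 k111 k160 2 7))))))))

def t10_85_196 : T TT 256 :=
  (.l (.s k42 k234 7 (.s k63 k21 6 (.s k47 k31 3 (.s k32 k37 2 (.s k101 k239 10 (.s k224 k165 10 (.d
  k96 k111 k160 2 7))))))))

def t10_85_197 : T TT 256 :=
  (.l (.s k42 k234 7 (.s k63 k21 6 (.s k47 k31 3 (.s k32 k37 2 (.s k101 k239 10 (.s k224 k165 10 (.d
  k96 k111 k160 2 7))))))))

def t10_85_198 : T TT 256 :=
  (.l (.s k42 k234 7 (.s k63 k21 6 (.s k47 k31 3 (.s k32 k37 2 (.s k101 k239 10 (.s k224 k165 10 (.d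
  k96 k111 k160 2 7))))))))

def t10_85_199 : T TT 256 :=
  (.l (.s k42 k234 7 (.s k63 k21 6 (.s k47 k31 3 (.s k32 k37 2 (.s k101 k239 10 (.s k224 k165 10 (.d
  k96 k111 k160 2 7))))))))

def t10_85_200 : T TT 256 :=
  (.l (.s k42 k234 7 (.s k63 k21 6 (.s k47 k31 3 (.s k32 k37 2 (.s k101 k239 10 (.s k224 k165 10 (.d
  k96 k111 k160 2 7))))))))

def t10_85_201 : T TT 256 :=
  (.l (.s k42 k234 7 (.s k63 k21 6 (.s k47 k31 3 (.s k32 k37 2 (.s k101 k239 10 (.s k224 k165 10 (.d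
  k96 k111 k160 2 7))))))))

def t10_85_202 : T TT 256 :=
  (.l (.s k42 k234 7 (.s k63 k21 6 (.s k47 k31 3 (.s k32 k37 2 (.s k101 k239 10 (.s k224 k165 10 (.d
  k96 k111 k160 2 7))))))))

def t10_85_203 : T TT 256 :=
  (.l (.s k42 k234 7 (.s k63 k21 6 (.s k47 k31 3 (.s k32 k37 2 (.s k101 k239 10 (.s k224 k165 10 (.d
  k96 k111 k160 2 7))))))))

def t10_85_204 : T TT 256 :=
  (.l (.s k42 k234 7 (.s k63 k21 6 (.s k47 k31 3 (.s k32 k37 2 (.s k101 k239 10 (.s k224 k165 10 (.d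
  k96 k111 k160 2 7))))))))

def t10_85_205 : T TT 256 :=
  (.l (.s k42 k234 7 (.s k63 k21 6 (.s k47 k31 3 (.s k32 k37 2 (.s k101 k239 10 (.s k224 k165 10 (.d
  k96 k111 k160 2 7))))))))

def t10_85_206 : T TT 256 :=
  (.l (.s k42 k234 7 (.s k63 k21 6 (.s k47 k31 3 (.s k32 k37 2 (.s k101 k239 10 (.s k224 k165 10 (.d
  k96 k111 k160 2 7))))))))

def t10_85_207 : T TT 256 :=
  (.l (.s k42 k234 7 (.s k63 k21 6 (.s k47 k31 3 (.s k32 k37 2 (.s k101 k239 10 (.s k224 k165 10 (.d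
  k96 k111 k160 2 7))))))))

def t10_85_208 : T TT 256 :=
  (.f k42 k234 7 (.l (.s k63 k21 6 (.s k47 k31 3 (.s k149 k192 14 (.s k32 k37 2 (.s k101 k239 10 (.s
  k224 k165 10 (.d k96 k111 k160 2 7)))))))))

def t10_85_209 : T TT 256 :=
  (.l (.s k42 k234 7 (.s k63 k21 6 (.s k47 k31 3 (.s k32 k37 2 (.s k101 k239 10 (.s k224 k165 10 (.d
  k96 k111 k160 2 7))))))))

def t10_85_210 : T TT 256 :=
  (.l (.s k42 k234 7 (.s k63 k21 6 (.s k47 k31 3 (.s k32 k37 2 (.s k101 k239 10 (.s k224 k165 10 (.d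
  k96 k111 k160 2 7))))))))

def t10_85_211 : T TT 256 :=
  (.l (.s k42 k234 7 (.s k63 k21 6 (.s k47 k31 3 (.s k32 k37 2 (.s k101 k239 10 (.s k224 k165 10 (.d
  k96 k111 k160 2 7))))))))

def t10_85_212 : T TT 256 :=
  (.l (.s k42 k234 7 (.s k63 k21 6 (.s k47 k31 3 (.s k32 k37 2 (.s k101 k239 10 (.s k224 k165 10 (.d
  k96 k111 k160 2 7))))))))

def t10_85_213 : T TT 256 :=
  (.f k42 k234 7 (.f k63 k21 6 (.f k149 k192 14 (.q k255 [(.d k191 k128 k127 6 7), (.s k47 k31 3 (.s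
  k165 k224 10 (.d k175 k95 k160 11 2)))] (.c k80 (.l (.s k95 k175 11 (.d k191 k128 k127 6 7))) (.c
  k95 (.q k80 [(.d k191 k128 k127 6 7), (.s k160 k240 11 (.s k47 k31 3 (.d k165 k224 k175 10 2)))]
  .n) .n))))))

def t10_85_214 : T TT 256 :=
  (.l (.s k42 k234 7 (.s k63 k21 6 (.s k47 k31 3 (.s k32 k37 2 (.s k101 k239 10 (.s k224 k165 10 (.d
  k96 k111 k160 2 7))))))))

def t10_85_215 : T TT 256 :=
  (.l (.s k42 k234 7 (.s k63 k21 6 (.s k47 k31 3 (.s k32 k37 2 (.s k101 k239 10 (.s k224 k165 10 (.d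
  k96 k111 k160 2 7))))))))

def t10_85_216 : T TT 256 :=
  (.l (.s k42 k234 7 (.s k63 k21 6 (.s k47 k31 3 (.s k32 k37 2 (.s k101 k239 10 (.s k224 k165 10 (.d
  k96 k111 k160 2 7))))))))

def t10_85_217 : T TT 256 :=
  (.l (.s k42 k234 7 (.s k63 k21 6 (.s k47 k31 3 (.s k32 k37 2 (.s k101 k239 10 (.s k224 k165 10 (.d
  k96 k111 k160 2 7))))))))

def t10_85_218 : T TT 256 :=
  (.l (.s k42 k234 7 (.s k63 k21 6 (.s k47 k31 3 (.s k32 k37 2 (.s k101 k239 10 (.s k224 k165 10 (.d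
  k96 k111 k160 2 7))))))))

def t10_85_219 : T TT 256 :=
  (.l (.s k42 k234 7 (.s k63 k21 6 (.s k47 k31 3 (.s k32 k37 2 (.s k101 k239 10 (.s k224 k165 10 (.d
  k96 k111 k160 2 7))))))))

def t10_85_220 : T TT 256 :=
  (.l (.s k42 k234 7 (.s k63 k21 6 (.s k47 k31 3 (.s k32 k37 2 (.s k101 k239 10 (.s k224 k165 10 (.d
  k96 k111 k160 2 7))))))))

def t10_85_221 : T TT 256 :=
  (.l (.s k42 k234 7 (.s k63 k21 6 (.s k47 k31 3 (.s k32 k37 2 (.s k101 k239 10 (.s k224 k165 10 (.d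
  k96 k111 k160 2 7))))))))

def t10_85_222 : T TT 256 :=
  (.l (.s k42 k234 7 (.s k63 k21 6 (.s k47 k31 3 (.s k32 k37 2 (.s k101 k239 10 (.s k224 k165 10 (.d
  k96 k111 k160 2 7))))))))

def t10_85_223 : T TT 256 :=
  (.l (.s k42 k234 7 (.s k63 k21 6 (.s k47 k31 3 (.s k32 k37 2 (.s k101 k239 10 (.s k224 k165 10 (.d
  k96 k111 k160 2 7))))))))

def t10_85_224 : T TT 256 :=
  (.f k42 k234 7 (.f k63 k21 6 (.l (.s k47 k31 3 (.s k32 k37 2 (.s k239 k101 10 (.s k175 k111 7 (.s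
  k149 k192 14 (.s k191 k128 6 (.d k255 k127 k95 7 11))))))))))

def t10_85_225 : T TT 256 :=
  (.l (.s k42 k234 7 (.s k63 k21 6 (.s k47 k31 3 (.s k32 k37 2 (.s k101 k239 10 (.s k224 k165 10 (.d
  k96 k111 k160 2 7))))))))

def t10_85_226 : T TT 256 :=
  (.l (.s k42 k234 7 (.s k63 k21 6 (.s k47 k31 3 (.s k32 k37 2 (.s k101 k239 10 (.s k224 k165 10 (.d
  k96 k111 k160 2 7))))))))

def t10_85_227 : T TT 256 :=
  (.l (.s k42 k234 7 (.s k63 k21 6 (.s k47 k31 3 (.s k32 k37 2 (.s k101 k239 10 (.s k224 k165 10 (.d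
  k96 k111 k160 2 7))))))))

def t10_85_228 : T TT 256 :=
  (.l (.s k42 k234 7 (.s k63 k21 6 (.s k47 k31 3 (.s k32 k37 2 (.s k101 k239 10 (.s k224 k165 10 (.d
  k96 k111 k160 2 7))))))))

def t10_85_229 : T TT 256 :=
  (.l (.s k42 k234 7 (.s k63 k21 6 (.s k47 k31 3 (.s k32 k37 2 (.s k101 k239 10 (.s k224 k165 10 (.d
  k96 k111 k160 2 7))))))))

def t10_85_230 : T TT 256 :=
  (.l (.s k42 k234 7 (.s k63 k21 6 (.s k47 k31 3 (.s k32 k37 2 (.s k101 k239 10 (.s k224 k165 10 (.d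
  k96 k111 k160 2 7))))))))

def t10_85_231 : T TT 256 :=
  (.l (.s k42 k234 7 (.s k63 k21 6 (.s k47 k31 3 (.s k32 k37 2 (.s k101 k239 10 (.s k224 k165 10 (.d
  k96 k111 k160 2 7))))))))

def t10_85_232 : T TT 256 :=
  (.l (.s k42 k234 7 (.s k63 k21 6 (.s k47 k31 3 (.s k32 k37 2 (.s k101 k239 10 (.s k224 k165 10 (.d
  k96 k111 k160 2 7))))))))

def t10_85_233 : T TT 256 :=
  (.l (.s k42 k234 7 (.s k63 k21 6 (.s k47 k31 3 (.s k32 k37 2 (.s k101 k239 10 (.s k224 k165 10 (.d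
  k96 k111 k160 2 7))))))))

def t10_85_234 : T TT 256 :=
  (.q k149 [(.s k192 k63 14 (.d k128 k191 k64 6 7)), (.s k63 k192 14 (.s k47 k31 3 (.s k165 k224 10
  (.s k181 k133 3 (.s k240 k122 10 (.d k160 k80 k175 11 2))))))] (.c k63 (.l (.s k128 k191 6 (.s
  k192 k64 7 (.s k133 k74 10 (.s k138 k143 2 (.s k154 k186 3 (.s k202 k58 11 (.d k207 k69 k197 10
  2)))))))) (.c k80 (.q k95 [(.s k192 k63 14 (.d k128 k191 k64 6 7)), (.s k175 k255 11 (.s k165 k160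
  2 (.s k47 k224 10 (.d k63 k192 k31 14 3))))] (.c k63 (.l (.s k175 k255 11 (.s k165 k160 2 (.s k133
  k181 3 (.s k192 k74 10 (.d k128 k191 k64 6 7)))))) (.c k192 (.f k255 k175 11 (.l (.s k191 k128 6
  (.s k63 k127 7 (.s k31 k47 3 (.s k159 k223 7 (.s k154 k144 2 (.s k138 k186 3 (.d k207 k111 k69 11
  10))))))))) .n))) (.c k95 (.q k80 [(.s k192 k63 14 (.d k128 k191 k64 6 7)), (.s k160 k240 11 (.s
  k63 k192 14 (.s k47 k31 3 (.d k165 k224 k175 10 2))))] (.c k63 (.l (.s k160 k240 11 (.s k128 k191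
  6 (.s k192 k64 7 (.s k133 k74 10 (.d k165 k181 k175 3 2)))))) (.c k192 (.l (.s k160 k240 11 (.s
  k128 k191 6 (.s k176 k144 3 (.s k165 k175 2 (.s k133 k181 3 (.d k143 k138 k154 2 6))))))) .n)))
  (.c k192 (.q k130 [(.s k195 k65 8 (.s k150 k190 5 (.s k151 k148 0 (.s k107 k63 13 (.d k105 k104
  k60 0 14))))), (.s k128 k191 6 (.s k131 k129 0 (.s k150 k190 5 (.s k188 k169 6 (.d k148 k151 k168
  0 5))))), (.s k195 k65 8 (.s k135 k75 9 (.s k128 k191 6 (.s k131 k129 0 (.s k143 k139 1 (.s k207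
  k79 7 (.d k138 k133 k69 2 10)))))))] (.c k80 (.q k95 [(.s k195 k65 8 (.s k150 k190 5 (.s k151 k148
  0 (.s k107 k63 13 (.d k105 k104 k60 0 14))))), (.s k128 k191 6 (.s k131 k129 0 (.s k150 k190 5 (.s
  k188 k169 6 (.d k148 k151 k168 0 5))))), (.s k195 k65 8 (.s k135 k75 9 (.s k128 k191 6 (.s k131
  k129 0 (.s k143 k139 1 (.s k207 k79 7 (.d k138 k133 k69 2 10)))))))] (.c k213 (.l (.s k255 k175 11
  (.s k195 k65 8 (.s k150 k190 5 (.s k105 k60 14 (.d k235 k215 k40 5 8)))))) (.c k255 (.q k213 [(.s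
  k195 k65 8 (.s k150 k190 5 (.s k151 k148 0 (.s k107 k63 13 (.d k105 k104 k60 0 14))))), (.s k65
  k195 8 (.s k150 k190 5 (.s k194 k62 13 (.s k2 k66 7 (.s k1 k3 0 (.s k129 k193 7 (.d k128 k131 k191
  0 6))))))), (.s k65 k195 8 (.s k128 k191 6 (.s k129 k131 0 (.s k193 k1 7 (.s k105 k61 13 (.s k169
  k189 5 (.d k233 k253 k41 5 7))))))), (.s k128 k191 6 (.s k131 k129 0 (.s k150 k190 5 (.s k188 k169
  6 (.d k148 k151 k168 0 5)))))] (.c k125 (.f k191 k128 6 (.l (.s k190 k150 5 (.s k189 k188 0 (.s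
  k169 k129 5 (.s k168 k171 0 (.s k252 k84 13 (.s k126 k63 8 (.d k86 k66 k3 5 14))))))))) (.c k190
  (.l (.s k65 k195 8 (.s k128 k191 6 (.s k129 k131 0 (.s k193 k1 7 (.s k61 k105 13 (.s k189 k169 5
  (.d k253 k233 k125 5 7)))))))) (.c k191 (.l (.s k195 k65 8 (.s k150 k190 5 (.s k62 k194 13 (.s
  k151 k148 0 (.s k63 k107 13 (.d k60 k105 k61 14 0))))))) .n)))) .n))) (.c k95 (.q k80 [(.s k195
  k65 8 (.s k150 k190 5 (.s k151 k148 0 (.s k107 k63 13 (.d k105 k104 k60 0 14))))), (.s k160 k240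
  11 (.s k128 k191 6 (.s k176 k144 3 (.s k165 k175 2 (.s k133 k181 3 (.d k143 k138 k154 2 6))))))]
  (.c k63 (.l (.s k195 k65 8 (.s k160 k240 11 (.s k135 k75 9 (.s k150 k190 5 (.d k165 k175 k180 2
  4)))))) (.c k213 (.q k255 [(.s k195 k65 8 (.s k150 k190 5 (.s k105 k60 14 (.d k235 k215 k40 5
  8)))), (.s k160 k240 11 (.s k191 k128 6 (.s k63 k127 7 (.s k47 k31 3 (.d k165 k224 k175 10 2)))))]
  .n) (.c k255 (.q k213 [(.s k195 k65 8 (.s k150 k190 5 (.s k151 k148 0 (.s k107 k63 13 (.d k105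
  k104 k60 0 14))))), (.s k160 k240 11 (.s k128 k191 6 (.s k176 k144 3 (.s k165 k175 2 (.s k133 k181
  3 (.d k143 k138 k154 2 6)))))), (.s k195 k65 8 (.s k160 k240 11 (.s k135 k75 9 (.s k150 k190 5 (.d
  k165 k175 k180 2 4)))))] .n) .n)))) (.c k213 (.q k255 [(.s k195 k65 8 (.s k150 k190 5 (.s k105 k60
  14 (.d k235 k215 k40 5 8)))), (.s k191 k128 6 (.s k63 k127 7 (.s k47 k31 3 (.s k165 k224 10 (.d
  k175 k95 k160 11 2)))))] (.c k80 (.l (.s k95 k175 11 (.s k195 k65 8 (.s k150 k190 5 (.s k105 k60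
  14 (.d k235 k215 k40 5 8)))))) (.c k95 (.q k80 [(.s k195 k65 8 (.s k150 k190 5 (.s k105 k60 14 (.d
  k235 k215 k40 5 8)))), (.s k160 k240 11 (.s k191 k128 6 (.s k63 k127 7 (.s k47 k31 3 (.d k165 k224
  k175 10 2)))))] .n) .n))) (.c k255 (.q k213 [(.s k195 k65 8 (.s k150 k190 5 (.s k151 k148 0 (.s
  k107 k63 13 (.d k105 k104 k60 0 14))))), (.s k65 k195 8 (.s k150 k190 5 (.s k194 k62 13 (.s k2 k66
  7 (.s k1 k3 0 (.s k129 k193 7 (.d k128 k131 k191 0 6))))))), (.s k65 k195 8 (.s k128 k191 6 (.s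
  k129 k131 0 (.s k193 k1 7 (.s k105 k61 13 (.s k169 k189 5 (.d k233 k253 k41 5 7))))))), (.s k128
  k191 6 (.s k131 k129 0 (.s k150 k190 5 (.s k188 k169 6 (.d k148 k151 k168 0 5)))))] (.c k80 (.q
  k95 [(.s k195 k65 8 (.s k150 k190 5 (.s k151 k148 0 (.s k107 k63 13 (.d k105 k104 k60 0 14))))),
  (.s k65 k195 8 (.s k150 k190 5 (.s k194 k62 13 (.s k2 k66 7 (.s k1 k3 0 (.s k129 k193 7 (.d k128
  k131 k191 0 6))))))), (.s k65 k195 8 (.s k128 k191 6 (.s k129 k131 0 (.s k193 k1 7 (.s k105 k61 13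
  (.s k169 k189 5 (.d k233 k253 k41 5 7))))))), (.s k128 k191 6 (.s k131 k129 0 (.s k150 k190 5 (.s
  k188 k169 6 (.d k148 k151 k168 0 5)))))] (.c k125 (.f k191 k128 6 (.l (.s k190 k150 5 (.s k189
  k188 0 (.s k169 k129 5 (.s k168 k171 0 (.s k252 k84 13 (.s k126 k63 8 (.d k86 k66 k3 5 14)))))))))
  (.c k190 (.l (.s k65 k195 8 (.s k128 k191 6 (.s k129 k131 0 (.s k193 k1 7 (.s k61 k105 13 (.s k189
  k169 5 (.d k253 k233 k125 5 7)))))))) (.c k191 (.l (.s k195 k65 8 (.s k150 k190 5 (.s k62 k194 13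
  (.s k151 k148 0 (.s k63 k107 13 (.d k60 k105 k61 14 0))))))) .n)))) (.c k95 (.q k80 [(.s k195 k65
  8 (.s k150 k190 5 (.s k151 k148 0 (.s k107 k63 13 (.d k105 k104 k60 0 14))))), (.s k160 k240 11
  (.s k128 k191 6 (.s k176 k144 3 (.s k165 k175 2 (.s k133 k181 3 (.d k143 k138 k154 2 6)))))), (.s
  k195 k65 8 (.s k160 k240 11 (.s k135 k75 9 (.s k150 k190 5 (.d k165 k175 k180 2 4)))))] .n) (.c
  k125 (.f k191 k128 6 (.l (.s k190 k150 5 (.s k189 k188 0 (.s k169 k129 5 (.s k168 k171 0 (.s k252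
  k84 13 (.s k126 k63 8 (.d k86 k66 k3 5 14))))))))) (.c k190 (.l (.s k65 k195 8 (.s k128 k191 6 (.s
  k129 k131 0 (.s k193 k1 7 (.s k61 k105 13 (.s k189 k169 5 (.d k253 k233 k125 5 7)))))))) (.c k191
  (.l (.s k195 k65 8 (.s k150 k190 5 (.s k62 k194 13 (.s k151 k148 0 (.s k63 k107 13 (.d k60 k105
  k61 14 0))))))) .n)))))) .n))))) .n)))))

def t10_85_235 : T TT 256 :=
  (.l (.s k42 k234 7 (.s k63 k21 6 (.s k47 k31 3 (.s k32 k37 2 (.s k101 k239 10 (.s k224 k165 10 (.d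
  k96 k111 k160 2 7))))))))

def t10_85_236 : T TT 256 :=
  (.l (.s k42 k234 7 (.s k63 k21 6 (.s k47 k31 3 (.s k32 k37 2 (.s k101 k239 10 (.s k224 k165 10 (.d
  k96 k111 k160 2 7))))))))

def t10_85_237 : T TT 256 :=
  (.l (.s k42 k234 7 (.s k63 k21 6 (.s k47 k31 3 (.s k32 k37 2 (.s k101 k239 10 (.s k224 k165 10 (.d
  k96 k111 k160 2 7))))))))

def t10_85_238 : T TT 256 :=
  (.l (.s k42 k234 7 (.s k63 k21 6 (.s k47 k31 3 (.s k32 k37 2 (.s k101 k239 10 (.s k224 k165 10 (.d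
  k96 k111 k160 2 7))))))))

def t10_85_239 : T TT 256 :=
  (.q k2 [(.s k86 k254 13 (.s k42 k234 7 (.s k62 k22 5 (.s k66 k126 5 (.d k194 k130 k150 7 13))))),
  (.s k3 k1 0 (.s k86 k254 13 (.s k169 k252 14 (.s k43 k232 8 (.s k63 k23 5 (.d k42 k21 k234 6
  7)))))), (.s k3 k1 0 (.s k86 k254 13 (.s k66 k126 5 (.s k192 k129 8 (.s k128 k64 7 (.d k149 k191
  k63 6 14)))))), (.s k3 k1 0 (.s k42 k234 7 (.s k21 k63 6 (.s k22 k62 5 (.s k60 k41 6 (.d k20 k23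
  k40 0 5))))))] (.c k80 (.q k95 [(.s k3 k1 0 (.s k86 k254 13 (.s k169 k252 14 (.s k255 k175 11 (.d
  k171 k168 k87 0 13))))), (.s k86 k254 13 (.s k42 k234 7 (.s k62 k22 5 (.s k194 k150 13 (.d k66
  k126 k130 5 7))))), (.s k175 k255 11 (.s k42 k234 7 (.s k63 k21 6 (.s k47 k31 3 (.d k165 k224 k160
  10 2)))))] .n) (.c k95 (.q k80 [(.s k3 k1 0 (.s k160 k240 11 (.s k86 k254 13 (.s k165 k175 2 (.d
  k7 k11 k244 1 12))))), (.s k86 k254 13 (.s k42 k234 7 (.s k62 k22 5 (.s k194 k150 13 (.d k66 k126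
  k130 5 7))))), (.s k160 k240 11 (.s k42 k234 7 (.s k63 k21 6 (.s k47 k31 3 (.d k165 k224 k175 10
  2)))))] .n) .n)))

def t10_85_240 : T TT 256 :=
  (.l (.s k42 k234 7 (.s k63 k21 6 (.s k47 k31 3 (.s k32 k37 2 (.s k101 k239 10 (.s k224 k165 10 (.d
  k96 k111 k160 2 7))))))))

def t10_85_241 : T TT 256 :=
  (.l (.s k42 k234 7 (.s k63 k21 6 (.s k47 k31 3 (.s k32 k37 2 (.s k101 k239 10 (.s k224 k165 10 (.d
  k96 k111 k160 2 7))))))))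

def t10_85_242 : T TT 256 :=
  (.l (.s k42 k234 7 (.s k63 k21 6 (.s k47 k31 3 (.s k32 k37 2 (.s k101 k239 10 (.s k224 k165 10 (.d
  k96 k111 k160 2 7))))))))

def t10_85_243 : T TT 256 :=
  (.l (.s k42 k234 7 (.s k63 k21 6 (.s k47 k31 3 (.s k32 k37 2 (.s k101 k239 10 (.s k224 k165 10 (.d
  k96 k111 k160 2 7))))))))

def t10_85_244 : T TT 256 :=
  (.l (.s k42 k234 7 (.s k63 k21 6 (.s k47 k31 3 (.s k32 k37 2 (.s k101 k239 10 (.s k224 k165 10 (.d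
  k96 k111 k160 2 7))))))))

def t10_85_245 : T TT 256 :=
  (.l (.s k42 k234 7 (.s k63 k21 6 (.s k47 k31 3 (.s k32 k37 2 (.s k101 k239 10 (.s k96 k111 2 (.d
  k224 k160 k165 7 10))))))))

def t10_85_246 : T TT 256 :=
  (.l (.s k42 k234 7 (.s k63 k21 6 (.s k47 k31 3 (.s k32 k37 2 (.s k101 k239 10 (.s k224 k165 10 (.d
  k96 k111 k160 2 7))))))))

def t10_85_247 : T TT 256 :=
  (.l (.s k42 k234 7 (.s k63 k21 6 (.s k47 k31 3 (.s k32 k37 2 (.s k101 k239 10 (.s k224 k165 10 (.d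
  k96 k111 k160 2 7))))))))

def t10_85_248 : T TT 256 :=
  (.l (.s k42 k234 7 (.s k63 k21 6 (.s k47 k31 3 (.s k32 k37 2 (.s k101 k239 10 (.s k224 k165 10 (.d
  k96 k111 k160 2 7))))))))

def t10_85_249 : T TT 256 :=
  (.l (.s k42 k234 7 (.s k63 k21 6 (.s k47 k31 3 (.s k32 k37 2 (.s k101 k239 10 (.s k224 k165 10 (.d
  k96 k111 k160 2 7))))))))

def t10_85_250 : T TT 256 :=
  (.l (.s k42 k234 7 (.s k63 k21 6 (.s k47 k31 3 (.s k32 k37 2 (.s k101 k239 10 (.s k224 k165 10 (.d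
  k96 k111 k160 2 7))))))))

def t10_85_251 : T TT 256 :=
  (.l (.s k42 k234 7 (.s k63 k21 6 (.s k47 k31 3 (.s k32 k37 2 (.s k101 k239 10 (.s k224 k165 10 (.d
  k96 k111 k160 2 7))))))))

def t10_85_252 : T TT 256 :=
  (.l (.s k42 k234 7 (.s k63 k21 6 (.s k47 k31 3 (.s k32 k37 2 (.s k101 k239 10 (.s k224 k165 10 (.d
  k96 k111 k160 2 7))))))))

def t10_85_253 : T TT 256 :=
  (.l (.s k42 k234 7 (.s k63 k21 6 (.s k47 k31 3 (.s k32 k37 2 (.s k101 k239 10 (.s k224 k165 10 (.d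
  k96 k111 k160 2 7))))))))

def t10_85_254 : T TT 256 :=
  (.l (.s k42 k234 7 (.s k63 k21 6 (.s k47 k31 3 (.s k32 k37 2 (.s k101 k239 10 (.s k224 k165 10 (.d
  k96 k111 k160 2 7))))))))

def t10_85_255 : T TT 256 :=
  (.l (.s k42 k234 7 (.s k63 k21 6 (.s k47 k31 3 (.s k32 k37 2 (.s k101 k239 10 (.s k224 k165 10 (.d
  k96 k111 k160 2 7))))))))

def t10_85 : T TT 256 :=
  (.q k106 [] (.c k1 t10_85_1 (.c k2 t10_85_2 (.c k3 t10_85_3 (.c k4 t10_85_4 (.c k5 t10_85_5 (.c k6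
  t10_85_6 (.c k7 t10_85_7 (.c k8 t10_85_8 (.c k9 t10_85_9 (.c k11 t10_85_11 (.c k12 t10_85_12 (.c
  k13 t10_85_13 (.c k14 t10_85_14 (.c k16 t10_85_16 (.c k17 t10_85_17 (.c k18 t10_85_18 (.c k19
  t10_85_19 (.c k20 t10_85_20 (.c k21 t10_85_21 (.c k22 t10_85_22 (.c k23 t10_85_23 (.c k24
  t10_85_24 (.c k25 t10_85_25 (.c k26 t10_85_26 (.c k27 t10_85_27 (.c k28 t10_85_28 (.c k29
  t10_85_29 (.c k30 t10_85_30 (.c k31 t10_85_31 (.c k32 t10_85_32 (.c k33 t10_85_33 (.c k34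
  t10_85_34 (.c k35 t10_85_35 (.c k36 t10_85_36 (.c k37 t10_85_37 (.c k38 t10_85_38 (.c k39
  t10_85_39 (.c k40 t10_85_40 (.c k41 t10_85_41 (.c k42 t10_85_42 (.c k43 t10_85_43 (.c k44
  t10_85_44 (.c k45 t10_85_45 (.c k46 t10_85_46 (.c k47 t10_85_47 (.c k48 t10_85_48 (.c k49
  t10_85_49 (.c k50 t10_85_50 (.c k51 t10_85_51 (.c k52 t10_85_52 (.c k53 t10_85_53 (.c k54
  t10_85_54 (.c k55 t10_85_55 (.c k56 t10_85_56 (.c k57 t10_85_57 (.c k58 t10_85_58 (.c k59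
  t10_85_59 (.c k60 t10_85_60 (.c k61 t10_85_61 (.c k62 t10_85_62 (.c k63 t10_85_63 (.c k64
  t10_85_64 (.c k65 t10_85_65 (.c k66 t10_85_66 (.c k67 t10_85_67 (.c k68 t10_85_68 (.c k69
  t10_85_69 (.c k70 t10_85_70 (.c k71 t10_85_71 (.c k72 t10_85_72 (.c k73 t10_85_73 (.c k74
  t10_85_74 (.c k75 t10_85_75 (.c k76 t10_85_76 (.c k77 t10_85_77 (.c k78 t10_85_78 (.c k79
  t10_85_79 (.c k80 t10_85_80 (.c k81 t10_85_81 (.c k82 t10_85_82 (.c k83 t10_85_83 (.c k84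
  t10_85_84 (.c k86 t10_85_86 (.c k87 t10_85_87 (.c k88 t10_85_88 (.c k89 t10_85_89 (.c k91
  t10_85_91 (.c k92 t10_85_92 (.c k93 t10_85_93 (.c k94 t10_85_94 (.c k95 t10_85_95 (.c k96
  t10_85_96 (.c k97 t10_85_97 (.c k98 t10_85_98 (.c k99 t10_85_99 (.c k100 t10_85_100 (.c k101
  t10_85_101 (.c k102 t10_85_102 (.c k103 t10_85_103 (.c k104 t10_85_104 (.c k105 t10_85_105 (.c
  k107 t10_85_107 (.c k108 t10_85_108 (.c k109 t10_85_109 (.c k110 t10_85_110 (.c k111 t10_85_111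
  (.c k112 t10_85_112 (.c k113 t10_85_113 (.c k114 t10_85_114 (.c k115 t10_85_115 (.c k116
  t10_85_116 (.c k117 t10_85_117 (.c k118 t10_85_118 (.c k119 t10_85_119 (.c k120 t10_85_120 (.c
  k121 t10_85_121 (.c k122 t10_85_122 (.c k123 t10_85_123 (.c k124 t10_85_124 (.c k125 t10_85_125
  (.c k126 t10_85_126 (.c k127 t10_85_127 (.c k128 t10_85_128 (.c k129 t10_85_129 (.c k130
  t10_85_130 (.c k131 t10_85_131 (.c k132 t10_85_132 (.c k133 t10_85_133 (.c k134 t10_85_134 (.c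
  k135 t10_85_135 (.c k136 t10_85_136 (.c k137 t10_85_137 (.c k138 t10_85_138 (.c k139 t10_85_139
  (.c k140 t10_85_140 (.c k141 t10_85_141 (.c k142 t10_85_142 (.c k143 t10_85_143 (.c k144
  t10_85_144 (.c k145 t10_85_145 (.c k146 t10_85_146 (.c k147 t10_85_147 (.c k148 t10_85_148 (.c
  k149 t10_85_149 (.c k150 t10_85_150 (.c k151 t10_85_151 (.c k152 t10_85_152 (.c k153 t10_85_153
  (.c k154 t10_85_154 (.c k155 t10_85_155 (.c k156 t10_85_156 (.c k157 t10_85_157 (.c k158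
  t10_85_158 (.c k159 t10_85_159 (.c k160 t10_85_160 (.c k161 t10_85_161 (.c k162 t10_85_162 (.c
  k163 t10_85_163 (.c k164 t10_85_164 (.c k165 t10_85_165 (.c k166 t10_85_166 (.c k167 t10_85_167
  (.c k168 t10_85_168 (.c k169 t10_85_169 (.c k171 t10_85_171 (.c k172 t10_85_172 (.c k173
  t10_85_173 (.c k174 t10_85_174 (.c k175 t10_85_175 (.c k176 t10_85_176 (.c k177 t10_85_177 (.c
  k178 t10_85_178 (.c k179 t10_85_179 (.c k180 t10_85_180 (.c k181 t10_85_181 (.c k182 t10_85_182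
  (.c k183 t10_85_183 (.c k184 t10_85_184 (.c k185 t10_85_185 (.c k186 t10_85_186 (.c k187
  t10_85_187 (.c k188 t10_85_188 (.c k189 t10_85_189 (.c k190 t10_85_190 (.c k191 t10_85_191 (.c
  k192 t10_85_192 (.c k193 t10_85_193 (.c k194 t10_85_194 (.c k195 t10_85_195 (.c k196 t10_85_196
  (.c k197 t10_85_197 (.c k198 t10_85_198 (.c k199 t10_85_199 (.c k200 t10_85_200 (.c k201
  t10_85_201 (.c k202 t10_85_202 (.c k203 t10_85_203 (.c k204 t10_85_204 (.c k205 t10_85_205 (.c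
  k206 t10_85_206 (.c k207 t10_85_207 (.c k208 t10_85_208 (.c k209 t10_85_209 (.c k210 t10_85_210
  (.c k211 t10_85_211 (.c k212 t10_85_212 (.c k213 t10_85_213 (.c k214 t10_85_214 (.c k215
  t10_85_215 (.c k216 t10_85_216 (.c k217 t10_85_217 (.c k218 t10_85_218 (.c k219 t10_85_219 (.c
  k220 t10_85_220 (.c k221 t10_85_221 (.c k222 t10_85_222 (.c k223 t10_85_223 (.c k224 t10_85_224
  (.c k225 t10_85_225 (.c k226 t10_85_226 (.c k227 t10_85_227 (.c k228 t10_85_228 (.c k229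
  t10_85_229 (.c k230 t10_85_230 (.c k231 t10_85_231 (.c k232 t10_85_232 (.c k233 t10_85_233 (.c
  k234 t10_85_234 (.c k235 t10_85_235 (.c k236 t10_85_236 (.c k237 t10_85_237 (.c k238 t10_85_238
  (.c k239 t10_85_239 (.c k240 t10_85_240 (.c k241 t10_85_241 (.c k242 t10_85_242 (.c k243
  t10_85_243 (.c k244 t10_85_244 (.c k245 t10_85_245 (.c k246 t10_85_246 (.c k247 t10_85_247 (.c
  k248 t10_85_248 (.c k249 t10_85_249 (.c k250 t10_85_250 (.c k251 t10_85_251 (.c k252 t10_85_252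
  (.c k253 t10_85_253 (.c k254 t10_85_254 (.c k255 t10_85_255
  .n))))))))))))))))))))))))))))))))))))))))))))))))))))))))))))))))))))))))))))))))
  ))))))))))))))))))))))))))))))))))))))))))))))))))))))))))))))))))))))))))))))))
  )))))))))))))))))))))))))))))))))))))))))))))))))))))))))))))))))))))))))))))))) ))))))))))

def t10_86 : T TT 256 :=
  (.q k207 [(.s k138 k69 10 (.s k85 k255 14 (.s k154 k186 3 (.s k16 k223 10 (.d k48 k32 k101 3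
  14))))), (.s k255 k85 14 (.s k79 k143 7 (.s k95 k175 11 (.s k111 k127 3 (.s k159 k63 11 (.d k223
  k239 k31 3 7)))))), (.s k138 k69 10 (.s k143 k79 7 (.s k128 k133 2 (.s k149 k191 6 (.s k154 k186 3
  (.s k176 k165 6 (.d k144 k159 k160 2 3)))))))] (.c k82 (.q k94 [(.s k138 k69 10 (.s k85 k255 14
  (.s k154 k186 3 (.s k16 k223 10 (.d k48 k32 k101 3 14))))), (.s k79 k143 7 (.s k173 k252 12 (.s
  k109 k124 4 (.s k45 k237 7 (.d k60 k30 k158 4 12)))))] .n) (.c k94 (.q k82 [(.s k138 k69 10 (.s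
  k85 k255 14 (.s k154 k186 3 (.s k16 k223 10 (.d k48 k32 k101 3 14))))), (.s k255 k85 14 (.s k79
  k143 7 (.s k95 k175 11 (.s k111 k127 3 (.s k159 k63 11 (.d k223 k239 k31 3 7)))))), (.s k138 k69
  10 (.s k143 k79 7 (.s k128 k133 2 (.s k149 k191 6 (.s k154 k186 3 (.s k176 k165 6 (.d k144 k159
  k160 2 3)))))))] .n) .n)))

def t10_87 : T TT 256 :=
  (.q k207 [(.s k69 k138 10 (.s k85 k255 14 (.s k101 k117 3 (.s k32 k239 10 (.d k48 k16 k154 3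
  14))))), (.s k255 k85 14 (.s k79 k143 7 (.s k95 k175 11 (.s k111 k127 3 (.s k159 k63 11 (.d k223
  k239 k31 3 7)))))), (.s k138 k69 10 (.s k143 k79 7 (.s k128 k133 2 (.s k149 k191 6 (.s k154 k186 3
  (.s k176 k165 6 (.d k144 k159 k160 2 3)))))))] .n)

def t10_88 : T TT 256 :=
  (.q k207 [(.s k138 k69 10 (.s k85 k255 14 (.s k154 k186 3 (.s k16 k223 10 (.d k48 k32 k101 3
  14))))), (.s k255 k85 14 (.s k79 k143 7 (.s k95 k175 11 (.s k111 k127 3 (.s k159 k63 11 (.d k223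
  k239 k31 3 7)))))), (.s k138 k69 10 (.s k143 k79 7 (.s k128 k133 2 (.s k149 k191 6 (.s k154 k186 3
  (.s k176 k165 6 (.d k144 k159 k160 2 3)))))))] (.c k89 (.q k91 [(.s k138 k69 10 (.s k85 k255 14
  (.s k154 k186 3 (.s k16 k223 10 (.d k48 k32 k101 3 14))))), (.s k79 k143 7 (.s k167 k243 13 (.s
  k103 k115 5 (.s k39 k231 7 (.d k51 k27 k155 5 13)))))] .n) (.c k91 (.q k89 [(.s k138 k69 10 (.s
  k85 k255 14 (.s k154 k186 3 (.s k16 k223 10 (.d k48 k32 k101 3 14))))), (.s k85 k255 14 (.s k8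
  k251 12 (.s k12 k4 1 (.s k243 k166 14 (.d k81 k93 k162 1 12))))), (.s k138 k69 10 (.s k8 k251 12
  (.s k12 k4 1 (.s k73 k203 8 (.s k134 k195 10 (.d k142 k130 k77 1 8))))))] .n) .n)))

def t10_89 : T TT 256 :=
  (.q k207 [(.s k138 k69 10 (.s k85 k255 14 (.s k154 k186 3 (.s k16 k223 10 (.d k48 k32 k101 3
  14))))), (.s k255 k85 14 (.s k79 k143 7 (.s k95 k175 11 (.s k111 k127 3 (.s k159 k63 11 (.d k223
  k239 k31 3 7)))))), (.s k138 k69 10 (.s k143 k79 7 (.s k128 k133 2 (.s k149 k191 6 (.s k154 k186 3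
  (.s k176 k165 6 (.d k144 k159 k160 2 3)))))))] (.c k88 (.q k91 [(.s k138 k69 10 (.s k85 k255 14
  (.s k154 k186 3 (.s k16 k223 10 (.d k48 k32 k101 3 14))))), (.s k79 k143 7 (.s k167 k243 13 (.s
  k103 k115 5 (.s k39 k231 7 (.d k51 k27 k155 5 13)))))] .n) (.c k91 (.q k88 [(.s k138 k69 10 (.s
  k85 k255 14 (.s k154 k186 3 (.s k16 k223 10 (.d k48 k32 k101 3 14))))), (.s k255 k85 14 (.s k79
  k143 7 (.s k95 k175 11 (.s k111 k127 3 (.s k159 k63 11 (.d k223 k239 k31 3 7)))))), (.s k138 k69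
  10 (.s k143 k79 7 (.s k128 k133 2 (.s k149 k191 6 (.s k154 k186 3 (.s k176 k165 6 (.d k144 k159
  k160 2 3)))))))] .n) .n)))

def t10_91 : T TT 256 :=
  (.q k207 [(.s k138 k69 10 (.s k85 k255 14 (.s k154 k186 3 (.s k16 k223 10 (.d k48 k32 k101 3
  14))))), (.s k255 k85 14 (.s k79 k143 7 (.s k95 k175 11 (.s k111 k127 3 (.s k159 k63 11 (.d k223
  k239 k31 3 7)))))), (.s k138 k69 10 (.s k143 k79 7 (.s k128 k133 2 (.s k149 k191 6 (.s k154 k186 3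
  (.s k176 k165 6 (.d k144 k159 k160 2 3)))))))] (.c k88 (.q k89 [(.s k138 k69 10 (.s k85 k255 14
  (.s k154 k186 3 (.s k16 k223 10 (.d k48 k32 k101 3 14))))), (.s k85 k255 14 (.s k8 k251 12 (.s k12
  k4 1 (.s k243 k166 14 (.d k81 k93 k162 1 12))))), (.s k138 k69 10 (.s k8 k251 12 (.s k12 k4 1 (.s
  k73 k203 8 (.s k134 k195 10 (.d k142 k130 k77 1 8))))))] .n) (.c k89 (.q k88 [(.s k138 k69 10 (.s
  k85 k255 14 (.s k154 k186 3 (.s k16 k223 10 (.d k48 k32 k101 3 14))))), (.s k255 k85 14 (.s k79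
  k143 7 (.s k95 k175 11 (.s k111 k127 3 (.s k159 k63 11 (.d k223 k239 k31 3 7)))))), (.s k138 k69
  10 (.s k143 k79 7 (.s k128 k133 2 (.s k149 k191 6 (.s k154 k186 3 (.s k176 k165 6 (.d k144 k159
  k160 2 3)))))))] .n) .n)))

def t10_92 : T TT 256 :=
  (.q k207 [(.s k138 k69 10 (.s k85 k255 14 (.s k154 k186 3 (.s k16 k223 10 (.d k48 k32 k101 3
  14))))), (.s k255 k85 14 (.s k79 k143 7 (.s k95 k175 11 (.s k111 k127 3 (.s k159 k63 11 (.d k223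
  k239 k31 3 7)))))), (.s k138 k69 10 (.s k143 k79 7 (.s k128 k133 2 (.s k149 k191 6 (.s k154 k186 3
  (.s k176 k165 6 (.d k144 k159 k160 2 3)))))))] .n)

def t10_93 : T TT 256 :=
  (.q k207 [(.s k69 k138 10 (.s k85 k255 14 (.s k101 k117 3 (.s k32 k239 10 (.d k48 k16 k154 3
  14))))), (.s k255 k85 14 (.s k79 k143 7 (.s k95 k175 11 (.s k111 k127 3 (.s k159 k63 11 (.d k223
  k239 k31 3 7)))))), (.s k138 k69 10 (.s k143 k79 7 (.s k128 k133 2 (.s k149 k191 6 (.s k154 k186 3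
  (.s k176 k165 6 (.d k144 k159 k160 2 3)))))))] .n)

def t10_94 : T TT 256 :=
  (.q k207 [(.s k138 k69 10 (.s k85 k255 14 (.s k154 k186 3 (.s k16 k223 10 (.d k48 k32 k101 3
  14))))), (.s k255 k85 14 (.s k79 k143 7 (.s k95 k175 11 (.s k111 k127 3 (.s k159 k63 11 (.d k223
  k239 k31 3 7)))))), (.s k138 k69 10 (.s k143 k79 7 (.s k128 k133 2 (.s k149 k191 6 (.s k154 k186 3
  (.s k176 k165 6 (.d k144 k159 k160 2 3)))))))] (.c k82 (.q k86 [(.s k138 k69 10 (.s k85 k255 14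
  (.s k154 k186 3 (.s k16 k223 10 (.d k48 k32 k101 3 14))))), (.s k85 k255 14 (.s k2 k254 13 (.s k3
  k1 0 (.s k252 k169 14 (.d k84 k87 k168 0 13))))), (.s k138 k69 10 (.s k2 k254 13 (.s k3 k1 0 (.s
  k70 k206 9 (.s k137 k204 10 (.d k139 k136 k71 0 9))))))] .n) (.c k86 (.q k82 [(.s k138 k69 10 (.s
  k85 k255 14 (.s k154 k186 3 (.s k16 k223 10 (.d k48 k32 k101 3 14))))), (.s k255 k85 14 (.s k79
  k143 7 (.s k95 k175 11 (.s k111 k127 3 (.s k159 k63 11 (.d k223 k239 k31 3 7)))))), (.s k138 k69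
  10 (.s k143 k79 7 (.s k128 k133 2 (.s k149 k191 6 (.s k154 k186 3 (.s k176 k165 6 (.d k144 k159
  k160 2 3)))))))] .n) .n)))

def t10_95 : T TT 256 :=
  (.f k85 k255 14 (.q k48 [(.s k32 k16 3 (.s k101 k239 10 (.s k207 k154 14 (.d k69 k117 k138 3
  10)))), (.s k16 k32 3 (.s k26 k37 6 (.s k21 k31 2 (.s k149 k213 7 (.s k128 k191 6 (.s k192 k64 7
  (.d k63 k42 k106 6 14)))))))] (.c k16 (.q k89 [(.s k8 k251 12 (.s k12 k4 1 (.s k243 k166 14 (.d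
  k81 k93 k162 1 12)))), (.s k81 k93 1 (.s k243 k162 12 (.s k113 k178 8 (.s k101 k77 5 (.s k207 k154
  14 (.d k69 k117 k138 3 10)))))), (.s k8 k251 12 (.s k12 k4 1 (.s k24 k36 5 (.s k154 k219 8 (.s
  k138 k186 3 (.d k207 k69 k101 10 14))))))] (.c k12 (.q k207 [(.s k138 k69 10 (.d k154 k186 k101 3
  14)), (.s k101 k154 14 (.s k113 k77 5 (.s k243 k178 8 (.d k81 k93 k162 1 12))))] (.c k93 (.q k174
  [(.s k138 k69 10 (.d k154 k186 k101 3 14)), (.s k101 k154 14 (.s k113 k77 5 (.s k243 k178 8 (.d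
  k162 k166 k81 1 12))))] (.c k92 (.q k94 [(.s k138 k69 10 (.d k154 k186 k101 3 14)), (.s k254 k14
  11 (.s k252 k173 12 (.s k84 k168 13 (.d k86 k2 k87 13 0))))] (.c k172 (.l (.s k252 k173 12 (.s k69
  k138 10 (.d k101 k117 k154 3 14)))) (.c k252 (.q k172 [(.s k138 k69 10 (.d k154 k186 k101 3 14)),
  (.s k37 k26 6 (.s k175 k173 0 (.s k165 k160 2 (.d k101 k154 k229 14 7))))] (.c k101 (.l (.s k138
  k69 10 (.s k154 k186 3 (.s k219 k24 8 (.s k162 k166 1 (.d k243 k231 k81 5 12)))))) (.c k154 (.l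
  (.s k69 k138 10 (.s k79 k143 7 (.s k101 k117 3 (.s k239 k32 10 (.d k109 k124 k44 4 8)))))) (.c
  k253 (.l (.s k254 k14 11 (.s k69 k138 10 (.d k101 k117 k154 3 14)))) (.c k254 (.q k253 [(.s k169
  k1 13 (.d k166 k162 k163 1 2)), (.s k69 k138 10 (.d k101 k117 k154 3 14))] .n) .n))))) .n))) (.c
  k94 (.q k92 [(.s k138 k69 10 (.d k154 k186 k101 3 14)), (.s k101 k154 14 (.s k113 k77 5 (.s k243
  k178 8 (.d k162 k166 k81 1 12))))] (.c k82 (.l (.s k86 k83 2 (.s k69 k138 10 (.d k101 k117 k154 3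
  14)))) (.c k86 (.q k82 [(.s k138 k69 10 (.d k154 k186 k101 3 14)), (.s k101 k154 14 (.s k113 k77 5
  (.s k243 k178 8 (.d k162 k166 k81 1 12))))] (.c k101 (.l (.s k138 k69 10 (.s k154 k186 3 (.s k219
  k24 8 (.s k162 k166 1 (.d k243 k231 k81 5 12)))))) (.c k154 (.l (.s k69 k138 10 (.s k101 k117 3
  (.s k113 k77 5 (.s k243 k178 8 (.d k162 k166 k81 1 12)))))) .n))) (.c k101 (.l (.s k138 k69 10 (.s
  k154 k186 3 (.s k219 k24 8 (.s k162 k166 1 (.d k243 k231 k81 5 12)))))) (.c k154 (.l (.s k69 k138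
  10 (.s k101 k117 3 (.s k113 k77 5 (.s k243 k178 8 (.d k162 k166 k81 1 12)))))) .n))))) (.c k101
  (.l (.s k138 k69 10 (.s k154 k186 3 (.s k219 k24 8 (.s k162 k166 1 (.d k243 k231 k81 5 12))))))
  (.c k154 (.l (.s k69 k138 10 (.s k101 k117 3 (.s k113 k77 5 (.s k243 k178 8 (.d k162 k166 k81 1
  12)))))) .n))))) (.c k101 (.l (.s k138 k69 10 (.s k154 k186 3 (.s k219 k24 8 (.s k243 k231 5 (.d
  k81 k93 k162 1 12)))))) (.c k154 (.l (.s k69 k138 10 (.s k101 k117 3 (.s k113 k77 5 (.s k243 k178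
  8 (.d k81 k93 k162 1 12)))))) (.c k174 (.l (.s k93 k81 1 (.s k69 k138 10 (.d k101 k117 k154 3
  14)))) .n))))) (.c k243 (.q k207 [(.s k138 k69 10 (.d k154 k186 k101 3 14)), (.s k101 k154 14 (.s
  k77 k113 5 (.s k12 k142 8 (.d k8 k251 k4 12 1))))] (.c k101 (.l (.s k138 k69 10 (.s k154 k186 3
  (.s k24 k219 8 (.s k12 k36 5 (.d k8 k4 k251 1 12)))))) (.c k154 (.l (.s k69 k138 10 (.s k101 k117
  3 (.s k77 k113 5 (.s k12 k142 8 (.d k8 k4 k251 1 12)))))) (.c k247 (.l (.s k251 k8 12 (.s k69 k138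
  10 (.d k101 k117 k154 3 14)))) (.c k251 (.q k247 [(.s k138 k69 10 (.d k154 k186 k101 3 14)), (.s
  k4 k166 12 (.s k12 k8 1 (.s k24 k36 5 (.d k154 k101 k219 14 8))))] (.c k101 (.l (.s k138 k69 10
  (.s k4 k166 12 (.s k12 k8 1 (.s k154 k186 3 (.d k24 k36 k219 5 8)))))) (.c k154 (.l (.s k69 k138
  10 (.s k4 k166 12 (.s k12 k8 1 (.s k101 k117 3 (.d k77 k142 k113 8 5)))))) .n))) .n))))) .n))) (.c
  k26 (.l (.s k16 k32 3 (.s k154 k223 10 (.s k207 k101 14 (.d k138 k186 k69 3 10))))) (.c k32 (.q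
  k89 [(.s k8 k251 12 (.s k12 k4 1 (.s k243 k166 14 (.d k81 k93 k162 1 12)))), (.s k81 k93 1 (.s
  k243 k162 12 (.s k113 k178 8 (.s k101 k77 5 (.s k207 k154 14 (.d k69 k117 k138 3 10)))))), (.s k8
  k251 12 (.s k12 k4 1 (.s k24 k36 5 (.s k154 k219 8 (.s k138 k186 3 (.d k207 k69 k101 10 14))))))]
  (.c k12 (.q k207 [(.s k138 k69 10 (.d k154 k186 k101 3 14)), (.s k101 k154 14 (.s k113 k77 5 (.s
  k243 k178 8 (.d k81 k93 k162 1 12))))] (.c k93 (.q k174 [(.s k138 k69 10 (.d k154 k186 k101 3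
  14)), (.s k101 k154 14 (.s k113 k77 5 (.s k243 k178 8 (.d k162 k166 k81 1 12))))] (.c k92 (.q k94
  [(.s k138 k69 10 (.d k154 k186 k101 3 14)), (.s k254 k14 11 (.s k252 k173 12 (.s k84 k168 13 (.d
  k86 k2 k87 13 0))))] (.c k172 (.l (.s k252 k173 12 (.s k69 k138 10 (.d k101 k117 k154 3 14)))) (.c
  k252 (.q k172 [(.s k138 k69 10 (.d k154 k186 k101 3 14)), (.s k37 k26 6 (.s k175 k173 0 (.s k165
  k160 2 (.d k101 k154 k229 14 7))))] (.c k101 (.l (.s k138 k69 10 (.s k154 k186 3 (.s k219 k24 8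
  (.s k162 k166 1 (.d k243 k231 k81 5 12)))))) (.c k154 (.l (.s k69 k138 10 (.s k101 k117 3 (.s k113
  k77 5 (.s k243 k178 8 (.d k162 k166 k81 1 12)))))) (.c k253 (.l (.s k254 k14 11 (.s k69 k138 10
  (.d k101 k117 k154 3 14)))) (.c k254 (.q k253 [(.s k169 k1 13 (.d k166 k162 k163 1 2)), (.s k69
  k138 10 (.d k101 k117 k154 3 14))] .n) .n))))) .n))) (.c k94 (.q k92 [(.s k138 k69 10 (.d k154
  k186 k101 3 14)), (.s k101 k154 14 (.s k113 k77 5 (.s k243 k178 8 (.d k162 k166 k81 1 12))))] (.c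
  k82 (.l (.s k86 k83 2 (.s k69 k138 10 (.d k101 k117 k154 3 14)))) (.c k86 (.q k82 [(.s k138 k69 10
  (.d k154 k186 k101 3 14)), (.s k101 k154 14 (.s k113 k77 5 (.s k243 k178 8 (.d k162 k166 k81 1
  12))))] (.c k101 (.l (.s k138 k69 10 (.s k154 k186 3 (.s k219 k24 8 (.s k162 k166 1 (.d k243 k231
  k81 5 12)))))) (.c k154 (.l (.s k69 k138 10 (.s k101 k117 3 (.s k113 k77 5 (.s k243 k178 8 (.d
  k162 k166 k81 1 12)))))) .n))) (.c k101 (.l (.s k138 k69 10 (.s k154 k186 3 (.s k219 k24 8 (.s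
  k162 k166 1 (.d k243 k231 k81 5 12)))))) (.c k154 (.l (.s k69 k138 10 (.s k101 k117 3 (.s k113 k77
  5 (.s k243 k178 8 (.d k162 k166 k81 1 12)))))) .n))))) (.c k101 (.l (.s k138 k69 10 (.s k154 k186
  3 (.s k219 k24 8 (.s k162 k166 1 (.d k243 k231 k81 5 12)))))) (.c k154 (.l (.s k69 k138 10 (.s
  k101 k117 3 (.s k113 k77 5 (.s k243 k178 8 (.d k162 k166 k81 1 12)))))) .n))))) (.c k101 (.l (.s
  k138 k69 10 (.s k154 k186 3 (.s k219 k24 8 (.s k243 k231 5 (.d k81 k93 k162 1 12)))))) (.c k154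
  (.l (.s k69 k138 10 (.s k101 k117 3 (.s k113 k77 5 (.s k243 k178 8 (.d k81 k93 k162 1 12)))))) (.c
  k174 (.l (.s k93 k81 1 (.s k69 k138 10 (.d k101 k117 k154 3 14)))) .n))))) (.c k243 (.q k207 [(.s
  k138 k69 10 (.d k154 k186 k101 3 14)), (.s k101 k154 14 (.s k77 k113 5 (.s k12 k142 8 (.d k8 k251
  k4 12 1))))] (.c k101 (.l (.s k138 k69 10 (.s k154 k186 3 (.s k24 k219 8 (.s k12 k36 5 (.d k8 k4
  k251 1 12)))))) (.c k154 (.l (.s k69 k138 10 (.s k101 k117 3 (.s k77 k113 5 (.s k12 k142 8 (.d k8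
  k4 k251 1 12)))))) (.c k247 (.l (.s k251 k8 12 (.s k69 k138 10 (.d k101 k117 k154 3 14)))) (.c
  k251 (.q k247 [(.s k138 k69 10 (.d k154 k186 k101 3 14)), (.s k4 k166 12 (.s k12 k8 1 (.s k24 k36
  5 (.d k154 k101 k219 14 8))))] (.c k101 (.l (.s k138 k69 10 (.s k4 k166 12 (.s k12 k8 1 (.s k154
  k186 3 (.d k24 k36 k219 5 8)))))) (.c k154 (.l (.s k69 k138 10 (.s k4 k166 12 (.s k12 k8 1 (.s
  k101 k117 3 (.d k77 k142 k113 8 5)))))) .n))) .n))))) .n))) (.c k223 (.l (.s k32 k16 3 (.s k101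
  k239 10 (.s k207 k154 14 (.d k69 k117 k138 3 10))))) .n))))))

def t10_96 : T TT 256 :=
  (.q k63 [(.s k42 k21 6 (.s k85 k255 14 (.s k106 k234 7 (.s k192 k149 14 (.d k64 k127 k128 6
  7))))), (.s k255 k85 14 (.s k31 k47 3 (.s k95 k175 11 (.s k159 k223 7 (.s k111 k207 11 (.d k127
  k79 k191 3 7)))))), (.s k42 k21 6 (.s k47 k31 3 (.s k32 k37 2 (.s k239 k101 10 (.s k106 k234 7 (.s
  k165 k224 10 (.d k175 k111 k160 7 2)))))))] (.c k31 (.l (.s k21 k42 6 (.s k85 k255 14 (.s k149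
  k213 7 (.s k192 k106 14 (.d k128 k191 k64 6 7)))))) .n))

def t10_97 : T TT 256 :=
  (.q k63 [(.s k42 k21 6 (.s k85 k255 14 (.s k106 k234 7 (.s k192 k149 14 (.d k64 k127 k128 6
  7))))), (.s k255 k85 14 (.s k31 k47 3 (.s k95 k175 11 (.s k159 k223 7 (.s k111 k207 11 (.d k127
  k79 k191 3 7)))))), (.s k42 k21 6 (.s k47 k31 3 (.s k32 k37 2 (.s k101 k239 10 (.s k106 k234 7 (.s
  k224 k165 10 (.d k96 k111 k160 2 7)))))))] (.c k31 (.l (.s k21 k42 6 (.s k85 k255 14 (.s k149 k213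
  7 (.s k192 k106 14 (.d k128 k191 k64 6 7)))))) .n))

def t10_98 : T TT 256 :=
  (.q k63 [(.s k42 k21 6 (.s k85 k255 14 (.s k106 k234 7 (.s k192 k149 14 (.d k64 k127 k128 6
  7))))), (.s k255 k85 14 (.s k31 k47 3 (.s k95 k175 11 (.s k159 k223 7 (.s k111 k207 11 (.d k127
  k79 k191 3 7)))))), (.s k42 k21 6 (.s k47 k31 3 (.s k32 k37 2 (.s k101 k239 10 (.s k106 k234 7 (.s
  k224 k165 10 (.d k96 k111 k160 2 7)))))))] (.c k31 (.l (.s k21 k42 6 (.s k85 k255 14 (.s k149 k213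
  7 (.s k192 k106 14 (.d k128 k191 k64 6 7)))))) .n))

def t10_99 : T TT 256 :=
  (.q k63 [(.s k42 k21 6 (.s k85 k255 14 (.s k106 k234 7 (.s k192 k149 14 (.d k64 k127 k128 6
  7))))), (.s k255 k85 14 (.s k31 k47 3 (.s k95 k175 11 (.s k159 k223 7 (.s k111 k207 11 (.d k127
  k79 k191 3 7)))))), (.s k42 k21 6 (.s k47 k31 3 (.s k32 k37 2 (.s k101 k239 10 (.s k106 k234 7 (.s
  k224 k165 10 (.d k96 k111 k160 2 7)))))))] (.c k31 (.l (.s k21 k42 6 (.s k85 k255 14 (.s k149 k213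
  7 (.s k192 k106 14 (.d k128 k191 k64 6 7)))))) .n))

def t10_100 : T TT 256 :=
  (.q k63 [(.s k42 k21 6 (.s k85 k255 14 (.s k106 k234 7 (.s k192 k149 14 (.d k64 k127 k128 6
  7))))), (.s k255 k85 14 (.s k31 k47 3 (.s k95 k175 11 (.s k159 k223 7 (.s k111 k207 11 (.d k127
  k79 k191 3 7)))))), (.s k42 k21 6 (.s k47 k31 3 (.s k32 k37 2 (.s k101 k239 10 (.s k106 k234 7 (.s
  k224 k165 10 (.d k96 k111 k160 2 7)))))))] (.c k31 (.l (.s k21 k42 6 (.s k85 k255 14 (.s k149 k213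
  7 (.s k192 k106 14 (.d k128 k191 k64 6 7)))))) .n))

def t10_101 : T TT 256 :=
  (.q k3 [(.s k1 k2 0 (.s k85 k255 14 (.s k169 k253 13 (.s k168 k171 0 (.d k252 k84 k86 13 14))))),
  (.s k255 k85 14 (.s k7 k11 1 (.s k87 k171 13 (.s k167 k247 11 (.s k91 k243 13 (.d k95 k83 k175 1
  11))))))] (.c k79 (.q k112 [(.s k1 k2 0 (.s k85 k255 14 (.s k169 k253 13 (.s k168 k171 0 (.d k252
  k84 k86 13 14))))), (.s k255 k85 14 (.s k7 k11 1 (.s k87 k171 13 (.s k167 k247 11 (.s k91 k243 13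
  (.d k95 k83 k175 1 11))))))] (.c k85 (.q k69 [(.s k2 k1 0 (.s k138 k207 10 (.s k70 k206 9 (.s k204
  k137 10 (.d k68 k71 k136 0 9))))), (.s k207 k138 10 (.s k7 k11 1 (.s k71 k139 9 (.s k199 k135 7
  (.s k4 k134 8 (.s k6 k5 0 (.d k12 k8 k9 1 2))))))), (.s k1 k2 0 (.s k137 k205 9 (.s k11 k7 1 (.s
  k204 k70 10 (.s k74 k200 8 (.s k133 k192 10 (.d k141 k129 k78 1 8)))))))] (.c k80 (.q k95 [(.s k2
  k1 0 (.s k138 k207 10 (.s k70 k206 9 (.s k204 k137 10 (.d k68 k71 k136 0 9))))), (.s k7 k11 1 (.s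
  k255 k175 11 (.s k87 k171 13 (.s k167 k247 11 (.d k91 k83 k243 1 13)))))] (.c k169 (.l (.s k1 k2 0
  (.s k138 k207 10 (.s k137 k205 9 (.s k204 k70 10 (.d k136 k139 k68 0 9)))))) .n)) (.c k95 (.q k80
  [(.s k240 k160 11 (.s k48 k176 7 (.s k16 k32 3 (.s k144 k208 7 (.d k96 k64 k192 3 11))))), (.s k1
  k2 0 (.s k207 k138 10 (.s k137 k205 9 (.s k70 k204 10 (.d k71 k68 k139 0 9)))))] (.c k111 (.q k127
  [(.s k96 k64 3 (.s k240 k160 11 (.s k48 k176 7 (.s k16 k32 3 (.d k144 k208 k192 7 11))))), (.s k1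
  k2 0 (.s k207 k138 10 (.s k137 k205 9 (.s k70 k204 10 (.d k71 k68 k139 0 9)))))] (.c k96 (.q k106
  [(.s k240 k160 11 (.s k42 k234 7 (.s k122 k117 2 (.d k63 k21 k181 6 10)))), (.s k1 k2 0 (.s k207
  k138 10 (.s k137 k205 9 (.s k70 k204 10 (.d k71 k68 k139 0 9)))))] .n) (.c k106 (.l (.s k96 k64 3
  (.s k240 k160 11 (.s k48 k176 7 (.s k16 k32 3 (.d k144 k208 k192 7 11)))))) .n))) (.c k127 (.q
  k111 [(.s k2 k1 0 (.s k138 k207 10 (.s k70 k206 9 (.s k204 k137 10 (.d k68 k71 k136 0 9))))), (.s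
  k207 k138 10 (.s k160 k240 11 (.s k63 k159 11 (.s k175 k165 2 (.d k47 k31 k239 3 7))))), (.s k2 k1
  0 (.s k160 k240 11 (.s k86 k254 13 (.s k7 k11 1 (.d k165 k175 k244 2 12)))))] (.c k64 (.q k106
  [(.s k207 k138 10 (.s k42 k234 7 (.d k63 k21 k159 6 11))), (.s k2 k1 0 (.s k160 k240 11 (.s k86
  k254 13 (.s k7 k11 1 (.d k165 k175 k244 2 12)))))] .n) (.c k106 (.l (.s k64 k96 3 (.s k1 k2 0 (.s
  k192 k128 7 (.s k137 k205 9 (.s k11 k7 1 (.d k74 k200 k133 8 10))))))) .n))) .n))) (.c k137 (.l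
  (.s k2 k1 0 (.s k138 k207 10 (.s k70 k206 9 (.s k7 k11 1 (.s k133 k196 8 (.s k128 k143 2 (.d k192
  k74 k64 10 7)))))))) (.c k138 (.l (.s k1 k2 0 (.s k137 k205 9 (.s k7 k11 1 (.s k70 k204 10 (.s
  k133 k196 8 (.s k129 k141 1 (.d k192 k66 k74 8 10)))))))) .n))))) (.c k169 (.l (.s k255 k85 14 (.s
  k11 k7 1 (.s k171 k87 13 (.s k91 k251 11 (.s k167 k243 13 (.d k175 k95 k163 11 1))))))) (.c k171
  (.l (.s k2 k1 0 (.s k85 k255 14 (.s k86 k254 13 (.s k252 k169 14 (.d k84 k87 k168 0 13)))))) (.c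
  k255 (.q k240 [(.s k2 k1 0 (.s k80 k160 11 (.s k82 k161 12 (.s k81 k83 0 (.d k162 k242 k243 11
  12))))), (.s k80 k160 11 (.s k48 k176 7 (.s k16 k32 3 (.s k144 k208 7 (.d k96 k64 k192 3 11))))),
  (.s k2 k1 0 (.s k86 k254 13 (.s k7 k11 1 (.s k244 k165 12 (.d k252 k248 k169 1 14)))))] .n)
  .n))))) (.c k85 (.q k69 [(.s k2 k1 0 (.s k138 k207 10 (.s k70 k206 9 (.s k204 k137 10 (.d k68 k71
  k136 0 9))))), (.s k207 k138 10 (.s k11 k7 1 (.s k139 k71 9 (.s k75 k203 7 (.s k135 k195 9 (.d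
  k143 k79 k131 7 1)))))), (.s k1 k2 0 (.s k137 k205 9 (.s k11 k7 1 (.s k74 k200 8 (.s k192 k133 10
  (.d k64 k79 k128 2 7))))))] (.c k79 (.q k112 [(.s k2 k1 0 (.s k138 k207 10 (.s k70 k206 9 (.s k204
  k137 10 (.d k68 k71 k136 0 9))))), (.s k207 k138 10 (.s k7 k11 1 (.s k71 k139 9 (.s k199 k135 7
  (.s k4 k134 8 (.s k6 k5 0 (.d k12 k8 k9 1 2))))))), (.s k1 k2 0 (.s k137 k205 9 (.s k11 k7 1 (.s
  k204 k70 10 (.s k74 k200 8 (.s k133 k192 10 (.d k141 k129 k78 1 8)))))))] (.c k80 (.q k95 [(.s k2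
  k1 0 (.s k138 k207 10 (.s k70 k206 9 (.s k204 k137 10 (.d k68 k71 k136 0 9))))), (.s k7 k11 1 (.s
  k255 k175 11 (.s k87 k171 13 (.s k167 k247 11 (.d k91 k83 k243 1 13)))))] (.c k169 (.l (.s k1 k2 0
  (.s k138 k207 10 (.s k137 k205 9 (.s k204 k70 10 (.d k136 k139 k68 0 9)))))) .n)) (.c k95 (.q k80
  [(.s k240 k160 11 (.s k48 k176 7 (.s k16 k32 3 (.s k144 k208 7 (.d k96 k64 k192 3 11))))), (.s k1
  k2 0 (.s k207 k138 10 (.s k137 k205 9 (.s k70 k204 10 (.d k71 k68 k139 0 9)))))] (.c k111 (.q k127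
  [(.s k96 k64 3 (.s k240 k160 11 (.s k48 k176 7 (.s k16 k32 3 (.d k144 k208 k192 7 11))))), (.s k1
  k2 0 (.s k207 k138 10 (.s k137 k205 9 (.s k70 k204 10 (.d k71 k68 k139 0 9)))))] (.c k96 (.q k106
  [(.s k240 k160 11 (.s k42 k234 7 (.s k122 k117 2 (.d k63 k21 k181 6 10)))), (.s k1 k2 0 (.s k207
  k138 10 (.s k137 k205 9 (.s k70 k204 10 (.d k71 k68 k139 0 9)))))] .n) (.c k106 (.l (.s k96 k64 3
  (.s k240 k160 11 (.s k48 k176 7 (.s k16 k32 3 (.d k144 k208 k192 7 11)))))) .n))) (.c k127 (.q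
  k111 [(.s k2 k1 0 (.s k138 k207 10 (.s k70 k206 9 (.s k204 k137 10 (.d k68 k71 k136 0 9))))), (.s
  k207 k138 10 (.s k160 k240 11 (.s k63 k159 11 (.s k175 k165 2 (.d k47 k31 k239 3 7))))), (.s k2 k1
  0 (.s k160 k240 11 (.s k86 k254 13 (.s k7 k11 1 (.d k165 k175 k244 2 12)))))] (.c k64 (.q k106
  [(.s k207 k138 10 (.s k42 k234 7 (.d k63 k21 k159 6 11))), (.s k2 k1 0 (.s k160 k240 11 (.s k86
  k254 13 (.s k7 k11 1 (.d k165 k175 k244 2 12)))))] .n) (.c k106 (.l (.s k64 k96 3 (.s k1 k2 0 (.s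
  k192 k128 7 (.s k137 k205 9 (.s k11 k7 1 (.d k74 k200 k133 8 10))))))) .n))) .n))) (.c k137 (.l
  (.s k2 k1 0 (.s k138 k207 10 (.s k70 k206 9 (.s k7 k11 1 (.s k133 k196 8 (.s k128 k143 2 (.d k192
  k74 k64 10 7)))))))) (.c k138 (.l (.s k1 k2 0 (.s k137 k205 9 (.s k7 k11 1 (.s k70 k204 10 (.s
  k133 k196 8 (.s k129 k141 1 (.d k192 k66 k74 8 10)))))))) .n))))) (.c k80 (.q k95 [(.s k2 k1 0 (.s
  k138 k207 10 (.s k70 k206 9 (.s k204 k137 10 (.d k68 k71 k136 0 9))))), (.s k7 k11 1 (.s k255 k175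
  11 (.s k87 k171 13 (.s k167 k247 11 (.d k91 k83 k243 1 13)))))] (.c k79 (.q k112 [(.s k2 k1 0 (.s
  k138 k207 10 (.s k70 k206 9 (.s k204 k137 10 (.d k68 k71 k136 0 9))))), (.s k7 k11 1 (.s k255 k175
  11 (.s k87 k171 13 (.s k167 k247 11 (.d k91 k83 k243 1 13)))))] (.c k169 (.l (.s k1 k2 0 (.s k138
  k207 10 (.s k137 k205 9 (.s k204 k70 10 (.d k136 k139 k68 0 9)))))) .n)) (.c k112 (.q k79 [(.d
  k207 k143 k138 7 10), (.s k1 k2 0 (.s k137 k205 9 (.s k11 k7 1 (.d k74 k64 k200 2 8))))] (.c k64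
  (.q k96 [(.d k207 k143 k138 7 10), (.s k2 k1 0 (.s k86 k254 13 (.s k7 k11 1 (.s k165 k244 12 (.d
  k175 k160 k255 2 11)))))] (.c k106 (.l (.s k127 k111 3 (.d k207 k143 k138 7 10))) (.c k127 (.q
  k106 [(.d k207 k143 k138 7 10), (.s k2 k1 0 (.s k86 k254 13 (.s k7 k11 1 (.s k165 k244 12 (.d k175
  k160 k255 2 11)))))] (.c k117 (.q k122 [(.d k207 k143 k138 7 10), (.s k2 k1 0 (.s k86 k254 13 (.s
  k7 k11 1 (.s k165 k244 12 (.d k175 k160 k255 2 11)))))] .n) (.c k122 (.q k117 [(.d k207 k143 k138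
  7 10), (.s k255 k175 11 (.s k234 k42 7 (.s k48 k186 10 (.d k192 k213 k144 6 11))))] .n) .n)))
  .n))) (.c k96 (.l (.s k64 k74 2 (.d k207 k138 k143 10 7))) .n))) (.c k169 (.l (.s k1 k2 0 (.s k138
  k207 10 (.s k137 k205 9 (.s k204 k70 10 (.d k136 k139 k68 0 9)))))) .n)))) (.c k95 (.q k80 [(.s k2
  k1 0 (.s k138 k207 10 (.s k70 k206 9 (.s k204 k137 10 (.d k68 k71 k136 0 9))))), (.s k2 k1 0 (.s
  k160 k240 11 (.s k86 k254 13 (.s k7 k11 1 (.d k165 k175 k244 2 12))))), (.s k207 k138 10 (.s k7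
  k11 1 (.s k71 k139 9 (.s k135 k199 7 (.s k75 k195 9 (.d k79 k67 k143 1 7))))))] (.c k79 (.q k112
  [(.s k240 k160 11 (.s k48 k176 7 (.s k16 k32 3 (.s k144 k208 7 (.d k96 k64 k192 3 11))))), (.s k1
  k2 0 (.s k207 k138 10 (.s k137 k205 9 (.s k70 k204 10 (.d k71 k68 k139 0 9)))))] (.c k111 (.q k127
  [(.s k96 k64 3 (.s k240 k160 11 (.s k48 k176 7 (.s k16 k32 3 (.d k144 k208 k192 7 11))))), (.s k1
  k2 0 (.s k207 k138 10 (.s k137 k205 9 (.s k70 k204 10 (.d k71 k68 k139 0 9)))))] (.c k96 (.q k106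
  [(.s k240 k160 11 (.s k42 k234 7 (.s k122 k117 2 (.d k63 k21 k181 6 10)))), (.s k1 k2 0 (.s k207
  k138 10 (.s k137 k205 9 (.s k70 k204 10 (.d k71 k68 k139 0 9)))))] .n) (.c k106 (.l (.s k96 k64 3
  (.s k240 k160 11 (.s k48 k176 7 (.s k16 k32 3 (.d k144 k208 k192 7 11)))))) .n))) (.c k127 (.q
  k111 [(.s k2 k1 0 (.s k138 k207 10 (.s k70 k206 9 (.s k204 k137 10 (.d k68 k71 k136 0 9))))), (.s
  k207 k138 10 (.s k160 k240 11 (.s k63 k159 11 (.s k175 k165 2 (.d k47 k31 k239 3 7))))), (.s k2 k1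
  0 (.s k160 k240 11 (.s k86 k254 13 (.s k7 k11 1 (.d k165 k175 k244 2 12)))))] (.c k64 (.q k106
  [(.s k207 k138 10 (.s k42 k234 7 (.d k63 k21 k159 6 11))), (.s k2 k1 0 (.s k160 k240 11 (.s k86
  k254 13 (.s k7 k11 1 (.d k165 k175 k244 2 12)))))] .n) (.c k106 (.l (.s k64 k96 3 (.s k1 k2 0 (.s
  k192 k128 7 (.s k137 k205 9 (.s k11 k7 1 (.d k74 k200 k133 8 10))))))) .n))) .n))) (.c k112 (.q
  k79 [(.d k207 k143 k138 7 10), (.s k1 k2 0 (.s k137 k205 9 (.s k11 k7 1 (.d k74 k64 k200 2 8))))]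
  .n) (.c k169 (.l (.s k1 k2 0 (.s k138 k207 10 (.s k137 k205 9 (.s k204 k70 10 (.d k136 k139 k68 0
  9)))))) .n)))) (.c k112 (.q k79 [(.d k207 k143 k138 7 10), (.s k1 k2 0 (.s k137 k205 9 (.s k11 k7
  1 (.d k74 k64 k200 2 8))))] (.c k80 (.q k95 [(.d k207 k143 k138 7 10), (.s k1 k2 0 (.s k137 k205 9
  (.s k11 k7 1 (.d k74 k64 k200 2 8))))] (.c k64 (.q k96 [(.d k207 k143 k138 7 10), (.s k2 k1 0 (.s
  k86 k254 13 (.s k7 k11 1 (.s k165 k244 12 (.d k175 k160 k255 2 11)))))] (.c k106 (.l (.s k127 k111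
  3 (.d k207 k143 k138 7 10))) (.c k127 (.q k106 [(.d k207 k143 k138 7 10), (.s k2 k1 0 (.s k86 k254
  13 (.s k7 k11 1 (.s k165 k244 12 (.d k175 k160 k255 2 11)))))] (.c k117 (.q k122 [(.d k207 k143
  k138 7 10), (.s k2 k1 0 (.s k86 k254 13 (.s k7 k11 1 (.s k165 k244 12 (.d k175 k160 k255 2
  11)))))] .n) (.c k122 (.q k117 [(.d k207 k143 k138 7 10), (.s k255 k175 11 (.s k234 k42 7 (.s k48
  k186 10 (.d k192 k213 k144 6 11))))] .n) .n))) .n))) (.c k96 (.l (.s k64 k74 2 (.d k207 k138 k143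
  10 7))) .n))) (.c k95 (.q k80 [(.d k207 k143 k138 7 10), (.s k1 k2 0 (.s k137 k205 9 (.s k11 k7 1
  (.d k74 k64 k200 2 8))))] .n) .n))) .n))))) (.c k112 (.q k79 [(.s k1 k2 0 (.s k85 k255 14 (.s k169
  k253 13 (.s k168 k171 0 (.d k252 k84 k86 13 14))))), (.s k207 k143 7 (.s k71 k139 9 (.s k75 k67 1
  (.s k135 k195 9 (.d k7 k11 k199 1 7)))))] .n) (.c k169 (.l (.s k255 k85 14 (.s k11 k7 1 (.s k171
  k87 13 (.s k91 k251 11 (.s k167 k243 13 (.d k175 k95 k163 11 1))))))) (.c k171 (.l (.s k2 k1 0 (.s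
  k85 k255 14 (.s k86 k254 13 (.s k252 k169 14 (.d k84 k87 k168 0 13)))))) (.c k255 (.q k74 [(.s k11
  k7 1 (.s k137 k200 8 (.s k70 k204 10 (.s k192 k133 10 (.d k66 k78 k129 1 8))))), (.s k1 k2 0 (.s
  k192 k133 10 (.s k128 k64 7 (.s k129 k66 8 (.s k65 k193 7 (.d k130 k131 k195 0 8)))))), (.s k1 k2
  0 (.s k11 k7 1 (.s k137 k200 8 (.s k69 k205 9 (.s k79 k64 2 (.d k207 k143 k138 7 10))))))] (.c k79
  (.q k112 [(.s k11 k7 1 (.s k137 k200 8 (.s k70 k204 10 (.s k192 k133 10 (.d k66 k78 k129 1 8))))),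
  (.s k1 k2 0 (.s k192 k133 10 (.s k128 k64 7 (.s k129 k66 8 (.s k65 k193 7 (.d k130 k131 k195 0
  8)))))), (.s k1 k2 0 (.s k11 k7 1 (.s k137 k200 8 (.s k69 k205 9 (.s k138 k207 10 (.s k136 k139 0
  (.d k204 k68 k70 9 10)))))))] .n) (.c k112 (.q k79 [(.s k192 k133 10 (.d k64 k69 k128 2 7)), (.s
  k1 k2 0 (.s k11 k7 1 (.s k137 k200 8 (.s k69 k205 9 (.d k207 k143 k138 7 10)))))] (.c k69 (.l (.s
  k7 k11 1 (.s k133 k192 10 (.s k70 k196 8 (.s k204 k137 10 (.d k78 k66 k141 1 8)))))) .n)) .n)))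
  .n)))))))

def t10_102 : T TT 256 :=
  (.q k207 [(.s k138 k69 10 (.s k85 k255 14 (.s k154 k186 3 (.s k16 k223 10 (.d k48 k32 k101 3
  14))))), (.s k255 k85 14 (.s k79 k143 7 (.s k95 k175 11 (.s k111 k127 3 (.s k159 k63 11 (.d k223
  k239 k31 3 7)))))), (.s k138 k69 10 (.s k143 k79 7 (.s k128 k133 2 (.s k149 k191 6 (.s k154 k186 3
  (.s k176 k165 6 (.d k144 k159 k160 2 3)))))))] (.c k78 (.q k114 [(.s k138 k69 10 (.s k85 k255 14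
  (.s k154 k186 3 (.s k16 k223 10 (.d k48 k32 k101 3 14))))), (.s k255 k85 14 (.s k79 k143 7 (.s k95
  k175 11 (.s k111 k127 3 (.s k159 k63 11 (.d k223 k239 k31 3 7)))))), (.s k138 k69 10 (.s k143 k79
  7 (.s k128 k133 2 (.s k149 k191 6 (.s k154 k186 3 (.s k176 k165 6 (.d k144 k159 k160 2 3)))))))]
  .n) (.c k114 (.q k78 [(.s k138 k69 10 (.s k85 k255 14 (.s k154 k186 3 (.s k16 k223 10 (.d k48 k32
  k101 3 14))))), (.s k141 k204 8 (.s k79 k143 7 (.s k77 k76 0 (.s k12 k142 8 (.d k13 k14 k205 0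
  7)))))] .n) .n)))

def t10_103 : T TT 256 :=
  (.q k207 [(.s k138 k69 10 (.s k85 k255 14 (.s k154 k186 3 (.s k16 k223 10 (.d k48 k32 k101 3
  14))))), (.s k255 k85 14 (.s k79 k143 7 (.s k95 k175 11 (.s k111 k127 3 (.s k159 k63 11 (.d k223
  k239 k31 3 7)))))), (.s k138 k69 10 (.s k143 k79 7 (.s k128 k133 2 (.s k149 k191 6 (.s k154 k186 3
  (.s k176 k165 6 (.d k144 k159 k160 2 3)))))))] .n)

def t10_104 : T TT 256 :=
  (.q k207 [(.s k138 k69 10 (.s k85 k255 14 (.s k154 k186 3 (.s k16 k223 10 (.d k48 k32 k101 3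
  14))))), (.s k255 k85 14 (.s k79 k143 7 (.s k95 k175 11 (.s k111 k127 3 (.s k159 k63 11 (.d k223
  k239 k31 3 7)))))), (.s k138 k69 10 (.s k143 k79 7 (.s k128 k133 2 (.s k149 k191 6 (.s k154 k186 3
  (.s k176 k165 6 (.d k144 k159 k160 2 3)))))))] .n)

def t10_105 : T TT 256 :=
  (.q k207 [(.s k138 k69 10 (.s k85 k255 14 (.s k154 k186 3 (.s k16 k223 10 (.d k48 k32 k101 3
  14))))), (.s k255 k85 14 (.s k79 k143 7 (.s k95 k175 11 (.s k111 k127 3 (.s k159 k63 11 (.d k223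
  k239 k31 3 7)))))), (.s k138 k69 10 (.s k143 k79 7 (.s k128 k133 2 (.s k149 k191 6 (.s k154 k186 3
  (.s k176 k165 6 (.d k144 k159 k160 2 3)))))))] (.c k75 (.q k120 [(.s k138 k69 10 (.s k85 k255 14
  (.s k154 k186 3 (.s k16 k223 10 (.d k48 k32 k101 3 14))))), (.s k255 k85 14 (.s k79 k143 7 (.s k95
  k175 11 (.s k111 k127 3 (.s k159 k63 11 (.d k223 k239 k31 3 7)))))), (.s k138 k69 10 (.s k143 k79
  7 (.s k128 k133 2 (.s k149 k191 6 (.s k154 k186 3 (.s k176 k165 6 (.d k144 k159 k160 2 3)))))))]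
  .n) (.c k120 (.q k75 [(.s k138 k69 10 (.s k85 k255 14 (.s k154 k186 3 (.s k16 k223 10 (.d k48 k32
  k101 3 14))))), (.s k135 k195 9 (.s k79 k143 7 (.s k71 k67 1 (.s k3 k139 9 (.d k7 k11 k199 1
  7)))))] .n) .n)))

def t10_106 : T TT 256 :=
  (.q k138 [(.s k207 k69 10 (.s k85 k255 14 (.s k154 k186 3 (.s k16 k223 10 (.d k48 k32 k101 3
  14))))), (.s k207 k69 10 (.s k143 k79 7 (.s k128 k133 2 (.s k149 k191 6 (.s k154 k186 3 (.s k176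
  k165 6 (.d k144 k159 k160 2 3))))))), (.s k207 k69 10 (.s k255 k85 14 (.s k143 k79 7 (.s k128 k133
  2 (.s k191 k149 6 (.d k175 k95 k159 11 3))))))] (.c k69 (.f k85 k255 14 (.q k1 [(.s k169 k253 13
  (.s k168 k171 0 (.s k252 k84 13 (.d k3 k2 k86 0 14)))), (.s k169 k253 13 (.s k154 k186 3 (.s k139
  k184 4 (.s k136 k137 0 (.s k187 k153 4 (.d k171 k168 k155 0 3)))))), (.s k2 k3 0 (.s k206 k70 9
  (.s k154 k186 3 (.s k50 k102 13 (.s k18 k34 3 (.d k86 k222 k254 9 13))))))] (.c k74 (.q k122 [(.s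
  k169 k253 13 (.s k168 k171 0 (.s k252 k84 13 (.d k3 k2 k86 0 14)))), (.s k169 k253 13 (.s k154
  k186 3 (.s k139 k184 4 (.s k136 k137 0 (.s k187 k153 4 (.d k171 k168 k155 0 3)))))), (.s k2 k3 0
  (.s k206 k70 9 (.s k154 k186 3 (.s k50 k102 13 (.s k18 k34 3 (.d k86 k222 k254 9 13))))))] (.c k64
  (.q k79 [(.s k207 k143 7 (.s k154 k186 3 (.s k16 k223 10 (.d k48 k32 k101 3 14)))), (.s k3 k2 0
  (.s k169 k253 13 (.s k252 k86 14 (.d k168 k171 k84 0 13))))] .n) (.c k79 (.q k64 [(.s k169 k253 13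
  (.s k168 k171 0 (.s k252 k84 13 (.d k3 k2 k86 0 14)))), (.s k128 k192 7 (.s k169 k253 13 (.s k149
  k191 6 (.s k129 k189 5 (.s k65 k193 7 (.d k130 k195 k131 8 0)))))), (.s k2 k3 0 (.s k206 k70 9 (.s
  k154 k186 3 (.s k50 k102 13 (.s k18 k34 3 (.d k86 k222 k254 9 13))))))] (.c k101 (.q k112 [(.s
  k169 k253 13 (.s k168 k171 0 (.s k252 k84 13 (.d k3 k2 k86 0 14)))), (.s k192 k128 7 (.s k96 k80 3
  (.s k48 k144 11 (.s k16 k32 3 (.d k154 k186 k223 3 10)))))] (.c k96 (.q k111 [(.s k169 k253 13 (.s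
  k168 k171 0 (.s k252 k84 13 (.d k3 k2 k86 0 14)))), (.s k128 k192 7 (.s k169 k253 13 (.s k149 k191
  6 (.s k129 k189 5 (.s k65 k193 7 (.d k130 k195 k131 8 0)))))), (.s k2 k3 0 (.s k206 k70 9 (.s k154
  k186 3 (.s k50 k102 13 (.s k18 k34 3 (.d k86 k222 k254 9 13))))))] (.c k254 (.l (.s k3 k2 0 (.s
  k169 k253 13 (.s k252 k86 14 (.d k168 k171 k84 0 13))))) .n)) (.c k111 (.l (.s k96 k80 3 (.s k3 k2
  0 (.s k169 k253 13 (.s k252 k86 14 (.d k168 k171 k84 0 13)))))) .n))) (.c k112 (.q k101 [(.s k32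
  k239 10 (.s k48 k16 3 (.d k154 k207 k186 14 3))), (.s k3 k2 0 (.s k169 k253 13 (.s k252 k86 14 (.d
  k168 k171 k84 0 13))))] .n) (.c k254 (.l (.s k3 k2 0 (.s k169 k253 13 (.s k252 k86 14 (.d k168
  k171 k84 0 13))))) .n)))) (.c k171 (.l (.s k3 k2 0 (.s k169 k253 13 (.s k252 k86 14 (.s k154 k186
  3 (.s k16 k223 10 (.s k48 k32 3 (.d k184 k139 k116 4 9)))))))) (.c k254 (.l (.s k3 k2 0 (.s k169
  k253 13 (.s k252 k86 14 (.d k168 k171 k84 0 13))))) .n))))) (.c k122 (.q k74 [(.s k169 k253 13 (.s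
  k168 k171 0 (.s k252 k84 13 (.d k3 k2 k86 0 14)))), (.s k3 k2 0 (.s k11 k7 1 (.s k137 k200 8 (.s
  k204 k70 10 (.d k136 k68 k139 9 0))))), (.s k169 k253 13 (.s k154 k186 3 (.s k139 k184 4 (.s k136
  k137 0 (.s k187 k153 4 (.d k171 k168 k155 0 3))))))] .n) (.c k171 (.l (.s k3 k2 0 (.s k169 k253 13
  (.s k252 k86 14 (.s k154 k186 3 (.s k16 k223 10 (.s k48 k32 3 (.d k184 k139 k116 4 9)))))))) (.c
  k254 (.l (.s k3 k2 0 (.s k169 k253 13 (.s k252 k86 14 (.d k168 k171 k84 0 13))))) .n)))))) (.c k74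
  (.q k122 [(.s k85 k255 14 (.s k154 k186 3 (.s k16 k223 10 (.s k48 k32 3 (.d k207 k69 k101 10
  14))))), (.s k207 k69 10 (.s k255 k85 14 (.s k79 k143 7 (.s k95 k175 11 (.s k223 k239 3 (.s k159
  k31 7 (.d k111 k127 k63 3 11))))))), (.s k255 k85 14 (.s k186 k154 3 (.s k117 k48 10 (.s k127 k112
  2 (.s k63 k191 7 (.s k240 k181 10 (.d k250 k58 k245 7 2)))))))] (.c k85 (.f k154 k186 3 (.q k64
  [(.s k128 k192 7 (.s k143 k133 2 (.d k207 k79 k69 7 10))), (.s k207 k69 10 (.s k143 k79 7 (.s k101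
  k48 14 (.s k239 k32 10 (.s k165 k176 6 (.s k255 k223 3 (.d k175 k95 k160 11 2))))))), (.s k128
  k192 7 (.s k143 k133 2 (.s k149 k191 6 (.s k176 k165 6 (.d k144 k159 k160 2 3)))))] (.c k80 (.q
  k95 [(.s k128 k192 7 (.s k143 k133 2 (.d k207 k79 k69 7 10))), (.s k207 k69 10 (.s k255 k175 11
  (.s k101 k48 14 (.d k239 k223 k32 3 10)))), (.s k128 k192 7 (.s k175 k255 11 (.s k143 k133 2 (.d
  k191 k149 k159 6 3))))] .n) (.c k95 (.q k80 [(.s k128 k192 7 (.s k143 k133 2 (.d k207 k79 k69 7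
  10))), (.s k207 k69 10 (.s k160 k240 11 (.s k143 k79 7 (.d k165 k175 k176 2 6)))), (.s k128 k192 7
  (.s k160 k240 11 (.s k144 k176 3 (.d k149 k191 k159 6 2))))] .n) (.c k143 (.q k80 [(.s k192 k128 7
  (.s k207 k69 10 (.s k96 k112 3 (.d k48 k101 k144 14 11)))), (.s k128 k192 7 (.s k160 k240 11 (.s
  k149 k191 6 (.d k144 k159 k176 2 3)))), (.s k207 k69 10 (.s k240 k160 11 (.s k112 k96 3 (.d k48
  k101 k176 14 7))))] .n) .n))))) (.c k101 (.l (.s k207 k69 10 (.s k79 k143 7 (.s k186 k154 3 (.s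
  k255 k85 14 (.s k117 k48 10 (.s k95 k175 11 (.d k127 k112 k111 2 3)))))))) (.c k117 (.l (.s k207
  k69 10 (.s k85 k255 14 (.s k154 k186 3 (.s k48 k101 14 (.d k16 k32 k223 3 10)))))) (.c k207 (.l
  (.s k255 k85 14 (.s k186 k154 3 (.s k48 k117 10 (.s k58 k250 7 (.s k63 k53 2 (.s k181 k240 10 (.d
  k191 k127 k176 7 2)))))))) (.c k223 (.l (.s k207 k69 10 (.s k255 k85 14 (.s k79 k143 7 (.s k95
  k175 11 (.s k127 k111 3 (.s k117 k112 2 (.d k186 k154 k48 3 10)))))))) (.c k255 (.q k75 [(.s k69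
  k207 10 (.s k195 k135 9 (.s k65 k130 8 (.s k73 k77 1 (.s k8 k203 8 (.d k12 k4 k134 1 10)))))), (.s
  k207 k69 10 (.s k135 k195 9 (.s k79 k143 7 (.s k71 k67 1 (.s k3 k139 9 (.d k7 k11 k199 1 7)))))),
  (.s k195 k135 9 (.s k130 k65 8 (.s k142 k134 1 (.s k150 k190 5 (.s k154 k186 3 (.s k178 k166 5 (.d
  k146 k158 k162 1 3)))))))] (.c k135 (.q k48 [(.s k154 k186 3 (.d k207 k69 k101 10 14)), (.s k16
  k32 3 (.s k26 k37 6 (.s k21 k31 2 (.s k186 k154 3 (.s k58 k250 7 (.d k63 k42 k53 6 2))))))] (.c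
  k154 (.f k207 k69 10 (.l (.s k32 k16 3 (.s k79 k143 7 (.s k101 k239 10 (.s k71 k67 1 (.s k86 k116
  4 (.s k2 k254 13 (.d k3 k139 k1 9 0))))))))) (.c k186 (.l (.s k32 k16 3 (.s k207 k69 10 (.d k101
  k239 k154 10 14)))) .n))) (.c k195 (.f k207 k69 10 (.l (.s k79 k143 7 (.s k71 k67 1 (.s k3 k139 9
  (.s k2 k1 0 (.s k86 k254 13 (.s k101 k116 4 (.d k154 k186 k48 3 14))))))))) .n))) .n))))))) (.c
  k101 (.f k85 k255 14 (.f k154 k186 3 (.f k207 k69 10 (.l (.s k16 k223 10 (.s k48 k32 3 (.s k26 k37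
  6 (.s k21 k31 2 (.s k149 k213 7 (.s k128 k191 6 (.d k143 k133 k79 2 7))))))))))) (.c k122 (.q k74
  [(.s k69 k207 10 (.s k192 k133 10 (.d k64 k79 k128 2 7))), (.s k207 k69 10 (.s k85 k255 14 (.s
  k154 k186 3 (.s k16 k223 10 (.d k48 k32 k101 3 14))))), (.s k255 k85 14 (.s k133 k192 10 (.s k128
  k143 2 (.s k149 k191 6 (.s k165 k181 3 (.d k175 k95 k160 11 2))))))] .n) (.c k207 (.q k1 [(.s k85
  k255 14 (.s k169 k253 13 (.s k168 k171 0 (.s k252 k84 13 (.d k3 k2 k86 0 14))))), (.s k2 k3 0 (.s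
  k206 k70 9 (.s k86 k254 13 (.s k154 k186 3 (.s k50 k102 13 (.d k18 k34 k222 3 9)))))), (.s k85
  k255 14 (.s k169 k253 13 (.s k154 k186 3 (.s k139 k184 4 (.s k136 k137 0 (.s k187 k153 4 (.d k171
  k168 k155 0 3)))))))] (.c k74 (.q k122 [(.s k85 k255 14 (.s k169 k253 13 (.s k168 k171 0 (.s k252
  k84 13 (.d k3 k2 k86 0 14))))), (.s k2 k3 0 (.s k206 k70 9 (.s k86 k254 13 (.s k154 k186 3 (.s k50
  k102 13 (.d k18 k34 k222 3 9)))))), (.s k85 k255 14 (.s k169 k253 13 (.s k154 k186 3 (.s k139 k184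
  4 (.s k136 k137 0 (.s k187 k153 4 (.d k171 k168 k155 0 3)))))))] (.c k254 (.l (.s k3 k2 0 (.s k85
  k255 14 (.s k169 k253 13 (.s k252 k86 14 (.d k168 k171 k84 0 13)))))) .n)) (.c k122 (.q k74 [(.s
  k85 k255 14 (.s k169 k253 13 (.s k168 k171 0 (.s k252 k84 13 (.d k3 k2 k86 0 14))))), (.s k255 k85
  14 (.s k133 k192 10 (.s k128 k143 2 (.s k149 k191 6 (.s k165 k181 3 (.d k175 k95 k160 11 2)))))),
  (.s k3 k2 0 (.s k11 k7 1 (.s k137 k200 8 (.s k204 k70 10 (.d k136 k139 k68 0 9)))))] .n) (.c k254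
  (.l (.s k3 k2 0 (.s k85 k255 14 (.s k169 k253 13 (.s k252 k86 14 (.d k168 k171 k84 0 13))))))
  .n)))) .n))))))

def t10_107 : T TT 256 :=
  (.q k63 [(.s k42 k21 6 (.s k85 k255 14 (.s k106 k234 7 (.s k192 k149 14 (.d k64 k127 k128 6
  7))))), (.s k255 k85 14 (.s k31 k47 3 (.s k95 k175 11 (.s k159 k223 7 (.s k111 k207 11 (.d k127
  k79 k191 3 7)))))), (.s k42 k21 6 (.s k47 k31 3 (.s k32 k37 2 (.s k101 k239 10 (.s k106 k234 7 (.s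
  k224 k165 10 (.d k96 k111 k160 2 7)))))))] (.c k31 (.l (.s k21 k42 6 (.s k85 k255 14 (.s k149 k213
  7 (.s k192 k106 14 (.d k128 k191 k64 6 7)))))) .n))

def t10_108 : T TT 256 :=
  (.q k63 [(.s k42 k21 6 (.s k85 k255 14 (.s k106 k234 7 (.s k192 k149 14 (.d k64 k127 k128 6
  7))))), (.s k255 k85 14 (.s k31 k47 3 (.s k95 k175 11 (.s k159 k223 7 (.s k111 k207 11 (.d k127
  k79 k191 3 7)))))), (.s k42 k21 6 (.s k47 k31 3 (.s k32 k37 2 (.s k101 k239 10 (.s k106 k234 7 (.s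
  k224 k165 10 (.d k96 k111 k160 2 7)))))))] (.c k31 (.l (.s k21 k42 6 (.s k85 k255 14 (.s k149 k213
  7 (.s k192 k106 14 (.d k128 k191 k64 6 7)))))) .n))

def t10_109 : T TT 256 :=
  (.q k63 [(.s k42 k21 6 (.s k85 k255 14 (.s k106 k234 7 (.s k192 k149 14 (.d k64 k127 k128 6
  7))))), (.s k255 k85 14 (.s k31 k47 3 (.s k95 k175 11 (.s k159 k223 7 (.s k111 k207 11 (.d k127
  k79 k191 3 7)))))), (.s k42 k21 6 (.s k47 k31 3 (.s k32 k37 2 (.s k101 k239 10 (.s k106 k234 7 (.s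
  k224 k165 10 (.d k96 k111 k160 2 7)))))))] (.c k31 (.l (.s k21 k42 6 (.s k85 k255 14 (.s k149 k213
  7 (.s k192 k106 14 (.d k128 k191 k64 6 7)))))) .n))

def t10_110 : T TT 256 :=
  (.q k63 [(.s k42 k21 6 (.s k85 k255 14 (.s k106 k234 7 (.s k192 k149 14 (.d k64 k127 k128 6
  7))))), (.s k255 k85 14 (.s k31 k47 3 (.s k95 k175 11 (.s k159 k223 7 (.s k111 k207 11 (.d k127
  k79 k191 3 7)))))), (.s k42 k21 6 (.s k47 k31 3 (.s k32 k37 2 (.s k101 k239 10 (.s k106 k234 7 (.s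
  k224 k165 10 (.d k96 k111 k160 2 7)))))))] (.c k31 (.l (.s k21 k42 6 (.s k85 k255 14 (.s k149 k213
  7 (.s k192 k106 14 (.d k128 k191 k64 6 7)))))) .n))

def t10_111 : T TT 256 :=
  (.q k3 [(.s k2 k1 0 (.s k85 k255 14 (.s k86 k254 13 (.s k252 k169 14 (.d k84 k87 k168 0 13))))),
  (.s k255 k85 14 (.s k7 k11 1 (.s k87 k171 13 (.s k167 k247 11 (.s k91 k243 13 (.d k95 k83 k175 1
  11)))))), (.s k1 k2 0 (.s k85 k255 14 (.s k169 k253 13 (.s k252 k86 14 (.d k168 k171 k84 0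
  13)))))] (.c k85 (.f k2 k1 0 (.l (.s k86 k254 13 (.s k7 k11 1 (.s k169 k252 14 (.s k165 k244 12
  (.s k160 k175 2 (.s k161 k173 1 (.d k240 k80 k82 11 12))))))))) (.c k169 (.l (.s k255 k85 14 (.s
  k11 k7 1 (.s k171 k87 13 (.s k91 k251 11 (.s k167 k243 13 (.d k175 k95 k163 11 1))))))) (.c k255
  (.f k2 k1 0 (.l (.s k86 k254 13 (.s k7 k11 1 (.s k165 k244 12 (.s k160 k175 2 (.s k240 k80 11 (.s
  k161 k82 12 (.d k169 k252 k173 14 1))))))))) .n))))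

def t10_112 : T TT 256 :=
  (.q k63 [(.s k42 k21 6 (.s k85 k255 14 (.s k106 k234 7 (.s k192 k149 14 (.d k64 k127 k128 6
  7))))), (.s k255 k85 14 (.s k31 k47 3 (.s k95 k175 11 (.s k159 k223 7 (.s k111 k207 11 (.d k127
  k79 k191 3 7)))))), (.s k42 k21 6 (.s k47 k31 3 (.s k32 k37 2 (.s k101 k239 10 (.s k106 k234 7 (.s
  k224 k165 10 (.d k96 k111 k160 2 7)))))))] (.c k31 (.l (.s k21 k42 6 (.s k85 k255 14 (.s k149 k213
  7 (.s k192 k106 14 (.d k128 k191 k64 6 7)))))) (.c k79 (.q k101 [(.s k42 k21 6 (.s k32 k239 10 (.d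
  k47 k37 k31 2 3))), (.s k21 k42 6 (.s k85 k255 14 (.s k149 k213 7 (.s k192 k106 14 (.d k128 k191
  k64 6 7))))), (.s k255 k85 14 (.s k47 k31 3 (.s k239 k32 10 (.d k175 k95 k111 11 7))))] .n) (.c
  k101 (.q k79 [(.s k255 k85 14 (.s k95 k175 11 (.d k127 k111 k191 3 7))), (.s k42 k21 6 (.s k106
  k234 7 (.s k192 k149 14 (.s k64 k128 7 (.d k74 k69 k133 2 10))))), (.s k47 k31 3 (.s k207 k143 7
  (.s k111 k159 11 (.s k175 k239 7 (.d k95 k127 k255 3 11)))))] .n) .n))))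

def t10_113 : T TT 256 :=
  (.q k63 [(.s k42 k21 6 (.s k85 k255 14 (.s k106 k234 7 (.s k192 k149 14 (.d k64 k127 k128 6
  7))))), (.s k255 k85 14 (.s k31 k47 3 (.s k95 k175 11 (.s k159 k223 7 (.s k111 k207 11 (.d k127
  k79 k191 3 7)))))), (.s k42 k21 6 (.s k47 k31 3 (.s k32 k37 2 (.s k101 k239 10 (.s k106 k234 7 (.s
  k224 k165 10 (.d k96 k111 k160 2 7)))))))] (.c k31 (.l (.s k21 k42 6 (.s k85 k255 14 (.s k149 k213
  7 (.s k192 k106 14 (.d k128 k191 k64 6 7)))))) .n))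

def t10_114 : T TT 256 :=
  (.q k63 [(.s k42 k21 6 (.s k85 k255 14 (.s k106 k234 7 (.s k192 k149 14 (.d k64 k127 k128 6
  7))))), (.s k255 k85 14 (.s k31 k47 3 (.s k95 k175 11 (.s k159 k223 7 (.s k111 k207 11 (.d k127
  k79 k191 3 7)))))), (.s k42 k21 6 (.s k47 k31 3 (.s k32 k37 2 (.s k101 k239 10 (.s k106 k234 7 (.s
  k224 k165 10 (.d k96 k111 k160 2 7)))))))] (.c k31 (.l (.s k21 k42 6 (.s k85 k255 14 (.s k149 k213
  7 (.s k192 k106 14 (.d k128 k191 k64 6 7)))))) (.c k78 (.q k102 [(.s k85 k255 14 (.s k34 k238 9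
  (.s k51 k17 4 (.s k204 k153 14 (.d k68 k119 k136 4 9))))), (.s k21 k42 6 (.s k85 k255 14 (.s k149
  k213 7 (.s k192 k106 14 (.d k128 k191 k64 6 7))))), (.s k42 k21 6 (.s k34 k238 9 (.s k51 k17 4 (.s
  k38 k46 1 (.s k25 k12 6 (.d k59 k55 k8 1 4))))))] .n) (.c k102 (.q k78 [(.s k21 k42 6 (.s k85 k255
  14 (.s k149 k213 7 (.s k128 k191 6 (.d k192 k64 k106 7 14))))), (.s k204 k141 8 (.s k110 k157 12
  (.s k94 k126 3 (.s k173 k252 12 (.d k47 k31 k236 3 8)))))] .n) .n))))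

def t10_115 : T TT 256 :=
  (.q k63 [(.s k42 k21 6 (.s k85 k255 14 (.s k106 k234 7 (.s k192 k149 14 (.d k64 k127 k128 6
  7))))), (.s k255 k85 14 (.s k31 k47 3 (.s k95 k175 11 (.s k159 k223 7 (.s k111 k207 11 (.d k127
  k79 k191 3 7)))))), (.s k42 k21 6 (.s k47 k31 3 (.s k32 k37 2 (.s k101 k239 10 (.s k106 k234 7 (.s
  k224 k165 10 (.d k96 k111 k160 2 7)))))))] (.c k31 (.l (.s k21 k42 6 (.s k85 k255 14 (.s k149 k213
  7 (.s k192 k106 14 (.d k128 k191 k64 6 7)))))) .n))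

def t10_116 : T TT 256 :=
  (.q k63 [(.s k42 k21 6 (.s k85 k255 14 (.s k106 k234 7 (.s k192 k149 14 (.d k64 k127 k128 6
  7))))), (.s k255 k85 14 (.s k31 k47 3 (.s k95 k175 11 (.s k159 k223 7 (.s k111 k207 11 (.d k127
  k79 k191 3 7)))))), (.s k42 k21 6 (.s k47 k31 3 (.s k32 k37 2 (.s k101 k239 10 (.s k106 k234 7 (.s
  k224 k165 10 (.d k96 k111 k160 2 7)))))))] (.c k31 (.l (.s k21 k42 6 (.s k85 k255 14 (.s k149 k213
  7 (.s k192 k106 14 (.d k128 k191 k64 6 7)))))) .n))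

def t10_117 : T TT 256 :=
  (.q k63 [(.s k42 k21 6 (.s k85 k255 14 (.s k106 k234 7 (.s k192 k149 14 (.d k64 k127 k128 6
  7))))), (.s k255 k85 14 (.s k31 k47 3 (.s k95 k175 11 (.s k159 k223 7 (.s k111 k207 11 (.d k127
  k79 k191 3 7)))))), (.s k42 k21 6 (.s k47 k31 3 (.s k32 k37 2 (.s k101 k239 10 (.s k106 k234 7 (.s
  k224 k165 10 (.d k96 k111 k160 2 7)))))))] (.c k31 (.l (.s k21 k42 6 (.s k85 k255 14 (.s k149 k213
  7 (.s k192 k106 14 (.d k128 k191 k64 6 7)))))) .n))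

def t10_118 : T TT 256 :=
  (.q k63 [(.s k42 k21 6 (.s k85 k255 14 (.s k106 k234 7 (.s k192 k149 14 (.d k64 k127 k128 6
  7))))), (.s k255 k85 14 (.s k31 k47 3 (.s k95 k175 11 (.s k159 k223 7 (.s k111 k207 11 (.d k127
  k79 k191 3 7)))))), (.s k42 k21 6 (.s k47 k31 3 (.s k32 k37 2 (.s k101 k239 10 (.s k106 k234 7 (.s
  k224 k165 10 (.d k96 k111 k160 2 7)))))))] (.c k31 (.l (.s k21 k42 6 (.s k85 k255 14 (.s k149 k213
  7 (.s k192 k106 14 (.d k128 k191 k64 6 7)))))) .n))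

def t10_119 : T TT 256 :=
  (.q k63 [(.s k42 k21 6 (.s k85 k255 14 (.s k106 k234 7 (.s k192 k149 14 (.d k64 k127 k128 6
  7))))), (.s k255 k85 14 (.s k31 k47 3 (.s k95 k175 11 (.s k159 k223 7 (.s k111 k207 11 (.d k127
  k79 k191 3 7)))))), (.s k42 k21 6 (.s k47 k31 3 (.s k32 k37 2 (.s k101 k239 10 (.s k106 k234 7 (.s
  k224 k165 10 (.d k96 k111 k160 2 7)))))))] (.c k31 (.l (.s k21 k42 6 (.s k85 k255 14 (.s k149 k213
  7 (.s k192 k106 14 (.d k128 k191 k64 6 7)))))) .n))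

def t10_120 : T TT 256 :=
  (.q k63 [(.s k42 k21 6 (.s k85 k255 14 (.s k106 k234 7 (.s k192 k149 14 (.d k64 k127 k128 6
  7))))), (.s k255 k85 14 (.s k31 k47 3 (.s k95 k175 11 (.s k159 k223 7 (.s k111 k207 11 (.d k127
  k79 k191 3 7)))))), (.s k42 k21 6 (.s k47 k31 3 (.s k32 k37 2 (.s k101 k239 10 (.s k106 k234 7 (.s
  k224 k165 10 (.d k96 k111 k160 2 7)))))))] (.c k31 (.l (.s k21 k42 6 (.s k85 k255 14 (.s k149 k213
  7 (.s k192 k106 14 (.d k128 k191 k64 6 7)))))) (.c k75 (.q k105 [(.s k85 k255 14 (.s k40 k235 8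
  (.s k60 k20 5 (.s k195 k150 14 (.d k65 k125 k130 5 8))))), (.s k21 k42 6 (.s k85 k255 14 (.s k149
  k213 7 (.s k192 k106 14 (.d k128 k191 k64 6 7))))), (.s k42 k21 6 (.s k40 k235 8 (.s k60 k20 5 (.s
  k41 k43 0 (.s k22 k3 6 (.d k62 k61 k2 0 5))))))] .n) (.c k105 (.q k75 [(.s k21 k42 6 (.s k85 k255
  14 (.s k149 k213 7 (.s k128 k191 6 (.d k192 k64 k106 7 14))))), (.s k195 k135 9 (.s k107 k151 13
  (.s k91 k123 3 (.s k167 k243 13 (.d k47 k31 k227 3 9)))))] .n) .n))))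

def t10_121 : T TT 256 :=
  (.q k63 [(.s k42 k21 6 (.s k85 k255 14 (.s k106 k234 7 (.s k192 k149 14 (.d k64 k127 k128 6
  7))))), (.s k255 k85 14 (.s k31 k47 3 (.s k95 k175 11 (.s k159 k223 7 (.s k111 k207 11 (.d k127
  k79 k191 3 7)))))), (.s k42 k21 6 (.s k47 k31 3 (.s k32 k37 2 (.s k101 k239 10 (.s k106 k234 7 (.s
  k224 k165 10 (.d k96 k111 k160 2 7)))))))] (.c k31 (.l (.s k21 k42 6 (.s k85 k255 14 (.s k149 k213
  7 (.s k192 k106 14 (.d k128 k191 k64 6 7)))))) .n))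

def t10_122 : T TT 256 :=
  (.q k63 [(.s k21 k42 6 (.s k85 k255 14 (.s k149 k213 7 (.s k128 k191 6 (.d k192 k106 k64 14
  7))))), (.s k255 k85 14 (.s k31 k47 3 (.s k95 k175 11 (.s k159 k223 7 (.s k111 k207 11 (.d k127
  k79 k191 3 7)))))), (.s k42 k21 6 (.s k47 k31 3 (.s k32 k37 2 (.s k101 k239 10 (.s k106 k234 7 (.s
  k224 k165 10 (.d k96 k111 k160 2 7)))))))] (.c k74 (.q k106 [(.d k42 k21 k234 6 7), (.s k85 k255
  14 (.s k192 k149 14 (.d k64 k127 k128 6 7)))] (.c k138 (.q k202 [(.d k42 k21 k234 6 7), (.s k85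
  k255 14 (.s k192 k149 14 (.d k64 k127 k128 6 7)))] .n) (.c k202 (.q k138 [(.d k42 k21 k234 6 7),
  (.s k85 k255 14 (.s k192 k149 14 (.d k64 k127 k128 6 7)))] .n) .n))) (.c k106 (.q k74 [(.s k192
  k133 10 (.s k128 k64 7 (.s k191 k149 6 (.d k255 k127 k85 7 14)))), (.s k255 k85 14 (.s k127 k191 7
  (.s k31 k47 3 (.s k95 k175 11 (.s k159 k223 7 (.d k111 k79 k207 3 11)))))), (.s k21 k42 6 (.s k85
  k255 14 (.s k192 k133 10 (.s k128 k64 7 (.d k149 k191 k213 6 7)))))] (.c k64 (.l (.s k255 k85 14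
  (.s k127 k191 7 (.s k31 k47 3 (.s k95 k175 11 (.s k159 k223 7 (.d k111 k79 k207 3 11))))))) (.c
  k85 (.f k42 k21 6 (.l (.s k47 k31 3 (.s k32 k37 2 (.s k239 k101 10 (.s k111 k175 7 (.s k207 k159
  11 (.s k69 k138 10 (.d k79 k143 k64 7 2))))))))) (.c k191 (.l (.s k42 k21 6 (.s k255 k85 14 (.s
  k47 k31 3 (.s k32 k37 2 (.s k239 k101 10 (.d k175 k111 k95 7 11))))))) (.c k255 (.f k42 k21 6 (.l
  (.s k47 k31 3 (.s k32 k37 2 (.s k239 k101 10 (.s k111 k175 7 (.s k207 k159 11 (.s k69 k138 10 (.d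
  k79 k143 k64 7 2))))))))) .n))))) .n)))

def t10_123 : T TT 256 :=
  (.q k63 [(.s k42 k21 6 (.s k85 k255 14 (.s k106 k234 7 (.s k192 k149 14 (.d k64 k127 k128 6
  7))))), (.s k255 k85 14 (.s k31 k47 3 (.s k95 k175 11 (.s k159 k223 7 (.s k111 k207 11 (.d k127
  k79 k191 3 7)))))), (.s k42 k21 6 (.s k47 k31 3 (.s k32 k37 2 (.s k101 k239 10 (.s k106 k234 7 (.s
  k224 k165 10 (.d k96 k111 k160 2 7)))))))] (.c k31 (.l (.s k21 k42 6 (.s k85 k255 14 (.s k149 k213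
  7 (.s k192 k106 14 (.d k128 k191 k64 6 7)))))) .n))

def t10_124 : T TT 256 :=
  (.q k63 [(.s k42 k21 6 (.s k85 k255 14 (.s k106 k234 7 (.s k192 k149 14 (.d k64 k127 k128 6
  7))))), (.s k255 k85 14 (.s k31 k47 3 (.s k95 k175 11 (.s k159 k223 7 (.s k111 k207 11 (.d k127
  k79 k191 3 7)))))), (.s k42 k21 6 (.s k47 k31 3 (.s k32 k37 2 (.s k101 k239 10 (.s k106 k234 7 (.s
  k224 k165 10 (.d k96 k111 k160 2 7)))))))] (.c k31 (.l (.s k21 k42 6 (.s k85 k255 14 (.s k149 k213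
  7 (.s k192 k106 14 (.d k128 k191 k64 6 7)))))) .n))

def t10_125 : T TT 256 :=
  (.q k63 [(.s k42 k21 6 (.s k85 k255 14 (.s k106 k234 7 (.s k192 k149 14 (.d k64 k127 k128 6
  7))))), (.s k255 k85 14 (.s k31 k47 3 (.s k95 k175 11 (.s k159 k223 7 (.s k111 k207 11 (.d k127
  k79 k191 3 7)))))), (.s k42 k21 6 (.s k47 k31 3 (.s k32 k37 2 (.s k101 k239 10 (.s k106 k234 7 (.s
  k224 k165 10 (.d k96 k111 k160 2 7)))))))] (.c k31 (.l (.s k21 k42 6 (.s k85 k255 14 (.s k149 k213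
  7 (.s k192 k106 14 (.d k128 k191 k64 6 7)))))) .n))

def t10_126 : T TT 256 :=
  (.q k63 [(.s k42 k21 6 (.s k85 k255 14 (.s k106 k234 7 (.s k192 k149 14 (.d k64 k127 k128 6
  7))))), (.s k255 k85 14 (.s k31 k47 3 (.s k95 k175 11 (.s k159 k223 7 (.s k111 k207 11 (.d k127
  k79 k191 3 7)))))), (.s k42 k21 6 (.s k47 k31 3 (.s k32 k37 2 (.s k101 k239 10 (.s k106 k234 7 (.s
  k224 k165 10 (.d k96 k111 k160 2 7)))))))] (.c k31 (.l (.s k21 k42 6 (.s k85 k255 14 (.s k149 k213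
  7 (.s k192 k106 14 (.d k128 k191 k64 6 7)))))) .n))

def t10_127 : T TT 256 :=
  (.q k48 [(.s k16 k32 3 (.s k85 k255 14 (.s k154 k223 10 (.s k138 k186 3 (.d k207 k69 k101 10
  14))))), (.s k32 k16 3 (.s k37 k26 6 (.s k101 k239 10 (.s k165 k229 7 (.s k160 k175 2 (.s k224 k96
  7 (.d k47 k42 k106 2 10))))))), (.s k255 k85 14 (.s k37 k26 6 (.s k186 k117 10 (.s k154 k138 3 (.s
  k101 k207 14 (.s k165 k229 7 (.d k175 k95 k160 11 2)))))))] (.c k101 (.f k16 k32 3 (.q k112 [(.s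
  k240 k176 7 (.s k80 k160 11 (.s k144 k208 7 (.d k96 k64 k192 3 11)))), (.s k85 k255 14 (.s k154
  k223 10 (.s k176 k240 7 (.s k138 k186 3 (.s k207 k69 10 (.d k143 k165 k79 6 7))))))] (.c k176 (.q
  k80 [(.s k144 k208 7 (.d k96 k64 k192 3 11)), (.s k160 k240 11 (.s k175 k165 2 (.d k255 k95 k85 11
  14)))] .n) (.c k240 (.q k80 [(.s k96 k64 3 (.d k144 k208 k192 7 11)), (.s k85 k255 14 (.s k26 k37
  6 (.s k21 k31 2 (.s k208 k144 7 (.s k223 k154 10 (.d k213 k149 k218 7 2))))))] (.c k85 (.l (.s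
  k144 k208 7 (.d k96 k192 k64 11 3))) (.c k144 (.l (.s k85 k255 14 (.s k26 k37 6 (.s k21 k31 2 (.s
  k149 k213 7 (.s k64 k96 3 (.d k128 k191 k192 6 7))))))) (.c k208 (.l (.s k85 k255 14 (.s k26 k37 6
  (.s k21 k31 2 (.s k149 k213 7 (.s k64 k96 3 (.d k128 k191 k192 6 7))))))) .n)))) .n)))) (.c k154
  (.f k26 k37 6 (.q k63 [(.s k16 k32 3 (.d k21 k42 k31 6 2)), (.s k21 k42 6 (.s k85 k255 14 (.s k149
  k213 7 (.s k192 k106 14 (.d k128 k191 k64 6 7))))), (.s k32 k16 3 (.s k47 k31 3 (.s k239 k101 10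
  (.s k175 k111 7 (.d k255 k95 k85 11 14)))))] (.c k32 (.l (.s k21 k42 6 (.s k47 k31 3 (.s k85 k255
  14 (.s k149 k213 7 (.s k192 k106 14 (.d k128 k191 k64 6 7))))))) (.c k47 (.l (.s k32 k16 3 (.s k21
  k42 6 (.s k85 k255 14 (.s k149 k213 7 (.s k101 k239 10 (.d k53 k58 k197 2 11))))))) .n)))) .n)))

def t10_128 : T TT 256 :=
  (.q k3 [(.s k2 k1 0 (.s k85 k255 14 (.s k86 k254 13 (.s k252 k169 14 (.d k84 k87 k168 0 13))))),
  (.s k255 k85 14 (.s k7 k11 1 (.s k87 k171 13 (.s k167 k247 11 (.s k91 k243 13 (.d k95 k83 k175 1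
  11)))))), (.s k1 k2 0 (.s k85 k255 14 (.s k169 k253 13 (.s k252 k86 14 (.d k168 k171 k84 0
  13)))))] (.c k85 (.q k95 [(.s k2 k1 0 (.s k86 k254 13 (.s k169 k252 14 (.s k255 k175 11 (.d k171
  k168 k87 0 13))))), (.s k255 k175 11 (.s k87 k171 13 (.s k91 k83 1 (.s k167 k243 13 (.d k7 k11
  k247 1 11))))), (.s k2 k1 0 (.s k86 k254 13 (.s k7 k11 1 (.s k165 k244 12 (.d k175 k160 k255 2
  11)))))] (.c k175 (.l (.s k2 k1 0 (.s k86 k254 13 (.s k11 k7 1 (.s k169 k252 14 (.s k171 k168 0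
  (.s k91 k251 11 (.d k87 k255 k83 13 1)))))))) (.c k255 (.q k69 [(.s k1 k2 0 (.s k138 k207 10 (.s
  k137 k205 9 (.s k204 k70 10 (.d k136 k139 k68 0 9))))), (.s k207 k138 10 (.s k11 k7 1 (.s k139 k71
  9 (.s k75 k203 7 (.s k135 k195 9 (.d k143 k131 k79 1 7)))))), (.s k1 k2 0 (.s k137 k205 9 (.s k7
  k11 1 (.s k70 k204 10 (.s k133 k196 8 (.s k129 k141 1 (.d k192 k66 k74 8 10)))))))] (.c k207 (.l
  (.s k1 k2 0 (.s k137 k205 9 (.s k11 k7 1 (.s k204 k70 10 (.s k74 k200 8 (.s k133 k192 10 (.d k141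
  k129 k78 1 8)))))))) .n)) .n))) (.c k169 (.l (.s k255 k85 14 (.s k11 k7 1 (.s k171 k87 13 (.s k91
  k251 11 (.s k167 k243 13 (.d k175 k95 k163 11 1))))))) (.c k255 (.q k69 [(.s k2 k1 0 (.s k138 k207
  10 (.s k70 k206 9 (.s k204 k137 10 (.d k68 k71 k136 0 9))))), (.s k207 k138 10 (.s k11 k7 1 (.s
  k139 k71 9 (.s k75 k203 7 (.s k135 k195 9 (.d k143 k131 k79 1 7)))))), (.s k1 k2 0 (.s k137 k205 9
  (.s k7 k11 1 (.s k70 k204 10 (.s k133 k196 8 (.s k129 k141 1 (.d k192 k66 k74 8 10)))))))] (.c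
  k207 (.l (.s k1 k2 0 (.s k137 k205 9 (.s k11 k7 1 (.s k204 k70 10 (.s k74 k200 8 (.s k133 k192 10
  (.d k141 k129 k78 1 8)))))))) .n)) .n))))

def t10_129 : T TT 256 :=
  (.q k63 [(.s k21 k42 6 (.s k85 k255 14 (.s k149 k213 7 (.s k128 k191 6 (.d k192 k64 k106 7
  14))))), (.s k255 k85 14 (.s k31 k47 3 (.s k95 k175 11 (.s k159 k223 7 (.s k111 k207 11 (.d k127
  k79 k191 3 7)))))), (.s k42 k21 6 (.s k47 k31 3 (.s k32 k37 2 (.s k101 k239 10 (.s k106 k234 7 (.s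
  k224 k165 10 (.d k96 k111 k160 2 7)))))))] .n)

def t10_130 : T TT 256 :=
  (.q k63 [(.s k42 k21 6 (.s k85 k255 14 (.s k106 k234 7 (.s k192 k149 14 (.d k64 k127 k128 6
  7))))), (.s k255 k85 14 (.s k31 k47 3 (.s k95 k175 11 (.s k159 k223 7 (.s k111 k207 11 (.d k127
  k79 k191 3 7)))))), (.s k42 k21 6 (.s k47 k31 3 (.s k32 k37 2 (.s k101 k239 10 (.s k106 k234 7 (.s
  k224 k165 10 (.d k96 k111 k160 2 7)))))))] (.c k31 (.l (.s k21 k42 6 (.s k85 k255 14 (.s k149 k213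
  7 (.s k192 k106 14 (.d k128 k191 k64 6 7)))))) .n))

def t10_131 : T TT 256 :=
  (.q k63 [(.s k42 k21 6 (.s k85 k255 14 (.s k106 k234 7 (.s k192 k149 14 (.d k64 k127 k128 6
  7))))), (.s k255 k85 14 (.s k31 k47 3 (.s k95 k175 11 (.s k159 k223 7 (.s k111 k207 11 (.d k127
  k79 k191 3 7)))))), (.s k42 k21 6 (.s k47 k31 3 (.s k32 k37 2 (.s k101 k239 10 (.s k106 k234 7 (.s
  k224 k165 10 (.d k96 k111 k160 2 7)))))))] (.c k31 (.l (.s k21 k42 6 (.s k85 k255 14 (.s k149 k213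
  7 (.s k192 k106 14 (.d k128 k191 k64 6 7)))))) .n))

def t10_132 : T TT 256 :=
  (.q k63 [(.s k21 k42 6 (.s k85 k255 14 (.s k149 k213 7 (.s k128 k191 6 (.d k192 k64 k106 7
  14))))), (.s k255 k85 14 (.s k31 k47 3 (.s k95 k175 11 (.s k159 k223 7 (.s k111 k207 11 (.d k127
  k79 k191 3 7)))))), (.s k42 k21 6 (.s k47 k31 3 (.s k32 k37 2 (.s k101 k239 10 (.s k106 k234 7 (.s
  k224 k165 10 (.d k96 k111 k160 2 7)))))))] .n)

def t10_133 : T TT 256 :=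
  (.q k63 [(.s k42 k21 6 (.s k255 k85 14 (.s k106 k234 7 (.s k149 k192 14 (.d k191 k128 k127 6
  7))))), (.s k42 k21 6 (.s k47 k31 3 (.s k32 k37 2 (.s k101 k239 10 (.s k106 k234 7 (.s k224 k165
  10 (.d k96 k111 k160 2 7))))))), (.s k255 k85 14 (.s k31 k47 3 (.s k95 k175 11 (.s k159 k223 7 (.s
  k111 k207 11 (.d k127 k79 k191 3 7))))))] .n)

def t10_134 : T TT 256 :=
  (.q k63 [(.s k42 k21 6 (.s k85 k255 14 (.s k106 k234 7 (.s k192 k149 14 (.d k64 k127 k128 6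
  7))))), (.s k255 k85 14 (.s k31 k47 3 (.s k95 k175 11 (.s k159 k223 7 (.s k111 k207 11 (.d k127
  k79 k191 3 7)))))), (.s k42 k21 6 (.s k47 k31 3 (.s k32 k37 2 (.s k101 k239 10 (.s k106 k234 7 (.s
  k224 k165 10 (.d k96 k111 k160 2 7)))))))] (.c k31 (.l (.s k21 k42 6 (.s k85 k255 14 (.s k149 k213
  7 (.s k192 k106 14 (.d k128 k191 k64 6 7)))))) .n))

def t10_135 : T TT 256 :=
  (.q k63 [(.s k42 k21 6 (.s k85 k255 14 (.s k106 k234 7 (.s k192 k149 14 (.d k64 k127 k128 6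
  7))))), (.s k255 k85 14 (.s k31 k47 3 (.s k95 k175 11 (.s k159 k223 7 (.s k111 k207 11 (.d k127
  k79 k191 3 7)))))), (.s k42 k21 6 (.s k47 k31 3 (.s k32 k37 2 (.s k101 k239 10 (.s k106 k234 7 (.s
  k224 k165 10 (.d k96 k111 k160 2 7)))))))] (.c k31 (.l (.s k21 k42 6 (.s k85 k255 14 (.s k149 k213
  7 (.s k192 k106 14 (.d k128 k191 k64 6 7)))))) .n))

def t10_136 : T TT 256 :=
  (.q k63 [(.s k42 k21 6 (.s k85 k255 14 (.s k106 k234 7 (.s k192 k149 14 (.d k64 k127 k128 6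
  7))))), (.s k255 k85 14 (.s k31 k47 3 (.s k95 k175 11 (.s k159 k223 7 (.s k111 k207 11 (.d k127
  k79 k191 3 7)))))), (.s k42 k21 6 (.s k47 k31 3 (.s k32 k37 2 (.s k101 k239 10 (.s k106 k234 7 (.s
  k224 k165 10 (.d k96 k111 k160 2 7)))))))] (.c k31 (.l (.s k21 k42 6 (.s k85 k255 14 (.s k149 k213
  7 (.s k192 k106 14 (.d k128 k191 k64 6 7)))))) .n))

def t10_137 : T TT 256 :=
  (.q k63 [(.s k42 k21 6 (.s k85 k255 14 (.s k106 k234 7 (.s k192 k149 14 (.d k64 k127 k128 6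
  7))))), (.s k255 k85 14 (.s k31 k47 3 (.s k95 k175 11 (.s k159 k223 7 (.s k111 k207 11 (.d k127
  k79 k191 3 7)))))), (.s k42 k21 6 (.s k47 k31 3 (.s k32 k37 2 (.s k101 k239 10 (.s k106 k234 7 (.s
  k224 k165 10 (.d k96 k111 k160 2 7)))))))] (.c k31 (.l (.s k21 k42 6 (.s k85 k255 14 (.s k149 k213
  7 (.s k192 k106 14 (.d k128 k191 k64 6 7)))))) .n))

def t10_138 : T TT 256 :=
  (.q k63 [(.s k42 k21 6 (.s k85 k255 14 (.s k106 k234 7 (.s k192 k149 14 (.d k64 k127 k128 6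
  7))))), (.s k255 k85 14 (.s k31 k47 3 (.s k95 k175 11 (.s k159 k223 7 (.s k111 k207 11 (.d k127
  k79 k191 3 7)))))), (.s k42 k21 6 (.s k47 k31 3 (.s k32 k37 2 (.s k101 k239 10 (.s k106 k234 7 (.s
  k224 k165 10 (.d k96 k111 k160 2 7)))))))] (.c k31 (.l (.s k21 k42 6 (.s k85 k255 14 (.s k149 k213
  7 (.s k192 k106 14 (.d k128 k191 k64 6 7)))))) (.c k74 (.q k202 [(.s k21 k42 6 (.s k85 k255 14 (.s
  k149 k213 7 (.s k128 k191 6 (.d k192 k106 k64 14 7))))), (.s k255 k85 14 (.s k31 k47 3 (.s k95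
  k175 11 (.s k159 k223 7 (.s k111 k207 11 (.d k127 k79 k191 3 7)))))), (.s k42 k21 6 (.s k47 k31 3
  (.s k32 k37 2 (.s k106 k234 7 (.s k58 k154 11 (.d k48 k53 k16 2 3))))))] (.c k106 (.q k122 [(.s
  k240 k181 10 (.s k160 k80 11 (.s k175 k165 2 (.d k255 k95 k85 11 14)))), (.s k255 k85 14 (.s k181
  k240 10 (.s k127 k191 7 (.s k117 k112 2 (.s k48 k186 10 (.d k53 k58 k245 2 7)))))), (.s k255 k85
  14 (.s k95 k175 11 (.s k31 k47 3 (.s k159 k223 7 (.s k111 k207 11 (.d k127 k79 k191 3 7))))))] (.c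
  k80 (.l (.s k255 k85 14 (.s k95 k175 11 (.s k31 k47 3 (.s k159 k223 7 (.s k111 k207 11 (.d k127
  k79 k191 3 7))))))) (.c k85 (.q k64 [(.s k192 k128 7 (.s k240 k181 10 (.s k80 k160 11 (.s k96 k112
  3 (.s k144 k48 11 (.d k208 k224 k16 3 7)))))), (.s k42 k21 6 (.s k192 k128 7 (.s k47 k31 3 (.s k32
  k37 2 (.s k101 k239 10 (.s k207 k197 2 (.d k48 k16 k154 3 14))))))), (.s k21 k42 6 (.s k31 k47 3
  (.s k26 k16 2 (.s k240 k181 10 (.s k80 k160 11 (.s k112 k96 3 (.d k48 k37 k176 6 7))))))), (.s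
  k128 k192 7 (.s k240 k181 10 (.s k80 k160 11 (.s k191 k149 6 (.s k127 k255 7 (.d k112 k117 k96 2
  3))))))] (.c k80 (.q k95 [(.s k128 k192 7 (.s k255 k175 11 (.d k191 k149 k127 6 7))), (.s k192
  k128 7 (.s k31 k47 3 (.s k159 k223 7 (.d k207 k197 k111 2 11)))), (.s k42 k21 6 (.s k47 k31 3 (.s
  k175 k255 11 (.s k32 k37 2 (.d k239 k111 k101 7 10)))))] .n) (.c k95 (.q k80 [(.d k240 k181 k160
  10 11), (.s k128 k192 7 (.s k112 k96 3 (.s k127 k117 2 (.d k191 k149 k255 6 7))))] .n) .n))) (.c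
  k95 (.l (.s k240 k181 10 (.s k80 k160 11 (.s k255 k85 14 (.s k127 k191 7 (.s k117 k112 2 (.s k186
  k48 10 (.d k250 k245 k58 2 7)))))))) (.c k255 (.l (.s k42 k21 6 (.s k47 k31 3 (.s k32 k37 2 (.s
  k239 k101 10 (.s k240 k181 10 (.s k160 k80 11 (.d k175 k165 k111 2 7)))))))) .n))))) (.c k122 (.q
  k106 [(.d k42 k21 k234 6 7), (.s k85 k255 14 (.s k192 k149 14 (.d k64 k127 k128 6 7)))] .n) .n)))
  (.c k202 (.q k74 [(.s k192 k133 10 (.s k128 k64 7 (.d k149 k191 k106 6 14))), (.s k42 k21 6 (.s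
  k255 k85 14 (.s k47 k31 3 (.s k32 k37 2 (.s k239 k101 10 (.d k175 k95 k111 11 7))))))] (.c k149
  (.l (.s k42 k21 6 (.s k192 k133 10 (.s k234 k106 7 (.d k255 k213 k85 6 14))))) .n)) .n))))

def t10_139 : T TT 256 :=
  (.q k63 [(.s k42 k21 6 (.s k85 k255 14 (.s k106 k234 7 (.s k192 k149 14 (.d k64 k127 k128 6
  7))))), (.s k255 k85 14 (.s k31 k47 3 (.s k95 k175 11 (.s k159 k223 7 (.s k111 k207 11 (.d k127
  k79 k191 3 7)))))), (.s k42 k21 6 (.s k47 k31 3 (.s k32 k37 2 (.s k101 k239 10 (.s k106 k234 7 (.s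
  k224 k165 10 (.d k96 k111 k160 2 7)))))))] (.c k31 (.l (.s k21 k42 6 (.s k85 k255 14 (.s k149 k213
  7 (.s k192 k106 14 (.d k128 k191 k64 6 7)))))) .n))

def t10_140 : T TT 256 :=
  (.q k63 [(.s k42 k21 6 (.s k85 k255 14 (.s k106 k234 7 (.s k192 k149 14 (.d k64 k127 k128 6
  7))))), (.s k255 k85 14 (.s k31 k47 3 (.s k95 k175 11 (.s k159 k223 7 (.s k111 k207 11 (.d k127
  k79 k191 3 7)))))), (.s k42 k21 6 (.s k47 k31 3 (.s k32 k37 2 (.s k101 k239 10 (.s k106 k234 7 (.s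
  k224 k165 10 (.d k96 k111 k160 2 7)))))))] (.c k31 (.l (.s k21 k42 6 (.s k85 k255 14 (.s k149 k213
  7 (.s k192 k106 14 (.d k128 k191 k64 6 7)))))) .n))

def t10_141 : T TT 256 :=
  (.q k63 [(.s k42 k21 6 (.s k85 k255 14 (.s k106 k234 7 (.s k192 k149 14 (.d k64 k127 k128 6
  7))))), (.s k255 k85 14 (.s k31 k47 3 (.s k95 k175 11 (.s k159 k223 7 (.s k111 k207 11 (.d k127
  k79 k191 3 7)))))), (.s k42 k21 6 (.s k47 k31 3 (.s k32 k37 2 (.s k101 k239 10 (.s k106 k234 7 (.s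
  k224 k165 10 (.d k96 k111 k160 2 7)))))))] (.c k31 (.l (.s k21 k42 6 (.s k85 k255 14 (.s k149 k213
  7 (.s k192 k106 14 (.d k128 k191 k64 6 7)))))) .n))

def t10_142 : T TT 256 :=
  (.q k63 [(.s k42 k21 6 (.s k85 k255 14 (.s k106 k234 7 (.s k192 k149 14 (.d k64 k127 k128 6
  7))))), (.s k255 k85 14 (.s k31 k47 3 (.s k95 k175 11 (.s k159 k223 7 (.s k111 k207 11 (.d k127
  k79 k191 3 7)))))), (.s k42 k21 6 (.s k47 k31 3 (.s k32 k37 2 (.s k101 k239 10 (.s k106 k234 7 (.s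
  k224 k165 10 (.d k96 k111 k160 2 7)))))))] (.c k31 (.l (.s k21 k42 6 (.s k85 k255 14 (.s k149 k213
  7 (.s k192 k106 14 (.d k128 k191 k64 6 7)))))) .n))

def t10_143 : T TT 256 :=
  (.q k63 [(.s k42 k21 6 (.s k85 k255 14 (.s k106 k234 7 (.s k192 k149 14 (.d k64 k127 k128 6
  7))))), (.s k255 k85 14 (.s k31 k47 3 (.s k95 k175 11 (.s k159 k223 7 (.s k111 k207 11 (.d k127
  k191 k79 7 3)))))), (.s k42 k21 6 (.s k47 k31 3 (.s k32 k37 2 (.s k101 k239 10 (.s k106 k234 7 (.s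
  k224 k165 10 (.d k96 k111 k160 2 7)))))))] (.c k31 (.l (.s k21 k42 6 (.s k85 k255 14 (.s k149 k213
  7 (.s k192 k106 14 (.d k128 k191 k64 6 7)))))) .n))

def t10_144 : T TT 256 :=
  (.q k63 [(.s k21 k42 6 (.s k85 k255 14 (.s k149 k213 7 (.s k128 k191 6 (.d k192 k64 k106 7
  14))))), (.s k255 k85 14 (.s k31 k47 3 (.s k95 k175 11 (.s k159 k223 7 (.s k111 k207 11 (.d k127
  k79 k191 3 7)))))), (.s k42 k21 6 (.s k47 k31 3 (.s k32 k37 2 (.s k101 k239 10 (.s k106 k234 7 (.s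
  k224 k165 10 (.d k96 k111 k160 2 7)))))))] .n)

def t10_145 : T TT 256 :=
  (.q k63 [(.s k21 k42 6 (.s k85 k255 14 (.s k149 k213 7 (.s k128 k191 6 (.d k192 k64 k106 7
  14))))), (.s k255 k85 14 (.s k31 k47 3 (.s k95 k175 11 (.s k159 k223 7 (.s k111 k207 11 (.d k127
  k79 k191 3 7)))))), (.s k42 k21 6 (.s k47 k31 3 (.s k32 k37 2 (.s k101 k239 10 (.s k106 k234 7 (.s
  k224 k165 10 (.d k96 k111 k160 2 7)))))))] .n)

def t10_146 : T TT 256 :=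
  (.q k63 [(.s k42 k21 6 (.s k85 k255 14 (.s k106 k234 7 (.s k192 k149 14 (.d k64 k127 k128 6
  7))))), (.s k255 k85 14 (.s k31 k47 3 (.s k95 k175 11 (.s k159 k223 7 (.s k111 k207 11 (.d k127
  k79 k191 3 7)))))), (.s k42 k21 6 (.s k47 k31 3 (.s k32 k37 2 (.s k101 k239 10 (.s k106 k234 7 (.s
  k224 k165 10 (.d k96 k111 k160 2 7)))))))] (.c k31 (.l (.s k21 k42 6 (.s k85 k255 14 (.s k149 k213
  7 (.s k192 k106 14 (.d k128 k191 k64 6 7)))))) .n))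

def t10_147 : T TT 256 :=
  (.q k63 [(.s k42 k21 6 (.s k85 k255 14 (.s k106 k234 7 (.s k192 k149 14 (.d k64 k127 k128 6
  7))))), (.s k255 k85 14 (.s k31 k47 3 (.s k95 k175 11 (.s k159 k223 7 (.s k111 k207 11 (.d k127
  k79 k191 3 7)))))), (.s k42 k21 6 (.s k47 k31 3 (.s k32 k37 2 (.s k101 k239 10 (.s k106 k234 7 (.s
  k224 k165 10 (.d k96 k111 k160 2 7)))))))] (.c k31 (.l (.s k21 k42 6 (.s k85 k255 14 (.s k149 k213
  7 (.s k192 k106 14 (.d k128 k191 k64 6 7)))))) .n))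

def t10_148 : T TT 256 :=
  (.q k63 [(.s k21 k42 6 (.s k85 k255 14 (.s k149 k213 7 (.s k128 k191 6 (.d k192 k64 k106 7
  14))))), (.s k255 k85 14 (.s k31 k47 3 (.s k95 k175 11 (.s k159 k223 7 (.s k111 k207 11 (.d k127
  k79 k191 3 7)))))), (.s k42 k21 6 (.s k47 k31 3 (.s k32 k37 2 (.s k101 k239 10 (.s k106 k234 7 (.s
  k224 k165 10 (.d k96 k111 k160 2 7)))))))] .n)

def t10_149 : T TT 256 :=
  (.q k207 [(.s k138 k69 10 (.s k85 k255 14 (.s k154 k186 3 (.s k16 k223 10 (.d k48 k32 k101 3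
  14))))), (.s k255 k85 14 (.s k79 k143 7 (.s k95 k175 11 (.s k111 k127 3 (.s k159 k63 11 (.d k223
  k31 k239 7 3))))))] (.c k31 (.q k208 [(.s k69 k138 10 (.s k85 k255 14 (.s k101 k117 3 (.s k32 k239
  10 (.d k48 k16 k154 3 14))))), (.s k255 k85 14 (.s k143 k79 7 (.s k239 k223 3 (.s k101 k32 10 (.s
  k154 k48 14 (.s k165 k176 6 (.d k175 k95 k160 11 2))))))), (.s k138 k69 10 (.s k255 k85 14 (.s
  k143 k79 7 (.s k154 k186 3 (.s k165 k176 6 (.d k175 k95 k160 11 2))))))] (.c k85 (.f k138 k69 10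
  (.l (.s k143 k79 7 (.s k154 k186 3 (.s k101 k48 14 (.s k239 k32 10 (.s k165 k176 6 (.s k175 k160 2
  (.d k255 k223 k95 3 11))))))))) (.c k101 (.l (.s k69 k138 10 (.s k255 k85 14 (.s k79 k143 7 (.s
  k74 k64 2 (.s k223 k239 3 (.s k213 k218 2 (.d k192 k133 k234 10 6)))))))) (.c k154 (.f k85 k255 14
  (.f k79 k143 7 (.f k69 k138 10 (.f k74 k64 2 (.l (.s k133 k192 10 (.s k5 k197 7 (.s k165 k245 11
  (.s k101 k117 3 (.s k32 k239 10 (.s k48 k16 3 (.d k37 k26 k229 6 7)))))))))))) (.c k255 (.f k138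
  k69 10 (.l (.s k143 k79 7 (.s k128 k133 2 (.s k154 k186 3 (.s k165 k176 6 (.s k160 k175 2 (.s k240
  k80 11 (.d k192 k64 k224 7 3))))))))) .n))))) (.c k85 (.f k138 k69 10 (.l (.s k143 k79 7 (.s k154
  k186 3 (.s k101 k48 14 (.s k239 k32 10 (.s k165 k176 6 (.s k175 k160 2 (.d k255 k223 k95 3
  11))))))))) (.c k208 (.q k31 [(.s k255 k85 14 (.s k95 k175 11 (.d k223 k239 k159 3 7))), (.s k138
  k69 10 (.s k154 k186 3 (.s k48 k101 14 (.s k16 k32 3 (.d k26 k21 k37 2 6))))), (.s k63 k47 3 (.s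
  k143 k79 7 (.s k159 k111 11 (.s k95 k223 7 (.d k175 k191 k255 3 11)))))] .n) (.c k223 (.l (.s k69
  k138 10 (.s k85 k255 14 (.s k101 k117 3 (.s k32 k239 10 (.d k48 k16 k154 3 14)))))) (.c k255 (.f
  k138 k69 10 (.l (.s k143 k79 7 (.s k154 k186 3 (.s k165 k176 6 (.s k160 k175 2 (.s k240 k80 11 (.s
  k229 k218 6 (.d k101 k48 k37 14 7))))))))) .n))))))

def t10_150 : T TT 256 :=
  (.q k207 [(.s k138 k69 10 (.s k85 k255 14 (.s k154 k186 3 (.s k16 k223 10 (.d k48 k32 k101 3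
  14))))), (.s k255 k85 14 (.s k79 k143 7 (.s k95 k175 11 (.s k111 k127 3 (.s k159 k63 11 (.d k223
  k239 k31 3 7)))))), (.s k138 k69 10 (.s k143 k79 7 (.s k128 k133 2 (.s k149 k191 6 (.s k154 k186 3
  (.s k176 k165 6 (.d k144 k159 k160 2 3)))))))] (.c k30 (.q k210 [(.s k138 k69 10 (.s k85 k255 14
  (.s k154 k186 3 (.s k16 k223 10 (.d k48 k32 k101 3 14))))), (.s k255 k85 14 (.s k79 k143 7 (.s k95
  k175 11 (.s k111 k127 3 (.s k159 k63 11 (.d k223 k239 k31 3 7)))))), (.s k138 k69 10 (.s k143 k79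
  7 (.s k128 k133 2 (.s k149 k191 6 (.s k154 k186 3 (.s k176 k165 6 (.d k144 k159 k160 2 3)))))))]
  .n) (.c k210 (.q k30 [(.s k138 k69 10 (.s k85 k255 14 (.s k154 k186 3 (.s k16 k223 10 (.d k48 k32
  k101 3 14))))), (.s k60 k45 4 (.s k158 k109 12 (.s k94 k222 7 (.s k173 k252 12 (.d k143 k188 k79 4
  7)))))] .n) .n)))

def t10_151 : T TT 256 :=
  (.q k207 [(.s k138 k69 10 (.s k85 k255 14 (.s k154 k186 3 (.s k16 k223 10 (.d k48 k32 k101 3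
  14))))), (.s k255 k85 14 (.s k79 k143 7 (.s k95 k175 11 (.s k111 k127 3 (.s k159 k63 11 (.d k223
  k239 k31 3 7)))))), (.s k138 k69 10 (.s k143 k79 7 (.s k128 k133 2 (.s k149 k191 6 (.s k154 k186 3
  (.s k176 k165 6 (.d k144 k159 k160 2 3)))))))] .n)

def t10_152 : T TT 256 :=
  (.q k207 [(.s k138 k69 10 (.s k85 k255 14 (.s k154 k186 3 (.s k16 k223 10 (.d k48 k32 k101 3
  14))))), (.s k255 k85 14 (.s k79 k143 7 (.s k95 k175 11 (.s k111 k127 3 (.s k159 k63 11 (.d k223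
  k239 k31 3 7)))))), (.s k138 k69 10 (.s k143 k79 7 (.s k128 k133 2 (.s k149 k191 6 (.s k154 k186 3
  (.s k176 k165 6 (.d k144 k159 k160 2 3)))))))] .n)

def t10_153 : T TT 256 :=
  (.q k207 [(.s k138 k69 10 (.s k85 k255 14 (.s k154 k186 3 (.s k16 k223 10 (.d k48 k32 k101 3
  14))))), (.s k255 k85 14 (.s k79 k143 7 (.s k95 k175 11 (.s k111 k127 3 (.s k159 k63 11 (.d k223
  k239 k31 3 7)))))), (.s k138 k69 10 (.s k143 k79 7 (.s k128 k133 2 (.s k149 k191 6 (.s k154 k186 3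
  (.s k176 k165 6 (.d k144 k159 k160 2 3)))))))] (.c k27 (.q k216 [(.s k138 k69 10 (.s k85 k255 14
  (.s k154 k186 3 (.s k16 k223 10 (.d k48 k32 k101 3 14))))), (.s k255 k85 14 (.s k79 k143 7 (.s k95
  k175 11 (.s k111 k127 3 (.s k159 k63 11 (.d k223 k239 k31 3 7)))))), (.s k138 k69 10 (.s k143 k79
  7 (.s k128 k133 2 (.s k149 k191 6 (.s k154 k186 3 (.s k176 k165 6 (.d k144 k159 k160 2 3)))))))]
  .n) (.c k216 (.q k27 [(.s k138 k69 10 (.s k85 k255 14 (.s k154 k186 3 (.s k16 k223 10 (.d k48 k32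
  k101 3 14))))), (.s k51 k39 5 (.s k155 k103 13 (.s k91 k219 7 (.s k167 k243 13 (.d k143 k179 k79 5
  7)))))] .n) .n)))

def t10_154 : T TT 256 :=
  (.q k3 [(.s k1 k2 0 (.s k85 k255 14 (.s k169 k253 13 (.s k168 k171 0 (.d k252 k84 k86 13 14))))),
  (.s k255 k85 14 (.s k7 k11 1 (.s k87 k171 13 (.s k167 k247 11 (.s k91 k243 13 (.d k95 k83 k175 1
  11))))))] (.c k26 (.q k218 [(.s k1 k2 0 (.s k85 k255 14 (.s k169 k253 13 (.s k168 k171 0 (.d k252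
  k84 k86 13 14))))), (.s k255 k85 14 (.s k7 k11 1 (.s k87 k171 13 (.s k167 k247 11 (.s k91 k243 13
  (.d k95 k83 k175 1 11))))))] (.c k42 (.q k58 [(.s k2 k1 0 (.s k85 k255 14 (.s k86 k254 13 (.s k252
  k169 14 (.d k84 k87 k168 0 13))))), (.s k255 k85 14 (.s k7 k11 1 (.s k87 k171 13 (.s k167 k247 11
  (.s k91 k243 13 (.d k95 k83 k175 1 11)))))), (.s k1 k2 0 (.s k85 k255 14 (.s k169 k253 13 (.s k252
  k86 14 (.d k168 k171 k84 0 13)))))] (.c k85 (.f k2 k1 0 (.l (.s k86 k254 13 (.s k7 k11 1 (.s k169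
  k252 14 (.s k165 k244 12 (.s k160 k175 2 (.s k161 k173 1 (.d k240 k80 k82 11 12))))))))) (.c k169
  (.l (.s k255 k85 14 (.s k11 k7 1 (.s k171 k87 13 (.s k91 k251 11 (.s k167 k243 13 (.d k175 k95
  k163 11 1))))))) (.c k255 (.q k207 [(.s k2 k1 0 (.s k139 k71 9 (.s k138 k69 10 (.s k137 k136 0 (.d
  k70 k206 k204 9 10))))), (.s k7 k11 1 (.s k71 k139 9 (.s k135 k199 7 (.s k75 k195 9 (.d k79 k67
  k143 1 7))))), (.s k1 k2 0 (.s k69 k138 10 (.s k137 k205 9 (.s k11 k7 1 (.s k74 k200 8 (.d k79 k64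
  k143 2 7))))))] .n) .n)))) (.c k58 (.q k42 [(.s k63 k21 6 (.s k85 k255 14 (.s k106 k234 7 (.s k192
  k149 14 (.d k64 k127 k128 6 7))))), (.s k1 k2 0 (.s k21 k63 6 (.s k41 k61 5 (.s k60 k22 6 (.d k40
  k43 k20 0 5))))), (.s k1 k2 0 (.s k85 k255 14 (.s k169 k253 13 (.s k252 k86 14 (.d k168 k171 k84 0
  13)))))] (.c k106 (.q k202 [(.s k1 k2 0 (.s k21 k63 6 (.s k41 k61 5 (.s k60 k22 6 (.d k40 k43 k20
  0 5))))), (.s k1 k2 0 (.s k85 k255 14 (.s k169 k253 13 (.s k252 k86 14 (.d k168 k171 k84 0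
  13))))), (.s k63 k21 6 (.s k255 k85 14 (.s k43 k23 5 (.s k171 k87 13 (.s k235 k107 7 (.d k40 k105
  k41 8 0))))))] (.c k74 (.q k122 [(.s k63 k21 6 (.s k240 k181 10 (.s k250 k234 3 (.d k255 k245 k85
  2 14)))), (.s k1 k2 0 (.s k21 k63 6 (.s k41 k61 5 (.s k60 k22 6 (.d k40 k43 k20 0 5))))), (.s k1
  k2 0 (.s k85 k255 14 (.s k169 k253 13 (.s k252 k86 14 (.d k168 k171 k84 0 13)))))] .n) (.c k122
  (.q k74 [(.s k255 k85 14 (.s k192 k133 10 (.d k234 k250 k213 3 6))), (.s k1 k2 0 (.s k21 k63 6 (.s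
  k41 k61 5 (.s k60 k22 6 (.d k40 k43 k20 0 5)))))] (.c k186 (.l (.s k250 k234 3 (.s k255 k85 14 (.s
  k192 k133 10 (.s k207 k197 2 (.d k240 k245 k229 2 6)))))) (.c k192 (.l (.s k1 k2 0 (.s k85 k255 14
  (.s k169 k253 13 (.s k252 k86 14 (.d k168 k171 k84 0 13)))))) (.c k250 (.q k186 [(.s k192 k133 10
  (.s k64 k128 7 (.s k79 k69 2 (.d k207 k197 k143 2 7)))), (.s k1 k2 0 (.s k85 k255 14 (.s k169 k253
  13 (.s k252 k86 14 (.d k168 k171 k84 0 13)))))] .n) .n)))) .n))) (.c k202 (.l (.s k106 k234 7 (.s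
  k63 k21 6 (.s k85 k255 14 (.s k192 k149 14 (.d k64 k127 k128 6 7)))))) .n))) (.c k85 (.f k2 k1 0
  (.l (.s k86 k254 13 (.s k7 k11 1 (.s k169 k252 14 (.s k165 k244 12 (.s k160 k175 2 (.s k161 k173 1
  (.d k240 k80 k82 11 12))))))))) (.c k169 (.l (.s k255 k85 14 (.s k11 k7 1 (.s k171 k87 13 (.s k91
  k251 11 (.s k167 k243 13 (.d k175 k95 k163 11 1))))))) (.c k171 (.l (.s k2 k1 0 (.s k85 k255 14
  (.s k86 k254 13 (.s k252 k169 14 (.d k84 k87 k168 0 13)))))) (.c k255 (.q k42 [(.s k2 k1 0 (.s k21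
  k63 6 (.s k22 k62 5 (.s k60 k41 6 (.d k20 k23 k40 0 5))))), (.s k2 k1 0 (.s k62 k22 5 (.s k86 k254
  13 (.s k106 k234 7 (.s k194 k150 13 (.d k66 k126 k130 5 7)))))), (.s k63 k21 6 (.s k7 k11 1 (.s
  k23 k43 5 (.s k39 k55 3 (.s k27 k51 5 (.d k31 k19 k47 1 3))))))] .n) .n))))))) (.c k85 (.f k2 k1 0
  (.l (.s k86 k254 13 (.s k7 k11 1 (.s k169 k252 14 (.s k165 k244 12 (.s k160 k175 2 (.s k161 k173 1
  (.d k240 k80 k82 11 12))))))))) (.c k169 (.l (.s k255 k85 14 (.s k11 k7 1 (.s k171 k87 13 (.s k91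
  k251 11 (.s k167 k243 13 (.d k175 k95 k163 11 1))))))) (.c k171 (.l (.s k2 k1 0 (.s k85 k255 14
  (.s k86 k254 13 (.s k252 k169 14 (.d k84 k87 k168 0 13)))))) (.c k218 (.q k26 [(.s k1 k2 0 (.s k85
  k255 14 (.s k169 k253 13 (.s k168 k171 0 (.d k252 k84 k86 13 14))))), (.s k11 k7 1 (.s k41 k56 4
  (.s k22 k60 6 (.s k48 k37 6 (.d k18 k30 k33 1 4)))))] .n) (.c k255 (.q k26 [(.s k11 k7 1 (.s k41
  k56 4 (.s k22 k60 6 (.s k48 k37 6 (.d k18 k30 k33 1 4))))), (.s k1 k2 0 (.s k48 k37 6 (.s k32 k16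
  3 (.s k33 k18 4 (.s k17 k49 3 (.d k34 k35 k51 0 4)))))), (.s k1 k2 0 (.s k11 k7 1 (.s k41 k56 4
  (.s k21 k61 5 (.s k63 k42 6 (.d k31 k16 k47 2 3))))))] .n) .n)))))))

def t10_155 : T TT 256 :=
  (.q k63 [(.s k42 k21 6 (.s k85 k255 14 (.s k106 k234 7 (.s k192 k149 14 (.d k64 k127 k128 6
  7))))), (.s k255 k85 14 (.s k31 k47 3 (.s k95 k175 11 (.s k159 k223 7 (.s k111 k207 11 (.d k127
  k79 k191 3 7)))))), (.s k42 k21 6 (.s k47 k31 3 (.s k32 k37 2 (.s k101 k239 10 (.s k106 k234 7 (.s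
  k224 k165 10 (.d k96 k111 k160 2 7)))))))] (.c k31 (.l (.s k21 k42 6 (.s k85 k255 14 (.s k149 k213
  7 (.s k192 k106 14 (.d k128 k191 k64 6 7)))))) .n))

def t10_156 : T TT 256 :=
  (.q k63 [(.s k42 k21 6 (.s k85 k255 14 (.s k106 k234 7 (.s k192 k149 14 (.d k64 k127 k128 6
  7))))), (.s k255 k85 14 (.s k31 k47 3 (.s k95 k175 11 (.s k159 k223 7 (.s k111 k207 11 (.d k127
  k79 k191 3 7)))))), (.s k42 k21 6 (.s k47 k31 3 (.s k32 k37 2 (.s k101 k239 10 (.s k106 k234 7 (.s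
  k224 k165 10 (.d k96 k111 k160 2 7)))))))] (.c k31 (.l (.s k21 k42 6 (.s k85 k255 14 (.s k149 k213
  7 (.s k192 k106 14 (.d k128 k191 k64 6 7)))))) .n))

def t10_157 : T TT 256 :=
  (.q k63 [(.s k42 k21 6 (.s k255 k85 14 (.s k106 k234 7 (.s k149 k192 14 (.d k191 k128 k127 6
  7))))), (.s k42 k21 6 (.s k47 k31 3 (.s k32 k37 2 (.s k101 k239 10 (.s k106 k234 7 (.s k224 k165
  10 (.d k96 k111 k160 2 7))))))), (.s k255 k85 14 (.s k31 k47 3 (.s k95 k175 11 (.s k159 k223 7 (.s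
  k111 k207 11 (.d k127 k79 k191 3 7))))))] .n)

def t10_158 : T TT 256 :=
  (.q k63 [(.s k42 k21 6 (.s k85 k255 14 (.s k106 k234 7 (.s k192 k149 14 (.d k64 k127 k128 6
  7))))), (.s k255 k85 14 (.s k31 k47 3 (.s k95 k175 11 (.s k159 k223 7 (.s k111 k207 11 (.d k127
  k79 k191 3 7)))))), (.s k42 k21 6 (.s k47 k31 3 (.s k32 k37 2 (.s k101 k239 10 (.s k106 k234 7 (.s
  k224 k165 10 (.d k96 k111 k160 2 7)))))))] (.c k31 (.l (.s k21 k42 6 (.s k85 k255 14 (.s k149 k213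
  7 (.s k192 k106 14 (.d k128 k191 k64 6 7)))))) .n))

def t10_159 : T TT 256 :=
  (.q k48 [(.s k16 k32 3 (.s k85 k255 14 (.s k154 k223 10 (.s k138 k186 3 (.d k207 k69 k101 10
  14))))), (.s k32 k16 3 (.s k37 k26 6 (.s k101 k239 10 (.s k165 k229 7 (.s k160 k175 2 (.s k224 k96
  7 (.d k47 k42 k106 2 10))))))), (.s k255 k85 14 (.s k37 k26 6 (.s k186 k117 10 (.s k154 k138 3 (.s
  k101 k207 14 (.s k165 k229 7 (.d k175 k95 k160 11 2)))))))] (.c k101 (.f k26 k37 6 (.l (.s k16 k32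
  3 (.s k85 k255 14 (.s k21 k31 2 (.s k149 k213 7 (.s k128 k191 6 (.s k192 k64 7 (.d k63 k42 k106 6
  14))))))))) (.c k154 (.f k26 k37 6 (.l (.s k16 k32 3 (.s k85 k255 14 (.s k21 k31 2 (.s k149 k213 7
  (.s k128 k191 6 (.s k192 k64 7 (.d k63 k42 k106 6 14))))))))) .n)))

def t10_160 : T TT 256 :=
  (.q k63 [(.s k42 k21 6 (.s k85 k255 14 (.s k106 k234 7 (.s k192 k149 14 (.d k64 k127 k128 6
  7))))), (.s k255 k85 14 (.s k31 k47 3 (.s k95 k175 11 (.s k159 k223 7 (.s k111 k207 11 (.d k127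
  k79 k191 3 7)))))), (.s k21 k42 6 (.s k85 k255 14 (.s k149 k213 7 (.s k192 k106 14 (.d k128 k191
  k64 6 7)))))] (.c k85 (.q k95 [(.s k42 k21 6 (.s k255 k175 11 (.s k106 k234 7 (.s k149 k192 14 (.d
  k191 k128 k127 6 7))))), (.s k31 k47 3 (.s k175 k255 11 (.s k159 k223 7 (.s k207 k111 11 (.d k143
  k191 k79 3 7)))))] (.c k175 (.q k48 [(.s k16 k32 3 (.s k21 k42 6 (.d k26 k37 k31 6 2))), (.s k42
  k21 6 (.s k106 k234 7 (.s k58 k53 2 (.s k154 k202 11 (.s k207 k101 14 (.d k138 k69 k186 10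
  3)))))), (.s k32 k16 3 (.s k101 k239 10 (.s k53 k58 2 (.s k149 k197 11 (.s k192 k106 14 (.d k128
  k64 k191 7 6))))))] (.c k42 (.l (.s k32 k16 3 (.s k26 k37 6 (.s k101 k239 10 (.s k53 k58 2 (.s
  k149 k197 11 (.s k192 k106 14 (.d k128 k64 k191 7 6)))))))) (.c k58 (.l (.s k16 k32 3 (.s k21 k42
  6 (.d k26 k37 k31 6 2)))) .n))) (.c k191 (.l (.s k42 k21 6 (.s k47 k31 3 (.s k175 k255 11 (.s k32
  k37 2 (.d k239 k111 k101 7 10)))))) (.c k255 (.l (.s k42 k21 6 (.s k47 k31 3 (.s k32 k37 2 (.s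
  k239 k101 10 (.s k111 k175 7 (.s k207 k159 11 (.d k79 k143 k127 7 3)))))))) .n)))) (.c k255 (.q
  k48 [(.s k32 k16 3 (.s k42 k21 6 (.d k37 k26 k47 6 2))), (.s k42 k21 6 (.s k106 k234 7 (.s k58 k53
  2 (.s k154 k202 11 (.s k207 k101 14 (.d k138 k186 k69 3 10)))))), (.s k32 k16 3 (.s k101 k239 10
  (.s k53 k58 2 (.s k149 k197 11 (.s k192 k106 14 (.d k128 k191 k64 6 7))))))] (.c k42 (.l (.s k32
  k16 3 (.s k26 k37 6 (.s k101 k239 10 (.s k53 k58 2 (.s k149 k197 11 (.s k192 k106 14 (.d k128 k191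
  k64 6 7)))))))) .n)) .n)))

def t10_161 : T TT 256 :=
  (.q k63 [(.s k42 k21 6 (.s k85 k255 14 (.s k106 k234 7 (.s k192 k149 14 (.d k64 k127 k128 6
  7))))), (.s k255 k85 14 (.s k31 k47 3 (.s k95 k175 11 (.s k159 k223 7 (.s k111 k207 11 (.d k127
  k79 k191 3 7)))))), (.s k42 k21 6 (.s k47 k31 3 (.s k32 k37 2 (.s k101 k239 10 (.s k106 k234 7 (.s
  k224 k165 10 (.d k96 k111 k160 2 7)))))))] (.c k31 (.l (.s k21 k42 6 (.s k85 k255 14 (.s k149 k213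
  7 (.s k192 k106 14 (.d k128 k191 k64 6 7)))))) .n))

def t10_162 : T TT 256 :=
  (.q k63 [(.s k42 k21 6 (.s k85 k255 14 (.s k106 k234 7 (.s k192 k149 14 (.d k64 k127 k128 6
  7))))), (.s k255 k85 14 (.s k31 k47 3 (.s k95 k175 11 (.s k159 k223 7 (.s k111 k207 11 (.d k127
  k79 k191 3 7)))))), (.s k42 k21 6 (.s k47 k31 3 (.s k32 k37 2 (.s k101 k239 10 (.s k106 k234 7 (.s
  k224 k165 10 (.d k96 k111 k160 2 7)))))))] (.c k31 (.l (.s k21 k42 6 (.s k85 k255 14 (.s k149 k213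
  7 (.s k192 k106 14 (.d k128 k191 k64 6 7)))))) .n))

def t10_163 : T TT 256 :=
  (.q k63 [(.s k42 k21 6 (.s k85 k255 14 (.s k106 k234 7 (.s k192 k149 14 (.d k64 k127 k128 6
  7))))), (.s k255 k85 14 (.s k31 k47 3 (.s k95 k175 11 (.s k159 k223 7 (.s k111 k207 11 (.d k127
  k79 k191 3 7)))))), (.s k42 k21 6 (.s k47 k31 3 (.s k32 k37 2 (.s k101 k239 10 (.s k106 k234 7 (.s
  k224 k165 10 (.d k96 k111 k160 2 7)))))))] (.c k31 (.l (.s k21 k42 6 (.s k85 k255 14 (.s k149 k213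
  7 (.s k192 k106 14 (.d k128 k191 k64 6 7)))))) .n))

def t10_164 : T TT 256 :=
  (.q k63 [(.s k42 k21 6 (.s k85 k255 14 (.s k106 k234 7 (.s k192 k149 14 (.d k64 k127 k128 6
  7))))), (.s k255 k85 14 (.s k31 k47 3 (.s k95 k175 11 (.s k159 k223 7 (.s k111 k207 11 (.d k127
  k79 k191 3 7)))))), (.s k42 k21 6 (.s k47 k31 3 (.s k32 k37 2 (.s k101 k239 10 (.s k106 k234 7 (.s
  k224 k165 10 (.d k96 k111 k160 2 7)))))))] (.c k31 (.l (.s k21 k42 6 (.s k85 k255 14 (.s k149 k213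
  7 (.s k192 k106 14 (.d k128 k191 k64 6 7)))))) .n))

def t10_165 : T TT 256 :=
  (.q k63 [(.s k21 k42 6 (.s k85 k255 14 (.s k149 k213 7 (.s k128 k191 6 (.d k192 k64 k106 7
  14))))), (.s k255 k85 14 (.s k95 k175 11 (.s k127 k191 7 (.s k111 k79 3 (.s k159 k207 11 (.d k31
  k47 k223 3 7))))))] (.c k85 (.q k95 [(.s k42 k21 6 (.s k255 k175 11 (.s k106 k234 7 (.s k149 k192
  14 (.d k191 k128 k127 6 7))))), (.s k31 k47 3 (.s k175 k255 11 (.s k159 k223 7 (.s k207 k111 11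
  (.d k143 k191 k79 3 7))))), (.s k42 k21 6 (.s k47 k31 3 (.s k175 k255 11 (.s k32 k37 2 (.d k239
  k101 k111 10 7)))))] (.c k5 (.q k245 [(.s k42 k21 6 (.s k255 k175 11 (.s k106 k234 7 (.s k149 k192
  14 (.d k191 k128 k127 6 7))))), (.s k31 k47 3 (.s k175 k255 11 (.s k159 k223 7 (.s k207 k111 11
  (.d k143 k191 k79 3 7))))), (.s k42 k21 6 (.s k47 k31 3 (.s k175 k255 11 (.s k239 k111 7 (.d k32
  k37 k101 2 10)))))] (.c k175 (.q k26 [(.s k21 k42 6 (.d k31 k16 k47 2 3)), (.s k48 k37 6 (.s k53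
  k58 2 (.s k32 k16 3 (.s k101 k239 10 (.s k154 k207 14 (.s k117 k181 7 (.d k186 k255 k138 10
  3)))))))] (.c k16 (.l (.s k42 k21 6 (.s k37 k48 6 (.d k47 k32 k31 2 3)))) (.c k21 (.l (.s k48 k37
  6 (.s k53 k58 2 (.s k32 k16 3 (.s k101 k239 10 (.s k154 k207 14 (.s k117 k181 7 (.d k186 k255 k138
  10 3)))))))) (.c k47 (.l (.s k21 k42 6 (.s k16 k31 2 (.d k48 k32 k37 3 6)))) .n)))) (.c k255 (.q
  k26 [(.s k21 k42 6 (.d k31 k16 k47 2 3)), (.s k31 k47 3 (.s k159 k223 7 (.s k207 k111 11 (.s k138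
  k69 10 (.s k154 k186 3 (.d k48 k101 k37 14 6)))))), (.s k42 k21 6 (.s k48 k37 6 (.s k53 k58 2 (.s
  k32 k16 3 (.s k101 k239 10 (.s k106 k234 7 (.d k149 k192 k197 14 11)))))))] (.c k16 (.l (.s k42
  k21 6 (.s k37 k48 6 (.d k47 k32 k31 2 3)))) .n)) .n))) (.c k175 (.q k26 [(.s k21 k42 6 (.d k31 k16
  k47 2 3)), (.s k48 k37 6 (.s k32 k16 3 (.s k101 k239 10 (.s k53 k58 2 (.s k149 k197 11 (.s k192
  k106 14 (.d k128 k64 k191 7 6)))))))] (.c k5 (.q k245 [(.s k21 k42 6 (.d k31 k16 k47 2 3)), (.s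
  k48 k37 6 (.s k53 k58 2 (.s k32 k16 3 (.s k101 k239 10 (.s k154 k207 14 (.s k117 k181 7 (.d k186
  k255 k138 10 3)))))))] (.c k16 (.l (.s k42 k21 6 (.s k37 k48 6 (.d k47 k32 k31 2 3)))) (.c k21 (.l
  (.s k48 k37 6 (.s k53 k58 2 (.s k32 k16 3 (.s k101 k239 10 (.s k154 k207 14 (.s k117 k181 7 (.d
  k186 k255 k138 10 3)))))))) (.c k47 (.l (.s k21 k42 6 (.s k16 k31 2 (.d k48 k32 k37 3 6)))) .n))))
  (.c k16 (.l (.s k42 k21 6 (.s k37 k48 6 (.d k47 k32 k31 2 3)))) (.c k47 (.l (.s k21 k42 6 (.s k16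
  k31 2 (.d k48 k32 k37 3 6)))) (.c k245 (.q k5 [(.s k21 k42 6 (.d k37 k53 k48 3 6)), (.s k21 k42 6
  (.d k31 k16 k47 2 3)), (.s k48 k37 6 (.s k32 k16 3 (.s k101 k239 10 (.s k53 k58 2 (.s k149 k197 11
  (.s k192 k106 14 (.d k128 k64 k191 7 6)))))))] .n) .n))))) (.c k245 (.q k5 [(.s k21 k42 6 (.s k37
  k53 3 (.s k26 k48 6 (.d k31 k16 k47 2 3)))), (.s k42 k21 6 (.s k255 k175 11 (.s k106 k234 7 (.s
  k149 k192 14 (.d k191 k128 k127 6 7))))), (.s k31 k47 3 (.s k175 k255 11 (.s k159 k223 7 (.s k207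
  k111 11 (.d k143 k191 k79 3 7)))))] .n) (.c k255 (.l (.s k31 k47 3 (.s k159 k223 7 (.s k207 k111
  11 (.s k138 k69 10 (.s k143 k79 7 (.s k128 k133 2 (.d k191 k175 k149 3 6)))))))) .n))))) (.c k191
  (.l (.s k42 k21 6 (.s k85 k255 14 (.s k106 k234 7 (.s k192 k149 14 (.d k64 k127 k128 6 7)))))) (.c
  k255 (.q k26 [(.s k21 k42 6 (.d k31 k16 k47 2 3)), (.s k48 k37 6 (.s k32 k16 3 (.s k101 k239 10
  (.s k53 k58 2 (.s k149 k197 11 (.s k192 k106 14 (.d k128 k191 k64 6 7)))))))] (.c k16 (.l (.s k42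
  k21 6 (.s k37 k48 6 (.d k47 k32 k31 2 3)))) (.c k47 (.l (.s k21 k42 6 (.s k16 k31 2 (.d k48 k32
  k37 3 6)))) .n))) .n))))

def t10_166 : T TT 256 :=
  (.q k63 [(.s k21 k42 6 (.s k85 k255 14 (.s k149 k213 7 (.s k128 k191 6 (.d k192 k64 k106 7
  14))))), (.s k255 k85 14 (.s k31 k47 3 (.s k95 k175 11 (.s k159 k223 7 (.s k111 k207 11 (.d k127
  k79 k191 3 7)))))), (.s k42 k21 6 (.s k47 k31 3 (.s k32 k37 2 (.s k101 k239 10 (.s k106 k234 7 (.s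
  k224 k165 10 (.d k96 k111 k160 2 7)))))))] (.c k14 (.q k242 [(.s k21 k42 6 (.s k85 k255 14 (.s
  k149 k213 7 (.s k128 k191 6 (.d k192 k64 k106 7 14))))), (.s k255 k85 14 (.s k31 k47 3 (.s k95
  k175 11 (.s k159 k223 7 (.s k111 k207 11 (.d k127 k79 k191 3 7)))))), (.s k42 k21 6 (.s k47 k31 3
  (.s k32 k37 2 (.s k101 k239 10 (.s k106 k234 7 (.s k224 k165 10 (.d k96 k111 k160 2 7)))))))] (.c
  k2 (.q k6 [(.s k42 k21 6 (.s k85 k255 14 (.s k106 k234 7 (.s k192 k149 14 (.d k64 k127 k128 6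
  7))))), (.s k255 k85 14 (.s k31 k47 3 (.s k95 k175 11 (.s k159 k223 7 (.s k111 k207 11 (.d k127
  k79 k191 3 7)))))), (.s k42 k21 6 (.s k47 k31 3 (.s k32 k37 2 (.s k101 k239 10 (.s k106 k234 7 (.s
  k224 k165 10 (.d k96 k111 k160 2 7)))))))] (.c k31 (.l (.s k21 k42 6 (.s k85 k255 14 (.s k149 k213
  7 (.s k192 k106 14 (.d k128 k191 k64 6 7)))))) .n)) (.c k6 (.q k2 [(.s k3 k1 0 (.s k42 k21 6 (.s
  k43 k23 5 (.s k41 k40 0 (.d k22 k62 k60 5 6))))), (.s k21 k42 6 (.s k85 k255 14 (.s k149 k213 7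
  (.s k192 k106 14 (.d k128 k191 k64 6 7))))), (.s k3 k1 0 (.s k85 k255 14 (.s k86 k254 13 (.s k252
  k169 14 (.d k84 k87 k168 0 13)))))] (.c k86 (.q k246 [(.s k3 k1 0 (.s k42 k21 6 (.s k22 k62 5 (.s
  k41 k60 6 (.d k43 k40 k23 0 5))))), (.s k3 k1 0 (.s k255 k85 14 (.s k82 k162 11 (.s k240 k161 12
  (.d k250 k254 k245 1 2))))), (.s k21 k42 6 (.s k85 k255 14 (.s k149 k213 7 (.s k192 k106 14 (.d
  k128 k191 k64 6 7)))))] (.c k82 (.q k94 [(.s k252 k173 12 (.s k254 k250 1 (.d k255 k253 k85 0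
  14))), (.s k3 k1 0 (.s k42 k21 6 (.s k22 k62 5 (.s k41 k60 6 (.d k43 k40 k23 0 5)))))] .n) (.c k94
  (.l (.s k82 k162 11 (.s k3 k1 0 (.s k255 k85 14 (.s k240 k161 12 (.d k250 k254 k245 1 2))))))
  .n))) (.c k246 (.l (.s k86 k254 13 (.s k3 k1 0 (.s k85 k255 14 (.s k252 k169 14 (.d k84 k87 k168 0
  13)))))) .n))) .n))) (.c k242 (.q k14 [(.s k12 k13 0 (.s k46 k29 4 (.s k30 k62 3 (.s k45 k60 4 (.d
  k47 k44 k31 0 3))))), (.s k21 k42 6 (.s k85 k255 14 (.s k149 k213 7 (.s k128 k191 6 (.d k192 k64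
  k106 7 14)))))] .n) .n)))

def t10_167 : T TT 256 :=
  (.q k63 [(.s k42 k21 6 (.s k85 k255 14 (.s k106 k234 7 (.s k192 k149 14 (.d k64 k127 k128 6
  7))))), (.s k255 k85 14 (.s k31 k47 3 (.s k95 k175 11 (.s k159 k223 7 (.s k111 k207 11 (.d k127
  k79 k191 3 7)))))), (.s k42 k21 6 (.s k47 k31 3 (.s k32 k37 2 (.s k101 k239 10 (.s k106 k234 7 (.s
  k224 k165 10 (.d k96 k111 k160 2 7)))))))] (.c k31 (.l (.s k21 k42 6 (.s k85 k255 14 (.s k149 k213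
  7 (.s k192 k106 14 (.d k128 k191 k64 6 7)))))) .n))

def t10_168 : T TT 256 :=
  (.q k63 [(.s k42 k21 6 (.s k85 k255 14 (.s k106 k234 7 (.s k192 k149 14 (.d k64 k127 k128 6
  7))))), (.s k255 k85 14 (.s k31 k47 3 (.s k95 k175 11 (.s k159 k223 7 (.s k111 k207 11 (.d k127
  k79 k191 3 7)))))), (.s k42 k21 6 (.s k47 k31 3 (.s k32 k37 2 (.s k101 k239 10 (.s k106 k234 7 (.s
  k224 k165 10 (.d k96 k111 k160 2 7)))))))] (.c k31 (.l (.s k21 k42 6 (.s k85 k255 14 (.s k149 k213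
  7 (.s k192 k106 14 (.d k128 k191 k64 6 7)))))) .n))

def t10_169 : T TT 256 :=
  (.q k63 [(.s k21 k42 6 (.s k85 k255 14 (.s k149 k213 7 (.s k128 k191 6 (.d k192 k64 k106 7
  14))))), (.s k255 k85 14 (.s k31 k47 3 (.s k95 k175 11 (.s k159 k223 7 (.s k111 k207 11 (.d k127
  k79 k191 3 7)))))), (.s k42 k21 6 (.s k47 k31 3 (.s k32 k37 2 (.s k101 k239 10 (.s k106 k234 7 (.s
  k224 k165 10 (.d k96 k111 k160 2 7)))))))] (.c k11 (.q k248 [(.s k21 k42 6 (.s k85 k255 14 (.s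
  k149 k213 7 (.s k128 k191 6 (.d k192 k64 k106 7 14))))), (.s k255 k85 14 (.s k31 k47 3 (.s k95
  k175 11 (.s k159 k223 7 (.s k111 k207 11 (.d k127 k79 k191 3 7)))))), (.s k42 k21 6 (.s k47 k31 3
  (.s k32 k37 2 (.s k101 k239 10 (.s k106 k234 7 (.s k224 k165 10 (.d k96 k111 k160 2 7)))))))] (.c
  k8 (.q k9 [(.s k42 k21 6 (.s k85 k255 14 (.s k106 k234 7 (.s k192 k149 14 (.d k64 k127 k128 6
  7))))), (.s k255 k85 14 (.s k31 k47 3 (.s k95 k175 11 (.s k159 k223 7 (.s k111 k207 11 (.d k127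
  k79 k191 3 7)))))), (.s k42 k21 6 (.s k47 k31 3 (.s k32 k37 2 (.s k101 k239 10 (.s k106 k234 7 (.s
  k224 k165 10 (.d k96 k111 k160 2 7)))))))] (.c k31 (.l (.s k21 k42 6 (.s k85 k255 14 (.s k149 k213
  7 (.s k192 k106 14 (.d k128 k191 k64 6 7)))))) .n)) (.c k9 (.q k8 [(.s k12 k4 1 (.s k42 k21 6 (.s
  k46 k29 4 (.s k38 k34 1 (.d k25 k59 k51 4 6))))), (.s k21 k42 6 (.s k85 k255 14 (.s k149 k213 7
  (.s k192 k106 14 (.d k128 k191 k64 6 7))))), (.s k12 k4 1 (.s k85 k255 14 (.s k89 k251 12 (.s k243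
  k166 14 (.d k81 k93 k162 1 12)))))] (.c k89 (.q k249 [(.s k12 k4 1 (.s k42 k21 6 (.s k25 k59 4 (.s
  k38 k51 6 (.d k46 k34 k29 1 4))))), (.s k12 k4 1 (.s k255 k85 14 (.s k88 k168 11 (.s k240 k164 13
  (.d k250 k251 k245 0 2))))), (.s k21 k42 6 (.s k85 k255 14 (.s k149 k213 7 (.s k192 k106 14 (.d
  k128 k191 k64 6 7)))))] (.c k88 (.q k91 [(.s k243 k167 13 (.s k251 k250 0 (.d k255 k247 k85 1
  14))), (.s k12 k4 1 (.s k42 k21 6 (.s k25 k59 4 (.s k38 k51 6 (.d k46 k34 k29 1 4)))))] .n) (.c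
  k91 (.l (.s k88 k168 11 (.s k12 k4 1 (.s k255 k85 14 (.s k240 k164 13 (.d k250 k251 k245 0 2))))))
  .n))) (.c k249 (.l (.s k89 k251 12 (.s k12 k4 1 (.s k85 k255 14 (.s k243 k166 14 (.d k81 k93 k162
  1 12)))))) .n))) .n))) (.c k248 (.q k11 [(.s k3 k7 1 (.s k43 k23 5 (.s k27 k59 3 (.s k39 k51 5 (.d
  k47 k35 k31 1 3))))), (.s k21 k42 6 (.s k85 k255 14 (.s k149 k213 7 (.s k128 k191 6 (.d k192 k64
  k106 7 14)))))] .n) .n)))

def t10_171 : T TT 256 :=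
  (.q k63 [(.s k42 k21 6 (.s k255 k85 14 (.s k106 k234 7 (.s k149 k192 14 (.d k191 k128 k127 6
  7))))), (.s k42 k21 6 (.s k47 k31 3 (.s k32 k37 2 (.s k101 k239 10 (.s k106 k234 7 (.s k224 k165
  10 (.d k96 k111 k160 2 7))))))), (.s k255 k85 14 (.s k31 k47 3 (.s k95 k175 11 (.s k159 k223 7 (.s
  k111 k207 11 (.d k127 k79 k191 3 7))))))] .n)

def t10_172 : T TT 256 :=
  (.q k63 [(.s k42 k21 6 (.s k85 k255 14 (.s k106 k234 7 (.s k192 k149 14 (.d k64 k127 k128 6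
  7))))), (.s k255 k85 14 (.s k31 k47 3 (.s k95 k175 11 (.s k159 k223 7 (.s k111 k207 11 (.d k127
  k79 k191 3 7)))))), (.s k42 k21 6 (.s k47 k31 3 (.s k32 k37 2 (.s k101 k239 10 (.s k106 k234 7 (.s
  k224 k165 10 (.d k96 k111 k160 2 7)))))))] (.c k31 (.l (.s k21 k42 6 (.s k85 k255 14 (.s k149 k213
  7 (.s k192 k106 14 (.d k128 k191 k64 6 7)))))) .n))

def t10_173 : T TT 256 :=
  (.q k63 [(.s k42 k21 6 (.s k85 k255 14 (.s k106 k234 7 (.s k192 k149 14 (.d k64 k127 k128 6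
  7))))), (.s k255 k85 14 (.s k31 k47 3 (.s k95 k175 11 (.s k159 k223 7 (.s k111 k207 11 (.d k127
  k79 k191 3 7)))))), (.s k42 k21 6 (.s k47 k31 3 (.s k32 k37 2 (.s k101 k239 10 (.s k106 k234 7 (.s
  k224 k165 10 (.d k96 k111 k160 2 7)))))))] (.c k31 (.l (.s k21 k42 6 (.s k85 k255 14 (.s k149 k213
  7 (.s k192 k106 14 (.d k128 k191 k64 6 7)))))) .n))

def t10_174 : T TT 256 :=
  (.q k63 [(.s k42 k21 6 (.s k255 k85 14 (.s k106 k234 7 (.s k149 k192 14 (.d k191 k128 k127 6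
  7))))), (.s k42 k21 6 (.s k47 k31 3 (.s k32 k37 2 (.s k101 k239 10 (.s k106 k234 7 (.s k224 k165
  10 (.d k96 k111 k160 2 7))))))), (.s k255 k85 14 (.s k31 k47 3 (.s k95 k175 11 (.s k159 k223 7 (.s
  k111 k207 11 (.d k127 k79 k191 3 7))))))] .n)

def t10_175 : T TT 256 :=
  (.q k63 [(.s k42 k21 6 (.s k85 k255 14 (.s k106 k234 7 (.s k192 k149 14 (.d k64 k127 k128 6
  7))))), (.s k42 k21 6 (.s k47 k31 3 (.s k32 k37 2 (.s k101 k239 10 (.s k106 k234 7 (.s k224 k165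
  10 (.d k96 k111 k160 2 7))))))), (.s k21 k42 6 (.s k85 k255 14 (.s k149 k213 7 (.s k192 k106 14
  (.d k128 k191 k64 6 7)))))] (.c k21 (.q k91 [(.s k31 k47 3 (.s k167 k243 13 (.s k151 k211 9 (.s
  k195 k107 13 (.d k135 k183 k75 3 9))))), (.s k85 k255 14 (.s k243 k167 13 (.s k81 k162 12 (.s k89
  k93 1 (.s k8 k251 12 (.d k12 k4 k166 1 14)))))), (.s k255 k85 14 (.s k31 k47 3 (.s k151 k211 9 (.s
  k191 k127 7 (.s k171 k131 5 (.s k3 k87 13 (.d k11 k7 k251 1 11)))))))] .n) (.c k42 (.q k48 [(.s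
  k16 k32 3 (.s k85 k255 14 (.s k154 k223 10 (.s k138 k186 3 (.d k207 k69 k101 10 14))))), (.s k255
  k85 14 (.s k58 k53 2 (.s k186 k117 10 (.s k122 k250 7 (.s k181 k240 10 (.d k191 k176 k127 2
  7)))))), (.s k32 k16 3 (.s k26 k37 6 (.s k101 k239 10 (.s k53 k58 2 (.s k149 k197 11 (.s k192 k106
  14 (.d k128 k191 k64 6 7)))))))] (.c k26 (.l (.s k58 k53 2 (.s k16 k32 3 (.s k85 k255 14 (.s k154
  k223 10 (.s k207 k101 14 (.d k138 k186 k69 3 10))))))) (.c k58 (.l (.s k26 k37 6 (.s k32 k16 3 (.s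
  k85 k255 14 (.s k101 k239 10 (.s k207 k154 14 (.d k69 k117 k138 3 10))))))) (.c k101 (.l (.s k16
  k32 3 (.s k85 k255 14 (.s k154 k223 10 (.s k58 k53 2 (.s k106 k202 11 (.s k64 k127 6 (.d k192 k149
  k128 14 7)))))))) .n)))) (.c k106 (.q k138 [(.s k207 k69 10 (.s k85 k255 14 (.s k154 k186 3 (.s
  k16 k223 10 (.d k48 k32 k101 3 14))))), (.s k207 k69 10 (.s k255 k85 14 (.s k143 k79 7 (.s k128
  k133 2 (.d k191 k127 k149 7 6))))), (.s k21 k42 6 (.s k85 k255 14 (.s k31 k47 3 (.s k154 k186 3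
  (.d k16 k26 k223 2 10))))), (.s k21 k42 6 (.s k207 k69 10 (.s k31 k47 3 (.s k26 k16 2 (.s k154
  k186 3 (.d k48 k37 k101 6 14))))))] (.c k74 (.q k122 [(.s k186 k154 3 (.s k58 k250 7 (.s k48 k53 2
  (.d k255 k117 k85 10 14)))), (.s k21 k42 6 (.s k207 k69 10 (.s k85 k255 14 (.s k149 k213 7 (.s
  k128 k191 6 (.d k143 k79 k133 7 2)))))), (.s k255 k85 14 (.s k127 k191 7 (.s k117 k112 2 (.d k186
  k154 k48 3 10)))), (.s k21 k42 6 (.s k207 k69 10 (.s k31 k47 3 (.s k26 k16 2 (.s k154 k186 3 (.d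
  k48 k37 k101 6 14))))))] .n) (.c k122 (.q k74 [(.s k69 k207 10 (.s k192 k133 10 (.d k64 k79 k128 2
  7))), (.s k21 k42 6 (.s k85 k255 14 (.s k31 k47 3 (.s k154 k186 3 (.d k16 k26 k223 2 10)))))] .n)
  .n))) (.c k149 (.q k48 [(.s k16 k32 3 (.s k21 k42 6 (.d k26 k31 k37 2 6))), (.s k16 k32 3 (.s k85
  k255 14 (.s k154 k223 10 (.s k207 k101 14 (.d k138 k186 k69 3 10))))), (.s k42 k21 6 (.s k106 k234
  7 (.s k58 k53 2 (.s k154 k202 11 (.s k138 k186 3 (.d k207 k101 k69 14 10))))))] (.c k31 (.q k208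
  [(.s k16 k32 3 (.s k85 k255 14 (.s k154 k223 10 (.s k138 k186 3 (.d k207 k69 k101 10 14))))), (.s
  k255 k85 14 (.s k53 k58 2 (.s k117 k186 10 (.s k181 k245 7 (.s k122 k240 10 (.d k127 k112 k191 2
  7)))))), (.s k32 k16 3 (.s k101 k239 10 (.s k58 k53 2 (.s k154 k207 14 (.s k106 k202 11 (.d k42
  k21 k234 6 7))))))] (.c k255 (.l (.s k42 k21 6 (.s k106 k234 7 (.s k58 k53 2 (.s k154 k202 11 (.s
  k101 k207 14 (.d k32 k16 k239 3 10))))))) .n)) (.c k208 (.l (.s k31 k47 3 (.s k16 k32 3 (.d k21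
  k42 k26 6 2)))) .n))) (.c k234 (.l (.s k21 k42 6 (.s k85 k255 14 (.s k149 k213 7 (.s k192 k106 14
  (.d k128 k191 k64 6 7)))))) .n))))))

def t10_176 : T TT 256 :=
  (.q k63 [(.s k42 k21 6 (.s k85 k255 14 (.s k106 k234 7 (.s k192 k149 14 (.d k64 k127 k128 6
  7))))), (.s k255 k85 14 (.s k31 k47 3 (.s k95 k175 11 (.s k159 k223 7 (.s k111 k207 11 (.d k127
  k79 k191 3 7)))))), (.s k42 k21 6 (.s k47 k31 3 (.s k32 k37 2 (.s k101 k239 10 (.s k106 k234 7 (.s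
  k224 k165 10 (.d k96 k111 k160 2 7)))))))] (.c k31 (.l (.s k21 k42 6 (.s k85 k255 14 (.s k149 k213
  7 (.s k192 k106 14 (.d k128 k191 k64 6 7)))))) .n))

def t10_177 : T TT 256 :=
  (.q k63 [(.s k42 k21 6 (.s k85 k255 14 (.s k106 k234 7 (.s k192 k149 14 (.d k64 k127 k128 6
  7))))), (.s k255 k85 14 (.s k31 k47 3 (.s k95 k175 11 (.s k159 k223 7 (.s k111 k207 11 (.d k127
  k79 k191 3 7)))))), (.s k42 k21 6 (.s k47 k31 3 (.s k32 k37 2 (.s k101 k239 10 (.s k106 k234 7 (.s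
  k224 k165 10 (.d k96 k111 k160 2 7)))))))] (.c k31 (.l (.s k21 k42 6 (.s k85 k255 14 (.s k149 k213
  7 (.s k192 k106 14 (.d k128 k191 k64 6 7)))))) .n))

def t10_178 : T TT 256 :=
  (.q k63 [(.s k42 k21 6 (.s k85 k255 14 (.s k106 k234 7 (.s k192 k149 14 (.d k64 k127 k128 6
  7))))), (.s k255 k85 14 (.s k31 k47 3 (.s k95 k175 11 (.s k159 k223 7 (.s k111 k207 11 (.d k127
  k79 k191 3 7)))))), (.s k42 k21 6 (.s k47 k31 3 (.s k32 k37 2 (.s k101 k239 10 (.s k106 k234 7 (.s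
  k224 k165 10 (.d k96 k111 k160 2 7)))))))] (.c k31 (.l (.s k21 k42 6 (.s k85 k255 14 (.s k149 k213
  7 (.s k192 k106 14 (.d k128 k191 k64 6 7)))))) .n))

def t10_179 : T TT 256 :=
  (.q k63 [(.s k42 k21 6 (.s k85 k255 14 (.s k106 k234 7 (.s k192 k149 14 (.d k64 k127 k128 6
  7))))), (.s k255 k85 14 (.s k31 k47 3 (.s k95 k175 11 (.s k159 k223 7 (.s k111 k207 11 (.d k127
  k79 k191 3 7)))))), (.s k42 k21 6 (.s k47 k31 3 (.s k32 k37 2 (.s k101 k239 10 (.s k106 k234 7 (.s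
  k224 k165 10 (.d k96 k111 k160 2 7)))))))] (.c k31 (.l (.s k21 k42 6 (.s k85 k255 14 (.s k149 k213
  7 (.s k192 k106 14 (.d k128 k191 k64 6 7)))))) .n))

def t10_180 : T TT 256 :=
  (.q k63 [(.s k42 k21 6 (.s k85 k255 14 (.s k106 k234 7 (.s k192 k149 14 (.d k64 k127 k128 6
  7))))), (.s k255 k85 14 (.s k31 k47 3 (.s k95 k175 11 (.s k159 k223 7 (.s k111 k207 11 (.d k127
  k79 k191 3 7)))))), (.s k42 k21 6 (.s k47 k31 3 (.s k32 k37 2 (.s k101 k239 10 (.s k106 k234 7 (.s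
  k224 k165 10 (.d k96 k111 k160 2 7)))))))] (.c k31 (.l (.s k21 k42 6 (.s k85 k255 14 (.s k149 k213
  7 (.s k192 k106 14 (.d k128 k191 k64 6 7)))))) .n))

def t10_181 : T TT 256 :=
  (.q k63 [(.s k42 k21 6 (.s k255 k85 14 (.s k106 k234 7 (.s k149 k192 14 (.d k191 k128 k127 6
  7))))), (.s k42 k21 6 (.s k47 k31 3 (.s k32 k37 2 (.s k101 k239 10 (.s k106 k234 7 (.s k224 k165
  10 (.d k96 k111 k160 2 7))))))), (.s k255 k85 14 (.s k31 k47 3 (.s k95 k175 11 (.s k159 k223 7 (.s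
  k111 k207 11 (.d k127 k79 k191 3 7))))))] .n)

def t10_182 : T TT 256 :=
  (.q k63 [(.s k42 k21 6 (.s k85 k255 14 (.s k106 k234 7 (.s k192 k149 14 (.d k64 k127 k128 6
  7))))), (.s k255 k85 14 (.s k31 k47 3 (.s k95 k175 11 (.s k159 k223 7 (.s k111 k207 11 (.d k127
  k79 k191 3 7)))))), (.s k42 k21 6 (.s k47 k31 3 (.s k32 k37 2 (.s k101 k239 10 (.s k106 k234 7 (.s
  k224 k165 10 (.d k96 k111 k160 2 7)))))))] (.c k31 (.l (.s k21 k42 6 (.s k85 k255 14 (.s k149 k213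
  7 (.s k192 k106 14 (.d k128 k191 k64 6 7)))))) .n))

def t10_183 : T TT 256 :=
  (.q k63 [(.s k42 k21 6 (.s k255 k85 14 (.s k106 k234 7 (.s k149 k192 14 (.d k191 k128 k127 6
  7))))), (.s k42 k21 6 (.s k47 k31 3 (.s k32 k37 2 (.s k101 k239 10 (.s k106 k234 7 (.s k224 k165
  10 (.d k96 k111 k160 2 7))))))), (.s k255 k85 14 (.s k31 k47 3 (.s k95 k175 11 (.s k159 k223 7 (.s
  k111 k207 11 (.d k127 k79 k191 3 7))))))] .n)

def t10_184 : T TT 256 :=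
  (.q k63 [(.s k42 k21 6 (.s k85 k255 14 (.s k106 k234 7 (.s k192 k149 14 (.d k64 k127 k128 6
  7))))), (.s k255 k85 14 (.s k31 k47 3 (.s k95 k175 11 (.s k159 k223 7 (.s k111 k207 11 (.d k127
  k79 k191 3 7)))))), (.s k42 k21 6 (.s k47 k31 3 (.s k32 k37 2 (.s k101 k239 10 (.s k106 k234 7 (.s
  k224 k165 10 (.d k96 k111 k160 2 7)))))))] (.c k31 (.l (.s k21 k42 6 (.s k85 k255 14 (.s k149 k213
  7 (.s k192 k106 14 (.d k128 k191 k64 6 7)))))) .n))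

def t10_185 : T TT 256 :=
  (.q k63 [(.s k42 k21 6 (.s k85 k255 14 (.s k106 k234 7 (.s k192 k149 14 (.d k64 k127 k128 6
  7))))), (.s k255 k85 14 (.s k31 k47 3 (.s k95 k175 11 (.s k159 k223 7 (.s k111 k207 11 (.d k127
  k79 k191 3 7)))))), (.s k42 k21 6 (.s k47 k31 3 (.s k32 k37 2 (.s k101 k239 10 (.s k106 k234 7 (.s
  k224 k165 10 (.d k96 k111 k160 2 7)))))))] (.c k31 (.l (.s k21 k42 6 (.s k85 k255 14 (.s k149 k213
  7 (.s k192 k106 14 (.d k128 k191 k64 6 7)))))) .n))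

def t10_186 : T TT 256 :=
  (.q k63 [(.s k42 k21 6 (.s k255 k85 14 (.s k106 k234 7 (.s k149 k192 14 (.d k191 k128 k127 6
  7))))), (.s k42 k21 6 (.s k47 k31 3 (.s k32 k37 2 (.s k101 k239 10 (.s k106 k234 7 (.s k224 k165
  10 (.d k96 k111 k160 2 7))))))), (.s k255 k85 14 (.s k31 k47 3 (.s k95 k175 11 (.s k159 k223 7 (.s
  k111 k207 11 (.d k127 k79 k191 3 7))))))] .n)

def t10_187 : T TT 256 :=
  (.q k63 [(.s k42 k21 6 (.s k255 k85 14 (.s k106 k234 7 (.s k149 k192 14 (.d k191 k128 k127 6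
  7))))), (.s k42 k21 6 (.s k47 k31 3 (.s k32 k37 2 (.s k101 k239 10 (.s k106 k234 7 (.s k224 k165
  10 (.d k96 k111 k160 2 7))))))), (.s k255 k85 14 (.s k31 k47 3 (.s k95 k175 11 (.s k159 k223 7 (.s
  k111 k207 11 (.d k127 k79 k191 3 7))))))] .n)

def t10_188 : T TT 256 :=
  (.q k63 [(.s k42 k21 6 (.s k85 k255 14 (.s k106 k234 7 (.s k192 k149 14 (.d k64 k127 k128 6
  7))))), (.s k255 k85 14 (.s k31 k47 3 (.s k95 k175 11 (.s k159 k223 7 (.s k111 k207 11 (.d k127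
  k79 k191 3 7)))))), (.s k42 k21 6 (.s k47 k31 3 (.s k32 k37 2 (.s k101 k239 10 (.s k106 k234 7 (.s
  k224 k165 10 (.d k96 k111 k160 2 7)))))))] (.c k31 (.l (.s k21 k42 6 (.s k85 k255 14 (.s k149 k213
  7 (.s k192 k106 14 (.d k128 k191 k64 6 7)))))) .n))

def t10_189 : T TT 256 :=
  (.q k63 [(.s k42 k21 6 (.s k255 k85 14 (.s k106 k234 7 (.s k149 k192 14 (.d k191 k128 k127 6
  7))))), (.s k42 k21 6 (.s k47 k31 3 (.s k32 k37 2 (.s k101 k239 10 (.s k106 k234 7 (.s k224 k165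
  10 (.d k96 k111 k160 2 7))))))), (.s k255 k85 14 (.s k31 k47 3 (.s k95 k175 11 (.s k159 k223 7 (.s
  k111 k207 11 (.d k127 k79 k191 3 7))))))] .n)

def t10_190 : T TT 256 :=
  (.q k63 [(.s k42 k21 6 (.s k255 k85 14 (.s k106 k234 7 (.s k149 k192 14 (.d k191 k128 k127 6
  7))))), (.s k42 k21 6 (.s k47 k31 3 (.s k32 k37 2 (.s k101 k239 10 (.s k106 k234 7 (.s k224 k165
  10 (.d k96 k111 k160 2 7))))))), (.s k255 k85 14 (.s k31 k47 3 (.s k95 k175 11 (.s k159 k223 7 (.s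
  k111 k207 11 (.d k127 k79 k191 3 7))))))] .n)

def t10_191 : T TT 256 :=
  (.q k48 [(.s k32 k16 3 (.s k255 k85 14 (.s k101 k239 10 (.s k154 k207 14 (.d k186 k138 k117 3
  10))))), (.s k32 k16 3 (.s k37 k26 6 (.s k101 k239 10 (.s k165 k229 7 (.s k160 k175 2 (.s k224 k96
  7 (.d k47 k42 k106 2 10))))))), (.s k255 k85 14 (.s k37 k26 6 (.s k186 k117 10 (.s k154 k138 3 (.s
  k101 k207 14 (.s k165 k229 7 (.d k175 k95 k160 11 2)))))))] (.c k101 (.q k63 [(.s k16 k32 3 (.s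
  k21 k42 6 (.d k26 k37 k31 6 2))), (.s k42 k21 6 (.s k85 k255 14 (.s k106 k234 7 (.s k64 k127 6 (.d
  k192 k128 k149 7 14))))), (.s k16 k32 3 (.s k85 k255 14 (.s k154 k223 10 (.s k58 k53 2 (.s k106
  k202 11 (.s k64 k127 6 (.d k192 k149 k128 14 7)))))))] (.c k79 (.q k112 [(.s k16 k32 3 (.s k21 k42
  6 (.d k26 k37 k31 6 2))), (.s k255 k85 14 (.s k117 k186 10 (.s k122 k127 2 (.d k240 k176 k181 7
  10))))] .n) (.c k112 (.q k79 [(.s k16 k32 3 (.s k21 k42 6 (.d k26 k37 k31 6 2))), (.s k255 k85 14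
  (.s k95 k175 11 (.s k111 k127 3 (.d k207 k143 k159 7 11))))] .n) .n))) (.c k154 (.q k63 [(.s k26
  k37 6 (.s k16 k32 3 (.d k21 k42 k31 6 2))), (.s k42 k21 6 (.s k85 k255 14 (.s k106 k234 7 (.s k64
  k127 6 (.d k192 k128 k149 7 14))))), (.s k32 k16 3 (.s k26 k37 6 (.s k47 k31 3 (.s k239 k101 10
  (.s k175 k111 7 (.d k255 k85 k95 14 11))))))] (.c k26 (.q k218 [(.s k16 k32 3 (.s k42 k21 6 (.s
  k85 k255 14 (.s k106 k234 7 (.s k64 k127 6 (.d k192 k128 k149 7 14)))))), (.s k32 k16 3 (.s k31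
  k47 3 (.s k239 k101 10 (.s k255 k85 14 (.s k223 k207 3 (.d k95 k159 k175 7 11))))))] (.c k16 (.l
  (.s k42 k21 6 (.s k31 k47 3 (.s k85 k255 14 (.s k106 k234 7 (.s k192 k149 14 (.d k64 k127 k128 6
  7))))))) (.c k21 (.l (.s k32 k16 3 (.s k31 k47 3 (.s k239 k101 10 (.s k255 k85 14 (.s k223 k207 3
  (.d k95 k159 k175 7 11))))))) (.c k32 (.l (.s k42 k21 6 (.s k85 k255 14 (.s k106 k234 7 (.s k192
  k149 14 (.d k64 k127 k128 6 7)))))) (.c k42 (.l (.s k58 k53 2 (.s k32 k16 3 (.s k31 k47 3 (.s k239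
  k101 10 (.s k255 k85 14 (.s k223 k207 3 (.d k95 k159 k175 7 11)))))))) (.c k58 (.l (.s k42 k21 6
  (.s k85 k255 14 (.s k106 k234 7 (.s k192 k149 14 (.d k64 k127 k128 6 7)))))) (.c k85 (.l (.s k42
  k21 6 (.s k106 k234 7 (.s k53 k58 2 (.s k149 k192 14 (.s k101 k197 11 (.d k32 k16 k239 3 10)))))))
  (.c k255 (.l (.s k32 k16 3 (.s k42 k21 6 (.s k31 k47 3 (.s k101 k239 10 (.s k106 k234 7 (.s k53
  k58 2 (.d k149 k192 k197 14 11)))))))) .n)))))))) (.c k218 (.l (.s k26 k37 6 (.s k16 k32 3 (.d k21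
  k42 k31 6 2)))) .n))) .n)))

def t10_192 : T TT 256 :=
  (.q k48 [(.s k16 k32 3 (.s k85 k255 14 (.s k154 k223 10 (.s k138 k186 3 (.d k207 k69 k101 10
  14))))), (.s k32 k16 3 (.s k37 k26 6 (.s k101 k239 10 (.s k165 k229 7 (.s k160 k175 2 (.s k224 k96
  7 (.d k47 k42 k106 2 10))))))), (.s k255 k85 14 (.s k37 k26 6 (.s k186 k117 10 (.s k154 k138 3 (.s
  k101 k207 14 (.s k165 k229 7 (.d k175 k95 k160 11 2)))))))] (.c k101 (.q k63 [(.s k16 k32 3 (.s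
  k21 k42 6 (.d k26 k37 k31 6 2))), (.s k255 k85 14 (.s k31 k47 3 (.s k95 k175 11 (.s k159 k223 7
  (.s k111 k207 11 (.d k127 k79 k191 3 7)))))), (.s k42 k21 6 (.s k255 k85 14 (.s k106 k234 7 (.s
  k58 k53 2 (.s k154 k202 11 (.d k186 k138 k117 3 10))))))] (.c k79 (.q k112 [(.s k16 k32 3 (.s k21
  k42 6 (.d k26 k37 k31 6 2))), (.s k255 k85 14 (.s k117 k186 10 (.d k127 k122 k191 2 7)))] .n) (.c
  k112 (.q k79 [(.s k16 k32 3 (.s k21 k42 6 (.d k26 k37 k31 6 2))), (.s k255 k85 14 (.s k95 k175 11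
  (.d k127 k111 k191 3 7)))] .n) .n))) (.c k154 (.f k26 k37 6 (.q k63 [(.s k16 k32 3 (.d k21 k42 k31
  6 2)), (.s k32 k16 3 (.s k47 k31 3 (.s k239 k101 10 (.s k175 k111 7 (.d k255 k85 k95 14 11))))),
  (.s k32 k16 3 (.s k21 k42 6 (.s k85 k255 14 (.s k101 k239 10 (.s k53 k58 2 (.d k149 k213 k197 7
  11))))))] (.c k16 (.l (.s k42 k21 6 (.s k47 k31 3 (.s k106 k234 7 (.s k165 k224 10 (.s k175 k160 2
  (.d k255 k95 k85 11 14))))))) (.c k32 (.l (.s k42 k21 6 (.s k255 k85 14 (.s k47 k31 3 (.s k106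
  k234 7 (.s k165 k224 10 (.d k175 k160 k95 2 11))))))) .n)))) .n)))

def t10_193 : T TT 256 :=
  (.q k63 [(.s k42 k21 6 (.s k85 k255 14 (.s k106 k234 7 (.s k192 k149 14 (.d k64 k127 k128 6
  7))))), (.s k255 k85 14 (.s k31 k47 3 (.s k95 k175 11 (.s k159 k223 7 (.s k111 k207 11 (.d k127
  k79 k191 3 7)))))), (.s k42 k21 6 (.s k47 k31 3 (.s k32 k37 2 (.s k101 k239 10 (.s k106 k234 7 (.s
  k224 k165 10 (.d k96 k111 k160 2 7)))))))] (.c k31 (.l (.s k21 k42 6 (.s k85 k255 14 (.s k149 k213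
  7 (.s k192 k106 14 (.d k128 k191 k64 6 7)))))) .n))

def t10_194 : T TT 256 :=
  (.q k63 [(.s k21 k42 6 (.s k85 k255 14 (.s k149 k213 7 (.s k128 k191 6 (.d k192 k64 k106 7
  14))))), (.s k255 k85 14 (.s k31 k47 3 (.s k95 k175 11 (.s k159 k223 7 (.s k111 k207 11 (.d k127
  k79 k191 3 7)))))), (.s k42 k21 6 (.s k47 k31 3 (.s k32 k37 2 (.s k101 k239 10 (.s k106 k234 7 (.s
  k224 k165 10 (.d k96 k111 k160 2 7)))))))] .n)

def t10_195 : T TT 256 :=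
  (.q k63 [(.s k42 k21 6 (.s k85 k255 14 (.s k106 k234 7 (.s k192 k149 14 (.d k64 k127 k128 6
  7))))), (.s k255 k85 14 (.s k31 k47 3 (.s k95 k175 11 (.s k159 k223 7 (.s k111 k207 11 (.d k127
  k79 k191 3 7)))))), (.s k42 k21 6 (.s k47 k31 3 (.s k32 k37 2 (.s k101 k239 10 (.s k106 k234 7 (.s
  k224 k165 10 (.d k96 k111 k160 2 7)))))))] (.c k31 (.l (.s k21 k42 6 (.s k85 k255 14 (.s k149 k213
  7 (.s k192 k106 14 (.d k128 k191 k64 6 7)))))) .n))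

def t10_196 : T TT 256 :=
  (.q k63 [(.s k42 k21 6 (.s k85 k255 14 (.s k106 k234 7 (.s k192 k149 14 (.d k64 k127 k128 6
  7))))), (.s k255 k85 14 (.s k31 k47 3 (.s k95 k175 11 (.s k159 k223 7 (.s k111 k207 11 (.d k127
  k79 k191 3 7)))))), (.s k42 k21 6 (.s k47 k31 3 (.s k32 k37 2 (.s k101 k239 10 (.s k106 k234 7 (.s
  k224 k165 10 (.d k96 k111 k160 2 7)))))))] (.c k31 (.l (.s k21 k42 6 (.s k85 k255 14 (.s k149 k213
  7 (.s k192 k106 14 (.d k128 k191 k64 6 7)))))) .n))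

def t10_197 : T TT 256 :=
  (.q k63 [(.s k42 k21 6 (.s k85 k255 14 (.s k106 k234 7 (.s k192 k149 14 (.d k64 k127 k128 6
  7))))), (.s k255 k85 14 (.s k31 k47 3 (.s k95 k175 11 (.s k159 k223 7 (.s k111 k207 11 (.d k127
  k79 k191 3 7)))))), (.s k42 k21 6 (.s k47 k31 3 (.s k32 k37 2 (.s k101 k239 10 (.s k106 k234 7 (.s
  k224 k165 10 (.d k96 k111 k160 2 7)))))))] (.c k31 (.l (.s k21 k42 6 (.s k85 k255 14 (.s k149 k213
  7 (.s k192 k106 14 (.d k128 k191 k64 6 7)))))) .n))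

def t10_198 : T TT 256 :=
  (.q k63 [(.s k42 k21 6 (.s k85 k255 14 (.s k106 k234 7 (.s k192 k149 14 (.d k64 k127 k128 6
  7))))), (.s k255 k85 14 (.s k31 k47 3 (.s k95 k175 11 (.s k159 k223 7 (.s k111 k207 11 (.d k127
  k79 k191 3 7)))))), (.s k42 k21 6 (.s k47 k31 3 (.s k32 k37 2 (.s k101 k239 10 (.s k106 k234 7 (.s
  k224 k165 10 (.d k96 k111 k160 2 7)))))))] (.c k31 (.l (.s k21 k42 6 (.s k85 k255 14 (.s k149 k213
  7 (.s k192 k106 14 (.d k128 k191 k64 6 7)))))) .n))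

def t10_199 : T TT 256 :=
  (.q k63 [(.s k42 k21 6 (.s k85 k255 14 (.s k106 k234 7 (.s k192 k149 14 (.d k64 k127 k128 6
  7))))), (.s k255 k85 14 (.s k31 k47 3 (.s k95 k175 11 (.s k159 k223 7 (.s k111 k207 11 (.d k127
  k79 k191 3 7)))))), (.s k42 k21 6 (.s k47 k31 3 (.s k32 k37 2 (.s k101 k239 10 (.s k106 k234 7 (.s
  k224 k165 10 (.d k96 k111 k160 2 7)))))))] (.c k31 (.l (.s k21 k42 6 (.s k85 k255 14 (.s k149 k213
  7 (.s k192 k106 14 (.d k128 k191 k64 6 7)))))) .n))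

def t10_200 : T TT 256 :=
  (.q k63 [(.s k21 k42 6 (.s k85 k255 14 (.s k149 k213 7 (.s k128 k191 6 (.d k192 k64 k106 7
  14))))), (.s k255 k85 14 (.s k31 k47 3 (.s k95 k175 11 (.s k159 k223 7 (.s k111 k207 11 (.d k127
  k79 k191 3 7)))))), (.s k42 k21 6 (.s k47 k31 3 (.s k32 k37 2 (.s k101 k239 10 (.s k106 k234 7 (.s
  k224 k165 10 (.d k96 k111 k160 2 7)))))))] .n)

def t10_201 : T TT 256 :=
  (.q k63 [(.s k42 k21 6 (.s k85 k255 14 (.s k106 k234 7 (.s k192 k149 14 (.d k64 k127 k128 6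
  7))))), (.s k255 k85 14 (.s k31 k47 3 (.s k95 k175 11 (.s k159 k223 7 (.s k111 k207 11 (.d k127
  k79 k191 3 7)))))), (.s k42 k21 6 (.s k47 k31 3 (.s k32 k37 2 (.s k101 k239 10 (.s k106 k234 7 (.s
  k224 k165 10 (.d k96 k111 k160 2 7)))))))] (.c k31 (.l (.s k21 k42 6 (.s k85 k255 14 (.s k149 k213
  7 (.s k192 k106 14 (.d k128 k191 k64 6 7)))))) .n))

def t10_202 : T TT 256 :=
  (.q k138 [(.s k207 k69 10 (.s k85 k255 14 (.s k154 k186 3 (.s k16 k223 10 (.d k48 k32 k101 3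
  14))))), (.s k207 k69 10 (.s k143 k79 7 (.s k128 k133 2 (.s k149 k191 6 (.s k154 k186 3 (.s k176
  k165 6 (.d k144 k159 k160 2 3))))))), (.s k207 k69 10 (.s k255 k85 14 (.s k143 k79 7 (.s k128 k133
  2 (.s k191 k149 6 (.d k175 k95 k159 11 3))))))] (.c k69 (.q k192 [(.s k128 k64 7 (.d k133 k74 k143
  10 2)), (.s k64 k128 7 (.s k85 k255 14 (.s k106 k127 6 (.s k42 k234 7 (.d k63 k21 k149 6 14)))))]
  (.c k64 (.l (.s k255 k85 14 (.s k234 k213 6 (.s k106 k42 7 (.s k149 k63 14 (.s k128 k191 6 (.d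
  k133 k143 k74 2 10))))))) (.c k128 (.l (.s k255 k85 14 (.s k133 k74 10 (.s k234 k213 6 (.s k106
  k42 7 (.s k149 k63 14 (.s k165 k181 3 (.d k175 k95 k160 11 2)))))))) .n))) (.c k101 (.q k79 [(.d
  k207 k143 k69 7 10)] (.c k69 (.l (.s k143 k207 7 (.s k128 k133 2 (.s k191 k149 6 (.s k175 k159 3
  (.d k255 k95 k85 11 14)))))) (.c k143 (.l (.s k69 k207 10 (.s k85 k255 14 (.s k64 k74 2 (.s k192
  k128 7 (.s k106 k127 6 (.s k42 k234 7 (.d k63 k21 k149 6 14)))))))) (.c k207 (.f k154 k186 3 (.q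
  k192 [(.s k64 k128 7 (.d k74 k69 k133 2 10)), (.s k64 k128 7 (.s k85 k255 14 (.s k106 k127 6 (.s
  k42 k234 7 (.d k63 k21 k149 6 14)))))] (.c k64 (.l (.s k255 k85 14 (.s k133 k74 10 (.s k143 k128 2
  (.s k165 k176 6 (.d k175 k160 k95 2 11)))))) (.c k128 (.l (.s k85 k255 14 (.s k74 k133 10 (.s k64
  k69 2 (.s k106 k127 6 (.s k42 k234 7 (.d k63 k21 k149 6 14))))))) .n)))) .n)))) (.c k207 (.q k192
  [(.s k128 k64 7 (.d k133 k143 k74 2 10)), (.s k64 k128 7 (.s k85 k255 14 (.s k106 k127 6 (.s k42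
  k234 7 (.d k63 k21 k149 6 14))))), (.s k255 k85 14 (.s k133 k74 10 (.s k234 k213 6 (.s k106 k42 7
  (.s k149 k63 14 (.s k165 k181 3 (.d k175 k95 k160 11 2)))))))] .n) .n))))

def t10_203 : T TT 256 :=
  (.q k207 [(.s k138 k69 10 (.s k85 k255 14 (.s k154 k186 3 (.s k16 k223 10 (.d k48 k32 k101 3
  14))))), (.s k255 k85 14 (.s k79 k143 7 (.s k95 k175 11 (.s k111 k127 3 (.s k159 k63 11 (.d k223
  k239 k31 3 7)))))), (.s k138 k69 10 (.s k143 k79 7 (.s k128 k133 2 (.s k149 k191 6 (.s k154 k186 3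
  (.s k176 k165 6 (.d k144 k159 k160 2 3)))))))] .n)

def t10_204 : T TT 256 :=
  (.q k207 [(.s k138 k69 10 (.s k85 k255 14 (.s k154 k186 3 (.s k16 k223 10 (.d k48 k32 k101 3
  14))))), (.s k255 k85 14 (.s k79 k143 7 (.s k95 k175 11 (.s k111 k127 3 (.s k159 k63 11 (.d k223
  k239 k31 3 7)))))), (.s k138 k69 10 (.s k143 k79 7 (.s k128 k133 2 (.s k149 k191 6 (.s k154 k186 3
  (.s k176 k165 6 (.d k144 k159 k160 2 3)))))))] .n)

def t10_205 : T TT 256 :=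
  (.q k207 [(.s k69 k138 10 (.s k85 k255 14 (.s k101 k117 3 (.s k32 k239 10 (.d k48 k16 k154 3
  14))))), (.s k255 k85 14 (.s k79 k143 7 (.s k95 k175 11 (.s k111 k127 3 (.s k159 k63 11 (.d k223
  k239 k31 3 7)))))), (.s k138 k69 10 (.s k143 k79 7 (.s k128 k133 2 (.s k149 k191 6 (.s k154 k186 3
  (.s k176 k165 6 (.d k144 k159 k160 2 3)))))))] .n)

def t10_206 : T TT 256 :=
  (.q k207 [(.s k138 k69 10 (.s k85 k255 14 (.s k154 k186 3 (.s k16 k223 10 (.d k48 k32 k101 3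
  14))))), (.s k255 k85 14 (.s k79 k143 7 (.s k95 k175 11 (.s k111 k127 3 (.s k159 k63 11 (.d k223
  k239 k31 3 7)))))), (.s k138 k69 10 (.s k143 k79 7 (.s k128 k133 2 (.s k149 k191 6 (.s k154 k186 3
  (.s k176 k165 6 (.d k144 k159 k160 2 3)))))))] .n)

def t10_207 : T TT 256 :=
  (.q k192 [(.s k64 k128 7 (.s k85 k255 14 (.s k106 k127 6 (.s k42 k234 7 (.d k63 k21 k149 6
  14))))), (.s k128 k64 7 (.s k133 k74 10 (.s k149 k191 6 (.s k165 k181 3 (.s k160 k175 2 (.s k176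
  k144 3 (.d k143 k138 k154 2 6))))))), (.s k255 k85 14 (.s k133 k74 10 (.s k234 k213 6 (.s k106 k42
  7 (.s k149 k63 14 (.s k165 k181 3 (.d k175 k95 k160 11 2)))))))] (.c k106 (.f k74 k133 10 (.q k144
  [(.s k128 k64 7 (.s k160 k176 3 (.s k175 k165 2 (.d k255 k85 k95 14 11)))), (.s k64 k128 7 (.s k85
  k255 14 (.s k48 k96 11 (.s k32 k16 3 (.s k69 k79 2 (.d k101 k239 k117 10 3)))))), (.s k48 k96 11
  (.s k16 k32 3 (.s k80 k208 7 (.s k160 k240 11 (.s k175 k165 2 (.d k255 k95 k85 11 14)))))), (.s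
  k64 k128 7 (.s k96 k48 11 (.s k80 k112 3 (.s k240 k160 11 (.d k208 k224 k16 3 7)))))] .n)) (.c
  k149 (.q k80 [(.s k255 k85 14 (.s k175 k95 11 (.d k160 k165 k240 2 11))), (.s k64 k128 7 (.s k160
  k240 11 (.s k96 k112 3 (.s k32 k224 7 (.d k48 k16 k144 3 11))))), (.s k64 k128 7 (.s k85 k255 14
  (.s k74 k133 10 (.s k69 k79 2 (.s k96 k112 3 (.s k101 k117 3 (.d k106 k127 k111 6 2)))))))] (.c
  k31 (.q k208 [(.d k240 k224 k160 3 11), (.s k64 k128 7 (.s k144 k16 7 (.d k96 k112 k48 3 11)))]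
  .n) (.c k208 (.q k31 [(.s k255 k85 14 (.s k175 k95 11 (.d k160 k165 k240 2 11))), (.s k64 k128 7
  (.s k160 k240 11 (.s k96 k112 3 (.s k32 k224 7 (.d k48 k16 k144 3 11))))), (.s k63 k47 3 (.s k42
  k21 6 (.s k234 k106 7 (.d k255 k213 k85 6 14))))] .n) .n))) .n)))

def t10_208 : T TT 256 :=
  (.q k63 [(.s k42 k21 6 (.s k85 k255 14 (.s k106 k234 7 (.s k64 k127 6 (.d k192 k149 k128 14
  7))))), (.s k255 k85 14 (.s k31 k47 3 (.s k95 k175 11 (.s k159 k223 7 (.s k111 k207 11 (.d k127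
  k79 k191 3 7))))))] (.c k31 (.q k149 [(.s k85 k255 14 (.d k21 k42 k213 6 7)), (.s k255 k85 14 (.d
  k191 k128 k127 6 7)), (.s k42 k21 6 (.d k106 k234 k192 7 14))] .n) (.c k85 (.q k95 [(.s k42 k21 6
  (.s k255 k175 11 (.s k106 k234 7 (.s k191 k127 7 (.d k149 k128 k192 6 14))))), (.s k31 k47 3 (.s
  k175 k255 11 (.s k159 k223 7 (.s k207 k111 11 (.d k143 k191 k79 3 7)))))] (.c k31 (.q k149 [(.s
  k255 k175 11 (.d k191 k128 k127 6 7)), (.s k42 k21 6 (.d k106 k234 k192 7 14))] .n) (.c k149 (.l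
  (.s k31 k47 3 (.s k175 k255 11 (.s k159 k223 7 (.s k207 k111 11 (.d k143 k191 k79 3 7)))))) (.c
  k175 (.q k149 [(.s k42 k21 6 (.d k106 k234 k192 7 14)), (.s k31 k47 3 (.s k159 k223 7 (.s k111
  k207 11 (.s k127 k79 3 (.d k191 k255 k128 7 6)))))] .n) (.c k191 (.l (.s k42 k21 6 (.s k175 k255
  11 (.s k106 k234 7 (.s k165 k160 2 (.d k47 k31 k224 3 10)))))) (.c k213 (.l (.s k31 k47 3 (.s k255
  k175 11 (.s k127 k191 7 (.s k111 k79 3 (.d k159 k223 k207 7 11)))))) (.c k255 (.l (.s k31 k47 3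
  (.s k159 k223 7 (.s k207 k111 11 (.s k138 k69 10 (.s k143 k79 7 (.s k128 k133 2 (.d k191 k175 k149
  3 6)))))))) .n))))))) (.c k127 (.l (.s k21 k42 6 (.s k85 k255 14 (.s k149 k213 7 (.s k192 k106 14
  (.d k128 k191 k64 6 7)))))) (.c k149 (.l (.s k31 k47 3 (.s k255 k85 14 (.s k95 k175 11 (.s k159
  k223 7 (.s k111 k207 11 (.d k127 k79 k191 3 7))))))) (.c k213 (.l (.s k42 k21 6 (.s k106 k234 7
  (.s k255 k85 14 (.s k149 k192 14 (.d k191 k128 k127 6 7)))))) (.c k255 (.q k149 [(.s k42 k21 6 (.d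
  k106 k234 k192 7 14)), (.s k192 k106 14 (.d k128 k191 k64 6 7)), (.s k42 k21 6 (.s k47 k31 3 (.s
  k32 k37 2 (.s k101 k239 10 (.s k53 k197 11 (.d k48 k16 k58 3 2))))))] .n) .n)))))))

def t10_209 : T TT 256 :=
  (.q k63 [(.s k42 k21 6 (.s k85 k255 14 (.s k106 k234 7 (.s k192 k149 14 (.d k64 k127 k128 6
  7))))), (.s k255 k85 14 (.s k31 k47 3 (.s k95 k175 11 (.s k159 k223 7 (.s k111 k207 11 (.d k127
  k79 k191 3 7)))))), (.s k42 k21 6 (.s k47 k31 3 (.s k32 k37 2 (.s k101 k239 10 (.s k106 k234 7 (.s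
  k224 k165 10 (.d k96 k111 k160 2 7)))))))] (.c k31 (.l (.s k21 k42 6 (.s k85 k255 14 (.s k149 k213
  7 (.s k192 k106 14 (.d k128 k191 k64 6 7)))))) .n))

def t10_210 : T TT 256 :=
  (.q k63 [(.s k42 k21 6 (.s k85 k255 14 (.s k106 k234 7 (.s k192 k149 14 (.d k64 k127 k128 6
  7))))), (.s k255 k85 14 (.s k31 k47 3 (.s k95 k175 11 (.s k159 k223 7 (.s k111 k207 11 (.d k127
  k79 k191 3 7)))))), (.s k42 k21 6 (.s k47 k31 3 (.s k32 k37 2 (.s k101 k239 10 (.s k106 k234 7 (.s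
  k224 k165 10 (.d k96 k111 k160 2 7)))))))] (.c k30 (.q k150 [(.s k85 k255 14 (.s k20 k215 8 (.s
  k60 k40 5 (.s k195 k105 14 (.d k130 k190 k65 5 8))))), (.s k21 k42 6 (.s k85 k255 14 (.s k149 k213
  7 (.s k192 k106 14 (.d k128 k191 k64 6 7))))), (.s k42 k21 6 (.s k106 k234 7 (.s k62 k194 13 (.s
  k2 k22 5 (.s k254 k86 13 (.d k190 k130 k126 5 7))))))] .n) (.c k31 (.l (.s k21 k42 6 (.s k85 k255
  14 (.s k149 k213 7 (.s k192 k106 14 (.d k128 k191 k64 6 7)))))) (.c k150 (.q k30 [(.s k21 k42 6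
  (.s k85 k255 14 (.s k149 k213 7 (.s k128 k191 6 (.d k192 k64 k106 7 14))))), (.s k45 k60 4 (.s k31
  k47 3 (.s k29 k28 0 (.s k12 k46 4 (.d k13 k14 k61 0 3)))))] .n) .n))))

def t10_211 : T TT 256 :=
  (.q k63 [(.s k42 k21 6 (.s k85 k255 14 (.s k106 k234 7 (.s k192 k149 14 (.d k64 k127 k128 6
  7))))), (.s k255 k85 14 (.s k31 k47 3 (.s k95 k175 11 (.s k159 k223 7 (.s k111 k207 11 (.d k127
  k79 k191 3 7)))))), (.s k42 k21 6 (.s k47 k31 3 (.s k32 k37 2 (.s k101 k239 10 (.s k106 k234 7 (.s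
  k224 k165 10 (.d k96 k111 k160 2 7)))))))] (.c k31 (.l (.s k21 k42 6 (.s k85 k255 14 (.s k149 k213
  7 (.s k192 k106 14 (.d k128 k191 k64 6 7)))))) .n))

def t10_212 : T TT 256 :=
  (.q k63 [(.s k42 k21 6 (.s k85 k255 14 (.s k106 k234 7 (.s k192 k149 14 (.d k64 k127 k128 6
  7))))), (.s k255 k85 14 (.s k31 k47 3 (.s k95 k175 11 (.s k159 k223 7 (.s k111 k207 11 (.d k127
  k79 k191 3 7)))))), (.s k42 k21 6 (.s k47 k31 3 (.s k32 k37 2 (.s k101 k239 10 (.s k106 k234 7 (.s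
  k224 k165 10 (.d k96 k111 k160 2 7)))))))] (.c k31 (.l (.s k21 k42 6 (.s k85 k255 14 (.s k149 k213
  7 (.s k192 k106 14 (.d k128 k191 k64 6 7)))))) .n))

def t10_213 : T TT 256 :=
  (.q k63 [(.s k42 k21 6 (.s k85 k255 14 (.s k106 k234 7 (.s k192 k149 14 (.d k64 k127 k128 6
  7))))), (.s k255 k85 14 (.s k31 k47 3 (.s k95 k175 11 (.s k159 k223 7 (.s k111 k207 11 (.d k127
  k79 k191 3 7)))))), (.s k42 k21 6 (.s k106 k234 7 (.s k255 k85 14 (.s k149 k192 14 (.d k191 k128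
  k127 6 7))))), (.s k42 k21 6 (.s k47 k31 3 (.s k32 k37 2 (.s k239 k101 10 (.s k175 k111 7 (.s k165
  k160 2 (.d k106 k234 k224 7 10)))))))] (.c k21 (.q k149 [(.s k255 k85 14 (.d k191 k128 k127 6 7)),
  (.s k192 k106 14 (.d k128 k191 k64 6 7)), (.s k255 k85 14 (.s k47 k31 3 (.s k106 k192 14 (.s k165
  k224 10 (.d k175 k95 k160 11 2)))))] .n) (.c k85 (.q k149 [(.s k42 k21 6 (.d k106 k234 k192 7
  14)), (.s k192 k106 14 (.d k128 k64 k191 7 6)), (.s k42 k21 6 (.s k47 k31 3 (.s k32 k37 2 (.s k101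
  k239 10 (.s k53 k197 11 (.d k48 k16 k58 3 2))))))] (.c k80 (.q k95 [(.s k42 k21 6 (.d k106 k234
  k192 7 14)), (.s k255 k175 11 (.d k191 k128 k127 6 7))] .n) (.c k95 (.q k80 [(.s k42 k21 6 (.d
  k106 k234 k192 7 14)), (.s k160 k240 11 (.s k128 k191 6 (.s k165 k175 2 (.s k133 k181 3 (.d k192
  k64 k74 7 10)))))] (.c k192 (.l (.s k42 k21 6 (.s k160 k240 11 (.s k47 k31 3 (.s k165 k175 2 (.d
  k106 k224 k234 10 7)))))) .n)) .n))) (.c k149 (.l (.s k21 k42 6 (.s k255 k85 14 (.s k31 k47 3 (.s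
  k95 k175 11 (.s k159 k223 7 (.s k111 k207 11 (.d k127 k79 k191 3 7)))))))) .n))))

def t10_214 : T TT 256 :=
  (.q k63 [(.s k42 k21 6 (.s k85 k255 14 (.s k106 k234 7 (.s k192 k149 14 (.d k64 k127 k128 6
  7))))), (.s k255 k85 14 (.s k31 k47 3 (.s k95 k175 11 (.s k159 k223 7 (.s k111 k207 11 (.d k127
  k79 k191 3 7)))))), (.s k42 k21 6 (.s k47 k31 3 (.s k32 k37 2 (.s k101 k239 10 (.s k106 k234 7 (.s
  k224 k165 10 (.d k96 k111 k160 2 7)))))))] (.c k31 (.l (.s k21 k42 6 (.s k85 k255 14 (.s k149 k213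
  7 (.s k192 k106 14 (.d k128 k191 k64 6 7)))))) .n))

def t10_215 : T TT 256 :=
  (.q k63 [(.s k42 k21 6 (.s k85 k255 14 (.s k106 k234 7 (.s k192 k149 14 (.d k64 k127 k128 6
  7))))), (.s k255 k85 14 (.s k31 k47 3 (.s k95 k175 11 (.s k159 k223 7 (.s k111 k207 11 (.d k127
  k79 k191 3 7)))))), (.s k42 k21 6 (.s k47 k31 3 (.s k32 k37 2 (.s k101 k239 10 (.s k106 k234 7 (.s
  k224 k165 10 (.d k96 k111 k160 2 7)))))))] (.c k31 (.l (.s k21 k42 6 (.s k85 k255 14 (.s k149 k213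
  7 (.s k192 k106 14 (.d k128 k191 k64 6 7)))))) .n))

def t10_216 : T TT 256 :=
  (.q k63 [(.s k42 k21 6 (.s k85 k255 14 (.s k106 k234 7 (.s k192 k149 14 (.d k64 k127 k128 6
  7))))), (.s k255 k85 14 (.s k31 k47 3 (.s k95 k175 11 (.s k159 k223 7 (.s k111 k207 11 (.d k127
  k79 k191 3 7)))))), (.s k42 k21 6 (.s k47 k31 3 (.s k32 k37 2 (.s k101 k239 10 (.s k106 k234 7 (.s
  k224 k165 10 (.d k96 k111 k160 2 7)))))))] (.c k27 (.q k153 [(.s k85 k255 14 (.s k17 k221 9 (.s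
  k51 k34 4 (.s k204 k102 14 (.d k136 k187 k68 4 9))))), (.s k21 k42 6 (.s k85 k255 14 (.s k149 k213
  7 (.s k192 k106 14 (.d k128 k191 k64 6 7))))), (.s k42 k21 6 (.s k106 k234 7 (.s k59 k200 12 (.s
  k8 k25 4 (.s k251 k89 12 (.d k187 k136 k123 4 7))))))] .n) (.c k31 (.l (.s k21 k42 6 (.s k85 k255
  14 (.s k149 k213 7 (.s k192 k106 14 (.d k128 k191 k64 6 7)))))) (.c k153 (.q k27 [(.s k21 k42 6
  (.s k85 k255 14 (.s k149 k213 7 (.s k128 k191 6 (.d k192 k64 k106 7 14))))), (.s k39 k51 5 (.s k31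
  k47 3 (.s k23 k19 1 (.s k3 k43 5 (.d k7 k11 k55 1 3)))))] .n) .n))))

def t10_217 : T TT 256 :=
  (.q k63 [(.s k42 k21 6 (.s k85 k255 14 (.s k106 k234 7 (.s k192 k149 14 (.d k64 k127 k128 6
  7))))), (.s k255 k85 14 (.s k31 k47 3 (.s k95 k175 11 (.s k159 k223 7 (.s k111 k207 11 (.d k127
  k79 k191 3 7)))))), (.s k42 k21 6 (.s k47 k31 3 (.s k32 k37 2 (.s k101 k239 10 (.s k106 k234 7 (.s
  k224 k165 10 (.d k96 k111 k160 2 7)))))))] (.c k31 (.l (.s k21 k42 6 (.s k85 k255 14 (.s k149 k213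
  7 (.s k192 k106 14 (.d k128 k191 k64 6 7)))))) .n))

def t10_218 : T TT 256 :=
  (.q k63 [(.s k42 k21 6 (.s k85 k255 14 (.s k106 k234 7 (.s k64 k127 6 (.d k192 k128 k149 7
  14))))), (.s k255 k85 14 (.s k31 k47 3 (.s k95 k175 11 (.s k159 k223 7 (.s k111 k207 11 (.d k127
  k79 k191 3 7)))))), (.s k42 k21 6 (.s k47 k31 3 (.s k32 k37 2 (.s k101 k239 10 (.s k106 k234 7 (.s
  k224 k165 10 (.d k96 k111 k160 2 7)))))))] (.c k26 (.q k154 [(.s k255 k85 14 (.s k191 k127 7 (.s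
  k149 k128 6 (.s k106 k192 14 (.d k42 k21 k234 6 7))))), (.s k85 k255 14 (.s k16 k223 10 (.s k48
  k32 3 (.s k207 k101 14 (.d k138 k186 k69 3 10))))), (.s k42 k21 6 (.s k106 k234 7 (.s k202 k58 11
  (.s k138 k186 3 (.s k207 k69 10 (.d k192 k197 k149 2 14))))))] (.c k42 (.q k58 [(.s k85 k255 14
  (.s k48 k53 2 (.d k16 k32 k223 3 10))), (.s k85 k255 14 (.s k106 k202 11 (.s k192 k149 14 (.d k64
  k127 k128 6 7)))), (.s k48 k53 2 (.s k32 k16 3 (.d k101 k239 k207 10 14)))] .n) (.c k58 (.l (.s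
  k42 k21 6 (.s k85 k255 14 (.s k47 k31 3 (.s k16 k223 10 (.d k32 k37 k48 2 3)))))) .n))) (.c k154
  (.q k26 [(.s k21 k42 6 (.d k31 k16 k47 2 3)), (.s k21 k42 6 (.s k85 k255 14 (.s k149 k213 7 (.s
  k192 k106 14 (.d k128 k191 k64 6 7))))), (.s k255 k85 14 (.s k31 k47 3 (.s k95 k175 11 (.s k127
  k191 7 (.s k111 k79 3 (.d k159 k223 k207 7 11))))))] .n) .n)))

def t10_219 : T TT 256 :=
  (.q k63 [(.s k42 k21 6 (.s k85 k255 14 (.s k106 k234 7 (.s k192 k149 14 (.d k64 k127 k128 6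
  7))))), (.s k255 k85 14 (.s k31 k47 3 (.s k95 k175 11 (.s k159 k223 7 (.s k111 k207 11 (.d k127
  k79 k191 3 7)))))), (.s k42 k21 6 (.s k47 k31 3 (.s k32 k37 2 (.s k101 k239 10 (.s k106 k234 7 (.s
  k224 k165 10 (.d k96 k111 k160 2 7)))))))] (.c k31 (.l (.s k21 k42 6 (.s k85 k255 14 (.s k149 k213
  7 (.s k192 k106 14 (.d k128 k191 k64 6 7)))))) .n))

def t10_220 : T TT 256 :=
  (.q k63 [(.s k42 k21 6 (.s k85 k255 14 (.s k106 k234 7 (.s k192 k149 14 (.d k64 k127 k128 6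
  7))))), (.s k255 k85 14 (.s k31 k47 3 (.s k95 k175 11 (.s k159 k223 7 (.s k111 k207 11 (.d k127
  k79 k191 3 7)))))), (.s k42 k21 6 (.s k47 k31 3 (.s k32 k37 2 (.s k101 k239 10 (.s k106 k234 7 (.s
  k224 k165 10 (.d k96 k111 k160 2 7)))))))] (.c k31 (.l (.s k21 k42 6 (.s k85 k255 14 (.s k149 k213
  7 (.s k192 k106 14 (.d k128 k191 k64 6 7)))))) .n))

def t10_221 : T TT 256 :=
  (.q k63 [(.s k42 k21 6 (.s k85 k255 14 (.s k106 k234 7 (.s k192 k149 14 (.d k64 k127 k128 6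
  7))))), (.s k255 k85 14 (.s k31 k47 3 (.s k95 k175 11 (.s k159 k223 7 (.s k111 k207 11 (.d k127
  k79 k191 3 7)))))), (.s k42 k21 6 (.s k47 k31 3 (.s k32 k37 2 (.s k101 k239 10 (.s k106 k234 7 (.s
  k224 k165 10 (.d k96 k111 k160 2 7)))))))] (.c k31 (.l (.s k21 k42 6 (.s k85 k255 14 (.s k149 k213
  7 (.s k192 k106 14 (.d k128 k191 k64 6 7)))))) .n))

def t10_222 : T TT 256 :=
  (.q k63 [(.s k42 k21 6 (.s k85 k255 14 (.s k106 k234 7 (.s k192 k149 14 (.d k64 k127 k128 6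
  7))))), (.s k255 k85 14 (.s k31 k47 3 (.s k95 k175 11 (.s k159 k223 7 (.s k111 k207 11 (.d k127
  k79 k191 3 7)))))), (.s k42 k21 6 (.s k47 k31 3 (.s k32 k37 2 (.s k101 k239 10 (.s k106 k234 7 (.s
  k224 k165 10 (.d k96 k111 k160 2 7)))))))] (.c k31 (.l (.s k21 k42 6 (.s k85 k255 14 (.s k149 k213
  7 (.s k192 k106 14 (.d k128 k191 k64 6 7)))))) .n))

def t10_223 : T TT 256 :=
  (.q k63 [(.s k42 k21 6 (.s k85 k255 14 (.s k106 k234 7 (.s k64 k127 6 (.d k192 k128 k149 7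
  14))))), (.s k42 k21 6 (.s k47 k31 3 (.s k32 k37 2 (.s k239 k101 10 (.s k106 k234 7 (.s k165 k224
  10 (.d k175 k160 k111 2 7))))))), (.s k255 k85 14 (.s k47 k31 3 (.s k191 k127 7 (.s k149 k128 6
  (.s k106 k192 14 (.s k165 k224 10 (.d k175 k95 k160 11 2)))))))] (.c k106 (.l (.s k42 k21 6 (.s
  k255 k85 14 (.s k47 k31 3 (.s k32 k37 2 (.s k239 k101 10 (.d k175 k111 k95 7 11))))))) (.c k149
  (.q k159 [(.s k207 k111 11 (.s k143 k79 7 (.s k175 k191 3 (.d k255 k95 k85 11 14)))), (.s k85 k255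
  14 (.s k207 k111 11 (.s k69 k138 10 (.s k101 k117 3 (.s k48 k154 14 (.d k32 k239 k16 10 3)))))),
  (.s k255 k85 14 (.s k191 k127 7 (.d k175 k95 k143 11 3))), (.s k207 k111 11 (.s k138 k69 10 (.s
  k143 k79 7 (.s k154 k186 3 (.s k165 k176 6 (.d k175 k191 k160 3 2))))))] (.c k31 (.q k208 [(.s
  k207 k111 11 (.s k143 k79 7 (.s k175 k191 3 (.d k255 k95 k85 11 14)))), (.s k85 k255 14 (.s k207
  k111 11 (.s k69 k138 10 (.s k101 k117 3 (.s k48 k154 14 (.d k32 k239 k16 10 3)))))), (.s k255 k85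
  14 (.s k191 k127 7 (.d k175 k95 k143 11 3))), (.s k207 k111 11 (.s k138 k69 10 (.s k143 k79 7 (.s
  k154 k186 3 (.s k165 k176 6 (.d k175 k191 k160 3 2))))))] .n) (.c k208 (.l (.s k31 k47 3 (.s k255
  k85 14 (.s k191 k127 7 (.d k175 k95 k143 11 3))))) .n))) .n)))

def t10_224 : T TT 256 :=
  (.q k63 [(.s k21 k42 6 (.s k85 k255 14 (.s k149 k213 7 (.s k128 k191 6 (.d k192 k64 k106 7
  14))))), (.s k255 k85 14 (.s k31 k47 3 (.s k95 k175 11 (.s k159 k223 7 (.s k111 k207 11 (.d k127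
  k79 k191 3 7)))))), (.s k42 k21 6 (.s k255 k85 14 (.s k47 k31 3 (.s k32 k37 2 (.s k239 k101 10 (.d
  k175 k95 k111 11 7))))))] (.c k85 (.q k95 [(.s k42 k21 6 (.s k255 k175 11 (.s k191 k127 7 (.s k149
  k128 6 (.d k106 k234 k192 7 14))))), (.s k31 k47 3 (.s k175 k255 11 (.s k159 k223 7 (.s k207 k111
  11 (.d k143 k191 k79 3 7))))), (.s k42 k21 6 (.s k47 k31 3 (.s k175 k255 11 (.s k32 k37 2 (.d k239
  k111 k101 7 10)))))] (.c k175 (.q k154 [(.s k31 k47 3 (.s k159 k223 7 (.s k138 k186 3 (.d k207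
  k111 k69 11 10)))), (.s k42 k21 6 (.s k47 k31 3 (.s k32 k37 2 (.s k101 k239 10 (.d k48 k16 k207 3
  14))))), (.s k138 k186 3 (.s k207 k69 10 (.s k79 k143 7 (.d k111 k159 k127 11 3))))] (.c k207 (.l
  (.s k42 k21 6 (.s k31 k47 3 (.s k159 k223 7 (.s k106 k234 7 (.d k149 k144 k192 2 14)))))) .n)) (.c
  k255 (.l (.s k42 k21 6 (.s k47 k31 3 (.s k32 k37 2 (.s k239 k101 10 (.s k111 k175 7 (.s k207 k159
  11 (.d k79 k143 k127 7 3)))))))) .n))) (.c k255 (.q k154 [(.s k21 k42 6 (.s k31 k47 3 (.s k26 k16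
  2 (.s k138 k186 3 (.s k207 k69 10 (.d k48 k37 k101 6 14)))))), (.s k47 k31 3 (.s k138 k186 3 (.s
  k207 k69 10 (.s k111 k159 11 (.s k239 k175 7 (.d k101 k48 k32 14 10)))))), (.s k42 k21 6 (.s k106
  k234 7 (.s k58 k202 11 (.s k48 k53 2 (.s k101 k207 14 (.d k32 k239 k16 10 3)))))), (.s k42 k21 6
  (.s k106 k234 7 (.s k202 k58 11 (.s k192 k149 14 (.s k207 k197 2 (.d k138 k186 k69 3 10)))))), (.s
  k42 k21 6 (.s k47 k31 3 (.s k32 k37 2 (.s k106 k234 7 (.s k58 k202 11 (.d k48 k53 k16 2 3))))))]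
  (.c k138 (.l (.s k42 k21 6 (.s k47 k31 3 (.s k32 k37 2 (.s k101 k239 10 (.d k48 k16 k207 3
  14)))))) .n)) .n)))

def t10_225 : T TT 256 :=
  (.q k63 [(.s k42 k21 6 (.s k85 k255 14 (.s k106 k234 7 (.s k192 k149 14 (.d k64 k127 k128 6
  7))))), (.s k255 k85 14 (.s k31 k47 3 (.s k95 k175 11 (.s k159 k223 7 (.s k111 k207 11 (.d k127
  k79 k191 3 7)))))), (.s k42 k21 6 (.s k47 k31 3 (.s k32 k37 2 (.s k101 k239 10 (.s k106 k234 7 (.s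
  k224 k165 10 (.d k96 k111 k160 2 7)))))))] (.c k31 (.l (.s k21 k42 6 (.s k85 k255 14 (.s k149 k213
  7 (.s k192 k106 14 (.d k128 k191 k64 6 7)))))) .n))

def t10_226 : T TT 256 :=
  (.q k63 [(.s k21 k42 6 (.s k85 k255 14 (.s k149 k213 7 (.s k128 k191 6 (.d k192 k64 k106 7
  14))))), (.s k255 k85 14 (.s k31 k47 3 (.s k95 k175 11 (.s k159 k223 7 (.s k111 k207 11 (.d k127
  k79 k191 3 7)))))), (.s k42 k21 6 (.s k47 k31 3 (.s k32 k37 2 (.s k101 k239 10 (.s k106 k234 7 (.s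
  k224 k165 10 (.d k96 k111 k160 2 7)))))))] .n)

def t10_227 : T TT 256 :=
  (.q k63 [(.s k42 k21 6 (.s k85 k255 14 (.s k106 k234 7 (.s k192 k149 14 (.d k64 k127 k128 6
  7))))), (.s k255 k85 14 (.s k31 k47 3 (.s k95 k175 11 (.s k159 k223 7 (.s k111 k207 11 (.d k127
  k79 k191 3 7)))))), (.s k42 k21 6 (.s k47 k31 3 (.s k32 k37 2 (.s k101 k239 10 (.s k106 k234 7 (.s
  k224 k165 10 (.d k96 k111 k160 2 7)))))))] (.c k31 (.l (.s k21 k42 6 (.s k85 k255 14 (.s k149 k213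
  7 (.s k192 k106 14 (.d k128 k191 k64 6 7)))))) .n))

def t10_228 : T TT 256 :=
  (.q k63 [(.s k42 k21 6 (.s k85 k255 14 (.s k106 k234 7 (.s k192 k149 14 (.d k64 k127 k128 6
  7))))), (.s k255 k85 14 (.s k31 k47 3 (.s k95 k175 11 (.s k159 k223 7 (.s k111 k207 11 (.d k127
  k79 k191 3 7)))))), (.s k42 k21 6 (.s k47 k31 3 (.s k32 k37 2 (.s k101 k239 10 (.s k106 k234 7 (.s
  k224 k165 10 (.d k96 k111 k160 2 7)))))))] (.c k31 (.l (.s k21 k42 6 (.s k85 k255 14 (.s k149 k213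
  7 (.s k192 k106 14 (.d k128 k191 k64 6 7)))))) .n))

def t10_229 : T TT 256 :=
  (.q k63 [(.s k42 k21 6 (.s k85 k255 14 (.s k106 k234 7 (.s k192 k149 14 (.d k64 k127 k128 6
  7))))), (.s k255 k85 14 (.s k31 k47 3 (.s k95 k175 11 (.s k159 k223 7 (.s k111 k207 11 (.d k127
  k79 k191 3 7)))))), (.s k21 k42 6 (.s k85 k255 14 (.s k149 k213 7 (.s k192 k106 14 (.d k128 k191
  k64 6 7))))), (.s k42 k21 6 (.s k47 k31 3 (.s k32 k37 2 (.s k101 k239 10 (.s k106 k234 7 (.s k224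
  k165 10 (.d k96 k111 k160 2 7)))))))] .n)

def t10_230 : T TT 256 :=
  (.q k63 [(.s k42 k21 6 (.s k85 k255 14 (.s k106 k234 7 (.s k192 k149 14 (.d k64 k127 k128 6
  7))))), (.s k255 k85 14 (.s k31 k47 3 (.s k95 k175 11 (.s k159 k223 7 (.s k111 k207 11 (.d k127
  k79 k191 3 7)))))), (.s k42 k21 6 (.s k47 k31 3 (.s k32 k37 2 (.s k101 k239 10 (.s k106 k234 7 (.s
  k224 k165 10 (.d k96 k111 k160 2 7)))))))] (.c k31 (.l (.s k21 k42 6 (.s k85 k255 14 (.s k149 k213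
  7 (.s k192 k106 14 (.d k128 k191 k64 6 7)))))) .n))

def t10_231 : T TT 256 :=
  (.q k63 [(.s k42 k21 6 (.s k85 k255 14 (.s k106 k234 7 (.s k192 k149 14 (.d k64 k127 k128 6
  7))))), (.s k255 k85 14 (.s k31 k47 3 (.s k95 k175 11 (.s k159 k223 7 (.s k111 k207 11 (.d k127
  k79 k191 3 7)))))), (.s k42 k21 6 (.s k47 k31 3 (.s k32 k37 2 (.s k101 k239 10 (.s k106 k234 7 (.s
  k224 k165 10 (.d k96 k111 k160 2 7)))))))] (.c k31 (.l (.s k21 k42 6 (.s k85 k255 14 (.s k149 k213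
  7 (.s k192 k106 14 (.d k128 k191 k64 6 7)))))) .n))

def t10_232 : T TT 256 :=
  (.q k63 [(.s k21 k42 6 (.s k85 k255 14 (.s k149 k213 7 (.s k128 k191 6 (.d k192 k64 k106 7
  14))))), (.s k255 k85 14 (.s k31 k47 3 (.s k95 k175 11 (.s k159 k223 7 (.s k111 k207 11 (.d k127
  k79 k191 3 7)))))), (.s k42 k21 6 (.s k47 k31 3 (.s k32 k37 2 (.s k101 k239 10 (.s k106 k234 7 (.s
  k224 k165 10 (.d k96 k111 k160 2 7)))))))] .n)

def t10_233 : T TT 256 :=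
  (.q k63 [(.s k42 k21 6 (.s k85 k255 14 (.s k106 k234 7 (.s k192 k149 14 (.d k64 k127 k128 6
  7))))), (.s k255 k85 14 (.s k31 k47 3 (.s k95 k175 11 (.s k159 k223 7 (.s k111 k207 11 (.d k127
  k79 k191 3 7)))))), (.s k42 k21 6 (.s k47 k31 3 (.s k32 k37 2 (.s k101 k239 10 (.s k106 k234 7 (.s
  k224 k165 10 (.d k96 k111 k160 2 7)))))))] (.c k31 (.l (.s k21 k42 6 (.s k85 k255 14 (.s k149 k213
  7 (.s k192 k106 14 (.d k128 k191 k64 6 7)))))) .n))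

def t10_234 : T TT 256 :=
  (.q k138 [(.s k207 k69 10 (.s k85 k255 14 (.s k154 k186 3 (.s k16 k223 10 (.d k48 k32 k101 3
  14))))), (.s k207 k69 10 (.s k143 k79 7 (.s k128 k133 2 (.s k149 k191 6 (.s k154 k186 3 (.s k176
  k165 6 (.d k144 k159 k160 2 3))))))), (.s k207 k69 10 (.s k255 k85 14 (.s k143 k79 7 (.s k128 k133
  2 (.s k191 k149 6 (.d k175 k95 k159 11 3))))))] (.c k69 (.q k63 [(.s k21 k42 6 (.s k85 k255 14 (.s
  k149 k213 7 (.s k192 k106 14 (.d k128 k191 k64 6 7))))), (.s k255 k85 14 (.s k31 k47 3 (.s k95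
  k175 11 (.s k159 k223 7 (.s k111 k207 11 (.d k127 k79 k191 3 7)))))), (.s k42 k21 6 (.s k47 k31 3
  (.s k32 k37 2 (.s k101 k239 10 (.s k154 k186 3 (.d k48 k16 k207 3 14))))))] .n) (.c k101 (.f k154
  k186 3 (.q k2 [(.s k206 k70 9 (.s k86 k254 13 (.s k18 k222 9 (.d k50 k34 k102 3 13)))), (.s k3 k1
  0 (.s k69 k207 10 (.s k70 k206 9 (.s k204 k137 10 (.d k68 k71 k136 0 9))))), (.s k3 k1 0 (.s k207
  k69 10 (.s k86 k254 13 (.s k169 k252 14 (.d k139 k184 k71 4 9)))))] (.c k79 (.q k112 [(.s k206 k70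
  9 (.s k86 k254 13 (.s k18 k222 9 (.d k50 k34 k102 3 13)))), (.s k3 k1 0 (.s k69 k207 10 (.s k70
  k206 9 (.s k204 k137 10 (.d k68 k71 k136 0 9))))), (.s k3 k1 0 (.s k207 k69 10 (.s k86 k254 13 (.s
  k169 k252 14 (.d k139 k184 k71 4 9)))))] .n) (.c k112 (.q k79 [(.d k207 k143 k69 7 10), (.s k206
  k70 9 (.s k86 k254 13 (.s k18 k222 9 (.d k50 k34 k102 3 13))))] .n) .n)))) (.c k207 (.q k2 [(.s k3
  k1 0 (.s k255 k85 14 (.s k171 k87 13 (.s k169 k168 0 (.d k86 k254 k252 13 14))))), (.s k206 k70 9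
  (.s k86 k254 13 (.s k154 k186 3 (.s k50 k102 13 (.d k18 k34 k222 3 9))))), (.s k3 k1 0 (.s k70
  k206 9 (.s k7 k11 1 (.s k133 k196 8 (.s k192 k74 10 (.d k128 k143 k64 2 7))))))] .n) .n))))

def t10_235 : T TT 256 :=
  (.q k63 [(.s k42 k21 6 (.s k255 k85 14 (.s k106 k234 7 (.s k149 k192 14 (.d k191 k128 k127 6
  7))))), (.s k255 k85 14 (.s k31 k47 3 (.s k95 k175 11 (.s k159 k223 7 (.s k111 k207 11 (.d k127
  k79 k191 3 7)))))), (.s k42 k21 6 (.s k47 k31 3 (.s k32 k37 2 (.s k101 k239 10 (.s k106 k234 7 (.s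
  k224 k165 10 (.d k96 k111 k160 2 7)))))))] .n)

def t10_236 : T TT 256 :=
  (.q k63 [(.s k42 k21 6 (.s k85 k255 14 (.s k106 k234 7 (.s k192 k149 14 (.d k64 k127 k128 6
  7))))), (.s k255 k85 14 (.s k31 k47 3 (.s k95 k175 11 (.s k159 k223 7 (.s k111 k207 11 (.d k127
  k79 k191 3 7)))))), (.s k42 k21 6 (.s k47 k31 3 (.s k32 k37 2 (.s k101 k239 10 (.s k106 k234 7 (.s
  k224 k165 10 (.d k96 k111 k160 2 7)))))))] (.c k31 (.l (.s k21 k42 6 (.s k85 k255 14 (.s k149 k213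
  7 (.s k192 k106 14 (.d k128 k191 k64 6 7)))))) .n))

def t10_237 : T TT 256 :=
  (.q k63 [(.s k42 k21 6 (.s k85 k255 14 (.s k106 k234 7 (.s k192 k149 14 (.d k64 k127 k128 6
  7))))), (.s k255 k85 14 (.s k31 k47 3 (.s k95 k175 11 (.s k159 k223 7 (.s k111 k207 11 (.d k127
  k79 k191 3 7)))))), (.s k42 k21 6 (.s k47 k31 3 (.s k32 k37 2 (.s k101 k239 10 (.s k106 k234 7 (.s
  k224 k165 10 (.d k96 k111 k160 2 7)))))))] (.c k31 (.l (.s k21 k42 6 (.s k85 k255 14 (.s k149 k213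
  7 (.s k192 k106 14 (.d k128 k191 k64 6 7)))))) .n))

def t10_238 : T TT 256 :=
  (.q k63 [(.s k42 k21 6 (.s k255 k85 14 (.s k106 k234 7 (.s k149 k192 14 (.d k191 k128 k127 6
  7))))), (.s k255 k85 14 (.s k31 k47 3 (.s k95 k175 11 (.s k159 k223 7 (.s k111 k207 11 (.d k127
  k79 k191 3 7)))))), (.s k42 k21 6 (.s k47 k31 3 (.s k32 k37 2 (.s k101 k239 10 (.s k106 k234 7 (.s
  k224 k165 10 (.d k96 k111 k160 2 7)))))))] .n)

def t10_239 : T TT 256 :=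
  (.q k63 [(.s k42 k21 6 (.s k255 k85 14 (.s k106 k234 7 (.s k149 k192 14 (.d k191 k128 k127 6
  7))))), (.s k255 k85 14 (.s k31 k47 3 (.s k127 k191 7 (.s k95 k175 11 (.s k111 k79 3 (.d k159 k223
  k207 7 11)))))), (.s k21 k42 6 (.s k85 k255 14 (.s k149 k213 7 (.s k192 k106 14 (.d k128 k191 k64
  6 7)))))] (.c k85 (.q k138 [(.s k207 k69 10 (.s k143 k79 7 (.s k128 k133 2 (.s k149 k191 6 (.d
  k192 k64 k106 7 14))))), (.s k42 k21 6 (.s k47 k31 3 (.s k32 k37 2 (.s k106 k234 7 (.s k154 k186 3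
  (.s k58 k202 11 (.d k48 k53 k16 2 3))))))), (.s k21 k42 6 (.s k207 k69 10 (.s k31 k47 3 (.s k26
  k16 2 (.s k154 k186 3 (.d k48 k37 k101 6 14))))))] (.c k80 (.q k95 [(.s k207 k69 10 (.s k79 k143 7
  (.d k111 k127 k159 3 11))), (.s k42 k21 6 (.s k47 k31 3 (.s k175 k255 11 (.s k106 k234 7 (.d k165
  k224 k160 10 2)))))] (.c k207 (.l (.s k42 k21 6 (.s k255 k175 11 (.s k106 k234 7 (.s k149 k192 14
  (.d k191 k128 k127 6 7)))))) .n)) (.c k95 (.q k80 [(.s k42 k21 6 (.s k160 k240 11 (.s k106 k234 7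
  (.s k165 k175 2 (.d k47 k224 k31 10 3))))), (.s k207 k69 10 (.s k143 k79 7 (.s k128 k133 2 (.s
  k149 k191 6 (.d k192 k64 k106 7 14))))), (.s k207 k69 10 (.s k160 k240 11 (.s k143 k79 7 (.s k154
  k186 3 (.d k165 k175 k176 2 6)))))] (.c k111 (.l (.s k42 k21 6 (.s k160 k240 11 (.s k47 k31 3 (.s
  k106 k234 7 (.d k165 k224 k175 10 2)))))) .n)) .n))) (.c k191 (.l (.s k42 k21 6 (.s k85 k255 14
  (.s k106 k234 7 (.s k192 k149 14 (.d k64 k127 k128 6 7)))))) (.c k255 (.q k138 [(.s k42 k21 6 (.s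
  k106 k234 7 (.s k192 k149 14 (.s k128 k64 7 (.d k133 k143 k74 2 10))))), (.s k21 k42 6 (.s k207
  k69 10 (.s k31 k47 3 (.s k26 k16 2 (.s k154 k186 3 (.d k48 k37 k101 6 14)))))), (.s k207 k69 10
  (.s k143 k79 7 (.s k159 k111 11 (.s k128 k133 2 (.d k191 k175 k149 3 6)))))] (.c k207 (.q k223
  [(.s k21 k42 6 (.s k154 k186 3 (.s k16 k85 10 (.d k31 k26 k47 2 3)))), (.s k42 k21 6 (.s k106 k234
  7 (.s k192 k149 14 (.s k128 k64 7 (.d k133 k143 k74 2 10))))), (.s k31 k47 3 (.s k159 k95 7 (.s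
  k154 k186 3 (.s k149 k144 2 (.s k192 k106 14 (.d k128 k191 k64 6 7))))))] (.c k31 (.l (.s k21 k42
  6 (.s k154 k186 3 (.s k85 k16 10 (.s k149 k213 7 (.s k192 k106 14 (.d k128 k191 k64 6 7))))))) (.c
  k85 (.l (.s k42 k21 6 (.s k47 k31 3 (.s k32 k37 2 (.s k106 k234 7 (.s k154 k186 3 (.s k58 k202 11
  (.d k48 k53 k16 2 3)))))))) .n))) (.c k223 (.l (.s k207 k69 10 (.s k143 k79 7 (.s k159 k111 11 (.s
  k128 k133 2 (.d k191 k175 k149 3 6)))))) .n))) .n))))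

def t10_240 : T TT 256 :=
  (.q k63 [(.s k42 k21 6 (.s k85 k255 14 (.s k106 k234 7 (.s k192 k149 14 (.d k64 k127 k128 6
  7))))), (.s k255 k85 14 (.s k31 k47 3 (.s k95 k175 11 (.s k159 k223 7 (.s k111 k207 11 (.d k127
  k79 k191 3 7)))))), (.s k42 k21 6 (.s k47 k31 3 (.s k32 k37 2 (.s k101 k239 10 (.s k106 k234 7 (.s
  k224 k165 10 (.d k96 k111 k160 2 7)))))))] (.c k31 (.l (.s k21 k42 6 (.s k85 k255 14 (.s k149 k213
  7 (.s k192 k106 14 (.d k128 k191 k64 6 7)))))) .n))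

def t10_241 : T TT 256 :=
  (.q k63 [(.s k42 k21 6 (.s k85 k255 14 (.s k106 k234 7 (.s k192 k149 14 (.d k64 k127 k128 6
  7))))), (.s k255 k85 14 (.s k31 k47 3 (.s k95 k175 11 (.s k159 k223 7 (.s k111 k207 11 (.d k127
  k79 k191 3 7)))))), (.s k42 k21 6 (.s k47 k31 3 (.s k32 k37 2 (.s k101 k239 10 (.s k106 k234 7 (.s
  k224 k165 10 (.d k96 k111 k160 2 7)))))))] (.c k31 (.l (.s k21 k42 6 (.s k85 k255 14 (.s k149 k213
  7 (.s k192 k106 14 (.d k128 k191 k64 6 7)))))) .n))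

def t10_242 : T TT 256 :=
  (.q k63 [(.s k42 k21 6 (.s k85 k255 14 (.s k106 k234 7 (.s k192 k149 14 (.d k64 k127 k128 6
  7))))), (.s k255 k85 14 (.s k31 k47 3 (.s k95 k175 11 (.s k159 k223 7 (.s k111 k207 11 (.d k127
  k79 k191 3 7)))))), (.s k42 k21 6 (.s k47 k31 3 (.s k32 k37 2 (.s k101 k239 10 (.s k106 k234 7 (.s
  k224 k165 10 (.d k96 k111 k160 2 7)))))))] (.c k14 (.q k166 [(.s k42 k21 6 (.s k85 k255 14 (.s
  k106 k234 7 (.s k192 k149 14 (.d k64 k127 k128 6 7))))), (.s k85 k255 14 (.s k4 k247 12 (.s k12 k8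
  1 (.s k243 k89 14 (.d k162 k174 k81 1 12))))), (.s k42 k21 6 (.s k106 k234 7 (.s k46 k226 9 (.s
  k12 k29 4 (.s k8 k4 1 (.d k89 k251 k243 12 14))))))] (.c k2 (.q k6 [(.s k85 k255 14 (.s k4 k247 12
  (.s k12 k8 1 (.s k7 k5 0 (.d k3 k11 k9 1 2))))), (.s k21 k42 6 (.s k85 k255 14 (.s k149 k213 7 (.s
  k192 k106 14 (.d k128 k191 k64 6 7))))), (.s k42 k21 6 (.s k106 k234 7 (.s k46 k226 9 (.s k12 k29
  4 (.s k8 k4 1 (.d k89 k251 k243 12 14))))))] (.c k82 (.l (.s k162 k174 1 (.s k243 k81 12 (.s k85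
  k255 14 (.s k4 k247 12 (.d k12 k8 k89 1 14)))))) (.c k162 (.q k82 [(.s k85 k255 14 (.s k4 k247 12
  (.s k12 k8 1 (.s k7 k5 0 (.d k3 k11 k9 1 2))))), (.s k21 k42 6 (.s k85 k255 14 (.s k149 k213 7 (.s
  k192 k106 14 (.d k128 k191 k64 6 7))))), (.s k42 k21 6 (.s k106 k234 7 (.s k46 k226 9 (.s k12 k29
  4 (.s k8 k4 1 (.d k89 k251 k243 12 14))))))] .n) .n))) (.c k6 (.q k2 [(.s k3 k1 0 (.s k42 k21 6
  (.s k43 k23 5 (.s k41 k40 0 (.d k22 k62 k60 5 6))))), (.s k21 k42 6 (.s k85 k255 14 (.s k149 k213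
  7 (.s k192 k106 14 (.d k128 k191 k64 6 7))))), (.s k3 k1 0 (.s k85 k255 14 (.s k86 k254 13 (.s
  k252 k169 14 (.d k84 k87 k168 0 13)))))] .n) .n))) (.c k31 (.l (.s k21 k42 6 (.s k85 k255 14 (.s
  k149 k213 7 (.s k192 k106 14 (.d k128 k191 k64 6 7)))))) (.c k166 (.q k14 [(.s k12 k13 0 (.s k46
  k29 4 (.s k30 k62 3 (.s k45 k60 4 (.d k47 k44 k31 0 3))))), (.s k21 k42 6 (.s k85 k255 14 (.s k149
  k213 7 (.s k128 k191 6 (.d k192 k64 k106 7 14)))))] .n) .n))))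

def t10_243 : T TT 256 :=
  (.q k63 [(.s k42 k21 6 (.s k85 k255 14 (.s k106 k234 7 (.s k192 k149 14 (.d k64 k127 k128 6
  7))))), (.s k255 k85 14 (.s k31 k47 3 (.s k95 k175 11 (.s k159 k223 7 (.s k111 k207 11 (.d k127
  k79 k191 3 7)))))), (.s k42 k21 6 (.s k47 k31 3 (.s k32 k37 2 (.s k101 k239 10 (.s k106 k234 7 (.s
  k224 k165 10 (.d k96 k111 k160 2 7)))))))] (.c k31 (.l (.s k21 k42 6 (.s k85 k255 14 (.s k149 k213
  7 (.s k192 k106 14 (.d k128 k191 k64 6 7)))))) .n))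

def t10_244 : T TT 256 :=
  (.q k63 [(.s k42 k21 6 (.s k85 k255 14 (.s k106 k234 7 (.s k192 k149 14 (.d k64 k127 k128 6
  7))))), (.s k255 k85 14 (.s k31 k47 3 (.s k95 k175 11 (.s k159 k223 7 (.s k111 k207 11 (.d k127
  k79 k191 3 7)))))), (.s k42 k21 6 (.s k47 k31 3 (.s k32 k37 2 (.s k101 k239 10 (.s k106 k234 7 (.s
  k224 k165 10 (.d k96 k111 k160 2 7)))))))] (.c k31 (.l (.s k21 k42 6 (.s k85 k255 14 (.s k149 k213
  7 (.s k192 k106 14 (.d k128 k191 k64 6 7)))))) .n))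

def t10_245 : T TT 256 :=
  (.q k63 [(.s k42 k21 6 (.s k85 k255 14 (.s k106 k234 7 (.s k192 k149 14 (.d k64 k127 k128 6
  7))))), (.s k255 k85 14 (.s k31 k47 3 (.s k95 k175 11 (.s k159 k223 7 (.s k111 k207 11 (.d k127
  k79 k191 3 7)))))), (.s k42 k21 6 (.s k47 k31 3 (.s k32 k37 2 (.s k101 k239 10 (.s k106 k234 7 (.s
  k96 k111 2 (.d k224 k160 k165 7 10)))))))] (.c k31 (.l (.s k21 k42 6 (.s k85 k255 14 (.s k149 k213
  7 (.s k192 k106 14 (.d k128 k191 k64 6 7)))))) .n))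

def t10_246 : T TT 256 :=
  (.q k63 [(.s k42 k21 6 (.s k85 k255 14 (.s k106 k234 7 (.s k192 k149 14 (.d k64 k127 k128 6
  7))))), (.s k255 k85 14 (.s k31 k47 3 (.s k95 k175 11 (.s k159 k223 7 (.s k111 k207 11 (.d k127
  k79 k191 3 7)))))), (.s k42 k21 6 (.s k47 k31 3 (.s k32 k37 2 (.s k101 k239 10 (.s k106 k234 7 (.s
  k224 k165 10 (.d k96 k111 k160 2 7)))))))] (.c k31 (.l (.s k21 k42 6 (.s k85 k255 14 (.s k149 k213
  7 (.s k192 k106 14 (.d k128 k191 k64 6 7)))))) .n))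

def t10_247 : T TT 256 :=
  (.q k63 [(.s k42 k21 6 (.s k85 k255 14 (.s k106 k234 7 (.s k192 k149 14 (.d k64 k127 k128 6
  7))))), (.s k255 k85 14 (.s k31 k47 3 (.s k95 k175 11 (.s k159 k223 7 (.s k111 k207 11 (.d k127
  k79 k191 3 7)))))), (.s k42 k21 6 (.s k47 k31 3 (.s k32 k37 2 (.s k101 k239 10 (.s k106 k234 7 (.s
  k224 k165 10 (.d k96 k111 k160 2 7)))))))] (.c k31 (.l (.s k21 k42 6 (.s k85 k255 14 (.s k149 k213
  7 (.s k192 k106 14 (.d k128 k191 k64 6 7)))))) .n))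

def t10_248 : T TT 256 :=
  (.q k63 [(.s k42 k21 6 (.s k85 k255 14 (.s k106 k234 7 (.s k192 k149 14 (.d k64 k127 k128 6
  7))))), (.s k255 k85 14 (.s k31 k47 3 (.s k95 k175 11 (.s k159 k223 7 (.s k111 k207 11 (.d k127
  k79 k191 3 7)))))), (.s k42 k21 6 (.s k47 k31 3 (.s k32 k37 2 (.s k101 k239 10 (.s k106 k234 7 (.s
  k224 k165 10 (.d k96 k111 k160 2 7)))))))] (.c k11 (.q k169 [(.s k42 k21 6 (.s k85 k255 14 (.s
  k106 k234 7 (.s k192 k149 14 (.d k64 k127 k128 6 7))))), (.s k85 k255 14 (.s k1 k253 13 (.s k3 k2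
  0 (.s k252 k86 14 (.d k168 k171 k84 0 13))))), (.s k42 k21 6 (.s k106 k234 7 (.s k43 k232 8 (.s k3
  k23 5 (.s k2 k1 0 (.d k86 k254 k252 13 14))))))] (.c k8 (.q k9 [(.s k85 k255 14 (.s k1 k253 13 (.s
  k3 k2 0 (.s k13 k5 1 (.d k12 k14 k6 0 2))))), (.s k21 k42 6 (.s k85 k255 14 (.s k149 k213 7 (.s
  k192 k106 14 (.d k128 k191 k64 6 7))))), (.s k42 k21 6 (.s k106 k234 7 (.s k43 k232 8 (.s k3 k23 5
  (.s k2 k1 0 (.d k86 k254 k252 13 14))))))] (.c k88 (.l (.s k168 k171 0 (.s k252 k84 13 (.s k85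
  k255 14 (.s k1 k253 13 (.d k3 k2 k86 0 14)))))) (.c k168 (.q k88 [(.s k85 k255 14 (.s k1 k253 13
  (.s k3 k2 0 (.s k13 k5 1 (.d k12 k14 k6 0 2))))), (.s k21 k42 6 (.s k85 k255 14 (.s k149 k213 7
  (.s k192 k106 14 (.d k128 k191 k64 6 7))))), (.s k42 k21 6 (.s k106 k234 7 (.s k43 k232 8 (.s k3
  k23 5 (.s k2 k1 0 (.d k86 k254 k252 13 14))))))] .n) .n))) (.c k9 (.q k8 [(.s k12 k4 1 (.s k42 k21
  6 (.s k46 k29 4 (.s k38 k34 1 (.d k25 k59 k51 4 6))))), (.s k21 k42 6 (.s k85 k255 14 (.s k149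
  k213 7 (.s k192 k106 14 (.d k128 k191 k64 6 7))))), (.s k12 k4 1 (.s k85 k255 14 (.s k89 k251 12
  (.s k243 k166 14 (.d k81 k93 k162 1 12)))))] .n) .n))) (.c k31 (.l (.s k21 k42 6 (.s k85 k255 14
  (.s k149 k213 7 (.s k192 k106 14 (.d k128 k191 k64 6 7)))))) (.c k169 (.q k11 [(.s k3 k7 1 (.s k43
  k23 5 (.s k27 k59 3 (.s k39 k51 5 (.d k47 k35 k31 1 3))))), (.s k21 k42 6 (.s k85 k255 14 (.s k149
  k213 7 (.s k128 k191 6 (.d k192 k64 k106 7 14)))))] .n) .n))))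

def t10_249 : T TT 256 :=
  (.q k63 [(.s k42 k21 6 (.s k85 k255 14 (.s k106 k234 7 (.s k192 k149 14 (.d k64 k127 k128 6
  7))))), (.s k255 k85 14 (.s k31 k47 3 (.s k95 k175 11 (.s k159 k223 7 (.s k111 k207 11 (.d k127
  k79 k191 3 7)))))), (.s k42 k21 6 (.s k47 k31 3 (.s k32 k37 2 (.s k101 k239 10 (.s k106 k234 7 (.s
  k224 k165 10 (.d k96 k111 k160 2 7)))))))] (.c k31 (.l (.s k21 k42 6 (.s k85 k255 14 (.s k149 k213
  7 (.s k192 k106 14 (.d k128 k191 k64 6 7)))))) .n))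

def t10_250 : T TT 256 :=
  (.q k63 [(.s k42 k21 6 (.s k255 k85 14 (.s k106 k234 7 (.s k149 k192 14 (.d k191 k128 k127 6
  7))))), (.s k255 k85 14 (.s k31 k47 3 (.s k95 k175 11 (.s k159 k223 7 (.s k111 k207 11 (.d k127
  k79 k191 3 7)))))), (.s k42 k21 6 (.s k47 k31 3 (.s k32 k37 2 (.s k101 k239 10 (.s k106 k234 7 (.s
  k224 k165 10 (.d k96 k111 k160 2 7)))))))] .n)

def t10_251 : T TT 256 :=
  (.q k63 [(.s k42 k21 6 (.s k255 k85 14 (.s k106 k234 7 (.s k149 k192 14 (.d k191 k128 k127 6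
  7))))), (.s k255 k85 14 (.s k31 k47 3 (.s k95 k175 11 (.s k159 k223 7 (.s k111 k207 11 (.d k127
  k79 k191 3 7)))))), (.s k42 k21 6 (.s k47 k31 3 (.s k32 k37 2 (.s k101 k239 10 (.s k106 k234 7 (.s
  k224 k165 10 (.d k96 k111 k160 2 7)))))))] .n)

def t10_252 : T TT 256 :=
  (.q k63 [(.s k42 k21 6 (.s k85 k255 14 (.s k106 k234 7 (.s k192 k149 14 (.d k64 k127 k128 6
  7))))), (.s k255 k85 14 (.s k31 k47 3 (.s k95 k175 11 (.s k159 k223 7 (.s k111 k207 11 (.d k127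
  k79 k191 3 7)))))), (.s k42 k21 6 (.s k47 k31 3 (.s k32 k37 2 (.s k101 k239 10 (.s k106 k234 7 (.s
  k224 k165 10 (.d k96 k111 k160 2 7)))))))] (.c k31 (.l (.s k21 k42 6 (.s k85 k255 14 (.s k149 k213
  7 (.s k192 k106 14 (.d k128 k191 k64 6 7)))))) .n))

def t10_253 : T TT 256 :=
  (.q k63 [(.s k42 k21 6 (.s k85 k255 14 (.s k106 k234 7 (.s k192 k149 14 (.d k64 k127 k128 6
  7))))), (.s k255 k85 14 (.s k31 k47 3 (.s k95 k175 11 (.s k159 k223 7 (.s k111 k207 11 (.d k127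
  k79 k191 3 7)))))), (.s k42 k21 6 (.s k47 k31 3 (.s k32 k37 2 (.s k101 k239 10 (.s k106 k234 7 (.s
  k224 k165 10 (.d k96 k111 k160 2 7)))))))] (.c k31 (.l (.s k21 k42 6 (.s k85 k255 14 (.s k149 k213
  7 (.s k192 k106 14 (.d k128 k191 k64 6 7)))))) .n))

def t10_254 : T TT 256 :=
  (.q k63 [(.s k42 k21 6 (.s k255 k85 14 (.s k106 k234 7 (.s k149 k192 14 (.d k191 k128 k127 6
  7))))), (.s k255 k85 14 (.s k31 k47 3 (.s k95 k175 11 (.s k159 k223 7 (.s k111 k207 11 (.d k127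
  k79 k191 3 7)))))), (.s k42 k21 6 (.s k47 k31 3 (.s k32 k37 2 (.s k101 k239 10 (.s k106 k234 7 (.s
  k224 k165 10 (.d k96 k111 k160 2 7)))))))] .n)

def t10_255 : T TT 256 :=
  (.q k42 [(.s k63 k21 6 (.s k47 k31 3 (.s k106 k234 7 (.s k165 k224 10 (.s k175 k160 2 (.s k239
  k111 7 (.d k32 k37 k101 2 10))))))), (.s k63 k21 6 (.s k47 k31 3 (.s k32 k37 2 (.s k239 k101 10
  (.s k175 k111 7 (.s k165 k160 2 (.d k106 k234 k224 7 10)))))))] (.c k16 (.q k3 [(.s k2 k1 0 (.s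
  k21 k63 6 (.s k22 k62 5 (.s k60 k41 6 (.d k20 k23 k40 0 5))))), (.s k63 k21 6 (.s k7 k11 1 (.s k23
  k43 5 (.s k39 k55 3 (.s k27 k51 5 (.d k31 k19 k47 1 3)))))), (.s k2 k1 0 (.s k62 k22 5 (.s k86
  k254 13 (.s k106 k234 7 (.s k194 k150 13 (.d k66 k126 k130 5 7))))))] .n) (.c k21 (.q k2 [(.s k86
  k254 13 (.s k106 k234 7 (.s k66 k126 5 (.s k194 k130 7 (.d k62 k22 k150 5 13))))), (.s k3 k1 0 (.s
  k22 k62 5 (.s k7 k11 1 (.s k37 k52 4 (.s k48 k26 6 (.d k32 k16 k47 3 2))))))] (.c k22 (.l (.s k3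
  k1 0 (.s k86 k254 13 (.s k106 k234 7 (.s k66 k126 5 (.s k192 k129 8 (.s k128 k64 7 (.d k149 k191
  k63 6 14)))))))) (.c k62 (.f k3 k1 0 (.l (.s k86 k254 13 (.s k7 k11 1 (.s k165 k244 12 (.s k160
  k175 2 (.s k240 k80 11 (.s k161 k82 12 (.d k169 k252 k173 14 1))))))))) .n))) (.c k26 (.q k154
  [(.s k138 k186 3 (.s k207 k69 10 (.s k48 k101 14 (.s k32 k16 3 (.s k47 k37 2 (.d k63 k31 k21 3
  6)))))), (.s k106 k234 7 (.s k202 k58 11 (.s k138 k186 3 (.s k207 k69 10 (.s k143 k79 7 (.s k128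
  k133 2 (.d k192 k197 k64 2 7))))))), (.s k63 k21 6 (.s k106 k234 7 (.s k58 k202 11 (.s k48 k53 2
  (.s k101 k207 14 (.d k32 k16 k239 3 10)))))), (.s k63 k21 6 (.s k106 k234 7 (.s k192 k149 14 (.s
  k128 k64 7 (.s k133 k74 10 (.d k138 k143 k186 2 3))))))] (.c k138 (.l (.s k63 k21 6 (.s k106 k234
  7 (.s k202 k58 11 (.s k192 k149 14 (.s k207 k197 2 (.s k101 k48 14 (.d k111 k96 k159 2 11))))))))
  .n)) (.c k31 (.q k3 [(.s k2 k1 0 (.s k21 k63 6 (.s k22 k62 5 (.s k60 k41 6 (.d k20 k23 k40 0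
  5))))), (.s k2 k1 0 (.s k22 k62 5 (.s k7 k11 1 (.s k37 k52 4 (.s k32 k47 2 (.d k48 k16 k26 3
  6)))))), (.s k63 k21 6 (.s k43 k23 5 (.s k106 k234 7 (.s k169 k232 8 (.s k252 k86 14 (.d k168 k171
  k84 0 13))))))] (.c k22 (.l (.s k2 k1 0 (.s k63 k21 6 (.s k86 k254 13 (.s k23 k43 5 (.s k149 k212
  8 (.d k106 k234 k192 7 14))))))) (.c k149 (.q k208 [(.s k2 k1 0 (.s k21 k63 6 (.s k22 k62 5 (.s
  k60 k41 6 (.d k20 k23 k40 0 5))))), (.s k2 k1 0 (.s k22 k62 5 (.s k7 k11 1 (.s k37 k52 4 (.s k32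
  k47 2 (.d k48 k16 k26 3 6)))))), (.s k63 k21 6 (.s k43 k23 5 (.s k106 k234 7 (.s k169 k232 8 (.s
  k168 k171 0 (.d k252 k86 k84 14 13))))))] (.c k22 (.l (.s k2 k1 0 (.s k63 k21 6 (.s k86 k254 13
  (.s k252 k169 14 (.s k106 k234 7 (.d k126 k189 k66 8 5))))))) .n)) (.c k208 (.q k149 [(.s k106
  k234 7 (.d k63 k192 k21 14 6)), (.s k2 k1 0 (.s k22 k62 5 (.s k86 k254 13 (.s k60 k41 6 (.s k20
  k40 5 (.d k23 k21 k212 0 8))))))] (.c k21 (.l (.s k106 k234 7 (.s k192 k63 14 (.d k128 k191 k64 6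
  7)))) .n)) .n)))) (.c k32 (.q k154 [(.s k63 k21 6 (.s k106 k234 7 (.s k58 k202 11 (.s k138 k186 3
  (.s k207 k69 10 (.d k48 k53 k101 2 14)))))), (.s k63 k21 6 (.s k138 k186 3 (.s k207 k69 10 (.s
  k143 k79 7 (.s k159 k111 11 (.s k128 k133 2 (.d k191 k175 k149 3 6))))))), (.s k63 k21 6 (.s k106
  k234 7 (.s k192 k149 14 (.s k128 k64 7 (.s k133 k74 10 (.d k138 k143 k186 2 3)))))), (.s k63 k21 6
  (.s k106 k234 7 (.s k202 k58 11 (.s k192 k149 14 (.s k207 k197 2 (.s k101 k48 14 (.d k111 k96 k159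
  2 11))))))), (.s k106 k234 7 (.s k202 k58 11 (.s k138 k186 3 (.s k207 k69 10 (.s k143 k79 7 (.s
  k128 k133 2 (.d k192 k197 k64 2 7)))))))] (.c k186 (.l (.s k63 k21 6 (.s k106 k234 7 (.s k58 k202
  11 (.s k48 k53 2 (.s k101 k207 14 (.s k192 k149 14 (.d k96 k111 k144 2 11)))))))) .n)) (.c k37 (.q
  k154 [(.s k63 k21 6 (.s k138 k186 3 (.s k207 k69 10 (.s k159 k111 11 (.s k149 k144 2 (.d k106 k234
  k192 7 14)))))), (.s k106 k234 7 (.s k202 k58 11 (.s k138 k186 3 (.s k207 k69 10 (.s k143 k79 7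
  (.s k128 k133 2 (.d k192 k197 k64 2 7))))))), (.s k63 k21 6 (.s k106 k234 7 (.s k202 k58 11 (.s
  k192 k149 14 (.s k207 k197 2 (.s k111 k159 11 (.d k101 k96 k48 2 14))))))), (.s k63 k21 6 (.s k47
  k31 3 (.s k138 k186 3 (.s k207 k69 10 (.s k111 k159 11 (.s k239 k175 7 (.d k101 k48 k32 14
  10))))))), (.s k63 k21 6 (.s k106 k234 7 (.s k192 k149 14 (.s k128 k64 7 (.s k133 k74 10 (.d k138
  k143 k186 2 3))))))] (.c k5 (.l (.s k106 k234 7 (.s k58 k202 11 (.s k138 k186 3 (.s k207 k69 10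
  (.s k48 k101 14 (.d k63 k53 k21 2 6))))))) .n)) (.c k47 (.q k154 [(.s k21 k63 6 (.s k138 k186 3
  (.s k207 k69 10 (.s k48 k101 14 (.s k16 k32 3 (.d k26 k31 k37 2 6)))))), (.s k63 k21 6 (.s k106
  k234 7 (.s k192 k149 14 (.s k128 k64 7 (.s k133 k74 10 (.d k138 k143 k186 2 3)))))), (.s k63 k21 6
  (.s k106 k234 7 (.s k58 k202 11 (.s k48 k53 2 (.s k101 k207 14 (.d k32 k239 k16 10 3)))))), (.s
  k106 k234 7 (.s k202 k58 11 (.s k138 k186 3 (.s k207 k69 10 (.s k143 k79 7 (.s k128 k133 2 (.d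
  k192 k197 k64 2 7)))))))] (.c k138 (.l (.s k63 k21 6 (.s k106 k234 7 (.s k202 k58 11 (.s k192 k149
  14 (.s k207 k197 2 (.s k101 k48 14 (.d k111 k96 k159 2 11)))))))) .n)) (.c k63 (.q k2 [(.s k62 k22
  5 (.s k254 k86 13 (.s k106 k234 7 (.s k150 k194 13 (.d k190 k130 k126 5 7))))), (.s k3 k1 0 (.s
  k22 k62 5 (.s k7 k11 1 (.s k37 k52 4 (.s k48 k26 6 (.d k32 k47 k16 2 3))))))] (.c k22 (.f k3 k1 0
  (.l (.s k86 k254 13 (.s k7 k11 1 (.s k165 k244 12 (.s k160 k175 2 (.s k240 k80 11 (.s k161 k82 12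
  (.d k169 k252 k173 14 1))))))))) (.c k62 (.f k3 k1 0 (.l (.s k86 k254 13 (.s k7 k11 1 (.s k165
  k244 12 (.s k160 k175 2 (.s k240 k80 11 (.s k161 k82 12 (.d k169 k252 k173 14 1))))))))) (.c k127
  (.q k191 [(.s k62 k22 5 (.s k254 k86 13 (.s k106 k234 7 (.s k150 k194 13 (.d k190 k130 k126 5
  7))))), (.s k3 k1 0 (.s k22 k62 5 (.s k7 k11 1 (.s k37 k52 4 (.s k48 k26 6 (.d k32 k47 k16 2
  3)))))), (.s k3 k1 0 (.s k86 k254 13 (.s k106 k234 7 (.s k128 k149 6 (.s k192 k64 7 (.d k66 k126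
  k129 5 8))))))] .n) (.c k191 (.q k127 [(.s k62 k22 5 (.s k254 k86 13 (.s k106 k234 7 (.s k150 k194
  13 (.d k190 k130 k126 5 7))))), (.s k3 k1 0 (.s k22 k62 5 (.s k7 k11 1 (.s k37 k52 4 (.s k48 k26 6
  (.d k32 k47 k16 2 3)))))), (.s k3 k1 0 (.s k86 k254 13 (.s k252 k169 14 (.s k84 k168 13 (.s k106
  k234 7 (.d k85 k87 k64 0 6))))))] .n) .n))))) (.c k96 (.l (.s k63 k21 6 (.s k47 k31 3 (.s k32 k37
  2 (.s k239 k101 10 (.s k106 k234 7 (.s k165 k224 10 (.d k175 k111 k160 7 2)))))))) (.c k101 (.f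
  k63 k21 6 (.l (.s k47 k31 3 (.s k106 k234 7 (.s k165 k224 10 (.s k160 k175 2 (.s k240 k80 11 (.s
  k181 k122 10 (.d k149 k192 k133 14 3))))))))) (.c k106 (.f k63 k21 6 (.q k207 [(.s k47 k31 3 (.s
  k32 k37 2 (.s k101 k239 10 (.d k48 k16 k154 3 14)))), (.s k138 k69 10 (.s k143 k79 7 (.s k159 k111
  11 (.s k128 k133 2 (.d k191 k175 k149 3 6))))), (.s k138 k69 10 (.s k47 k31 3 (.s k111 k159 11 (.s
  k175 k239 7 (.s k154 k186 3 (.s k165 k160 2 (.d k143 k176 k79 6 7)))))))] (.c k74 (.q k122 [(.s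
  k47 k31 3 (.s k32 k37 2 (.s k101 k239 10 (.d k48 k16 k154 3 14)))), (.s k143 k79 7 (.s k159 k111
  11 (.s k240 k181 10 (.s k160 k80 11 (.d k175 k165 k191 2 3)))))] (.c k101 (.l (.s k47 k31 3 (.s
  k111 k159 11 (.s k175 k239 7 (.s k240 k181 10 (.d k160 k165 k80 2 11)))))) (.c k138 (.q k202 [(.s
  k47 k31 3 (.s k32 k37 2 (.s k101 k239 10 (.d k48 k16 k154 3 14)))), (.s k143 k79 7 (.s k159 k111
  11 (.s k240 k181 10 (.s k160 k80 11 (.d k175 k165 k191 2 3)))))] (.c k101 (.l (.s k47 k31 3 (.s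
  k111 k159 11 (.s k175 k239 7 (.s k240 k181 10 (.d k160 k165 k80 2 11)))))) .n)) (.c k202 (.l (.s
  k138 k69 10 (.s k47 k31 3 (.s k32 k37 2 (.s k101 k239 10 (.d k48 k16 k154 3 14)))))) .n)))) (.c
  k122 (.q k74 [(.s k69 k138 10 (.d k79 k64 k143 2 7)), (.s k47 k31 3 (.s k32 k37 2 (.s k101 k239 10
  (.d k48 k16 k154 3 14))))] .n) (.c k149 (.l (.s k138 k69 10 (.s k154 k186 3 (.s k48 k101 14 (.s
  k32 k16 3 (.d k37 k26 k47 6 2)))))) .n))))) (.c k111 (.f k63 k21 6 (.l (.s k47 k31 3 (.s k32 k37 2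
  (.s k106 k234 7 (.s k224 k165 10 (.s k160 k96 7 (.s k240 k80 11 (.d k192 k208 k149 3 14)))))))))
  (.c k149 (.q k3 [(.s k2 k1 0 (.s k21 k63 6 (.s k22 k62 5 (.s k60 k41 6 (.d k20 k23 k40 0 5))))),
  (.s k63 k21 6 (.s k7 k11 1 (.s k23 k43 5 (.s k39 k55 3 (.s k27 k51 5 (.d k31 k19 k47 1 3)))))),
  (.s k2 k1 0 (.s k22 k62 5 (.s k7 k11 1 (.s k37 k52 4 (.s k48 k26 6 (.d k32 k47 k16 2 3))))))] (.c
  k31 (.q k208 [(.s k2 k1 0 (.s k21 k63 6 (.s k22 k62 5 (.s k60 k41 6 (.d k20 k23 k40 0 5))))), (.s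
  k2 k1 0 (.s k22 k62 5 (.s k7 k11 1 (.s k37 k52 4 (.s k32 k47 2 (.d k48 k16 k26 3 6)))))), (.s k63
  k21 6 (.s k43 k23 5 (.s k106 k234 7 (.s k169 k232 8 (.s k168 k171 0 (.d k252 k86 k84 14 13))))))]
  (.c k22 (.l (.s k2 k1 0 (.s k63 k21 6 (.s k86 k254 13 (.s k252 k169 14 (.s k106 k234 7 (.d k126
  k189 k66 8 5))))))) .n)) (.c k208 (.q k31 [(.d k63 k47 k21 3 6), (.s k2 k1 0 (.s k22 k62 5 (.s k7
  k11 1 (.s k37 k52 4 (.s k48 k26 6 (.d k32 k47 k16 2 3))))))] (.c k47 (.l (.s k1 k2 0 (.s k21 k63 6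
  (.s k41 k61 5 (.s k11 k7 1 (.d k26 k16 k56 2 4)))))) .n)) .n))) (.c k160 (.f k63 k21 6 (.l (.s k47
  k31 3 (.s k32 k37 2 (.s k101 k239 10 (.s k106 k234 7 (.s k111 k96 2 (.s k207 k159 11 (.d k48 k16
  k154 3 14))))))))) (.c k165 (.f k63 k21 6 (.l (.s k47 k31 3 (.s k32 k37 2 (.s k101 k239 10 (.s
  k106 k234 7 (.s k111 k96 2 (.s k207 k159 11 (.d k48 k16 k154 3 14))))))))) (.c k175 (.l (.s k63
  k21 6 (.s k47 k31 3 (.s k32 k37 2 (.s k101 k239 10 (.s k106 k234 7 (.s k224 k165 10 (.d k96 k111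
  k160 2 7)))))))) (.c k208 (.q k3 [(.s k2 k1 0 (.s k21 k63 6 (.s k22 k62 5 (.s k60 k41 6 (.d k20
  k23 k40 0 5))))), (.s k63 k21 6 (.s k7 k11 1 (.s k23 k43 5 (.s k39 k55 3 (.s k27 k51 5 (.d k31 k19
  k47 1 3)))))), (.s k2 k1 0 (.s k22 k62 5 (.s k7 k11 1 (.s k37 k52 4 (.s k48 k26 6 (.d k32 k47 k16
  2 3))))))] (.c k31 (.q k149 [(.s k106 k234 7 (.d k63 k192 k21 14 6)), (.s k2 k1 0 (.s k22 k62 5
  (.s k86 k254 13 (.s k60 k41 6 (.s k20 k40 5 (.d k23 k21 k212 0 8))))))] (.c k21 (.l (.s k106 k234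
  7 (.s k192 k63 14 (.d k128 k191 k64 6 7)))) .n)) (.c k149 (.q k31 [(.d k63 k47 k21 3 6), (.s k2 k1
  0 (.s k22 k62 5 (.s k7 k11 1 (.s k37 k52 4 (.s k48 k26 6 (.d k32 k47 k16 2 3))))))] (.c k47 (.l
  (.s k1 k2 0 (.s k21 k63 6 (.s k41 k61 5 (.s k11 k7 1 (.d k26 k16 k56 2 4)))))) .n)) .n))) (.c k224
  (.q k154 [(.s k138 k186 3 (.s k207 k69 10 (.s k48 k101 14 (.s k32 k16 3 (.d k37 k47 k26 2 6))))),
  (.s k63 k21 6 (.s k106 k234 7 (.s k202 k58 11 (.s k192 k149 14 (.s k207 k197 2 (.d k138 k186 k69 3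
  10)))))), (.s k63 k21 6 (.s k47 k31 3 (.s k32 k37 2 (.s k106 k234 7 (.s k58 k202 11 (.d k48 k53
  k16 2 3))))))] (.c k138 (.l (.s k63 k21 6 (.s k47 k31 3 (.s k32 k37 2 (.s k101 k239 10 (.d k48 k16
  k207 3 14)))))) .n)) (.c k229 (.l (.s k63 k21 6 (.s k47 k31 3 (.s k32 k37 2 (.s k101 k239 10 (.s
  k106 k234 7 (.s k224 k165 10 (.d k96 k111 k160 2 7)))))))) (.c k234 (.f k63 k21 6 (.q k2 [(.s k3
  k1 0 (.s k22 k62 5 (.s k43 k23 5 (.d k41 k40 k60 0 6)))), (.s k22 k62 5 (.s k47 k31 3 (.s k37 k32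
  2 (.s k7 k52 4 (.d k3 k1 k11 0 1))))), (.s k3 k1 0 (.s k86 k254 13 (.s k23 k43 5 (.s k149 k212 8
  (.s k192 k106 14 (.d k128 k191 k64 6 7))))))] (.c k1 (.l (.s k22 k62 5 (.s k47 k31 3 (.s k37 k32 2
  (.s k7 k52 4 (.s k3 k11 1 (.s k41 k60 6 (.d k43 k40 k23 0 5)))))))) (.c k3 (.l (.s k62 k22 5 (.s
  k31 k47 3 (.s k60 k61 0 (.s k30 k45 4 (.s k46 k14 3 (.d k29 k28 k12 0 4))))))) (.c k192 (.q k213
  [(.s k3 k1 0 (.s k22 k62 5 (.s k43 k23 5 (.d k41 k40 k60 0 6)))), (.s k22 k62 5 (.s k47 k31 3 (.s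
  k37 k32 2 (.s k7 k52 4 (.d k3 k1 k11 0 1))))), (.s k3 k1 0 (.s k7 k11 1 (.s k23 k43 5 (.s k39 k55
  3 (.s k27 k51 5 (.d k31 k19 k47 1 3))))))] (.c k1 (.l (.s k22 k62 5 (.s k47 k31 3 (.s k37 k32 2
  (.s k7 k52 4 (.s k3 k11 1 (.s k41 k60 6 (.d k43 k40 k23 0 5)))))))) (.c k3 (.l (.s k62 k22 5 (.s
  k31 k47 3 (.s k60 k61 0 (.s k30 k45 4 (.s k46 k14 3 (.d k29 k28 k12 0 4))))))) .n))) (.c k213 (.q
  k192 [(.s k128 k64 7 (.d k149 k191 k106 6 14)), (.s k3 k1 0 (.s k22 k62 5 (.s k41 k60 6 (.d k43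
  k40 k23 0 5))))] (.c k85 (.l (.s k149 k106 14 (.d k128 k64 k191 7 6))) (.c k149 (.q k85 [(.s k3 k1
  0 (.s k22 k62 5 (.s k41 k60 6 (.d k43 k40 k23 0 5)))), (.s k86 k254 13 (.s k84 k87 0 (.s k252 k168
  13 (.d k3 k1 k169 0 14)))), (.s k64 k128 7 (.s k62 k22 5 (.s k86 k254 13 (.s k106 k127 6 (.s k194
  k150 13 (.d k66 k126 k130 5 7))))))] (.c k31 (.q k208 [(.s k3 k1 0 (.s k22 k62 5 (.s k41 k60 6 (.d
  k43 k40 k23 0 5)))), (.s k64 k128 7 (.s k240 k224 3 (.s k80 k160 11 (.s k96 k112 3 (.d k144 k16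
  k48 7 11)))))] (.c k16 (.q k26 [(.s k3 k1 0 (.s k22 k62 5 (.s k11 k7 1 (.d k41 k56 k60 4 6)))),
  (.s k64 k128 7 (.s k37 k48 6 (.s k47 k32 2 (.s k106 k127 6 (.d k224 k240 k165 3 10)))))] .n) (.c
  k26 (.q k16 [(.s k48 k32 3 (.d k144 k80 k96 7 11)), (.s k3 k1 0 (.s k22 k62 5 (.s k41 k60 6 (.d
  k43 k40 k23 0 5))))] (.c k154 (.q k218 [(.s k48 k32 3 (.d k144 k80 k96 7 11)), (.s k3 k1 0 (.s k22
  k62 5 (.s k41 k60 6 (.d k43 k40 k23 0 5))))] (.c k144 (.q k159 [(.s k207 k111 11 (.d k240 k224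
  k229 3 6)), (.s k3 k1 0 (.s k22 k62 5 (.s k41 k60 6 (.d k43 k40 k23 0 5))))] .n) (.c k159 (.l (.s
  k144 k80 7 (.d k48 k32 k96 3 11))) .n))) (.c k218 (.l (.s k154 k223 10 (.s k48 k32 3 (.d k144 k80
  k96 7 11)))) .n))) .n))) (.c k208 (.l (.s k31 k47 3 (.s k3 k1 0 (.s k22 k62 5 (.s k41 k60 6 (.d
  k43 k40 k23 0 5)))))) .n))) .n))) .n)))))) (.c k239 (.f k63 k21 6 (.l (.s k47 k31 3 (.s k32 k37 2
  (.s k106 k234 7 (.s k224 k165 10 (.s k160 k96 7 (.s k240 k80 11 (.d k192 k208 k149 3 14)))))))))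
  .n))))))))))))))))))))))

def t10 : T TT 256 :=
  (.q k170 [] (.c k1 t10_1 (.c k2 t10_2 (.c k3 t10_3 (.c k4 t10_4 (.c k5 t10_5 (.c k6 t10_6 (.c k7
  t10_7 (.c k8 t10_8 (.c k9 t10_9 (.c k11 t10_11 (.c k12 t10_12 (.c k13 t10_13 (.c k14 t10_14 (.c
  k16 t10_16 (.c k17 t10_17 (.c k18 t10_18 (.c k19 t10_19 (.c k20 t10_20 (.c k21 t10_21 (.c k22
  t10_22 (.c k23 t10_23 (.c k24 t10_24 (.c k25 t10_25 (.c k26 t10_26 (.c k27 t10_27 (.c k28 t10_28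
  (.c k29 t10_29 (.c k30 t10_30 (.c k31 t10_31 (.c k32 t10_32 (.c k33 t10_33 (.c k34 t10_34 (.c k35
  t10_35 (.c k36 t10_36 (.c k37 t10_37 (.c k38 t10_38 (.c k39 t10_39 (.c k40 t10_40 (.c k41 t10_41
  (.c k42 t10_42 (.c k43 t10_43 (.c k44 t10_44 (.c k45 t10_45 (.c k46 t10_46 (.c k47 t10_47 (.c k48
  t10_48 (.c k49 t10_49 (.c k50 t10_50 (.c k51 t10_51 (.c k52 t10_52 (.c k53 t10_53 (.c k54 t10_54
  (.c k55 t10_55 (.c k56 t10_56 (.c k57 t10_57 (.c k58 t10_58 (.c k59 t10_59 (.c k60 t10_60 (.c k61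
  t10_61 (.c k62 t10_62 (.c k63 t10_63 (.c k64 t10_64 (.c k65 t10_65 (.c k66 t10_66 (.c k67 t10_67
  (.c k68 t10_68 (.c k69 t10_69 (.c k70 t10_70 (.c k71 t10_71 (.c k72 t10_72 (.c k73 t10_73 (.c k74
  t10_74 (.c k75 t10_75 (.c k76 t10_76 (.c k77 t10_77 (.c k78 t10_78 (.c k79 t10_79 (.c k80 t10_80
  (.c k81 t10_81 (.c k82 t10_82 (.c k83 t10_83 (.c k84 t10_84 (.c k85 t10_85 (.c k86 t10_86 (.c k87
  t10_87 (.c k88 t10_88 (.c k89 t10_89 (.c k91 t10_91 (.c k92 t10_92 (.c k93 t10_93 (.c k94 t10_94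
  (.c k95 t10_95 (.c k96 t10_96 (.c k97 t10_97 (.c k98 t10_98 (.c k99 t10_99 (.c k100 t10_100 (.c
  k101 t10_101 (.c k102 t10_102 (.c k103 t10_103 (.c k104 t10_104 (.c k105 t10_105 (.c k106 t10_106
  (.c k107 t10_107 (.c k108 t10_108 (.c k109 t10_109 (.c k110 t10_110 (.c k111 t10_111 (.c k112
  t10_112 (.c k113 t10_113 (.c k114 t10_114 (.c k115 t10_115 (.c k116 t10_116 (.c k117 t10_117 (.c
  k118 t10_118 (.c k119 t10_119 (.c k120 t10_120 (.c k121 t10_121 (.c k122 t10_122 (.c k123 t10_123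
  (.c k124 t10_124 (.c k125 t10_125 (.c k126 t10_126 (.c k127 t10_127 (.c k128 t10_128 (.c k129
  t10_129 (.c k130 t10_130 (.c k131 t10_131 (.c k132 t10_132 (.c k133 t10_133 (.c k134 t10_134 (.c
  k135 t10_135 (.c k136 t10_136 (.c k137 t10_137 (.c k138 t10_138 (.c k139 t10_139 (.c k140 t10_140
  (.c k141 t10_141 (.c k142 t10_142 (.c k143 t10_143 (.c k144 t10_144 (.c k145 t10_145 (.c k146
  t10_146 (.c k147 t10_147 (.c k148 t10_148 (.c k149 t10_149 (.c k150 t10_150 (.c k151 t10_151 (.c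
  k152 t10_152 (.c k153 t10_153 (.c k154 t10_154 (.c k155 t10_155 (.c k156 t10_156 (.c k157 t10_157
  (.c k158 t10_158 (.c k159 t10_159 (.c k160 t10_160 (.c k161 t10_161 (.c k162 t10_162 (.c k163
  t10_163 (.c k164 t10_164 (.c k165 t10_165 (.c k166 t10_166 (.c k167 t10_167 (.c k168 t10_168 (.c
  k169 t10_169 (.c k171 t10_171 (.c k172 t10_172 (.c k173 t10_173 (.c k174 t10_174 (.c k175 t10_175
  (.c k176 t10_176 (.c k177 t10_177 (.c k178 t10_178 (.c k179 t10_179 (.c k180 t10_180 (.c k181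
  t10_181 (.c k182 t10_182 (.c k183 t10_183 (.c k184 t10_184 (.c k185 t10_185 (.c k186 t10_186 (.c
  k187 t10_187 (.c k188 t10_188 (.c k189 t10_189 (.c k190 t10_190 (.c k191 t10_191 (.c k192 t10_192
  (.c k193 t10_193 (.c k194 t10_194 (.c k195 t10_195 (.c k196 t10_196 (.c k197 t10_197 (.c k198
  t10_198 (.c k199 t10_199 (.c k200 t10_200 (.c k201 t10_201 (.c k202 t10_202 (.c k203 t10_203 (.c
  k204 t10_204 (.c k205 t10_205 (.c k206 t10_206 (.c k207 t10_207 (.c k208 t10_208 (.c k209 t10_209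
  (.c k210 t10_210 (.c k211 t10_211 (.c k212 t10_212 (.c k213 t10_213 (.c k214 t10_214 (.c k215
  t10_215 (.c k216 t10_216 (.c k217 t10_217 (.c k218 t10_218 (.c k219 t10_219 (.c k220 t10_220 (.c
  k221 t10_221 (.c k222 t10_222 (.c k223 t10_223 (.c k224 t10_224 (.c k225 t10_225 (.c k226 t10_226
  (.c k227 t10_227 (.c k228 t10_228 (.c k229 t10_229 (.c k230 t10_230 (.c k231 t10_231 (.c k232
  t10_232 (.c k233 t10_233 (.c k234 t10_234 (.c k235 t10_235 (.c k236 t10_236 (.c k237 t10_237 (.c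
  k238 t10_238 (.c k239 t10_239 (.c k240 t10_240 (.c k241 t10_241 (.c k242 t10_242 (.c k243 t10_243
  (.c k244 t10_244 (.c k245 t10_245 (.c k246 t10_246 (.c k247 t10_247 (.c k248 t10_248 (.c k249
  t10_249 (.c k250 t10_250 (.c k251 t10_251 (.c k252 t10_252 (.c k253 t10_253 (.c k254 t10_254 (.c
  k255 t10_255 .n))))))))))))))))))))))))))))))))))))))))))))))))))))))))))))))))))))))))))))))))
  ))))))))))))))))))))))))))))))))))))))))))))))))))))))))))))))))))))))))))))))))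
  )))))))))))))))))))))))))))))))))))))))))))))))))))))))))))))))))))))))))))))))) ))))))))))))

theorem c10 : rootOK2 k15 k90 k10 t10 = true := by decide +kernel

def l : List Nat :=
  [k10.c]

theorem ok : AllQ k15.c k90.c l :=
  allQ_cons c10 (allQ_nil _ _)

end Pool.Agent.TTT.I02
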