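import Pool.Agent.TTT.Sym2

set_option autoImplicit false
set_option maxRecDepth 100000

namespace Pool.Agent.TTT.I03

def t11 : T TT 256 :=
  (.q k26 [(.s k10 k5 2 (.s k42 k58 3 (.s k21 k63 6 (.s k48 k37 6 (.d k16 k31 k32 2 3)))))] (.c k5
  (.q k12 [(.s k13 k14 0 (.s k37 k48 6 (.s k25 k49 5 (.s k51 k38 6 (.d k27 k24 k39 0 5))))), (.s k4
  k8 1 (.s k48 k37 6 (.s k32 k16 3 (.s k36 k24 5 (.s k20 k52 3 (.d k40 k44 k60 1 5)))))), (.s k4 k8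
  1 (.s k14 k13 0 (.s k38 k50 5 (.s k21 k55 4 (.s k63 k42 6 (.d k31 k16 k47 2 3))))))] (.c k169 (.q
  k248 [(.s k13 k14 0 (.s k37 k48 6 (.s k25 k49 5 (.s k51 k38 6 (.d k27 k24 k39 0 5))))), (.s k4 k8
  1 (.s k48 k37 6 (.s k32 k16 3 (.s k36 k24 5 (.s k20 k52 3 (.d k40 k44 k60 1 5)))))), (.s k4 k8 1
  (.s k14 k13 0 (.s k38 k50 5 (.s k21 k55 4 (.s k63 k42 6 (.d k31 k16 k47 2 3))))))] .n) (.c k248
  (.q k169 [(.s k13 k14 0 (.s k37 k48 6 (.s k25 k49 5 (.s k51 k38 6 (.d k27 k24 k39 0 5))))), (.s k4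
  k8 1 (.s k48 k37 6 (.s k32 k16 3 (.s k36 k24 5 (.s k20 k52 3 (.d k40 k44 k60 1 5)))))), (.s k4 k8
  1 (.s k14 k13 0 (.s k38 k50 5 (.s k21 k55 4 (.s k63 k42 6 (.d k31 k16 k47 2 3))))))] .n) .n))) (.c
  k10 (.f k48 k37 6 (.q k8 [(.s k12 k4 1 (.s k14 k13 0 (.s k38 k50 5 (.s k25 k51 6 (.d k24 k27 k36 0
  5))))), (.s k12 k4 1 (.s k16 k32 3 (.s k24 k36 5 (.s k40 k56 3 (.d k20 k28 k60 1 5))))), (.s k16
  k32 3 (.s k21 k31 2 (.s k42 k63 6 (.s k25 k59 4 (.s k17 k29 1 (.s k51 k34 4 (.d k27 k24 k39 0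
  5)))))))] (.c k12 (.l (.s k16 k32 3 (.s k21 k31 2 (.s k42 k63 6 (.s k25 k59 4 (.s k27 k24 0 (.s
  k51 k39 5 (.d k17 k29 k34 1 4)))))))) (.c k24 (.l (.s k12 k4 1 (.s k16 k32 3 (.s k14 k13 0 (.s k38
  k50 5 (.s k25 k51 6 (.s k42 k59 4 (.d k21 k63 k31 6 2)))))))) (.c k169 (.q k248 [(.s k12 k4 1 (.s
  k14 k13 0 (.s k38 k50 5 (.s k25 k51 6 (.d k24 k27 k36 0 5))))), (.s k16 k32 3 (.s k168 k88 11 (.s
  k84 k252 13 (.s k152 k220 9 (.s k204 k100 13 (.d k136 k184 k68 3 9))))))] (.c k170 (.q k250 [(.s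
  k12 k4 1 (.s k14 k13 0 (.s k38 k50 5 (.s k25 k51 6 (.d k24 k27 k36 0 5))))), (.s k16 k32 3 (.s
  k168 k88 11 (.s k84 k252 13 (.s k152 k220 9 (.s k204 k100 13 (.d k136 k184 k68 3 9))))))] (.c k168
  (.q k171 [(.s k12 k4 1 (.s k14 k13 0 (.s k38 k50 5 (.s k25 k51 6 (.d k24 k27 k36 0 5))))), (.s k12
  k4 1 (.s k16 k32 3 (.s k24 k36 5 (.s k40 k56 3 (.d k20 k28 k60 1 5))))), (.s k16 k32 3 (.s k21 k31
  2 (.s k42 k63 6 (.s k25 k59 4 (.s k17 k29 1 (.s k51 k34 4 (.d k27 k24 k39 0 5)))))))] (.c k12 (.l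
  (.s k16 k32 3 (.s k21 k31 2 (.s k42 k63 6 (.s k25 k59 4 (.s k27 k24 0 (.s k51 k39 5 (.d k17 k29
  k34 1 4)))))))) (.c k24 (.l (.s k12 k4 1 (.s k16 k32 3 (.s k14 k13 0 (.s k38 k50 5 (.s k25 k51 6
  (.s k42 k59 4 (.d k21 k63 k31 6 2)))))))) .n))) (.c k171 (.l (.s k168 k88 11 (.s k12 k4 1 (.s k16
  k32 3 (.s k24 k36 5 (.s k40 k56 3 (.d k20 k28 k60 1 5))))))) .n))) (.c k250 (.q k170 [(.s k12 k4 1
  (.s k16 k32 3 (.s k24 k36 5 (.s k40 k56 3 (.d k20 k28 k60 1 5))))), (.s k12 k4 1 (.s k85 k255 14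
  (.s k89 k251 12 (.s k243 k166 14 (.d k81 k93 k162 1 12))))), (.s k16 k32 3 (.s k85 k255 14 (.s
  k154 k223 10 (.s k207 k101 14 (.d k138 k186 k69 3 10)))))] .n) .n))) (.c k170 (.q k250 [(.s k12 k4
  1 (.s k14 k13 0 (.s k38 k50 5 (.s k25 k51 6 (.d k24 k27 k36 0 5))))), (.s k12 k4 1 (.s k16 k32 3
  (.s k24 k36 5 (.s k40 k56 3 (.d k20 k28 k60 1 5))))), (.s k16 k32 3 (.s k21 k31 2 (.s k42 k63 6
  (.s k25 k59 4 (.s k17 k29 1 (.s k51 k34 4 (.d k27 k24 k39 0 5)))))))] (.c k12 (.l (.s k16 k32 3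
  (.s k21 k31 2 (.s k42 k63 6 (.s k25 k59 4 (.s k27 k24 0 (.s k51 k39 5 (.d k17 k29 k34 1 4))))))))
  (.c k24 (.l (.s k12 k4 1 (.s k16 k32 3 (.s k14 k13 0 (.s k38 k50 5 (.s k25 k51 6 (.s k42 k59 4 (.d
  k21 k63 k31 6 2)))))))) (.c k169 (.q k248 [(.s k12 k4 1 (.s k14 k13 0 (.s k38 k50 5 (.s k25 k51 6
  (.d k24 k27 k36 0 5))))), (.s k16 k32 3 (.s k168 k88 11 (.s k84 k252 13 (.s k152 k220 9 (.s k204
  k100 13 (.d k136 k184 k68 3 9))))))] (.c k168 (.q k171 [(.s k12 k4 1 (.s k14 k13 0 (.s k38 k50 5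
  (.s k25 k51 6 (.d k24 k27 k36 0 5))))), (.s k12 k4 1 (.s k16 k32 3 (.s k24 k36 5 (.s k40 k56 3 (.d
  k20 k28 k60 1 5))))), (.s k16 k32 3 (.s k21 k31 2 (.s k42 k63 6 (.s k25 k59 4 (.s k17 k29 1 (.s
  k51 k34 4 (.d k27 k24 k39 0 5)))))))] (.c k12 (.l (.s k16 k32 3 (.s k21 k31 2 (.s k42 k63 6 (.s
  k25 k59 4 (.s k27 k24 0 (.s k51 k39 5 (.d k17 k29 k34 1 4)))))))) (.c k24 (.l (.s k12 k4 1 (.s k16
  k32 3 (.s k14 k13 0 (.s k38 k50 5 (.s k25 k51 6 (.s k42 k59 4 (.d k21 k63 k31 6 2)))))))) .n)))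
  (.c k171 (.l (.s k168 k88 11 (.s k12 k4 1 (.s k16 k32 3 (.s k24 k36 5 (.s k40 k56 3 (.d k20 k28
  k60 1 5))))))) .n))) (.c k248 (.q k169 [(.s k12 k4 1 (.s k14 k13 0 (.s k38 k50 5 (.s k25 k51 6 (.d
  k24 k27 k36 0 5))))), (.s k12 k4 1 (.s k16 k32 3 (.s k24 k36 5 (.s k40 k56 3 (.d k20 k28 k60 1
  5))))), (.s k16 k32 3 (.s k21 k31 2 (.s k42 k63 6 (.s k25 k59 4 (.s k17 k29 1 (.s k51 k34 4 (.d
  k27 k24 k39 0 5)))))))] (.c k12 (.l (.s k16 k32 3 (.s k21 k31 2 (.s k42 k63 6 (.s k25 k59 4 (.s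
  k27 k24 0 (.s k51 k39 5 (.d k17 k29 k34 1 4)))))))) (.c k24 (.l (.s k12 k4 1 (.s k16 k32 3 (.s k14
  k13 0 (.s k38 k50 5 (.s k25 k51 6 (.s k42 k59 4 (.d k21 k63 k31 6 2)))))))) .n))) .n))))) (.c k248
  (.q k169 [(.s k12 k4 1 (.s k14 k13 0 (.s k38 k50 5 (.s k25 k51 6 (.d k24 k27 k36 0 5))))), (.s k12
  k4 1 (.s k16 k32 3 (.s k24 k36 5 (.s k40 k56 3 (.d k20 k28 k60 1 5))))), (.s k16 k32 3 (.s k21 k31
  2 (.s k42 k63 6 (.s k25 k59 4 (.s k17 k29 1 (.s k51 k34 4 (.d k27 k24 k39 0 5)))))))] (.c k12 (.l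
  (.s k16 k32 3 (.s k21 k31 2 (.s k42 k63 6 (.s k25 k59 4 (.s k27 k24 0 (.s k51 k39 5 (.d k17 k29
  k34 1 4)))))))) (.c k24 (.l (.s k12 k4 1 (.s k16 k32 3 (.s k14 k13 0 (.s k38 k50 5 (.s k25 k51 6
  (.s k42 k59 4 (.d k21 k63 k31 6 2)))))))) (.c k170 (.q k250 [(.s k12 k4 1 (.s k14 k13 0 (.s k38
  k50 5 (.s k25 k51 6 (.d k24 k27 k36 0 5))))), (.s k12 k4 1 (.s k16 k32 3 (.s k24 k36 5 (.s k40 k56
  3 (.d k20 k28 k60 1 5))))), (.s k16 k32 3 (.s k21 k31 2 (.s k42 k63 6 (.s k25 k59 4 (.s k17 k29 1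
  (.s k51 k34 4 (.d k27 k24 k39 0 5)))))))] (.c k12 (.l (.s k16 k32 3 (.s k21 k31 2 (.s k42 k63 6
  (.s k25 k59 4 (.s k27 k24 0 (.s k51 k39 5 (.d k17 k29 k34 1 4)))))))) (.c k24 (.l (.s k12 k4 1 (.s
  k16 k32 3 (.s k14 k13 0 (.s k38 k50 5 (.s k25 k51 6 (.s k42 k59 4 (.d k21 k63 k31 6 2))))))))
  .n))) (.c k250 (.q k170 [(.s k12 k4 1 (.s k255 k85 14 (.s k174 k93 12 (.s k166 k162 1 (.d k89 k251
  k243 12 14))))), (.s k12 k4 1 (.s k16 k32 3 (.s k24 k36 5 (.s k40 k56 3 (.d k20 k28 k60 1 5))))),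
  (.s k16 k32 3 (.s k85 k255 14 (.s k154 k223 10 (.s k207 k101 14 (.d k138 k186 k69 3 10)))))] (.c
  k249 (.l (.s k251 k89 12 (.s k12 k4 1 (.s k16 k32 3 (.s k24 k36 5 (.s k40 k56 3 (.d k20 k28 k60 1
  5))))))) (.c k251 (.q k249 [(.s k171 k168 0 (.s k12 k4 1 (.s k255 k85 14 (.s k3 k87 13 (.d k9 k6
  k89 2 11))))), (.s k12 k4 1 (.s k16 k32 3 (.s k24 k36 5 (.s k40 k56 3 (.d k20 k28 k60 1 5))))),
  (.s k16 k32 3 (.s k85 k255 14 (.s k154 k223 10 (.s k207 k101 14 (.d k138 k186 k69 3 10)))))] (.c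
  k91 (.l (.s k171 k168 0 (.s k12 k4 1 (.s k255 k85 14 (.s k3 k87 13 (.d k9 k6 k89 2 11)))))) (.c
  k171 (.q k91 [(.s k12 k4 1 (.s k89 k9 11 (.d k243 k167 k166 13 14))), (.s k12 k4 1 (.s k16 k32 3
  (.s k24 k36 5 (.s k40 k56 3 (.d k20 k28 k60 1 5))))), (.s k85 k255 14 (.s k89 k9 11 (.s k243 k167
  13 (.d k81 k93 k162 1 12))))] .n) .n))) .n))) .n))))) (.c k250 (.q k170 [(.s k12 k4 1 (.s k16 k32
  3 (.s k24 k36 5 (.s k40 k56 3 (.d k20 k28 k60 1 5))))), (.s k12 k4 1 (.s k85 k255 14 (.s k89 k251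
  12 (.s k243 k166 14 (.d k81 k93 k162 1 12))))), (.s k16 k32 3 (.s k85 k255 14 (.s k154 k223 10 (.s
  k207 k101 14 (.d k138 k186 k69 3 10)))))] (.c k169 (.q k248 [(.s k12 k4 1 (.s k16 k32 3 (.s k24
  k36 5 (.s k40 k56 3 (.d k20 k28 k60 1 5))))), (.s k12 k4 1 (.s k85 k255 14 (.s k89 k251 12 (.s
  k243 k166 14 (.d k81 k93 k162 1 12))))), (.s k16 k32 3 (.s k85 k255 14 (.s k154 k223 10 (.s k207
  k101 14 (.d k138 k186 k69 3 10)))))] .n) (.c k248 (.q k169 [(.s k12 k4 1 (.s k255 k85 14 (.s k174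
  k93 12 (.s k166 k162 1 (.d k89 k251 k243 12 14))))), (.s k12 k4 1 (.s k16 k32 3 (.s k24 k36 5 (.s
  k40 k56 3 (.d k20 k28 k60 1 5))))), (.s k16 k32 3 (.s k85 k255 14 (.s k154 k223 10 (.s k207 k101
  14 (.d k138 k186 k69 3 10)))))] (.c k249 (.l (.s k251 k89 12 (.s k12 k4 1 (.s k16 k32 3 (.s k24
  k36 5 (.s k40 k56 3 (.d k20 k28 k60 1 5))))))) (.c k251 (.q k249 [(.s k171 k168 0 (.s k12 k4 1 (.s
  k255 k85 14 (.s k3 k87 13 (.d k9 k6 k89 2 11))))), (.s k12 k4 1 (.s k16 k32 3 (.s k24 k36 5 (.s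
  k40 k56 3 (.d k20 k28 k60 1 5))))), (.s k16 k32 3 (.s k85 k255 14 (.s k154 k223 10 (.s k207 k101
  14 (.d k138 k186 k69 3 10)))))] (.c k91 (.l (.s k171 k168 0 (.s k12 k4 1 (.s k255 k85 14 (.s k3
  k87 13 (.d k9 k6 k89 2 11)))))) (.c k171 (.q k91 [(.s k12 k4 1 (.s k89 k9 11 (.d k243 k167 k166 13
  14))), (.s k12 k4 1 (.s k16 k32 3 (.s k24 k36 5 (.s k40 k56 3 (.d k20 k28 k60 1 5))))), (.s k85
  k255 14 (.s k89 k9 11 (.s k243 k167 13 (.d k81 k93 k162 1 12))))] .n) .n))) .n))) .n))) .n))))))))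
  (.c k16 (.l (.s k10 k5 2 (.s k42 k58 3 (.s k63 k21 6 (.s k37 k48 6 (.d k47 k32 k31 2 3)))))) (.c
  k21 (.q k12 [(.s k13 k14 0 (.s k37 k48 6 (.s k25 k49 5 (.s k27 k24 0 (.d k51 k39 k38 5 6))))), (.s
  k4 k8 1 (.s k48 k37 6 (.s k32 k16 3 (.s k36 k24 5 (.s k20 k52 3 (.d k40 k44 k60 1 5)))))), (.s k4
  k8 1 (.s k13 k14 0 (.s k5 k10 2 (.s k9 k1 1 (.d k6 k7 k3 0 2)))))] (.c k169 (.q k248 [(.s k13 k14
  0 (.s k37 k48 6 (.s k25 k49 5 (.s k27 k24 0 (.d k51 k39 k38 5 6))))), (.s k4 k8 1 (.s k48 k37 6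
  (.s k32 k16 3 (.s k36 k24 5 (.s k20 k52 3 (.d k40 k44 k60 1 5)))))), (.s k4 k8 1 (.s k13 k14 0 (.s
  k5 k10 2 (.s k9 k1 1 (.d k6 k7 k3 0 2)))))] .n) (.c k248 (.q k169 [(.s k13 k14 0 (.s k37 k48 6 (.s
  k25 k49 5 (.s k27 k24 0 (.d k51 k39 k38 5 6))))), (.s k4 k8 1 (.s k48 k37 6 (.s k32 k16 3 (.s k36
  k24 5 (.s k20 k52 3 (.d k40 k44 k60 1 5)))))), (.s k4 k8 1 (.s k13 k14 0 (.s k5 k10 2 (.s k9 k1 1
  (.d k6 k7 k3 0 2)))))] .n) .n))) (.c k31 (.q k12 [(.s k14 k13 0 (.s k38 k50 5 (.s k25 k51 6 (.s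
  k48 k37 6 (.d k24 k27 k36 0 5))))), (.s k4 k8 1 (.s k13 k14 0 (.s k5 k10 2 (.s k9 k1 1 (.d k6 k7
  k3 0 2))))), (.s k4 k8 1 (.s k48 k37 6 (.s k32 k16 3 (.s k36 k24 5 (.s k20 k52 3 (.d k40 k44 k60 1
  5))))))] (.c k149 (.q k208 [(.s k14 k13 0 (.s k38 k50 5 (.s k25 k51 6 (.s k48 k37 6 (.d k24 k27
  k36 0 5))))), (.s k4 k8 1 (.s k13 k14 0 (.s k5 k10 2 (.s k9 k1 1 (.d k6 k7 k3 0 2))))), (.s k4 k8
  1 (.s k48 k37 6 (.s k32 k16 3 (.s k36 k24 5 (.s k20 k52 3 (.d k40 k44 k60 1 5))))))] (.c k169 (.q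
  k248 [(.s k14 k13 0 (.s k38 k50 5 (.s k25 k51 6 (.s k48 k37 6 (.d k24 k27 k36 0 5))))), (.s k4 k8
  1 (.s k13 k14 0 (.s k5 k10 2 (.s k9 k1 1 (.d k6 k7 k3 0 2))))), (.s k4 k8 1 (.s k48 k37 6 (.s k32
  k16 3 (.s k36 k24 5 (.s k20 k52 3 (.d k40 k44 k60 1 5))))))] (.c k129 (.q k189 [(.s k14 k13 0 (.s
  k38 k50 5 (.s k25 k51 6 (.s k48 k37 6 (.d k24 k27 k36 0 5))))), (.s k4 k8 1 (.s k13 k14 0 (.s k5
  k10 2 (.s k9 k1 1 (.d k6 k7 k3 0 2))))), (.s k4 k8 1 (.s k48 k37 6 (.s k32 k16 3 (.s k36 k24 5 (.s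
  k20 k52 3 (.d k40 k44 k60 1 5))))))] .n) (.c k189 (.q k129 [(.s k14 k13 0 (.s k38 k50 5 (.s k25
  k51 6 (.s k48 k37 6 (.d k24 k27 k36 0 5))))), (.s k4 k8 1 (.s k13 k14 0 (.s k5 k10 2 (.s k9 k1 1
  (.d k6 k7 k3 0 2))))), (.s k4 k8 1 (.s k48 k37 6 (.s k32 k16 3 (.s k36 k24 5 (.s k20 k52 3 (.d k40
  k44 k60 1 5))))))] .n) .n))) (.c k248 (.q k169 [(.s k14 k13 0 (.s k38 k50 5 (.s k25 k51 6 (.s k48
  k37 6 (.d k24 k27 k36 0 5))))), (.s k4 k8 1 (.s k13 k14 0 (.s k5 k10 2 (.s k9 k1 1 (.d k6 k7 k3 0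
  2))))), (.s k4 k8 1 (.s k48 k37 6 (.s k32 k16 3 (.s k36 k24 5 (.s k20 k52 3 (.d k40 k44 k60 1
  5))))))] .n) .n))) (.c k169 (.q k248 [(.s k14 k13 0 (.s k38 k50 5 (.s k25 k51 6 (.s k48 k37 6 (.d
  k24 k27 k36 0 5))))), (.s k4 k8 1 (.s k13 k14 0 (.s k5 k10 2 (.s k9 k1 1 (.d k6 k7 k3 0 2))))),
  (.s k4 k8 1 (.s k48 k37 6 (.s k32 k16 3 (.s k36 k24 5 (.s k20 k52 3 (.d k40 k44 k60 1 5))))))] (.c
  k149 (.q k208 [(.s k14 k13 0 (.s k38 k50 5 (.s k25 k51 6 (.s k48 k37 6 (.d k24 k27 k36 0 5))))),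
  (.s k4 k8 1 (.s k13 k14 0 (.s k5 k10 2 (.s k9 k1 1 (.d k6 k7 k3 0 2))))), (.s k4 k8 1 (.s k48 k37
  6 (.s k32 k16 3 (.s k36 k24 5 (.s k20 k52 3 (.d k40 k44 k60 1 5))))))] (.c k129 (.q k189 [(.s k14
  k13 0 (.s k38 k50 5 (.s k25 k51 6 (.s k48 k37 6 (.d k24 k27 k36 0 5))))), (.s k4 k8 1 (.s k13 k14
  0 (.s k5 k10 2 (.s k9 k1 1 (.d k6 k7 k3 0 2))))), (.s k4 k8 1 (.s k48 k37 6 (.s k32 k16 3 (.s k36
  k24 5 (.s k20 k52 3 (.d k40 k44 k60 1 5))))))] .n) (.c k189 (.q k129 [(.s k14 k13 0 (.s k38 k50 5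
  (.s k25 k51 6 (.s k48 k37 6 (.d k24 k27 k36 0 5))))), (.s k4 k8 1 (.s k13 k14 0 (.s k5 k10 2 (.s
  k9 k1 1 (.d k6 k7 k3 0 2))))), (.s k4 k8 1 (.s k48 k37 6 (.s k32 k16 3 (.s k36 k24 5 (.s k20 k52 3
  (.d k40 k44 k60 1 5))))))] .n) .n))) (.c k208 (.q k149 [(.s k14 k13 0 (.s k38 k50 5 (.s k25 k51 6
  (.s k48 k37 6 (.d k24 k27 k36 0 5))))), (.s k4 k8 1 (.s k13 k14 0 (.s k5 k10 2 (.s k9 k1 1 (.d k6
  k7 k3 0 2))))), (.s k4 k8 1 (.s k48 k37 6 (.s k32 k16 3 (.s k36 k24 5 (.s k20 k52 3 (.d k40 k44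
  k60 1 5))))))] .n) .n))) (.c k208 (.q k149 [(.s k14 k13 0 (.s k38 k50 5 (.s k25 k51 6 (.s k48 k37
  6 (.d k24 k27 k36 0 5))))), (.s k4 k8 1 (.s k13 k14 0 (.s k5 k10 2 (.s k9 k1 1 (.d k6 k7 k3 0
  2))))), (.s k4 k8 1 (.s k48 k37 6 (.s k32 k16 3 (.s k36 k24 5 (.s k20 k52 3 (.d k40 k44 k60 1
  5))))))] (.c k169 (.q k248 [(.s k14 k13 0 (.s k38 k50 5 (.s k25 k51 6 (.s k48 k37 6 (.d k24 k27
  k36 0 5))))), (.s k4 k8 1 (.s k13 k14 0 (.s k5 k10 2 (.s k9 k1 1 (.d k6 k7 k3 0 2))))), (.s k4 k8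
  1 (.s k48 k37 6 (.s k32 k16 3 (.s k36 k24 5 (.s k20 k52 3 (.d k40 k44 k60 1 5))))))] .n) (.c k248
  (.q k169 [(.s k14 k13 0 (.s k38 k50 5 (.s k25 k51 6 (.s k48 k37 6 (.d k24 k27 k36 0 5))))), (.s k4
  k8 1 (.s k13 k14 0 (.s k5 k10 2 (.s k9 k1 1 (.d k6 k7 k3 0 2))))), (.s k4 k8 1 (.s k48 k37 6 (.s
  k32 k16 3 (.s k36 k24 5 (.s k20 k52 3 (.d k40 k44 k60 1 5))))))] .n) .n))) (.c k248 (.q k169 [(.s
  k14 k13 0 (.s k38 k50 5 (.s k25 k51 6 (.s k48 k37 6 (.d k24 k27 k36 0 5))))), (.s k4 k8 1 (.s k13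
  k14 0 (.s k5 k10 2 (.s k9 k1 1 (.d k6 k7 k3 0 2))))), (.s k4 k8 1 (.s k48 k37 6 (.s k32 k16 3 (.s
  k36 k24 5 (.s k20 k52 3 (.d k40 k44 k60 1 5))))))] (.c k149 (.q k208 [(.s k14 k13 0 (.s k38 k50 5
  (.s k25 k51 6 (.s k48 k37 6 (.d k24 k27 k36 0 5))))), (.s k4 k8 1 (.s k13 k14 0 (.s k5 k10 2 (.s
  k9 k1 1 (.d k6 k7 k3 0 2))))), (.s k4 k8 1 (.s k48 k37 6 (.s k32 k16 3 (.s k36 k24 5 (.s k20 k52 3
  (.d k40 k44 k60 1 5))))))] .n) (.c k208 (.q k149 [(.s k14 k13 0 (.s k38 k50 5 (.s k25 k51 6 (.s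
  k48 k37 6 (.d k24 k27 k36 0 5))))), (.s k4 k8 1 (.s k13 k14 0 (.s k5 k10 2 (.s k9 k1 1 (.d k6 k7
  k3 0 2))))), (.s k4 k8 1 (.s k48 k37 6 (.s k32 k16 3 (.s k36 k24 5 (.s k20 k52 3 (.d k40 k44 k60 1
  5))))))] .n) .n))) .n))))) (.c k32 (.l (.s k5 k10 2 (.s k37 k48 6 (.s k21 k53 3 (.s k63 k42 6 (.d
  k31 k16 k47 2 3)))))) (.c k37 (.q k12 [(.s k4 k8 1 (.s k13 k14 0 (.s k5 k10 2 (.s k9 k1 1 (.d k6
  k7 k3 0 2))))), (.s k8 k4 1 (.s k14 k13 0 (.s k38 k50 5 (.s k25 k51 6 (.s k42 k59 4 (.s k63 k21 6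
  (.d k46 k34 k29 1 4))))))), (.s k10 k5 2 (.s k42 k58 3 (.s k14 k13 0 (.s k38 k50 5 (.s k34 k46 1
  (.d k51 k25 k17 6 4)))))), (.s k8 k4 1 (.s k10 k5 2 (.s k42 k58 3 (.s k25 k59 4 (.s k51 k38 6 (.d
  k27 k39 k24 5 0))))))] (.c k5 (.l (.s k4 k8 1 (.s k14 k13 0 (.s k38 k50 5 (.s k21 k55 4 (.s k63
  k42 6 (.d k31 k47 k16 3 2))))))) (.c k169 (.q k248 [(.s k4 k8 1 (.s k13 k14 0 (.s k5 k10 2 (.s k9
  k1 1 (.d k6 k7 k3 0 2))))), (.s k8 k4 1 (.s k14 k13 0 (.s k38 k50 5 (.s k25 k51 6 (.s k42 k59 4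
  (.s k63 k21 6 (.d k46 k34 k29 1 4))))))), (.s k10 k5 2 (.s k42 k58 3 (.s k14 k13 0 (.s k38 k50 5
  (.s k34 k46 1 (.d k51 k25 k17 6 4)))))), (.s k8 k4 1 (.s k10 k5 2 (.s k42 k58 3 (.s k25 k59 4 (.s
  k51 k38 6 (.d k27 k39 k24 5 0))))))] (.c k5 (.l (.s k4 k8 1 (.s k14 k13 0 (.s k38 k50 5 (.s k21
  k55 4 (.s k63 k42 6 (.d k31 k47 k16 3 2))))))) .n)) (.c k248 (.q k169 [(.s k5 k10 2 (.s k13 k14 0
  (.s k9 k1 1 (.s k6 k3 2 (.d k4 k8 k7 1 0))))), (.s k8 k4 1 (.s k14 k13 0 (.s k38 k50 5 (.s k25 k51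
  6 (.s k42 k59 4 (.s k63 k21 6 (.d k46 k34 k29 1 4))))))), (.s k10 k5 2 (.s k42 k58 3 (.s k14 k13 0
  (.s k38 k50 5 (.s k34 k46 1 (.d k51 k25 k17 6 4)))))), (.s k8 k4 1 (.s k10 k5 2 (.s k42 k58 3 (.s
  k25 k59 4 (.s k51 k38 6 (.d k27 k39 k24 5 0))))))] (.c k5 (.l (.s k4 k8 1 (.s k14 k13 0 (.s k38
  k50 5 (.s k21 k55 4 (.s k63 k42 6 (.d k31 k47 k16 3 2))))))) .n)) .n)))) (.c k42 (.q k12 [(.s k14
  k13 0 (.s k38 k50 5 (.s k25 k51 6 (.s k48 k37 6 (.d k24 k27 k36 0 5))))), (.s k5 k10 2 (.s k13 k14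
  0 (.s k9 k1 1 (.s k6 k3 2 (.d k4 k8 k7 1 0))))), (.s k4 k8 1 (.s k48 k37 6 (.s k32 k16 3 (.s k36
  k24 5 (.s k20 k52 3 (.d k40 k44 k60 1 5))))))] (.c k169 (.q k248 [(.s k14 k13 0 (.s k38 k50 5 (.s
  k25 k51 6 (.s k48 k37 6 (.d k24 k27 k36 0 5))))), (.s k5 k10 2 (.s k13 k14 0 (.s k9 k1 1 (.s k6 k3
  2 (.d k4 k8 k7 1 0))))), (.s k4 k8 1 (.s k48 k37 6 (.s k32 k16 3 (.s k36 k24 5 (.s k20 k52 3 (.d
  k40 k44 k60 1 5))))))] .n) (.c k248 (.q k169 [(.s k14 k13 0 (.s k38 k50 5 (.s k25 k51 6 (.s k48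
  k37 6 (.d k24 k27 k36 0 5))))), (.s k5 k10 2 (.s k13 k14 0 (.s k9 k1 1 (.s k6 k3 2 (.d k4 k8 k7 1
  0))))), (.s k4 k8 1 (.s k48 k37 6 (.s k32 k16 3 (.s k36 k24 5 (.s k20 k52 3 (.d k40 k44 k60 1
  5))))))] .n) .n))) (.c k48 (.q k12 [(.s k4 k8 1 (.s k13 k14 0 (.s k5 k10 2 (.s k9 k1 1 (.d k6 k7
  k3 0 2))))), (.s k14 k13 0 (.s k38 k50 5 (.s k51 k25 6 (.s k34 k17 4 (.s k42 k46 1 (.s k21 k63 6
  (.d k4 k8 k55 1 4))))))), (.s k10 k5 2 (.s k42 k58 3 (.s k63 k21 6 (.s k14 k13 0 (.s k46 k29 4 (.d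
  k38 k34 k50 1 5)))))), (.s k8 k4 1 (.s k10 k5 2 (.s k42 k58 3 (.s k25 k59 4 (.s k51 k38 6 (.d k27
  k24 k39 0 5))))))] (.c k169 (.q k248 [(.s k4 k8 1 (.s k13 k14 0 (.s k5 k10 2 (.s k9 k1 1 (.d k6 k7
  k3 0 2))))), (.s k14 k13 0 (.s k38 k50 5 (.s k51 k25 6 (.s k34 k17 4 (.s k42 k46 1 (.s k21 k63 6
  (.d k4 k8 k55 1 4))))))), (.s k10 k5 2 (.s k42 k58 3 (.s k63 k21 6 (.s k14 k13 0 (.s k46 k29 4 (.d
  k38 k34 k50 1 5)))))), (.s k8 k4 1 (.s k10 k5 2 (.s k42 k58 3 (.s k25 k59 4 (.s k51 k38 6 (.d k27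
  k24 k39 0 5))))))] .n) (.c k248 (.q k169 [(.s k4 k8 1 (.s k13 k14 0 (.s k5 k10 2 (.s k9 k1 1 (.d
  k6 k7 k3 0 2))))), (.s k14 k13 0 (.s k38 k50 5 (.s k51 k25 6 (.s k34 k17 4 (.s k42 k46 1 (.s k21
  k63 6 (.d k4 k8 k55 1 4))))))), (.s k10 k5 2 (.s k42 k58 3 (.s k63 k21 6 (.s k14 k13 0 (.s k46 k29
  4 (.d k38 k34 k50 1 5)))))), (.s k8 k4 1 (.s k10 k5 2 (.s k42 k58 3 (.s k25 k59 4 (.s k51 k38 6
  (.d k27 k24 k39 0 5))))))] .n) .n))) (.c k53 (.l (.s k10 k5 2 (.s k42 k58 3 (.s k21 k63 6 (.s k48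
  k37 6 (.d k16 k31 k32 2 3)))))) (.c k58 (.l (.s k5 k10 2 (.s k37 k48 6 (.s k21 k53 3 (.s k63 k42 6
  (.d k31 k16 k47 2 3)))))) (.c k63 (.q k12 [(.s k14 k13 0 (.s k38 k50 5 (.s k25 k51 6 (.s k48 k37 6
  (.d k24 k27 k36 0 5))))), (.s k4 k8 1 (.s k13 k14 0 (.s k5 k10 2 (.s k9 k1 1 (.d k6 k7 k3 0
  2))))), (.s k4 k8 1 (.s k48 k37 6 (.s k32 k16 3 (.s k36 k24 5 (.s k20 k52 3 (.d k40 k44 k60 1
  5))))))] (.c k169 (.q k248 [(.s k14 k13 0 (.s k38 k50 5 (.s k25 k51 6 (.s k48 k37 6 (.d k24 k27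
  k36 0 5))))), (.s k4 k8 1 (.s k13 k14 0 (.s k5 k10 2 (.s k9 k1 1 (.d k6 k7 k3 0 2))))), (.s k4 k8
  1 (.s k48 k37 6 (.s k32 k16 3 (.s k36 k24 5 (.s k20 k52 3 (.d k40 k44 k60 1 5))))))] .n) (.c k248
  (.q k169 [(.s k14 k13 0 (.s k38 k50 5 (.s k25 k51 6 (.s k48 k37 6 (.d k24 k27 k36 0 5))))), (.s k4
  k8 1 (.s k13 k14 0 (.s k5 k10 2 (.s k9 k1 1 (.d k6 k7 k3 0 2))))), (.s k4 k8 1 (.s k48 k37 6 (.s
  k32 k16 3 (.s k36 k24 5 (.s k20 k52 3 (.d k40 k44 k60 1 5))))))] .n) .n))) (.c k169 (.q k248 [(.s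
  k10 k5 2 (.s k42 k58 3 (.s k21 k63 6 (.s k48 k37 6 (.d k16 k31 k32 2 3)))))] (.c k5 (.q k12 [(.s
  k13 k14 0 (.s k37 k48 6 (.s k25 k49 5 (.s k51 k38 6 (.d k27 k24 k39 0 5))))), (.s k4 k8 1 (.s k48
  k37 6 (.s k32 k16 3 (.s k36 k24 5 (.s k20 k52 3 (.d k40 k44 k60 1 5)))))), (.s k4 k8 1 (.s k14 k13
  0 (.s k38 k50 5 (.s k21 k55 4 (.s k63 k42 6 (.d k31 k16 k47 2 3))))))] .n) (.c k10 (.f k48 k37 6
  (.q k8 [(.s k12 k4 1 (.s k14 k13 0 (.s k38 k50 5 (.s k25 k51 6 (.d k24 k27 k36 0 5))))), (.s k16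
  k32 3 (.s k168 k88 11 (.s k84 k252 13 (.s k152 k220 9 (.s k204 k100 13 (.d k136 k184 k68 3
  9))))))] (.c k170 (.q k250 [(.s k12 k4 1 (.s k14 k13 0 (.s k38 k50 5 (.s k25 k51 6 (.d k24 k27 k36
  0 5))))), (.s k16 k32 3 (.s k168 k88 11 (.s k84 k252 13 (.s k152 k220 9 (.s k204 k100 13 (.d k136
  k184 k68 3 9))))))] (.c k168 (.q k171 [(.s k12 k4 1 (.s k14 k13 0 (.s k38 k50 5 (.s k25 k51 6 (.d
  k24 k27 k36 0 5))))), (.s k12 k4 1 (.s k16 k32 3 (.s k24 k36 5 (.s k40 k56 3 (.d k20 k28 k60 1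
  5))))), (.s k16 k32 3 (.s k21 k31 2 (.s k42 k63 6 (.s k25 k59 4 (.s k17 k29 1 (.s k51 k34 4 (.d
  k27 k24 k39 0 5)))))))] (.c k12 (.l (.s k16 k32 3 (.s k21 k31 2 (.s k42 k63 6 (.s k25 k59 4 (.s
  k27 k24 0 (.s k51 k39 5 (.d k17 k29 k34 1 4)))))))) (.c k24 (.l (.s k12 k4 1 (.s k16 k32 3 (.s k14
  k13 0 (.s k38 k50 5 (.s k25 k51 6 (.s k42 k59 4 (.d k21 k63 k31 6 2)))))))) .n))) (.c k171 (.l (.s
  k168 k88 11 (.s k12 k4 1 (.s k16 k32 3 (.s k24 k36 5 (.s k40 k56 3 (.d k20 k28 k60 1 5)))))))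
  .n))) (.c k250 (.q k170 [(.s k12 k4 1 (.s k16 k32 3 (.s k24 k36 5 (.s k40 k56 3 (.d k20 k28 k60 1
  5))))), (.s k12 k4 1 (.s k85 k255 14 (.s k89 k251 12 (.s k243 k166 14 (.d k81 k93 k162 1 12))))),
  (.s k16 k32 3 (.s k85 k255 14 (.s k154 k223 10 (.s k207 k101 14 (.d k138 k186 k69 3 10)))))] .n)
  .n)))) (.c k16 (.l (.s k10 k5 2 (.s k42 k58 3 (.s k63 k21 6 (.s k37 k48 6 (.d k47 k32 k31 2
  3)))))) (.c k21 (.q k12 [(.s k13 k14 0 (.s k37 k48 6 (.s k25 k49 5 (.s k27 k24 0 (.d k51 k39 k38 5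
  6))))), (.s k4 k8 1 (.s k48 k37 6 (.s k32 k16 3 (.s k36 k24 5 (.s k20 k52 3 (.d k40 k44 k60 1
  5)))))), (.s k4 k8 1 (.s k13 k14 0 (.s k5 k10 2 (.s k9 k1 1 (.d k6 k7 k3 0 2)))))] .n) (.c k31 (.q
  k12 [(.s k14 k13 0 (.s k38 k50 5 (.s k25 k51 6 (.s k48 k37 6 (.d k24 k27 k36 0 5))))), (.s k4 k8 1
  (.s k13 k14 0 (.s k5 k10 2 (.s k9 k1 1 (.d k6 k7 k3 0 2))))), (.s k4 k8 1 (.s k48 k37 6 (.s k32
  k16 3 (.s k36 k24 5 (.s k20 k52 3 (.d k40 k44 k60 1 5))))))] (.c k149 (.q k208 [(.s k14 k13 0 (.s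
  k38 k50 5 (.s k25 k51 6 (.s k48 k37 6 (.d k24 k27 k36 0 5))))), (.s k4 k8 1 (.s k13 k14 0 (.s k5
  k10 2 (.s k9 k1 1 (.d k6 k7 k3 0 2))))), (.s k4 k8 1 (.s k48 k37 6 (.s k32 k16 3 (.s k36 k24 5 (.s
  k20 k52 3 (.d k40 k44 k60 1 5))))))] (.c k129 (.q k189 [(.s k14 k13 0 (.s k38 k50 5 (.s k25 k51 6
  (.s k48 k37 6 (.d k24 k27 k36 0 5))))), (.s k4 k8 1 (.s k13 k14 0 (.s k5 k10 2 (.s k9 k1 1 (.d k6
  k7 k3 0 2))))), (.s k4 k8 1 (.s k48 k37 6 (.s k32 k16 3 (.s k36 k24 5 (.s k20 k52 3 (.d k40 k44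
  k60 1 5))))))] .n) (.c k189 (.q k129 [(.s k14 k13 0 (.s k38 k50 5 (.s k25 k51 6 (.s k48 k37 6 (.d
  k24 k27 k36 0 5))))), (.s k4 k8 1 (.s k13 k14 0 (.s k5 k10 2 (.s k9 k1 1 (.d k6 k7 k3 0 2))))),
  (.s k4 k8 1 (.s k48 k37 6 (.s k32 k16 3 (.s k36 k24 5 (.s k20 k52 3 (.d k40 k44 k60 1 5))))))] .n)
  .n))) (.c k208 (.q k149 [(.s k14 k13 0 (.s k38 k50 5 (.s k25 k51 6 (.s k48 k37 6 (.d k24 k27 k36 0
  5))))), (.s k4 k8 1 (.s k13 k14 0 (.s k5 k10 2 (.s k9 k1 1 (.d k6 k7 k3 0 2))))), (.s k4 k8 1 (.s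
  k48 k37 6 (.s k32 k16 3 (.s k36 k24 5 (.s k20 k52 3 (.d k40 k44 k60 1 5))))))] .n) .n))) (.c k32
  (.l (.s k5 k10 2 (.s k37 k48 6 (.s k21 k53 3 (.s k63 k42 6 (.d k31 k16 k47 2 3)))))) (.c k37 (.q
  k12 [(.s k4 k8 1 (.s k13 k14 0 (.s k5 k10 2 (.s k9 k1 1 (.d k6 k7 k3 0 2))))), (.s k8 k4 1 (.s k14
  k13 0 (.s k38 k50 5 (.s k25 k51 6 (.s k42 k59 4 (.s k63 k21 6 (.d k46 k34 k29 1 4))))))), (.s k10
  k5 2 (.s k42 k58 3 (.s k14 k13 0 (.s k38 k50 5 (.s k34 k46 1 (.d k51 k25 k17 6 4)))))), (.s k8 k4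
  1 (.s k10 k5 2 (.s k42 k58 3 (.s k25 k59 4 (.s k51 k38 6 (.d k27 k39 k24 5 0))))))] (.c k5 (.l (.s
  k4 k8 1 (.s k14 k13 0 (.s k38 k50 5 (.s k21 k55 4 (.s k63 k42 6 (.d k31 k47 k16 3 2))))))) .n))
  (.c k42 (.q k12 [(.s k14 k13 0 (.s k38 k50 5 (.s k25 k51 6 (.s k48 k37 6 (.d k24 k27 k36 0 5))))),
  (.s k5 k10 2 (.s k13 k14 0 (.s k9 k1 1 (.s k6 k3 2 (.d k4 k8 k7 1 0))))), (.s k4 k8 1 (.s k48 k37
  6 (.s k32 k16 3 (.s k36 k24 5 (.s k20 k52 3 (.d k40 k44 k60 1 5))))))] .n) (.c k48 (.q k12 [(.s k4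
  k8 1 (.s k13 k14 0 (.s k5 k10 2 (.s k9 k1 1 (.d k6 k7 k3 0 2))))), (.s k14 k13 0 (.s k38 k50 5 (.s
  k51 k25 6 (.s k34 k17 4 (.s k42 k46 1 (.s k21 k63 6 (.d k4 k8 k55 1 4))))))), (.s k10 k5 2 (.s k42
  k58 3 (.s k63 k21 6 (.s k14 k13 0 (.s k46 k29 4 (.d k38 k34 k50 1 5)))))), (.s k8 k4 1 (.s k10 k5
  2 (.s k42 k58 3 (.s k25 k59 4 (.s k51 k38 6 (.d k27 k24 k39 0 5))))))] .n) (.c k53 (.l (.s k10 k5
  2 (.s k42 k58 3 (.s k21 k63 6 (.s k48 k37 6 (.d k16 k31 k32 2 3)))))) (.c k58 (.l (.s k5 k10 2 (.s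
  k37 k48 6 (.s k21 k53 3 (.s k63 k42 6 (.d k31 k16 k47 2 3)))))) (.c k63 (.q k12 [(.s k14 k13 0 (.s
  k38 k50 5 (.s k25 k51 6 (.s k48 k37 6 (.d k24 k27 k36 0 5))))), (.s k4 k8 1 (.s k13 k14 0 (.s k5
  k10 2 (.s k9 k1 1 (.d k6 k7 k3 0 2))))), (.s k4 k8 1 (.s k48 k37 6 (.s k32 k16 3 (.s k36 k24 5 (.s
  k20 k52 3 (.d k40 k44 k60 1 5))))))] .n) .n))))))))))))) (.c k248 (.q k169 [(.s k10 k5 2 (.s k42
  k58 3 (.s k21 k63 6 (.s k48 k37 6 (.d k16 k31 k32 2 3)))))] (.c k5 (.q k12 [(.s k13 k14 0 (.s k37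
  k48 6 (.s k25 k49 5 (.s k51 k38 6 (.d k27 k24 k39 0 5))))), (.s k4 k8 1 (.s k48 k37 6 (.s k32 k16
  3 (.s k36 k24 5 (.s k20 k52 3 (.d k40 k44 k60 1 5)))))), (.s k4 k8 1 (.s k14 k13 0 (.s k38 k50 5
  (.s k21 k55 4 (.s k63 k42 6 (.d k31 k16 k47 2 3))))))] .n) (.c k10 (.q k170 [(.s k85 k255 14 (.s
  k168 k171 0 (.s k252 k84 13 (.s k1 k253 13 (.d k3 k2 k86 0 14))))), (.s k85 k255 14 (.s k48 k37 6
  (.s k16 k32 3 (.s k154 k223 10 (.s k207 k101 14 (.d k138 k186 k69 3 10)))))), (.s k48 k37 6 (.s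
  k16 k32 3 (.s k168 k171 0 (.s k84 k252 13 (.s k152 k220 9 (.s k204 k100 13 (.d k136 k184 k68 3
  9)))))))] (.c k8 (.q k9 [(.s k85 k255 14 (.s k1 k253 13 (.s k3 k2 0 (.s k13 k5 1 (.d k12 k14 k6 0
  2))))), (.s k48 k37 6 (.s k16 k32 3 (.s k168 k171 0 (.s k84 k252 13 (.s k152 k220 9 (.s k204 k100
  13 (.d k136 k184 k68 3 9)))))))] (.c k88 (.l (.s k168 k171 0 (.s k252 k84 13 (.s k85 k255 14 (.s
  k1 k253 13 (.d k3 k2 k86 0 14)))))) (.c k168 (.q k88 [(.s k85 k255 14 (.s k1 k253 13 (.s k3 k2 0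
  (.s k13 k5 1 (.d k12 k14 k6 0 2))))), (.s k85 k255 14 (.s k48 k37 6 (.s k16 k32 3 (.s k154 k223 10
  (.s k207 k101 14 (.d k138 k186 k69 3 10)))))), (.s k48 k37 6 (.s k32 k16 3 (.s k101 k239 10 (.s
  k33 k237 9 (.s k3 k18 4 (.s k2 k1 0 (.d k86 k254 k252 13 14)))))))] .n) (.c k252 (.l (.s k85 k255
  14 (.s k48 k37 6 (.s k16 k32 3 (.s k154 k223 10 (.s k207 k101 14 (.d k138 k186 k69 3 10)))))))
  .n)))) (.c k9 (.q k8 [(.s k12 k4 1 (.s k255 k85 14 (.s k174 k93 12 (.s k166 k162 1 (.d k89 k251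
  k243 12 14))))), (.s k85 k255 14 (.s k1 k253 13 (.s k3 k2 0 (.s k252 k86 14 (.d k168 k171 k84 0
  13))))), (.s k12 k4 1 (.s k13 k14 0 (.s k37 k48 6 (.s k25 k49 5 (.s k51 k38 6 (.d k27 k24 k39 0
  5))))))] .n) .n))) (.c k16 (.l (.s k10 k5 2 (.s k42 k58 3 (.s k63 k21 6 (.s k37 k48 6 (.d k47 k32
  k31 2 3)))))) (.c k21 (.q k12 [(.s k13 k14 0 (.s k37 k48 6 (.s k25 k49 5 (.s k27 k24 0 (.d k51 k39
  k38 5 6))))), (.s k4 k8 1 (.s k48 k37 6 (.s k32 k16 3 (.s k36 k24 5 (.s k20 k52 3 (.d k40 k44 k60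
  1 5)))))), (.s k4 k8 1 (.s k13 k14 0 (.s k5 k10 2 (.s k9 k1 1 (.d k6 k7 k3 0 2)))))] .n) (.c k31
  (.q k12 [(.s k14 k13 0 (.s k38 k50 5 (.s k25 k51 6 (.s k48 k37 6 (.d k24 k27 k36 0 5))))), (.s k4
  k8 1 (.s k13 k14 0 (.s k5 k10 2 (.s k9 k1 1 (.d k6 k7 k3 0 2))))), (.s k4 k8 1 (.s k48 k37 6 (.s
  k32 k16 3 (.s k36 k24 5 (.s k20 k52 3 (.d k40 k44 k60 1 5))))))] (.c k149 (.q k208 [(.s k14 k13 0
  (.s k38 k50 5 (.s k25 k51 6 (.s k48 k37 6 (.d k24 k27 k36 0 5))))), (.s k4 k8 1 (.s k13 k14 0 (.s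
  k5 k10 2 (.s k9 k1 1 (.d k6 k7 k3 0 2))))), (.s k4 k8 1 (.s k48 k37 6 (.s k32 k16 3 (.s k36 k24 5
  (.s k20 k52 3 (.d k40 k44 k60 1 5))))))] .n) (.c k208 (.q k149 [(.s k14 k13 0 (.s k38 k50 5 (.s
  k25 k51 6 (.s k48 k37 6 (.d k24 k27 k36 0 5))))), (.s k4 k8 1 (.s k13 k14 0 (.s k5 k10 2 (.s k9 k1
  1 (.d k6 k7 k3 0 2))))), (.s k4 k8 1 (.s k48 k37 6 (.s k32 k16 3 (.s k36 k24 5 (.s k20 k52 3 (.d
  k40 k44 k60 1 5))))))] .n) .n))) (.c k32 (.l (.s k5 k10 2 (.s k37 k48 6 (.s k21 k53 3 (.s k63 k42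
  6 (.d k31 k16 k47 2 3)))))) (.c k37 (.q k12 [(.s k5 k10 2 (.s k13 k14 0 (.s k9 k1 1 (.s k6 k3 2
  (.d k4 k8 k7 1 0))))), (.s k8 k4 1 (.s k14 k13 0 (.s k38 k50 5 (.s k25 k51 6 (.s k42 k59 4 (.s k63
  k21 6 (.d k46 k34 k29 1 4))))))), (.s k10 k5 2 (.s k42 k58 3 (.s k14 k13 0 (.s k38 k50 5 (.s k34
  k46 1 (.d k51 k25 k17 6 4)))))), (.s k8 k4 1 (.s k10 k5 2 (.s k42 k58 3 (.s k25 k59 4 (.s k51 k38
  6 (.d k27 k39 k24 5 0))))))] (.c k5 (.l (.s k4 k8 1 (.s k14 k13 0 (.s k38 k50 5 (.s k21 k55 4 (.s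
  k63 k42 6 (.d k31 k47 k16 3 2))))))) .n)) (.c k42 (.q k12 [(.s k14 k13 0 (.s k38 k50 5 (.s k25 k51
  6 (.s k48 k37 6 (.d k24 k27 k36 0 5))))), (.s k5 k10 2 (.s k13 k14 0 (.s k9 k1 1 (.s k6 k3 2 (.d
  k4 k8 k7 1 0))))), (.s k4 k8 1 (.s k48 k37 6 (.s k32 k16 3 (.s k36 k24 5 (.s k20 k52 3 (.d k40 k44
  k60 1 5))))))] .n) (.c k48 (.q k12 [(.s k4 k8 1 (.s k13 k14 0 (.s k5 k10 2 (.s k9 k1 1 (.d k6 k7
  k3 0 2))))), (.s k14 k13 0 (.s k38 k50 5 (.s k51 k25 6 (.s k34 k17 4 (.s k42 k46 1 (.s k21 k63 6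
  (.d k4 k8 k55 1 4))))))), (.s k10 k5 2 (.s k42 k58 3 (.s k63 k21 6 (.s k14 k13 0 (.s k46 k29 4 (.d
  k38 k34 k50 1 5)))))), (.s k8 k4 1 (.s k10 k5 2 (.s k42 k58 3 (.s k25 k59 4 (.s k51 k38 6 (.d k27
  k24 k39 0 5))))))] .n) (.c k53 (.l (.s k10 k5 2 (.s k42 k58 3 (.s k21 k63 6 (.s k48 k37 6 (.d k16
  k31 k32 2 3)))))) (.c k58 (.l (.s k5 k10 2 (.s k37 k48 6 (.s k21 k53 3 (.s k63 k42 6 (.d k31 k16
  k47 2 3)))))) (.c k63 (.q k12 [(.s k14 k13 0 (.s k38 k50 5 (.s k25 k51 6 (.s k48 k37 6 (.d k24 k27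
  k36 0 5))))), (.s k4 k8 1 (.s k13 k14 0 (.s k5 k10 2 (.s k9 k1 1 (.d k6 k7 k3 0 2))))), (.s k4 k8
  1 (.s k48 k37 6 (.s k32 k16 3 (.s k36 k24 5 (.s k20 k52 3 (.d k40 k44 k60 1 5))))))] .n)
  .n))))))))))))) .n)))))))))))))))

def t16 : T TT 256 :=
  (.q k69 [(.s k10 k5 2 (.s k138 k207 10 (.s k74 k202 7 (.s k192 k133 10 (.d k64 k79 k128 2 7)))))]
  (.c k5 (.q k12 [(.s k4 k8 1 (.s k138 k207 10 (.s k134 k199 8 (.s k195 k73 10 (.d k130 k142 k65 1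
  8))))), (.s k207 k138 10 (.s k14 k13 0 (.s k142 k77 8 (.s k78 k206 7 (.s k141 k204 8 (.d k143 k140
  k79 0 7)))))), (.s k4 k8 1 (.s k134 k199 8 (.s k14 k13 0 (.s k74 k194 9 (.s k64 k79 2 (.d k192
  k128 k133 7 10))))))] .n) (.c k10 (.q k12 [(.s k8 k4 1 (.s k138 k207 10 (.s k73 k203 8 (.s k195
  k134 10 (.d k65 k77 k130 1 8))))), (.s k207 k138 10 (.s k14 k13 0 (.s k142 k77 8 (.s k78 k206 7
  (.s k141 k204 8 (.d k143 k140 k79 0 7)))))), (.s k4 k8 1 (.s k134 k199 8 (.s k14 k13 0 (.s k74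
  k194 9 (.s k64 k79 2 (.d k192 k128 k133 7 10))))))] (.c k170 (.q k250 [(.s k8 k4 1 (.s k138 k207
  10 (.s k73 k203 8 (.s k195 k134 10 (.d k65 k77 k130 1 8))))), (.s k207 k138 10 (.s k14 k13 0 (.s
  k142 k77 8 (.s k78 k206 7 (.s k141 k204 8 (.d k143 k140 k79 0 7)))))), (.s k4 k8 1 (.s k134 k199 8
  (.s k14 k13 0 (.s k74 k194 9 (.s k64 k79 2 (.d k192 k128 k133 7 10))))))] .n) (.c k250 (.q k170
  [(.s k8 k4 1 (.s k138 k207 10 (.s k73 k203 8 (.s k195 k134 10 (.d k65 k77 k130 1 8))))), (.s k4 k8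
  1 (.s k85 k255 14 (.s k166 k247 12 (.s k243 k89 14 (.d k162 k174 k81 1 12))))), (.s k207 k138 10
  (.s k13 k14 0 (.s k77 k142 8 (.s k141 k205 7 (.s k78 k204 8 (.d k79 k76 k143 0 7))))))] .n) .n)))
  (.c k64 (.q k12 [(.s k4 k8 1 (.s k138 k207 10 (.s k134 k199 8 (.s k195 k73 10 (.d k130 k142 k65 1
  8))))), (.s k4 k8 1 (.s k5 k10 2 (.s k6 k7 0 (.s k9 k3 2 (.d k13 k14 k1 0 1))))), (.s k5 k10 2 (.s
  k207 k138 10 (.s k133 k197 7 (.s k13 k14 0 (.s k77 k142 8 (.d k73 k65 k193 1 9))))))] .n) (.c k74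
  (.q k12 [(.s k4 k8 1 (.s k138 k207 10 (.s k134 k199 8 (.s k195 k73 10 (.d k130 k142 k65 1 8))))),
  (.s k8 k4 1 (.s k10 k5 2 (.s k9 k11 0 (.s k6 k3 2 (.d k14 k13 k2 0 1))))), (.s k5 k10 2 (.s k133
  k197 7 (.s k13 k14 0 (.s k73 k193 9 (.s k65 k77 1 (.d k195 k134 k130 10 8))))))] (.c k106 (.q k122
  [(.s k4 k8 1 (.s k138 k207 10 (.s k134 k199 8 (.s k195 k73 10 (.d k130 k142 k65 1 8))))), (.s k8
  k4 1 (.s k10 k5 2 (.s k9 k11 0 (.s k6 k3 2 (.d k14 k13 k2 0 1))))), (.s k5 k10 2 (.s k133 k197 7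
  (.s k13 k14 0 (.s k73 k193 9 (.s k65 k77 1 (.d k195 k134 k130 10 8))))))] .n) (.c k122 (.q k106
  [(.s k4 k8 1 (.s k138 k207 10 (.s k134 k199 8 (.s k195 k73 10 (.d k130 k142 k65 1 8))))), (.s k8
  k4 1 (.s k10 k5 2 (.s k9 k11 0 (.s k6 k3 2 (.d k14 k13 k2 0 1))))), (.s k5 k10 2 (.s k133 k197 7
  (.s k13 k14 0 (.s k73 k193 9 (.s k65 k77 1 (.d k195 k134 k130 10 8))))))] .n) .n))) (.c k79 (.l
  (.s k5 k10 2 (.s k138 k207 10 (.s k133 k197 7 (.s k192 k74 10 (.d k128 k143 k64 2 7)))))) (.c k128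
  (.l (.s k5 k10 2 (.s k207 k138 10 (.s k133 k197 7 (.s k74 k192 10 (.d k79 k143 k64 7 2)))))) (.c
  k133 (.q k12 [(.s k4 k8 1 (.s k138 k207 10 (.s k134 k199 8 (.s k130 k142 1 (.d k195 k65 k73 8
  10))))), (.s k4 k8 1 (.s k5 k10 2 (.s k6 k7 0 (.s k9 k3 2 (.d k13 k14 k1 0 1))))), (.s k5 k10 2
  (.s k207 k138 10 (.s k13 k14 0 (.s k77 k142 8 (.s k205 k141 7 (.d k1 k137 k9 9 1))))))] .n) (.c
  k138 (.q k12 [(.s k8 k4 1 (.s k10 k5 2 (.s k9 k11 0 (.s k6 k3 2 (.d k14 k13 k2 0 1))))), (.s k4 k8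
  1 (.s k134 k199 8 (.s k14 k13 0 (.s k74 k194 9 (.s k192 k133 10 (.d k64 k128 k79 7 2)))))), (.s k5
  k10 2 (.s k133 k197 7 (.s k13 k14 0 (.s k73 k193 9 (.s k195 k134 10 (.d k65 k130 k77 8 1)))))),
  (.s k4 k8 1 (.s k5 k10 2 (.s k134 k199 8 (.s k133 k197 7 (.s k132 k135 0 (.d k192 k74 k72 10
  9))))))] .n) (.c k192 (.q k12 [(.s k4 k8 1 (.s k138 k207 10 (.s k134 k199 8 (.s k195 k73 10 (.d
  k130 k142 k65 1 8))))), (.s k4 k8 1 (.s k5 k10 2 (.s k6 k7 0 (.s k9 k3 2 (.d k13 k14 k1 0 1))))),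
  (.s k5 k10 2 (.s k207 k138 10 (.s k133 k197 7 (.s k13 k14 0 (.s k77 k142 8 (.d k73 k65 k193 1
  9))))))] .n) (.c k197 (.l (.s k10 k5 2 (.s k138 k207 10 (.s k74 k202 7 (.s k192 k133 10 (.d k64
  k79 k128 2 7)))))) (.c k202 (.l (.s k5 k10 2 (.s k138 k207 10 (.s k133 k197 7 (.s k192 k74 10 (.d
  k128 k143 k64 2 7)))))) (.c k207 (.q k12 [(.s k8 k4 1 (.s k14 k13 0 (.s k10 k5 2 (.s k6 k2 1 (.d
  k9 k11 k3 0 2))))), (.s k4 k8 1 (.s k134 k199 8 (.s k14 k13 0 (.s k74 k194 9 (.s k192 k133 10 (.d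
  k64 k79 k128 2 7)))))), (.s k5 k10 2 (.s k133 k197 7 (.s k13 k14 0 (.s k73 k193 9 (.s k195 k134 10
  (.d k65 k77 k130 1 8)))))), (.s k4 k8 1 (.s k5 k10 2 (.s k134 k199 8 (.s k133 k197 7 (.s k195 k73
  10 (.d k135 k132 k75 0 9))))))] .n) .n)))))))))))))

def t17 : T TT 256 :=
  (.f k10 k5 2 (.q k74 [(.s k138 k202 7 (.s k69 k207 10 (.s k192 k133 10 (.d k64 k79 k128 2 7))))]
  (.c k64 (.l (.s k138 k202 7 (.s k207 k69 10 (.s k133 k192 10 (.d k143 k128 k79 2 7))))) (.c k69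
  (.q k8 [(.s k12 k4 1 (.s k14 k13 0 (.s k6 k2 1 (.d k9 k11 k3 0 2)))), (.s k11 k9 0 (.s k138 k202 7
  (.s k73 k203 8 (.s k200 k137 8 (.d k72 k75 k136 0 7))))), (.s k12 k4 1 (.s k138 k202 7 (.s k73
  k203 8 (.s k13 k14 0 (.d k133 k193 k192 9 10)))))] (.c k13 (.l (.s k12 k4 1 (.s k138 k202 7 (.s
  k73 k203 8 (.s k72 k75 0 (.d k192 k132 k133 9 10)))))) (.c k133 (.q k197 [(.s k12 k4 1 (.s k9 k11
  0 (.s k6 k3 2 (.d k14 k13 k2 0 1)))), (.s k11 k9 0 (.s k138 k202 7 (.s k73 k203 8 (.s k200 k137 8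
  (.d k72 k75 k136 0 7))))), (.s k12 k4 1 (.s k138 k202 7 (.s k73 k203 8 (.s k75 k72 0 (.d k195 k134
  k135 10 9)))))] .n) (.c k197 (.l (.s k133 k192 10 (.s k12 k4 1 (.s k9 k11 0 (.s k6 k3 2 (.d k14
  k13 k2 0 1)))))) .n)))) (.c k79 (.f k133 k192 10 (.q k8 [(.s k12 k4 1 (.s k9 k11 0 (.s k14 k13 0
  (.d k6 k2 k3 1 2)))), (.s k11 k9 0 (.s k138 k202 7 (.s k73 k203 8 (.s k200 k137 8 (.d k72 k75 k136
  0 7))))), (.s k12 k4 1 (.s k138 k202 7 (.s k73 k203 8 (.s k195 k134 10 (.d k75 k72 k135 0 9)))))]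
  (.c k101 (.q k112 [(.s k12 k4 1 (.s k9 k11 0 (.s k14 k13 0 (.d k6 k2 k3 1 2)))), (.s k11 k9 0 (.s
  k138 k202 7 (.s k73 k203 8 (.s k200 k137 8 (.d k72 k75 k136 0 7))))), (.s k12 k4 1 (.s k138 k202 7
  (.s k73 k203 8 (.s k195 k134 10 (.d k75 k72 k135 0 9)))))] .n) (.c k112 (.q k101 [(.s k12 k4 1 (.s
  k9 k11 0 (.s k14 k13 0 (.d k6 k2 k3 1 2)))), (.s k11 k9 0 (.s k138 k202 7 (.s k73 k203 8 (.s k200
  k137 8 (.d k72 k75 k136 0 7))))), (.s k12 k4 1 (.s k138 k202 7 (.s k73 k203 8 (.s k195 k134 10 (.d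
  k75 k72 k135 0 9)))))] .n) .n)))) (.c k128 (.q k8 [(.s k12 k4 1 (.s k14 k13 0 (.s k6 k2 1 (.d k9
  k11 k3 0 2)))), (.s k11 k9 0 (.s k138 k202 7 (.s k73 k203 8 (.s k200 k137 8 (.d k72 k75 k136 0
  7))))), (.s k12 k4 1 (.s k138 k202 7 (.s k73 k203 8 (.s k195 k134 10 (.d k75 k72 k135 0 9)))))]
  .n) (.c k133 (.q k8 [(.s k12 k4 1 (.s k9 k11 0 (.s k6 k3 2 (.d k14 k13 k2 0 1)))), (.s k11 k9 0
  (.s k138 k202 7 (.s k73 k203 8 (.s k200 k137 8 (.d k72 k75 k136 0 7))))), (.s k12 k4 1 (.s k138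
  k202 7 (.s k73 k203 8 (.s k195 k134 10 (.d k75 k135 k72 9 0)))))] (.c k69 (.q k197 [(.s k12 k4 1
  (.s k9 k11 0 (.s k6 k3 2 (.d k14 k13 k2 0 1)))), (.s k11 k9 0 (.s k138 k202 7 (.s k73 k203 8 (.s
  k200 k137 8 (.d k72 k75 k136 0 7))))), (.s k12 k4 1 (.s k138 k202 7 (.s k73 k203 8 (.s k75 k72 0
  (.d k195 k134 k135 10 9)))))] .n) (.c k197 (.q k69 [(.d k138 k202 k207 7 10), (.s k12 k4 1 (.s k9
  k11 0 (.s k6 k3 2 (.d k14 k13 k2 0 1))))] .n) .n))) (.c k138 (.q k8 [(.s k12 k4 1 (.s k9 k11 0 (.s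
  k6 k3 2 (.d k14 k13 k2 0 1)))), (.s k11 k9 0 (.s k200 k137 8 (.s k136 k72 7 (.s k204 k68 9 (.d
  k192 k196 k133 1 10))))), (.s k12 k4 1 (.s k13 k14 0 (.s k133 k192 10 (.s k73 k193 9 (.s k195 k134
  10 (.d k75 k72 k135 0 9))))))] (.c k13 (.l (.s k12 k4 1 (.s k192 k133 10 (.s k72 k132 9 (.s k200
  k136 7 (.d k11 k137 k9 8 0)))))) .n)) (.c k192 (.q k8 [(.s k12 k4 1 (.s k14 k13 0 (.s k6 k2 1 (.d
  k9 k11 k3 0 2)))), (.s k11 k9 0 (.s k138 k202 7 (.s k73 k203 8 (.s k200 k137 8 (.d k72 k75 k136 0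
  7))))), (.s k12 k4 1 (.s k138 k202 7 (.s k73 k203 8 (.s k195 k134 10 (.d k75 k72 k135 0 9)))))]
  .n) (.c k197 (.l (.s k138 k202 7 (.s k69 k207 10 (.s k192 k133 10 (.d k64 k79 k128 2 7))))) (.c
  k202 (.q k8 [(.s k12 k4 1 (.s k14 k13 0 (.s k6 k2 1 (.d k9 k11 k3 0 2)))), (.s k11 k9 0 (.s k200
  k137 8 (.s k136 k72 7 (.s k204 k68 9 (.d k192 k196 k133 1 10))))), (.s k12 k4 1 (.s k13 k14 0 (.s
  k133 k192 10 (.s k73 k193 9 (.s k195 k134 10 (.d k75 k72 k135 0 9))))))] (.c k13 (.l (.s k12 k4 1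
  (.s k192 k133 10 (.s k72 k132 9 (.s k200 k136 7 (.d k11 k9 k137 0 8)))))) .n)) (.c k207 (.q k8
  [(.s k12 k4 1 (.s k14 k13 0 (.s k6 k2 1 (.d k9 k11 k3 0 2)))), (.s k11 k9 0 (.s k138 k202 7 (.s
  k73 k203 8 (.s k200 k137 8 (.d k72 k75 k136 0 7))))), (.s k12 k4 1 (.s k138 k202 7 (.s k73 k203 8
  (.s k195 k134 10 (.d k75 k72 k135 0 9)))))] .n) .n))))))))))))

def t18 : T TT 256 :=
  (.f k10 k5 2 (.q k74 [(.s k138 k202 7 (.s k69 k207 10 (.s k192 k133 10 (.d k64 k79 k128 2 7))))]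
  (.c k64 (.l (.s k138 k202 7 (.s k207 k69 10 (.s k133 k192 10 (.d k143 k128 k79 2 7))))) (.c k69
  (.q k8 [(.s k12 k4 1 (.s k9 k11 0 (.s k14 k13 0 (.d k6 k2 k3 1 2)))), (.s k11 k9 0 (.s k138 k202 7
  (.s k73 k203 8 (.s k200 k137 8 (.d k72 k75 k136 0 7))))), (.s k12 k4 1 (.s k138 k202 7 (.s k73
  k203 8 (.s k13 k14 0 (.d k133 k193 k192 9 10)))))] (.c k13 (.l (.s k12 k4 1 (.s k138 k202 7 (.s
  k73 k203 8 (.s k72 k75 0 (.d k192 k132 k133 9 10)))))) (.c k133 (.q k197 [(.s k12 k4 1 (.s k9 k11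
  0 (.s k6 k3 2 (.d k14 k13 k2 0 1)))), (.s k11 k9 0 (.s k138 k202 7 (.s k73 k203 8 (.s k200 k137 8
  (.d k72 k75 k136 0 7))))), (.s k12 k4 1 (.s k138 k202 7 (.s k73 k203 8 (.s k75 k72 0 (.d k195 k134
  k135 10 9)))))] .n) (.c k197 (.l (.s k133 k192 10 (.s k12 k4 1 (.s k9 k11 0 (.s k6 k3 2 (.d k14
  k13 k2 0 1)))))) .n)))) (.c k79 (.f k133 k192 10 (.q k8 [(.s k12 k4 1 (.s k9 k11 0 (.s k14 k13 0
  (.d k6 k2 k3 1 2)))), (.s k11 k9 0 (.s k138 k202 7 (.s k73 k203 8 (.s k200 k137 8 (.d k72 k75 k136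
  0 7))))), (.s k12 k4 1 (.s k138 k202 7 (.s k73 k203 8 (.s k195 k134 10 (.d k75 k72 k135 0 9)))))]
  (.c k101 (.q k112 [(.s k12 k4 1 (.s k9 k11 0 (.s k14 k13 0 (.d k6 k2 k3 1 2)))), (.s k11 k9 0 (.s
  k138 k202 7 (.s k73 k203 8 (.s k200 k137 8 (.d k72 k75 k136 0 7))))), (.s k12 k4 1 (.s k138 k202 7
  (.s k73 k203 8 (.s k195 k134 10 (.d k75 k72 k135 0 9)))))] .n) (.c k112 (.q k101 [(.s k12 k4 1 (.s
  k9 k11 0 (.s k14 k13 0 (.d k6 k2 k3 1 2)))), (.s k11 k9 0 (.s k138 k202 7 (.s k73 k203 8 (.s k200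
  k137 8 (.d k72 k75 k136 0 7))))), (.s k12 k4 1 (.s k138 k202 7 (.s k73 k203 8 (.s k195 k134 10 (.d
  k75 k72 k135 0 9)))))] .n) .n)))) (.c k128 (.q k8 [(.s k12 k4 1 (.s k9 k11 0 (.s k14 k13 0 (.d k6
  k2 k3 1 2)))), (.s k11 k9 0 (.s k138 k202 7 (.s k73 k203 8 (.s k200 k137 8 (.d k72 k75 k136 0
  7))))), (.s k12 k4 1 (.s k138 k202 7 (.s k73 k203 8 (.s k195 k134 10 (.d k75 k72 k135 0 9)))))]
  .n) (.c k133 (.q k8 [(.s k12 k4 1 (.s k9 k11 0 (.s k6 k3 2 (.d k14 k13 k2 0 1)))), (.s k11 k9 0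
  (.s k138 k202 7 (.s k73 k203 8 (.s k200 k137 8 (.d k72 k75 k136 0 7))))), (.s k12 k4 1 (.s k138
  k202 7 (.s k73 k203 8 (.s k195 k134 10 (.d k75 k135 k72 9 0)))))] (.c k69 (.q k197 [(.s k12 k4 1
  (.s k9 k11 0 (.s k6 k3 2 (.d k14 k13 k2 0 1)))), (.s k11 k9 0 (.s k138 k202 7 (.s k73 k203 8 (.s
  k200 k137 8 (.d k72 k75 k136 0 7))))), (.s k12 k4 1 (.s k138 k202 7 (.s k73 k203 8 (.s k75 k72 0
  (.d k195 k134 k135 10 9)))))] .n) (.c k197 (.q k69 [(.d k138 k202 k207 7 10), (.s k12 k4 1 (.s k9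
  k11 0 (.s k6 k3 2 (.d k14 k13 k2 0 1))))] .n) .n))) (.c k138 (.q k8 [(.s k12 k4 1 (.s k9 k11 0 (.s
  k14 k13 0 (.d k6 k2 k3 1 2)))), (.s k11 k9 0 (.s k200 k137 8 (.s k136 k72 7 (.s k204 k68 9 (.d
  k192 k196 k133 1 10))))), (.s k12 k4 1 (.s k13 k14 0 (.s k133 k192 10 (.s k73 k193 9 (.s k195 k134
  10 (.d k75 k72 k135 0 9))))))] (.c k13 (.l (.s k12 k4 1 (.s k192 k133 10 (.s k72 k132 9 (.s k200
  k136 7 (.d k11 k137 k9 8 0)))))) .n)) (.c k192 (.q k8 [(.s k12 k4 1 (.s k9 k11 0 (.s k14 k13 0 (.d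
  k6 k2 k3 1 2)))), (.s k11 k9 0 (.s k138 k202 7 (.s k73 k203 8 (.s k200 k137 8 (.d k72 k75 k136 0
  7))))), (.s k12 k4 1 (.s k138 k202 7 (.s k73 k203 8 (.s k195 k134 10 (.d k75 k72 k135 0 9)))))]
  .n) (.c k197 (.l (.s k138 k202 7 (.s k69 k207 10 (.s k192 k133 10 (.d k64 k79 k128 2 7))))) (.c
  k202 (.q k8 [(.s k12 k4 1 (.s k9 k11 0 (.s k14 k13 0 (.d k6 k2 k3 1 2)))), (.s k11 k9 0 (.s k200
  k137 8 (.s k136 k72 7 (.s k204 k68 9 (.d k192 k196 k133 1 10))))), (.s k12 k4 1 (.s k13 k14 0 (.s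
  k133 k192 10 (.s k73 k193 9 (.s k195 k134 10 (.d k75 k72 k135 0 9))))))] (.c k13 (.l (.s k12 k4 1
  (.s k192 k133 10 (.s k72 k132 9 (.s k200 k136 7 (.d k11 k9 k137 0 8)))))) .n)) (.c k207 (.q k8
  [(.s k12 k4 1 (.s k9 k11 0 (.s k14 k13 0 (.d k6 k2 k3 1 2)))), (.s k11 k9 0 (.s k138 k202 7 (.s
  k73 k203 8 (.s k200 k137 8 (.d k72 k75 k136 0 7))))), (.s k12 k4 1 (.s k138 k202 7 (.s k73 k203 8
  (.s k195 k134 10 (.d k75 k72 k135 0 9)))))] .n) .n))))))))))))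

def t19 : T TT 256 :=
  (.f k10 k5 2 (.q k74 [(.s k138 k202 7 (.s k69 k207 10 (.s k192 k133 10 (.d k64 k79 k128 2 7))))]
  (.c k64 (.l (.s k138 k202 7 (.s k207 k69 10 (.s k133 k192 10 (.d k143 k128 k79 2 7))))) (.c k69
  (.q k8 [(.s k12 k4 1 (.s k14 k13 0 (.s k6 k2 1 (.d k9 k11 k3 0 2)))), (.s k11 k9 0 (.s k138 k202 7
  (.s k73 k203 8 (.s k200 k137 8 (.d k72 k75 k136 0 7))))), (.s k12 k4 1 (.s k138 k202 7 (.s k73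
  k203 8 (.s k13 k14 0 (.d k133 k193 k192 9 10)))))] (.c k13 (.l (.s k12 k4 1 (.s k138 k202 7 (.s
  k73 k203 8 (.s k72 k75 0 (.d k192 k132 k133 9 10)))))) (.c k133 (.q k197 [(.s k12 k4 1 (.s k14 k13
  0 (.s k6 k2 1 (.d k9 k11 k3 0 2)))), (.s k11 k9 0 (.s k138 k202 7 (.s k73 k203 8 (.s k200 k137 8
  (.d k72 k75 k136 0 7))))), (.s k12 k4 1 (.s k138 k202 7 (.s k73 k203 8 (.s k75 k72 0 (.d k195 k134
  k135 10 9)))))] (.c k73 (.l (.s k12 k4 1 (.s k9 k11 0 (.s k6 k3 2 (.d k14 k13 k2 0 1))))) .n)) (.c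
  k197 (.l (.s k133 k192 10 (.s k12 k4 1 (.s k9 k11 0 (.s k6 k3 2 (.d k14 k13 k2 0 1)))))) .n))))
  (.c k79 (.f k133 k192 10 (.q k8 [(.s k12 k4 1 (.s k9 k11 0 (.s k14 k13 0 (.d k6 k2 k3 1 2)))), (.s
  k11 k9 0 (.s k138 k202 7 (.s k73 k203 8 (.s k200 k137 8 (.d k72 k75 k136 0 7))))), (.s k12 k4 1
  (.s k138 k202 7 (.s k73 k203 8 (.s k195 k134 10 (.d k75 k72 k135 0 9)))))] (.c k101 (.q k112 [(.s
  k12 k4 1 (.s k9 k11 0 (.s k14 k13 0 (.d k6 k2 k3 1 2)))), (.s k11 k9 0 (.s k138 k202 7 (.s k73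
  k203 8 (.s k200 k137 8 (.d k72 k75 k136 0 7))))), (.s k12 k4 1 (.s k138 k202 7 (.s k73 k203 8 (.s
  k195 k134 10 (.d k75 k72 k135 0 9)))))] .n) (.c k112 (.q k101 [(.s k12 k4 1 (.s k9 k11 0 (.s k14
  k13 0 (.d k6 k2 k3 1 2)))), (.s k11 k9 0 (.s k138 k202 7 (.s k73 k203 8 (.s k200 k137 8 (.d k72
  k75 k136 0 7))))), (.s k12 k4 1 (.s k138 k202 7 (.s k73 k203 8 (.s k195 k134 10 (.d k75 k72 k135 0
  9)))))] .n) .n)))) (.c k128 (.q k8 [(.s k12 k4 1 (.s k14 k13 0 (.s k6 k2 1 (.d k9 k11 k3 0 2)))),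
  (.s k11 k9 0 (.s k138 k202 7 (.s k73 k203 8 (.s k200 k137 8 (.d k72 k75 k136 0 7))))), (.s k12 k4
  1 (.s k138 k202 7 (.s k73 k203 8 (.s k195 k134 10 (.d k75 k72 k135 0 9)))))] .n) (.c k133 (.q k8
  [(.s k12 k4 1 (.s k14 k13 0 (.s k6 k2 1 (.d k9 k11 k3 0 2)))), (.s k11 k9 0 (.s k138 k202 7 (.s
  k73 k203 8 (.s k200 k137 8 (.d k72 k75 k136 0 7))))), (.s k12 k4 1 (.s k138 k202 7 (.s k73 k203 8
  (.s k195 k134 10 (.d k75 k135 k72 9 0)))))] (.c k69 (.q k197 [(.s k12 k4 1 (.s k14 k13 0 (.s k6 k2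
  1 (.d k9 k11 k3 0 2)))), (.s k11 k9 0 (.s k138 k202 7 (.s k73 k203 8 (.s k200 k137 8 (.d k72 k75
  k136 0 7))))), (.s k12 k4 1 (.s k138 k202 7 (.s k73 k203 8 (.s k75 k72 0 (.d k195 k134 k135 10
  9)))))] (.c k73 (.l (.s k12 k4 1 (.s k9 k11 0 (.s k6 k3 2 (.d k14 k13 k2 0 1))))) .n)) (.c k73 (.l
  (.s k12 k4 1 (.s k9 k11 0 (.s k6 k3 2 (.d k14 k13 k2 0 1))))) (.c k197 (.q k69 [(.d k138 k202 k207
  7 10), (.s k12 k4 1 (.s k9 k11 0 (.s k6 k3 2 (.d k14 k13 k2 0 1))))] .n) .n)))) (.c k138 (.q k8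
  [(.s k12 k4 1 (.s k9 k11 0 (.s k14 k13 0 (.d k6 k2 k3 1 2)))), (.s k11 k9 0 (.s k200 k137 8 (.s
  k136 k72 7 (.s k204 k68 9 (.d k192 k196 k133 1 10))))), (.s k12 k4 1 (.s k13 k14 0 (.s k133 k192
  10 (.s k73 k193 9 (.s k195 k134 10 (.d k75 k72 k135 0 9))))))] (.c k13 (.l (.s k12 k4 1 (.s k192
  k133 10 (.s k72 k132 9 (.s k200 k136 7 (.d k11 k137 k9 8 0)))))) .n)) (.c k192 (.q k8 [(.s k12 k4
  1 (.s k14 k13 0 (.s k6 k2 1 (.d k9 k11 k3 0 2)))), (.s k11 k9 0 (.s k138 k202 7 (.s k73 k203 8 (.s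
  k200 k137 8 (.d k72 k75 k136 0 7))))), (.s k12 k4 1 (.s k138 k202 7 (.s k73 k203 8 (.s k195 k134
  10 (.d k75 k72 k135 0 9)))))] .n) (.c k197 (.l (.s k138 k202 7 (.s k69 k207 10 (.s k192 k133 10
  (.d k64 k79 k128 2 7))))) (.c k202 (.q k8 [(.s k12 k4 1 (.s k14 k13 0 (.s k6 k2 1 (.d k9 k11 k3 0
  2)))), (.s k11 k9 0 (.s k200 k137 8 (.s k136 k72 7 (.s k204 k68 9 (.d k192 k196 k133 1 10))))),
  (.s k12 k4 1 (.s k13 k14 0 (.s k133 k192 10 (.s k73 k193 9 (.s k195 k134 10 (.d k75 k72 k135 0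
  9))))))] (.c k13 (.l (.s k12 k4 1 (.s k192 k133 10 (.s k72 k132 9 (.s k200 k136 7 (.d k11 k9 k137
  0 8)))))) .n)) (.c k207 (.q k8 [(.s k12 k4 1 (.s k14 k13 0 (.s k6 k2 1 (.d k9 k11 k3 0 2)))), (.s
  k11 k9 0 (.s k138 k202 7 (.s k73 k203 8 (.s k200 k137 8 (.d k72 k75 k136 0 7))))), (.s k12 k4 1
  (.s k138 k202 7 (.s k73 k203 8 (.s k195 k134 10 (.d k75 k72 k135 0 9)))))] .n) .n))))))))))))

def t21 : T TT 256 :=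
  (.q k138 [(.s k10 k5 2 (.s k207 k69 10 (.s k74 k202 7 (.s k133 k192 10 (.d k143 k128 k79 2 7))))),
  (.s k5 k10 2 (.s k69 k207 10 (.s k133 k197 7 (.s k192 k74 10 (.d k128 k143 k64 2 7)))))] (.c k5
  (.q k12 [(.s k4 k8 1 (.s k69 k207 10 (.s k134 k199 8 (.s k195 k73 10 (.d k130 k142 k65 1 8))))),
  (.s k207 k69 10 (.s k13 k14 0 (.s k77 k142 8 (.s k141 k205 7 (.s k78 k204 8 (.d k79 k76 k143 0
  7)))))), (.s k8 k4 1 (.s k73 k203 8 (.s k13 k14 0 (.s k133 k193 9 (.s k192 k74 10 (.d k128 k143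
  k64 2 7))))))] (.c k37 (.q k53 [(.s k4 k8 1 (.s k69 k207 10 (.s k134 k199 8 (.s k195 k73 10 (.d
  k130 k142 k65 1 8))))), (.s k207 k69 10 (.s k13 k14 0 (.s k77 k142 8 (.s k141 k205 7 (.s k78 k204
  8 (.d k79 k76 k143 0 7)))))), (.s k8 k4 1 (.s k73 k203 8 (.s k13 k14 0 (.s k133 k193 9 (.s k192
  k74 10 (.d k128 k143 k64 2 7))))))] .n) (.c k53 (.q k37 [(.s k4 k8 1 (.s k69 k207 10 (.s k134 k199
  8 (.s k195 k73 10 (.d k130 k142 k65 1 8))))), (.s k13 k14 0 (.s k25 k49 5 (.s k38 k51 6 (.s k48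
  k26 6 (.d k36 k39 k24 0 5)))))] .n) .n))) (.c k10 (.q k12 [(.s k4 k8 1 (.s k69 k207 10 (.s k134
  k199 8 (.s k195 k73 10 (.d k130 k142 k65 1 8))))), (.s k207 k69 10 (.s k13 k14 0 (.s k77 k142 8
  (.s k141 k205 7 (.s k78 k204 8 (.d k79 k76 k143 0 7)))))), (.s k8 k4 1 (.s k73 k203 8 (.s k13 k14
  0 (.s k133 k193 9 (.s k192 k74 10 (.d k128 k143 k64 2 7))))))] (.c k170 (.q k250 [(.s k8 k4 1 (.s
  k69 k207 10 (.s k73 k203 8 (.s k195 k134 10 (.d k65 k77 k130 1 8))))), (.s k207 k69 10 (.s k13 k14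
  0 (.s k77 k142 8 (.s k141 k205 7 (.s k78 k204 8 (.d k79 k76 k143 0 7)))))), (.s k8 k4 1 (.s k73
  k203 8 (.s k13 k14 0 (.s k133 k193 9 (.s k192 k74 10 (.d k128 k143 k64 2 7))))))] .n) (.c k250 (.q
  k170 [(.s k4 k8 1 (.s k69 k207 10 (.s k134 k199 8 (.s k195 k73 10 (.d k130 k142 k65 1 8))))), (.s
  k207 k69 10 (.s k85 k255 14 (.s k154 k186 3 (.s k16 k223 10 (.d k48 k32 k101 3 14))))), (.s k4 k8
  1 (.s k85 k255 14 (.s k166 k247 12 (.s k243 k89 14 (.d k162 k174 k81 1 12)))))] .n) .n))) (.c k69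
  (.q k12 [(.s k4 k8 1 (.s k5 k10 2 (.s k6 k7 0 (.s k9 k3 2 (.d k13 k14 k1 0 1))))), (.s k8 k4 1 (.s
  k73 k203 8 (.s k13 k14 0 (.s k133 k193 9 (.s k192 k74 10 (.d k128 k64 k143 7 2)))))), (.s k10 k5 2
  (.s k74 k202 7 (.s k14 k13 0 (.s k134 k194 9 (.s k195 k73 10 (.d k130 k65 k142 8 1)))))), (.s k8
  k4 1 (.s k10 k5 2 (.s k73 k203 8 (.s k74 k202 7 (.s k72 k75 0 (.d k192 k133 k132 10 9))))))] .n)
  (.c k74 (.f k69 k207 10 (.q k12 [(.s k4 k8 1 (.s k134 k199 8 (.s k130 k142 1 (.d k195 k65 k73 8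
  10)))), (.s k4 k8 1 (.s k5 k10 2 (.s k6 k7 0 (.s k9 k3 2 (.d k13 k14 k1 0 1))))), (.s k5 k10 2 (.s
  k133 k197 7 (.s k13 k14 0 (.s k73 k193 9 (.s k65 k77 1 (.d k195 k134 k130 10 8))))))] (.c k106 (.q
  k122 [(.s k4 k8 1 (.s k134 k199 8 (.s k130 k142 1 (.d k195 k65 k73 8 10)))), (.s k4 k8 1 (.s k5
  k10 2 (.s k6 k7 0 (.s k9 k3 2 (.d k13 k14 k1 0 1))))), (.s k5 k10 2 (.s k133 k197 7 (.s k13 k14 0
  (.s k73 k193 9 (.s k65 k77 1 (.d k195 k134 k130 10 8))))))] .n) (.c k122 (.q k106 [(.s k4 k8 1 (.s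
  k134 k199 8 (.s k130 k142 1 (.d k195 k65 k73 8 10)))), (.s k4 k8 1 (.s k5 k10 2 (.s k6 k7 0 (.s k9
  k3 2 (.d k13 k14 k1 0 1))))), (.s k5 k10 2 (.s k133 k197 7 (.s k13 k14 0 (.s k73 k193 9 (.s k65
  k77 1 (.d k195 k134 k130 10 8))))))] .n) .n)))) (.c k128 (.q k12 [(.s k4 k8 1 (.s k69 k207 10 (.s
  k134 k199 8 (.s k195 k73 10 (.d k130 k142 k65 1 8))))), (.s k4 k8 1 (.s k5 k10 2 (.s k6 k7 0 (.s
  k9 k3 2 (.d k13 k14 k1 0 1))))), (.s k10 k5 2 (.s k207 k69 10 (.s k74 k202 7 (.s k14 k13 0 (.s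
  k142 k77 8 (.d k134 k130 k194 1 9))))))] .n) (.c k133 (.q k12 [(.s k4 k8 1 (.s k69 k207 10 (.s
  k134 k199 8 (.s k130 k142 1 (.d k195 k65 k73 8 10))))), (.s k4 k8 1 (.s k5 k10 2 (.s k6 k7 0 (.s
  k9 k3 2 (.d k13 k14 k1 0 1))))), (.s k10 k5 2 (.s k74 k202 7 (.s k14 k13 0 (.s k134 k194 9 (.s
  k130 k142 1 (.d k195 k73 k65 10 8))))))] .n) (.c k143 (.l (.s k10 k5 2 (.s k69 k207 10 (.s k74
  k202 7 (.s k192 k133 10 (.d k64 k79 k128 2 7)))))) (.c k192 (.q k12 [(.s k4 k8 1 (.s k69 k207 10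
  (.s k134 k199 8 (.s k195 k73 10 (.d k130 k142 k65 1 8))))), (.s k4 k8 1 (.s k5 k10 2 (.s k6 k7 0
  (.s k9 k3 2 (.d k13 k14 k1 0 1))))), (.s k10 k5 2 (.s k207 k69 10 (.s k74 k202 7 (.s k14 k13 0 (.s
  k142 k77 8 (.d k134 k130 k194 1 9))))))] .n) (.c k197 (.l (.s k10 k5 2 (.s k69 k207 10 (.s k74
  k202 7 (.s k192 k133 10 (.d k64 k79 k128 2 7)))))) (.c k202 (.l (.s k5 k10 2 (.s k69 k207 10 (.s
  k133 k197 7 (.s k192 k74 10 (.d k128 k143 k64 2 7)))))) (.c k207 (.q k12 [(.s k4 k8 1 (.s k5 k10 2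
  (.s k6 k7 0 (.s k9 k3 2 (.d k13 k14 k1 0 1))))), (.s k8 k4 1 (.s k73 k203 8 (.s k13 k14 0 (.s k133
  k193 9 (.s k192 k74 10 (.d k128 k143 k64 2 7)))))), (.s k10 k5 2 (.s k74 k202 7 (.s k14 k13 0 (.s
  k134 k194 9 (.s k195 k73 10 (.d k130 k142 k65 1 8)))))), (.s k8 k4 1 (.s k10 k5 2 (.s k73 k203 8
  (.s k74 k202 7 (.s k195 k134 10 (.d k75 k72 k135 0 9))))))] .n) .n))))))))))))

def t22 : T TT 256 :=
  (.f k10 k5 2 (.q k74 [(.s k138 k202 7 (.s k69 k207 10 (.s k192 k133 10 (.d k64 k79 k128 2 7))))]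
  (.c k64 (.l (.s k138 k202 7 (.s k207 k69 10 (.s k133 k192 10 (.d k143 k128 k79 2 7))))) (.c k69
  (.q k8 [(.s k12 k4 1 (.s k9 k11 0 (.s k14 k13 0 (.d k6 k2 k3 1 2)))), (.s k11 k9 0 (.s k138 k202 7
  (.s k73 k203 8 (.s k200 k137 8 (.d k72 k75 k136 0 7))))), (.s k12 k4 1 (.s k138 k202 7 (.s k73
  k203 8 (.s k13 k14 0 (.d k133 k193 k192 9 10)))))] (.c k13 (.l (.s k12 k4 1 (.s k138 k202 7 (.s
  k73 k203 8 (.s k72 k75 0 (.d k192 k132 k133 9 10)))))) (.c k133 (.q k197 [(.s k12 k4 1 (.s k9 k11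
  0 (.s k6 k3 2 (.d k14 k13 k2 0 1)))), (.s k11 k9 0 (.s k138 k202 7 (.s k73 k203 8 (.s k200 k137 8
  (.d k72 k75 k136 0 7))))), (.s k12 k4 1 (.s k138 k202 7 (.s k73 k203 8 (.s k75 k72 0 (.d k195 k134
  k135 10 9)))))] .n) (.c k197 (.l (.s k133 k192 10 (.s k12 k4 1 (.s k9 k11 0 (.s k6 k3 2 (.d k14
  k13 k2 0 1)))))) .n)))) (.c k79 (.f k133 k192 10 (.q k8 [(.s k12 k4 1 (.s k9 k11 0 (.s k14 k13 0
  (.d k6 k2 k3 1 2)))), (.s k11 k9 0 (.s k138 k202 7 (.s k73 k203 8 (.s k200 k137 8 (.d k72 k75 k136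
  0 7))))), (.s k12 k4 1 (.s k138 k202 7 (.s k73 k203 8 (.s k195 k134 10 (.d k75 k72 k135 0 9)))))]
  (.c k101 (.q k112 [(.s k12 k4 1 (.s k9 k11 0 (.s k14 k13 0 (.d k6 k2 k3 1 2)))), (.s k11 k9 0 (.s
  k138 k202 7 (.s k73 k203 8 (.s k200 k137 8 (.d k72 k75 k136 0 7))))), (.s k12 k4 1 (.s k138 k202 7
  (.s k73 k203 8 (.s k195 k134 10 (.d k75 k72 k135 0 9)))))] .n) (.c k112 (.q k101 [(.s k12 k4 1 (.s
  k9 k11 0 (.s k14 k13 0 (.d k6 k2 k3 1 2)))), (.s k11 k9 0 (.s k138 k202 7 (.s k73 k203 8 (.s k200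
  k137 8 (.d k72 k75 k136 0 7))))), (.s k12 k4 1 (.s k138 k202 7 (.s k73 k203 8 (.s k195 k134 10 (.d
  k75 k72 k135 0 9)))))] .n) .n)))) (.c k128 (.q k8 [(.s k12 k4 1 (.s k9 k11 0 (.s k14 k13 0 (.d k6
  k2 k3 1 2)))), (.s k11 k9 0 (.s k138 k202 7 (.s k73 k203 8 (.s k200 k137 8 (.d k72 k75 k136 0
  7))))), (.s k12 k4 1 (.s k138 k202 7 (.s k73 k203 8 (.s k195 k134 10 (.d k75 k72 k135 0 9)))))]
  .n) (.c k133 (.q k8 [(.s k12 k4 1 (.s k9 k11 0 (.s k6 k3 2 (.d k14 k13 k2 0 1)))), (.s k11 k9 0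
  (.s k138 k202 7 (.s k73 k203 8 (.s k200 k137 8 (.d k72 k75 k136 0 7))))), (.s k12 k4 1 (.s k138
  k202 7 (.s k73 k203 8 (.s k195 k134 10 (.d k75 k135 k72 9 0)))))] (.c k69 (.q k197 [(.s k12 k4 1
  (.s k9 k11 0 (.s k6 k3 2 (.d k14 k13 k2 0 1)))), (.s k11 k9 0 (.s k138 k202 7 (.s k73 k203 8 (.s
  k200 k137 8 (.d k72 k75 k136 0 7))))), (.s k12 k4 1 (.s k138 k202 7 (.s k73 k203 8 (.s k75 k72 0
  (.d k195 k134 k135 10 9)))))] .n) (.c k197 (.q k69 [(.d k138 k202 k207 7 10), (.s k12 k4 1 (.s k9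
  k11 0 (.s k6 k3 2 (.d k14 k13 k2 0 1))))] .n) .n))) (.c k138 (.q k8 [(.s k12 k4 1 (.s k9 k11 0 (.s
  k14 k13 0 (.d k6 k2 k3 1 2)))), (.s k11 k9 0 (.s k200 k137 8 (.s k136 k72 7 (.s k204 k68 9 (.d
  k192 k196 k133 1 10))))), (.s k12 k4 1 (.s k13 k14 0 (.s k133 k192 10 (.s k73 k193 9 (.s k195 k134
  10 (.d k75 k72 k135 0 9))))))] (.c k13 (.l (.s k12 k4 1 (.s k192 k133 10 (.s k72 k132 9 (.s k200
  k136 7 (.d k11 k137 k9 8 0)))))) .n)) (.c k192 (.q k8 [(.s k12 k4 1 (.s k9 k11 0 (.s k14 k13 0 (.d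
  k6 k2 k3 1 2)))), (.s k11 k9 0 (.s k138 k202 7 (.s k73 k203 8 (.s k200 k137 8 (.d k72 k75 k136 0
  7))))), (.s k12 k4 1 (.s k138 k202 7 (.s k73 k203 8 (.s k195 k134 10 (.d k75 k72 k135 0 9)))))]
  .n) (.c k197 (.l (.s k138 k202 7 (.s k69 k207 10 (.s k192 k133 10 (.d k64 k79 k128 2 7))))) (.c
  k202 (.q k8 [(.s k12 k4 1 (.s k9 k11 0 (.s k14 k13 0 (.d k6 k2 k3 1 2)))), (.s k11 k9 0 (.s k200
  k137 8 (.s k136 k72 7 (.s k204 k68 9 (.d k192 k196 k133 1 10))))), (.s k12 k4 1 (.s k13 k14 0 (.s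
  k133 k192 10 (.s k73 k193 9 (.s k195 k134 10 (.d k75 k72 k135 0 9))))))] (.c k13 (.l (.s k12 k4 1
  (.s k192 k133 10 (.s k72 k132 9 (.s k200 k136 7 (.d k11 k9 k137 0 8)))))) .n)) (.c k207 (.q k8
  [(.s k12 k4 1 (.s k9 k11 0 (.s k14 k13 0 (.d k6 k2 k3 1 2)))), (.s k11 k9 0 (.s k138 k202 7 (.s
  k73 k203 8 (.s k200 k137 8 (.d k72 k75 k136 0 7))))), (.s k12 k4 1 (.s k138 k202 7 (.s k73 k203 8
  (.s k195 k134 10 (.d k75 k72 k135 0 9)))))] .n) .n))))))))))))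

def t23 : T TT 256 :=
  (.q k138 [(.s k10 k5 2 (.s k207 k69 10 (.s k74 k202 7 (.s k133 k192 10 (.d k143 k128 k79 2 7)))))]
  (.c k5 (.q k12 [(.s k4 k8 1 (.s k69 k207 10 (.s k134 k199 8 (.s k195 k73 10 (.d k130 k142 k65 1
  8))))), (.s k207 k69 10 (.s k13 k14 0 (.s k77 k142 8 (.s k141 k205 7 (.s k78 k204 8 (.d k79 k76
  k143 0 7)))))), (.s k8 k4 1 (.s k73 k203 8 (.s k13 k14 0 (.s k133 k193 9 (.s k192 k74 10 (.d k128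
  k143 k64 2 7))))))] .n) (.c k10 (.q k12 [(.s k8 k4 1 (.s k69 k207 10 (.s k73 k203 8 (.s k195 k134
  10 (.d k65 k77 k130 1 8))))), (.s k207 k69 10 (.s k13 k14 0 (.s k77 k142 8 (.s k141 k205 7 (.s k78
  k204 8 (.d k79 k76 k143 0 7)))))), (.s k8 k4 1 (.s k73 k203 8 (.s k13 k14 0 (.s k133 k193 9 (.s
  k192 k74 10 (.d k128 k143 k64 2 7))))))] (.c k170 (.q k250 [(.s k8 k4 1 (.s k69 k207 10 (.s k73
  k203 8 (.s k195 k134 10 (.d k65 k77 k130 1 8))))), (.s k207 k69 10 (.s k13 k14 0 (.s k77 k142 8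
  (.s k141 k205 7 (.s k78 k204 8 (.d k79 k76 k143 0 7)))))), (.s k8 k4 1 (.s k73 k203 8 (.s k13 k14
  0 (.s k133 k193 9 (.s k192 k74 10 (.d k128 k143 k64 2 7))))))] .n) (.c k250 (.q k170 [(.s k8 k4 1
  (.s k69 k207 10 (.s k73 k203 8 (.s k195 k134 10 (.d k65 k77 k130 1 8))))), (.s k207 k69 10 (.s k85
  k255 14 (.s k154 k186 3 (.s k16 k223 10 (.d k48 k32 k101 3 14))))), (.s k4 k8 1 (.s k85 k255 14
  (.s k166 k247 12 (.s k243 k89 14 (.d k162 k174 k81 1 12)))))] .n) .n))) (.c k69 (.q k12 [(.s k8 k4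
  1 (.s k14 k13 0 (.s k10 k5 2 (.s k6 k2 1 (.d k9 k11 k3 0 2))))), (.s k8 k4 1 (.s k73 k203 8 (.s
  k13 k14 0 (.s k133 k193 9 (.s k192 k74 10 (.d k128 k64 k143 7 2)))))), (.s k4 k8 1 (.s k5 k10 2
  (.s k6 k7 0 (.s k9 k3 2 (.d k13 k14 k1 0 1))))), (.s k10 k5 2 (.s k74 k202 7 (.s k14 k13 0 (.s
  k134 k194 9 (.s k195 k73 10 (.d k130 k65 k142 8 1)))))), (.s k8 k4 1 (.s k10 k5 2 (.s k73 k203 8
  (.s k74 k202 7 (.s k72 k75 0 (.d k192 k133 k132 10 9))))))] .n) (.c k74 (.f k69 k207 10 (.q k12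
  [(.s k4 k8 1 (.s k134 k199 8 (.s k130 k142 1 (.d k195 k65 k73 8 10)))), (.s k4 k8 1 (.s k5 k10 2
  (.s k6 k7 0 (.s k9 k3 2 (.d k13 k14 k1 0 1))))), (.s k5 k10 2 (.s k133 k197 7 (.s k13 k14 0 (.s
  k73 k193 9 (.s k65 k77 1 (.d k195 k134 k130 10 8))))))] (.c k106 (.q k122 [(.s k4 k8 1 (.s k134
  k199 8 (.s k130 k142 1 (.d k195 k65 k73 8 10)))), (.s k4 k8 1 (.s k5 k10 2 (.s k6 k7 0 (.s k9 k3 2
  (.d k13 k14 k1 0 1))))), (.s k5 k10 2 (.s k133 k197 7 (.s k13 k14 0 (.s k73 k193 9 (.s k65 k77 1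
  (.d k195 k134 k130 10 8))))))] .n) (.c k122 (.q k106 [(.s k4 k8 1 (.s k134 k199 8 (.s k130 k142 1
  (.d k195 k65 k73 8 10)))), (.s k4 k8 1 (.s k5 k10 2 (.s k6 k7 0 (.s k9 k3 2 (.d k13 k14 k1 0
  1))))), (.s k5 k10 2 (.s k133 k197 7 (.s k13 k14 0 (.s k73 k193 9 (.s k65 k77 1 (.d k195 k134 k130
  10 8))))))] .n) .n)))) (.c k79 (.l (.s k5 k10 2 (.s k69 k207 10 (.s k133 k197 7 (.s k192 k74 10
  (.d k128 k143 k64 2 7)))))) (.c k128 (.q k12 [(.s k4 k8 1 (.s k69 k207 10 (.s k134 k199 8 (.s k195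
  k73 10 (.d k130 k142 k65 1 8))))), (.s k4 k8 1 (.s k5 k10 2 (.s k6 k7 0 (.s k9 k3 2 (.d k13 k14 k1
  0 1))))), (.s k10 k5 2 (.s k207 k69 10 (.s k74 k202 7 (.s k14 k13 0 (.s k142 k77 8 (.d k134 k130
  k194 1 9))))))] .n) (.c k133 (.q k12 [(.s k4 k8 1 (.s k69 k207 10 (.s k134 k199 8 (.s k130 k142 1
  (.d k195 k65 k73 8 10))))), (.s k4 k8 1 (.s k5 k10 2 (.s k6 k7 0 (.s k9 k3 2 (.d k13 k14 k1 0
  1))))), (.s k10 k5 2 (.s k74 k202 7 (.s k14 k13 0 (.s k134 k194 9 (.s k130 k142 1 (.d k195 k73 k65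
  10 8))))))] .n) (.c k143 (.l (.s k10 k5 2 (.s k69 k207 10 (.s k74 k202 7 (.s k192 k133 10 (.d k64
  k79 k128 2 7)))))) (.c k192 (.q k12 [(.s k4 k8 1 (.s k69 k207 10 (.s k134 k199 8 (.s k195 k73 10
  (.d k130 k142 k65 1 8))))), (.s k4 k8 1 (.s k5 k10 2 (.s k6 k7 0 (.s k9 k3 2 (.d k13 k14 k1 0
  1))))), (.s k10 k5 2 (.s k207 k69 10 (.s k74 k202 7 (.s k14 k13 0 (.s k142 k77 8 (.d k134 k130
  k194 1 9))))))] .n) (.c k197 (.l (.s k10 k5 2 (.s k69 k207 10 (.s k74 k202 7 (.s k192 k133 10 (.d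
  k64 k79 k128 2 7)))))) (.c k202 (.l (.s k5 k10 2 (.s k69 k207 10 (.s k133 k197 7 (.s k192 k74 10
  (.d k128 k143 k64 2 7)))))) (.c k207 (.q k12 [(.s k8 k4 1 (.s k14 k13 0 (.s k10 k5 2 (.s k6 k2 1
  (.d k9 k11 k3 0 2))))), (.s k8 k4 1 (.s k73 k203 8 (.s k13 k14 0 (.s k133 k193 9 (.s k192 k74 10
  (.d k128 k143 k64 2 7)))))), (.s k10 k5 2 (.s k74 k202 7 (.s k14 k13 0 (.s k134 k194 9 (.s k195
  k73 10 (.d k130 k142 k65 1 8)))))), (.s k8 k4 1 (.s k10 k5 2 (.s k73 k203 8 (.s k74 k202 7 (.s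
  k195 k134 10 (.d k75 k72 k135 0 9))))))] .n) .n)))))))))))))

def t26 : T TT 256 :=
  (.f k10 k5 2 (.q k74 [(.s k138 k202 7 (.s k69 k207 10 (.s k192 k133 10 (.d k64 k79 k128 2 7))))]
  (.c k64 (.l (.s k138 k202 7 (.s k207 k69 10 (.s k133 k192 10 (.d k143 k128 k79 2 7))))) (.c k69
  (.q k8 [(.s k12 k4 1 (.s k14 k13 0 (.s k6 k2 1 (.d k9 k11 k3 0 2)))), (.s k11 k9 0 (.s k138 k202 7
  (.s k73 k203 8 (.s k200 k137 8 (.d k72 k75 k136 0 7))))), (.s k12 k4 1 (.s k138 k202 7 (.s k73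
  k203 8 (.s k13 k14 0 (.d k133 k193 k192 9 10)))))] (.c k13 (.l (.s k12 k4 1 (.s k138 k202 7 (.s
  k73 k203 8 (.s k72 k75 0 (.d k192 k132 k133 9 10)))))) (.c k133 (.q k197 [(.s k12 k4 1 (.s k14 k13
  0 (.s k6 k2 1 (.d k9 k11 k3 0 2)))), (.s k11 k9 0 (.s k138 k202 7 (.s k73 k203 8 (.s k200 k137 8
  (.d k72 k75 k136 0 7))))), (.s k12 k4 1 (.s k138 k202 7 (.s k73 k203 8 (.s k75 k72 0 (.d k195 k134
  k135 10 9)))))] (.c k73 (.l (.s k12 k4 1 (.s k9 k11 0 (.s k6 k3 2 (.d k14 k13 k2 0 1))))) (.c k154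
  (.q k218 [(.s k12 k4 1 (.s k14 k13 0 (.s k6 k2 1 (.d k9 k11 k3 0 2)))), (.s k11 k9 0 (.s k138 k202
  7 (.s k73 k203 8 (.s k200 k137 8 (.d k72 k75 k136 0 7))))), (.s k12 k4 1 (.s k138 k202 7 (.s k73
  k203 8 (.s k75 k72 0 (.d k195 k134 k135 10 9)))))] (.c k73 (.l (.s k12 k4 1 (.s k9 k11 0 (.s k6 k3
  2 (.d k14 k13 k2 0 1))))) .n)) (.c k218 (.q k154 [(.s k12 k4 1 (.s k14 k13 0 (.s k6 k2 1 (.d k9
  k11 k3 0 2)))), (.s k11 k9 0 (.s k138 k202 7 (.s k73 k203 8 (.s k200 k137 8 (.d k72 k75 k136 0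
  7))))), (.s k12 k4 1 (.s k138 k202 7 (.s k73 k203 8 (.s k75 k72 0 (.d k195 k134 k135 10 9)))))]
  (.c k73 (.l (.s k12 k4 1 (.s k9 k11 0 (.s k6 k3 2 (.d k14 k13 k2 0 1))))) .n)) .n)))) (.c k154 (.q
  k218 [(.s k12 k4 1 (.s k14 k13 0 (.s k6 k2 1 (.d k9 k11 k3 0 2)))), (.s k11 k9 0 (.s k138 k202 7
  (.s k73 k203 8 (.s k200 k137 8 (.d k72 k75 k136 0 7))))), (.s k12 k4 1 (.s k138 k202 7 (.s k73
  k203 8 (.s k13 k14 0 (.d k133 k193 k192 9 10)))))] (.c k13 (.l (.s k12 k4 1 (.s k138 k202 7 (.s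
  k73 k203 8 (.s k72 k75 0 (.d k192 k132 k133 9 10)))))) (.c k133 (.q k197 [(.s k12 k4 1 (.s k14 k13
  0 (.s k6 k2 1 (.d k9 k11 k3 0 2)))), (.s k11 k9 0 (.s k138 k202 7 (.s k73 k203 8 (.s k200 k137 8
  (.d k72 k75 k136 0 7))))), (.s k12 k4 1 (.s k138 k202 7 (.s k73 k203 8 (.s k75 k72 0 (.d k195 k134
  k135 10 9)))))] (.c k73 (.l (.s k12 k4 1 (.s k9 k11 0 (.s k6 k3 2 (.d k14 k13 k2 0 1))))) .n)) (.c
  k197 (.l (.s k133 k192 10 (.s k12 k4 1 (.s k9 k11 0 (.s k6 k3 2 (.d k14 k13 k2 0 1)))))) .n))))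
  (.c k197 (.l (.s k133 k192 10 (.s k12 k4 1 (.s k9 k11 0 (.s k6 k3 2 (.d k14 k13 k2 0 1)))))) (.c
  k218 (.q k154 [(.s k12 k4 1 (.s k14 k13 0 (.s k6 k2 1 (.d k9 k11 k3 0 2)))), (.s k11 k9 0 (.s k138
  k202 7 (.s k73 k203 8 (.s k200 k137 8 (.d k72 k75 k136 0 7))))), (.s k12 k4 1 (.s k138 k202 7 (.s
  k73 k203 8 (.s k13 k14 0 (.d k133 k193 k192 9 10)))))] (.c k13 (.l (.s k12 k4 1 (.s k138 k202 7
  (.s k73 k203 8 (.s k72 k75 0 (.d k192 k132 k133 9 10)))))) (.c k133 (.q k197 [(.s k12 k4 1 (.s k14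
  k13 0 (.s k6 k2 1 (.d k9 k11 k3 0 2)))), (.s k11 k9 0 (.s k138 k202 7 (.s k73 k203 8 (.s k200 k137
  8 (.d k72 k75 k136 0 7))))), (.s k12 k4 1 (.s k138 k202 7 (.s k73 k203 8 (.s k75 k72 0 (.d k195
  k134 k135 10 9)))))] (.c k73 (.l (.s k12 k4 1 (.s k9 k11 0 (.s k6 k3 2 (.d k14 k13 k2 0 1)))))
  .n)) (.c k197 (.l (.s k133 k192 10 (.s k12 k4 1 (.s k9 k11 0 (.s k6 k3 2 (.d k14 k13 k2 0 1))))))
  .n)))) .n)))))) (.c k79 (.q k1 [(.s k3 k2 0 (.s k11 k7 1 (.s k138 k202 7 (.s k69 k207 10 (.d k137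
  k200 k205 8 9))))), (.s k2 k3 0 (.s k138 k202 7 (.s k70 k206 9 (.s k66 k78 1 (.s k194 k130 7 (.d
  k14 k6 k134 1 9)))))), (.s k138 k202 7 (.s k69 k207 10 (.s k137 k205 9 (.s k11 k200 8 (.s k8 k9 0
  (.s k203 k73 8 (.d k139 k136 k75 0 7))))))), (.s k2 k3 0 (.s k14 k6 1 (.s k194 k134 9 (.s k130 k66
  7 (.s k195 k65 8 (.d k192 k193 k133 0 10))))))] (.c k101 (.q k112 [(.s k3 k2 0 (.s k11 k7 1 (.s
  k138 k202 7 (.s k137 k200 8 (.d k69 k205 k207 9 10))))), (.s k2 k3 0 (.s k138 k202 7 (.s k70 k206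
  9 (.s k66 k78 1 (.s k194 k130 7 (.d k14 k6 k134 1 9)))))), (.s k138 k202 7 (.s k69 k207 10 (.s
  k137 k205 9 (.s k11 k200 8 (.s k8 k9 0 (.s k203 k73 8 (.d k139 k136 k75 0 7))))))), (.s k2 k3 0
  (.s k14 k6 1 (.s k194 k134 9 (.s k130 k66 7 (.s k195 k65 8 (.d k192 k193 k133 0 10))))))] (.c k154
  (.q k218 [(.s k3 k2 0 (.s k11 k7 1 (.s k137 k200 8 (.s k69 k205 9 (.d k138 k207 k202 10 7))))),
  (.s k138 k202 7 (.s k207 k69 10 (.s k240 k229 6 (.s k80 k160 11 (.s k64 k96 3 (.d k192 k133 k128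
  10 7)))))), (.s k3 k2 0 (.s k7 k11 1 (.s k133 k192 10 (.s k70 k196 8 (.s k204 k137 10 (.d k78 k66
  k141 1 8))))))] (.c k48 (.q k207 [(.d k138 k202 k69 7 10), (.s k192 k133 10 (.s k240 k229 6 (.s
  k80 k160 11 (.d k64 k96 k128 3 7))))] (.c k69 (.l (.s k202 k138 7 (.d k192 k197 k133 2 10))) .n))
  (.c k207 (.q k48 [(.s k192 k133 10 (.s k64 k128 7 (.d k96 k80 k144 3 11))), (.s k3 k2 0 (.s k32
  k16 3 (.s k33 k18 4 (.s k17 k49 3 (.d k34 k35 k51 0 4)))))] .n) .n))) (.c k218 (.q k154 [(.s k3 k2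
  0 (.s k11 k7 1 (.s k137 k200 8 (.s k69 k205 9 (.d k138 k202 k207 7 10))))), (.s k2 k3 0 (.s k138
  k202 7 (.s k70 k206 9 (.s k66 k78 1 (.s k194 k130 7 (.d k14 k6 k134 1 9)))))), (.s k138 k202 7 (.s
  k69 k207 10 (.s k137 k205 9 (.s k11 k200 8 (.s k8 k9 0 (.s k203 k73 8 (.d k139 k136 k75 0
  7))))))), (.s k2 k3 0 (.s k14 k6 1 (.s k194 k134 9 (.s k130 k66 7 (.s k195 k65 8 (.d k192 k193
  k133 0 10))))))] .n) .n))) (.c k112 (.q k101 [(.s k3 k2 0 (.s k11 k7 1 (.s k138 k202 7 (.s k69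
  k207 10 (.d k137 k200 k205 8 9))))), (.s k138 k202 7 (.s k207 k69 10 (.s k154 k48 14 (.s k170 k186
  3 (.s k255 k85 14 (.d k239 k223 k32 3 10)))))), (.s k2 k3 0 (.s k14 k6 1 (.s k194 k134 9 (.s k130
  k66 7 (.s k195 k65 8 (.d k192 k193 k133 0 10))))))] (.c k154 (.q k218 [(.s k3 k2 0 (.s k11 k7 1
  (.s k137 k200 8 (.s k69 k205 9 (.d k138 k202 k207 7 10))))), (.s k2 k3 0 (.s k138 k202 7 (.s k70
  k206 9 (.s k66 k78 1 (.s k194 k130 7 (.d k14 k6 k134 1 9)))))), (.s k138 k202 7 (.s k69 k207 10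
  (.s k137 k205 9 (.s k11 k200 8 (.s k8 k9 0 (.s k203 k73 8 (.d k139 k136 k75 0 7))))))), (.s k2 k3
  0 (.s k14 k6 1 (.s k194 k134 9 (.s k130 k66 7 (.s k195 k65 8 (.d k192 k193 k133 0 10))))))] .n)
  (.c k218 (.q k154 [(.s k138 k202 7 (.d k207 k69 k48 10 14)), (.s k48 k207 14 (.s k16 k32 3 (.s k85
  k223 10 (.s k255 k170 14 (.d k117 k69 k186 3 10))))), (.s k138 k202 7 (.s k170 k186 3 (.s k32 k239
  10 (.s k16 k48 3 (.d k85 k255 k223 14 10)))))] (.c k48 (.l (.s k138 k202 7 (.s k69 k207 10 (.s k85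
  k117 3 (.d k170 k186 k255 3 14))))) .n)) .n))) (.c k154 (.q k218 [(.s k3 k2 0 (.s k11 k7 1 (.s
  k137 k200 8 (.s k69 k205 9 (.d k138 k202 k207 7 10))))), (.s k2 k3 0 (.s k138 k202 7 (.s k70 k206
  9 (.s k66 k78 1 (.s k194 k130 7 (.d k14 k6 k134 1 9)))))), (.s k138 k202 7 (.s k69 k207 10 (.s
  k137 k205 9 (.s k11 k200 8 (.s k8 k9 0 (.s k203 k73 8 (.d k139 k136 k75 0 7))))))), (.s k2 k3 0
  (.s k14 k6 1 (.s k194 k134 9 (.s k130 k66 7 (.s k195 k65 8 (.d k192 k193 k133 0 10))))))] (.c k101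
  (.q k112 [(.s k3 k2 0 (.s k11 k7 1 (.s k137 k200 8 (.s k69 k205 9 (.d k138 k207 k202 10 7))))),
  (.s k138 k202 7 (.s k207 k69 10 (.s k240 k229 6 (.s k80 k160 11 (.s k64 k96 3 (.d k192 k133 k128
  10 7)))))), (.s k3 k2 0 (.s k7 k11 1 (.s k133 k192 10 (.s k70 k196 8 (.s k204 k137 10 (.d k78 k66
  k141 1 8))))))] (.c k48 (.q k207 [(.d k138 k202 k69 7 10), (.s k192 k133 10 (.s k240 k229 6 (.s
  k80 k160 11 (.d k64 k96 k128 3 7))))] (.c k69 (.l (.s k202 k138 7 (.d k192 k197 k133 2 10))) .n))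
  (.c k207 (.q k48 [(.s k192 k133 10 (.s k64 k128 7 (.d k96 k80 k144 3 11))), (.s k3 k2 0 (.s k32
  k16 3 (.s k33 k18 4 (.s k17 k49 3 (.d k34 k35 k51 0 4)))))] .n) .n))) (.c k112 (.q k101 [(.s k3 k2
  0 (.s k11 k7 1 (.s k137 k200 8 (.s k69 k205 9 (.d k138 k202 k207 7 10))))), (.s k2 k3 0 (.s k138
  k202 7 (.s k70 k206 9 (.s k66 k78 1 (.s k194 k130 7 (.d k14 k6 k134 1 9)))))), (.s k138 k202 7 (.s
  k69 k207 10 (.s k137 k205 9 (.s k11 k200 8 (.s k8 k9 0 (.s k203 k73 8 (.d k139 k136 k75 0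
  7))))))), (.s k2 k3 0 (.s k14 k6 1 (.s k194 k134 9 (.s k130 k66 7 (.s k195 k65 8 (.d k192 k193
  k133 0 10))))))] .n) .n))) (.c k218 (.q k154 [(.s k3 k2 0 (.s k11 k7 1 (.s k137 k200 8 (.s k69
  k205 9 (.d k138 k202 k207 7 10))))), (.s k138 k202 7 (.s k207 k69 10 (.s k101 k48 14 (.s k170 k186
  3 (.s k255 k85 14 (.d k239 k223 k32 3 10)))))), (.s k2 k3 0 (.s k14 k6 1 (.s k194 k134 9 (.s k130
  k66 7 (.s k195 k65 8 (.d k192 k193 k133 0 10))))))] (.c k101 (.q k112 [(.s k3 k2 0 (.s k11 k7 1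
  (.s k137 k200 8 (.s k69 k205 9 (.d k138 k202 k207 7 10))))), (.s k2 k3 0 (.s k138 k202 7 (.s k70
  k206 9 (.s k66 k78 1 (.s k194 k130 7 (.d k14 k6 k134 1 9)))))), (.s k138 k202 7 (.s k69 k207 10
  (.s k137 k205 9 (.s k11 k200 8 (.s k8 k9 0 (.s k203 k73 8 (.d k139 k136 k75 0 7))))))), (.s k2 k3
  0 (.s k14 k6 1 (.s k194 k134 9 (.s k130 k66 7 (.s k195 k65 8 (.d k192 k193 k133 0 10))))))] .n)
  (.c k112 (.q k101 [(.s k138 k202 7 (.d k207 k69 k48 10 14)), (.s k48 k207 14 (.s k16 k32 3 (.s k85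
  k223 10 (.s k255 k170 14 (.d k117 k69 k186 3 10))))), (.s k138 k202 7 (.s k170 k186 3 (.s k32 k239
  10 (.s k16 k48 3 (.d k85 k255 k223 14 10)))))] (.c k48 (.l (.s k138 k202 7 (.s k69 k207 10 (.s k85
  k117 3 (.d k170 k186 k255 3 14))))) .n)) .n))) .n))))) (.c k128 (.q k1 [(.s k3 k2 0 (.s k11 k7 1
  (.s k138 k202 7 (.s k69 k207 10 (.d k137 k200 k205 8 9))))), (.s k2 k3 0 (.s k138 k202 7 (.s k70
  k206 9 (.s k66 k78 1 (.s k194 k130 7 (.d k14 k6 k134 1 9)))))), (.s k138 k202 7 (.s k69 k207 10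
  (.s k137 k205 9 (.s k11 k200 8 (.s k8 k9 0 (.s k203 k73 8 (.d k139 k136 k75 0 7))))))), (.s k2 k3
  0 (.s k14 k6 1 (.s k194 k134 9 (.s k130 k66 7 (.s k195 k65 8 (.d k192 k193 k133 0 10))))))] (.c
  k154 (.q k218 [(.s k3 k2 0 (.s k11 k7 1 (.s k137 k200 8 (.s k69 k205 9 (.d k138 k202 k207 7
  10))))), (.s k2 k3 0 (.s k138 k202 7 (.s k70 k206 9 (.s k66 k78 1 (.s k194 k130 7 (.d k14 k6 k134
  1 9)))))), (.s k138 k202 7 (.s k69 k207 10 (.s k137 k205 9 (.s k11 k200 8 (.s k8 k9 0 (.s k203 k73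
  8 (.d k139 k136 k75 0 7))))))), (.s k2 k3 0 (.s k14 k6 1 (.s k194 k134 9 (.s k130 k66 7 (.s k195
  k65 8 (.d k192 k193 k133 0 10))))))] .n) (.c k218 (.q k154 [(.s k3 k2 0 (.s k11 k7 1 (.s k137 k200
  8 (.s k69 k205 9 (.d k138 k202 k207 7 10))))), (.s k138 k202 7 (.s k207 k69 10 (.s k48 k101 14 (.s
  k16 k32 3 (.s k85 k223 10 (.d k170 k186 k255 3 14)))))), (.s k2 k3 0 (.s k14 k6 1 (.s k194 k134 9
  (.s k130 k66 7 (.s k195 k65 8 (.d k192 k193 k133 0 10))))))] .n) .n))) (.c k133 (.q k8 [(.s k12 k4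
  1 (.s k14 k13 0 (.s k6 k2 1 (.d k9 k11 k3 0 2)))), (.s k11 k9 0 (.s k138 k202 7 (.s k73 k203 8 (.s
  k200 k137 8 (.d k72 k75 k136 0 7))))), (.s k12 k4 1 (.s k138 k202 7 (.s k73 k203 8 (.s k195 k134
  10 (.d k75 k135 k72 9 0)))))] (.c k69 (.q k197 [(.s k12 k4 1 (.s k14 k13 0 (.s k6 k2 1 (.d k9 k11
  k3 0 2)))), (.s k11 k9 0 (.s k138 k202 7 (.s k73 k203 8 (.s k200 k137 8 (.d k72 k75 k136 0 7))))),
  (.s k12 k4 1 (.s k138 k202 7 (.s k73 k203 8 (.s k75 k72 0 (.d k195 k134 k135 10 9)))))] (.c k73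
  (.l (.s k12 k4 1 (.s k9 k11 0 (.s k6 k3 2 (.d k14 k13 k2 0 1))))) (.c k154 (.q k218 [(.s k12 k4 1
  (.s k14 k13 0 (.s k6 k2 1 (.d k9 k11 k3 0 2)))), (.s k11 k9 0 (.s k138 k202 7 (.s k73 k203 8 (.s
  k200 k137 8 (.d k72 k75 k136 0 7))))), (.s k12 k4 1 (.s k138 k202 7 (.s k73 k203 8 (.s k75 k72 0
  (.d k195 k134 k135 10 9)))))] (.c k73 (.l (.s k12 k4 1 (.s k9 k11 0 (.s k6 k3 2 (.d k14 k13 k2 0
  1))))) .n)) (.c k218 (.q k154 [(.s k12 k4 1 (.s k14 k13 0 (.s k6 k2 1 (.d k9 k11 k3 0 2)))), (.s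
  k11 k9 0 (.s k138 k202 7 (.s k73 k203 8 (.s k200 k137 8 (.d k72 k75 k136 0 7))))), (.s k12 k4 1
  (.s k138 k202 7 (.s k73 k203 8 (.s k75 k72 0 (.d k195 k134 k135 10 9)))))] (.c k73 (.l (.s k12 k4
  1 (.s k9 k11 0 (.s k6 k3 2 (.d k14 k13 k2 0 1))))) .n)) .n)))) (.c k73 (.l (.s k12 k4 1 (.s k9 k11
  0 (.s k6 k3 2 (.d k14 k13 k2 0 1))))) (.c k154 (.q k218 [(.s k12 k4 1 (.s k14 k13 0 (.s k6 k2 1
  (.d k9 k11 k3 0 2)))), (.s k11 k9 0 (.s k138 k202 7 (.s k73 k203 8 (.s k200 k137 8 (.d k72 k75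
  k136 0 7))))), (.s k12 k4 1 (.s k138 k202 7 (.s k73 k203 8 (.s k195 k134 10 (.d k75 k135 k72 9
  0)))))] (.c k69 (.q k197 [(.s k12 k4 1 (.s k14 k13 0 (.s k6 k2 1 (.d k9 k11 k3 0 2)))), (.s k11 k9
  0 (.s k138 k202 7 (.s k73 k203 8 (.s k200 k137 8 (.d k72 k75 k136 0 7))))), (.s k12 k4 1 (.s k138
  k202 7 (.s k73 k203 8 (.s k75 k72 0 (.d k195 k134 k135 10 9)))))] (.c k73 (.l (.s k12 k4 1 (.s k9
  k11 0 (.s k6 k3 2 (.d k14 k13 k2 0 1))))) .n)) (.c k73 (.l (.s k12 k4 1 (.s k9 k11 0 (.s k6 k3 2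
  (.d k14 k13 k2 0 1))))) (.c k197 (.q k69 [(.d k138 k202 k207 7 10), (.s k12 k4 1 (.s k9 k11 0 (.s
  k6 k3 2 (.d k14 k13 k2 0 1))))] .n) .n)))) (.c k197 (.q k69 [(.d k138 k202 k207 7 10), (.s k12 k4
  1 (.s k9 k11 0 (.s k6 k3 2 (.d k14 k13 k2 0 1))))] (.c k154 (.q k218 [(.d k138 k202 k207 7 10),
  (.s k12 k4 1 (.s k9 k11 0 (.s k6 k3 2 (.d k14 k13 k2 0 1))))] .n) (.c k218 (.q k154 [(.d k138 k202
  k207 7 10), (.s k12 k4 1 (.s k9 k11 0 (.s k6 k3 2 (.d k14 k13 k2 0 1))))] .n) .n))) (.c k218 (.q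
  k154 [(.s k12 k4 1 (.s k14 k13 0 (.s k6 k2 1 (.d k9 k11 k3 0 2)))), (.s k11 k9 0 (.s k138 k202 7
  (.s k73 k203 8 (.s k200 k137 8 (.d k72 k75 k136 0 7))))), (.s k12 k4 1 (.s k138 k202 7 (.s k73
  k203 8 (.s k195 k134 10 (.d k75 k135 k72 9 0)))))] (.c k69 (.q k197 [(.s k12 k4 1 (.s k14 k13 0
  (.s k6 k2 1 (.d k9 k11 k3 0 2)))), (.s k11 k9 0 (.s k138 k202 7 (.s k73 k203 8 (.s k200 k137 8 (.d
  k72 k75 k136 0 7))))), (.s k12 k4 1 (.s k138 k202 7 (.s k73 k203 8 (.s k75 k72 0 (.d k195 k134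
  k135 10 9)))))] (.c k73 (.l (.s k12 k4 1 (.s k9 k11 0 (.s k6 k3 2 (.d k14 k13 k2 0 1))))) .n)) (.c
  k73 (.l (.s k12 k4 1 (.s k9 k11 0 (.s k6 k3 2 (.d k14 k13 k2 0 1))))) (.c k197 (.q k69 [(.d k138
  k202 k207 7 10), (.s k12 k4 1 (.s k9 k11 0 (.s k6 k3 2 (.d k14 k13 k2 0 1))))] .n) .n)))) .n))))))
  (.c k138 (.q k8 [(.s k12 k4 1 (.s k14 k13 0 (.s k6 k2 1 (.d k9 k11 k3 0 2)))), (.s k11 k9 0 (.s
  k200 k137 8 (.s k136 k72 7 (.s k204 k68 9 (.d k192 k196 k133 1 10))))), (.s k12 k4 1 (.s k13 k14 0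
  (.s k133 k192 10 (.s k73 k193 9 (.s k195 k134 10 (.d k75 k72 k135 0 9))))))] (.c k13 (.l (.s k12
  k4 1 (.s k192 k133 10 (.s k72 k132 9 (.s k200 k136 7 (.d k11 k137 k9 8 0)))))) (.c k154 (.q k218
  [(.s k12 k4 1 (.s k14 k13 0 (.s k6 k2 1 (.d k9 k11 k3 0 2)))), (.s k11 k9 0 (.s k200 k137 8 (.s
  k136 k72 7 (.s k204 k68 9 (.d k192 k196 k133 1 10))))), (.s k12 k4 1 (.s k13 k14 0 (.s k133 k192
  10 (.s k73 k193 9 (.s k195 k134 10 (.d k75 k72 k135 0 9))))))] (.c k13 (.l (.s k12 k4 1 (.s k192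
  k133 10 (.s k72 k132 9 (.s k200 k136 7 (.d k11 k137 k9 8 0)))))) (.c k170 (.q k186 [(.s k12 k4 1
  (.s k9 k11 0 (.s k6 k3 2 (.d k14 k13 k2 0 1)))), (.s k11 k9 0 (.s k200 k137 8 (.s k136 k72 7 (.s
  k204 k68 9 (.d k192 k196 k133 1 10))))), (.s k12 k4 1 (.s k13 k14 0 (.s k133 k192 10 (.s k73 k193
  9 (.s k195 k134 10 (.d k75 k72 k135 0 9))))))] (.c k13 (.l (.s k12 k4 1 (.s k192 k133 10 (.s k72
  k132 9 (.s k200 k136 7 (.d k11 k137 k9 8 0)))))) .n)) (.c k186 (.q k170 [(.s k12 k4 1 (.s k14 k13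
  0 (.s k6 k2 1 (.d k9 k11 k3 0 2)))), (.s k85 k255 14 (.s k89 k251 12 (.s k81 k93 1 (.s k243 k162
  12 (.d k12 k4 k166 1 14))))), (.s k255 k85 14 (.s k11 k9 0 (.s k251 k89 12 (.s k91 k171 11 (.d
  k243 k247 k167 1 13)))))] .n) .n)))) (.c k218 (.q k154 [(.s k12 k4 1 (.s k14 k13 0 (.s k6 k2 1 (.d
  k9 k11 k3 0 2)))), (.s k11 k9 0 (.s k200 k137 8 (.s k136 k72 7 (.s k204 k68 9 (.d k192 k196 k133 1
  10))))), (.s k12 k4 1 (.s k13 k14 0 (.s k133 k192 10 (.s k73 k193 9 (.s k195 k134 10 (.d k75 k72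
  k135 0 9))))))] (.c k13 (.l (.s k12 k4 1 (.s k192 k133 10 (.s k72 k132 9 (.s k200 k136 7 (.d k11
  k137 k9 8 0)))))) .n)) .n)))) (.c k154 (.q k218 [(.s k138 k202 7 (.s k207 k69 10 (.s k133 k192 10
  (.d k143 k128 k79 2 7)))), (.s k202 k138 7 (.s k192 k133 10 (.s k234 k250 3 (.s k213 k255 6 (.s
  k208 k223 2 (.s k240 k224 3 (.d k207 k197 k229 2 6)))))))] (.c k69 (.q k8 [(.s k12 k4 1 (.s k14
  k13 0 (.s k6 k2 1 (.d k9 k11 k3 0 2)))), (.s k11 k9 0 (.s k138 k202 7 (.s k73 k203 8 (.s k200 k137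
  8 (.d k72 k75 k136 0 7))))), (.s k12 k4 1 (.s k138 k202 7 (.s k73 k203 8 (.s k13 k14 0 (.d k133
  k193 k192 9 10)))))] (.c k13 (.l (.s k12 k4 1 (.s k138 k202 7 (.s k73 k203 8 (.s k72 k75 0 (.d
  k192 k132 k133 9 10)))))) (.c k133 (.q k197 [(.s k12 k4 1 (.s k14 k13 0 (.s k6 k2 1 (.d k9 k11 k3
  0 2)))), (.s k11 k9 0 (.s k138 k202 7 (.s k73 k203 8 (.s k200 k137 8 (.d k72 k75 k136 0 7))))),
  (.s k12 k4 1 (.s k138 k202 7 (.s k73 k203 8 (.s k75 k72 0 (.d k195 k134 k135 10 9)))))] (.c k73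
  (.l (.s k12 k4 1 (.s k9 k11 0 (.s k6 k3 2 (.d k14 k13 k2 0 1))))) .n)) (.c k197 (.l (.s k133 k192
  10 (.s k12 k4 1 (.s k9 k11 0 (.s k6 k3 2 (.d k14 k13 k2 0 1)))))) .n)))) (.c k128 (.q k1 [(.s k3
  k2 0 (.s k11 k7 1 (.s k137 k200 8 (.s k69 k205 9 (.d k138 k202 k207 7 10))))), (.s k2 k3 0 (.s
  k138 k202 7 (.s k70 k206 9 (.s k66 k78 1 (.s k194 k130 7 (.d k14 k6 k134 1 9)))))), (.s k138 k202
  7 (.s k69 k207 10 (.s k137 k205 9 (.s k11 k200 8 (.s k8 k9 0 (.s k203 k73 8 (.d k139 k136 k75 0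
  7))))))), (.s k2 k3 0 (.s k14 k6 1 (.s k194 k134 9 (.s k130 k66 7 (.s k195 k65 8 (.d k192 k193
  k133 0 10))))))] .n) (.c k133 (.q k8 [(.s k12 k4 1 (.s k14 k13 0 (.s k6 k2 1 (.d k9 k11 k3 0
  2)))), (.s k11 k9 0 (.s k138 k202 7 (.s k73 k203 8 (.s k200 k137 8 (.d k72 k75 k136 0 7))))), (.s
  k12 k4 1 (.s k138 k202 7 (.s k73 k203 8 (.s k195 k134 10 (.d k75 k135 k72 9 0)))))] (.c k69 (.q
  k197 [(.s k12 k4 1 (.s k14 k13 0 (.s k6 k2 1 (.d k9 k11 k3 0 2)))), (.s k11 k9 0 (.s k138 k202 7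
  (.s k73 k203 8 (.s k200 k137 8 (.d k72 k75 k136 0 7))))), (.s k12 k4 1 (.s k138 k202 7 (.s k73
  k203 8 (.s k75 k72 0 (.d k195 k134 k135 10 9)))))] (.c k73 (.l (.s k12 k4 1 (.s k9 k11 0 (.s k6 k3
  2 (.d k14 k13 k2 0 1))))) .n)) (.c k73 (.l (.s k12 k4 1 (.s k9 k11 0 (.s k6 k3 2 (.d k14 k13 k2 0
  1))))) (.c k197 (.q k69 [(.d k138 k202 k207 7 10), (.s k12 k4 1 (.s k9 k11 0 (.s k6 k3 2 (.d k14
  k13 k2 0 1))))] .n) .n)))) (.c k138 (.q k8 [(.s k12 k4 1 (.s k14 k13 0 (.s k6 k2 1 (.d k9 k11 k3 0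
  2)))), (.s k11 k9 0 (.s k200 k137 8 (.s k136 k72 7 (.s k204 k68 9 (.d k192 k196 k133 1 10))))),
  (.s k12 k4 1 (.s k13 k14 0 (.s k133 k192 10 (.s k73 k193 9 (.s k195 k134 10 (.d k75 k72 k135 0
  9))))))] (.c k13 (.l (.s k12 k4 1 (.s k192 k133 10 (.s k72 k132 9 (.s k200 k136 7 (.d k11 k137 k9
  8 0)))))) (.c k170 (.q k186 [(.s k12 k4 1 (.s k9 k11 0 (.s k6 k3 2 (.d k14 k13 k2 0 1)))), (.s k11
  k9 0 (.s k200 k137 8 (.s k136 k72 7 (.s k204 k68 9 (.d k192 k196 k133 1 10))))), (.s k12 k4 1 (.s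
  k13 k14 0 (.s k133 k192 10 (.s k73 k193 9 (.s k195 k134 10 (.d k75 k72 k135 0 9))))))] (.c k13 (.l
  (.s k12 k4 1 (.s k192 k133 10 (.s k72 k132 9 (.s k200 k136 7 (.d k11 k137 k9 8 0)))))) .n)) (.c
  k186 (.q k170 [(.s k12 k4 1 (.s k14 k13 0 (.s k6 k2 1 (.d k9 k11 k3 0 2)))), (.s k85 k255 14 (.s
  k89 k251 12 (.s k81 k93 1 (.s k243 k162 12 (.d k12 k4 k166 1 14))))), (.s k255 k85 14 (.s k11 k9 0
  (.s k251 k89 12 (.s k91 k171 11 (.d k243 k247 k167 1 13)))))] .n) .n)))) (.c k143 (.l (.s k138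
  k202 7 (.s k69 k207 10 (.s k192 k133 10 (.d k64 k79 k128 2 7))))) (.c k192 (.q k8 [(.s k12 k4 1
  (.s k14 k13 0 (.s k6 k2 1 (.d k9 k11 k3 0 2)))), (.s k11 k9 0 (.s k138 k202 7 (.s k73 k203 8 (.s
  k200 k137 8 (.d k72 k75 k136 0 7))))), (.s k12 k4 1 (.s k138 k202 7 (.s k73 k203 8 (.s k195 k134
  10 (.d k75 k72 k135 0 9)))))] .n) (.c k197 (.l (.s k138 k202 7 (.s k69 k207 10 (.s k192 k133 10
  (.d k64 k79 k128 2 7))))) (.c k202 (.q k8 [(.s k12 k4 1 (.s k14 k13 0 (.s k6 k2 1 (.d k9 k11 k3 0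
  2)))), (.s k11 k9 0 (.s k200 k137 8 (.s k136 k72 7 (.s k204 k68 9 (.d k192 k196 k133 1 10))))),
  (.s k12 k4 1 (.s k13 k14 0 (.s k133 k192 10 (.s k73 k193 9 (.s k195 k134 10 (.d k75 k72 k135 0
  9))))))] (.c k13 (.l (.s k12 k4 1 (.s k192 k133 10 (.s k72 k132 9 (.s k200 k136 7 (.d k11 k9 k137
  0 8)))))) (.c k58 (.q k106 [(.s k12 k4 1 (.s k14 k13 0 (.s k6 k2 1 (.d k9 k11 k3 0 2)))), (.s k11
  k9 0 (.s k200 k137 8 (.s k136 k72 7 (.s k204 k68 9 (.d k192 k196 k133 1 10))))), (.s k12 k4 1 (.s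
  k13 k14 0 (.s k133 k192 10 (.s k73 k193 9 (.s k195 k134 10 (.d k75 k72 k135 0 9))))))] (.c k13 (.l
  (.s k12 k4 1 (.s k192 k133 10 (.s k72 k132 9 (.s k200 k136 7 (.d k11 k9 k137 0 8)))))) .n)) (.c
  k106 (.q k58 [(.s k12 k4 1 (.s k14 k13 0 (.s k6 k2 1 (.d k9 k11 k3 0 2)))), (.s k11 k9 0 (.s k200
  k137 8 (.s k136 k72 7 (.s k204 k68 9 (.d k192 k196 k133 1 10))))), (.s k12 k4 1 (.s k13 k14 0 (.s
  k133 k192 10 (.s k73 k193 9 (.s k195 k134 10 (.d k75 k72 k135 0 9))))))] (.c k13 (.l (.s k12 k4 1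
  (.s k192 k133 10 (.s k72 k132 9 (.s k200 k136 7 (.d k11 k9 k137 0 8)))))) .n)) .n)))) (.c k207 (.q
  k8 [(.s k12 k4 1 (.s k14 k13 0 (.s k6 k2 1 (.d k9 k11 k3 0 2)))), (.s k11 k9 0 (.s k138 k202 7 (.s
  k73 k203 8 (.s k200 k137 8 (.d k72 k75 k136 0 7))))), (.s k12 k4 1 (.s k138 k202 7 (.s k73 k203 8
  (.s k195 k134 10 (.d k75 k72 k135 0 9)))))] (.c k48 (.q k101 [(.s k12 k4 1 (.s k14 k13 0 (.s k6 k2
  1 (.d k9 k11 k3 0 2)))), (.s k11 k9 0 (.s k138 k202 7 (.s k73 k203 8 (.s k200 k137 8 (.d k72 k75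
  k136 0 7))))), (.s k12 k4 1 (.s k138 k202 7 (.s k73 k203 8 (.s k195 k134 10 (.d k75 k72 k135 0
  9)))))] .n) (.c k101 (.q k48 [(.s k12 k4 1 (.s k14 k13 0 (.s k6 k2 1 (.d k9 k11 k3 0 2)))), (.s
  k11 k9 0 (.s k138 k202 7 (.s k73 k203 8 (.s k200 k137 8 (.d k72 k75 k136 0 7))))), (.s k12 k4 1
  (.s k16 k32 3 (.s k24 k36 5 (.s k20 k28 1 (.d k40 k56 k60 3 5)))))] (.c k79 (.q k112 [(.s k192
  k133 10 (.s k64 k128 7 (.d k96 k80 k144 3 11))), (.s k12 k4 1 (.s k9 k11 0 (.s k6 k3 2 (.d k14 k13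
  k2 0 1))))] .n) (.c k112 (.q k79 [(.s k192 k133 10 (.d k64 k69 k128 2 7)), (.s k12 k4 1 (.s k9 k11
  0 (.s k6 k3 2 (.d k14 k13 k2 0 1))))] .n) .n))) .n))) .n)))))))))) (.c k192 (.q k8 [(.s k12 k4 1
  (.s k14 k13 0 (.s k6 k2 1 (.d k9 k11 k3 0 2)))), (.s k11 k9 0 (.s k138 k202 7 (.s k73 k203 8 (.s
  k200 k137 8 (.d k72 k75 k136 0 7))))), (.s k12 k4 1 (.s k138 k202 7 (.s k73 k203 8 (.s k195 k134
  10 (.d k75 k72 k135 0 9)))))] (.c k154 (.q k218 [(.s k12 k4 1 (.s k14 k13 0 (.s k6 k2 1 (.d k9 k11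
  k3 0 2)))), (.s k11 k9 0 (.s k138 k202 7 (.s k73 k203 8 (.s k200 k137 8 (.d k72 k75 k136 0 7))))),
  (.s k12 k4 1 (.s k138 k202 7 (.s k73 k203 8 (.s k195 k134 10 (.d k75 k72 k135 0 9)))))] .n) (.c
  k218 (.q k154 [(.s k12 k4 1 (.s k14 k13 0 (.s k6 k2 1 (.d k9 k11 k3 0 2)))), (.s k11 k9 0 (.s k138
  k202 7 (.s k73 k203 8 (.s k200 k137 8 (.d k72 k75 k136 0 7))))), (.s k12 k4 1 (.s k138 k202 7 (.s
  k73 k203 8 (.s k195 k134 10 (.d k75 k72 k135 0 9)))))] .n) .n))) (.c k197 (.l (.s k138 k202 7 (.s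
  k69 k207 10 (.s k192 k133 10 (.d k64 k79 k128 2 7))))) (.c k202 (.q k8 [(.s k12 k4 1 (.s k14 k13 0
  (.s k6 k2 1 (.d k9 k11 k3 0 2)))), (.s k11 k9 0 (.s k200 k137 8 (.s k136 k72 7 (.s k204 k68 9 (.d
  k192 k196 k133 1 10))))), (.s k12 k4 1 (.s k13 k14 0 (.s k133 k192 10 (.s k73 k193 9 (.s k195 k134
  10 (.d k75 k72 k135 0 9))))))] (.c k13 (.l (.s k12 k4 1 (.s k192 k133 10 (.s k72 k132 9 (.s k200
  k136 7 (.d k11 k9 k137 0 8)))))) (.c k154 (.q k218 [(.s k12 k4 1 (.s k14 k13 0 (.s k6 k2 1 (.d k9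
  k11 k3 0 2)))), (.s k11 k9 0 (.s k200 k137 8 (.s k136 k72 7 (.s k204 k68 9 (.d k192 k196 k133 1
  10))))), (.s k12 k4 1 (.s k13 k14 0 (.s k133 k192 10 (.s k73 k193 9 (.s k195 k134 10 (.d k75 k72
  k135 0 9))))))] (.c k13 (.l (.s k12 k4 1 (.s k192 k133 10 (.s k72 k132 9 (.s k200 k136 7 (.d k11
  k9 k137 0 8)))))) (.c k58 (.q k106 [(.s k12 k4 1 (.s k14 k13 0 (.s k6 k2 1 (.d k9 k11 k3 0 2)))),
  (.s k11 k9 0 (.s k200 k137 8 (.s k136 k72 7 (.s k204 k68 9 (.d k192 k196 k133 1 10))))), (.s k12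
  k4 1 (.s k13 k14 0 (.s k133 k192 10 (.s k73 k193 9 (.s k195 k134 10 (.d k75 k72 k135 0 9))))))]
  (.c k13 (.l (.s k12 k4 1 (.s k192 k133 10 (.s k72 k132 9 (.s k200 k136 7 (.d k11 k9 k137 0 8))))))
  .n)) (.c k106 (.q k58 [(.s k12 k4 1 (.s k14 k13 0 (.s k6 k2 1 (.d k9 k11 k3 0 2)))), (.s k11 k9 0
  (.s k200 k137 8 (.s k136 k72 7 (.s k204 k68 9 (.d k192 k196 k133 1 10))))), (.s k12 k4 1 (.s k13
  k14 0 (.s k133 k192 10 (.s k73 k193 9 (.s k195 k134 10 (.d k75 k72 k135 0 9))))))] (.c k13 (.l (.s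
  k12 k4 1 (.s k192 k133 10 (.s k72 k132 9 (.s k200 k136 7 (.d k11 k9 k137 0 8)))))) .n)) .n)))) (.c
  k218 (.q k154 [(.s k12 k4 1 (.s k14 k13 0 (.s k6 k2 1 (.d k9 k11 k3 0 2)))), (.s k11 k9 0 (.s k200
  k137 8 (.s k136 k72 7 (.s k204 k68 9 (.d k192 k196 k133 1 10))))), (.s k12 k4 1 (.s k13 k14 0 (.s
  k133 k192 10 (.s k73 k193 9 (.s k195 k134 10 (.d k75 k72 k135 0 9))))))] (.c k13 (.l (.s k12 k4 1
  (.s k192 k133 10 (.s k72 k132 9 (.s k200 k136 7 (.d k11 k9 k137 0 8)))))) (.c k234 (.q k250 [(.s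
  k12 k4 1 (.s k14 k13 0 (.s k6 k2 1 (.d k9 k11 k3 0 2)))), (.s k11 k9 0 (.s k200 k137 8 (.s k136
  k72 7 (.s k204 k68 9 (.d k192 k196 k133 1 10))))), (.s k12 k4 1 (.s k13 k14 0 (.s k133 k192 10 (.s
  k73 k193 9 (.s k195 k134 10 (.d k75 k72 k135 0 9))))))] (.c k13 (.l (.s k12 k4 1 (.s k192 k133 10
  (.s k72 k132 9 (.s k200 k136 7 (.d k11 k9 k137 0 8)))))) .n)) (.c k250 (.q k234 [(.s k12 k4 1 (.s
  k14 k13 0 (.s k6 k2 1 (.d k9 k11 k3 0 2)))), (.s k11 k9 0 (.s k200 k137 8 (.s k136 k72 7 (.s k204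
  k68 9 (.d k192 k196 k133 1 10))))), (.s k12 k4 1 (.s k13 k14 0 (.s k133 k192 10 (.s k73 k193 9 (.s
  k195 k134 10 (.d k75 k72 k135 0 9))))))] (.c k13 (.l (.s k12 k4 1 (.s k192 k133 10 (.s k72 k132 9
  (.s k200 k136 7 (.d k11 k9 k137 0 8)))))) .n)) .n)))) .n)))) (.c k207 (.q k8 [(.s k12 k4 1 (.s k14
  k13 0 (.s k6 k2 1 (.d k9 k11 k3 0 2)))), (.s k11 k9 0 (.s k138 k202 7 (.s k73 k203 8 (.s k200 k137
  8 (.d k72 k75 k136 0 7))))), (.s k12 k4 1 (.s k138 k202 7 (.s k73 k203 8 (.s k195 k134 10 (.d k75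
  k72 k135 0 9)))))] (.c k154 (.q k218 [(.s k12 k4 1 (.s k14 k13 0 (.s k6 k2 1 (.d k9 k11 k3 0
  2)))), (.s k11 k9 0 (.s k138 k202 7 (.s k73 k203 8 (.s k200 k137 8 (.d k72 k75 k136 0 7))))), (.s
  k12 k4 1 (.s k138 k202 7 (.s k73 k203 8 (.s k195 k134 10 (.d k75 k72 k135 0 9)))))] (.c k48 (.q
  k101 [(.s k12 k4 1 (.s k14 k13 0 (.s k6 k2 1 (.d k9 k11 k3 0 2)))), (.s k11 k9 0 (.s k138 k202 7
  (.s k73 k203 8 (.s k200 k137 8 (.d k72 k75 k136 0 7))))), (.s k12 k4 1 (.s k138 k202 7 (.s k73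
  k203 8 (.s k195 k134 10 (.d k75 k72 k135 0 9)))))] .n) (.c k101 (.q k48 [(.s k12 k4 1 (.s k14 k13
  0 (.s k6 k2 1 (.d k9 k11 k3 0 2)))), (.s k11 k9 0 (.s k138 k202 7 (.s k73 k203 8 (.s k200 k137 8
  (.d k72 k75 k136 0 7))))), (.s k12 k4 1 (.s k16 k32 3 (.s k24 k36 5 (.s k20 k28 1 (.d k40 k56 k60
  3 5)))))] (.c k79 (.q k112 [(.s k192 k133 10 (.s k64 k128 7 (.d k96 k80 k144 3 11))), (.s k12 k4 1
  (.s k9 k11 0 (.s k6 k3 2 (.d k14 k13 k2 0 1))))] .n) (.c k112 (.q k79 [(.s k192 k133 10 (.d k64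
  k69 k128 2 7)), (.s k12 k4 1 (.s k9 k11 0 (.s k6 k3 2 (.d k14 k13 k2 0 1))))] .n) .n))) .n))) (.c
  k218 (.q k154 [(.s k12 k4 1 (.s k14 k13 0 (.s k6 k2 1 (.d k9 k11 k3 0 2)))), (.s k11 k9 0 (.s k138
  k202 7 (.s k73 k203 8 (.s k200 k137 8 (.d k72 k75 k136 0 7))))), (.s k12 k4 1 (.s k138 k202 7 (.s
  k73 k203 8 (.s k195 k134 10 (.d k75 k72 k135 0 9)))))] (.c k229 (.q k240 [(.s k12 k4 1 (.s k14 k13
  0 (.s k6 k2 1 (.d k9 k11 k3 0 2)))), (.s k160 k80 11 (.s k138 k202 7 (.s k170 k186 3 (.s k175 k165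
  2 (.d k255 k95 k85 11 14)))))] .n) (.c k240 (.q k229 [(.s k12 k4 1 (.s k14 k13 0 (.s k6 k2 1 (.d
  k9 k11 k3 0 2)))), (.s k11 k9 0 (.s k138 k202 7 (.s k73 k203 8 (.s k200 k137 8 (.d k72 k75 k136 0
  7))))), (.s k12 k4 1 (.s k138 k202 7 (.s k73 k203 8 (.s k195 k134 10 (.d k75 k72 k135 0 9)))))]
  .n) .n))) .n))) (.c k218 (.q k154 [(.s k138 k202 7 (.s k207 k69 10 (.s k133 k192 10 (.d k143 k128
  k79 2 7)))), (.s k138 k202 7 (.s k170 k186 3 (.s k85 k255 14 (.s k16 k223 10 (.s k48 k32 3 (.d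
  k207 k69 k101 10 14)))))), (.s k192 k133 10 (.s k64 k128 7 (.s k69 k79 2 (.d k138 k202 k207 7
  10))))] (.c k69 (.l (.s k138 k202 7 (.s k133 k192 10 (.s k143 k128 2 (.s k170 k186 3 (.s k255 k85
  14 (.s k165 k176 6 (.d k175 k160 k95 2 11)))))))) (.c k138 (.q k8 [(.s k12 k4 1 (.s k14 k13 0 (.s
  k6 k2 1 (.d k9 k11 k3 0 2)))), (.s k11 k9 0 (.s k200 k137 8 (.s k136 k72 7 (.s k204 k68 9 (.d k192
  k196 k133 1 10))))), (.s k12 k4 1 (.s k13 k14 0 (.s k133 k192 10 (.s k73 k193 9 (.s k195 k134 10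
  (.d k75 k72 k135 0 9))))))] (.c k13 (.l (.s k12 k4 1 (.s k192 k133 10 (.s k72 k132 9 (.s k200 k136
  7 (.d k11 k137 k9 8 0)))))) .n)) (.c k202 (.q k8 [(.s k12 k4 1 (.s k14 k13 0 (.s k6 k2 1 (.d k9
  k11 k3 0 2)))), (.s k11 k9 0 (.s k200 k137 8 (.s k136 k72 7 (.s k204 k68 9 (.d k192 k196 k133 1
  10))))), (.s k12 k4 1 (.s k13 k14 0 (.s k133 k192 10 (.s k73 k193 9 (.s k195 k134 10 (.d k75 k72
  k135 0 9))))))] (.c k13 (.l (.s k12 k4 1 (.s k192 k133 10 (.s k72 k132 9 (.s k200 k136 7 (.d k11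
  k9 k137 0 8)))))) (.c k234 (.q k250 [(.s k12 k4 1 (.s k14 k13 0 (.s k6 k2 1 (.d k9 k11 k3 0 2)))),
  (.s k11 k9 0 (.s k200 k137 8 (.s k136 k72 7 (.s k204 k68 9 (.d k192 k196 k133 1 10))))), (.s k12
  k4 1 (.s k13 k14 0 (.s k133 k192 10 (.s k73 k193 9 (.s k195 k134 10 (.d k75 k72 k135 0 9))))))]
  (.c k13 (.l (.s k12 k4 1 (.s k192 k133 10 (.s k72 k132 9 (.s k200 k136 7 (.d k11 k9 k137 0 8))))))
  .n)) (.c k250 (.q k234 [(.s k12 k4 1 (.s k14 k13 0 (.s k6 k2 1 (.d k9 k11 k3 0 2)))), (.s k11 k9 0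
  (.s k200 k137 8 (.s k136 k72 7 (.s k204 k68 9 (.d k192 k196 k133 1 10))))), (.s k12 k4 1 (.s k13
  k14 0 (.s k133 k192 10 (.s k73 k193 9 (.s k195 k134 10 (.d k75 k72 k135 0 9))))))] (.c k13 (.l (.s
  k12 k4 1 (.s k192 k133 10 (.s k72 k132 9 (.s k200 k136 7 (.d k11 k9 k137 0 8)))))) .n)) .n)))) (.c
  k207 (.f k138 k202 7 (.l (.s k192 k133 10 (.s k64 k128 7 (.s k170 k186 3 (.s k85 k255 14 (.s k106
  k127 6 (.s k63 k149 14 (.d k42 k21 k234 6 7))))))))) .n))))) .n))))))))))))))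

def t27 : T TT 256 :=
  (.q k69 [(.s k10 k5 2 (.s k138 k207 10 (.s k74 k202 7 (.s k192 k133 10 (.d k64 k79 k128 2 7)))))]
  (.c k5 (.q k3 [(.s k1 k2 0 (.s k138 k207 10 (.s k137 k205 9 (.s k204 k70 10 (.d k136 k139 k68 0
  9))))), (.s k207 k138 10 (.s k11 k7 1 (.s k139 k71 9 (.s k75 k203 7 (.s k135 k195 9 (.d k143 k131
  k79 1 7)))))), (.s k1 k2 0 (.s k137 k205 9 (.s k11 k7 1 (.s k74 k200 8 (.s k64 k79 2 (.d k192 k128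
  k133 7 10))))))] (.c k153 (.q k216 [(.s k1 k2 0 (.s k207 k138 10 (.s k71 k139 9 (.s k70 k68 0 (.d
  k137 k205 k204 9 10))))), (.s k1 k2 0 (.s k137 k205 9 (.s k11 k7 1 (.s k74 k200 8 (.s k64 k79 2
  (.d k192 k128 k133 7 10)))))), (.s k207 k138 10 (.s k11 k7 1 (.s k139 k71 9 (.s k75 k203 7 (.s
  k135 k195 9 (.d k143 k131 k79 1 7))))))] .n) (.c k216 (.q k153 [(.s k1 k2 0 (.s k138 k207 10 (.s
  k137 k205 9 (.s k204 k70 10 (.d k136 k139 k68 0 9))))), (.s k207 k138 10 (.s k11 k7 1 (.s k139 k71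
  9 (.s k75 k203 7 (.s k135 k195 9 (.d k143 k131 k79 1 7)))))), (.s k1 k2 0 (.s k137 k205 9 (.s k11
  k7 1 (.s k74 k200 8 (.s k64 k79 2 (.d k192 k128 k133 7 10))))))] .n) .n))) (.c k10 (.q k3 [(.s k2
  k1 0 (.s k138 k207 10 (.s k70 k206 9 (.s k204 k137 10 (.d k68 k71 k136 0 9))))), (.s k207 k138 10
  (.s k11 k7 1 (.s k139 k71 9 (.s k75 k203 7 (.s k135 k195 9 (.d k143 k131 k79 1 7)))))), (.s k1 k2
  0 (.s k137 k205 9 (.s k11 k7 1 (.s k74 k200 8 (.s k64 k79 2 (.d k192 k128 k133 7 10))))))] (.c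
  k153 (.q k216 [(.s k2 k1 0 (.s k138 k207 10 (.s k70 k206 9 (.s k204 k137 10 (.d k68 k71 k136 0
  9))))), (.s k207 k138 10 (.s k11 k7 1 (.s k139 k71 9 (.s k75 k203 7 (.s k135 k195 9 (.d k143 k131
  k79 1 7)))))), (.s k1 k2 0 (.s k137 k205 9 (.s k11 k7 1 (.s k74 k200 8 (.s k64 k79 2 (.d k192 k128
  k133 7 10))))))] (.c k170 (.q k250 [(.s k2 k1 0 (.s k138 k207 10 (.s k70 k206 9 (.s k204 k137 10
  (.d k68 k136 k71 9 0))))), (.s k207 k138 10 (.s k11 k7 1 (.s k139 k71 9 (.s k75 k203 7 (.s k135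
  k195 9 (.d k143 k131 k79 1 7)))))), (.s k1 k2 0 (.s k137 k205 9 (.s k11 k7 1 (.s k74 k200 8 (.s
  k64 k79 2 (.d k192 k128 k133 7 10))))))] (.c k136 (.q k187 [(.s k1 k2 0 (.s k137 k205 9 (.s k70
  k204 10 (.s k71 k68 0 (.d k207 k139 k138 9 10))))), (.s k207 k138 10 (.s k11 k7 1 (.s k139 k71 9
  (.s k75 k203 7 (.s k135 k195 9 (.d k143 k131 k79 1 7)))))), (.s k1 k2 0 (.s k137 k205 9 (.s k11 k7
  1 (.s k74 k200 8 (.s k64 k79 2 (.d k192 k128 k133 7 10))))))] (.c k137 (.l (.s k207 k138 10 (.s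
  k139 k71 9 (.s k11 k7 1 (.s k75 k203 7 (.s k135 k195 9 (.d k143 k131 k79 1 7))))))) .n)) (.c k187
  (.q k136 [(.s k1 k2 0 (.s k204 k68 9 (.d k137 k205 k70 9 10))), (.s k68 k204 9 (.s k207 k138 10
  (.d k71 k70 k139 0 9))), (.s k1 k2 0 (.s k138 k207 10 (.d k137 k139 k205 0 9)))] .n) .n))) (.c
  k250 (.q k170 [(.s k2 k1 0 (.s k138 k207 10 (.s k70 k206 9 (.s k204 k137 10 (.d k68 k71 k136 0
  9))))), (.s k207 k138 10 (.s k85 k255 14 (.s k101 k117 3 (.s k32 k239 10 (.d k48 k16 k154 3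
  14))))), (.s k1 k2 0 (.s k85 k255 14 (.s k169 k253 13 (.s k252 k86 14 (.d k168 k171 k84 0 13)))))]
  .n) .n))) (.c k170 (.q k250 [(.s k2 k1 0 (.s k138 k207 10 (.s k70 k206 9 (.s k204 k137 10 (.d k68
  k71 k136 0 9))))), (.s k207 k138 10 (.s k11 k7 1 (.s k139 k71 9 (.s k75 k203 7 (.s k135 k195 9 (.d
  k143 k131 k79 1 7)))))), (.s k1 k2 0 (.s k137 k205 9 (.s k11 k7 1 (.s k74 k200 8 (.s k64 k79 2 (.d
  k192 k128 k133 7 10))))))] (.c k153 (.q k216 [(.s k2 k1 0 (.s k138 k207 10 (.s k70 k206 9 (.s k204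
  k137 10 (.d k68 k136 k71 9 0))))), (.s k207 k138 10 (.s k11 k7 1 (.s k139 k71 9 (.s k75 k203 7 (.s
  k135 k195 9 (.d k143 k131 k79 1 7)))))), (.s k1 k2 0 (.s k137 k205 9 (.s k11 k7 1 (.s k74 k200 8
  (.s k64 k79 2 (.d k192 k128 k133 7 10))))))] (.c k136 (.q k187 [(.s k1 k2 0 (.s k137 k205 9 (.s
  k70 k204 10 (.s k71 k68 0 (.d k207 k139 k138 9 10))))), (.s k207 k138 10 (.s k11 k7 1 (.s k139 k71
  9 (.s k75 k203 7 (.s k135 k195 9 (.d k143 k131 k79 1 7)))))), (.s k1 k2 0 (.s k137 k205 9 (.s k11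
  k7 1 (.s k74 k200 8 (.s k64 k79 2 (.d k192 k128 k133 7 10))))))] (.c k137 (.l (.s k207 k138 10 (.s
  k139 k71 9 (.s k11 k7 1 (.s k75 k203 7 (.s k135 k195 9 (.d k143 k131 k79 1 7))))))) .n)) (.c k187
  (.q k136 [(.s k1 k2 0 (.s k204 k68 9 (.d k137 k205 k70 9 10))), (.s k68 k204 9 (.s k207 k138 10
  (.d k71 k70 k139 0 9))), (.s k1 k2 0 (.s k138 k207 10 (.d k137 k139 k205 0 9)))] .n) .n))) (.c
  k216 (.q k153 [(.s k2 k1 0 (.s k138 k207 10 (.s k70 k206 9 (.s k204 k137 10 (.d k68 k71 k136 0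
  9))))), (.s k207 k138 10 (.s k11 k7 1 (.s k139 k71 9 (.s k75 k203 7 (.s k135 k195 9 (.d k143 k131
  k79 1 7)))))), (.s k1 k2 0 (.s k137 k205 9 (.s k11 k7 1 (.s k74 k200 8 (.s k64 k79 2 (.d k192 k128
  k133 7 10))))))] .n) .n))) (.c k216 (.q k153 [(.s k2 k1 0 (.s k138 k207 10 (.s k70 k206 9 (.s k204
  k137 10 (.d k68 k71 k136 0 9))))), (.s k207 k138 10 (.s k11 k7 1 (.s k139 k71 9 (.s k75 k203 7 (.s
  k135 k195 9 (.d k143 k131 k79 1 7)))))), (.s k1 k2 0 (.s k137 k205 9 (.s k11 k7 1 (.s k74 k200 8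
  (.s k64 k79 2 (.d k192 k128 k133 7 10))))))] (.c k170 (.q k250 [(.s k2 k1 0 (.s k138 k207 10 (.s
  k70 k206 9 (.s k204 k137 10 (.d k68 k71 k136 0 9))))), (.s k207 k138 10 (.s k11 k7 1 (.s k139 k71
  9 (.s k75 k203 7 (.s k135 k195 9 (.d k143 k131 k79 1 7)))))), (.s k1 k2 0 (.s k137 k205 9 (.s k11
  k7 1 (.s k74 k200 8 (.s k64 k79 2 (.d k192 k128 k133 7 10))))))] .n) (.c k250 (.q k170 [(.s k138
  k207 10 (.s k136 k187 4 (.s k204 k68 9 (.d k137 k139 k70 0 10)))), (.s k1 k2 0 (.s k85 k255 14 (.s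
  k137 k205 9 (.d k169 k185 k253 3 13))))] (.c k137 (.l (.s k207 k138 10 (.s k71 k139 9 (.s k136
  k187 4 (.d k68 k70 k204 0 9))))) .n)) .n))) (.c k250 (.q k170 [(.s k2 k1 0 (.s k138 k207 10 (.s
  k70 k206 9 (.s k204 k137 10 (.d k68 k71 k136 0 9))))), (.s k207 k138 10 (.s k85 k255 14 (.s k101
  k117 3 (.s k32 k239 10 (.d k48 k16 k154 3 14))))), (.s k1 k2 0 (.s k85 k255 14 (.s k169 k253 13
  (.s k252 k86 14 (.d k168 k171 k84 0 13)))))] (.c k153 (.q k216 [(.s k2 k1 0 (.s k138 k207 10 (.s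
  k70 k206 9 (.s k204 k137 10 (.d k68 k71 k136 0 9))))), (.s k207 k138 10 (.s k85 k255 14 (.s k101
  k117 3 (.s k32 k239 10 (.d k48 k16 k154 3 14))))), (.s k1 k2 0 (.s k85 k255 14 (.s k169 k253 13
  (.s k252 k86 14 (.d k168 k171 k84 0 13)))))] .n) (.c k216 (.q k153 [(.s k138 k207 10 (.s k136 k187
  4 (.s k204 k68 9 (.d k137 k139 k70 0 10)))), (.s k1 k2 0 (.s k85 k255 14 (.s k137 k205 9 (.d k169
  k185 k253 3 13))))] (.c k137 (.l (.s k207 k138 10 (.s k71 k139 9 (.s k136 k187 4 (.d k68 k70 k204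
  0 9))))) .n)) .n))) .n))))) (.c k64 (.f k10 k5 2 (.f k138 k207 10 (.q k3 [(.s k1 k2 0 (.s k137
  k205 9 (.s k204 k70 10 (.d k136 k139 k68 0 9)))), (.s k2 k1 0 (.s k6 k14 1 (.s k9 k12 2 (.d k11 k8
  k7 0 1)))), (.s k11 k7 1 (.s k74 k202 7 (.s k137 k200 8 (.s k204 k70 10 (.d k136 k139 k68 0
  9)))))] (.c k153 (.q k216 [(.s k1 k2 0 (.s k137 k205 9 (.s k204 k70 10 (.d k136 k139 k68 0 9)))),
  (.s k2 k1 0 (.s k6 k14 1 (.s k9 k12 2 (.d k11 k8 k7 0 1)))), (.s k11 k7 1 (.s k74 k202 7 (.s k137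
  k200 8 (.s k204 k70 10 (.d k136 k139 k68 0 9)))))] .n) (.c k216 (.q k153 [(.s k1 k2 0 (.s k137
  k205 9 (.s k204 k70 10 (.d k136 k139 k68 0 9)))), (.s k2 k1 0 (.s k6 k14 1 (.s k9 k12 2 (.d k11 k8
  k7 0 1)))), (.s k11 k7 1 (.s k74 k202 7 (.s k137 k200 8 (.s k204 k70 10 (.d k136 k139 k68 0
  9)))))] .n) .n))))) (.c k74 (.f k10 k5 2 (.f k138 k207 10 (.q k3 [(.s k1 k2 0 (.s k137 k205 9 (.s
  k136 k139 0 (.d k204 k68 k70 9 10)))), (.s k11 k7 1 (.s k8 k9 0 (.s k73 k203 8 (.s k65 k77 1 (.s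
  k195 k130 8 (.d k12 k4 k134 1 10))))))] (.c k1 (.l (.s k11 k7 1 (.s k9 k8 0 (.s k6 k12 2 (.s k2
  k14 1 (.s k70 k206 9 (.s k204 k137 10 (.d k68 k71 k136 0 9)))))))) (.c k106 (.q k122 [(.s k1 k2 0
  (.s k137 k205 9 (.s k136 k139 0 (.d k204 k68 k70 9 10)))), (.s k11 k7 1 (.s k8 k9 0 (.s k73 k203 8
  (.s k65 k77 1 (.s k195 k130 8 (.d k12 k4 k134 1 10))))))] (.c k1 (.l (.s k11 k7 1 (.s k9 k8 0 (.s
  k6 k12 2 (.s k2 k14 1 (.s k70 k206 9 (.s k204 k137 10 (.d k68 k71 k136 0 9)))))))) (.c k153 (.q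
  k216 [(.s k1 k2 0 (.s k137 k205 9 (.s k136 k139 0 (.d k204 k68 k70 9 10)))), (.s k11 k7 1 (.s k8
  k9 0 (.s k73 k203 8 (.s k65 k77 1 (.s k195 k130 8 (.d k12 k4 k134 1 10))))))] (.c k1 (.l (.s k11
  k7 1 (.s k9 k8 0 (.s k6 k12 2 (.s k2 k14 1 (.s k70 k206 9 (.s k204 k137 10 (.d k68 k71 k136 0
  9)))))))) (.c k59 (.q k200 [(.s k1 k2 0 (.s k137 k205 9 (.s k136 k139 0 (.d k204 k68 k70 9 10)))),
  (.s k11 k7 1 (.s k2 k1 0 (.s k6 k14 1 (.d k9 k8 k12 0 2))))] (.c k1 (.l (.s k11 k7 1 (.s k9 k8 0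
  (.s k6 k12 2 (.s k2 k14 1 (.s k70 k206 9 (.s k204 k137 10 (.d k68 k71 k136 0 9)))))))) (.c k2 (.l
  (.s k11 k7 1 (.s k8 k9 0 (.s k136 k72 7 (.s k204 k68 9 (.d k137 k139 k70 0 10)))))) (.c k11 (.q
  k43 [(.s k2 k1 0 (.s k70 k206 9 (.s k204 k137 10 (.d k68 k71 k136 0 9)))), (.s k63 k23 5 (.s k42
  k21 6 (.s k26 k58 3 (.s k37 k48 6 (.d k47 k31 k32 3 2)))))] (.c k169 (.l (.s k248 k232 3 (.s k1 k2
  0 (.s k137 k205 9 (.s k204 k70 10 (.d k136 k139 k68 0 9)))))) (.c k248 (.q k169 [(.s k2 k1 0 (.s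
  k70 k206 9 (.s k204 k137 10 (.d k68 k71 k136 0 9)))), (.s k63 k23 5 (.s k42 k21 6 (.s k26 k58 3
  (.s k37 k48 6 (.d k47 k31 k32 3 2)))))] .n) .n))) (.c k43 (.l (.s k11 k7 1 (.s k2 k1 0 (.s k6 k14
  1 (.d k9 k8 k12 0 2))))) .n))))) (.c k200 (.q k59 [(.s k1 k2 0 (.s k137 k205 9 (.s k136 k139 0 (.d
  k204 k68 k70 9 10)))), (.s k11 k7 1 (.s k8 k9 0 (.s k73 k203 8 (.s k65 k77 1 (.s k195 k130 8 (.d
  k12 k4 k134 1 10))))))] (.c k1 (.l (.s k11 k7 1 (.s k9 k8 0 (.s k6 k12 2 (.s k2 k14 1 (.s k70 k206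
  9 (.s k204 k137 10 (.d k68 k136 k71 9 0)))))))) (.c k11 (.q k137 [(.d k1 k2 k205 0 9), (.s k204
  k70 10 (.d k136 k139 k68 0 9))] (.c k169 (.l (.s k248 k185 8 (.d k1 k2 k205 0 9))) (.c k248 (.q
  k169 [(.d k1 k2 k205 0 9), (.s k204 k70 10 (.d k136 k139 k68 0 9))] .n) .n))) (.c k137 (.l (.s k11
  k7 1 (.s k2 k1 0 (.s k6 k14 1 (.d k9 k8 k12 0 2))))) .n)))) .n)))) (.c k216 (.q k153 [(.s k1 k2 0
  (.s k137 k205 9 (.s k136 k139 0 (.d k204 k68 k70 9 10)))), (.s k11 k7 1 (.s k8 k9 0 (.s k73 k203 8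
  (.s k65 k77 1 (.s k195 k130 8 (.d k12 k4 k134 1 10))))))] (.c k1 (.l (.s k11 k7 1 (.s k9 k8 0 (.s
  k6 k12 2 (.s k2 k14 1 (.s k70 k206 9 (.s k204 k137 10 (.d k68 k71 k136 0 9)))))))) .n)) .n)))) (.c
  k122 (.q k106 [(.s k1 k2 0 (.s k137 k205 9 (.s k136 k139 0 (.d k204 k68 k70 9 10)))), (.s k11 k7 1
  (.s k8 k9 0 (.s k73 k203 8 (.s k65 k77 1 (.s k195 k130 8 (.d k12 k4 k134 1 10))))))] (.c k1 (.l
  (.s k11 k7 1 (.s k9 k8 0 (.s k6 k12 2 (.s k2 k14 1 (.s k70 k206 9 (.s k204 k137 10 (.d k68 k71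
  k136 0 9)))))))) (.c k153 (.q k216 [(.s k1 k2 0 (.s k137 k205 9 (.s k136 k139 0 (.d k204 k68 k70 9
  10)))), (.s k11 k7 1 (.s k8 k9 0 (.s k73 k203 8 (.s k65 k77 1 (.s k195 k130 8 (.d k12 k4 k134 1
  10))))))] (.c k1 (.l (.s k11 k7 1 (.s k9 k8 0 (.s k6 k12 2 (.s k2 k14 1 (.s k70 k206 9 (.s k204
  k137 10 (.d k68 k71 k136 0 9)))))))) .n)) (.c k216 (.q k153 [(.s k1 k2 0 (.s k137 k205 9 (.s k136
  k139 0 (.d k204 k68 k70 9 10)))), (.s k11 k7 1 (.s k8 k9 0 (.s k73 k203 8 (.s k65 k77 1 (.s k195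
  k130 8 (.d k12 k4 k134 1 10))))))] (.c k1 (.l (.s k11 k7 1 (.s k9 k8 0 (.s k6 k12 2 (.s k2 k14 1
  (.s k70 k206 9 (.s k204 k137 10 (.d k68 k71 k136 0 9)))))))) .n)) .n)))) (.c k153 (.q k216 [(.s k1
  k2 0 (.s k137 k205 9 (.s k136 k139 0 (.d k204 k68 k70 9 10)))), (.s k11 k7 1 (.s k8 k9 0 (.s k73
  k203 8 (.s k65 k77 1 (.s k195 k130 8 (.d k12 k4 k134 1 10))))))] (.c k1 (.l (.s k11 k7 1 (.s k9 k8
  0 (.s k6 k12 2 (.s k2 k14 1 (.s k70 k206 9 (.s k204 k137 10 (.d k68 k71 k136 0 9)))))))) (.c k106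
  (.q k122 [(.s k1 k2 0 (.s k137 k205 9 (.s k136 k139 0 (.d k204 k68 k70 9 10)))), (.s k11 k7 1 (.s
  k8 k9 0 (.s k73 k203 8 (.s k65 k77 1 (.s k195 k130 8 (.d k12 k4 k134 1 10))))))] (.c k1 (.l (.s
  k11 k7 1 (.s k9 k8 0 (.s k6 k12 2 (.s k2 k14 1 (.s k70 k206 9 (.s k204 k137 10 (.d k68 k71 k136 0
  9)))))))) (.c k59 (.q k200 [(.s k1 k2 0 (.s k137 k205 9 (.s k136 k139 0 (.d k204 k68 k70 9 10)))),
  (.s k11 k7 1 (.s k2 k1 0 (.s k6 k14 1 (.d k9 k8 k12 0 2))))] (.c k1 (.l (.s k11 k7 1 (.s k9 k8 0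
  (.s k6 k12 2 (.s k2 k14 1 (.s k70 k206 9 (.s k204 k137 10 (.d k68 k71 k136 0 9)))))))) (.c k2 (.l
  (.s k11 k7 1 (.s k8 k9 0 (.s k136 k72 7 (.s k204 k68 9 (.d k137 k139 k70 0 10)))))) (.c k11 (.q
  k43 [(.s k2 k1 0 (.s k70 k206 9 (.s k204 k137 10 (.d k68 k71 k136 0 9)))), (.s k63 k23 5 (.s k42
  k21 6 (.s k26 k58 3 (.s k37 k48 6 (.d k47 k31 k32 3 2)))))] (.c k169 (.l (.s k248 k232 3 (.s k1 k2
  0 (.s k137 k205 9 (.s k204 k70 10 (.d k136 k139 k68 0 9)))))) (.c k248 (.q k169 [(.s k2 k1 0 (.s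
  k70 k206 9 (.s k204 k137 10 (.d k68 k71 k136 0 9)))), (.s k63 k23 5 (.s k42 k21 6 (.s k26 k58 3
  (.s k37 k48 6 (.d k47 k31 k32 3 2)))))] .n) .n))) (.c k43 (.l (.s k11 k7 1 (.s k2 k1 0 (.s k6 k14
  1 (.d k9 k8 k12 0 2))))) .n))))) (.c k200 (.q k59 [(.s k1 k2 0 (.s k137 k205 9 (.s k136 k139 0 (.d
  k204 k68 k70 9 10)))), (.s k11 k7 1 (.s k8 k9 0 (.s k73 k203 8 (.s k65 k77 1 (.s k195 k130 8 (.d
  k12 k4 k134 1 10))))))] (.c k1 (.l (.s k11 k7 1 (.s k9 k8 0 (.s k6 k12 2 (.s k2 k14 1 (.s k70 k206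
  9 (.s k204 k137 10 (.d k68 k136 k71 9 0)))))))) (.c k11 (.q k137 [(.d k1 k2 k205 0 9), (.s k204
  k70 10 (.d k136 k139 k68 0 9))] (.c k169 (.l (.s k248 k185 8 (.d k1 k2 k205 0 9))) (.c k248 (.q
  k169 [(.d k1 k2 k205 0 9), (.s k204 k70 10 (.d k136 k139 k68 0 9))] .n) .n))) (.c k137 (.l (.s k11
  k7 1 (.s k2 k1 0 (.s k6 k14 1 (.d k9 k8 k12 0 2))))) .n)))) .n)))) (.c k122 (.q k106 [(.s k1 k2 0
  (.s k137 k205 9 (.s k136 k139 0 (.d k204 k68 k70 9 10)))), (.s k11 k7 1 (.s k8 k9 0 (.s k73 k203 8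
  (.s k65 k77 1 (.s k195 k130 8 (.d k12 k4 k134 1 10))))))] (.c k1 (.l (.s k11 k7 1 (.s k9 k8 0 (.s
  k6 k12 2 (.s k2 k14 1 (.s k70 k206 9 (.s k204 k137 10 (.d k68 k71 k136 0 9)))))))) .n)) .n)))) (.c
  k216 (.q k153 [(.s k1 k2 0 (.s k137 k205 9 (.s k136 k139 0 (.d k204 k68 k70 9 10)))), (.s k11 k7 1
  (.s k8 k9 0 (.s k73 k203 8 (.s k65 k77 1 (.s k195 k130 8 (.d k12 k4 k134 1 10))))))] (.c k1 (.l
  (.s k11 k7 1 (.s k9 k8 0 (.s k6 k12 2 (.s k2 k14 1 (.s k70 k206 9 (.s k204 k137 10 (.d k68 k71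
  k136 0 9)))))))) (.c k106 (.q k122 [(.s k1 k2 0 (.s k137 k205 9 (.s k136 k139 0 (.d k204 k68 k70 9
  10)))), (.s k11 k7 1 (.s k8 k9 0 (.s k73 k203 8 (.s k65 k77 1 (.s k195 k130 8 (.d k12 k4 k134 1
  10))))))] (.c k1 (.l (.s k11 k7 1 (.s k9 k8 0 (.s k6 k12 2 (.s k2 k14 1 (.s k70 k206 9 (.s k204
  k137 10 (.d k68 k71 k136 0 9)))))))) .n)) (.c k122 (.q k106 [(.s k1 k2 0 (.s k137 k205 9 (.s k136
  k139 0 (.d k204 k68 k70 9 10)))), (.s k11 k7 1 (.s k8 k9 0 (.s k73 k203 8 (.s k65 k77 1 (.s k195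
  k130 8 (.d k12 k4 k134 1 10))))))] (.c k1 (.l (.s k11 k7 1 (.s k9 k8 0 (.s k6 k12 2 (.s k2 k14 1
  (.s k70 k206 9 (.s k204 k137 10 (.d k68 k71 k136 0 9)))))))) .n)) .n)))) .n)))))))) (.c k79 (.l
  (.s k5 k10 2 (.s k138 k207 10 (.s k133 k197 7 (.s k192 k74 10 (.d k128 k143 k64 2 7)))))) (.c k128
  (.l (.s k5 k10 2 (.s k207 k138 10 (.s k133 k197 7 (.s k74 k192 10 (.d k79 k143 k64 7 2)))))) (.c
  k133 (.f k10 k5 2 (.f k138 k207 10 (.q k3 [(.s k1 k2 0 (.s k137 k205 9 (.s k136 k139 0 (.d k204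
  k68 k70 9 10)))), (.s k2 k1 0 (.s k6 k14 1 (.s k9 k12 2 (.d k11 k8 k7 0 1)))), (.s k11 k7 1 (.s
  k74 k202 7 (.s k137 k200 8 (.s k136 k139 0 (.d k204 k70 k68 10 9)))))] (.c k153 (.q k216 [(.s k1
  k2 0 (.s k137 k205 9 (.s k136 k139 0 (.d k204 k68 k70 9 10)))), (.s k2 k1 0 (.s k6 k14 1 (.s k9
  k12 2 (.d k11 k8 k7 0 1)))), (.s k11 k7 1 (.s k74 k202 7 (.s k137 k200 8 (.s k136 k139 0 (.d k204
  k70 k68 10 9)))))] .n) (.c k216 (.q k153 [(.s k1 k2 0 (.s k137 k205 9 (.s k136 k139 0 (.d k204 k68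
  k70 9 10)))), (.s k2 k1 0 (.s k6 k14 1 (.s k9 k12 2 (.d k11 k8 k7 0 1)))), (.s k11 k7 1 (.s k74
  k202 7 (.s k137 k200 8 (.s k136 k139 0 (.d k204 k70 k68 10 9)))))] .n) .n))))) (.c k138 (.q k3
  [(.s k2 k1 0 (.s k10 k5 2 (.s k6 k14 1 (.s k9 k12 2 (.d k11 k8 k7 0 1))))), (.s k1 k2 0 (.s k137
  k205 9 (.s k11 k7 1 (.s k74 k200 8 (.s k192 k133 10 (.d k64 k128 k79 7 2)))))), (.s k5 k10 2 (.s
  k7 k11 1 (.s k133 k197 7 (.s k70 k196 8 (.s k204 k137 10 (.d k68 k136 k71 9 0)))))), (.s k1 k2 0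
  (.s k5 k10 2 (.s k137 k205 9 (.s k133 k197 7 (.s k129 k141 1 (.d k192 k74 k66 10 8))))))] (.c k153
  (.q k216 [(.s k2 k1 0 (.s k10 k5 2 (.s k6 k14 1 (.s k9 k12 2 (.d k11 k8 k7 0 1))))), (.s k1 k2 0
  (.s k137 k205 9 (.s k11 k7 1 (.s k74 k200 8 (.s k192 k133 10 (.d k64 k128 k79 7 2)))))), (.s k5
  k10 2 (.s k7 k11 1 (.s k133 k197 7 (.s k70 k196 8 (.s k204 k137 10 (.d k68 k136 k71 9 0)))))), (.s
  k1 k2 0 (.s k5 k10 2 (.s k137 k205 9 (.s k133 k197 7 (.s k129 k141 1 (.d k192 k74 k66 10 8))))))]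
  .n) (.c k216 (.q k153 [(.s k2 k1 0 (.s k10 k5 2 (.s k6 k14 1 (.s k9 k12 2 (.d k11 k8 k7 0 1))))),
  (.s k1 k2 0 (.s k137 k205 9 (.s k11 k7 1 (.s k74 k200 8 (.s k192 k133 10 (.d k64 k128 k79 7
  2)))))), (.s k5 k10 2 (.s k7 k11 1 (.s k133 k197 7 (.s k70 k196 8 (.s k204 k137 10 (.d k68 k136
  k71 9 0)))))), (.s k1 k2 0 (.s k5 k10 2 (.s k137 k205 9 (.s k133 k197 7 (.s k129 k141 1 (.d k192
  k74 k66 10 8))))))] .n) .n))) (.c k153 (.q k216 [(.s k10 k5 2 (.s k138 k207 10 (.s k74 k202 7 (.s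
  k192 k133 10 (.d k64 k79 k128 2 7)))))] (.c k5 (.q k3 [(.s k1 k2 0 (.s k207 k138 10 (.s k71 k139 9
  (.s k70 k68 0 (.d k137 k205 k204 9 10))))), (.s k1 k2 0 (.s k137 k205 9 (.s k11 k7 1 (.s k74 k200
  8 (.s k64 k79 2 (.d k192 k128 k133 7 10)))))), (.s k207 k138 10 (.s k11 k7 1 (.s k139 k71 9 (.s
  k75 k203 7 (.s k135 k195 9 (.d k143 k131 k79 1 7))))))] .n) (.c k10 (.q k3 [(.s k2 k1 0 (.s k138
  k207 10 (.s k70 k206 9 (.s k204 k137 10 (.d k68 k71 k136 0 9))))), (.s k207 k138 10 (.s k11 k7 1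
  (.s k139 k71 9 (.s k75 k203 7 (.s k135 k195 9 (.d k143 k131 k79 1 7)))))), (.s k1 k2 0 (.s k137
  k205 9 (.s k11 k7 1 (.s k74 k200 8 (.s k64 k79 2 (.d k192 k128 k133 7 10))))))] (.c k170 (.q k250
  [(.s k2 k1 0 (.s k138 k207 10 (.s k70 k206 9 (.s k204 k137 10 (.d k68 k136 k71 9 0))))), (.s k207
  k138 10 (.s k11 k7 1 (.s k139 k71 9 (.s k75 k203 7 (.s k135 k195 9 (.d k143 k131 k79 1 7)))))),
  (.s k1 k2 0 (.s k137 k205 9 (.s k11 k7 1 (.s k74 k200 8 (.s k64 k79 2 (.d k192 k128 k133 7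
  10))))))] (.c k136 (.q k187 [(.s k1 k2 0 (.s k137 k205 9 (.s k70 k204 10 (.s k71 k68 0 (.d k207
  k139 k138 9 10))))), (.s k207 k138 10 (.s k11 k7 1 (.s k139 k71 9 (.s k75 k203 7 (.s k135 k195 9
  (.d k143 k131 k79 1 7)))))), (.s k1 k2 0 (.s k137 k205 9 (.s k11 k7 1 (.s k74 k200 8 (.s k64 k79 2
  (.d k192 k128 k133 7 10))))))] (.c k137 (.l (.s k207 k138 10 (.s k139 k71 9 (.s k11 k7 1 (.s k75
  k203 7 (.s k135 k195 9 (.d k143 k131 k79 1 7))))))) .n)) (.c k187 (.q k136 [(.s k1 k2 0 (.s k204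
  k68 9 (.d k137 k205 k70 9 10))), (.s k68 k204 9 (.s k207 k138 10 (.d k71 k70 k139 0 9))), (.s k1
  k2 0 (.s k138 k207 10 (.d k137 k139 k205 0 9)))] .n) .n))) (.c k250 (.q k170 [(.s k2 k1 0 (.s k138
  k207 10 (.s k70 k206 9 (.s k204 k137 10 (.d k68 k71 k136 0 9))))), (.s k207 k138 10 (.s k85 k255
  14 (.s k101 k117 3 (.s k32 k239 10 (.d k48 k16 k154 3 14))))), (.s k1 k2 0 (.s k85 k255 14 (.s
  k169 k253 13 (.s k252 k86 14 (.d k168 k171 k84 0 13)))))] .n) .n))) (.c k64 (.q k3 [(.s k1 k2 0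
  (.s k5 k10 2 (.s k9 k13 1 (.s k6 k12 2 (.d k7 k4 k11 0 1))))), (.s k1 k2 0 (.s k138 k207 10 (.s
  k137 k205 9 (.s k204 k70 10 (.d k136 k139 k68 0 9))))), (.s k5 k10 2 (.s k207 k138 10 (.s k7 k11 1
  (.s k71 k139 9 (.s k133 k197 7 (.d k70 k68 k196 0 8))))))] .n) (.c k74 (.f k138 k207 10 (.f k10 k5
  2 (.q k3 [(.s k1 k2 0 (.s k137 k205 9 (.s k136 k139 0 (.d k204 k68 k70 9 10)))), (.s k11 k7 1 (.s
  k8 k9 0 (.s k73 k203 8 (.s k65 k77 1 (.s k195 k130 8 (.d k12 k4 k134 1 10))))))] (.c k1 (.l (.s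
  k11 k7 1 (.s k9 k8 0 (.s k6 k12 2 (.s k2 k14 1 (.s k70 k206 9 (.s k204 k137 10 (.d k68 k71 k136 0
  9)))))))) (.c k106 (.q k122 [(.s k1 k2 0 (.s k137 k205 9 (.s k136 k139 0 (.d k204 k68 k70 9
  10)))), (.s k11 k7 1 (.s k8 k9 0 (.s k73 k203 8 (.s k65 k77 1 (.s k195 k130 8 (.d k12 k4 k134 1
  10))))))] (.c k1 (.l (.s k11 k7 1 (.s k9 k8 0 (.s k6 k12 2 (.s k2 k14 1 (.s k70 k206 9 (.s k204
  k137 10 (.d k68 k71 k136 0 9)))))))) (.c k59 (.q k200 [(.s k1 k2 0 (.s k137 k205 9 (.s k136 k139 0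
  (.d k204 k68 k70 9 10)))), (.s k11 k7 1 (.s k2 k1 0 (.s k6 k14 1 (.d k9 k8 k12 0 2))))] (.c k1 (.l
  (.s k11 k7 1 (.s k9 k8 0 (.s k6 k12 2 (.s k2 k14 1 (.s k70 k206 9 (.s k204 k137 10 (.d k68 k71
  k136 0 9)))))))) (.c k2 (.l (.s k11 k7 1 (.s k8 k9 0 (.s k136 k72 7 (.s k204 k68 9 (.d k137 k139
  k70 0 10)))))) (.c k11 (.q k43 [(.s k2 k1 0 (.s k70 k206 9 (.s k204 k137 10 (.d k68 k71 k136 0
  9)))), (.s k63 k23 5 (.s k42 k21 6 (.s k26 k58 3 (.s k37 k48 6 (.d k47 k31 k32 3 2)))))] (.c k169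
  (.l (.s k248 k232 3 (.s k1 k2 0 (.s k137 k205 9 (.s k204 k70 10 (.d k136 k139 k68 0 9)))))) (.c
  k248 (.q k169 [(.s k2 k1 0 (.s k70 k206 9 (.s k204 k137 10 (.d k68 k71 k136 0 9)))), (.s k63 k23 5
  (.s k42 k21 6 (.s k26 k58 3 (.s k37 k48 6 (.d k47 k31 k32 3 2)))))] .n) .n))) (.c k43 (.l (.s k11
  k7 1 (.s k2 k1 0 (.s k6 k14 1 (.d k9 k8 k12 0 2))))) .n))))) (.c k200 (.q k59 [(.s k1 k2 0 (.s
  k137 k205 9 (.s k136 k139 0 (.d k204 k68 k70 9 10)))), (.s k11 k7 1 (.s k8 k9 0 (.s k73 k203 8 (.s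
  k65 k77 1 (.s k195 k130 8 (.d k12 k4 k134 1 10))))))] (.c k1 (.l (.s k11 k7 1 (.s k9 k8 0 (.s k6
  k12 2 (.s k2 k14 1 (.s k70 k206 9 (.s k204 k137 10 (.d k68 k136 k71 9 0)))))))) (.c k11 (.q k137
  [(.d k1 k2 k205 0 9), (.s k204 k70 10 (.d k136 k139 k68 0 9))] (.c k169 (.l (.s k248 k185 8 (.d k1
  k2 k205 0 9))) (.c k248 (.q k169 [(.d k1 k2 k205 0 9), (.s k204 k70 10 (.d k136 k139 k68 0 9))]
  .n) .n))) (.c k137 (.l (.s k11 k7 1 (.s k2 k1 0 (.s k6 k14 1 (.d k9 k8 k12 0 2))))) .n)))) .n))))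
  (.c k122 (.q k106 [(.s k1 k2 0 (.s k137 k205 9 (.s k136 k139 0 (.d k204 k68 k70 9 10)))), (.s k11
  k7 1 (.s k8 k9 0 (.s k73 k203 8 (.s k65 k77 1 (.s k195 k130 8 (.d k12 k4 k134 1 10))))))] (.c k1
  (.l (.s k11 k7 1 (.s k9 k8 0 (.s k6 k12 2 (.s k2 k14 1 (.s k70 k206 9 (.s k204 k137 10 (.d k68 k71
  k136 0 9)))))))) .n)) .n)))))) (.c k79 (.l (.s k5 k10 2 (.s k138 k207 10 (.s k133 k197 7 (.s k192
  k74 10 (.d k128 k143 k64 2 7)))))) (.c k128 (.l (.s k5 k10 2 (.s k207 k138 10 (.s k133 k197 7 (.s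
  k74 k192 10 (.d k79 k143 k64 7 2)))))) (.c k133 (.q k3 [(.s k1 k2 0 (.s k138 k207 10 (.s k137 k205
  9 (.s k136 k139 0 (.d k204 k68 k70 9 10))))), (.s k1 k2 0 (.s k5 k10 2 (.s k9 k13 1 (.s k6 k12 2
  (.d k7 k4 k11 0 1))))), (.s k5 k10 2 (.s k207 k138 10 (.s k7 k11 1 (.s k71 k139 9 (.s k199 k135 7
  (.d k4 k134 k6 8 0))))))] .n) (.c k138 (.q k3 [(.s k2 k1 0 (.s k10 k5 2 (.s k6 k14 1 (.s k9 k12 2
  (.d k11 k8 k7 0 1))))), (.s k1 k2 0 (.s k137 k205 9 (.s k11 k7 1 (.s k74 k200 8 (.s k192 k133 10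
  (.d k64 k128 k79 7 2)))))), (.s k5 k10 2 (.s k7 k11 1 (.s k133 k197 7 (.s k70 k196 8 (.s k204 k137
  10 (.d k68 k136 k71 9 0)))))), (.s k1 k2 0 (.s k5 k10 2 (.s k137 k205 9 (.s k133 k197 7 (.s k129
  k141 1 (.d k192 k74 k66 10 8))))))] .n) (.c k192 (.q k3 [(.s k1 k2 0 (.s k5 k10 2 (.s k9 k13 1 (.s
  k6 k12 2 (.d k7 k4 k11 0 1))))), (.s k1 k2 0 (.s k138 k207 10 (.s k137 k205 9 (.s k204 k70 10 (.d
  k136 k139 k68 0 9))))), (.s k5 k10 2 (.s k207 k138 10 (.s k7 k11 1 (.s k71 k139 9 (.s k133 k197 7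
  (.d k70 k68 k196 0 8))))))] .n) (.c k197 (.l (.s k10 k5 2 (.s k138 k207 10 (.s k74 k202 7 (.s k192
  k133 10 (.d k64 k79 k128 2 7)))))) (.c k202 (.l (.s k5 k10 2 (.s k138 k207 10 (.s k133 k197 7 (.s
  k192 k74 10 (.d k128 k143 k64 2 7)))))) (.c k207 (.q k3 [(.s k2 k1 0 (.s k11 k7 1 (.s k10 k5 2 (.s
  k9 k8 0 (.d k6 k14 k12 1 2))))), (.s k1 k2 0 (.s k137 k205 9 (.s k11 k7 1 (.s k74 k200 8 (.s k192
  k133 10 (.d k64 k79 k128 2 7)))))), (.s k5 k10 2 (.s k7 k11 1 (.s k133 k197 7 (.s k70 k196 8 (.s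
  k204 k137 10 (.d k68 k71 k136 0 9)))))), (.s k1 k2 0 (.s k5 k10 2 (.s k137 k205 9 (.s k204 k70 10
  (.s k133 k197 7 (.d k141 k129 k78 1 8))))))] .n) .n))))))))))))) (.c k192 (.f k10 k5 2 (.q k3 [(.s
  k11 k7 1 (.s k2 k1 0 (.s k9 k8 0 (.d k6 k14 k12 1 2)))), (.s k207 k138 10 (.s k7 k11 1 (.s k71
  k139 9 (.s k135 k199 7 (.s k75 k195 9 (.d k79 k67 k143 1 7)))))), (.s k1 k2 0 (.s k138 k207 10 (.s
  k137 k205 9 (.s k204 k70 10 (.d k136 k139 k68 0 9)))))] (.c k153 (.q k216 [(.s k11 k7 1 (.s k2 k1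
  0 (.s k9 k8 0 (.d k6 k14 k12 1 2)))), (.s k207 k138 10 (.s k7 k11 1 (.s k71 k139 9 (.s k135 k199 7
  (.s k75 k195 9 (.d k79 k67 k143 1 7)))))), (.s k1 k2 0 (.s k138 k207 10 (.s k137 k205 9 (.s k204
  k70 10 (.d k136 k139 k68 0 9)))))] .n) (.c k216 (.q k153 [(.s k11 k7 1 (.s k2 k1 0 (.s k9 k8 0 (.d
  k6 k14 k12 1 2)))), (.s k207 k138 10 (.s k7 k11 1 (.s k71 k139 9 (.s k135 k199 7 (.s k75 k195 9
  (.d k79 k67 k143 1 7)))))), (.s k1 k2 0 (.s k138 k207 10 (.s k137 k205 9 (.s k204 k70 10 (.d k136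
  k139 k68 0 9)))))] .n) .n)))) (.c k197 (.l (.s k10 k5 2 (.s k138 k207 10 (.s k74 k202 7 (.s k192
  k133 10 (.d k64 k79 k128 2 7)))))) (.c k202 (.l (.s k5 k10 2 (.s k138 k207 10 (.s k133 k197 7 (.s
  k192 k74 10 (.d k128 k143 k64 2 7)))))) (.c k207 (.q k3 [(.s k2 k1 0 (.s k11 k7 1 (.s k10 k5 2 (.s
  k9 k8 0 (.d k6 k14 k12 1 2))))), (.s k1 k2 0 (.s k137 k205 9 (.s k11 k7 1 (.s k74 k200 8 (.s k192
  k133 10 (.d k64 k79 k128 2 7)))))), (.s k5 k10 2 (.s k7 k11 1 (.s k133 k197 7 (.s k70 k196 8 (.s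
  k204 k137 10 (.d k68 k71 k136 0 9)))))), (.s k1 k2 0 (.s k5 k10 2 (.s k137 k205 9 (.s k204 k70 10
  (.s k133 k197 7 (.d k141 k129 k78 1 8))))))] (.c k153 (.q k216 [(.s k2 k1 0 (.s k11 k7 1 (.s k10
  k5 2 (.s k9 k8 0 (.d k6 k14 k12 1 2))))), (.s k1 k2 0 (.s k137 k205 9 (.s k11 k7 1 (.s k74 k200 8
  (.s k192 k133 10 (.d k64 k79 k128 2 7)))))), (.s k5 k10 2 (.s k7 k11 1 (.s k133 k197 7 (.s k70
  k196 8 (.s k204 k137 10 (.d k68 k71 k136 0 9)))))), (.s k1 k2 0 (.s k5 k10 2 (.s k137 k205 9 (.s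
  k204 k70 10 (.s k133 k197 7 (.d k141 k129 k78 1 8))))))] .n) (.c k216 (.q k153 [(.s k2 k1 0 (.s
  k11 k7 1 (.s k10 k5 2 (.s k9 k8 0 (.d k6 k14 k12 1 2))))), (.s k1 k2 0 (.s k137 k205 9 (.s k11 k7
  1 (.s k74 k200 8 (.s k192 k133 10 (.d k64 k79 k128 2 7)))))), (.s k5 k10 2 (.s k7 k11 1 (.s k133
  k197 7 (.s k70 k196 8 (.s k204 k137 10 (.d k68 k71 k136 0 9)))))), (.s k1 k2 0 (.s k5 k10 2 (.s
  k137 k205 9 (.s k204 k70 10 (.s k133 k197 7 (.d k141 k129 k78 1 8))))))] .n) .n))) (.c k216 (.q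
  k153 [(.s k10 k5 2 (.s k138 k207 10 (.s k74 k202 7 (.s k192 k133 10 (.d k64 k79 k128 2 7)))))] (.c
  k5 (.q k3 [(.s k1 k2 0 (.s k138 k207 10 (.s k137 k205 9 (.s k204 k70 10 (.d k136 k139 k68 0
  9))))), (.s k207 k138 10 (.s k11 k7 1 (.s k139 k71 9 (.s k75 k203 7 (.s k135 k195 9 (.d k143 k131
  k79 1 7)))))), (.s k1 k2 0 (.s k137 k205 9 (.s k11 k7 1 (.s k74 k200 8 (.s k64 k79 2 (.d k192 k128
  k133 7 10))))))] .n) (.c k10 (.q k170 [(.s k207 k138 10 (.s k85 k255 14 (.s k101 k117 3 (.s k32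
  k239 10 (.d k48 k16 k154 3 14))))), (.s k85 k255 14 (.s k17 k221 9 (.s k51 k34 4 (.s k204 k102 14
  (.d k136 k187 k68 4 9))))), (.s k138 k207 10 (.s k136 k187 4 (.s k204 k68 9 (.s k137 k139 0 (.s k1
  k205 9 (.d k3 k2 k70 0 10))))))] .n) (.c k64 (.q k170 [(.s k207 k138 10 (.s k85 k255 14 (.s k101
  k117 3 (.s k32 k239 10 (.d k48 k16 k154 3 14))))), (.s k85 k255 14 (.s k17 k221 9 (.s k51 k34 4
  (.s k204 k102 14 (.d k136 k187 k68 4 9))))), (.s k138 k207 10 (.s k136 k187 4 (.s k204 k68 9 (.s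
  k137 k139 0 (.s k1 k205 9 (.d k3 k2 k70 0 10))))))] .n) (.c k74 (.f k10 k5 2 (.f k138 k207 10 (.q
  k3 [(.s k1 k2 0 (.s k137 k205 9 (.s k136 k139 0 (.d k204 k68 k70 9 10)))), (.s k11 k7 1 (.s k8 k9
  0 (.s k73 k203 8 (.s k65 k77 1 (.s k195 k130 8 (.d k12 k4 k134 1 10))))))] (.c k1 (.l (.s k11 k7 1
  (.s k9 k8 0 (.s k6 k12 2 (.s k2 k14 1 (.s k70 k206 9 (.s k204 k137 10 (.d k68 k71 k136 0 9))))))))
  (.c k106 (.q k122 [(.s k1 k2 0 (.s k137 k205 9 (.s k136 k139 0 (.d k204 k68 k70 9 10)))), (.s k11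
  k7 1 (.s k8 k9 0 (.s k73 k203 8 (.s k65 k77 1 (.s k195 k130 8 (.d k12 k4 k134 1 10))))))] (.c k1
  (.l (.s k11 k7 1 (.s k9 k8 0 (.s k6 k12 2 (.s k2 k14 1 (.s k70 k206 9 (.s k204 k137 10 (.d k68 k71
  k136 0 9)))))))) .n)) (.c k122 (.q k106 [(.s k1 k2 0 (.s k137 k205 9 (.s k136 k139 0 (.d k204 k68
  k70 9 10)))), (.s k11 k7 1 (.s k8 k9 0 (.s k73 k203 8 (.s k65 k77 1 (.s k195 k130 8 (.d k12 k4
  k134 1 10))))))] (.c k1 (.l (.s k11 k7 1 (.s k9 k8 0 (.s k6 k12 2 (.s k2 k14 1 (.s k70 k206 9 (.s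
  k204 k137 10 (.d k68 k71 k136 0 9)))))))) .n)) .n)))))) (.c k79 (.l (.s k5 k10 2 (.s k138 k207 10
  (.s k133 k197 7 (.s k192 k74 10 (.d k128 k143 k64 2 7)))))) (.c k128 (.l (.s k5 k10 2 (.s k207
  k138 10 (.s k133 k197 7 (.s k74 k192 10 (.d k79 k143 k64 7 2)))))) (.c k133 (.q k170 [(.s k207
  k138 10 (.s k85 k255 14 (.s k101 k117 3 (.s k32 k239 10 (.d k48 k16 k154 3 14))))), (.s k85 k255
  14 (.s k17 k221 9 (.s k51 k34 4 (.s k204 k102 14 (.d k136 k187 k68 4 9))))), (.s k138 k207 10 (.s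
  k136 k187 4 (.s k204 k68 9 (.s k137 k139 0 (.s k1 k205 9 (.d k3 k2 k70 0 10))))))] .n) (.c k138
  (.q k3 [(.s k2 k1 0 (.s k10 k5 2 (.s k6 k14 1 (.s k9 k12 2 (.d k11 k8 k7 0 1))))), (.s k1 k2 0 (.s
  k137 k205 9 (.s k11 k7 1 (.s k74 k200 8 (.s k192 k133 10 (.d k64 k128 k79 7 2)))))), (.s k5 k10 2
  (.s k7 k11 1 (.s k133 k197 7 (.s k70 k196 8 (.s k204 k137 10 (.d k68 k136 k71 9 0)))))), (.s k1 k2
  0 (.s k5 k10 2 (.s k137 k205 9 (.s k133 k197 7 (.s k129 k141 1 (.d k192 k74 k66 10 8))))))] .n)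
  (.c k192 (.q k3 [(.s k1 k2 0 (.s k138 k207 10 (.s k137 k205 9 (.s k204 k70 10 (.d k136 k139 k68 0
  9))))), (.s k1 k2 0 (.s k5 k10 2 (.s k9 k13 1 (.s k6 k12 2 (.d k7 k4 k11 0 1))))), (.s k5 k10 2
  (.s k207 k138 10 (.s k7 k11 1 (.s k71 k139 9 (.s k133 k197 7 (.d k70 k68 k196 0 8))))))] .n) (.c
  k197 (.l (.s k10 k5 2 (.s k138 k207 10 (.s k74 k202 7 (.s k192 k133 10 (.d k64 k79 k128 2 7))))))
  (.c k202 (.l (.s k5 k10 2 (.s k138 k207 10 (.s k133 k197 7 (.s k192 k74 10 (.d k128 k143 k64 2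
  7)))))) (.c k207 (.q k3 [(.s k2 k1 0 (.s k11 k7 1 (.s k10 k5 2 (.s k9 k8 0 (.d k6 k14 k12 1
  2))))), (.s k1 k2 0 (.s k137 k205 9 (.s k11 k7 1 (.s k74 k200 8 (.s k192 k133 10 (.d k64 k79 k128
  2 7)))))), (.s k5 k10 2 (.s k7 k11 1 (.s k133 k197 7 (.s k70 k196 8 (.s k204 k137 10 (.d k68 k71
  k136 0 9)))))), (.s k1 k2 0 (.s k5 k10 2 (.s k137 k205 9 (.s k204 k70 10 (.s k133 k197 7 (.d k141
  k129 k78 1 8))))))] .n) .n))))))))))))) .n)))))))))))))))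

def t31 : T TT 256 :=
  (.q k12 [(.s k8 k4 1 (.s k14 k13 0 (.s k10 k5 2 (.s k6 k2 1 (.d k9 k11 k3 0 2)))))] (.c k1 (.l (.s
  k8 k4 1 (.s k10 k5 2 (.s k9 k11 0 (.s k6 k3 2 (.d k14 k13 k2 0 1)))))) (.c k2 (.l (.s k4 k8 1 (.s
  k5 k10 2 (.s k6 k7 0 (.s k9 k3 2 (.d k13 k14 k1 0 1)))))) (.c k3 (.f k14 k13 0 (.f k4 k8 1 (.q
  k192 [(.s k72 k132 9 (.s k74 k133 10 (.s k134 k194 9 (.d k73 k75 k195 0 10)))), (.s k128 k64 7 (.s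
  k132 k72 9 (.s k68 k196 7 (.d k136 k140 k204 1 9)))), (.s k64 k128 7 (.s k74 k133 10 (.s k134 k194
  9 (.d k69 k79 k199 2 8))))] (.c k149 (.q k208 [(.s k128 k64 7 (.s k132 k72 9 (.s k68 k196 7 (.d
  k136 k140 k204 1 9)))), (.s k64 k128 7 (.s k74 k133 10 (.s k134 k194 9 (.d k69 k79 k199 2 8)))),
  (.s k72 k132 9 (.s k74 k133 10 (.s k134 k194 9 (.d k73 k75 k195 0 10))))] .n) (.c k208 (.q k149
  [(.s k72 k132 9 (.s k74 k133 10 (.s k134 k194 9 (.d k73 k75 k195 0 10)))), (.s k128 k64 7 (.s k132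
  k72 9 (.s k68 k196 7 (.d k136 k140 k204 1 9)))), (.s k64 k128 7 (.s k74 k133 10 (.s k134 k194 9
  (.d k69 k79 k199 2 8))))] .n) .n))))) (.c k4 (.q k21 [(.s k5 k10 2 (.s k42 k63 6 (.s k37 k53 3 (.s
  k32 k47 2 (.d k48 k16 k26 3 6))))), (.s k63 k42 6 (.s k13 k14 0 (.s k29 k46 4 (.s k61 k45 3 (.s k1
  k41 5 (.s k9 k5 1 (.d k3 k6 k2 2 0))))))), (.s k5 k10 2 (.s k37 k53 3 (.s k13 k14 0 (.s k25 k49 5
  (.s k17 k29 1 (.d k51 k34 k38 4 6))))))] (.c k5 (.f k14 k13 0 (.l (.s k63 k42 6 (.s k29 k46 4 (.s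
  k25 k17 1 (.s k38 k51 6 (.s k26 k50 5 (.s k48 k37 6 (.d k24 k27 k36 0 5))))))))) (.c k37 (.l (.s
  k5 k10 2 (.s k63 k42 6 (.s k13 k14 0 (.s k1 k9 1 (.s k61 k41 5 (.d k29 k45 k46 3 4))))))) (.c k149
  (.q k208 [(.s k5 k10 2 (.s k37 k53 3 (.s k48 k26 6 (.s k32 k16 3 (.d k42 k47 k63 2 6))))), (.s k63
  k42 6 (.s k13 k14 0 (.s k29 k46 4 (.s k61 k45 3 (.s k1 k41 5 (.s k9 k5 1 (.d k3 k6 k2 2 0))))))),
  (.s k5 k10 2 (.s k37 k53 3 (.s k13 k14 0 (.s k25 k49 5 (.s k17 k29 1 (.d k51 k34 k38 4 6))))))]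
  (.c k5 (.f k14 k13 0 (.l (.s k63 k42 6 (.s k29 k46 4 (.s k25 k17 1 (.s k38 k51 6 (.s k26 k50 5 (.s
  k48 k37 6 (.d k24 k27 k36 0 5))))))))) (.c k37 (.l (.s k5 k10 2 (.s k63 k42 6 (.s k13 k14 0 (.s k1
  k9 1 (.s k61 k41 5 (.d k29 k45 k46 3 4))))))) .n))) (.c k208 (.q k149 [(.s k5 k10 2 (.s k42 k63 6
  (.s k37 k53 3 (.s k32 k47 2 (.d k48 k16 k26 3 6))))), (.s k63 k42 6 (.s k85 k213 7 (.s k170 k255
  14 (.s k192 k106 14 (.d k128 k191 k64 6 7))))), (.s k5 k10 2 (.s k37 k53 3 (.s k13 k14 0 (.s k25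
  k49 5 (.s k51 k38 6 (.d k17 k29 k34 1 4))))))] (.c k170 (.l (.s k63 k42 6 (.s k13 k14 0 (.s k29
  k46 4 (.s k61 k45 3 (.s k1 k41 5 (.d k5 k9 k10 1 2))))))) .n)) .n))))) (.c k5 (.f k4 k8 1 (.q k192
  [(.s k128 k64 7 (.s k132 k72 9 (.s k68 k196 7 (.d k136 k140 k204 1 9)))), (.s k64 k128 7 (.s k14
  k13 0 (.s k74 k133 10 (.s k134 k194 9 (.d k69 k79 k199 2 8))))), (.s k13 k14 0 (.s k132 k72 9 (.s
  k133 k74 10 (.s k73 k193 9 (.d k134 k135 k195 0 10)))))] (.c k149 (.q k208 [(.s k128 k64 7 (.s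
  k132 k72 9 (.s k136 k140 1 (.d k68 k196 k204 7 9)))), (.s k64 k128 7 (.s k14 k13 0 (.s k74 k133 10
  (.s k134 k194 9 (.d k69 k79 k199 2 8))))), (.s k13 k14 0 (.s k132 k72 9 (.s k133 k74 10 (.s k73
  k193 9 (.d k134 k135 k195 0 10)))))] .n) (.c k208 (.q k149 [(.s k128 k64 7 (.s k132 k72 9 (.s k68
  k196 7 (.d k136 k140 k204 1 9)))), (.s k64 k128 7 (.s k14 k13 0 (.s k74 k133 10 (.s k134 k194 9
  (.d k69 k79 k199 2 8))))), (.s k13 k14 0 (.s k132 k72 9 (.s k133 k74 10 (.s k73 k193 9 (.d k134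
  k135 k195 0 10)))))] .n) .n)))) (.c k6 (.f k14 k13 0 (.f k4 k8 1 (.q k192 [(.s k72 k132 9 (.s k74
  k133 10 (.s k134 k194 9 (.d k73 k75 k195 0 10)))), (.s k128 k64 7 (.s k132 k72 9 (.s k68 k196 7
  (.d k136 k140 k204 1 9)))), (.s k64 k128 7 (.s k74 k133 10 (.s k134 k194 9 (.d k69 k79 k199 2
  8))))] (.c k149 (.q k208 [(.s k128 k64 7 (.s k132 k72 9 (.s k68 k196 7 (.d k136 k140 k204 1 9)))),
  (.s k64 k128 7 (.s k74 k133 10 (.s k134 k194 9 (.d k69 k79 k199 2 8)))), (.s k72 k132 9 (.s k74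
  k133 10 (.s k134 k194 9 (.d k73 k75 k195 0 10))))] .n) (.c k208 (.q k149 [(.s k72 k132 9 (.s k74
  k133 10 (.s k134 k194 9 (.d k73 k75 k195 0 10)))), (.s k128 k64 7 (.s k132 k72 9 (.s k68 k196 7
  (.d k136 k140 k204 1 9)))), (.s k64 k128 7 (.s k74 k133 10 (.s k134 k194 9 (.d k69 k79 k199 2
  8))))] .n) .n))))) (.c k7 (.l (.s k8 k4 1 (.s k14 k13 0 (.s k10 k5 2 (.s k6 k2 1 (.d k9 k11 k3 0
  2)))))) (.c k8 (.q k21 [(.s k5 k10 2 (.s k42 k63 6 (.s k37 k53 3 (.s k32 k47 2 (.d k48 k16 k26 3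
  6))))), (.s k63 k42 6 (.s k13 k14 0 (.s k29 k46 4 (.s k25 k17 1 (.s k37 k49 5 (.d k5 k10 k53 2
  3)))))), (.s k63 k42 6 (.s k13 k14 0 (.s k29 k46 4 (.s k61 k45 3 (.s k1 k41 5 (.s k9 k5 1 (.d k3
  k2 k6 0 2))))))), (.s k5 k10 2 (.s k37 k53 3 (.s k13 k14 0 (.s k25 k49 5 (.s k17 k29 1 (.d k51 k34
  k38 4 6))))))] (.c k5 (.q k149 [(.s k85 k213 7 (.s k170 k255 14 (.s k128 k191 6 (.s k192 k64 7 (.d
  k63 k42 k106 6 14))))), (.s k13 k14 0 (.s k85 k213 7 (.s k255 k170 14 (.s k93 k174 12 (.s k173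
  k253 11 (.s k94 k252 12 (.d k95 k92 k175 0 11))))))), (.s k63 k42 6 (.s k29 k46 4 (.s k89 k209 9
  (.s k166 k243 14 (.s k192 k106 14 (.d k132 k183 k72 4 9))))))] (.c k170 (.l (.s k63 k42 6 (.s k29
  k46 4 (.s k85 k213 7 (.s k89 k209 9 (.s k243 k166 14 (.d k81 k162 k93 12 1))))))) .n)) (.c k37 (.l
  (.s k5 k10 2 (.s k63 k42 6 (.s k13 k14 0 (.s k29 k46 4 (.s k61 k45 3 (.d k1 k9 k41 1 5))))))) (.c
  k149 (.q k208 [(.s k5 k10 2 (.s k37 k53 3 (.s k48 k26 6 (.s k32 k16 3 (.d k42 k47 k63 2 6))))),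
  (.s k63 k42 6 (.s k13 k14 0 (.s k29 k46 4 (.s k25 k17 1 (.s k37 k49 5 (.d k5 k10 k53 2 3)))))),
  (.s k63 k42 6 (.s k13 k14 0 (.s k29 k46 4 (.s k61 k45 3 (.s k1 k41 5 (.s k9 k5 1 (.d k3 k2 k6 0
  2))))))), (.s k5 k10 2 (.s k37 k53 3 (.s k13 k14 0 (.s k25 k49 5 (.s k17 k29 1 (.d k51 k34 k38 4
  6))))))] (.c k5 (.q k192 [(.s k64 k128 7 (.s k240 k224 3 (.s k80 k160 11 (.s k144 k16 7 (.d k96
  k112 k48 3 11))))), (.s k13 k14 0 (.s k132 k72 9 (.s k133 k74 10 (.s k73 k193 9 (.d k134 k135 k195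
  0 10)))))] .n) (.c k37 (.l (.s k5 k10 2 (.s k63 k42 6 (.s k13 k14 0 (.s k29 k46 4 (.s k61 k45 3
  (.d k1 k9 k41 1 5))))))) .n))) (.c k208 (.q k149 [(.s k5 k10 2 (.s k42 k63 6 (.s k37 k53 3 (.s k32
  k47 2 (.d k48 k16 k26 3 6))))), (.s k63 k42 6 (.s k85 k213 7 (.s k170 k255 14 (.s k192 k106 14 (.d
  k128 k191 k64 6 7))))), (.s k5 k10 2 (.s k37 k53 3 (.s k13 k14 0 (.s k25 k49 5 (.s k51 k38 6 (.d
  k17 k29 k34 1 4))))))] (.c k170 (.l (.s k63 k42 6 (.s k13 k14 0 (.s k29 k46 4 (.s k61 k45 3 (.s k1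
  k41 5 (.d k5 k9 k10 1 2))))))) .n)) .n))))) (.c k9 (.f k8 k4 1 (.q k170 [(.s k85 k255 14 (.s k89
  k251 12 (.s k81 k93 1 (.d k243 k162 k166 12 14)))), (.s k255 k85 14 (.s k13 k14 0 (.s k93 k174 12
  (.s k173 k253 11 (.s k94 k252 12 (.d k95 k92 k175 0 11)))))), (.s k89 k251 12 (.s k13 k14 0 (.s
  k166 k243 14 (.s k165 k241 13 (.s k160 k175 2 (.s k164 k167 0 (.d k240 k80 k88 11 13))))))), (.s
  k5 k10 2 (.s k89 k251 12 (.s k13 k14 0 (.s k165 k241 13 (.s k85 k245 11 (.s k81 k93 1 (.d k243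
  k166 k162 14 12)))))))] (.c k149 (.q k208 [(.s k85 k255 14 (.s k89 k251 12 (.s k81 k93 1 (.d k243
  k162 k166 12 14)))), (.s k255 k85 14 (.s k13 k14 0 (.s k93 k174 12 (.s k173 k253 11 (.s k94 k252
  12 (.d k95 k92 k175 0 11)))))), (.s k89 k251 12 (.s k13 k14 0 (.s k166 k243 14 (.s k165 k241 13
  (.s k160 k175 2 (.s k164 k167 0 (.d k240 k80 k88 11 13))))))), (.s k5 k10 2 (.s k89 k251 12 (.s
  k13 k14 0 (.s k165 k241 13 (.s k85 k245 11 (.s k81 k93 1 (.d k243 k166 k162 14 12)))))))] (.c k166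
  (.l (.s k5 k10 2 (.s k85 k255 14 (.s k165 k245 11 (.s k89 k251 12 (.d k13 k14 k241 0 13)))))) .n))
  (.c k166 (.l (.s k5 k10 2 (.s k85 k255 14 (.s k165 k245 11 (.s k89 k251 12 (.d k13 k14 k241 0
  13)))))) (.c k208 (.q k149 [(.s k85 k255 14 (.s k89 k251 12 (.s k81 k93 1 (.d k243 k162 k166 12
  14)))), (.s k85 k255 14 (.s k21 k213 7 (.s k63 k42 6 (.s k192 k106 14 (.d k128 k191 k64 6 7)))))]
  (.c k85 (.l (.s k89 k251 12 (.s k166 k243 14 (.s k128 k191 6 (.s k192 k64 7 (.d k132 k183 k72 4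
  9)))))) (.c k255 (.l (.s k89 k251 12 (.s k243 k166 14 (.s k209 k29 9 (.s k128 k191 6 (.d k192 k226
  k64 4 7)))))) .n))) .n))))) (.c k10 (.q k170 [(.s k8 k4 1 (.s k85 k255 14 (.s k89 k251 12 (.s k243
  k166 14 (.d k81 k93 k162 1 12))))), (.s k255 k85 14 (.s k13 k14 0 (.s k93 k174 12 (.s k173 k253 11
  (.s k94 k252 12 (.d k95 k92 k175 0 11)))))), (.s k4 k8 1 (.s k85 k255 14 (.s k166 k247 12 (.s k243
  k89 14 (.d k162 k174 k81 1 12)))))] (.c k85 (.f k8 k4 1 (.l (.s k89 k251 12 (.s k13 k14 0 (.s k166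
  k243 14 (.s k165 k241 13 (.s k160 k175 2 (.s k164 k167 0 (.d k240 k80 k88 11 13))))))))) (.c k149
  (.q k208 [(.s k4 k8 1 (.s k85 k255 14 (.s k166 k247 12 (.s k162 k174 1 (.d k243 k81 k89 12
  14))))), (.s k255 k85 14 (.s k13 k14 0 (.s k93 k174 12 (.s k173 k253 11 (.s k94 k252 12 (.d k95
  k92 k175 0 11))))))] (.c k85 (.f k8 k4 1 (.l (.s k89 k251 12 (.s k13 k14 0 (.s k166 k243 14 (.s
  k165 k241 13 (.s k160 k175 2 (.s k164 k167 0 (.d k240 k80 k88 11 13))))))))) (.c k166 (.l (.s k255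
  k85 14 (.s k14 k13 0 (.s k174 k93 12 (.s k94 k254 11 (.s k173 k252 12 (.d k175 k95 k172 11
  0))))))) (.c k174 (.l (.s k8 k4 1 (.s k85 k255 14 (.s k89 k251 12 (.s k243 k166 14 (.d k81 k93
  k162 1 12)))))) (.c k255 (.f k8 k4 1 (.l (.s k89 k251 12 (.s k13 k14 0 (.s k165 k241 13 (.s k160
  k175 2 (.s k240 k80 11 (.s k164 k88 13 (.d k166 k243 k167 14 0))))))))) .n))))) (.c k166 (.l (.s
  k255 k85 14 (.s k14 k13 0 (.s k174 k93 12 (.s k94 k254 11 (.s k173 k252 12 (.d k175 k95 k172 11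
  0))))))) (.c k208 (.q k149 [(.s k8 k4 1 (.s k85 k255 14 (.s k89 k251 12 (.s k243 k166 14 (.d k81
  k93 k162 1 12))))), (.s k85 k255 14 (.s k21 k213 7 (.s k63 k42 6 (.s k192 k106 14 (.d k128 k191
  k64 6 7))))), (.s k4 k8 1 (.s k128 k191 6 (.s k192 k64 7 (.s k132 k72 9 (.s k68 k196 7 (.d k136
  k140 k204 1 9))))))] .n) (.c k255 (.f k8 k4 1 (.l (.s k89 k251 12 (.s k13 k14 0 (.s k165 k241 13
  (.s k160 k175 2 (.s k240 k80 11 (.s k164 k88 13 (.d k166 k243 k167 14 0))))))))) .n)))))) (.c k11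
  (.l (.s k4 k8 1 (.s k13 k14 0 (.s k5 k10 2 (.s k9 k1 1 (.d k6 k7 k3 0 2)))))) (.c k13 (.f k8 k4 1
  (.q k192 [(.s k64 k128 7 (.s k72 k132 9 (.s k136 k200 7 (.d k68 k76 k204 1 9)))), (.s k5 k10 2 (.s
  k128 k64 7 (.s k133 k74 10 (.s k69 k197 7 (.d k138 k143 k207 2 10))))), (.s k10 k5 2 (.s k72 k132
  9 (.s k74 k133 10 (.s k138 k202 7 (.d k73 k75 k203 0 8)))))] (.c k149 (.q k208 [(.s k72 k132 9 (.s
  k136 k200 7 (.s k68 k204 9 (.d k64 k76 k128 1 7)))), (.s k5 k10 2 (.s k128 k64 7 (.s k133 k74 10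
  (.s k69 k197 7 (.d k138 k143 k207 2 10))))), (.s k10 k5 2 (.s k72 k132 9 (.s k74 k133 10 (.s k138
  k202 7 (.d k73 k75 k203 0 8)))))] .n) (.c k208 (.q k149 [(.s k64 k128 7 (.s k72 k132 9 (.s k136
  k200 7 (.d k68 k76 k204 1 9)))), (.s k5 k10 2 (.s k128 k64 7 (.s k133 k74 10 (.s k69 k197 7 (.d
  k138 k143 k207 2 10))))), (.s k10 k5 2 (.s k72 k132 9 (.s k74 k133 10 (.s k138 k202 7 (.d k73 k75
  k203 0 8)))))] .n) .n)))) (.c k14 (.q k166 [(.s k4 k8 1 (.s k85 k247 12 (.s k170 k255 14 (.s k243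
  k89 14 (.d k162 k174 k81 1 12))))), (.s k4 k8 1 (.s k5 k10 2 (.s k85 k247 12 (.s k165 k245 11 (.s
  k164 k167 0 (.s k244 k84 11 (.d k7 k6 k86 0 12))))))), (.s k5 k10 2 (.s k243 k89 14 (.s k162 k81
  12 (.s k170 k174 1 (.s k85 k255 14 (.s k165 k245 11 (.d k167 k91 k164 13 0)))))))] (.c k85 (.f k4
  k8 1 (.l (.s k5 k10 2 (.s k6 k7 0 (.s k86 k246 11 (.s k89 k243 14 (.s k92 k83 2 (.s k252 k172 11
  (.d k3 k9 k169 2 14))))))))) (.c k149 (.q k208 [(.s k4 k8 1 (.s k85 k247 12 (.s k170 k255 14 (.s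
  k162 k174 1 (.d k243 k81 k89 12 14))))), (.s k4 k8 1 (.s k5 k10 2 (.s k85 k247 12 (.s k165 k245 11
  (.s k164 k167 0 (.s k244 k84 11 (.d k7 k6 k86 0 12))))))), (.s k5 k10 2 (.s k243 k89 14 (.s k162
  k81 12 (.s k170 k174 1 (.s k85 k255 14 (.s k165 k245 11 (.d k167 k91 k164 13 0)))))))] (.c k85 (.f
  k4 k8 1 (.l (.s k5 k10 2 (.s k6 k7 0 (.s k86 k246 11 (.s k89 k243 14 (.s k92 k83 2 (.s k252 k172
  11 (.d k3 k9 k169 2 14))))))))) (.c k170 (.f k8 k4 1 (.l (.s k10 k5 2 (.s k9 k11 0 (.s k89 k243 14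
  (.s k169 k249 11 (.s k172 k163 2 (.s k252 k92 11 (.d k3 k6 k86 2 14))))))))) .n))) (.c k170 (.f k8
  k4 1 (.l (.s k10 k5 2 (.s k9 k11 0 (.s k89 k243 14 (.s k169 k249 11 (.s k172 k163 2 (.s k252 k92
  11 (.d k3 k6 k86 2 14))))))))) (.c k208 (.q k149 [(.s k4 k8 1 (.s k85 k247 12 (.s k170 k255 14 (.s
  k243 k89 14 (.d k162 k174 k81 1 12))))), (.s k89 k243 14 (.s k29 k209 9 (.s k63 k46 4 (.s k192
  k106 14 (.d k132 k183 k72 4 9)))))] (.c k89 (.l (.s k4 k8 1 (.s k85 k247 12 (.s k170 k255 14 (.s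
  k128 k191 6 (.s k192 k64 7 (.d k132 k183 k72 4 9))))))) (.c k243 (.l (.s k4 k8 1 (.s k85 k247 12
  (.s k255 k170 14 (.s k213 k21 7 (.s k132 k183 4 (.d k192 k234 k72 6 9))))))) .n))) .n))))) (.c
  k149 (.q k208 [(.s k8 k4 1 (.s k14 k13 0 (.s k10 k5 2 (.s k6 k2 1 (.d k9 k11 k3 0 2)))))] (.c k1
  (.l (.s k8 k4 1 (.s k10 k5 2 (.s k9 k11 0 (.s k6 k3 2 (.d k14 k13 k2 0 1)))))) (.c k2 (.l (.s k4
  k8 1 (.s k5 k10 2 (.s k6 k7 0 (.s k9 k3 2 (.d k13 k14 k1 0 1)))))) (.c k3 (.q k192 [(.s k4 k8 1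
  (.s k128 k64 7 (.s k132 k72 9 (.s k136 k140 1 (.d k68 k196 k204 7 9))))), (.s k5 k10 2 (.s k128
  k64 7 (.s k133 k74 10 (.s k69 k197 7 (.d k138 k143 k207 2 10))))), (.s k13 k14 0 (.s k132 k72 9
  (.s k133 k74 10 (.s k73 k193 9 (.d k134 k135 k195 0 10)))))] .n) (.c k4 (.q k192 [(.s k10 k5 2 (.s
  k74 k133 10 (.s k138 k202 7 (.s k69 k207 10 (.d k64 k79 k128 2 7))))), (.s k64 k128 7 (.s k240
  k224 3 (.s k80 k160 11 (.s k144 k16 7 (.d k96 k112 k48 3 11))))), (.s k13 k14 0 (.s k132 k72 9 (.s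
  k133 k74 10 (.s k73 k193 9 (.d k134 k135 k195 0 10)))))] .n) (.c k5 (.q k192 [(.s k4 k8 1 (.s k128
  k64 7 (.s k132 k72 9 (.s k136 k140 1 (.d k68 k196 k204 7 9))))), (.s k64 k128 7 (.s k240 k224 3
  (.s k80 k160 11 (.s k144 k16 7 (.d k96 k112 k48 3 11))))), (.s k13 k14 0 (.s k132 k72 9 (.s k133
  k74 10 (.s k73 k193 9 (.d k134 k135 k195 0 10)))))] .n) (.c k6 (.q k192 [(.s k4 k8 1 (.s k128 k64
  7 (.s k132 k72 9 (.s k136 k140 1 (.d k68 k196 k204 7 9))))), (.s k5 k10 2 (.s k128 k64 7 (.s k133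
  k74 10 (.s k69 k197 7 (.d k138 k143 k207 2 10))))), (.s k13 k14 0 (.s k132 k72 9 (.s k133 k74 10
  (.s k73 k193 9 (.d k134 k135 k195 0 10)))))] .n) (.c k7 (.l (.s k8 k4 1 (.s k14 k13 0 (.s k10 k5 2
  (.s k6 k2 1 (.d k9 k11 k3 0 2)))))) (.c k8 (.q k192 [(.s k10 k5 2 (.s k74 k133 10 (.s k138 k202 7
  (.s k69 k207 10 (.d k64 k79 k128 2 7))))), (.s k64 k128 7 (.s k240 k224 3 (.s k80 k160 11 (.s k144
  k16 7 (.d k96 k112 k48 3 11))))), (.s k13 k14 0 (.s k132 k72 9 (.s k133 k74 10 (.s k73 k193 9 (.d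
  k134 k135 k195 0 10)))))] .n) (.c k9 (.q k192 [(.s k4 k8 1 (.s k128 k64 7 (.s k132 k72 9 (.s k136
  k140 1 (.d k68 k196 k204 7 9))))), (.s k13 k14 0 (.s k132 k72 9 (.s k133 k74 10 (.s k73 k193 9 (.d
  k134 k135 k195 0 10))))), (.s k5 k10 2 (.s k128 k64 7 (.s k133 k74 10 (.s k69 k197 7 (.d k138 k143
  k207 2 10)))))] .n) (.c k10 (.q k170 [(.s k4 k8 1 (.s k85 k255 14 (.s k166 k247 12 (.s k162 k174 1
  (.d k243 k81 k89 12 14))))), (.s k255 k85 14 (.s k13 k14 0 (.s k93 k174 12 (.s k173 k253 11 (.s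
  k94 k252 12 (.d k95 k92 k175 0 11))))))] (.c k85 (.f k8 k4 1 (.l (.s k89 k251 12 (.s k13 k14 0 (.s
  k166 k243 14 (.s k165 k241 13 (.s k160 k175 2 (.s k164 k167 0 (.d k240 k80 k88 11 13))))))))) (.c
  k166 (.l (.s k255 k85 14 (.s k14 k13 0 (.s k174 k93 12 (.s k94 k254 11 (.s k173 k252 12 (.d k175
  k95 k172 11 0))))))) (.c k174 (.l (.s k8 k4 1 (.s k85 k255 14 (.s k89 k251 12 (.s k243 k166 14 (.d
  k81 k93 k162 1 12)))))) (.c k255 (.f k8 k4 1 (.l (.s k89 k251 12 (.s k13 k14 0 (.s k165 k241 13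
  (.s k160 k175 2 (.s k240 k80 11 (.s k164 k88 13 (.d k166 k243 k167 14 0))))))))) .n))))) (.c k11
  (.l (.s k4 k8 1 (.s k13 k14 0 (.s k5 k10 2 (.s k9 k1 1 (.d k6 k7 k3 0 2)))))) (.c k13 (.q k192
  [(.s k4 k8 1 (.s k128 k64 7 (.s k132 k72 9 (.s k136 k140 1 (.d k68 k196 k204 7 9))))), (.s k5 k10
  2 (.s k128 k64 7 (.s k133 k74 10 (.s k69 k197 7 (.d k138 k143 k207 2 10))))), (.s k72 k132 9 (.s
  k240 k224 3 (.s k88 k164 13 (.s k148 k28 9 (.d k104 k120 k60 3 13)))))] .n) (.c k14 (.q k166 [(.s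
  k4 k8 1 (.s k85 k247 12 (.s k170 k255 14 (.s k162 k174 1 (.d k243 k81 k89 12 14))))), (.s k4 k8 1
  (.s k5 k10 2 (.s k85 k247 12 (.s k165 k245 11 (.s k164 k167 0 (.s k244 k84 11 (.d k7 k6 k86 0
  12))))))), (.s k5 k10 2 (.s k243 k89 14 (.s k162 k81 12 (.s k170 k174 1 (.s k85 k255 14 (.s k165
  k245 11 (.d k167 k91 k164 13 0)))))))] (.c k85 (.f k4 k8 1 (.l (.s k5 k10 2 (.s k6 k7 0 (.s k86
  k246 11 (.s k89 k243 14 (.s k92 k83 2 (.s k252 k172 11 (.d k3 k9 k169 2 14))))))))) (.c k170 (.f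
  k8 k4 1 (.l (.s k10 k5 2 (.s k9 k11 0 (.s k89 k243 14 (.s k169 k249 11 (.s k172 k163 2 (.s k252
  k92 11 (.d k3 k6 k86 2 14))))))))) .n))) .n)))))))))))))) (.c k208 (.q k149 [(.s k8 k4 1 (.s k14
  k13 0 (.s k10 k5 2 (.s k6 k2 1 (.d k9 k11 k3 0 2)))))] (.c k1 (.l (.s k8 k4 1 (.s k10 k5 2 (.s k9
  k11 0 (.s k6 k3 2 (.d k14 k13 k2 0 1)))))) (.c k2 (.l (.s k4 k8 1 (.s k5 k10 2 (.s k6 k7 0 (.s k9
  k3 2 (.d k13 k14 k1 0 1)))))) (.c k3 (.q k192 [(.s k4 k8 1 (.s k128 k64 7 (.s k132 k72 9 (.s k68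
  k196 7 (.d k136 k140 k204 1 9))))), (.s k5 k10 2 (.s k128 k64 7 (.s k133 k74 10 (.s k69 k197 7 (.d
  k138 k143 k207 2 10))))), (.s k13 k14 0 (.s k132 k72 9 (.s k133 k74 10 (.s k73 k193 9 (.d k134
  k135 k195 0 10)))))] .n) (.c k4 (.q k192 [(.s k64 k128 7 (.s k106 k63 14 (.s k85 k127 6 (.s k255
  k170 14 (.d k213 k234 k21 6 7))))), (.s k13 k14 0 (.s k132 k72 9 (.s k133 k74 10 (.s k73 k193 9
  (.d k134 k135 k195 0 10)))))] (.c k106 (.l (.s k10 k5 2 (.s k64 k128 7 (.s k74 k133 10 (.s k138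
  k202 7 (.d k69 k79 k207 2 10)))))) .n)) (.c k5 (.q k192 [(.s k4 k8 1 (.s k128 k64 7 (.s k132 k72 9
  (.s k68 k196 7 (.d k136 k140 k204 1 9))))), (.s k64 k128 7 (.s k106 k63 14 (.s k85 k127 6 (.s k255
  k170 14 (.d k213 k234 k21 6 7))))), (.s k13 k14 0 (.s k132 k72 9 (.s k133 k74 10 (.s k73 k193 9
  (.d k134 k135 k195 0 10)))))] .n) (.c k6 (.q k192 [(.s k4 k8 1 (.s k128 k64 7 (.s k132 k72 9 (.s
  k68 k196 7 (.d k136 k140 k204 1 9))))), (.s k5 k10 2 (.s k128 k64 7 (.s k133 k74 10 (.s k69 k197 7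
  (.d k138 k143 k207 2 10))))), (.s k13 k14 0 (.s k132 k72 9 (.s k133 k74 10 (.s k73 k193 9 (.d k134
  k135 k195 0 10)))))] .n) (.c k7 (.l (.s k8 k4 1 (.s k14 k13 0 (.s k10 k5 2 (.s k6 k2 1 (.d k9 k11
  k3 0 2)))))) (.c k8 (.q k192 [(.s k10 k5 2 (.s k64 k128 7 (.s k74 k133 10 (.s k138 k202 7 (.d k69
  k79 k207 2 10))))), (.s k64 k128 7 (.s k106 k63 14 (.s k85 k127 6 (.s k213 k21 7 (.d k255 k234
  k170 6 14))))), (.s k13 k14 0 (.s k132 k72 9 (.s k133 k74 10 (.s k73 k193 9 (.d k134 k135 k195 0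
  10)))))] .n) (.c k9 (.q k192 [(.s k8 k4 1 (.s k64 k128 7 (.s k72 k132 9 (.s k136 k200 7 (.d k68
  k76 k204 1 9))))), (.s k10 k5 2 (.s k64 k128 7 (.s k74 k133 10 (.s k138 k202 7 (.d k69 k79 k207 2
  10))))), (.s k13 k14 0 (.s k132 k72 9 (.s k133 k74 10 (.s k73 k193 9 (.d k134 k135 k195 0 10)))))]
  .n) (.c k10 (.q k170 [(.s k8 k4 1 (.s k85 k255 14 (.s k89 k251 12 (.s k243 k166 14 (.d k81 k93
  k162 1 12))))), (.s k85 k255 14 (.s k21 k213 7 (.s k63 k42 6 (.s k192 k106 14 (.d k128 k191 k64 6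
  7))))), (.s k4 k8 1 (.s k128 k191 6 (.s k192 k64 7 (.s k132 k72 9 (.s k68 k196 7 (.d k136 k140
  k204 1 9))))))] .n) (.c k11 (.l (.s k4 k8 1 (.s k13 k14 0 (.s k5 k10 2 (.s k9 k1 1 (.d k6 k7 k3 0
  2)))))) (.c k13 (.q k170 [(.s k4 k8 1 (.s k85 k255 14 (.s k166 k247 12 (.s k162 k174 1 (.d k243
  k81 k89 12 14))))), (.s k85 k255 14 (.s k21 k213 7 (.s k63 k42 6 (.s k192 k106 14 (.d k128 k191
  k64 6 7))))), (.s k4 k8 1 (.s k128 k191 6 (.s k192 k64 7 (.s k132 k72 9 (.s k68 k196 7 (.d k136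
  k140 k204 1 9))))))] .n) (.c k14 (.q k166 [(.s k4 k8 1 (.s k85 k247 12 (.s k170 k255 14 (.s k243
  k89 14 (.d k162 k174 k81 1 12))))), (.s k89 k243 14 (.s k29 k209 9 (.s k63 k46 4 (.s k192 k106 14
  (.d k132 k183 k72 4 9)))))] (.c k89 (.l (.s k4 k8 1 (.s k85 k247 12 (.s k170 k255 14 (.s k128 k191
  6 (.s k192 k64 7 (.d k132 k183 k72 4 9))))))) (.c k243 (.l (.s k4 k8 1 (.s k85 k247 12 (.s k255
  k170 14 (.s k213 k21 7 (.s k132 k183 4 (.d k192 k234 k72 6 9))))))) .n))) .n))))))))))))))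
  .n))))))))))))))))

def t32 : T TT 256 :=
  (.q k12 [(.s k8 k4 1 (.s k14 k13 0 (.s k10 k5 2 (.s k6 k2 1 (.d k9 k11 k3 0 2)))))] (.c k1 (.l (.s
  k8 k4 1 (.s k10 k5 2 (.s k9 k11 0 (.s k6 k3 2 (.d k14 k13 k2 0 1)))))) (.c k2 (.l (.s k4 k8 1 (.s
  k5 k10 2 (.s k6 k7 0 (.s k9 k3 2 (.d k13 k14 k1 0 1)))))) (.c k3 (.q k192 [(.s k4 k8 1 (.s k128
  k64 7 (.s k132 k72 9 (.s k68 k196 7 (.d k136 k140 k204 1 9))))), (.s k5 k10 2 (.s k128 k64 7 (.s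
  k133 k74 10 (.s k69 k197 7 (.d k138 k143 k207 2 10))))), (.s k13 k14 0 (.s k132 k72 9 (.s k133 k74
  10 (.s k73 k193 9 (.d k134 k135 k195 0 10)))))] .n) (.c k4 (.q k21 [(.s k5 k10 2 (.s k63 k42 6 (.s
  k37 k53 3 (.s k26 k48 6 (.d k31 k47 k16 3 2))))), (.s k63 k42 6 (.s k13 k14 0 (.s k29 k46 4 (.s
  k45 k61 3 (.s k30 k60 4 (.d k31 k47 k28 3 0)))))), (.s k5 k10 2 (.s k37 k53 3 (.s k13 k14 0 (.s
  k25 k49 5 (.s k17 k29 1 (.d k51 k34 k38 4 6))))))] (.c k37 (.l (.s k63 k42 6 (.s k47 k31 3 (.s k14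
  k13 0 (.s k46 k29 4 (.s k30 k62 3 (.d k45 k44 k60 0 4))))))) .n)) (.c k5 (.q k21 [(.s k4 k8 1 (.s
  k42 k63 6 (.s k38 k55 4 (.s k51 k25 6 (.d k34 k46 k17 1 4))))), (.s k63 k42 6 (.s k14 k13 0 (.s
  k46 k29 4 (.s k30 k62 3 (.s k45 k60 4 (.d k47 k44 k31 0 3)))))), (.s k4 k8 1 (.s k38 k55 4 (.s k13
  k14 0 (.s k25 k51 6 (.s k37 k49 5 (.s k48 k26 6 (.d k36 k39 k24 0 5)))))))] (.c k63 (.l (.s k4 k8
  1 (.s k38 k55 4 (.s k14 k13 0 (.s k51 k25 6 (.s k26 k50 5 (.s k37 k48 6 (.d k39 k36 k27 0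
  5)))))))) .n)) (.c k6 (.q k21 [(.s k4 k8 1 (.s k42 k63 6 (.s k38 k55 4 (.s k51 k25 6 (.d k34 k46
  k17 1 4))))), (.s k5 k10 2 (.s k63 k42 6 (.s k37 k53 3 (.s k26 k48 6 (.d k31 k47 k16 3 2))))), (.s
  k4 k8 1 (.s k5 k10 2 (.s k38 k55 4 (.s k37 k53 3 (.s k14 k13 0 (.d k26 k50 k48 5 6))))))] .n) (.c
  k7 (.l (.s k8 k4 1 (.s k14 k13 0 (.s k10 k5 2 (.s k6 k2 1 (.d k9 k11 k3 0 2)))))) (.c k8 (.q k21
  [(.s k5 k10 2 (.s k37 k53 3 (.s k26 k48 6 (.s k31 k16 2 (.d k63 k47 k42 3 6))))), (.s k63 k42 6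
  (.s k13 k14 0 (.s k29 k46 4 (.s k45 k61 3 (.s k30 k60 4 (.d k31 k47 k28 3 0)))))), (.s k5 k10 2
  (.s k37 k53 3 (.s k13 k14 0 (.s k25 k49 5 (.s k17 k29 1 (.d k51 k34 k38 4 6))))))] (.c k37 (.l (.s
  k63 k42 6 (.s k47 k31 3 (.s k14 k13 0 (.s k46 k29 4 (.s k30 k62 3 (.d k45 k44 k60 0 4))))))) .n))
  (.c k9 (.q k21 [(.s k8 k4 1 (.s k42 k63 6 (.s k25 k59 4 (.s k51 k38 6 (.d k17 k29 k34 1 4))))),
  (.s k5 k10 2 (.s k63 k42 6 (.s k37 k53 3 (.s k26 k48 6 (.d k31 k47 k16 3 2))))), (.s k4 k8 1 (.s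
  k38 k55 4 (.s k14 k13 0 (.s k26 k50 5 (.s k37 k48 6 (.d k5 k10 k53 2 3))))))] (.c k8 (.l (.s k63
  k42 6 (.s k13 k14 0 (.s k29 k46 4 (.s k45 k61 3 (.s k30 k60 4 (.d k31 k47 k28 3 0))))))) .n)) (.c
  k10 (.f k8 k4 1 (.q k170 [(.s k85 k255 14 (.s k89 k251 12 (.s k81 k93 1 (.d k243 k162 k166 12
  14)))), (.s k255 k85 14 (.s k13 k14 0 (.s k93 k174 12 (.s k173 k253 11 (.s k94 k252 12 (.d k95 k92
  k175 0 11)))))), (.s k89 k251 12 (.s k13 k14 0 (.s k165 k241 13 (.s k160 k175 2 (.s k240 k80 11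
  (.s k164 k88 13 (.d k166 k167 k243 0 14)))))))] (.c k85 (.l (.s k89 k251 12 (.s k13 k14 0 (.s k166
  k243 14 (.s k165 k241 13 (.s k160 k175 2 (.s k164 k167 0 (.d k240 k80 k88 11 13)))))))) (.c k166
  (.f k14 k13 0 (.q k192 [(.s k74 k133 10 (.s k134 k194 9 (.s k73 k195 10 (.d k72 k75 k132 0 9)))),
  (.s k64 k128 7 (.s k85 k255 14 (.s k106 k127 6 (.s k42 k234 7 (.d k63 k21 k149 6 14)))))] (.c k85
  (.q k247 [(.s k74 k133 10 (.s k134 k194 9 (.s k73 k195 10 (.d k72 k75 k132 0 9)))), (.s k128 k64 7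
  (.s k89 k251 12 (.s k149 k191 6 (.s k29 k209 9 (.d k63 k106 k46 14 4)))))] (.c k80 (.q k95 [(.s
  k255 k175 11 (.d k251 k243 k89 1 12)), (.s k64 k128 7 (.s k72 k132 9 (.s k136 k200 7 (.d k68 k76
  k204 1 9))))] .n) (.c k95 (.q k80 [(.s k64 k128 7 (.s k72 k132 9 (.s k136 k200 7 (.d k68 k76 k204
  1 9)))), (.s k240 k160 11 (.s k88 k164 13 (.s k168 k248 11 (.d k84 k92 k252 1 13))))] .n) .n)))
  (.c k247 (.l (.s k85 k255 14 (.s k64 k128 7 (.s k72 k132 9 (.s k136 k200 7 (.d k68 k76 k204 1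
  9)))))) .n)))) .n)))) (.c k11 (.l (.s k4 k8 1 (.s k13 k14 0 (.s k5 k10 2 (.s k9 k1 1 (.d k6 k7 k3
  0 2)))))) (.c k13 (.q k21 [(.s k4 k8 1 (.s k42 k63 6 (.s k38 k55 4 (.s k34 k46 1 (.d k51 k17 k25 4
  6))))), (.s k5 k10 2 (.s k63 k42 6 (.s k37 k53 3 (.s k26 k48 6 (.d k31 k47 k16 3 2))))), (.s k4 k8
  1 (.s k5 k10 2 (.s k38 k55 4 (.s k37 k53 3 (.s k36 k39 0 (.d k48 k24 k26 5 6))))))] .n) (.c k14
  (.f k4 k8 1 (.q k21 [(.s k42 k63 6 (.s k38 k55 4 (.s k51 k25 6 (.d k34 k46 k17 1 4)))), (.s k5 k10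
  2 (.s k38 k55 4 (.s k37 k53 3 (.s k36 k39 0 (.d k48 k24 k26 5 6))))), (.s k5 k10 2 (.s k63 k42 6
  (.s k37 k53 3 (.s k26 k48 6 (.d k31 k47 k16 3 2)))))] (.c k166 (.q k242 [(.s k42 k63 6 (.s k38 k55
  4 (.s k51 k25 6 (.d k34 k46 k17 1 4)))), (.s k5 k10 2 (.s k38 k55 4 (.s k37 k53 3 (.s k36 k39 0
  (.d k48 k24 k26 5 6))))), (.s k5 k10 2 (.s k63 k42 6 (.s k37 k53 3 (.s k26 k48 6 (.d k31 k47 k16 3
  2)))))] .n) (.c k242 (.q k166 [(.s k42 k63 6 (.s k38 k55 4 (.s k51 k25 6 (.d k34 k46 k17 1 4)))),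
  (.s k85 k247 12 (.s k170 k255 14 (.s k243 k89 14 (.d k162 k174 k81 1 12))))] .n) .n))))
  .n))))))))))))))

def t33 : T TT 256 :=
  (.q k21 [(.s k10 k5 2 (.s k42 k63 6 (.s k26 k58 3 (.s k48 k37 6 (.d k16 k31 k32 2 3))))), (.s k5
  k10 2 (.s k42 k63 6 (.s k37 k53 3 (.s k48 k26 6 (.d k32 k47 k16 2 3)))))] (.c k5 (.q k12 [(.s k4
  k8 1 (.s k42 k63 6 (.s k38 k55 4 (.s k51 k25 6 (.d k34 k46 k17 1 4))))), (.s k63 k42 6 (.s k14 k13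
  0 (.s k46 k29 4 (.s k30 k62 3 (.s k45 k60 4 (.d k47 k44 k31 0 3)))))), (.s k4 k8 1 (.s k38 k55 4
  (.s k14 k13 0 (.s k26 k50 5 (.s k16 k31 2 (.d k48 k32 k37 3 6))))))] .n) (.c k10 (.q k12 [(.s k8
  k4 1 (.s k42 k63 6 (.s k25 k59 4 (.s k51 k38 6 (.d k17 k29 k34 1 4))))), (.s k63 k42 6 (.s k14 k13
  0 (.s k46 k29 4 (.s k30 k62 3 (.s k45 k60 4 (.d k47 k44 k31 0 3)))))), (.s k4 k8 1 (.s k38 k55 4
  (.s k14 k13 0 (.s k26 k50 5 (.s k16 k31 2 (.d k48 k32 k37 3 6))))))] (.c k170 (.q k250 [(.s k8 k4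
  1 (.s k42 k63 6 (.s k25 k59 4 (.s k51 k38 6 (.d k17 k29 k34 1 4))))), (.s k63 k42 6 (.s k14 k13 0
  (.s k46 k29 4 (.s k30 k62 3 (.s k45 k60 4 (.d k47 k44 k31 0 3)))))), (.s k4 k8 1 (.s k38 k55 4 (.s
  k14 k13 0 (.s k26 k50 5 (.s k16 k31 2 (.d k48 k32 k37 3 6))))))] .n) (.c k250 (.q k170 [(.s k8 k4
  1 (.s k42 k63 6 (.s k25 k59 4 (.s k51 k38 6 (.d k17 k29 k34 1 4))))), (.s k63 k42 6 (.s k85 k255
  14 (.s k149 k213 7 (.s k192 k106 14 (.d k128 k191 k64 6 7))))), (.s k4 k8 1 (.s k85 k255 14 (.s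
  k166 k247 12 (.s k243 k89 14 (.d k162 k174 k81 1 12)))))] .n) .n))) (.c k16 (.q k12 [(.s k4 k8 1
  (.s k42 k63 6 (.s k38 k55 4 (.s k51 k25 6 (.d k34 k46 k17 1 4))))), (.s k4 k8 1 (.s k5 k10 2 (.s
  k6 k7 0 (.s k9 k3 2 (.d k13 k14 k1 0 1))))), (.s k5 k10 2 (.s k63 k42 6 (.s k37 k53 3 (.s k13 k14
  0 (.s k29 k46 4 (.d k25 k17 k49 1 5))))))] .n) (.c k26 (.q k12 [(.s k4 k8 1 (.s k42 k63 6 (.s k38
  k55 4 (.s k51 k25 6 (.d k34 k46 k17 1 4))))), (.s k8 k4 1 (.s k10 k5 2 (.s k9 k11 0 (.s k6 k3 2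
  (.d k14 k13 k2 0 1))))), (.s k5 k10 2 (.s k37 k53 3 (.s k13 k14 0 (.s k25 k49 5 (.s k17 k29 1 (.d
  k51 k38 k34 6 4))))))] (.c k154 (.q k218 [(.s k4 k8 1 (.s k42 k63 6 (.s k38 k55 4 (.s k51 k25 6
  (.d k34 k46 k17 1 4))))), (.s k8 k4 1 (.s k10 k5 2 (.s k9 k11 0 (.s k6 k3 2 (.d k14 k13 k2 0
  1))))), (.s k5 k10 2 (.s k37 k53 3 (.s k13 k14 0 (.s k25 k49 5 (.s k17 k29 1 (.d k51 k38 k34 6
  4))))))] .n) (.c k218 (.q k154 [(.s k4 k8 1 (.s k42 k63 6 (.s k38 k55 4 (.s k51 k25 6 (.d k34 k46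
  k17 1 4))))), (.s k8 k4 1 (.s k10 k5 2 (.s k9 k11 0 (.s k6 k3 2 (.d k14 k13 k2 0 1))))), (.s k5
  k10 2 (.s k37 k53 3 (.s k13 k14 0 (.s k25 k49 5 (.s k17 k29 1 (.d k51 k38 k34 6 4))))))] .n) .n)))
  (.c k32 (.l (.s k5 k10 2 (.s k63 k42 6 (.s k37 k53 3 (.s k26 k48 6 (.d k31 k47 k16 3 2)))))) (.c
  k37 (.q k41 [(.s k42 k63 6 (.s k1 k61 5 (.s k3 k2 0 (.s k40 k43 0 (.d k60 k20 k22 5 6))))), (.s k5
  k10 2 (.s k1 k61 5 (.s k3 k2 0 (.s k9 k13 1 (.s k6 k12 2 (.d k7 k4 k11 0 1)))))), (.s k10 k5 2 (.s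
  k42 k63 6 (.s k26 k58 3 (.s k11 k56 4 (.s k3 k7 1 (.s k40 k43 0 (.d k60 k22 k20 6 5)))))))] (.c k3
  (.l (.s k10 k5 2 (.s k42 k63 6 (.s k26 k58 3 (.s k11 k56 4 (.s k8 k9 0 (.s k59 k25 4 (.d k43 k40
  k27 0 3)))))))) .n)) (.c k42 (.q k12 [(.s k8 k4 1 (.s k14 k13 0 (.s k10 k5 2 (.s k6 k2 1 (.d k9
  k11 k3 0 2))))), (.s k4 k8 1 (.s k38 k55 4 (.s k14 k13 0 (.s k26 k50 5 (.s k48 k37 6 (.d k16 k32
  k31 3 2)))))), (.s k5 k10 2 (.s k37 k53 3 (.s k13 k14 0 (.s k25 k49 5 (.s k51 k38 6 (.d k17 k34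
  k29 4 1)))))), (.s k4 k8 1 (.s k5 k10 2 (.s k38 k55 4 (.s k37 k53 3 (.s k36 k39 0 (.d k48 k26 k24
  6 5))))))] .n) (.c k48 (.q k3 [(.s k1 k2 0 (.s k42 k63 6 (.s k41 k61 5 (.s k60 k22 6 (.d k40 k43
  k20 0 5))))), (.s k1 k2 0 (.s k5 k10 2 (.s k9 k13 1 (.s k6 k12 2 (.d k7 k4 k11 0 1))))), (.s k5
  k10 2 (.s k63 k42 6 (.s k7 k11 1 (.s k23 k43 5 (.s k37 k53 3 (.d k22 k20 k52 0 4))))))] .n) (.c
  k53 (.l (.s k10 k5 2 (.s k42 k63 6 (.s k26 k58 3 (.s k48 k37 6 (.d k16 k31 k32 2 3)))))) (.c k58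
  (.l (.s k5 k10 2 (.s k42 k63 6 (.s k37 k53 3 (.s k48 k26 6 (.d k32 k47 k16 2 3)))))) (.c k63 (.q
  k12 [(.s k8 k4 1 (.s k14 k13 0 (.s k10 k5 2 (.s k6 k2 1 (.d k9 k11 k3 0 2))))), (.s k4 k8 1 (.s
  k38 k55 4 (.s k14 k13 0 (.s k26 k50 5 (.s k48 k37 6 (.d k16 k31 k32 2 3)))))), (.s k5 k10 2 (.s
  k37 k53 3 (.s k13 k14 0 (.s k25 k49 5 (.s k51 k38 6 (.d k17 k29 k34 1 4)))))), (.s k4 k8 1 (.s k5
  k10 2 (.s k38 k55 4 (.s k37 k53 3 (.s k51 k25 6 (.d k39 k36 k27 0 5))))))] .n) .n))))))))))))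

def t34 : T TT 256 :=
  (.q k21 [(.s k10 k5 2 (.s k42 k63 6 (.s k26 k58 3 (.s k48 k37 6 (.d k16 k31 k32 2 3)))))] (.c k5
  (.q k12 [(.s k4 k8 1 (.s k63 k42 6 (.s k38 k55 4 (.s k25 k51 6 (.d k29 k46 k17 4 1))))), (.s k4 k8
  1 (.s k38 k55 4 (.s k14 k13 0 (.s k26 k50 5 (.s k16 k31 2 (.d k48 k32 k37 3 6)))))), (.s k63 k42 6
  (.s k14 k13 0 (.s k46 k29 4 (.s k30 k62 3 (.s k45 k60 4 (.d k47 k44 k31 0 3))))))] (.c k38 (.l (.s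
  k63 k42 6 (.s k46 k29 4 (.s k14 k13 0 (.s k30 k62 3 (.s k45 k60 4 (.d k47 k44 k31 0 3))))))) .n))
  (.c k10 (.q k12 [(.s k4 k8 1 (.s k38 k55 4 (.s k25 k51 6 (.s k29 k17 1 (.d k63 k46 k42 4 6))))),
  (.s k63 k42 6 (.s k14 k13 0 (.s k46 k29 4 (.s k30 k62 3 (.s k45 k60 4 (.d k47 k44 k31 0 3)))))),
  (.s k4 k8 1 (.s k38 k55 4 (.s k14 k13 0 (.s k26 k50 5 (.s k16 k31 2 (.d k48 k32 k37 3 6))))))] (.c
  k38 (.l (.s k63 k42 6 (.s k46 k29 4 (.s k14 k13 0 (.s k30 k62 3 (.s k45 k60 4 (.d k47 k44 k31 0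
  3))))))) (.c k170 (.q k250 [(.s k4 k8 1 (.s k38 k55 4 (.s k25 k51 6 (.s k29 k17 1 (.d k63 k46 k42
  4 6))))), (.s k63 k42 6 (.s k14 k13 0 (.s k46 k29 4 (.s k30 k62 3 (.s k45 k60 4 (.d k47 k44 k31 0
  3)))))), (.s k4 k8 1 (.s k38 k55 4 (.s k14 k13 0 (.s k26 k50 5 (.s k16 k31 2 (.d k48 k32 k37 3
  6))))))] (.c k38 (.l (.s k63 k42 6 (.s k46 k29 4 (.s k14 k13 0 (.s k30 k62 3 (.s k45 k60 4 (.d k47
  k44 k31 0 3))))))) (.c k102 (.q k238 [(.s k4 k8 1 (.s k38 k55 4 (.s k25 k51 6 (.s k29 k17 1 (.d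
  k63 k46 k42 4 6))))), (.s k63 k42 6 (.s k14 k13 0 (.s k46 k29 4 (.s k30 k62 3 (.s k45 k60 4 (.d
  k47 k44 k31 0 3)))))), (.s k4 k8 1 (.s k38 k55 4 (.s k14 k13 0 (.s k26 k50 5 (.s k16 k31 2 (.d k48
  k32 k37 3 6))))))] (.c k38 (.l (.s k63 k42 6 (.s k46 k29 4 (.s k14 k13 0 (.s k30 k62 3 (.s k45 k60
  4 (.d k47 k44 k31 0 3))))))) (.c k78 (.q k114 [(.s k4 k8 1 (.s k38 k55 4 (.s k25 k51 6 (.s k29 k17
  1 (.d k63 k46 k42 4 6))))), (.s k63 k42 6 (.s k14 k13 0 (.s k46 k29 4 (.s k30 k62 3 (.s k45 k60 4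
  (.d k47 k44 k31 0 3)))))), (.s k4 k8 1 (.s k38 k55 4 (.s k14 k13 0 (.s k26 k50 5 (.s k16 k31 2 (.d
  k48 k32 k37 3 6))))))] (.c k38 (.l (.s k63 k42 6 (.s k46 k29 4 (.s k14 k13 0 (.s k30 k62 3 (.s k45
  k60 4 (.d k47 k44 k31 0 3))))))) .n)) (.c k114 (.q k78 [(.s k63 k42 6 (.s k46 k29 4 (.s k204 k141
  8 (.d k110 k174 k157 7 12)))), (.s k13 k14 0 (.s k141 k204 8 (.s k77 k205 7 (.s k207 k142 8 (.d
  k79 k76 k143 0 7))))), (.s k4 k8 1 (.s k63 k42 6 (.s k38 k55 4 (.s k29 k46 4 (.d k25 k17 k51 1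
  6)))))] .n) .n)))) (.c k238 (.q k102 [(.s k4 k8 1 (.s k38 k55 4 (.s k25 k51 6 (.s k29 k17 1 (.d
  k63 k46 k42 4 6))))), (.s k63 k42 6 (.s k14 k13 0 (.s k46 k29 4 (.s k30 k62 3 (.s k45 k60 4 (.d
  k47 k44 k31 0 3)))))), (.s k4 k8 1 (.s k38 k55 4 (.s k14 k13 0 (.s k26 k50 5 (.s k16 k31 2 (.d k48
  k32 k37 3 6))))))] (.c k38 (.l (.s k63 k42 6 (.s k46 k29 4 (.s k14 k13 0 (.s k30 k62 3 (.s k45 k60
  4 (.d k47 k44 k31 0 3))))))) .n)) .n)))) (.c k250 (.q k170 [(.s k4 k8 1 (.s k63 k42 6 (.s k38 k55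
  4 (.s k25 k51 6 (.d k29 k46 k17 4 1))))), (.s k8 k4 1 (.s k85 k255 14 (.s k89 k251 12 (.s k243
  k166 14 (.d k81 k93 k162 1 12))))), (.s k63 k42 6 (.s k85 k255 14 (.s k149 k213 7 (.s k192 k106 14
  (.d k128 k191 k64 6 7)))))] .n) .n)))) (.c k16 (.q k12 [(.s k4 k8 1 (.s k63 k42 6 (.s k38 k55 4
  (.s k25 k51 6 (.d k29 k46 k17 4 1))))), (.s k4 k8 1 (.s k5 k10 2 (.s k6 k7 0 (.s k9 k3 2 (.d k13
  k14 k1 0 1))))), (.s k5 k10 2 (.s k63 k42 6 (.s k37 k53 3 (.s k13 k14 0 (.s k25 k49 5 (.d k29 k46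
  k17 4 1))))))] .n) (.c k26 (.q k12 [(.s k4 k8 1 (.s k38 k55 4 (.s k25 k51 6 (.s k29 k17 1 (.d k63
  k46 k42 4 6))))), (.s k8 k4 1 (.s k10 k5 2 (.s k9 k11 0 (.s k6 k3 2 (.d k14 k13 k2 0 1))))), (.s
  k5 k10 2 (.s k37 k53 3 (.s k13 k14 0 (.s k25 k49 5 (.s k29 k17 1 (.d k63 k42 k46 6 4))))))] (.c
  k154 (.q k218 [(.s k4 k8 1 (.s k38 k55 4 (.s k25 k51 6 (.s k29 k17 1 (.d k63 k46 k42 4 6))))), (.s
  k8 k4 1 (.s k10 k5 2 (.s k9 k11 0 (.s k6 k3 2 (.d k14 k13 k2 0 1))))), (.s k5 k10 2 (.s k37 k53 3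
  (.s k13 k14 0 (.s k25 k49 5 (.s k29 k17 1 (.d k63 k42 k46 6 4))))))] .n) (.c k218 (.q k154 [(.s k4
  k8 1 (.s k38 k55 4 (.s k25 k51 6 (.s k29 k17 1 (.d k63 k46 k42 4 6))))), (.s k8 k4 1 (.s k10 k5 2
  (.s k9 k11 0 (.s k6 k3 2 (.d k14 k13 k2 0 1))))), (.s k5 k10 2 (.s k37 k53 3 (.s k13 k14 0 (.s k25
  k49 5 (.s k29 k17 1 (.d k63 k42 k46 6 4))))))] .n) .n))) (.c k31 (.l (.s k5 k10 2 (.s k42 k63 6
  (.s k37 k53 3 (.s k48 k26 6 (.d k32 k47 k16 2 3)))))) (.c k32 (.l (.s k5 k10 2 (.s k63 k42 6 (.s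
  k37 k53 3 (.s k26 k48 6 (.d k31 k47 k16 3 2)))))) (.c k37 (.q k12 [(.s k4 k8 1 (.s k63 k42 6 (.s
  k38 k55 4 (.s k25 k51 6 (.d k29 k46 k17 4 1))))), (.s k4 k8 1 (.s k5 k10 2 (.s k6 k7 0 (.s k9 k3 2
  (.d k13 k14 k1 0 1))))), (.s k63 k42 6 (.s k14 k13 0 (.s k46 k29 4 (.s k30 k62 3 (.s k45 k60 4 (.d
  k47 k44 k31 0 3))))))] .n) (.c k42 (.q k4 [(.s k12 k8 1 (.s k5 k10 2 (.s k6 k7 0 (.s k9 k3 2 (.d
  k13 k14 k1 0 1))))), (.s k12 k8 1 (.s k38 k55 4 (.s k14 k13 0 (.s k26 k50 5 (.s k48 k37 6 (.d k16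
  k32 k31 3 2)))))), (.s k5 k10 2 (.s k7 k6 0 (.s k38 k55 4 (.s k37 k53 3 (.s k52 k22 4 (.d k36 k39
  k20 0 3))))))] (.c k14 (.l (.s k12 k8 1 (.s k5 k10 2 (.s k38 k55 4 (.s k37 k53 3 (.s k36 k39 0 (.d
  k48 k26 k24 6 5))))))) (.c k26 (.l (.s k12 k8 1 (.s k38 k55 4 (.s k13 k14 0 (.s k25 k51 6 (.s k37
  k49 5 (.d k5 k10 k53 2 3))))))) (.c k38 (.q k46 [(.s k5 k10 2 (.s k37 k53 3 (.s k26 k48 6 (.s k31
  k16 2 (.s k63 k47 3 (.d k12 k8 k29 1 4)))))), (.s k12 k8 1 (.s k14 k13 0 (.s k29 k63 4 (.s k30 k62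
  3 (.s k60 k45 4 (.d k28 k31 k44 0 3)))))), (.s k5 k10 2 (.s k7 k6 0 (.s k37 k53 3 (.s k22 k52 4
  (.s k20 k23 0 (.s k60 k40 5 (.d k3 k41 k11 6 1)))))))] .n) (.c k46 (.l (.s k38 k55 4 (.s k12 k8 1
  (.s k5 k10 2 (.s k6 k7 0 (.s k9 k3 2 (.d k13 k14 k1 0 1))))))) .n))))) (.c k48 (.q k12 [(.s k4 k8
  1 (.s k63 k42 6 (.s k38 k55 4 (.s k25 k51 6 (.d k29 k46 k17 4 1))))), (.s k4 k8 1 (.s k5 k10 2 (.s
  k6 k7 0 (.s k9 k3 2 (.d k13 k14 k1 0 1))))), (.s k5 k10 2 (.s k63 k42 6 (.s k37 k53 3 (.s k13 k14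
  0 (.s k25 k49 5 (.d k29 k46 k17 4 1))))))] .n) (.c k53 (.l (.s k10 k5 2 (.s k42 k63 6 (.s k26 k58
  3 (.s k48 k37 6 (.d k16 k31 k32 2 3)))))) (.c k58 (.l (.s k5 k10 2 (.s k42 k63 6 (.s k37 k53 3 (.s
  k48 k26 6 (.d k32 k47 k16 2 3)))))) (.c k63 (.q k12 [(.s k8 k4 1 (.s k14 k13 0 (.s k10 k5 2 (.s k6
  k2 1 (.d k9 k11 k3 0 2))))), (.s k4 k8 1 (.s k5 k10 2 (.s k38 k55 4 (.s k37 k53 3 (.s k51 k25 6
  (.d k39 k36 k27 0 5)))))), (.s k4 k8 1 (.s k38 k55 4 (.s k14 k13 0 (.s k26 k50 5 (.s k48 k37 6 (.d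
  k16 k31 k32 2 3)))))), (.s k5 k10 2 (.s k37 k53 3 (.s k13 k14 0 (.s k25 k49 5 (.s k38 k51 6 (.s
  k48 k26 6 (.d k36 k39 k24 0 5)))))))] .n) .n)))))))))))))

def t35 : T TT 256 :=
  (.q k21 [(.s k10 k5 2 (.s k42 k63 6 (.s k26 k58 3 (.s k48 k37 6 (.d k16 k31 k32 2 3)))))] (.c k5
  (.q k3 [(.s k1 k2 0 (.s k42 k63 6 (.s k41 k61 5 (.s k60 k22 6 (.d k40 k43 k20 0 5))))), (.s k1 k2
  0 (.s k41 k61 5 (.s k11 k7 1 (.s k26 k56 4 (.s k16 k31 2 (.d k48 k32 k37 3 6)))))), (.s k63 k42 6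
  (.s k7 k11 1 (.s k23 k43 5 (.s k39 k55 3 (.s k27 k51 5 (.d k31 k47 k19 3 1))))))] (.c k41 (.l (.s
  k2 k1 0 (.s k42 k63 6 (.s k22 k62 5 (.s k7 k11 1 (.s k37 k52 4 (.s k32 k47 2 (.d k48 k26 k16 6
  3)))))))) .n)) (.c k10 (.q k3 [(.s k1 k2 0 (.s k42 k63 6 (.s k41 k61 5 (.s k60 k22 6 (.d k40 k43
  k20 0 5))))), (.s k63 k42 6 (.s k7 k11 1 (.s k23 k43 5 (.s k39 k55 3 (.s k27 k51 5 (.d k31 k47 k19
  3 1)))))), (.s k1 k2 0 (.s k41 k61 5 (.s k11 k7 1 (.s k26 k56 4 (.s k16 k31 2 (.d k48 k32 k37 3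
  6))))))] (.c k41 (.l (.s k2 k1 0 (.s k42 k63 6 (.s k22 k62 5 (.s k7 k11 1 (.s k37 k52 4 (.s k32
  k47 2 (.d k48 k26 k16 6 3)))))))) (.c k170 (.q k250 [(.s k2 k1 0 (.s k42 k63 6 (.s k22 k62 5 (.s
  k60 k41 6 (.d k20 k23 k40 0 5))))), (.s k1 k2 0 (.s k41 k61 5 (.s k11 k7 1 (.s k26 k56 4 (.s k16
  k31 2 (.d k48 k32 k37 3 6)))))), (.s k63 k42 6 (.s k7 k11 1 (.s k23 k43 5 (.s k39 k55 3 (.s k27
  k51 5 (.d k31 k47 k19 3 1))))))] (.c k41 (.l (.s k2 k1 0 (.s k42 k63 6 (.s k22 k62 5 (.s k7 k11 1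
  (.s k37 k52 4 (.s k32 k47 2 (.d k48 k26 k16 6 3)))))))) .n)) (.c k250 (.q k170 [(.s k1 k2 0 (.s
  k42 k63 6 (.s k41 k61 5 (.s k60 k22 6 (.d k40 k43 k20 0 5))))), (.s k63 k42 6 (.s k85 k255 14 (.s
  k149 k213 7 (.s k192 k106 14 (.d k128 k191 k64 6 7))))), (.s k1 k2 0 (.s k85 k255 14 (.s k169 k253
  13 (.s k252 k86 14 (.d k168 k171 k84 0 13)))))] .n) .n)))) (.c k16 (.q k3 [(.s k1 k2 0 (.s k42 k63
  6 (.s k41 k61 5 (.s k60 k22 6 (.d k40 k43 k20 0 5))))), (.s k1 k2 0 (.s k5 k10 2 (.s k9 k13 1 (.s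
  k6 k12 2 (.d k7 k4 k11 0 1))))), (.s k5 k10 2 (.s k63 k42 6 (.s k7 k11 1 (.s k23 k43 5 (.s k37 k53
  3 (.d k22 k20 k52 0 4))))))] .n) (.c k26 (.f k10 k5 2 (.q k3 [(.s k11 k7 1 (.s k2 k1 0 (.s k9 k8 0
  (.d k6 k14 k12 1 2)))), (.s k63 k42 6 (.s k7 k11 1 (.s k23 k43 5 (.s k39 k55 3 (.s k27 k51 5 (.d
  k31 k47 k19 3 1)))))), (.s k1 k2 0 (.s k42 k63 6 (.s k41 k61 5 (.s k60 k22 6 (.d k40 k43 k20 0
  5)))))] (.c k154 (.q k218 [(.s k11 k7 1 (.s k2 k1 0 (.s k9 k8 0 (.d k6 k14 k12 1 2)))), (.s k63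
  k42 6 (.s k7 k11 1 (.s k23 k43 5 (.s k39 k55 3 (.s k27 k51 5 (.d k31 k47 k19 3 1)))))), (.s k1 k2
  0 (.s k42 k63 6 (.s k41 k61 5 (.s k60 k22 6 (.d k40 k43 k20 0 5)))))] .n) (.c k218 (.q k154 [(.s
  k11 k7 1 (.s k2 k1 0 (.s k9 k8 0 (.d k6 k14 k12 1 2)))), (.s k63 k42 6 (.s k7 k11 1 (.s k23 k43 5
  (.s k39 k55 3 (.s k27 k51 5 (.d k31 k47 k19 3 1)))))), (.s k1 k2 0 (.s k42 k63 6 (.s k41 k61 5 (.s
  k60 k22 6 (.d k40 k43 k20 0 5)))))] .n) .n)))) (.c k31 (.l (.s k5 k10 2 (.s k42 k63 6 (.s k37 k53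
  3 (.s k48 k26 6 (.d k32 k47 k16 2 3)))))) (.c k32 (.l (.s k5 k10 2 (.s k63 k42 6 (.s k37 k53 3 (.s
  k26 k48 6 (.d k31 k47 k16 3 2)))))) (.c k37 (.q k3 [(.s k1 k2 0 (.s k42 k63 6 (.s k41 k61 5 (.s
  k60 k22 6 (.d k40 k43 k20 0 5))))), (.s k1 k2 0 (.s k5 k10 2 (.s k9 k13 1 (.s k6 k12 2 (.d k7 k4
  k11 0 1))))), (.s k63 k42 6 (.s k7 k11 1 (.s k23 k43 5 (.s k39 k55 3 (.s k27 k51 5 (.d k31 k47 k19
  3 1))))))] (.c k7 (.l (.s k1 k2 0 (.s k42 k63 6 (.s k41 k61 5 (.s k40 k43 0 (.d k60 k20 k22 5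
  6)))))) .n)) (.c k42 (.q k3 [(.s k2 k1 0 (.s k10 k5 2 (.s k6 k14 1 (.s k9 k12 2 (.d k11 k8 k7 0
  1))))), (.s k1 k2 0 (.s k41 k61 5 (.s k11 k7 1 (.s k26 k56 4 (.s k48 k37 6 (.d k16 k32 k31 3
  2)))))), (.s k5 k10 2 (.s k7 k11 1 (.s k37 k53 3 (.s k22 k52 4 (.s k60 k41 6 (.d k20 k40 k23 5
  0)))))), (.s k1 k2 0 (.s k5 k10 2 (.s k41 k61 5 (.s k37 k53 3 (.s k33 k45 1 (.d k48 k26 k18 6
  4))))))] .n) (.c k48 (.q k3 [(.s k1 k2 0 (.s k42 k63 6 (.s k41 k61 5 (.s k60 k22 6 (.d k40 k43 k20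
  0 5))))), (.s k1 k2 0 (.s k5 k10 2 (.s k9 k13 1 (.s k6 k12 2 (.d k7 k4 k11 0 1))))), (.s k5 k10 2
  (.s k63 k42 6 (.s k7 k11 1 (.s k23 k43 5 (.s k37 k53 3 (.d k22 k20 k52 0 4))))))] .n) (.c k53 (.l
  (.s k10 k5 2 (.s k42 k63 6 (.s k26 k58 3 (.s k48 k37 6 (.d k16 k31 k32 2 3)))))) (.c k58 (.l (.s
  k5 k10 2 (.s k42 k63 6 (.s k37 k53 3 (.s k48 k26 6 (.d k32 k47 k16 2 3)))))) (.c k63 (.q k3 [(.s
  k2 k1 0 (.s k11 k7 1 (.s k10 k5 2 (.s k9 k8 0 (.d k6 k14 k12 1 2))))), (.s k1 k2 0 (.s k41 k61 5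
  (.s k11 k7 1 (.s k26 k56 4 (.s k48 k37 6 (.d k16 k31 k32 2 3)))))), (.s k5 k10 2 (.s k7 k11 1 (.s
  k37 k53 3 (.s k22 k52 4 (.s k60 k41 6 (.d k20 k23 k40 0 5)))))), (.s k1 k2 0 (.s k5 k10 2 (.s k41
  k61 5 (.s k60 k22 6 (.s k37 k53 3 (.d k45 k33 k30 1 4))))))] .n) .n)))))))))))))

def t37 : T TT 256 :=
  (.q k69 [(.s k5 k10 2 (.s k138 k207 10 (.s k133 k197 7 (.s k128 k143 2 (.d k192 k64 k74 7 10))))),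
  (.s k10 k5 2 (.s k138 k207 10 (.s k74 k202 7 (.s k192 k133 10 (.d k64 k79 k128 2 7)))))] (.c k5
  (.q k3 [(.s k1 k2 0 (.s k138 k207 10 (.s k137 k205 9 (.s k204 k70 10 (.d k136 k139 k68 0 9))))),
  (.s k207 k138 10 (.s k11 k7 1 (.s k139 k71 9 (.s k75 k203 7 (.s k135 k195 9 (.d k143 k131 k79 1
  7)))))), (.s k1 k2 0 (.s k137 k205 9 (.s k11 k7 1 (.s k74 k200 8 (.s k64 k79 2 (.d k192 k128 k133
  7 10))))))] (.c k21 (.q k53 [(.s k1 k2 0 (.s k138 k207 10 (.s k137 k205 9 (.s k204 k70 10 (.d k136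
  k139 k68 0 9))))), (.s k207 k138 10 (.s k11 k7 1 (.s k139 k71 9 (.s k75 k203 7 (.s k135 k195 9 (.d
  k143 k131 k79 1 7)))))), (.s k1 k2 0 (.s k137 k205 9 (.s k11 k7 1 (.s k74 k200 8 (.s k64 k79 2 (.d
  k192 k128 k133 7 10))))))] .n) (.c k53 (.q k21 [(.s k1 k2 0 (.s k138 k207 10 (.s k137 k205 9 (.s
  k204 k70 10 (.d k136 k139 k68 0 9))))), (.s k63 k42 6 (.s k7 k11 1 (.s k23 k43 5 (.s k39 k55 3 (.s
  k27 k51 5 (.d k31 k47 k19 3 1))))))] .n) .n))) (.c k10 (.q k3 [(.s k2 k1 0 (.s k138 k207 10 (.s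
  k70 k206 9 (.s k204 k137 10 (.d k68 k71 k136 0 9))))), (.s k207 k138 10 (.s k11 k7 1 (.s k139 k71
  9 (.s k75 k203 7 (.s k135 k195 9 (.d k143 k131 k79 1 7)))))), (.s k1 k2 0 (.s k137 k205 9 (.s k11
  k7 1 (.s k74 k200 8 (.s k64 k79 2 (.d k192 k128 k133 7 10))))))] (.c k170 (.q k250 [(.s k2 k1 0
  (.s k138 k207 10 (.s k70 k206 9 (.s k204 k137 10 (.d k68 k71 k136 0 9))))), (.s k207 k138 10 (.s
  k11 k7 1 (.s k139 k71 9 (.s k75 k203 7 (.s k135 k195 9 (.d k143 k131 k79 1 7)))))), (.s k1 k2 0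
  (.s k137 k205 9 (.s k11 k7 1 (.s k74 k200 8 (.s k64 k79 2 (.d k192 k128 k133 7 10))))))] .n) (.c
  k250 (.q k170 [(.s k2 k1 0 (.s k138 k207 10 (.s k70 k206 9 (.s k204 k137 10 (.d k68 k71 k136 0
  9))))), (.s k207 k138 10 (.s k85 k255 14 (.s k101 k117 3 (.s k32 k239 10 (.d k48 k16 k154 3
  14))))), (.s k1 k2 0 (.s k85 k255 14 (.s k169 k253 13 (.s k252 k86 14 (.d k168 k171 k84 0 13)))))]
  .n) .n))) (.c k64 (.q k3 [(.s k1 k2 0 (.s k138 k207 10 (.s k137 k205 9 (.s k204 k70 10 (.d k136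
  k139 k68 0 9))))), (.s k1 k2 0 (.s k5 k10 2 (.s k9 k13 1 (.s k6 k12 2 (.d k7 k4 k11 0 1))))), (.s
  k5 k10 2 (.s k207 k138 10 (.s k7 k11 1 (.s k71 k139 9 (.s k133 k197 7 (.d k70 k68 k196 0 8))))))]
  .n) (.c k74 (.q k3 [(.s k1 k2 0 (.s k138 k207 10 (.s k137 k205 9 (.s k204 k70 10 (.d k136 k139 k68
  0 9))))), (.s k2 k1 0 (.s k10 k5 2 (.s k6 k14 1 (.s k9 k12 2 (.d k11 k8 k7 0 1))))), (.s k5 k10 2
  (.s k7 k11 1 (.s k133 k197 7 (.s k70 k196 8 (.s k68 k71 0 (.d k204 k137 k136 10 9))))))] (.c k106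
  (.q k122 [(.s k1 k2 0 (.s k138 k207 10 (.s k137 k205 9 (.s k204 k70 10 (.d k136 k139 k68 0 9))))),
  (.s k2 k1 0 (.s k10 k5 2 (.s k6 k14 1 (.s k9 k12 2 (.d k11 k8 k7 0 1))))), (.s k5 k10 2 (.s k7 k11
  1 (.s k133 k197 7 (.s k70 k196 8 (.s k68 k71 0 (.d k204 k137 k136 10 9))))))] .n) (.c k122 (.q
  k106 [(.s k1 k2 0 (.s k138 k207 10 (.s k137 k205 9 (.s k204 k70 10 (.d k136 k139 k68 0 9))))), (.s
  k2 k1 0 (.s k10 k5 2 (.s k6 k14 1 (.s k9 k12 2 (.d k11 k8 k7 0 1))))), (.s k5 k10 2 (.s k7 k11 1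
  (.s k133 k197 7 (.s k70 k196 8 (.s k68 k71 0 (.d k204 k137 k136 10 9))))))] .n) .n))) (.c k128 (.l
  (.s k5 k10 2 (.s k207 k138 10 (.s k133 k197 7 (.s k74 k192 10 (.d k79 k143 k64 7 2)))))) (.c k133
  (.q k3 [(.s k1 k2 0 (.s k138 k207 10 (.s k137 k205 9 (.s k136 k139 0 (.d k204 k68 k70 9 10))))),
  (.s k1 k2 0 (.s k5 k10 2 (.s k9 k13 1 (.s k6 k12 2 (.d k7 k4 k11 0 1))))), (.s k5 k10 2 (.s k207
  k138 10 (.s k7 k11 1 (.s k71 k139 9 (.s k199 k135 7 (.d k4 k134 k6 8 0))))))] .n) (.c k138 (.q k3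
  [(.s k2 k1 0 (.s k10 k5 2 (.s k6 k14 1 (.s k9 k12 2 (.d k11 k8 k7 0 1))))), (.s k1 k2 0 (.s k137
  k205 9 (.s k11 k7 1 (.s k74 k200 8 (.s k192 k133 10 (.d k64 k128 k79 7 2)))))), (.s k5 k10 2 (.s
  k7 k11 1 (.s k133 k197 7 (.s k70 k196 8 (.s k204 k137 10 (.d k68 k136 k71 9 0)))))), (.s k1 k2 0
  (.s k5 k10 2 (.s k137 k205 9 (.s k133 k197 7 (.s k129 k141 1 (.d k192 k74 k66 10 8))))))] .n) (.c
  k192 (.q k3 [(.s k1 k2 0 (.s k138 k207 10 (.s k137 k205 9 (.s k204 k70 10 (.d k136 k139 k68 0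
  9))))), (.s k1 k2 0 (.s k5 k10 2 (.s k9 k13 1 (.s k6 k12 2 (.d k7 k4 k11 0 1))))), (.s k5 k10 2
  (.s k207 k138 10 (.s k7 k11 1 (.s k71 k139 9 (.s k133 k197 7 (.d k70 k68 k196 0 8))))))] .n) (.c
  k197 (.l (.s k10 k5 2 (.s k138 k207 10 (.s k74 k202 7 (.s k192 k133 10 (.d k64 k79 k128 2 7))))))
  (.c k202 (.l (.s k5 k10 2 (.s k138 k207 10 (.s k133 k197 7 (.s k192 k74 10 (.d k128 k143 k64 2
  7)))))) (.c k207 (.q k3 [(.s k2 k1 0 (.s k11 k7 1 (.s k10 k5 2 (.s k9 k8 0 (.d k6 k14 k12 1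
  2))))), (.s k5 k10 2 (.s k7 k11 1 (.s k133 k197 7 (.s k70 k196 8 (.s k204 k137 10 (.d k68 k71 k136
  0 9)))))), (.s k1 k2 0 (.s k137 k205 9 (.s k11 k7 1 (.s k74 k200 8 (.s k192 k133 10 (.d k64 k79
  k128 2 7)))))), (.s k1 k2 0 (.s k5 k10 2 (.s k137 k205 9 (.s k204 k70 10 (.s k133 k197 7 (.d k141
  k129 k78 1 8))))))] .n) .n))))))))))))

def t38 : T TT 256 :=
  (.q k12 [(.s k4 k8 1 (.s k5 k10 2 (.s k6 k7 0 (.s k9 k3 2 (.d k13 k14 k1 0 1))))), (.s k8 k4 1 (.s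
  k10 k5 2 (.s k9 k11 0 (.s k6 k3 2 (.d k14 k13 k2 0 1)))))] (.c k3 (.q k21 [(.s k5 k10 2 (.s k42
  k63 6 (.s k37 k53 3 (.s k32 k47 2 (.d k48 k16 k26 3 6))))), (.s k63 k42 6 (.s k14 k13 0 (.s k46
  k29 4 (.s k30 k62 3 (.s k45 k60 4 (.d k47 k44 k31 0 3)))))), (.s k5 k10 2 (.s k37 k53 3 (.s k13
  k14 0 (.s k1 k9 1 (.s k41 k61 5 (.s k49 k25 5 (.d k33 k45 k17 1 3)))))))] .n) (.c k4 (.q k21 [(.s
  k5 k10 2 (.s k42 k63 6 (.s k37 k53 3 (.s k32 k47 2 (.d k48 k16 k26 3 6))))), (.s k63 k42 6 (.s k14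
  k13 0 (.s k46 k29 4 (.s k30 k62 3 (.s k45 k60 4 (.d k47 k44 k31 0 3)))))), (.s k5 k10 2 (.s k37
  k53 3 (.s k13 k14 0 (.s k1 k9 1 (.s k41 k61 5 (.s k49 k25 5 (.d k33 k45 k17 1 3)))))))] .n) (.c k5
  (.q k192 [(.s k4 k8 1 (.s k128 k64 7 (.s k132 k72 9 (.s k68 k196 7 (.d k136 k140 k204 1 9))))),
  (.s k13 k14 0 (.s k132 k72 9 (.s k133 k74 10 (.s k73 k193 9 (.d k134 k135 k195 0 10))))), (.s k4
  k8 1 (.s k64 k128 7 (.s k14 k13 0 (.s k74 k133 10 (.s k134 k194 9 (.d k69 k79 k199 2 8))))))] .n)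
  (.c k6 (.f k14 k13 0 (.f k4 k8 1 (.q k192 [(.s k72 k132 9 (.s k74 k133 10 (.s k134 k194 9 (.d k73
  k75 k195 0 10)))), (.s k128 k64 7 (.s k132 k72 9 (.s k68 k196 7 (.d k136 k140 k204 1 9)))), (.s
  k64 k128 7 (.s k74 k133 10 (.s k134 k194 9 (.d k69 k79 k199 2 8))))] (.c k22 (.q k54 [(.s k72 k132
  9 (.s k74 k133 10 (.s k134 k194 9 (.d k73 k75 k195 0 10)))), (.s k128 k64 7 (.s k132 k72 9 (.s k68
  k196 7 (.d k136 k140 k204 1 9)))), (.s k64 k128 7 (.s k74 k133 10 (.s k134 k194 9 (.d k69 k79 k199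
  2 8))))] .n) (.c k54 (.q k22 [(.s k72 k132 9 (.s k74 k133 10 (.s k134 k194 9 (.d k73 k75 k195 0
  10)))), (.s k128 k64 7 (.s k132 k72 9 (.s k68 k196 7 (.d k136 k140 k204 1 9)))), (.s k64 k128 7
  (.s k74 k133 10 (.s k134 k194 9 (.d k69 k79 k199 2 8))))] .n) .n))))) (.c k7 (.l (.s k8 k4 1 (.s
  k14 k13 0 (.s k10 k5 2 (.s k6 k2 1 (.d k9 k11 k3 0 2)))))) (.c k8 (.q k21 [(.s k10 k5 2 (.s k42
  k63 6 (.s k26 k58 3 (.s k48 k37 6 (.d k16 k31 k32 2 3))))), (.s k63 k42 6 (.s k14 k13 0 (.s k46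
  k29 4 (.s k30 k62 3 (.s k45 k60 4 (.d k47 k44 k31 0 3)))))), (.s k5 k10 2 (.s k37 k53 3 (.s k13
  k14 0 (.s k25 k49 5 (.s k29 k17 1 (.s k61 k45 3 (.d k1 k9 k41 1 5)))))))] .n) (.c k9 (.q k192 [(.s
  k4 k8 1 (.s k128 k64 7 (.s k132 k72 9 (.s k68 k196 7 (.d k136 k140 k204 1 9))))), (.s k13 k14 0
  (.s k132 k72 9 (.s k133 k74 10 (.s k73 k193 9 (.d k134 k135 k195 0 10))))), (.s k5 k10 2 (.s k128
  k64 7 (.s k133 k74 10 (.s k69 k197 7 (.d k138 k143 k207 2 10)))))] .n) (.c k10 (.f k14 k13 0 (.q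
  k192 [(.s k72 k132 9 (.s k74 k133 10 (.s k134 k194 9 (.d k73 k75 k195 0 10)))), (.s k4 k8 1 (.s
  k128 k64 7 (.s k132 k72 9 (.s k68 k196 7 (.d k136 k140 k204 1 9))))), (.s k4 k8 1 (.s k64 k128 7
  (.s k74 k133 10 (.s k134 k194 9 (.d k69 k79 k199 2 8)))))] (.c k170 (.q k250 [(.s k72 k132 9 (.s
  k74 k133 10 (.s k134 k194 9 (.d k73 k75 k195 0 10)))), (.s k4 k8 1 (.s k128 k64 7 (.s k132 k72 9
  (.s k68 k196 7 (.d k136 k140 k204 1 9))))), (.s k4 k8 1 (.s k64 k128 7 (.s k74 k133 10 (.s k134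
  k194 9 (.d k69 k79 k199 2 8)))))] .n) (.c k250 (.q k170 [(.s k72 k132 9 (.s k74 k133 10 (.s k134
  k194 9 (.d k73 k75 k195 0 10)))), (.s k4 k8 1 (.s k128 k64 7 (.s k132 k72 9 (.s k68 k196 7 (.d
  k136 k140 k204 1 9))))), (.s k4 k8 1 (.s k64 k128 7 (.s k74 k133 10 (.s k134 k194 9 (.d k69 k79
  k199 2 8)))))] .n) .n)))) (.c k11 (.l (.s k4 k8 1 (.s k13 k14 0 (.s k5 k10 2 (.s k9 k1 1 (.d k6 k7
  k3 0 2)))))) (.c k13 (.q k192 [(.s k4 k8 1 (.s k128 k64 7 (.s k132 k72 9 (.s k68 k196 7 (.d k136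
  k140 k204 1 9))))), (.s k5 k10 2 (.s k128 k64 7 (.s k133 k74 10 (.s k69 k197 7 (.d k138 k143 k207
  2 10))))), (.s k4 k8 1 (.s k5 k10 2 (.s k7 k6 0 (.s k132 k72 9 (.s k133 k74 10 (.d k196 k68 k70 7
  8))))))] .n) (.c k14 (.q k26 [(.s k10 k5 2 (.s k42 k58 3 (.s k21 k63 6 (.s k48 k37 6 (.d k16 k31
  k32 2 3))))), (.s k8 k4 1 (.s k10 k5 2 (.s k11 k9 0 (.s k42 k58 3 (.s k25 k59 4 (.s k56 k41 4 (.d
  k24 k27 k40 0 3))))))), (.s k4 k8 1 (.s k48 k37 6 (.s k32 k16 3 (.s k36 k24 5 (.s k20 k52 3 (.d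
  k40 k44 k60 1 5))))))] (.c k166 (.q k242 [(.s k10 k5 2 (.s k42 k58 3 (.s k21 k63 6 (.s k48 k37 6
  (.d k16 k31 k32 2 3))))), (.s k8 k4 1 (.s k10 k5 2 (.s k11 k9 0 (.s k42 k58 3 (.s k25 k59 4 (.s
  k56 k41 4 (.d k24 k27 k40 0 3))))))), (.s k4 k8 1 (.s k48 k37 6 (.s k32 k16 3 (.s k36 k24 5 (.s
  k20 k52 3 (.d k40 k44 k60 1 5))))))] (.c k102 (.q k230 [(.s k10 k5 2 (.s k42 k58 3 (.s k21 k63 6
  (.s k48 k37 6 (.d k16 k31 k32 2 3))))), (.s k8 k4 1 (.s k10 k5 2 (.s k11 k9 0 (.s k42 k58 3 (.s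
  k25 k59 4 (.s k56 k41 4 (.d k24 k27 k40 0 3))))))), (.s k4 k8 1 (.s k48 k37 6 (.s k32 k16 3 (.s
  k36 k24 5 (.s k20 k52 3 (.d k40 k44 k60 1 5))))))] (.c k78 (.q k114 [(.s k10 k5 2 (.s k42 k58 3
  (.s k21 k63 6 (.s k48 k37 6 (.d k16 k31 k32 2 3))))), (.s k8 k4 1 (.s k10 k5 2 (.s k11 k9 0 (.s
  k42 k58 3 (.s k25 k59 4 (.s k56 k41 4 (.d k24 k27 k40 0 3))))))), (.s k4 k8 1 (.s k48 k37 6 (.s
  k32 k16 3 (.s k36 k24 5 (.s k20 k52 3 (.d k40 k44 k60 1 5))))))] (.c k142 (.l (.s k206 k218 5 (.s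
  k5 k10 2 (.s k37 k48 6 (.s k21 k53 3 (.s k63 k42 6 (.d k31 k16 k47 2 3))))))) (.c k206 (.q k142
  [(.s k207 k77 8 (.s k138 k69 10 (.s k134 k130 1 (.s k73 k195 10 (.d k8 k4 k203 1 8))))), (.s k5
  k10 2 (.s k37 k48 6 (.s k21 k53 3 (.s k63 k42 6 (.d k31 k16 k47 2 3)))))] (.c k50 (.q k154 [(.s
  k207 k77 8 (.d k48 k37 k101 6 14)), (.s k5 k10 2 (.s k37 k48 6 (.s k21 k53 3 (.s k63 k42 6 (.d k31
  k16 k47 2 3))))), (.s k8 k4 1 (.s k207 k77 8 (.s k138 k69 10 (.s k73 k203 8 (.d k134 k130 k195 1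
  10)))))] .n) (.c k154 (.l (.s k50 k178 7 (.s k8 k4 1 (.s k207 k77 8 (.s k138 k69 10 (.s k73 k203 8
  (.d k134 k130 k195 1 10))))))) .n))) .n))) (.c k114 (.q k78 [(.s k10 k5 2 (.s k42 k58 3 (.s k21
  k63 6 (.s k48 k37 6 (.d k16 k31 k32 2 3))))), (.s k204 k141 8 (.s k76 k140 7 (.s k77 k79 0 (.s
  k206 k218 5 (.d k207 k142 k205 8 0)))))] .n) .n))) (.c k230 (.q k102 [(.s k10 k5 2 (.s k42 k58 3
  (.s k21 k63 6 (.s k48 k37 6 (.d k16 k31 k32 2 3))))), (.s k8 k4 1 (.s k10 k5 2 (.s k11 k9 0 (.s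
  k42 k58 3 (.s k25 k59 4 (.s k56 k41 4 (.d k24 k27 k40 0 3))))))), (.s k4 k8 1 (.s k48 k37 6 (.s
  k32 k16 3 (.s k36 k24 5 (.s k20 k52 3 (.d k40 k44 k60 1 5))))))] .n) .n))) (.c k242 (.q k166 [(.s
  k4 k8 1 (.s k85 k247 12 (.s k170 k255 14 (.s k243 k89 14 (.d k162 k174 k81 1 12))))), (.s k10 k5 2
  (.s k42 k58 3 (.s k21 k63 6 (.s k48 k37 6 (.d k16 k31 k32 2 3)))))] .n) .n))) .n))))))))))))

def t39 : T TT 256 :=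
  (.q k69 [(.s k10 k5 2 (.s k138 k207 10 (.s k74 k202 7 (.s k192 k133 10 (.d k64 k79 k128 2 7)))))]
  (.c k5 (.q k3 [(.s k1 k2 0 (.s k138 k207 10 (.s k137 k205 9 (.s k204 k70 10 (.d k136 k139 k68 0
  9))))), (.s k207 k138 10 (.s k11 k7 1 (.s k139 k71 9 (.s k75 k203 7 (.s k135 k195 9 (.d k143 k131
  k79 1 7)))))), (.s k1 k2 0 (.s k137 k205 9 (.s k11 k7 1 (.s k74 k200 8 (.s k64 k79 2 (.d k192 k128
  k133 7 10))))))] .n) (.c k10 (.q k3 [(.s k2 k1 0 (.s k138 k207 10 (.s k70 k206 9 (.s k204 k137 10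
  (.d k68 k71 k136 0 9))))), (.s k207 k138 10 (.s k11 k7 1 (.s k139 k71 9 (.s k75 k203 7 (.s k135
  k195 9 (.d k143 k131 k79 1 7)))))), (.s k1 k2 0 (.s k137 k205 9 (.s k11 k7 1 (.s k74 k200 8 (.s
  k64 k79 2 (.d k192 k128 k133 7 10))))))] (.c k170 (.q k250 [(.s k2 k1 0 (.s k138 k207 10 (.s k70
  k206 9 (.s k204 k137 10 (.d k68 k71 k136 0 9))))), (.s k207 k138 10 (.s k11 k7 1 (.s k139 k71 9
  (.s k75 k203 7 (.s k135 k195 9 (.d k143 k131 k79 1 7)))))), (.s k1 k2 0 (.s k137 k205 9 (.s k11 k7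
  1 (.s k74 k200 8 (.s k64 k79 2 (.d k192 k128 k133 7 10))))))] .n) (.c k250 (.q k170 [(.s k2 k1 0
  (.s k138 k207 10 (.s k70 k206 9 (.s k204 k137 10 (.d k68 k71 k136 0 9))))), (.s k207 k138 10 (.s
  k85 k255 14 (.s k101 k117 3 (.s k32 k239 10 (.d k48 k16 k154 3 14))))), (.s k1 k2 0 (.s k85 k255
  14 (.s k169 k253 13 (.s k252 k86 14 (.d k168 k171 k84 0 13)))))] .n) .n))) (.c k64 (.q k3 [(.s k1
  k2 0 (.s k138 k207 10 (.s k137 k205 9 (.s k204 k70 10 (.d k136 k139 k68 0 9))))), (.s k1 k2 0 (.s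
  k5 k10 2 (.s k9 k13 1 (.s k6 k12 2 (.d k7 k4 k11 0 1))))), (.s k5 k10 2 (.s k207 k138 10 (.s k7
  k11 1 (.s k71 k139 9 (.s k133 k197 7 (.d k70 k68 k196 0 8))))))] .n) (.c k74 (.f k138 k207 10 (.f
  k10 k5 2 (.q k3 [(.s k1 k2 0 (.s k137 k205 9 (.s k136 k139 0 (.d k204 k68 k70 9 10)))), (.s k11 k7
  1 (.s k8 k9 0 (.s k73 k203 8 (.s k65 k77 1 (.s k195 k130 8 (.d k12 k4 k134 1 10))))))] (.c k1 (.l
  (.s k11 k7 1 (.s k9 k8 0 (.s k6 k12 2 (.s k2 k14 1 (.s k70 k206 9 (.s k204 k137 10 (.d k68 k71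
  k136 0 9)))))))) (.c k106 (.q k122 [(.s k1 k2 0 (.s k137 k205 9 (.s k136 k139 0 (.d k204 k68 k70 9
  10)))), (.s k11 k7 1 (.s k8 k9 0 (.s k73 k203 8 (.s k65 k77 1 (.s k195 k130 8 (.d k12 k4 k134 1
  10))))))] (.c k1 (.l (.s k11 k7 1 (.s k9 k8 0 (.s k6 k12 2 (.s k2 k14 1 (.s k70 k206 9 (.s k204
  k137 10 (.d k68 k71 k136 0 9)))))))) .n)) (.c k122 (.q k106 [(.s k1 k2 0 (.s k137 k205 9 (.s k136
  k139 0 (.d k204 k68 k70 9 10)))), (.s k11 k7 1 (.s k8 k9 0 (.s k73 k203 8 (.s k65 k77 1 (.s k195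
  k130 8 (.d k12 k4 k134 1 10))))))] (.c k1 (.l (.s k11 k7 1 (.s k9 k8 0 (.s k6 k12 2 (.s k2 k14 1
  (.s k70 k206 9 (.s k204 k137 10 (.d k68 k71 k136 0 9)))))))) .n)) .n)))))) (.c k79 (.l (.s k5 k10
  2 (.s k138 k207 10 (.s k133 k197 7 (.s k192 k74 10 (.d k128 k143 k64 2 7)))))) (.c k128 (.l (.s k5
  k10 2 (.s k207 k138 10 (.s k133 k197 7 (.s k74 k192 10 (.d k79 k143 k64 7 2)))))) (.c k133 (.q k3
  [(.s k1 k2 0 (.s k138 k207 10 (.s k137 k205 9 (.s k136 k139 0 (.d k204 k68 k70 9 10))))), (.s k1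
  k2 0 (.s k5 k10 2 (.s k9 k13 1 (.s k6 k12 2 (.d k7 k4 k11 0 1))))), (.s k5 k10 2 (.s k207 k138 10
  (.s k7 k11 1 (.s k71 k139 9 (.s k199 k135 7 (.d k4 k134 k6 8 0))))))] .n) (.c k138 (.q k3 [(.s k2
  k1 0 (.s k10 k5 2 (.s k6 k14 1 (.s k9 k12 2 (.d k11 k8 k7 0 1))))), (.s k1 k2 0 (.s k137 k205 9
  (.s k11 k7 1 (.s k74 k200 8 (.s k192 k133 10 (.d k64 k128 k79 7 2)))))), (.s k5 k10 2 (.s k7 k11 1
  (.s k133 k197 7 (.s k70 k196 8 (.s k204 k137 10 (.d k68 k136 k71 9 0)))))), (.s k1 k2 0 (.s k5 k10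
  2 (.s k137 k205 9 (.s k133 k197 7 (.s k129 k141 1 (.d k192 k74 k66 10 8))))))] .n) (.c k192 (.q k3
  [(.s k1 k2 0 (.s k138 k207 10 (.s k137 k205 9 (.s k204 k70 10 (.d k136 k139 k68 0 9))))), (.s k1
  k2 0 (.s k5 k10 2 (.s k9 k13 1 (.s k6 k12 2 (.d k7 k4 k11 0 1))))), (.s k5 k10 2 (.s k207 k138 10
  (.s k7 k11 1 (.s k71 k139 9 (.s k133 k197 7 (.d k70 k68 k196 0 8))))))] .n) (.c k197 (.l (.s k10
  k5 2 (.s k138 k207 10 (.s k74 k202 7 (.s k192 k133 10 (.d k64 k79 k128 2 7)))))) (.c k202 (.l (.s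
  k5 k10 2 (.s k138 k207 10 (.s k133 k197 7 (.s k192 k74 10 (.d k128 k143 k64 2 7)))))) (.c k207 (.q
  k3 [(.s k2 k1 0 (.s k11 k7 1 (.s k10 k5 2 (.s k9 k8 0 (.d k6 k14 k12 1 2))))), (.s k5 k10 2 (.s k7
  k11 1 (.s k133 k197 7 (.s k70 k196 8 (.s k204 k137 10 (.d k68 k71 k136 0 9)))))), (.s k1 k2 0 (.s
  k137 k205 9 (.s k11 k7 1 (.s k74 k200 8 (.s k192 k133 10 (.d k64 k79 k128 2 7)))))), (.s k1 k2 0
  (.s k5 k10 2 (.s k137 k205 9 (.s k204 k70 10 (.s k133 k197 7 (.d k141 k129 k78 1 8))))))] .n)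
  .n)))))))))))))

def t42 : T TT 256 :=
  (.q k207 [(.s k10 k5 2 (.s k138 k69 10 (.s k74 k202 7 (.s k133 k192 10 (.d k143 k128 k79 2 7)))))]
  (.c k5 (.q k12 [(.s k4 k8 1 (.s k69 k138 10 (.s k134 k199 8 (.s k73 k195 10 (.d k77 k65 k142 1
  8))))), (.s k13 k14 0 (.s k77 k142 8 (.s k141 k205 7 (.s k78 k204 8 (.d k79 k76 k143 0 7))))), (.s
  k4 k8 1 (.s k69 k138 10 (.s k134 k199 8 (.s k14 k13 0 (.s k74 k194 9 (.d k79 k64 k143 2 7))))))]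
  .n) (.c k10 (.q k170 [(.s k138 k69 10 (.s k85 k255 14 (.s k154 k186 3 (.s k16 k223 10 (.d k48 k32
  k101 3 14))))), (.s k255 k85 14 (.s k79 k143 7 (.s k95 k175 11 (.s k111 k127 3 (.s k159 k63 11 (.d
  k223 k239 k31 3 7)))))), (.s k138 k69 10 (.s k143 k79 7 (.s k128 k133 2 (.s k149 k191 6 (.s k154
  k186 3 (.s k176 k165 6 (.d k144 k159 k160 2 3)))))))] (.c k26 (.q k58 [(.s k138 k69 10 (.s k85
  k255 14 (.s k154 k186 3 (.s k16 k223 10 (.d k48 k32 k101 3 14))))), (.s k255 k85 14 (.s k79 k143 7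
  (.s k95 k175 11 (.s k111 k127 3 (.s k159 k63 11 (.d k223 k239 k31 3 7)))))), (.s k138 k69 10 (.s
  k143 k79 7 (.s k128 k133 2 (.s k154 k186 3 (.s k202 k106 11 (.d k192 k197 k64 2 7))))))] (.c k154
  (.q k218 [(.s k240 k229 6 (.s k160 k80 11 (.s k175 k165 2 (.d k255 k95 k85 11 14)))), (.s k240
  k229 6 (.s k80 k160 11 (.s k255 k85 14 (.s k223 k239 3 (.s k213 k208 2 (.s k234 k192 6 (.d k250
  k245 k202 2 3))))))), (.s k138 k69 10 (.s k255 k85 14 (.s k143 k79 7 (.s k128 k133 2 (.s k191 k149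
  6 (.d k175 k159 k95 3 11))))))] (.c k80 (.l (.s k255 k85 14 (.s k95 k175 11 (.s k79 k143 7 (.s
  k111 k127 3 (.s k159 k63 11 (.d k223 k239 k31 3 7))))))) (.c k85 (.q k16 [(.s k48 k32 3 (.s k240
  k229 6 (.s k80 k160 11 (.s k144 k208 7 (.s k96 k192 11 (.d k112 k64 k176 3 7)))))), (.s k48 k32 3
  (.s k138 k69 10 (.s k143 k79 7 (.s k63 k53 2 (.s k159 k111 11 (.s k128 k133 2 (.d k191 k175 k149 3
  6))))))), (.s k69 k138 10 (.s k79 k143 7 (.s k74 k64 2 (.s k240 k229 6 (.s k80 k160 11 (.s k208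
  k144 7 (.d k192 k133 k224 10 3))))))), (.s k32 k48 3 (.s k239 k101 10 (.s k240 k229 6 (.s k80 k160
  11 (.s k223 k255 3 (.d k208 k213 k144 2 7))))))] (.c k80 (.q k95 [(.s k32 k48 3 (.s k255 k175 11
  (.d k239 k223 k101 3 10))), (.s k48 k32 3 (.s k79 k143 7 (.s k63 k53 2 (.d k111 k127 k159 3
  11)))), (.s k138 k69 10 (.s k143 k79 7 (.s k175 k255 11 (.s k128 k133 2 (.d k191 k159 k149 3
  6)))))] .n) (.c k95 (.q k80 [(.d k240 k229 k160 6 11), (.s k32 k48 3 (.s k208 k144 7 (.s k239 k101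
  10 (.d k223 k213 k255 2 3))))] .n) .n))) (.c k255 (.l (.s k138 k69 10 (.s k143 k79 7 (.s k128 k133
  2 (.s k191 k149 6 (.s k240 k229 6 (.s k160 k80 11 (.d k175 k165 k159 2 3)))))))) .n)))) (.c k218
  (.q k154 [(.d k138 k186 k69 3 10), (.s k85 k255 14 (.s k16 k223 10 (.d k48 k32 k101 3 14)))] .n)
  .n))) (.c k58 (.q k26 [(.s k48 k37 6 (.s k32 k16 3 (.d k101 k239 k154 10 14))), (.s k138 k69 10
  (.s k255 k85 14 (.s k143 k79 7 (.s k128 k133 2 (.s k191 k149 6 (.d k175 k95 k159 11 3))))))] (.c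
  k101 (.l (.s k138 k69 10 (.s k48 k37 6 (.s k186 k154 3 (.d k255 k117 k85 10 14))))) .n)) .n))) (.c
  k69 (.q k12 [(.s k13 k14 0 (.s k77 k142 8 (.s k141 k205 7 (.s k78 k204 8 (.d k79 k76 k143 0
  7))))), (.s k8 k4 1 (.s k10 k5 2 (.s k9 k11 0 (.s k6 k3 2 (.d k14 k13 k2 0 1)))))] (.c k13 (.q
  k138 [(.s k8 k4 1 (.s k73 k203 8 (.s k134 k195 10 (.d k142 k130 k77 1 8)))), (.s k10 k5 2 (.s k74
  k202 7 (.s k133 k192 10 (.d k143 k128 k79 2 7))))] .n) (.c k14 (.q k138 [(.s k8 k4 1 (.s k73 k203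
  8 (.s k134 k195 10 (.d k142 k130 k77 1 8)))), (.s k10 k5 2 (.s k74 k202 7 (.s k133 k192 10 (.d
  k143 k128 k79 2 7))))] (.c k166 (.q k242 [(.s k10 k5 2 (.s k74 k202 7 (.s k133 k192 10 (.d k143
  k128 k79 2 7)))), (.s k8 k4 1 (.s k73 k203 8 (.s k134 k195 10 (.d k142 k130 k77 1 8))))] .n) (.c
  k242 (.q k166 [(.s k8 k4 1 (.s k73 k203 8 (.s k134 k195 10 (.d k142 k130 k77 1 8)))), (.s k10 k5 2
  (.s k74 k202 7 (.s k133 k192 10 (.d k143 k128 k79 2 7))))] .n) .n))) .n))) (.c k74 (.f k10 k5 2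
  (.q k12 [(.s k14 k13 0 (.s k8 k4 1 (.s k6 k2 1 (.d k9 k11 k3 0 2)))), (.s k4 k8 1 (.s k69 k138 10
  (.s k134 k199 8 (.s k73 k195 10 (.d k77 k65 k142 1 8))))), (.s k138 k69 10 (.s k14 k13 0 (.s k142
  k77 8 (.s k206 k78 7 (.d k2 k70 k6 9 1)))))] (.c k106 (.q k122 [(.s k14 k13 0 (.s k8 k4 1 (.s k6
  k2 1 (.d k9 k11 k3 0 2)))), (.s k4 k8 1 (.s k69 k138 10 (.s k134 k199 8 (.s k73 k195 10 (.d k77
  k65 k142 1 8))))), (.s k138 k69 10 (.s k14 k13 0 (.s k142 k77 8 (.s k206 k78 7 (.d k2 k70 k6 9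
  1)))))] (.c k170 (.q k234 [(.s k8 k4 1 (.s k9 k11 0 (.s k6 k3 2 (.d k14 k13 k2 0 1)))), (.s k4 k8
  1 (.s k69 k138 10 (.s k134 k199 8 (.s k73 k195 10 (.d k77 k65 k142 1 8))))), (.s k138 k69 10 (.s
  k14 k13 0 (.s k142 k77 8 (.s k206 k78 7 (.d k2 k70 k6 9 1)))))] .n) (.c k234 (.q k170 [(.s k14 k13
  0 (.s k8 k4 1 (.s k6 k2 1 (.d k9 k11 k3 0 2)))), (.s k69 k138 10 (.s k85 k255 14 (.s k101 k117 3
  (.s k32 k239 10 (.d k48 k16 k154 3 14)))))] .n) .n))) (.c k122 (.q k106 [(.s k14 k13 0 (.s k8 k4 1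
  (.s k6 k2 1 (.d k9 k11 k3 0 2)))), (.s k4 k8 1 (.s k69 k138 10 (.s k134 k199 8 (.s k73 k195 10 (.d
  k77 k65 k142 1 8))))), (.s k138 k69 10 (.s k14 k13 0 (.s k142 k77 8 (.s k206 k78 7 (.d k2 k70 k6 9
  1)))))] .n) .n)))) (.c k79 (.q k12 [(.s k4 k8 1 (.s k69 k138 10 (.s k134 k199 8 (.s k73 k195 10
  (.d k77 k65 k142 1 8))))), (.s k8 k4 1 (.s k10 k5 2 (.s k9 k11 0 (.s k6 k3 2 (.d k14 k13 k2 0
  1))))), (.s k5 k10 2 (.s k69 k138 10 (.s k133 k197 7 (.s k13 k14 0 (.s k77 k142 8 (.d k73 k65 k193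
  1 9))))))] (.c k101 (.q k112 [(.s k8 k4 1 (.s k10 k5 2 (.s k9 k11 0 (.s k6 k3 2 (.d k14 k13 k2 0
  1))))), (.s k4 k8 1 (.s k69 k138 10 (.s k134 k199 8 (.s k73 k195 10 (.d k77 k65 k142 1 8))))), (.s
  k5 k10 2 (.s k69 k138 10 (.s k133 k197 7 (.s k13 k14 0 (.s k77 k142 8 (.d k73 k65 k193 1 9))))))]
  .n) (.c k112 (.q k101 [(.s k4 k8 1 (.s k69 k138 10 (.s k134 k199 8 (.s k73 k195 10 (.d k77 k65
  k142 1 8))))), (.s k69 k138 10 (.s k48 k154 14 (.s k32 k16 3 (.s k170 k239 10 (.d k85 k117 k255 3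
  14))))), (.s k4 k8 1 (.s k5 k10 2 (.s k6 k7 0 (.s k9 k3 2 (.d k13 k14 k1 0 1)))))] .n) .n))) (.c
  k128 (.l (.s k5 k10 2 (.s k69 k138 10 (.s k133 k197 7 (.s k74 k192 10 (.d k79 k143 k64 7 2))))))
  (.c k133 (.q k12 [(.s k13 k14 0 (.s k77 k142 8 (.s k141 k205 7 (.s k78 k204 8 (.d k79 k76 k143 0
  7))))), (.s k4 k8 1 (.s k5 k10 2 (.s k6 k7 0 (.s k9 k3 2 (.d k13 k14 k1 0 1))))), (.s k4 k8 1 (.s
  k69 k138 10 (.s k134 k199 8 (.s k73 k195 10 (.d k77 k65 k142 1 8)))))] .n) (.c k138 (.f k10 k5 2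
  (.q k12 [(.s k8 k4 1 (.s k9 k11 0 (.s k6 k3 2 (.d k14 k13 k2 0 1)))), (.s k13 k14 0 (.s k77 k142 8
  (.s k141 k205 7 (.s k78 k204 8 (.d k79 k76 k143 0 7)))))] (.c k13 (.q k3 [(.s k8 k4 1 (.d k9 k6
  k11 2 0)), (.s k142 k77 8 (.s k143 k79 7 (.s k141 k140 0 (.s k78 k204 8 (.s k14 k206 7 (.d k2 k1
  k6 0 1))))))] (.c k1 (.l (.s k9 k6 2 (.d k8 k4 k11 1 0))) (.c k6 (.l (.s k7 k11 1 (.s k71 k139 9
  (.s k135 k199 7 (.s k75 k195 9 (.d k79 k67 k143 1 7)))))) (.c k9 (.l (.s k1 k2 0 (.s k7 k11 1 (.s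
  k71 k139 9 (.s k135 k199 7 (.s k75 k195 9 (.d k79 k67 k143 1 7))))))) .n)))) (.c k14 (.q k3 [(.s
  k8 k4 1 (.d k9 k6 k11 2 0)), (.s k139 k71 9 (.s k142 k77 8 (.s k143 k79 7 (.s k131 k135 1 (.s k140
  k141 0 (.s k134 k137 2 (.d k195 k67 k73 7 10)))))))] (.c k7 (.l (.s k139 k71 9 (.s k143 k79 7 (.s
  k135 k131 1 (.s k75 k195 9 (.s k11 k203 7 (.d k8 k9 k4 0 1))))))) (.c k166 (.q k242 [(.s k8 k4 1
  (.d k9 k6 k11 2 0)), (.s k139 k71 9 (.s k142 k77 8 (.s k143 k79 7 (.s k131 k135 1 (.s k140 k141 0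
  (.s k134 k137 2 (.d k195 k67 k73 7 10)))))))] (.c k7 (.l (.s k139 k71 9 (.s k143 k79 7 (.s k135
  k131 1 (.s k75 k195 9 (.s k11 k203 7 (.d k8 k9 k4 0 1))))))) .n)) (.c k242 (.q k166 [(.s k8 k4 1
  (.d k9 k6 k11 2 0)), (.s k6 k9 2 (.s k86 k246 11 (.s k169 k252 14 (.s k243 k89 14 (.d k163 k172
  k83 2 11))))), (.s k4 k8 1 (.s k7 k11 1 (.s k247 k85 12 (.s k167 k87 11 (.d k243 k91 k89 13
  14)))))] .n) .n)))) .n)))) (.c k143 (.q k12 [(.s k8 k4 1 (.s k10 k5 2 (.s k9 k11 0 (.s k6 k3 2 (.d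
  k14 k13 k2 0 1))))), (.s k4 k8 1 (.s k69 k138 10 (.s k134 k199 8 (.s k73 k195 10 (.d k77 k65 k142
  1 8))))), (.s k5 k10 2 (.s k69 k138 10 (.s k133 k197 7 (.s k13 k14 0 (.s k77 k142 8 (.d k73 k65
  k193 1 9))))))] .n) (.c k192 (.q k12 [(.s k4 k8 1 (.s k69 k138 10 (.s k134 k199 8 (.s k73 k195 10
  (.d k77 k65 k142 1 8))))), (.s k13 k14 0 (.s k77 k142 8 (.s k141 k205 7 (.s k78 k204 8 (.d k79 k76
  k143 0 7))))), (.s k4 k8 1 (.s k5 k10 2 (.s k6 k7 0 (.s k9 k3 2 (.d k13 k14 k1 0 1)))))] .n) (.c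
  k197 (.l (.s k10 k5 2 (.s k143 k79 7 (.s k138 k69 10 (.s k133 k128 2 (.d k74 k202 k192 7 10))))))
  (.c k202 (.l (.s k5 k10 2 (.s k79 k143 7 (.s k69 k138 10 (.s k74 k64 2 (.d k133 k197 k192 7
  10)))))) .n)))))))))))))

def t43 : T TT 256 :=
  (.q k26 [(.s k10 k5 2 (.s k42 k58 3 (.s k63 k21 6 (.s k37 k48 6 (.d k47 k32 k31 2 3)))))] (.c k5
  (.q k12 [(.s k13 k14 0 (.s k37 k48 6 (.s k25 k49 5 (.s k51 k38 6 (.d k27 k24 k39 0 5))))), (.s k4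
  k8 1 (.s k48 k37 6 (.s k32 k16 3 (.s k36 k24 5 (.s k20 k52 3 (.d k40 k44 k60 1 5)))))), (.s k4 k8
  1 (.s k14 k13 0 (.s k38 k50 5 (.s k21 k55 4 (.s k63 k42 6 (.d k31 k16 k47 2 3))))))] .n) (.c k10
  (.q k12 [(.s k14 k13 0 (.s k38 k50 5 (.s k25 k51 6 (.s k48 k37 6 (.d k24 k27 k36 0 5))))), (.s k4
  k8 1 (.s k48 k37 6 (.s k32 k16 3 (.s k36 k24 5 (.s k20 k52 3 (.d k40 k44 k60 1 5)))))), (.s k4 k8
  1 (.s k14 k13 0 (.s k38 k50 5 (.s k21 k55 4 (.s k63 k42 6 (.d k31 k16 k47 2 3))))))] (.c k170 (.q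
  k250 [(.s k14 k13 0 (.s k38 k50 5 (.s k25 k51 6 (.s k48 k37 6 (.d k24 k27 k36 0 5))))), (.s k4 k8
  1 (.s k48 k37 6 (.s k32 k16 3 (.s k36 k24 5 (.s k20 k52 3 (.d k40 k44 k60 1 5)))))), (.s k4 k8 1
  (.s k14 k13 0 (.s k38 k50 5 (.s k21 k55 4 (.s k63 k42 6 (.d k31 k16 k47 2 3))))))] .n) (.c k250
  (.q k170 [(.s k14 k13 0 (.s k38 k50 5 (.s k25 k51 6 (.s k48 k37 6 (.d k24 k27 k36 0 5))))), (.s k4
  k8 1 (.s k85 k255 14 (.s k166 k247 12 (.s k243 k89 14 (.d k162 k174 k81 1 12)))))] .n) .n))) (.c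
  k21 (.q k12 [(.s k13 k14 0 (.s k37 k48 6 (.s k25 k49 5 (.s k27 k24 0 (.d k51 k39 k38 5 6))))), (.s
  k4 k8 1 (.s k5 k10 2 (.s k6 k7 0 (.s k9 k3 2 (.d k13 k14 k1 0 1))))), (.s k4 k8 1 (.s k48 k37 6
  (.s k32 k16 3 (.s k36 k24 5 (.s k20 k52 3 (.d k40 k44 k60 1 5))))))] .n) (.c k31 (.q k12 [(.s k8
  k4 1 (.s k14 k13 0 (.s k10 k5 2 (.s k6 k2 1 (.d k9 k11 k3 0 2))))), (.s k13 k14 0 (.s k37 k48 6
  (.s k25 k49 5 (.s k51 k38 6 (.d k27 k24 k39 0 5))))), (.s k4 k8 1 (.s k48 k37 6 (.s k32 k16 3 (.s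
  k36 k24 5 (.s k20 k52 3 (.d k40 k44 k60 1 5))))))] (.c k149 (.q k208 [(.s k8 k4 1 (.s k14 k13 0
  (.s k10 k5 2 (.s k6 k2 1 (.d k9 k11 k3 0 2))))), (.s k13 k14 0 (.s k37 k48 6 (.s k25 k49 5 (.s k51
  k38 6 (.d k27 k24 k39 0 5))))), (.s k4 k8 1 (.s k48 k37 6 (.s k32 k16 3 (.s k36 k24 5 (.s k20 k52
  3 (.d k40 k44 k60 1 5))))))] .n) (.c k208 (.q k149 [(.s k8 k4 1 (.s k14 k13 0 (.s k10 k5 2 (.s k6
  k2 1 (.d k9 k11 k3 0 2))))), (.s k13 k14 0 (.s k37 k48 6 (.s k25 k49 5 (.s k51 k38 6 (.d k27 k24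
  k39 0 5))))), (.s k4 k8 1 (.s k48 k37 6 (.s k32 k16 3 (.s k36 k24 5 (.s k20 k52 3 (.d k40 k44 k60
  1 5))))))] .n) .n))) (.c k32 (.l (.s k5 k10 2 (.s k37 k48 6 (.s k21 k53 3 (.s k63 k42 6 (.d k31
  k16 k47 2 3)))))) (.c k37 (.q k12 [(.s k8 k4 1 (.s k14 k13 0 (.s k10 k5 2 (.s k6 k2 1 (.d k9 k11
  k3 0 2))))), (.s k4 k8 1 (.s k14 k13 0 (.s k38 k50 5 (.s k21 k55 4 (.s k63 k42 6 (.d k31 k47 k16 3
  2)))))), (.s k4 k8 1 (.s k5 k10 2 (.s k6 k7 0 (.s k9 k3 2 (.d k13 k14 k1 0 1))))), (.s k10 k5 2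
  (.s k42 k58 3 (.s k14 k13 0 (.s k38 k50 5 (.s k34 k46 1 (.d k51 k25 k17 6 4)))))), (.s k8 k4 1 (.s
  k10 k5 2 (.s k42 k58 3 (.s k25 k59 4 (.s k51 k38 6 (.d k27 k39 k24 5 0))))))] .n) (.c k42 (.q k41
  [(.s k11 k56 4 (.s k3 k7 1 (.s k22 k60 6 (.s k48 k37 6 (.d k18 k30 k33 1 4))))), (.s k5 k10 2 (.s
  k37 k48 6 (.s k21 k53 3 (.s k1 k61 5 (.s k13 k9 1 (.s k49 k25 5 (.d k33 k45 k17 1 3))))))), (.s
  k10 k5 2 (.s k11 k56 4 (.s k3 k7 1 (.s k2 k1 0 (.s k6 k14 1 (.d k9 k8 k12 0 2))))))] (.c k11 (.l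
  (.s k5 k10 2 (.s k37 k48 6 (.s k21 k53 3 (.s k1 k61 5 (.s k3 k2 0 (.s k45 k33 1 (.d k60 k22 k30 6
  4)))))))) .n)) (.c k47 (.l (.s k10 k5 2 (.s k42 k58 3 (.s k21 k63 6 (.s k48 k37 6 (.d k16 k31 k32
  2 3)))))) (.c k48 (.q k12 [(.s k8 k4 1 (.s k14 k13 0 (.s k10 k5 2 (.s k6 k2 1 (.d k9 k11 k3 0
  2))))), (.s k4 k8 1 (.s k14 k13 0 (.s k38 k50 5 (.s k21 k55 4 (.s k63 k42 6 (.d k31 k16 k47 2
  3)))))), (.s k10 k5 2 (.s k42 k58 3 (.s k63 k21 6 (.s k14 k13 0 (.s k46 k29 4 (.d k38 k34 k50 1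
  5)))))), (.s k8 k4 1 (.s k10 k5 2 (.s k42 k58 3 (.s k25 k59 4 (.s k51 k38 6 (.d k27 k24 k39 0
  5))))))] .n) (.c k53 (.l (.s k10 k5 2 (.s k42 k58 3 (.s k21 k63 6 (.s k48 k37 6 (.d k16 k31 k32 2
  3)))))) (.c k58 (.l (.s k5 k10 2 (.s k37 k48 6 (.s k21 k53 3 (.s k63 k42 6 (.d k31 k16 k47 2
  3)))))) (.c k63 (.q k3 [(.s k2 k1 0 (.s k11 k7 1 (.s k10 k5 2 (.s k9 k8 0 (.d k6 k14 k12 1 2))))),
  (.s k7 k11 1 (.s k37 k48 6 (.s k22 k52 4 (.s k60 k41 6 (.d k30 k18 k45 1 4))))), (.s k1 k2 0 (.s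
  k48 k37 6 (.s k32 k16 3 (.s k33 k18 4 (.s k17 k49 3 (.d k34 k35 k51 0 4))))))] .n) .n)))))))))))))

def t47 : T TT 256 :=
  (.q k12 [(.s k8 k4 1 (.s k14 k13 0 (.s k10 k5 2 (.s k6 k2 1 (.d k9 k11 k3 0 2)))))] (.c k1 (.l (.s
  k8 k4 1 (.s k10 k5 2 (.s k9 k11 0 (.s k6 k3 2 (.d k14 k13 k2 0 1)))))) (.c k2 (.l (.s k4 k8 1 (.s
  k5 k10 2 (.s k6 k7 0 (.s k9 k3 2 (.d k13 k14 k1 0 1)))))) (.c k3 (.q k26 [(.s k10 k5 2 (.s k42 k58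
  3 (.s k48 k37 6 (.s k16 k32 3 (.d k21 k31 k63 2 6))))), (.s k13 k14 0 (.s k37 k48 6 (.s k25 k49 5
  (.s k51 k38 6 (.d k27 k24 k39 0 5))))), (.s k4 k8 1 (.s k10 k5 2 (.s k42 k58 3 (.s k14 k13 0 (.s
  k38 k50 5 (.d k21 k55 k63 4 6))))))] .n) (.c k4 (.q k26 [(.s k10 k5 2 (.s k42 k58 3 (.s k21 k63 6
  (.s k48 k37 6 (.d k16 k31 k32 2 3))))), (.s k13 k14 0 (.s k37 k48 6 (.s k25 k49 5 (.s k27 k24 0
  (.d k51 k39 k38 5 6))))), (.s k10 k5 2 (.s k42 k58 3 (.s k14 k13 0 (.s k38 k50 5 (.s k34 k46 1 (.d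
  k51 k17 k25 4 6))))))] .n) (.c k5 (.q k26 [(.s k13 k14 0 (.s k37 k48 6 (.s k25 k49 5 (.s k51 k38 6
  (.d k27 k24 k39 0 5))))), (.s k4 k8 1 (.s k48 k37 6 (.s k32 k16 3 (.s k36 k24 5 (.s k20 k52 3 (.d
  k40 k44 k60 1 5)))))), (.s k4 k8 1 (.s k14 k13 0 (.s k38 k50 5 (.s k21 k55 4 (.s k42 k63 6 (.s k34
  k46 1 (.d k51 k17 k25 4 6)))))))] .n) (.c k6 (.q k26 [(.s k10 k5 2 (.s k42 k58 3 (.s k21 k63 6 (.s
  k48 k37 6 (.d k16 k31 k32 2 3))))), (.s k13 k14 0 (.s k37 k48 6 (.s k25 k49 5 (.s k51 k38 6 (.d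
  k27 k24 k39 0 5))))), (.s k4 k8 1 (.s k10 k5 2 (.s k42 k58 3 (.s k14 k13 0 (.s k38 k50 5 (.d k21
  k55 k63 4 6))))))] (.c k10 (.l (.s k14 k13 0 (.s k38 k50 5 (.s k25 k51 6 (.s k48 k37 6 (.d k24 k27
  k36 0 5)))))) .n)) (.c k7 (.l (.s k8 k4 1 (.s k14 k13 0 (.s k10 k5 2 (.s k6 k2 1 (.d k9 k11 k3 0
  2)))))) (.c k8 (.q k26 [(.s k10 k5 2 (.s k42 k58 3 (.s k21 k63 6 (.s k48 k37 6 (.d k16 k31 k32 2
  3))))), (.s k13 k14 0 (.s k37 k48 6 (.s k25 k49 5 (.s k51 k38 6 (.d k27 k24 k39 0 5))))), (.s k10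
  k5 2 (.s k42 k58 3 (.s k14 k13 0 (.s k38 k50 5 (.s k34 k46 1 (.d k51 k17 k25 4 6))))))] .n) (.c k9
  (.q k26 [(.s k10 k5 2 (.s k42 k58 3 (.s k21 k63 6 (.s k48 k37 6 (.d k16 k31 k32 2 3))))), (.s k13
  k14 0 (.s k37 k48 6 (.s k25 k49 5 (.s k51 k38 6 (.d k27 k24 k39 0 5))))), (.s k4 k8 1 (.s k14 k13
  0 (.s k38 k50 5 (.s k21 k55 4 (.s k42 k63 6 (.d k10 k5 k58 2 3))))))] (.c k13 (.l (.s k4 k8 1 (.s
  k48 k37 6 (.s k32 k16 3 (.s k36 k24 5 (.s k20 k52 3 (.d k40 k44 k60 1 5))))))) .n)) (.c k10 (.f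
  k14 k13 0 (.q k26 [(.s k38 k50 5 (.s k51 k25 6 (.s k37 k48 6 (.d k39 k36 k27 0 5)))), (.s k4 k8 1
  (.s k38 k50 5 (.s k21 k55 4 (.s k16 k31 2 (.d k48 k32 k37 3 6))))), (.s k4 k8 1 (.s k38 k50 5 (.s
  k21 k55 4 (.s k42 k63 6 (.s k34 k46 1 (.d k51 k17 k25 4 6)))))), (.s k4 k8 1 (.s k48 k37 6 (.s k32
  k16 3 (.s k36 k24 5 (.s k20 k52 3 (.d k40 k44 k60 1 5))))))] (.c k170 (.q k250 [(.s k38 k50 5 (.s
  k51 k25 6 (.s k37 k48 6 (.d k39 k36 k27 0 5)))), (.s k4 k8 1 (.s k38 k50 5 (.s k21 k55 4 (.s k16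
  k31 2 (.d k48 k32 k37 3 6))))), (.s k4 k8 1 (.s k38 k50 5 (.s k21 k55 4 (.s k42 k63 6 (.s k34 k46
  1 (.d k51 k17 k25 4 6)))))), (.s k4 k8 1 (.s k48 k37 6 (.s k32 k16 3 (.s k36 k24 5 (.s k20 k52 3
  (.d k40 k44 k60 1 5))))))] .n) (.c k250 (.q k170 [(.s k38 k50 5 (.s k51 k25 6 (.s k37 k48 6 (.d
  k39 k36 k27 0 5)))), (.s k4 k8 1 (.s k85 k255 14 (.s k166 k247 12 (.s k243 k89 14 (.d k162 k174
  k81 1 12)))))] .n) .n)))) (.c k11 (.l (.s k4 k8 1 (.s k13 k14 0 (.s k5 k10 2 (.s k9 k1 1 (.d k6 k7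
  k3 0 2)))))) (.c k13 (.q k26 [(.s k10 k5 2 (.s k42 k58 3 (.s k21 k63 6 (.s k48 k37 6 (.d k16 k31
  k32 2 3))))), (.s k4 k8 1 (.s k48 k37 6 (.s k32 k16 3 (.s k36 k24 5 (.s k20 k52 3 (.d k40 k44 k60
  1 5)))))), (.s k8 k4 1 (.s k10 k5 2 (.s k42 k58 3 (.s k25 k59 4 (.s k51 k38 6 (.d k27 k24 k39 0
  5))))))] (.c k25 (.l (.s k10 k5 2 (.s k42 k58 3 (.s k21 k63 6 (.s k16 k31 2 (.d k48 k32 k37 3
  6)))))) (.c k42 (.l (.s k4 k8 1 (.s k48 k37 6 (.s k32 k16 3 (.s k36 k24 5 (.s k20 k52 3 (.d k40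
  k44 k60 1 5))))))) .n))) (.c k14 (.f k4 k8 1 (.q k21 [(.s k42 k63 6 (.s k38 k55 4 (.s k51 k25 6
  (.d k34 k46 k17 1 4)))), (.s k10 k5 2 (.s k42 k63 6 (.s k26 k58 3 (.s k48 k37 6 (.d k16 k31 k32 2
  3))))), (.s k5 k10 2 (.s k38 k55 4 (.s k37 k53 3 (.s k36 k39 0 (.d k48 k24 k26 5 6)))))] (.c k166
  (.q k242 [(.s k42 k63 6 (.s k38 k55 4 (.s k51 k25 6 (.d k34 k46 k17 1 4)))), (.s k10 k5 2 (.s k42
  k63 6 (.s k26 k58 3 (.s k48 k37 6 (.d k16 k31 k32 2 3))))), (.s k5 k10 2 (.s k38 k55 4 (.s k37 k53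
  3 (.s k36 k39 0 (.d k48 k24 k26 5 6)))))] .n) (.c k242 (.q k166 [(.s k42 k63 6 (.s k38 k55 4 (.s
  k51 k25 6 (.d k34 k46 k17 1 4)))), (.s k85 k247 12 (.s k170 k255 14 (.s k243 k89 14 (.d k162 k174
  k81 1 12))))] .n) .n)))) .n))))))))))))))

def t48 : T TT 256 :=
  (.q k12 [(.s k8 k4 1 (.s k14 k13 0 (.s k10 k5 2 (.s k6 k2 1 (.d k9 k11 k3 0 2)))))] (.c k1 (.l (.s
  k8 k4 1 (.s k10 k5 2 (.s k9 k11 0 (.s k6 k3 2 (.d k14 k13 k2 0 1)))))) (.c k2 (.l (.s k4 k8 1 (.s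
  k5 k10 2 (.s k6 k7 0 (.s k9 k3 2 (.d k13 k14 k1 0 1)))))) (.c k3 (.f k4 k8 1 (.f k14 k13 0 (.q
  k192 [(.s k72 k132 9 (.s k74 k133 10 (.s k134 k194 9 (.d k73 k75 k195 0 10)))), (.s k128 k64 7 (.s
  k132 k72 9 (.s k68 k196 7 (.d k136 k140 k204 1 9)))), (.s k64 k128 7 (.s k74 k133 10 (.s k134 k194
  9 (.d k69 k79 k199 2 8))))] (.c k18 (.q k33 [(.s k72 k132 9 (.s k74 k133 10 (.s k134 k194 9 (.d
  k73 k75 k195 0 10)))), (.s k128 k64 7 (.s k132 k72 9 (.s k68 k196 7 (.d k136 k140 k204 1 9)))),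
  (.s k64 k128 7 (.s k74 k133 10 (.s k134 k194 9 (.d k69 k79 k199 2 8))))] .n) (.c k33 (.q k18 [(.s
  k72 k132 9 (.s k74 k133 10 (.s k134 k194 9 (.d k73 k75 k195 0 10)))), (.s k128 k64 7 (.s k132 k72
  9 (.s k68 k196 7 (.d k136 k140 k204 1 9)))), (.s k64 k128 7 (.s k74 k133 10 (.s k134 k194 9 (.d
  k69 k79 k199 2 8))))] .n) .n))))) (.c k4 (.q k21 [(.s k5 k10 2 (.s k63 k42 6 (.s k37 k53 3 (.s k29
  k46 4 (.s k25 k17 1 (.d k13 k14 k49 0 5)))))), (.s k63 k42 6 (.s k13 k14 0 (.s k29 k46 4 (.s k45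
  k61 3 (.s k30 k60 4 (.d k31 k28 k47 0 3)))))), (.s k5 k10 2 (.s k37 k53 3 (.s k13 k14 0 (.s k1 k9
  1 (.s k41 k61 5 (.s k49 k25 5 (.d k33 k45 k17 1 3))))))), (.s k63 k42 6 (.s k29 k46 4 (.s k31 k47
  3 (.s k26 k16 2 (.s k25 k17 1 (.s k27 k24 0 (.d k51 k38 k39 6 5)))))))] (.c k63 (.l (.s k5 k10 2
  (.s k13 k14 0 (.s k1 k9 1 (.s k61 k41 5 (.s k29 k45 3 (.s k25 k17 1 (.d k37 k53 k49 3 5))))))))
  .n)) (.c k5 (.q k192 [(.s k4 k8 1 (.s k128 k64 7 (.s k132 k72 9 (.s k68 k196 7 (.d k136 k140 k204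
  1 9))))), (.s k13 k14 0 (.s k132 k72 9 (.s k133 k74 10 (.s k73 k193 9 (.d k134 k135 k195 0
  10))))), (.s k4 k8 1 (.s k64 k128 7 (.s k14 k13 0 (.s k74 k133 10 (.s k134 k194 9 (.d k69 k79 k199
  2 8))))))] .n) (.c k6 (.q k192 [(.s k4 k8 1 (.s k128 k64 7 (.s k132 k72 9 (.s k68 k196 7 (.d k136
  k140 k204 1 9))))), (.s k5 k10 2 (.s k128 k64 7 (.s k133 k74 10 (.s k69 k197 7 (.d k138 k143 k207
  2 10))))), (.s k13 k14 0 (.s k132 k72 9 (.s k133 k74 10 (.s k73 k193 9 (.d k134 k135 k195 0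
  10)))))] .n) (.c k7 (.l (.s k8 k4 1 (.s k14 k13 0 (.s k10 k5 2 (.s k6 k2 1 (.d k9 k11 k3 0 2))))))
  (.c k8 (.q k192 [(.s k10 k5 2 (.s k64 k128 7 (.s k74 k133 10 (.s k138 k202 7 (.d k69 k79 k207 2
  10))))), (.s k13 k14 0 (.s k132 k72 9 (.s k133 k74 10 (.s k73 k193 9 (.d k134 k135 k195 0 10)))))]
  (.c k74 (.q k106 [(.s k64 k128 7 (.s k63 k149 14 (.s k42 k21 6 (.s k170 k234 7 (.d k85 k127 k255 6
  14))))), (.s k72 k132 9 (.s k63 k149 14 (.s k46 k29 4 (.s k166 k226 9 (.d k89 k123 k243 4 14))))),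
  (.s k64 k128 7 (.s k72 k132 9 (.s k85 k127 6 (.s k89 k123 4 (.s k81 k93 1 (.d k243 k162 k166 12
  14))))))] .n) (.c k133 (.q k106 [(.s k128 k64 7 (.s k149 k63 14 (.s k170 k191 6 (.s k255 k85 14
  (.d k234 k213 k42 6 7))))), (.s k72 k132 9 (.s k63 k149 14 (.s k46 k29 4 (.s k166 k226 9 (.d k89
  k123 k243 4 14))))), (.s k64 k128 7 (.s k72 k132 9 (.s k85 k127 6 (.s k89 k123 4 (.s k81 k93 1 (.d
  k243 k162 k166 12 14))))))] .n) .n))) (.c k9 (.q k192 [(.s k8 k4 1 (.s k64 k128 7 (.s k72 k132 9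
  (.s k136 k200 7 (.d k68 k76 k204 1 9))))), (.s k10 k5 2 (.s k64 k128 7 (.s k74 k133 10 (.s k138
  k202 7 (.d k69 k79 k207 2 10))))), (.s k13 k14 0 (.s k132 k72 9 (.s k133 k74 10 (.s k73 k193 9 (.d
  k134 k135 k195 0 10)))))] .n) (.c k10 (.f k14 k13 0 (.q k192 [(.s k72 k132 9 (.s k74 k133 10 (.s
  k134 k194 9 (.d k73 k75 k195 0 10)))), (.s k4 k8 1 (.s k128 k64 7 (.s k132 k72 9 (.s k68 k196 7
  (.d k136 k140 k204 1 9))))), (.s k4 k8 1 (.s k64 k128 7 (.s k74 k133 10 (.s k134 k194 9 (.d k69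
  k79 k199 2 8)))))] (.c k170 (.q k250 [(.s k72 k132 9 (.s k74 k133 10 (.s k134 k194 9 (.d k73 k75
  k195 0 10)))), (.s k4 k8 1 (.s k128 k64 7 (.s k132 k72 9 (.s k68 k196 7 (.d k136 k140 k204 1
  9))))), (.s k4 k8 1 (.s k64 k128 7 (.s k74 k133 10 (.s k134 k194 9 (.d k69 k79 k199 2 8)))))] .n)
  (.c k250 (.q k170 [(.s k72 k132 9 (.s k74 k133 10 (.s k134 k194 9 (.d k73 k75 k195 0 10)))), (.s
  k4 k8 1 (.s k128 k64 7 (.s k132 k72 9 (.s k68 k196 7 (.d k136 k140 k204 1 9))))), (.s k4 k8 1 (.s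
  k64 k128 7 (.s k74 k133 10 (.s k134 k194 9 (.d k69 k79 k199 2 8)))))] .n) .n)))) (.c k11 (.l (.s
  k4 k8 1 (.s k13 k14 0 (.s k5 k10 2 (.s k9 k1 1 (.d k6 k7 k3 0 2)))))) (.c k13 (.q k192 [(.s k4 k8
  1 (.s k128 k64 7 (.s k132 k72 9 (.s k68 k196 7 (.d k136 k140 k204 1 9))))), (.s k5 k10 2 (.s k128
  k64 7 (.s k133 k74 10 (.s k69 k197 7 (.d k138 k143 k207 2 10))))), (.s k4 k8 1 (.s k5 k10 2 (.s k7
  k6 0 (.s k132 k72 9 (.s k133 k74 10 (.d k196 k68 k70 7 8))))))] .n) (.c k14 (.f k4 k8 1 (.q k192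
  [(.s k128 k64 7 (.s k132 k72 9 (.s k68 k196 7 (.d k136 k140 k204 1 9)))), (.s k5 k10 2 (.s k128
  k64 7 (.s k133 k74 10 (.s k69 k197 7 (.d k138 k143 k207 2 10))))), (.s k5 k10 2 (.s k132 k72 9 (.s
  k133 k74 10 (.s k69 k197 7 (.d k134 k135 k199 0 8)))))] (.c k166 (.q k242 [(.s k128 k64 7 (.s k132
  k72 9 (.s k68 k196 7 (.d k136 k140 k204 1 9)))), (.s k5 k10 2 (.s k128 k64 7 (.s k133 k74 10 (.s
  k69 k197 7 (.d k138 k143 k207 2 10))))), (.s k5 k10 2 (.s k132 k72 9 (.s k133 k74 10 (.s k69 k197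
  7 (.d k134 k135 k199 0 8)))))] .n) (.c k242 (.q k166 [(.s k128 k64 7 (.s k132 k72 9 (.s k68 k196 7
  (.d k136 k140 k204 1 9)))), (.s k85 k247 12 (.s k170 k255 14 (.s k243 k89 14 (.d k162 k174 k81 1
  12))))] .n) .n)))) .n))))))))))))))

def t49 : T TT 256 :=
  (.q k21 [(.s k10 k5 2 (.s k42 k63 6 (.s k26 k58 3 (.s k48 k37 6 (.d k16 k31 k32 2 3))))), (.s k5
  k10 2 (.s k42 k63 6 (.s k37 k53 3 (.s k48 k26 6 (.d k32 k47 k16 2 3)))))] (.c k5 (.q k12 [(.s k4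
  k8 1 (.s k42 k63 6 (.s k38 k55 4 (.s k34 k46 1 (.d k51 k17 k25 4 6))))), (.s k63 k42 6 (.s k14 k13
  0 (.s k46 k29 4 (.s k30 k62 3 (.s k45 k60 4 (.d k47 k44 k31 0 3)))))), (.s k4 k8 1 (.s k38 k55 4
  (.s k14 k13 0 (.s k26 k50 5 (.s k16 k31 2 (.d k48 k37 k32 6 3))))))] (.c k25 (.l (.s k63 k42 6 (.s
  k13 k14 0 (.s k29 k46 4 (.s k45 k61 3 (.s k30 k60 4 (.d k31 k28 k47 0 3))))))) .n)) (.c k10 (.q
  k12 [(.s k8 k4 1 (.s k42 k63 6 (.s k25 k59 4 (.s k51 k38 6 (.d k17 k29 k34 1 4))))), (.s k63 k42 6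
  (.s k14 k13 0 (.s k46 k29 4 (.s k30 k62 3 (.s k45 k60 4 (.d k47 k44 k31 0 3)))))), (.s k4 k8 1 (.s
  k38 k55 4 (.s k14 k13 0 (.s k26 k50 5 (.s k16 k31 2 (.d k48 k37 k32 6 3))))))] (.c k25 (.l (.s k63
  k42 6 (.s k13 k14 0 (.s k29 k46 4 (.s k45 k61 3 (.s k30 k60 4 (.d k31 k28 k47 0 3))))))) (.c k170
  (.q k250 [(.s k8 k4 1 (.s k42 k63 6 (.s k25 k59 4 (.s k51 k38 6 (.d k17 k29 k34 1 4))))), (.s k63
  k42 6 (.s k14 k13 0 (.s k46 k29 4 (.s k30 k62 3 (.s k45 k60 4 (.d k47 k44 k31 0 3)))))), (.s k4 k8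
  1 (.s k38 k55 4 (.s k14 k13 0 (.s k26 k50 5 (.s k16 k31 2 (.d k48 k37 k32 6 3))))))] (.c k25 (.l
  (.s k63 k42 6 (.s k13 k14 0 (.s k29 k46 4 (.s k45 k61 3 (.s k30 k60 4 (.d k31 k28 k47 0 3)))))))
  .n)) (.c k250 (.q k170 [(.s k8 k4 1 (.s k42 k63 6 (.s k25 k59 4 (.s k51 k38 6 (.d k17 k29 k34 1
  4))))), (.s k63 k42 6 (.s k85 k255 14 (.s k149 k213 7 (.s k192 k106 14 (.d k128 k191 k64 6 7))))),
  (.s k4 k8 1 (.s k85 k255 14 (.s k166 k247 12 (.s k243 k89 14 (.d k162 k174 k81 1 12)))))] .n)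
  .n)))) (.c k16 (.q k12 [(.s k4 k8 1 (.s k42 k63 6 (.s k38 k55 4 (.s k34 k46 1 (.d k51 k17 k25 4
  6))))), (.s k4 k8 1 (.s k5 k10 2 (.s k6 k7 0 (.s k9 k3 2 (.d k13 k14 k1 0 1))))), (.s k5 k10 2 (.s
  k63 k42 6 (.s k13 k14 0 (.s k29 k46 4 (.s k61 k45 3 (.d k1 k9 k41 1 5))))))] .n) (.c k26 (.f k10
  k5 2 (.q k12 [(.s k4 k8 1 (.s k42 k63 6 (.s k38 k55 4 (.s k34 k46 1 (.d k51 k17 k25 4 6))))), (.s
  k8 k4 1 (.s k9 k11 0 (.s k6 k3 2 (.d k14 k13 k2 0 1)))), (.s k63 k42 6 (.s k13 k14 0 (.s k29 k46 4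
  (.s k45 k61 3 (.s k30 k60 4 (.d k31 k28 k47 0 3))))))] (.c k154 (.q k218 [(.s k4 k8 1 (.s k42 k63
  6 (.s k38 k55 4 (.s k34 k46 1 (.d k51 k17 k25 4 6))))), (.s k8 k4 1 (.s k9 k11 0 (.s k6 k3 2 (.d
  k14 k13 k2 0 1)))), (.s k63 k42 6 (.s k13 k14 0 (.s k29 k46 4 (.s k45 k61 3 (.s k30 k60 4 (.d k31
  k28 k47 0 3))))))] .n) (.c k218 (.q k154 [(.s k4 k8 1 (.s k42 k63 6 (.s k38 k55 4 (.s k34 k46 1
  (.d k51 k17 k25 4 6))))), (.s k8 k4 1 (.s k9 k11 0 (.s k6 k3 2 (.d k14 k13 k2 0 1)))), (.s k63 k42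
  6 (.s k13 k14 0 (.s k29 k46 4 (.s k45 k61 3 (.s k30 k60 4 (.d k31 k28 k47 0 3))))))] .n) .n))))
  (.c k32 (.l (.s k5 k10 2 (.s k63 k42 6 (.s k37 k53 3 (.s k26 k48 6 (.d k31 k47 k16 3 2)))))) (.c
  k37 (.q k12 [(.s k4 k8 1 (.s k42 k63 6 (.s k38 k55 4 (.s k34 k46 1 (.d k51 k25 k17 6 4))))), (.s
  k4 k8 1 (.s k5 k10 2 (.s k6 k7 0 (.s k9 k3 2 (.d k13 k14 k1 0 1))))), (.s k5 k10 2 (.s k63 k42 6
  (.s k13 k14 0 (.s k29 k46 4 (.s k61 k45 3 (.d k1 k41 k9 5 1))))))] (.c k13 (.q k25 [(.s k4 k8 1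
  (.d k38 k55 k51 4 6)), (.s k63 k42 6 (.d k29 k17 k46 1 4))] .n) (.c k25 (.l (.s k13 k14 0 (.s k4
  k8 1 (.s k5 k10 2 (.s k9 k1 1 (.d k6 k7 k3 0 2)))))) .n))) (.c k42 (.q k12 [(.s k8 k4 1 (.s k10 k5
  2 (.s k9 k11 0 (.s k6 k3 2 (.d k14 k13 k2 0 1))))), (.s k4 k8 1 (.s k38 k55 4 (.s k14 k13 0 (.s
  k26 k50 5 (.s k16 k31 2 (.d k48 k37 k32 6 3)))))), (.s k4 k8 1 (.s k5 k10 2 (.s k38 k55 4 (.s k37
  k53 3 (.s k36 k39 0 (.d k48 k26 k24 6 5))))))] (.c k4 (.l (.s k5 k10 2 (.s k37 k53 3 (.s k14 k13 0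
  (.s k26 k48 6 (.s k38 k50 5 (.s k51 k25 6 (.d k39 k36 k27 0 5)))))))) (.c k8 (.q k25 [(.s k17 k29
  1 (.d k51 k34 k38 4 6)), (.s k5 k10 2 (.s k37 k53 3 (.s k14 k13 0 (.s k38 k51 6 (.d k26 k50 k48 5
  6))))), (.s k5 k10 2 (.s k13 k14 0 (.s k29 k17 1 (.s k61 k45 3 (.d k1 k9 k41 1 5)))))] .n) .n)))
  (.c k48 (.q k51 [(.s k17 k34 4 (.s k42 k63 6 (.s k25 k29 1 (.s k8 k59 4 (.d k12 k4 k38 1 6))))),
  (.s k5 k10 2 (.s k63 k42 6 (.s k37 k53 3 (.s k39 k27 5 (.s k38 k36 0 (.d k55 k59 k4 1 4)))))), (.s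
  k5 k10 2 (.s k17 k34 4 (.s k37 k53 3 (.s k39 k27 5 (.s k25 k29 1 (.d k38 k36 k12 0 6)))))), (.s
  k17 k34 4 (.s k63 k42 6 (.s k25 k29 1 (.s k38 k12 6 (.d k55 k59 k4 1 4)))))] (.c k12 (.l (.s k5
  k10 2 (.s k63 k42 6 (.s k37 k53 3 (.s k39 k27 5 (.s k55 k59 1 (.d k38 k36 k4 0 4))))))) (.c k38
  (.l (.s k10 k5 2 (.s k17 k34 4 (.s k42 k63 6 (.s k27 k39 5 (.s k25 k29 1 (.d k26 k58 k24 3
  0))))))) (.c k63 (.f k10 k5 2 (.l (.s k17 k34 4 (.s k27 k39 5 (.s k25 k29 1 (.s k12 k38 6 (.s k8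
  k4 1 (.s k11 k9 0 (.d k59 k42 k43 4 3))))))))) .n)))) (.c k53 (.l (.s k10 k5 2 (.s k42 k63 6 (.s
  k26 k58 3 (.s k48 k37 6 (.d k16 k31 k32 2 3)))))) (.c k58 (.l (.s k5 k10 2 (.s k42 k63 6 (.s k37
  k53 3 (.s k48 k26 6 (.d k32 k47 k16 2 3)))))) (.c k63 (.q k12 [(.s k8 k4 1 (.s k14 k13 0 (.s k10
  k5 2 (.s k6 k2 1 (.d k9 k11 k3 0 2))))), (.s k4 k8 1 (.s k38 k55 4 (.s k14 k13 0 (.s k26 k50 5 (.s
  k16 k31 2 (.d k48 k37 k32 6 3)))))), (.s k4 k8 1 (.s k5 k10 2 (.s k6 k7 0 (.s k9 k3 2 (.d k13 k14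
  k1 0 1))))), (.s k4 k8 1 (.s k5 k10 2 (.s k38 k55 4 (.s k37 k53 3 (.s k51 k25 6 (.d k39 k36 k27 0
  5))))))] (.c k4 (.q k51 [(.s k17 k34 4 (.d k25 k29 k38 1 6)), (.s k5 k10 2 (.s k37 k53 3 (.s k39
  k27 5 (.s k36 k38 0 (.d k48 k24 k26 5 6)))))] (.c k38 (.l (.s k5 k10 2 (.s k17 k34 4 (.s k37 k53 3
  (.s k27 k39 5 (.s k25 k29 1 (.d k26 k48 k24 6 0))))))) .n)) (.c k8 (.q k51 [(.s k17 k34 4 (.d k25
  k29 k38 1 6)), (.s k5 k10 2 (.s k37 k53 3 (.s k39 k27 5 (.s k36 k38 0 (.d k48 k24 k26 5 6)))))]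
  (.c k38 (.l (.s k5 k10 2 (.s k17 k34 4 (.s k37 k53 3 (.s k27 k39 5 (.s k25 k29 1 (.d k26 k48 k24 6
  0))))))) .n)) .n))) .n))))))))))))

def t50 : T TT 256 :=
  (.q k12 [(.s k4 k8 1 (.s k5 k10 2 (.s k6 k7 0 (.s k9 k3 2 (.d k13 k14 k1 0 1))))), (.s k8 k4 1 (.s
  k10 k5 2 (.s k9 k11 0 (.s k6 k3 2 (.d k14 k13 k2 0 1)))))] (.c k3 (.q k21 [(.s k4 k8 1 (.s k42 k63
  6 (.s k38 k55 4 (.s k51 k25 6 (.d k34 k46 k17 1 4))))), (.s k5 k10 2 (.s k42 k63 6 (.s k37 k53 3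
  (.s k32 k47 2 (.d k48 k16 k26 3 6))))), (.s k4 k8 1 (.s k5 k10 2 (.s k38 k55 4 (.s k37 k53 3 (.s
  k13 k14 0 (.d k25 k49 k51 5 6))))))] .n) (.c k4 (.q k21 [(.s k5 k10 2 (.s k42 k63 6 (.s k37 k53 3
  (.s k32 k47 2 (.d k48 k16 k26 3 6))))), (.s k63 k42 6 (.s k13 k14 0 (.s k29 k46 4 (.s k45 k61 3
  (.s k30 k60 4 (.d k31 k28 k47 0 3)))))), (.s k5 k10 2 (.s k37 k53 3 (.s k13 k14 0 (.s k25 k49 5
  (.s k17 k29 1 (.d k51 k38 k34 6 4))))))] (.c k26 (.l (.s k63 k42 6 (.s k14 k13 0 (.s k46 k29 4 (.s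
  k30 k62 3 (.s k45 k60 4 (.d k47 k44 k31 0 3))))))) .n)) (.c k5 (.q k42 [(.s k4 k8 1 (.s k21 k63 6
  (.s k38 k55 4 (.s k51 k25 6 (.d k34 k46 k17 1 4))))), (.s k63 k21 6 (.s k13 k14 0 (.s k29 k46 4
  (.s k45 k61 3 (.s k30 k60 4 (.d k31 k28 k47 0 3)))))), (.s k8 k4 1 (.s k25 k59 4 (.s k13 k14 0 (.s
  k37 k49 5 (.s k32 k47 2 (.d k48 k26 k16 6 3))))))] (.c k38 (.l (.s k63 k21 6 (.s k14 k13 0 (.s k46
  k29 4 (.s k30 k62 3 (.s k45 k60 4 (.d k47 k44 k31 0 3))))))) .n)) (.c k6 (.q k21 [(.s k4 k8 1 (.s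
  k42 k63 6 (.s k38 k55 4 (.s k51 k25 6 (.d k34 k46 k17 1 4))))), (.s k5 k10 2 (.s k42 k63 6 (.s k37
  k53 3 (.s k32 k47 2 (.d k48 k16 k26 3 6)))))] (.c k42 (.l (.s k4 k8 1 (.s k5 k10 2 (.s k38 k55 4
  (.s k37 k53 3 (.s k25 k51 6 (.d k13 k14 k49 0 5))))))) (.c k63 (.l (.s k4 k8 1 (.s k5 k10 2 (.s
  k38 k55 4 (.s k37 k53 3 (.s k51 k25 6 (.d k39 k36 k27 0 5))))))) .n))) (.c k7 (.l (.s k8 k4 1 (.s
  k14 k13 0 (.s k10 k5 2 (.s k6 k2 1 (.d k9 k11 k3 0 2)))))) (.c k8 (.q k21 [(.s k10 k5 2 (.s k42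
  k63 6 (.s k26 k58 3 (.s k48 k37 6 (.d k16 k31 k32 2 3))))), (.s k63 k42 6 (.s k13 k14 0 (.s k29
  k46 4 (.s k45 k61 3 (.s k30 k60 4 (.d k31 k28 k47 0 3)))))), (.s k5 k10 2 (.s k37 k53 3 (.s k13
  k14 0 (.s k25 k49 5 (.s k17 k29 1 (.d k51 k38 k34 6 4))))))] (.c k26 (.l (.s k63 k42 6 (.s k14 k13
  0 (.s k46 k29 4 (.s k30 k62 3 (.s k45 k60 4 (.d k47 k44 k31 0 3))))))) .n)) (.c k9 (.q k21 [(.s k8
  k4 1 (.s k42 k63 6 (.s k25 k59 4 (.s k51 k38 6 (.d k17 k29 k34 1 4))))), (.s k10 k5 2 (.s k42 k63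
  6 (.s k26 k58 3 (.s k48 k37 6 (.d k16 k31 k32 2 3))))), (.s k5 k10 2 (.s k37 k53 3 (.s k13 k14 0
  (.s k25 k49 5 (.s k17 k29 1 (.d k51 k38 k34 6 4))))))] (.c k26 (.l (.s k4 k8 1 (.s k42 k63 6 (.s
  k38 k55 4 (.s k51 k25 6 (.d k34 k46 k17 1 4)))))) .n)) (.c k10 (.q k170 [(.s k8 k4 1 (.s k85 k255
  14 (.s k89 k251 12 (.s k243 k166 14 (.d k81 k93 k162 1 12))))), (.s k255 k85 14 (.s k13 k14 0 (.s
  k93 k174 12 (.s k173 k253 11 (.s k94 k252 12 (.d k95 k92 k175 0 11)))))), (.s k4 k8 1 (.s k85 k255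
  14 (.s k166 k247 12 (.s k243 k89 14 (.d k162 k174 k81 1 12)))))] (.c k85 (.f k14 k13 0 (.q k154
  [(.s k4 k8 1 (.s k138 k186 3 (.s k69 k207 10 (.s k134 k199 8 (.s k130 k142 1 (.d k195 k65 k73 8
  10)))))), (.s k8 k4 1 (.s k89 k251 12 (.s k24 k219 8 (.s k48 k36 5 (.s k32 k16 3 (.d k101 k239
  k207 10 14)))))), (.s k138 k186 3 (.s k207 k69 10 (.s k142 k77 8 (.s k78 k206 7 (.s k141 k204 8
  (.d k143 k140 k79 0 7))))))] (.c k80 (.q k95 [(.s k8 k4 1 (.s k89 k251 12 (.s k166 k243 14 (.s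
  k255 k175 11 (.d k174 k162 k93 1 12))))), (.s k175 k255 11 (.s k138 k186 3 (.s k207 k69 10 (.s
  k143 k79 7 (.d k165 k160 k176 2 6))))), (.s k4 k8 1 (.s k138 k186 3 (.s k69 k207 10 (.s k134 k199
  8 (.s k195 k73 10 (.d k130 k142 k65 1 8))))))] .n) (.c k95 (.q k80 [(.s k8 k4 1 (.s k240 k160 11
  (.s k88 k164 13 (.s k168 k248 11 (.d k84 k92 k252 1 13))))), (.s k160 k240 11 (.s k138 k186 3 (.s
  k207 k69 10 (.s k143 k79 7 (.d k165 k175 k176 2 6))))), (.s k4 k8 1 (.s k138 k186 3 (.s k69 k207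
  10 (.s k134 k199 8 (.s k195 k73 10 (.d k130 k142 k65 1 8))))))] .n) (.c k207 (.l (.s k8 k4 1 (.s
  k89 k251 12 (.s k24 k219 8 (.s k56 k40 3 (.s k203 k105 12 (.d k138 k186 k73 3 8))))))) .n))))) (.c
  k166 (.l (.s k255 k85 14 (.s k14 k13 0 (.s k174 k93 12 (.s k94 k254 11 (.s k173 k252 12 (.d k175
  k95 k172 11 0))))))) (.c k255 (.q k154 [(.s k8 k4 1 (.s k89 k251 12 (.s k24 k219 8 (.s k56 k40 3
  (.s k203 k105 12 (.d k138 k186 k73 3 8)))))), (.s k138 k186 3 (.s k207 k69 10 (.s k142 k77 8 (.s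
  k166 k178 5 (.s k243 k89 14 (.d k162 k174 k81 1 12)))))), (.s k8 k4 1 (.s k89 k251 12 (.s k24 k219
  8 (.s k48 k36 5 (.s k32 k16 3 (.d k101 k239 k207 10 14)))))), (.s k4 k8 1 (.s k138 k186 3 (.s k69
  k207 10 (.s k134 k199 8 (.s k195 k73 10 (.d k130 k142 k65 1 8))))))] .n) .n)))) (.c k11 (.l (.s k4
  k8 1 (.s k13 k14 0 (.s k5 k10 2 (.s k9 k1 1 (.d k6 k7 k3 0 2)))))) (.c k13 (.q k21 [(.s k4 k8 1
  (.s k42 k63 6 (.s k38 k55 4 (.s k34 k46 1 (.d k51 k17 k25 4 6))))), (.s k5 k10 2 (.s k42 k63 6 (.s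
  k37 k53 3 (.s k32 k47 2 (.d k48 k16 k26 3 6))))), (.s k4 k8 1 (.s k5 k10 2 (.s k38 k55 4 (.s k37
  k53 3 (.s k36 k39 0 (.d k48 k24 k26 5 6))))))] .n) (.c k14 (.q k26 [(.s k10 k5 2 (.s k42 k58 3 (.s
  k21 k63 6 (.s k48 k37 6 (.d k16 k31 k32 2 3))))), (.s k4 k8 1 (.s k48 k37 6 (.s k32 k16 3 (.s k36
  k24 5 (.s k20 k52 3 (.d k40 k44 k60 1 5)))))), (.s k8 k4 1 (.s k10 k5 2 (.s k42 k58 3 (.s k25 k59
  4 (.s k51 k38 6 (.d k27 k24 k39 0 5))))))] (.c k166 (.q k242 [(.s k10 k5 2 (.s k42 k58 3 (.s k21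
  k63 6 (.s k48 k37 6 (.d k16 k31 k32 2 3))))), (.s k4 k8 1 (.s k48 k37 6 (.s k32 k16 3 (.s k36 k24
  5 (.s k20 k52 3 (.d k40 k44 k60 1 5)))))), (.s k8 k4 1 (.s k10 k5 2 (.s k42 k58 3 (.s k25 k59 4
  (.s k51 k38 6 (.d k27 k24 k39 0 5))))))] .n) (.c k242 (.q k166 [(.s k4 k8 1 (.s k85 k247 12 (.s
  k170 k255 14 (.s k243 k89 14 (.d k162 k174 k81 1 12))))), (.s k10 k5 2 (.s k42 k58 3 (.s k21 k63 6
  (.s k48 k37 6 (.d k16 k31 k32 2 3)))))] (.c k114 (.q k178 [(.s k48 k37 6 (.d k243 k113 k89 8 14)),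
  (.s k4 k8 1 (.s k85 k247 12 (.s k170 k255 14 (.s k243 k89 14 (.d k162 k174 k81 1 12))))), (.s k48
  k37 6 (.s k36 k24 5 (.s k101 k231 8 (.d k154 k142 k207 5 14))))] (.c k78 (.q k102 [(.s k48 k37 6
  (.d k243 k113 k89 8 14)), (.s k4 k8 1 (.s k10 k5 2 (.s k42 k58 3 (.s k38 k230 7 (.d k21 k55 k63 4
  6)))))] (.c k142 (.q k206 [(.s k48 k37 6 (.d k243 k113 k89 8 14)), (.s k4 k8 1 (.s k10 k5 2 (.s
  k42 k58 3 (.s k38 k230 7 (.d k21 k55 k63 4 6)))))] .n) (.c k206 (.l (.s k142 k154 5 (.s k243 k89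
  14 (.d k48 k37 k113 6 8)))) .n))) (.c k102 (.q k78 [(.s k48 k37 6 (.d k243 k113 k89 8 14)), (.s
  k204 k141 8 (.s k76 k140 7 (.s k77 k79 0 (.d k142 k154 k207 5 8))))] (.c k154 (.q k206 [(.s k48
  k37 6 (.d k243 k113 k89 8 14)), (.s k204 k141 8 (.s k76 k140 7 (.s k77 k79 0 (.d k207 k142 k205 8
  0))))] .n) (.c k206 (.l (.s k154 k142 5 (.s k243 k89 14 (.d k48 k37 k113 6 8)))) .n))) .n))) (.c
  k178 (.q k114 [(.s k4 k8 1 (.s k85 k247 12 (.s k170 k255 14 (.s k243 k89 14 (.d k162 k174 k81 1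
  12))))), (.s k10 k5 2 (.s k42 k58 3 (.s k21 k63 6 (.s k48 k37 6 (.d k16 k31 k32 2 3)))))] .n)
  .n))) .n))) .n))))))))))))

def t51 : T TT 256 :=
  (.q k12 [(.s k8 k4 1 (.s k14 k13 0 (.s k10 k5 2 (.s k6 k2 1 (.d k9 k11 k3 0 2)))))] (.c k1 (.l (.s
  k8 k4 1 (.s k10 k5 2 (.s k9 k11 0 (.s k6 k3 2 (.d k14 k13 k2 0 1)))))) (.c k2 (.l (.s k4 k8 1 (.s
  k5 k10 2 (.s k6 k7 0 (.s k9 k3 2 (.d k13 k14 k1 0 1)))))) (.c k3 (.f k14 k13 0 (.f k4 k8 1 (.q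
  k192 [(.s k72 k132 9 (.s k74 k133 10 (.s k134 k194 9 (.d k73 k75 k195 0 10)))), (.s k128 k64 7 (.s
  k132 k72 9 (.s k68 k196 7 (.d k136 k140 k204 1 9)))), (.s k64 k128 7 (.s k74 k133 10 (.s k134 k194
  9 (.d k69 k79 k199 2 8))))] (.c k19 (.q k35 [(.s k72 k132 9 (.s k74 k133 10 (.s k134 k194 9 (.d
  k73 k75 k195 0 10)))), (.s k128 k64 7 (.s k132 k72 9 (.s k68 k196 7 (.d k136 k140 k204 1 9)))),
  (.s k64 k128 7 (.s k74 k133 10 (.s k134 k194 9 (.d k69 k79 k199 2 8))))] .n) (.c k35 (.q k19 [(.s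
  k72 k132 9 (.s k74 k133 10 (.s k134 k194 9 (.d k73 k75 k195 0 10)))), (.s k128 k64 7 (.s k132 k72
  9 (.s k68 k196 7 (.d k136 k140 k204 1 9)))), (.s k64 k128 7 (.s k74 k133 10 (.s k134 k194 9 (.d
  k69 k79 k199 2 8))))] .n) .n))))) (.c k4 (.q k21 [(.s k5 k10 2 (.s k63 k42 6 (.s k37 k53 3 (.s k26
  k48 6 (.d k31 k16 k47 2 3))))), (.s k63 k42 6 (.s k13 k14 0 (.s k29 k46 4 (.s k45 k61 3 (.s k30
  k60 4 (.d k31 k28 k47 0 3)))))), (.s k5 k10 2 (.s k37 k53 3 (.s k13 k14 0 (.s k1 k9 1 (.s k41 k61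
  5 (.s k49 k25 5 (.d k33 k45 k17 1 3)))))))] .n) (.c k5 (.q k192 [(.s k4 k8 1 (.s k128 k64 7 (.s
  k132 k72 9 (.s k68 k196 7 (.d k136 k140 k204 1 9))))), (.s k13 k14 0 (.s k132 k72 9 (.s k133 k74
  10 (.s k73 k193 9 (.d k134 k135 k195 0 10))))), (.s k4 k8 1 (.s k64 k128 7 (.s k14 k13 0 (.s k74
  k133 10 (.s k134 k194 9 (.d k69 k79 k199 2 8))))))] .n) (.c k6 (.q k192 [(.s k4 k8 1 (.s k128 k64
  7 (.s k132 k72 9 (.s k68 k196 7 (.d k136 k140 k204 1 9))))), (.s k5 k10 2 (.s k128 k64 7 (.s k133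
  k74 10 (.s k69 k197 7 (.d k138 k143 k207 2 10))))), (.s k13 k14 0 (.s k132 k72 9 (.s k133 k74 10
  (.s k73 k193 9 (.d k134 k135 k195 0 10)))))] .n) (.c k7 (.l (.s k8 k4 1 (.s k14 k13 0 (.s k10 k5 2
  (.s k6 k2 1 (.d k9 k11 k3 0 2)))))) (.c k8 (.q k21 [(.s k10 k5 2 (.s k42 k63 6 (.s k26 k58 3 (.s
  k48 k37 6 (.d k16 k31 k32 2 3))))), (.s k63 k42 6 (.s k13 k14 0 (.s k29 k46 4 (.s k45 k61 3 (.s
  k30 k60 4 (.d k31 k28 k47 0 3)))))), (.s k5 k10 2 (.s k37 k53 3 (.s k13 k14 0 (.s k25 k49 5 (.s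
  k29 k17 1 (.s k61 k45 3 (.d k1 k9 k41 1 5)))))))] .n) (.c k9 (.q k21 [(.s k10 k5 2 (.s k42 k63 6
  (.s k26 k58 3 (.s k48 k37 6 (.d k16 k31 k32 2 3))))), (.s k63 k42 6 (.s k13 k14 0 (.s k29 k46 4
  (.s k45 k61 3 (.s k30 k60 4 (.d k31 k28 k47 0 3)))))), (.s k5 k10 2 (.s k37 k53 3 (.s k48 k26 6
  (.s k36 k24 5 (.s k38 k39 0 (.d k4 k8 k55 1 4))))))] (.c k42 (.l (.s k4 k8 1 (.s k38 k55 4 (.s k14
  k13 0 (.s k26 k50 5 (.s k48 k37 6 (.d k16 k32 k31 3 2))))))) .n)) (.c k10 (.f k14 k13 0 (.q k192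
  [(.s k72 k132 9 (.s k74 k133 10 (.s k134 k194 9 (.d k73 k75 k195 0 10)))), (.s k4 k8 1 (.s k128
  k64 7 (.s k132 k72 9 (.s k68 k196 7 (.d k136 k140 k204 1 9))))), (.s k4 k8 1 (.s k64 k128 7 (.s
  k74 k133 10 (.s k134 k194 9 (.d k69 k79 k199 2 8)))))] (.c k170 (.q k250 [(.s k72 k132 9 (.s k74
  k133 10 (.s k134 k194 9 (.d k73 k75 k195 0 10)))), (.s k4 k8 1 (.s k128 k64 7 (.s k132 k72 9 (.s
  k68 k196 7 (.d k136 k140 k204 1 9))))), (.s k4 k8 1 (.s k64 k128 7 (.s k74 k133 10 (.s k134 k194 9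
  (.d k69 k79 k199 2 8)))))] .n) (.c k250 (.q k170 [(.s k72 k132 9 (.s k74 k133 10 (.s k134 k194 9
  (.d k73 k75 k195 0 10)))), (.s k4 k8 1 (.s k128 k64 7 (.s k132 k72 9 (.s k68 k196 7 (.d k136 k140
  k204 1 9))))), (.s k4 k8 1 (.s k64 k128 7 (.s k74 k133 10 (.s k134 k194 9 (.d k69 k79 k199 2
  8)))))] .n) .n)))) (.c k11 (.l (.s k4 k8 1 (.s k13 k14 0 (.s k5 k10 2 (.s k9 k1 1 (.d k6 k7 k3 0
  2)))))) (.c k13 (.q k192 [(.s k4 k8 1 (.s k128 k64 7 (.s k132 k72 9 (.s k68 k196 7 (.d k136 k140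
  k204 1 9))))), (.s k5 k10 2 (.s k128 k64 7 (.s k133 k74 10 (.s k69 k197 7 (.d k138 k143 k207 2
  10))))), (.s k4 k8 1 (.s k5 k10 2 (.s k7 k6 0 (.s k132 k72 9 (.s k133 k74 10 (.d k196 k68 k70 7
  8))))))] .n) (.c k14 (.f k4 k8 1 (.q k192 [(.s k128 k64 7 (.s k132 k72 9 (.s k68 k196 7 (.d k136
  k140 k204 1 9)))), (.s k5 k10 2 (.s k128 k64 7 (.s k133 k74 10 (.s k69 k197 7 (.d k138 k143 k207 2
  10))))), (.s k5 k10 2 (.s k132 k72 9 (.s k133 k74 10 (.s k69 k197 7 (.d k134 k135 k199 0 8)))))]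
  (.c k166 (.q k242 [(.s k128 k64 7 (.s k132 k72 9 (.s k68 k196 7 (.d k136 k140 k204 1 9)))), (.s k5
  k10 2 (.s k128 k64 7 (.s k133 k74 10 (.s k69 k197 7 (.d k138 k143 k207 2 10))))), (.s k5 k10 2 (.s
  k132 k72 9 (.s k133 k74 10 (.s k69 k197 7 (.d k134 k135 k199 0 8)))))] .n) (.c k242 (.q k166 [(.s
  k128 k64 7 (.s k132 k72 9 (.s k68 k196 7 (.d k136 k140 k204 1 9)))), (.s k85 k247 12 (.s k170 k255
  14 (.s k243 k89 14 (.d k162 k174 k81 1 12))))] .n) .n)))) .n))))))))))))))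

def t53 : T TT 256 :=
  (.q k12 [(.s k4 k8 1 (.s k5 k10 2 (.s k6 k7 0 (.s k9 k3 2 (.d k13 k14 k1 0 1))))), (.s k8 k4 1 (.s
  k10 k5 2 (.s k9 k11 0 (.s k6 k3 2 (.d k14 k13 k2 0 1)))))] (.c k3 (.q k192 [(.s k4 k8 1 (.s k128
  k64 7 (.s k132 k72 9 (.s k68 k196 7 (.d k136 k140 k204 1 9))))), (.s k5 k10 2 (.s k128 k64 7 (.s
  k133 k74 10 (.s k69 k197 7 (.d k138 k143 k207 2 10))))), (.s k13 k14 0 (.s k132 k72 9 (.s k133 k74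
  10 (.s k73 k193 9 (.d k134 k135 k195 0 10)))))] .n) (.c k4 (.q k26 [(.s k10 k5 2 (.s k42 k58 3 (.s
  k21 k63 6 (.s k48 k37 6 (.d k16 k31 k32 2 3))))), (.s k13 k14 0 (.s k37 k48 6 (.s k25 k49 5 (.s
  k27 k24 0 (.d k51 k39 k38 5 6))))), (.s k10 k5 2 (.s k14 k13 0 (.s k38 k50 5 (.s k51 k25 6 (.s k34
  k17 4 (.d k42 k46 k58 1 3))))))] (.c k37 (.q k21 [(.s k63 k42 6 (.d k31 k47 k16 3 2)), (.s k5 k10
  2 (.s k13 k14 0 (.s k1 k9 1 (.s k41 k61 5 (.s k11 k56 4 (.d k3 k2 k7 0 1))))))] .n) (.c k58 (.l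
  (.s k14 k13 0 (.s k38 k50 5 (.s k25 k51 6 (.s k48 k37 6 (.d k24 k27 k36 0 5)))))) .n))) (.c k5 (.q
  k21 [(.s k4 k8 1 (.s k63 k42 6 (.s k29 k46 4 (.s k25 k17 1 (.d k38 k55 k51 4 6))))), (.s k4 k8 1
  (.s k38 k55 4 (.s k14 k13 0 (.s k26 k50 5 (.s k16 k31 2 (.d k48 k32 k37 3 6)))))), (.s k63 k42 6
  (.s k14 k13 0 (.s k46 k29 4 (.s k30 k62 3 (.s k45 k60 4 (.d k47 k44 k31 0 3))))))] .n) (.c k6 (.q
  k21 [(.s k10 k5 2 (.s k42 k63 6 (.s k26 k58 3 (.s k48 k37 6 (.d k16 k31 k32 2 3))))), (.s k4 k8 1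
  (.s k63 k42 6 (.s k38 k55 4 (.s k25 k51 6 (.d k29 k17 k46 1 4))))), (.s k4 k8 1 (.s k38 k55 4 (.s
  k14 k13 0 (.s k26 k50 5 (.s k48 k37 6 (.d k16 k31 k32 2 3))))))] (.c k4 (.l (.s k63 k42 6 (.s k13
  k14 0 (.s k29 k46 4 (.s k45 k61 3 (.s k30 k60 4 (.d k31 k28 k47 0 3))))))) .n)) (.c k7 (.l (.s k8
  k4 1 (.s k14 k13 0 (.s k10 k5 2 (.s k6 k2 1 (.d k9 k11 k3 0 2)))))) (.c k8 (.q k26 [(.s k10 k5 2
  (.s k42 k58 3 (.s k21 k63 6 (.s k48 k37 6 (.d k16 k31 k32 2 3))))), (.s k13 k14 0 (.s k37 k48 6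
  (.s k25 k49 5 (.s k51 k38 6 (.d k27 k24 k39 0 5))))), (.s k10 k5 2 (.s k14 k13 0 (.s k38 k50 5 (.s
  k51 k25 6 (.s k34 k17 4 (.d k42 k46 k58 1 3))))))] (.c k37 (.q k21 [(.s k10 k5 2 (.d k42 k58 k63 3
  6)), (.s k14 k13 0 (.s k38 k50 5 (.s k25 k51 6 (.s k16 k31 2 (.s k24 k27 0 (.d k48 k32 k36 3
  5))))))] .n) (.c k58 (.l (.s k14 k13 0 (.s k38 k50 5 (.s k25 k51 6 (.s k48 k37 6 (.d k24 k27 k36 0
  5)))))) .n))) (.c k9 (.q k21 [(.s k10 k5 2 (.s k42 k63 6 (.s k26 k58 3 (.s k48 k37 6 (.d k16 k31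
  k32 2 3))))), (.s k4 k8 1 (.s k63 k42 6 (.s k38 k55 4 (.s k25 k51 6 (.d k29 k17 k46 1 4))))), (.s
  k4 k8 1 (.s k38 k55 4 (.s k14 k13 0 (.s k26 k50 5 (.s k48 k37 6 (.d k16 k31 k32 2 3))))))] (.c k10
  (.l (.s k8 k4 1 (.s k42 k63 6 (.s k25 k59 4 (.s k51 k38 6 (.d k17 k29 k34 1 4)))))) .n)) (.c k10
  (.f k14 k13 0 (.q k192 [(.s k72 k132 9 (.s k74 k133 10 (.s k134 k194 9 (.d k73 k75 k195 0 10)))),
  (.s k4 k8 1 (.s k128 k64 7 (.s k132 k72 9 (.s k68 k196 7 (.d k136 k140 k204 1 9))))), (.s k4 k8 1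
  (.s k64 k128 7 (.s k74 k133 10 (.s k134 k194 9 (.d k69 k79 k199 2 8)))))] (.c k170 (.q k250 [(.s
  k72 k132 9 (.s k74 k133 10 (.s k134 k194 9 (.d k73 k75 k195 0 10)))), (.s k4 k8 1 (.s k128 k64 7
  (.s k132 k72 9 (.s k68 k196 7 (.d k136 k140 k204 1 9))))), (.s k4 k8 1 (.s k64 k128 7 (.s k74 k133
  10 (.s k134 k194 9 (.d k69 k79 k199 2 8)))))] .n) (.c k250 (.q k170 [(.s k72 k132 9 (.s k74 k133
  10 (.s k134 k194 9 (.d k73 k75 k195 0 10)))), (.s k4 k8 1 (.s k128 k64 7 (.s k132 k72 9 (.s k68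
  k196 7 (.d k136 k140 k204 1 9))))), (.s k4 k8 1 (.s k64 k128 7 (.s k74 k133 10 (.s k134 k194 9 (.d
  k69 k79 k199 2 8)))))] .n) .n)))) (.c k11 (.l (.s k4 k8 1 (.s k13 k14 0 (.s k5 k10 2 (.s k9 k1 1
  (.d k6 k7 k3 0 2)))))) (.c k13 (.q k192 [(.s k4 k8 1 (.s k128 k64 7 (.s k132 k72 9 (.s k68 k196 7
  (.d k136 k140 k204 1 9))))), (.s k5 k10 2 (.s k128 k64 7 (.s k133 k74 10 (.s k69 k197 7 (.d k138
  k143 k207 2 10))))), (.s k4 k8 1 (.s k5 k10 2 (.s k7 k6 0 (.s k132 k72 9 (.s k133 k74 10 (.d k196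
  k68 k70 7 8))))))] .n) (.c k14 (.f k4 k8 1 (.q k192 [(.s k128 k64 7 (.s k132 k72 9 (.s k68 k196 7
  (.d k136 k140 k204 1 9)))), (.s k5 k10 2 (.s k128 k64 7 (.s k133 k74 10 (.s k69 k197 7 (.d k138
  k143 k207 2 10))))), (.s k5 k10 2 (.s k132 k72 9 (.s k133 k74 10 (.s k69 k197 7 (.d k134 k135 k199
  0 8)))))] (.c k166 (.q k242 [(.s k128 k64 7 (.s k132 k72 9 (.s k68 k196 7 (.d k136 k140 k204 1
  9)))), (.s k5 k10 2 (.s k128 k64 7 (.s k133 k74 10 (.s k69 k197 7 (.d k138 k143 k207 2 10))))),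
  (.s k5 k10 2 (.s k132 k72 9 (.s k133 k74 10 (.s k69 k197 7 (.d k134 k135 k199 0 8)))))] .n) (.c
  k242 (.q k166 [(.s k128 k64 7 (.s k132 k72 9 (.s k68 k196 7 (.d k136 k140 k204 1 9)))), (.s k85
  k247 12 (.s k170 k255 14 (.s k243 k89 14 (.d k162 k174 k81 1 12))))] .n) .n)))) .n))))))))))))

def t54 : T TT 256 :=
  (.q k21 [(.s k10 k5 2 (.s k42 k63 6 (.s k26 k58 3 (.s k48 k37 6 (.d k16 k31 k32 2 3))))), (.s k5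
  k10 2 (.s k42 k63 6 (.s k37 k53 3 (.s k48 k26 6 (.d k32 k47 k16 2 3)))))] (.c k5 (.q k12 [(.s k4
  k8 1 (.s k63 k42 6 (.s k29 k46 4 (.s k25 k17 1 (.d k38 k55 k51 4 6))))), (.s k4 k8 1 (.s k38 k55 4
  (.s k14 k13 0 (.s k26 k50 5 (.s k16 k31 2 (.d k48 k32 k37 3 6)))))), (.s k63 k42 6 (.s k14 k13 0
  (.s k46 k29 4 (.s k30 k62 3 (.s k45 k60 4 (.d k47 k44 k31 0 3))))))] .n) (.c k10 (.q k12 [(.s k8
  k4 1 (.s k42 k63 6 (.s k25 k59 4 (.s k51 k38 6 (.d k17 k29 k34 1 4))))), (.s k4 k8 1 (.s k38 k55 4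
  (.s k14 k13 0 (.s k26 k50 5 (.s k16 k31 2 (.d k48 k32 k37 3 6)))))), (.s k63 k42 6 (.s k14 k13 0
  (.s k46 k29 4 (.s k30 k62 3 (.s k45 k60 4 (.d k47 k44 k31 0 3))))))] (.c k170 (.q k250 [(.s k8 k4
  1 (.s k42 k63 6 (.s k25 k59 4 (.s k51 k38 6 (.d k17 k29 k34 1 4))))), (.s k4 k8 1 (.s k38 k55 4
  (.s k14 k13 0 (.s k26 k50 5 (.s k16 k31 2 (.d k48 k32 k37 3 6)))))), (.s k63 k42 6 (.s k14 k13 0
  (.s k46 k29 4 (.s k30 k62 3 (.s k45 k60 4 (.d k47 k44 k31 0 3))))))] .n) (.c k250 (.q k170 [(.s k8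
  k4 1 (.s k42 k63 6 (.s k25 k59 4 (.s k51 k38 6 (.d k17 k29 k34 1 4))))), (.s k63 k42 6 (.s k85
  k255 14 (.s k149 k213 7 (.s k192 k106 14 (.d k128 k191 k64 6 7))))), (.s k4 k8 1 (.s k85 k255 14
  (.s k166 k247 12 (.s k243 k89 14 (.d k162 k174 k81 1 12)))))] .n) .n))) (.c k16 (.q k12 [(.s k4 k8
  1 (.s k5 k10 2 (.s k6 k7 0 (.s k9 k3 2 (.d k13 k14 k1 0 1))))), (.s k4 k8 1 (.s k42 k63 6 (.s k38
  k55 4 (.s k51 k25 6 (.d k34 k46 k17 1 4))))), (.s k5 k10 2 (.s k63 k42 6 (.s k37 k53 3 (.s k13 k14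
  0 (.s k29 k46 4 (.d k25 k17 k49 1 5))))))] .n) (.c k26 (.f k10 k5 2 (.q k12 [(.s k14 k13 0 (.s k8
  k4 1 (.s k6 k2 1 (.d k9 k11 k3 0 2)))), (.s k4 k8 1 (.s k42 k63 6 (.s k38 k55 4 (.s k51 k25 6 (.d
  k34 k46 k17 1 4))))), (.s k63 k42 6 (.s k13 k14 0 (.s k29 k46 4 (.s k45 k61 3 (.s k30 k60 4 (.d
  k31 k28 k47 0 3))))))] (.c k154 (.q k218 [(.s k14 k13 0 (.s k8 k4 1 (.s k6 k2 1 (.d k9 k11 k3 0
  2)))), (.s k4 k8 1 (.s k42 k63 6 (.s k38 k55 4 (.s k51 k25 6 (.d k34 k46 k17 1 4))))), (.s k63 k42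
  6 (.s k13 k14 0 (.s k29 k46 4 (.s k45 k61 3 (.s k30 k60 4 (.d k31 k28 k47 0 3))))))] .n) (.c k218
  (.q k154 [(.s k14 k13 0 (.s k8 k4 1 (.s k6 k2 1 (.d k9 k11 k3 0 2)))), (.s k4 k8 1 (.s k42 k63 6
  (.s k38 k55 4 (.s k51 k25 6 (.d k34 k46 k17 1 4))))), (.s k63 k42 6 (.s k13 k14 0 (.s k29 k46 4
  (.s k45 k61 3 (.s k30 k60 4 (.d k31 k28 k47 0 3))))))] .n) .n)))) (.c k32 (.l (.s k5 k10 2 (.s k63
  k42 6 (.s k37 k53 3 (.s k26 k48 6 (.d k31 k47 k16 3 2)))))) (.c k37 (.q k12 [(.s k4 k8 1 (.s k42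
  k63 6 (.s k38 k55 4 (.s k34 k46 1 (.d k51 k17 k25 4 6))))), (.s k4 k8 1 (.s k5 k10 2 (.s k13 k14 0
  (.s k9 k1 1 (.d k6 k7 k3 0 2))))), (.s k5 k10 2 (.s k63 k42 6 (.s k13 k14 0 (.s k29 k46 4 (.s k61
  k45 3 (.d k1 k41 k9 5 1))))))] .n) (.c k42 (.q k12 [(.s k8 k4 1 (.s k10 k5 2 (.s k9 k11 0 (.s k6
  k3 2 (.d k14 k13 k2 0 1))))), (.s k4 k8 1 (.s k38 k55 4 (.s k14 k13 0 (.s k26 k50 5 (.s k48 k37 6
  (.d k16 k32 k31 3 2)))))), (.s k5 k10 2 (.s k37 k53 3 (.s k13 k14 0 (.s k25 k49 5 (.s k51 k38 6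
  (.d k17 k34 k29 4 1))))))] (.c k13 (.l (.s k4 k8 1 (.s k5 k10 2 (.s k7 k6 0 (.s k38 k55 4 (.s k37
  k53 3 (.s k52 k22 4 (.d k36 k39 k20 0 3)))))))) (.c k14 (.q k166 [(.s k8 k4 1 (.s k89 k243 14 (.s
  k170 k251 12 (.s k255 k85 14 (.d k174 k162 k93 1 12))))), (.s k4 k8 1 (.s k38 k55 4 (.s k89 k243
  14 (.s k102 k230 7 (.s k76 k115 6 (.s k204 k140 7 (.d k51 k25 k153 6 14))))))), (.s k5 k10 2 (.s
  k243 k89 14 (.s k162 k81 12 (.s k170 k174 1 (.s k85 k255 14 (.s k165 k245 11 (.d k167 k91 k164 13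
  0))))))), (.s k4 k8 1 (.s k55 k38 4 (.s k85 k247 12 (.s k149 k213 7 (.s k196 k102 12 (.d k132 k183
  k68 4 7))))))] .n) .n))) (.c k48 (.q k12 [(.s k4 k8 1 (.s k42 k63 6 (.s k38 k55 4 (.s k51 k25 6
  (.d k34 k46 k17 1 4))))), (.s k4 k8 1 (.s k5 k10 2 (.s k6 k7 0 (.s k9 k3 2 (.d k13 k14 k1 0
  1))))), (.s k5 k10 2 (.s k63 k42 6 (.s k37 k53 3 (.s k13 k14 0 (.s k29 k46 4 (.d k25 k17 k49 1
  5))))))] .n) (.c k53 (.l (.s k10 k5 2 (.s k42 k63 6 (.s k26 k58 3 (.s k48 k37 6 (.d k16 k31 k32 2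
  3)))))) (.c k58 (.l (.s k5 k10 2 (.s k42 k63 6 (.s k37 k53 3 (.s k48 k26 6 (.d k32 k47 k16 2
  3)))))) (.c k63 (.q k12 [(.s k8 k4 1 (.s k14 k13 0 (.s k10 k5 2 (.s k6 k2 1 (.d k9 k11 k3 0
  2))))), (.s k4 k8 1 (.s k38 k55 4 (.s k14 k13 0 (.s k26 k50 5 (.s k48 k37 6 (.d k16 k31 k32 2
  3)))))), (.s k5 k10 2 (.s k37 k53 3 (.s k13 k14 0 (.s k25 k49 5 (.s k51 k38 6 (.d k17 k29 k34 1
  4)))))), (.s k4 k8 1 (.s k5 k10 2 (.s k38 k55 4 (.s k51 k25 6 (.s k39 k27 5 (.d k37 k53 k36 3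
  0))))))] .n) .n))))))))))))

def t55 : T TT 256 :=
  (.q k12 [(.s k8 k4 1 (.s k14 k13 0 (.s k10 k5 2 (.s k6 k2 1 (.d k9 k11 k3 0 2))))), (.s k4 k8 1
  (.s k5 k10 2 (.s k6 k7 0 (.s k9 k3 2 (.d k13 k14 k1 0 1)))))] (.c k1 (.l (.s k8 k4 1 (.s k10 k5 2
  (.s k9 k11 0 (.s k6 k3 2 (.d k14 k13 k2 0 1)))))) (.c k3 (.q k192 [(.s k4 k8 1 (.s k128 k64 7 (.s
  k132 k72 9 (.s k136 k140 1 (.d k68 k196 k204 7 9))))), (.s k5 k10 2 (.s k128 k64 7 (.s k133 k74 10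
  (.s k69 k197 7 (.d k138 k143 k207 2 10))))), (.s k13 k14 0 (.s k132 k72 9 (.s k133 k74 10 (.s k73
  k193 9 (.d k134 k135 k195 0 10)))))] .n) (.c k4 (.q k21 [(.s k5 k10 2 (.s k63 k42 6 (.s k31 k47 3
  (.s k26 k16 2 (.d k37 k53 k48 3 6))))), (.s k63 k42 6 (.s k13 k14 0 (.s k29 k46 4 (.s k45 k61 3
  (.s k30 k60 4 (.d k31 k28 k47 0 3)))))), (.s k5 k10 2 (.s k37 k53 3 (.s k13 k14 0 (.s k25 k49 5
  (.s k17 k29 1 (.d k51 k34 k38 4 6))))))] .n) (.c k5 (.q k192 [(.s k4 k8 1 (.s k128 k64 7 (.s k132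
  k72 9 (.s k136 k140 1 (.d k68 k196 k204 7 9))))), (.s k13 k14 0 (.s k132 k72 9 (.s k133 k74 10 (.s
  k73 k193 9 (.d k134 k135 k195 0 10))))), (.s k4 k8 1 (.s k64 k128 7 (.s k14 k13 0 (.s k74 k133 10
  (.s k134 k194 9 (.d k69 k79 k199 2 8))))))] .n) (.c k6 (.q k192 [(.s k4 k8 1 (.s k128 k64 7 (.s
  k132 k72 9 (.s k136 k140 1 (.d k68 k196 k204 7 9))))), (.s k5 k10 2 (.s k128 k64 7 (.s k133 k74 10
  (.s k69 k197 7 (.d k138 k143 k207 2 10))))), (.s k13 k14 0 (.s k132 k72 9 (.s k133 k74 10 (.s k73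
  k193 9 (.d k134 k135 k195 0 10)))))] .n) (.c k7 (.l (.s k8 k4 1 (.s k14 k13 0 (.s k10 k5 2 (.s k6
  k2 1 (.d k9 k11 k3 0 2)))))) (.c k8 (.q k21 [(.s k10 k5 2 (.s k42 k63 6 (.s k26 k58 3 (.s k48 k37
  6 (.d k16 k31 k32 2 3))))), (.s k63 k42 6 (.s k13 k14 0 (.s k29 k46 4 (.s k45 k61 3 (.s k30 k60 4
  (.d k31 k28 k47 0 3)))))), (.s k5 k10 2 (.s k37 k53 3 (.s k13 k14 0 (.s k25 k49 5 (.s k17 k29 1
  (.d k51 k34 k38 4 6))))))] .n) (.c k9 (.q k21 [(.s k8 k4 1 (.s k42 k63 6 (.s k25 k59 4 (.s k51 k38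
  6 (.d k17 k29 k34 1 4))))), (.s k5 k10 2 (.s k63 k42 6 (.s k37 k53 3 (.s k26 k48 6 (.d k31 k16 k47
  2 3))))), (.s k5 k10 2 (.s k37 k53 3 (.s k13 k14 0 (.s k25 k49 5 (.s k51 k38 6 (.d k17 k29 k34 1
  4))))))] (.c k8 (.l (.s k10 k5 2 (.s k42 k63 6 (.s k26 k58 3 (.s k48 k37 6 (.d k16 k31 k32 2
  3)))))) .n)) (.c k10 (.f k14 k13 0 (.q k192 [(.s k72 k132 9 (.s k74 k133 10 (.s k134 k194 9 (.d
  k73 k75 k195 0 10)))), (.s k4 k8 1 (.s k128 k64 7 (.s k132 k72 9 (.s k68 k196 7 (.d k136 k140 k204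
  1 9))))), (.s k4 k8 1 (.s k64 k128 7 (.s k74 k133 10 (.s k134 k194 9 (.d k69 k79 k199 2 8)))))]
  (.c k170 (.q k250 [(.s k72 k132 9 (.s k74 k133 10 (.s k134 k194 9 (.d k73 k75 k195 0 10)))), (.s
  k4 k8 1 (.s k128 k64 7 (.s k132 k72 9 (.s k68 k196 7 (.d k136 k140 k204 1 9))))), (.s k4 k8 1 (.s
  k64 k128 7 (.s k74 k133 10 (.s k134 k194 9 (.d k69 k79 k199 2 8)))))] .n) (.c k250 (.q k170 [(.s
  k72 k132 9 (.s k74 k133 10 (.s k134 k194 9 (.d k73 k75 k195 0 10)))), (.s k4 k8 1 (.s k128 k64 7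
  (.s k132 k72 9 (.s k68 k196 7 (.d k136 k140 k204 1 9))))), (.s k4 k8 1 (.s k64 k128 7 (.s k74 k133
  10 (.s k134 k194 9 (.d k69 k79 k199 2 8)))))] .n) .n)))) (.c k11 (.l (.s k4 k8 1 (.s k13 k14 0 (.s
  k5 k10 2 (.s k9 k1 1 (.d k6 k7 k3 0 2)))))) (.c k13 (.q k21 [(.s k8 k4 1 (.s k42 k63 6 (.s k25 k59
  4 (.s k51 k38 6 (.d k17 k29 k34 1 4))))), (.s k5 k10 2 (.s k63 k42 6 (.s k37 k53 3 (.s k26 k48 6
  (.d k31 k16 k47 2 3))))), (.s k4 k8 1 (.s k5 k10 2 (.s k7 k6 0 (.s k37 k53 3 (.s k52 k22 4 (.s k36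
  k20 3 (.d k48 k24 k26 5 6)))))))] .n) (.c k14 (.f k4 k8 1 (.q k192 [(.s k128 k64 7 (.s k132 k72 9
  (.s k136 k140 1 (.d k68 k196 k204 7 9)))), (.s k5 k10 2 (.s k128 k64 7 (.s k133 k74 10 (.s k69
  k197 7 (.d k138 k143 k207 2 10))))), (.s k5 k10 2 (.s k132 k72 9 (.s k133 k74 10 (.s k69 k197 7
  (.d k134 k135 k199 0 8)))))] (.c k166 (.q k242 [(.s k128 k64 7 (.s k132 k72 9 (.s k68 k196 7 (.d
  k136 k140 k204 1 9)))), (.s k5 k10 2 (.s k128 k64 7 (.s k133 k74 10 (.s k69 k197 7 (.d k138 k143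
  k207 2 10))))), (.s k5 k10 2 (.s k132 k72 9 (.s k133 k74 10 (.s k69 k197 7 (.d k134 k135 k199 0
  8)))))] .n) (.c k242 (.q k166 [(.s k128 k64 7 (.s k132 k72 9 (.s k136 k140 1 (.d k68 k196 k204 7
  9)))), (.s k85 k247 12 (.s k170 k255 14 (.s k243 k89 14 (.d k162 k174 k81 1 12))))] .n) .n))))
  .n)))))))))))))

def t58 : T TT 256 :=
  (.q k12 [(.s k8 k4 1 (.s k14 k13 0 (.s k10 k5 2 (.s k6 k2 1 (.d k9 k11 k3 0 2)))))] (.c k1 (.l (.s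
  k8 k4 1 (.s k10 k5 2 (.s k9 k11 0 (.s k6 k3 2 (.d k14 k13 k2 0 1)))))) (.c k2 (.l (.s k4 k8 1 (.s
  k5 k10 2 (.s k6 k7 0 (.s k9 k3 2 (.d k13 k14 k1 0 1)))))) (.c k3 (.q k48 [(.s k4 k8 1 (.s k32 k16
  3 (.s k36 k24 5 (.s k20 k52 3 (.d k40 k44 k60 1 5))))), (.s k5 k10 2 (.s k32 k16 3 (.s k37 k26 6
  (.s k42 k47 2 (.d k21 k53 k63 3 6))))), (.s k13 k14 0 (.s k36 k24 5 (.s k37 k26 6 (.s k25 k49 5
  (.d k38 k39 k51 0 6)))))] .n) (.c k4 (.f k10 k5 2 (.q k74 [(.s k138 k202 7 (.s k69 k207 10 (.s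
  k192 k133 10 (.d k64 k79 k128 2 7)))), (.s k13 k14 0 (.s k133 k192 10 (.s k73 k193 9 (.s k195 k134
  10 (.d k75 k72 k135 0 9))))), (.s k138 k202 7 (.s k14 k13 0 (.s k134 k194 9 (.s k130 k142 1 (.d
  k195 k65 k73 8 10)))))] (.c k6 (.q k7 [(.s k138 k202 7 (.s k69 k207 10 (.s k192 k133 10 (.d k64
  k79 k128 2 7)))), (.s k3 k11 1 (.s k133 k192 10 (.s k70 k196 8 (.s k204 k137 10 (.d k78 k66 k141 1
  8))))), (.s k138 k202 7 (.s k14 k13 0 (.s k134 k194 9 (.s k130 k142 1 (.d k195 k65 k73 8 10)))))]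
  .n) (.c k7 (.q k6 [(.d k14 k13 k2 0 1), (.s k138 k202 7 (.s k69 k207 10 (.s k192 k133 10 (.d k64
  k79 k128 2 7))))] .n) .n)))) (.c k5 (.q k48 [(.s k4 k8 1 (.s k32 k16 3 (.s k36 k24 5 (.s k20 k52 3
  (.d k40 k44 k60 1 5))))), (.s k13 k14 0 (.s k36 k24 5 (.s k37 k26 6 (.s k25 k49 5 (.d k38 k39 k51
  0 6))))), (.s k4 k8 1 (.s k16 k32 3 (.s k14 k13 0 (.s k26 k37 6 (.s k38 k50 5 (.d k21 k31 k55 2
  4))))))] .n) (.c k6 (.q k48 [(.s k4 k8 1 (.s k32 k16 3 (.s k36 k24 5 (.s k20 k52 3 (.d k40 k44 k60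
  1 5))))), (.s k5 k10 2 (.s k32 k16 3 (.s k37 k26 6 (.s k42 k47 2 (.d k21 k53 k63 3 6))))), (.s k13
  k14 0 (.s k36 k24 5 (.s k37 k26 6 (.s k25 k49 5 (.d k38 k39 k51 0 6)))))] .n) (.c k7 (.l (.s k8 k4
  1 (.s k14 k13 0 (.s k10 k5 2 (.s k6 k2 1 (.d k9 k11 k3 0 2)))))) (.c k8 (.f k10 k5 2 (.q k74 [(.s
  k138 k202 7 (.s k69 k207 10 (.s k192 k133 10 (.d k64 k79 k128 2 7)))), (.s k13 k14 0 (.s k133 k192
  10 (.s k73 k193 9 (.s k195 k134 10 (.d k75 k72 k135 0 9))))), (.s k138 k202 7 (.s k14 k13 0 (.s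
  k134 k194 9 (.s k130 k142 1 (.d k195 k65 k73 8 10)))))] .n)) (.c k9 (.q k48 [(.s k8 k4 1 (.s k16
  k32 3 (.s k24 k36 5 (.s k20 k28 1 (.d k40 k56 k60 3 5))))), (.s k32 k16 3 (.s k37 k26 6 (.s k42
  k47 2 (.s k21 k63 6 (.d k5 k10 k53 2 3))))), (.s k13 k14 0 (.s k36 k24 5 (.s k37 k26 6 (.s k25 k49
  5 (.d k38 k39 k51 0 6)))))] .n) (.c k10 (.q k42 [(.s k8 k4 1 (.s k63 k21 6 (.s k25 k59 4 (.s k38
  k51 6 (.d k46 k34 k29 1 4))))), (.s k63 k21 6 (.s k13 k14 0 (.s k29 k46 4 (.s k45 k61 3 (.s k30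
  k60 4 (.d k31 k28 k47 0 3)))))), (.s k8 k4 1 (.s k25 k59 4 (.s k13 k14 0 (.s k37 k49 5 (.s k48 k26
  6 (.d k32 k47 k16 2 3))))))] (.c k170 (.q k250 [(.s k8 k4 1 (.s k63 k21 6 (.s k25 k59 4 (.s k38
  k51 6 (.d k46 k34 k29 1 4))))), (.s k63 k21 6 (.s k13 k14 0 (.s k29 k46 4 (.s k45 k61 3 (.s k30
  k60 4 (.d k31 k28 k47 0 3)))))), (.s k8 k4 1 (.s k25 k59 4 (.s k13 k14 0 (.s k37 k49 5 (.s k48 k26
  6 (.d k32 k47 k16 2 3))))))] .n) (.c k250 (.q k170 [(.s k4 k8 1 (.s k21 k63 6 (.s k38 k55 4 (.s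
  k51 k25 6 (.d k34 k46 k17 1 4))))), (.s k63 k21 6 (.s k85 k255 14 (.s k106 k234 7 (.s k192 k149 14
  (.d k64 k127 k128 6 7))))), (.s k4 k8 1 (.s k85 k255 14 (.s k166 k247 12 (.s k243 k89 14 (.d k162
  k174 k81 1 12)))))] (.c k122 (.q k186 [(.s k255 k85 14 (.s k48 k117 10 (.s k32 k16 3 (.d k37 k47
  k26 2 6)))), (.s k4 k8 1 (.s k21 k63 6 (.s k38 k55 4 (.s k51 k25 6 (.d k34 k46 k17 1 4)))))] (.c
  k48 (.l (.s k4 k8 1 (.s k85 k255 14 (.s k166 k247 12 (.s k243 k89 14 (.d k162 k174 k81 1 12))))))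
  (.c k74 (.l (.s k106 k234 7 (.s k63 k21 6 (.s k85 k255 14 (.s k192 k149 14 (.d k64 k127 k128 6
  7)))))) (.c k106 (.q k74 [(.s k192 k133 10 (.s k64 k128 7 (.s k69 k79 2 (.d k138 k154 k207 3
  10)))), (.s k4 k8 1 (.s k21 k63 6 (.s k38 k55 4 (.s k51 k25 6 (.d k34 k46 k17 1 4)))))] (.c k154
  (.q k202 [(.s k192 k133 10 (.s k64 k128 7 (.s k79 k69 2 (.d k207 k197 k143 2 7)))), (.s k4 k8 1
  (.s k85 k255 14 (.s k166 k247 12 (.s k243 k89 14 (.d k162 k174 k81 1 12)))))] (.c k26 (.q k218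
  [(.s k192 k133 10 (.s k64 k128 7 (.s k79 k69 2 (.d k207 k197 k143 2 7)))), (.s k4 k8 1 (.s k85
  k255 14 (.s k166 k247 12 (.s k243 k89 14 (.d k162 k174 k81 1 12)))))] .n) (.c k218 (.q k26 [(.s
  k48 k37 6 (.d k255 k117 k85 10 14)), (.s k4 k8 1 (.s k14 k13 0 (.s k38 k50 5 (.d k21 k55 k63 4
  6))))] .n) .n))) (.c k192 (.l (.s k255 k85 14 (.s k48 k117 10 (.s k32 k16 3 (.d k37 k47 k26 2
  6))))) (.c k202 (.l (.s k154 k138 3 (.s k255 k85 14 (.s k48 k117 10 (.s k32 k16 3 (.d k37 k47 k26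
  2 6)))))) .n)))) .n)))) (.c k186 (.q k122 [(.s k8 k4 1 (.s k63 k21 6 (.s k25 k59 4 (.s k38 k51 6
  (.d k46 k34 k29 1 4))))), (.s k63 k21 6 (.s k85 k255 14 (.s k106 k234 7 (.s k192 k149 14 (.d k64
  k127 k128 6 7))))), (.s k4 k8 1 (.s k85 k255 14 (.s k166 k247 12 (.s k243 k89 14 (.d k162 k174 k81
  1 12)))))] .n) .n))) .n))) (.c k11 (.l (.s k4 k8 1 (.s k13 k14 0 (.s k5 k10 2 (.s k9 k1 1 (.d k6
  k7 k3 0 2)))))) (.c k13 (.q k48 [(.s k4 k8 1 (.s k32 k16 3 (.s k36 k24 5 (.s k20 k52 3 (.d k40 k44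
  k60 1 5))))), (.s k5 k10 2 (.s k32 k16 3 (.s k37 k26 6 (.s k42 k47 2 (.d k21 k53 k63 3 6))))), (.s
  k4 k8 1 (.s k36 k24 5 (.s k37 k26 6 (.s k38 k39 0 (.s k21 k55 4 (.d k5 k10 k53 2 3))))))] .n) (.c
  k14 (.f k10 k5 2 (.q k74 [(.s k138 k202 7 (.s k69 k207 10 (.s k192 k133 10 (.d k64 k79 k128 2
  7)))), (.s k8 k4 1 (.s k11 k9 0 (.s k200 k137 8 (.s k72 k136 7 (.d k192 k132 k133 9 10))))), (.s
  k8 k4 1 (.s k138 k202 7 (.s k73 k203 8 (.s k195 k134 10 (.d k75 k72 k135 0 9)))))] (.c k138 (.l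
  (.s k8 k4 1 (.s k11 k9 0 (.s k200 k137 8 (.s k192 k133 10 (.d k72 k136 k132 7 9)))))) (.c k166 (.q
  k242 [(.s k138 k202 7 (.s k69 k207 10 (.s k192 k133 10 (.d k64 k79 k128 2 7)))), (.s k8 k4 1 (.s
  k11 k9 0 (.s k200 k137 8 (.s k72 k136 7 (.d k192 k132 k133 9 10))))), (.s k8 k4 1 (.s k138 k202 7
  (.s k73 k203 8 (.s k195 k134 10 (.d k75 k72 k135 0 9)))))] (.c k138 (.l (.s k8 k4 1 (.s k11 k9 0
  (.s k200 k137 8 (.s k192 k133 10 (.d k72 k136 k132 7 9)))))) .n)) (.c k242 (.q k166 [(.s k138 k202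
  7 (.s k69 k207 10 (.s k192 k133 10 (.d k64 k79 k128 2 7)))), (.s k4 k8 1 (.s k85 k247 12 (.s k170
  k255 14 (.s k243 k89 14 (.d k162 k174 k81 1 12)))))] .n) .n))))) .n))))))))))))))

def t59 : T TT 256 :=
  (.q k26 [(.s k5 k10 2 (.s k37 k48 6 (.s k21 k53 3 (.s k31 k16 2 (.d k63 k47 k42 3 6))))), (.s k10
  k5 2 (.s k42 k58 3 (.s k63 k21 6 (.s k37 k48 6 (.d k47 k32 k31 2 3)))))] (.c k5 (.q k12 [(.s k13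
  k14 0 (.s k37 k48 6 (.s k25 k49 5 (.s k51 k38 6 (.d k27 k24 k39 0 5))))), (.s k4 k8 1 (.s k48 k37
  6 (.s k32 k16 3 (.s k36 k24 5 (.s k20 k52 3 (.d k40 k44 k60 1 5)))))), (.s k4 k8 1 (.s k14 k13 0
  (.s k38 k50 5 (.s k21 k55 4 (.s k31 k16 2 (.d k63 k42 k47 6 3))))))] (.c k25 (.l (.s k8 k4 1 (.s
  k48 k37 6 (.s k16 k32 3 (.s k24 k36 5 (.s k40 k56 3 (.d k20 k28 k60 1 5))))))) .n)) (.c k10 (.q
  k12 [(.s k14 k13 0 (.s k38 k50 5 (.s k25 k51 6 (.s k48 k37 6 (.d k24 k27 k36 0 5))))), (.s k4 k8 1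
  (.s k48 k37 6 (.s k32 k16 3 (.s k36 k24 5 (.s k20 k52 3 (.d k40 k44 k60 1 5)))))), (.s k4 k8 1 (.s
  k14 k13 0 (.s k38 k50 5 (.s k21 k55 4 (.s k31 k16 2 (.d k63 k42 k47 6 3))))))] (.c k25 (.l (.s k8
  k4 1 (.s k48 k37 6 (.s k16 k32 3 (.s k24 k36 5 (.s k40 k56 3 (.d k20 k28 k60 1 5))))))) (.c k170
  (.q k250 [(.s k14 k13 0 (.s k38 k50 5 (.s k25 k51 6 (.s k48 k37 6 (.d k24 k27 k36 0 5))))), (.s k4
  k8 1 (.s k48 k37 6 (.s k32 k16 3 (.s k36 k24 5 (.s k20 k52 3 (.d k40 k44 k60 1 5)))))), (.s k4 k8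
  1 (.s k14 k13 0 (.s k38 k50 5 (.s k21 k55 4 (.s k31 k16 2 (.d k63 k42 k47 6 3))))))] (.c k25 (.l
  (.s k8 k4 1 (.s k48 k37 6 (.s k16 k32 3 (.s k24 k36 5 (.s k40 k56 3 (.d k20 k28 k60 1 5)))))))
  .n)) (.c k250 (.q k170 [(.s k14 k13 0 (.s k38 k50 5 (.s k25 k51 6 (.s k48 k37 6 (.d k24 k27 k36 0
  5))))), (.s k8 k4 1 (.s k255 k85 14 (.s k89 k251 12 (.s k166 k243 14 (.d k174 k162 k93 1 12)))))]
  .n) .n)))) (.c k21 (.q k12 [(.s k13 k14 0 (.s k37 k48 6 (.s k25 k49 5 (.s k27 k24 0 (.d k51 k39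
  k38 5 6))))), (.s k4 k8 1 (.s k5 k10 2 (.s k6 k7 0 (.s k9 k3 2 (.d k13 k14 k1 0 1))))), (.s k4 k8
  1 (.s k48 k37 6 (.s k32 k16 3 (.s k36 k24 5 (.s k20 k52 3 (.d k40 k44 k60 1 5))))))] (.c k25 (.l
  (.s k8 k4 1 (.s k10 k5 2 (.s k9 k11 0 (.s k6 k3 2 (.d k14 k13 k2 0 1)))))) .n)) (.c k31 (.q k12
  [(.s k8 k4 1 (.s k14 k13 0 (.s k10 k5 2 (.s k6 k2 1 (.d k9 k11 k3 0 2))))), (.s k13 k14 0 (.s k37
  k48 6 (.s k25 k49 5 (.s k51 k38 6 (.d k27 k24 k39 0 5))))), (.s k4 k8 1 (.s k48 k37 6 (.s k32 k16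
  3 (.s k36 k24 5 (.s k20 k52 3 (.d k40 k44 k60 1 5))))))] (.c k149 (.q k208 [(.s k8 k4 1 (.s k14
  k13 0 (.s k10 k5 2 (.s k6 k2 1 (.d k9 k11 k3 0 2))))), (.s k13 k14 0 (.s k37 k48 6 (.s k25 k49 5
  (.s k51 k38 6 (.d k27 k24 k39 0 5))))), (.s k4 k8 1 (.s k48 k37 6 (.s k32 k16 3 (.s k36 k24 5 (.s
  k20 k52 3 (.d k40 k44 k60 1 5))))))] .n) (.c k208 (.q k149 [(.s k8 k4 1 (.s k14 k13 0 (.s k10 k5 2
  (.s k6 k2 1 (.d k9 k11 k3 0 2))))), (.s k13 k14 0 (.s k37 k48 6 (.s k25 k49 5 (.s k51 k38 6 (.d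
  k27 k24 k39 0 5))))), (.s k4 k8 1 (.s k48 k37 6 (.s k32 k16 3 (.s k36 k24 5 (.s k20 k52 3 (.d k40
  k44 k60 1 5))))))] .n) .n))) (.c k37 (.q k12 [(.s k4 k8 1 (.s k14 k13 0 (.s k38 k50 5 (.s k21 k55
  4 (.s k31 k16 2 (.d k63 k42 k47 6 3)))))), (.s k8 k4 1 (.s k10 k5 2 (.s k9 k11 0 (.s k6 k3 2 (.d
  k14 k13 k2 0 1))))), (.s k10 k5 2 (.s k42 k58 3 (.s k14 k13 0 (.s k38 k50 5 (.s k34 k46 1 (.d k51
  k25 k17 6 4))))))] (.c k13 (.f k4 k8 1 (.q k25 [(.s k51 k38 6 (.d k27 k39 k24 5 0)), (.s k10 k5 2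
  (.s k42 k58 3 (.s k21 k63 6 (.d k38 k55 k51 4 6)))), (.s k24 k27 0 (.s k36 k48 5 (.s k20 k52 3 (.s
  k60 k40 5 (.d k28 k16 k44 1 3)))))] .n)) (.c k14 (.l (.s k4 k8 1 (.s k10 k5 2 (.s k42 k58 3 (.s
  k21 k63 6 (.s k38 k55 4 (.s k51 k25 6 (.d k34 k46 k17 1 4)))))))) (.c k21 (.l (.s k4 k8 1 (.s k5
  k10 2 (.s k6 k7 0 (.s k9 k3 2 (.d k13 k14 k1 0 1)))))) .n)))) (.c k42 (.q k12 [(.s k8 k4 1 (.s k14
  k13 0 (.s k10 k5 2 (.s k6 k2 1 (.d k9 k11 k3 0 2))))), (.s k13 k14 0 (.s k37 k48 6 (.s k25 k49 5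
  (.s k51 k38 6 (.d k27 k24 k39 0 5))))), (.s k8 k4 1 (.s k10 k5 2 (.s k48 k37 6 (.s k24 k36 5 (.s
  k56 k40 3 (.d k11 k41 k9 4 0))))))] (.c k8 (.q k25 [(.s k14 k13 0 (.d k38 k50 k51 5 6)), (.s k13
  k14 0 (.d k37 k49 k48 5 6)), (.s k51 k38 6 (.d k27 k24 k39 0 5))] .n) (.c k25 (.l (.s k8 k4 1 (.s
  k10 k5 2 (.s k9 k11 0 (.s k6 k3 2 (.d k14 k13 k2 0 1)))))) .n))) (.c k47 (.l (.s k10 k5 2 (.s k42
  k58 3 (.s k21 k63 6 (.s k48 k37 6 (.d k16 k31 k32 2 3)))))) (.c k48 (.q k14 [(.s k10 k5 2 (.s k6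
  k2 1 (.s k12 k13 0 (.s k8 k4 1 (.d k9 k11 k3 0 2))))), (.s k12 k13 0 (.s k4 k8 1 (.s k38 k50 5 (.s
  k21 k55 4 (.s k31 k16 2 (.d k63 k42 k47 6 3)))))), (.s k10 k5 2 (.s k2 k6 1 (.s k42 k58 3 (.s k22
  k62 5 (.s k50 k38 5 (.d k18 k30 k34 1 3))))))] (.c k4 (.l (.s k10 k5 2 (.s k42 k58 3 (.s k63 k21 6
  (.s k12 k13 0 (.s k46 k29 4 (.d k38 k34 k50 1 5))))))) .n)) (.c k53 (.l (.s k10 k5 2 (.s k42 k58 3
  (.s k21 k63 6 (.s k48 k37 6 (.d k16 k31 k32 2 3)))))) (.c k58 (.l (.s k5 k10 2 (.s k37 k48 6 (.s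
  k21 k53 3 (.s k63 k42 6 (.d k31 k16 k47 2 3)))))) (.c k63 (.q k14 [(.s k10 k5 2 (.s k6 k2 1 (.s
  k12 k13 0 (.s k8 k4 1 (.d k9 k11 k3 0 2))))), (.s k12 k13 0 (.s k38 k50 5 (.s k37 k48 6 (.s k39
  k36 0 (.d k51 k27 k25 5 6))))), (.s k10 k5 2 (.s k2 k6 1 (.s k42 k58 3 (.s k22 k62 5 (.s k50 k38 5
  (.d k18 k30 k34 1 3))))))] (.c k51 (.q k55 [(.s k12 k13 0 (.s k4 k8 1 (.d k38 k21 k50 4 5))), (.s
  k10 k5 2 (.s k42 k58 3 (.s k38 k50 5 (.s k46 k34 1 (.s k62 k30 3 (.d k2 k6 k22 1 5)))))), (.s k10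
  k5 2 (.s k6 k2 1 (.s k12 k13 0 (.s k8 k4 1 (.d k9 k11 k3 0 2)))))] .n) (.c k55 (.q k51 [(.s k12
  k13 0 (.d k38 k50 k25 5 6)), (.s k50 k38 5 (.d k48 k49 k37 0 6)), (.s k12 k13 0 (.s k27 k39 5 (.s
  k24 k25 0 (.d k48 k37 k36 6 5))))] .n) .n))) .n))))))))))))

theorem c11 : rootOK2 k15 k90 k11 t11 = true := by decide +kernel

theorem c16 : rootOK2 k15 k90 k16 t16 = true := by decide +kernel

theorem c17 : rootOK2 k15 k90 k17 t17 = true := by decide +kernel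

theorem c18 : rootOK2 k15 k90 k18 t18 = true := by decide +kernel

theorem c19 : rootOK2 k15 k90 k19 t19 = true := by decide +kernel

theorem c21 : rootOK2 k15 k90 k21 t21 = true := by decide +kernel

theorem c22 : rootOK2 k15 k90 k22 t22 = true := by decide +kernel

theorem c23 : rootOK2 k15 k90 k23 t23 = true := by decide +kernel

theorem c26 : rootOK2 k15 k90 k26 t26 = true := by decide +kernel

theorem c27 : rootOK2 k15 k90 k27 t27 = true := by decide +kernel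

theorem c31 : rootOK2 k15 k90 k31 t31 = true := by decide +kernel

theorem c32 : rootOK2 k15 k90 k32 t32 = true := by decide +kernel

theorem c33 : rootOK2 k15 k90 k33 t33 = true := by decide +kernel

theorem c34 : rootOK2 k15 k90 k34 t34 = true := by decide +kernel

theorem c35 : rootOK2 k15 k90 k35 t35 = true := by decide +kernel

theorem c37 : rootOK2 k15 k90 k37 t37 = true := by decide +kernel

theorem c38 : rootOK2 k15 k90 k38 t38 = true := by decide +kernel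

theorem c39 : rootOK2 k15 k90 k39 t39 = true := by decide +kernel

theorem c42 : rootOK2 k15 k90 k42 t42 = true := by decide +kernel

theorem c43 : rootOK2 k15 k90 k43 t43 = true := by decide +kernel

theorem c47 : rootOK2 k15 k90 k47 t47 = true := by decide +kernel

theorem c48 : rootOK2 k15 k90 k48 t48 = true := by decide +kernel

theorem c49 : rootOK2 k15 k90 k49 t49 = true := by decide +kernel

theorem c50 : rootOK2 k15 k90 k50 t50 = true := by decide +kernel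

theorem c51 : rootOK2 k15 k90 k51 t51 = true := by decide +kernel

theorem c53 : rootOK2 k15 k90 k53 t53 = true := by decide +kernel

theorem c54 : rootOK2 k15 k90 k54 t54 = true := by decide +kernel

theorem c55 : rootOK2 k15 k90 k55 t55 = true := by decide +kernel

theorem c58 : rootOK2 k15 k90 k58 t58 = true := by decide +kernel

theorem c59 : rootOK2 k15 k90 k59 t59 = true := by decide +kernel

def l : List Nat :=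
  [k11.c, k16.c, k17.c, k18.c, k19.c, k21.c, k22.c, k23.c, k26.c, k27.c, k31.c, k32.c, k33.c, k34.c,
  k35.c, k37.c, k38.c, k39.c, k42.c, k43.c, k47.c, k48.c, k49.c, k50.c, k51.c, k53.c, k54.c, k55.c,
  k58.c, k59.c]

theorem ok : AllQ k15.c k90.c l :=
  allQ_cons c11 (allQ_cons c16 (allQ_cons c17 (allQ_cons c18 (allQ_cons c19 (allQ_cons c21 (
  allQ_cons c22 (allQ_cons c23 (allQ_cons c26 (allQ_cons c27 (allQ_cons c31 (allQ_cons c32 (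
  allQ_cons c33 (allQ_cons c34 (allQ_cons c35 (allQ_cons c37 (allQ_cons c38 (allQ_cons c39 (
  allQ_cons c42 (allQ_cons c43 (allQ_cons c47 (allQ_cons c48 (allQ_cons c49 (allQ_cons c50 (
  allQ_cons c51 (allQ_cons c53 (allQ_cons c54 (allQ_cons c55 (allQ_cons c58 (allQ_cons c59 (allQ_nil _ _
  ))))))))))))))))))))))))))))))

end Pool.Agent.TTT.I03
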