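import Pool.Agent.TTT.Sym2

set_option autoImplicit false
set_option maxRecDepth 100000

namespace Pool.Agent.TTT.I04

def t63 : T TT 256 :=
  (.q k12 [(.s k8 k4 1 (.s k14 k13 0 (.s k10 k5 2 (.s k6 k2 1 (.d k9 k11 k3 0 2)))))] (.c k1 (.l (.s
  k8 k4 1 (.s k10 k5 2 (.s k9 k11 0 (.s k6 k3 2 (.d k14 k13 k2 0 1)))))) (.c k2 (.l (.s k4 k8 1 (.s
  k5 k10 2 (.s k6 k7 0 (.s k9 k3 2 (.d k13 k14 k1 0 1)))))) (.c k3 (.f k4 k8 1 (.f k14 k13 0 (.q k26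
  [(.s k38 k50 5 (.s k21 k55 4 (.s k48 k37 6 (.d k16 k31 k32 2 3)))), (.s k10 k5 2 (.s k42 k58 3 (.s
  k38 k50 5 (.s k34 k46 1 (.d k51 k17 k25 4 6))))), (.s k48 k37 6 (.s k32 k16 3 (.s k36 k24 5 (.s
  k20 k52 3 (.d k40 k44 k60 1 5)))))] (.c k23 (.q k43 [(.s k38 k50 5 (.s k48 k37 6 (.s k16 k32 3 (.d
  k21 k31 k55 2 4)))), (.s k10 k5 2 (.s k42 k58 3 (.s k38 k50 5 (.s k34 k46 1 (.d k51 k17 k25 4
  6))))), (.s k48 k37 6 (.s k32 k16 3 (.s k36 k24 5 (.s k20 k52 3 (.d k40 k44 k60 1 5)))))] (.c k25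
  (.l (.s k5 k10 2 (.s k38 k50 5 (.s k21 k55 4 (.d k37 k53 k48 3 6))))) (.c k48 (.l (.s k10 k5 2 (.s
  k38 k50 5 (.s k51 k25 6 (.s k34 k17 4 (.d k42 k46 k58 1 3)))))) .n))) (.c k25 (.l (.s k5 k10 2 (.s
  k38 k50 5 (.s k21 k55 4 (.d k37 k53 k48 3 6))))) (.c k43 (.q k23 [(.s k38 k50 5 (.s k21 k55 4 (.s
  k48 k37 6 (.d k16 k31 k32 2 3)))), (.s k5 k10 2 (.s k7 k6 0 (.s k37 k48 6 (.s k22 k52 4 (.d k21
  k53 k20 3 0))))), (.s k5 k10 2 (.s k7 k6 0 (.s k55 k39 3 (.d k38 k21 k50 4 5))))] (.c k21 (.l (.s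
  k38 k50 5 (.s k25 k51 6 (.s k48 k37 6 (.d k24 k27 k36 0 5))))) .n)) (.c k48 (.l (.s k10 k5 2 (.s
  k38 k50 5 (.s k51 k25 6 (.s k34 k17 4 (.d k42 k46 k58 1 3)))))) .n))))))) (.c k4 (.q k26 [(.s k14
  k13 0 (.s k38 k50 5 (.s k51 k25 6 (.s k37 k48 6 (.d k39 k36 k27 0 5))))), (.s k10 k5 2 (.s k42 k58
  3 (.s k14 k13 0 (.s k38 k50 5 (.s k46 k34 1 (.s k62 k30 3 (.d k2 k6 k22 1 5))))))), (.s k48 k37 6
  (.s k16 k32 3 (.s k24 k36 5 (.s k21 k31 2 (.s k25 k27 0 (.s k17 k29 1 (.d k51 k38 k34 6 4)))))))]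
  (.c k38 (.q k21 [(.s k37 k48 6 (.d k5 k53 k10 3 2)), (.s k48 k37 6 (.d k16 k31 k32 2 3)), (.s k5
  k10 2 (.s k13 k14 0 (.s k1 k9 1 (.s k41 k61 5 (.s k11 k56 4 (.d k3 k2 k7 0 1))))))] .n) (.c k48
  (.l (.s k10 k5 2 (.s k14 k13 0 (.s k38 k50 5 (.s k51 k25 6 (.s k34 k17 4 (.d k42 k46 k58 1
  3))))))) .n))) (.c k5 (.q k192 [(.s k4 k8 1 (.s k128 k64 7 (.s k132 k72 9 (.s k68 k196 7 (.d k136
  k140 k204 1 9))))), (.s k13 k14 0 (.s k132 k72 9 (.s k133 k74 10 (.s k73 k193 9 (.d k134 k135 k195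
  0 10))))), (.s k4 k8 1 (.s k64 k128 7 (.s k14 k13 0 (.s k74 k133 10 (.s k134 k194 9 (.d k69 k79
  k199 2 8))))))] .n) (.c k6 (.q k192 [(.s k4 k8 1 (.s k128 k64 7 (.s k132 k72 9 (.s k68 k196 7 (.d
  k136 k140 k204 1 9))))), (.s k5 k10 2 (.s k128 k64 7 (.s k133 k74 10 (.s k69 k197 7 (.d k138 k143
  k207 2 10))))), (.s k13 k14 0 (.s k132 k72 9 (.s k133 k74 10 (.s k73 k193 9 (.d k134 k135 k195 0
  10)))))] .n) (.c k7 (.l (.s k8 k4 1 (.s k14 k13 0 (.s k10 k5 2 (.s k6 k2 1 (.d k9 k11 k3 0 2))))))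
  (.c k8 (.f k14 k13 0 (.q k26 [(.s k38 k50 5 (.s k25 k51 6 (.s k48 k37 6 (.d k24 k27 k36 0 5)))),
  (.s k10 k5 2 (.s k2 k6 1 (.s k42 k58 3 (.s k22 k62 5 (.s k50 k38 5 (.d k18 k30 k34 1 3))))))] (.c
  k38 (.l (.s k10 k5 2 (.s k2 k6 1 (.s k42 k58 3 (.s k22 k62 5 (.s k48 k37 6 (.s k18 k30 1 (.d k3 k1
  k33 0 4)))))))) (.c k48 (.l (.s k10 k5 2 (.s k38 k50 5 (.s k51 k25 6 (.s k34 k17 4 (.d k42 k46 k58
  1 3)))))) (.c k50 (.l (.s k48 k37 6 (.s k16 k32 3 (.s k24 k36 5 (.s k28 k20 1 (.s k31 k21 2 (.s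
  k30 k29 0 (.d k60 k44 k45 3 4)))))))) .n))))) (.c k9 (.q k192 [(.s k8 k4 1 (.s k64 k128 7 (.s k72
  k132 9 (.s k136 k200 7 (.d k68 k76 k204 1 9))))), (.s k10 k5 2 (.s k64 k128 7 (.s k74 k133 10 (.s
  k138 k202 7 (.d k69 k79 k207 2 10))))), (.s k13 k14 0 (.s k132 k72 9 (.s k133 k74 10 (.s k73 k193
  9 (.d k134 k135 k195 0 10)))))] .n) (.c k10 (.f k14 k13 0 (.q k192 [(.s k72 k132 9 (.s k74 k133 10
  (.s k134 k194 9 (.d k73 k75 k195 0 10)))), (.s k4 k8 1 (.s k128 k64 7 (.s k132 k72 9 (.s k68 k196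
  7 (.d k136 k140 k204 1 9))))), (.s k4 k8 1 (.s k64 k128 7 (.s k74 k133 10 (.s k134 k194 9 (.d k69
  k79 k199 2 8)))))] (.c k170 (.q k250 [(.s k72 k132 9 (.s k74 k133 10 (.s k134 k194 9 (.d k73 k75
  k195 0 10)))), (.s k4 k8 1 (.s k128 k64 7 (.s k132 k72 9 (.s k68 k196 7 (.d k136 k140 k204 1
  9))))), (.s k4 k8 1 (.s k64 k128 7 (.s k74 k133 10 (.s k134 k194 9 (.d k69 k79 k199 2 8)))))] .n)
  (.c k250 (.q k170 [(.s k72 k132 9 (.s k74 k133 10 (.s k134 k194 9 (.d k73 k75 k195 0 10)))), (.s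
  k4 k8 1 (.s k128 k64 7 (.s k132 k72 9 (.s k68 k196 7 (.d k136 k140 k204 1 9))))), (.s k4 k8 1 (.s
  k64 k128 7 (.s k74 k133 10 (.s k134 k194 9 (.d k69 k79 k199 2 8)))))] .n) .n)))) (.c k11 (.l (.s
  k4 k8 1 (.s k13 k14 0 (.s k5 k10 2 (.s k9 k1 1 (.d k6 k7 k3 0 2)))))) (.c k13 (.q k192 [(.s k4 k8
  1 (.s k128 k64 7 (.s k132 k72 9 (.s k68 k196 7 (.d k136 k140 k204 1 9))))), (.s k5 k10 2 (.s k128
  k64 7 (.s k133 k74 10 (.s k69 k197 7 (.d k138 k143 k207 2 10))))), (.s k4 k8 1 (.s k5 k10 2 (.s k7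
  k6 0 (.s k132 k72 9 (.s k133 k74 10 (.d k196 k68 k70 7 8))))))] .n) (.c k14 (.f k4 k8 1 (.q k192
  [(.s k128 k64 7 (.s k132 k72 9 (.s k68 k196 7 (.d k136 k140 k204 1 9)))), (.s k5 k10 2 (.s k128
  k64 7 (.s k133 k74 10 (.s k69 k197 7 (.d k138 k143 k207 2 10))))), (.s k5 k10 2 (.s k132 k72 9 (.s
  k133 k74 10 (.s k69 k197 7 (.d k134 k135 k199 0 8)))))] (.c k166 (.q k242 [(.s k128 k64 7 (.s k132
  k72 9 (.s k68 k196 7 (.d k136 k140 k204 1 9)))), (.s k5 k10 2 (.s k128 k64 7 (.s k133 k74 10 (.s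
  k69 k197 7 (.d k138 k143 k207 2 10))))), (.s k5 k10 2 (.s k132 k72 9 (.s k133 k74 10 (.s k69 k197
  7 (.d k134 k135 k199 0 8)))))] .n) (.c k242 (.q k166 [(.s k128 k64 7 (.s k132 k72 9 (.s k68 k196 7
  (.d k136 k140 k204 1 9)))), (.s k85 k247 12 (.s k170 k255 14 (.s k243 k89 14 (.d k162 k174 k81 1
  12))))] .n) .n)))) .n))))))))))))))

def t80 : T TT 256 :=
  (.q k12 [(.s k8 k4 1 (.s k14 k13 0 (.s k10 k5 2 (.s k6 k2 1 (.d k9 k11 k3 0 2)))))] (.c k1 (.l (.s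
  k8 k4 1 (.s k10 k5 2 (.s k9 k11 0 (.s k6 k3 2 (.d k14 k13 k2 0 1)))))) (.c k2 (.l (.s k4 k8 1 (.s
  k5 k10 2 (.s k6 k7 0 (.s k9 k3 2 (.d k13 k14 k1 0 1)))))) (.c k3 (.q k85 [(.s k4 k8 1 (.s k170
  k255 14 (.s k166 k247 12 (.s k162 k174 1 (.d k243 k81 k89 12 14))))), (.s k255 k170 14 (.s k13 k14
  0 (.s k93 k174 12 (.s k173 k253 11 (.s k94 k252 12 (.d k95 k92 k175 0 11)))))), (.s k4 k8 1 (.s k5
  k10 2 (.s k166 k247 12 (.s k165 k245 11 (.s k13 k14 0 (.d k89 k241 k243 13 14))))))] (.c k166 (.l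
  (.s k8 k4 1 (.s k5 k10 2 (.s k170 k255 14 (.s k165 k245 11 (.s k89 k251 12 (.d k13 k14 k241 0
  13))))))) (.c k170 (.l (.s k4 k8 1 (.s k166 k247 12 (.s k13 k14 0 (.s k89 k243 14 (.s k165 k241 13
  (.d k5 k10 k245 2 11))))))) .n))) (.c k4 (.f k14 k13 0 (.q k26 [(.s k38 k50 5 (.s k25 k51 6 (.s
  k48 k37 6 (.d k24 k27 k36 0 5)))), (.s k5 k10 2 (.s k37 k48 6 (.s k21 k53 3 (.s k63 k42 6 (.d k31
  k16 k47 2 3))))), (.s k10 k5 2 (.s k42 k58 3 (.s k38 k50 5 (.s k34 k46 1 (.d k51 k17 k25 4 6)))))]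
  (.c k85 (.q k95 [(.s k38 k50 5 (.s k25 k51 6 (.s k48 k37 6 (.d k24 k27 k36 0 5)))), (.s k5 k10 2
  (.s k37 k48 6 (.s k21 k53 3 (.s k63 k42 6 (.d k31 k16 k47 2 3))))), (.s k10 k5 2 (.s k42 k58 3 (.s
  k38 k50 5 (.s k34 k46 1 (.d k51 k17 k25 4 6)))))] (.c k166 (.q k247 [(.s k38 k50 5 (.s k25 k51 6
  (.s k48 k37 6 (.d k24 k27 k36 0 5)))), (.s k5 k10 2 (.s k37 k48 6 (.s k21 k53 3 (.s k63 k42 6 (.d
  k31 k16 k47 2 3))))), (.s k10 k5 2 (.s k42 k58 3 (.s k38 k50 5 (.s k34 k46 1 (.d k51 k17 k25 4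
  6)))))] .n) (.c k247 (.q k166 [(.s k38 k50 5 (.s k25 k51 6 (.s k48 k37 6 (.d k24 k27 k36 0 5)))),
  (.s k255 k175 11 (.s k174 k93 12 (.s k162 k170 1 (.d k243 k81 k89 12 14))))] .n) .n))) (.c k95 (.q
  k85 [(.s k38 k50 5 (.s k25 k51 6 (.s k48 k37 6 (.d k24 k27 k36 0 5)))), (.s k5 k10 2 (.s k37 k48 6
  (.s k21 k53 3 (.s k63 k42 6 (.d k31 k16 k47 2 3))))), (.s k10 k5 2 (.s k42 k58 3 (.s k38 k50 5 (.s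
  k34 k46 1 (.d k51 k17 k25 4 6)))))] .n) .n)))) (.c k5 (.q k85 [(.s k4 k8 1 (.s k170 k255 14 (.s
  k166 k247 12 (.s k162 k174 1 (.d k243 k81 k89 12 14))))), (.s k255 k170 14 (.s k14 k13 0 (.s k174
  k93 12 (.s k94 k254 11 (.s k173 k252 12 (.d k175 k172 k95 0 11))))))] (.c k170 (.f k4 k8 1 (.f
  k166 k247 12 (.l (.s k13 k14 0 (.s k89 k243 14 (.s k241 k165 13 (.s k93 k81 1 (.s k253 k173 11 (.s
  k169 k1 13 (.d k249 k245 k9 1 11)))))))))) (.c k174 (.l (.s k8 k4 1 (.s k170 k255 14 (.s k89 k251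
  12 (.s k243 k166 14 (.d k81 k93 k162 1 12)))))) (.c k255 (.q k192 [(.s k4 k8 1 (.s k132 k72 9 (.s
  k68 k196 7 (.s k136 k204 9 (.d k128 k140 k64 1 7))))), (.s k13 k14 0 (.s k132 k72 9 (.s k133 k74
  10 (.s k73 k193 9 (.d k134 k135 k195 0 10))))), (.s k4 k8 1 (.s k64 k128 7 (.s k166 k247 12 (.s
  k243 k89 14 (.s k106 k127 6 (.d k226 k209 k46 4 9))))))] .n) .n)))) (.c k6 (.q k85 [(.s k4 k8 1
  (.s k170 k255 14 (.s k166 k247 12 (.s k162 k174 1 (.d k243 k81 k89 12 14))))), (.s k255 k170 14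
  (.s k13 k14 0 (.s k93 k174 12 (.s k173 k253 11 (.s k94 k252 12 (.d k95 k92 k175 0 11)))))), (.s k8
  k4 1 (.s k5 k10 2 (.s k170 k255 14 (.s k165 k245 11 (.s k89 k251 12 (.d k13 k14 k241 0 13))))))]
  (.c k170 (.l (.s k4 k8 1 (.s k166 k247 12 (.s k13 k14 0 (.s k89 k243 14 (.s k165 k241 13 (.d k5
  k10 k245 2 11))))))) (.c k255 (.l (.s k4 k8 1 (.s k5 k10 2 (.s k166 k247 12 (.s k165 k245 11 (.s
  k243 k89 14 (.d k167 k91 k164 13 0))))))) .n))) (.c k7 (.l (.s k8 k4 1 (.s k14 k13 0 (.s k10 k5 2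
  (.s k6 k2 1 (.d k9 k11 k3 0 2)))))) (.c k8 (.f k14 k13 0 (.q k26 [(.s k38 k50 5 (.s k25 k51 6 (.s
  k48 k37 6 (.d k24 k27 k36 0 5)))), (.s k5 k10 2 (.s k37 k48 6 (.s k21 k53 3 (.s k31 k16 2 (.d k63
  k47 k42 3 6))))), (.s k10 k5 2 (.s k42 k58 3 (.s k38 k50 5 (.s k34 k46 1 (.d k51 k17 k25 4 6)))))]
  (.c k85 (.q k95 [(.s k38 k50 5 (.s k25 k51 6 (.s k48 k37 6 (.d k24 k27 k36 0 5)))), (.s k5 k10 2
  (.s k37 k48 6 (.s k21 k53 3 (.s k31 k16 2 (.d k63 k47 k42 3 6))))), (.s k10 k5 2 (.s k42 k58 3 (.s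
  k38 k50 5 (.s k34 k46 1 (.d k51 k17 k25 4 6)))))] .n) (.c k95 (.q k85 [(.s k38 k50 5 (.s k25 k51 6
  (.s k48 k37 6 (.d k24 k27 k36 0 5)))), (.s k5 k10 2 (.s k37 k48 6 (.s k21 k53 3 (.s k31 k16 2 (.d
  k63 k47 k42 3 6))))), (.s k10 k5 2 (.s k42 k58 3 (.s k38 k50 5 (.s k34 k46 1 (.d k51 k17 k25 4
  6)))))] .n) .n)))) (.c k9 (.q k85 [(.s k8 k4 1 (.s k170 k255 14 (.s k89 k251 12 (.s k243 k166 14
  (.d k81 k93 k162 1 12))))), (.s k255 k170 14 (.s k13 k14 0 (.s k93 k174 12 (.s k173 k253 11 (.s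
  k94 k252 12 (.d k95 k92 k175 0 11)))))), (.s k8 k4 1 (.s k5 k10 2 (.s k170 k255 14 (.s k165 k245
  11 (.s k89 k251 12 (.d k13 k14 k241 0 13))))))] (.c k14 (.l (.s k4 k8 1 (.s k170 k255 14 (.s k166
  k247 12 (.s k243 k89 14 (.d k162 k174 k81 1 12)))))) (.c k170 (.l (.s k4 k8 1 (.s k166 k247 12 (.s
  k13 k14 0 (.s k89 k243 14 (.s k165 k241 13 (.d k5 k10 k245 2 11))))))) (.c k255 (.l (.s k5 k10 2
  (.s k165 k245 11 (.s k13 k14 0 (.s k89 k241 13 (.s k166 k243 14 (.d k4 k8 k247 1 12))))))) .n))))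
  (.c k10 (.q k170 [(.s k8 k4 1 (.s k89 k251 12 (.s k166 k243 14 (.s k174 k162 1 (.d k255 k85 k93 14
  12))))), (.s k255 k85 14 (.s k95 k175 11 (.s k93 k174 12 (.s k94 k92 0 (.s k173 k252 12 (.d k13
  k14 k253 0 11)))))), (.s k8 k4 1 (.s k89 k251 12 (.s k13 k14 0 (.s k165 k241 13 (.s k175 k160 2
  (.d k255 k95 k85 11 14))))))] (.c k85 (.q k95 [(.s k8 k4 1 (.s k89 k251 12 (.s k166 k243 14 (.s
  k255 k175 11 (.d k174 k162 k93 1 12))))), (.s k255 k175 11 (.s k93 k174 12 (.s k94 k92 0 (.s k173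
  k252 12 (.d k13 k14 k253 0 11))))), (.s k8 k4 1 (.s k89 k251 12 (.s k13 k14 0 (.s k165 k241 13 (.d
  k175 k160 k255 2 11)))))] (.c k175 (.l (.s k8 k4 1 (.s k89 k251 12 (.s k14 k13 0 (.s k166 k243 14
  (.s k174 k162 1 (.s k94 k254 11 (.d k93 k255 k92 12 0)))))))) (.c k255 (.q k166 [(.s k8 k4 1 (.d
  k89 k251 k243 12 14)), (.s k14 k13 0 (.s k174 k162 1 (.s k94 k254 11 (.s k252 k173 12 (.d k92 k93
  k172 0 11)))))] .n) .n))) (.c k95 (.l (.s k85 k255 14 (.s k4 k8 1 (.s k166 k247 12 (.s k243 k89 14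
  (.d k162 k174 k81 1 12)))))) (.c k255 (.f k14 k13 0 (.q k192 [(.s k72 k132 9 (.s k74 k133 10 (.s
  k134 k194 9 (.d k73 k75 k195 0 10)))), (.s k4 k8 1 (.s k128 k64 7 (.s k132 k72 9 (.s k68 k196 7
  (.d k136 k140 k204 1 9))))), (.s k4 k8 1 (.s k64 k128 7 (.s k74 k133 10 (.s k134 k194 9 (.d k69
  k79 k199 2 8)))))] (.c k85 (.q k95 [(.s k72 k132 9 (.s k74 k133 10 (.s k134 k194 9 (.d k73 k75
  k195 0 10)))), (.s k4 k8 1 (.s k128 k64 7 (.s k132 k72 9 (.s k68 k196 7 (.d k136 k140 k204 1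
  9))))), (.s k4 k8 1 (.s k64 k128 7 (.s k74 k133 10 (.s k134 k194 9 (.d k69 k79 k199 2 8)))))] .n)
  (.c k95 (.q k85 [(.s k8 k4 1 (.s k89 k251 12 (.s k243 k166 14 (.d k81 k93 k162 1 12)))), (.s k64
  k128 7 (.s k106 k127 6 (.s k42 k234 7 (.d k63 k21 k149 6 14))))] .n) .n)))) .n)))) (.c k11 (.l (.s
  k4 k8 1 (.s k13 k14 0 (.s k5 k10 2 (.s k9 k1 1 (.d k6 k7 k3 0 2)))))) (.c k13 (.f k4 k8 1 (.q k192
  [(.s k132 k72 9 (.s k68 k196 7 (.s k136 k204 9 (.d k128 k140 k64 1 7)))), (.s k5 k10 2 (.s k128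
  k64 7 (.s k133 k74 10 (.s k69 k197 7 (.d k138 k143 k207 2 10))))), (.s k5 k10 2 (.s k7 k6 0 (.s
  k132 k72 9 (.s k133 k74 10 (.d k196 k68 k70 7 8)))))] (.c k85 (.q k95 [(.s k132 k72 9 (.s k68 k196
  7 (.s k136 k204 9 (.d k128 k140 k64 1 7)))), (.s k5 k10 2 (.s k128 k64 7 (.s k133 k74 10 (.s k69
  k197 7 (.d k138 k143 k207 2 10))))), (.s k5 k10 2 (.s k7 k6 0 (.s k132 k72 9 (.s k133 k74 10 (.d
  k196 k68 k70 7 8)))))] .n) (.c k95 (.q k85 [(.s k128 k64 7 (.s k132 k72 9 (.s k68 k196 7 (.d k136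
  k140 k204 1 9)))), (.s k170 k255 14 (.s k166 k247 12 (.s k243 k89 14 (.d k162 k174 k81 1 12))))]
  .n) .n)))) (.c k14 (.f k4 k8 1 (.q k192 [(.s k132 k72 9 (.s k68 k196 7 (.s k136 k204 9 (.d k128
  k140 k64 1 7)))), (.s k5 k10 2 (.s k128 k64 7 (.s k133 k74 10 (.s k69 k197 7 (.d k138 k143 k207 2
  10))))), (.s k5 k10 2 (.s k132 k72 9 (.s k133 k74 10 (.s k69 k197 7 (.d k134 k135 k199 0 8)))))]
  (.c k85 (.q k95 [(.s k132 k72 9 (.s k68 k196 7 (.s k136 k204 9 (.d k128 k140 k64 1 7)))), (.s k5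
  k10 2 (.s k128 k64 7 (.s k133 k74 10 (.s k69 k197 7 (.d k138 k143 k207 2 10))))), (.s k5 k10 2 (.s
  k132 k72 9 (.s k133 k74 10 (.s k69 k197 7 (.d k134 k135 k199 0 8)))))] (.c k166 (.q k242 [(.s k132
  k72 9 (.s k68 k196 7 (.s k136 k204 9 (.d k128 k140 k64 1 7)))), (.s k5 k10 2 (.s k128 k64 7 (.s
  k133 k74 10 (.s k69 k197 7 (.d k138 k143 k207 2 10))))), (.s k5 k10 2 (.s k132 k72 9 (.s k133 k74
  10 (.s k69 k197 7 (.d k134 k135 k199 0 8)))))] .n) (.c k242 (.q k166 [(.s k132 k72 9 (.s k68 k196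
  7 (.s k136 k204 9 (.d k128 k140 k64 1 7)))), (.s k255 k175 11 (.s k174 k93 12 (.s k162 k170 1 (.d
  k243 k81 k89 12 14))))] .n) .n))) (.c k95 (.q k85 [(.s k170 k255 14 (.s k166 k247 12 (.s k243 k89
  14 (.d k162 k174 k81 1 12)))), (.s k128 k64 7 (.s k132 k72 9 (.s k68 k196 7 (.d k136 k140 k204 1
  9))))] (.c k166 (.q k242 [(.s k132 k72 9 (.s k68 k196 7 (.s k136 k204 9 (.d k128 k140 k64 1 7)))),
  (.s k5 k10 2 (.s k128 k64 7 (.s k133 k74 10 (.s k69 k197 7 (.d k138 k143 k207 2 10))))), (.s k5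
  k10 2 (.s k132 k72 9 (.s k133 k74 10 (.s k69 k197 7 (.d k134 k135 k199 0 8)))))] .n) (.c k242 (.l
  (.s k166 k247 12 (.s k170 k255 14 (.s k243 k89 14 (.d k162 k174 k81 1 12))))) .n))) (.c k166 (.q
  k242 [(.s k132 k72 9 (.s k68 k196 7 (.s k136 k204 9 (.d k128 k140 k64 1 7)))), (.s k5 k10 2 (.s
  k128 k64 7 (.s k133 k74 10 (.s k69 k197 7 (.d k138 k143 k207 2 10))))), (.s k5 k10 2 (.s k132 k72
  9 (.s k133 k74 10 (.s k69 k197 7 (.d k134 k135 k199 0 8)))))] (.c k85 (.q k95 [(.s k132 k72 9 (.s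
  k68 k196 7 (.s k136 k204 9 (.d k128 k140 k64 1 7)))), (.s k5 k10 2 (.s k128 k64 7 (.s k133 k74 10
  (.s k69 k197 7 (.d k138 k143 k207 2 10))))), (.s k5 k10 2 (.s k132 k72 9 (.s k133 k74 10 (.s k69
  k197 7 (.d k134 k135 k199 0 8)))))] .n) (.c k95 (.q k85 [(.s k132 k72 9 (.s k68 k196 7 (.s k136
  k204 9 (.d k128 k140 k64 1 7)))), (.s k5 k10 2 (.s k128 k64 7 (.s k133 k74 10 (.s k69 k197 7 (.d
  k138 k143 k207 2 10))))), (.s k5 k10 2 (.s k132 k72 9 (.s k133 k74 10 (.s k69 k197 7 (.d k134 k135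
  k199 0 8)))))] .n) .n))) (.c k242 (.q k166 [(.s k85 k247 12 (.s k170 k255 14 (.s k243 k89 14 (.d
  k162 k174 k81 1 12)))), (.s k128 k64 7 (.s k132 k72 9 (.s k68 k196 7 (.d k136 k140 k204 1 9))))]
  (.c k85 (.q k95 [(.s k132 k72 9 (.s k68 k196 7 (.s k136 k204 9 (.d k128 k140 k64 1 7)))), (.s k255
  k175 11 (.s k174 k93 12 (.s k162 k170 1 (.d k243 k81 k89 12 14))))] .n) (.c k95 (.l (.s k85 k247
  12 (.s k170 k255 14 (.s k243 k89 14 (.d k162 k174 k81 1 12))))) .n))) .n)))))) (.c k85 (.q k95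
  [(.s k4 k8 1 (.s k5 k10 2 (.s k6 k7 0 (.s k9 k3 2 (.d k13 k14 k1 0 1))))), (.s k13 k14 0 (.s k255
  k175 11 (.s k93 k174 12 (.s k173 k253 11 (.d k94 k92 k252 0 12)))))] (.c k1 (.l (.s k8 k4 1 (.s
  k10 k5 2 (.s k9 k11 0 (.s k6 k3 2 (.d k14 k13 k2 0 1)))))) (.c k13 (.q k26 [(.s k5 k10 2 (.s k37
  k48 6 (.s k21 k53 3 (.s k63 k42 6 (.d k31 k16 k47 2 3))))), (.s k4 k8 1 (.s k48 k37 6 (.s k32 k16
  3 (.s k36 k24 5 (.s k20 k52 3 (.d k40 k44 k60 1 5)))))), (.s k8 k4 1 (.s k10 k5 2 (.s k42 k58 3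
  (.s k25 k59 4 (.s k51 k38 6 (.d k27 k24 k39 0 5))))))] .n) (.c k14 (.f k4 k8 1 (.q k192 [(.s k132
  k72 9 (.s k68 k196 7 (.s k136 k204 9 (.d k128 k140 k64 1 7)))), (.s k5 k10 2 (.s k128 k64 7 (.s
  k133 k74 10 (.s k69 k197 7 (.d k138 k143 k207 2 10))))), (.s k5 k10 2 (.s k132 k72 9 (.s k133 k74
  10 (.s k69 k197 7 (.d k134 k135 k199 0 8)))))] (.c k166 (.q k242 [(.s k132 k72 9 (.s k68 k196 7
  (.s k136 k204 9 (.d k128 k140 k64 1 7)))), (.s k5 k10 2 (.s k128 k64 7 (.s k133 k74 10 (.s k69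
  k197 7 (.d k138 k143 k207 2 10))))), (.s k5 k10 2 (.s k132 k72 9 (.s k133 k74 10 (.s k69 k197 7
  (.d k134 k135 k199 0 8)))))] .n) (.c k242 (.q k166 [(.s k132 k72 9 (.s k68 k196 7 (.s k136 k204 9
  (.d k128 k140 k64 1 7)))), (.s k255 k175 11 (.s k174 k93 12 (.s k162 k170 1 (.d k243 k81 k89 12
  14))))] .n) .n)))) .n)))) (.c k95 (.q k85 [(.s k4 k8 1 (.s k5 k10 2 (.s k6 k7 0 (.s k9 k3 2 (.d
  k13 k14 k1 0 1))))), (.s k4 k8 1 (.s k170 k255 14 (.s k166 k247 12 (.s k243 k89 14 (.d k162 k174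
  k81 1 12))))), (.s k5 k10 2 (.s k165 k245 11 (.s k13 k14 0 (.s k89 k241 13 (.s k81 k93 1 (.d k243
  k166 k162 14 12))))))] (.c k170 (.l (.s k8 k4 1 (.s k10 k5 2 (.s k9 k11 0 (.s k6 k3 2 (.d k14 k13
  k2 0 1)))))) .n)) .n))))))))))))))))

def t81 : T TT 256 :=
  (.q k21 [(.s k10 k5 2 (.s k42 k63 6 (.s k26 k58 3 (.s k48 k37 6 (.d k16 k31 k32 2 3)))))] (.c k5
  (.q k12 [(.s k4 k8 1 (.s k42 k63 6 (.s k38 k55 4 (.s k51 k25 6 (.d k34 k46 k17 1 4))))), (.s k63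
  k42 6 (.s k14 k13 0 (.s k46 k29 4 (.s k30 k62 3 (.s k45 k60 4 (.d k47 k44 k31 0 3)))))), (.s k4 k8
  1 (.s k38 k55 4 (.s k14 k13 0 (.s k26 k50 5 (.s k16 k31 2 (.d k48 k32 k37 3 6))))))] .n) (.c k10
  (.q k12 [(.s k8 k4 1 (.s k42 k63 6 (.s k25 k59 4 (.s k51 k38 6 (.d k17 k29 k34 1 4))))), (.s k63
  k42 6 (.s k14 k13 0 (.s k46 k29 4 (.s k30 k62 3 (.s k45 k60 4 (.d k47 k44 k31 0 3)))))), (.s k4 k8
  1 (.s k38 k55 4 (.s k14 k13 0 (.s k26 k50 5 (.s k16 k31 2 (.d k48 k32 k37 3 6))))))] (.c k170 (.q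
  k250 [(.s k8 k4 1 (.s k42 k63 6 (.s k25 k59 4 (.s k51 k38 6 (.d k17 k29 k34 1 4))))), (.s k63 k42
  6 (.s k14 k13 0 (.s k46 k29 4 (.s k30 k62 3 (.s k45 k60 4 (.d k47 k44 k31 0 3)))))), (.s k4 k8 1
  (.s k38 k55 4 (.s k14 k13 0 (.s k26 k50 5 (.s k16 k31 2 (.d k48 k32 k37 3 6))))))] .n) (.c k250
  (.q k170 [(.s k8 k4 1 (.s k42 k63 6 (.s k25 k59 4 (.s k51 k38 6 (.d k17 k29 k34 1 4))))), (.s k63
  k42 6 (.s k85 k255 14 (.s k149 k213 7 (.s k192 k106 14 (.d k128 k191 k64 6 7))))), (.s k8 k4 1 (.s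
  k255 k85 14 (.s k89 k251 12 (.s k166 k243 14 (.d k174 k93 k162 12 1)))))] .n) .n))) (.c k16 (.f
  k10 k5 2 (.q k12 [(.s k14 k13 0 (.s k8 k4 1 (.s k6 k2 1 (.d k9 k11 k3 0 2)))), (.s k4 k8 1 (.s k42
  k63 6 (.s k38 k55 4 (.s k51 k25 6 (.d k34 k46 k17 1 4))))), (.s k42 k63 6 (.s k26 k58 3 (.s k14
  k13 0 (.s k38 k50 5 (.s k51 k25 6 (.d k34 k46 k17 1 4))))))] (.c k146 (.q k211 [(.s k14 k13 0 (.s
  k8 k4 1 (.s k6 k2 1 (.d k9 k11 k3 0 2)))), (.s k4 k8 1 (.s k42 k63 6 (.s k38 k55 4 (.s k51 k25 6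
  (.d k34 k46 k17 1 4))))), (.s k42 k63 6 (.s k26 k58 3 (.s k14 k13 0 (.s k38 k50 5 (.s k51 k25 6
  (.d k34 k46 k17 1 4))))))] .n) (.c k211 (.q k146 [(.s k14 k13 0 (.s k8 k4 1 (.s k6 k2 1 (.d k9 k11
  k3 0 2)))), (.s k4 k8 1 (.s k42 k63 6 (.s k38 k55 4 (.s k51 k25 6 (.d k34 k46 k17 1 4))))), (.s
  k42 k63 6 (.s k26 k58 3 (.s k14 k13 0 (.s k38 k50 5 (.s k51 k25 6 (.d k34 k46 k17 1 4))))))] .n)
  .n)))) (.c k26 (.f k10 k5 2 (.q k12 [(.s k14 k13 0 (.s k8 k4 1 (.s k6 k2 1 (.d k9 k11 k3 0 2)))),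
  (.s k4 k8 1 (.s k42 k63 6 (.s k38 k55 4 (.s k51 k25 6 (.d k34 k46 k17 1 4))))), (.s k63 k42 6 (.s
  k13 k14 0 (.s k29 k46 4 (.s k45 k61 3 (.s k30 k60 4 (.d k31 k28 k47 0 3))))))] (.c k154 (.q k218
  [(.s k14 k13 0 (.s k8 k4 1 (.s k6 k2 1 (.d k9 k11 k3 0 2)))), (.s k4 k8 1 (.s k42 k63 6 (.s k38
  k55 4 (.s k51 k25 6 (.d k34 k46 k17 1 4))))), (.s k63 k42 6 (.s k13 k14 0 (.s k29 k46 4 (.s k45
  k61 3 (.s k30 k60 4 (.d k31 k28 k47 0 3))))))] .n) (.c k218 (.q k154 [(.s k14 k13 0 (.s k8 k4 1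
  (.s k6 k2 1 (.d k9 k11 k3 0 2)))), (.s k4 k8 1 (.s k42 k63 6 (.s k38 k55 4 (.s k51 k25 6 (.d k34
  k46 k17 1 4))))), (.s k63 k42 6 (.s k13 k14 0 (.s k29 k46 4 (.s k45 k61 3 (.s k30 k60 4 (.d k31
  k28 k47 0 3))))))] .n) .n)))) (.c k31 (.l (.s k5 k10 2 (.s k42 k63 6 (.s k37 k53 3 (.s k48 k26 6
  (.d k32 k47 k16 2 3)))))) (.c k32 (.l (.s k5 k10 2 (.s k63 k42 6 (.s k37 k53 3 (.s k26 k48 6 (.d
  k31 k47 k16 3 2)))))) (.c k37 (.q k12 [(.s k4 k8 1 (.s k42 k63 6 (.s k38 k55 4 (.s k34 k46 1 (.d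
  k51 k17 k25 4 6))))), (.s k4 k8 1 (.s k5 k10 2 (.s k6 k7 0 (.s k9 k3 2 (.d k13 k14 k1 0 1))))),
  (.s k5 k10 2 (.s k63 k42 6 (.s k13 k14 0 (.s k29 k46 4 (.s k61 k45 3 (.d k1 k41 k9 5 1))))))] .n)
  (.c k42 (.q k12 [(.s k8 k4 1 (.s k10 k5 2 (.s k9 k11 0 (.s k6 k3 2 (.d k14 k13 k2 0 1))))), (.s k4
  k8 1 (.s k38 k55 4 (.s k14 k13 0 (.s k26 k50 5 (.s k48 k37 6 (.d k16 k32 k31 3 2)))))), (.s k5 k10
  2 (.s k37 k53 3 (.s k13 k14 0 (.s k25 k49 5 (.s k51 k38 6 (.d k17 k34 k29 4 1)))))), (.s k4 k8 1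
  (.s k5 k10 2 (.s k38 k55 4 (.s k37 k53 3 (.s k36 k39 0 (.d k48 k26 k24 6 5))))))] .n) (.c k48 (.q
  k12 [(.s k4 k8 1 (.s k42 k63 6 (.s k38 k55 4 (.s k51 k25 6 (.d k34 k46 k17 1 4))))), (.s k4 k8 1
  (.s k5 k10 2 (.s k6 k7 0 (.s k9 k3 2 (.d k13 k14 k1 0 1))))), (.s k5 k10 2 (.s k63 k42 6 (.s k37
  k53 3 (.s k13 k14 0 (.s k29 k46 4 (.d k25 k17 k49 1 5))))))] .n) (.c k53 (.l (.s k10 k5 2 (.s k42
  k63 6 (.s k26 k58 3 (.s k48 k37 6 (.d k16 k31 k32 2 3)))))) (.c k58 (.l (.s k5 k10 2 (.s k42 k63 6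
  (.s k37 k53 3 (.s k48 k26 6 (.d k32 k47 k16 2 3)))))) (.c k63 (.q k12 [(.s k8 k4 1 (.s k14 k13 0
  (.s k10 k5 2 (.s k6 k2 1 (.d k9 k11 k3 0 2))))), (.s k4 k8 1 (.s k38 k55 4 (.s k14 k13 0 (.s k26
  k50 5 (.s k48 k37 6 (.d k16 k31 k32 2 3)))))), (.s k5 k10 2 (.s k37 k53 3 (.s k13 k14 0 (.s k25
  k49 5 (.s k51 k38 6 (.d k17 k29 k34 1 4)))))), (.s k4 k8 1 (.s k5 k10 2 (.s k38 k55 4 (.s k37 k53
  3 (.s k51 k25 6 (.d k39 k36 k27 0 5))))))] .n) .n)))))))))))))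

def t82 : T TT 256 :=
  (.q k42 [(.s k10 k5 2 (.s k63 k21 6 (.s k26 k58 3 (.s k37 k48 6 (.d k47 k32 k31 2 3)))))] (.c k5
  (.q k12 [(.s k4 k8 1 (.s k21 k63 6 (.s k38 k55 4 (.s k51 k25 6 (.d k34 k46 k17 1 4))))), (.s k63
  k21 6 (.s k13 k14 0 (.s k29 k46 4 (.s k45 k61 3 (.s k30 k60 4 (.d k31 k28 k47 0 3)))))), (.s k8 k4
  1 (.s k25 k59 4 (.s k13 k14 0 (.s k37 k49 5 (.s k48 k26 6 (.d k32 k47 k16 2 3))))))] (.c k86 (.q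
  k94 [(.s k4 k8 1 (.s k21 k63 6 (.s k38 k55 4 (.s k51 k25 6 (.d k34 k46 k17 1 4))))), (.s k13 k14 0
  (.s k173 k252 12 (.s k93 k253 11 (.s k255 k174 12 (.d k95 k92 k175 0 11)))))] .n) (.c k94 (.q k86
  [(.s k4 k8 1 (.s k21 k63 6 (.s k38 k55 4 (.s k51 k25 6 (.d k34 k46 k17 1 4))))), (.s k63 k21 6 (.s
  k13 k14 0 (.s k29 k46 4 (.s k45 k61 3 (.s k30 k60 4 (.d k31 k28 k47 0 3)))))), (.s k8 k4 1 (.s k25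
  k59 4 (.s k13 k14 0 (.s k37 k49 5 (.s k48 k26 6 (.d k32 k47 k16 2 3))))))] .n) .n))) (.c k10 (.f
  k63 k21 6 (.q k170 [(.s k85 k255 14 (.s k106 k234 7 (.s k64 k127 6 (.d k192 k128 k149 7 14)))),
  (.s k47 k31 3 (.s k32 k37 2 (.s k101 k239 10 (.s k106 k234 7 (.s k224 k165 10 (.d k96 k111 k160 2
  7)))))), (.s k255 k85 14 (.s k47 k31 3 (.s k32 k37 2 (.s k239 k101 10 (.d k175 k95 k111 11 7)))))]
  (.c k86 (.q k94 [(.s k85 k255 14 (.s k106 k234 7 (.s k64 k127 6 (.d k192 k128 k149 7 14)))), (.s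
  k31 k47 3 (.s k173 k252 12 (.s k157 k220 8 (.s k204 k110 12 (.d k141 k189 k78 3 8)))))] .n) (.c
  k94 (.q k86 [(.s k85 k255 14 (.s k106 k234 7 (.s k64 k127 6 (.d k192 k128 k149 7 14)))), (.s k2
  k254 13 (.s k3 k1 0 (.s k22 k62 5 (.s k41 k60 6 (.d k43 k40 k23 0 5)))))] .n) (.c k149 (.f k31 k47
  3 (.l (.s k234 k106 7 (.s k255 k85 14 (.s k213 k192 6 (.s k95 k175 11 (.s k159 k223 7 (.s k111
  k207 11 (.d k127 k79 k191 3 7))))))))) .n))))) (.c k21 (.q k12 [(.s k4 k8 1 (.s k5 k10 2 (.s k6 k7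
  0 (.s k9 k3 2 (.d k13 k14 k1 0 1))))), (.s k8 k4 1 (.s k25 k59 4 (.s k13 k14 0 (.s k37 k49 5 (.s
  k48 k26 6 (.d k32 k16 k47 3 2)))))), (.s k10 k5 2 (.s k26 k58 3 (.s k14 k13 0 (.s k38 k50 5 (.s
  k51 k25 6 (.d k34 k17 k46 4 1)))))), (.s k8 k4 1 (.s k10 k5 2 (.s k25 k59 4 (.s k26 k58 3 (.s k24
  k27 0 (.d k48 k37 k36 6 5))))))] (.c k86 (.q k94 [(.s k14 k13 0 (.s k174 k254 11 (.s k93 k255 12
  (.s k252 k173 12 (.d k92 k95 k172 0 11))))), (.s k4 k8 1 (.s k5 k10 2 (.s k6 k7 0 (.s k13 k14 0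
  (.d k9 k1 k3 1 2))))), (.s k4 k8 1 (.s k252 k173 12 (.s k84 k168 13 (.s k164 k244 11 (.s k88 k240
  13 (.d k92 k80 k172 1 11))))))] .n) (.c k94 (.q k86 [(.s k4 k8 1 (.s k5 k10 2 (.s k6 k7 0 (.s k9
  k3 2 (.d k13 k14 k1 0 1))))), (.s k8 k4 1 (.s k25 k59 4 (.s k13 k14 0 (.s k37 k49 5 (.s k48 k26 6
  (.d k32 k16 k47 3 2)))))), (.s k10 k5 2 (.s k26 k58 3 (.s k14 k13 0 (.s k38 k50 5 (.s k51 k25 6
  (.d k34 k17 k46 4 1)))))), (.s k8 k4 1 (.s k10 k5 2 (.s k25 k59 4 (.s k26 k58 3 (.s k24 k27 0 (.d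
  k48 k37 k36 6 5))))))] .n) .n))) (.c k26 (.f k63 k21 6 (.f k31 k47 3 (.q k30 [(.s k45 k60 4 (.s
  k29 k28 0 (.s k12 k46 4 (.d k13 k14 k61 0 3)))), (.s k60 k45 4 (.s k40 k20 5 (.s k41 k43 0 (.s k22
  k3 6 (.d k62 k61 k2 0 5))))), (.s k5 k10 2 (.s k29 k28 0 (.s k12 k46 4 (.s k4 k8 1 (.s k6 k7 0 (.s
  k9 k3 2 (.d k13 k14 k1 0 1)))))))] (.c k44 (.l (.s k45 k60 4 (.s k29 k28 0 (.s k12 k46 4 (.d k13
  k14 k61 0 3))))) (.c k45 (.l (.s k29 k28 0 (.s k46 k12 4 (.s k62 k14 3 (.s k22 k2 5 (.s k60 k61 0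
  (.s k40 k20 5 (.d k41 k43 k3 0 6)))))))) (.c k46 (.l (.s k28 k29 0 (.s k60 k45 4 (.s k44 k12 3 (.s
  k40 k20 5 (.s k41 k43 0 (.s k22 k3 6 (.d k62 k61 k2 0 5)))))))) (.c k86 (.q k94 [(.s k45 k60 4 (.s
  k29 k28 0 (.s k12 k46 4 (.d k13 k14 k61 0 3)))), (.s k173 k252 12 (.s k157 k220 8 (.s k204 k110 12
  (.d k141 k189 k78 3 8))))] (.c k154 (.q k218 [(.s k45 k60 4 (.s k29 k28 0 (.s k12 k46 4 (.d k13
  k14 k61 0 3)))), (.s k173 k252 12 (.s k157 k220 8 (.s k204 k110 12 (.d k141 k189 k78 3 8))))] (.c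
  k18 (.l (.s k222 k158 7 (.s k45 k60 4 (.s k29 k28 0 (.s k12 k46 4 (.d k13 k14 k61 0 3)))))) (.c
  k222 (.q k18 [(.s k45 k60 4 (.s k29 k28 0 (.s k12 k46 4 (.d k13 k14 k61 0 3)))), (.s k173 k252 12
  (.s k157 k220 8 (.s k204 k110 12 (.d k141 k189 k78 3 8))))] .n) .n))) (.c k218 (.q k154 [(.s k45
  k60 4 (.s k29 k28 0 (.s k12 k46 4 (.d k13 k14 k61 0 3)))), (.s k173 k252 12 (.s k157 k220 8 (.s
  k204 k110 12 (.d k141 k189 k78 3 8))))] .n) .n))) (.c k94 (.q k86 [(.s k45 k60 4 (.s k29 k28 0 (.s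
  k12 k46 4 (.d k13 k14 k61 0 3)))), (.s k60 k45 4 (.s k40 k20 5 (.s k41 k43 0 (.s k22 k3 6 (.d k62
  k61 k2 0 5))))), (.s k5 k10 2 (.s k29 k28 0 (.s k12 k46 4 (.s k4 k8 1 (.s k6 k7 0 (.s k9 k3 2 (.d
  k13 k14 k1 0 1)))))))] (.c k44 (.l (.s k45 k60 4 (.s k29 k28 0 (.s k12 k46 4 (.d k13 k14 k61 0
  3))))) (.c k45 (.l (.s k29 k28 0 (.s k46 k12 4 (.s k62 k14 3 (.s k22 k2 5 (.s k60 k61 0 (.s k40
  k20 5 (.d k41 k43 k3 0 6)))))))) (.c k46 (.l (.s k28 k29 0 (.s k60 k45 4 (.s k44 k12 3 (.s k40 k20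
  5 (.s k41 k43 0 (.s k22 k3 6 (.d k62 k61 k2 0 5)))))))) (.c k154 (.q k218 [(.s k45 k60 4 (.s k29
  k28 0 (.s k12 k46 4 (.d k13 k14 k61 0 3)))), (.s k60 k45 4 (.s k40 k20 5 (.s k41 k43 0 (.s k22 k3
  6 (.d k62 k61 k2 0 5))))), (.s k5 k10 2 (.s k29 k28 0 (.s k12 k46 4 (.s k4 k8 1 (.s k6 k7 0 (.s k9
  k3 2 (.d k13 k14 k1 0 1)))))))] (.c k44 (.l (.s k45 k60 4 (.s k29 k28 0 (.s k12 k46 4 (.d k13 k14
  k61 0 3))))) (.c k45 (.l (.s k29 k28 0 (.s k46 k12 4 (.s k62 k14 3 (.s k22 k2 5 (.s k60 k61 0 (.s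
  k40 k20 5 (.d k41 k43 k3 0 6)))))))) (.c k46 (.l (.s k28 k29 0 (.s k60 k45 4 (.s k44 k12 3 (.s k40
  k20 5 (.s k41 k43 0 (.s k22 k3 6 (.d k62 k61 k2 0 5)))))))) .n)))) (.c k218 (.q k154 [(.s k45 k60
  4 (.s k29 k28 0 (.s k12 k46 4 (.d k13 k14 k61 0 3)))), (.s k60 k45 4 (.s k40 k20 5 (.s k41 k43 0
  (.s k22 k3 6 (.d k62 k61 k2 0 5))))), (.s k18 k222 9 (.s k29 k28 0 (.s k46 k12 4 (.s k62 k14 3 (.s
  k2 k22 5 (.d k34 k38 k50 1 3))))))] (.c k44 (.l (.s k45 k60 4 (.s k29 k28 0 (.s k12 k46 4 (.d k13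
  k14 k61 0 3))))) (.c k46 (.l (.s k28 k29 0 (.s k60 k45 4 (.s k44 k12 3 (.s k40 k20 5 (.s k41 k43 0
  (.s k22 k3 6 (.d k62 k61 k2 0 5)))))))) (.c k60 (.l (.s k5 k10 2 (.s k29 k28 0 (.s k12 k46 4 (.s
  k4 k8 1 (.s k6 k7 0 (.s k9 k3 2 (.d k13 k14 k1 0 1)))))))) .n)))) .n)))))) (.c k154 (.q k218 [(.s
  k45 k60 4 (.s k29 k28 0 (.s k12 k46 4 (.d k13 k14 k61 0 3)))), (.s k60 k45 4 (.s k40 k20 5 (.s k41
  k43 0 (.s k22 k3 6 (.d k62 k61 k2 0 5))))), (.s k5 k10 2 (.s k29 k28 0 (.s k12 k46 4 (.s k4 k8 1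
  (.s k6 k7 0 (.s k9 k3 2 (.d k13 k14 k1 0 1)))))))] (.c k44 (.l (.s k45 k60 4 (.s k29 k28 0 (.s k12
  k46 4 (.d k13 k14 k61 0 3))))) (.c k45 (.l (.s k29 k28 0 (.s k46 k12 4 (.s k62 k14 3 (.s k22 k2 5
  (.s k60 k61 0 (.s k40 k20 5 (.d k41 k43 k3 0 6)))))))) (.c k46 (.l (.s k28 k29 0 (.s k60 k45 4 (.s
  k44 k12 3 (.s k40 k20 5 (.s k41 k43 0 (.s k22 k3 6 (.d k62 k61 k2 0 5)))))))) (.c k86 (.q k94 [(.s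
  k45 k60 4 (.s k29 k28 0 (.s k12 k46 4 (.d k13 k14 k61 0 3)))), (.s k173 k252 12 (.s k157 k220 8
  (.s k204 k110 12 (.d k141 k189 k78 3 8))))] (.c k18 (.l (.s k222 k158 7 (.s k45 k60 4 (.s k29 k28
  0 (.s k12 k46 4 (.d k13 k14 k61 0 3)))))) (.c k222 (.q k18 [(.s k45 k60 4 (.s k29 k28 0 (.s k12
  k46 4 (.d k13 k14 k61 0 3)))), (.s k173 k252 12 (.s k157 k220 8 (.s k204 k110 12 (.d k141 k189 k78
  3 8))))] .n) .n))) (.c k94 (.q k86 [(.s k45 k60 4 (.s k29 k28 0 (.s k12 k46 4 (.d k13 k14 k61 0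
  3)))), (.s k60 k45 4 (.s k40 k20 5 (.s k41 k43 0 (.s k22 k3 6 (.d k62 k61 k2 0 5))))), (.s k5 k10
  2 (.s k29 k28 0 (.s k12 k46 4 (.s k4 k8 1 (.s k6 k7 0 (.s k9 k3 2 (.d k13 k14 k1 0 1)))))))] (.c
  k44 (.l (.s k45 k60 4 (.s k29 k28 0 (.s k12 k46 4 (.d k13 k14 k61 0 3))))) (.c k45 (.l (.s k29 k28
  0 (.s k46 k12 4 (.s k62 k14 3 (.s k22 k2 5 (.s k60 k61 0 (.s k40 k20 5 (.d k41 k43 k3 0 6))))))))
  (.c k46 (.l (.s k28 k29 0 (.s k60 k45 4 (.s k44 k12 3 (.s k40 k20 5 (.s k41 k43 0 (.s k22 k3 6 (.d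
  k62 k61 k2 0 5)))))))) .n)))) .n)))))) (.c k218 (.q k154 [(.s k45 k60 4 (.s k29 k28 0 (.s k12 k46
  4 (.d k13 k14 k61 0 3)))), (.s k60 k45 4 (.s k40 k20 5 (.s k41 k43 0 (.s k22 k3 6 (.d k62 k61 k2 0
  5))))), (.s k5 k10 2 (.s k29 k28 0 (.s k12 k46 4 (.s k4 k8 1 (.s k6 k7 0 (.s k9 k3 2 (.d k13 k14
  k1 0 1)))))))] (.c k44 (.l (.s k45 k60 4 (.s k29 k28 0 (.s k12 k46 4 (.d k13 k14 k61 0 3))))) (.c
  k45 (.l (.s k29 k28 0 (.s k46 k12 4 (.s k62 k14 3 (.s k22 k2 5 (.s k60 k61 0 (.s k40 k20 5 (.d k41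
  k43 k3 0 6)))))))) (.c k46 (.l (.s k28 k29 0 (.s k60 k45 4 (.s k44 k12 3 (.s k40 k20 5 (.s k41 k43
  0 (.s k22 k3 6 (.d k62 k61 k2 0 5)))))))) (.c k86 (.q k94 [(.s k45 k60 4 (.s k29 k28 0 (.s k12 k46
  4 (.d k13 k14 k61 0 3)))), (.s k173 k252 12 (.s k157 k220 8 (.s k204 k110 12 (.d k141 k189 k78 3
  8))))] .n) (.c k94 (.q k86 [(.s k45 k60 4 (.s k29 k28 0 (.s k12 k46 4 (.d k13 k14 k61 0 3)))), (.s
  k60 k45 4 (.s k40 k20 5 (.s k41 k43 0 (.s k22 k3 6 (.d k62 k61 k2 0 5))))), (.s k18 k222 9 (.s k29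
  k28 0 (.s k46 k12 4 (.s k62 k14 3 (.s k2 k22 5 (.d k34 k38 k50 1 3))))))] (.c k44 (.l (.s k45 k60
  4 (.s k29 k28 0 (.s k12 k46 4 (.d k13 k14 k61 0 3))))) (.c k46 (.l (.s k28 k29 0 (.s k60 k45 4 (.s
  k44 k12 3 (.s k40 k20 5 (.s k41 k43 0 (.s k22 k3 6 (.d k62 k61 k2 0 5)))))))) (.c k60 (.l (.s k5
  k10 2 (.s k29 k28 0 (.s k12 k46 4 (.s k4 k8 1 (.s k6 k7 0 (.s k9 k3 2 (.d k13 k14 k1 0 1))))))))
  .n)))) .n)))))) .n)))))))))) (.c k31 (.l (.s k5 k10 2 (.s k21 k63 6 (.s k37 k53 3 (.s k48 k26 6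
  (.d k32 k47 k16 2 3)))))) (.c k32 (.f k63 k21 6 (.f k31 k47 3 (.q k12 [(.s k8 k4 1 (.s k25 k59 4
  (.s k38 k51 6 (.d k46 k34 k29 1 4)))), (.s k13 k14 0 (.s k29 k46 4 (.s k45 k61 3 (.d k30 k28 k60 0
  4)))), (.s k4 k8 1 (.s k5 k10 2 (.s k6 k7 0 (.s k9 k3 2 (.d k13 k14 k1 0 1)))))] (.c k86 (.q k94
  [(.s k8 k4 1 (.s k25 k59 4 (.s k38 k51 6 (.d k46 k34 k29 1 4)))), (.s k173 k252 12 (.s k157 k220 8
  (.s k204 k110 12 (.d k141 k189 k78 3 8))))] .n) (.c k94 (.q k86 [(.s k8 k4 1 (.s k25 k59 4 (.s k38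
  k51 6 (.d k46 k34 k29 1 4)))), (.s k13 k14 0 (.s k29 k46 4 (.s k45 k61 3 (.d k30 k28 k60 0 4)))),
  (.s k4 k8 1 (.s k5 k10 2 (.s k6 k7 0 (.s k9 k3 2 (.d k13 k14 k1 0 1)))))] .n) .n))))) (.c k37 (.f
  k21 k63 6 (.f k10 k5 2 (.q k12 [(.s k4 k8 1 (.s k38 k55 4 (.s k34 k46 1 (.d k51 k17 k25 4 6)))),
  (.s k8 k4 1 (.s k9 k11 0 (.s k6 k3 2 (.d k14 k13 k2 0 1)))), (.s k26 k58 3 (.s k14 k13 0 (.s k38
  k50 5 (.s k34 k46 1 (.d k51 k25 k17 6 4)))))] (.c k86 (.q k94 [(.s k4 k8 1 (.s k38 k55 4 (.s k34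
  k46 1 (.d k51 k17 k25 4 6)))), (.s k8 k4 1 (.s k9 k11 0 (.s k6 k3 2 (.d k14 k13 k2 0 1)))), (.s
  k26 k58 3 (.s k14 k13 0 (.s k38 k50 5 (.s k34 k46 1 (.d k51 k25 k17 6 4)))))] .n) (.c k94 (.q k86
  [(.s k4 k8 1 (.s k38 k55 4 (.s k34 k46 1 (.d k51 k17 k25 4 6)))), (.s k8 k4 1 (.s k9 k11 0 (.s k6
  k3 2 (.d k14 k13 k2 0 1)))), (.s k26 k58 3 (.s k14 k13 0 (.s k38 k50 5 (.s k34 k46 1 (.d k51 k25
  k17 6 4)))))] .n) .n))))) (.c k47 (.l (.s k10 k5 2 (.s k21 k63 6 (.s k26 k58 3 (.s k48 k37 6 (.d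
  k16 k31 k32 2 3)))))) (.c k48 (.f k63 k21 6 (.f k31 k47 3 (.q k12 [(.s k8 k4 1 (.s k25 k59 4 (.s
  k46 k29 4 (.d k38 k34 k51 1 6)))), (.s k13 k14 0 (.s k29 k46 4 (.s k45 k61 3 (.d k30 k28 k60 0
  4)))), (.s k4 k8 1 (.s k5 k10 2 (.s k6 k7 0 (.s k9 k3 2 (.d k13 k14 k1 0 1)))))] (.c k86 (.q k94
  [(.s k8 k4 1 (.s k25 k59 4 (.s k46 k29 4 (.d k38 k34 k51 1 6)))), (.s k173 k252 12 (.s k157 k220 8
  (.s k204 k110 12 (.d k141 k189 k78 3 8))))] .n) (.c k94 (.q k86 [(.s k8 k4 1 (.s k25 k59 4 (.s k46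
  k29 4 (.d k38 k34 k51 1 6)))), (.s k13 k14 0 (.s k29 k46 4 (.s k45 k61 3 (.d k30 k28 k60 0 4)))),
  (.s k4 k8 1 (.s k5 k10 2 (.s k6 k7 0 (.s k9 k3 2 (.d k13 k14 k1 0 1)))))] .n) .n))))) (.c k53 (.l
  (.s k10 k5 2 (.s k21 k63 6 (.s k26 k58 3 (.s k48 k37 6 (.d k16 k31 k32 2 3)))))) (.c k58 (.l (.s
  k5 k10 2 (.s k21 k63 6 (.s k37 k53 3 (.s k48 k26 6 (.d k32 k47 k16 2 3)))))) (.c k63 (.q k12 [(.s
  k8 k4 1 (.s k14 k13 0 (.s k10 k5 2 (.s k6 k2 1 (.d k9 k11 k3 0 2))))), (.s k8 k4 1 (.s k25 k59 4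
  (.s k13 k14 0 (.s k37 k49 5 (.s k48 k26 6 (.d k32 k47 k16 2 3)))))), (.s k10 k5 2 (.s k26 k58 3
  (.s k14 k13 0 (.s k38 k50 5 (.s k51 k25 6 (.d k34 k46 k17 1 4)))))), (.s k8 k4 1 (.s k10 k5 2 (.s
  k25 k59 4 (.s k26 k58 3 (.s k51 k38 6 (.d k27 k24 k39 0 5))))))] (.c k86 (.q k94 [(.s k14 k13 0
  (.s k174 k254 11 (.s k93 k255 12 (.s k252 k173 12 (.d k92 k95 k172 0 11))))), (.s k4 k8 1 (.s k5
  k10 2 (.s k6 k7 0 (.s k13 k14 0 (.d k9 k1 k3 1 2))))), (.s k4 k8 1 (.s k252 k173 12 (.s k84 k168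
  13 (.s k164 k244 11 (.s k88 k240 13 (.d k92 k80 k172 1 11))))))] .n) (.c k94 (.q k86 [(.s k8 k4 1
  (.s k14 k13 0 (.s k10 k5 2 (.s k6 k2 1 (.d k9 k11 k3 0 2))))), (.s k8 k4 1 (.s k25 k59 4 (.s k13
  k14 0 (.s k37 k49 5 (.s k48 k26 6 (.d k32 k47 k16 2 3)))))), (.s k10 k5 2 (.s k26 k58 3 (.s k14
  k13 0 (.s k38 k50 5 (.s k51 k25 6 (.d k34 k46 k17 1 4)))))), (.s k8 k4 1 (.s k10 k5 2 (.s k25 k59
  4 (.s k26 k58 3 (.s k51 k38 6 (.d k27 k24 k39 0 5))))))] .n) .n))) (.c k86 (.q k94 [(.s k10 k5 2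
  (.s k63 k21 6 (.s k26 k58 3 (.s k37 k48 6 (.d k47 k32 k31 2 3))))), (.s k63 k21 6 (.s k31 k47 3
  (.s k173 k252 12 (.s k157 k220 8 (.s k204 k110 12 (.d k141 k189 k78 3 8))))))] (.c k21 (.q k31
  [(.s k10 k5 2 (.s k26 k58 3 (.s k37 k48 6 (.d k47 k63 k32 3 2)))), (.s k63 k47 3 (.s k173 k252 12
  (.s k157 k220 8 (.s k204 k110 12 (.d k141 k189 k78 3 8))))), (.s k10 k5 2 (.s k26 k58 3 (.s k252
  k173 12 (.s k84 k168 13 (.s k220 k157 8 (.s k16 k152 9 (.d k48 k37 k32 6 3)))))))] .n) (.c k31 (.l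
  (.s k5 k10 2 (.s k21 k63 6 (.s k37 k53 3 (.s k48 k26 6 (.d k32 k47 k16 2 3)))))) (.c k47 (.l (.s
  k10 k5 2 (.s k21 k63 6 (.s k26 k58 3 (.s k48 k37 6 (.d k16 k31 k32 2 3)))))) (.c k63 (.f k10 k5 2
  (.l (.s k26 k58 3 (.s k48 k37 6 (.s k16 k32 3 (.s k252 k173 12 (.s k84 k168 13 (.s k220 k152 9 (.d
  k31 k21 k157 2 8))))))))) .n))))) (.c k94 (.q k86 [(.s k10 k5 2 (.s k63 k21 6 (.s k26 k58 3 (.s
  k37 k48 6 (.d k47 k32 k31 2 3)))))] (.c k5 (.q k12 [(.s k4 k8 1 (.s k21 k63 6 (.s k38 k55 4 (.s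
  k51 k25 6 (.d k34 k46 k17 1 4))))), (.s k63 k21 6 (.s k13 k14 0 (.s k29 k46 4 (.s k45 k61 3 (.s
  k30 k60 4 (.d k31 k28 k47 0 3)))))), (.s k8 k4 1 (.s k25 k59 4 (.s k13 k14 0 (.s k37 k49 5 (.s k48
  k26 6 (.d k32 k47 k16 2 3))))))] .n) (.c k10 (.q k170 [(.s k63 k21 6 (.s k85 k255 14 (.s k106 k234
  7 (.s k64 k127 6 (.d k192 k128 k149 7 14))))), (.s k85 k255 14 (.s k2 k254 13 (.s k3 k1 0 (.s k252
  k169 14 (.d k84 k87 k168 0 13))))), (.s k2 k254 13 (.s k62 k22 5 (.s k106 k234 7 (.s k194 k150 13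
  (.d k66 k126 k130 5 7)))))] .n) (.c k21 (.q k170 [(.s k85 k255 14 (.s k84 k87 0 (.s k252 k168 13
  (.s k3 k169 14 (.d k2 k1 k254 0 13))))), (.s k2 k254 13 (.s k62 k22 5 (.s k106 k234 7 (.s k194
  k150 13 (.d k66 k126 k130 5 7))))), (.s k5 k10 2 (.s k85 k255 14 (.s k165 k245 11 (.s k7 k244 12
  (.s k3 k11 1 (.s k84 k87 0 (.d k252 k169 k168 14 13)))))))] .n) (.c k26 (.f k63 k21 6 (.f k31 k47
  3 (.q k12 [(.s k8 k4 1 (.s k25 k59 4 (.s k38 k51 6 (.d k46 k34 k29 1 4)))), (.s k4 k8 1 (.s k5 k10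
  2 (.s k6 k7 0 (.s k9 k3 2 (.d k13 k14 k1 0 1))))), (.s k13 k14 0 (.s k29 k46 4 (.s k45 k61 3 (.d
  k30 k28 k60 0 4))))] (.c k154 (.q k218 [(.s k8 k4 1 (.s k25 k59 4 (.s k38 k51 6 (.d k46 k34 k29 1
  4)))), (.s k4 k8 1 (.s k5 k10 2 (.s k6 k7 0 (.s k9 k3 2 (.d k13 k14 k1 0 1))))), (.s k13 k14 0 (.s
  k29 k46 4 (.s k45 k61 3 (.d k30 k28 k60 0 4))))] .n) (.c k218 (.q k154 [(.s k8 k4 1 (.s k25 k59 4
  (.s k38 k51 6 (.d k46 k34 k29 1 4)))), (.s k4 k8 1 (.s k5 k10 2 (.s k6 k7 0 (.s k9 k3 2 (.d k13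
  k14 k1 0 1))))), (.s k13 k14 0 (.s k29 k46 4 (.s k45 k61 3 (.d k30 k28 k60 0 4))))] .n) .n)))))
  (.c k31 (.l (.s k5 k10 2 (.s k21 k63 6 (.s k37 k53 3 (.s k48 k26 6 (.d k32 k47 k16 2 3)))))) (.c
  k32 (.q k170 [(.s k63 k21 6 (.s k85 k255 14 (.s k106 k234 7 (.s k64 k127 6 (.d k192 k128 k149 7
  14))))), (.s k85 k255 14 (.s k2 k254 13 (.s k3 k1 0 (.s k252 k169 14 (.d k84 k87 k168 0 13))))),
  (.s k2 k254 13 (.s k62 k22 5 (.s k106 k234 7 (.s k194 k150 13 (.d k66 k126 k130 5 7)))))] .n) (.c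
  k37 (.q k170 [(.s k63 k21 6 (.s k85 k255 14 (.s k106 k234 7 (.s k64 k127 6 (.d k192 k128 k149 7
  14))))), (.s k85 k255 14 (.s k2 k254 13 (.s k3 k1 0 (.s k252 k169 14 (.d k84 k87 k168 0 13))))),
  (.s k2 k254 13 (.s k62 k22 5 (.s k106 k234 7 (.s k194 k150 13 (.d k66 k126 k130 5 7)))))] .n) (.c
  k47 (.l (.s k10 k5 2 (.s k21 k63 6 (.s k26 k58 3 (.s k48 k37 6 (.d k16 k31 k32 2 3)))))) (.c k48
  (.q k170 [(.s k63 k21 6 (.s k85 k255 14 (.s k106 k234 7 (.s k64 k127 6 (.d k192 k128 k149 7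
  14))))), (.s k2 k254 13 (.s k62 k22 5 (.s k106 k234 7 (.s k194 k150 13 (.d k66 k126 k130 5 7))))),
  (.s k85 k255 14 (.s k2 k254 13 (.s k3 k1 0 (.s k252 k169 14 (.d k84 k87 k168 0 13)))))] .n) (.c
  k53 (.l (.s k10 k5 2 (.s k21 k63 6 (.s k26 k58 3 (.s k48 k37 6 (.d k16 k31 k32 2 3)))))) (.c k58
  (.l (.s k5 k10 2 (.s k21 k63 6 (.s k37 k53 3 (.s k48 k26 6 (.d k32 k47 k16 2 3)))))) (.c k63 (.q
  k170 [(.s k2 k254 13 (.s k62 k22 5 (.s k106 k234 7 (.s k194 k150 13 (.d k66 k126 k130 5 7))))),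
  (.s k5 k10 2 (.s k85 k255 14 (.s k165 k245 11 (.s k7 k244 12 (.s k3 k11 1 (.s k84 k87 0 (.d k252
  k169 k168 14 13)))))))] .n) .n))))))))))))) .n)))))))))))))))

def t83 : T TT 256 :=
  (.q k21 [(.s k10 k5 2 (.s k42 k63 6 (.s k26 k58 3 (.s k48 k37 6 (.d k16 k31 k32 2 3)))))] (.c k5
  (.q k12 [(.s k4 k8 1 (.s k42 k63 6 (.s k38 k55 4 (.s k51 k25 6 (.d k34 k46 k17 1 4))))), (.s k63
  k42 6 (.s k14 k13 0 (.s k46 k29 4 (.s k30 k62 3 (.s k45 k60 4 (.d k47 k44 k31 0 3)))))), (.s k4 k8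
  1 (.s k38 k55 4 (.s k14 k13 0 (.s k26 k50 5 (.s k16 k31 2 (.d k48 k32 k37 3 6))))))] .n) (.c k10
  (.q k12 [(.s k8 k4 1 (.s k42 k63 6 (.s k25 k59 4 (.s k51 k38 6 (.d k17 k29 k34 1 4))))), (.s k63
  k42 6 (.s k14 k13 0 (.s k46 k29 4 (.s k30 k62 3 (.s k45 k60 4 (.d k47 k44 k31 0 3)))))), (.s k4 k8
  1 (.s k38 k55 4 (.s k14 k13 0 (.s k26 k50 5 (.s k16 k31 2 (.d k48 k32 k37 3 6))))))] (.c k170 (.q
  k250 [(.s k8 k4 1 (.s k42 k63 6 (.s k25 k59 4 (.s k51 k38 6 (.d k17 k29 k34 1 4))))), (.s k63 k42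
  6 (.s k14 k13 0 (.s k46 k29 4 (.s k30 k62 3 (.s k45 k60 4 (.d k47 k44 k31 0 3)))))), (.s k4 k8 1
  (.s k38 k55 4 (.s k14 k13 0 (.s k26 k50 5 (.s k16 k31 2 (.d k48 k32 k37 3 6))))))] .n) (.c k250
  (.q k170 [(.s k8 k4 1 (.s k42 k63 6 (.s k25 k59 4 (.s k51 k38 6 (.d k17 k29 k34 1 4))))), (.s k63
  k42 6 (.s k85 k255 14 (.s k149 k213 7 (.s k192 k106 14 (.d k128 k191 k64 6 7))))), (.s k4 k8 1 (.s
  k85 k255 14 (.s k166 k247 12 (.s k243 k89 14 (.d k162 k174 k81 1 12)))))] .n) .n))) (.c k16 (.q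
  k12 [(.s k4 k8 1 (.s k42 k63 6 (.s k38 k55 4 (.s k51 k25 6 (.d k34 k46 k17 1 4))))), (.s k4 k8 1
  (.s k5 k10 2 (.s k6 k7 0 (.s k9 k3 2 (.d k13 k14 k1 0 1))))), (.s k5 k10 2 (.s k63 k42 6 (.s k37
  k53 3 (.s k13 k14 0 (.s k29 k46 4 (.d k25 k17 k49 1 5))))))] .n) (.c k26 (.q k12 [(.s k4 k8 1 (.s
  k42 k63 6 (.s k38 k55 4 (.s k51 k25 6 (.d k34 k46 k17 1 4))))), (.s k8 k4 1 (.s k10 k5 2 (.s k9
  k11 0 (.s k6 k3 2 (.d k14 k13 k2 0 1))))), (.s k5 k10 2 (.s k37 k53 3 (.s k13 k14 0 (.s k25 k49 5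
  (.s k17 k29 1 (.d k51 k38 k34 6 4))))))] (.c k154 (.q k218 [(.s k4 k8 1 (.s k42 k63 6 (.s k38 k55
  4 (.s k51 k25 6 (.d k34 k46 k17 1 4))))), (.s k8 k4 1 (.s k10 k5 2 (.s k9 k11 0 (.s k6 k3 2 (.d
  k14 k13 k2 0 1))))), (.s k5 k10 2 (.s k37 k53 3 (.s k13 k14 0 (.s k25 k49 5 (.s k17 k29 1 (.d k51
  k38 k34 6 4))))))] .n) (.c k218 (.q k154 [(.s k4 k8 1 (.s k42 k63 6 (.s k38 k55 4 (.s k51 k25 6
  (.d k34 k46 k17 1 4))))), (.s k8 k4 1 (.s k10 k5 2 (.s k9 k11 0 (.s k6 k3 2 (.d k14 k13 k2 0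
  1))))), (.s k5 k10 2 (.s k37 k53 3 (.s k13 k14 0 (.s k25 k49 5 (.s k17 k29 1 (.d k51 k38 k34 6
  4))))))] .n) .n))) (.c k31 (.l (.s k5 k10 2 (.s k42 k63 6 (.s k37 k53 3 (.s k48 k26 6 (.d k32 k47
  k16 2 3)))))) (.c k32 (.l (.s k5 k10 2 (.s k63 k42 6 (.s k37 k53 3 (.s k26 k48 6 (.d k31 k47 k16 3
  2)))))) (.c k37 (.q k12 [(.s k4 k8 1 (.s k42 k63 6 (.s k38 k55 4 (.s k34 k46 1 (.d k51 k17 k25 4
  6))))), (.s k4 k8 1 (.s k5 k10 2 (.s k6 k7 0 (.s k9 k3 2 (.d k13 k14 k1 0 1))))), (.s k5 k10 2 (.s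
  k63 k42 6 (.s k13 k14 0 (.s k29 k46 4 (.s k61 k45 3 (.d k1 k41 k9 5 1))))))] .n) (.c k42 (.q k12
  [(.s k8 k4 1 (.s k14 k13 0 (.s k10 k5 2 (.s k6 k2 1 (.d k9 k11 k3 0 2))))), (.s k4 k8 1 (.s k38
  k55 4 (.s k14 k13 0 (.s k26 k50 5 (.s k48 k37 6 (.d k16 k32 k31 3 2)))))), (.s k5 k10 2 (.s k37
  k53 3 (.s k13 k14 0 (.s k25 k49 5 (.s k51 k38 6 (.d k17 k34 k29 4 1)))))), (.s k4 k8 1 (.s k5 k10
  2 (.s k38 k55 4 (.s k37 k53 3 (.s k36 k39 0 (.d k48 k26 k24 6 5))))))] .n) (.c k48 (.q k12 [(.s k4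
  k8 1 (.s k42 k63 6 (.s k38 k55 4 (.s k51 k25 6 (.d k34 k46 k17 1 4))))), (.s k4 k8 1 (.s k5 k10 2
  (.s k6 k7 0 (.s k9 k3 2 (.d k13 k14 k1 0 1))))), (.s k5 k10 2 (.s k63 k42 6 (.s k37 k53 3 (.s k13
  k14 0 (.s k29 k46 4 (.d k25 k17 k49 1 5))))))] .n) (.c k53 (.l (.s k10 k5 2 (.s k42 k63 6 (.s k26
  k58 3 (.s k48 k37 6 (.d k16 k31 k32 2 3)))))) (.c k58 (.l (.s k5 k10 2 (.s k42 k63 6 (.s k37 k53 3
  (.s k48 k26 6 (.d k32 k47 k16 2 3)))))) (.c k63 (.q k12 [(.s k8 k4 1 (.s k14 k13 0 (.s k10 k5 2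
  (.s k6 k2 1 (.d k9 k11 k3 0 2))))), (.s k4 k8 1 (.s k38 k55 4 (.s k14 k13 0 (.s k26 k50 5 (.s k48
  k37 6 (.d k16 k31 k32 2 3)))))), (.s k5 k10 2 (.s k37 k53 3 (.s k13 k14 0 (.s k25 k49 5 (.s k51
  k38 6 (.d k17 k29 k34 1 4)))))), (.s k4 k8 1 (.s k5 k10 2 (.s k38 k55 4 (.s k37 k53 3 (.s k51 k25
  6 (.d k39 k36 k27 0 5))))))] .n) .n)))))))))))))

def t85 : T TT 256 :=
  (.q k12 [(.s k4 k8 1 (.s k5 k10 2 (.s k6 k7 0 (.s k9 k3 2 (.d k13 k14 k1 0 1))))), (.s k8 k4 1 (.s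
  k10 k5 2 (.s k9 k11 0 (.s k6 k3 2 (.d k14 k13 k2 0 1)))))] (.c k3 (.f k4 k8 1 (.f k14 k13 0 (.q
  k192 [(.s k72 k132 9 (.s k74 k133 10 (.s k134 k194 9 (.d k73 k75 k195 0 10)))), (.s k128 k64 7 (.s
  k132 k72 9 (.s k68 k196 7 (.d k136 k140 k204 1 9)))), (.s k64 k128 7 (.s k74 k133 10 (.s k134 k194
  9 (.d k69 k79 k199 2 8))))] (.c k80 (.q k95 [(.s k72 k132 9 (.s k74 k133 10 (.s k134 k194 9 (.d
  k73 k75 k195 0 10)))), (.s k128 k64 7 (.s k132 k72 9 (.s k68 k196 7 (.d k136 k140 k204 1 9)))),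
  (.s k64 k128 7 (.s k74 k133 10 (.s k134 k194 9 (.d k69 k79 k199 2 8))))] .n) (.c k95 (.q k80 [(.s
  k72 k132 9 (.s k74 k133 10 (.s k134 k194 9 (.d k73 k75 k195 0 10)))), (.s k128 k64 7 (.s k132 k72
  9 (.s k68 k196 7 (.d k136 k140 k204 1 9)))), (.s k64 k128 7 (.s k74 k133 10 (.s k134 k194 9 (.d
  k69 k79 k199 2 8))))] .n) .n))))) (.c k4 (.f k14 k13 0 (.q k26 [(.s k38 k50 5 (.s k25 k51 6 (.s
  k48 k37 6 (.d k24 k27 k36 0 5)))), (.s k5 k10 2 (.s k37 k48 6 (.s k21 k53 3 (.s k63 k42 6 (.d k31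
  k16 k47 2 3))))), (.s k10 k5 2 (.s k42 k58 3 (.s k38 k50 5 (.s k34 k46 1 (.d k51 k17 k25 4 6)))))]
  (.c k80 (.q k95 [(.s k38 k50 5 (.s k25 k51 6 (.s k48 k37 6 (.d k24 k27 k36 0 5)))), (.s k5 k10 2
  (.s k37 k48 6 (.s k21 k53 3 (.s k63 k42 6 (.d k31 k16 k47 2 3))))), (.s k10 k5 2 (.s k42 k58 3 (.s
  k38 k50 5 (.s k34 k46 1 (.d k51 k17 k25 4 6)))))] (.c k166 (.q k247 [(.s k38 k50 5 (.s k25 k51 6
  (.s k48 k37 6 (.d k24 k27 k36 0 5)))), (.s k5 k10 2 (.s k37 k48 6 (.s k21 k53 3 (.s k63 k42 6 (.d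
  k31 k16 k47 2 3))))), (.s k10 k5 2 (.s k42 k58 3 (.s k38 k50 5 (.s k34 k46 1 (.d k51 k17 k25 4
  6)))))] .n) (.c k247 (.q k166 [(.s k38 k50 5 (.s k25 k51 6 (.s k48 k37 6 (.d k24 k27 k36 0 5)))),
  (.s k255 k175 11 (.s k174 k93 12 (.s k162 k170 1 (.d k243 k81 k89 12 14))))] .n) .n))) (.c k95 (.q
  k80 [(.s k38 k50 5 (.s k25 k51 6 (.s k48 k37 6 (.d k24 k27 k36 0 5)))), (.s k5 k10 2 (.s k37 k48 6
  (.s k21 k53 3 (.s k63 k42 6 (.d k31 k16 k47 2 3))))), (.s k10 k5 2 (.s k42 k58 3 (.s k38 k50 5 (.s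
  k34 k46 1 (.d k51 k17 k25 4 6)))))] (.c k166 (.q k247 [(.s k38 k50 5 (.s k25 k51 6 (.s k48 k37 6
  (.d k24 k27 k36 0 5)))), (.s k5 k10 2 (.s k37 k48 6 (.s k21 k53 3 (.s k63 k42 6 (.d k31 k16 k47 2
  3))))), (.s k10 k5 2 (.s k42 k58 3 (.s k38 k50 5 (.s k34 k46 1 (.d k51 k17 k25 4 6)))))] .n) (.c
  k247 (.q k166 [(.s k38 k50 5 (.s k25 k51 6 (.s k48 k37 6 (.d k24 k27 k36 0 5)))), (.s k240 k160 11
  (.s k164 k88 13 (.s k167 k165 0 (.d k243 k91 k89 13 14))))] .n) .n))) (.c k166 (.q k247 [(.s k38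
  k50 5 (.s k25 k51 6 (.s k48 k37 6 (.d k24 k27 k36 0 5)))), (.s k5 k10 2 (.s k37 k48 6 (.s k21 k53
  3 (.s k63 k42 6 (.d k31 k16 k47 2 3))))), (.s k10 k5 2 (.s k42 k58 3 (.s k38 k50 5 (.s k34 k46 1
  (.d k51 k17 k25 4 6)))))] (.c k80 (.q k95 [(.s k38 k50 5 (.s k25 k51 6 (.s k48 k37 6 (.d k24 k27
  k36 0 5)))), (.s k5 k10 2 (.s k37 k48 6 (.s k21 k53 3 (.s k63 k42 6 (.d k31 k16 k47 2 3))))), (.s
  k10 k5 2 (.s k42 k58 3 (.s k38 k50 5 (.s k34 k46 1 (.d k51 k17 k25 4 6)))))] .n) (.c k95 (.q k80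
  [(.s k38 k50 5 (.s k25 k51 6 (.s k48 k37 6 (.d k24 k27 k36 0 5)))), (.s k5 k10 2 (.s k37 k48 6 (.s
  k21 k53 3 (.s k63 k42 6 (.d k31 k16 k47 2 3))))), (.s k10 k5 2 (.s k42 k58 3 (.s k38 k50 5 (.s k34
  k46 1 (.d k51 k17 k25 4 6)))))] .n) .n))) (.c k247 (.q k166 [(.s k38 k50 5 (.s k25 k51 6 (.s k48
  k37 6 (.d k24 k27 k36 0 5)))), (.s k5 k10 2 (.s k37 k48 6 (.s k21 k53 3 (.s k63 k42 6 (.d k31 k16
  k47 2 3))))), (.s k10 k5 2 (.s k42 k58 3 (.s k38 k50 5 (.s k34 k46 1 (.d k51 k17 k25 4 6)))))] (.c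
  k80 (.q k95 [(.s k38 k50 5 (.s k25 k51 6 (.s k48 k37 6 (.d k24 k27 k36 0 5)))), (.s k255 k175 11
  (.s k174 k93 12 (.s k162 k170 1 (.d k243 k81 k89 12 14))))] .n) (.c k95 (.q k80 [(.s k38 k50 5 (.s
  k25 k51 6 (.s k48 k37 6 (.d k24 k27 k36 0 5)))), (.s k240 k160 11 (.s k164 k88 13 (.s k167 k165 0
  (.d k243 k91 k89 13 14))))] .n) .n))) .n)))))) (.c k5 (.f k4 k8 1 (.q k21 [(.s k42 k63 6 (.s k38
  k55 4 (.s k51 k25 6 (.d k34 k46 k17 1 4)))), (.s k38 k55 4 (.s k14 k13 0 (.s k26 k50 5 (.s k16 k31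
  2 (.d k48 k32 k37 3 6))))), (.s k63 k42 6 (.s k14 k13 0 (.s k46 k29 4 (.s k30 k62 3 (.s k45 k60 4
  (.d k47 k44 k31 0 3))))))] (.c k80 (.q k95 [(.s k42 k63 6 (.s k38 k55 4 (.s k51 k25 6 (.d k34 k46
  k17 1 4)))), (.s k13 k14 0 (.s k255 k175 11 (.s k93 k174 12 (.s k173 k253 11 (.d k94 k92 k252 0
  12)))))] (.c k165 (.q k245 [(.s k42 k63 6 (.s k38 k55 4 (.s k51 k25 6 (.d k34 k46 k17 1 4)))), (.s
  k13 k14 0 (.s k255 k175 11 (.s k93 k174 12 (.s k173 k253 11 (.d k94 k92 k252 0 12)))))] .n) (.c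
  k245 (.q k165 [(.s k42 k63 6 (.s k38 k55 4 (.s k51 k25 6 (.d k34 k46 k17 1 4)))), (.s k13 k14 0
  (.s k255 k175 11 (.s k93 k174 12 (.s k173 k253 11 (.d k94 k92 k252 0 12)))))] .n) .n))) (.c k95
  (.q k80 [(.s k42 k63 6 (.s k38 k55 4 (.s k51 k25 6 (.d k34 k46 k17 1 4)))), (.s k38 k55 4 (.s k14
  k13 0 (.s k26 k50 5 (.s k16 k31 2 (.d k48 k32 k37 3 6))))), (.s k63 k42 6 (.s k14 k13 0 (.s k46
  k29 4 (.s k30 k62 3 (.s k45 k60 4 (.d k47 k44 k31 0 3))))))] (.c k165 (.q k245 [(.s k42 k63 6 (.s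
  k38 k55 4 (.s k51 k25 6 (.d k34 k46 k17 1 4)))), (.s k38 k55 4 (.s k14 k13 0 (.s k26 k50 5 (.s k16
  k31 2 (.d k48 k32 k37 3 6))))), (.s k63 k42 6 (.s k14 k13 0 (.s k46 k29 4 (.s k30 k62 3 (.s k45
  k60 4 (.d k47 k44 k31 0 3))))))] .n) (.c k245 (.q k165 [(.s k42 k63 6 (.s k38 k55 4 (.s k51 k25 6
  (.d k34 k46 k17 1 4)))), (.s k240 k160 11 (.s k13 k14 0 (.s k164 k88 13 (.s k89 k241 13 (.d k166
  k167 k243 0 14)))))] .n) .n))) (.c k165 (.q k245 [(.s k42 k63 6 (.s k38 k55 4 (.s k51 k25 6 (.d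
  k34 k46 k17 1 4)))), (.s k38 k55 4 (.s k14 k13 0 (.s k26 k50 5 (.s k16 k31 2 (.d k48 k32 k37 3
  6))))), (.s k63 k42 6 (.s k14 k13 0 (.s k46 k29 4 (.s k30 k62 3 (.s k45 k60 4 (.d k47 k44 k31 0
  3))))))] (.c k80 (.q k95 [(.s k42 k63 6 (.s k38 k55 4 (.s k51 k25 6 (.d k34 k46 k17 1 4)))), (.s
  k13 k14 0 (.s k255 k175 11 (.s k93 k174 12 (.s k173 k253 11 (.d k94 k92 k252 0 12)))))] .n) (.c
  k95 (.q k80 [(.s k42 k63 6 (.s k38 k55 4 (.s k51 k25 6 (.d k34 k46 k17 1 4)))), (.s k38 k55 4 (.s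
  k14 k13 0 (.s k26 k50 5 (.s k16 k31 2 (.d k48 k32 k37 3 6))))), (.s k63 k42 6 (.s k14 k13 0 (.s
  k46 k29 4 (.s k30 k62 3 (.s k45 k60 4 (.d k47 k44 k31 0 3))))))] .n) .n))) (.c k245 (.q k165 [(.s
  k42 k63 6 (.s k38 k55 4 (.s k51 k25 6 (.d k34 k46 k17 1 4)))), (.s k38 k55 4 (.s k14 k13 0 (.s k26
  k50 5 (.s k16 k31 2 (.d k48 k32 k37 3 6))))), (.s k63 k42 6 (.s k14 k13 0 (.s k46 k29 4 (.s k30
  k62 3 (.s k45 k60 4 (.d k47 k44 k31 0 3))))))] (.c k80 (.q k95 [(.s k42 k63 6 (.s k38 k55 4 (.s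
  k51 k25 6 (.d k34 k46 k17 1 4)))), (.s k13 k14 0 (.s k255 k175 11 (.s k93 k174 12 (.s k173 k253 11
  (.d k94 k92 k252 0 12)))))] .n) (.c k95 (.q k80 [(.s k42 k63 6 (.s k38 k55 4 (.s k51 k25 6 (.d k34
  k46 k17 1 4)))), (.s k240 k160 11 (.s k13 k14 0 (.s k164 k88 13 (.s k89 k241 13 (.d k166 k167 k243
  0 14)))))] .n) .n))) .n)))))) (.c k6 (.f k4 k8 1 (.f k14 k13 0 (.q k192 [(.s k72 k132 9 (.s k74
  k133 10 (.s k134 k194 9 (.d k73 k75 k195 0 10)))), (.s k128 k64 7 (.s k132 k72 9 (.s k68 k196 7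
  (.d k136 k140 k204 1 9)))), (.s k64 k128 7 (.s k74 k133 10 (.s k134 k194 9 (.d k69 k79 k199 2
  8))))] (.c k80 (.q k95 [(.s k72 k132 9 (.s k74 k133 10 (.s k134 k194 9 (.d k73 k75 k195 0 10)))),
  (.s k128 k64 7 (.s k132 k72 9 (.s k68 k196 7 (.d k136 k140 k204 1 9)))), (.s k64 k128 7 (.s k74
  k133 10 (.s k134 k194 9 (.d k69 k79 k199 2 8))))] .n) (.c k95 (.q k80 [(.s k72 k132 9 (.s k74 k133
  10 (.s k134 k194 9 (.d k73 k75 k195 0 10)))), (.s k128 k64 7 (.s k132 k72 9 (.s k68 k196 7 (.d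
  k136 k140 k204 1 9)))), (.s k64 k128 7 (.s k74 k133 10 (.s k134 k194 9 (.d k69 k79 k199 2 8))))]
  .n) .n))))) (.c k7 (.l (.s k8 k4 1 (.s k14 k13 0 (.s k10 k5 2 (.s k6 k2 1 (.d k9 k11 k3 0 2))))))
  (.c k8 (.f k14 k13 0 (.q k26 [(.s k38 k50 5 (.s k25 k51 6 (.s k48 k37 6 (.d k24 k27 k36 0 5)))),
  (.s k5 k10 2 (.s k37 k48 6 (.s k21 k53 3 (.s k31 k16 2 (.d k63 k47 k42 3 6))))), (.s k10 k5 2 (.s
  k42 k58 3 (.s k38 k50 5 (.s k34 k46 1 (.d k51 k17 k25 4 6)))))] (.c k80 (.q k95 [(.s k38 k50 5 (.s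
  k25 k51 6 (.s k48 k37 6 (.d k24 k27 k36 0 5)))), (.s k5 k10 2 (.s k37 k48 6 (.s k21 k53 3 (.s k31
  k16 2 (.d k63 k47 k42 3 6))))), (.s k10 k5 2 (.s k42 k58 3 (.s k38 k50 5 (.s k34 k46 1 (.d k51 k17
  k25 4 6)))))] .n) (.c k95 (.q k80 [(.s k38 k50 5 (.s k25 k51 6 (.s k48 k37 6 (.d k24 k27 k36 0
  5)))), (.s k5 k10 2 (.s k37 k48 6 (.s k21 k53 3 (.s k31 k16 2 (.d k63 k47 k42 3 6))))), (.s k10 k5
  2 (.s k42 k58 3 (.s k38 k50 5 (.s k34 k46 1 (.d k51 k17 k25 4 6)))))] .n) .n)))) (.c k9 (.q k21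
  [(.s k8 k4 1 (.s k42 k63 6 (.s k25 k59 4 (.s k51 k38 6 (.d k17 k29 k34 1 4))))), (.s k10 k5 2 (.s
  k42 k63 6 (.s k26 k58 3 (.s k48 k37 6 (.d k16 k31 k32 2 3))))), (.s k4 k8 1 (.s k38 k55 4 (.s k14
  k13 0 (.s k26 k50 5 (.s k37 k48 6 (.d k5 k10 k53 2 3))))))] (.c k80 (.q k95 [(.s k8 k4 1 (.s k42
  k63 6 (.s k25 k59 4 (.s k51 k38 6 (.d k17 k29 k34 1 4))))), (.s k13 k14 0 (.s k255 k175 11 (.s k93
  k174 12 (.s k173 k253 11 (.d k94 k92 k252 0 12)))))] (.c k166 (.l (.s k4 k8 1 (.s k42 k63 6 (.s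
  k38 k55 4 (.s k51 k25 6 (.d k34 k46 k17 1 4)))))) .n)) (.c k95 (.q k80 [(.s k8 k4 1 (.s k42 k63 6
  (.s k25 k59 4 (.s k51 k38 6 (.d k17 k29 k34 1 4))))), (.s k10 k5 2 (.s k42 k63 6 (.s k26 k58 3 (.s
  k48 k37 6 (.d k16 k31 k32 2 3))))), (.s k8 k4 1 (.s k240 k160 11 (.s k88 k164 13 (.s k168 k248 11
  (.d k84 k92 k252 1 13)))))] .n) .n))) (.c k10 (.f k14 k13 0 (.q k21 [(.s k8 k4 1 (.s k42 k63 6 (.s
  k25 k59 4 (.s k51 k38 6 (.d k17 k29 k34 1 4))))), (.s k63 k42 6 (.s k46 k29 4 (.s k30 k62 3 (.s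
  k45 k60 4 (.d k47 k44 k31 0 3))))), (.s k4 k8 1 (.s k38 k55 4 (.s k26 k50 5 (.s k16 k31 2 (.d k48
  k32 k37 3 6)))))] (.c k80 (.q k95 [(.s k8 k4 1 (.s k42 k63 6 (.s k25 k59 4 (.s k51 k38 6 (.d k17
  k29 k34 1 4))))), (.s k63 k42 6 (.s k46 k29 4 (.s k30 k62 3 (.s k45 k60 4 (.d k47 k44 k31 0
  3))))), (.s k4 k8 1 (.s k38 k55 4 (.s k26 k50 5 (.s k16 k31 2 (.d k48 k32 k37 3 6)))))] (.c k170
  (.q k250 [(.s k8 k4 1 (.s k42 k63 6 (.s k25 k59 4 (.s k51 k38 6 (.d k17 k29 k34 1 4))))), (.s k63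
  k42 6 (.s k46 k29 4 (.s k30 k62 3 (.s k45 k60 4 (.d k47 k44 k31 0 3))))), (.s k4 k8 1 (.s k38 k55
  4 (.s k26 k50 5 (.s k16 k31 2 (.d k48 k32 k37 3 6)))))] .n) (.c k250 (.q k170 [(.s k8 k4 1 (.s k42
  k63 6 (.s k25 k59 4 (.s k51 k38 6 (.d k17 k29 k34 1 4))))), (.s k63 k42 6 (.s k46 k29 4 (.s k30
  k62 3 (.s k45 k60 4 (.d k47 k44 k31 0 3))))), (.s k4 k8 1 (.s k38 k55 4 (.s k26 k50 5 (.s k16 k31
  2 (.d k48 k32 k37 3 6)))))] .n) .n))) (.c k95 (.q k80 [(.s k8 k4 1 (.s k42 k63 6 (.s k25 k59 4 (.s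
  k51 k38 6 (.d k17 k29 k34 1 4))))), (.s k63 k42 6 (.s k46 k29 4 (.s k30 k62 3 (.s k45 k60 4 (.d
  k47 k44 k31 0 3))))), (.s k4 k8 1 (.s k38 k55 4 (.s k26 k50 5 (.s k16 k31 2 (.d k48 k32 k37 3
  6)))))] (.c k170 (.q k250 [(.s k8 k4 1 (.s k42 k63 6 (.s k25 k59 4 (.s k51 k38 6 (.d k17 k29 k34 1
  4))))), (.s k63 k42 6 (.s k46 k29 4 (.s k30 k62 3 (.s k45 k60 4 (.d k47 k44 k31 0 3))))), (.s k4
  k8 1 (.s k38 k55 4 (.s k26 k50 5 (.s k16 k31 2 (.d k48 k32 k37 3 6)))))] .n) (.c k250 (.q k170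
  [(.s k8 k4 1 (.s k42 k63 6 (.s k25 k59 4 (.s k51 k38 6 (.d k17 k29 k34 1 4))))), (.s k63 k42 6 (.s
  k46 k29 4 (.s k30 k62 3 (.s k45 k60 4 (.d k47 k44 k31 0 3))))), (.s k4 k8 1 (.s k38 k55 4 (.s k26
  k50 5 (.s k16 k31 2 (.d k48 k32 k37 3 6)))))] .n) .n))) (.c k170 (.q k250 [(.s k8 k4 1 (.s k42 k63
  6 (.s k25 k59 4 (.s k51 k38 6 (.d k17 k29 k34 1 4))))), (.s k63 k42 6 (.s k46 k29 4 (.s k30 k62 3
  (.s k45 k60 4 (.d k47 k44 k31 0 3))))), (.s k4 k8 1 (.s k38 k55 4 (.s k26 k50 5 (.s k16 k31 2 (.d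
  k48 k32 k37 3 6)))))] (.c k80 (.q k95 [(.s k8 k4 1 (.s k42 k63 6 (.s k25 k59 4 (.s k51 k38 6 (.d
  k17 k29 k34 1 4))))), (.s k63 k42 6 (.s k46 k29 4 (.s k30 k62 3 (.s k45 k60 4 (.d k47 k44 k31 0
  3))))), (.s k4 k8 1 (.s k38 k55 4 (.s k26 k50 5 (.s k16 k31 2 (.d k48 k32 k37 3 6)))))] .n) (.c
  k95 (.q k80 [(.s k8 k4 1 (.s k42 k63 6 (.s k25 k59 4 (.s k51 k38 6 (.d k17 k29 k34 1 4))))), (.s
  k63 k42 6 (.s k46 k29 4 (.s k30 k62 3 (.s k45 k60 4 (.d k47 k44 k31 0 3))))), (.s k4 k8 1 (.s k38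
  k55 4 (.s k26 k50 5 (.s k16 k31 2 (.d k48 k32 k37 3 6)))))] .n) .n))) (.c k250 (.q k170 [(.s k8 k4
  1 (.s k42 k63 6 (.s k25 k59 4 (.s k51 k38 6 (.d k17 k29 k34 1 4))))), (.s k63 k42 6 (.s k46 k29 4
  (.s k30 k62 3 (.s k45 k60 4 (.d k47 k44 k31 0 3))))), (.s k4 k8 1 (.s k38 k55 4 (.s k26 k50 5 (.s
  k16 k31 2 (.d k48 k32 k37 3 6)))))] (.c k80 (.q k95 [(.s k8 k4 1 (.s k42 k63 6 (.s k25 k59 4 (.s
  k51 k38 6 (.d k17 k29 k34 1 4))))), (.s k63 k42 6 (.s k46 k29 4 (.s k30 k62 3 (.s k45 k60 4 (.d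
  k47 k44 k31 0 3))))), (.s k4 k8 1 (.s k38 k55 4 (.s k26 k50 5 (.s k16 k31 2 (.d k48 k32 k37 3
  6)))))] .n) (.c k95 (.q k80 [(.s k8 k4 1 (.s k42 k63 6 (.s k25 k59 4 (.s k51 k38 6 (.d k17 k29 k34
  1 4))))), (.s k63 k42 6 (.s k46 k29 4 (.s k30 k62 3 (.s k45 k60 4 (.d k47 k44 k31 0 3))))), (.s k4
  k8 1 (.s k38 k55 4 (.s k26 k50 5 (.s k16 k31 2 (.d k48 k32 k37 3 6)))))] .n) .n))) .n)))))) (.c
  k11 (.l (.s k4 k8 1 (.s k13 k14 0 (.s k5 k10 2 (.s k9 k1 1 (.d k6 k7 k3 0 2)))))) (.c k13 (.f k4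
  k8 1 (.q k21 [(.s k63 k42 6 (.s k38 k55 4 (.s k25 k51 6 (.d k29 k17 k46 1 4)))), (.s k5 k10 2 (.s
  k42 k63 6 (.s k37 k53 3 (.s k48 k26 6 (.d k32 k47 k16 2 3))))), (.s k5 k10 2 (.s k38 k55 4 (.s k37
  k53 3 (.s k36 k39 0 (.d k48 k24 k26 5 6)))))] (.c k80 (.q k95 [(.s k63 k42 6 (.s k38 k55 4 (.s k25
  k51 6 (.d k29 k17 k46 1 4)))), (.s k5 k10 2 (.s k42 k63 6 (.s k37 k53 3 (.s k48 k26 6 (.d k32 k47
  k16 2 3))))), (.s k5 k10 2 (.s k38 k55 4 (.s k37 k53 3 (.s k36 k39 0 (.d k48 k24 k26 5 6)))))] .n)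
  (.c k95 (.q k80 [(.s k63 k42 6 (.s k38 k55 4 (.s k25 k51 6 (.d k29 k17 k46 1 4)))), (.s k5 k10 2
  (.s k42 k63 6 (.s k37 k53 3 (.s k48 k26 6 (.d k32 k47 k16 2 3))))), (.s k5 k10 2 (.s k38 k55 4 (.s
  k37 k53 3 (.s k36 k39 0 (.d k48 k24 k26 5 6)))))] .n) .n)))) (.c k14 (.f k4 k8 1 (.q k21 [(.s k42
  k63 6 (.s k38 k55 4 (.s k51 k25 6 (.d k34 k46 k17 1 4)))), (.s k5 k10 2 (.s k42 k63 6 (.s k37 k53
  3 (.s k32 k47 2 (.d k48 k16 k26 3 6))))), (.s k5 k10 2 (.s k38 k55 4 (.s k37 k53 3 (.s k36 k39 0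
  (.d k48 k24 k26 5 6)))))] (.c k80 (.q k95 [(.s k42 k63 6 (.s k38 k55 4 (.s k51 k25 6 (.d k34 k46
  k17 1 4)))), (.s k5 k10 2 (.s k42 k63 6 (.s k37 k53 3 (.s k32 k47 2 (.d k48 k16 k26 3 6))))), (.s
  k5 k10 2 (.s k38 k55 4 (.s k37 k53 3 (.s k36 k39 0 (.d k48 k24 k26 5 6)))))] (.c k166 (.q k242
  [(.s k42 k63 6 (.s k38 k55 4 (.s k51 k25 6 (.d k34 k46 k17 1 4)))), (.s k5 k10 2 (.s k42 k63 6 (.s
  k37 k53 3 (.s k32 k47 2 (.d k48 k16 k26 3 6))))), (.s k5 k10 2 (.s k38 k55 4 (.s k37 k53 3 (.s k36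
  k39 0 (.d k48 k24 k26 5 6)))))] .n) (.c k242 (.q k166 [(.s k42 k63 6 (.s k38 k55 4 (.s k51 k25 6
  (.d k34 k46 k17 1 4)))), (.s k255 k175 11 (.s k174 k93 12 (.s k162 k170 1 (.d k243 k81 k89 12
  14))))] .n) .n))) (.c k95 (.q k80 [(.s k42 k63 6 (.s k38 k55 4 (.s k51 k25 6 (.d k34 k46 k17 1
  4)))), (.s k5 k10 2 (.s k42 k63 6 (.s k37 k53 3 (.s k32 k47 2 (.d k48 k16 k26 3 6))))), (.s k5 k10
  2 (.s k38 k55 4 (.s k37 k53 3 (.s k36 k39 0 (.d k48 k24 k26 5 6)))))] (.c k166 (.q k242 [(.s k42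
  k63 6 (.s k38 k55 4 (.s k51 k25 6 (.d k34 k46 k17 1 4)))), (.s k5 k10 2 (.s k42 k63 6 (.s k37 k53
  3 (.s k32 k47 2 (.d k48 k16 k26 3 6))))), (.s k5 k10 2 (.s k38 k55 4 (.s k37 k53 3 (.s k36 k39 0
  (.d k48 k24 k26 5 6)))))] .n) (.c k242 (.q k166 [(.s k42 k63 6 (.s k38 k55 4 (.s k51 k25 6 (.d k34
  k46 k17 1 4)))), (.s k240 k160 11 (.s k164 k88 13 (.s k167 k165 0 (.d k243 k91 k89 13 14))))] .n)
  .n))) (.c k166 (.q k242 [(.s k42 k63 6 (.s k38 k55 4 (.s k51 k25 6 (.d k34 k46 k17 1 4)))), (.s k5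
  k10 2 (.s k42 k63 6 (.s k37 k53 3 (.s k32 k47 2 (.d k48 k16 k26 3 6))))), (.s k5 k10 2 (.s k38 k55
  4 (.s k37 k53 3 (.s k36 k39 0 (.d k48 k24 k26 5 6)))))] (.c k80 (.q k95 [(.s k42 k63 6 (.s k38 k55
  4 (.s k51 k25 6 (.d k34 k46 k17 1 4)))), (.s k5 k10 2 (.s k42 k63 6 (.s k37 k53 3 (.s k32 k47 2
  (.d k48 k16 k26 3 6))))), (.s k5 k10 2 (.s k38 k55 4 (.s k37 k53 3 (.s k36 k39 0 (.d k48 k24 k26 5
  6)))))] .n) (.c k95 (.q k80 [(.s k42 k63 6 (.s k38 k55 4 (.s k51 k25 6 (.d k34 k46 k17 1 4)))),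
  (.s k5 k10 2 (.s k42 k63 6 (.s k37 k53 3 (.s k32 k47 2 (.d k48 k16 k26 3 6))))), (.s k5 k10 2 (.s
  k38 k55 4 (.s k37 k53 3 (.s k36 k39 0 (.d k48 k24 k26 5 6)))))] .n) .n))) (.c k242 (.q k166 [(.s
  k42 k63 6 (.s k38 k55 4 (.s k51 k25 6 (.d k34 k46 k17 1 4)))), (.s k5 k10 2 (.s k42 k63 6 (.s k37
  k53 3 (.s k32 k47 2 (.d k48 k16 k26 3 6))))), (.s k5 k10 2 (.s k38 k55 4 (.s k37 k53 3 (.s k36 k39
  0 (.d k48 k24 k26 5 6)))))] (.c k80 (.q k95 [(.s k42 k63 6 (.s k38 k55 4 (.s k51 k25 6 (.d k34 k46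
  k17 1 4)))), (.s k255 k175 11 (.s k174 k93 12 (.s k162 k170 1 (.d k243 k81 k89 12 14))))] .n) (.c
  k95 (.q k80 [(.s k42 k63 6 (.s k38 k55 4 (.s k51 k25 6 (.d k34 k46 k17 1 4)))), (.s k240 k160 11
  (.s k164 k88 13 (.s k167 k165 0 (.d k243 k91 k89 13 14))))] .n) .n))) .n)))))) (.c k80 (.q k95
  [(.s k4 k8 1 (.s k5 k10 2 (.s k6 k7 0 (.s k9 k3 2 (.d k13 k14 k1 0 1))))), (.s k13 k14 0 (.s k255
  k175 11 (.s k93 k174 12 (.s k173 k253 11 (.d k94 k92 k252 0 12)))))] (.c k1 (.l (.s k8 k4 1 (.s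
  k10 k5 2 (.s k9 k11 0 (.s k6 k3 2 (.d k14 k13 k2 0 1)))))) (.c k13 (.q k21 [(.s k4 k8 1 (.s k63
  k42 6 (.s k38 k55 4 (.s k25 k51 6 (.d k29 k17 k46 1 4))))), (.s k5 k10 2 (.s k42 k63 6 (.s k37 k53
  3 (.s k48 k26 6 (.d k32 k47 k16 2 3))))), (.s k4 k8 1 (.s k5 k10 2 (.s k38 k55 4 (.s k37 k53 3 (.s
  k36 k39 0 (.d k48 k24 k26 5 6))))))] .n) (.c k14 (.f k4 k8 1 (.q k21 [(.s k42 k63 6 (.s k38 k55 4
  (.s k51 k25 6 (.d k34 k46 k17 1 4)))), (.s k5 k10 2 (.s k42 k63 6 (.s k37 k53 3 (.s k32 k47 2 (.d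
  k48 k16 k26 3 6))))), (.s k5 k10 2 (.s k38 k55 4 (.s k37 k53 3 (.s k36 k39 0 (.d k48 k24 k26 5
  6)))))] (.c k166 (.q k242 [(.s k42 k63 6 (.s k38 k55 4 (.s k51 k25 6 (.d k34 k46 k17 1 4)))), (.s
  k5 k10 2 (.s k42 k63 6 (.s k37 k53 3 (.s k32 k47 2 (.d k48 k16 k26 3 6))))), (.s k5 k10 2 (.s k38
  k55 4 (.s k37 k53 3 (.s k36 k39 0 (.d k48 k24 k26 5 6)))))] .n) (.c k242 (.q k166 [(.s k42 k63 6
  (.s k38 k55 4 (.s k51 k25 6 (.d k34 k46 k17 1 4)))), (.s k255 k175 11 (.s k174 k93 12 (.s k162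
  k170 1 (.d k243 k81 k89 12 14))))] .n) .n)))) .n)))) (.c k95 (.q k80 [(.s k4 k8 1 (.s k5 k10 2 (.s
  k6 k7 0 (.s k9 k3 2 (.d k13 k14 k1 0 1))))), (.s k8 k4 1 (.s k240 k160 11 (.s k88 k164 13 (.s k168
  k248 11 (.d k84 k92 k252 1 13)))))] (.c k4 (.f k14 k13 0 (.q k192 [(.s k74 k133 10 (.s k134 k194 9
  (.s k73 k195 10 (.d k72 k75 k132 0 9)))), (.s k64 k128 7 (.s k160 k240 11 (.s k96 k112 3 (.s k32
  k224 7 (.d k48 k16 k144 3 11)))))] (.c k166 (.q k247 [(.s k74 k133 10 (.s k134 k194 9 (.s k73 k195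
  10 (.d k72 k75 k132 0 9)))), (.s k64 k128 7 (.s k160 k240 11 (.s k96 k112 3 (.s k32 k224 7 (.d k48
  k16 k144 3 11)))))] .n) (.c k247 (.q k166 [(.s k72 k132 9 (.s k74 k133 10 (.s k134 k194 9 (.d k73
  k75 k195 0 10)))), (.s k240 k160 11 (.s k164 k88 13 (.s k167 k165 0 (.d k243 k91 k89 13 14))))]
  .n) .n)))) (.c k8 (.q k21 [(.s k10 k5 2 (.s k42 k63 6 (.s k26 k58 3 (.s k48 k37 6 (.d k16 k31 k32
  2 3))))), (.s k63 k42 6 (.s k13 k14 0 (.s k29 k46 4 (.s k45 k61 3 (.s k30 k60 4 (.d k31 k28 k47 0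
  3)))))), (.s k5 k10 2 (.s k37 k53 3 (.s k13 k14 0 (.s k25 k49 5 (.s k17 k29 1 (.d k51 k34 k38 4
  6))))))] .n) (.c k11 (.l (.s k4 k8 1 (.s k13 k14 0 (.s k5 k10 2 (.s k9 k1 1 (.d k6 k7 k3 0 2))))))
  .n)))) .n))))))))))))))

def t86 : T TT 256 :=
  (.q k138 [(.s k10 k5 2 (.s k207 k69 10 (.s k74 k202 7 (.s k133 k192 10 (.d k143 k128 k79 2 7)))))]
  (.c k5 (.q k70 [(.s k69 k207 10 (.s k2 k206 9 (.s k3 k1 0 (.s k204 k137 10 (.d k68 k71 k136 0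
  9))))), (.s k207 k69 10 (.s k2 k206 9 (.s k143 k79 7 (.s k133 k128 2 (.s k7 k196 8 (.d k3 k1 k11 0
  1)))))), (.s k69 k207 10 (.s k68 k71 0 (.s k204 k136 9 (.s k78 k141 8 (.s k74 k66 1 (.s k192 k133
  10 (.d k64 k79 k128 2 7))))))), (.s k2 k206 9 (.s k3 k1 0 (.s k7 k11 1 (.s k133 k196 8 (.s k192
  k74 10 (.d k128 k143 k64 2 7))))))] (.c k3 (.l (.s k207 k69 10 (.s k206 k2 9 (.s k79 k143 7 (.s
  k204 k205 0 (.s k78 k141 8 (.s k142 k14 7 (.d k77 k76 k12 0 8)))))))) (.c k82 (.q k94 [(.s k69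
  k207 10 (.s k2 k206 9 (.s k3 k1 0 (.s k204 k137 10 (.d k68 k71 k136 0 9))))), (.s k207 k69 10 (.s
  k79 k143 7 (.s k252 k173 12 (.s k109 k124 4 (.s k158 k60 12 (.d k222 k237 k30 4 7)))))), (.s k2
  k206 9 (.s k3 k1 0 (.s k7 k11 1 (.s k133 k196 8 (.s k192 k74 10 (.d k128 k143 k64 2 7))))))] .n)
  (.c k94 (.q k82 [(.s k69 k207 10 (.s k2 k206 9 (.s k3 k1 0 (.s k204 k137 10 (.d k68 k71 k136 0
  9))))), (.s k2 k206 9 (.s k3 k1 0 (.s k162 k242 11 (.s k81 k243 12 (.s k240 k161 12 (.d k80 k83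
  k160 0 11)))))), (.s k69 k207 10 (.s k68 k71 0 (.s k204 k136 9 (.s k78 k141 8 (.s k74 k66 1 (.s
  k192 k133 10 (.d k64 k79 k128 2 7)))))))] (.c k3 (.l (.s k207 k69 10 (.s k206 k2 9 (.s k79 k143 7
  (.s k204 k205 0 (.s k78 k141 8 (.s k142 k14 7 (.d k77 k76 k12 0 8)))))))) .n)) .n)))) (.c k10 (.q
  k2 [(.s k3 k1 0 (.s k69 k207 10 (.s k70 k206 9 (.s k204 k137 10 (.d k68 k71 k136 0 9))))), (.s k3
  k1 0 (.s k70 k206 9 (.s k7 k11 1 (.s k133 k196 8 (.s k128 k143 2 (.d k192 k64 k74 7 10)))))), (.s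
  k3 k1 0 (.s k207 k69 10 (.s k7 k11 1 (.s k71 k139 9 (.s k135 k199 7 (.s k75 k195 9 (.d k79 k67
  k143 1 7)))))))] (.c k1 (.f k69 k207 10 (.l (.s k70 k206 9 (.s k68 k71 0 (.s k204 k136 9 (.s k78
  k141 8 (.s k74 k66 1 (.s k192 k133 10 (.d k64 k79 k128 2 7))))))))) (.c k3 (.l (.s k207 k69 10 (.s
  k206 k70 9 (.s k79 k143 7 (.s k204 k205 0 (.s k78 k141 8 (.s k142 k14 7 (.d k77 k76 k12 0
  8)))))))) (.c k82 (.q k94 [(.s k3 k1 0 (.s k69 k207 10 (.s k70 k206 9 (.s k204 k137 10 (.d k68 k71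
  k136 0 9))))), (.s k207 k69 10 (.s k79 k143 7 (.s k252 k173 12 (.s k109 k124 4 (.s k158 k60 12 (.d
  k222 k237 k30 4 7)))))), (.s k3 k1 0 (.s k70 k206 9 (.s k7 k11 1 (.s k133 k196 8 (.s k192 k74 10
  (.d k128 k143 k64 2 7))))))] (.c k170 (.q k250 [(.s k3 k1 0 (.s k69 k207 10 (.s k70 k206 9 (.s
  k204 k137 10 (.d k68 k71 k136 0 9))))), (.s k207 k69 10 (.s k79 k143 7 (.s k252 k173 12 (.s k109
  k124 4 (.s k158 k60 12 (.d k222 k237 k30 4 7)))))), (.s k3 k1 0 (.s k70 k206 9 (.s k7 k11 1 (.s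
  k133 k196 8 (.s k192 k74 10 (.d k128 k143 k64 2 7))))))] .n) (.c k250 (.q k170 [(.s k3 k1 0 (.s
  k69 k207 10 (.s k70 k206 9 (.s k204 k137 10 (.d k68 k71 k136 0 9))))), (.s k1 k3 0 (.s k85 k255 14
  (.s k169 k253 13 (.s k252 k173 12 (.d k168 k171 k84 0 13))))), (.s k207 k69 10 (.s k85 k255 14 (.s
  k154 k186 3 (.s k16 k223 10 (.d k48 k32 k101 3 14)))))] .n) .n))) (.c k94 (.q k82 [(.s k3 k1 0 (.s
  k69 k207 10 (.s k70 k206 9 (.s k204 k137 10 (.d k68 k71 k136 0 9))))), (.s k207 k69 10 (.s k162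
  k242 11 (.s k243 k81 12 (.s k143 k79 7 (.s k167 k91 13 (.s k128 k133 2 (.d k179 k145 k155 4
  5))))))), (.s k3 k1 0 (.s k162 k242 11 (.s k81 k243 12 (.s k240 k161 12 (.d k80 k83 k160 0
  11)))))] (.c k170 (.q k250 [(.s k3 k1 0 (.s k69 k207 10 (.s k70 k206 9 (.s k204 k137 10 (.d k68
  k71 k136 0 9))))), (.s k207 k69 10 (.s k162 k242 11 (.s k243 k81 12 (.s k143 k79 7 (.s k167 k91 13
  (.s k128 k133 2 (.d k179 k145 k155 4 5))))))), (.s k3 k1 0 (.s k162 k242 11 (.s k81 k243 12 (.s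
  k240 k161 12 (.d k80 k83 k160 0 11)))))] .n) (.c k250 (.q k170 [(.s k3 k1 0 (.s k69 k207 10 (.s
  k70 k206 9 (.s k204 k137 10 (.d k68 k71 k136 0 9))))), (.s k207 k69 10 (.s k85 k255 14 (.s k154
  k186 3 (.s k16 k223 10 (.d k48 k32 k101 3 14))))), (.s k3 k1 0 (.s k162 k242 11 (.s k81 k243 12
  (.s k240 k161 12 (.d k80 k83 k160 0 11)))))] .n) .n))) (.c k170 (.q k250 [(.s k3 k1 0 (.s k69 k207
  10 (.s k70 k206 9 (.s k204 k137 10 (.d k68 k71 k136 0 9))))), (.s k3 k1 0 (.s k70 k206 9 (.s k7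
  k11 1 (.s k133 k196 8 (.s k128 k143 2 (.d k192 k64 k74 7 10)))))), (.s k3 k1 0 (.s k207 k69 10 (.s
  k7 k11 1 (.s k71 k139 9 (.s k135 k199 7 (.s k75 k195 9 (.d k79 k67 k143 1 7)))))))] (.c k1 (.f k69
  k207 10 (.l (.s k70 k206 9 (.s k68 k71 0 (.s k204 k136 9 (.s k78 k141 8 (.s k74 k66 1 (.s k192
  k133 10 (.d k64 k79 k128 2 7))))))))) (.c k3 (.l (.s k207 k69 10 (.s k206 k70 9 (.s k79 k143 7 (.s
  k204 k205 0 (.s k78 k141 8 (.s k142 k14 7 (.d k77 k76 k12 0 8)))))))) (.c k82 (.q k94 [(.s k3 k1 0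
  (.s k69 k207 10 (.s k70 k206 9 (.s k204 k137 10 (.d k68 k71 k136 0 9))))), (.s k207 k69 10 (.s k79
  k143 7 (.s k252 k173 12 (.s k109 k124 4 (.s k158 k60 12 (.d k222 k237 k30 4 7)))))), (.s k3 k1 0
  (.s k70 k206 9 (.s k7 k11 1 (.s k133 k196 8 (.s k192 k74 10 (.d k128 k143 k64 2 7))))))] .n) (.c
  k94 (.q k82 [(.s k3 k1 0 (.s k69 k207 10 (.s k70 k206 9 (.s k204 k137 10 (.d k68 k71 k136 0
  9))))), (.s k207 k69 10 (.s k162 k242 11 (.s k243 k81 12 (.s k143 k79 7 (.s k167 k91 13 (.s k128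
  k133 2 (.d k179 k145 k155 4 5))))))), (.s k3 k1 0 (.s k162 k242 11 (.s k81 k243 12 (.s k240 k161
  12 (.d k80 k83 k160 0 11)))))] .n) .n))))) (.c k250 (.q k170 [(.s k3 k1 0 (.s k69 k207 10 (.s k70
  k206 9 (.s k204 k137 10 (.d k68 k71 k136 0 9))))), (.s k207 k69 10 (.s k85 k255 14 (.s k154 k186 3
  (.s k16 k223 10 (.d k48 k32 k101 3 14))))), (.s k3 k1 0 (.s k70 k206 9 (.s k7 k11 1 (.s k133 k196
  8 (.s k192 k74 10 (.d k128 k143 k64 2 7))))))] (.c k82 (.q k94 [(.s k3 k1 0 (.s k69 k207 10 (.s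
  k70 k206 9 (.s k204 k137 10 (.d k68 k71 k136 0 9))))), (.s k1 k3 0 (.s k85 k255 14 (.s k169 k253
  13 (.s k252 k173 12 (.d k168 k171 k84 0 13))))), (.s k207 k69 10 (.s k85 k255 14 (.s k154 k186 3
  (.s k16 k223 10 (.d k48 k32 k101 3 14)))))] .n) (.c k94 (.q k82 [(.s k3 k1 0 (.s k69 k207 10 (.s
  k70 k206 9 (.s k204 k137 10 (.d k68 k71 k136 0 9))))), (.s k207 k69 10 (.s k85 k255 14 (.s k154
  k186 3 (.s k16 k223 10 (.d k48 k32 k101 3 14))))), (.s k3 k1 0 (.s k162 k242 11 (.s k81 k243 12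
  (.s k240 k161 12 (.d k80 k83 k160 0 11)))))] .n) .n))) .n))))))) (.c k69 (.q k70 [(.s k10 k5 2 (.s
  k74 k202 7 (.s k78 k66 1 (.s k204 k141 8 (.s k136 k68 9 (.d k137 k139 k3 0 10)))))), (.s k2 k206 9
  (.s k3 k1 0 (.s k7 k11 1 (.s k133 k196 8 (.s k192 k74 10 (.d k128 k64 k143 7 2)))))), (.s k10 k5 2
  (.s k2 k206 9 (.s k14 k6 1 (.s k74 k202 7 (.s k194 k134 9 (.d k66 k78 k130 1 7))))))] (.c k74 (.l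
  (.s k10 k5 2 (.s k2 k206 9 (.s k3 k1 0 (.s k6 k14 1 (.s k9 k12 2 (.d k11 k8 k7 0 1))))))) (.c k82
  (.q k94 [(.s k10 k5 2 (.s k74 k202 7 (.s k78 k66 1 (.s k204 k141 8 (.s k136 k68 9 (.d k137 k139 k3
  0 10)))))), (.s k2 k206 9 (.s k3 k1 0 (.s k7 k11 1 (.s k133 k196 8 (.s k192 k74 10 (.d k128 k64
  k143 7 2)))))), (.s k10 k5 2 (.s k2 k206 9 (.s k14 k6 1 (.s k74 k202 7 (.s k194 k134 9 (.d k66 k78
  k130 1 7))))))] (.c k74 (.l (.s k10 k5 2 (.s k2 k206 9 (.s k3 k1 0 (.s k6 k14 1 (.s k9 k12 2 (.d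
  k11 k8 k7 0 1))))))) (.c k133 (.l (.s k2 k206 9 (.s k3 k1 0 (.s k11 k7 1 (.s k137 k204 10 (.s k74
  k200 8 (.d k10 k5 k202 2 7))))))) .n))) (.c k94 (.q k82 [(.s k10 k5 2 (.s k74 k202 7 (.s k78 k66 1
  (.s k204 k141 8 (.s k136 k68 9 (.d k137 k139 k3 0 10)))))), (.s k2 k206 9 (.s k3 k1 0 (.s k162
  k242 11 (.s k81 k243 12 (.s k240 k161 12 (.d k80 k83 k160 0 11)))))), (.s k10 k5 2 (.s k2 k206 9
  (.s k14 k6 1 (.s k74 k202 7 (.s k194 k134 9 (.d k66 k78 k130 1 7))))))] .n) (.c k133 (.l (.s k2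
  k206 9 (.s k3 k1 0 (.s k11 k7 1 (.s k137 k204 10 (.s k74 k200 8 (.d k10 k5 k202 2 7))))))) .n)))))
  (.c k74 (.f k69 k207 10 (.q k70 [(.s k2 k206 9 (.s k3 k1 0 (.s k204 k137 10 (.d k68 k71 k136 0
  9)))), (.s k5 k10 2 (.s k133 k197 7 (.s k7 k196 8 (.s k4 k6 0 (.s k199 k134 8 (.d k71 k68 k135 0
  7)))))), (.s k5 k10 2 (.s k2 k206 9 (.s k3 k1 0 (.s k7 k11 1 (.d k133 k197 k196 7 8)))))] (.c k2
  (.l (.s k5 k10 2 (.s k133 k197 7 (.s k7 k196 8 (.s k3 k11 1 (.s k68 k71 0 (.d k204 k137 k136 10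
  9))))))) (.c k82 (.q k94 [(.s k2 k206 9 (.s k3 k1 0 (.s k204 k137 10 (.d k68 k71 k136 0 9)))), (.s
  k5 k10 2 (.s k133 k197 7 (.s k7 k196 8 (.s k4 k6 0 (.s k199 k134 8 (.d k71 k68 k135 0 7)))))), (.s
  k5 k10 2 (.s k2 k206 9 (.s k3 k1 0 (.s k7 k11 1 (.d k133 k197 k196 7 8)))))] (.c k2 (.l (.s k5 k10
  2 (.s k133 k197 7 (.s k7 k196 8 (.s k3 k11 1 (.s k68 k71 0 (.d k204 k137 k136 10 9))))))) (.c k106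
  (.q k122 [(.s k2 k206 9 (.s k3 k1 0 (.s k204 k137 10 (.d k68 k71 k136 0 9)))), (.s k5 k10 2 (.s
  k133 k197 7 (.s k7 k196 8 (.s k4 k6 0 (.s k199 k134 8 (.d k71 k68 k135 0 7)))))), (.s k5 k10 2 (.s
  k2 k206 9 (.s k3 k1 0 (.s k7 k11 1 (.d k133 k197 k196 7 8)))))] (.c k2 (.l (.s k5 k10 2 (.s k133
  k197 7 (.s k7 k196 8 (.s k3 k11 1 (.s k68 k71 0 (.d k204 k137 k136 10 9))))))) (.c k66 (.q k126
  [(.s k78 k110 3 (.s k204 k141 8 (.d k68 k71 k136 0 9))), (.s k5 k10 2 (.s k133 k197 7 (.s k7 k196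
  8 (.s k3 k11 1 (.d k2 k1 k206 0 9)))))] (.c k98 (.l (.s k114 k118 1 (.s k68 k71 0 (.s k204 k136 9
  (.d k78 k110 k141 3 8))))) (.c k114 (.q k98 [(.s k78 k110 3 (.s k204 k141 8 (.d k68 k71 k136 0
  9))), (.s k5 k10 2 (.s k133 k197 7 (.s k7 k196 8 (.s k3 k11 1 (.d k2 k1 k206 0 9)))))] (.c k78 (.q
  k102 [(.s k2 k206 9 (.s k3 k1 0 (.s k204 k137 10 (.d k68 k71 k136 0 9)))), (.s k206 k2 9 (.s k154
  k50 13 (.s k170 k186 3 (.s k85 k255 14 (.d k68 k71 k119 0 4))))), (.s k5 k10 2 (.s k133 k197 7 (.s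
  k7 k196 8 (.s k3 k11 1 (.s k1 k2 0 (.d k137 k205 k204 9 10))))))] (.c k2 (.l (.s k5 k10 2 (.s k133
  k197 7 (.s k7 k196 8 (.s k3 k11 1 (.s k68 k71 0 (.d k204 k137 k136 10 9))))))) .n)) (.c k102 (.l
  (.s k78 k110 3 (.s k204 k141 8 (.d k68 k71 k136 0 9)))) .n))) .n))) (.c k126 (.q k66 [(.s k2 k206
  9 (.s k3 k1 0 (.s k204 k137 10 (.d k68 k71 k136 0 9)))), (.s k10 k5 2 (.s k2 k206 9 (.s k6 k14 1
  (.s k130 k194 7 (.d k134 k142 k198 1 7))))), (.s k5 k10 2 (.s k133 k197 7 (.s k7 k196 8 (.s k3 k11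
  1 (.s k192 k129 8 (.d k128 k143 k64 2 7))))))] .n) .n)))) (.c k122 (.q k106 [(.s k2 k206 9 (.s k3
  k1 0 (.s k204 k137 10 (.d k68 k71 k136 0 9)))), (.s k5 k10 2 (.s k133 k197 7 (.s k7 k196 8 (.s k4
  k6 0 (.s k199 k134 8 (.d k71 k68 k135 0 7)))))), (.s k5 k10 2 (.s k2 k206 9 (.s k3 k1 0 (.s k7 k11
  1 (.d k133 k197 k196 7 8)))))] (.c k2 (.l (.s k5 k10 2 (.s k133 k197 7 (.s k7 k196 8 (.s k3 k11 1
  (.s k68 k71 0 (.d k204 k137 k136 10 9))))))) .n)) .n)))) (.c k94 (.q k82 [(.s k2 k206 9 (.s k3 k1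
  0 (.s k204 k137 10 (.d k68 k71 k136 0 9)))), (.s k5 k10 2 (.s k133 k197 7 (.s k7 k196 8 (.s k4 k6
  0 (.s k199 k134 8 (.d k71 k68 k135 0 7)))))), (.s k5 k10 2 (.s k2 k206 9 (.s k3 k1 0 (.s k7 k11 1
  (.d k133 k197 k196 7 8)))))] (.c k2 (.l (.s k5 k10 2 (.s k133 k197 7 (.s k7 k196 8 (.s k3 k11 1
  (.s k68 k71 0 (.d k204 k137 k136 10 9))))))) (.c k106 (.q k122 [(.s k2 k206 9 (.s k3 k1 0 (.s k204
  k137 10 (.d k68 k71 k136 0 9)))), (.s k5 k10 2 (.s k133 k197 7 (.s k7 k196 8 (.s k4 k6 0 (.s k199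
  k134 8 (.d k71 k68 k135 0 7)))))), (.s k5 k10 2 (.s k2 k206 9 (.s k3 k1 0 (.s k7 k11 1 (.d k133
  k197 k196 7 8)))))] (.c k2 (.l (.s k5 k10 2 (.s k133 k197 7 (.s k7 k196 8 (.s k3 k11 1 (.s k68 k71
  0 (.d k204 k137 k136 10 9))))))) (.c k66 (.q k126 [(.s k2 k206 9 (.s k3 k1 0 (.s k204 k137 10 (.d
  k68 k71 k136 0 9)))), (.s k5 k10 2 (.s k133 k197 7 (.s k7 k196 8 (.s k4 k6 0 (.s k199 k134 8 (.d
  k71 k68 k135 0 7)))))), (.s k5 k10 2 (.s k2 k206 9 (.s k3 k1 0 (.s k7 k11 1 (.d k133 k197 k196 7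
  8)))))] (.c k2 (.l (.s k5 k10 2 (.s k133 k197 7 (.s k7 k196 8 (.s k3 k11 1 (.s k68 k71 0 (.d k204
  k137 k136 10 9))))))) .n)) (.c k126 (.q k66 [(.s k2 k206 9 (.s k3 k1 0 (.s k204 k137 10 (.d k68
  k71 k136 0 9)))), (.s k10 k5 2 (.s k2 k206 9 (.s k6 k14 1 (.s k130 k194 7 (.d k134 k142 k198 1
  7))))), (.s k5 k10 2 (.s k133 k197 7 (.s k7 k196 8 (.s k3 k11 1 (.s k192 k129 8 (.d k128 k143 k64
  2 7))))))] (.c k78 (.q k110 [(.s k2 k206 9 (.s k3 k1 0 (.s k204 k137 10 (.d k68 k71 k136 0 9)))),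
  (.s k2 k206 9 (.s k130 k194 7 (.s k65 k195 8 (.s k67 k64 0 (.d k73 k77 k76 1 2))))), (.s k68 k71 0
  (.s k204 k136 9 (.s k3 k137 10 (.s k240 k161 12 (.d k63 k181 k157 10 12)))))] (.c k102 (.l (.s
  k114 k98 3 (.s k2 k206 9 (.s k3 k1 0 (.s k204 k137 10 (.d k68 k71 k136 0 9)))))) (.c k114 (.q k102
  [(.s k2 k206 9 (.s k3 k1 0 (.s k204 k137 10 (.d k68 k71 k136 0 9)))), (.s k2 k206 9 (.s k130 k194
  7 (.s k65 k195 8 (.s k67 k64 0 (.d k73 k77 k76 1 2))))), (.s k68 k71 0 (.s k204 k136 9 (.s k3 k137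
  10 (.s k240 k161 12 (.d k63 k181 k157 10 12)))))] (.c k204 (.l (.s k5 k10 2 (.s k133 k197 7 (.s k7
  k196 8 (.s k3 k11 1 (.d k2 k1 k206 0 9)))))) .n)) (.c k204 (.l (.s k5 k10 2 (.s k133 k197 7 (.s k7
  k196 8 (.s k3 k11 1 (.d k2 k1 k206 0 9)))))) .n)))) (.c k110 (.q k78 [(.s k204 k141 8 (.d k68 k71
  k136 0 9)), (.s k5 k10 2 (.s k133 k197 7 (.s k7 k196 8 (.s k3 k11 1 (.d k2 k1 k206 0 9)))))] (.c
  k98 (.q k102 [(.s k204 k141 8 (.d k68 k71 k136 0 9)), (.s k5 k10 2 (.s k133 k197 7 (.s k7 k196 8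
  (.s k3 k11 1 (.d k2 k1 k206 0 9)))))] .n) (.c k102 (.l (.s k98 k114 3 (.s k204 k141 8 (.d k68 k71
  k136 0 9)))) .n))) .n))) .n)))) (.c k122 (.q k106 [(.s k2 k206 9 (.s k3 k1 0 (.s k204 k137 10 (.d
  k68 k71 k136 0 9)))), (.s k5 k10 2 (.s k133 k197 7 (.s k7 k196 8 (.s k4 k6 0 (.s k199 k134 8 (.d
  k71 k68 k135 0 7)))))), (.s k5 k10 2 (.s k2 k206 9 (.s k3 k1 0 (.s k7 k11 1 (.d k133 k197 k196 7
  8)))))] (.c k2 (.l (.s k5 k10 2 (.s k133 k197 7 (.s k7 k196 8 (.s k3 k11 1 (.s k68 k71 0 (.d k204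
  k137 k136 10 9))))))) .n)) .n)))) (.c k106 (.q k122 [(.s k2 k206 9 (.s k3 k1 0 (.s k204 k137 10
  (.d k68 k71 k136 0 9)))), (.s k5 k10 2 (.s k133 k197 7 (.s k7 k196 8 (.s k4 k6 0 (.s k199 k134 8
  (.d k71 k68 k135 0 7)))))), (.s k5 k10 2 (.s k2 k206 9 (.s k3 k1 0 (.s k7 k11 1 (.d k133 k197 k196
  7 8)))))] (.c k2 (.l (.s k5 k10 2 (.s k133 k197 7 (.s k7 k196 8 (.s k3 k11 1 (.s k68 k71 0 (.d
  k204 k137 k136 10 9))))))) (.c k66 (.q k126 [(.s k2 k206 9 (.s k3 k1 0 (.s k204 k137 10 (.d k68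
  k71 k136 0 9)))), (.s k5 k10 2 (.s k133 k197 7 (.s k7 k196 8 (.s k4 k6 0 (.s k199 k134 8 (.d k71
  k68 k135 0 7)))))), (.s k5 k10 2 (.s k2 k206 9 (.s k3 k1 0 (.s k7 k11 1 (.d k133 k197 k196 7
  8)))))] (.c k2 (.l (.s k5 k10 2 (.s k133 k197 7 (.s k7 k196 8 (.s k3 k11 1 (.s k68 k71 0 (.d k204
  k137 k136 10 9))))))) (.c k82 (.q k94 [(.s k78 k110 3 (.s k204 k141 8 (.d k68 k71 k136 0 9))), (.s
  k5 k10 2 (.s k133 k197 7 (.s k7 k196 8 (.s k3 k11 1 (.d k2 k1 k206 0 9)))))] (.c k98 (.l (.s k114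
  k118 1 (.s k68 k71 0 (.s k204 k136 9 (.d k78 k110 k141 3 8))))) (.c k114 (.q k98 [(.s k78 k110 3
  (.s k204 k141 8 (.d k68 k71 k136 0 9))), (.s k5 k10 2 (.s k133 k197 7 (.s k7 k196 8 (.s k3 k11 1
  (.d k2 k1 k206 0 9)))))] (.c k78 (.q k102 [(.s k2 k206 9 (.s k3 k1 0 (.s k204 k137 10 (.d k68 k71
  k136 0 9)))), (.s k206 k2 9 (.s k154 k50 13 (.s k170 k186 3 (.s k85 k255 14 (.d k68 k71 k119 0
  4))))), (.s k5 k10 2 (.s k133 k197 7 (.s k7 k196 8 (.s k3 k11 1 (.s k1 k2 0 (.d k137 k205 k204 9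
  10))))))] (.c k2 (.l (.s k5 k10 2 (.s k133 k197 7 (.s k7 k196 8 (.s k3 k11 1 (.s k68 k71 0 (.d
  k204 k137 k136 10 9))))))) .n)) (.c k102 (.l (.s k78 k110 3 (.s k204 k141 8 (.d k68 k71 k136 0
  9)))) .n))) .n))) (.c k94 (.q k82 [(.s k2 k206 9 (.s k3 k1 0 (.s k204 k137 10 (.d k68 k71 k136 0
  9)))), (.s k5 k10 2 (.s k133 k197 7 (.s k7 k196 8 (.s k4 k6 0 (.s k199 k134 8 (.d k71 k68 k135 0
  7)))))), (.s k5 k10 2 (.s k2 k206 9 (.s k3 k1 0 (.s k7 k11 1 (.d k133 k197 k196 7 8)))))] (.c k2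
  (.l (.s k5 k10 2 (.s k133 k197 7 (.s k7 k196 8 (.s k3 k11 1 (.s k68 k71 0 (.d k204 k137 k136 10
  9))))))) .n)) .n)))) (.c k82 (.q k94 [(.s k2 k206 9 (.s k3 k1 0 (.s k204 k137 10 (.d k68 k71 k136
  0 9)))), (.s k5 k10 2 (.s k133 k197 7 (.s k7 k196 8 (.s k4 k6 0 (.s k199 k134 8 (.d k71 k68 k135 0
  7)))))), (.s k5 k10 2 (.s k2 k206 9 (.s k3 k1 0 (.s k7 k11 1 (.d k133 k197 k196 7 8)))))] (.c k2
  (.l (.s k5 k10 2 (.s k133 k197 7 (.s k7 k196 8 (.s k3 k11 1 (.s k68 k71 0 (.d k204 k137 k136 10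
  9))))))) (.c k66 (.q k126 [(.s k78 k110 3 (.s k204 k141 8 (.d k68 k71 k136 0 9))), (.s k5 k10 2
  (.s k133 k197 7 (.s k7 k196 8 (.s k3 k11 1 (.d k2 k1 k206 0 9)))))] (.c k98 (.l (.s k114 k118 1
  (.s k68 k71 0 (.s k204 k136 9 (.d k78 k110 k141 3 8))))) (.c k114 (.q k98 [(.s k78 k110 3 (.s k204
  k141 8 (.d k68 k71 k136 0 9))), (.s k5 k10 2 (.s k133 k197 7 (.s k7 k196 8 (.s k3 k11 1 (.d k2 k1
  k206 0 9)))))] (.c k78 (.q k102 [(.s k2 k206 9 (.s k3 k1 0 (.s k204 k137 10 (.d k68 k71 k136 0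
  9)))), (.s k206 k2 9 (.s k154 k50 13 (.s k170 k186 3 (.s k85 k255 14 (.d k68 k71 k119 0 4))))),
  (.s k5 k10 2 (.s k133 k197 7 (.s k7 k196 8 (.s k3 k11 1 (.s k1 k2 0 (.d k137 k205 k204 9 10))))))]
  (.c k2 (.l (.s k5 k10 2 (.s k133 k197 7 (.s k7 k196 8 (.s k3 k11 1 (.s k68 k71 0 (.d k204 k137
  k136 10 9))))))) .n)) (.c k102 (.l (.s k78 k110 3 (.s k204 k141 8 (.d k68 k71 k136 0 9)))) .n)))
  .n))) (.c k126 (.q k66 [(.s k2 k206 9 (.s k3 k1 0 (.s k204 k137 10 (.d k68 k71 k136 0 9)))), (.s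
  k10 k5 2 (.s k2 k206 9 (.s k6 k14 1 (.s k130 k194 7 (.d k134 k142 k198 1 7))))), (.s k5 k10 2 (.s
  k133 k197 7 (.s k7 k196 8 (.s k3 k11 1 (.s k192 k129 8 (.d k128 k143 k64 2 7))))))] .n) .n)))) (.c
  k94 (.q k82 [(.s k2 k206 9 (.s k3 k1 0 (.s k204 k137 10 (.d k68 k71 k136 0 9)))), (.s k5 k10 2 (.s
  k133 k197 7 (.s k7 k196 8 (.s k4 k6 0 (.s k199 k134 8 (.d k71 k68 k135 0 7)))))), (.s k5 k10 2 (.s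
  k2 k206 9 (.s k3 k1 0 (.s k7 k11 1 (.d k133 k197 k196 7 8)))))] (.c k2 (.l (.s k5 k10 2 (.s k133
  k197 7 (.s k7 k196 8 (.s k3 k11 1 (.s k68 k71 0 (.d k204 k137 k136 10 9))))))) (.c k66 (.q k126
  [(.s k2 k206 9 (.s k3 k1 0 (.s k204 k137 10 (.d k68 k71 k136 0 9)))), (.s k5 k10 2 (.s k133 k197 7
  (.s k7 k196 8 (.s k4 k6 0 (.s k199 k134 8 (.d k71 k68 k135 0 7)))))), (.s k5 k10 2 (.s k2 k206 9
  (.s k3 k1 0 (.s k7 k11 1 (.d k133 k197 k196 7 8)))))] (.c k2 (.l (.s k5 k10 2 (.s k133 k197 7 (.s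
  k7 k196 8 (.s k3 k11 1 (.s k68 k71 0 (.d k204 k137 k136 10 9))))))) .n)) (.c k126 (.q k66 [(.s k2
  k206 9 (.s k3 k1 0 (.s k204 k137 10 (.d k68 k71 k136 0 9)))), (.s k10 k5 2 (.s k2 k206 9 (.s k6
  k14 1 (.s k130 k194 7 (.d k134 k142 k198 1 7))))), (.s k5 k10 2 (.s k133 k197 7 (.s k7 k196 8 (.s
  k3 k11 1 (.s k192 k129 8 (.d k128 k143 k64 2 7))))))] (.c k78 (.q k110 [(.s k2 k206 9 (.s k3 k1 0
  (.s k204 k137 10 (.d k68 k71 k136 0 9)))), (.s k2 k206 9 (.s k130 k194 7 (.s k65 k195 8 (.s k67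
  k64 0 (.d k73 k77 k76 1 2))))), (.s k68 k71 0 (.s k204 k136 9 (.s k3 k137 10 (.s k240 k161 12 (.d
  k63 k181 k157 10 12)))))] (.c k102 (.l (.s k114 k98 3 (.s k2 k206 9 (.s k3 k1 0 (.s k204 k137 10
  (.d k68 k71 k136 0 9)))))) (.c k114 (.q k102 [(.s k2 k206 9 (.s k3 k1 0 (.s k204 k137 10 (.d k68
  k71 k136 0 9)))), (.s k2 k206 9 (.s k130 k194 7 (.s k65 k195 8 (.s k67 k64 0 (.d k73 k77 k76 1
  2))))), (.s k68 k71 0 (.s k204 k136 9 (.s k3 k137 10 (.s k240 k161 12 (.d k63 k181 k157 10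
  12)))))] (.c k204 (.l (.s k5 k10 2 (.s k133 k197 7 (.s k7 k196 8 (.s k3 k11 1 (.d k2 k1 k206 0
  9)))))) .n)) (.c k204 (.l (.s k5 k10 2 (.s k133 k197 7 (.s k7 k196 8 (.s k3 k11 1 (.d k2 k1 k206 0
  9)))))) .n)))) (.c k110 (.q k78 [(.s k204 k141 8 (.d k68 k71 k136 0 9)), (.s k5 k10 2 (.s k133
  k197 7 (.s k7 k196 8 (.s k3 k11 1 (.d k2 k1 k206 0 9)))))] (.c k98 (.q k102 [(.s k204 k141 8 (.d
  k68 k71 k136 0 9)), (.s k5 k10 2 (.s k133 k197 7 (.s k7 k196 8 (.s k3 k11 1 (.d k2 k1 k206 0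
  9)))))] .n) (.c k102 (.l (.s k98 k114 3 (.s k204 k141 8 (.d k68 k71 k136 0 9)))) .n))) .n)))
  .n)))) (.c k126 (.q k66 [(.s k2 k206 9 (.s k3 k1 0 (.s k204 k137 10 (.d k68 k71 k136 0 9)))), (.s
  k10 k5 2 (.s k2 k206 9 (.s k6 k14 1 (.s k130 k194 7 (.d k134 k142 k198 1 7))))), (.s k5 k10 2 (.s
  k133 k197 7 (.s k7 k196 8 (.s k3 k11 1 (.s k192 k129 8 (.d k128 k143 k64 2 7))))))] (.c k82 (.q
  k94 [(.s k2 k206 9 (.s k3 k1 0 (.s k204 k137 10 (.d k68 k71 k136 0 9)))), (.s k10 k5 2 (.s k2 k206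
  9 (.s k6 k14 1 (.s k130 k194 7 (.d k134 k142 k198 1 7))))), (.s k5 k10 2 (.s k133 k197 7 (.s k7
  k196 8 (.s k3 k11 1 (.s k192 k129 8 (.d k128 k143 k64 2 7))))))] .n) (.c k94 (.q k82 [(.s k2 k206
  9 (.s k3 k1 0 (.s k204 k137 10 (.d k68 k71 k136 0 9)))), (.s k10 k5 2 (.s k2 k206 9 (.s k6 k14 1
  (.s k130 k194 7 (.d k134 k142 k198 1 7))))), (.s k5 k10 2 (.s k133 k197 7 (.s k7 k196 8 (.s k3 k11
  1 (.s k192 k129 8 (.d k128 k143 k64 2 7))))))] (.c k78 (.q k110 [(.s k2 k206 9 (.s k3 k1 0 (.s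
  k204 k137 10 (.d k68 k71 k136 0 9)))), (.s k2 k206 9 (.s k130 k194 7 (.s k65 k195 8 (.s k67 k64 0
  (.d k73 k77 k76 1 2))))), (.s k68 k71 0 (.s k204 k136 9 (.s k3 k137 10 (.s k240 k161 12 (.d k63
  k181 k157 10 12)))))] (.c k102 (.l (.s k114 k98 3 (.s k2 k206 9 (.s k3 k1 0 (.s k204 k137 10 (.d
  k68 k71 k136 0 9)))))) (.c k114 (.q k102 [(.s k2 k206 9 (.s k3 k1 0 (.s k204 k137 10 (.d k68 k71
  k136 0 9)))), (.s k2 k206 9 (.s k130 k194 7 (.s k65 k195 8 (.s k67 k64 0 (.d k73 k77 k76 1 2))))),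
  (.s k68 k71 0 (.s k204 k136 9 (.s k3 k137 10 (.s k240 k161 12 (.d k63 k181 k157 10 12)))))] (.c
  k204 (.l (.s k5 k10 2 (.s k133 k197 7 (.s k7 k196 8 (.s k3 k11 1 (.d k2 k1 k206 0 9)))))) .n)) (.c
  k204 (.l (.s k5 k10 2 (.s k133 k197 7 (.s k7 k196 8 (.s k3 k11 1 (.d k2 k1 k206 0 9)))))) .n))))
  (.c k110 (.q k78 [(.s k204 k141 8 (.d k68 k71 k136 0 9)), (.s k5 k10 2 (.s k133 k197 7 (.s k7 k196
  8 (.s k3 k11 1 (.d k2 k1 k206 0 9)))))] (.c k98 (.q k102 [(.s k204 k141 8 (.d k68 k71 k136 0 9)),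
  (.s k5 k10 2 (.s k133 k197 7 (.s k7 k196 8 (.s k3 k11 1 (.d k2 k1 k206 0 9)))))] .n) (.c k102 (.l
  (.s k98 k114 3 (.s k204 k141 8 (.d k68 k71 k136 0 9)))) .n))) .n))) .n))) .n)))))) (.c k122 (.q
  k106 [(.s k2 k206 9 (.s k3 k1 0 (.s k204 k137 10 (.d k68 k71 k136 0 9)))), (.s k5 k10 2 (.s k133
  k197 7 (.s k7 k196 8 (.s k4 k6 0 (.s k199 k134 8 (.d k71 k68 k135 0 7)))))), (.s k5 k10 2 (.s k2
  k206 9 (.s k3 k1 0 (.s k7 k11 1 (.d k133 k197 k196 7 8)))))] (.c k2 (.l (.s k5 k10 2 (.s k133 k197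
  7 (.s k7 k196 8 (.s k3 k11 1 (.s k68 k71 0 (.d k204 k137 k136 10 9))))))) (.c k82 (.q k94 [(.s k2
  k206 9 (.s k3 k1 0 (.s k204 k137 10 (.d k68 k71 k136 0 9)))), (.s k5 k10 2 (.s k133 k197 7 (.s k7
  k196 8 (.s k4 k6 0 (.s k199 k134 8 (.d k71 k68 k135 0 7)))))), (.s k5 k10 2 (.s k2 k206 9 (.s k3
  k1 0 (.s k7 k11 1 (.d k133 k197 k196 7 8)))))] (.c k2 (.l (.s k5 k10 2 (.s k133 k197 7 (.s k7 k196
  8 (.s k3 k11 1 (.s k68 k71 0 (.d k204 k137 k136 10 9))))))) .n)) (.c k94 (.q k82 [(.s k2 k206 9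
  (.s k3 k1 0 (.s k204 k137 10 (.d k68 k71 k136 0 9)))), (.s k5 k10 2 (.s k133 k197 7 (.s k7 k196 8
  (.s k4 k6 0 (.s k199 k134 8 (.d k71 k68 k135 0 7)))))), (.s k5 k10 2 (.s k2 k206 9 (.s k3 k1 0 (.s
  k7 k11 1 (.d k133 k197 k196 7 8)))))] (.c k2 (.l (.s k5 k10 2 (.s k133 k197 7 (.s k7 k196 8 (.s k3
  k11 1 (.s k68 k71 0 (.d k204 k137 k136 10 9))))))) .n)) .n)))) .n))))))) (.c k79 (.l (.s k5 k10 2
  (.s k69 k207 10 (.s k133 k197 7 (.s k192 k74 10 (.d k128 k143 k64 2 7)))))) (.c k82 (.q k94 [(.s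
  k10 k5 2 (.s k207 k69 10 (.s k74 k202 7 (.s k133 k192 10 (.d k143 k128 k79 2 7))))), (.s k207 k69
  10 (.s k79 k143 7 (.s k173 k252 12 (.s k109 k124 4 (.s k45 k237 7 (.d k60 k30 k158 4 12))))))] (.c
  k69 (.q k70 [(.s k10 k5 2 (.s k74 k202 7 (.s k78 k66 1 (.s k204 k141 8 (.s k136 k68 9 (.d k137
  k139 k3 0 10)))))), (.s k2 k206 9 (.s k3 k1 0 (.s k7 k11 1 (.s k133 k196 8 (.s k192 k74 10 (.d
  k128 k64 k143 7 2)))))), (.s k10 k5 2 (.s k2 k206 9 (.s k14 k6 1 (.s k74 k202 7 (.s k194 k134 9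
  (.d k66 k78 k130 1 7))))))] (.c k74 (.l (.s k10 k5 2 (.s k2 k206 9 (.s k3 k1 0 (.s k6 k14 1 (.s k9
  k12 2 (.d k11 k8 k7 0 1))))))) (.c k133 (.l (.s k2 k206 9 (.s k3 k1 0 (.s k11 k7 1 (.s k137 k204
  10 (.s k74 k200 8 (.d k10 k5 k202 2 7))))))) .n))) (.c k79 (.l (.s k5 k10 2 (.s k69 k207 10 (.s
  k133 k197 7 (.s k192 k74 10 (.d k128 k143 k64 2 7)))))) (.c k143 (.l (.s k10 k5 2 (.s k69 k207 10
  (.s k74 k202 7 (.s k192 k133 10 (.d k64 k79 k128 2 7)))))) (.c k207 (.q k70 [(.s k10 k5 2 (.s k74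
  k202 7 (.s k78 k66 1 (.s k204 k141 8 (.s k136 k68 9 (.d k137 k139 k3 0 10)))))), (.s k10 k5 2 (.s
  k2 k206 9 (.s k3 k1 0 (.s k6 k14 1 (.s k9 k12 2 (.d k11 k8 k7 0 1)))))), (.s k2 k206 9 (.s k3 k1 0
  (.s k7 k11 1 (.s k133 k196 8 (.s k192 k74 10 (.d k128 k143 k64 2 7))))))] (.c k3 (.l (.s k10 k5 2
  (.s k2 k206 9 (.s k14 k6 1 (.s k74 k202 7 (.s k194 k134 9 (.d k66 k78 k130 1 7))))))) (.c k204 (.l
  (.s k10 k5 2 (.s k74 k202 7 (.s k192 k133 10 (.s k66 k78 1 (.s k3 k129 8 (.d k2 k1 k206 0 9)))))))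
  .n))) .n))))) (.c k94 (.q k82 [(.s k10 k5 2 (.s k207 k69 10 (.s k74 k202 7 (.s k133 k192 10 (.d
  k143 k128 k79 2 7)))))] (.c k5 (.q k12 [(.s k4 k8 1 (.s k69 k207 10 (.s k134 k199 8 (.s k195 k73
  10 (.d k130 k142 k65 1 8))))), (.s k207 k69 10 (.s k13 k14 0 (.s k77 k142 8 (.s k141 k205 7 (.s
  k78 k204 8 (.d k79 k76 k143 0 7)))))), (.s k8 k4 1 (.s k73 k203 8 (.s k13 k14 0 (.s k133 k193 9
  (.s k192 k74 10 (.d k128 k143 k64 2 7))))))] .n) (.c k10 (.q k12 [(.s k8 k4 1 (.s k69 k207 10 (.s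
  k73 k203 8 (.s k195 k134 10 (.d k65 k77 k130 1 8))))), (.s k207 k69 10 (.s k13 k14 0 (.s k77 k142
  8 (.s k141 k205 7 (.s k78 k204 8 (.d k79 k76 k143 0 7)))))), (.s k8 k4 1 (.s k73 k203 8 (.s k13
  k14 0 (.s k133 k193 9 (.s k192 k74 10 (.d k128 k143 k64 2 7))))))] (.c k170 (.q k250 [(.s k8 k4 1
  (.s k69 k207 10 (.s k73 k203 8 (.s k195 k134 10 (.d k65 k77 k130 1 8))))), (.s k207 k69 10 (.s k13
  k14 0 (.s k77 k142 8 (.s k141 k205 7 (.s k78 k204 8 (.d k79 k76 k143 0 7)))))), (.s k8 k4 1 (.s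
  k73 k203 8 (.s k13 k14 0 (.s k133 k193 9 (.s k192 k74 10 (.d k128 k143 k64 2 7))))))] (.c k2 (.q
  k254 [(.s k8 k4 1 (.s k69 k207 10 (.s k73 k203 8 (.s k195 k134 10 (.d k65 k77 k130 1 8))))), (.s
  k207 k69 10 (.s k77 k142 8 (.s k79 k143 7 (.s k78 k76 0 (.s k141 k204 8 (.d k13 k14 k205 0
  7)))))), (.s k8 k4 1 (.s k73 k203 8 (.s k14 k13 0 (.s k134 k195 10 (.s k74 k194 9 (.s k192 k133 10
  (.d k72 k75 k132 0 9)))))))] (.c k6 (.l (.s k14 k13 0 (.s k4 k8 1 (.s k69 k207 10 (.s k134 k199 8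
  (.s k195 k73 10 (.d k130 k142 k65 1 8))))))) (.c k14 (.q k6 [(.s k4 k8 1 (.s k7 k5 0 (.d k3 k11 k9
  1 2))), (.s k8 k4 1 (.s k69 k207 10 (.s k73 k203 8 (.s k195 k134 10 (.d k65 k77 k130 1 8)))))] (.c
  k4 (.l (.s k3 k9 2 (.s k240 k161 12 (.s k80 k160 11 (.s k81 k83 0 (.s k242 k246 1 (.d k243 k162
  k241 12 0))))))) (.c k8 (.l (.s k207 k69 10 (.s k3 k9 2 (.s k11 k7 1 (.s k139 k71 9 (.s k75 k203 7
  (.s k135 k195 9 (.d k143 k131 k79 1 7)))))))) (.c k166 (.l (.s k242 k246 1 (.s k4 k8 1 (.s k7 k5 0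
  (.d k3 k11 k9 1 2))))) (.c k242 (.q k166 [(.s k4 k8 1 (.s k7 k5 0 (.d k3 k11 k9 1 2))), (.s k207
  k69 10 (.s k77 k142 8 (.s k89 k243 14 (.s k101 k113 5 (.s k36 k231 8 (.d k48 k24 k154 5 14))))))]
  (.c k89 (.l (.s k8 k4 1 (.s k69 k207 10 (.s k73 k203 8 (.s k195 k134 10 (.d k65 k77 k130 1 8))))))
  .n)) .n))))) (.c k207 (.l (.s k8 k4 1 (.s k73 k203 8 (.s k195 k134 10 (.s k75 k135 9 (.s k74 k72 0
  (.s k133 k192 10 (.d k13 k14 k193 0 9)))))))) .n)))) (.c k254 (.q k2 [(.s k207 k69 10 (.s k206 k70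
  9 (.s k14 k13 0 (.d k142 k78 k77 7 8)))), (.s k3 k1 0 (.s k162 k242 11 (.s k81 k243 12 (.s k240
  k161 12 (.d k80 k83 k160 0 11)))))] (.c k14 (.q k174 [(.s k3 k1 0 (.s k240 k161 12 (.d k255 k245
  k93 2 12))), (.s k4 k8 1 (.s k69 k207 10 (.s k134 k199 8 (.s k195 k73 10 (.d k130 k142 k65 1
  8)))))] (.c k166 (.l (.s k242 k162 11 (.s k3 k1 0 (.s k240 k161 12 (.d k255 k245 k93 2 12))))) (.c
  k242 (.q k166 [(.s k3 k1 0 (.s k240 k161 12 (.d k255 k245 k93 2 12))), (.s k3 k1 0 (.s k243 k89 14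
  (.s k81 k162 12 (.d k83 k80 k163 0 11)))), (.s k4 k8 1 (.s k85 k247 12 (.s k89 k243 14 (.d k93
  k255 k81 12 1))))] (.c k81 (.l (.s k3 k1 0 (.s k255 k93 12 (.d k240 k161 k245 12 2)))) .n)) .n)))
  (.c k174 (.l (.s k14 k13 0 (.s k207 k69 10 (.s k206 k70 9 (.d k142 k78 k77 7 8))))) .n))) .n)))
  (.c k250 (.q k170 [(.s k8 k4 1 (.s k69 k207 10 (.s k73 k203 8 (.s k195 k134 10 (.d k65 k77 k130 1
  8))))), (.s k207 k69 10 (.s k85 k255 14 (.s k154 k186 3 (.s k16 k223 10 (.d k48 k32 k101 3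
  14))))), (.s k4 k8 1 (.s k85 k255 14 (.s k166 k247 12 (.s k243 k89 14 (.d k162 k174 k81 1 12)))))]
  .n) .n))) (.c k69 (.q k12 [(.s k4 k8 1 (.s k5 k10 2 (.s k6 k7 0 (.s k9 k3 2 (.d k13 k14 k1 0
  1))))), (.s k8 k4 1 (.s k73 k203 8 (.s k13 k14 0 (.s k133 k193 9 (.s k192 k74 10 (.d k128 k64 k143
  7 2)))))), (.s k10 k5 2 (.s k74 k202 7 (.s k14 k13 0 (.s k134 k194 9 (.s k195 k73 10 (.d k130 k65
  k142 8 1)))))), (.s k8 k4 1 (.s k10 k5 2 (.s k73 k203 8 (.s k74 k202 7 (.s k72 k75 0 (.d k192 k133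
  k132 10 9))))))] .n) (.c k74 (.f k69 k207 10 (.q k70 [(.s k2 k206 9 (.s k3 k1 0 (.s k204 k137 10
  (.d k68 k71 k136 0 9)))), (.s k5 k10 2 (.s k133 k197 7 (.s k7 k196 8 (.s k4 k6 0 (.s k199 k134 8
  (.d k71 k68 k135 0 7)))))), (.s k5 k10 2 (.s k2 k206 9 (.s k3 k1 0 (.s k7 k11 1 (.d k133 k197 k196
  7 8)))))] (.c k2 (.l (.s k5 k10 2 (.s k133 k197 7 (.s k7 k196 8 (.s k3 k11 1 (.s k68 k71 0 (.d
  k204 k137 k136 10 9))))))) (.c k106 (.q k122 [(.s k2 k206 9 (.s k3 k1 0 (.s k204 k137 10 (.d k68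
  k71 k136 0 9)))), (.s k5 k10 2 (.s k133 k197 7 (.s k7 k196 8 (.s k4 k6 0 (.s k199 k134 8 (.d k71
  k68 k135 0 7)))))), (.s k5 k10 2 (.s k2 k206 9 (.s k3 k1 0 (.s k7 k11 1 (.d k133 k197 k196 7
  8)))))] (.c k2 (.l (.s k5 k10 2 (.s k133 k197 7 (.s k7 k196 8 (.s k3 k11 1 (.s k68 k71 0 (.d k204
  k137 k136 10 9))))))) (.c k66 (.q k126 [(.s k2 k206 9 (.s k3 k1 0 (.s k204 k137 10 (.d k68 k71
  k136 0 9)))), (.s k5 k10 2 (.s k133 k197 7 (.s k7 k196 8 (.s k4 k6 0 (.s k199 k134 8 (.d k71 k68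
  k135 0 7)))))), (.s k5 k10 2 (.s k2 k206 9 (.s k3 k1 0 (.s k7 k11 1 (.d k133 k197 k196 7 8)))))]
  (.c k2 (.l (.s k5 k10 2 (.s k133 k197 7 (.s k7 k196 8 (.s k3 k11 1 (.s k68 k71 0 (.d k204 k137
  k136 10 9))))))) .n)) (.c k126 (.q k66 [(.s k2 k206 9 (.s k3 k1 0 (.s k204 k137 10 (.d k68 k71
  k136 0 9)))), (.s k10 k5 2 (.s k2 k206 9 (.s k6 k14 1 (.s k130 k194 7 (.d k134 k142 k198 1 7))))),
  (.s k5 k10 2 (.s k133 k197 7 (.s k7 k196 8 (.s k3 k11 1 (.s k192 k129 8 (.d k128 k143 k64 2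
  7))))))] (.c k78 (.q k110 [(.s k2 k206 9 (.s k3 k1 0 (.s k204 k137 10 (.d k68 k71 k136 0 9)))),
  (.s k2 k206 9 (.s k130 k194 7 (.s k65 k195 8 (.s k67 k64 0 (.d k73 k77 k76 1 2))))), (.s k68 k71 0
  (.s k204 k136 9 (.s k3 k137 10 (.s k240 k161 12 (.d k63 k181 k157 10 12)))))] (.c k102 (.l (.s
  k114 k98 3 (.s k2 k206 9 (.s k3 k1 0 (.s k204 k137 10 (.d k68 k71 k136 0 9)))))) (.c k114 (.q k102
  [(.s k2 k206 9 (.s k3 k1 0 (.s k204 k137 10 (.d k68 k71 k136 0 9)))), (.s k2 k206 9 (.s k130 k194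
  7 (.s k65 k195 8 (.s k67 k64 0 (.d k73 k77 k76 1 2))))), (.s k68 k71 0 (.s k204 k136 9 (.s k3 k137
  10 (.s k240 k161 12 (.d k63 k181 k157 10 12)))))] (.c k204 (.l (.s k5 k10 2 (.s k133 k197 7 (.s k7
  k196 8 (.s k3 k11 1 (.d k2 k1 k206 0 9)))))) .n)) (.c k204 (.l (.s k5 k10 2 (.s k133 k197 7 (.s k7
  k196 8 (.s k3 k11 1 (.d k2 k1 k206 0 9)))))) .n)))) (.c k110 (.q k78 [(.s k204 k141 8 (.d k68 k71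
  k136 0 9)), (.s k5 k10 2 (.s k133 k197 7 (.s k7 k196 8 (.s k3 k11 1 (.d k2 k1 k206 0 9)))))] (.c
  k98 (.q k102 [(.s k204 k141 8 (.d k68 k71 k136 0 9)), (.s k5 k10 2 (.s k133 k197 7 (.s k7 k196 8
  (.s k3 k11 1 (.d k2 k1 k206 0 9)))))] .n) (.c k102 (.l (.s k98 k114 3 (.s k204 k141 8 (.d k68 k71
  k136 0 9)))) .n))) .n))) .n)))) (.c k122 (.q k106 [(.s k2 k206 9 (.s k3 k1 0 (.s k204 k137 10 (.d
  k68 k71 k136 0 9)))), (.s k5 k10 2 (.s k133 k197 7 (.s k7 k196 8 (.s k4 k6 0 (.s k199 k134 8 (.d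
  k71 k68 k135 0 7)))))), (.s k5 k10 2 (.s k2 k206 9 (.s k3 k1 0 (.s k7 k11 1 (.d k133 k197 k196 7
  8)))))] (.c k2 (.l (.s k5 k10 2 (.s k133 k197 7 (.s k7 k196 8 (.s k3 k11 1 (.s k68 k71 0 (.d k204
  k137 k136 10 9))))))) .n)) .n))))) (.c k79 (.l (.s k5 k10 2 (.s k69 k207 10 (.s k133 k197 7 (.s
  k192 k74 10 (.d k128 k143 k64 2 7)))))) (.c k128 (.q k12 [(.s k4 k8 1 (.s k69 k207 10 (.s k134
  k199 8 (.s k195 k73 10 (.d k130 k142 k65 1 8))))), (.s k4 k8 1 (.s k5 k10 2 (.s k6 k7 0 (.s k9 k3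
  2 (.d k13 k14 k1 0 1))))), (.s k10 k5 2 (.s k207 k69 10 (.s k74 k202 7 (.s k14 k13 0 (.s k142 k77
  8 (.d k134 k130 k194 1 9))))))] .n) (.c k133 (.q k12 [(.s k4 k8 1 (.s k69 k207 10 (.s k134 k199 8
  (.s k130 k142 1 (.d k195 k65 k73 8 10))))), (.s k4 k8 1 (.s k5 k10 2 (.s k6 k7 0 (.s k9 k3 2 (.d
  k13 k14 k1 0 1))))), (.s k10 k5 2 (.s k74 k202 7 (.s k14 k13 0 (.s k134 k194 9 (.s k130 k142 1 (.d
  k195 k73 k65 10 8))))))] .n) (.c k143 (.l (.s k10 k5 2 (.s k69 k207 10 (.s k74 k202 7 (.s k192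
  k133 10 (.d k64 k79 k128 2 7)))))) (.c k192 (.q k12 [(.s k4 k8 1 (.s k69 k207 10 (.s k134 k199 8
  (.s k195 k73 10 (.d k130 k142 k65 1 8))))), (.s k4 k8 1 (.s k5 k10 2 (.s k6 k7 0 (.s k9 k3 2 (.d
  k13 k14 k1 0 1))))), (.s k10 k5 2 (.s k207 k69 10 (.s k74 k202 7 (.s k14 k13 0 (.s k142 k77 8 (.d
  k134 k130 k194 1 9))))))] .n) (.c k197 (.l (.s k10 k5 2 (.s k69 k207 10 (.s k74 k202 7 (.s k192
  k133 10 (.d k64 k79 k128 2 7)))))) (.c k202 (.l (.s k5 k10 2 (.s k69 k207 10 (.s k133 k197 7 (.s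
  k192 k74 10 (.d k128 k143 k64 2 7)))))) (.c k207 (.q k12 [(.s k8 k4 1 (.s k14 k13 0 (.s k10 k5 2
  (.s k6 k2 1 (.d k9 k11 k3 0 2))))), (.s k8 k4 1 (.s k73 k203 8 (.s k13 k14 0 (.s k133 k193 9 (.s
  k192 k74 10 (.d k128 k143 k64 2 7)))))), (.s k10 k5 2 (.s k74 k202 7 (.s k14 k13 0 (.s k134 k194 9
  (.s k195 k73 10 (.d k130 k142 k65 1 8)))))), (.s k8 k4 1 (.s k10 k5 2 (.s k73 k203 8 (.s k74 k202
  7 (.s k195 k134 10 (.d k75 k72 k135 0 9))))))] .n) .n))))))))))))) (.c k128 (.f k69 k207 10 (.q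
  k70 [(.s k2 k206 9 (.s k3 k1 0 (.s k204 k137 10 (.d k68 k71 k136 0 9)))), (.s k10 k5 2 (.s k74
  k202 7 (.s k78 k66 1 (.s k204 k141 8 (.d k68 k71 k136 0 9))))), (.s k5 k10 2 (.s k133 k197 7 (.s
  k7 k196 8 (.s k3 k11 1 (.d k2 k1 k206 0 9)))))] (.c k82 (.q k94 [(.s k2 k206 9 (.s k3 k1 0 (.s
  k204 k137 10 (.d k68 k71 k136 0 9)))), (.s k10 k5 2 (.s k74 k202 7 (.s k78 k66 1 (.s k204 k141 8
  (.d k68 k71 k136 0 9))))), (.s k5 k10 2 (.s k133 k197 7 (.s k7 k196 8 (.s k3 k11 1 (.d k2 k1 k206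
  0 9)))))] .n) (.c k94 (.q k82 [(.s k2 k206 9 (.s k3 k1 0 (.s k204 k137 10 (.d k68 k71 k136 0
  9)))), (.s k10 k5 2 (.s k74 k202 7 (.s k78 k66 1 (.s k204 k141 8 (.d k68 k71 k136 0 9))))), (.s k5
  k10 2 (.s k133 k197 7 (.s k7 k196 8 (.s k3 k11 1 (.d k2 k1 k206 0 9)))))] .n) .n)))) (.c k133 (.f
  k69 k207 10 (.q k70 [(.s k2 k206 9 (.s k3 k1 0 (.s k204 k137 10 (.d k68 k71 k136 0 9)))), (.s k10
  k5 2 (.s k2 k206 9 (.s k3 k1 0 (.s k6 k14 1 (.s k9 k12 2 (.d k11 k8 k7 0 1)))))), (.s k10 k5 2 (.s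
  k74 k202 7 (.s k78 k66 1 (.s k204 k141 8 (.d k68 k71 k136 0 9)))))] (.c k82 (.q k94 [(.s k2 k206 9
  (.s k3 k1 0 (.s k204 k137 10 (.d k68 k71 k136 0 9)))), (.s k10 k5 2 (.s k2 k206 9 (.s k3 k1 0 (.s
  k6 k14 1 (.s k9 k12 2 (.d k11 k8 k7 0 1)))))), (.s k10 k5 2 (.s k74 k202 7 (.s k78 k66 1 (.s k204
  k141 8 (.d k68 k71 k136 0 9)))))] (.c k204 (.l (.s k10 k5 2 (.s k74 k202 7 (.s k64 k79 2 (.s k192
  k128 7 (.s k66 k78 1 (.s k3 k129 8 (.d k2 k1 k206 0 9)))))))) .n)) (.c k94 (.q k82 [(.s k2 k206 9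
  (.s k3 k1 0 (.s k204 k137 10 (.d k68 k71 k136 0 9)))), (.s k10 k5 2 (.s k2 k206 9 (.s k3 k1 0 (.s
  k6 k14 1 (.s k9 k12 2 (.d k11 k8 k7 0 1)))))), (.s k10 k5 2 (.s k74 k202 7 (.s k78 k66 1 (.s k204
  k141 8 (.d k68 k71 k136 0 9)))))] (.c k204 (.l (.s k10 k5 2 (.s k74 k202 7 (.s k64 k79 2 (.s k192
  k128 7 (.s k66 k78 1 (.s k3 k129 8 (.d k2 k1 k206 0 9)))))))) .n)) (.c k204 (.l (.s k10 k5 2 (.s
  k74 k202 7 (.s k64 k79 2 (.s k192 k128 7 (.s k66 k78 1 (.s k3 k129 8 (.d k2 k1 k206 0 9))))))))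
  .n))))) (.c k143 (.l (.s k10 k5 2 (.s k69 k207 10 (.s k74 k202 7 (.s k192 k133 10 (.d k64 k79 k128
  2 7)))))) (.c k192 (.q k12 [(.s k4 k8 1 (.s k69 k207 10 (.s k134 k199 8 (.s k195 k73 10 (.d k130
  k142 k65 1 8))))), (.s k4 k8 1 (.s k5 k10 2 (.s k6 k7 0 (.s k9 k3 2 (.d k13 k14 k1 0 1))))), (.s
  k10 k5 2 (.s k207 k69 10 (.s k74 k202 7 (.s k14 k13 0 (.s k142 k77 8 (.d k134 k130 k194 1 9))))))]
  (.c k82 (.q k94 [(.s k4 k8 1 (.s k69 k207 10 (.s k134 k199 8 (.s k195 k73 10 (.d k130 k142 k65 1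
  8))))), (.s k13 k14 0 (.s k173 k252 12 (.s k93 k253 11 (.s k255 k174 12 (.d k95 k92 k175 0
  11)))))] .n) (.c k94 (.q k82 [(.s k4 k8 1 (.s k69 k207 10 (.s k134 k199 8 (.s k195 k73 10 (.d k130
  k142 k65 1 8))))), (.s k4 k8 1 (.s k5 k10 2 (.s k6 k7 0 (.s k9 k3 2 (.d k13 k14 k1 0 1))))), (.s
  k10 k5 2 (.s k207 k69 10 (.s k74 k202 7 (.s k14 k13 0 (.s k142 k77 8 (.d k134 k130 k194 1 9))))))]
  .n) .n))) (.c k197 (.l (.s k10 k5 2 (.s k69 k207 10 (.s k74 k202 7 (.s k192 k133 10 (.d k64 k79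
  k128 2 7)))))) (.c k202 (.l (.s k5 k10 2 (.s k69 k207 10 (.s k133 k197 7 (.s k192 k74 10 (.d k128
  k143 k64 2 7)))))) (.c k207 (.q k12 [(.s k8 k4 1 (.s k14 k13 0 (.s k10 k5 2 (.s k6 k2 1 (.d k9 k11
  k3 0 2))))), (.s k8 k4 1 (.s k73 k203 8 (.s k13 k14 0 (.s k133 k193 9 (.s k192 k74 10 (.d k128
  k143 k64 2 7)))))), (.s k10 k5 2 (.s k74 k202 7 (.s k14 k13 0 (.s k134 k194 9 (.s k195 k73 10 (.d
  k130 k142 k65 1 8)))))), (.s k8 k4 1 (.s k10 k5 2 (.s k73 k203 8 (.s k74 k202 7 (.s k195 k134 10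
  (.d k75 k72 k135 0 9))))))] (.c k82 (.q k94 [(.s k14 k13 0 (.s k174 k254 11 (.s k93 k255 12 (.s
  k252 k173 12 (.d k92 k95 k172 0 11))))), (.s k4 k8 1 (.s k5 k10 2 (.s k6 k7 0 (.s k13 k14 0 (.d k9
  k1 k3 1 2))))), (.s k4 k8 1 (.s k252 k173 12 (.s k84 k168 13 (.s k164 k244 11 (.s k88 k240 13 (.d
  k92 k80 k172 1 11))))))] .n) (.c k94 (.q k82 [(.s k8 k4 1 (.s k14 k13 0 (.s k10 k5 2 (.s k6 k2 1
  (.d k9 k11 k3 0 2))))), (.s k8 k4 1 (.s k73 k203 8 (.s k13 k14 0 (.s k133 k193 9 (.s k192 k74 10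
  (.d k128 k143 k64 2 7)))))), (.s k10 k5 2 (.s k74 k202 7 (.s k14 k13 0 (.s k134 k194 9 (.s k195
  k73 10 (.d k130 k142 k65 1 8)))))), (.s k8 k4 1 (.s k10 k5 2 (.s k73 k203 8 (.s k74 k202 7 (.s
  k195 k134 10 (.d k75 k72 k135 0 9))))))] .n) .n))) .n)))))))))))))))

def t87 : T TT 256 :=
  (.q k42 [(.s k10 k5 2 (.s k63 k21 6 (.s k26 k58 3 (.s k37 k48 6 (.d k47 k32 k31 2 3)))))] (.c k5
  (.q k12 [(.s k4 k8 1 (.s k21 k63 6 (.s k38 k55 4 (.s k51 k25 6 (.d k34 k46 k17 1 4))))), (.s k63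
  k21 6 (.s k13 k14 0 (.s k29 k46 4 (.s k45 k61 3 (.s k30 k60 4 (.d k31 k28 k47 0 3)))))), (.s k8 k4
  1 (.s k25 k59 4 (.s k13 k14 0 (.s k37 k49 5 (.s k48 k26 6 (.d k32 k47 k16 2 3))))))] .n) (.c k10
  (.f k63 k21 6 (.q k170 [(.s k85 k255 14 (.s k106 k234 7 (.s k192 k149 14 (.d k64 k127 k128 6
  7)))), (.s k47 k31 3 (.s k32 k37 2 (.s k101 k239 10 (.s k106 k234 7 (.s k224 k165 10 (.d k96 k111
  k160 2 7)))))), (.s k255 k85 14 (.s k106 k234 7 (.s k149 k192 14 (.d k191 k128 k127 6 7)))), (.s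
  k255 k85 14 (.s k47 k31 3 (.s k32 k37 2 (.s k239 k101 10 (.d k175 k95 k111 11 7)))))] (.c k149 (.f
  k31 k47 3 (.l (.s k234 k106 7 (.s k255 k85 14 (.s k213 k192 6 (.s k95 k175 11 (.s k159 k223 7 (.s
  k111 k207 11 (.d k127 k79 k191 3 7))))))))) .n))) (.c k21 (.q k12 [(.s k8 k4 1 (.s k14 k13 0 (.s
  k10 k5 2 (.s k6 k2 1 (.d k9 k11 k3 0 2))))), (.s k8 k4 1 (.s k25 k59 4 (.s k13 k14 0 (.s k37 k49 5
  (.s k48 k26 6 (.d k32 k16 k47 3 2)))))), (.s k4 k8 1 (.s k5 k10 2 (.s k6 k7 0 (.s k9 k3 2 (.d k13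
  k14 k1 0 1))))), (.s k10 k5 2 (.s k26 k58 3 (.s k14 k13 0 (.s k38 k50 5 (.s k51 k25 6 (.d k34 k17
  k46 4 1)))))), (.s k8 k4 1 (.s k10 k5 2 (.s k25 k59 4 (.s k26 k58 3 (.s k24 k27 0 (.d k48 k37 k36
  6 5))))))] .n) (.c k26 (.f k63 k21 6 (.f k31 k47 3 (.q k12 [(.s k8 k4 1 (.s k25 k59 4 (.s k38 k51
  6 (.d k46 k34 k29 1 4)))), (.s k4 k8 1 (.s k5 k10 2 (.s k6 k7 0 (.s k9 k3 2 (.d k13 k14 k1 0
  1))))), (.s k13 k14 0 (.s k29 k46 4 (.s k45 k61 3 (.d k30 k28 k60 0 4))))] (.c k154 (.q k218 [(.s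
  k8 k4 1 (.s k25 k59 4 (.s k38 k51 6 (.d k46 k34 k29 1 4)))), (.s k4 k8 1 (.s k5 k10 2 (.s k6 k7 0
  (.s k9 k3 2 (.d k13 k14 k1 0 1))))), (.s k13 k14 0 (.s k29 k46 4 (.s k45 k61 3 (.d k30 k28 k60 0
  4))))] .n) (.c k218 (.q k154 [(.s k8 k4 1 (.s k25 k59 4 (.s k38 k51 6 (.d k46 k34 k29 1 4)))), (.s
  k4 k8 1 (.s k5 k10 2 (.s k6 k7 0 (.s k9 k3 2 (.d k13 k14 k1 0 1))))), (.s k13 k14 0 (.s k29 k46 4
  (.s k45 k61 3 (.d k30 k28 k60 0 4))))] .n) .n))))) (.c k31 (.l (.s k5 k10 2 (.s k21 k63 6 (.s k37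
  k53 3 (.s k48 k26 6 (.d k32 k47 k16 2 3)))))) (.c k32 (.q k12 [(.s k4 k8 1 (.s k21 k63 6 (.s k38
  k55 4 (.s k51 k25 6 (.d k34 k46 k17 1 4))))), (.s k4 k8 1 (.s k5 k10 2 (.s k6 k7 0 (.s k9 k3 2 (.d
  k13 k14 k1 0 1))))), (.s k10 k5 2 (.s k63 k21 6 (.s k26 k58 3 (.s k14 k13 0 (.s k46 k29 4 (.d k38
  k34 k50 1 5))))))] .n) (.c k37 (.q k12 [(.s k4 k8 1 (.s k21 k63 6 (.s k38 k55 4 (.s k34 k46 1 (.d
  k51 k17 k25 4 6))))), (.s k4 k8 1 (.s k5 k10 2 (.s k6 k7 0 (.s k9 k3 2 (.d k13 k14 k1 0 1))))),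
  (.s k10 k5 2 (.s k26 k58 3 (.s k14 k13 0 (.s k38 k50 5 (.s k34 k46 1 (.d k51 k25 k17 6 4))))))]
  .n) (.c k47 (.l (.s k10 k5 2 (.s k21 k63 6 (.s k26 k58 3 (.s k48 k37 6 (.d k16 k31 k32 2 3))))))
  (.c k48 (.q k12 [(.s k4 k8 1 (.s k21 k63 6 (.s k38 k55 4 (.s k51 k25 6 (.d k34 k46 k17 1 4))))),
  (.s k4 k8 1 (.s k5 k10 2 (.s k6 k7 0 (.s k9 k3 2 (.d k13 k14 k1 0 1))))), (.s k10 k5 2 (.s k63 k21
  6 (.s k26 k58 3 (.s k14 k13 0 (.s k46 k29 4 (.d k38 k34 k50 1 5))))))] .n) (.c k53 (.l (.s k10 k5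
  2 (.s k21 k63 6 (.s k26 k58 3 (.s k48 k37 6 (.d k16 k31 k32 2 3)))))) (.c k58 (.l (.s k5 k10 2 (.s
  k21 k63 6 (.s k37 k53 3 (.s k48 k26 6 (.d k32 k47 k16 2 3)))))) (.c k63 (.q k12 [(.s k8 k4 1 (.s
  k14 k13 0 (.s k10 k5 2 (.s k6 k2 1 (.d k9 k11 k3 0 2))))), (.s k8 k4 1 (.s k25 k59 4 (.s k13 k14 0
  (.s k37 k49 5 (.s k48 k26 6 (.d k32 k47 k16 2 3)))))), (.s k10 k5 2 (.s k26 k58 3 (.s k14 k13 0
  (.s k38 k50 5 (.s k51 k25 6 (.d k34 k46 k17 1 4)))))), (.s k8 k4 1 (.s k10 k5 2 (.s k25 k59 4 (.s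
  k26 k58 3 (.s k51 k38 6 (.d k27 k24 k39 0 5))))))] .n) .n)))))))))))))

def t91 : T TT 256 :=
  (.q k12 [(.s k8 k4 1 (.s k14 k13 0 (.s k10 k5 2 (.s k6 k2 1 (.d k9 k11 k3 0 2)))))] (.c k1 (.l (.s
  k8 k4 1 (.s k10 k5 2 (.s k9 k11 0 (.s k6 k3 2 (.d k14 k13 k2 0 1)))))) (.c k2 (.l (.s k4 k8 1 (.s
  k5 k10 2 (.s k6 k7 0 (.s k9 k3 2 (.d k13 k14 k1 0 1)))))) (.c k3 (.q k89 [(.s k4 k8 1 (.s k166
  k243 14 (.s k85 k247 12 (.s k93 k81 1 (.d k255 k174 k170 12 14))))), (.s k5 k10 2 (.s k13 k14 0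
  (.s k1 k9 1 (.s k241 k165 13 (.s k81 k161 11 (.d k243 k166 k162 14 12)))))), (.s k8 k4 1 (.s k5
  k10 2 (.s k170 k251 12 (.s k85 k255 14 (.s k165 k245 11 (.d k13 k14 k241 0 13))))))] (.c k8 (.l
  (.s k5 k10 2 (.s k13 k14 0 (.s k165 k241 13 (.s k85 k245 11 (.s k81 k93 1 (.d k243 k166 k162 14
  12))))))) (.c k170 (.l (.s k4 k8 1 (.s k13 k14 0 (.s k166 k243 14 (.s k85 k247 12 (.s k165 k241 13
  (.d k5 k10 k245 2 11))))))) (.c k243 (.l (.s k8 k4 1 (.s k5 k10 2 (.s k170 k251 12 (.s k13 k14 0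
  (.s k165 k241 13 (.d k85 k255 k245 14 11))))))) .n)))) (.c k4 (.q k21 [(.s k5 k10 2 (.s k63 k42 6
  (.s k37 k53 3 (.s k26 k48 6 (.d k31 k16 k47 2 3))))), (.s k63 k42 6 (.s k13 k14 0 (.s k29 k46 4
  (.s k45 k61 3 (.s k30 k60 4 (.d k31 k28 k47 0 3)))))), (.s k5 k10 2 (.s k37 k53 3 (.s k13 k14 0
  (.s k25 k49 5 (.s k17 k29 1 (.d k51 k34 k38 4 6))))))] (.c k88 (.q k89 [(.s k5 k10 2 (.s k63 k42 6
  (.s k37 k53 3 (.s k26 k48 6 (.d k31 k16 k47 2 3))))), (.s k63 k42 6 (.s k13 k14 0 (.s k29 k46 4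
  (.s k45 k61 3 (.s k30 k60 4 (.d k31 k28 k47 0 3)))))), (.s k5 k10 2 (.s k37 k53 3 (.s k13 k14 0
  (.s k25 k49 5 (.s k17 k29 1 (.d k51 k34 k38 4 6))))))] .n) (.c k89 (.q k88 [(.s k5 k10 2 (.s k63
  k42 6 (.s k37 k53 3 (.s k26 k48 6 (.d k31 k16 k47 2 3))))), (.s k63 k42 6 (.s k13 k14 0 (.s k29
  k46 4 (.s k45 k61 3 (.s k30 k60 4 (.d k31 k28 k47 0 3)))))), (.s k5 k10 2 (.s k37 k53 3 (.s k13
  k14 0 (.s k25 k49 5 (.s k17 k29 1 (.d k51 k34 k38 4 6))))))] .n) .n))) (.c k5 (.q k21 [(.s k4 k8 1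
  (.s k42 k63 6 (.s k38 k55 4 (.s k51 k25 6 (.d k34 k46 k17 1 4))))), (.s k63 k42 6 (.s k14 k13 0
  (.s k46 k29 4 (.s k30 k62 3 (.s k45 k60 4 (.d k47 k44 k31 0 3)))))), (.s k4 k8 1 (.s k38 k55 4 (.s
  k14 k13 0 (.s k26 k50 5 (.s k16 k31 2 (.d k48 k32 k37 3 6))))))] (.c k88 (.q k89 [(.s k4 k8 1 (.s
  k42 k63 6 (.s k38 k55 4 (.s k51 k25 6 (.d k34 k46 k17 1 4))))), (.s k4 k8 1 (.s k166 k243 14 (.s
  k85 k247 12 (.s k255 k170 14 (.d k93 k81 k174 1 12))))), (.s k63 k42 6 (.s k13 k14 0 (.s k29 k46 4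
  (.s k45 k61 3 (.s k30 k60 4 (.d k31 k28 k47 0 3))))))] .n) (.c k89 (.q k88 [(.s k4 k8 1 (.s k164
  k240 13 (.s k84 k244 11 (.s k252 k168 13 (.d k92 k80 k172 1 11))))), (.s k63 k42 6 (.s k13 k14 0
  (.s k29 k46 4 (.s k45 k61 3 (.s k30 k60 4 (.d k31 k28 k47 0 3))))))] .n) .n))) (.c k6 (.q k89 [(.s
  k4 k8 1 (.s k166 k243 14 (.s k85 k247 12 (.s k93 k81 1 (.d k255 k174 k170 12 14))))), (.s k13 k14
  0 (.s k241 k165 13 (.s k243 k166 14 (.s k242 k240 0 (.s k81 k162 12 (.s k1 k161 11 (.d k5 k10 k9 2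
  1))))))), (.s k8 k4 1 (.s k5 k10 2 (.s k170 k251 12 (.s k85 k255 14 (.s k165 k245 11 (.d k13 k14
  k241 0 13))))))] (.c k170 (.l (.s k4 k8 1 (.s k13 k14 0 (.s k166 k243 14 (.s k85 k247 12 (.s k165
  k241 13 (.d k5 k10 k245 2 11))))))) (.c k243 (.l (.s k8 k4 1 (.s k170 k251 12 (.s k255 k85 14 (.s
  k13 k14 0 (.s k165 k241 13 (.d k175 k95 k160 11 2))))))) .n))) (.c k7 (.l (.s k8 k4 1 (.s k14 k13
  0 (.s k10 k5 2 (.s k6 k2 1 (.d k9 k11 k3 0 2)))))) (.c k8 (.q k9 [(.s k5 k10 2 (.d k13 k14 k1 0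
  1)), (.s k10 k5 2 (.s k6 k3 2 (.d k14 k13 k2 0 1)))] (.c k5 (.q k89 [(.s k169 k249 11 (.s k166
  k243 14 (.s k172 k163 2 (.s k252 k92 11 (.d k3 k6 k86 2 14))))), (.s k3 k6 2 (.s k1 k2 0 (.s k169
  k249 11 (.s k85 k253 13 (.s k255 k170 14 (.d k93 k81 k174 1 12)))))), (.s k169 k249 11 (.s k13 k14
  0 (.s k166 k243 14 (.s k165 k241 13 (.s k173 k161 1 (.s k252 k94 12 (.d k172 k163 k92 2 11))))))),
  (.s k3 k6 2 (.s k1 k2 0 (.s k243 k166 14 (.s k81 k162 12 (.s k241 k161 11 (.d k13 k14 k165 0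
  13))))))] (.c k86 (.l (.s k3 k6 2 (.s k1 k2 0 (.s k169 k249 11 (.s k85 k253 13 (.s k81 k93 1 (.d
  k243 k166 k162 14 12))))))) .n)) (.c k10 (.l (.s k13 k14 0 (.s k1 k5 1 (.d k3 k2 k6 0 2)))) (.c
  k13 (.q k89 [(.s k3 k6 2 (.s k169 k249 11 (.s k86 k252 14 (.s k83 k92 2 (.d k243 k163 k166 11
  14))))), (.s k3 k6 2 (.s k1 k2 0 (.s k169 k249 11 (.s k85 k253 13 (.s k93 k81 1 (.d k255 k174 k170
  12 14)))))), (.s k5 k10 2 (.s k6 k3 2 (.s k4 k7 0 (.s k166 k243 14 (.s k85 k247 12 (.s k93 k81 1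
  (.d k255 k170 k174 14 12)))))))] (.c k3 (.l (.s k249 k169 11 (.s k243 k166 14 (.s k81 k162 12 (.s
  k93 k85 1 (.s k252 k246 2 (.s k94 k173 12 (.d k92 k95 k172 0 11)))))))) (.c k6 (.q k170 [(.s k85
  k255 14 (.s k81 k93 1 (.d k243 k162 k166 12 14))), (.s k169 k249 11 (.s k168 k171 0 (.s k252 k84
  13 (.s k86 k3 14 (.d k92 k83 k172 2 11)))))] (.c k255 (.l (.s k169 k249 11 (.s k166 k243 14 (.s
  k172 k163 2 (.s k252 k92 11 (.d k168 k171 k84 0 13)))))) .n)) .n))) (.c k14 (.l (.s k5 k10 2 (.s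
  k1 k13 1 (.d k3 k2 k6 0 2)))) (.c k88 (.q k89 [(.s k5 k10 2 (.d k13 k14 k1 0 1)), (.s k3 k6 2 (.s
  k169 k249 11 (.s k86 k252 14 (.s k243 k166 14 (.d k83 k92 k163 2 11)))))] (.c k14 (.l (.s k5 k10 2
  (.s k1 k13 1 (.d k3 k2 k6 0 2)))) (.c k168 (.q k248 [(.s k5 k10 2 (.d k13 k14 k1 0 1)), (.s k3 k6
  2 (.s k169 k249 11 (.s k86 k252 14 (.s k243 k166 14 (.d k83 k92 k163 2 11)))))] (.c k14 (.l (.s k5
  k10 2 (.s k1 k13 1 (.d k3 k2 k6 0 2)))) .n)) (.c k248 (.q k168 [(.s k5 k10 2 (.d k13 k14 k1 0 1)),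
  (.s k252 k84 13 (.s k3 k6 2 (.d k169 k249 k86 11 14)))] (.c k11 (.l (.s k169 k249 11 (.s k5 k10 2
  (.d k13 k14 k1 0 1)))) (.c k169 (.q k11 [(.d k3 k7 k6 1 2), (.s k5 k10 2 (.d k13 k14 k1 0 1))] .n)
  .n))) .n)))) (.c k89 (.q k88 [(.s k5 k10 2 (.d k13 k14 k1 0 1)), (.s k5 k10 2 (.s k6 k3 2 (.s k4
  k7 0 (.s k164 k240 13 (.s k84 k244 11 (.s k252 k168 13 (.d k92 k80 k172 1 11))))))), (.s k3 k6 2
  (.s k1 k2 0 (.s k240 k164 13 (.s k160 k80 11 (.s k161 k82 12 (.s k81 k241 11 (.d k162 k163 k243 0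
  12)))))))] (.c k10 (.l (.s k13 k14 0 (.s k1 k5 1 (.d k3 k2 k6 0 2)))) (.c k170 (.q k251 [(.s k13
  k14 0 (.d k5 k10 k1 2 1)), (.s k3 k6 2 (.s k2 k1 0 (.s k240 k164 13 (.s k80 k160 11 (.s k82 k161
  12 (.s k81 k83 0 (.d k162 k242 k243 11 12))))))), (.s k10 k5 2 (.s k6 k3 2 (.d k14 k13 k2 0 1)))]
  (.c k10 (.q k250 [(.s k13 k14 0 (.s k1 k5 1 (.d k3 k2 k6 0 2))), (.s k240 k164 13 (.s k80 k160 11
  (.s k84 k92 1 (.s k248 k249 0 (.d k252 k168 k244 13 1)))))] .n) (.c k250 (.l (.s k10 k5 2 (.s k6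
  k3 2 (.d k14 k13 k2 0 1)))) .n))) (.c k251 (.q k170 [(.s k5 k10 2 (.d k13 k14 k1 0 1)), (.s k240
  k164 13 (.s k160 k80 11 (.s k175 k165 2 (.d k255 k95 k85 11 14))))] (.c k11 (.q k171 [(.s k5 k10 2
  (.d k13 k14 k1 0 1)), (.s k255 k85 14 (.d k3 k6 k87 2 13))] (.c k169 (.q k248 [(.s k5 k10 2 (.d
  k13 k14 k1 0 1)), (.s k3 k6 2 (.d k255 k87 k85 13 14))] .n) (.c k248 (.l (.s k169 k168 0 (.s k5
  k10 2 (.d k13 k14 k1 0 1)))) .n))) (.c k13 (.l (.s k5 k10 2 (.s k85 k255 14 (.s k165 k245 11 (.s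
  k240 k164 13 (.d k160 k175 k80 2 11)))))) (.c k171 (.q k11 [(.d k3 k7 k6 1 2), (.s k5 k10 2 (.d
  k13 k14 k1 0 1))] .n) .n)))) .n)))) .n))))))) (.c k9 (.q k89 [(.s k4 k8 1 (.s k166 k243 14 (.s k85
  k247 12 (.s k93 k81 1 (.d k255 k174 k170 12 14))))), (.s k5 k10 2 (.s k13 k14 0 (.s k165 k241 13
  (.s k85 k245 11 (.s k81 k93 1 (.d k243 k166 k162 14 12)))))), (.s k4 k8 1 (.s k13 k14 0 (.s k166
  k243 14 (.s k85 k247 12 (.s k165 k241 13 (.d k5 k10 k245 2 11)))))), (.s k8 k4 1 (.s k243 k166 14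
  (.s k81 k162 12 (.s k85 k93 1 (.d k170 k251 k255 12 14)))))] (.c k8 (.q k170 [(.s k85 k255 14 (.s
  k81 k93 1 (.d k243 k162 k166 12 14))), (.s k13 k14 0 (.s k166 k243 14 (.s k165 k241 13 (.s k160
  k175 2 (.s k164 k167 0 (.d k240 k80 k88 11 13)))))), (.s k255 k85 14 (.s k14 k13 0 (.s k174 k93 12
  (.s k94 k254 11 (.s k173 k252 12 (.d k175 k95 k172 11 0))))))] (.c k10 (.q k11 [(.s k85 k255 14
  (.s k81 k93 1 (.d k243 k162 k166 12 14))), (.s k3 k7 1 (.s k2 k1 0 (.s k86 k254 13 (.s k252 k169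
  14 (.d k92 k83 k172 2 11)))))] (.c k85 (.l (.s k3 k7 1 (.s k2 k1 0 (.s k86 k254 13 (.s k243 k166
  14 (.d k83 k92 k163 2 11)))))) .n)) (.c k11 (.l (.s k10 k5 2 (.s k85 k255 14 (.s k243 k166 14 (.d
  k81 k93 k162 1 12))))) .n))) (.c k85 (.f k10 k5 2 (.f k166 k243 14 (.l (.s k8 k4 1 (.s k170 k251
  12 (.s k13 k14 0 (.s k165 k241 13 (.s k160 k175 2 (.s k164 k167 0 (.d k240 k80 k88 11 13))))))))))
  (.c k166 (.l (.s k8 k4 1 (.s k5 k10 2 (.s k170 k251 12 (.s k85 k255 14 (.s k165 k245 11 (.d k13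
  k14 k241 0 13))))))) (.c k243 (.l (.s k8 k4 1 (.s k5 k10 2 (.s k170 k251 12 (.s k13 k14 0 (.s k165
  k241 13 (.d k85 k255 k245 14 11))))))) .n))))) (.c k10 (.q k21 [(.s k8 k4 1 (.s k42 k63 6 (.s k25
  k59 4 (.s k51 k38 6 (.d k17 k29 k34 1 4))))), (.s k63 k42 6 (.s k14 k13 0 (.s k46 k29 4 (.s k30
  k62 3 (.s k45 k60 4 (.d k47 k44 k31 0 3)))))), (.s k4 k8 1 (.s k38 k55 4 (.s k14 k13 0 (.s k26 k50
  5 (.s k16 k31 2 (.d k48 k32 k37 3 6))))))] (.c k88 (.q k89 [(.s k8 k4 1 (.s k42 k63 6 (.s k25 k59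
  4 (.s k51 k38 6 (.d k17 k29 k34 1 4))))), (.s k4 k8 1 (.s k166 k243 14 (.s k85 k247 12 (.s k93 k81
  1 (.d k255 k170 k174 14 12))))), (.s k63 k42 6 (.s k13 k14 0 (.s k29 k46 4 (.s k45 k61 3 (.s k30
  k60 4 (.d k31 k28 k47 0 3))))))] (.c k170 (.q k250 [(.s k8 k4 1 (.s k42 k63 6 (.s k25 k59 4 (.s
  k51 k38 6 (.d k17 k29 k34 1 4))))), (.s k4 k8 1 (.s k38 k55 4 (.s k14 k13 0 (.s k26 k50 5 (.s k16
  k31 2 (.d k48 k32 k37 3 6)))))), (.s k63 k42 6 (.s k13 k14 0 (.s k29 k46 4 (.s k45 k61 3 (.s k30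
  k60 4 (.d k31 k28 k47 0 3))))))] (.c k38 (.l (.s k4 k8 1 (.s k63 k42 6 (.s k166 k243 14 (.s k85
  k247 12 (.s k149 k213 7 (.d k29 k46 k209 4 9))))))) .n)) (.c k250 (.q k170 [(.d k8 k4 k251 1 12),
  (.s k85 k255 14 (.s k243 k166 14 (.d k81 k93 k162 1 12)))] .n) .n))) (.c k89 (.q k88 [(.s k8 k4 1
  (.s k42 k63 6 (.s k25 k59 4 (.s k51 k38 6 (.d k17 k29 k34 1 4))))), (.s k4 k8 1 (.s k164 k240 13
  (.s k84 k244 11 (.s k252 k168 13 (.d k92 k80 k172 1 11))))), (.s k63 k42 6 (.s k13 k14 0 (.s k29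
  k46 4 (.s k45 k61 3 (.s k30 k60 4 (.d k31 k28 k47 0 3))))))] (.c k170 (.q k250 [(.s k8 k4 1 (.s
  k42 k63 6 (.s k25 k59 4 (.s k51 k38 6 (.d k17 k29 k34 1 4))))), (.s k8 k4 1 (.s k168 k248 11 (.s
  k84 k252 13 (.s k240 k164 13 (.d k80 k92 k160 1 11)))))] (.c k4 (.l (.s k63 k42 6 (.s k13 k14 0
  (.s k29 k46 4 (.s k45 k61 3 (.s k30 k60 4 (.d k31 k28 k47 0 3))))))) (.c k8 (.q k251 [(.s k240
  k164 13 (.s k248 k249 0 (.s k252 k244 1 (.s k84 k168 13 (.d k80 k160 k92 11 1))))), (.s k63 k42 6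
  (.s k13 k14 0 (.s k29 k46 4 (.s k45 k61 3 (.s k30 k60 4 (.d k31 k28 k47 0 3))))))] (.c k9 (.q k11
  [(.s k249 k248 0 (.s k240 k164 13 (.s k255 k245 2 (.s k243 k247 1 (.s k242 k241 0 (.d k246 k254
  k252 1 2)))))), (.s k63 k42 6 (.s k3 k7 1 (.s k43 k23 5 (.s k47 k31 3 (.s k39 k35 1 (.d k27 k59
  k51 3 5))))))] (.c k169 (.l (.s k249 k248 0 (.s k240 k164 13 (.s k255 k245 2 (.s k243 k247 1 (.s
  k242 k241 0 (.d k246 k254 k252 1 2))))))) (.c k249 (.q k169 [(.s k3 k7 1 (.s k240 k164 13 (.s k80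
  k160 11 (.s k84 k92 1 (.d k252 k168 k86 13 14))))), (.s k63 k42 6 (.s k13 k14 0 (.s k29 k46 4 (.s
  k45 k61 3 (.s k30 k60 4 (.d k31 k28 k47 0 3))))))] .n) .n))) (.c k11 (.q k9 [(.s k13 k14 0 (.s k1
  k5 1 (.d k3 k2 k6 0 2))), (.s k240 k164 13 (.s k80 k160 11 (.s k84 k92 1 (.s k248 k249 0 (.d k252
  k168 k244 13 1)))))] (.c k169 (.l (.s k248 k249 0 (.s k13 k14 0 (.s k1 k5 1 (.d k3 k2 k6 0 2)))))
  (.c k248 (.q k169 [(.s k13 k14 0 (.s k1 k5 1 (.d k3 k2 k6 0 2))), (.s k63 k42 6 (.s k14 k13 0 (.s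
  k46 k29 4 (.s k30 k62 3 (.s k45 k60 4 (.d k47 k44 k31 0 3))))))] (.c k2 (.l (.s k63 k42 6 (.s k6
  k3 2 (.s k13 k14 0 (.s k1 k5 1 (.s k61 k41 5 (.d k29 k45 k46 3 4))))))) (.c k13 (.l (.s k3 k6 2
  (.s k252 k86 14 (.s k84 k168 13 (.d k92 k80 k172 1 11))))) (.c k14 (.l (.s k3 k6 2 (.s k2 k1 0 (.s
  k252 k86 14 (.s k84 k168 13 (.d k92 k80 k172 1 11)))))) .n)))) .n))) .n))) (.c k251 (.l (.s k8 k4
  1 (.s k42 k63 6 (.s k25 k59 4 (.s k51 k38 6 (.d k17 k29 k34 1 4)))))) .n)))) (.c k250 (.q k170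
  [(.s k240 k164 13 (.s k160 k80 11 (.s k175 k165 2 (.d k255 k95 k85 11 14)))), (.s k4 k8 1 (.s k42
  k63 6 (.s k38 k55 4 (.s k51 k25 6 (.d k34 k46 k17 1 4)))))] .n) .n))) (.c k170 (.q k250 [(.s k8 k4
  1 (.s k42 k63 6 (.s k25 k59 4 (.s k51 k38 6 (.d k17 k29 k34 1 4))))), (.s k63 k42 6 (.s k14 k13 0
  (.s k46 k29 4 (.s k30 k62 3 (.s k45 k60 4 (.d k47 k44 k31 0 3)))))), (.s k4 k8 1 (.s k38 k55 4 (.s
  k14 k13 0 (.s k26 k50 5 (.s k16 k31 2 (.d k48 k32 k37 3 6))))))] (.c k88 (.q k89 [(.s k8 k4 1 (.s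
  k42 k63 6 (.s k25 k59 4 (.s k51 k38 6 (.d k17 k29 k34 1 4))))), (.s k4 k8 1 (.s k38 k55 4 (.s k14
  k13 0 (.s k26 k50 5 (.s k16 k31 2 (.d k48 k32 k37 3 6)))))), (.s k63 k42 6 (.s k13 k14 0 (.s k29
  k46 4 (.s k45 k61 3 (.s k30 k60 4 (.d k31 k28 k47 0 3))))))] (.c k38 (.l (.s k4 k8 1 (.s k63 k42 6
  (.s k166 k243 14 (.s k85 k247 12 (.s k149 k213 7 (.d k29 k46 k209 4 9))))))) .n)) (.c k89 (.q k88
  [(.s k8 k4 1 (.s k42 k63 6 (.s k25 k59 4 (.s k51 k38 6 (.d k17 k29 k34 1 4))))), (.s k8 k4 1 (.s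
  k168 k248 11 (.s k84 k252 13 (.s k240 k164 13 (.d k80 k92 k160 1 11)))))] (.c k4 (.l (.s k63 k42 6
  (.s k13 k14 0 (.s k29 k46 4 (.s k45 k61 3 (.s k30 k60 4 (.d k31 k28 k47 0 3))))))) (.c k8 (.q k251
  [(.s k240 k164 13 (.s k248 k249 0 (.s k252 k244 1 (.s k84 k168 13 (.d k80 k160 k92 11 1))))), (.s
  k63 k42 6 (.s k13 k14 0 (.s k29 k46 4 (.s k45 k61 3 (.s k30 k60 4 (.d k31 k28 k47 0 3))))))] (.c
  k9 (.q k11 [(.s k249 k248 0 (.s k240 k164 13 (.s k255 k245 2 (.s k243 k247 1 (.s k242 k241 0 (.d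
  k246 k254 k252 1 2)))))), (.s k63 k42 6 (.s k3 k7 1 (.s k43 k23 5 (.s k47 k31 3 (.s k39 k35 1 (.d
  k27 k59 k51 3 5))))))] (.c k169 (.l (.s k249 k248 0 (.s k240 k164 13 (.s k255 k245 2 (.s k243 k247
  1 (.s k242 k241 0 (.d k246 k254 k252 1 2))))))) (.c k249 (.q k169 [(.s k3 k7 1 (.s k240 k164 13
  (.s k80 k160 11 (.s k84 k92 1 (.d k252 k168 k86 13 14))))), (.s k63 k42 6 (.s k13 k14 0 (.s k29
  k46 4 (.s k45 k61 3 (.s k30 k60 4 (.d k31 k28 k47 0 3))))))] .n) .n))) (.c k11 (.q k9 [(.s k13 k14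
  0 (.s k1 k5 1 (.d k3 k2 k6 0 2))), (.s k240 k164 13 (.s k80 k160 11 (.s k84 k92 1 (.s k248 k249 0
  (.d k252 k168 k244 13 1)))))] (.c k169 (.l (.s k248 k249 0 (.s k13 k14 0 (.s k1 k5 1 (.d k3 k2 k6
  0 2))))) (.c k248 (.q k169 [(.s k13 k14 0 (.s k1 k5 1 (.d k3 k2 k6 0 2))), (.s k63 k42 6 (.s k14
  k13 0 (.s k46 k29 4 (.s k30 k62 3 (.s k45 k60 4 (.d k47 k44 k31 0 3))))))] (.c k2 (.l (.s k63 k42
  6 (.s k6 k3 2 (.s k13 k14 0 (.s k1 k5 1 (.s k61 k41 5 (.d k29 k45 k46 3 4))))))) (.c k13 (.l (.s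
  k3 k6 2 (.s k252 k86 14 (.s k84 k168 13 (.d k92 k80 k172 1 11))))) (.c k14 (.l (.s k3 k6 2 (.s k2
  k1 0 (.s k252 k86 14 (.s k84 k168 13 (.d k92 k80 k172 1 11)))))) .n)))) .n))) .n))) (.c k251 (.l
  (.s k8 k4 1 (.s k42 k63 6 (.s k25 k59 4 (.s k51 k38 6 (.d k17 k29 k34 1 4)))))) .n)))) .n))) (.c
  k250 (.q k170 [(.s k8 k4 1 (.s k42 k63 6 (.s k25 k59 4 (.s k51 k38 6 (.d k17 k29 k34 1 4))))), (.s
  k63 k42 6 (.s k85 k255 14 (.s k149 k213 7 (.s k192 k106 14 (.d k128 k191 k64 6 7))))), (.s k4 k8 1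
  (.s k85 k255 14 (.s k166 k247 12 (.s k162 k174 1 (.d k243 k89 k81 14 12)))))] (.c k88 (.q k89 [(.d
  k8 k4 k251 1 12), (.s k85 k255 14 (.s k243 k166 14 (.d k81 k93 k162 1 12)))] .n) (.c k89 (.q k88
  [(.s k240 k164 13 (.s k160 k80 11 (.s k175 k165 2 (.d k255 k95 k85 11 14)))), (.s k4 k8 1 (.s k42
  k63 6 (.s k38 k55 4 (.s k51 k25 6 (.d k34 k46 k17 1 4)))))] .n) .n))) .n))))) (.c k11 (.l (.s k4
  k8 1 (.s k13 k14 0 (.s k5 k10 2 (.s k9 k1 1 (.d k6 k7 k3 0 2)))))) (.c k13 (.q k21 [(.s k4 k8 1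
  (.s k63 k42 6 (.s k38 k55 4 (.s k25 k51 6 (.d k29 k17 k46 1 4))))), (.s k5 k10 2 (.s k42 k63 6 (.s
  k37 k53 3 (.s k48 k26 6 (.d k32 k47 k16 2 3))))), (.s k4 k8 1 (.s k5 k10 2 (.s k38 k55 4 (.s k37
  k53 3 (.s k36 k39 0 (.d k48 k24 k26 5 6))))))] (.c k88 (.q k89 [(.s k8 k4 1 (.s k42 k63 6 (.s k25
  k59 4 (.s k51 k38 6 (.d k17 k29 k34 1 4))))), (.s k5 k10 2 (.s k42 k63 6 (.s k37 k53 3 (.s k48 k26
  6 (.d k32 k47 k16 2 3))))), (.s k4 k8 1 (.s k166 k243 14 (.s k85 k247 12 (.s k255 k170 14 (.d k93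
  k81 k174 1 12)))))] .n) (.c k89 (.q k88 [(.s k8 k4 1 (.s k42 k63 6 (.s k25 k59 4 (.s k51 k38 6 (.d
  k17 k29 k34 1 4))))), (.s k5 k10 2 (.s k42 k63 6 (.s k37 k53 3 (.s k48 k26 6 (.d k32 k47 k16 2
  3))))), (.s k4 k8 1 (.s k164 k240 13 (.s k84 k244 11 (.s k252 k168 13 (.d k92 k80 k172 1 11)))))]
  (.c k165 (.q k241 [(.s k8 k4 1 (.s k42 k63 6 (.s k25 k59 4 (.s k51 k38 6 (.d k17 k29 k34 1 4))))),
  (.s k5 k10 2 (.s k42 k63 6 (.s k37 k53 3 (.s k48 k26 6 (.d k32 k47 k16 2 3))))), (.s k4 k8 1 (.s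
  k164 k240 13 (.s k84 k244 11 (.s k252 k168 13 (.d k92 k80 k172 1 11)))))] .n) (.c k241 (.q k165
  [(.s k8 k4 1 (.s k42 k63 6 (.s k25 k59 4 (.s k51 k38 6 (.d k17 k29 k34 1 4))))), (.s k4 k8 1 (.s
  k5 k10 2 (.s k7 k6 0 (.s k244 k86 12 (.d k164 k84 k240 11 13))))), (.s k5 k10 2 (.s k42 k63 6 (.s
  k37 k53 3 (.s k48 k26 6 (.d k32 k47 k16 2 3)))))] .n) .n))) .n))) (.c k14 (.q k21 [(.s k4 k8 1 (.s
  k42 k63 6 (.s k38 k55 4 (.s k51 k25 6 (.d k34 k46 k17 1 4))))), (.s k5 k10 2 (.s k42 k63 6 (.s k37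
  k53 3 (.s k32 k47 2 (.d k48 k16 k26 3 6))))), (.s k4 k8 1 (.s k5 k10 2 (.s k38 k55 4 (.s k37 k53 3
  (.s k36 k39 0 (.d k48 k24 k26 5 6))))))] (.c k88 (.q k89 [(.s k4 k8 1 (.s k42 k63 6 (.s k38 k55 4
  (.s k51 k25 6 (.d k34 k46 k17 1 4))))), (.s k5 k10 2 (.s k42 k63 6 (.s k37 k53 3 (.s k48 k26 6 (.d
  k32 k47 k16 2 3))))), (.s k4 k8 1 (.s k166 k243 14 (.s k85 k247 12 (.s k255 k170 14 (.d k93 k81
  k174 1 12)))))] (.c k166 (.q k242 [(.s k4 k8 1 (.s k42 k63 6 (.s k38 k55 4 (.s k51 k25 6 (.d k34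
  k46 k17 1 4))))), (.s k5 k10 2 (.s k42 k63 6 (.s k37 k53 3 (.s k32 k47 2 (.d k48 k16 k26 3 6))))),
  (.s k4 k8 1 (.s k5 k10 2 (.s k38 k55 4 (.s k37 k53 3 (.s k36 k39 0 (.d k48 k24 k26 5 6))))))] .n)
  (.c k242 (.l (.s k166 k243 14 (.s k4 k8 1 (.s k85 k247 12 (.s k255 k170 14 (.d k93 k81 k174 1
  12)))))) .n))) (.c k89 (.q k88 [(.s k4 k8 1 (.s k164 k240 13 (.s k84 k244 11 (.s k252 k168 13 (.d
  k92 k80 k172 1 11))))), (.s k5 k10 2 (.s k42 k63 6 (.s k37 k53 3 (.s k48 k26 6 (.d k32 k47 k16 2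
  3)))))] (.c k166 (.q k242 [(.s k4 k8 1 (.s k164 k240 13 (.s k84 k244 11 (.s k252 k168 13 (.d k92
  k80 k172 1 11))))), (.s k5 k10 2 (.s k42 k63 6 (.s k37 k53 3 (.s k48 k26 6 (.d k32 k47 k16 2
  3)))))] (.c k170 (.l (.s k8 k4 1 (.s k42 k63 6 (.s k25 k59 4 (.s k51 k38 6 (.d k17 k29 k34 1
  4)))))) .n)) (.c k170 (.l (.s k8 k4 1 (.s k42 k63 6 (.s k25 k59 4 (.s k51 k38 6 (.d k17 k29 k34 1
  4)))))) (.c k242 (.q k166 [(.s k8 k4 1 (.s k42 k63 6 (.s k25 k59 4 (.s k51 k38 6 (.d k17 k29 k34 1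
  4))))), (.s k4 k8 1 (.s k5 k10 2 (.s k85 k247 12 (.s k165 k245 11 (.d k164 k167 k240 0 13))))),
  (.s k5 k10 2 (.s k42 k63 6 (.s k37 k53 3 (.s k48 k26 6 (.d k32 k47 k16 2 3)))))] .n) .n)))) (.c
  k166 (.q k242 [(.s k4 k8 1 (.s k42 k63 6 (.s k38 k55 4 (.s k51 k25 6 (.d k34 k46 k17 1 4))))), (.s
  k5 k10 2 (.s k42 k63 6 (.s k37 k53 3 (.s k32 k47 2 (.d k48 k16 k26 3 6))))), (.s k4 k8 1 (.s k5
  k10 2 (.s k38 k55 4 (.s k37 k53 3 (.s k36 k39 0 (.d k48 k24 k26 5 6))))))] (.c k88 (.q k89 [(.s k4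
  k8 1 (.s k42 k63 6 (.s k38 k55 4 (.s k51 k25 6 (.d k34 k46 k17 1 4))))), (.s k5 k10 2 (.s k42 k63
  6 (.s k37 k53 3 (.s k32 k47 2 (.d k48 k16 k26 3 6))))), (.s k4 k8 1 (.s k5 k10 2 (.s k38 k55 4 (.s
  k37 k53 3 (.s k36 k39 0 (.d k48 k24 k26 5 6))))))] .n) (.c k89 (.q k88 [(.s k4 k8 1 (.s k164 k240
  13 (.s k84 k244 11 (.s k252 k168 13 (.d k92 k80 k172 1 11))))), (.s k5 k10 2 (.s k42 k63 6 (.s k37
  k53 3 (.s k48 k26 6 (.d k32 k47 k16 2 3)))))] (.c k170 (.l (.s k8 k4 1 (.s k42 k63 6 (.s k25 k59 4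
  (.s k51 k38 6 (.d k17 k29 k34 1 4)))))) .n)) .n))) (.c k242 (.q k166 [(.s k4 k8 1 (.s k42 k63 6
  (.s k38 k55 4 (.s k51 k25 6 (.d k34 k46 k17 1 4))))), (.s k4 k8 1 (.s k85 k247 12 (.s k170 k255 14
  (.s k162 k174 1 (.d k243 k89 k81 14 12))))), (.s k5 k10 2 (.s k42 k63 6 (.s k37 k53 3 (.s k48 k26
  6 (.d k32 k47 k16 2 3)))))] (.c k88 (.l (.s k89 k243 14 (.s k4 k8 1 (.s k85 k247 12 (.s k255 k170
  14 (.d k93 k81 k174 1 12)))))) (.c k89 (.q k88 [(.s k8 k4 1 (.s k42 k63 6 (.s k25 k59 4 (.s k51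
  k38 6 (.d k17 k29 k34 1 4))))), (.s k4 k8 1 (.s k5 k10 2 (.s k85 k247 12 (.s k165 k245 11 (.d k164
  k167 k240 0 13))))), (.s k5 k10 2 (.s k42 k63 6 (.s k37 k53 3 (.s k48 k26 6 (.d k32 k47 k16 2
  3)))))] .n) .n))) .n))))) (.c k88 (.q k89 [(.s k8 k4 1 (.s k10 k5 2 (.s k14 k13 0 (.s k6 k2 1 (.d
  k9 k11 k3 0 2))))), (.s k4 k8 1 (.s k166 k243 14 (.s k85 k247 12 (.s k93 k81 1 (.d k255 k174 k170
  12 14))))), (.s k5 k10 2 (.s k13 k14 0 (.s k165 k241 13 (.s k85 k245 11 (.s k81 k93 1 (.d k243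
  k166 k162 14 12))))))] .n) (.c k89 (.q k88 [(.s k4 k8 1 (.s k164 k240 13 (.s k84 k244 11 (.s k252
  k168 13 (.d k92 k80 k172 1 11))))), (.s k8 k4 1 (.s k10 k5 2 (.s k14 k13 0 (.s k6 k2 1 (.d k9 k11
  k3 0 2)))))] (.c k4 (.q k21 [(.s k5 k10 2 (.s k63 k42 6 (.s k37 k53 3 (.s k26 k48 6 (.d k31 k16
  k47 2 3))))), (.s k63 k42 6 (.s k13 k14 0 (.s k29 k46 4 (.s k45 k61 3 (.s k30 k60 4 (.d k31 k28
  k47 0 3)))))), (.s k5 k10 2 (.s k37 k53 3 (.s k13 k14 0 (.s k25 k49 5 (.s k17 k29 1 (.d k51 k34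
  k38 4 6))))))] .n) (.c k8 (.f k10 k5 2 (.q k170 [(.s k240 k164 13 (.s k160 k80 11 (.s k175 k165 2
  (.d k255 k95 k85 11 14)))), (.s k14 k13 0 (.s k2 k6 1 (.s k254 k86 13 (.s k94 k174 11 (.s k252
  k173 12 (.s k84 k168 13 (.d k92 k172 k80 11 1))))))), (.s k85 k255 14 (.s k240 k164 13 (.s k80
  k160 11 (.s k84 k92 1 (.s k86 k87 0 (.s k2 k254 13 (.d k14 k13 k6 0 1)))))))] (.c k13 (.l (.s k255
  k85 14 (.s k240 k164 13 (.s k80 k160 11 (.s k93 k174 12 (.s k95 k175 11 (.d k92 k94 k84 0 1)))))))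
  (.c k80 (.l (.s k255 k85 14 (.s k95 k175 11 (.s k13 k14 0 (.s k93 k174 12 (.s k173 k253 11 (.d k94
  k92 k252 0 12))))))) .n)))) .n))) .n))))))))))))))))

def t95 : T TT 256 :=
  (.q k12 [(.s k8 k4 1 (.s k14 k13 0 (.s k10 k5 2 (.s k6 k2 1 (.d k9 k11 k3 0 2)))))] (.c k1 (.l (.s
  k8 k4 1 (.s k10 k5 2 (.s k9 k11 0 (.s k6 k3 2 (.d k14 k13 k2 0 1)))))) (.c k2 (.l (.s k4 k8 1 (.s
  k5 k10 2 (.s k6 k7 0 (.s k9 k3 2 (.d k13 k14 k1 0 1)))))) (.c k3 (.q k85 [(.s k4 k8 1 (.s k170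
  k255 14 (.s k166 k247 12 (.s k162 k174 1 (.d k243 k81 k89 12 14))))), (.s k5 k10 2 (.s k165 k245
  11 (.s k13 k14 0 (.s k89 k241 13 (.s k81 k93 1 (.d k243 k166 k162 14 12)))))), (.s k255 k170 14
  (.s k13 k14 0 (.s k93 k174 12 (.s k253 k173 11 (.s k1 k169 13 (.d k5 k10 k9 2 1)))))), (.s k8 k4 1
  (.s k5 k10 2 (.s k170 k255 14 (.s k165 k245 11 (.s k89 k251 12 (.d k13 k14 k241 0 13))))))] (.c
  k170 (.l (.s k4 k8 1 (.s k166 k247 12 (.s k13 k14 0 (.s k89 k243 14 (.s k165 k241 13 (.d k5 k10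
  k245 2 11))))))) .n)) (.c k4 (.f k14 k13 0 (.q k26 [(.s k38 k50 5 (.s k25 k51 6 (.s k48 k37 6 (.d
  k24 k27 k36 0 5)))), (.s k5 k10 2 (.s k37 k48 6 (.s k21 k53 3 (.s k63 k42 6 (.d k31 k16 k47 2
  3))))), (.s k10 k5 2 (.s k42 k58 3 (.s k38 k50 5 (.s k34 k46 1 (.d k51 k17 k25 4 6)))))] (.c k80
  (.q k85 [(.s k38 k50 5 (.s k25 k51 6 (.s k48 k37 6 (.d k24 k27 k36 0 5)))), (.s k5 k10 2 (.s k37
  k48 6 (.s k21 k53 3 (.s k63 k42 6 (.d k31 k16 k47 2 3))))), (.s k10 k5 2 (.s k42 k58 3 (.s k38 k50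
  5 (.s k34 k46 1 (.d k51 k17 k25 4 6)))))] .n) (.c k85 (.q k80 [(.s k38 k50 5 (.s k25 k51 6 (.s k48
  k37 6 (.d k24 k27 k36 0 5)))), (.s k5 k10 2 (.s k37 k48 6 (.s k21 k53 3 (.s k63 k42 6 (.d k31 k16
  k47 2 3))))), (.s k10 k5 2 (.s k42 k58 3 (.s k38 k50 5 (.s k34 k46 1 (.d k51 k17 k25 4 6)))))] (.c
  k166 (.q k247 [(.s k38 k50 5 (.s k25 k51 6 (.s k48 k37 6 (.d k24 k27 k36 0 5)))), (.s k5 k10 2 (.s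
  k37 k48 6 (.s k21 k53 3 (.s k63 k42 6 (.d k31 k16 k47 2 3))))), (.s k10 k5 2 (.s k42 k58 3 (.s k38
  k50 5 (.s k34 k46 1 (.d k51 k17 k25 4 6)))))] .n) (.c k247 (.q k166 [(.s k38 k50 5 (.s k25 k51 6
  (.s k48 k37 6 (.d k24 k27 k36 0 5)))), (.s k240 k160 11 (.s k164 k88 13 (.s k167 k165 0 (.d k243
  k91 k89 13 14))))] .n) .n))) .n)))) (.c k5 (.f k4 k8 1 (.q k26 [(.s k13 k14 0 (.s k37 k48 6 (.s
  k25 k49 5 (.s k51 k38 6 (.d k27 k24 k39 0 5))))), (.s k48 k37 6 (.s k32 k16 3 (.s k36 k24 5 (.s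
  k20 k52 3 (.d k40 k44 k60 1 5))))), (.s k14 k13 0 (.s k38 k50 5 (.s k21 k55 4 (.s k63 k42 6 (.d
  k31 k16 k47 2 3)))))] (.c k80 (.q k85 [(.s k170 k255 14 (.s k166 k247 12 (.s k162 k174 1 (.d k243
  k81 k89 12 14)))), (.s k14 k13 0 (.s k38 k50 5 (.s k21 k55 4 (.s k63 k42 6 (.d k31 k16 k47 2
  3)))))] .n) (.c k85 (.q k80 [(.s k13 k14 0 (.s k37 k48 6 (.s k25 k49 5 (.s k51 k38 6 (.d k27 k24
  k39 0 5))))), (.s k48 k37 6 (.s k32 k16 3 (.s k36 k24 5 (.s k20 k52 3 (.d k40 k44 k60 1 5))))),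
  (.s k14 k13 0 (.s k38 k50 5 (.s k21 k55 4 (.s k63 k42 6 (.d k31 k16 k47 2 3)))))] (.c k165 (.q
  k245 [(.s k13 k14 0 (.s k37 k48 6 (.s k25 k49 5 (.s k51 k38 6 (.d k27 k24 k39 0 5))))), (.s k48
  k37 6 (.s k32 k16 3 (.s k36 k24 5 (.s k20 k52 3 (.d k40 k44 k60 1 5))))), (.s k14 k13 0 (.s k38
  k50 5 (.s k21 k55 4 (.s k63 k42 6 (.d k31 k16 k47 2 3)))))] .n) (.c k245 (.q k165 [(.s k13 k14 0
  (.s k37 k48 6 (.s k25 k49 5 (.s k51 k38 6 (.d k27 k24 k39 0 5))))), (.s k48 k37 6 (.s k32 k16 3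
  (.s k36 k24 5 (.s k20 k52 3 (.d k40 k44 k60 1 5))))), (.s k240 k160 11 (.s k13 k14 0 (.s k164 k88
  13 (.s k89 k241 13 (.d k166 k167 k243 0 14)))))] .n) .n))) .n)))) (.c k6 (.q k85 [(.s k4 k8 1 (.s
  k170 k255 14 (.s k166 k247 12 (.s k162 k174 1 (.d k243 k81 k89 12 14))))), (.s k255 k170 14 (.s
  k13 k14 0 (.s k93 k174 12 (.s k253 k173 11 (.s k1 k169 13 (.d k5 k10 k9 2 1)))))), (.s k8 k4 1 (.s
  k5 k10 2 (.s k170 k255 14 (.s k165 k245 11 (.s k89 k251 12 (.d k13 k14 k241 0 13))))))] (.c k170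
  (.l (.s k4 k8 1 (.s k166 k247 12 (.s k13 k14 0 (.s k89 k243 14 (.s k165 k241 13 (.d k5 k10 k245 2
  11))))))) (.c k255 (.l (.s k4 k8 1 (.s k5 k10 2 (.s k166 k247 12 (.s k165 k245 11 (.s k243 k89 14
  (.d k167 k91 k164 13 0))))))) .n))) (.c k7 (.l (.s k8 k4 1 (.s k14 k13 0 (.s k10 k5 2 (.s k6 k2 1
  (.d k9 k11 k3 0 2)))))) (.c k8 (.f k14 k13 0 (.q k26 [(.s k38 k50 5 (.s k25 k51 6 (.s k48 k37 6
  (.d k24 k27 k36 0 5)))), (.s k5 k10 2 (.s k37 k48 6 (.s k21 k53 3 (.s k31 k16 2 (.d k63 k47 k42 3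
  6))))), (.s k10 k5 2 (.s k42 k58 3 (.s k38 k50 5 (.s k34 k46 1 (.d k51 k17 k25 4 6)))))] (.c k80
  (.q k85 [(.s k38 k50 5 (.s k25 k51 6 (.s k48 k37 6 (.d k24 k27 k36 0 5)))), (.s k5 k10 2 (.s k37
  k48 6 (.s k21 k53 3 (.s k31 k16 2 (.d k63 k47 k42 3 6))))), (.s k10 k5 2 (.s k42 k58 3 (.s k38 k50
  5 (.s k34 k46 1 (.d k51 k17 k25 4 6)))))] .n) (.c k85 (.q k80 [(.s k38 k50 5 (.s k25 k51 6 (.s k48
  k37 6 (.d k24 k27 k36 0 5)))), (.s k5 k10 2 (.s k37 k48 6 (.s k21 k53 3 (.s k31 k16 2 (.d k63 k47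
  k42 3 6))))), (.s k10 k5 2 (.s k42 k58 3 (.s k38 k50 5 (.s k34 k46 1 (.d k51 k17 k25 4 6)))))] .n)
  .n)))) (.c k9 (.q k85 [(.s k8 k4 1 (.s k170 k255 14 (.s k89 k251 12 (.s k243 k166 14 (.d k81 k93
  k162 1 12))))), (.s k255 k170 14 (.s k13 k14 0 (.s k93 k174 12 (.s k89 k81 1 (.s k165 k241 13 (.d
  k5 k10 k245 2 11)))))), (.s k8 k4 1 (.s k5 k10 2 (.s k170 k255 14 (.s k165 k245 11 (.s k89 k251 12
  (.d k13 k14 k241 0 13))))))] (.c k14 (.l (.s k4 k8 1 (.s k170 k255 14 (.s k166 k247 12 (.s k243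
  k89 14 (.d k162 k174 k81 1 12)))))) (.c k89 (.f k14 k13 0 (.f k170 k255 14 (.l (.s k4 k8 1 (.s
  k166 k247 12 (.s k174 k162 1 (.s k254 k94 11 (.s k86 k2 13 (.s k6 k246 11 (.d k5 k10 k7 2
  0)))))))))) (.c k170 (.l (.s k4 k8 1 (.s k166 k247 12 (.s k13 k14 0 (.s k89 k243 14 (.s k165 k241
  13 (.d k5 k10 k245 2 11))))))) (.c k255 (.l (.s k5 k10 2 (.s k165 k245 11 (.s k13 k14 0 (.s k89
  k241 13 (.s k166 k243 14 (.d k4 k8 k247 1 12))))))) .n))))) (.c k10 (.f k14 k13 0 (.q k26 [(.s k38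
  k50 5 (.s k25 k51 6 (.s k48 k37 6 (.d k24 k27 k36 0 5)))), (.s k4 k8 1 (.s k38 k50 5 (.s k21 k55 4
  (.s k63 k42 6 (.d k31 k16 k47 2 3))))), (.s k4 k8 1 (.s k48 k37 6 (.s k32 k16 3 (.s k36 k24 5 (.s
  k20 k52 3 (.d k40 k44 k60 1 5))))))] (.c k25 (.l (.s k4 k8 1 (.s k38 k50 5 (.s k21 k55 4 (.s k16
  k31 2 (.d k48 k32 k37 3 6)))))) (.c k80 (.q k85 [(.s k38 k50 5 (.s k25 k51 6 (.s k48 k37 6 (.d k24
  k27 k36 0 5)))), (.s k4 k8 1 (.s k170 k255 14 (.s k166 k247 12 (.s k243 k89 14 (.d k162 k174 k81 1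
  12)))))] (.c k170 (.q k250 [(.s k38 k50 5 (.s k25 k51 6 (.s k48 k37 6 (.d k24 k27 k36 0 5)))), (.s
  k4 k8 1 (.s k38 k50 5 (.s k21 k55 4 (.s k63 k42 6 (.d k31 k16 k47 2 3))))), (.s k4 k8 1 (.s k48
  k37 6 (.s k32 k16 3 (.s k36 k24 5 (.s k20 k52 3 (.d k40 k44 k60 1 5))))))] (.c k25 (.l (.s k4 k8 1
  (.s k38 k50 5 (.s k21 k55 4 (.s k16 k31 2 (.d k48 k32 k37 3 6)))))) .n)) (.c k250 (.l (.s k170
  k255 14 (.s k4 k8 1 (.s k166 k247 12 (.s k243 k89 14 (.d k162 k174 k81 1 12)))))) .n))) (.c k85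
  (.q k80 [(.s k38 k50 5 (.s k25 k51 6 (.s k48 k37 6 (.d k24 k27 k36 0 5)))), (.s k8 k4 1 (.s k240
  k160 11 (.s k88 k164 13 (.s k168 k248 11 (.d k84 k92 k252 1 13)))))] (.c k170 (.q k250 [(.s k38
  k50 5 (.s k25 k51 6 (.s k48 k37 6 (.d k24 k27 k36 0 5)))), (.s k8 k4 1 (.s k240 k160 11 (.s k88
  k164 13 (.s k168 k248 11 (.d k84 k92 k252 1 13)))))] .n) (.c k250 (.q k170 [(.s k38 k50 5 (.s k25
  k51 6 (.s k48 k37 6 (.d k24 k27 k36 0 5)))), (.s k8 k4 1 (.s k240 k160 11 (.s k88 k164 13 (.s k168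
  k248 11 (.d k84 k92 k252 1 13)))))] .n) .n))) (.c k170 (.q k250 [(.s k38 k50 5 (.s k25 k51 6 (.s
  k48 k37 6 (.d k24 k27 k36 0 5)))), (.s k4 k8 1 (.s k38 k50 5 (.s k21 k55 4 (.s k63 k42 6 (.d k31
  k16 k47 2 3))))), (.s k4 k8 1 (.s k48 k37 6 (.s k32 k16 3 (.s k36 k24 5 (.s k20 k52 3 (.d k40 k44
  k60 1 5))))))] (.c k25 (.l (.s k4 k8 1 (.s k38 k50 5 (.s k21 k55 4 (.s k16 k31 2 (.d k48 k32 k37 3
  6)))))) (.c k80 (.q k85 [(.s k38 k50 5 (.s k25 k51 6 (.s k48 k37 6 (.d k24 k27 k36 0 5)))), (.s k4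
  k8 1 (.s k38 k50 5 (.s k21 k55 4 (.s k63 k42 6 (.d k31 k16 k47 2 3))))), (.s k4 k8 1 (.s k48 k37 6
  (.s k32 k16 3 (.s k36 k24 5 (.s k20 k52 3 (.d k40 k44 k60 1 5))))))] (.c k25 (.l (.s k4 k8 1 (.s
  k38 k50 5 (.s k21 k55 4 (.s k16 k31 2 (.d k48 k32 k37 3 6)))))) .n)) (.c k85 (.q k80 [(.s k38 k50
  5 (.s k25 k51 6 (.s k48 k37 6 (.d k24 k27 k36 0 5)))), (.s k8 k4 1 (.s k240 k160 11 (.s k88 k164
  13 (.s k168 k248 11 (.d k84 k92 k252 1 13)))))] .n) .n)))) (.c k250 (.q k170 [(.s k38 k50 5 (.s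
  k25 k51 6 (.s k48 k37 6 (.d k24 k27 k36 0 5)))), (.s k4 k8 1 (.s k85 k255 14 (.s k166 k247 12 (.s
  k243 k89 14 (.d k162 k174 k81 1 12)))))] (.c k80 (.l (.s k85 k255 14 (.s k4 k8 1 (.s k166 k247 12
  (.s k243 k89 14 (.d k162 k174 k81 1 12)))))) (.c k85 (.q k80 [(.s k38 k50 5 (.s k25 k51 6 (.s k48
  k37 6 (.d k24 k27 k36 0 5)))), (.s k8 k4 1 (.s k240 k160 11 (.s k88 k164 13 (.s k168 k248 11 (.d
  k84 k92 k252 1 13)))))] .n) .n))) .n))))))) (.c k11 (.l (.s k4 k8 1 (.s k13 k14 0 (.s k5 k10 2 (.s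
  k9 k1 1 (.d k6 k7 k3 0 2)))))) (.c k13 (.f k4 k8 1 (.q k192 [(.s k128 k64 7 (.s k132 k72 9 (.s k68
  k196 7 (.d k136 k140 k204 1 9)))), (.s k5 k10 2 (.s k128 k64 7 (.s k133 k74 10 (.s k69 k197 7 (.d
  k138 k143 k207 2 10))))), (.s k5 k10 2 (.s k7 k6 0 (.s k132 k72 9 (.s k133 k74 10 (.d k196 k68 k70
  7 8)))))] (.c k80 (.q k85 [(.s k128 k64 7 (.s k132 k72 9 (.s k68 k196 7 (.d k136 k140 k204 1
  9)))), (.s k170 k255 14 (.s k166 k247 12 (.s k243 k89 14 (.d k162 k174 k81 1 12))))] .n) (.c k85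
  (.q k80 [(.s k132 k72 9 (.s k68 k196 7 (.s k136 k204 9 (.d k128 k140 k64 1 7)))), (.s k5 k10 2 (.s
  k128 k64 7 (.s k133 k74 10 (.s k69 k197 7 (.d k138 k143 k207 2 10))))), (.s k5 k10 2 (.s k7 k6 0
  (.s k132 k72 9 (.s k133 k74 10 (.d k196 k68 k70 7 8)))))] .n) .n)))) (.c k14 (.f k4 k8 1 (.q k21
  [(.s k42 k63 6 (.s k38 k55 4 (.s k51 k25 6 (.d k34 k46 k17 1 4)))), (.s k5 k10 2 (.s k42 k63 6 (.s
  k37 k53 3 (.s k32 k47 2 (.d k48 k16 k26 3 6))))), (.s k5 k10 2 (.s k38 k55 4 (.s k37 k53 3 (.s k36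
  k39 0 (.d k48 k24 k26 5 6)))))] (.c k80 (.q k85 [(.s k42 k63 6 (.s k38 k55 4 (.s k51 k25 6 (.d k34
  k46 k17 1 4)))), (.s k170 k255 14 (.s k166 k247 12 (.s k243 k89 14 (.d k162 k174 k81 1 12))))] (.c
  k166 (.q k242 [(.s k42 k63 6 (.s k38 k55 4 (.s k51 k25 6 (.d k34 k46 k17 1 4)))), (.s k5 k10 2 (.s
  k42 k63 6 (.s k37 k53 3 (.s k32 k47 2 (.d k48 k16 k26 3 6))))), (.s k5 k10 2 (.s k38 k55 4 (.s k37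
  k53 3 (.s k36 k39 0 (.d k48 k24 k26 5 6)))))] .n) (.c k242 (.l (.s k166 k247 12 (.s k170 k255 14
  (.s k243 k89 14 (.d k162 k174 k81 1 12))))) .n))) (.c k85 (.q k80 [(.s k42 k63 6 (.s k38 k55 4 (.s
  k51 k25 6 (.d k34 k46 k17 1 4)))), (.s k5 k10 2 (.s k42 k63 6 (.s k37 k53 3 (.s k32 k47 2 (.d k48
  k16 k26 3 6))))), (.s k5 k10 2 (.s k38 k55 4 (.s k37 k53 3 (.s k36 k39 0 (.d k48 k24 k26 5 6)))))]
  (.c k166 (.q k242 [(.s k42 k63 6 (.s k38 k55 4 (.s k51 k25 6 (.d k34 k46 k17 1 4)))), (.s k5 k10 2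
  (.s k42 k63 6 (.s k37 k53 3 (.s k32 k47 2 (.d k48 k16 k26 3 6))))), (.s k5 k10 2 (.s k38 k55 4 (.s
  k37 k53 3 (.s k36 k39 0 (.d k48 k24 k26 5 6)))))] .n) (.c k242 (.q k166 [(.s k42 k63 6 (.s k38 k55
  4 (.s k51 k25 6 (.d k34 k46 k17 1 4)))), (.s k240 k160 11 (.s k164 k88 13 (.s k167 k165 0 (.d k243
  k91 k89 13 14))))] .n) .n))) (.c k166 (.q k242 [(.s k42 k63 6 (.s k38 k55 4 (.s k51 k25 6 (.d k34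
  k46 k17 1 4)))), (.s k5 k10 2 (.s k42 k63 6 (.s k37 k53 3 (.s k32 k47 2 (.d k48 k16 k26 3 6))))),
  (.s k5 k10 2 (.s k38 k55 4 (.s k37 k53 3 (.s k36 k39 0 (.d k48 k24 k26 5 6)))))] (.c k80 (.q k85
  [(.s k42 k63 6 (.s k38 k55 4 (.s k51 k25 6 (.d k34 k46 k17 1 4)))), (.s k5 k10 2 (.s k42 k63 6 (.s
  k37 k53 3 (.s k32 k47 2 (.d k48 k16 k26 3 6))))), (.s k5 k10 2 (.s k38 k55 4 (.s k37 k53 3 (.s k36
  k39 0 (.d k48 k24 k26 5 6)))))] .n) (.c k85 (.q k80 [(.s k42 k63 6 (.s k38 k55 4 (.s k51 k25 6 (.d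
  k34 k46 k17 1 4)))), (.s k5 k10 2 (.s k42 k63 6 (.s k37 k53 3 (.s k32 k47 2 (.d k48 k16 k26 3
  6))))), (.s k5 k10 2 (.s k38 k55 4 (.s k37 k53 3 (.s k36 k39 0 (.d k48 k24 k26 5 6)))))] .n) .n)))
  (.c k242 (.q k166 [(.s k42 k63 6 (.s k38 k55 4 (.s k51 k25 6 (.d k34 k46 k17 1 4)))), (.s k85 k247
  12 (.s k170 k255 14 (.s k243 k89 14 (.d k162 k174 k81 1 12))))] (.c k80 (.l (.s k85 k247 12 (.s
  k170 k255 14 (.s k243 k89 14 (.d k162 k174 k81 1 12))))) (.c k85 (.q k80 [(.s k42 k63 6 (.s k38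
  k55 4 (.s k51 k25 6 (.d k34 k46 k17 1 4)))), (.s k240 k160 11 (.s k164 k88 13 (.s k167 k165 0 (.d
  k243 k91 k89 13 14))))] .n) .n))) .n)))))) (.c k80 (.q k85 [(.s k4 k8 1 (.s k5 k10 2 (.s k6 k7 0
  (.s k9 k3 2 (.d k13 k14 k1 0 1))))), (.s k4 k8 1 (.s k170 k255 14 (.s k166 k247 12 (.s k243 k89 14
  (.d k162 k174 k81 1 12))))), (.s k5 k10 2 (.s k165 k245 11 (.s k13 k14 0 (.s k89 k241 13 (.s k81
  k93 1 (.d k243 k166 k162 14 12))))))] (.c k170 (.l (.s k8 k4 1 (.s k10 k5 2 (.s k9 k11 0 (.s k6 k3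
  2 (.d k14 k13 k2 0 1)))))) .n)) (.c k85 (.q k80 [(.s k4 k8 1 (.s k5 k10 2 (.s k6 k7 0 (.s k9 k3 2
  (.d k13 k14 k1 0 1))))), (.s k8 k4 1 (.s k240 k160 11 (.s k88 k164 13 (.s k168 k248 11 (.d k84 k92
  k252 1 13)))))] (.c k4 (.f k14 k13 0 (.q k26 [(.s k38 k50 5 (.s k25 k51 6 (.s k48 k37 6 (.d k24
  k27 k36 0 5)))), (.s k5 k10 2 (.s k37 k48 6 (.s k21 k53 3 (.s k63 k42 6 (.d k31 k16 k47 2 3))))),
  (.s k10 k5 2 (.s k42 k58 3 (.s k38 k50 5 (.s k34 k46 1 (.d k51 k17 k25 4 6)))))] (.c k166 (.q k247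
  [(.s k38 k50 5 (.s k25 k51 6 (.s k48 k37 6 (.d k24 k27 k36 0 5)))), (.s k5 k10 2 (.s k37 k48 6 (.s
  k21 k53 3 (.s k63 k42 6 (.d k31 k16 k47 2 3))))), (.s k10 k5 2 (.s k42 k58 3 (.s k38 k50 5 (.s k34
  k46 1 (.d k51 k17 k25 4 6)))))] .n) (.c k247 (.q k166 [(.s k38 k50 5 (.s k25 k51 6 (.s k48 k37 6
  (.d k24 k27 k36 0 5)))), (.s k240 k160 11 (.s k164 k88 13 (.s k167 k165 0 (.d k243 k91 k89 13
  14))))] .n) .n)))) (.c k8 (.q k21 [(.s k10 k5 2 (.s k42 k63 6 (.s k26 k58 3 (.s k48 k37 6 (.d k16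
  k31 k32 2 3))))), (.s k63 k42 6 (.s k13 k14 0 (.s k29 k46 4 (.s k45 k61 3 (.s k30 k60 4 (.d k31
  k28 k47 0 3)))))), (.s k5 k10 2 (.s k37 k53 3 (.s k13 k14 0 (.s k25 k49 5 (.s k17 k29 1 (.d k51
  k34 k38 4 6))))))] .n) (.c k11 (.l (.s k4 k8 1 (.s k13 k14 0 (.s k5 k10 2 (.s k9 k1 1 (.d k6 k7 k3
  0 2)))))) .n)))) .n))))))))))))))))

def t96 : T TT 256 :=
  (.q k26 [(.s k10 k5 2 (.s k42 k58 3 (.s k21 k63 6 (.s k48 k37 6 (.d k16 k31 k32 2 3)))))] (.c k5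
  (.q k12 [(.s k13 k14 0 (.s k37 k48 6 (.s k25 k49 5 (.s k51 k38 6 (.d k27 k24 k39 0 5))))), (.s k4
  k8 1 (.s k48 k37 6 (.s k32 k16 3 (.s k36 k24 5 (.s k20 k52 3 (.d k40 k44 k60 1 5)))))), (.s k4 k8
  1 (.s k14 k13 0 (.s k38 k50 5 (.s k21 k55 4 (.s k63 k42 6 (.d k31 k16 k47 2 3))))))] .n) (.c k10
  (.q k12 [(.s k14 k13 0 (.s k38 k50 5 (.s k25 k51 6 (.s k48 k37 6 (.d k24 k27 k36 0 5))))), (.s k4
  k8 1 (.s k48 k37 6 (.s k32 k16 3 (.s k36 k24 5 (.s k20 k52 3 (.d k40 k44 k60 1 5)))))), (.s k4 k8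
  1 (.s k14 k13 0 (.s k38 k50 5 (.s k21 k55 4 (.s k63 k42 6 (.d k31 k16 k47 2 3))))))] (.c k170 (.q
  k250 [(.s k14 k13 0 (.s k38 k50 5 (.s k25 k51 6 (.s k48 k37 6 (.d k24 k27 k36 0 5))))), (.s k4 k8
  1 (.s k48 k37 6 (.s k32 k16 3 (.s k36 k24 5 (.s k20 k52 3 (.d k40 k44 k60 1 5)))))), (.s k4 k8 1
  (.s k14 k13 0 (.s k38 k50 5 (.s k21 k55 4 (.s k63 k42 6 (.d k31 k16 k47 2 3))))))] .n) (.c k250
  (.q k170 [(.s k14 k13 0 (.s k38 k50 5 (.s k25 k51 6 (.s k48 k37 6 (.d k24 k27 k36 0 5))))), (.s k4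
  k8 1 (.s k85 k255 14 (.s k166 k247 12 (.s k243 k89 14 (.d k162 k174 k81 1 12)))))] .n) .n))) (.c
  k16 (.l (.s k10 k5 2 (.s k42 k58 3 (.s k63 k21 6 (.s k37 k48 6 (.d k47 k32 k31 2 3)))))) (.c k21
  (.q k12 [(.s k4 k8 1 (.s k5 k10 2 (.s k6 k7 0 (.s k9 k3 2 (.d k13 k14 k1 0 1))))), (.s k13 k14 0
  (.s k37 k48 6 (.s k25 k49 5 (.s k27 k24 0 (.d k51 k39 k38 5 6))))), (.s k4 k8 1 (.s k48 k37 6 (.s
  k32 k16 3 (.s k36 k24 5 (.s k20 k52 3 (.d k40 k44 k60 1 5))))))] .n) (.c k31 (.q k12 [(.s k8 k4 1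
  (.s k14 k13 0 (.s k10 k5 2 (.s k6 k2 1 (.d k9 k11 k3 0 2))))), (.s k13 k14 0 (.s k37 k48 6 (.s k25
  k49 5 (.s k51 k38 6 (.d k27 k24 k39 0 5))))), (.s k4 k8 1 (.s k48 k37 6 (.s k32 k16 3 (.s k36 k24
  5 (.s k20 k52 3 (.d k40 k44 k60 1 5))))))] (.c k149 (.q k208 [(.s k8 k4 1 (.s k14 k13 0 (.s k10 k5
  2 (.s k6 k2 1 (.d k9 k11 k3 0 2))))), (.s k13 k14 0 (.s k37 k48 6 (.s k25 k49 5 (.s k51 k38 6 (.d
  k27 k24 k39 0 5))))), (.s k4 k8 1 (.s k48 k37 6 (.s k32 k16 3 (.s k36 k24 5 (.s k20 k52 3 (.d k40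
  k44 k60 1 5))))))] .n) (.c k208 (.q k149 [(.s k8 k4 1 (.s k14 k13 0 (.s k10 k5 2 (.s k6 k2 1 (.d
  k9 k11 k3 0 2))))), (.s k13 k14 0 (.s k37 k48 6 (.s k25 k49 5 (.s k51 k38 6 (.d k27 k24 k39 0
  5))))), (.s k4 k8 1 (.s k48 k37 6 (.s k32 k16 3 (.s k36 k24 5 (.s k20 k52 3 (.d k40 k44 k60 1
  5))))))] .n) .n))) (.c k32 (.l (.s k5 k10 2 (.s k37 k48 6 (.s k21 k53 3 (.s k63 k42 6 (.d k31 k16
  k47 2 3)))))) (.c k37 (.q k12 [(.s k4 k8 1 (.s k5 k10 2 (.s k6 k7 0 (.s k9 k3 2 (.d k13 k14 k1 0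
  1))))), (.s k4 k8 1 (.s k14 k13 0 (.s k38 k50 5 (.s k21 k55 4 (.s k63 k42 6 (.d k31 k47 k16 3
  2)))))), (.s k10 k5 2 (.s k42 k58 3 (.s k14 k13 0 (.s k38 k50 5 (.s k34 k46 1 (.d k51 k25 k17 6
  4)))))), (.s k8 k4 1 (.s k10 k5 2 (.s k42 k58 3 (.s k25 k59 4 (.s k51 k38 6 (.d k27 k39 k24 5
  0))))))] .n) (.c k42 (.q k12 [(.s k8 k4 1 (.s k10 k5 2 (.s k9 k11 0 (.s k6 k3 2 (.d k14 k13 k2 0
  1))))), (.s k13 k14 0 (.s k37 k48 6 (.s k25 k49 5 (.s k51 k38 6 (.d k27 k24 k39 0 5))))), (.s k4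
  k8 1 (.s k48 k37 6 (.s k32 k16 3 (.s k36 k24 5 (.s k20 k52 3 (.d k40 k44 k60 1 5))))))] .n) (.c
  k48 (.q k12 [(.s k8 k4 1 (.s k14 k13 0 (.s k10 k5 2 (.s k6 k2 1 (.d k9 k11 k3 0 2))))), (.s k4 k8
  1 (.s k14 k13 0 (.s k38 k50 5 (.s k21 k55 4 (.s k63 k42 6 (.d k31 k16 k47 2 3)))))), (.s k10 k5 2
  (.s k42 k58 3 (.s k63 k21 6 (.s k14 k13 0 (.s k46 k29 4 (.d k38 k34 k50 1 5)))))), (.s k8 k4 1 (.s
  k10 k5 2 (.s k42 k58 3 (.s k25 k59 4 (.s k51 k38 6 (.d k27 k24 k39 0 5))))))] (.c k144 (.q k192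
  [(.s k4 k8 1 (.s k128 k64 7 (.s k132 k72 9 (.s k68 k196 7 (.d k136 k140 k204 1 9))))), (.s k4 k8 1
  (.s k5 k10 2 (.s k6 k7 0 (.s k9 k3 2 (.d k13 k14 k1 0 1))))), (.s k5 k10 2 (.s k128 k64 7 (.s k133
  k74 10 (.s k69 k197 7 (.d k138 k143 k207 2 10)))))] .n) (.c k192 (.q k144 [(.s k8 k4 1 (.s k14 k13
  0 (.s k10 k5 2 (.s k6 k2 1 (.d k9 k11 k3 0 2))))), (.s k4 k8 1 (.s k14 k13 0 (.s k38 k50 5 (.s k21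
  k55 4 (.s k63 k42 6 (.d k31 k16 k47 2 3)))))), (.s k10 k5 2 (.s k42 k58 3 (.s k63 k21 6 (.s k14
  k13 0 (.s k46 k29 4 (.d k38 k34 k50 1 5)))))), (.s k8 k4 1 (.s k10 k5 2 (.s k42 k58 3 (.s k25 k59
  4 (.s k51 k38 6 (.d k27 k24 k39 0 5))))))] .n) .n))) (.c k53 (.l (.s k10 k5 2 (.s k42 k58 3 (.s
  k21 k63 6 (.s k48 k37 6 (.d k16 k31 k32 2 3)))))) (.c k58 (.l (.s k5 k10 2 (.s k37 k48 6 (.s k21
  k53 3 (.s k63 k42 6 (.d k31 k16 k47 2 3)))))) (.c k63 (.q k12 [(.s k8 k4 1 (.s k14 k13 0 (.s k10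
  k5 2 (.s k6 k2 1 (.d k9 k11 k3 0 2))))), (.s k13 k14 0 (.s k37 k48 6 (.s k25 k49 5 (.s k51 k38 6
  (.d k27 k24 k39 0 5))))), (.s k4 k8 1 (.s k48 k37 6 (.s k32 k16 3 (.s k36 k24 5 (.s k20 k52 3 (.d
  k40 k44 k60 1 5))))))] .n) .n)))))))))))))

def t97 : T TT 256 :=
  (.q k26 [(.s k10 k5 2 (.s k42 k58 3 (.s k21 k63 6 (.s k48 k37 6 (.d k16 k31 k32 2 3)))))] (.c k5
  (.q k12 [(.s k14 k13 0 (.s k38 k50 5 (.s k51 k25 6 (.s k37 k48 6 (.d k39 k36 k27 0 5))))), (.s k4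
  k8 1 (.s k48 k37 6 (.s k32 k16 3 (.s k36 k24 5 (.s k20 k52 3 (.d k40 k44 k60 1 5)))))), (.s k4 k8
  1 (.s k14 k13 0 (.s k38 k50 5 (.s k21 k55 4 (.s k63 k42 6 (.d k31 k16 k47 2 3))))))] .n) (.c k10
  (.q k12 [(.s k14 k13 0 (.s k38 k50 5 (.s k25 k51 6 (.s k48 k37 6 (.d k24 k27 k36 0 5))))), (.s k4
  k8 1 (.s k48 k37 6 (.s k32 k16 3 (.s k36 k24 5 (.s k20 k52 3 (.d k40 k44 k60 1 5)))))), (.s k4 k8
  1 (.s k14 k13 0 (.s k38 k50 5 (.s k21 k55 4 (.s k63 k42 6 (.d k31 k16 k47 2 3))))))] (.c k170 (.q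
  k250 [(.s k14 k13 0 (.s k38 k50 5 (.s k25 k51 6 (.s k48 k37 6 (.d k24 k27 k36 0 5))))), (.s k4 k8
  1 (.s k48 k37 6 (.s k32 k16 3 (.s k36 k24 5 (.s k20 k52 3 (.d k40 k44 k60 1 5)))))), (.s k4 k8 1
  (.s k14 k13 0 (.s k38 k50 5 (.s k21 k55 4 (.s k63 k42 6 (.d k31 k16 k47 2 3))))))] .n) (.c k250
  (.q k170 [(.s k14 k13 0 (.s k38 k50 5 (.s k25 k51 6 (.s k48 k37 6 (.d k24 k27 k36 0 5))))), (.s k4
  k8 1 (.s k85 k255 14 (.s k166 k247 12 (.s k243 k89 14 (.d k162 k174 k81 1 12)))))] .n) .n))) (.c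
  k16 (.l (.s k10 k5 2 (.s k42 k58 3 (.s k63 k21 6 (.s k37 k48 6 (.d k47 k32 k31 2 3)))))) (.c k21
  (.q k12 [(.s k4 k8 1 (.s k5 k10 2 (.s k6 k7 0 (.s k9 k3 2 (.d k13 k14 k1 0 1))))), (.s k13 k14 0
  (.s k37 k48 6 (.s k25 k49 5 (.s k27 k24 0 (.d k51 k39 k38 5 6))))), (.s k4 k8 1 (.s k48 k37 6 (.s
  k32 k16 3 (.s k36 k24 5 (.s k20 k52 3 (.d k40 k44 k60 1 5))))))] .n) (.c k31 (.q k12 [(.s k8 k4 1
  (.s k14 k13 0 (.s k10 k5 2 (.s k6 k2 1 (.d k9 k11 k3 0 2))))), (.s k13 k14 0 (.s k37 k48 6 (.s k25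
  k49 5 (.s k51 k38 6 (.d k27 k24 k39 0 5))))), (.s k4 k8 1 (.s k48 k37 6 (.s k32 k16 3 (.s k36 k24
  5 (.s k20 k52 3 (.d k40 k44 k60 1 5))))))] (.c k149 (.q k208 [(.s k8 k4 1 (.s k14 k13 0 (.s k10 k5
  2 (.s k6 k2 1 (.d k9 k11 k3 0 2))))), (.s k13 k14 0 (.s k37 k48 6 (.s k25 k49 5 (.s k51 k38 6 (.d
  k27 k24 k39 0 5))))), (.s k4 k8 1 (.s k48 k37 6 (.s k32 k16 3 (.s k36 k24 5 (.s k20 k52 3 (.d k40
  k44 k60 1 5))))))] .n) (.c k208 (.q k149 [(.s k8 k4 1 (.s k14 k13 0 (.s k10 k5 2 (.s k6 k2 1 (.d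
  k9 k11 k3 0 2))))), (.s k13 k14 0 (.s k37 k48 6 (.s k25 k49 5 (.s k51 k38 6 (.d k27 k24 k39 0
  5))))), (.s k4 k8 1 (.s k48 k37 6 (.s k32 k16 3 (.s k36 k24 5 (.s k20 k52 3 (.d k40 k44 k60 1
  5))))))] .n) .n))) (.c k32 (.l (.s k5 k10 2 (.s k37 k48 6 (.s k21 k53 3 (.s k63 k42 6 (.d k31 k16
  k47 2 3)))))) (.c k37 (.q k12 [(.s k4 k8 1 (.s k5 k10 2 (.s k6 k7 0 (.s k9 k3 2 (.d k13 k14 k1 0
  1))))), (.s k4 k8 1 (.s k14 k13 0 (.s k38 k50 5 (.s k21 k55 4 (.s k63 k42 6 (.d k31 k47 k16 3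
  2)))))), (.s k10 k5 2 (.s k42 k58 3 (.s k14 k13 0 (.s k38 k50 5 (.s k34 k46 1 (.d k51 k25 k17 6
  4)))))), (.s k8 k4 1 (.s k10 k5 2 (.s k42 k58 3 (.s k25 k59 4 (.s k51 k38 6 (.d k27 k39 k24 5
  0))))))] .n) (.c k42 (.q k12 [(.s k8 k4 1 (.s k10 k5 2 (.s k9 k11 0 (.s k6 k3 2 (.d k14 k13 k2 0
  1))))), (.s k13 k14 0 (.s k37 k48 6 (.s k25 k49 5 (.s k51 k38 6 (.d k27 k24 k39 0 5))))), (.s k4
  k8 1 (.s k48 k37 6 (.s k32 k16 3 (.s k36 k24 5 (.s k20 k52 3 (.d k40 k44 k60 1 5))))))] .n) (.c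
  k48 (.q k12 [(.s k8 k4 1 (.s k14 k13 0 (.s k10 k5 2 (.s k6 k2 1 (.d k9 k11 k3 0 2))))), (.s k4 k8
  1 (.s k14 k13 0 (.s k38 k50 5 (.s k21 k55 4 (.s k63 k42 6 (.d k31 k16 k47 2 3)))))), (.s k10 k5 2
  (.s k42 k58 3 (.s k63 k21 6 (.s k14 k13 0 (.s k46 k29 4 (.d k38 k34 k50 1 5)))))), (.s k8 k4 1 (.s
  k10 k5 2 (.s k42 k58 3 (.s k25 k59 4 (.s k51 k38 6 (.d k27 k24 k39 0 5))))))] (.c k146 (.q k195
  [(.s k4 k8 1 (.s k130 k65 8 (.s k134 k73 10 (.s k69 k199 8 (.d k138 k142 k207 1 10))))), (.s k4 k8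
  1 (.s k5 k10 2 (.s k6 k7 0 (.s k9 k3 2 (.d k13 k14 k1 0 1))))), (.s k13 k14 0 (.s k73 k134 10 (.s
  k133 k193 9 (.s k74 k192 10 (.d k75 k72 k135 0 9)))))] .n) (.c k195 (.q k146 [(.s k8 k4 1 (.s k14
  k13 0 (.s k10 k5 2 (.s k6 k2 1 (.d k9 k11 k3 0 2))))), (.s k4 k8 1 (.s k14 k13 0 (.s k38 k50 5 (.s
  k21 k55 4 (.s k63 k42 6 (.d k31 k16 k47 2 3)))))), (.s k10 k5 2 (.s k42 k58 3 (.s k63 k21 6 (.s
  k14 k13 0 (.s k46 k29 4 (.d k38 k34 k50 1 5)))))), (.s k8 k4 1 (.s k10 k5 2 (.s k42 k58 3 (.s k25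
  k59 4 (.s k51 k38 6 (.d k27 k24 k39 0 5))))))] .n) .n))) (.c k53 (.l (.s k10 k5 2 (.s k42 k58 3
  (.s k21 k63 6 (.s k48 k37 6 (.d k16 k31 k32 2 3)))))) (.c k58 (.l (.s k5 k10 2 (.s k37 k48 6 (.s
  k21 k53 3 (.s k63 k42 6 (.d k31 k16 k47 2 3)))))) (.c k63 (.q k12 [(.s k8 k4 1 (.s k14 k13 0 (.s
  k10 k5 2 (.s k6 k2 1 (.d k9 k11 k3 0 2))))), (.s k13 k14 0 (.s k37 k48 6 (.s k25 k49 5 (.s k51 k38
  6 (.d k27 k24 k39 0 5))))), (.s k4 k8 1 (.s k48 k37 6 (.s k32 k16 3 (.s k36 k24 5 (.s k20 k52 3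
  (.d k40 k44 k60 1 5))))))] .n) .n)))))))))))))

def t98 : T TT 256 :=
  (.q k26 [(.s k10 k5 2 (.s k42 k58 3 (.s k63 k21 6 (.s k37 k48 6 (.d k47 k32 k31 2 3)))))] (.c k5
  (.q k12 [(.s k13 k14 0 (.s k37 k48 6 (.s k25 k49 5 (.s k51 k38 6 (.d k27 k24 k39 0 5))))), (.s k4
  k8 1 (.s k48 k37 6 (.s k32 k16 3 (.s k36 k24 5 (.s k20 k52 3 (.d k40 k44 k60 1 5)))))), (.s k4 k8
  1 (.s k14 k13 0 (.s k38 k50 5 (.s k21 k55 4 (.s k63 k42 6 (.d k31 k16 k47 2 3))))))] .n) (.c k10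
  (.q k12 [(.s k14 k13 0 (.s k38 k50 5 (.s k51 k25 6 (.s k37 k48 6 (.d k39 k36 k27 0 5))))), (.s k4
  k8 1 (.s k48 k37 6 (.s k32 k16 3 (.s k36 k24 5 (.s k20 k52 3 (.d k40 k44 k60 1 5)))))), (.s k4 k8
  1 (.s k14 k13 0 (.s k38 k50 5 (.s k21 k55 4 (.s k63 k42 6 (.d k31 k16 k47 2 3))))))] (.c k170 (.q
  k250 [(.s k14 k13 0 (.s k38 k50 5 (.s k51 k25 6 (.s k37 k48 6 (.d k39 k36 k27 0 5))))), (.s k4 k8
  1 (.s k48 k37 6 (.s k32 k16 3 (.s k36 k24 5 (.s k20 k52 3 (.d k40 k44 k60 1 5)))))), (.s k4 k8 1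
  (.s k14 k13 0 (.s k38 k50 5 (.s k21 k55 4 (.s k63 k42 6 (.d k31 k16 k47 2 3))))))] .n) (.c k250
  (.q k170 [(.s k13 k14 0 (.s k37 k48 6 (.s k25 k49 5 (.s k51 k38 6 (.d k27 k24 k39 0 5))))), (.s k4
  k8 1 (.s k85 k255 14 (.s k166 k247 12 (.s k243 k89 14 (.d k162 k174 k81 1 12)))))] (.c k166 (.l
  (.s k14 k13 0 (.s k38 k50 5 (.s k25 k51 6 (.s k48 k37 6 (.d k24 k27 k36 0 5)))))) .n)) .n))) (.c
  k21 (.q k12 [(.s k4 k8 1 (.s k5 k10 2 (.s k6 k7 0 (.s k9 k3 2 (.d k13 k14 k1 0 1))))), (.s k13 k14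
  0 (.s k37 k48 6 (.s k25 k49 5 (.s k27 k24 0 (.d k51 k39 k38 5 6))))), (.s k4 k8 1 (.s k48 k37 6
  (.s k32 k16 3 (.s k36 k24 5 (.s k20 k52 3 (.d k40 k44 k60 1 5))))))] .n) (.c k31 (.q k12 [(.s k8
  k4 1 (.s k14 k13 0 (.s k10 k5 2 (.s k6 k2 1 (.d k9 k11 k3 0 2))))), (.s k13 k14 0 (.s k37 k48 6
  (.s k25 k49 5 (.s k51 k38 6 (.d k27 k24 k39 0 5))))), (.s k4 k8 1 (.s k48 k37 6 (.s k32 k16 3 (.s
  k36 k24 5 (.s k20 k52 3 (.d k40 k44 k60 1 5))))))] (.c k149 (.q k208 [(.s k8 k4 1 (.s k14 k13 0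
  (.s k10 k5 2 (.s k6 k2 1 (.d k9 k11 k3 0 2))))), (.s k13 k14 0 (.s k37 k48 6 (.s k25 k49 5 (.s k51
  k38 6 (.d k27 k24 k39 0 5))))), (.s k4 k8 1 (.s k48 k37 6 (.s k32 k16 3 (.s k36 k24 5 (.s k20 k52
  3 (.d k40 k44 k60 1 5))))))] .n) (.c k208 (.q k149 [(.s k8 k4 1 (.s k14 k13 0 (.s k10 k5 2 (.s k6
  k2 1 (.d k9 k11 k3 0 2))))), (.s k13 k14 0 (.s k37 k48 6 (.s k25 k49 5 (.s k51 k38 6 (.d k27 k24
  k39 0 5))))), (.s k4 k8 1 (.s k48 k37 6 (.s k32 k16 3 (.s k36 k24 5 (.s k20 k52 3 (.d k40 k44 k60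
  1 5))))))] .n) .n))) (.c k32 (.l (.s k5 k10 2 (.s k37 k48 6 (.s k21 k53 3 (.s k63 k42 6 (.d k31
  k16 k47 2 3)))))) (.c k37 (.q k12 [(.s k4 k8 1 (.s k5 k10 2 (.s k6 k7 0 (.s k9 k3 2 (.d k13 k14 k1
  0 1))))), (.s k4 k8 1 (.s k14 k13 0 (.s k38 k50 5 (.s k21 k55 4 (.s k63 k42 6 (.d k31 k47 k16 3
  2)))))), (.s k10 k5 2 (.s k42 k58 3 (.s k14 k13 0 (.s k38 k50 5 (.s k34 k46 1 (.d k51 k25 k17 6
  4)))))), (.s k8 k4 1 (.s k10 k5 2 (.s k42 k58 3 (.s k25 k59 4 (.s k51 k38 6 (.d k27 k39 k24 5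
  0))))))] .n) (.c k42 (.q k12 [(.s k8 k4 1 (.s k10 k5 2 (.s k9 k11 0 (.s k6 k3 2 (.d k14 k13 k2 0
  1))))), (.s k13 k14 0 (.s k37 k48 6 (.s k25 k49 5 (.s k51 k38 6 (.d k27 k24 k39 0 5))))), (.s k4
  k8 1 (.s k48 k37 6 (.s k32 k16 3 (.s k36 k24 5 (.s k20 k52 3 (.d k40 k44 k60 1 5))))))] .n) (.c
  k47 (.l (.s k10 k5 2 (.s k42 k58 3 (.s k21 k63 6 (.s k48 k37 6 (.d k16 k31 k32 2 3)))))) (.c k48
  (.q k12 [(.s k8 k4 1 (.s k14 k13 0 (.s k10 k5 2 (.s k6 k2 1 (.d k9 k11 k3 0 2))))), (.s k4 k8 1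
  (.s k14 k13 0 (.s k38 k50 5 (.s k21 k55 4 (.s k63 k42 6 (.d k31 k16 k47 2 3)))))), (.s k10 k5 2
  (.s k42 k58 3 (.s k63 k21 6 (.s k14 k13 0 (.s k46 k29 4 (.d k38 k34 k50 1 5)))))), (.s k8 k4 1 (.s
  k10 k5 2 (.s k42 k58 3 (.s k25 k59 4 (.s k51 k38 6 (.d k27 k24 k39 0 5))))))] .n) (.c k53 (.l (.s
  k10 k5 2 (.s k42 k58 3 (.s k21 k63 6 (.s k48 k37 6 (.d k16 k31 k32 2 3)))))) (.c k58 (.l (.s k5
  k10 2 (.s k37 k48 6 (.s k21 k53 3 (.s k63 k42 6 (.d k31 k16 k47 2 3)))))) (.c k63 (.q k12 [(.s k8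
  k4 1 (.s k14 k13 0 (.s k10 k5 2 (.s k6 k2 1 (.d k9 k11 k3 0 2))))), (.s k13 k14 0 (.s k37 k48 6
  (.s k25 k49 5 (.s k51 k38 6 (.d k27 k24 k39 0 5))))), (.s k4 k8 1 (.s k48 k37 6 (.s k32 k16 3 (.s
  k36 k24 5 (.s k20 k52 3 (.d k40 k44 k60 1 5))))))] .n) .n)))))))))))))

def t99 : T TT 256 :=
  (.q k26 [(.s k10 k5 2 (.s k42 k58 3 (.s k63 k21 6 (.s k37 k48 6 (.d k47 k32 k31 2 3)))))] (.c k5
  (.q k12 [(.s k13 k14 0 (.s k37 k48 6 (.s k25 k49 5 (.s k51 k38 6 (.d k27 k24 k39 0 5))))), (.s k4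
  k8 1 (.s k48 k37 6 (.s k32 k16 3 (.s k36 k24 5 (.s k20 k52 3 (.d k40 k44 k60 1 5)))))), (.s k4 k8
  1 (.s k14 k13 0 (.s k38 k50 5 (.s k21 k55 4 (.s k63 k42 6 (.d k31 k16 k47 2 3))))))] .n) (.c k10
  (.q k12 [(.s k14 k13 0 (.s k38 k50 5 (.s k51 k25 6 (.s k37 k48 6 (.d k39 k36 k27 0 5))))), (.s k4
  k8 1 (.s k48 k37 6 (.s k32 k16 3 (.s k36 k24 5 (.s k20 k52 3 (.d k40 k44 k60 1 5)))))), (.s k4 k8
  1 (.s k14 k13 0 (.s k38 k50 5 (.s k21 k55 4 (.s k63 k42 6 (.d k31 k16 k47 2 3))))))] (.c k170 (.q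
  k250 [(.s k14 k13 0 (.s k38 k50 5 (.s k51 k25 6 (.s k37 k48 6 (.d k39 k36 k27 0 5))))), (.s k4 k8
  1 (.s k48 k37 6 (.s k32 k16 3 (.s k36 k24 5 (.s k20 k52 3 (.d k40 k44 k60 1 5)))))), (.s k4 k8 1
  (.s k14 k13 0 (.s k38 k50 5 (.s k21 k55 4 (.s k63 k42 6 (.d k31 k16 k47 2 3))))))] .n) (.c k250
  (.q k170 [(.s k14 k13 0 (.s k38 k50 5 (.s k25 k51 6 (.s k48 k37 6 (.d k24 k27 k36 0 5))))), (.s k4
  k8 1 (.s k85 k255 14 (.s k166 k247 12 (.s k243 k89 14 (.d k162 k174 k81 1 12)))))] .n) .n))) (.c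
  k21 (.q k12 [(.s k4 k8 1 (.s k5 k10 2 (.s k6 k7 0 (.s k9 k3 2 (.d k13 k14 k1 0 1))))), (.s k13 k14
  0 (.s k37 k48 6 (.s k25 k49 5 (.s k27 k24 0 (.d k51 k39 k38 5 6))))), (.s k4 k8 1 (.s k48 k37 6
  (.s k32 k16 3 (.s k36 k24 5 (.s k20 k52 3 (.d k40 k44 k60 1 5))))))] .n) (.c k31 (.q k12 [(.s k8
  k4 1 (.s k14 k13 0 (.s k10 k5 2 (.s k6 k2 1 (.d k9 k11 k3 0 2))))), (.s k13 k14 0 (.s k37 k48 6
  (.s k25 k49 5 (.s k51 k38 6 (.d k27 k24 k39 0 5))))), (.s k4 k8 1 (.s k48 k37 6 (.s k32 k16 3 (.s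
  k36 k24 5 (.s k20 k52 3 (.d k40 k44 k60 1 5))))))] (.c k149 (.q k208 [(.s k8 k4 1 (.s k14 k13 0
  (.s k10 k5 2 (.s k6 k2 1 (.d k9 k11 k3 0 2))))), (.s k13 k14 0 (.s k37 k48 6 (.s k25 k49 5 (.s k51
  k38 6 (.d k27 k24 k39 0 5))))), (.s k4 k8 1 (.s k48 k37 6 (.s k32 k16 3 (.s k36 k24 5 (.s k20 k52
  3 (.d k40 k44 k60 1 5))))))] .n) (.c k208 (.q k149 [(.s k8 k4 1 (.s k14 k13 0 (.s k10 k5 2 (.s k6
  k2 1 (.d k9 k11 k3 0 2))))), (.s k13 k14 0 (.s k37 k48 6 (.s k25 k49 5 (.s k51 k38 6 (.d k27 k24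
  k39 0 5))))), (.s k4 k8 1 (.s k48 k37 6 (.s k32 k16 3 (.s k36 k24 5 (.s k20 k52 3 (.d k40 k44 k60
  1 5))))))] .n) .n))) (.c k32 (.l (.s k5 k10 2 (.s k37 k48 6 (.s k21 k53 3 (.s k63 k42 6 (.d k31
  k16 k47 2 3)))))) (.c k37 (.q k12 [(.s k4 k8 1 (.s k5 k10 2 (.s k6 k7 0 (.s k9 k3 2 (.d k13 k14 k1
  0 1))))), (.s k4 k8 1 (.s k14 k13 0 (.s k38 k50 5 (.s k21 k55 4 (.s k63 k42 6 (.d k31 k47 k16 3
  2)))))), (.s k10 k5 2 (.s k42 k58 3 (.s k14 k13 0 (.s k38 k50 5 (.s k34 k46 1 (.d k51 k25 k17 6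
  4)))))), (.s k8 k4 1 (.s k10 k5 2 (.s k42 k58 3 (.s k25 k59 4 (.s k51 k38 6 (.d k27 k39 k24 5
  0))))))] .n) (.c k42 (.q k12 [(.s k8 k4 1 (.s k10 k5 2 (.s k9 k11 0 (.s k6 k3 2 (.d k14 k13 k2 0
  1))))), (.s k13 k14 0 (.s k37 k48 6 (.s k25 k49 5 (.s k51 k38 6 (.d k27 k24 k39 0 5))))), (.s k4
  k8 1 (.s k48 k37 6 (.s k32 k16 3 (.s k36 k24 5 (.s k20 k52 3 (.d k40 k44 k60 1 5))))))] .n) (.c
  k47 (.l (.s k10 k5 2 (.s k42 k58 3 (.s k21 k63 6 (.s k48 k37 6 (.d k16 k31 k32 2 3)))))) (.c k48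
  (.q k12 [(.s k8 k4 1 (.s k14 k13 0 (.s k10 k5 2 (.s k6 k2 1 (.d k9 k11 k3 0 2))))), (.s k4 k8 1
  (.s k14 k13 0 (.s k38 k50 5 (.s k21 k55 4 (.s k63 k42 6 (.d k31 k16 k47 2 3)))))), (.s k10 k5 2
  (.s k42 k58 3 (.s k63 k21 6 (.s k14 k13 0 (.s k46 k29 4 (.d k38 k34 k50 1 5)))))), (.s k8 k4 1 (.s
  k10 k5 2 (.s k42 k58 3 (.s k25 k59 4 (.s k51 k38 6 (.d k27 k24 k39 0 5))))))] .n) (.c k53 (.l (.s
  k10 k5 2 (.s k42 k58 3 (.s k21 k63 6 (.s k48 k37 6 (.d k16 k31 k32 2 3)))))) (.c k58 (.l (.s k5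
  k10 2 (.s k37 k48 6 (.s k21 k53 3 (.s k63 k42 6 (.d k31 k16 k47 2 3)))))) (.c k63 (.q k12 [(.s k8
  k4 1 (.s k14 k13 0 (.s k10 k5 2 (.s k6 k2 1 (.d k9 k11 k3 0 2))))), (.s k13 k14 0 (.s k37 k48 6
  (.s k25 k49 5 (.s k51 k38 6 (.d k27 k24 k39 0 5))))), (.s k4 k8 1 (.s k48 k37 6 (.s k32 k16 3 (.s
  k36 k24 5 (.s k20 k52 3 (.d k40 k44 k60 1 5))))))] .n) .n)))))))))))))

def t101 : T TT 256 :=
  (.q k12 [(.s k8 k4 1 (.s k14 k13 0 (.s k10 k5 2 (.s k6 k2 1 (.d k9 k11 k3 0 2)))))] (.c k1 (.l (.s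
  k8 k4 1 (.s k10 k5 2 (.s k9 k11 0 (.s k6 k3 2 (.d k14 k13 k2 0 1)))))) (.c k2 (.l (.s k4 k8 1 (.s
  k5 k10 2 (.s k6 k7 0 (.s k9 k3 2 (.d k13 k14 k1 0 1)))))) (.c k3 (.f k8 k4 1 (.q k38 [(.s k25 k51
  6 (.s k42 k59 4 (.s k63 k21 6 (.d k46 k34 k29 1 4)))), (.s k10 k5 2 (.s k14 k13 0 (.s k26 k50 5
  (.s k42 k58 3 (.d k25 k59 k51 4 6))))), (.s k10 k5 2 (.s k14 k13 0 (.s k26 k50 5 (.s k42 k58 3 (.s
  k63 k21 6 (.d k46 k34 k29 1 4))))))] (.c k42 (.l (.s k13 k14 0 (.s k25 k51 6 (.s k37 k49 5 (.s k48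
  k26 6 (.d k36 k39 k24 0 5)))))) (.c k79 (.q k112 [(.s k25 k51 6 (.s k42 k59 4 (.s k63 k21 6 (.d
  k46 k34 k29 1 4)))), (.s k10 k5 2 (.s k14 k13 0 (.s k26 k50 5 (.s k42 k58 3 (.d k25 k59 k51 4
  6))))), (.s k10 k5 2 (.s k14 k13 0 (.s k26 k50 5 (.s k42 k58 3 (.s k63 k21 6 (.d k46 k34 k29 1
  4))))))] (.c k42 (.l (.s k13 k14 0 (.s k25 k51 6 (.s k37 k49 5 (.s k48 k26 6 (.d k36 k39 k24 0
  5)))))) .n)) (.c k112 (.q k79 [(.s k25 k51 6 (.s k42 k59 4 (.s k63 k21 6 (.d k46 k34 k29 1 4)))),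
  (.s k5 k10 2 (.s k207 k143 7 (.s k69 k138 10 (.s k133 k197 7 (.d k74 k64 k192 2 10)))))] .n)
  .n))))) (.c k4 (.q k38 [(.s k14 k13 0 (.s k51 k25 6 (.s k26 k50 5 (.s k37 k48 6 (.d k39 k36 k27 0
  5))))), (.s k10 k5 2 (.s k14 k13 0 (.s k26 k50 5 (.s k42 k58 3 (.s k63 k21 6 (.d k46 k34 k29 1
  4)))))), (.s k5 k10 2 (.s k51 k25 6 (.s k34 k17 4 (.s k39 k27 5 (.s k42 k46 1 (.s k21 k63 6 (.d
  k37 k36 k53 0 3)))))))] (.c k26 (.l (.s k5 k10 2 (.s k13 k14 0 (.s k25 k51 6 (.s k37 k49 5 (.s k21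
  k53 3 (.s k29 k17 1 (.d k63 k42 k46 6 4)))))))) (.c k37 (.l (.s k10 k5 2 (.s k14 k13 0 (.s k26 k50
  5 (.s k42 k58 3 (.s k34 k46 1 (.d k51 k25 k17 6 4))))))) (.c k79 (.q k112 [(.s k14 k13 0 (.s k51
  k25 6 (.s k26 k50 5 (.s k37 k48 6 (.d k39 k36 k27 0 5))))), (.s k10 k5 2 (.s k14 k13 0 (.s k26 k50
  5 (.s k42 k58 3 (.s k63 k21 6 (.d k46 k34 k29 1 4)))))), (.s k5 k10 2 (.s k51 k25 6 (.s k34 k17 4
  (.s k39 k27 5 (.s k42 k46 1 (.s k21 k63 6 (.d k37 k36 k53 0 3)))))))] (.c k26 (.l (.s k5 k10 2 (.s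
  k13 k14 0 (.s k25 k51 6 (.s k37 k49 5 (.s k21 k53 3 (.s k29 k17 1 (.d k63 k42 k46 6 4)))))))) (.c
  k37 (.l (.s k10 k5 2 (.s k14 k13 0 (.s k26 k50 5 (.s k42 k58 3 (.s k34 k46 1 (.d k51 k25 k17 6
  4))))))) .n))) (.c k112 (.q k79 [(.s k5 k10 2 (.s k207 k143 7 (.s k69 k138 10 (.s k133 k197 7 (.d
  k74 k64 k192 2 10))))), (.s k13 k14 0 (.s k25 k51 6 (.s k37 k49 5 (.s k48 k26 6 (.d k36 k39 k24 0
  5)))))] .n) .n))))) (.c k5 (.q k38 [(.s k4 k8 1 (.s k21 k55 4 (.s k42 k63 6 (.s k51 k25 6 (.d k34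
  k46 k17 1 4))))), (.s k13 k14 0 (.s k25 k51 6 (.s k37 k49 5 (.s k48 k26 6 (.d k36 k39 k24 0
  5))))), (.s k4 k8 1 (.s k21 k55 4 (.s k14 k13 0 (.s k26 k50 5 (.s k16 k31 2 (.d k48 k32 k37 3
  6))))))] (.c k79 (.q k112 [(.s k4 k8 1 (.s k21 k55 4 (.s k42 k63 6 (.s k51 k25 6 (.d k34 k46 k17 1
  4))))), (.s k13 k14 0 (.s k25 k51 6 (.s k37 k49 5 (.s k48 k26 6 (.d k36 k39 k24 0 5))))), (.s k4
  k8 1 (.s k21 k55 4 (.s k14 k13 0 (.s k26 k50 5 (.s k16 k31 2 (.d k48 k32 k37 3 6))))))] .n) (.c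
  k112 (.q k79 [(.s k4 k8 1 (.s k21 k55 4 (.s k42 k63 6 (.s k51 k25 6 (.d k34 k46 k17 1 4))))), (.s
  k13 k14 0 (.s k207 k143 7 (.s k77 k142 8 (.s k141 k205 7 (.d k78 k76 k204 0 8)))))] .n) .n))) (.c
  k6 (.q k38 [(.s k4 k8 1 (.s k21 k55 4 (.s k42 k63 6 (.s k51 k25 6 (.d k34 k46 k17 1 4))))), (.s
  k13 k14 0 (.s k25 k51 6 (.s k37 k49 5 (.s k48 k26 6 (.d k36 k39 k24 0 5))))), (.s k4 k8 1 (.s k5
  k10 2 (.s k21 k55 4 (.s k37 k53 3 (.s k14 k13 0 (.d k26 k50 k48 5 6))))))] (.c k79 (.q k112 [(.s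
  k4 k8 1 (.s k21 k55 4 (.s k42 k63 6 (.s k51 k25 6 (.d k34 k46 k17 1 4))))), (.s k13 k14 0 (.s k25
  k51 6 (.s k37 k49 5 (.s k48 k26 6 (.d k36 k39 k24 0 5))))), (.s k4 k8 1 (.s k5 k10 2 (.s k21 k55 4
  (.s k37 k53 3 (.s k14 k13 0 (.d k26 k50 k48 5 6))))))] .n) (.c k112 (.q k79 [(.s k4 k8 1 (.s k21
  k55 4 (.s k42 k63 6 (.s k51 k25 6 (.d k34 k46 k17 1 4))))), (.s k5 k10 2 (.s k207 k143 7 (.s k69
  k138 10 (.s k133 k197 7 (.d k74 k64 k192 2 10)))))] .n) .n))) (.c k7 (.l (.s k8 k4 1 (.s k14 k13 0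
  (.s k10 k5 2 (.s k6 k2 1 (.d k9 k11 k3 0 2)))))) (.c k8 (.q k38 [(.s k14 k13 0 (.s k25 k51 6 (.s
  k26 k50 5 (.s k48 k37 6 (.d k24 k27 k36 0 5))))), (.s k10 k5 2 (.s k14 k13 0 (.s k26 k50 5 (.s k42
  k58 3 (.s k63 k21 6 (.d k46 k34 k29 1 4)))))), (.s k5 k10 2 (.s k51 k25 6 (.s k34 k17 4 (.s k39
  k27 5 (.s k42 k46 1 (.s k21 k63 6 (.d k37 k36 k53 0 3)))))))] (.c k26 (.l (.s k5 k10 2 (.s k13 k14
  0 (.s k25 k51 6 (.s k37 k49 5 (.s k21 k53 3 (.s k29 k17 1 (.d k63 k42 k46 6 4)))))))) (.c k37 (.l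
  (.s k10 k5 2 (.s k14 k13 0 (.s k2 k6 1 (.s k50 k26 5 (.s k34 k18 3 (.d k51 k25 k17 6 4))))))) (.c
  k79 (.q k112 [(.s k14 k13 0 (.s k25 k51 6 (.s k26 k50 5 (.s k48 k37 6 (.d k24 k27 k36 0 5))))),
  (.s k10 k5 2 (.s k14 k13 0 (.s k26 k50 5 (.s k42 k58 3 (.s k63 k21 6 (.d k46 k34 k29 1 4)))))),
  (.s k5 k10 2 (.s k51 k25 6 (.s k34 k17 4 (.s k39 k27 5 (.s k42 k46 1 (.s k21 k63 6 (.d k37 k36 k53
  0 3)))))))] (.c k26 (.l (.s k5 k10 2 (.s k13 k14 0 (.s k25 k51 6 (.s k37 k49 5 (.s k21 k53 3 (.s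
  k29 k17 1 (.d k63 k42 k46 6 4)))))))) (.c k37 (.l (.s k10 k5 2 (.s k14 k13 0 (.s k2 k6 1 (.s k50
  k26 5 (.s k34 k18 3 (.d k51 k25 k17 6 4))))))) .n))) (.c k112 (.q k79 [(.s k13 k14 0 (.s k25 k51 6
  (.s k37 k49 5 (.s k48 k26 6 (.d k36 k39 k24 0 5))))), (.s k5 k10 2 (.s k207 k143 7 (.s k69 k138 10
  (.s k133 k197 7 (.d k74 k64 k192 2 10)))))] .n) .n))))) (.c k9 (.f k8 k4 1 (.q k38 [(.s k25 k51 6
  (.s k42 k59 4 (.s k63 k21 6 (.d k46 k34 k29 1 4)))), (.s k13 k14 0 (.s k25 k51 6 (.s k37 k49 5 (.s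
  k48 k26 6 (.d k36 k39 k24 0 5)))))] (.c k25 (.l (.s k5 k10 2 (.s k14 k13 0 (.s k26 k50 5 (.s k37
  k48 6 (.s k21 k53 3 (.s k63 k42 6 (.d k31 k16 k47 2 3)))))))) (.c k51 (.l (.s k14 k13 0 (.s k26
  k50 5 (.s k48 k37 6 (.s k16 k32 3 (.s k24 k36 5 (.s k40 k56 3 (.d k20 k28 k60 1 5)))))))) (.c k79
  (.q k112 [(.s k25 k51 6 (.s k42 k59 4 (.s k63 k21 6 (.d k46 k34 k29 1 4)))), (.s k13 k14 0 (.s k25
  k51 6 (.s k37 k49 5 (.s k48 k26 6 (.d k36 k39 k24 0 5)))))] (.c k25 (.l (.s k5 k10 2 (.s k14 k13 0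
  (.s k26 k50 5 (.s k37 k48 6 (.s k21 k53 3 (.s k63 k42 6 (.d k31 k16 k47 2 3)))))))) (.c k51 (.l
  (.s k14 k13 0 (.s k26 k50 5 (.s k48 k37 6 (.s k16 k32 3 (.s k24 k36 5 (.s k40 k56 3 (.d k20 k28
  k60 1 5)))))))) .n))) (.c k112 (.q k79 [(.s k25 k51 6 (.s k42 k59 4 (.s k63 k21 6 (.d k46 k34 k29
  1 4)))), (.s k5 k10 2 (.s k207 k143 7 (.s k69 k138 10 (.s k133 k197 7 (.d k74 k64 k192 2 10)))))]
  .n) .n)))))) (.c k10 (.q k170 [(.s k4 k8 1 (.s k85 k255 14 (.s k166 k247 12 (.s k162 k174 1 (.d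
  k243 k81 k89 12 14))))), (.s k255 k85 14 (.s k13 k14 0 (.s k93 k174 12 (.s k173 k253 11 (.s k94
  k252 12 (.d k95 k92 k175 0 11))))))] (.c k79 (.q k112 [(.s k4 k8 1 (.s k85 k255 14 (.s k166 k247
  12 (.s k162 k174 1 (.d k243 k81 k89 12 14))))), (.s k255 k85 14 (.s k13 k14 0 (.s k93 k174 12 (.s
  k173 k253 11 (.s k94 k252 12 (.d k95 k92 k175 0 11))))))] (.c k85 (.f k8 k4 1 (.l (.s k89 k251 12
  (.s k13 k14 0 (.s k166 k243 14 (.s k165 k241 13 (.s k160 k175 2 (.s k164 k167 0 (.d k240 k80 k88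
  11 13))))))))) (.c k166 (.l (.s k255 k85 14 (.s k14 k13 0 (.s k174 k93 12 (.s k94 k254 11 (.s k173
  k252 12 (.d k175 k95 k172 11 0))))))) (.c k174 (.l (.s k8 k4 1 (.s k85 k255 14 (.s k89 k251 12 (.s
  k243 k166 14 (.d k81 k93 k162 1 12)))))) (.c k255 (.f k8 k4 1 (.l (.s k89 k251 12 (.s k13 k14 0
  (.s k165 k241 13 (.s k160 k175 2 (.s k240 k80 11 (.s k164 k88 13 (.d k166 k243 k167 14 0)))))))))
  .n))))) (.c k85 (.f k8 k4 1 (.l (.s k89 k251 12 (.s k13 k14 0 (.s k166 k243 14 (.s k165 k241 13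
  (.s k160 k175 2 (.s k164 k167 0 (.d k240 k80 k88 11 13))))))))) (.c k112 (.q k79 [(.s k4 k8 1 (.s
  k85 k255 14 (.s k166 k247 12 (.s k162 k174 1 (.d k243 k81 k89 12 14))))), (.s k207 k143 7 (.s k77
  k142 8 (.s k78 k76 0 (.s k141 k204 8 (.d k13 k14 k205 0 7)))))] .n) (.c k166 (.l (.s k255 k85 14
  (.s k14 k13 0 (.s k174 k93 12 (.s k94 k254 11 (.s k173 k252 12 (.d k175 k95 k172 11 0))))))) (.c
  k174 (.l (.s k8 k4 1 (.s k85 k255 14 (.s k89 k251 12 (.s k243 k166 14 (.d k81 k93 k162 1 12))))))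
  (.c k255 (.f k8 k4 1 (.l (.s k89 k251 12 (.s k13 k14 0 (.s k165 k241 13 (.s k160 k175 2 (.s k240
  k80 11 (.s k164 k88 13 (.d k166 k243 k167 14 0))))))))) .n))))))) (.c k11 (.l (.s k4 k8 1 (.s k13
  k14 0 (.s k5 k10 2 (.s k9 k1 1 (.d k6 k7 k3 0 2)))))) (.c k13 (.q k38 [(.s k8 k4 1 (.s k25 k51 6
  (.s k42 k59 4 (.s k63 k21 6 (.d k46 k34 k29 1 4))))), (.s k4 k8 1 (.s k5 k10 2 (.s k21 k55 4 (.s
  k37 k53 3 (.s k48 k26 6 (.d k36 k39 k24 0 5)))))), (.s k5 k10 2 (.s k51 k25 6 (.s k34 k17 4 (.s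
  k39 k27 5 (.s k42 k46 1 (.s k21 k63 6 (.d k37 k36 k53 0 3)))))))] (.c k21 (.l (.s k8 k4 1 (.s k10
  k5 2 (.s k25 k51 6 (.s k42 k59 4 (.s k26 k58 3 (.s k24 k27 0 (.d k48 k37 k36 6 5)))))))) (.c k42
  (.l (.s k4 k8 1 (.s k5 k10 2 (.s k7 k6 0 (.s k55 k21 4 (.s k39 k23 3 (.d k51 k25 k27 6 5)))))))
  (.c k79 (.q k112 [(.s k8 k4 1 (.s k25 k51 6 (.s k42 k59 4 (.s k63 k21 6 (.d k46 k34 k29 1 4))))),
  (.s k4 k8 1 (.s k5 k10 2 (.s k21 k55 4 (.s k37 k53 3 (.s k48 k26 6 (.d k36 k39 k24 0 5)))))), (.s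
  k5 k10 2 (.s k51 k25 6 (.s k34 k17 4 (.s k39 k27 5 (.s k42 k46 1 (.s k21 k63 6 (.d k37 k36 k53 0
  3)))))))] (.c k21 (.l (.s k8 k4 1 (.s k10 k5 2 (.s k25 k51 6 (.s k42 k59 4 (.s k26 k58 3 (.s k24
  k27 0 (.d k48 k37 k36 6 5)))))))) (.c k42 (.l (.s k4 k8 1 (.s k5 k10 2 (.s k7 k6 0 (.s k55 k21 4
  (.s k39 k23 3 (.d k51 k25 k27 6 5))))))) .n))) (.c k112 (.q k79 [(.s k8 k4 1 (.s k25 k51 6 (.s k42
  k59 4 (.s k63 k21 6 (.d k46 k34 k29 1 4))))), (.s k5 k10 2 (.s k207 k143 7 (.s k69 k138 10 (.s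
  k133 k197 7 (.d k74 k64 k192 2 10)))))] .n) .n))))) (.c k14 (.q k166 [(.s k4 k8 1 (.s k85 k247 12
  (.s k170 k255 14 (.s k162 k174 1 (.d k243 k81 k89 12 14))))), (.s k4 k8 1 (.s k5 k10 2 (.s k85
  k247 12 (.s k165 k245 11 (.s k164 k167 0 (.s k244 k84 11 (.d k7 k6 k86 0 12))))))), (.s k5 k10 2
  (.s k243 k89 14 (.s k162 k81 12 (.s k170 k174 1 (.s k85 k255 14 (.s k165 k245 11 (.d k167 k91 k164
  13 0)))))))] (.c k79 (.q k112 [(.s k4 k8 1 (.s k85 k247 12 (.s k170 k255 14 (.s k162 k174 1 (.d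
  k243 k81 k89 12 14))))), (.s k4 k8 1 (.s k5 k10 2 (.s k85 k247 12 (.s k165 k245 11 (.s k164 k167 0
  (.s k244 k84 11 (.d k7 k6 k86 0 12))))))), (.s k5 k10 2 (.s k243 k89 14 (.s k162 k81 12 (.s k170
  k174 1 (.s k85 k255 14 (.s k165 k245 11 (.d k167 k91 k164 13 0)))))))] (.c k85 (.f k8 k4 1 (.l (.s
  k10 k5 2 (.s k9 k11 0 (.s k89 k243 14 (.s k169 k249 11 (.s k172 k163 2 (.s k252 k92 11 (.d k3 k6
  k86 2 14))))))))) (.c k170 (.f k8 k4 1 (.l (.s k10 k5 2 (.s k9 k11 0 (.s k89 k243 14 (.s k169 k249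
  11 (.s k172 k163 2 (.s k252 k92 11 (.d k3 k6 k86 2 14))))))))) .n))) (.c k85 (.f k8 k4 1 (.l (.s
  k10 k5 2 (.s k9 k11 0 (.s k89 k243 14 (.s k169 k249 11 (.s k172 k163 2 (.s k252 k92 11 (.d k3 k6
  k86 2 14))))))))) (.c k112 (.q k79 [(.s k4 k8 1 (.s k85 k247 12 (.s k170 k255 14 (.s k162 k174 1
  (.d k243 k81 k89 12 14))))), (.s k207 k143 7 (.s k69 k138 10 (.s k74 k64 2 (.s k133 k192 10 (.d k5
  k10 k197 2 7)))))] .n) (.c k170 (.f k8 k4 1 (.l (.s k10 k5 2 (.s k9 k11 0 (.s k89 k243 14 (.s k169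
  k249 11 (.s k172 k163 2 (.s k252 k92 11 (.d k3 k6 k86 2 14))))))))) .n))))) (.c k79 (.q k112 [(.s
  k8 k4 1 (.s k14 k13 0 (.s k10 k5 2 (.s k6 k2 1 (.d k9 k11 k3 0 2)))))] (.c k1 (.l (.s k8 k4 1 (.s
  k10 k5 2 (.s k9 k11 0 (.s k6 k3 2 (.d k14 k13 k2 0 1)))))) (.c k2 (.l (.s k4 k8 1 (.s k5 k10 2 (.s
  k6 k7 0 (.s k9 k3 2 (.d k13 k14 k1 0 1)))))) (.c k3 (.q k38 [(.s k4 k8 1 (.s k21 k55 4 (.s k42 k63
  6 (.s k51 k25 6 (.d k34 k46 k17 1 4))))), (.s k13 k14 0 (.s k25 k51 6 (.s k37 k49 5 (.s k48 k26 6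
  (.d k36 k39 k24 0 5))))), (.s k4 k8 1 (.s k5 k10 2 (.s k21 k55 4 (.s k37 k53 3 (.s k14 k13 0 (.d
  k26 k50 k48 5 6))))))] .n) (.c k4 (.q k38 [(.s k14 k13 0 (.s k51 k25 6 (.s k26 k50 5 (.s k37 k48 6
  (.d k39 k36 k27 0 5))))), (.s k10 k5 2 (.s k14 k13 0 (.s k26 k50 5 (.s k42 k58 3 (.s k63 k21 6 (.d
  k46 k34 k29 1 4)))))), (.s k5 k10 2 (.s k51 k25 6 (.s k34 k17 4 (.s k39 k27 5 (.s k42 k46 1 (.s
  k21 k63 6 (.d k37 k36 k53 0 3)))))))] (.c k26 (.l (.s k5 k10 2 (.s k13 k14 0 (.s k25 k51 6 (.s k37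
  k49 5 (.s k21 k53 3 (.s k29 k17 1 (.d k63 k42 k46 6 4)))))))) (.c k37 (.l (.s k10 k5 2 (.s k14 k13
  0 (.s k26 k50 5 (.s k42 k58 3 (.s k34 k46 1 (.d k51 k25 k17 6 4))))))) .n))) (.c k5 (.q k38 [(.s
  k4 k8 1 (.s k21 k55 4 (.s k42 k63 6 (.s k51 k25 6 (.d k34 k46 k17 1 4))))), (.s k13 k14 0 (.s k25
  k51 6 (.s k37 k49 5 (.s k48 k26 6 (.d k36 k39 k24 0 5))))), (.s k4 k8 1 (.s k21 k55 4 (.s k14 k13
  0 (.s k26 k50 5 (.s k16 k31 2 (.d k48 k32 k37 3 6))))))] .n) (.c k6 (.q k38 [(.s k4 k8 1 (.s k21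
  k55 4 (.s k42 k63 6 (.s k51 k25 6 (.d k34 k46 k17 1 4))))), (.s k13 k14 0 (.s k25 k51 6 (.s k37
  k49 5 (.s k48 k26 6 (.d k36 k39 k24 0 5))))), (.s k4 k8 1 (.s k5 k10 2 (.s k21 k55 4 (.s k37 k53 3
  (.s k14 k13 0 (.d k26 k50 k48 5 6))))))] .n) (.c k7 (.l (.s k8 k4 1 (.s k14 k13 0 (.s k10 k5 2 (.s
  k6 k2 1 (.d k9 k11 k3 0 2)))))) (.c k8 (.q k38 [(.s k14 k13 0 (.s k25 k51 6 (.s k26 k50 5 (.s k48
  k37 6 (.d k24 k27 k36 0 5))))), (.s k10 k5 2 (.s k14 k13 0 (.s k26 k50 5 (.s k42 k58 3 (.s k63 k21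
  6 (.d k46 k34 k29 1 4)))))), (.s k5 k10 2 (.s k51 k25 6 (.s k34 k17 4 (.s k39 k27 5 (.s k42 k46 1
  (.s k21 k63 6 (.d k37 k36 k53 0 3)))))))] (.c k26 (.l (.s k5 k10 2 (.s k13 k14 0 (.s k25 k51 6 (.s
  k37 k49 5 (.s k21 k53 3 (.s k29 k17 1 (.d k63 k42 k46 6 4)))))))) (.c k37 (.l (.s k10 k5 2 (.s k14
  k13 0 (.s k2 k6 1 (.s k50 k26 5 (.s k34 k18 3 (.d k51 k25 k17 6 4))))))) .n))) (.c k9 (.q k38 [(.s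
  k8 k4 1 (.s k25 k51 6 (.s k42 k59 4 (.s k63 k21 6 (.d k46 k34 k29 1 4))))), (.s k13 k14 0 (.s k25
  k51 6 (.s k37 k49 5 (.s k48 k26 6 (.d k36 k39 k24 0 5)))))] (.c k25 (.l (.s k4 k8 1 (.s k10 k5 2
  (.s k21 k55 4 (.s k42 k63 6 (.s k26 k58 3 (.d k14 k13 k50 0 5))))))) (.c k51 (.l (.s k4 k8 1 (.s
  k21 k55 4 (.s k63 k42 6 (.s k14 k13 0 (.s k26 k50 5 (.d k31 k16 k47 2 3))))))) .n))) (.c k10 (.q
  k170 [(.s k4 k8 1 (.s k85 k255 14 (.s k166 k247 12 (.s k162 k174 1 (.d k243 k81 k89 12 14))))),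
  (.s k255 k85 14 (.s k13 k14 0 (.s k93 k174 12 (.s k173 k253 11 (.s k94 k252 12 (.d k95 k92 k175 0
  11))))))] (.c k85 (.f k8 k4 1 (.l (.s k89 k251 12 (.s k13 k14 0 (.s k166 k243 14 (.s k165 k241 13
  (.s k160 k175 2 (.s k164 k167 0 (.d k240 k80 k88 11 13))))))))) (.c k166 (.l (.s k255 k85 14 (.s
  k14 k13 0 (.s k174 k93 12 (.s k94 k254 11 (.s k173 k252 12 (.d k175 k95 k172 11 0))))))) (.c k174
  (.l (.s k8 k4 1 (.s k85 k255 14 (.s k89 k251 12 (.s k243 k166 14 (.d k81 k93 k162 1 12)))))) (.c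
  k255 (.f k8 k4 1 (.l (.s k89 k251 12 (.s k13 k14 0 (.s k165 k241 13 (.s k160 k175 2 (.s k240 k80
  11 (.s k164 k88 13 (.d k166 k243 k167 14 0))))))))) .n))))) (.c k11 (.l (.s k4 k8 1 (.s k13 k14 0
  (.s k5 k10 2 (.s k9 k1 1 (.d k6 k7 k3 0 2)))))) (.c k13 (.q k38 [(.s k8 k4 1 (.s k25 k51 6 (.s k42
  k59 4 (.s k63 k21 6 (.d k46 k34 k29 1 4))))), (.s k4 k8 1 (.s k5 k10 2 (.s k21 k55 4 (.s k37 k53 3
  (.s k48 k26 6 (.d k36 k39 k24 0 5)))))), (.s k5 k10 2 (.s k51 k25 6 (.s k34 k17 4 (.s k39 k27 5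
  (.s k42 k46 1 (.s k21 k63 6 (.d k37 k36 k53 0 3)))))))] (.c k21 (.l (.s k8 k4 1 (.s k10 k5 2 (.s
  k25 k51 6 (.s k42 k59 4 (.s k26 k58 3 (.s k24 k27 0 (.d k48 k37 k36 6 5)))))))) (.c k42 (.l (.s k4
  k8 1 (.s k5 k10 2 (.s k7 k6 0 (.s k55 k21 4 (.s k39 k23 3 (.d k51 k25 k27 6 5))))))) .n))) (.c k14
  (.q k166 [(.s k4 k8 1 (.s k85 k247 12 (.s k170 k255 14 (.s k162 k174 1 (.d k243 k81 k89 12
  14))))), (.s k4 k8 1 (.s k5 k10 2 (.s k85 k247 12 (.s k165 k245 11 (.s k164 k167 0 (.s k244 k84 11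
  (.d k7 k6 k86 0 12))))))), (.s k5 k10 2 (.s k243 k89 14 (.s k162 k81 12 (.s k170 k174 1 (.s k85
  k255 14 (.s k165 k245 11 (.d k167 k91 k164 13 0)))))))] (.c k85 (.f k8 k4 1 (.l (.s k10 k5 2 (.s
  k9 k11 0 (.s k89 k243 14 (.s k169 k249 11 (.s k172 k163 2 (.s k252 k92 11 (.d k3 k6 k86 2
  14))))))))) (.c k170 (.f k8 k4 1 (.l (.s k10 k5 2 (.s k9 k11 0 (.s k89 k243 14 (.s k169 k249 11
  (.s k172 k163 2 (.s k252 k92 11 (.d k3 k6 k86 2 14))))))))) .n))) .n)))))))))))))) (.c k112 (.q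
  k79 [(.s k8 k4 1 (.s k14 k13 0 (.s k10 k5 2 (.s k6 k2 1 (.d k9 k11 k3 0 2))))), (.s k5 k10 2 (.s
  k207 k143 7 (.s k69 k138 10 (.s k133 k197 7 (.d k74 k64 k192 2 10))))), (.s k13 k14 0 (.s k207
  k143 7 (.s k77 k142 8 (.s k141 k205 7 (.d k78 k76 k204 0 8)))))] .n) .n))))))))))))))))

theorem c63 : rootOK2 k15 k90 k63 t63 = true := by decide +kernel

theorem c80 : rootOK2 k15 k90 k80 t80 = true := by decide +kernel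

theorem c81 : rootOK2 k15 k90 k81 t81 = true := by decide +kernel

theorem c82 : rootOK2 k15 k90 k82 t82 = true := by decide +kernel

theorem c83 : rootOK2 k15 k90 k83 t83 = true := by decide +kernel

theorem c85 : rootOK2 k15 k90 k85 t85 = true := by decide +kernel

theorem c86 : rootOK2 k15 k90 k86 t86 = true := by decide +kernel

theorem c87 : rootOK2 k15 k90 k87 t87 = true := by decide +kernel

theorem c91 : rootOK2 k15 k90 k91 t91 = true := by decide +kernel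

theorem c95 : rootOK2 k15 k90 k95 t95 = true := by decide +kernel

theorem c96 : rootOK2 k15 k90 k96 t96 = true := by decide +kernel

theorem c97 : rootOK2 k15 k90 k97 t97 = true := by decide +kernel

theorem c98 : rootOK2 k15 k90 k98 t98 = true := by decide +kernel

theorem c99 : rootOK2 k15 k90 k99 t99 = true := by decide +kernel

theorem c101 : rootOK2 k15 k90 k101 t101 = true := by decide +kernel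

def l : List Nat :=
  [k63.c, k80.c, k81.c, k82.c, k83.c, k85.c, k86.c, k87.c, k91.c, k95.c, k96.c, k97.c, k98.c, k99.c,
  k101.c]

theorem ok : AllQ k15.c k90.c l :=
  allQ_cons c63 (allQ_cons c80 (allQ_cons c81 (allQ_cons c82 (allQ_cons c83 (allQ_cons c85 (
  allQ_cons c86 (allQ_cons c87 (allQ_cons c91 (allQ_cons c95 (allQ_cons c96 (allQ_cons c97 (
  allQ_cons c98 (allQ_cons c99 (allQ_cons c101 (allQ_nil _ _)))))))))))))))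

end Pool.Agent.TTT.I04
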