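import Pool.Agent.TTT.Sym2

set_option autoImplicit false
set_option maxRecDepth 100000

namespace Pool.Agent.TTT.I05

def t102 : T TT 256 :=
  (.q k12 [(.s k8 k4 1 (.s k14 k13 0 (.s k10 k5 2 (.s k6 k2 1 (.d k9 k11 k3 0 2)))))] (.c k1 (.l (.s
  k8 k4 1 (.s k10 k5 2 (.s k9 k11 0 (.s k6 k3 2 (.d k14 k13 k2 0 1)))))) (.c k2 (.l (.s k4 k8 1 (.s
  k5 k10 2 (.s k6 k7 0 (.s k9 k3 2 (.d k13 k14 k1 0 1)))))) (.c k3 (.f k8 k4 1 (.q k78 [(.s k204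
  k141 8 (.s k136 k68 9 (.s k72 k200 7 (.s k132 k192 9 (.d k140 k128 k76 1 7))))), (.s k14 k13 0 (.s
  k142 k206 7 (.s k207 k77 8 (.s k138 k69 10 (.s k73 k203 8 (.d k134 k130 k195 1 10))))))] (.c k141
  (.q k26 [(.s k5 k10 2 (.s k37 k48 6 (.s k21 k53 3 (.s k63 k42 6 (.d k31 k16 k47 2 3))))), (.s k10
  k5 2 (.s k42 k58 3 (.s k25 k59 4 (.s k14 k13 0 (.d k38 k50 k51 5 6))))), (.s k13 k14 0 (.s k37 k48
  6 (.s k25 k49 5 (.s k51 k38 6 (.d k27 k24 k39 0 5)))))] .n) .n))) (.c k4 (.f k14 k13 0 (.q k26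
  [(.s k38 k50 5 (.s k51 k25 6 (.s k37 k48 6 (.d k39 k36 k27 0 5)))), (.s k5 k10 2 (.s k37 k48 6 (.s
  k21 k53 3 (.s k63 k42 6 (.d k31 k16 k47 2 3))))), (.s k10 k5 2 (.s k42 k58 3 (.s k38 k50 5 (.s k34
  k46 1 (.d k51 k17 k25 4 6)))))] (.c k78 (.q k114 [(.s k38 k50 5 (.s k51 k25 6 (.s k37 k48 6 (.d
  k39 k36 k27 0 5)))), (.s k5 k10 2 (.s k37 k48 6 (.s k21 k53 3 (.s k63 k42 6 (.d k31 k16 k47 2
  3))))), (.s k10 k5 2 (.s k42 k58 3 (.s k38 k50 5 (.s k34 k46 1 (.d k51 k17 k25 4 6)))))] .n) (.c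
  k114 (.q k78 [(.s k142 k206 7 (.s k77 k207 8 (.s k204 k141 8 (.d k76 k79 k140 0 7)))), (.s k48 k37
  6 (.s k24 k36 5 (.s k25 k27 0 (.d k38 k50 k51 5 6))))] (.c k50 (.l (.s k204 k141 8 (.s k76 k140 7
  (.s k77 k79 0 (.d k142 k206 k207 7 8))))) .n)) .n)))) (.c k5 (.q k78 [(.s k13 k14 0 (.s k141 k204
  8 (.s k77 k205 7 (.s k207 k142 8 (.d k79 k76 k143 0 7))))), (.s k4 k8 1 (.s k204 k141 8 (.s k68
  k136 9 (.s k132 k196 7 (.s k72 k192 9 (.d k76 k64 k140 1 7)))))), (.s k8 k4 1 (.s k14 k13 0 (.s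
  k142 k206 7 (.s k207 k77 8 (.s k138 k69 10 (.s k73 k203 8 (.d k134 k130 k195 1 10)))))))] (.c k141
  (.q k192 [(.s k4 k8 1 (.s k128 k64 7 (.s k132 k72 9 (.s k68 k196 7 (.d k136 k140 k204 1 9))))),
  (.s k13 k14 0 (.s k132 k72 9 (.s k133 k74 10 (.s k73 k193 9 (.d k134 k135 k195 0 10))))), (.s k4
  k8 1 (.s k64 k128 7 (.s k14 k13 0 (.s k74 k133 10 (.s k134 k194 9 (.d k69 k79 k199 2 8))))))] .n)
  .n)) (.c k6 (.q k78 [(.s k14 k13 0 (.s k142 k206 7 (.s k77 k207 8 (.s k204 k141 8 (.d k76 k79 k140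
  0 7))))), (.s k4 k8 1 (.s k204 k141 8 (.s k68 k136 9 (.s k132 k196 7 (.s k72 k192 9 (.d k76 k64
  k140 1 7)))))), (.s k8 k4 1 (.s k14 k13 0 (.s k142 k206 7 (.s k207 k77 8 (.s k138 k69 10 (.s k73
  k203 8 (.d k134 k130 k195 1 10)))))))] (.c k141 (.q k192 [(.s k4 k8 1 (.s k128 k64 7 (.s k132 k72
  9 (.s k68 k196 7 (.d k136 k140 k204 1 9))))), (.s k5 k10 2 (.s k128 k64 7 (.s k133 k74 10 (.s k69
  k197 7 (.d k138 k143 k207 2 10))))), (.s k13 k14 0 (.s k132 k72 9 (.s k133 k74 10 (.s k73 k193 9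
  (.d k134 k135 k195 0 10)))))] .n) .n)) (.c k7 (.l (.s k8 k4 1 (.s k14 k13 0 (.s k10 k5 2 (.s k6 k2
  1 (.d k9 k11 k3 0 2)))))) (.c k8 (.f k14 k13 0 (.q k26 [(.s k48 k37 6 (.s k24 k36 5 (.s k25 k27 0
  (.d k38 k50 k51 5 6)))), (.s k5 k10 2 (.s k37 k48 6 (.s k21 k53 3 (.s k31 k16 2 (.d k63 k47 k42 3
  6))))), (.s k10 k5 2 (.s k42 k58 3 (.s k38 k50 5 (.s k34 k46 1 (.d k51 k17 k25 4 6)))))] (.c k78
  (.q k114 [(.s k48 k37 6 (.s k24 k36 5 (.s k25 k27 0 (.d k38 k50 k51 5 6)))), (.s k5 k10 2 (.s k37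
  k48 6 (.s k21 k53 3 (.s k31 k16 2 (.d k63 k47 k42 3 6))))), (.s k10 k5 2 (.s k42 k58 3 (.s k38 k50
  5 (.s k34 k46 1 (.d k51 k17 k25 4 6)))))] .n) (.c k114 (.q k78 [(.s k142 k206 7 (.s k77 k207 8 (.s
  k204 k141 8 (.d k76 k79 k140 0 7)))), (.s k48 k37 6 (.s k24 k36 5 (.s k25 k27 0 (.d k38 k50 k51 5
  6))))] (.c k50 (.l (.s k204 k141 8 (.s k76 k140 7 (.s k77 k79 0 (.d k142 k206 k207 7 8))))) .n))
  .n)))) (.c k9 (.f k8 k4 1 (.q k78 [(.s k204 k141 8 (.s k136 k68 9 (.s k72 k200 7 (.s k132 k192 9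
  (.d k140 k128 k76 1 7))))), (.s k14 k13 0 (.s k142 k206 7 (.s k207 k77 8 (.s k138 k69 10 (.s k73
  k203 8 (.d k134 k130 k195 1 10))))))] (.c k141 (.q k26 [(.s k5 k10 2 (.s k37 k48 6 (.s k21 k53 3
  (.s k63 k42 6 (.d k31 k16 k47 2 3))))), (.s k13 k14 0 (.s k37 k48 6 (.s k25 k49 5 (.s k51 k38 6
  (.d k27 k24 k39 0 5))))), (.s k10 k5 2 (.s k42 k58 3 (.s k25 k59 4 (.s k38 k51 6 (.d k14 k13 k50 0
  5)))))] .n) .n))) (.c k10 (.f k8 k4 1 (.q k78 [(.s k14 k13 0 (.s k142 k206 7 (.s k77 k207 8 (.s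
  k204 k141 8 (.d k76 k79 k140 0 7))))), (.s k204 k141 8 (.s k136 k68 9 (.s k72 k200 7 (.s k132 k192
  9 (.d k140 k128 k76 1 7))))), (.s k14 k13 0 (.s k142 k206 7 (.s k207 k77 8 (.s k138 k69 10 (.s k73
  k203 8 (.d k134 k130 k195 1 10))))))] (.c k141 (.q k142 [(.d k14 k13 k206 0 7), (.s k207 k77 8 (.s
  k138 k69 10 (.s k73 k203 8 (.d k134 k130 k195 1 10))))] (.c k13 (.l (.s k206 k14 7 (.s k207 k77 8
  (.s k205 k204 0 (.s k138 k69 10 (.s k73 k203 8 (.d k134 k130 k195 1 10))))))) (.c k170 (.q k250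
  [(.d k14 k13 k206 0 7), (.s k207 k77 8 (.s k138 k69 10 (.s k73 k203 8 (.d k134 k130 k195 1 10))))]
  (.c k13 (.l (.s k206 k14 7 (.s k207 k77 8 (.s k205 k204 0 (.s k138 k69 10 (.s k73 k203 8 (.d k134
  k130 k195 1 10))))))) (.c k34 (.q k238 [(.d k14 k13 k206 0 7), (.s k207 k77 8 (.s k138 k69 10 (.s
  k73 k203 8 (.d k134 k130 k195 1 10))))] (.c k13 (.l (.s k206 k14 7 (.s k207 k77 8 (.s k205 k204 0
  (.s k138 k69 10 (.s k73 k203 8 (.d k134 k130 k195 1 10))))))) .n)) (.c k238 (.q k34 [(.d k14 k13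
  k206 0 7), (.s k207 k77 8 (.s k138 k69 10 (.s k73 k203 8 (.d k134 k130 k195 1 10))))] (.c k13 (.l
  (.s k51 k17 4 (.s k38 k25 6 (.s k14 k206 7 (.s k39 k27 5 (.s k37 k36 0 (.d k26 k50 k48 5 6)))))))
  .n)) .n)))) (.c k250 (.q k170 [(.d k14 k13 k206 0 7), (.s k85 k255 14 (.s k89 k251 12 (.s k81 k93
  1 (.d k243 k162 k166 12 14))))] .n) .n)))) (.c k170 (.q k250 [(.s k14 k13 0 (.s k142 k206 7 (.s
  k77 k207 8 (.s k204 k141 8 (.d k76 k79 k140 0 7))))), (.s k204 k141 8 (.s k136 k68 9 (.s k72 k200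
  7 (.s k132 k192 9 (.d k140 k128 k76 1 7))))), (.s k14 k13 0 (.s k142 k206 7 (.s k207 k77 8 (.s
  k138 k69 10 (.s k73 k203 8 (.d k134 k130 k195 1 10))))))] (.c k34 (.q k238 [(.s k14 k13 0 (.s k142
  k206 7 (.s k77 k207 8 (.s k204 k141 8 (.d k76 k79 k140 0 7))))), (.s k204 k141 8 (.s k136 k68 9
  (.s k72 k200 7 (.s k132 k192 9 (.d k140 k128 k76 1 7))))), (.s k14 k13 0 (.s k142 k206 7 (.s k207
  k77 8 (.s k138 k69 10 (.s k73 k203 8 (.d k134 k130 k195 1 10))))))] (.c k141 (.q k142 [(.d k14 k13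
  k206 0 7), (.s k207 k77 8 (.s k138 k69 10 (.s k73 k203 8 (.d k134 k130 k195 1 10))))] (.c k13 (.l
  (.s k206 k14 7 (.s k207 k77 8 (.s k205 k204 0 (.s k138 k69 10 (.s k73 k203 8 (.d k134 k130 k195 1
  10))))))) .n)) .n)) (.c k141 (.q k142 [(.d k14 k13 k206 0 7), (.s k207 k77 8 (.s k138 k69 10 (.s
  k73 k203 8 (.d k134 k130 k195 1 10))))] (.c k13 (.l (.s k206 k14 7 (.s k207 k77 8 (.s k205 k204 0
  (.s k138 k69 10 (.s k73 k203 8 (.d k134 k130 k195 1 10))))))) (.c k34 (.q k238 [(.d k14 k13 k206 0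
  7), (.s k207 k77 8 (.s k138 k69 10 (.s k73 k203 8 (.d k134 k130 k195 1 10))))] (.c k13 (.l (.s
  k206 k14 7 (.s k207 k77 8 (.s k205 k204 0 (.s k138 k69 10 (.s k73 k203 8 (.d k134 k130 k195 1
  10))))))) .n)) (.c k238 (.q k34 [(.d k14 k13 k206 0 7), (.s k207 k77 8 (.s k138 k69 10 (.s k73
  k203 8 (.d k134 k130 k195 1 10))))] (.c k13 (.l (.s k51 k17 4 (.s k38 k25 6 (.s k14 k206 7 (.s k39
  k27 5 (.s k37 k36 0 (.d k26 k50 k48 5 6))))))) .n)) .n)))) (.c k238 (.q k34 [(.s k204 k141 8 (.s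
  k136 k68 9 (.s k72 k200 7 (.s k132 k192 9 (.d k140 k128 k76 1 7))))), (.s k51 k17 4 (.s k13 k14 0
  (.s k25 k38 6 (.s k37 k49 5 (.s k26 k48 6 (.d k27 k24 k39 0 5))))))] .n) .n)))) (.c k250 (.q k170
  [(.s k85 k255 14 (.s k89 k251 12 (.s k81 k93 1 (.d k243 k162 k166 12 14)))), (.s k14 k13 0 (.s
  k142 k206 7 (.s k77 k207 8 (.s k204 k141 8 (.d k76 k79 k140 0 7)))))] .n) .n))))) (.c k11 (.l (.s
  k4 k8 1 (.s k13 k14 0 (.s k5 k10 2 (.s k9 k1 1 (.d k6 k7 k3 0 2)))))) (.c k13 (.f k8 k4 1 (.q k192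
  [(.s k64 k128 7 (.s k72 k132 9 (.s k136 k200 7 (.d k68 k76 k204 1 9)))), (.s k5 k10 2 (.s k128 k64
  7 (.s k133 k74 10 (.s k69 k197 7 (.d k138 k143 k207 2 10))))), (.s k10 k5 2 (.s k72 k132 9 (.s k74
  k133 10 (.s k138 k202 7 (.d k73 k75 k203 0 8)))))] (.c k78 (.q k114 [(.s k64 k128 7 (.s k72 k132 9
  (.s k136 k200 7 (.d k68 k76 k204 1 9)))), (.s k5 k10 2 (.s k128 k64 7 (.s k133 k74 10 (.s k69 k197
  7 (.d k138 k143 k207 2 10))))), (.s k10 k5 2 (.s k72 k132 9 (.s k74 k133 10 (.s k138 k202 7 (.d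
  k73 k75 k203 0 8)))))] .n) (.c k114 (.q k78 [(.s k72 k132 9 (.s k136 k200 7 (.d k204 k68 k141 9
  8))), (.s k5 k10 2 (.s k128 k64 7 (.s k133 k74 10 (.s k69 k197 7 (.d k138 k143 k207 2 10)))))] .n)
  .n)))) (.c k14 (.f k10 k5 2 (.q k26 [(.s k42 k58 3 (.s k21 k63 6 (.s k48 k37 6 (.d k16 k31 k32 2
  3)))), (.s k8 k4 1 (.s k11 k9 0 (.s k56 k41 4 (.s k24 k40 3 (.d k48 k36 k37 5 6))))), (.s k8 k4 1
  (.s k42 k58 3 (.s k25 k59 4 (.s k51 k38 6 (.d k27 k24 k39 0 5)))))] (.c k42 (.l (.s k8 k4 1 (.s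
  k11 k9 0 (.s k56 k41 4 (.s k48 k37 6 (.d k24 k40 k36 3 5)))))) (.c k78 (.q k114 [(.s k42 k58 3 (.s
  k21 k63 6 (.s k48 k37 6 (.d k16 k31 k32 2 3)))), (.s k8 k4 1 (.s k11 k9 0 (.s k56 k41 4 (.s k24
  k40 3 (.d k48 k36 k37 5 6))))), (.s k8 k4 1 (.s k42 k58 3 (.s k25 k59 4 (.s k51 k38 6 (.d k27 k24
  k39 0 5)))))] (.c k42 (.l (.s k8 k4 1 (.s k11 k9 0 (.s k56 k41 4 (.s k48 k37 6 (.d k24 k40 k36 3
  5)))))) (.c k142 (.q k206 [(.s k42 k58 3 (.s k21 k63 6 (.s k48 k37 6 (.d k16 k31 k32 2 3)))), (.s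
  k8 k4 1 (.s k11 k9 0 (.s k56 k41 4 (.s k24 k40 3 (.d k48 k36 k37 5 6))))), (.s k8 k4 1 (.s k42 k58
  3 (.s k25 k59 4 (.s k51 k38 6 (.d k27 k24 k39 0 5)))))] (.c k42 (.l (.s k8 k4 1 (.s k11 k9 0 (.s
  k56 k41 4 (.s k48 k37 6 (.d k24 k40 k36 3 5)))))) (.c k166 (.q k242 [(.s k42 k58 3 (.s k21 k63 6
  (.s k48 k37 6 (.d k16 k31 k32 2 3)))), (.s k8 k4 1 (.s k42 k58 3 (.s k25 k59 4 (.s k27 k24 0 (.d
  k51 k38 k39 6 5))))), (.s k8 k4 1 (.s k11 k9 0 (.s k56 k41 4 (.s k48 k37 6 (.d k24 k40 k36 3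
  5)))))] (.c k38 (.l (.s k230 k218 5 (.s k42 k58 3 (.s k21 k63 6 (.s k48 k37 6 (.d k16 k31 k32 2
  3)))))) (.c k154 (.l (.s k178 k50 7 (.s k42 k58 3 (.s k21 k63 6 (.s k48 k37 6 (.d k16 k31 k32 2
  3)))))) (.c k178 (.q k154 [(.s k42 k58 3 (.s k21 k63 6 (.s k48 k37 6 (.d k16 k31 k32 2 3)))), (.s
  k8 k4 1 (.s k42 k58 3 (.s k25 k59 4 (.s k27 k24 0 (.d k51 k38 k39 6 5))))), (.s k8 k4 1 (.s k11 k9
  0 (.s k56 k41 4 (.s k48 k37 6 (.d k24 k40 k36 3 5)))))] (.c k38 (.l (.s k230 k218 5 (.s k42 k58 3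
  (.s k21 k63 6 (.s k48 k37 6 (.d k16 k31 k32 2 3)))))) (.c k230 (.q k38 [(.s k4 k8 1 (.s k42 k58 3
  (.d k21 k55 k63 4 6))), (.s k25 k51 6 (.s k48 k37 6 (.d k24 k27 k36 0 5)))] (.c k21 (.l (.s k8 k4
  1 (.s k42 k58 3 (.d k25 k59 k51 4 6)))) .n)) .n))) (.c k230 (.q k38 [(.s k4 k8 1 (.s k42 k58 3 (.d
  k21 k55 k63 4 6))), (.s k25 k51 6 (.s k48 k37 6 (.d k24 k27 k36 0 5)))] (.c k21 (.l (.s k8 k4 1
  (.s k42 k58 3 (.d k25 k59 k51 4 6)))) (.c k154 (.l (.s k178 k50 7 (.s k4 k8 1 (.s k21 k55 4 (.d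
  k42 k58 k63 3 6))))) (.c k178 (.q k154 [(.s k4 k8 1 (.s k42 k58 3 (.d k21 k55 k63 4 6))), (.s k25
  k51 6 (.s k48 k37 6 (.d k24 k27 k36 0 5)))] (.c k21 (.l (.s k8 k4 1 (.s k42 k58 3 (.d k25 k59 k51
  4 6)))) .n)) .n)))) .n))))) (.c k242 (.q k166 [(.s k42 k58 3 (.s k21 k63 6 (.s k48 k37 6 (.d k16
  k31 k32 2 3)))), (.s k4 k8 1 (.s k85 k247 12 (.s k170 k255 14 (.s k243 k89 14 (.d k162 k174 k81 1
  12)))))] .n) .n)))) (.c k166 (.q k242 [(.s k42 k58 3 (.s k21 k63 6 (.s k48 k37 6 (.d k16 k31 k32 2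
  3)))), (.s k8 k4 1 (.s k42 k58 3 (.s k25 k59 4 (.s k27 k24 0 (.d k51 k38 k39 6 5))))), (.s k8 k4 1
  (.s k11 k9 0 (.s k56 k41 4 (.s k48 k37 6 (.d k24 k40 k36 3 5)))))] (.c k38 (.q k230 [(.s k42 k58 3
  (.s k21 k63 6 (.s k48 k37 6 (.d k16 k31 k32 2 3)))), (.s k58 k42 3 (.s k50 k178 7 (.s k62 k54 1
  (.s k122 k182 9 (.s k186 k250 7 (.d k118 k126 k254 1 9)))))), (.s k8 k4 1 (.s k11 k9 0 (.s k56 k41
  4 (.s k48 k37 6 (.d k24 k36 k40 5 3)))))] (.c k142 (.l (.s k206 k218 5 (.s k42 k58 3 (.s k21 k63 6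
  (.s k48 k37 6 (.d k16 k31 k32 2 3)))))) (.c k206 (.q k142 [(.s k42 k58 3 (.s k21 k63 6 (.s k48 k37
  6 (.d k16 k31 k32 2 3)))), (.s k207 k77 8 (.s k138 k69 10 (.s k74 k202 7 (.s k133 k192 10 (.d k143
  k79 k128 7 2)))))] (.c k50 (.q k154 [(.s k207 k77 8 (.d k48 k37 k101 6 14)), (.s k42 k58 3 (.s k21
  k63 6 (.s k48 k37 6 (.d k16 k31 k32 2 3)))), (.s k58 k42 3 (.s k207 k77 8 (.s k138 k69 10 (.d k202
  k74 k106 7 11))))] .n) (.c k154 (.l (.s k50 k178 7 (.s k42 k58 3 (.s k21 k63 6 (.s k48 k37 6 (.d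
  k16 k31 k32 2 3)))))) .n))) .n))) (.c k142 (.q k206 [(.s k42 k58 3 (.s k21 k63 6 (.s k48 k37 6 (.d
  k16 k31 k32 2 3)))), (.s k8 k4 1 (.s k42 k58 3 (.s k25 k59 4 (.s k27 k24 0 (.d k51 k38 k39 6
  5))))), (.s k8 k4 1 (.s k11 k9 0 (.s k56 k41 4 (.s k48 k37 6 (.d k24 k40 k36 3 5)))))] (.c k38 (.l
  (.s k230 k218 5 (.s k42 k58 3 (.s k21 k63 6 (.s k48 k37 6 (.d k16 k31 k32 2 3)))))) (.c k154 (.l
  (.s k178 k50 7 (.s k42 k58 3 (.s k21 k63 6 (.s k48 k37 6 (.d k16 k31 k32 2 3)))))) (.c k178 (.q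
  k154 [(.s k42 k58 3 (.s k21 k63 6 (.s k48 k37 6 (.d k16 k31 k32 2 3)))), (.s k8 k4 1 (.s k42 k58 3
  (.s k25 k59 4 (.s k27 k24 0 (.d k51 k38 k39 6 5))))), (.s k8 k4 1 (.s k11 k9 0 (.s k56 k41 4 (.s
  k48 k37 6 (.d k24 k40 k36 3 5)))))] (.c k38 (.l (.s k230 k218 5 (.s k42 k58 3 (.s k21 k63 6 (.s
  k48 k37 6 (.d k16 k31 k32 2 3)))))) (.c k230 (.q k38 [(.s k4 k8 1 (.s k42 k58 3 (.d k21 k55 k63 4
  6))), (.s k25 k51 6 (.s k48 k37 6 (.d k24 k27 k36 0 5)))] (.c k21 (.l (.s k8 k4 1 (.s k42 k58 3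
  (.d k25 k59 k51 4 6)))) .n)) .n))) (.c k230 (.q k38 [(.s k4 k8 1 (.s k42 k58 3 (.d k21 k55 k63 4
  6))), (.s k25 k51 6 (.s k48 k37 6 (.d k24 k27 k36 0 5)))] (.c k21 (.l (.s k8 k4 1 (.s k42 k58 3
  (.d k25 k59 k51 4 6)))) (.c k154 (.l (.s k178 k50 7 (.s k4 k8 1 (.s k21 k55 4 (.d k42 k58 k63 3
  6))))) (.c k178 (.q k154 [(.s k4 k8 1 (.s k42 k58 3 (.d k21 k55 k63 4 6))), (.s k25 k51 6 (.s k48
  k37 6 (.d k24 k27 k36 0 5)))] (.c k21 (.l (.s k8 k4 1 (.s k42 k58 3 (.d k25 k59 k51 4 6)))) .n))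
  .n)))) .n))))) (.c k206 (.q k142 [(.s k42 k58 3 (.s k21 k63 6 (.s k48 k37 6 (.d k16 k31 k32 2
  3)))), (.s k8 k4 1 (.s k42 k58 3 (.s k25 k59 4 (.s k27 k24 0 (.d k51 k38 k39 6 5))))), (.s k8 k4 1
  (.s k11 k9 0 (.s k56 k41 4 (.s k48 k37 6 (.d k24 k40 k36 3 5)))))] (.c k38 (.q k230 [(.s k42 k58 3
  (.s k21 k63 6 (.s k48 k37 6 (.d k16 k31 k32 2 3)))), (.s k207 k77 8 (.s k138 k69 10 (.s k74 k202 7
  (.s k133 k192 10 (.d k143 k79 k128 7 2)))))] (.c k50 (.q k154 [(.s k207 k77 8 (.d k48 k37 k101 6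
  14)), (.s k42 k58 3 (.s k21 k63 6 (.s k48 k37 6 (.d k16 k31 k32 2 3)))), (.s k58 k42 3 (.s k207
  k77 8 (.s k138 k69 10 (.d k202 k74 k106 7 11))))] .n) (.c k154 (.l (.s k50 k178 7 (.s k42 k58 3
  (.s k21 k63 6 (.s k48 k37 6 (.d k16 k31 k32 2 3)))))) .n))) (.c k50 (.q k154 [(.s k207 k77 8 (.d
  k48 k37 k101 6 14)), (.s k42 k58 3 (.s k21 k63 6 (.s k48 k37 6 (.d k16 k31 k32 2 3)))), (.s k58
  k42 3 (.s k207 k77 8 (.s k138 k69 10 (.d k202 k74 k106 7 11))))] (.c k38 (.q k230 [(.s k207 k77 8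
  (.d k48 k37 k101 6 14)), (.s k42 k58 3 (.s k21 k63 6 (.s k48 k37 6 (.d k16 k31 k32 2 3)))), (.s
  k58 k42 3 (.s k207 k77 8 (.s k138 k69 10 (.d k202 k74 k106 7 11))))] .n) (.c k230 (.q k38 [(.s
  k207 k77 8 (.d k48 k37 k101 6 14)), (.s k4 k8 1 (.s k21 k55 4 (.d k42 k58 k63 3 6)))] .n) .n)))
  (.c k154 (.l (.s k50 k178 7 (.s k42 k58 3 (.s k21 k63 6 (.s k48 k37 6 (.d k16 k31 k32 2 3))))))
  (.c k230 (.q k38 [(.s k50 k178 7 (.s k51 k25 6 (.d k48 k49 k37 0 6))), (.s k4 k8 1 (.s k21 k55 4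
  (.d k42 k58 k63 3 6)))] (.c k50 (.q k154 [(.s k207 k77 8 (.d k48 k37 k101 6 14)), (.s k4 k8 1 (.s
  k21 k55 4 (.d k42 k58 k63 3 6)))] .n) (.c k154 (.l (.s k50 k178 7 (.s k51 k25 6 (.d k48 k49 k37 0
  6)))) .n))) .n))))) (.c k230 (.q k38 [(.s k4 k8 1 (.s k42 k58 3 (.d k21 k55 k63 4 6))), (.s k25
  k51 6 (.s k48 k37 6 (.d k24 k27 k36 0 5)))] (.c k21 (.l (.s k8 k4 1 (.s k42 k58 3 (.d k25 k59 k51
  4 6)))) (.c k142 (.q k206 [(.s k4 k8 1 (.s k42 k58 3 (.d k21 k55 k63 4 6))), (.s k25 k51 6 (.s k48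
  k37 6 (.d k24 k27 k36 0 5)))] (.c k21 (.l (.s k8 k4 1 (.s k42 k58 3 (.d k25 k59 k51 4 6)))) (.c
  k154 (.l (.s k178 k50 7 (.s k4 k8 1 (.s k21 k55 4 (.d k42 k58 k63 3 6))))) (.c k178 (.q k154 [(.s
  k4 k8 1 (.s k42 k58 3 (.d k21 k55 k63 4 6))), (.s k25 k51 6 (.s k48 k37 6 (.d k24 k27 k36 0 5)))]
  (.c k21 (.l (.s k8 k4 1 (.s k42 k58 3 (.d k25 k59 k51 4 6)))) .n)) .n)))) (.c k206 (.q k142 [(.s
  k50 k178 7 (.s k51 k25 6 (.d k48 k49 k37 0 6))), (.s k4 k8 1 (.s k21 k55 4 (.d k42 k58 k63 3 6)))]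
  (.c k50 (.q k154 [(.s k207 k77 8 (.d k48 k37 k101 6 14)), (.s k4 k8 1 (.s k21 k55 4 (.d k42 k58
  k63 3 6)))] .n) (.c k154 (.l (.s k50 k178 7 (.s k51 k25 6 (.d k48 k49 k37 0 6)))) .n))) .n))))
  .n))))) (.c k206 (.q k142 [(.s k42 k58 3 (.s k21 k63 6 (.s k48 k37 6 (.d k16 k31 k32 2 3)))), (.s
  k8 k4 1 (.s k11 k9 0 (.s k56 k41 4 (.s k24 k40 3 (.d k48 k36 k37 5 6))))), (.s k8 k4 1 (.s k42 k58
  3 (.s k25 k59 4 (.s k51 k38 6 (.d k27 k24 k39 0 5)))))] (.c k42 (.l (.s k8 k4 1 (.s k11 k9 0 (.s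
  k56 k41 4 (.s k48 k37 6 (.d k24 k40 k36 3 5)))))) (.c k50 (.q k154 [(.s k207 k77 8 (.d k48 k37
  k101 6 14)), (.s k42 k58 3 (.s k21 k63 6 (.s k48 k37 6 (.d k16 k31 k32 2 3)))), (.s k58 k42 3 (.s
  k207 k77 8 (.s k138 k69 10 (.d k202 k74 k106 7 11))))] (.c k166 (.q k242 [(.s k207 k77 8 (.d k48
  k37 k101 6 14)), (.s k42 k58 3 (.s k21 k63 6 (.s k48 k37 6 (.d k16 k31 k32 2 3)))), (.s k58 k42 3
  (.s k207 k77 8 (.s k138 k69 10 (.d k202 k74 k106 7 11))))] (.c k38 (.q k230 [(.s k207 k77 8 (.d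
  k48 k37 k101 6 14)), (.s k42 k58 3 (.s k21 k63 6 (.s k48 k37 6 (.d k16 k31 k32 2 3)))), (.s k58
  k42 3 (.s k207 k77 8 (.s k138 k69 10 (.d k202 k74 k106 7 11))))] .n) (.c k230 (.q k38 [(.s k207
  k77 8 (.d k48 k37 k101 6 14)), (.s k4 k8 1 (.s k21 k55 4 (.d k42 k58 k63 3 6)))] .n) .n))) (.c
  k242 (.l (.s k166 k178 5 (.s k207 k77 8 (.d k48 k37 k101 6 14)))) .n))) (.c k154 (.q k50 [(.s k42
  k58 3 (.s k21 k63 6 (.s k48 k37 6 (.d k16 k31 k32 2 3)))), (.s k8 k4 1 (.s k11 k9 0 (.s k56 k41 4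
  (.s k24 k40 3 (.d k48 k36 k37 5 6))))), (.s k8 k4 1 (.s k42 k58 3 (.s k25 k59 4 (.s k51 k38 6 (.d
  k27 k24 k39 0 5)))))] (.c k42 (.l (.s k48 k37 6 (.s k24 k36 5 (.s k25 k27 0 (.d k51 k38 k49 6
  0))))) (.c k166 (.l (.s k242 k178 7 (.s k42 k58 3 (.s k21 k63 6 (.s k48 k37 6 (.d k16 k31 k32 2
  3)))))) (.c k242 (.q k166 [(.s k42 k58 3 (.s k21 k63 6 (.s k48 k37 6 (.d k16 k31 k32 2 3)))), (.s
  k4 k8 1 (.s k85 k247 12 (.s k170 k255 14 (.s k243 k89 14 (.d k162 k174 k81 1 12)))))] (.c k218 (.q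
  k230 [(.s k42 k58 3 (.s k21 k63 6 (.s k48 k37 6 (.d k16 k31 k32 2 3)))), (.s k4 k8 1 (.s k85 k247
  12 (.s k170 k255 14 (.s k243 k89 14 (.d k162 k174 k81 1 12)))))] .n) (.c k230 (.q k218 [(.s k42
  k58 3 (.s k21 k63 6 (.s k48 k37 6 (.d k16 k31 k32 2 3)))), (.s k4 k8 1 (.s k85 k247 12 (.s k170
  k255 14 (.s k243 k89 14 (.d k162 k174 k81 1 12)))))] .n) .n))) .n)))) (.c k166 (.q k242 [(.s k42
  k58 3 (.s k21 k63 6 (.s k48 k37 6 (.d k16 k31 k32 2 3)))), (.s k8 k4 1 (.s k42 k58 3 (.s k25 k59 4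
  (.s k27 k24 0 (.d k51 k38 k39 6 5))))), (.s k8 k4 1 (.s k11 k9 0 (.s k56 k41 4 (.s k48 k37 6 (.d
  k24 k40 k36 3 5)))))] (.c k38 (.q k230 [(.s k42 k58 3 (.s k21 k63 6 (.s k48 k37 6 (.d k16 k31 k32
  2 3)))), (.s k207 k77 8 (.s k138 k69 10 (.s k74 k202 7 (.s k133 k192 10 (.d k143 k79 k128 7
  2)))))] (.c k50 (.q k154 [(.s k207 k77 8 (.d k48 k37 k101 6 14)), (.s k42 k58 3 (.s k21 k63 6 (.s
  k48 k37 6 (.d k16 k31 k32 2 3)))), (.s k58 k42 3 (.s k207 k77 8 (.s k138 k69 10 (.d k202 k74 k106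
  7 11))))] .n) (.c k154 (.l (.s k50 k178 7 (.s k42 k58 3 (.s k21 k63 6 (.s k48 k37 6 (.d k16 k31
  k32 2 3)))))) .n))) (.c k50 (.q k154 [(.s k207 k77 8 (.d k48 k37 k101 6 14)), (.s k42 k58 3 (.s
  k21 k63 6 (.s k48 k37 6 (.d k16 k31 k32 2 3)))), (.s k58 k42 3 (.s k207 k77 8 (.s k138 k69 10 (.d
  k202 k74 k106 7 11))))] (.c k38 (.q k230 [(.s k207 k77 8 (.d k48 k37 k101 6 14)), (.s k42 k58 3
  (.s k21 k63 6 (.s k48 k37 6 (.d k16 k31 k32 2 3)))), (.s k58 k42 3 (.s k207 k77 8 (.s k138 k69 10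
  (.d k202 k74 k106 7 11))))] .n) (.c k230 (.q k38 [(.s k207 k77 8 (.d k48 k37 k101 6 14)), (.s k4
  k8 1 (.s k21 k55 4 (.d k42 k58 k63 3 6)))] .n) .n))) (.c k154 (.l (.s k50 k178 7 (.s k42 k58 3 (.s
  k21 k63 6 (.s k48 k37 6 (.d k16 k31 k32 2 3)))))) (.c k230 (.q k38 [(.s k50 k178 7 (.s k51 k25 6
  (.d k48 k49 k37 0 6))), (.s k4 k8 1 (.s k21 k55 4 (.d k42 k58 k63 3 6)))] (.c k50 (.q k154 [(.s
  k207 k77 8 (.d k48 k37 k101 6 14)), (.s k4 k8 1 (.s k21 k55 4 (.d k42 k58 k63 3 6)))] .n) (.c k154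
  (.l (.s k50 k178 7 (.s k51 k25 6 (.d k48 k49 k37 0 6)))) .n))) .n))))) (.c k242 (.q k166 [(.s k207
  k77 8 (.s k154 k178 5 (.d k48 k37 k101 6 14))), (.s k4 k8 1 (.s k85 k247 12 (.s k170 k255 14 (.s
  k243 k89 14 (.d k162 k174 k81 1 12)))))] (.c k50 (.l (.s k154 k178 5 (.s k207 k77 8 (.d k48 k37
  k101 6 14)))) (.c k76 (.l (.s k48 k37 6 (.s k154 k178 5 (.d k207 k77 k101 8 14)))) (.c k154 (.q
  k50 [(.s k42 k58 3 (.s k21 k63 6 (.s k48 k37 6 (.d k16 k31 k32 2 3)))), (.s k4 k8 1 (.s k85 k247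
  12 (.s k170 k255 14 (.s k243 k89 14 (.d k162 k174 k81 1 12)))))] (.c k218 (.q k230 [(.s k42 k58 3
  (.s k21 k63 6 (.s k48 k37 6 (.d k16 k31 k32 2 3)))), (.s k4 k8 1 (.s k85 k247 12 (.s k170 k255 14
  (.s k243 k89 14 (.d k162 k174 k81 1 12)))))] .n) (.c k230 (.q k218 [(.s k42 k58 3 (.s k21 k63 6
  (.s k48 k37 6 (.d k16 k31 k32 2 3)))), (.s k4 k8 1 (.s k85 k247 12 (.s k170 k255 14 (.s k243 k89
  14 (.d k162 k174 k81 1 12)))))] .n) .n))) (.c k218 (.q k230 [(.s k207 k77 8 (.s k154 k178 5 (.d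
  k48 k37 k101 6 14))), (.s k4 k8 1 (.s k85 k247 12 (.s k170 k255 14 (.s k243 k89 14 (.d k162 k174
  k81 1 12)))))] (.c k50 (.l (.s k154 k178 5 (.s k207 k77 8 (.d k48 k37 k101 6 14)))) (.c k76 (.l
  (.s k48 k37 6 (.s k154 k178 5 (.d k207 k77 k101 8 14)))) (.c k154 (.q k50 [(.s k42 k58 3 (.s k21
  k63 6 (.s k48 k37 6 (.d k16 k31 k32 2 3)))), (.s k4 k8 1 (.s k85 k247 12 (.s k170 k255 14 (.s k243
  k89 14 (.d k162 k174 k81 1 12)))))] .n) .n)))) (.c k230 (.q k218 [(.s k207 k77 8 (.s k154 k178 5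
  (.d k48 k37 k101 6 14))), (.s k4 k8 1 (.s k85 k247 12 (.s k170 k255 14 (.s k243 k89 14 (.d k162
  k174 k81 1 12)))))] (.c k50 (.l (.s k154 k178 5 (.s k207 k77 8 (.d k48 k37 k101 6 14)))) (.c k76
  (.l (.s k48 k37 6 (.s k154 k178 5 (.d k207 k77 k101 8 14)))) (.c k154 (.q k50 [(.s k42 k58 3 (.s
  k21 k63 6 (.s k48 k37 6 (.d k16 k31 k32 2 3)))), (.s k4 k8 1 (.s k85 k247 12 (.s k170 k255 14 (.s
  k243 k89 14 (.d k162 k174 k81 1 12)))))] .n) .n)))) .n)))))) .n)))))) (.c k242 (.q k166 [(.s k42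
  k58 3 (.s k21 k63 6 (.s k48 k37 6 (.d k16 k31 k32 2 3)))), (.s k4 k8 1 (.s k85 k247 12 (.s k170
  k255 14 (.s k243 k89 14 (.d k162 k174 k81 1 12)))))] (.c k142 (.q k206 [(.s k42 k58 3 (.s k21 k63
  6 (.s k48 k37 6 (.d k16 k31 k32 2 3)))), (.s k4 k8 1 (.s k85 k247 12 (.s k170 k255 14 (.s k243 k89
  14 (.d k162 k174 k81 1 12)))))] .n) (.c k206 (.q k142 [(.s k207 k77 8 (.s k154 k178 5 (.d k48 k37
  k101 6 14))), (.s k4 k8 1 (.s k85 k247 12 (.s k170 k255 14 (.s k243 k89 14 (.d k162 k174 k81 1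
  12)))))] (.c k50 (.l (.s k154 k178 5 (.s k207 k77 8 (.d k48 k37 k101 6 14)))) (.c k76 (.l (.s k48
  k37 6 (.s k154 k178 5 (.d k207 k77 k101 8 14)))) (.c k154 (.q k50 [(.s k42 k58 3 (.s k21 k63 6 (.s
  k48 k37 6 (.d k16 k31 k32 2 3)))), (.s k4 k8 1 (.s k85 k247 12 (.s k170 k255 14 (.s k243 k89 14
  (.d k162 k174 k81 1 12)))))] (.c k218 (.q k230 [(.s k42 k58 3 (.s k21 k63 6 (.s k48 k37 6 (.d k16
  k31 k32 2 3)))), (.s k4 k8 1 (.s k85 k247 12 (.s k170 k255 14 (.s k243 k89 14 (.d k162 k174 k81 1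
  12)))))] .n) (.c k230 (.q k218 [(.s k42 k58 3 (.s k21 k63 6 (.s k48 k37 6 (.d k16 k31 k32 2 3)))),
  (.s k4 k8 1 (.s k85 k247 12 (.s k170 k255 14 (.s k243 k89 14 (.d k162 k174 k81 1 12)))))] .n)
  .n))) (.c k218 (.q k230 [(.s k207 k77 8 (.s k154 k178 5 (.d k48 k37 k101 6 14))), (.s k4 k8 1 (.s
  k85 k247 12 (.s k170 k255 14 (.s k243 k89 14 (.d k162 k174 k81 1 12)))))] (.c k50 (.l (.s k154
  k178 5 (.s k207 k77 8 (.d k48 k37 k101 6 14)))) (.c k76 (.l (.s k48 k37 6 (.s k154 k178 5 (.d k207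
  k77 k101 8 14)))) (.c k154 (.q k50 [(.s k42 k58 3 (.s k21 k63 6 (.s k48 k37 6 (.d k16 k31 k32 2
  3)))), (.s k4 k8 1 (.s k85 k247 12 (.s k170 k255 14 (.s k243 k89 14 (.d k162 k174 k81 1 12)))))]
  .n) .n)))) (.c k230 (.q k218 [(.s k207 k77 8 (.s k154 k178 5 (.d k48 k37 k101 6 14))), (.s k4 k8 1
  (.s k85 k247 12 (.s k170 k255 14 (.s k243 k89 14 (.d k162 k174 k81 1 12)))))] (.c k50 (.l (.s k154
  k178 5 (.s k207 k77 8 (.d k48 k37 k101 6 14)))) (.c k76 (.l (.s k48 k37 6 (.s k154 k178 5 (.d k207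
  k77 k101 8 14)))) (.c k154 (.q k50 [(.s k42 k58 3 (.s k21 k63 6 (.s k48 k37 6 (.d k16 k31 k32 2
  3)))), (.s k4 k8 1 (.s k85 k247 12 (.s k170 k255 14 (.s k243 k89 14 (.d k162 k174 k81 1 12)))))]
  .n) .n)))) .n)))))) .n))) .n)))))) (.c k114 (.q k78 [(.s k42 k58 3 (.s k21 k63 6 (.s k48 k37 6 (.d
  k16 k31 k32 2 3)))), (.s k8 k4 1 (.s k11 k9 0 (.s k56 k41 4 (.s k24 k40 3 (.d k48 k36 k37 5
  6))))), (.s k8 k4 1 (.s k42 k58 3 (.s k25 k59 4 (.s k51 k38 6 (.d k27 k24 k39 0 5)))))] (.c k42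
  (.l (.s k8 k4 1 (.s k11 k9 0 (.s k56 k41 4 (.s k48 k37 6 (.d k24 k40 k36 3 5)))))) (.c k166 (.q
  k242 [(.s k42 k58 3 (.s k21 k63 6 (.s k48 k37 6 (.d k16 k31 k32 2 3)))), (.s k8 k4 1 (.s k42 k58 3
  (.s k25 k59 4 (.s k27 k24 0 (.d k51 k38 k39 6 5))))), (.s k8 k4 1 (.s k11 k9 0 (.s k56 k41 4 (.s
  k48 k37 6 (.d k24 k40 k36 3 5)))))] (.c k38 (.q k230 [(.s k42 k58 3 (.s k21 k63 6 (.s k48 k37 6
  (.d k16 k31 k32 2 3)))), (.s k204 k141 8 (.s k76 k140 7 (.s k77 k79 0 (.s k206 k218 5 (.d k207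
  k142 k205 8 0)))))] .n) (.c k230 (.q k38 [(.s k4 k8 1 (.s k42 k58 3 (.d k21 k55 k63 4 6))), (.s
  k25 k51 6 (.s k48 k37 6 (.d k24 k27 k36 0 5)))] (.c k21 (.l (.s k8 k4 1 (.s k42 k58 3 (.d k25 k59
  k51 4 6)))) .n)) .n))) (.c k242 (.q k166 [(.s k42 k58 3 (.s k21 k63 6 (.s k48 k37 6 (.d k16 k31
  k32 2 3)))), (.s k4 k8 1 (.s k85 k247 12 (.s k170 k255 14 (.s k243 k89 14 (.d k162 k174 k81 1
  12)))))] (.c k50 (.q k178 [(.s k48 k37 6 (.d k243 k113 k89 8 14)), (.s k204 k141 8 (.s k76 k140 7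
  (.s k77 k79 0 (.d k142 k154 k207 5 8))))] (.c k154 (.q k206 [(.s k48 k37 6 (.d k243 k113 k89 8
  14)), (.s k204 k141 8 (.s k76 k140 7 (.s k77 k79 0 (.d k207 k142 k205 8 0))))] .n) (.c k206 (.l
  (.s k154 k142 5 (.s k243 k89 14 (.d k48 k37 k113 6 8)))) .n))) (.c k178 (.q k50 [(.s k42 k58 3 (.s
  k21 k63 6 (.s k48 k37 6 (.d k16 k31 k32 2 3)))), (.s k4 k8 1 (.s k85 k247 12 (.s k170 k255 14 (.s
  k243 k89 14 (.d k162 k174 k81 1 12)))))] .n) .n))) .n)))) (.c k166 (.q k242 [(.s k42 k58 3 (.s k21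
  k63 6 (.s k48 k37 6 (.d k16 k31 k32 2 3)))), (.s k8 k4 1 (.s k42 k58 3 (.s k25 k59 4 (.s k27 k24 0
  (.d k51 k38 k39 6 5))))), (.s k8 k4 1 (.s k11 k9 0 (.s k56 k41 4 (.s k48 k37 6 (.d k24 k40 k36 3
  5)))))] (.c k38 (.q k230 [(.s k42 k58 3 (.s k21 k63 6 (.s k48 k37 6 (.d k16 k31 k32 2 3)))), (.s
  k8 k4 1 (.s k11 k9 0 (.s k42 k58 3 (.s k25 k59 4 (.s k56 k41 4 (.d k24 k27 k40 0 3)))))), (.s k8
  k4 1 (.s k11 k9 0 (.s k56 k41 4 (.s k48 k37 6 (.d k24 k36 k40 5 3)))))] (.c k21 (.f k4 k8 1 (.l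
  (.s k58 k42 3 (.s k48 k37 6 (.s k53 k63 2 (.s k32 k16 3 (.s k36 k24 5 (.s k20 k52 3 (.d k40 k44
  k60 1 5))))))))) (.c k78 (.q k114 [(.s k42 k58 3 (.s k21 k63 6 (.s k48 k37 6 (.d k16 k31 k32 2
  3)))), (.s k58 k42 3 (.s k50 k178 7 (.s k62 k54 1 (.s k122 k182 9 (.s k186 k250 7 (.d k118 k126
  k254 1 9)))))), (.s k8 k4 1 (.s k11 k9 0 (.s k56 k41 4 (.s k48 k37 6 (.d k24 k36 k40 5 3)))))] (.c
  k142 (.l (.s k206 k218 5 (.s k42 k58 3 (.s k21 k63 6 (.s k48 k37 6 (.d k16 k31 k32 2 3)))))) (.c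
  k206 (.q k142 [(.s k42 k58 3 (.s k21 k63 6 (.s k48 k37 6 (.d k16 k31 k32 2 3)))), (.s k207 k77 8
  (.s k138 k69 10 (.s k74 k202 7 (.s k133 k192 10 (.d k143 k79 k128 7 2)))))] (.c k50 (.q k154 [(.s
  k207 k77 8 (.d k48 k37 k101 6 14)), (.s k42 k58 3 (.s k21 k63 6 (.s k48 k37 6 (.d k16 k31 k32 2
  3)))), (.s k58 k42 3 (.s k207 k77 8 (.s k138 k69 10 (.d k202 k74 k106 7 11))))] .n) (.c k154 (.l
  (.s k50 k178 7 (.s k42 k58 3 (.s k21 k63 6 (.s k48 k37 6 (.d k16 k31 k32 2 3)))))) .n))) .n))) (.c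
  k114 (.q k78 [(.s k42 k58 3 (.s k21 k63 6 (.s k48 k37 6 (.d k16 k31 k32 2 3)))), (.s k204 k141 8
  (.s k76 k140 7 (.s k77 k79 0 (.s k206 k218 5 (.d k207 k142 k205 8 0)))))] .n) .n)))) (.c k78 (.q
  k114 [(.s k42 k58 3 (.s k21 k63 6 (.s k48 k37 6 (.d k16 k31 k32 2 3)))), (.s k8 k4 1 (.s k42 k58 3
  (.s k25 k59 4 (.s k27 k24 0 (.d k51 k38 k39 6 5))))), (.s k8 k4 1 (.s k11 k9 0 (.s k56 k41 4 (.s
  k48 k37 6 (.d k24 k40 k36 3 5)))))] (.c k38 (.q k230 [(.s k42 k58 3 (.s k21 k63 6 (.s k48 k37 6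
  (.d k16 k31 k32 2 3)))), (.s k58 k42 3 (.s k50 k178 7 (.s k62 k54 1 (.s k122 k182 9 (.s k186 k250
  7 (.d k118 k126 k254 1 9)))))), (.s k8 k4 1 (.s k11 k9 0 (.s k56 k41 4 (.s k48 k37 6 (.d k24 k36
  k40 5 3)))))] (.c k142 (.l (.s k206 k218 5 (.s k42 k58 3 (.s k21 k63 6 (.s k48 k37 6 (.d k16 k31
  k32 2 3)))))) (.c k206 (.q k142 [(.s k42 k58 3 (.s k21 k63 6 (.s k48 k37 6 (.d k16 k31 k32 2
  3)))), (.s k207 k77 8 (.s k138 k69 10 (.s k74 k202 7 (.s k133 k192 10 (.d k143 k79 k128 7 2)))))]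
  (.c k50 (.q k154 [(.s k207 k77 8 (.d k48 k37 k101 6 14)), (.s k42 k58 3 (.s k21 k63 6 (.s k48 k37
  6 (.d k16 k31 k32 2 3)))), (.s k58 k42 3 (.s k207 k77 8 (.s k138 k69 10 (.d k202 k74 k106 7
  11))))] .n) (.c k154 (.l (.s k50 k178 7 (.s k42 k58 3 (.s k21 k63 6 (.s k48 k37 6 (.d k16 k31 k32
  2 3)))))) .n))) .n))) (.c k142 (.q k206 [(.s k42 k58 3 (.s k21 k63 6 (.s k48 k37 6 (.d k16 k31 k32
  2 3)))), (.s k8 k4 1 (.s k42 k58 3 (.s k25 k59 4 (.s k27 k24 0 (.d k51 k38 k39 6 5))))), (.s k8 k4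
  1 (.s k11 k9 0 (.s k56 k41 4 (.s k48 k37 6 (.d k24 k40 k36 3 5)))))] (.c k38 (.l (.s k230 k218 5
  (.s k42 k58 3 (.s k21 k63 6 (.s k48 k37 6 (.d k16 k31 k32 2 3)))))) (.c k154 (.l (.s k178 k50 7
  (.s k42 k58 3 (.s k21 k63 6 (.s k48 k37 6 (.d k16 k31 k32 2 3)))))) (.c k178 (.q k154 [(.s k42 k58
  3 (.s k21 k63 6 (.s k48 k37 6 (.d k16 k31 k32 2 3)))), (.s k8 k4 1 (.s k42 k58 3 (.s k25 k59 4 (.s
  k27 k24 0 (.d k51 k38 k39 6 5))))), (.s k8 k4 1 (.s k11 k9 0 (.s k56 k41 4 (.s k48 k37 6 (.d k24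
  k40 k36 3 5)))))] (.c k38 (.l (.s k230 k218 5 (.s k42 k58 3 (.s k21 k63 6 (.s k48 k37 6 (.d k16
  k31 k32 2 3)))))) (.c k230 (.q k38 [(.s k4 k8 1 (.s k42 k58 3 (.d k21 k55 k63 4 6))), (.s k25 k51
  6 (.s k48 k37 6 (.d k24 k27 k36 0 5)))] (.c k21 (.l (.s k8 k4 1 (.s k42 k58 3 (.d k25 k59 k51 4
  6)))) .n)) .n))) (.c k230 (.q k38 [(.s k4 k8 1 (.s k42 k58 3 (.d k21 k55 k63 4 6))), (.s k25 k51 6
  (.s k48 k37 6 (.d k24 k27 k36 0 5)))] (.c k21 (.l (.s k8 k4 1 (.s k42 k58 3 (.d k25 k59 k51 4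
  6)))) (.c k154 (.l (.s k178 k50 7 (.s k4 k8 1 (.s k21 k55 4 (.d k42 k58 k63 3 6))))) (.c k178 (.q
  k154 [(.s k4 k8 1 (.s k42 k58 3 (.d k21 k55 k63 4 6))), (.s k25 k51 6 (.s k48 k37 6 (.d k24 k27
  k36 0 5)))] (.c k21 (.l (.s k8 k4 1 (.s k42 k58 3 (.d k25 k59 k51 4 6)))) .n)) .n)))) .n))))) (.c
  k206 (.q k142 [(.s k42 k58 3 (.s k21 k63 6 (.s k48 k37 6 (.d k16 k31 k32 2 3)))), (.s k8 k4 1 (.s
  k42 k58 3 (.s k25 k59 4 (.s k27 k24 0 (.d k51 k38 k39 6 5))))), (.s k8 k4 1 (.s k11 k9 0 (.s k56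
  k41 4 (.s k48 k37 6 (.d k24 k40 k36 3 5)))))] (.c k38 (.q k230 [(.s k42 k58 3 (.s k21 k63 6 (.s
  k48 k37 6 (.d k16 k31 k32 2 3)))), (.s k207 k77 8 (.s k138 k69 10 (.s k74 k202 7 (.s k133 k192 10
  (.d k143 k79 k128 7 2)))))] (.c k50 (.q k154 [(.s k207 k77 8 (.d k48 k37 k101 6 14)), (.s k42 k58
  3 (.s k21 k63 6 (.s k48 k37 6 (.d k16 k31 k32 2 3)))), (.s k58 k42 3 (.s k207 k77 8 (.s k138 k69
  10 (.d k202 k74 k106 7 11))))] .n) (.c k154 (.l (.s k50 k178 7 (.s k42 k58 3 (.s k21 k63 6 (.s k48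
  k37 6 (.d k16 k31 k32 2 3)))))) .n))) (.c k50 (.q k154 [(.s k207 k77 8 (.d k48 k37 k101 6 14)),
  (.s k42 k58 3 (.s k21 k63 6 (.s k48 k37 6 (.d k16 k31 k32 2 3)))), (.s k58 k42 3 (.s k207 k77 8
  (.s k138 k69 10 (.d k202 k74 k106 7 11))))] (.c k38 (.q k230 [(.s k207 k77 8 (.d k48 k37 k101 6
  14)), (.s k42 k58 3 (.s k21 k63 6 (.s k48 k37 6 (.d k16 k31 k32 2 3)))), (.s k58 k42 3 (.s k207
  k77 8 (.s k138 k69 10 (.d k202 k74 k106 7 11))))] .n) (.c k230 (.q k38 [(.s k207 k77 8 (.d k48 k37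
  k101 6 14)), (.s k4 k8 1 (.s k21 k55 4 (.d k42 k58 k63 3 6)))] .n) .n))) (.c k154 (.l (.s k50 k178
  7 (.s k42 k58 3 (.s k21 k63 6 (.s k48 k37 6 (.d k16 k31 k32 2 3)))))) (.c k230 (.q k38 [(.s k50
  k178 7 (.s k51 k25 6 (.d k48 k49 k37 0 6))), (.s k4 k8 1 (.s k21 k55 4 (.d k42 k58 k63 3 6)))] (.c
  k50 (.q k154 [(.s k207 k77 8 (.d k48 k37 k101 6 14)), (.s k4 k8 1 (.s k21 k55 4 (.d k42 k58 k63 3
  6)))] .n) (.c k154 (.l (.s k50 k178 7 (.s k51 k25 6 (.d k48 k49 k37 0 6)))) .n))) .n))))) (.c k230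
  (.q k38 [(.s k4 k8 1 (.s k42 k58 3 (.d k21 k55 k63 4 6))), (.s k25 k51 6 (.s k48 k37 6 (.d k24 k27
  k36 0 5)))] (.c k21 (.l (.s k8 k4 1 (.s k42 k58 3 (.d k25 k59 k51 4 6)))) (.c k142 (.q k206 [(.s
  k4 k8 1 (.s k42 k58 3 (.d k21 k55 k63 4 6))), (.s k25 k51 6 (.s k48 k37 6 (.d k24 k27 k36 0 5)))]
  (.c k21 (.l (.s k8 k4 1 (.s k42 k58 3 (.d k25 k59 k51 4 6)))) (.c k154 (.l (.s k178 k50 7 (.s k4
  k8 1 (.s k21 k55 4 (.d k42 k58 k63 3 6))))) (.c k178 (.q k154 [(.s k4 k8 1 (.s k42 k58 3 (.d k21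
  k55 k63 4 6))), (.s k25 k51 6 (.s k48 k37 6 (.d k24 k27 k36 0 5)))] (.c k21 (.l (.s k8 k4 1 (.s
  k42 k58 3 (.d k25 k59 k51 4 6)))) .n)) .n)))) (.c k206 (.q k142 [(.s k50 k178 7 (.s k51 k25 6 (.d
  k48 k49 k37 0 6))), (.s k4 k8 1 (.s k21 k55 4 (.d k42 k58 k63 3 6)))] (.c k50 (.q k154 [(.s k207
  k77 8 (.d k48 k37 k101 6 14)), (.s k4 k8 1 (.s k21 k55 4 (.d k42 k58 k63 3 6)))] .n) (.c k154 (.l
  (.s k50 k178 7 (.s k51 k25 6 (.d k48 k49 k37 0 6)))) .n))) .n)))) .n))))) (.c k114 (.q k78 [(.s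
  k42 k58 3 (.s k21 k63 6 (.s k48 k37 6 (.d k16 k31 k32 2 3)))), (.s k8 k4 1 (.s k42 k58 3 (.s k25
  k59 4 (.s k27 k24 0 (.d k51 k38 k39 6 5))))), (.s k8 k4 1 (.s k11 k9 0 (.s k56 k41 4 (.s k48 k37 6
  (.d k24 k40 k36 3 5)))))] (.c k38 (.q k230 [(.s k42 k58 3 (.s k21 k63 6 (.s k48 k37 6 (.d k16 k31
  k32 2 3)))), (.s k204 k141 8 (.s k76 k140 7 (.s k77 k79 0 (.s k206 k218 5 (.d k207 k142 k205 8
  0)))))] .n) (.c k230 (.q k38 [(.s k4 k8 1 (.s k42 k58 3 (.d k21 k55 k63 4 6))), (.s k25 k51 6 (.s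
  k48 k37 6 (.d k24 k27 k36 0 5)))] (.c k21 (.l (.s k8 k4 1 (.s k42 k58 3 (.d k25 k59 k51 4 6))))
  .n)) .n))) (.c k230 (.q k38 [(.s k4 k8 1 (.s k42 k58 3 (.d k21 k55 k63 4 6))), (.s k25 k51 6 (.s
  k48 k37 6 (.d k24 k27 k36 0 5)))] (.c k21 (.l (.s k8 k4 1 (.s k42 k58 3 (.d k25 k59 k51 4 6))))
  (.c k78 (.q k114 [(.s k4 k8 1 (.s k42 k58 3 (.d k21 k55 k63 4 6))), (.s k25 k51 6 (.s k48 k37 6
  (.d k24 k27 k36 0 5)))] (.c k21 (.l (.s k8 k4 1 (.s k42 k58 3 (.d k25 k59 k51 4 6)))) (.c k142 (.q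
  k206 [(.s k4 k8 1 (.s k42 k58 3 (.d k21 k55 k63 4 6))), (.s k25 k51 6 (.s k48 k37 6 (.d k24 k27
  k36 0 5)))] (.c k21 (.l (.s k8 k4 1 (.s k42 k58 3 (.d k25 k59 k51 4 6)))) (.c k154 (.l (.s k178
  k50 7 (.s k4 k8 1 (.s k21 k55 4 (.d k42 k58 k63 3 6))))) (.c k178 (.q k154 [(.s k4 k8 1 (.s k42
  k58 3 (.d k21 k55 k63 4 6))), (.s k25 k51 6 (.s k48 k37 6 (.d k24 k27 k36 0 5)))] (.c k21 (.l (.s
  k8 k4 1 (.s k42 k58 3 (.d k25 k59 k51 4 6)))) .n)) .n)))) (.c k206 (.q k142 [(.s k50 k178 7 (.s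
  k51 k25 6 (.d k48 k49 k37 0 6))), (.s k4 k8 1 (.s k21 k55 4 (.d k42 k58 k63 3 6)))] (.c k50 (.q
  k154 [(.s k207 k77 8 (.d k48 k37 k101 6 14)), (.s k4 k8 1 (.s k21 k55 4 (.d k42 k58 k63 3 6)))]
  .n) (.c k154 (.l (.s k50 k178 7 (.s k51 k25 6 (.d k48 k49 k37 0 6)))) .n))) .n)))) (.c k114 (.q
  k78 [(.s k4 k8 1 (.s k42 k58 3 (.d k21 k55 k63 4 6))), (.s k25 k51 6 (.s k48 k37 6 (.d k24 k27 k36
  0 5)))] (.c k21 (.l (.s k8 k4 1 (.s k42 k58 3 (.d k25 k59 k51 4 6)))) .n)) .n)))) .n))))) (.c k242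
  (.q k166 [(.s k42 k58 3 (.s k21 k63 6 (.s k48 k37 6 (.d k16 k31 k32 2 3)))), (.s k4 k8 1 (.s k85
  k247 12 (.s k170 k255 14 (.s k243 k89 14 (.d k162 k174 k81 1 12)))))] (.c k78 (.q k114 [(.s k42
  k58 3 (.s k21 k63 6 (.s k48 k37 6 (.d k16 k31 k32 2 3)))), (.s k4 k8 1 (.s k85 k247 12 (.s k170
  k255 14 (.s k243 k89 14 (.d k162 k174 k81 1 12)))))] (.c k142 (.q k206 [(.s k42 k58 3 (.s k21 k63
  6 (.s k48 k37 6 (.d k16 k31 k32 2 3)))), (.s k4 k8 1 (.s k85 k247 12 (.s k170 k255 14 (.s k243 k89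
  14 (.d k162 k174 k81 1 12)))))] .n) (.c k206 (.q k142 [(.s k207 k77 8 (.s k154 k178 5 (.d k48 k37
  k101 6 14))), (.s k4 k8 1 (.s k85 k247 12 (.s k170 k255 14 (.s k243 k89 14 (.d k162 k174 k81 1
  12)))))] (.c k50 (.l (.s k154 k178 5 (.s k207 k77 8 (.d k48 k37 k101 6 14)))) (.c k76 (.l (.s k48
  k37 6 (.s k154 k178 5 (.d k207 k77 k101 8 14)))) (.c k154 (.q k50 [(.s k42 k58 3 (.s k21 k63 6 (.s
  k48 k37 6 (.d k16 k31 k32 2 3)))), (.s k4 k8 1 (.s k85 k247 12 (.s k170 k255 14 (.s k243 k89 14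
  (.d k162 k174 k81 1 12)))))] (.c k218 (.q k230 [(.s k42 k58 3 (.s k21 k63 6 (.s k48 k37 6 (.d k16
  k31 k32 2 3)))), (.s k4 k8 1 (.s k85 k247 12 (.s k170 k255 14 (.s k243 k89 14 (.d k162 k174 k81 1
  12)))))] .n) (.c k230 (.q k218 [(.s k42 k58 3 (.s k21 k63 6 (.s k48 k37 6 (.d k16 k31 k32 2 3)))),
  (.s k4 k8 1 (.s k85 k247 12 (.s k170 k255 14 (.s k243 k89 14 (.d k162 k174 k81 1 12)))))] .n)
  .n))) (.c k218 (.q k230 [(.s k207 k77 8 (.s k154 k178 5 (.d k48 k37 k101 6 14))), (.s k4 k8 1 (.s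
  k85 k247 12 (.s k170 k255 14 (.s k243 k89 14 (.d k162 k174 k81 1 12)))))] (.c k50 (.l (.s k154
  k178 5 (.s k207 k77 8 (.d k48 k37 k101 6 14)))) (.c k76 (.l (.s k48 k37 6 (.s k154 k178 5 (.d k207
  k77 k101 8 14)))) (.c k154 (.q k50 [(.s k42 k58 3 (.s k21 k63 6 (.s k48 k37 6 (.d k16 k31 k32 2
  3)))), (.s k4 k8 1 (.s k85 k247 12 (.s k170 k255 14 (.s k243 k89 14 (.d k162 k174 k81 1 12)))))]
  .n) .n)))) (.c k230 (.q k218 [(.s k207 k77 8 (.s k154 k178 5 (.d k48 k37 k101 6 14))), (.s k4 k8 1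
  (.s k85 k247 12 (.s k170 k255 14 (.s k243 k89 14 (.d k162 k174 k81 1 12)))))] (.c k50 (.l (.s k154
  k178 5 (.s k207 k77 8 (.d k48 k37 k101 6 14)))) (.c k76 (.l (.s k48 k37 6 (.s k154 k178 5 (.d k207
  k77 k101 8 14)))) (.c k154 (.q k50 [(.s k42 k58 3 (.s k21 k63 6 (.s k48 k37 6 (.d k16 k31 k32 2
  3)))), (.s k4 k8 1 (.s k85 k247 12 (.s k170 k255 14 (.s k243 k89 14 (.d k162 k174 k81 1 12)))))]
  .n) .n)))) .n)))))) .n))) (.c k114 (.q k78 [(.s k42 k58 3 (.s k21 k63 6 (.s k48 k37 6 (.d k16 k31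
  k32 2 3)))), (.s k4 k8 1 (.s k85 k247 12 (.s k170 k255 14 (.s k243 k89 14 (.d k162 k174 k81 1
  12)))))] (.c k50 (.q k178 [(.s k48 k37 6 (.d k243 k113 k89 8 14)), (.s k204 k141 8 (.s k76 k140 7
  (.s k77 k79 0 (.d k142 k154 k207 5 8))))] (.c k154 (.q k206 [(.s k48 k37 6 (.d k243 k113 k89 8
  14)), (.s k204 k141 8 (.s k76 k140 7 (.s k77 k79 0 (.d k207 k142 k205 8 0))))] .n) (.c k206 (.l
  (.s k154 k142 5 (.s k243 k89 14 (.d k48 k37 k113 6 8)))) .n))) (.c k178 (.q k50 [(.s k42 k58 3 (.s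
  k21 k63 6 (.s k48 k37 6 (.d k16 k31 k32 2 3)))), (.s k4 k8 1 (.s k85 k247 12 (.s k170 k255 14 (.s
  k243 k89 14 (.d k162 k174 k81 1 12)))))] .n) .n))) .n))) .n))))))) (.c k78 (.q k114 [(.s k8 k4 1
  (.s k14 k13 0 (.s k10 k5 2 (.s k6 k2 1 (.d k9 k11 k3 0 2)))))] (.c k1 (.l (.s k8 k4 1 (.s k10 k5 2
  (.s k9 k11 0 (.s k6 k3 2 (.d k14 k13 k2 0 1)))))) (.c k2 (.l (.s k4 k8 1 (.s k5 k10 2 (.s k6 k7 0
  (.s k9 k3 2 (.d k13 k14 k1 0 1)))))) (.c k3 (.q k192 [(.s k4 k8 1 (.s k128 k64 7 (.s k132 k72 9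
  (.s k136 k140 1 (.d k68 k196 k204 7 9))))), (.s k5 k10 2 (.s k128 k64 7 (.s k133 k74 10 (.s k69
  k197 7 (.d k138 k143 k207 2 10))))), (.s k13 k14 0 (.s k132 k72 9 (.s k133 k74 10 (.s k73 k193 9
  (.d k134 k135 k195 0 10)))))] .n) (.c k4 (.q k21 [(.s k5 k10 2 (.s k63 k42 6 (.s k37 k53 3 (.s k26
  k48 6 (.d k31 k16 k47 2 3))))), (.s k63 k42 6 (.s k13 k14 0 (.s k29 k46 4 (.s k45 k61 3 (.s k30
  k60 4 (.d k31 k28 k47 0 3)))))), (.s k5 k10 2 (.s k37 k53 3 (.s k13 k14 0 (.s k25 k49 5 (.s k17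
  k29 1 (.d k51 k34 k38 4 6))))))] .n) (.c k5 (.q k21 [(.s k4 k8 1 (.s k63 k42 6 (.s k29 k46 4 (.s
  k25 k17 1 (.d k38 k55 k51 4 6))))), (.s k4 k8 1 (.s k38 k55 4 (.s k14 k13 0 (.s k26 k50 5 (.s k16
  k31 2 (.d k48 k32 k37 3 6)))))), (.s k63 k42 6 (.s k14 k13 0 (.s k46 k29 4 (.s k30 k62 3 (.s k45
  k60 4 (.d k47 k44 k31 0 3))))))] .n) (.c k6 (.q k21 [(.s k4 k8 1 (.s k63 k42 6 (.s k29 k46 4 (.s
  k25 k17 1 (.d k38 k55 k51 4 6))))), (.s k5 k10 2 (.s k42 k63 6 (.s k37 k53 3 (.s k48 k26 6 (.d k32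
  k47 k16 2 3))))), (.s k4 k8 1 (.s k5 k10 2 (.s k38 k55 4 (.s k37 k53 3 (.s k14 k13 0 (.d k26 k50
  k48 5 6))))))] .n) (.c k7 (.l (.s k8 k4 1 (.s k14 k13 0 (.s k10 k5 2 (.s k6 k2 1 (.d k9 k11 k3 0
  2)))))) (.c k8 (.q k21 [(.s k10 k5 2 (.s k42 k63 6 (.s k26 k58 3 (.s k48 k37 6 (.d k16 k31 k32 2
  3))))), (.s k63 k42 6 (.s k13 k14 0 (.s k29 k46 4 (.s k45 k61 3 (.s k30 k60 4 (.d k31 k28 k47 0
  3)))))), (.s k5 k10 2 (.s k37 k53 3 (.s k13 k14 0 (.s k25 k49 5 (.s k17 k29 1 (.d k51 k34 k38 4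
  6))))))] .n) (.c k9 (.q k21 [(.s k10 k5 2 (.s k42 k63 6 (.s k26 k58 3 (.s k48 k37 6 (.d k16 k31
  k32 2 3))))), (.s k8 k4 1 (.s k42 k63 6 (.s k25 k59 4 (.s k51 k38 6 (.d k17 k29 k34 1 4))))), (.s
  k4 k8 1 (.s k38 k55 4 (.s k14 k13 0 (.s k26 k50 5 (.s k37 k48 6 (.d k5 k10 k53 2 3))))))] .n) (.c
  k10 (.f k8 k4 1 (.q k170 [(.s k85 k255 14 (.s k89 k251 12 (.s k81 k93 1 (.d k243 k162 k166 12
  14)))), (.s k255 k85 14 (.s k13 k14 0 (.s k93 k174 12 (.s k173 k253 11 (.s k94 k252 12 (.d k95 k92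
  k175 0 11)))))), (.s k89 k251 12 (.s k13 k14 0 (.s k165 k241 13 (.s k160 k175 2 (.s k240 k80 11
  (.s k164 k88 13 (.d k166 k167 k243 0 14)))))))] (.c k85 (.l (.s k89 k251 12 (.s k13 k14 0 (.s k166
  k243 14 (.s k165 k241 13 (.s k160 k175 2 (.s k164 k167 0 (.d k240 k80 k88 11 13)))))))) (.c k166
  (.f k85 k255 14 (.f k14 k13 0 (.q k21 [(.s k42 k63 6 (.s k25 k59 4 (.s k17 k29 1 (.d k51 k38 k34 6
  4)))), (.s k63 k42 6 (.s k149 k213 7 (.s k192 k106 14 (.d k128 k191 k64 6 7)))), (.s k89 k251 12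
  (.s k149 k213 7 (.s k29 k209 9 (.s k17 k25 1 (.s k221 k153 9 (.d k93 k81 k157 1 7))))))] (.c k38
  (.q k230 [(.s k149 k213 7 (.s k128 k191 6 (.s k192 k64 7 (.d k63 k42 k106 6 14)))), (.s k89 k251
  12 (.s k149 k213 7 (.s k29 k209 9 (.s k17 k25 1 (.s k221 k153 9 (.d k93 k81 k157 1 7)))))), (.s
  k42 k63 6 (.s k25 k59 4 (.s k89 k251 12 (.s k17 k29 1 (.d k153 k217 k221 7 9)))))] .n) (.c k230
  (.q k38 [(.s k42 k63 6 (.d k25 k59 k51 4 6)), (.s k26 k50 5 (.s k48 k37 6 (.d k16 k31 k32 2 3)))]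
  (.c k25 (.l (.s k63 k42 6 (.s k26 k50 5 (.d k31 k16 k47 2 3)))) .n)) .n))))) .n)))) (.c k11 (.l
  (.s k4 k8 1 (.s k13 k14 0 (.s k5 k10 2 (.s k9 k1 1 (.d k6 k7 k3 0 2)))))) (.c k13 (.q k21 [(.s k4
  k8 1 (.s k63 k42 6 (.s k29 k46 4 (.s k25 k17 1 (.d k38 k55 k51 4 6))))), (.s k5 k10 2 (.s k42 k63
  6 (.s k37 k53 3 (.s k48 k26 6 (.d k32 k47 k16 2 3))))), (.s k4 k8 1 (.s k5 k10 2 (.s k38 k55 4 (.s
  k37 k53 3 (.s k36 k39 0 (.d k48 k24 k26 5 6))))))] .n) (.c k14 (.f k10 k5 2 (.q k26 [(.s k42 k58 3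
  (.s k21 k63 6 (.s k48 k37 6 (.d k16 k31 k32 2 3)))), (.s k8 k4 1 (.s k11 k9 0 (.s k56 k41 4 (.s
  k24 k40 3 (.d k48 k36 k37 5 6))))), (.s k8 k4 1 (.s k42 k58 3 (.s k25 k59 4 (.s k51 k38 6 (.d k27
  k24 k39 0 5)))))] (.c k42 (.l (.s k8 k4 1 (.s k11 k9 0 (.s k56 k41 4 (.s k48 k37 6 (.d k24 k40 k36
  3 5)))))) (.c k142 (.q k206 [(.s k42 k58 3 (.s k21 k63 6 (.s k48 k37 6 (.d k16 k31 k32 2 3)))),
  (.s k8 k4 1 (.s k11 k9 0 (.s k56 k41 4 (.s k24 k40 3 (.d k48 k36 k37 5 6))))), (.s k8 k4 1 (.s k42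
  k58 3 (.s k25 k59 4 (.s k51 k38 6 (.d k27 k24 k39 0 5)))))] (.c k42 (.l (.s k8 k4 1 (.s k11 k9 0
  (.s k56 k41 4 (.s k48 k37 6 (.d k24 k40 k36 3 5)))))) (.c k166 (.q k242 [(.s k42 k58 3 (.s k21 k63
  6 (.s k48 k37 6 (.d k16 k31 k32 2 3)))), (.s k8 k4 1 (.s k42 k58 3 (.s k25 k59 4 (.s k27 k24 0 (.d
  k51 k38 k39 6 5))))), (.s k8 k4 1 (.s k11 k9 0 (.s k56 k41 4 (.s k48 k37 6 (.d k24 k40 k36 3
  5)))))] (.c k38 (.l (.s k230 k218 5 (.s k42 k58 3 (.s k21 k63 6 (.s k48 k37 6 (.d k16 k31 k32 2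
  3)))))) (.c k154 (.l (.s k178 k50 7 (.s k42 k58 3 (.s k21 k63 6 (.s k48 k37 6 (.d k16 k31 k32 2
  3)))))) (.c k178 (.q k154 [(.s k42 k58 3 (.s k21 k63 6 (.s k48 k37 6 (.d k16 k31 k32 2 3)))), (.s
  k8 k4 1 (.s k42 k58 3 (.s k25 k59 4 (.s k27 k24 0 (.d k51 k38 k39 6 5))))), (.s k8 k4 1 (.s k11 k9
  0 (.s k56 k41 4 (.s k48 k37 6 (.d k24 k40 k36 3 5)))))] (.c k38 (.l (.s k230 k218 5 (.s k42 k58 3
  (.s k21 k63 6 (.s k48 k37 6 (.d k16 k31 k32 2 3)))))) (.c k230 (.q k38 [(.s k4 k8 1 (.s k42 k58 3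
  (.d k21 k55 k63 4 6))), (.s k25 k51 6 (.s k48 k37 6 (.d k24 k27 k36 0 5)))] (.c k21 (.l (.s k8 k4
  1 (.s k42 k58 3 (.d k25 k59 k51 4 6)))) .n)) .n))) (.c k230 (.q k38 [(.s k4 k8 1 (.s k42 k58 3 (.d
  k21 k55 k63 4 6))), (.s k25 k51 6 (.s k48 k37 6 (.d k24 k27 k36 0 5)))] (.c k21 (.l (.s k8 k4 1
  (.s k42 k58 3 (.d k25 k59 k51 4 6)))) (.c k154 (.l (.s k178 k50 7 (.s k4 k8 1 (.s k21 k55 4 (.d
  k42 k58 k63 3 6))))) (.c k178 (.q k154 [(.s k4 k8 1 (.s k42 k58 3 (.d k21 k55 k63 4 6))), (.s k25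
  k51 6 (.s k48 k37 6 (.d k24 k27 k36 0 5)))] (.c k21 (.l (.s k8 k4 1 (.s k42 k58 3 (.d k25 k59 k51
  4 6)))) .n)) .n)))) .n))))) (.c k242 (.q k166 [(.s k42 k58 3 (.s k21 k63 6 (.s k48 k37 6 (.d k16
  k31 k32 2 3)))), (.s k4 k8 1 (.s k85 k247 12 (.s k170 k255 14 (.s k243 k89 14 (.d k162 k174 k81 1
  12)))))] .n) .n)))) (.c k166 (.q k242 [(.s k42 k58 3 (.s k21 k63 6 (.s k48 k37 6 (.d k16 k31 k32 2
  3)))), (.s k8 k4 1 (.s k42 k58 3 (.s k25 k59 4 (.s k27 k24 0 (.d k51 k38 k39 6 5))))), (.s k8 k4 1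
  (.s k11 k9 0 (.s k56 k41 4 (.s k48 k37 6 (.d k24 k40 k36 3 5)))))] (.c k38 (.q k230 [(.s k42 k58 3
  (.s k21 k63 6 (.s k48 k37 6 (.d k16 k31 k32 2 3)))), (.s k58 k42 3 (.s k50 k178 7 (.s k62 k54 1
  (.s k122 k182 9 (.s k186 k250 7 (.d k118 k126 k254 1 9)))))), (.s k8 k4 1 (.s k11 k9 0 (.s k56 k41
  4 (.s k48 k37 6 (.d k24 k36 k40 5 3)))))] (.c k142 (.l (.s k206 k218 5 (.s k42 k58 3 (.s k21 k63 6
  (.s k48 k37 6 (.d k16 k31 k32 2 3)))))) (.c k206 (.q k142 [(.s k42 k58 3 (.s k21 k63 6 (.s k48 k37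
  6 (.d k16 k31 k32 2 3)))), (.s k207 k77 8 (.s k138 k69 10 (.s k74 k202 7 (.s k133 k192 10 (.d k143
  k79 k128 7 2)))))] (.c k50 (.q k154 [(.s k207 k77 8 (.d k48 k37 k101 6 14)), (.s k42 k58 3 (.s k21
  k63 6 (.s k48 k37 6 (.d k16 k31 k32 2 3)))), (.s k58 k42 3 (.s k207 k77 8 (.s k138 k69 10 (.d k202
  k74 k106 7 11))))] .n) (.c k154 (.l (.s k50 k178 7 (.s k42 k58 3 (.s k21 k63 6 (.s k48 k37 6 (.d
  k16 k31 k32 2 3)))))) .n))) .n))) (.c k142 (.q k206 [(.s k42 k58 3 (.s k21 k63 6 (.s k48 k37 6 (.d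
  k16 k31 k32 2 3)))), (.s k8 k4 1 (.s k42 k58 3 (.s k25 k59 4 (.s k27 k24 0 (.d k51 k38 k39 6
  5))))), (.s k8 k4 1 (.s k11 k9 0 (.s k56 k41 4 (.s k48 k37 6 (.d k24 k40 k36 3 5)))))] (.c k38 (.l
  (.s k230 k218 5 (.s k42 k58 3 (.s k21 k63 6 (.s k48 k37 6 (.d k16 k31 k32 2 3)))))) (.c k154 (.l
  (.s k178 k50 7 (.s k42 k58 3 (.s k21 k63 6 (.s k48 k37 6 (.d k16 k31 k32 2 3)))))) (.c k178 (.q
  k154 [(.s k42 k58 3 (.s k21 k63 6 (.s k48 k37 6 (.d k16 k31 k32 2 3)))), (.s k8 k4 1 (.s k42 k58 3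
  (.s k25 k59 4 (.s k27 k24 0 (.d k51 k38 k39 6 5))))), (.s k8 k4 1 (.s k11 k9 0 (.s k56 k41 4 (.s
  k48 k37 6 (.d k24 k40 k36 3 5)))))] (.c k38 (.l (.s k230 k218 5 (.s k42 k58 3 (.s k21 k63 6 (.s
  k48 k37 6 (.d k16 k31 k32 2 3)))))) (.c k230 (.q k38 [(.s k4 k8 1 (.s k42 k58 3 (.d k21 k55 k63 4
  6))), (.s k25 k51 6 (.s k48 k37 6 (.d k24 k27 k36 0 5)))] (.c k21 (.l (.s k8 k4 1 (.s k42 k58 3
  (.d k25 k59 k51 4 6)))) .n)) .n))) (.c k230 (.q k38 [(.s k4 k8 1 (.s k42 k58 3 (.d k21 k55 k63 4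
  6))), (.s k25 k51 6 (.s k48 k37 6 (.d k24 k27 k36 0 5)))] (.c k21 (.l (.s k8 k4 1 (.s k42 k58 3
  (.d k25 k59 k51 4 6)))) (.c k154 (.l (.s k178 k50 7 (.s k4 k8 1 (.s k21 k55 4 (.d k42 k58 k63 3
  6))))) (.c k178 (.q k154 [(.s k4 k8 1 (.s k42 k58 3 (.d k21 k55 k63 4 6))), (.s k25 k51 6 (.s k48
  k37 6 (.d k24 k27 k36 0 5)))] (.c k21 (.l (.s k8 k4 1 (.s k42 k58 3 (.d k25 k59 k51 4 6)))) .n))
  .n)))) .n))))) (.c k206 (.q k142 [(.s k42 k58 3 (.s k21 k63 6 (.s k48 k37 6 (.d k16 k31 k32 2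
  3)))), (.s k8 k4 1 (.s k42 k58 3 (.s k25 k59 4 (.s k27 k24 0 (.d k51 k38 k39 6 5))))), (.s k8 k4 1
  (.s k11 k9 0 (.s k56 k41 4 (.s k48 k37 6 (.d k24 k40 k36 3 5)))))] (.c k38 (.q k230 [(.s k42 k58 3
  (.s k21 k63 6 (.s k48 k37 6 (.d k16 k31 k32 2 3)))), (.s k207 k77 8 (.s k138 k69 10 (.s k74 k202 7
  (.s k133 k192 10 (.d k143 k79 k128 7 2)))))] (.c k50 (.q k154 [(.s k207 k77 8 (.d k48 k37 k101 6
  14)), (.s k42 k58 3 (.s k21 k63 6 (.s k48 k37 6 (.d k16 k31 k32 2 3)))), (.s k58 k42 3 (.s k207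
  k77 8 (.s k138 k69 10 (.d k202 k74 k106 7 11))))] .n) (.c k154 (.l (.s k50 k178 7 (.s k42 k58 3
  (.s k21 k63 6 (.s k48 k37 6 (.d k16 k31 k32 2 3)))))) .n))) (.c k50 (.q k154 [(.s k207 k77 8 (.d
  k48 k37 k101 6 14)), (.s k42 k58 3 (.s k21 k63 6 (.s k48 k37 6 (.d k16 k31 k32 2 3)))), (.s k58
  k42 3 (.s k207 k77 8 (.s k138 k69 10 (.d k202 k74 k106 7 11))))] (.c k38 (.q k230 [(.s k207 k77 8
  (.d k48 k37 k101 6 14)), (.s k42 k58 3 (.s k21 k63 6 (.s k48 k37 6 (.d k16 k31 k32 2 3)))), (.s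
  k58 k42 3 (.s k207 k77 8 (.s k138 k69 10 (.d k202 k74 k106 7 11))))] .n) (.c k230 (.q k38 [(.s
  k207 k77 8 (.d k48 k37 k101 6 14)), (.s k4 k8 1 (.s k21 k55 4 (.d k42 k58 k63 3 6)))] .n) .n)))
  (.c k154 (.l (.s k50 k178 7 (.s k42 k58 3 (.s k21 k63 6 (.s k48 k37 6 (.d k16 k31 k32 2 3))))))
  (.c k230 (.q k38 [(.s k50 k178 7 (.s k51 k25 6 (.d k48 k49 k37 0 6))), (.s k4 k8 1 (.s k21 k55 4
  (.d k42 k58 k63 3 6)))] (.c k50 (.q k154 [(.s k207 k77 8 (.d k48 k37 k101 6 14)), (.s k4 k8 1 (.s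
  k21 k55 4 (.d k42 k58 k63 3 6)))] .n) (.c k154 (.l (.s k50 k178 7 (.s k51 k25 6 (.d k48 k49 k37 0
  6)))) .n))) .n))))) (.c k230 (.q k38 [(.s k4 k8 1 (.s k42 k58 3 (.d k21 k55 k63 4 6))), (.s k25
  k51 6 (.s k48 k37 6 (.d k24 k27 k36 0 5)))] (.c k21 (.l (.s k8 k4 1 (.s k42 k58 3 (.d k25 k59 k51
  4 6)))) (.c k142 (.q k206 [(.s k4 k8 1 (.s k42 k58 3 (.d k21 k55 k63 4 6))), (.s k25 k51 6 (.s k48
  k37 6 (.d k24 k27 k36 0 5)))] (.c k21 (.l (.s k8 k4 1 (.s k42 k58 3 (.d k25 k59 k51 4 6)))) (.c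
  k154 (.l (.s k178 k50 7 (.s k4 k8 1 (.s k21 k55 4 (.d k42 k58 k63 3 6))))) (.c k178 (.q k154 [(.s
  k4 k8 1 (.s k42 k58 3 (.d k21 k55 k63 4 6))), (.s k25 k51 6 (.s k48 k37 6 (.d k24 k27 k36 0 5)))]
  (.c k21 (.l (.s k8 k4 1 (.s k42 k58 3 (.d k25 k59 k51 4 6)))) .n)) .n)))) (.c k206 (.q k142 [(.s
  k50 k178 7 (.s k51 k25 6 (.d k48 k49 k37 0 6))), (.s k4 k8 1 (.s k21 k55 4 (.d k42 k58 k63 3 6)))]
  (.c k50 (.q k154 [(.s k207 k77 8 (.d k48 k37 k101 6 14)), (.s k4 k8 1 (.s k21 k55 4 (.d k42 k58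
  k63 3 6)))] .n) (.c k154 (.l (.s k50 k178 7 (.s k51 k25 6 (.d k48 k49 k37 0 6)))) .n))) .n))))
  .n))))) (.c k206 (.q k142 [(.s k42 k58 3 (.s k21 k63 6 (.s k48 k37 6 (.d k16 k31 k32 2 3)))), (.s
  k8 k4 1 (.s k11 k9 0 (.s k56 k41 4 (.s k24 k40 3 (.d k48 k36 k37 5 6))))), (.s k8 k4 1 (.s k42 k58
  3 (.s k25 k59 4 (.s k51 k38 6 (.d k27 k24 k39 0 5)))))] (.c k42 (.l (.s k8 k4 1 (.s k11 k9 0 (.s
  k56 k41 4 (.s k48 k37 6 (.d k24 k40 k36 3 5)))))) (.c k50 (.q k154 [(.s k207 k77 8 (.d k48 k37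
  k101 6 14)), (.s k42 k58 3 (.s k21 k63 6 (.s k48 k37 6 (.d k16 k31 k32 2 3)))), (.s k58 k42 3 (.s
  k207 k77 8 (.s k138 k69 10 (.d k202 k74 k106 7 11))))] (.c k166 (.q k242 [(.s k207 k77 8 (.d k48
  k37 k101 6 14)), (.s k42 k58 3 (.s k21 k63 6 (.s k48 k37 6 (.d k16 k31 k32 2 3)))), (.s k58 k42 3
  (.s k207 k77 8 (.s k138 k69 10 (.d k202 k74 k106 7 11))))] (.c k38 (.q k230 [(.s k207 k77 8 (.d
  k48 k37 k101 6 14)), (.s k42 k58 3 (.s k21 k63 6 (.s k48 k37 6 (.d k16 k31 k32 2 3)))), (.s k58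
  k42 3 (.s k207 k77 8 (.s k138 k69 10 (.d k202 k74 k106 7 11))))] .n) (.c k230 (.q k38 [(.s k207
  k77 8 (.d k48 k37 k101 6 14)), (.s k4 k8 1 (.s k21 k55 4 (.d k42 k58 k63 3 6)))] .n) .n))) (.c
  k242 (.l (.s k166 k178 5 (.s k207 k77 8 (.d k48 k37 k101 6 14)))) .n))) (.c k154 (.q k50 [(.s k42
  k58 3 (.s k21 k63 6 (.s k48 k37 6 (.d k16 k31 k32 2 3)))), (.s k8 k4 1 (.s k11 k9 0 (.s k56 k41 4
  (.s k24 k40 3 (.d k48 k36 k37 5 6))))), (.s k8 k4 1 (.s k42 k58 3 (.s k25 k59 4 (.s k51 k38 6 (.d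
  k27 k24 k39 0 5)))))] (.c k42 (.l (.s k48 k37 6 (.s k24 k36 5 (.s k25 k27 0 (.d k51 k38 k49 6
  0))))) (.c k166 (.l (.s k242 k178 7 (.s k42 k58 3 (.s k21 k63 6 (.s k48 k37 6 (.d k16 k31 k32 2
  3)))))) (.c k242 (.q k166 [(.s k42 k58 3 (.s k21 k63 6 (.s k48 k37 6 (.d k16 k31 k32 2 3)))), (.s
  k4 k8 1 (.s k85 k247 12 (.s k170 k255 14 (.s k243 k89 14 (.d k162 k174 k81 1 12)))))] (.c k218 (.q
  k230 [(.s k42 k58 3 (.s k21 k63 6 (.s k48 k37 6 (.d k16 k31 k32 2 3)))), (.s k4 k8 1 (.s k85 k247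
  12 (.s k170 k255 14 (.s k243 k89 14 (.d k162 k174 k81 1 12)))))] .n) (.c k230 (.q k218 [(.s k42
  k58 3 (.s k21 k63 6 (.s k48 k37 6 (.d k16 k31 k32 2 3)))), (.s k4 k8 1 (.s k85 k247 12 (.s k170
  k255 14 (.s k243 k89 14 (.d k162 k174 k81 1 12)))))] .n) .n))) .n)))) (.c k166 (.q k242 [(.s k42
  k58 3 (.s k21 k63 6 (.s k48 k37 6 (.d k16 k31 k32 2 3)))), (.s k8 k4 1 (.s k42 k58 3 (.s k25 k59 4
  (.s k27 k24 0 (.d k51 k38 k39 6 5))))), (.s k8 k4 1 (.s k11 k9 0 (.s k56 k41 4 (.s k48 k37 6 (.d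
  k24 k40 k36 3 5)))))] (.c k38 (.q k230 [(.s k42 k58 3 (.s k21 k63 6 (.s k48 k37 6 (.d k16 k31 k32
  2 3)))), (.s k207 k77 8 (.s k138 k69 10 (.s k74 k202 7 (.s k133 k192 10 (.d k143 k79 k128 7
  2)))))] (.c k50 (.q k154 [(.s k207 k77 8 (.d k48 k37 k101 6 14)), (.s k42 k58 3 (.s k21 k63 6 (.s
  k48 k37 6 (.d k16 k31 k32 2 3)))), (.s k58 k42 3 (.s k207 k77 8 (.s k138 k69 10 (.d k202 k74 k106
  7 11))))] .n) (.c k154 (.l (.s k50 k178 7 (.s k42 k58 3 (.s k21 k63 6 (.s k48 k37 6 (.d k16 k31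
  k32 2 3)))))) .n))) (.c k50 (.q k154 [(.s k207 k77 8 (.d k48 k37 k101 6 14)), (.s k42 k58 3 (.s
  k21 k63 6 (.s k48 k37 6 (.d k16 k31 k32 2 3)))), (.s k58 k42 3 (.s k207 k77 8 (.s k138 k69 10 (.d
  k202 k74 k106 7 11))))] (.c k38 (.q k230 [(.s k207 k77 8 (.d k48 k37 k101 6 14)), (.s k42 k58 3
  (.s k21 k63 6 (.s k48 k37 6 (.d k16 k31 k32 2 3)))), (.s k58 k42 3 (.s k207 k77 8 (.s k138 k69 10
  (.d k202 k74 k106 7 11))))] .n) (.c k230 (.q k38 [(.s k207 k77 8 (.d k48 k37 k101 6 14)), (.s k4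
  k8 1 (.s k21 k55 4 (.d k42 k58 k63 3 6)))] .n) .n))) (.c k154 (.l (.s k50 k178 7 (.s k42 k58 3 (.s
  k21 k63 6 (.s k48 k37 6 (.d k16 k31 k32 2 3)))))) (.c k230 (.q k38 [(.s k50 k178 7 (.s k51 k25 6
  (.d k48 k49 k37 0 6))), (.s k4 k8 1 (.s k21 k55 4 (.d k42 k58 k63 3 6)))] (.c k50 (.q k154 [(.s
  k207 k77 8 (.d k48 k37 k101 6 14)), (.s k4 k8 1 (.s k21 k55 4 (.d k42 k58 k63 3 6)))] .n) (.c k154
  (.l (.s k50 k178 7 (.s k51 k25 6 (.d k48 k49 k37 0 6)))) .n))) .n))))) (.c k242 (.q k166 [(.s k207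
  k77 8 (.s k154 k178 5 (.d k48 k37 k101 6 14))), (.s k4 k8 1 (.s k85 k247 12 (.s k170 k255 14 (.s
  k243 k89 14 (.d k162 k174 k81 1 12)))))] (.c k50 (.l (.s k154 k178 5 (.s k207 k77 8 (.d k48 k37
  k101 6 14)))) (.c k76 (.l (.s k48 k37 6 (.s k154 k178 5 (.d k207 k77 k101 8 14)))) (.c k154 (.q
  k50 [(.s k42 k58 3 (.s k21 k63 6 (.s k48 k37 6 (.d k16 k31 k32 2 3)))), (.s k4 k8 1 (.s k85 k247
  12 (.s k170 k255 14 (.s k243 k89 14 (.d k162 k174 k81 1 12)))))] (.c k218 (.q k230 [(.s k42 k58 3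
  (.s k21 k63 6 (.s k48 k37 6 (.d k16 k31 k32 2 3)))), (.s k4 k8 1 (.s k85 k247 12 (.s k170 k255 14
  (.s k243 k89 14 (.d k162 k174 k81 1 12)))))] .n) (.c k230 (.q k218 [(.s k42 k58 3 (.s k21 k63 6
  (.s k48 k37 6 (.d k16 k31 k32 2 3)))), (.s k4 k8 1 (.s k85 k247 12 (.s k170 k255 14 (.s k243 k89
  14 (.d k162 k174 k81 1 12)))))] .n) .n))) (.c k218 (.q k230 [(.s k207 k77 8 (.s k154 k178 5 (.d
  k48 k37 k101 6 14))), (.s k4 k8 1 (.s k85 k247 12 (.s k170 k255 14 (.s k243 k89 14 (.d k162 k174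
  k81 1 12)))))] (.c k50 (.l (.s k154 k178 5 (.s k207 k77 8 (.d k48 k37 k101 6 14)))) (.c k76 (.l
  (.s k48 k37 6 (.s k154 k178 5 (.d k207 k77 k101 8 14)))) (.c k154 (.q k50 [(.s k42 k58 3 (.s k21
  k63 6 (.s k48 k37 6 (.d k16 k31 k32 2 3)))), (.s k4 k8 1 (.s k85 k247 12 (.s k170 k255 14 (.s k243
  k89 14 (.d k162 k174 k81 1 12)))))] .n) .n)))) (.c k230 (.q k218 [(.s k207 k77 8 (.s k154 k178 5
  (.d k48 k37 k101 6 14))), (.s k4 k8 1 (.s k85 k247 12 (.s k170 k255 14 (.s k243 k89 14 (.d k162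
  k174 k81 1 12)))))] (.c k50 (.l (.s k154 k178 5 (.s k207 k77 8 (.d k48 k37 k101 6 14)))) (.c k76
  (.l (.s k48 k37 6 (.s k154 k178 5 (.d k207 k77 k101 8 14)))) (.c k154 (.q k50 [(.s k42 k58 3 (.s
  k21 k63 6 (.s k48 k37 6 (.d k16 k31 k32 2 3)))), (.s k4 k8 1 (.s k85 k247 12 (.s k170 k255 14 (.s
  k243 k89 14 (.d k162 k174 k81 1 12)))))] .n) .n)))) .n)))))) .n)))))) (.c k242 (.q k166 [(.s k42
  k58 3 (.s k21 k63 6 (.s k48 k37 6 (.d k16 k31 k32 2 3)))), (.s k4 k8 1 (.s k85 k247 12 (.s k170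
  k255 14 (.s k243 k89 14 (.d k162 k174 k81 1 12)))))] (.c k142 (.q k206 [(.s k42 k58 3 (.s k21 k63
  6 (.s k48 k37 6 (.d k16 k31 k32 2 3)))), (.s k4 k8 1 (.s k85 k247 12 (.s k170 k255 14 (.s k243 k89
  14 (.d k162 k174 k81 1 12)))))] .n) (.c k206 (.q k142 [(.s k207 k77 8 (.s k154 k178 5 (.d k48 k37
  k101 6 14))), (.s k4 k8 1 (.s k85 k247 12 (.s k170 k255 14 (.s k243 k89 14 (.d k162 k174 k81 1
  12)))))] (.c k50 (.l (.s k154 k178 5 (.s k207 k77 8 (.d k48 k37 k101 6 14)))) (.c k76 (.l (.s k48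
  k37 6 (.s k154 k178 5 (.d k207 k77 k101 8 14)))) (.c k154 (.q k50 [(.s k42 k58 3 (.s k21 k63 6 (.s
  k48 k37 6 (.d k16 k31 k32 2 3)))), (.s k4 k8 1 (.s k85 k247 12 (.s k170 k255 14 (.s k243 k89 14
  (.d k162 k174 k81 1 12)))))] (.c k218 (.q k230 [(.s k42 k58 3 (.s k21 k63 6 (.s k48 k37 6 (.d k16
  k31 k32 2 3)))), (.s k4 k8 1 (.s k85 k247 12 (.s k170 k255 14 (.s k243 k89 14 (.d k162 k174 k81 1
  12)))))] .n) (.c k230 (.q k218 [(.s k42 k58 3 (.s k21 k63 6 (.s k48 k37 6 (.d k16 k31 k32 2 3)))),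
  (.s k4 k8 1 (.s k85 k247 12 (.s k170 k255 14 (.s k243 k89 14 (.d k162 k174 k81 1 12)))))] .n)
  .n))) (.c k218 (.q k230 [(.s k207 k77 8 (.s k154 k178 5 (.d k48 k37 k101 6 14))), (.s k4 k8 1 (.s
  k85 k247 12 (.s k170 k255 14 (.s k243 k89 14 (.d k162 k174 k81 1 12)))))] (.c k50 (.l (.s k154
  k178 5 (.s k207 k77 8 (.d k48 k37 k101 6 14)))) (.c k76 (.l (.s k48 k37 6 (.s k154 k178 5 (.d k207
  k77 k101 8 14)))) (.c k154 (.q k50 [(.s k42 k58 3 (.s k21 k63 6 (.s k48 k37 6 (.d k16 k31 k32 2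
  3)))), (.s k4 k8 1 (.s k85 k247 12 (.s k170 k255 14 (.s k243 k89 14 (.d k162 k174 k81 1 12)))))]
  .n) .n)))) (.c k230 (.q k218 [(.s k207 k77 8 (.s k154 k178 5 (.d k48 k37 k101 6 14))), (.s k4 k8 1
  (.s k85 k247 12 (.s k170 k255 14 (.s k243 k89 14 (.d k162 k174 k81 1 12)))))] (.c k50 (.l (.s k154
  k178 5 (.s k207 k77 8 (.d k48 k37 k101 6 14)))) (.c k76 (.l (.s k48 k37 6 (.s k154 k178 5 (.d k207
  k77 k101 8 14)))) (.c k154 (.q k50 [(.s k42 k58 3 (.s k21 k63 6 (.s k48 k37 6 (.d k16 k31 k32 2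
  3)))), (.s k4 k8 1 (.s k85 k247 12 (.s k170 k255 14 (.s k243 k89 14 (.d k162 k174 k81 1 12)))))]
  .n) .n)))) .n)))))) .n))) .n))))))) .n)))))))))))))) (.c k114 (.q k78 [(.s k8 k4 1 (.s k14 k13 0
  (.s k10 k5 2 (.s k6 k2 1 (.d k9 k11 k3 0 2))))), (.s k13 k14 0 (.s k141 k204 8 (.s k77 k205 7 (.s
  k207 k142 8 (.d k79 k76 k143 0 7))))), (.s k4 k8 1 (.s k204 k141 8 (.s k68 k136 9 (.s k132 k196 7
  (.s k72 k192 9 (.d k76 k64 k140 1 7))))))] .n) .n))))))))))))))))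

def t103 : T TT 256 :=
  (.q k21 [(.s k10 k5 2 (.s k42 k63 6 (.s k26 k58 3 (.s k48 k37 6 (.d k16 k31 k32 2 3)))))] (.c k5
  (.q k12 [(.s k4 k8 1 (.s k63 k42 6 (.s k29 k46 4 (.s k25 k17 1 (.d k38 k55 k51 4 6))))), (.s k4 k8
  1 (.s k38 k55 4 (.s k14 k13 0 (.s k26 k50 5 (.s k16 k31 2 (.d k48 k32 k37 3 6)))))), (.s k63 k42 6
  (.s k14 k13 0 (.s k46 k29 4 (.s k30 k62 3 (.s k45 k60 4 (.d k47 k44 k31 0 3))))))] .n) (.c k10 (.q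
  k12 [(.s k8 k4 1 (.s k42 k63 6 (.s k25 k59 4 (.s k51 k38 6 (.d k17 k29 k34 1 4))))), (.s k63 k42 6
  (.s k14 k13 0 (.s k46 k29 4 (.s k30 k62 3 (.s k45 k60 4 (.d k47 k44 k31 0 3)))))), (.s k4 k8 1 (.s
  k38 k55 4 (.s k14 k13 0 (.s k26 k50 5 (.s k16 k31 2 (.d k48 k32 k37 3 6))))))] (.c k170 (.q k250
  [(.s k8 k4 1 (.s k42 k63 6 (.s k25 k59 4 (.s k51 k38 6 (.d k17 k29 k34 1 4))))), (.s k63 k42 6 (.s
  k14 k13 0 (.s k46 k29 4 (.s k30 k62 3 (.s k45 k60 4 (.d k47 k44 k31 0 3)))))), (.s k4 k8 1 (.s k38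
  k55 4 (.s k14 k13 0 (.s k26 k50 5 (.s k16 k31 2 (.d k48 k32 k37 3 6))))))] .n) (.c k250 (.q k170
  [(.s k8 k4 1 (.s k42 k63 6 (.s k25 k59 4 (.s k51 k38 6 (.d k17 k29 k34 1 4))))), (.s k63 k42 6 (.s
  k85 k255 14 (.s k149 k213 7 (.s k192 k106 14 (.d k128 k191 k64 6 7))))), (.s k4 k8 1 (.s k85 k255
  14 (.s k166 k247 12 (.s k243 k89 14 (.d k162 k174 k81 1 12)))))] .n) .n))) (.c k16 (.q k12 [(.s k4
  k8 1 (.s k5 k10 2 (.s k6 k7 0 (.s k9 k3 2 (.d k13 k14 k1 0 1))))), (.s k4 k8 1 (.s k42 k63 6 (.s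
  k38 k55 4 (.s k51 k25 6 (.d k34 k46 k17 1 4))))), (.s k5 k10 2 (.s k63 k42 6 (.s k37 k53 3 (.s k13
  k14 0 (.s k29 k46 4 (.d k25 k17 k49 1 5))))))] .n) (.c k26 (.f k10 k5 2 (.f k42 k63 6 (.q k12 [(.s
  k4 k8 1 (.s k38 k55 4 (.s k34 k46 1 (.d k51 k17 k25 4 6)))), (.s k14 k13 0 (.s k2 k6 1 (.s k22 k62
  5 (.s k20 k23 0 (.s k60 k40 5 (.d k3 k1 k41 0 6))))))] (.c k4 (.l (.s k14 k13 0 (.s k6 k2 1 (.s k9
  k3 2 (.s k8 k11 0 (.s k25 k59 4 (.s k51 k38 6 (.d k17 k29 k34 1 4)))))))) (.c k154 (.q k218 [(.s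
  k4 k8 1 (.s k38 k55 4 (.s k34 k46 1 (.d k51 k17 k25 4 6)))), (.s k14 k13 0 (.s k2 k6 1 (.s k22 k62
  5 (.s k20 k23 0 (.s k60 k40 5 (.d k3 k1 k41 0 6))))))] (.c k4 (.l (.s k14 k13 0 (.s k6 k2 1 (.s k9
  k3 2 (.s k8 k11 0 (.s k25 k59 4 (.s k51 k38 6 (.d k17 k29 k34 1 4)))))))) .n)) (.c k218 (.q k154
  [(.s k4 k8 1 (.s k38 k55 4 (.s k34 k46 1 (.d k51 k17 k25 4 6)))), (.s k14 k13 0 (.s k2 k6 1 (.s
  k22 k62 5 (.s k20 k23 0 (.s k60 k40 5 (.d k3 k1 k41 0 6))))))] (.c k4 (.l (.s k14 k13 0 (.s k6 k2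
  1 (.s k9 k3 2 (.s k8 k11 0 (.s k25 k59 4 (.s k51 k38 6 (.d k17 k29 k34 1 4)))))))) .n)) .n))))))
  (.c k31 (.l (.s k5 k10 2 (.s k42 k63 6 (.s k37 k53 3 (.s k48 k26 6 (.d k32 k47 k16 2 3)))))) (.c
  k32 (.l (.s k5 k10 2 (.s k63 k42 6 (.s k37 k53 3 (.s k26 k48 6 (.d k31 k47 k16 3 2)))))) (.c k37
  (.q k12 [(.s k4 k8 1 (.s k42 k63 6 (.s k38 k55 4 (.s k34 k46 1 (.d k51 k17 k25 4 6))))), (.s k4 k8
  1 (.s k5 k10 2 (.s k6 k7 0 (.s k9 k3 2 (.d k13 k14 k1 0 1))))), (.s k5 k10 2 (.s k63 k42 6 (.s k13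
  k14 0 (.s k29 k46 4 (.s k61 k45 3 (.d k1 k41 k9 5 1))))))] .n) (.c k42 (.q k12 [(.s k8 k4 1 (.s
  k10 k5 2 (.s k9 k11 0 (.s k6 k3 2 (.d k14 k13 k2 0 1))))), (.s k4 k8 1 (.s k38 k55 4 (.s k14 k13 0
  (.s k26 k50 5 (.s k48 k37 6 (.d k16 k32 k31 3 2)))))), (.s k5 k10 2 (.s k37 k53 3 (.s k13 k14 0
  (.s k25 k49 5 (.s k51 k38 6 (.d k17 k34 k29 4 1)))))), (.s k4 k8 1 (.s k5 k10 2 (.s k38 k55 4 (.s
  k37 k53 3 (.s k36 k39 0 (.d k48 k26 k24 6 5))))))] .n) (.c k48 (.q k12 [(.s k4 k8 1 (.s k5 k10 2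
  (.s k6 k7 0 (.s k9 k3 2 (.d k13 k14 k1 0 1))))), (.s k4 k8 1 (.s k42 k63 6 (.s k38 k55 4 (.s k51
  k25 6 (.d k34 k46 k17 1 4))))), (.s k5 k10 2 (.s k63 k42 6 (.s k37 k53 3 (.s k13 k14 0 (.s k29 k46
  4 (.d k25 k17 k49 1 5))))))] .n) (.c k53 (.l (.s k10 k5 2 (.s k42 k63 6 (.s k26 k58 3 (.s k48 k37
  6 (.d k16 k31 k32 2 3)))))) (.c k58 (.l (.s k5 k10 2 (.s k42 k63 6 (.s k37 k53 3 (.s k48 k26 6 (.d
  k32 k47 k16 2 3)))))) (.c k63 (.q k12 [(.s k8 k4 1 (.s k14 k13 0 (.s k10 k5 2 (.s k6 k2 1 (.d k9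
  k11 k3 0 2))))), (.s k4 k8 1 (.s k38 k55 4 (.s k14 k13 0 (.s k26 k50 5 (.s k48 k37 6 (.d k16 k31
  k32 2 3)))))), (.s k5 k10 2 (.s k37 k53 3 (.s k13 k14 0 (.s k25 k49 5 (.s k51 k38 6 (.d k17 k29
  k34 1 4)))))), (.s k4 k8 1 (.s k5 k10 2 (.s k38 k55 4 (.s k37 k53 3 (.s k51 k25 6 (.d k39 k36 k27
  0 5))))))] .n) .n)))))))))))))

def t106 : T TT 256 :=
  (.q k74 [(.s k10 k5 2 (.s k138 k202 7 (.s k69 k207 10 (.s k192 k133 10 (.d k64 k79 k128 2 7))))),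
  (.s k5 k10 2 (.s k133 k192 10 (.s k69 k197 7 (.s k207 k138 10 (.d k79 k64 k143 2 7)))))] (.c k5
  (.q k12 [(.s k13 k14 0 (.s k133 k192 10 (.s k73 k193 9 (.s k195 k134 10 (.d k75 k72 k135 0 9))))),
  (.s k4 k8 1 (.s k192 k133 10 (.s k128 k64 7 (.s k132 k72 9 (.s k68 k196 7 (.d k136 k140 k204 1
  9)))))), (.s k4 k8 1 (.s k14 k13 0 (.s k134 k194 9 (.s k69 k199 8 (.s k207 k138 10 (.d k79 k64
  k143 2 7))))))] .n) (.c k10 (.q k12 [(.s k14 k13 0 (.s k134 k194 9 (.s k73 k195 10 (.s k192 k133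
  10 (.d k72 k75 k132 0 9))))), (.s k4 k8 1 (.s k192 k133 10 (.s k128 k64 7 (.s k132 k72 9 (.s k68
  k196 7 (.d k136 k140 k204 1 9)))))), (.s k4 k8 1 (.s k14 k13 0 (.s k134 k194 9 (.s k69 k199 8 (.s
  k207 k138 10 (.d k79 k64 k143 2 7))))))] (.c k170 (.q k250 [(.s k14 k13 0 (.s k134 k194 9 (.s k73
  k195 10 (.s k192 k133 10 (.d k72 k75 k132 0 9))))), (.s k4 k8 1 (.s k192 k133 10 (.s k128 k64 7
  (.s k132 k72 9 (.s k68 k196 7 (.d k136 k140 k204 1 9)))))), (.s k4 k8 1 (.s k14 k13 0 (.s k134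
  k194 9 (.s k69 k199 8 (.s k207 k138 10 (.d k79 k64 k143 2 7))))))] (.c k42 (.q k234 [(.s k14 k13 0
  (.s k134 k194 9 (.s k73 k195 10 (.s k192 k133 10 (.d k72 k75 k132 0 9))))), (.s k192 k133 10 (.s
  k64 k128 7 (.s k69 k79 2 (.s k202 k218 3 (.d k207 k138 k197 10 2))))), (.s k4 k8 1 (.s k14 k13 0
  (.s k134 k194 9 (.s k69 k199 8 (.s k207 k138 10 (.d k79 k64 k143 2 7))))))] (.c k26 (.q k58 [(.s
  k14 k13 0 (.s k134 k194 9 (.s k73 k195 10 (.s k192 k133 10 (.d k72 k75 k132 0 9))))), (.s k4 k8 1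
  (.s k192 k133 10 (.s k128 k64 7 (.s k132 k72 9 (.s k68 k196 7 (.d k136 k140 k204 1 9)))))), (.s k4
  k8 1 (.s k14 k13 0 (.s k134 k194 9 (.s k69 k199 8 (.s k207 k138 10 (.d k79 k64 k143 2 7))))))] (.c
  k154 (.l (.s k218 k202 3 (.s k13 k14 0 (.s k133 k192 10 (.s k73 k193 9 (.s k195 k134 10 (.d k75
  k72 k135 0 9))))))) (.c k218 (.q k154 [(.s k14 k13 0 (.s k134 k194 9 (.s k73 k195 10 (.s k192 k133
  10 (.d k72 k75 k132 0 9))))), (.s k4 k8 1 (.s k192 k133 10 (.s k128 k64 7 (.s k132 k72 9 (.s k68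
  k196 7 (.d k136 k140 k204 1 9)))))), (.s k4 k8 1 (.s k14 k13 0 (.s k134 k194 9 (.s k69 k199 8 (.s
  k207 k138 10 (.d k79 k64 k143 2 7))))))] .n) .n))) (.c k58 (.q k26 [(.s k192 k133 10 (.s k64 k128
  7 (.s k69 k79 2 (.s k202 k218 3 (.d k207 k138 k197 10 2))))), (.s k13 k14 0 (.s k37 k48 6 (.s k25
  k49 5 (.s k51 k38 6 (.d k27 k24 k39 0 5)))))] (.c k154 (.l (.s k202 k218 3 (.s k192 k133 10 (.s
  k64 k128 7 (.s k69 k79 2 (.d k207 k138 k197 10 2)))))) (.c k202 (.q k154 [(.s k48 k37 6 (.s k207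
  k101 14 (.s k69 k138 10 (.d k79 k64 k143 2 7)))), (.s k13 k14 0 (.s k133 k192 10 (.s k73 k193 9
  (.s k195 k134 10 (.d k75 k72 k135 0 9)))))] (.c k207 (.l (.s k13 k14 0 (.s k37 k48 6 (.s k25 k49 5
  (.s k51 k38 6 (.d k27 k24 k39 0 5)))))) .n)) .n))) .n))) (.c k234 (.q k42 [(.s k8 k4 1 (.s k63 k21
  6 (.s k25 k59 4 (.s k38 k51 6 (.d k46 k34 k29 1 4))))), (.s k14 k13 0 (.s k134 k194 9 (.s k73 k195
  10 (.s k192 k133 10 (.d k72 k75 k132 0 9)))))] .n) .n))) (.c k250 (.q k170 [(.s k14 k13 0 (.s k134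
  k194 9 (.s k73 k195 10 (.s k192 k133 10 (.d k72 k75 k132 0 9))))), (.s k4 k8 1 (.s k85 k255 14 (.s
  k166 k247 12 (.s k162 k174 1 (.d k243 k81 k89 12 14)))))] .n) .n))) (.c k64 (.l (.s k10 k5 2 (.s
  k138 k202 7 (.s k207 k69 10 (.s k133 k192 10 (.d k143 k128 k79 2 7)))))) (.c k69 (.q k12 [(.s k4
  k8 1 (.s k5 k10 2 (.s k6 k7 0 (.s k9 k3 2 (.d k13 k14 k1 0 1))))), (.s k13 k14 0 (.s k133 k192 10
  (.s k73 k193 9 (.s k75 k72 0 (.d k195 k135 k134 9 10))))), (.s k4 k8 1 (.s k192 k133 10 (.s k128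
  k64 7 (.s k132 k72 9 (.s k68 k196 7 (.d k136 k140 k204 1 9))))))] .n) (.c k79 (.q k12 [(.s k8 k4 1
  (.s k14 k13 0 (.s k10 k5 2 (.s k6 k2 1 (.d k9 k11 k3 0 2))))), (.s k13 k14 0 (.s k133 k192 10 (.s
  k73 k193 9 (.s k195 k134 10 (.d k75 k72 k135 0 9))))), (.s k4 k8 1 (.s k192 k133 10 (.s k128 k64 7
  (.s k132 k72 9 (.s k68 k196 7 (.d k136 k140 k204 1 9))))))] (.c k101 (.q k112 [(.s k8 k4 1 (.s k14
  k13 0 (.s k10 k5 2 (.s k6 k2 1 (.d k9 k11 k3 0 2))))), (.s k13 k14 0 (.s k133 k192 10 (.s k73 k193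
  9 (.s k195 k134 10 (.d k75 k72 k135 0 9))))), (.s k4 k8 1 (.s k192 k133 10 (.s k128 k64 7 (.s k132
  k72 9 (.s k68 k196 7 (.d k136 k140 k204 1 9))))))] (.c k96 (.q k111 [(.s k8 k4 1 (.s k14 k13 0 (.s
  k10 k5 2 (.s k6 k2 1 (.d k9 k11 k3 0 2))))), (.s k13 k14 0 (.s k133 k192 10 (.s k73 k193 9 (.s
  k195 k134 10 (.d k75 k72 k135 0 9))))), (.s k4 k8 1 (.s k192 k133 10 (.s k128 k64 7 (.s k132 k72 9
  (.s k68 k196 7 (.d k136 k140 k204 1 9))))))] .n) (.c k111 (.q k96 [(.s k192 k133 10 (.d k64 k80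
  k128 3 7)), (.s k4 k8 1 (.s k5 k10 2 (.s k6 k7 0 (.s k9 k3 2 (.d k13 k14 k1 0 1)))))] (.c k95 (.q
  k127 [(.s k192 k133 10 (.d k64 k80 k128 3 7)), (.s k4 k8 1 (.s k5 k10 2 (.s k6 k7 0 (.s k9 k3 2
  (.d k13 k14 k1 0 1)))))] (.c k80 (.q k85 [(.s k192 k133 10 (.s k48 k144 11 (.s k117 k122 2 (.d
  k255 k186 k170 10 14)))), (.s k8 k4 1 (.s k10 k5 2 (.s k9 k11 0 (.s k6 k3 2 (.d k14 k13 k2 0
  1)))))] .n) (.c k85 (.l (.s k80 k64 3 (.s k240 k160 11 (.s k192 k133 10 (.d k48 k176 k144 7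
  11))))) .n))) (.c k127 (.q k95 [(.s k192 k133 10 (.d k64 k80 k128 3 7)), (.s k4 k8 1 (.s k5 k10 2
  (.s k6 k7 0 (.s k9 k3 2 (.d k13 k14 k1 0 1)))))] (.c k64 (.q k85 [(.d k255 k175 k170 11 14), (.s
  k4 k8 1 (.s k5 k10 2 (.s k6 k7 0 (.s k9 k3 2 (.d k13 k14 k1 0 1)))))] (.c k170 (.l (.s k4 k8 1 (.s
  k166 k247 12 (.s k89 k243 14 (.s k255 k175 11 (.d k93 k81 k174 1 12)))))) .n)) (.c k85 (.l (.s k64
  k80 3 (.d k192 k128 k133 7 10))) .n))) .n))) .n))) (.c k112 (.q k101 [(.s k8 k4 1 (.s k14 k13 0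
  (.s k10 k5 2 (.s k6 k2 1 (.d k9 k11 k3 0 2))))), (.s k13 k14 0 (.s k133 k192 10 (.s k73 k193 9 (.s
  k195 k134 10 (.d k75 k72 k135 0 9))))), (.s k4 k8 1 (.s k192 k133 10 (.s k128 k64 7 (.s k132 k72 9
  (.s k68 k196 7 (.d k136 k140 k204 1 9))))))] .n) .n))) (.c k133 (.q k12 [(.s k4 k8 1 (.s k5 k10 2
  (.s k6 k7 0 (.s k9 k3 2 (.d k13 k14 k1 0 1))))), (.s k4 k8 1 (.s k14 k13 0 (.s k134 k194 9 (.s k69
  k199 8 (.s k207 k138 10 (.d k79 k143 k64 7 2)))))), (.s k10 k5 2 (.s k138 k202 7 (.s k14 k13 0 (.s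
  k134 k194 9 (.s k130 k142 1 (.d k195 k73 k65 10 8)))))), (.s k8 k4 1 (.s k10 k5 2 (.s k138 k202 7
  (.s k73 k203 8 (.s k195 k134 10 (.d k75 k135 k72 9 0))))))] .n) (.c k138 (.q k12 [(.s k8 k4 1 (.s
  k10 k5 2 (.s k9 k11 0 (.s k6 k3 2 (.d k14 k13 k2 0 1))))), (.s k13 k14 0 (.s k133 k192 10 (.s k73
  k193 9 (.s k195 k134 10 (.d k75 k72 k135 0 9))))), (.s k4 k8 1 (.s k192 k133 10 (.s k128 k64 7 (.s
  k132 k72 9 (.s k68 k196 7 (.d k136 k140 k204 1 9))))))] .n) (.c k192 (.q k12 [(.s k8 k4 1 (.s k14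
  k13 0 (.s k10 k5 2 (.s k6 k2 1 (.d k9 k11 k3 0 2))))), (.s k4 k8 1 (.s k14 k13 0 (.s k134 k194 9
  (.s k69 k199 8 (.s k207 k138 10 (.d k79 k64 k143 2 7)))))), (.s k10 k5 2 (.s k138 k202 7 (.s k207
  k69 10 (.s k14 k13 0 (.s k142 k77 8 (.d k134 k130 k194 1 9)))))), (.s k8 k4 1 (.s k10 k5 2 (.s
  k138 k202 7 (.s k73 k203 8 (.s k195 k134 10 (.d k75 k72 k135 0 9))))))] (.c k63 (.q k149 [(.s k8
  k4 1 (.s k14 k13 0 (.s k10 k5 2 (.s k6 k2 1 (.d k9 k11 k3 0 2))))), (.s k4 k8 1 (.s k14 k13 0 (.s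
  k134 k194 9 (.s k69 k199 8 (.s k207 k138 10 (.d k79 k64 k143 2 7)))))), (.s k10 k5 2 (.s k138 k202
  7 (.s k207 k69 10 (.s k14 k13 0 (.s k142 k77 8 (.d k134 k130 k194 1 9)))))), (.s k8 k4 1 (.s k10
  k5 2 (.s k138 k202 7 (.s k73 k203 8 (.s k195 k134 10 (.d k75 k72 k135 0 9))))))] .n) (.c k149 (.q
  k63 [(.s k4 k8 1 (.s k5 k10 2 (.s k6 k7 0 (.s k9 k3 2 (.d k13 k14 k1 0 1))))), (.s k4 k8 1 (.s k21
  k42 6 (.s k38 k55 4 (.s k25 k51 6 (.d k29 k17 k46 1 4))))), (.s k5 k10 2 (.s k21 k42 6 (.s k37 k53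
  3 (.s k26 k48 6 (.d k31 k16 k47 2 3)))))] (.c k31 (.q k208 [(.s k4 k8 1 (.s k5 k10 2 (.s k6 k7 0
  (.s k9 k3 2 (.d k13 k14 k1 0 1))))), (.s k4 k8 1 (.s k21 k42 6 (.s k38 k55 4 (.s k25 k51 6 (.d k29
  k17 k46 1 4))))), (.s k5 k10 2 (.s k21 k42 6 (.s k37 k53 3 (.s k13 k14 0 (.s k29 k46 4 (.d k25 k17
  k49 1 5))))))] (.c k170 (.l (.s k8 k4 1 (.s k10 k5 2 (.s k9 k11 0 (.s k6 k3 2 (.d k14 k13 k2 0
  1)))))) .n)) (.c k170 (.l (.s k8 k4 1 (.s k10 k5 2 (.s k9 k11 0 (.s k6 k3 2 (.d k14 k13 k2 0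
  1)))))) (.c k208 (.l (.s k31 k47 3 (.s k5 k10 2 (.s k21 k42 6 (.s k37 k53 3 (.d k26 k16 k48 2
  6)))))) .n)))) .n))) (.c k197 (.l (.s k10 k5 2 (.s k138 k202 7 (.s k69 k207 10 (.s k192 k133 10
  (.d k64 k79 k128 2 7)))))) (.c k202 (.l (.s k5 k10 2 (.s k133 k192 10 (.s k69 k197 7 (.s k207 k138
  10 (.d k79 k64 k143 2 7)))))) (.c k207 (.q k12 [(.s k8 k4 1 (.s k14 k13 0 (.s k10 k5 2 (.s k6 k2 1
  (.d k9 k11 k3 0 2))))), (.s k13 k14 0 (.s k133 k192 10 (.s k73 k193 9 (.s k195 k134 10 (.d k75 k72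
  k135 0 9))))), (.s k4 k8 1 (.s k192 k133 10 (.s k128 k64 7 (.s k132 k72 9 (.s k68 k196 7 (.d k136
  k140 k204 1 9))))))] .n) .n))))))))))))

def t107 : T TT 256 :=
  (.q k74 [(.s k10 k5 2 (.s k138 k202 7 (.s k207 k69 10 (.s k133 k192 10 (.d k143 k128 k79 2 7)))))]
  (.c k5 (.q k12 [(.s k13 k14 0 (.s k133 k192 10 (.s k73 k193 9 (.s k195 k134 10 (.d k75 k72 k135 0
  9))))), (.s k4 k8 1 (.s k192 k133 10 (.s k128 k64 7 (.s k132 k72 9 (.s k68 k196 7 (.d k136 k140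
  k204 1 9)))))), (.s k4 k8 1 (.s k14 k13 0 (.s k134 k194 9 (.s k69 k199 8 (.s k207 k138 10 (.d k79
  k64 k143 2 7))))))] .n) (.c k10 (.q k12 [(.s k14 k13 0 (.s k134 k194 9 (.s k195 k73 10 (.s k133
  k192 10 (.d k135 k132 k75 0 9))))), (.s k4 k8 1 (.s k192 k133 10 (.s k128 k64 7 (.s k132 k72 9 (.s
  k68 k196 7 (.d k136 k140 k204 1 9)))))), (.s k4 k8 1 (.s k14 k13 0 (.s k134 k194 9 (.s k69 k199 8
  (.s k207 k138 10 (.d k79 k64 k143 2 7))))))] (.c k170 (.q k250 [(.s k14 k13 0 (.s k134 k194 9 (.s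
  k195 k73 10 (.s k133 k192 10 (.d k135 k132 k75 0 9))))), (.s k4 k8 1 (.s k192 k133 10 (.s k128 k64
  7 (.s k132 k72 9 (.s k68 k196 7 (.d k136 k140 k204 1 9)))))), (.s k4 k8 1 (.s k14 k13 0 (.s k134
  k194 9 (.s k69 k199 8 (.s k207 k138 10 (.d k79 k64 k143 2 7))))))] .n) (.c k250 (.q k170 [(.s k14
  k13 0 (.s k134 k194 9 (.s k73 k195 10 (.s k192 k133 10 (.d k72 k75 k132 0 9))))), (.s k4 k8 1 (.s
  k85 k255 14 (.s k166 k247 12 (.s k243 k89 14 (.d k162 k174 k81 1 12)))))] .n) .n))) (.c k69 (.q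
  k12 [(.s k4 k8 1 (.s k5 k10 2 (.s k6 k7 0 (.s k9 k3 2 (.d k13 k14 k1 0 1))))), (.s k13 k14 0 (.s
  k133 k192 10 (.s k73 k193 9 (.s k75 k72 0 (.d k195 k135 k134 9 10))))), (.s k4 k8 1 (.s k192 k133
  10 (.s k128 k64 7 (.s k132 k72 9 (.s k68 k196 7 (.d k136 k140 k204 1 9))))))] .n) (.c k79 (.q k12
  [(.s k8 k4 1 (.s k14 k13 0 (.s k10 k5 2 (.s k6 k2 1 (.d k9 k11 k3 0 2))))), (.s k13 k14 0 (.s k133
  k192 10 (.s k73 k193 9 (.s k195 k134 10 (.d k75 k72 k135 0 9))))), (.s k4 k8 1 (.s k192 k133 10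
  (.s k128 k64 7 (.s k132 k72 9 (.s k68 k196 7 (.d k136 k140 k204 1 9))))))] (.c k101 (.q k112 [(.s
  k8 k4 1 (.s k14 k13 0 (.s k10 k5 2 (.s k6 k2 1 (.d k9 k11 k3 0 2))))), (.s k13 k14 0 (.s k133 k192
  10 (.s k73 k193 9 (.s k195 k134 10 (.d k75 k72 k135 0 9))))), (.s k4 k8 1 (.s k192 k133 10 (.s
  k128 k64 7 (.s k132 k72 9 (.s k68 k196 7 (.d k136 k140 k204 1 9))))))] .n) (.c k112 (.q k101 [(.s
  k8 k4 1 (.s k14 k13 0 (.s k10 k5 2 (.s k6 k2 1 (.d k9 k11 k3 0 2))))), (.s k13 k14 0 (.s k133 k192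
  10 (.s k73 k193 9 (.s k195 k134 10 (.d k75 k72 k135 0 9))))), (.s k4 k8 1 (.s k192 k133 10 (.s
  k128 k64 7 (.s k132 k72 9 (.s k68 k196 7 (.d k136 k140 k204 1 9))))))] .n) .n))) (.c k128 (.l (.s
  k5 k10 2 (.s k133 k192 10 (.s k69 k197 7 (.s k207 k138 10 (.d k79 k64 k143 2 7)))))) (.c k133 (.q
  k12 [(.s k4 k8 1 (.s k5 k10 2 (.s k6 k7 0 (.s k9 k3 2 (.d k13 k14 k1 0 1))))), (.s k4 k8 1 (.s k14
  k13 0 (.s k134 k194 9 (.s k69 k199 8 (.s k207 k138 10 (.d k79 k143 k64 7 2)))))), (.s k10 k5 2 (.s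
  k138 k202 7 (.s k14 k13 0 (.s k134 k194 9 (.s k130 k142 1 (.d k195 k73 k65 10 8)))))), (.s k8 k4 1
  (.s k10 k5 2 (.s k138 k202 7 (.s k73 k203 8 (.s k195 k134 10 (.d k75 k135 k72 9 0))))))] .n) (.c
  k138 (.q k12 [(.s k8 k4 1 (.s k10 k5 2 (.s k9 k11 0 (.s k6 k3 2 (.d k14 k13 k2 0 1))))), (.s k13
  k14 0 (.s k133 k192 10 (.s k73 k193 9 (.s k195 k134 10 (.d k75 k72 k135 0 9))))), (.s k4 k8 1 (.s
  k192 k133 10 (.s k128 k64 7 (.s k132 k72 9 (.s k68 k196 7 (.d k136 k140 k204 1 9))))))] .n) (.c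
  k143 (.l (.s k10 k5 2 (.s k138 k202 7 (.s k69 k207 10 (.s k192 k133 10 (.d k64 k79 k128 2 7))))))
  (.c k192 (.q k12 [(.s k8 k4 1 (.s k14 k13 0 (.s k10 k5 2 (.s k6 k2 1 (.d k9 k11 k3 0 2))))), (.s
  k4 k8 1 (.s k14 k13 0 (.s k134 k194 9 (.s k69 k199 8 (.s k207 k138 10 (.d k79 k64 k143 2 7)))))),
  (.s k10 k5 2 (.s k138 k202 7 (.s k207 k69 10 (.s k14 k13 0 (.s k142 k77 8 (.d k134 k130 k194 1
  9)))))), (.s k8 k4 1 (.s k10 k5 2 (.s k138 k202 7 (.s k73 k203 8 (.s k195 k134 10 (.d k75 k72 k135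
  0 9))))))] .n) (.c k197 (.l (.s k10 k5 2 (.s k138 k202 7 (.s k69 k207 10 (.s k192 k133 10 (.d k64
  k79 k128 2 7)))))) (.c k202 (.l (.s k5 k10 2 (.s k133 k192 10 (.s k69 k197 7 (.s k207 k138 10 (.d
  k79 k64 k143 2 7)))))) (.c k207 (.q k12 [(.s k8 k4 1 (.s k14 k13 0 (.s k10 k5 2 (.s k6 k2 1 (.d k9
  k11 k3 0 2))))), (.s k13 k14 0 (.s k133 k192 10 (.s k73 k193 9 (.s k195 k134 10 (.d k75 k72 k135 0
  9))))), (.s k4 k8 1 (.s k192 k133 10 (.s k128 k64 7 (.s k132 k72 9 (.s k68 k196 7 (.d k136 k140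
  k204 1 9))))))] .n) .n)))))))))))))

def t111 : T TT 256 :=
  (.q k21 [(.s k5 k10 2 (.s k63 k42 6 (.s k37 k53 3 (.s k26 k48 6 (.d k31 k16 k47 2 3))))), (.s k10
  k5 2 (.s k42 k63 6 (.s k26 k58 3 (.s k48 k37 6 (.d k16 k31 k32 2 3)))))] (.c k5 (.q k12 [(.s k4 k8
  1 (.s k63 k42 6 (.s k38 k55 4 (.s k25 k51 6 (.d k29 k17 k46 1 4))))), (.s k4 k8 1 (.s k38 k55 4
  (.s k14 k13 0 (.s k26 k50 5 (.s k16 k31 2 (.d k48 k32 k37 3 6)))))), (.s k63 k42 6 (.s k14 k13 0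
  (.s k46 k29 4 (.s k30 k62 3 (.s k45 k60 4 (.d k47 k44 k31 0 3))))))] .n) (.c k10 (.q k12 [(.s k8
  k4 1 (.s k42 k63 6 (.s k25 k59 4 (.s k51 k38 6 (.d k17 k29 k34 1 4))))), (.s k63 k42 6 (.s k14 k13
  0 (.s k46 k29 4 (.s k30 k62 3 (.s k45 k60 4 (.d k47 k44 k31 0 3)))))), (.s k4 k8 1 (.s k38 k55 4
  (.s k14 k13 0 (.s k26 k50 5 (.s k16 k31 2 (.d k48 k32 k37 3 6))))))] (.c k170 (.q k250 [(.s k8 k4
  1 (.s k42 k63 6 (.s k25 k59 4 (.s k51 k38 6 (.d k17 k29 k34 1 4))))), (.s k63 k42 6 (.s k14 k13 0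
  (.s k46 k29 4 (.s k30 k62 3 (.s k45 k60 4 (.d k47 k44 k31 0 3)))))), (.s k4 k8 1 (.s k38 k55 4 (.s
  k14 k13 0 (.s k26 k50 5 (.s k16 k31 2 (.d k48 k32 k37 3 6))))))] .n) (.c k250 (.q k170 [(.s k8 k4
  1 (.s k42 k63 6 (.s k25 k59 4 (.s k51 k38 6 (.d k17 k29 k34 1 4))))), (.s k63 k42 6 (.s k85 k255
  14 (.s k149 k213 7 (.s k192 k106 14 (.d k128 k191 k64 6 7))))), (.s k4 k8 1 (.s k85 k255 14 (.s
  k166 k247 12 (.s k243 k89 14 (.d k162 k174 k81 1 12)))))] .n) .n))) (.c k16 (.q k12 [(.s k4 k8 1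
  (.s k5 k10 2 (.s k6 k7 0 (.s k9 k3 2 (.d k13 k14 k1 0 1))))), (.s k4 k8 1 (.s k42 k63 6 (.s k38
  k55 4 (.s k51 k25 6 (.d k34 k46 k17 1 4))))), (.s k5 k10 2 (.s k63 k42 6 (.s k37 k53 3 (.s k13 k14
  0 (.s k29 k46 4 (.d k25 k17 k49 1 5))))))] .n) (.c k26 (.f k10 k5 2 (.q k12 [(.s k14 k13 0 (.s k8
  k4 1 (.s k6 k2 1 (.d k9 k11 k3 0 2)))), (.s k4 k8 1 (.s k42 k63 6 (.s k38 k55 4 (.s k51 k25 6 (.d
  k34 k46 k17 1 4))))), (.s k63 k42 6 (.s k13 k14 0 (.s k29 k46 4 (.s k45 k61 3 (.s k30 k60 4 (.d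
  k31 k28 k47 0 3))))))] (.c k154 (.q k218 [(.s k14 k13 0 (.s k8 k4 1 (.s k6 k2 1 (.d k9 k11 k3 0
  2)))), (.s k4 k8 1 (.s k42 k63 6 (.s k38 k55 4 (.s k51 k25 6 (.d k34 k46 k17 1 4))))), (.s k63 k42
  6 (.s k13 k14 0 (.s k29 k46 4 (.s k45 k61 3 (.s k30 k60 4 (.d k31 k28 k47 0 3))))))] .n) (.c k218
  (.q k154 [(.s k14 k13 0 (.s k8 k4 1 (.s k6 k2 1 (.d k9 k11 k3 0 2)))), (.s k4 k8 1 (.s k42 k63 6
  (.s k38 k55 4 (.s k51 k25 6 (.d k34 k46 k17 1 4))))), (.s k63 k42 6 (.s k13 k14 0 (.s k29 k46 4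
  (.s k45 k61 3 (.s k30 k60 4 (.d k31 k28 k47 0 3))))))] .n) .n)))) (.c k31 (.l (.s k5 k10 2 (.s k42
  k63 6 (.s k37 k53 3 (.s k48 k26 6 (.d k32 k47 k16 2 3)))))) (.c k37 (.q k12 [(.s k4 k8 1 (.s k42
  k63 6 (.s k38 k55 4 (.s k34 k46 1 (.d k51 k17 k25 4 6))))), (.s k4 k8 1 (.s k5 k10 2 (.s k6 k7 0
  (.s k9 k3 2 (.d k13 k14 k1 0 1))))), (.s k5 k10 2 (.s k63 k42 6 (.s k13 k14 0 (.s k29 k46 4 (.s
  k61 k45 3 (.d k1 k41 k9 5 1))))))] .n) (.c k42 (.q k12 [(.s k8 k4 1 (.s k10 k5 2 (.s k9 k11 0 (.s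
  k6 k3 2 (.d k14 k13 k2 0 1))))), (.s k4 k8 1 (.s k38 k55 4 (.s k14 k13 0 (.s k26 k50 5 (.s k48 k37
  6 (.d k16 k32 k31 3 2)))))), (.s k5 k10 2 (.s k37 k53 3 (.s k13 k14 0 (.s k25 k49 5 (.s k51 k38 6
  (.d k17 k34 k29 4 1)))))), (.s k4 k8 1 (.s k5 k10 2 (.s k38 k55 4 (.s k37 k53 3 (.s k36 k39 0 (.d
  k48 k26 k24 6 5))))))] .n) (.c k48 (.q k12 [(.s k4 k8 1 (.s k5 k10 2 (.s k6 k7 0 (.s k9 k3 2 (.d
  k13 k14 k1 0 1))))), (.s k4 k8 1 (.s k42 k63 6 (.s k38 k55 4 (.s k51 k25 6 (.d k34 k46 k17 1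
  4))))), (.s k5 k10 2 (.s k63 k42 6 (.s k37 k53 3 (.s k13 k14 0 (.s k29 k46 4 (.d k25 k17 k49 1
  5))))))] .n) (.c k53 (.l (.s k10 k5 2 (.s k42 k63 6 (.s k26 k58 3 (.s k48 k37 6 (.d k16 k31 k32 2
  3)))))) (.c k58 (.l (.s k5 k10 2 (.s k42 k63 6 (.s k37 k53 3 (.s k48 k26 6 (.d k32 k47 k16 2
  3)))))) (.c k63 (.q k12 [(.s k8 k4 1 (.s k14 k13 0 (.s k10 k5 2 (.s k6 k2 1 (.d k9 k11 k3 0
  2))))), (.s k4 k8 1 (.s k38 k55 4 (.s k14 k13 0 (.s k26 k50 5 (.s k48 k37 6 (.d k16 k31 k32 2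
  3)))))), (.s k5 k10 2 (.s k37 k53 3 (.s k13 k14 0 (.s k25 k49 5 (.s k51 k38 6 (.d k17 k29 k34 1
  4)))))), (.s k4 k8 1 (.s k5 k10 2 (.s k38 k55 4 (.s k37 k53 3 (.s k51 k25 6 (.d k39 k36 k27 0
  5))))))] (.c k159 (.q k207 [(.s k4 k8 1 (.s k69 k138 10 (.s k134 k199 8 (.s k73 k195 10 (.d k77
  k65 k142 1 8))))), (.s k4 k8 1 (.s k5 k10 2 (.s k6 k7 0 (.s k9 k3 2 (.d k13 k14 k1 0 1))))), (.s
  k5 k10 2 (.s k69 k138 10 (.s k133 k197 7 (.s k74 k192 10 (.d k79 k64 k143 2 7)))))] .n) (.c k207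
  (.q k159 [(.s k8 k4 1 (.s k14 k13 0 (.s k10 k5 2 (.s k6 k2 1 (.d k9 k11 k3 0 2))))), (.s k4 k8 1
  (.s k38 k55 4 (.s k14 k13 0 (.s k26 k50 5 (.s k48 k37 6 (.d k16 k31 k32 2 3)))))), (.s k5 k10 2
  (.s k37 k53 3 (.s k13 k14 0 (.s k25 k49 5 (.s k51 k38 6 (.d k17 k29 k34 1 4)))))), (.s k4 k8 1 (.s
  k5 k10 2 (.s k38 k55 4 (.s k37 k53 3 (.s k51 k25 6 (.d k39 k36 k27 0 5))))))] .n) .n)))
  .n))))))))))))

def t112 : T TT 256 :=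
  (.q k207 [(.s k10 k5 2 (.s k138 k69 10 (.s k74 k202 7 (.s k133 k192 10 (.d k143 k79 k128 7 2)))))]
  (.c k5 (.q k12 [(.s k4 k8 1 (.s k69 k138 10 (.s k134 k199 8 (.s k73 k195 10 (.d k77 k65 k142 1
  8))))), (.s k13 k14 0 (.s k77 k142 8 (.s k141 k205 7 (.s k78 k204 8 (.d k79 k76 k143 0 7))))), (.s
  k4 k8 1 (.s k69 k138 10 (.s k134 k199 8 (.s k14 k13 0 (.s k74 k194 9 (.d k79 k64 k143 2 7))))))]
  (.c k79 (.q k101 [(.s k4 k8 1 (.s k69 k138 10 (.s k134 k199 8 (.s k73 k195 10 (.d k77 k65 k142 1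
  8))))), (.s k69 k138 10 (.s k48 k154 14 (.s k32 k16 3 (.s k170 k239 10 (.d k85 k117 k255 3
  14))))), (.s k77 k142 8 (.s k48 k154 14 (.s k36 k24 5 (.s k166 k231 8 (.d k89 k113 k243 5 14)))))]
  .n) (.c k101 (.l (.s k79 k143 7 (.s k13 k14 0 (.s k77 k142 8 (.s k141 k205 7 (.d k78 k76 k204 0
  8)))))) .n))) (.c k10 (.f k79 k143 7 (.q k12 [(.s k77 k142 8 (.s k78 k76 0 (.s k141 k204 8 (.d k13
  k14 k205 0 7)))), (.s k4 k8 1 (.s k69 k138 10 (.s k134 k199 8 (.s k73 k195 10 (.d k77 k65 k142 1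
  8))))), (.s k4 k8 1 (.s k69 k138 10 (.s k134 k199 8 (.s k14 k13 0 (.d k74 k64 k194 2 9)))))] (.c
  k170 (.q k250 [(.s k77 k142 8 (.s k78 k76 0 (.s k141 k204 8 (.d k13 k14 k205 0 7)))), (.s k4 k8 1
  (.s k69 k138 10 (.s k134 k199 8 (.s k73 k195 10 (.d k77 k65 k142 1 8))))), (.s k4 k8 1 (.s k69
  k138 10 (.s k134 k199 8 (.s k14 k13 0 (.d k74 k64 k194 2 9)))))] .n) (.c k250 (.q k170 [(.s k77
  k142 8 (.s k78 k76 0 (.s k141 k204 8 (.d k13 k14 k205 0 7)))), (.s k4 k8 1 (.s k69 k138 10 (.s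
  k134 k199 8 (.s k73 k195 10 (.d k77 k65 k142 1 8))))), (.s k4 k8 1 (.s k69 k138 10 (.s k134 k199 8
  (.s k14 k13 0 (.d k74 k64 k194 2 9)))))] .n) .n)))) (.c k69 (.f k79 k143 7 (.q k12 [(.s k77 k142 8
  (.s k78 k76 0 (.s k141 k204 8 (.d k13 k14 k205 0 7)))), (.s k4 k8 1 (.s k5 k10 2 (.s k6 k7 0 (.s
  k9 k3 2 (.d k13 k14 k1 0 1)))))] (.c k13 (.q k101 [(.s k48 k154 14 (.s k36 k24 5 (.s k166 k231 8
  (.s k89 k243 14 (.d k77 k113 k142 5 8))))), (.s k8 k4 1 (.s k77 k142 8 (.s k89 k113 5 (.s k170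
  k251 12 (.s k255 k85 14 (.d k239 k223 k32 3 10)))))), (.s k8 k4 1 (.s k48 k154 14 (.s k16 k32 3
  (.s k24 k36 5 (.s k40 k56 3 (.d k20 k28 k60 1 5))))))] .n) (.c k14 (.q k166 [(.s k4 k8 1 (.s k85
  k247 12 (.s k170 k255 14 (.s k243 k89 14 (.d k162 k174 k81 1 12))))), (.s k77 k142 8 (.s k89 k243
  14 (.s k101 k113 5 (.s k36 k231 8 (.d k48 k24 k154 5 14))))), (.s k4 k8 1 (.s k85 k247 12 (.s k142
  k77 8 (.s k154 k178 5 (.s k16 k223 10 (.d k48 k32 k101 3 14))))))] .n) .n)))) (.c k74 (.f k79 k143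
  7 (.q k12 [(.s k77 k142 8 (.s k78 k76 0 (.s k141 k204 8 (.d k13 k14 k205 0 7)))), (.s k4 k8 1 (.s
  k69 k138 10 (.s k134 k199 8 (.s k73 k195 10 (.d k77 k65 k142 1 8))))), (.s k4 k8 1 (.s k5 k10 2
  (.s k6 k7 0 (.s k9 k3 2 (.d k13 k14 k1 0 1)))))] (.c k106 (.q k122 [(.s k77 k142 8 (.s k78 k76 0
  (.s k141 k204 8 (.d k13 k14 k205 0 7)))), (.s k4 k8 1 (.s k69 k138 10 (.s k134 k199 8 (.s k73 k195
  10 (.d k77 k65 k142 1 8))))), (.s k4 k8 1 (.s k5 k10 2 (.s k6 k7 0 (.s k9 k3 2 (.d k13 k14 k1 0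
  1)))))] .n) (.c k122 (.q k106 [(.s k77 k142 8 (.s k78 k76 0 (.s k141 k204 8 (.d k13 k14 k205 0
  7)))), (.s k4 k8 1 (.s k69 k138 10 (.s k134 k199 8 (.s k73 k195 10 (.d k77 k65 k142 1 8))))), (.s
  k4 k8 1 (.s k5 k10 2 (.s k6 k7 0 (.s k9 k3 2 (.d k13 k14 k1 0 1)))))] (.c k117 (.q k127 [(.s k85
  k64 6 (.s k95 k111 3 (.d k255 k175 k170 11 14))), (.s k13 k14 0 (.s k77 k142 8 (.s k141 k205 7 (.d
  k78 k76 k204 0 8))))] .n) (.c k127 (.q k117 [(.s k77 k142 8 (.s k78 k76 0 (.s k141 k204 8 (.d k13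
  k14 k205 0 7)))), (.s k4 k8 1 (.s k69 k138 10 (.s k134 k199 8 (.s k73 k195 10 (.d k77 k65 k142 1
  8))))), (.s k4 k8 1 (.s k5 k10 2 (.s k6 k7 0 (.s k9 k3 2 (.d k13 k14 k1 0 1)))))] .n) .n))) .n))))
  (.c k79 (.q k101 [(.s k69 k138 10 (.s k48 k154 14 (.s k32 k16 3 (.s k170 k239 10 (.d k85 k117 k255
  3 14))))), (.s k5 k10 2 (.s k69 k138 10 (.s k197 k133 7 (.s k53 k149 11 (.s k37 k21 3 (.s k165
  k229 7 (.d k85 k117 k245 3 11))))))), (.s k10 k5 2 (.s k48 k154 14 (.s k16 k32 3 (.s k26 k37 6 (.s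
  k42 k58 3 (.d k21 k31 k63 2 6))))))] .n) (.c k101 (.l (.s k79 k143 7 (.s k5 k10 2 (.s k69 k138 10
  (.s k133 k197 7 (.d k74 k64 k192 2 10)))))) (.c k128 (.l (.s k5 k10 2 (.s k69 k138 10 (.s k133
  k197 7 (.s k74 k192 10 (.d k79 k143 k64 7 2)))))) (.c k133 (.q k12 [(.s k13 k14 0 (.s k77 k142 8
  (.s k141 k205 7 (.s k78 k204 8 (.d k79 k76 k143 0 7))))), (.s k4 k8 1 (.s k5 k10 2 (.s k6 k7 0 (.s
  k9 k3 2 (.d k13 k14 k1 0 1))))), (.s k4 k8 1 (.s k69 k138 10 (.s k134 k199 8 (.s k73 k195 10 (.d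
  k77 k65 k142 1 8)))))] (.c k79 (.q k101 [(.s k4 k8 1 (.s k69 k138 10 (.s k134 k199 8 (.s k73 k195
  10 (.d k77 k65 k142 1 8))))), (.s k4 k8 1 (.s k5 k10 2 (.s k6 k7 0 (.s k9 k3 2 (.d k13 k14 k1 0
  1))))), (.s k69 k138 10 (.s k48 k154 14 (.s k32 k16 3 (.s k170 k239 10 (.d k85 k117 k255 3
  14)))))] .n) (.c k101 (.l (.s k79 k143 7 (.s k13 k14 0 (.s k77 k142 8 (.s k141 k205 7 (.d k78 k76
  k204 0 8)))))) .n))) (.c k138 (.q k12 [(.s k8 k4 1 (.s k10 k5 2 (.s k9 k11 0 (.s k6 k3 2 (.d k14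
  k13 k2 0 1))))), (.s k13 k14 0 (.s k77 k142 8 (.s k141 k205 7 (.s k78 k204 8 (.d k79 k76 k143 0
  7)))))] (.c k13 (.q k101 [(.s k77 k142 8 (.s k48 k154 14 (.s k36 k24 5 (.s k166 k231 8 (.d k89
  k113 k243 5 14))))), (.s k8 k4 1 (.s k77 k142 8 (.s k89 k113 5 (.s k170 k251 12 (.s k255 k85 14
  (.d k239 k223 k32 3 10)))))), (.s k8 k4 1 (.s k48 k154 14 (.s k16 k32 3 (.s k24 k36 5 (.s k40 k56
  3 (.d k20 k28 k60 1 5))))))] (.c k170 (.l (.s k77 k142 8 (.s k154 k48 14 (.s k89 k113 5 (.s k243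
  k166 14 (.d k219 k231 k24 5 8)))))) .n)) (.c k14 (.q k166 [(.s k8 k4 1 (.s k89 k243 14 (.s k170
  k251 12 (.s k255 k85 14 (.d k174 k162 k93 1 12))))), (.s k77 k142 8 (.s k89 k243 14 (.s k101 k113
  5 (.s k36 k231 8 (.d k48 k24 k154 5 14))))), (.s k4 k8 1 (.s k85 k247 12 (.s k142 k77 8 (.s k154
  k178 5 (.s k16 k223 10 (.d k48 k101 k32 14 3))))))] (.c k79 (.q k101 [(.s k89 k243 14 (.d k77 k113
  k142 5 8)), (.s k243 k89 14 (.d k231 k219 k36 5 8)), (.s k142 k77 8 (.d k154 k178 k48 5 14))] .n)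
  (.c k101 (.l (.s k79 k143 7 (.s k4 k8 1 (.s k85 k247 12 (.s k170 k255 14 (.s k243 k89 14 (.d k162
  k174 k81 1 12))))))) .n))) (.c k79 (.q k101 [(.s k8 k4 1 (.s k10 k5 2 (.s k9 k11 0 (.s k6 k3 2 (.d
  k14 k13 k2 0 1))))), (.s k77 k142 8 (.s k48 k154 14 (.s k36 k24 5 (.s k166 k231 8 (.d k89 k113
  k243 5 14)))))] .n) (.c k101 (.l (.s k79 k143 7 (.s k13 k14 0 (.s k77 k142 8 (.s k141 k205 7 (.d
  k78 k76 k204 0 8)))))) .n))))) (.c k143 (.q k101 [(.s k138 k69 10 (.s k154 k48 14 (.s k170 k186 3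
  (.s k255 k85 14 (.d k239 k223 k32 3 10))))), (.s k10 k5 2 (.s k48 k154 14 (.s k16 k32 3 (.s k26
  k37 6 (.s k42 k58 3 (.d k21 k31 k63 2 6)))))), (.s k5 k10 2 (.s k69 k138 10 (.s k85 k117 3 (.s
  k165 k245 11 (.s k37 k229 7 (.s k53 k21 3 (.d k197 k133 k149 7 11)))))))] .n) (.c k192 (.q k101
  [(.s k69 k138 10 (.s k48 k154 14 (.s k32 k16 3 (.s k170 k239 10 (.d k85 k117 k255 3 14))))), (.s
  k5 k10 2 (.s k69 k138 10 (.s k197 k133 7 (.s k53 k149 11 (.s k37 k21 3 (.s k165 k229 7 (.d k85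
  k117 k245 3 11))))))), (.s k10 k5 2 (.s k48 k154 14 (.s k16 k32 3 (.s k26 k37 6 (.s k42 k58 3 (.d
  k21 k31 k63 2 6))))))] .n) (.c k197 (.q k101 [(.s k10 k5 2 (.s k143 k79 7 (.s k138 k69 10 (.s k133
  k128 2 (.d k74 k202 k192 7 10))))), (.s k69 k138 10 (.s k48 k154 14 (.s k32 k16 3 (.s k170 k239 10
  (.d k85 k117 k255 3 14))))), (.s k48 k154 14 (.s k16 k32 3 (.s k26 k37 6 (.s k21 k31 2 (.s k42 k63
  6 (.d k10 k5 k58 2 3))))))] .n) (.c k202 (.l (.s k5 k10 2 (.s k79 k143 7 (.s k69 k138 10 (.s k74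
  k64 2 (.d k133 k197 k192 7 10)))))) .n))))))))))))))

def t113 : T TT 256 :=
  (.q k138 [(.s k10 k5 2 (.s k207 k69 10 (.s k74 k202 7 (.s k133 k192 10 (.d k143 k128 k79 2 7)))))]
  (.c k5 (.q k70 [(.s k69 k207 10 (.s k68 k71 0 (.s k204 k136 9 (.s k2 k206 9 (.d k3 k1 k137 0
  10))))), (.s k2 k206 9 (.s k3 k1 0 (.s k7 k11 1 (.s k133 k196 8 (.s k192 k74 10 (.d k128 k143 k64
  2 7)))))), (.s k69 k207 10 (.s k68 k71 0 (.s k204 k136 9 (.s k78 k141 8 (.s k74 k66 1 (.s k192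
  k133 10 (.d k64 k79 k128 2 7)))))))] (.c k3 (.l (.s k207 k69 10 (.s k206 k2 9 (.s k79 k143 7 (.s
  k204 k205 0 (.s k78 k141 8 (.s k142 k14 7 (.d k77 k76 k12 0 8)))))))) (.c k137 (.l (.s k207 k69 10
  (.s k2 k206 9 (.s k143 k79 7 (.s k133 k128 2 (.s k7 k196 8 (.d k3 k1 k11 0 1))))))) .n))) (.c k10
  (.q k70 [(.s k69 k207 10 (.s k2 k206 9 (.s k3 k1 0 (.s k204 k137 10 (.d k68 k71 k136 0 9))))), (.s
  k2 k206 9 (.s k3 k1 0 (.s k7 k11 1 (.s k133 k196 8 (.s k192 k74 10 (.d k128 k143 k64 2 7)))))),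
  (.s k69 k207 10 (.s k68 k71 0 (.s k204 k136 9 (.s k78 k141 8 (.s k74 k66 1 (.s k192 k133 10 (.d
  k64 k79 k128 2 7)))))))] (.c k3 (.l (.s k207 k69 10 (.s k206 k2 9 (.s k79 k143 7 (.s k204 k205 0
  (.s k78 k141 8 (.s k77 k76 0 (.d k142 k14 k12 7 8)))))))) (.c k137 (.l (.s k207 k69 10 (.s k2 k206
  9 (.s k143 k79 7 (.s k133 k128 2 (.s k7 k196 8 (.d k3 k1 k11 0 1))))))) (.c k170 (.q k250 [(.s k69
  k207 10 (.s k2 k206 9 (.s k3 k1 0 (.s k204 k137 10 (.d k68 k71 k136 0 9))))), (.s k2 k206 9 (.s k3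
  k1 0 (.s k7 k11 1 (.s k133 k196 8 (.s k192 k74 10 (.d k128 k143 k64 2 7)))))), (.s k69 k207 10 (.s
  k68 k71 0 (.s k204 k136 9 (.s k78 k141 8 (.s k74 k66 1 (.s k192 k133 10 (.d k64 k79 k128 2
  7)))))))] (.c k3 (.l (.s k207 k69 10 (.s k206 k2 9 (.s k79 k143 7 (.s k204 k205 0 (.s k78 k141 8
  (.s k77 k76 0 (.d k142 k14 k12 7 8)))))))) (.c k137 (.l (.s k207 k69 10 (.s k2 k206 9 (.s k143 k79
  7 (.s k133 k128 2 (.s k7 k196 8 (.d k3 k1 k11 0 1))))))) .n))) (.c k250 (.q k170 [(.s k69 k207 10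
  (.s k2 k206 9 (.s k3 k1 0 (.s k204 k137 10 (.d k68 k71 k136 0 9))))), (.s k207 k69 10 (.s k85 k255
  14 (.s k154 k186 3 (.s k16 k223 10 (.d k48 k32 k101 3 14))))), (.s k85 k255 14 (.s k2 k206 9 (.s
  k3 k1 0 (.s k86 k254 13 (.s k252 k169 14 (.d k84 k87 k168 0 13))))))] .n) .n))))) (.c k69 (.q k70
  [(.s k10 k5 2 (.s k74 k202 7 (.s k78 k66 1 (.s k204 k141 8 (.s k136 k68 9 (.d k137 k139 k3 0
  10)))))), (.s k2 k206 9 (.s k3 k1 0 (.s k7 k11 1 (.s k133 k196 8 (.s k192 k74 10 (.d k128 k64 k143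
  7 2)))))), (.s k10 k5 2 (.s k2 k206 9 (.s k14 k6 1 (.s k74 k202 7 (.s k194 k134 9 (.d k66 k78 k130
  1 7))))))] (.c k74 (.l (.s k10 k5 2 (.s k2 k206 9 (.s k3 k1 0 (.s k6 k14 1 (.s k9 k12 2 (.d k11 k8
  k7 0 1))))))) (.c k133 (.l (.s k2 k206 9 (.s k3 k1 0 (.s k11 k7 1 (.s k137 k204 10 (.s k74 k200 8
  (.d k10 k5 k202 2 7))))))) .n))) (.c k74 (.f k69 k207 10 (.q k70 [(.s k2 k206 9 (.s k3 k1 0 (.s
  k68 k71 0 (.d k204 k136 k137 9 10)))), (.s k5 k10 2 (.s k133 k197 7 (.s k7 k196 8 (.s k4 k6 0 (.s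
  k199 k134 8 (.d k71 k68 k135 0 7)))))), (.s k5 k10 2 (.s k2 k206 9 (.s k3 k1 0 (.s k7 k11 1 (.d
  k133 k197 k196 7 8)))))] (.c k2 (.l (.s k5 k10 2 (.s k133 k197 7 (.s k7 k196 8 (.s k3 k11 1 (.s
  k68 k71 0 (.d k204 k137 k136 10 9))))))) (.c k106 (.q k122 [(.s k2 k206 9 (.s k3 k1 0 (.s k68 k71
  0 (.d k204 k136 k137 9 10)))), (.s k5 k10 2 (.s k133 k197 7 (.s k7 k196 8 (.s k4 k6 0 (.s k199
  k134 8 (.d k71 k68 k135 0 7)))))), (.s k5 k10 2 (.s k2 k206 9 (.s k3 k1 0 (.s k7 k11 1 (.d k133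
  k197 k196 7 8)))))] (.c k2 (.l (.s k5 k10 2 (.s k133 k197 7 (.s k7 k196 8 (.s k3 k11 1 (.s k68 k71
  0 (.d k204 k137 k136 10 9))))))) .n)) (.c k122 (.q k106 [(.s k2 k206 9 (.s k3 k1 0 (.s k68 k71 0
  (.d k204 k136 k137 9 10)))), (.s k5 k10 2 (.s k133 k197 7 (.s k7 k196 8 (.s k4 k6 0 (.s k199 k134
  8 (.d k71 k68 k135 0 7)))))), (.s k5 k10 2 (.s k2 k206 9 (.s k3 k1 0 (.s k7 k11 1 (.d k133 k197
  k196 7 8)))))] (.c k2 (.l (.s k5 k10 2 (.s k133 k197 7 (.s k7 k196 8 (.s k3 k11 1 (.s k68 k71 0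
  (.d k204 k137 k136 10 9))))))) .n)) .n))))) (.c k79 (.l (.s k5 k10 2 (.s k69 k207 10 (.s k133 k197
  7 (.s k192 k74 10 (.d k128 k143 k64 2 7)))))) (.c k128 (.q k70 [(.s k69 k207 10 (.s k2 k206 9 (.s
  k3 k1 0 (.s k204 k137 10 (.d k68 k71 k136 0 9))))), (.s k10 k5 2 (.s k2 k206 9 (.s k3 k1 0 (.s k6
  k14 1 (.s k9 k12 2 (.d k11 k8 k7 0 1)))))), (.s k10 k5 2 (.s k69 k207 10 (.s k74 k202 7 (.s k78
  k66 1 (.s k204 k141 8 (.d k68 k71 k136 0 9))))))] .n) (.c k133 (.q k70 [(.s k69 k207 10 (.s k2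
  k206 9 (.s k3 k1 0 (.s k68 k71 0 (.d k204 k136 k137 9 10))))), (.s k10 k5 2 (.s k2 k206 9 (.s k3
  k1 0 (.s k6 k14 1 (.s k9 k12 2 (.d k11 k8 k7 0 1)))))), (.s k10 k5 2 (.s k69 k207 10 (.s k74 k202
  7 (.s k78 k66 1 (.s k204 k141 8 (.d k68 k71 k136 0 9))))))] (.c k69 (.l (.s k2 k206 9 (.s k3 k1 0
  (.s k11 k7 1 (.s k137 k204 10 (.s k74 k200 8 (.d k10 k5 k202 2 7))))))) .n)) (.c k143 (.l (.s k10
  k5 2 (.s k69 k207 10 (.s k74 k202 7 (.s k192 k133 10 (.d k64 k79 k128 2 7)))))) (.c k192 (.q k70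
  [(.s k207 k69 10 (.s k206 k2 9 (.s k204 k205 0 (.s k136 k68 9 (.d k137 k139 k3 0 10))))), (.s k10
  k5 2 (.s k2 k206 9 (.s k3 k1 0 (.s k6 k14 1 (.s k9 k12 2 (.d k11 k8 k7 0 1)))))), (.s k10 k5 2 (.s
  k69 k207 10 (.s k68 k71 0 (.s k204 k136 9 (.s k78 k141 8 (.d k74 k202 k66 7 1))))))] (.c k3 (.l
  (.s k10 k5 2 (.s k207 k69 10 (.s k206 k2 9 (.s k74 k202 7 (.s k204 k205 0 (.d k78 k66 k141 1
  8))))))) .n)) (.c k197 (.l (.s k10 k5 2 (.s k69 k207 10 (.s k74 k202 7 (.s k192 k133 10 (.d k64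
  k79 k128 2 7)))))) (.c k202 (.l (.s k5 k10 2 (.s k69 k207 10 (.s k133 k197 7 (.s k192 k74 10 (.d
  k128 k143 k64 2 7)))))) (.c k207 (.q k70 [(.s k10 k5 2 (.s k74 k202 7 (.s k78 k66 1 (.s k204 k141
  8 (.s k136 k68 9 (.d k137 k139 k3 0 10)))))), (.s k10 k5 2 (.s k2 k206 9 (.s k3 k1 0 (.s k6 k14 1
  (.s k9 k12 2 (.d k11 k8 k7 0 1)))))), (.s k2 k206 9 (.s k3 k1 0 (.s k7 k11 1 (.s k133 k196 8 (.s
  k192 k74 10 (.d k128 k143 k64 2 7))))))] (.c k3 (.l (.s k10 k5 2 (.s k2 k206 9 (.s k14 k6 1 (.s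
  k74 k202 7 (.s k194 k134 9 (.d k66 k78 k130 1 7))))))) (.c k204 (.l (.s k10 k5 2 (.s k74 k202 7
  (.s k192 k133 10 (.s k66 k78 1 (.s k3 k129 8 (.d k2 k1 k206 0 9))))))) .n))) .n)))))))))))))

def t114 : T TT 256 :=
  (.q k69 [(.s k10 k5 2 (.s k138 k207 10 (.s k74 k202 7 (.s k192 k133 10 (.d k64 k79 k128 2 7)))))]
  (.c k5 (.q k78 [(.s k138 k207 10 (.s k204 k141 8 (.s k68 k136 9 (.s k70 k71 0 (.s k2 k206 9 (.d k3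
  k1 k137 0 10)))))), (.s k207 k138 10 (.s k141 k204 8 (.s k79 k143 7 (.s k77 k76 0 (.s k12 k142 8
  (.d k13 k14 k205 0 7)))))), (.s k204 k141 8 (.s k68 k136 9 (.s k70 k71 0 (.s k74 k66 1 (.s k192
  k133 10 (.d k64 k79 k128 2 7)))))), (.s k207 k138 10 (.s k79 k143 7 (.s k74 k64 2 (.s k70 k66 1
  (.s k71 k68 0 (.s k67 k75 1 (.d k76 k77 k73 0 2)))))))] .n) (.c k10 (.q k78 [(.s k138 k207 10 (.s
  k204 k141 8 (.s k68 k136 9 (.s k70 k71 0 (.s k2 k206 9 (.d k3 k1 k137 0 10)))))), (.s k207 k138 10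
  (.s k141 k204 8 (.s k79 k143 7 (.s k77 k76 0 (.s k12 k142 8 (.d k13 k14 k205 0 7)))))), (.s k204
  k141 8 (.s k68 k136 9 (.s k70 k71 0 (.s k74 k66 1 (.s k192 k133 10 (.d k64 k79 k128 2 7)))))), (.s
  k207 k138 10 (.s k79 k143 7 (.s k74 k64 2 (.s k70 k66 1 (.s k71 k68 0 (.s k67 k75 1 (.d k76 k77
  k73 0 2)))))))] (.c k170 (.q k250 [(.s k138 k207 10 (.s k204 k141 8 (.s k136 k68 9 (.s k137 k139 0
  (.s k3 k70 10 (.d k1 k2 k205 0 9)))))), (.s k207 k138 10 (.s k141 k204 8 (.s k79 k143 7 (.s k77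
  k76 0 (.s k12 k142 8 (.d k13 k14 k205 0 7)))))), (.s k204 k141 8 (.s k68 k136 9 (.s k70 k71 0 (.s
  k74 k66 1 (.s k192 k133 10 (.d k64 k79 k128 2 7)))))), (.s k207 k138 10 (.s k79 k143 7 (.s k74 k64
  2 (.s k70 k66 1 (.s k71 k68 0 (.s k67 k75 1 (.d k76 k77 k73 0 2)))))))] .n) (.c k250 (.q k170 [(.s
  k138 k207 10 (.s k204 k141 8 (.s k68 k136 9 (.s k70 k71 0 (.s k2 k206 9 (.d k3 k1 k137 0 10)))))),
  (.s k207 k138 10 (.s k85 k255 14 (.s k101 k117 3 (.s k32 k239 10 (.d k48 k16 k154 3 14))))), (.s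
  k85 k255 14 (.s k204 k141 8 (.s k68 k136 9 (.s k102 k119 4 (.s k34 k238 9 (.d k51 k17 k153 4
  14))))))] .n) .n))) (.c k64 (.f k10 k5 2 (.q k78 [(.s k138 k207 10 (.s k74 k202 7 (.s k204 k141 8
  (.s k68 k136 9 (.d k70 k71 k66 0 1))))), (.s k207 k138 10 (.s k79 k143 7 (.s k77 k76 0 (.s k12
  k142 8 (.s k4 k8 1 (.s k134 k199 8 (.d k73 k65 k195 1 10))))))), (.s k138 k207 10 (.s k74 k202 7
  (.s k70 k66 1 (.s k2 k206 9 (.s k3 k1 0 (.s k7 k11 1 (.d k133 k192 k196 10 8)))))))] (.c k138 (.l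
  (.s k204 k141 8 (.s k68 k136 9 (.s k70 k71 0 (.s k137 k3 10 (.s k74 k66 1 (.s k200 k11 8 (.d k192
  k196 k133 1 10)))))))) (.c k207 (.l (.s k204 k141 8 (.s k68 k136 9 (.s k70 k71 0 (.s k3 k137 10
  (.s k2 k1 0 (.s k14 k6 1 (.d k206 k138 k142 9 7)))))))) .n)))) (.c k74 (.f k207 k138 10 (.f k10 k5
  2 (.q k78 [(.s k204 k141 8 (.s k68 k136 9 (.s k70 k71 0 (.s k137 k3 10 (.d k205 k206 k1 0 9))))),
  (.s k79 k143 7 (.s k77 k76 0 (.s k12 k142 8 (.s k4 k8 1 (.s k134 k199 8 (.d k73 k65 k195 1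
  10))))))] (.c k106 (.q k122 [(.s k204 k141 8 (.s k68 k136 9 (.s k70 k71 0 (.s k137 k3 10 (.d k205
  k206 k1 0 9))))), (.s k79 k143 7 (.s k77 k76 0 (.s k12 k142 8 (.s k4 k8 1 (.s k134 k199 8 (.d k73
  k65 k195 1 10))))))] (.c k141 (.q k3 [(.s k1 k2 0 (.s k71 k139 9 (.s k70 k68 0 (.d k137 k205 k204
  9 10)))), (.s k2 k1 0 (.s k6 k14 1 (.s k9 k12 2 (.d k11 k8 k7 0 1)))), (.s k7 k11 1 (.s k71 k139 9
  (.s k135 k199 7 (.s k75 k195 9 (.d k79 k67 k143 1 7)))))] .n) .n)) (.c k122 (.q k106 [(.s k204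
  k141 8 (.s k68 k136 9 (.s k70 k71 0 (.s k137 k3 10 (.d k205 k206 k1 0 9))))), (.s k79 k143 7 (.s
  k77 k76 0 (.s k12 k142 8 (.s k4 k8 1 (.s k134 k199 8 (.d k73 k65 k195 1 10))))))] (.c k118 (.q
  k126 [(.s k204 k141 8 (.s k68 k136 9 (.s k70 k71 0 (.s k137 k3 10 (.d k205 k206 k1 0 9))))), (.s
  k79 k143 7 (.s k94 k110 3 (.s k173 k252 12 (.s k109 k124 4 (.s k45 k237 7 (.d k60 k30 k158 4
  12))))))] .n) (.c k126 (.q k118 [(.s k204 k141 8 (.s k68 k136 9 (.s k70 k71 0 (.s k137 k3 10 (.d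
  k205 k206 k1 0 9))))), (.s k79 k143 7 (.s k77 k76 0 (.s k12 k142 8 (.s k4 k8 1 (.s k134 k199 8 (.d
  k73 k65 k195 1 10))))))] (.c k141 (.q k3 [(.s k1 k2 0 (.s k71 k139 9 (.s k70 k68 0 (.d k137 k205
  k204 9 10)))), (.s k2 k1 0 (.s k6 k14 1 (.s k9 k12 2 (.d k11 k8 k7 0 1)))), (.s k7 k11 1 (.s k71
  k139 9 (.s k135 k199 7 (.s k75 k195 9 (.d k79 k67 k143 1 7)))))] .n) .n)) (.c k141 (.q k126 [(.s
  k143 k79 7 (.s k94 k110 3 (.s k173 k252 12 (.s k158 k188 4 (.s k30 k222 7 (.d k60 k45 k109 4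
  12)))))), (.s k79 k143 7 (.s k77 k76 0 (.s k65 k73 1 (.s k195 k130 8 (.s k75 k135 9 (.s k67 k71 1
  (.d k66 k64 k86 0 5))))))), (.s k86 k66 5 (.s k94 k110 3 (.s k252 k173 12 (.s k3 k169 14 (.s k2 k1
  0 (.s k14 k6 1 (.d k254 k174 k170 11 13)))))))] .n) .n)))) (.c k141 (.q k3 [(.s k1 k2 0 (.s k71
  k139 9 (.s k70 k68 0 (.d k137 k205 k204 9 10)))), (.s k2 k1 0 (.s k6 k14 1 (.s k9 k12 2 (.d k11 k8
  k7 0 1)))), (.s k7 k11 1 (.s k71 k139 9 (.s k135 k199 7 (.s k75 k195 9 (.d k79 k67 k143 1 7)))))]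
  (.c k106 (.q k122 [(.s k1 k2 0 (.s k71 k139 9 (.s k70 k68 0 (.d k137 k205 k204 9 10)))), (.s k2 k1
  0 (.s k6 k14 1 (.s k9 k12 2 (.d k11 k8 k7 0 1)))), (.s k7 k11 1 (.s k71 k139 9 (.s k135 k199 7 (.s
  k75 k195 9 (.d k79 k67 k143 1 7)))))] .n) (.c k122 (.q k106 [(.s k1 k2 0 (.s k71 k139 9 (.s k70
  k68 0 (.d k137 k205 k204 9 10)))), (.s k2 k1 0 (.s k6 k14 1 (.s k9 k12 2 (.d k11 k8 k7 0 1)))),
  (.s k7 k11 1 (.s k71 k139 9 (.s k135 k199 7 (.s k75 k195 9 (.d k79 k67 k143 1 7)))))] (.c k118 (.q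
  k126 [(.s k86 k66 5 (.s k94 k110 3 (.d k252 k173 k169 12 14))), (.s k1 k2 0 (.s k137 k205 9 (.s
  k70 k204 10 (.d k71 k68 k139 0 9))))] .n) (.c k126 (.q k118 [(.s k1 k2 0 (.s k71 k139 9 (.s k70
  k68 0 (.d k137 k205 k204 9 10)))), (.s k2 k1 0 (.s k6 k14 1 (.s k9 k12 2 (.d k11 k8 k7 0 1)))),
  (.s k7 k11 1 (.s k71 k139 9 (.s k135 k199 7 (.s k75 k195 9 (.d k79 k67 k143 1 7)))))] .n) .n)))
  .n))) .n)))))) (.c k78 (.q k102 [(.s k10 k5 2 (.s k138 k207 10 (.s k74 k202 7 (.s k192 k133 10 (.d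
  k64 k79 k128 2 7)))))] (.c k5 (.q k3 [(.s k1 k2 0 (.s k138 k207 10 (.s k137 k205 9 (.s k136 k139 0
  (.d k204 k68 k70 9 10))))), (.s k207 k138 10 (.s k11 k7 1 (.s k139 k71 9 (.s k75 k203 7 (.s k135
  k195 9 (.d k143 k131 k79 1 7)))))), (.s k1 k2 0 (.s k137 k205 9 (.s k11 k7 1 (.s k74 k200 8 (.s
  k64 k79 2 (.d k192 k128 k133 7 10))))))] .n) (.c k10 (.q k170 [(.s k207 k138 10 (.s k85 k255 14
  (.s k101 k117 3 (.s k32 k239 10 (.d k48 k16 k154 3 14))))), (.s k85 k255 14 (.s k34 k238 9 (.s k51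
  k17 4 (.s k204 k153 14 (.d k68 k119 k136 4 9))))), (.s k138 k207 10 (.s k238 k34 9 (.s k154 k186 3
  (.s k206 k50 13 (.s k2 k70 9 (.d k254 k222 k86 3 13))))))] .n) (.c k64 (.q k170 [(.s k207 k138 10
  (.s k85 k255 14 (.s k101 k117 3 (.s k32 k239 10 (.d k48 k16 k154 3 14))))), (.s k85 k255 14 (.s
  k34 k238 9 (.s k51 k17 4 (.s k204 k153 14 (.d k68 k119 k136 4 9))))), (.s k138 k207 10 (.s k238
  k34 9 (.s k154 k186 3 (.s k206 k50 13 (.s k2 k70 9 (.d k254 k222 k86 3 13))))))] .n) (.c k74 (.q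
  k70 [(.s k207 k138 10 (.s k68 k71 0 (.s k204 k136 9 (.s k137 k3 10 (.d k205 k206 k1 0 9))))), (.s
  k68 k71 0 (.s k204 k136 9 (.s k51 k153 14 (.s k34 k17 4 (.s k170 k238 9 (.d k85 k119 k255 4
  14)))))), (.s k5 k10 2 (.s k138 k207 10 (.s k133 k197 7 (.s k7 k196 8 (.s k3 k11 1 (.d k2 k1 k206
  0 9))))))] (.c k106 (.q k122 [(.s k207 k138 10 (.s k68 k71 0 (.s k204 k136 9 (.s k137 k3 10 (.d
  k205 k206 k1 0 9))))), (.s k68 k71 0 (.s k204 k136 9 (.s k51 k153 14 (.s k34 k17 4 (.s k170 k238 9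
  (.d k85 k119 k255 4 14)))))), (.s k5 k10 2 (.s k138 k207 10 (.s k133 k197 7 (.s k7 k196 8 (.s k3
  k11 1 (.d k2 k1 k206 0 9))))))] .n) (.c k122 (.q k106 [(.s k207 k138 10 (.s k68 k71 0 (.s k204
  k136 9 (.s k137 k3 10 (.d k205 k206 k1 0 9))))), (.s k68 k71 0 (.s k204 k136 9 (.s k51 k153 14 (.s
  k34 k17 4 (.s k170 k238 9 (.d k85 k119 k255 4 14)))))), (.s k5 k10 2 (.s k138 k207 10 (.s k133
  k197 7 (.s k7 k196 8 (.s k3 k11 1 (.d k2 k1 k206 0 9))))))] (.c k118 (.q k126 [(.s k207 k138 10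
  (.s k68 k71 0 (.s k204 k136 9 (.s k137 k3 10 (.d k205 k206 k1 0 9))))), (.s k66 k86 5 (.s k68 k71
  0 (.s k85 k119 4 (.s k64 k127 6 (.s k67 k65 0 (.d k76 k72 k73 1 2)))))), (.s k5 k10 2 (.s k138
  k207 10 (.s k2 k206 9 (.s k3 k1 0 (.s k7 k11 1 (.d k133 k197 k196 7 8))))))] .n) (.c k126 (.l (.s
  k118 k86 3 (.s k138 k207 10 (.s k2 k206 9 (.s k3 k1 0 (.s k204 k137 10 (.d k68 k71 k136 0 9)))))))
  .n))) .n))) (.c k79 (.l (.s k5 k10 2 (.s k138 k207 10 (.s k133 k197 7 (.s k192 k74 10 (.d k128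
  k143 k64 2 7)))))) (.c k128 (.l (.s k5 k10 2 (.s k207 k138 10 (.s k133 k197 7 (.s k74 k192 10 (.d
  k79 k143 k64 7 2)))))) (.c k133 (.q k170 [(.s k207 k138 10 (.s k85 k255 14 (.s k101 k117 3 (.s k32
  k239 10 (.d k48 k16 k154 3 14))))), (.s k85 k255 14 (.s k34 k238 9 (.s k51 k17 4 (.s k204 k153 14
  (.d k68 k119 k136 4 9))))), (.s k138 k207 10 (.s k238 k34 9 (.s k154 k186 3 (.s k206 k50 13 (.s k2
  k70 9 (.d k254 k222 k86 3 13))))))] .n) (.c k138 (.q k3 [(.s k2 k1 0 (.s k11 k7 1 (.s k10 k5 2 (.s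
  k9 k8 0 (.d k6 k14 k12 1 2))))), (.s k1 k2 0 (.s k137 k205 9 (.s k11 k7 1 (.s k74 k200 8 (.s k192
  k133 10 (.d k64 k128 k79 7 2)))))), (.s k5 k10 2 (.s k7 k11 1 (.s k133 k197 7 (.s k70 k196 8 (.s
  k204 k137 10 (.d k68 k136 k71 9 0)))))), (.s k1 k2 0 (.s k5 k10 2 (.s k137 k205 9 (.s k133 k197 7
  (.s k129 k141 1 (.d k192 k74 k66 10 8))))))] .n) (.c k192 (.q k3 [(.s k1 k2 0 (.s k5 k10 2 (.s k9
  k13 1 (.s k6 k12 2 (.d k7 k4 k11 0 1))))), (.s k1 k2 0 (.s k138 k207 10 (.s k137 k205 9 (.s k204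
  k70 10 (.d k136 k139 k68 0 9))))), (.s k5 k10 2 (.s k207 k138 10 (.s k7 k11 1 (.s k71 k139 9 (.s
  k133 k197 7 (.d k70 k68 k196 0 8))))))] .n) (.c k197 (.l (.s k10 k5 2 (.s k138 k207 10 (.s k74
  k202 7 (.s k192 k133 10 (.d k64 k79 k128 2 7)))))) (.c k202 (.l (.s k5 k10 2 (.s k138 k207 10 (.s
  k133 k197 7 (.s k192 k74 10 (.d k128 k143 k64 2 7)))))) (.c k207 (.q k3 [(.s k2 k1 0 (.s k11 k7 1
  (.s k10 k5 2 (.s k9 k8 0 (.d k6 k14 k12 1 2))))), (.s k1 k2 0 (.s k137 k205 9 (.s k11 k7 1 (.s k74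
  k200 8 (.s k192 k133 10 (.d k64 k79 k128 2 7)))))), (.s k5 k10 2 (.s k7 k11 1 (.s k133 k197 7 (.s
  k70 k196 8 (.s k204 k137 10 (.d k68 k71 k136 0 9)))))), (.s k1 k2 0 (.s k5 k10 2 (.s k137 k205 9
  (.s k133 k197 7 (.s k192 k74 10 (.d k129 k66 k141 8 1))))))] .n) .n))))))))))))) (.c k79 (.l (.s
  k5 k10 2 (.s k138 k207 10 (.s k133 k197 7 (.s k192 k74 10 (.d k128 k143 k64 2 7)))))) (.c k102 (.q
  k78 [(.s k10 k5 2 (.s k138 k207 10 (.s k74 k202 7 (.s k192 k133 10 (.d k64 k79 k128 2 7))))), (.s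
  k138 k207 10 (.s k204 k141 8 (.s k68 k136 9 (.s k70 k71 0 (.s k2 k206 9 (.d k3 k1 k137 0 10)))))),
  (.s k5 k10 2 (.s k133 k197 7 (.s k204 k141 8 (.s k68 k136 9 (.s k70 k71 0 (.d k74 k66 k192 1
  10))))))] .n) (.c k128 (.l (.s k5 k10 2 (.s k207 k138 10 (.s k133 k197 7 (.s k74 k192 10 (.d k79
  k143 k64 7 2)))))) (.c k133 (.f k10 k5 2 (.q k78 [(.s k138 k207 10 (.s k74 k202 7 (.s k204 k141 8
  (.s k68 k136 9 (.d k70 k71 k66 0 1))))), (.s k207 k138 10 (.s k141 k204 8 (.s k143 k79 7 (.s k142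
  k140 0 (.s k12 k77 8 (.d k14 k13 k206 0 7)))))), (.s k138 k207 10 (.s k74 k202 7 (.s k79 k64 2 (.s
  k70 k66 1 (.s k71 k68 0 (.s k67 k75 1 (.d k76 k77 k73 0 2)))))))] (.c k138 (.q k3 [(.s k1 k2 0 (.s
  k137 k205 9 (.d k204 k70 k141 10 8))), (.s k2 k1 0 (.s k6 k14 1 (.s k9 k12 2 (.d k11 k8 k7 0
  1)))), (.s k204 k141 8 (.s k68 k136 9 (.d k70 k137 k71 10 0)))] (.c k128 (.q k143 [(.s k1 k2 0 (.s
  k137 k205 9 (.d k204 k70 k141 10 8))), (.s k2 k1 0 (.s k6 k14 1 (.s k9 k12 2 (.d k11 k8 k7 0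
  1)))), (.s k204 k141 8 (.s k68 k136 9 (.d k70 k137 k71 10 0)))] .n) (.c k143 (.q k128 [(.s k1 k2 0
  (.s k137 k205 9 (.d k204 k70 k141 10 8))), (.s k2 k1 0 (.s k6 k14 1 (.s k9 k12 2 (.d k11 k8 k7 0
  1)))), (.s k204 k141 8 (.s k68 k136 9 (.d k70 k137 k71 10 0)))] .n) .n))) (.c k207 (.l (.s k204
  k141 8 (.s k68 k136 9 (.s k70 k71 0 (.s k74 k66 1 (.s k138 k202 7 (.s k2 k206 9 (.d k3 k137 k1 10
  0)))))))) .n)))) (.c k138 (.q k3 [(.s k2 k1 0 (.s k10 k5 2 (.s k6 k14 1 (.s k9 k12 2 (.d k11 k8 k7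
  0 1))))), (.s k1 k2 0 (.s k137 k205 9 (.s k11 k7 1 (.s k74 k200 8 (.s k192 k133 10 (.d k64 k128
  k79 7 2)))))), (.s k5 k10 2 (.s k7 k11 1 (.s k133 k197 7 (.s k70 k196 8 (.s k204 k137 10 (.d k68
  k136 k71 9 0)))))), (.s k1 k2 0 (.s k5 k10 2 (.s k137 k205 9 (.s k133 k197 7 (.s k129 k141 1 (.d
  k192 k74 k66 10 8))))))] (.c k78 (.q k102 [(.s k2 k1 0 (.s k11 k7 1 (.s k10 k5 2 (.s k9 k8 0 (.d
  k6 k14 k12 1 2))))), (.s k1 k2 0 (.s k137 k205 9 (.s k11 k7 1 (.s k74 k200 8 (.s k192 k133 10 (.d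
  k64 k128 k79 7 2)))))), (.s k5 k10 2 (.s k7 k11 1 (.s k133 k197 7 (.s k70 k196 8 (.s k204 k137 10
  (.d k68 k136 k71 9 0)))))), (.s k1 k2 0 (.s k5 k10 2 (.s k137 k205 9 (.s k133 k197 7 (.s k129 k141
  1 (.d k192 k74 k66 10 8))))))] .n) (.c k102 (.q k78 [(.s k1 k2 0 (.s k137 k205 9 (.d k204 k70 k141
  10 8))), (.s k2 k1 0 (.s k10 k5 2 (.s k6 k14 1 (.s k9 k12 2 (.d k11 k8 k7 0 1))))), (.s k204 k141
  8 (.s k68 k136 9 (.d k70 k137 k71 10 0)))] .n) .n))) (.c k192 (.q k78 [(.s k10 k5 2 (.s k138 k207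
  10 (.s k204 k141 8 (.s k68 k136 9 (.s k70 k71 0 (.d k74 k202 k66 7 1)))))), (.s k207 k138 10 (.s
  k141 k204 8 (.s k79 k143 7 (.s k77 k76 0 (.s k12 k142 8 (.d k13 k14 k205 0 7)))))), (.s k207 k138
  10 (.s k79 k143 7 (.s k74 k64 2 (.s k70 k66 1 (.s k71 k68 0 (.s k67 k75 1 (.d k76 k77 k73 0
  2)))))))] (.c k138 (.l (.s k5 k10 2 (.s k133 k197 7 (.s k204 k141 8 (.s k68 k136 9 (.s k70 k71 0
  (.s k7 k196 8 (.d k3 k137 k11 10 1)))))))) (.c k207 (.l (.s k5 k10 2 (.s k204 k141 8 (.s k68 k136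
  9 (.s k70 k71 0 (.s k3 k137 10 (.s k7 k11 1 (.d k133 k197 k196 7 8)))))))) .n))) (.c k197 (.l (.s
  k10 k5 2 (.s k138 k207 10 (.s k74 k202 7 (.s k192 k133 10 (.d k64 k79 k128 2 7)))))) (.c k202 (.l
  (.s k5 k10 2 (.s k138 k207 10 (.s k133 k197 7 (.s k192 k74 10 (.d k128 k143 k64 2 7)))))) (.c k207
  (.q k3 [(.s k2 k1 0 (.s k11 k7 1 (.s k10 k5 2 (.s k9 k8 0 (.d k6 k14 k12 1 2))))), (.s k1 k2 0 (.s
  k137 k205 9 (.s k11 k7 1 (.s k74 k200 8 (.s k192 k133 10 (.d k64 k79 k128 2 7)))))), (.s k5 k10 2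
  (.s k7 k11 1 (.s k133 k197 7 (.s k70 k196 8 (.s k204 k137 10 (.d k68 k71 k136 0 9)))))), (.s k1 k2
  0 (.s k5 k10 2 (.s k137 k205 9 (.s k204 k70 10 (.s k133 k197 7 (.d k141 k78 k129 8 1))))))] (.c
  k78 (.q k102 [(.s k2 k1 0 (.s k11 k7 1 (.s k10 k5 2 (.s k9 k8 0 (.d k6 k14 k12 1 2))))), (.s k1 k2
  0 (.s k137 k205 9 (.s k11 k7 1 (.s k74 k200 8 (.s k192 k133 10 (.d k64 k79 k128 2 7)))))), (.s k5
  k10 2 (.s k7 k11 1 (.s k133 k197 7 (.s k70 k196 8 (.s k204 k137 10 (.d k68 k71 k136 0 9)))))), (.s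
  k1 k2 0 (.s k5 k10 2 (.s k137 k205 9 (.s k133 k197 7 (.s k192 k74 10 (.d k129 k66 k141 8 1))))))]
  .n) (.c k102 (.q k78 [(.s k204 k141 8 (.s k68 k136 9 (.d k70 k71 k137 0 10))), (.s k1 k2 0 (.s k5
  k10 2 (.s k9 k13 1 (.s k6 k12 2 (.d k7 k4 k11 0 1)))))] .n) .n))) .n)))))))))))))))

def t115 : T TT 256 :=
  (.q k12 [(.s k8 k4 1 (.s k14 k13 0 (.s k10 k5 2 (.s k6 k2 1 (.d k9 k11 k3 0 2)))))] (.c k1 (.l (.s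
  k8 k4 1 (.s k10 k5 2 (.s k9 k11 0 (.s k6 k3 2 (.d k14 k13 k2 0 1)))))) (.c k2 (.l (.s k4 k8 1 (.s
  k5 k10 2 (.s k6 k7 0 (.s k9 k3 2 (.d k13 k14 k1 0 1)))))) (.c k3 (.q k207 [(.s k4 k8 1 (.s k69
  k138 10 (.s k134 k199 8 (.s k77 k142 8 (.d k73 k65 k195 1 10))))), (.s k5 k10 2 (.s k69 k138 10
  (.s k133 k197 7 (.s k74 k192 10 (.d k79 k64 k143 2 7))))), (.s k13 k14 0 (.s k77 k142 8 (.s k141
  k205 7 (.s k78 k204 8 (.d k79 k76 k143 0 7)))))] .n) (.c k4 (.q k207 [(.s k5 k10 2 (.s k69 k138 10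
  (.s k133 k197 7 (.s k74 k192 10 (.d k79 k64 k143 2 7))))), (.s k13 k14 0 (.s k77 k142 8 (.s k141
  k205 7 (.s k78 k204 8 (.d k79 k76 k143 0 7))))), (.s k5 k10 2 (.s k69 k138 10 (.s k133 k197 7 (.s
  k13 k14 0 (.s k77 k142 8 (.d k73 k65 k193 1 9))))))] .n) (.c k5 (.q k207 [(.s k4 k8 1 (.s k69 k138
  10 (.s k134 k199 8 (.s k73 k195 10 (.d k77 k65 k142 1 8))))), (.s k13 k14 0 (.s k77 k142 8 (.s
  k141 k205 7 (.s k78 k204 8 (.d k79 k76 k143 0 7))))), (.s k4 k8 1 (.s k69 k138 10 (.s k134 k199 8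
  (.s k14 k13 0 (.s k74 k194 9 (.d k79 k64 k143 2 7))))))] .n) (.c k6 (.q k207 [(.s k4 k8 1 (.s k69
  k138 10 (.s k134 k199 8 (.s k73 k195 10 (.d k77 k65 k142 1 8))))), (.s k5 k10 2 (.s k69 k138 10
  (.s k133 k197 7 (.s k74 k192 10 (.d k79 k64 k143 2 7))))), (.s k13 k14 0 (.s k77 k142 8 (.s k141
  k205 7 (.s k78 k204 8 (.d k79 k76 k143 0 7)))))] .n) (.c k7 (.l (.s k8 k4 1 (.s k14 k13 0 (.s k10
  k5 2 (.s k6 k2 1 (.d k9 k11 k3 0 2)))))) (.c k8 (.q k207 [(.s k10 k5 2 (.s k138 k69 10 (.s k74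
  k202 7 (.s k133 k192 10 (.d k143 k128 k79 2 7))))), (.s k13 k14 0 (.s k77 k142 8 (.s k141 k205 7
  (.s k78 k204 8 (.d k79 k76 k143 0 7))))), (.s k5 k10 2 (.s k69 k138 10 (.s k133 k197 7 (.s k13 k14
  0 (.s k77 k142 8 (.d k73 k65 k193 1 9))))))] .n) (.c k9 (.q k207 [(.s k8 k4 1 (.s k138 k69 10 (.s
  k73 k203 8 (.s k134 k195 10 (.d k142 k130 k77 1 8))))), (.s k10 k5 2 (.s k138 k69 10 (.s k74 k202
  7 (.s k133 k192 10 (.d k143 k128 k79 2 7))))), (.s k13 k14 0 (.s k77 k142 8 (.s k141 k205 7 (.s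
  k78 k204 8 (.d k79 k76 k143 0 7)))))] .n) (.c k10 (.q k207 [(.s k8 k4 1 (.s k138 k69 10 (.s k73
  k203 8 (.s k134 k195 10 (.d k142 k130 k77 1 8))))), (.s k13 k14 0 (.s k77 k142 8 (.s k141 k205 7
  (.s k78 k204 8 (.d k79 k76 k143 0 7))))), (.s k4 k8 1 (.s k69 k138 10 (.s k134 k199 8 (.s k14 k13
  0 (.s k74 k194 9 (.d k79 k64 k143 2 7))))))] (.c k170 (.q k250 [(.s k8 k4 1 (.s k138 k69 10 (.s
  k73 k203 8 (.s k134 k195 10 (.d k142 k130 k77 1 8))))), (.s k13 k14 0 (.s k77 k142 8 (.s k141 k205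
  7 (.s k78 k204 8 (.d k79 k76 k143 0 7))))), (.s k4 k8 1 (.s k69 k138 10 (.s k134 k199 8 (.s k14
  k13 0 (.s k74 k194 9 (.d k79 k64 k143 2 7))))))] .n) (.c k250 (.q k170 [(.s k8 k4 1 (.s k138 k69
  10 (.s k73 k203 8 (.s k134 k195 10 (.d k142 k130 k77 1 8))))), (.s k69 k138 10 (.s k85 k255 14 (.s
  k101 k117 3 (.s k32 k239 10 (.d k48 k16 k154 3 14))))), (.s k4 k8 1 (.s k85 k255 14 (.s k166 k247
  12 (.s k243 k89 14 (.d k162 k174 k81 1 12)))))] .n) .n))) (.c k11 (.l (.s k4 k8 1 (.s k13 k14 0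
  (.s k5 k10 2 (.s k9 k1 1 (.d k6 k7 k3 0 2)))))) (.c k13 (.q k21 [(.s k4 k8 1 (.s k42 k63 6 (.s k38
  k55 4 (.s k34 k46 1 (.d k51 k17 k25 4 6))))), (.s k5 k10 2 (.s k42 k63 6 (.s k37 k53 3 (.s k48 k26
  6 (.d k32 k47 k16 2 3))))), (.s k4 k8 1 (.s k5 k10 2 (.s k38 k55 4 (.s k37 k53 3 (.s k36 k39 0 (.d
  k48 k24 k26 5 6))))))] .n) (.c k14 (.q k21 [(.s k4 k8 1 (.s k42 k63 6 (.s k38 k55 4 (.s k51 k25 6
  (.d k34 k46 k17 1 4))))), (.s k5 k10 2 (.s k42 k63 6 (.s k37 k53 3 (.s k32 k47 2 (.d k48 k16 k26 3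
  6))))), (.s k4 k8 1 (.s k5 k10 2 (.s k38 k55 4 (.s k37 k53 3 (.s k36 k39 0 (.d k48 k24 k26 5
  6))))))] (.c k166 (.q k242 [(.s k4 k8 1 (.s k42 k63 6 (.s k38 k55 4 (.s k51 k25 6 (.d k34 k46 k17
  1 4))))), (.s k5 k10 2 (.s k42 k63 6 (.s k37 k53 3 (.s k32 k47 2 (.d k48 k16 k26 3 6))))), (.s k4
  k8 1 (.s k5 k10 2 (.s k38 k55 4 (.s k37 k53 3 (.s k36 k39 0 (.d k48 k24 k26 5 6))))))] .n) (.c
  k242 (.q k166 [(.s k4 k8 1 (.s k42 k63 6 (.s k38 k55 4 (.s k51 k25 6 (.d k34 k46 k17 1 4))))), (.s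
  k4 k8 1 (.s k85 k247 12 (.s k170 k255 14 (.s k243 k89 14 (.d k162 k174 k81 1 12))))), (.s k5 k10 2
  (.s k42 k63 6 (.s k37 k53 3 (.s k48 k26 6 (.d k32 k47 k16 2 3)))))] .n) .n))) .n))))))))))))))

def t117 : T TT 256 :=
  (.q k21 [(.s k10 k5 2 (.s k42 k63 6 (.s k26 k58 3 (.s k48 k37 6 (.d k16 k31 k32 2 3)))))] (.c k5
  (.q k12 [(.s k4 k8 1 (.s k42 k63 6 (.s k38 k55 4 (.s k51 k25 6 (.d k34 k46 k17 1 4))))), (.s k63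
  k42 6 (.s k14 k13 0 (.s k46 k29 4 (.s k30 k62 3 (.s k45 k60 4 (.d k47 k44 k31 0 3)))))), (.s k4 k8
  1 (.s k38 k55 4 (.s k14 k13 0 (.s k26 k50 5 (.s k16 k31 2 (.d k48 k32 k37 3 6))))))] .n) (.c k10
  (.q k12 [(.s k8 k4 1 (.s k42 k63 6 (.s k25 k59 4 (.s k51 k38 6 (.d k17 k29 k34 1 4))))), (.s k63
  k42 6 (.s k14 k13 0 (.s k46 k29 4 (.s k30 k62 3 (.s k45 k60 4 (.d k47 k44 k31 0 3)))))), (.s k4 k8
  1 (.s k38 k55 4 (.s k14 k13 0 (.s k26 k50 5 (.s k16 k31 2 (.d k48 k32 k37 3 6))))))] (.c k170 (.q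
  k250 [(.s k8 k4 1 (.s k42 k63 6 (.s k25 k59 4 (.s k51 k38 6 (.d k17 k29 k34 1 4))))), (.s k63 k42
  6 (.s k14 k13 0 (.s k46 k29 4 (.s k30 k62 3 (.s k45 k60 4 (.d k47 k44 k31 0 3)))))), (.s k4 k8 1
  (.s k38 k55 4 (.s k14 k13 0 (.s k26 k50 5 (.s k16 k31 2 (.d k48 k32 k37 3 6))))))] .n) (.c k250
  (.q k170 [(.s k8 k4 1 (.s k42 k63 6 (.s k25 k59 4 (.s k51 k38 6 (.d k17 k29 k34 1 4))))), (.s k63
  k42 6 (.s k85 k255 14 (.s k149 k213 7 (.s k192 k106 14 (.d k128 k191 k64 6 7))))), (.s k4 k8 1 (.s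
  k85 k255 14 (.s k166 k247 12 (.s k243 k89 14 (.d k162 k174 k81 1 12)))))] .n) .n))) (.c k16 (.q
  k12 [(.s k4 k8 1 (.s k42 k63 6 (.s k38 k55 4 (.s k51 k25 6 (.d k34 k46 k17 1 4))))), (.s k4 k8 1
  (.s k5 k10 2 (.s k6 k7 0 (.s k9 k3 2 (.d k13 k14 k1 0 1))))), (.s k5 k10 2 (.s k63 k42 6 (.s k37
  k53 3 (.s k13 k14 0 (.s k29 k46 4 (.d k25 k17 k49 1 5))))))] .n) (.c k26 (.f k10 k5 2 (.q k12 [(.s
  k14 k13 0 (.s k8 k4 1 (.s k6 k2 1 (.d k9 k11 k3 0 2)))), (.s k4 k8 1 (.s k42 k63 6 (.s k38 k55 4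
  (.s k51 k25 6 (.d k34 k46 k17 1 4))))), (.s k63 k42 6 (.s k13 k14 0 (.s k29 k46 4 (.s k45 k61 3
  (.s k30 k60 4 (.d k31 k28 k47 0 3))))))] (.c k154 (.q k218 [(.s k14 k13 0 (.s k8 k4 1 (.s k6 k2 1
  (.d k9 k11 k3 0 2)))), (.s k4 k8 1 (.s k42 k63 6 (.s k38 k55 4 (.s k51 k25 6 (.d k34 k46 k17 1
  4))))), (.s k63 k42 6 (.s k13 k14 0 (.s k29 k46 4 (.s k45 k61 3 (.s k30 k60 4 (.d k31 k28 k47 0
  3))))))] .n) (.c k218 (.q k154 [(.s k14 k13 0 (.s k8 k4 1 (.s k6 k2 1 (.d k9 k11 k3 0 2)))), (.s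
  k4 k8 1 (.s k42 k63 6 (.s k38 k55 4 (.s k51 k25 6 (.d k34 k46 k17 1 4))))), (.s k63 k42 6 (.s k13
  k14 0 (.s k29 k46 4 (.s k45 k61 3 (.s k30 k60 4 (.d k31 k28 k47 0 3))))))] .n) .n)))) (.c k31 (.l
  (.s k5 k10 2 (.s k42 k63 6 (.s k37 k53 3 (.s k48 k26 6 (.d k32 k47 k16 2 3)))))) (.c k32 (.l (.s
  k5 k10 2 (.s k63 k42 6 (.s k37 k53 3 (.s k26 k48 6 (.d k31 k47 k16 3 2)))))) (.c k37 (.q k12 [(.s
  k4 k8 1 (.s k42 k63 6 (.s k38 k55 4 (.s k34 k46 1 (.d k51 k17 k25 4 6))))), (.s k4 k8 1 (.s k5 k10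
  2 (.s k6 k7 0 (.s k9 k3 2 (.d k13 k14 k1 0 1))))), (.s k5 k10 2 (.s k63 k42 6 (.s k13 k14 0 (.s
  k29 k46 4 (.s k61 k45 3 (.d k1 k41 k9 5 1))))))] .n) (.c k42 (.q k12 [(.s k8 k4 1 (.s k10 k5 2 (.s
  k9 k11 0 (.s k6 k3 2 (.d k14 k13 k2 0 1))))), (.s k4 k8 1 (.s k38 k55 4 (.s k14 k13 0 (.s k26 k50
  5 (.s k48 k37 6 (.d k16 k32 k31 3 2)))))), (.s k5 k10 2 (.s k37 k53 3 (.s k13 k14 0 (.s k25 k49 5
  (.s k51 k38 6 (.d k17 k34 k29 4 1)))))), (.s k4 k8 1 (.s k5 k10 2 (.s k38 k55 4 (.s k37 k53 3 (.s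
  k36 k39 0 (.d k48 k26 k24 6 5))))))] .n) (.c k48 (.f k10 k5 2 (.q k255 [(.s k63 k42 6 (.s k85 k170
  14 (.s k149 k213 7 (.s k127 k191 7 (.d k106 k64 k192 6 14))))), (.s k63 k42 6 (.s k31 k47 3 (.s
  k95 k175 11 (.s k159 k223 7 (.s k111 k207 11 (.d k127 k79 k191 3 7)))))), (.s k85 k170 14 (.s k213
  k149 7 (.s k192 k234 6 (.s k74 k133 10 (.s k138 k202 7 (.s k69 k207 10 (.d k64 k128 k79 7
  2)))))))] (.c k42 (.q k12 [(.s k8 k4 1 (.s k9 k11 0 (.s k14 k13 0 (.d k6 k2 k3 1 2)))), (.s k4 k8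
  1 (.s k85 k170 14 (.s k166 k247 12 (.s k89 k243 14 (.d k93 k81 k174 1 12))))), (.s k170 k85 14 (.s
  k14 k13 0 (.s k174 k93 12 (.s k254 k94 11 (.d k2 k86 k6 13 1)))))] .n) (.c k191 (.l (.s k63 k42 6
  (.s k85 k170 14 (.s k31 k47 3 (.s k95 k175 11 (.s k16 k26 2 (.d k223 k159 k154 7 10))))))) .n))))
  (.c k53 (.l (.s k10 k5 2 (.s k42 k63 6 (.s k26 k58 3 (.s k48 k37 6 (.d k16 k31 k32 2 3)))))) (.c
  k58 (.l (.s k5 k10 2 (.s k42 k63 6 (.s k37 k53 3 (.s k48 k26 6 (.d k32 k47 k16 2 3)))))) (.c k63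
  (.q k12 [(.s k8 k4 1 (.s k14 k13 0 (.s k10 k5 2 (.s k6 k2 1 (.d k9 k11 k3 0 2))))), (.s k4 k8 1
  (.s k38 k55 4 (.s k14 k13 0 (.s k26 k50 5 (.s k48 k37 6 (.d k16 k31 k32 2 3)))))), (.s k5 k10 2
  (.s k37 k53 3 (.s k13 k14 0 (.s k25 k49 5 (.s k51 k38 6 (.d k17 k29 k34 1 4)))))), (.s k4 k8 1 (.s
  k5 k10 2 (.s k38 k55 4 (.s k37 k53 3 (.s k51 k25 6 (.d k39 k36 k27 0 5))))))] .n) .n)))))))))))))

def t118 : T TT 256 :=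
  (.q k21 [(.s k10 k5 2 (.s k42 k63 6 (.s k26 k58 3 (.s k48 k37 6 (.d k16 k31 k32 2 3)))))] (.c k5
  (.q k12 [(.s k4 k8 1 (.s k63 k42 6 (.s k29 k46 4 (.s k25 k17 1 (.d k38 k55 k51 4 6))))), (.s k4 k8
  1 (.s k38 k55 4 (.s k14 k13 0 (.s k26 k50 5 (.s k16 k31 2 (.d k48 k32 k37 3 6)))))), (.s k63 k42 6
  (.s k14 k13 0 (.s k46 k29 4 (.s k30 k62 3 (.s k45 k60 4 (.d k47 k44 k31 0 3))))))] .n) (.c k10 (.q
  k12 [(.s k8 k4 1 (.s k42 k63 6 (.s k25 k59 4 (.s k51 k38 6 (.d k17 k29 k34 1 4))))), (.s k63 k42 6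
  (.s k14 k13 0 (.s k46 k29 4 (.s k30 k62 3 (.s k45 k60 4 (.d k47 k44 k31 0 3)))))), (.s k4 k8 1 (.s
  k38 k55 4 (.s k14 k13 0 (.s k26 k50 5 (.s k16 k31 2 (.d k48 k32 k37 3 6))))))] (.c k170 (.q k250
  [(.s k8 k4 1 (.s k42 k63 6 (.s k25 k59 4 (.s k51 k38 6 (.d k17 k29 k34 1 4))))), (.s k63 k42 6 (.s
  k14 k13 0 (.s k46 k29 4 (.s k30 k62 3 (.s k45 k60 4 (.d k47 k44 k31 0 3)))))), (.s k4 k8 1 (.s k38
  k55 4 (.s k14 k13 0 (.s k26 k50 5 (.s k16 k31 2 (.d k48 k32 k37 3 6))))))] .n) (.c k250 (.q k170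
  [(.s k8 k4 1 (.s k42 k63 6 (.s k25 k59 4 (.s k51 k38 6 (.d k17 k29 k34 1 4))))), (.s k63 k42 6 (.s
  k85 k255 14 (.s k149 k213 7 (.s k192 k106 14 (.d k128 k191 k64 6 7))))), (.s k4 k8 1 (.s k85 k255
  14 (.s k166 k247 12 (.s k243 k89 14 (.d k162 k174 k81 1 12)))))] .n) .n))) (.c k16 (.q k12 [(.s k4
  k8 1 (.s k5 k10 2 (.s k6 k7 0 (.s k9 k3 2 (.d k13 k14 k1 0 1))))), (.s k4 k8 1 (.s k42 k63 6 (.s
  k38 k55 4 (.s k51 k25 6 (.d k34 k46 k17 1 4))))), (.s k5 k10 2 (.s k63 k42 6 (.s k37 k53 3 (.s k13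
  k14 0 (.s k29 k46 4 (.d k25 k17 k49 1 5))))))] .n) (.c k26 (.f k10 k5 2 (.q k12 [(.s k14 k13 0 (.s
  k8 k4 1 (.s k6 k2 1 (.d k9 k11 k3 0 2)))), (.s k4 k8 1 (.s k42 k63 6 (.s k38 k55 4 (.s k51 k25 6
  (.d k34 k46 k17 1 4))))), (.s k63 k42 6 (.s k13 k14 0 (.s k29 k46 4 (.s k45 k61 3 (.s k30 k60 4
  (.d k31 k28 k47 0 3))))))] (.c k154 (.q k218 [(.s k14 k13 0 (.s k8 k4 1 (.s k6 k2 1 (.d k9 k11 k3
  0 2)))), (.s k4 k8 1 (.s k42 k63 6 (.s k38 k55 4 (.s k51 k25 6 (.d k34 k46 k17 1 4))))), (.s k63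
  k42 6 (.s k13 k14 0 (.s k29 k46 4 (.s k45 k61 3 (.s k30 k60 4 (.d k31 k28 k47 0 3))))))] .n) (.c
  k218 (.q k154 [(.s k14 k13 0 (.s k8 k4 1 (.s k6 k2 1 (.d k9 k11 k3 0 2)))), (.s k4 k8 1 (.s k42
  k63 6 (.s k38 k55 4 (.s k51 k25 6 (.d k34 k46 k17 1 4))))), (.s k63 k42 6 (.s k13 k14 0 (.s k29
  k46 4 (.s k45 k61 3 (.s k30 k60 4 (.d k31 k28 k47 0 3))))))] .n) .n)))) (.c k31 (.l (.s k5 k10 2
  (.s k42 k63 6 (.s k37 k53 3 (.s k48 k26 6 (.d k32 k47 k16 2 3)))))) (.c k32 (.l (.s k5 k10 2 (.s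
  k63 k42 6 (.s k37 k53 3 (.s k26 k48 6 (.d k31 k47 k16 3 2)))))) (.c k37 (.q k12 [(.s k4 k8 1 (.s
  k42 k63 6 (.s k38 k55 4 (.s k34 k46 1 (.d k51 k17 k25 4 6))))), (.s k4 k8 1 (.s k5 k10 2 (.s k6 k7
  0 (.s k9 k3 2 (.d k13 k14 k1 0 1))))), (.s k5 k10 2 (.s k63 k42 6 (.s k13 k14 0 (.s k29 k46 4 (.s
  k61 k45 3 (.d k1 k41 k9 5 1))))))] .n) (.c k42 (.q k12 [(.s k8 k4 1 (.s k10 k5 2 (.s k9 k11 0 (.s
  k6 k3 2 (.d k14 k13 k2 0 1))))), (.s k4 k8 1 (.s k38 k55 4 (.s k14 k13 0 (.s k26 k50 5 (.s k48 k37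
  6 (.d k16 k32 k31 3 2)))))), (.s k5 k10 2 (.s k37 k53 3 (.s k13 k14 0 (.s k25 k49 5 (.s k51 k38 6
  (.d k17 k34 k29 4 1)))))), (.s k4 k8 1 (.s k5 k10 2 (.s k38 k55 4 (.s k37 k53 3 (.s k36 k39 0 (.d
  k48 k26 k24 6 5))))))] .n) (.c k48 (.q k12 [(.s k4 k8 1 (.s k5 k10 2 (.s k6 k7 0 (.s k9 k3 2 (.d
  k13 k14 k1 0 1))))), (.s k4 k8 1 (.s k42 k63 6 (.s k38 k55 4 (.s k51 k25 6 (.d k34 k46 k17 1
  4))))), (.s k5 k10 2 (.s k63 k42 6 (.s k37 k53 3 (.s k13 k14 0 (.s k29 k46 4 (.d k25 k17 k49 1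
  5))))))] .n) (.c k53 (.l (.s k10 k5 2 (.s k42 k63 6 (.s k26 k58 3 (.s k48 k37 6 (.d k16 k31 k32 2
  3)))))) (.c k58 (.l (.s k5 k10 2 (.s k42 k63 6 (.s k37 k53 3 (.s k48 k26 6 (.d k32 k47 k16 2
  3)))))) (.c k63 (.q k12 [(.s k8 k4 1 (.s k14 k13 0 (.s k10 k5 2 (.s k6 k2 1 (.d k9 k11 k3 0
  2))))), (.s k4 k8 1 (.s k38 k55 4 (.s k14 k13 0 (.s k26 k50 5 (.s k48 k37 6 (.d k16 k31 k32 2
  3)))))), (.s k5 k10 2 (.s k37 k53 3 (.s k13 k14 0 (.s k25 k49 5 (.s k51 k38 6 (.d k17 k29 k34 1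
  4)))))), (.s k4 k8 1 (.s k5 k10 2 (.s k38 k55 4 (.s k37 k53 3 (.s k51 k25 6 (.d k39 k36 k27 0
  5))))))] .n) .n)))))))))))))

def t119 : T TT 256 :=
  (.q k21 [(.s k10 k5 2 (.s k42 k63 6 (.s k26 k58 3 (.s k48 k37 6 (.d k16 k31 k32 2 3)))))] (.c k5
  (.q k12 [(.s k4 k8 1 (.s k63 k42 6 (.s k29 k46 4 (.s k25 k17 1 (.d k38 k55 k51 4 6))))), (.s k4 k8
  1 (.s k38 k55 4 (.s k14 k13 0 (.s k26 k50 5 (.s k16 k31 2 (.d k48 k32 k37 3 6)))))), (.s k63 k42 6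
  (.s k14 k13 0 (.s k46 k29 4 (.s k30 k62 3 (.s k45 k60 4 (.d k47 k44 k31 0 3))))))] .n) (.c k10 (.q
  k12 [(.s k8 k4 1 (.s k42 k63 6 (.s k25 k59 4 (.s k51 k38 6 (.d k17 k29 k34 1 4))))), (.s k63 k42 6
  (.s k14 k13 0 (.s k46 k29 4 (.s k30 k62 3 (.s k45 k60 4 (.d k47 k44 k31 0 3)))))), (.s k4 k8 1 (.s
  k38 k55 4 (.s k14 k13 0 (.s k26 k50 5 (.s k16 k31 2 (.d k48 k32 k37 3 6))))))] (.c k170 (.q k250
  [(.s k8 k4 1 (.s k42 k63 6 (.s k25 k59 4 (.s k51 k38 6 (.d k17 k29 k34 1 4))))), (.s k63 k42 6 (.s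
  k14 k13 0 (.s k46 k29 4 (.s k30 k62 3 (.s k45 k60 4 (.d k47 k44 k31 0 3)))))), (.s k4 k8 1 (.s k38
  k55 4 (.s k14 k13 0 (.s k26 k50 5 (.s k16 k31 2 (.d k48 k32 k37 3 6))))))] .n) (.c k250 (.q k170
  [(.s k8 k4 1 (.s k42 k63 6 (.s k25 k59 4 (.s k51 k38 6 (.d k17 k29 k34 1 4))))), (.s k8 k4 1 (.s
  k255 k85 14 (.s k89 k251 12 (.s k166 k243 14 (.d k174 k162 k93 1 12))))), (.s k63 k42 6 (.s k85
  k255 14 (.s k149 k213 7 (.s k192 k106 14 (.d k128 k191 k64 6 7)))))] .n) .n))) (.c k16 (.q k12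
  [(.s k4 k8 1 (.s k5 k10 2 (.s k6 k7 0 (.s k9 k3 2 (.d k13 k14 k1 0 1))))), (.s k4 k8 1 (.s k42 k63
  6 (.s k38 k55 4 (.s k51 k25 6 (.d k34 k46 k17 1 4))))), (.s k5 k10 2 (.s k63 k42 6 (.s k37 k53 3
  (.s k13 k14 0 (.s k29 k46 4 (.d k25 k17 k49 1 5))))))] .n) (.c k26 (.f k10 k5 2 (.q k12 [(.s k14
  k13 0 (.s k8 k4 1 (.s k6 k2 1 (.d k9 k11 k3 0 2)))), (.s k4 k8 1 (.s k42 k63 6 (.s k38 k55 4 (.s
  k51 k25 6 (.d k34 k46 k17 1 4))))), (.s k63 k42 6 (.s k13 k14 0 (.s k29 k46 4 (.s k45 k61 3 (.s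
  k30 k60 4 (.d k31 k28 k47 0 3))))))] (.c k154 (.q k218 [(.s k14 k13 0 (.s k8 k4 1 (.s k6 k2 1 (.d
  k9 k11 k3 0 2)))), (.s k4 k8 1 (.s k42 k63 6 (.s k38 k55 4 (.s k51 k25 6 (.d k34 k46 k17 1 4))))),
  (.s k63 k42 6 (.s k13 k14 0 (.s k29 k46 4 (.s k45 k61 3 (.s k30 k60 4 (.d k31 k28 k47 0 3))))))]
  .n) (.c k218 (.q k154 [(.s k14 k13 0 (.s k8 k4 1 (.s k6 k2 1 (.d k9 k11 k3 0 2)))), (.s k4 k8 1
  (.s k42 k63 6 (.s k38 k55 4 (.s k51 k25 6 (.d k34 k46 k17 1 4))))), (.s k63 k42 6 (.s k13 k14 0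
  (.s k29 k46 4 (.s k45 k61 3 (.s k30 k60 4 (.d k31 k28 k47 0 3))))))] .n) .n)))) (.c k31 (.l (.s k5
  k10 2 (.s k42 k63 6 (.s k37 k53 3 (.s k48 k26 6 (.d k32 k47 k16 2 3)))))) (.c k32 (.l (.s k5 k10 2
  (.s k63 k42 6 (.s k37 k53 3 (.s k26 k48 6 (.d k31 k47 k16 3 2)))))) (.c k37 (.q k12 [(.s k4 k8 1
  (.s k42 k63 6 (.s k38 k55 4 (.s k34 k46 1 (.d k51 k17 k25 4 6))))), (.s k4 k8 1 (.s k5 k10 2 (.s
  k6 k7 0 (.s k9 k3 2 (.d k13 k14 k1 0 1))))), (.s k5 k10 2 (.s k63 k42 6 (.s k13 k14 0 (.s k29 k46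
  4 (.s k61 k45 3 (.d k1 k41 k9 5 1))))))] .n) (.c k42 (.q k12 [(.s k8 k4 1 (.s k10 k5 2 (.s k9 k11
  0 (.s k6 k3 2 (.d k14 k13 k2 0 1))))), (.s k4 k8 1 (.s k38 k55 4 (.s k14 k13 0 (.s k26 k50 5 (.s
  k48 k37 6 (.d k16 k32 k31 3 2)))))), (.s k5 k10 2 (.s k37 k53 3 (.s k13 k14 0 (.s k25 k49 5 (.s
  k51 k38 6 (.d k17 k34 k29 4 1)))))), (.s k4 k8 1 (.s k5 k10 2 (.s k38 k55 4 (.s k37 k53 3 (.s k36
  k39 0 (.d k48 k26 k24 6 5))))))] .n) (.c k48 (.q k12 [(.s k4 k8 1 (.s k5 k10 2 (.s k6 k7 0 (.s k9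
  k3 2 (.d k13 k14 k1 0 1))))), (.s k4 k8 1 (.s k42 k63 6 (.s k38 k55 4 (.s k51 k25 6 (.d k34 k46
  k17 1 4))))), (.s k5 k10 2 (.s k63 k42 6 (.s k37 k53 3 (.s k13 k14 0 (.s k29 k46 4 (.d k25 k17 k49
  1 5))))))] .n) (.c k53 (.l (.s k10 k5 2 (.s k42 k63 6 (.s k26 k58 3 (.s k48 k37 6 (.d k16 k31 k32
  2 3)))))) (.c k58 (.l (.s k5 k10 2 (.s k42 k63 6 (.s k37 k53 3 (.s k48 k26 6 (.d k32 k47 k16 2
  3)))))) (.c k63 (.q k12 [(.s k8 k4 1 (.s k14 k13 0 (.s k10 k5 2 (.s k6 k2 1 (.d k9 k11 k3 0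
  2))))), (.s k4 k8 1 (.s k38 k55 4 (.s k14 k13 0 (.s k26 k50 5 (.s k48 k37 6 (.d k16 k31 k32 2
  3)))))), (.s k5 k10 2 (.s k37 k53 3 (.s k13 k14 0 (.s k25 k49 5 (.s k51 k38 6 (.d k17 k29 k34 1
  4)))))), (.s k4 k8 1 (.s k5 k10 2 (.s k38 k55 4 (.s k37 k53 3 (.s k51 k25 6 (.d k39 k36 k27 0
  5))))))] .n) .n)))))))))))))

def t122 : T TT 256 :=
  (.q k74 [(.s k10 k5 2 (.s k138 k202 7 (.s k207 k69 10 (.s k133 k192 10 (.d k143 k128 k79 2 7)))))]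
  (.c k5 (.q k12 [(.s k13 k14 0 (.s k133 k192 10 (.s k73 k193 9 (.s k195 k134 10 (.d k75 k72 k135 0
  9))))), (.s k4 k8 1 (.s k192 k133 10 (.s k128 k64 7 (.s k132 k72 9 (.s k68 k196 7 (.d k136 k140
  k204 1 9)))))), (.s k4 k8 1 (.s k14 k13 0 (.s k134 k194 9 (.s k69 k199 8 (.s k207 k138 10 (.d k79
  k64 k143 2 7))))))] .n) (.c k10 (.q k12 [(.s k14 k13 0 (.s k134 k194 9 (.s k73 k195 10 (.s k192
  k133 10 (.d k72 k75 k132 0 9))))), (.s k4 k8 1 (.s k192 k133 10 (.s k128 k64 7 (.s k132 k72 9 (.s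
  k68 k196 7 (.d k136 k140 k204 1 9)))))), (.s k4 k8 1 (.s k14 k13 0 (.s k134 k194 9 (.s k69 k199 8
  (.s k207 k138 10 (.d k79 k64 k143 2 7))))))] (.c k170 (.q k250 [(.s k14 k13 0 (.s k134 k194 9 (.s
  k73 k195 10 (.s k192 k133 10 (.d k72 k75 k132 0 9))))), (.s k4 k8 1 (.s k192 k133 10 (.s k128 k64
  7 (.s k132 k72 9 (.s k68 k196 7 (.d k136 k140 k204 1 9)))))), (.s k4 k8 1 (.s k14 k13 0 (.s k134
  k194 9 (.s k69 k199 8 (.s k207 k138 10 (.d k79 k64 k143 2 7))))))] .n) (.c k250 (.q k170 [(.s k14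
  k13 0 (.s k134 k194 9 (.s k73 k195 10 (.s k192 k133 10 (.d k72 k75 k132 0 9))))), (.s k4 k8 1 (.s
  k85 k255 14 (.s k166 k247 12 (.s k243 k89 14 (.d k162 k174 k81 1 12)))))] (.c k58 (.q k186 [(.s
  k133 k192 10 (.s k138 k154 3 (.s k207 k69 10 (.d k143 k128 k79 2 7)))), (.s k4 k8 1 (.s k85 k255
  14 (.s k166 k247 12 (.s k243 k89 14 (.d k162 k174 k81 1 12)))))] (.c k26 (.q k42 [(.s k63 k21 6
  (.s k192 k133 10 (.d k106 k234 k149 7 14))), (.s k192 k133 10 (.s k64 k128 7 (.s k69 k79 2 (.d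
  k138 k154 k207 3 10)))), (.s k4 k8 1 (.s k21 k63 6 (.s k38 k55 4 (.s k51 k25 6 (.d k34 k46 k17 1
  4)))))] (.c k154 (.q k218 [(.s k192 k133 10 (.s k106 k234 7 (.d k63 k21 k149 6 14))), (.s k4 k8 1
  (.s k21 k63 6 (.s k38 k55 4 (.s k51 k25 6 (.d k34 k46 k17 1 4))))), (.s k255 k85 14 (.s k192 k133
  10 (.d k234 k106 k213 7 6)))] (.c k106 (.q k202 [(.s k192 k133 10 (.s k64 k128 7 (.s k79 k69 2 (.d
  k207 k197 k143 2 7)))), (.s k4 k8 1 (.s k85 k255 14 (.s k166 k247 12 (.s k243 k89 14 (.d k162 k174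
  k81 1 12)))))] .n) (.c k202 (.l (.s k106 k234 7 (.s k63 k21 6 (.d k192 k133 k149 10 14)))) .n)))
  (.c k218 (.l (.s k154 k138 3 (.s k63 k21 6 (.s k192 k133 10 (.d k106 k234 k149 7 14))))) .n))) (.c
  k42 (.q k26 [(.s k255 k85 14 (.d k48 k37 k117 6 10)), (.s k133 k192 10 (.s k138 k154 3 (.s k207
  k69 10 (.d k143 k128 k79 2 7))))] .n) .n))) (.c k186 (.q k58 [(.s k14 k13 0 (.s k134 k194 9 (.s
  k73 k195 10 (.s k192 k133 10 (.d k72 k75 k132 0 9))))), (.s k4 k8 1 (.s k85 k255 14 (.s k166 k247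
  12 (.s k243 k89 14 (.d k162 k174 k81 1 12)))))] .n) .n))) .n))) (.c k69 (.q k12 [(.s k4 k8 1 (.s
  k5 k10 2 (.s k6 k7 0 (.s k9 k3 2 (.d k13 k14 k1 0 1))))), (.s k13 k14 0 (.s k133 k192 10 (.s k73
  k193 9 (.s k75 k72 0 (.d k195 k135 k134 9 10))))), (.s k4 k8 1 (.s k192 k133 10 (.s k128 k64 7 (.s
  k132 k72 9 (.s k68 k196 7 (.d k136 k140 k204 1 9))))))] .n) (.c k79 (.q k12 [(.s k8 k4 1 (.s k14
  k13 0 (.s k10 k5 2 (.s k6 k2 1 (.d k9 k11 k3 0 2))))), (.s k13 k14 0 (.s k133 k192 10 (.s k73 k193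
  9 (.s k195 k134 10 (.d k75 k72 k135 0 9))))), (.s k4 k8 1 (.s k192 k133 10 (.s k128 k64 7 (.s k132
  k72 9 (.s k68 k196 7 (.d k136 k140 k204 1 9))))))] (.c k101 (.q k112 [(.s k8 k4 1 (.s k14 k13 0
  (.s k10 k5 2 (.s k6 k2 1 (.d k9 k11 k3 0 2))))), (.s k13 k14 0 (.s k133 k192 10 (.s k73 k193 9 (.s
  k195 k134 10 (.d k75 k72 k135 0 9))))), (.s k4 k8 1 (.s k192 k133 10 (.s k128 k64 7 (.s k132 k72 9
  (.s k68 k196 7 (.d k136 k140 k204 1 9))))))] .n) (.c k112 (.q k101 [(.s k8 k4 1 (.s k14 k13 0 (.s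
  k10 k5 2 (.s k6 k2 1 (.d k9 k11 k3 0 2))))), (.s k13 k14 0 (.s k133 k192 10 (.s k73 k193 9 (.s
  k195 k134 10 (.d k75 k72 k135 0 9))))), (.s k4 k8 1 (.s k192 k133 10 (.s k128 k64 7 (.s k132 k72 9
  (.s k68 k196 7 (.d k136 k140 k204 1 9))))))] (.c k117 (.q k127 [(.s k8 k4 1 (.s k14 k13 0 (.s k10
  k5 2 (.s k6 k2 1 (.d k9 k11 k3 0 2))))), (.s k13 k14 0 (.s k133 k192 10 (.s k73 k193 9 (.s k195
  k134 10 (.d k75 k72 k135 0 9))))), (.s k4 k8 1 (.s k192 k133 10 (.s k128 k64 7 (.s k132 k72 9 (.s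
  k68 k196 7 (.d k136 k140 k204 1 9))))))] .n) (.c k127 (.q k117 [(.s k10 k5 2 (.s k138 k202 7 (.d
  k69 k85 k207 3 10))), (.s k4 k8 1 (.s k14 k13 0 (.s k134 k194 9 (.d k69 k85 k199 3 8)))), (.s k4
  k8 1 (.s k5 k10 2 (.s k6 k7 0 (.s k9 k3 2 (.d k13 k14 k1 0 1)))))] (.c k95 (.q k111 [(.s k10 k5 2
  (.s k138 k202 7 (.d k69 k85 k207 3 10))), (.s k4 k8 1 (.s k14 k13 0 (.s k134 k194 9 (.d k69 k85
  k199 3 8))))] (.c k69 (.l (.s k4 k8 1 (.s k5 k10 2 (.s k6 k7 0 (.s k9 k3 2 (.d k13 k14 k1 0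
  1)))))) (.c k80 (.l (.s k85 k69 3 (.s k255 k170 14 (.s k192 k133 10 (.s k48 k186 10 (.d k96 k106
  k144 2 11)))))) (.c k85 (.q k80 [(.s k240 k160 11 (.s k192 k133 10 (.s k208 k224 3 (.s k144 k16 7
  (.d k96 k106 k48 2 11))))), (.s k4 k8 1 (.s k5 k10 2 (.s k6 k7 0 (.s k9 k3 2 (.d k13 k14 k1 0
  1)))))] (.c k64 (.l (.s k106 k96 2 (.s k4 k8 1 (.s k5 k10 2 (.s k6 k7 0 (.s k9 k3 2 (.d k13 k14 k1
  0 1))))))) (.c k106 (.q k64 [(.d k192 k128 k133 7 10), (.s k4 k8 1 (.s k5 k10 2 (.s k6 k7 0 (.s k9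
  k3 2 (.d k13 k14 k1 0 1)))))] .n) .n))) .n)))) (.c k111 (.q k95 [(.s k85 k69 3 (.d k255 k175 k170
  11 14)), (.s k4 k8 1 (.s k5 k10 2 (.s k6 k7 0 (.s k9 k3 2 (.d k13 k14 k1 0 1)))))] (.c k170 (.l
  (.s k10 k5 2 (.s k138 k202 7 (.d k69 k85 k207 3 10)))) .n)) .n))) .n))) .n))) (.c k128 (.l (.s k5
  k10 2 (.s k133 k192 10 (.s k69 k197 7 (.s k207 k138 10 (.d k79 k64 k143 2 7)))))) (.c k133 (.q k12
  [(.s k4 k8 1 (.s k5 k10 2 (.s k6 k7 0 (.s k9 k3 2 (.d k13 k14 k1 0 1))))), (.s k4 k8 1 (.s k14 k13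
  0 (.s k134 k194 9 (.s k69 k199 8 (.s k207 k138 10 (.d k79 k143 k64 7 2)))))), (.s k10 k5 2 (.s
  k138 k202 7 (.s k14 k13 0 (.s k134 k194 9 (.s k130 k142 1 (.d k195 k73 k65 10 8)))))), (.s k8 k4 1
  (.s k10 k5 2 (.s k138 k202 7 (.s k73 k203 8 (.s k195 k134 10 (.d k75 k135 k72 9 0))))))] .n) (.c
  k138 (.q k12 [(.s k8 k4 1 (.s k10 k5 2 (.s k9 k11 0 (.s k6 k3 2 (.d k14 k13 k2 0 1))))), (.s k13
  k14 0 (.s k133 k192 10 (.s k73 k193 9 (.s k195 k134 10 (.d k75 k72 k135 0 9))))), (.s k4 k8 1 (.s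
  k192 k133 10 (.s k128 k64 7 (.s k132 k72 9 (.s k68 k196 7 (.d k136 k140 k204 1 9))))))] .n) (.c
  k143 (.l (.s k10 k5 2 (.s k138 k202 7 (.s k69 k207 10 (.s k192 k133 10 (.d k64 k79 k128 2 7))))))
  (.c k192 (.q k12 [(.s k8 k4 1 (.s k14 k13 0 (.s k10 k5 2 (.s k6 k2 1 (.d k9 k11 k3 0 2))))), (.s
  k4 k8 1 (.s k14 k13 0 (.s k134 k194 9 (.s k69 k199 8 (.s k207 k138 10 (.d k79 k64 k143 2 7)))))),
  (.s k10 k5 2 (.s k138 k202 7 (.s k207 k69 10 (.s k14 k13 0 (.s k142 k77 8 (.d k134 k130 k194 1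
  9)))))), (.s k8 k4 1 (.s k10 k5 2 (.s k138 k202 7 (.s k73 k203 8 (.s k195 k134 10 (.d k75 k72 k135
  0 9))))))] .n) (.c k197 (.l (.s k10 k5 2 (.s k138 k202 7 (.s k69 k207 10 (.s k192 k133 10 (.d k64
  k79 k128 2 7)))))) (.c k202 (.l (.s k5 k10 2 (.s k133 k192 10 (.s k69 k197 7 (.s k207 k138 10 (.d
  k79 k64 k143 2 7)))))) (.c k207 (.q k12 [(.s k8 k4 1 (.s k14 k13 0 (.s k10 k5 2 (.s k6 k2 1 (.d k9
  k11 k3 0 2))))), (.s k13 k14 0 (.s k133 k192 10 (.s k73 k193 9 (.s k195 k134 10 (.d k75 k72 k135 0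
  9))))), (.s k4 k8 1 (.s k192 k133 10 (.s k128 k64 7 (.s k132 k72 9 (.s k68 k196 7 (.d k136 k140
  k204 1 9))))))] .n) .n)))))))))))))

def t123 : T TT 256 :=
  (.q k74 [(.s k10 k5 2 (.s k138 k202 7 (.s k207 k69 10 (.s k133 k192 10 (.d k143 k128 k79 2 7)))))]
  (.c k5 (.q k12 [(.s k13 k14 0 (.s k133 k192 10 (.s k73 k193 9 (.s k195 k134 10 (.d k75 k72 k135 0
  9))))), (.s k4 k8 1 (.s k192 k133 10 (.s k128 k64 7 (.s k132 k72 9 (.s k68 k196 7 (.d k136 k140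
  k204 1 9)))))), (.s k4 k8 1 (.s k14 k13 0 (.s k134 k194 9 (.s k69 k199 8 (.s k207 k138 10 (.d k79
  k64 k143 2 7))))))] .n) (.c k10 (.q k12 [(.s k14 k13 0 (.s k134 k194 9 (.s k73 k195 10 (.s k192
  k133 10 (.d k72 k75 k132 0 9))))), (.s k4 k8 1 (.s k192 k133 10 (.s k128 k64 7 (.s k132 k72 9 (.s
  k68 k196 7 (.d k136 k140 k204 1 9)))))), (.s k4 k8 1 (.s k14 k13 0 (.s k134 k194 9 (.s k69 k199 8
  (.s k207 k138 10 (.d k79 k64 k143 2 7))))))] (.c k170 (.q k250 [(.s k14 k13 0 (.s k134 k194 9 (.s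
  k73 k195 10 (.s k192 k133 10 (.d k72 k75 k132 0 9))))), (.s k4 k8 1 (.s k192 k133 10 (.s k128 k64
  7 (.s k132 k72 9 (.s k68 k196 7 (.d k136 k140 k204 1 9)))))), (.s k4 k8 1 (.s k14 k13 0 (.s k134
  k194 9 (.s k69 k199 8 (.s k207 k138 10 (.d k79 k64 k143 2 7))))))] .n) (.c k250 (.q k170 [(.s k14
  k13 0 (.s k134 k194 9 (.s k73 k195 10 (.s k192 k133 10 (.d k72 k75 k132 0 9))))), (.s k4 k8 1 (.s
  k85 k255 14 (.s k166 k247 12 (.s k162 k174 1 (.d k243 k81 k89 12 14)))))] .n) .n))) (.c k69 (.q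
  k12 [(.s k4 k8 1 (.s k5 k10 2 (.s k6 k7 0 (.s k9 k3 2 (.d k13 k14 k1 0 1))))), (.s k13 k14 0 (.s
  k133 k192 10 (.s k73 k193 9 (.s k75 k72 0 (.d k195 k135 k134 9 10))))), (.s k4 k8 1 (.s k192 k133
  10 (.s k128 k64 7 (.s k132 k72 9 (.s k68 k196 7 (.d k136 k140 k204 1 9))))))] .n) (.c k79 (.q k12
  [(.s k8 k4 1 (.s k14 k13 0 (.s k10 k5 2 (.s k6 k2 1 (.d k9 k11 k3 0 2))))), (.s k13 k14 0 (.s k133
  k192 10 (.s k73 k193 9 (.s k195 k134 10 (.d k75 k72 k135 0 9))))), (.s k4 k8 1 (.s k192 k133 10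
  (.s k128 k64 7 (.s k132 k72 9 (.s k68 k196 7 (.d k136 k140 k204 1 9))))))] (.c k101 (.q k112 [(.s
  k8 k4 1 (.s k14 k13 0 (.s k10 k5 2 (.s k6 k2 1 (.d k9 k11 k3 0 2))))), (.s k13 k14 0 (.s k133 k192
  10 (.s k73 k193 9 (.s k195 k134 10 (.d k75 k72 k135 0 9))))), (.s k4 k8 1 (.s k192 k133 10 (.s
  k128 k64 7 (.s k132 k72 9 (.s k68 k196 7 (.d k136 k140 k204 1 9))))))] .n) (.c k112 (.q k101 [(.s
  k8 k4 1 (.s k14 k13 0 (.s k10 k5 2 (.s k6 k2 1 (.d k9 k11 k3 0 2))))), (.s k13 k14 0 (.s k133 k192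
  10 (.s k73 k193 9 (.s k195 k134 10 (.d k75 k72 k135 0 9))))), (.s k4 k8 1 (.s k192 k133 10 (.s
  k128 k64 7 (.s k132 k72 9 (.s k68 k196 7 (.d k136 k140 k204 1 9))))))] .n) .n))) (.c k128 (.l (.s
  k5 k10 2 (.s k133 k192 10 (.s k69 k197 7 (.s k207 k138 10 (.d k79 k64 k143 2 7)))))) (.c k133 (.q
  k12 [(.s k4 k8 1 (.s k5 k10 2 (.s k6 k7 0 (.s k9 k3 2 (.d k13 k14 k1 0 1))))), (.s k4 k8 1 (.s k14
  k13 0 (.s k134 k194 9 (.s k69 k199 8 (.s k207 k138 10 (.d k79 k143 k64 7 2)))))), (.s k10 k5 2 (.s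
  k138 k202 7 (.s k14 k13 0 (.s k134 k194 9 (.s k130 k142 1 (.d k195 k73 k65 10 8)))))), (.s k8 k4 1
  (.s k10 k5 2 (.s k138 k202 7 (.s k73 k203 8 (.s k195 k134 10 (.d k75 k135 k72 9 0))))))] .n) (.c
  k138 (.q k12 [(.s k8 k4 1 (.s k10 k5 2 (.s k9 k11 0 (.s k6 k3 2 (.d k14 k13 k2 0 1))))), (.s k13
  k14 0 (.s k133 k192 10 (.s k73 k193 9 (.s k195 k134 10 (.d k75 k72 k135 0 9))))), (.s k4 k8 1 (.s
  k192 k133 10 (.s k128 k64 7 (.s k132 k72 9 (.s k68 k196 7 (.d k136 k140 k204 1 9))))))] .n) (.c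
  k143 (.l (.s k10 k5 2 (.s k138 k202 7 (.s k69 k207 10 (.s k192 k133 10 (.d k64 k79 k128 2 7))))))
  (.c k192 (.q k12 [(.s k8 k4 1 (.s k14 k13 0 (.s k10 k5 2 (.s k6 k2 1 (.d k9 k11 k3 0 2))))), (.s
  k4 k8 1 (.s k14 k13 0 (.s k134 k194 9 (.s k69 k199 8 (.s k207 k138 10 (.d k79 k64 k143 2 7)))))),
  (.s k10 k5 2 (.s k138 k202 7 (.s k207 k69 10 (.s k14 k13 0 (.s k142 k77 8 (.d k134 k130 k194 1
  9)))))), (.s k8 k4 1 (.s k10 k5 2 (.s k138 k202 7 (.s k73 k203 8 (.s k195 k134 10 (.d k75 k72 k135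
  0 9))))))] .n) (.c k197 (.l (.s k10 k5 2 (.s k138 k202 7 (.s k69 k207 10 (.s k192 k133 10 (.d k64
  k79 k128 2 7)))))) (.c k202 (.l (.s k5 k10 2 (.s k133 k192 10 (.s k69 k197 7 (.s k207 k138 10 (.d
  k79 k64 k143 2 7)))))) (.c k207 (.q k12 [(.s k8 k4 1 (.s k14 k13 0 (.s k10 k5 2 (.s k6 k2 1 (.d k9
  k11 k3 0 2))))), (.s k13 k14 0 (.s k133 k192 10 (.s k73 k193 9 (.s k195 k134 10 (.d k75 k72 k135 0
  9))))), (.s k4 k8 1 (.s k192 k133 10 (.s k128 k64 7 (.s k132 k72 9 (.s k68 k196 7 (.d k136 k140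
  k204 1 9))))))] .n) .n)))))))))))))

def t127 : T TT 256 :=
  (.q k21 [(.s k5 k10 2 (.s k63 k42 6 (.s k37 k53 3 (.s k26 k48 6 (.d k31 k16 k47 2 3))))), (.s k10
  k5 2 (.s k42 k63 6 (.s k26 k58 3 (.s k48 k37 6 (.d k16 k31 k32 2 3)))))] (.c k5 (.q k12 [(.s k4 k8
  1 (.s k63 k42 6 (.s k38 k55 4 (.s k25 k51 6 (.d k29 k17 k46 1 4))))), (.s k4 k8 1 (.s k38 k55 4
  (.s k14 k13 0 (.s k26 k50 5 (.s k16 k31 2 (.d k48 k32 k37 3 6)))))), (.s k63 k42 6 (.s k14 k13 0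
  (.s k46 k29 4 (.s k30 k62 3 (.s k45 k60 4 (.d k47 k44 k31 0 3))))))] .n) (.c k10 (.q k12 [(.s k8
  k4 1 (.s k42 k63 6 (.s k25 k59 4 (.s k51 k38 6 (.d k17 k29 k34 1 4))))), (.s k63 k42 6 (.s k14 k13
  0 (.s k46 k29 4 (.s k30 k62 3 (.s k45 k60 4 (.d k47 k44 k31 0 3)))))), (.s k4 k8 1 (.s k38 k55 4
  (.s k14 k13 0 (.s k26 k50 5 (.s k16 k31 2 (.d k48 k32 k37 3 6))))))] (.c k170 (.q k250 [(.s k8 k4
  1 (.s k42 k63 6 (.s k25 k59 4 (.s k51 k38 6 (.d k17 k29 k34 1 4))))), (.s k63 k42 6 (.s k14 k13 0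
  (.s k46 k29 4 (.s k30 k62 3 (.s k45 k60 4 (.d k47 k44 k31 0 3)))))), (.s k4 k8 1 (.s k38 k55 4 (.s
  k14 k13 0 (.s k26 k50 5 (.s k16 k31 2 (.d k48 k32 k37 3 6))))))] .n) (.c k250 (.q k170 [(.s k8 k4
  1 (.s k42 k63 6 (.s k25 k59 4 (.s k51 k38 6 (.d k17 k29 k34 1 4))))), (.s k8 k4 1 (.s k255 k85 14
  (.s k89 k251 12 (.s k166 k243 14 (.d k174 k162 k93 1 12))))), (.s k63 k42 6 (.s k85 k255 14 (.s
  k149 k213 7 (.s k192 k106 14 (.d k128 k191 k64 6 7)))))] (.c k255 (.l (.s k4 k8 1 (.s k63 k42 6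
  (.s k38 k55 4 (.s k25 k51 6 (.d k29 k17 k46 1 4)))))) .n)) .n))) (.c k16 (.q k12 [(.s k4 k8 1 (.s
  k5 k10 2 (.s k6 k7 0 (.s k9 k3 2 (.d k13 k14 k1 0 1))))), (.s k4 k8 1 (.s k42 k63 6 (.s k38 k55 4
  (.s k51 k25 6 (.d k34 k46 k17 1 4))))), (.s k5 k10 2 (.s k63 k42 6 (.s k37 k53 3 (.s k13 k14 0 (.s
  k29 k46 4 (.d k25 k17 k49 1 5))))))] .n) (.c k26 (.f k10 k5 2 (.q k12 [(.s k14 k13 0 (.s k8 k4 1
  (.s k6 k2 1 (.d k9 k11 k3 0 2)))), (.s k4 k8 1 (.s k42 k63 6 (.s k38 k55 4 (.s k51 k25 6 (.d k34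
  k46 k17 1 4))))), (.s k63 k42 6 (.s k13 k14 0 (.s k29 k46 4 (.s k45 k61 3 (.s k30 k60 4 (.d k31
  k28 k47 0 3))))))] (.c k154 (.q k218 [(.s k14 k13 0 (.s k8 k4 1 (.s k6 k2 1 (.d k9 k11 k3 0 2)))),
  (.s k4 k8 1 (.s k42 k63 6 (.s k38 k55 4 (.s k51 k25 6 (.d k34 k46 k17 1 4))))), (.s k63 k42 6 (.s
  k13 k14 0 (.s k29 k46 4 (.s k45 k61 3 (.s k30 k60 4 (.d k31 k28 k47 0 3))))))] .n) (.c k218 (.q
  k154 [(.s k14 k13 0 (.s k8 k4 1 (.s k6 k2 1 (.d k9 k11 k3 0 2)))), (.s k4 k8 1 (.s k42 k63 6 (.s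
  k38 k55 4 (.s k51 k25 6 (.d k34 k46 k17 1 4))))), (.s k63 k42 6 (.s k13 k14 0 (.s k29 k46 4 (.s
  k45 k61 3 (.s k30 k60 4 (.d k31 k28 k47 0 3))))))] .n) .n)))) (.c k31 (.l (.s k5 k10 2 (.s k42 k63
  6 (.s k37 k53 3 (.s k48 k26 6 (.d k32 k47 k16 2 3)))))) (.c k37 (.q k12 [(.s k4 k8 1 (.s k42 k63 6
  (.s k38 k55 4 (.s k34 k46 1 (.d k51 k17 k25 4 6))))), (.s k4 k8 1 (.s k5 k10 2 (.s k6 k7 0 (.s k9
  k3 2 (.d k13 k14 k1 0 1))))), (.s k5 k10 2 (.s k63 k42 6 (.s k13 k14 0 (.s k29 k46 4 (.s k61 k45 3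
  (.d k1 k41 k9 5 1))))))] .n) (.c k42 (.q k12 [(.s k8 k4 1 (.s k10 k5 2 (.s k9 k11 0 (.s k6 k3 2
  (.d k14 k13 k2 0 1))))), (.s k4 k8 1 (.s k38 k55 4 (.s k14 k13 0 (.s k26 k50 5 (.s k48 k37 6 (.d
  k16 k32 k31 3 2)))))), (.s k5 k10 2 (.s k37 k53 3 (.s k13 k14 0 (.s k25 k49 5 (.s k51 k38 6 (.d
  k17 k34 k29 4 1)))))), (.s k4 k8 1 (.s k5 k10 2 (.s k38 k55 4 (.s k37 k53 3 (.s k36 k39 0 (.d k48
  k26 k24 6 5))))))] .n) (.c k48 (.q k12 [(.s k4 k8 1 (.s k5 k10 2 (.s k6 k7 0 (.s k9 k3 2 (.d k13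
  k14 k1 0 1))))), (.s k4 k8 1 (.s k42 k63 6 (.s k38 k55 4 (.s k51 k25 6 (.d k34 k46 k17 1 4))))),
  (.s k5 k10 2 (.s k63 k42 6 (.s k37 k53 3 (.s k13 k14 0 (.s k29 k46 4 (.d k25 k17 k49 1 5))))))]
  .n) (.c k53 (.l (.s k10 k5 2 (.s k42 k63 6 (.s k26 k58 3 (.s k48 k37 6 (.d k16 k31 k32 2 3))))))
  (.c k58 (.l (.s k5 k10 2 (.s k42 k63 6 (.s k37 k53 3 (.s k48 k26 6 (.d k32 k47 k16 2 3)))))) (.c
  k63 (.q k12 [(.s k8 k4 1 (.s k14 k13 0 (.s k10 k5 2 (.s k6 k2 1 (.d k9 k11 k3 0 2))))), (.s k4 k8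
  1 (.s k38 k55 4 (.s k14 k13 0 (.s k26 k50 5 (.s k48 k37 6 (.d k16 k31 k32 2 3)))))), (.s k5 k10 2
  (.s k37 k53 3 (.s k13 k14 0 (.s k25 k49 5 (.s k51 k38 6 (.d k17 k29 k34 1 4)))))), (.s k4 k8 1 (.s
  k5 k10 2 (.s k38 k55 4 (.s k37 k53 3 (.s k51 k25 6 (.d k39 k36 k27 0 5))))))] (.c k191 (.q k255
  [(.s k4 k8 1 (.s k5 k10 2 (.s k6 k7 0 (.s k9 k3 2 (.d k13 k14 k1 0 1))))), (.s k13 k14 0 (.s k93
  k174 12 (.s k173 k253 11 (.s k94 k252 12 (.d k95 k92 k175 0 11))))), (.s k4 k8 1 (.s k85 k170 14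
  (.s k166 k247 12 (.s k89 k243 14 (.d k93 k81 k174 1 12)))))] .n) (.c k255 (.q k191 [(.s k8 k4 1
  (.s k14 k13 0 (.s k10 k5 2 (.s k6 k2 1 (.d k9 k11 k3 0 2))))), (.s k4 k8 1 (.s k38 k55 4 (.s k14
  k13 0 (.s k26 k50 5 (.s k48 k37 6 (.d k16 k31 k32 2 3)))))), (.s k5 k10 2 (.s k37 k53 3 (.s k13
  k14 0 (.s k25 k49 5 (.s k51 k38 6 (.d k17 k29 k34 1 4)))))), (.s k4 k8 1 (.s k5 k10 2 (.s k38 k55
  4 (.s k37 k53 3 (.s k51 k25 6 (.d k39 k36 k27 0 5))))))] .n) .n))) .n))))))))))))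

def t160 : T TT 256 :=
  (.q k21 [(.s k10 k5 2 (.s k42 k63 6 (.s k26 k58 3 (.s k48 k37 6 (.d k16 k31 k32 2 3)))))] (.c k5
  (.q k12 [(.s k4 k8 1 (.s k42 k63 6 (.s k38 k55 4 (.s k51 k25 6 (.d k34 k46 k17 1 4))))), (.s k63
  k42 6 (.s k14 k13 0 (.s k46 k29 4 (.s k30 k62 3 (.s k45 k60 4 (.d k47 k44 k31 0 3)))))), (.s k4 k8
  1 (.s k38 k55 4 (.s k14 k13 0 (.s k26 k50 5 (.s k16 k31 2 (.d k48 k32 k37 3 6))))))] .n) (.c k10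
  (.q k12 [(.s k8 k4 1 (.s k42 k63 6 (.s k25 k59 4 (.s k51 k38 6 (.d k17 k29 k34 1 4))))), (.s k63
  k42 6 (.s k14 k13 0 (.s k46 k29 4 (.s k30 k62 3 (.s k45 k60 4 (.d k47 k44 k31 0 3)))))), (.s k4 k8
  1 (.s k38 k55 4 (.s k14 k13 0 (.s k26 k50 5 (.s k16 k31 2 (.d k48 k32 k37 3 6))))))] (.c k170 (.q
  k250 [(.s k8 k4 1 (.s k42 k63 6 (.s k25 k59 4 (.s k51 k38 6 (.d k17 k29 k34 1 4))))), (.s k63 k42
  6 (.s k14 k13 0 (.s k46 k29 4 (.s k30 k62 3 (.s k45 k60 4 (.d k47 k44 k31 0 3)))))), (.s k4 k8 1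
  (.s k38 k55 4 (.s k14 k13 0 (.s k26 k50 5 (.s k16 k31 2 (.d k48 k32 k37 3 6))))))] (.c k165 (.q
  k175 [(.s k8 k4 1 (.s k42 k63 6 (.s k25 k59 4 (.s k51 k38 6 (.d k17 k29 k34 1 4))))), (.s k14 k13
  0 (.s k255 k95 11 (.s k174 k93 12 (.s k94 k254 11 (.d k173 k172 k252 0 12)))))] .n) (.c k175 (.q
  k165 [(.s k8 k4 1 (.s k42 k63 6 (.s k25 k59 4 (.s k51 k38 6 (.d k17 k29 k34 1 4))))), (.s k63 k42
  6 (.s k14 k13 0 (.s k46 k29 4 (.s k30 k62 3 (.s k45 k60 4 (.d k47 k44 k31 0 3)))))), (.s k4 k8 1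
  (.s k38 k55 4 (.s k14 k13 0 (.s k26 k50 5 (.s k16 k31 2 (.d k48 k32 k37 3 6))))))] .n) .n))) (.c
  k250 (.q k170 [(.s k8 k4 1 (.s k42 k63 6 (.s k25 k59 4 (.s k51 k38 6 (.d k17 k29 k34 1 4))))), (.s
  k63 k42 6 (.s k85 k255 14 (.s k149 k213 7 (.s k192 k106 14 (.d k128 k191 k64 6 7))))), (.s k4 k8 1
  (.s k85 k255 14 (.s k166 k247 12 (.s k243 k89 14 (.d k162 k174 k81 1 12)))))] .n) .n))) (.c k16
  (.q k12 [(.s k4 k8 1 (.s k42 k63 6 (.s k38 k55 4 (.s k51 k25 6 (.d k34 k46 k17 1 4))))), (.s k4 k8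
  1 (.s k5 k10 2 (.s k6 k7 0 (.s k9 k3 2 (.d k13 k14 k1 0 1))))), (.s k5 k10 2 (.s k63 k42 6 (.s k37
  k53 3 (.s k13 k14 0 (.s k29 k46 4 (.d k25 k17 k49 1 5))))))] .n) (.c k26 (.f k10 k5 2 (.q k12 [(.s
  k14 k13 0 (.s k8 k4 1 (.s k6 k2 1 (.d k9 k11 k3 0 2)))), (.s k4 k8 1 (.s k42 k63 6 (.s k38 k55 4
  (.s k51 k25 6 (.d k34 k46 k17 1 4))))), (.s k63 k42 6 (.s k13 k14 0 (.s k29 k46 4 (.s k45 k61 3
  (.s k30 k60 4 (.d k31 k28 k47 0 3))))))] (.c k154 (.q k218 [(.s k14 k13 0 (.s k8 k4 1 (.s k6 k2 1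
  (.d k9 k11 k3 0 2)))), (.s k4 k8 1 (.s k42 k63 6 (.s k38 k55 4 (.s k51 k25 6 (.d k34 k46 k17 1
  4))))), (.s k63 k42 6 (.s k13 k14 0 (.s k29 k46 4 (.s k45 k61 3 (.s k30 k60 4 (.d k31 k28 k47 0
  3))))))] .n) (.c k218 (.q k154 [(.s k14 k13 0 (.s k8 k4 1 (.s k6 k2 1 (.d k9 k11 k3 0 2)))), (.s
  k4 k8 1 (.s k42 k63 6 (.s k38 k55 4 (.s k51 k25 6 (.d k34 k46 k17 1 4))))), (.s k63 k42 6 (.s k13
  k14 0 (.s k29 k46 4 (.s k45 k61 3 (.s k30 k60 4 (.d k31 k28 k47 0 3))))))] .n) .n)))) (.c k31 (.l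
  (.s k5 k10 2 (.s k42 k63 6 (.s k37 k53 3 (.s k48 k26 6 (.d k32 k47 k16 2 3)))))) (.c k32 (.l (.s
  k5 k10 2 (.s k63 k42 6 (.s k37 k53 3 (.s k26 k48 6 (.d k31 k47 k16 3 2)))))) (.c k37 (.q k12 [(.s
  k4 k8 1 (.s k42 k63 6 (.s k38 k55 4 (.s k34 k46 1 (.d k51 k17 k25 4 6))))), (.s k4 k8 1 (.s k5 k10
  2 (.s k6 k7 0 (.s k9 k3 2 (.d k13 k14 k1 0 1))))), (.s k5 k10 2 (.s k63 k42 6 (.s k13 k14 0 (.s
  k29 k46 4 (.s k61 k45 3 (.d k1 k41 k9 5 1))))))] .n) (.c k42 (.q k12 [(.s k8 k4 1 (.s k10 k5 2 (.s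
  k9 k11 0 (.s k6 k3 2 (.d k14 k13 k2 0 1))))), (.s k4 k8 1 (.s k38 k55 4 (.s k14 k13 0 (.s k26 k50
  5 (.s k48 k37 6 (.d k16 k32 k31 3 2)))))), (.s k5 k10 2 (.s k37 k53 3 (.s k13 k14 0 (.s k25 k49 5
  (.s k51 k38 6 (.d k17 k34 k29 4 1)))))), (.s k4 k8 1 (.s k5 k10 2 (.s k38 k55 4 (.s k37 k53 3 (.s
  k36 k39 0 (.d k48 k26 k24 6 5))))))] .n) (.c k48 (.q k12 [(.s k4 k8 1 (.s k42 k63 6 (.s k38 k55 4
  (.s k51 k25 6 (.d k34 k46 k17 1 4))))), (.s k4 k8 1 (.s k5 k10 2 (.s k6 k7 0 (.s k9 k3 2 (.d k13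
  k14 k1 0 1))))), (.s k5 k10 2 (.s k63 k42 6 (.s k37 k53 3 (.s k13 k14 0 (.s k29 k46 4 (.d k25 k17
  k49 1 5))))))] .n) (.c k53 (.l (.s k10 k5 2 (.s k42 k63 6 (.s k26 k58 3 (.s k48 k37 6 (.d k16 k31
  k32 2 3)))))) (.c k58 (.l (.s k5 k10 2 (.s k42 k63 6 (.s k37 k53 3 (.s k48 k26 6 (.d k32 k47 k16 2
  3)))))) (.c k63 (.q k12 [(.s k8 k4 1 (.s k14 k13 0 (.s k10 k5 2 (.s k6 k2 1 (.d k9 k11 k3 0
  2))))), (.s k4 k8 1 (.s k38 k55 4 (.s k14 k13 0 (.s k26 k50 5 (.s k48 k37 6 (.d k16 k31 k32 2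
  3)))))), (.s k5 k10 2 (.s k37 k53 3 (.s k13 k14 0 (.s k25 k49 5 (.s k51 k38 6 (.d k17 k29 k34 1
  4)))))), (.s k4 k8 1 (.s k5 k10 2 (.s k38 k55 4 (.s k37 k53 3 (.s k51 k25 6 (.d k39 k36 k27 0
  5))))))] .n) .n)))))))))))))

def t161 : T TT 256 :=
  (.q k21 [(.s k10 k5 2 (.s k42 k63 6 (.s k26 k58 3 (.s k48 k37 6 (.d k16 k31 k32 2 3)))))] (.c k5
  (.q k12 [(.s k4 k8 1 (.s k42 k63 6 (.s k38 k55 4 (.s k51 k25 6 (.d k34 k46 k17 1 4))))), (.s k63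
  k42 6 (.s k14 k13 0 (.s k46 k29 4 (.s k30 k62 3 (.s k45 k60 4 (.d k47 k44 k31 0 3)))))), (.s k4 k8
  1 (.s k38 k55 4 (.s k14 k13 0 (.s k26 k50 5 (.s k16 k31 2 (.d k48 k32 k37 3 6))))))] .n) (.c k10
  (.q k12 [(.s k8 k4 1 (.s k42 k63 6 (.s k25 k59 4 (.s k51 k38 6 (.d k17 k29 k34 1 4))))), (.s k63
  k42 6 (.s k14 k13 0 (.s k46 k29 4 (.s k30 k62 3 (.s k45 k60 4 (.d k47 k44 k31 0 3)))))), (.s k4 k8
  1 (.s k38 k55 4 (.s k14 k13 0 (.s k26 k50 5 (.s k16 k31 2 (.d k48 k32 k37 3 6))))))] (.c k170 (.q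
  k250 [(.s k8 k4 1 (.s k42 k63 6 (.s k25 k59 4 (.s k51 k38 6 (.d k17 k29 k34 1 4))))), (.s k63 k42
  6 (.s k14 k13 0 (.s k46 k29 4 (.s k30 k62 3 (.s k45 k60 4 (.d k47 k44 k31 0 3)))))), (.s k4 k8 1
  (.s k38 k55 4 (.s k14 k13 0 (.s k26 k50 5 (.s k16 k31 2 (.d k48 k32 k37 3 6))))))] .n) (.c k250
  (.q k170 [(.s k8 k4 1 (.s k42 k63 6 (.s k25 k59 4 (.s k51 k38 6 (.d k17 k29 k34 1 4))))), (.s k63
  k42 6 (.s k85 k255 14 (.s k149 k213 7 (.s k192 k106 14 (.d k128 k191 k64 6 7))))), (.s k4 k8 1 (.s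
  k85 k255 14 (.s k166 k247 12 (.s k243 k89 14 (.d k162 k174 k81 1 12)))))] .n) .n))) (.c k16 (.q
  k12 [(.s k4 k8 1 (.s k42 k63 6 (.s k38 k55 4 (.s k51 k25 6 (.d k34 k46 k17 1 4))))), (.s k4 k8 1
  (.s k5 k10 2 (.s k6 k7 0 (.s k9 k3 2 (.d k13 k14 k1 0 1))))), (.s k5 k10 2 (.s k63 k42 6 (.s k37
  k53 3 (.s k13 k14 0 (.s k29 k46 4 (.d k25 k17 k49 1 5))))))] .n) (.c k26 (.f k10 k5 2 (.q k12 [(.s
  k14 k13 0 (.s k8 k4 1 (.s k6 k2 1 (.d k9 k11 k3 0 2)))), (.s k4 k8 1 (.s k42 k63 6 (.s k38 k55 4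
  (.s k51 k25 6 (.d k34 k46 k17 1 4))))), (.s k63 k42 6 (.s k13 k14 0 (.s k29 k46 4 (.s k45 k61 3
  (.s k30 k60 4 (.d k31 k28 k47 0 3))))))] (.c k154 (.q k218 [(.s k14 k13 0 (.s k8 k4 1 (.s k6 k2 1
  (.d k9 k11 k3 0 2)))), (.s k4 k8 1 (.s k42 k63 6 (.s k38 k55 4 (.s k51 k25 6 (.d k34 k46 k17 1
  4))))), (.s k63 k42 6 (.s k13 k14 0 (.s k29 k46 4 (.s k45 k61 3 (.s k30 k60 4 (.d k31 k28 k47 0
  3))))))] .n) (.c k218 (.q k154 [(.s k14 k13 0 (.s k8 k4 1 (.s k6 k2 1 (.d k9 k11 k3 0 2)))), (.s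
  k4 k8 1 (.s k42 k63 6 (.s k38 k55 4 (.s k51 k25 6 (.d k34 k46 k17 1 4))))), (.s k63 k42 6 (.s k13
  k14 0 (.s k29 k46 4 (.s k45 k61 3 (.s k30 k60 4 (.d k31 k28 k47 0 3))))))] .n) .n)))) (.c k31 (.l
  (.s k5 k10 2 (.s k42 k63 6 (.s k37 k53 3 (.s k48 k26 6 (.d k32 k47 k16 2 3)))))) (.c k32 (.l (.s
  k5 k10 2 (.s k63 k42 6 (.s k37 k53 3 (.s k26 k48 6 (.d k31 k47 k16 3 2)))))) (.c k37 (.q k12 [(.s
  k4 k8 1 (.s k42 k63 6 (.s k38 k55 4 (.s k34 k46 1 (.d k51 k17 k25 4 6))))), (.s k4 k8 1 (.s k5 k10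
  2 (.s k6 k7 0 (.s k9 k3 2 (.d k13 k14 k1 0 1))))), (.s k5 k10 2 (.s k63 k42 6 (.s k13 k14 0 (.s
  k29 k46 4 (.s k61 k45 3 (.d k1 k41 k9 5 1))))))] .n) (.c k42 (.q k12 [(.s k8 k4 1 (.s k14 k13 0
  (.s k10 k5 2 (.s k6 k2 1 (.d k9 k11 k3 0 2))))), (.s k4 k8 1 (.s k38 k55 4 (.s k14 k13 0 (.s k26
  k50 5 (.s k48 k37 6 (.d k16 k32 k31 3 2)))))), (.s k5 k10 2 (.s k37 k53 3 (.s k13 k14 0 (.s k25
  k49 5 (.s k51 k38 6 (.d k17 k34 k29 4 1)))))), (.s k4 k8 1 (.s k5 k10 2 (.s k38 k55 4 (.s k37 k53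
  3 (.s k36 k39 0 (.d k48 k26 k24 6 5))))))] .n) (.c k48 (.q k12 [(.s k4 k8 1 (.s k42 k63 6 (.s k38
  k55 4 (.s k51 k25 6 (.d k34 k46 k17 1 4))))), (.s k4 k8 1 (.s k5 k10 2 (.s k6 k7 0 (.s k9 k3 2 (.d
  k13 k14 k1 0 1))))), (.s k5 k10 2 (.s k63 k42 6 (.s k37 k53 3 (.s k13 k14 0 (.s k29 k46 4 (.d k25
  k17 k49 1 5))))))] .n) (.c k53 (.l (.s k10 k5 2 (.s k42 k63 6 (.s k26 k58 3 (.s k48 k37 6 (.d k16
  k31 k32 2 3)))))) (.c k58 (.l (.s k5 k10 2 (.s k42 k63 6 (.s k37 k53 3 (.s k48 k26 6 (.d k32 k47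
  k16 2 3)))))) (.c k63 (.q k12 [(.s k8 k4 1 (.s k14 k13 0 (.s k10 k5 2 (.s k6 k2 1 (.d k9 k11 k3 0
  2))))), (.s k4 k8 1 (.s k38 k55 4 (.s k14 k13 0 (.s k26 k50 5 (.s k48 k37 6 (.d k16 k31 k32 2
  3)))))), (.s k5 k10 2 (.s k37 k53 3 (.s k13 k14 0 (.s k25 k49 5 (.s k51 k38 6 (.d k17 k29 k34 1
  4)))))), (.s k4 k8 1 (.s k5 k10 2 (.s k38 k55 4 (.s k37 k53 3 (.s k51 k25 6 (.d k39 k36 k27 0
  5))))))] .n) .n)))))))))))))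

def t162 : T TT 256 :=
  (.q k21 [(.s k10 k5 2 (.s k42 k63 6 (.s k26 k58 3 (.s k48 k37 6 (.d k16 k31 k32 2 3)))))] (.c k5
  (.q k12 [(.s k4 k8 1 (.s k42 k63 6 (.s k38 k55 4 (.s k51 k25 6 (.d k34 k46 k17 1 4))))), (.s k63
  k42 6 (.s k14 k13 0 (.s k46 k29 4 (.s k30 k62 3 (.s k45 k60 4 (.d k47 k44 k31 0 3)))))), (.s k4 k8
  1 (.s k38 k55 4 (.s k14 k13 0 (.s k26 k50 5 (.s k16 k31 2 (.d k48 k32 k37 3 6))))))] .n) (.c k10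
  (.q k12 [(.s k8 k4 1 (.s k42 k63 6 (.s k25 k59 4 (.s k51 k38 6 (.d k17 k29 k34 1 4))))), (.s k63
  k42 6 (.s k14 k13 0 (.s k46 k29 4 (.s k30 k62 3 (.s k45 k60 4 (.d k47 k44 k31 0 3)))))), (.s k4 k8
  1 (.s k38 k55 4 (.s k14 k13 0 (.s k26 k50 5 (.s k16 k31 2 (.d k48 k32 k37 3 6))))))] (.c k170 (.q
  k250 [(.s k8 k4 1 (.s k42 k63 6 (.s k25 k59 4 (.s k51 k38 6 (.d k17 k29 k34 1 4))))), (.s k63 k42
  6 (.s k14 k13 0 (.s k46 k29 4 (.s k30 k62 3 (.s k45 k60 4 (.d k47 k44 k31 0 3)))))), (.s k4 k8 1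
  (.s k38 k55 4 (.s k14 k13 0 (.s k26 k50 5 (.s k16 k31 2 (.d k48 k32 k37 3 6))))))] (.c k166 (.q
  k174 [(.s k14 k13 0 (.s k93 k255 12 (.s k94 k254 11 (.s k252 k173 12 (.d k92 k95 k172 0 11))))),
  (.s k4 k8 1 (.s k42 k63 6 (.s k38 k55 4 (.s k51 k25 6 (.d k34 k46 k17 1 4)))))] (.c k14 (.q k242
  [(.s k4 k8 1 (.s k42 k63 6 (.s k38 k55 4 (.s k51 k25 6 (.d k34 k46 k17 1 4))))), (.s k255 k93 12
  (.s k175 k95 11 (.s k172 k173 0 (.s k254 k246 1 (.d k252 k253 k92 0 11)))))] (.c k2 (.q k6 [(.s k4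
  k8 1 (.s k7 k5 0 (.d k3 k11 k9 1 2))), (.s k255 k93 12 (.s k175 k95 11 (.s k172 k173 0 (.s k254
  k246 1 (.d k252 k253 k92 0 11)))))] (.c k86 (.l (.s k254 k246 1 (.s k4 k8 1 (.s k7 k5 0 (.d k3 k11
  k9 1 2))))) (.c k254 (.q k86 [(.s k4 k8 1 (.s k7 k5 0 (.d k3 k11 k9 1 2))), (.s k8 k4 1 (.s k42
  k63 6 (.s k25 k59 4 (.s k51 k38 6 (.d k17 k29 k34 1 4)))))] (.c k4 (.l (.s k3 k9 2 (.s k252 k169
  14 (.s k172 k92 11 (.d k173 k175 k94 0 12))))) (.c k8 (.l (.s k3 k9 2 (.s k11 k7 1 (.s k252 k169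
  14 (.s k172 k92 11 (.d k173 k175 k94 0 12)))))) .n))) .n))) (.c k6 (.q k2 [(.s k3 k1 0 (.s k42 k63
  6 (.s k22 k62 5 (.s k60 k41 6 (.d k20 k23 k40 0 5))))), (.s k255 k93 12 (.s k175 k95 11 (.s k172
  k173 0 (.s k240 k245 2 (.s k164 k88 13 (.d k160 k80 k168 11 1))))))] (.c k86 (.l (.s k246 k254 1
  (.s k3 k1 0 (.s k42 k63 6 (.s k22 k62 5 (.s k60 k41 6 (.d k20 k23 k40 0 5))))))) (.c k246 (.q k86
  [(.s k3 k1 0 (.s k42 k63 6 (.s k22 k62 5 (.s k60 k41 6 (.d k20 k23 k40 0 5))))), (.s k3 k1 0 (.s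
  k252 k169 14 (.s k172 k92 11 (.d k173 k175 k94 0 12)))), (.s k4 k8 1 (.s k42 k63 6 (.s k38 k55 4
  (.s k51 k25 6 (.d k34 k46 k17 1 4)))))] .n) .n))) .n))) (.c k242 (.l (.s k14 k13 0 (.s k93 k255 12
  (.s k94 k254 11 (.s k252 k173 12 (.d k92 k95 k172 0 11)))))) .n))) (.c k174 (.q k166 [(.s k8 k4 1
  (.s k42 k63 6 (.s k25 k59 4 (.s k51 k38 6 (.d k17 k29 k34 1 4))))), (.s k4 k8 1 (.s k38 k55 4 (.s
  k14 k13 0 (.s k26 k50 5 (.s k16 k31 2 (.d k48 k32 k37 3 6)))))), (.s k63 k42 6 (.s k13 k14 0 (.s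
  k29 k46 4 (.s k45 k61 3 (.s k30 k60 4 (.d k31 k28 k47 0 3))))))] (.c k38 (.l (.s k4 k8 1 (.s k63
  k42 6 (.s k85 k247 12 (.s k46 k29 4 (.s k149 k213 7 (.d k106 k226 k192 9 14))))))) .n)) .n))) (.c
  k250 (.q k170 [(.s k8 k4 1 (.s k42 k63 6 (.s k25 k59 4 (.s k51 k38 6 (.d k17 k29 k34 1 4))))), (.s
  k63 k42 6 (.s k85 k255 14 (.s k149 k213 7 (.s k192 k106 14 (.d k128 k191 k64 6 7))))), (.s k4 k8 1
  (.s k38 k55 4 (.s k14 k13 0 (.s k26 k50 5 (.s k48 k37 6 (.d k16 k31 k32 2 3))))))] .n) .n))) (.c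
  k16 (.q k12 [(.s k4 k8 1 (.s k42 k63 6 (.s k38 k55 4 (.s k51 k25 6 (.d k34 k46 k17 1 4))))), (.s
  k4 k8 1 (.s k5 k10 2 (.s k6 k7 0 (.s k9 k3 2 (.d k13 k14 k1 0 1))))), (.s k5 k10 2 (.s k63 k42 6
  (.s k37 k53 3 (.s k13 k14 0 (.s k29 k46 4 (.d k25 k17 k49 1 5))))))] .n) (.c k26 (.f k10 k5 2 (.q
  k12 [(.s k14 k13 0 (.s k8 k4 1 (.s k6 k2 1 (.d k9 k11 k3 0 2)))), (.s k4 k8 1 (.s k42 k63 6 (.s
  k38 k55 4 (.s k51 k25 6 (.d k34 k46 k17 1 4))))), (.s k63 k42 6 (.s k13 k14 0 (.s k29 k46 4 (.s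
  k45 k61 3 (.s k30 k60 4 (.d k31 k28 k47 0 3))))))] (.c k154 (.q k218 [(.s k14 k13 0 (.s k8 k4 1
  (.s k6 k2 1 (.d k9 k11 k3 0 2)))), (.s k4 k8 1 (.s k42 k63 6 (.s k38 k55 4 (.s k51 k25 6 (.d k34
  k46 k17 1 4))))), (.s k63 k42 6 (.s k13 k14 0 (.s k29 k46 4 (.s k45 k61 3 (.s k30 k60 4 (.d k31
  k28 k47 0 3))))))] .n) (.c k218 (.q k154 [(.s k14 k13 0 (.s k8 k4 1 (.s k6 k2 1 (.d k9 k11 k3 0
  2)))), (.s k4 k8 1 (.s k42 k63 6 (.s k38 k55 4 (.s k51 k25 6 (.d k34 k46 k17 1 4))))), (.s k63 k42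
  6 (.s k13 k14 0 (.s k29 k46 4 (.s k45 k61 3 (.s k30 k60 4 (.d k31 k28 k47 0 3))))))] .n) .n))))
  (.c k31 (.l (.s k5 k10 2 (.s k42 k63 6 (.s k37 k53 3 (.s k48 k26 6 (.d k32 k47 k16 2 3)))))) (.c
  k32 (.l (.s k5 k10 2 (.s k63 k42 6 (.s k37 k53 3 (.s k26 k48 6 (.d k31 k47 k16 3 2)))))) (.c k37
  (.q k12 [(.s k4 k8 1 (.s k42 k63 6 (.s k38 k55 4 (.s k34 k46 1 (.d k51 k17 k25 4 6))))), (.s k4 k8
  1 (.s k5 k10 2 (.s k6 k7 0 (.s k9 k3 2 (.d k13 k14 k1 0 1))))), (.s k5 k10 2 (.s k63 k42 6 (.s k13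
  k14 0 (.s k29 k46 4 (.s k61 k45 3 (.d k1 k41 k9 5 1))))))] .n) (.c k42 (.q k12 [(.s k8 k4 1 (.s
  k10 k5 2 (.s k9 k11 0 (.s k6 k3 2 (.d k14 k13 k2 0 1))))), (.s k4 k8 1 (.s k38 k55 4 (.s k14 k13 0
  (.s k26 k50 5 (.s k48 k37 6 (.d k16 k32 k31 3 2)))))), (.s k5 k10 2 (.s k37 k53 3 (.s k13 k14 0
  (.s k25 k49 5 (.s k51 k38 6 (.d k17 k34 k29 4 1)))))), (.s k4 k8 1 (.s k5 k10 2 (.s k38 k55 4 (.s
  k37 k53 3 (.s k36 k39 0 (.d k48 k26 k24 6 5))))))] .n) (.c k48 (.q k12 [(.s k4 k8 1 (.s k42 k63 6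
  (.s k38 k55 4 (.s k51 k25 6 (.d k34 k46 k17 1 4))))), (.s k4 k8 1 (.s k5 k10 2 (.s k6 k7 0 (.s k9
  k3 2 (.d k13 k14 k1 0 1))))), (.s k5 k10 2 (.s k63 k42 6 (.s k37 k53 3 (.s k13 k14 0 (.s k29 k46 4
  (.d k25 k17 k49 1 5))))))] .n) (.c k53 (.l (.s k10 k5 2 (.s k42 k63 6 (.s k26 k58 3 (.s k48 k37 6
  (.d k16 k31 k32 2 3)))))) (.c k58 (.l (.s k5 k10 2 (.s k42 k63 6 (.s k37 k53 3 (.s k48 k26 6 (.d
  k32 k47 k16 2 3)))))) (.c k63 (.q k12 [(.s k8 k4 1 (.s k14 k13 0 (.s k10 k5 2 (.s k6 k2 1 (.d k9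
  k11 k3 0 2))))), (.s k4 k8 1 (.s k38 k55 4 (.s k14 k13 0 (.s k26 k50 5 (.s k48 k37 6 (.d k16 k31
  k32 2 3)))))), (.s k5 k10 2 (.s k37 k53 3 (.s k13 k14 0 (.s k25 k49 5 (.s k51 k38 6 (.d k17 k29
  k34 1 4)))))), (.s k4 k8 1 (.s k5 k10 2 (.s k38 k55 4 (.s k37 k53 3 (.s k51 k25 6 (.d k39 k36 k27
  0 5))))))] .n) .n)))))))))))))

def t163 : T TT 256 :=
  (.q k21 [(.s k10 k5 2 (.s k42 k63 6 (.s k26 k58 3 (.s k48 k37 6 (.d k16 k31 k32 2 3)))))] (.c k5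
  (.q k12 [(.s k4 k8 1 (.s k42 k63 6 (.s k38 k55 4 (.s k51 k25 6 (.d k34 k46 k17 1 4))))), (.s k63
  k42 6 (.s k14 k13 0 (.s k46 k29 4 (.s k30 k62 3 (.s k45 k60 4 (.d k47 k44 k31 0 3)))))), (.s k4 k8
  1 (.s k38 k55 4 (.s k14 k13 0 (.s k26 k50 5 (.s k16 k31 2 (.d k48 k32 k37 3 6))))))] .n) (.c k10
  (.q k12 [(.s k8 k4 1 (.s k42 k63 6 (.s k25 k59 4 (.s k51 k38 6 (.d k17 k29 k34 1 4))))), (.s k63
  k42 6 (.s k14 k13 0 (.s k46 k29 4 (.s k30 k62 3 (.s k45 k60 4 (.d k47 k44 k31 0 3)))))), (.s k4 k8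
  1 (.s k38 k55 4 (.s k14 k13 0 (.s k26 k50 5 (.s k16 k31 2 (.d k48 k32 k37 3 6))))))] (.c k170 (.q
  k250 [(.s k8 k4 1 (.s k42 k63 6 (.s k25 k59 4 (.s k51 k38 6 (.d k17 k29 k34 1 4))))), (.s k63 k42
  6 (.s k14 k13 0 (.s k46 k29 4 (.s k30 k62 3 (.s k45 k60 4 (.d k47 k44 k31 0 3)))))), (.s k4 k8 1
  (.s k38 k55 4 (.s k14 k13 0 (.s k26 k50 5 (.s k16 k31 2 (.d k48 k32 k37 3 6))))))] .n) (.c k250
  (.q k170 [(.s k8 k4 1 (.s k42 k63 6 (.s k25 k59 4 (.s k51 k38 6 (.d k17 k29 k34 1 4))))), (.s k63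
  k42 6 (.s k85 k255 14 (.s k149 k213 7 (.s k192 k106 14 (.d k128 k191 k64 6 7))))), (.s k4 k8 1 (.s
  k85 k255 14 (.s k166 k247 12 (.s k243 k89 14 (.d k162 k174 k81 1 12)))))] .n) .n))) (.c k16 (.q
  k12 [(.s k4 k8 1 (.s k42 k63 6 (.s k38 k55 4 (.s k51 k25 6 (.d k34 k46 k17 1 4))))), (.s k4 k8 1
  (.s k5 k10 2 (.s k6 k7 0 (.s k9 k3 2 (.d k13 k14 k1 0 1))))), (.s k5 k10 2 (.s k63 k42 6 (.s k37
  k53 3 (.s k13 k14 0 (.s k29 k46 4 (.d k25 k17 k49 1 5))))))] .n) (.c k26 (.f k10 k5 2 (.q k12 [(.s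
  k14 k13 0 (.s k8 k4 1 (.s k6 k2 1 (.d k9 k11 k3 0 2)))), (.s k4 k8 1 (.s k42 k63 6 (.s k38 k55 4
  (.s k51 k25 6 (.d k34 k46 k17 1 4))))), (.s k63 k42 6 (.s k13 k14 0 (.s k29 k46 4 (.s k45 k61 3
  (.s k30 k60 4 (.d k31 k28 k47 0 3))))))] (.c k154 (.q k218 [(.s k14 k13 0 (.s k8 k4 1 (.s k6 k2 1
  (.d k9 k11 k3 0 2)))), (.s k4 k8 1 (.s k42 k63 6 (.s k38 k55 4 (.s k51 k25 6 (.d k34 k46 k17 1
  4))))), (.s k63 k42 6 (.s k13 k14 0 (.s k29 k46 4 (.s k45 k61 3 (.s k30 k60 4 (.d k31 k28 k47 0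
  3))))))] .n) (.c k218 (.q k154 [(.s k14 k13 0 (.s k8 k4 1 (.s k6 k2 1 (.d k9 k11 k3 0 2)))), (.s
  k4 k8 1 (.s k42 k63 6 (.s k38 k55 4 (.s k51 k25 6 (.d k34 k46 k17 1 4))))), (.s k63 k42 6 (.s k13
  k14 0 (.s k29 k46 4 (.s k45 k61 3 (.s k30 k60 4 (.d k31 k28 k47 0 3))))))] .n) .n)))) (.c k31 (.l
  (.s k5 k10 2 (.s k42 k63 6 (.s k37 k53 3 (.s k48 k26 6 (.d k32 k47 k16 2 3)))))) (.c k32 (.l (.s
  k5 k10 2 (.s k63 k42 6 (.s k37 k53 3 (.s k26 k48 6 (.d k31 k47 k16 3 2)))))) (.c k37 (.q k12 [(.s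
  k4 k8 1 (.s k42 k63 6 (.s k38 k55 4 (.s k34 k46 1 (.d k51 k17 k25 4 6))))), (.s k4 k8 1 (.s k5 k10
  2 (.s k6 k7 0 (.s k9 k3 2 (.d k13 k14 k1 0 1))))), (.s k5 k10 2 (.s k63 k42 6 (.s k13 k14 0 (.s
  k29 k46 4 (.s k61 k45 3 (.d k1 k41 k9 5 1))))))] .n) (.c k42 (.q k12 [(.s k8 k4 1 (.s k14 k13 0
  (.s k10 k5 2 (.s k6 k2 1 (.d k9 k11 k3 0 2))))), (.s k4 k8 1 (.s k38 k55 4 (.s k14 k13 0 (.s k26
  k50 5 (.s k48 k37 6 (.d k16 k32 k31 3 2)))))), (.s k5 k10 2 (.s k37 k53 3 (.s k13 k14 0 (.s k25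
  k49 5 (.s k51 k38 6 (.d k17 k34 k29 4 1)))))), (.s k4 k8 1 (.s k5 k10 2 (.s k38 k55 4 (.s k37 k53
  3 (.s k36 k39 0 (.d k48 k26 k24 6 5))))))] .n) (.c k48 (.q k12 [(.s k4 k8 1 (.s k42 k63 6 (.s k38
  k55 4 (.s k51 k25 6 (.d k34 k46 k17 1 4))))), (.s k4 k8 1 (.s k5 k10 2 (.s k6 k7 0 (.s k9 k3 2 (.d
  k13 k14 k1 0 1))))), (.s k5 k10 2 (.s k63 k42 6 (.s k37 k53 3 (.s k13 k14 0 (.s k29 k46 4 (.d k25
  k17 k49 1 5))))))] .n) (.c k53 (.l (.s k10 k5 2 (.s k42 k63 6 (.s k26 k58 3 (.s k48 k37 6 (.d k16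
  k31 k32 2 3)))))) (.c k58 (.l (.s k5 k10 2 (.s k42 k63 6 (.s k37 k53 3 (.s k48 k26 6 (.d k32 k47
  k16 2 3)))))) (.c k63 (.q k12 [(.s k8 k4 1 (.s k14 k13 0 (.s k10 k5 2 (.s k6 k2 1 (.d k9 k11 k3 0
  2))))), (.s k4 k8 1 (.s k38 k55 4 (.s k14 k13 0 (.s k26 k50 5 (.s k48 k37 6 (.d k16 k31 k32 2
  3)))))), (.s k5 k10 2 (.s k37 k53 3 (.s k13 k14 0 (.s k25 k49 5 (.s k51 k38 6 (.d k17 k29 k34 1
  4)))))), (.s k4 k8 1 (.s k5 k10 2 (.s k38 k55 4 (.s k37 k53 3 (.s k51 k25 6 (.d k39 k36 k27 0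
  5))))))] .n) .n)))))))))))))

def t165 : T TT 256 :=
  (.q k42 [(.s k10 k5 2 (.s k63 k21 6 (.s k26 k58 3 (.s k37 k48 6 (.d k47 k32 k31 2 3))))), (.s k5
  k10 2 (.s k21 k63 6 (.s k37 k53 3 (.s k48 k26 6 (.d k32 k47 k16 2 3)))))] (.c k5 (.q k12 [(.s k4
  k8 1 (.s k21 k63 6 (.s k38 k55 4 (.s k51 k25 6 (.d k34 k46 k17 1 4))))), (.s k63 k21 6 (.s k13 k14
  0 (.s k29 k46 4 (.s k45 k61 3 (.s k30 k60 4 (.d k31 k28 k47 0 3)))))), (.s k8 k4 1 (.s k25 k59 4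
  (.s k13 k14 0 (.s k37 k49 5 (.s k48 k26 6 (.d k32 k47 k16 2 3))))))] (.c k85 (.q k245 [(.s k4 k8 1
  (.s k21 k63 6 (.s k38 k55 4 (.s k51 k25 6 (.d k34 k46 k17 1 4))))), (.s k63 k21 6 (.s k13 k14 0
  (.s k29 k46 4 (.s k45 k61 3 (.s k30 k60 4 (.d k31 k28 k47 0 3)))))), (.s k8 k4 1 (.s k25 k59 4 (.s
  k13 k14 0 (.s k37 k49 5 (.s k48 k26 6 (.d k32 k47 k16 2 3))))))] (.c k80 (.q k95 [(.s k4 k8 1 (.s
  k21 k63 6 (.s k38 k55 4 (.s k51 k25 6 (.d k34 k46 k17 1 4))))), (.s k13 k14 0 (.s k255 k175 11 (.s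
  k93 k174 12 (.s k173 k253 11 (.d k94 k92 k252 0 12)))))] .n) (.c k95 (.q k80 [(.s k4 k8 1 (.s k21
  k63 6 (.s k38 k55 4 (.s k51 k25 6 (.d k34 k46 k17 1 4))))), (.s k8 k4 1 (.s k240 k160 11 (.s k88
  k164 13 (.s k168 k248 11 (.d k84 k92 k252 1 13))))), (.s k63 k21 6 (.s k13 k14 0 (.s k29 k46 4 (.s
  k45 k61 3 (.s k30 k60 4 (.d k31 k28 k47 0 3))))))] .n) .n))) (.c k245 (.q k85 [(.s k4 k8 1 (.s k21
  k63 6 (.s k38 k55 4 (.s k51 k25 6 (.d k34 k46 k17 1 4))))), (.s k63 k21 6 (.s k170 k255 14 (.s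
  k106 k234 7 (.s k192 k149 14 (.d k64 k127 k128 6 7))))), (.s k4 k8 1 (.s k170 k255 14 (.s k166
  k247 12 (.s k243 k89 14 (.d k162 k174 k81 1 12)))))] .n) .n))) (.c k10 (.q k12 [(.s k8 k4 1 (.s
  k21 k63 6 (.s k25 k59 4 (.s k51 k38 6 (.d k17 k29 k34 1 4))))), (.s k63 k21 6 (.s k13 k14 0 (.s
  k29 k46 4 (.s k45 k61 3 (.s k30 k60 4 (.d k31 k28 k47 0 3)))))), (.s k8 k4 1 (.s k25 k59 4 (.s k13
  k14 0 (.s k37 k49 5 (.s k48 k26 6 (.d k32 k47 k16 2 3))))))] (.c k170 (.q k250 [(.s k8 k4 1 (.s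
  k21 k63 6 (.s k25 k59 4 (.s k51 k38 6 (.d k17 k29 k34 1 4))))), (.s k63 k21 6 (.s k13 k14 0 (.s
  k29 k46 4 (.s k45 k61 3 (.s k30 k60 4 (.d k31 k28 k47 0 3)))))), (.s k8 k4 1 (.s k25 k59 4 (.s k13
  k14 0 (.s k37 k49 5 (.s k48 k26 6 (.d k32 k47 k16 2 3))))))] (.c k160 (.q k175 [(.s k8 k4 1 (.s
  k21 k63 6 (.s k25 k59 4 (.s k51 k38 6 (.d k17 k29 k34 1 4))))), (.s k14 k13 0 (.s k255 k95 11 (.s
  k174 k93 12 (.s k94 k254 11 (.d k173 k172 k252 0 12)))))] .n) (.c k175 (.q k160 [(.s k8 k4 1 (.s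
  k21 k63 6 (.s k25 k59 4 (.s k51 k38 6 (.d k17 k29 k34 1 4))))), (.s k4 k8 1 (.s k240 k80 11 (.s
  k164 k88 13 (.s k84 k244 11 (.d k168 k172 k252 1 13))))), (.s k63 k21 6 (.s k13 k14 0 (.s k29 k46
  4 (.s k45 k61 3 (.s k30 k60 4 (.d k31 k28 k47 0 3))))))] .n) .n))) (.c k250 (.q k170 [(.s k8 k4 1
  (.s k21 k63 6 (.s k25 k59 4 (.s k51 k38 6 (.d k17 k29 k34 1 4))))), (.s k63 k21 6 (.s k85 k255 14
  (.s k106 k234 7 (.s k192 k149 14 (.d k64 k127 k128 6 7))))), (.s k4 k8 1 (.s k85 k255 14 (.s k166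
  k247 12 (.s k243 k89 14 (.d k162 k174 k81 1 12)))))] .n) .n))) (.c k21 (.q k12 [(.s k4 k8 1 (.s k5
  k10 2 (.s k6 k7 0 (.s k9 k3 2 (.d k13 k14 k1 0 1))))), (.s k8 k4 1 (.s k25 k59 4 (.s k13 k14 0 (.s
  k37 k49 5 (.s k48 k26 6 (.d k32 k16 k47 3 2)))))), (.s k10 k5 2 (.s k26 k58 3 (.s k14 k13 0 (.s
  k38 k50 5 (.s k51 k25 6 (.d k34 k17 k46 4 1)))))), (.s k8 k4 1 (.s k10 k5 2 (.s k25 k59 4 (.s k26
  k58 3 (.s k24 k27 0 (.d k48 k37 k36 6 5))))))] .n) (.c k26 (.f k21 k63 6 (.q k12 [(.s k4 k8 1 (.s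
  k38 k55 4 (.s k34 k46 1 (.d k51 k17 k25 4 6)))), (.s k4 k8 1 (.s k5 k10 2 (.s k6 k7 0 (.s k9 k3 2
  (.d k13 k14 k1 0 1))))), (.s k5 k10 2 (.s k37 k53 3 (.s k13 k14 0 (.s k25 k49 5 (.s k17 k29 1 (.d
  k51 k38 k34 6 4))))))] (.c k154 (.q k218 [(.s k4 k8 1 (.s k38 k55 4 (.s k34 k46 1 (.d k51 k17 k25
  4 6)))), (.s k4 k8 1 (.s k5 k10 2 (.s k6 k7 0 (.s k9 k3 2 (.d k13 k14 k1 0 1))))), (.s k5 k10 2
  (.s k37 k53 3 (.s k13 k14 0 (.s k25 k49 5 (.s k17 k29 1 (.d k51 k38 k34 6 4))))))] (.c k143 (.q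
  k176 [(.s k4 k8 1 (.s k38 k55 4 (.s k34 k46 1 (.d k51 k17 k25 4 6)))), (.s k4 k8 1 (.s k5 k10 2
  (.s k6 k7 0 (.s k9 k3 2 (.d k13 k14 k1 0 1))))), (.s k5 k10 2 (.s k37 k53 3 (.s k13 k14 0 (.s k25
  k49 5 (.s k17 k29 1 (.d k51 k38 k34 6 4))))))] .n) (.c k176 (.q k143 [(.s k4 k8 1 (.s k38 k55 4
  (.s k34 k46 1 (.d k51 k17 k25 4 6)))), (.s k10 k5 2 (.s k207 k79 7 (.s k138 k69 10 (.s k74 k202 7
  (.d k133 k128 k192 2 10)))))] .n) .n))) (.c k218 (.q k154 [(.s k4 k8 1 (.s k38 k55 4 (.s k34 k46 1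
  (.d k51 k17 k25 4 6)))), (.s k4 k8 1 (.s k5 k10 2 (.s k6 k7 0 (.s k9 k3 2 (.d k13 k14 k1 0 1))))),
  (.s k5 k10 2 (.s k37 k53 3 (.s k13 k14 0 (.s k25 k49 5 (.s k17 k29 1 (.d k51 k38 k34 6 4))))))]
  .n) .n)))) (.c k32 (.q k12 [(.s k4 k8 1 (.s k21 k63 6 (.s k38 k55 4 (.s k51 k25 6 (.d k34 k46 k17
  1 4))))), (.s k4 k8 1 (.s k5 k10 2 (.s k6 k7 0 (.s k9 k3 2 (.d k13 k14 k1 0 1))))), (.s k10 k5 2
  (.s k63 k21 6 (.s k26 k58 3 (.s k14 k13 0 (.s k46 k29 4 (.d k38 k34 k50 1 5))))))] .n) (.c k37 (.f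
  k21 k63 6 (.q k12 [(.s k4 k8 1 (.s k38 k55 4 (.s k34 k46 1 (.d k51 k17 k25 4 6)))), (.s k4 k8 1
  (.s k5 k10 2 (.s k6 k7 0 (.s k9 k3 2 (.d k13 k14 k1 0 1))))), (.s k10 k5 2 (.s k26 k58 3 (.s k14
  k13 0 (.s k38 k50 5 (.s k34 k46 1 (.d k51 k25 k17 6 4))))))] (.c k101 (.q k229 [(.s k4 k8 1 (.s
  k38 k55 4 (.s k34 k46 1 (.d k51 k17 k25 4 6)))), (.s k4 k8 1 (.s k5 k10 2 (.s k6 k7 0 (.s k9 k3 2
  (.d k13 k14 k1 0 1))))), (.s k10 k5 2 (.s k26 k58 3 (.s k14 k13 0 (.s k38 k50 5 (.s k34 k46 1 (.d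
  k51 k25 k17 6 4))))))] (.c k79 (.q k112 [(.s k4 k8 1 (.s k38 k55 4 (.s k34 k46 1 (.d k51 k17 k25 4
  6)))), (.s k4 k8 1 (.s k5 k10 2 (.s k6 k7 0 (.s k9 k3 2 (.d k13 k14 k1 0 1))))), (.s k10 k5 2 (.s
  k26 k58 3 (.s k14 k13 0 (.s k38 k50 5 (.s k34 k46 1 (.d k51 k25 k17 6 4))))))] .n) (.c k112 (.q
  k79 [(.s k4 k8 1 (.s k38 k55 4 (.s k34 k46 1 (.d k51 k17 k25 4 6)))), (.s k5 k10 2 (.s k207 k143 7
  (.s k69 k138 10 (.s k133 k197 7 (.d k74 k64 k192 2 10)))))] .n) .n))) (.c k229 (.q k101 [(.s k4 k8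
  1 (.s k38 k55 4 (.s k34 k46 1 (.d k51 k17 k25 4 6)))), (.s k4 k8 1 (.s k5 k10 2 (.s k6 k7 0 (.s k9
  k3 2 (.d k13 k14 k1 0 1))))), (.s k10 k5 2 (.s k26 k58 3 (.s k14 k13 0 (.s k38 k50 5 (.s k34 k46 1
  (.d k51 k25 k17 6 4))))))] .n) .n)))) (.c k47 (.l (.s k10 k5 2 (.s k21 k63 6 (.s k26 k58 3 (.s k48
  k37 6 (.d k16 k31 k32 2 3)))))) (.c k48 (.q k12 [(.s k4 k8 1 (.s k21 k63 6 (.s k38 k55 4 (.s k51
  k25 6 (.d k34 k46 k17 1 4))))), (.s k4 k8 1 (.s k5 k10 2 (.s k6 k7 0 (.s k9 k3 2 (.d k13 k14 k1 0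
  1))))), (.s k10 k5 2 (.s k63 k21 6 (.s k26 k58 3 (.s k14 k13 0 (.s k46 k29 4 (.d k38 k34 k50 1
  5))))))] .n) (.c k53 (.l (.s k10 k5 2 (.s k21 k63 6 (.s k26 k58 3 (.s k48 k37 6 (.d k16 k31 k32 2
  3)))))) (.c k58 (.l (.s k5 k10 2 (.s k21 k63 6 (.s k37 k53 3 (.s k48 k26 6 (.d k32 k47 k16 2
  3)))))) (.c k63 (.q k12 [(.s k8 k4 1 (.s k14 k13 0 (.s k10 k5 2 (.s k6 k2 1 (.d k9 k11 k3 0
  2))))), (.s k8 k4 1 (.s k25 k59 4 (.s k13 k14 0 (.s k37 k49 5 (.s k48 k26 6 (.d k32 k47 k16 2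
  3)))))), (.s k10 k5 2 (.s k26 k58 3 (.s k14 k13 0 (.s k38 k50 5 (.s k51 k25 6 (.d k34 k46 k17 1
  4)))))), (.s k8 k4 1 (.s k10 k5 2 (.s k25 k59 4 (.s k26 k58 3 (.s k51 k38 6 (.d k27 k24 k39 0
  5))))))] .n) .n))))))))))))

def t166 : T TT 256 :=
  (.q k138 [(.s k10 k5 2 (.s k207 k69 10 (.s k74 k202 7 (.s k133 k192 10 (.d k143 k128 k79 2 7)))))]
  (.c k5 (.q k2 [(.s k69 k207 10 (.s k70 k206 9 (.s k68 k71 0 (.s k204 k136 9 (.d k3 k1 k137 0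
  10))))), (.s k3 k1 0 (.s k70 k206 9 (.s k7 k11 1 (.s k133 k196 8 (.s k128 k143 2 (.d k192 k64 k74
  7 10)))))), (.s k3 k1 0 (.s k207 k69 10 (.s k7 k11 1 (.s k71 k139 9 (.s k135 k199 7 (.s k75 k195 9
  (.d k79 k67 k143 1 7)))))))] (.c k1 (.f k69 k207 10 (.l (.s k70 k206 9 (.s k68 k71 0 (.s k204 k136
  9 (.s k78 k141 8 (.s k74 k66 1 (.s k192 k133 10 (.d k64 k79 k128 2 7))))))))) (.c k3 (.l (.s k207
  k69 10 (.s k206 k70 9 (.s k79 k143 7 (.s k204 k205 0 (.s k78 k141 8 (.s k77 k76 0 (.d k142 k14 k12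
  7 8)))))))) (.c k14 (.q k242 [(.s k69 k207 10 (.s k70 k206 9 (.s k68 k71 0 (.s k204 k136 9 (.d k3
  k1 k137 0 10))))), (.s k207 k69 10 (.s k206 k70 9 (.s k162 k82 11 (.s k243 k81 12 (.s k218 k230 5
  (.d k240 k241 k229 0 6)))))), (.s k3 k1 0 (.s k70 k206 9 (.s k7 k11 1 (.s k133 k196 8 (.s k192 k74
  10 (.d k128 k143 k64 2 7)))))), (.s k3 k1 0 (.s k207 k69 10 (.s k7 k11 1 (.s k71 k139 9 (.s k135
  k199 7 (.s k75 k195 9 (.d k79 k67 k143 1 7)))))))] .n) (.c k242 (.q k14 [(.s k3 k1 0 (.s k6 k10 1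
  (.d k12 k13 k9 0 2))), (.s k207 k69 10 (.s k206 k70 9 (.s k78 k142 7 (.d k204 k205 k141 0 8))))]
  .n) .n))))) (.c k10 (.f k207 k69 10 (.q k14 [(.s k12 k13 0 (.s k8 k4 1 (.s k73 k203 8 (.s k134
  k195 10 (.d k142 k130 k77 1 8))))), (.s k12 k13 0 (.s k142 k77 8 (.s k78 k206 7 (.s k141 k204 8
  (.d k143 k140 k79 0 7))))), (.s k143 k79 7 (.s k133 k128 2 (.s k74 k192 10 (.s k134 k194 9 (.s
  k130 k142 1 (.s k195 k65 8 (.d k135 k132 k75 0 9))))))), (.s k12 k13 0 (.s k8 k4 1 (.s k73 k203 8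
  (.s k134 k195 10 (.s k74 k194 9 (.s k192 k133 10 (.d k72 k75 k132 0 9)))))))] (.c k73 (.l (.s k12
  k13 0 (.s k143 k79 7 (.s k133 k128 2 (.s k74 k192 10 (.s k134 k194 9 (.d k142 k130 k77 1 8)))))))
  (.c k170 (.q k250 [(.s k12 k13 0 (.s k8 k4 1 (.s k73 k203 8 (.s k134 k195 10 (.d k142 k130 k77 1
  8))))), (.s k12 k13 0 (.s k142 k77 8 (.s k78 k206 7 (.s k141 k204 8 (.d k143 k140 k79 0 7))))),
  (.s k143 k79 7 (.s k133 k128 2 (.s k74 k192 10 (.s k134 k194 9 (.s k130 k142 1 (.s k195 k65 8 (.d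
  k135 k132 k75 0 9))))))), (.s k12 k13 0 (.s k8 k4 1 (.s k73 k203 8 (.s k134 k195 10 (.s k74 k194 9
  (.s k192 k133 10 (.d k72 k75 k132 0 9)))))))] (.c k73 (.l (.s k12 k13 0 (.s k143 k79 7 (.s k133
  k128 2 (.s k74 k192 10 (.s k134 k194 9 (.d k142 k130 k77 1 8))))))) (.c k162 (.q k174 [(.s k12 k13
  0 (.s k8 k4 1 (.s k73 k203 8 (.s k134 k195 10 (.d k142 k130 k77 1 8))))), (.s k94 k254 11 (.s k79
  k143 7 (.s k173 k252 12 (.s k109 k124 4 (.s k45 k237 7 (.d k60 k30 k158 4 12))))))] .n) (.c k174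
  (.q k162 [(.s k12 k13 0 (.s k8 k4 1 (.s k73 k203 8 (.s k134 k195 10 (.d k142 k130 k77 1 8))))),
  (.s k243 k81 12 (.s k143 k79 7 (.s k167 k91 13 (.s k128 k133 2 (.d k179 k145 k155 4 5)))))] .n)
  .n)))) (.c k250 (.q k170 [(.s k85 k255 14 (.s k154 k186 3 (.s k16 k223 10 (.d k48 k32 k101 3
  14)))), (.s k12 k13 0 (.s k142 k77 8 (.s k78 k206 7 (.s k141 k204 8 (.d k143 k140 k79 0 7)))))]
  .n) .n))))) (.c k14 (.q k242 [(.s k10 k5 2 (.s k69 k207 10 (.s k74 k202 7 (.s k192 k133 10 (.d k64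
  k79 k128 2 7)))))] (.c k5 (.q k3 [(.s k1 k2 0 (.s k69 k207 10 (.s k137 k205 9 (.s k204 k70 10 (.d
  k136 k139 k68 0 9))))), (.s k207 k69 10 (.s k7 k11 1 (.s k71 k139 9 (.s k135 k199 7 (.s k75 k195 9
  (.d k79 k67 k143 1 7)))))), (.s k2 k1 0 (.s k70 k206 9 (.s k7 k11 1 (.s k133 k196 8 (.s k192 k74
  10 (.d k128 k143 k64 2 7))))))] .n) (.c k10 (.q k2 [(.s k3 k1 0 (.s k207 k69 10 (.s k139 k71 9 (.s
  k137 k136 0 (.d k70 k206 k204 9 10))))), (.s k3 k1 0 (.s k70 k206 9 (.s k7 k11 1 (.s k133 k196 8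
  (.s k128 k143 2 (.d k192 k64 k74 7 10)))))), (.s k207 k69 10 (.s k206 k70 9 (.s k162 k82 11 (.s
  k243 k81 12 (.s k218 k230 5 (.d k240 k241 k229 0 6)))))), (.s k3 k1 0 (.s k207 k69 10 (.s k7 k11 1
  (.s k71 k139 9 (.s k135 k199 7 (.s k75 k195 9 (.d k79 k67 k143 1 7)))))))] (.c k170 (.q k250 [(.s
  k3 k1 0 (.s k69 k207 10 (.s k70 k206 9 (.s k204 k137 10 (.d k68 k71 k136 0 9))))), (.s k207 k69 10
  (.s k206 k70 9 (.s k162 k82 11 (.s k243 k81 12 (.s k218 k230 5 (.d k240 k241 k229 0 6)))))), (.s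
  k3 k1 0 (.s k70 k206 9 (.s k7 k11 1 (.s k133 k196 8 (.s k192 k74 10 (.d k128 k143 k64 2 7)))))),
  (.s k3 k1 0 (.s k207 k69 10 (.s k7 k11 1 (.s k71 k139 9 (.s k135 k199 7 (.s k75 k195 9 (.d k79 k67
  k143 1 7)))))))] (.c k162 (.q k174 [(.s k3 k1 0 (.s k69 k207 10 (.s k70 k206 9 (.s k204 k137 10
  (.d k68 k71 k136 0 9))))), (.s k206 k70 9 (.s k218 k230 5 (.s k234 k202 3 (.s k254 k246 1 (.s k214
  k194 5 (.d k222 k210 k238 1 3)))))), (.s k3 k1 0 (.s k207 k69 10 (.s k7 k11 1 (.s k71 k139 9 (.s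
  k135 k199 7 (.s k75 k195 9 (.d k79 k67 k143 1 7)))))))] .n) (.c k174 (.l (.s k162 k82 11 (.s k3 k1
  0 (.s k69 k207 10 (.s k70 k206 9 (.s k204 k137 10 (.d k68 k71 k136 0 9))))))) .n))) (.c k250 (.q
  k170 [(.s k3 k1 0 (.s k207 k69 10 (.s k139 k71 9 (.s k137 k136 0 (.d k70 k206 k204 9 10))))), (.s
  k207 k69 10 (.s k85 k255 14 (.s k154 k186 3 (.s k16 k223 10 (.d k48 k32 k101 3 14))))), (.s k3 k1
  0 (.s k85 k255 14 (.s k86 k254 13 (.s k252 k169 14 (.d k84 k87 k168 0 13)))))] .n) .n))) (.c k64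
  (.l (.s k10 k5 2 (.s k207 k69 10 (.s k74 k202 7 (.s k133 k192 10 (.d k143 k79 k128 7 2)))))) (.c
  k69 (.q k3 [(.s k1 k2 0 (.s k7 k11 1 (.s k5 k10 2 (.s k6 k4 0 (.d k9 k13 k12 1 2))))), (.s k10 k5
  2 (.s k11 k7 1 (.s k74 k202 7 (.s k137 k200 8 (.s k204 k70 10 (.d k136 k68 k139 9 0)))))), (.s k2
  k1 0 (.s k70 k206 9 (.s k7 k11 1 (.s k133 k196 8 (.s k192 k74 10 (.d k128 k64 k143 7 2)))))), (.s
  k2 k1 0 (.s k10 k5 2 (.s k70 k206 9 (.s k74 k202 7 (.s k78 k66 1 (.d k204 k137 k141 10 8))))))]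
  .n) (.c k74 (.f k69 k207 10 (.q k134 [(.s k4 k199 8 (.s k12 k8 1 (.s k195 k73 10 (.d k130 k142 k65
  1 8)))), (.s k5 k10 2 (.s k133 k197 7 (.s k130 k142 1 (.s k195 k65 8 (.d k135 k132 k75 0 9))))),
  (.s k5 k10 2 (.s k133 k197 7 (.s k128 k143 2 (.s k192 k64 7 (.s k132 k135 0 (.s k12 k72 9 (.d k4
  k8 k199 1 8)))))))] (.c k12 (.l (.s k5 k10 2 (.s k133 k197 7 (.s k135 k132 0 (.s k195 k75 9 (.d
  k130 k142 k65 1 8)))))) (.c k75 (.l (.s k4 k199 8 (.s k12 k8 1 (.s k130 k142 1 (.d k195 k65 k73 8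
  10))))) (.c k106 (.q k122 [(.s k4 k199 8 (.s k12 k8 1 (.s k195 k73 10 (.d k130 k142 k65 1 8)))),
  (.s k5 k10 2 (.s k133 k197 7 (.s k130 k142 1 (.s k195 k65 8 (.d k135 k132 k75 0 9))))), (.s k5 k10
  2 (.s k133 k197 7 (.s k128 k143 2 (.s k192 k64 7 (.s k132 k135 0 (.s k12 k72 9 (.d k4 k8 k199 1
  8)))))))] (.c k12 (.l (.s k5 k10 2 (.s k133 k197 7 (.s k135 k132 0 (.s k195 k75 9 (.d k130 k142
  k65 1 8)))))) (.c k46 (.q k226 [(.s k4 k199 8 (.s k12 k8 1 (.s k195 k73 10 (.d k130 k142 k65 1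
  8)))), (.s k130 k142 1 (.s k194 k210 3 (.s k2 k66 7 (.s k162 k82 11 (.s k98 k34 7 (.d k146 k178
  k50 3 11)))))), (.s k5 k10 2 (.s k4 k199 8 (.s k12 k8 1 (.s k133 k197 7 (.s k195 k73 10 (.d k135
  k75 k132 9 0))))))] (.c k12 (.l (.s k5 k10 2 (.s k133 k197 7 (.s k135 k132 0 (.s k195 k75 9 (.d
  k130 k142 k65 1 8)))))) (.c k30 (.l (.s k62 k182 9 (.s k4 k199 8 (.s k12 k8 1 (.s k195 k73 10 (.d
  k130 k142 k65 1 8)))))) (.c k62 (.q k30 [(.s k4 k199 8 (.s k12 k8 1 (.s k195 k73 10 (.d k130 k142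
  k65 1 8)))), (.s k130 k142 1 (.s k194 k210 3 (.s k2 k66 7 (.s k162 k82 11 (.s k98 k34 7 (.d k146
  k178 k50 3 11)))))), (.s k5 k10 2 (.s k4 k199 8 (.s k12 k8 1 (.s k133 k197 7 (.s k195 k73 10 (.d
  k135 k75 k132 9 0))))))] (.c k12 (.l (.s k5 k10 2 (.s k133 k197 7 (.s k135 k132 0 (.s k195 k75 9
  (.d k130 k142 k65 1 8)))))) (.c k150 (.l (.s k194 k210 3 (.s k4 k199 8 (.s k12 k8 1 (.s k195 k73
  10 (.d k130 k142 k65 1 8)))))) (.c k194 (.q k150 [(.s k4 k199 8 (.s k12 k8 1 (.s k195 k73 10 (.d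
  k130 k142 k65 1 8)))), (.s k199 k4 8 (.s k60 k45 4 (.s k20 k40 5 (.s k85 k215 8 (.d k101 k117 k52
  3 12))))), (.s k60 k45 4 (.s k195 k105 14 (.d k130 k142 k65 1 8)))] .n) .n)))) .n)))) (.c k75 (.l
  (.s k4 k199 8 (.s k12 k8 1 (.s k130 k142 1 (.d k195 k65 k73 8 10))))) (.c k226 (.q k46 [(.s k4
  k199 8 (.s k12 k8 1 (.s k195 k73 10 (.d k130 k142 k65 1 8)))), (.s k5 k10 2 (.s k133 k197 7 (.s
  k130 k142 1 (.s k195 k65 8 (.d k135 k132 k75 0 9))))), (.s k5 k10 2 (.s k133 k197 7 (.s k128 k143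
  2 (.s k192 k64 7 (.s k132 k135 0 (.s k12 k72 9 (.d k4 k8 k199 1 8)))))))] (.c k12 (.l (.s k5 k10 2
  (.s k133 k197 7 (.s k135 k132 0 (.s k195 k75 9 (.d k130 k142 k65 1 8)))))) (.c k75 (.l (.s k4 k199
  8 (.s k12 k8 1 (.s k130 k142 1 (.d k195 k65 k73 8 10))))) .n))) .n))))) (.c k122 (.q k106 [(.s k4
  k199 8 (.s k12 k8 1 (.s k195 k73 10 (.d k130 k142 k65 1 8)))), (.s k5 k10 2 (.s k133 k197 7 (.s
  k130 k142 1 (.s k195 k65 8 (.d k135 k132 k75 0 9))))), (.s k5 k10 2 (.s k133 k197 7 (.s k128 k143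
  2 (.s k192 k64 7 (.s k132 k135 0 (.s k12 k72 9 (.d k4 k8 k199 1 8)))))))] (.c k12 (.l (.s k5 k10 2
  (.s k133 k197 7 (.s k135 k132 0 (.s k195 k75 9 (.d k130 k142 k65 1 8)))))) (.c k75 (.l (.s k4 k199
  8 (.s k12 k8 1 (.s k130 k142 1 (.d k195 k65 k73 8 10))))) .n))) .n)))))) (.c k79 (.l (.s k5 k10 2
  (.s k69 k207 10 (.s k133 k197 7 (.s k192 k74 10 (.d k128 k143 k64 2 7)))))) (.c k128 (.q k3 [(.s
  k1 k2 0 (.s k69 k207 10 (.s k137 k205 9 (.s k204 k70 10 (.d k136 k139 k68 0 9))))), (.s k1 k2 0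
  (.s k7 k11 1 (.s k5 k10 2 (.s k6 k4 0 (.d k9 k13 k12 1 2))))), (.s k10 k5 2 (.s k207 k69 10 (.s
  k11 k7 1 (.s k139 k71 9 (.s k74 k202 7 (.d k137 k136 k200 0 8)))))), (.s k2 k1 0 (.s k69 k207 10
  (.s k70 k206 9 (.s k204 k137 10 (.d k68 k71 k136 0 9)))))] .n) (.c k133 (.q k3 [(.s k1 k2 0 (.s
  k69 k207 10 (.s k137 k205 9 (.s k136 k139 0 (.d k204 k68 k70 9 10))))), (.s k1 k2 0 (.s k7 k11 1
  (.s k5 k10 2 (.s k6 k4 0 (.d k9 k13 k12 1 2))))), (.s k10 k5 2 (.s k11 k7 1 (.s k74 k202 7 (.s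
  k137 k200 8 (.s k136 k139 0 (.d k204 k70 k68 10 9)))))), (.s k2 k1 0 (.s k69 k207 10 (.s k70 k206
  9 (.s k204 k137 10 (.d k68 k71 k136 0 9)))))] .n) (.c k192 (.q k3 [(.s k1 k2 0 (.s k69 k207 10 (.s
  k137 k205 9 (.s k204 k70 10 (.d k136 k139 k68 0 9))))), (.s k1 k2 0 (.s k7 k11 1 (.s k5 k10 2 (.s
  k6 k4 0 (.d k9 k13 k12 1 2))))), (.s k10 k5 2 (.s k207 k69 10 (.s k11 k7 1 (.s k139 k71 9 (.s k74
  k202 7 (.d k137 k136 k200 0 8)))))), (.s k2 k1 0 (.s k69 k207 10 (.s k70 k206 9 (.s k204 k137 10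
  (.d k68 k71 k136 0 9)))))] .n) (.c k197 (.l (.s k10 k5 2 (.s k69 k207 10 (.s k74 k202 7 (.s k192
  k133 10 (.d k64 k79 k128 2 7)))))) (.c k202 (.l (.s k5 k10 2 (.s k69 k207 10 (.s k133 k197 7 (.s
  k192 k74 10 (.d k128 k143 k64 2 7)))))) (.c k207 (.q k3 [(.s k1 k2 0 (.s k7 k11 1 (.s k5 k10 2 (.s
  k6 k4 0 (.d k9 k13 k12 1 2))))), (.s k10 k5 2 (.s k11 k7 1 (.s k74 k202 7 (.s k137 k200 8 (.s k204
  k70 10 (.d k136 k139 k68 0 9)))))), (.s k2 k1 0 (.s k70 k206 9 (.s k7 k11 1 (.s k133 k196 8 (.s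
  k192 k74 10 (.d k128 k143 k64 2 7)))))), (.s k2 k1 0 (.s k10 k5 2 (.s k70 k206 9 (.s k204 k137 10
  (.s k74 k202 7 (.d k78 k66 k141 1 8))))))] .n) .n))))))))))))) (.c k69 (.q k14 [(.s k10 k5 2 (.s
  k6 k2 1 (.s k12 k13 0 (.s k9 k3 2 (.d k8 k11 k4 0 1))))), (.s k12 k13 0 (.s k8 k4 1 (.s k73 k203 8
  (.s k134 k195 10 (.s k74 k194 9 (.s k72 k75 0 (.d k192 k132 k133 9 10))))))), (.s k10 k5 2 (.s k2
  k6 1 (.s k70 k206 9 (.s k74 k202 7 (.s k194 k134 9 (.d k66 k78 k130 1 7))))))] (.c k4 (.l (.s k10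
  k5 2 (.s k74 k202 7 (.s k12 k13 0 (.s k134 k194 9 (.s k195 k73 10 (.d k130 k65 k142 8 1))))))) (.c
  k133 (.l (.s k12 k13 0 (.s k8 k4 1 (.s k73 k203 8 (.s k134 k195 10 (.s k74 k194 9 (.d k10 k5 k202
  2 7))))))) .n))) (.c k74 (.f k69 k207 10 (.q k14 [(.s k10 k5 2 (.s k6 k2 1 (.s k12 k13 0 (.s k8 k4
  1 (.d k9 k11 k3 0 2))))), (.s k12 k13 0 (.s k4 k8 1 (.s k134 k199 8 (.s k195 k73 10 (.d k130 k142
  k65 1 8))))), (.s k10 k5 2 (.s k2 k6 1 (.s k70 k206 9 (.s k68 k71 0 (.s k204 k136 9 (.d k3 k1 k137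
  0 10))))))] (.c k4 (.l (.s k5 k10 2 (.s k133 k197 7 (.s k13 k12 0 (.s k1 k9 1 (.s k137 k205 9 (.s
  k193 k73 9 (.d k129 k141 k65 1 7)))))))) (.c k106 (.q k122 [(.s k10 k5 2 (.s k6 k2 1 (.s k12 k13 0
  (.s k8 k4 1 (.d k9 k11 k3 0 2))))), (.s k12 k13 0 (.s k4 k8 1 (.s k134 k199 8 (.s k195 k73 10 (.d
  k130 k142 k65 1 8))))), (.s k10 k5 2 (.s k2 k6 1 (.s k70 k206 9 (.s k68 k71 0 (.s k204 k136 9 (.d
  k3 k1 k137 0 10))))))] (.c k4 (.l (.s k5 k10 2 (.s k133 k197 7 (.s k13 k12 0 (.s k1 k9 1 (.s k137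
  k205 9 (.s k193 k73 9 (.d k129 k141 k65 1 7)))))))) (.c k46 (.q k226 [(.s k10 k5 2 (.s k6 k2 1 (.s
  k12 k13 0 (.s k8 k4 1 (.d k9 k11 k3 0 2))))), (.s k12 k13 0 (.s k4 k8 1 (.s k134 k199 8 (.s k195
  k73 10 (.d k130 k142 k65 1 8))))), (.s k10 k5 2 (.s k2 k6 1 (.s k70 k206 9 (.s k68 k71 0 (.s k204
  k136 9 (.d k3 k1 k137 0 10))))))] (.c k4 (.l (.s k5 k10 2 (.s k133 k197 7 (.s k13 k12 0 (.s k1 k9
  1 (.s k137 k205 9 (.s k193 k73 9 (.d k129 k141 k65 1 7)))))))) .n)) (.c k226 (.q k46 [(.s k10 k5 2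
  (.s k6 k2 1 (.s k12 k13 0 (.s k8 k4 1 (.d k9 k11 k3 0 2))))), (.s k12 k13 0 (.s k29 k63 4 (.s k30
  k62 3 (.s k60 k45 4 (.d k28 k31 k44 0 3))))), (.s k10 k5 2 (.s k2 k6 1 (.s k70 k206 9 (.s k68 k71
  0 (.s k204 k136 9 (.d k3 k1 k137 0 10))))))] .n) .n)))) (.c k122 (.q k106 [(.s k10 k5 2 (.s k6 k2
  1 (.s k12 k13 0 (.s k8 k4 1 (.d k9 k11 k3 0 2))))), (.s k12 k13 0 (.s k4 k8 1 (.s k134 k199 8 (.s
  k195 k73 10 (.d k130 k142 k65 1 8))))), (.s k10 k5 2 (.s k2 k6 1 (.s k70 k206 9 (.s k68 k71 0 (.s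
  k204 k136 9 (.d k3 k1 k137 0 10))))))] (.c k4 (.l (.s k5 k10 2 (.s k133 k197 7 (.s k13 k12 0 (.s
  k1 k9 1 (.s k137 k205 9 (.s k193 k73 9 (.d k129 k141 k65 1 7)))))))) .n)) .n))))) (.c k79 (.l (.s
  k5 k10 2 (.s k69 k207 10 (.s k133 k197 7 (.s k192 k74 10 (.d k128 k143 k64 2 7)))))) (.c k128 (.q
  k14 [(.s k10 k5 2 (.s k6 k2 1 (.s k12 k13 0 (.s k9 k3 2 (.d k8 k11 k4 0 1))))), (.s k69 k207 10
  (.s k12 k13 0 (.s k4 k8 1 (.s k134 k199 8 (.s k195 k73 10 (.d k130 k142 k65 1 8)))))), (.s k10 k5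
  2 (.s k207 k69 10 (.s k2 k6 1 (.s k206 k70 9 (.s k78 k142 7 (.d k204 k205 k141 0 8))))))] (.c k4
  (.l (.s k10 k5 2 (.s k207 k69 10 (.s k74 k202 7 (.s k12 k13 0 (.s k142 k77 8 (.d k134 k130 k194 1
  9))))))) .n)) (.c k133 (.q k14 [(.s k10 k5 2 (.s k6 k2 1 (.s k12 k13 0 (.s k9 k3 2 (.d k8 k11 k4 0
  1))))), (.s k69 k207 10 (.s k12 k13 0 (.s k4 k8 1 (.s k134 k199 8 (.s k130 k142 1 (.d k195 k73 k65
  10 8)))))), (.s k10 k5 2 (.s k2 k6 1 (.s k70 k206 9 (.s k74 k202 7 (.s k194 k134 9 (.d k66 k78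
  k130 1 7))))))] (.c k4 (.l (.s k10 k5 2 (.s k74 k202 7 (.s k12 k13 0 (.s k134 k194 9 (.s k130 k142
  1 (.d k195 k73 k65 10 8))))))) (.c k69 (.l (.s k12 k13 0 (.s k8 k4 1 (.s k73 k203 8 (.s k134 k195
  10 (.s k74 k194 9 (.d k10 k5 k202 2 7))))))) .n))) (.c k143 (.l (.s k10 k5 2 (.s k69 k207 10 (.s
  k74 k202 7 (.s k192 k133 10 (.d k64 k79 k128 2 7)))))) (.c k192 (.q k14 [(.s k10 k5 2 (.s k6 k2 1
  (.s k12 k13 0 (.s k8 k4 1 (.d k9 k11 k3 0 2))))), (.s k69 k207 10 (.s k12 k13 0 (.s k4 k8 1 (.s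
  k134 k199 8 (.s k195 k73 10 (.d k130 k142 k65 1 8)))))), (.s k10 k5 2 (.s k207 k69 10 (.s k2 k6 1
  (.s k206 k70 9 (.s k78 k142 7 (.d k204 k205 k141 0 8))))))] (.c k4 (.l (.s k10 k5 2 (.s k207 k69
  10 (.s k74 k202 7 (.s k12 k13 0 (.s k142 k77 8 (.d k134 k130 k194 1 9))))))) .n)) (.c k197 (.l (.s
  k10 k5 2 (.s k69 k207 10 (.s k74 k202 7 (.s k192 k133 10 (.d k64 k79 k128 2 7)))))) (.c k202 (.l
  (.s k5 k10 2 (.s k69 k207 10 (.s k133 k197 7 (.s k192 k74 10 (.d k128 k143 k64 2 7)))))) (.c k207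
  (.q k3 [(.s k2 k1 0 (.s k11 k7 1 (.s k10 k5 2 (.s k9 k8 0 (.d k6 k14 k12 1 2))))), (.s k2 k1 0 (.s
  k70 k206 9 (.s k7 k11 1 (.s k133 k196 8 (.s k192 k74 10 (.d k128 k143 k64 2 7)))))), (.s k10 k5 2
  (.s k11 k7 1 (.s k74 k202 7 (.s k137 k200 8 (.s k204 k70 10 (.d k136 k139 k68 0 9)))))), (.s k2 k1
  0 (.s k10 k5 2 (.s k70 k206 9 (.s k204 k137 10 (.s k74 k202 7 (.d k78 k66 k141 1 8))))))] (.c k14
  (.q k242 [(.s k1 k2 0 (.s k7 k11 1 (.s k5 k10 2 (.s k6 k4 0 (.d k9 k13 k12 1 2))))), (.s k10 k5 2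
  (.s k11 k7 1 (.s k74 k202 7 (.s k137 k200 8 (.s k204 k70 10 (.d k136 k139 k68 0 9)))))), (.s k2 k1
  0 (.s k70 k206 9 (.s k7 k11 1 (.s k133 k196 8 (.s k192 k74 10 (.d k128 k143 k64 2 7)))))), (.s k2
  k1 0 (.s k10 k5 2 (.s k70 k206 9 (.s k204 k137 10 (.s k74 k202 7 (.d k78 k66 k141 1 8))))))] .n)
  (.c k242 (.q k14 [(.s k2 k1 0 (.d k10 k6 k5 1 2)), (.s k2 k1 0 (.s k70 k206 9 (.s k7 k11 1 (.s
  k133 k196 8 (.s k192 k74 10 (.d k128 k143 k64 2 7)))))), (.s k5 k10 2 (.s k7 k11 1 (.s k4 k6 0 (.d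
  k12 k8 k13 1 0))))] .n) .n))) (.c k242 (.q k14 [(.s k10 k5 2 (.s k207 k69 10 (.s k74 k202 7 (.s
  k133 k192 10 (.d k143 k128 k79 2 7))))), (.s k10 k5 2 (.s k6 k2 1 (.s k12 k13 0 (.s k8 k4 1 (.d k9
  k11 k3 0 2))))), (.s k69 k207 10 (.s k12 k13 0 (.s k4 k8 1 (.s k134 k199 8 (.s k195 k73 10 (.d
  k130 k142 k65 1 8))))))] .n) .n)))))))))))))))

def t167 : T TT 256 :=
  (.q k21 [(.s k10 k5 2 (.s k42 k63 6 (.s k26 k58 3 (.s k48 k37 6 (.d k16 k31 k32 2 3)))))] (.c k5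
  (.q k12 [(.s k4 k8 1 (.s k42 k63 6 (.s k38 k55 4 (.s k51 k25 6 (.d k34 k46 k17 1 4))))), (.s k63
  k42 6 (.s k14 k13 0 (.s k46 k29 4 (.s k30 k62 3 (.s k45 k60 4 (.d k47 k44 k31 0 3)))))), (.s k4 k8
  1 (.s k38 k55 4 (.s k14 k13 0 (.s k26 k50 5 (.s k16 k31 2 (.d k48 k32 k37 3 6))))))] .n) (.c k10
  (.q k12 [(.s k8 k4 1 (.s k42 k63 6 (.s k25 k59 4 (.s k51 k38 6 (.d k17 k29 k34 1 4))))), (.s k63
  k42 6 (.s k14 k13 0 (.s k46 k29 4 (.s k30 k62 3 (.s k45 k60 4 (.d k47 k44 k31 0 3)))))), (.s k4 k8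
  1 (.s k38 k55 4 (.s k14 k13 0 (.s k26 k50 5 (.s k16 k31 2 (.d k48 k32 k37 3 6))))))] (.c k170 (.q
  k250 [(.s k8 k4 1 (.s k42 k63 6 (.s k25 k59 4 (.s k51 k38 6 (.d k17 k29 k34 1 4))))), (.s k63 k42
  6 (.s k14 k13 0 (.s k46 k29 4 (.s k30 k62 3 (.s k45 k60 4 (.d k47 k44 k31 0 3)))))), (.s k4 k8 1
  (.s k38 k55 4 (.s k14 k13 0 (.s k26 k50 5 (.s k16 k31 2 (.d k48 k32 k37 3 6))))))] .n) (.c k250
  (.q k170 [(.s k8 k4 1 (.s k42 k63 6 (.s k25 k59 4 (.s k51 k38 6 (.d k17 k29 k34 1 4))))), (.s k63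
  k42 6 (.s k85 k255 14 (.s k149 k213 7 (.s k192 k106 14 (.d k128 k191 k64 6 7))))), (.s k4 k8 1 (.s
  k85 k255 14 (.s k166 k247 12 (.s k243 k89 14 (.d k162 k174 k81 1 12)))))] .n) .n))) (.c k16 (.q
  k12 [(.s k4 k8 1 (.s k42 k63 6 (.s k38 k55 4 (.s k51 k25 6 (.d k34 k46 k17 1 4))))), (.s k4 k8 1
  (.s k5 k10 2 (.s k6 k7 0 (.s k9 k3 2 (.d k13 k14 k1 0 1))))), (.s k5 k10 2 (.s k63 k42 6 (.s k37
  k53 3 (.s k13 k14 0 (.s k29 k46 4 (.d k25 k17 k49 1 5))))))] .n) (.c k26 (.f k10 k5 2 (.f k42 k63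
  6 (.q k12 [(.s k4 k8 1 (.s k38 k55 4 (.s k34 k46 1 (.d k51 k17 k25 4 6)))), (.s k14 k13 0 (.s k2
  k6 1 (.s k22 k62 5 (.s k20 k23 0 (.s k60 k40 5 (.d k3 k1 k41 0 6))))))] (.c k4 (.l (.s k14 k13 0
  (.s k6 k2 1 (.s k9 k3 2 (.s k8 k11 0 (.s k25 k59 4 (.s k51 k38 6 (.d k17 k29 k34 1 4)))))))) (.c
  k154 (.q k218 [(.s k4 k8 1 (.s k38 k55 4 (.s k34 k46 1 (.d k51 k17 k25 4 6)))), (.s k14 k13 0 (.s
  k2 k6 1 (.s k22 k62 5 (.s k20 k23 0 (.s k60 k40 5 (.d k3 k1 k41 0 6))))))] (.c k4 (.l (.s k14 k13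
  0 (.s k6 k2 1 (.s k9 k3 2 (.s k8 k11 0 (.s k25 k59 4 (.s k51 k38 6 (.d k17 k29 k34 1 4))))))))
  .n)) (.c k218 (.q k154 [(.s k4 k8 1 (.s k38 k55 4 (.s k34 k46 1 (.d k51 k17 k25 4 6)))), (.s k14
  k13 0 (.s k2 k6 1 (.s k22 k62 5 (.s k20 k23 0 (.s k60 k40 5 (.d k3 k1 k41 0 6))))))] (.c k4 (.l
  (.s k14 k13 0 (.s k6 k2 1 (.s k9 k3 2 (.s k8 k11 0 (.s k25 k59 4 (.s k51 k38 6 (.d k17 k29 k34 1
  4)))))))) .n)) .n)))))) (.c k31 (.l (.s k5 k10 2 (.s k42 k63 6 (.s k37 k53 3 (.s k48 k26 6 (.d k32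
  k47 k16 2 3)))))) (.c k32 (.l (.s k5 k10 2 (.s k63 k42 6 (.s k37 k53 3 (.s k26 k48 6 (.d k31 k47
  k16 3 2)))))) (.c k37 (.q k12 [(.s k4 k8 1 (.s k42 k63 6 (.s k38 k55 4 (.s k34 k46 1 (.d k51 k17
  k25 4 6))))), (.s k4 k8 1 (.s k5 k10 2 (.s k6 k7 0 (.s k9 k3 2 (.d k13 k14 k1 0 1))))), (.s k5 k10
  2 (.s k63 k42 6 (.s k13 k14 0 (.s k29 k46 4 (.s k61 k45 3 (.d k1 k41 k9 5 1))))))] .n) (.c k42 (.q
  k12 [(.s k8 k4 1 (.s k10 k5 2 (.s k9 k11 0 (.s k6 k3 2 (.d k14 k13 k2 0 1))))), (.s k4 k8 1 (.s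
  k38 k55 4 (.s k14 k13 0 (.s k26 k50 5 (.s k48 k37 6 (.d k16 k32 k31 3 2)))))), (.s k5 k10 2 (.s
  k37 k53 3 (.s k13 k14 0 (.s k25 k49 5 (.s k51 k38 6 (.d k17 k34 k29 4 1)))))), (.s k4 k8 1 (.s k5
  k10 2 (.s k38 k55 4 (.s k37 k53 3 (.s k36 k39 0 (.d k48 k26 k24 6 5))))))] .n) (.c k48 (.q k12
  [(.s k4 k8 1 (.s k42 k63 6 (.s k38 k55 4 (.s k51 k25 6 (.d k34 k46 k17 1 4))))), (.s k4 k8 1 (.s
  k5 k10 2 (.s k6 k7 0 (.s k9 k3 2 (.d k13 k14 k1 0 1))))), (.s k5 k10 2 (.s k63 k42 6 (.s k37 k53 3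
  (.s k13 k14 0 (.s k29 k46 4 (.d k25 k17 k49 1 5))))))] .n) (.c k53 (.l (.s k10 k5 2 (.s k42 k63 6
  (.s k26 k58 3 (.s k48 k37 6 (.d k16 k31 k32 2 3)))))) (.c k58 (.l (.s k5 k10 2 (.s k42 k63 6 (.s
  k37 k53 3 (.s k48 k26 6 (.d k32 k47 k16 2 3)))))) (.c k63 (.q k12 [(.s k8 k4 1 (.s k14 k13 0 (.s
  k10 k5 2 (.s k6 k2 1 (.d k9 k11 k3 0 2))))), (.s k4 k8 1 (.s k38 k55 4 (.s k14 k13 0 (.s k26 k50 5
  (.s k48 k37 6 (.d k16 k31 k32 2 3)))))), (.s k5 k10 2 (.s k37 k53 3 (.s k13 k14 0 (.s k25 k49 5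
  (.s k51 k38 6 (.d k17 k29 k34 1 4)))))), (.s k4 k8 1 (.s k5 k10 2 (.s k38 k55 4 (.s k37 k53 3 (.s
  k51 k25 6 (.d k39 k36 k27 0 5))))))] .n) .n)))))))))))))

def t170 : T TT 256 :=
  (.f k10 k5 2 (.q k42 [(.s k21 k63 6 (.s k26 k58 3 (.s k48 k37 6 (.d k16 k31 k32 2 3))))] (.c k16
  (.l (.s k63 k21 6 (.s k26 k58 3 (.s k37 k48 6 (.d k47 k31 k32 3 2))))) (.c k21 (.q k12 [(.s k14
  k13 0 (.s k6 k2 1 (.s k9 k3 2 (.d k8 k11 k4 0 1)))), (.s k26 k58 3 (.s k14 k13 0 (.s k38 k50 5 (.s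
  k51 k25 6 (.d k34 k17 k46 4 1))))), (.s k8 k4 1 (.s k25 k59 4 (.s k26 k58 3 (.s k24 k27 0 (.d k48
  k37 k36 6 5)))))] (.c k37 (.q k53 [(.s k8 k4 1 (.s k9 k11 0 (.s k6 k3 2 (.d k14 k13 k2 0 1)))),
  (.s k26 k58 3 (.s k14 k13 0 (.s k38 k50 5 (.s k34 k46 1 (.d k51 k25 k17 6 4))))), (.s k8 k4 1 (.s
  k25 k59 4 (.s k26 k58 3 (.s k27 k24 0 (.d k51 k38 k39 6 5)))))] (.c k38 (.l (.s k14 k13 0 (.s k6
  k2 1 (.s k9 k3 2 (.d k8 k11 k4 0 1))))) .n)) (.c k53 (.q k37 [(.d k26 k58 k48 3 6), (.s k8 k4 1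
  (.s k25 k59 4 (.d k13 k14 k49 0 5)))] .n) .n))) (.c k26 (.f k21 k63 6 (.q k12 [(.s k4 k8 1 (.s k38
  k55 4 (.s k34 k46 1 (.d k51 k17 k25 4 6)))), (.s k14 k13 0 (.s k2 k6 1 (.s k22 k62 5 (.s k20 k23 0
  (.s k60 k40 5 (.d k3 k1 k41 0 6))))))] (.c k4 (.l (.s k14 k13 0 (.s k6 k2 1 (.s k9 k3 2 (.s k8 k11
  0 (.s k25 k59 4 (.s k51 k38 6 (.d k17 k29 k34 1 4)))))))) (.c k154 (.q k218 [(.s k4 k8 1 (.s k38
  k55 4 (.s k34 k46 1 (.d k51 k17 k25 4 6)))), (.s k14 k13 0 (.s k2 k6 1 (.s k22 k62 5 (.s k20 k23 0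
  (.s k60 k40 5 (.d k3 k1 k41 0 6))))))] (.c k4 (.l (.s k14 k13 0 (.s k6 k2 1 (.s k9 k3 2 (.s k8 k11
  0 (.s k25 k59 4 (.s k51 k38 6 (.d k17 k29 k34 1 4)))))))) (.c k138 (.q k186 [(.s k4 k8 1 (.s k38
  k55 4 (.s k34 k46 1 (.d k51 k17 k25 4 6)))), (.s k14 k13 0 (.s k2 k6 1 (.s k22 k62 5 (.s k20 k23 0
  (.s k60 k40 5 (.d k3 k1 k41 0 6))))))] (.c k4 (.l (.s k14 k13 0 (.s k6 k2 1 (.s k9 k3 2 (.s k8 k11
  0 (.s k25 k59 4 (.s k51 k38 6 (.d k17 k29 k34 1 4)))))))) .n)) (.c k186 (.q k138 [(.s k4 k8 1 (.s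
  k38 k55 4 (.s k34 k46 1 (.d k51 k17 k25 4 6)))), (.s k69 k207 10 (.s k74 k202 7 (.s k192 k133 10
  (.d k64 k79 k128 2 7))))] .n) .n)))) (.c k218 (.q k154 [(.s k4 k8 1 (.s k38 k55 4 (.s k34 k46 1
  (.d k51 k17 k25 4 6)))), (.s k14 k13 0 (.s k2 k6 1 (.s k22 k62 5 (.s k20 k23 0 (.s k60 k40 5 (.d
  k3 k1 k41 0 6))))))] (.c k4 (.l (.s k14 k13 0 (.s k6 k2 1 (.s k9 k3 2 (.s k8 k11 0 (.s k25 k59 4
  (.s k51 k38 6 (.d k17 k29 k34 1 4)))))))) .n)) .n))))) (.c k31 (.q k12 [(.s k8 k4 1 (.s k9 k11 0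
  (.s k6 k3 2 (.d k14 k13 k2 0 1)))), (.s k4 k8 1 (.s k21 k63 6 (.s k38 k55 4 (.s k51 k25 6 (.d k34
  k46 k17 1 4))))), (.s k63 k21 6 (.s k26 k58 3 (.s k14 k13 0 (.s k46 k29 4 (.d k38 k34 k50 1
  5)))))] (.c k149 (.q k208 [(.s k8 k4 1 (.s k9 k11 0 (.s k6 k3 2 (.d k14 k13 k2 0 1)))), (.s k4 k8
  1 (.s k21 k63 6 (.s k38 k55 4 (.s k51 k25 6 (.d k34 k46 k17 1 4))))), (.s k63 k21 6 (.s k26 k58 3
  (.s k14 k13 0 (.s k46 k29 4 (.d k38 k34 k50 1 5)))))] (.c k128 (.q k191 [(.s k8 k4 1 (.s k9 k11 0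
  (.s k6 k3 2 (.d k14 k13 k2 0 1)))), (.s k4 k8 1 (.s k21 k63 6 (.s k38 k55 4 (.s k51 k25 6 (.d k34
  k46 k17 1 4))))), (.s k63 k21 6 (.s k26 k58 3 (.s k14 k13 0 (.s k46 k29 4 (.d k38 k34 k50 1
  5)))))] .n) (.c k191 (.q k128 [(.s k8 k4 1 (.s k9 k11 0 (.s k6 k3 2 (.d k14 k13 k2 0 1)))), (.s k4
  k8 1 (.s k21 k63 6 (.s k38 k55 4 (.s k51 k25 6 (.d k34 k46 k17 1 4))))), (.s k63 k21 6 (.s k26 k58
  3 (.s k14 k13 0 (.s k46 k29 4 (.d k38 k34 k50 1 5)))))] .n) .n))) (.c k208 (.q k149 [(.s k8 k4 1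
  (.s k9 k11 0 (.s k6 k3 2 (.d k14 k13 k2 0 1)))), (.s k4 k8 1 (.s k21 k63 6 (.s k38 k55 4 (.s k51
  k25 6 (.d k34 k46 k17 1 4))))), (.s k63 k21 6 (.s k26 k58 3 (.s k14 k13 0 (.s k46 k29 4 (.d k38
  k34 k50 1 5)))))] .n) .n))) (.c k32 (.f k21 k63 6 (.q k12 [(.s k4 k8 1 (.s k38 k55 4 (.s k51 k25 6
  (.d k34 k46 k17 1 4)))), (.s k8 k4 1 (.s k9 k11 0 (.s k6 k3 2 (.d k14 k13 k2 0 1)))), (.s k26 k58
  3 (.s k14 k13 0 (.s k38 k50 5 (.s k51 k25 6 (.d k34 k46 k17 1 4)))))] (.c k101 (.q k239 [(.s k4 k8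
  1 (.s k38 k55 4 (.s k51 k25 6 (.d k34 k46 k17 1 4)))), (.s k8 k4 1 (.s k9 k11 0 (.s k6 k3 2 (.d
  k14 k13 k2 0 1)))), (.s k26 k58 3 (.s k14 k13 0 (.s k38 k50 5 (.s k51 k25 6 (.d k34 k46 k17 1
  4)))))] (.c k79 (.q k112 [(.s k4 k8 1 (.s k38 k55 4 (.s k51 k25 6 (.d k34 k46 k17 1 4)))), (.s k8
  k4 1 (.s k9 k11 0 (.s k6 k3 2 (.d k14 k13 k2 0 1)))), (.s k26 k58 3 (.s k14 k13 0 (.s k38 k50 5
  (.s k51 k25 6 (.d k34 k46 k17 1 4)))))] .n) (.c k112 (.q k79 [(.s k4 k8 1 (.s k38 k55 4 (.s k51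
  k25 6 (.d k34 k46 k17 1 4)))), (.s k8 k4 1 (.s k9 k11 0 (.s k6 k3 2 (.d k14 k13 k2 0 1)))), (.s
  k26 k58 3 (.s k14 k13 0 (.s k38 k50 5 (.s k51 k25 6 (.d k34 k46 k17 1 4)))))] .n) .n))) (.c k239
  (.q k101 [(.s k4 k8 1 (.s k38 k55 4 (.s k51 k25 6 (.d k34 k46 k17 1 4)))), (.s k8 k4 1 (.s k9 k11
  0 (.s k6 k3 2 (.d k14 k13 k2 0 1)))), (.s k26 k58 3 (.s k14 k13 0 (.s k38 k50 5 (.s k51 k25 6 (.d
  k34 k46 k17 1 4)))))] .n) .n)))) (.c k37 (.q k12 [(.s k8 k4 1 (.s k9 k11 0 (.s k6 k3 2 (.d k14 k13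
  k2 0 1)))), (.s k4 k8 1 (.s k21 k63 6 (.s k38 k55 4 (.s k34 k46 1 (.d k51 k17 k25 4 6))))), (.s
  k26 k58 3 (.s k14 k13 0 (.s k38 k50 5 (.s k34 k46 1 (.d k51 k25 k17 6 4)))))] (.c k21 (.q k53 [(.s
  k8 k4 1 (.s k9 k11 0 (.s k6 k3 2 (.d k14 k13 k2 0 1)))), (.s k26 k58 3 (.s k14 k13 0 (.s k38 k50 5
  (.s k34 k46 1 (.d k51 k25 k17 6 4))))), (.s k8 k4 1 (.s k25 k59 4 (.s k26 k58 3 (.s k27 k24 0 (.d
  k51 k38 k39 6 5)))))] (.c k38 (.l (.s k14 k13 0 (.s k6 k2 1 (.s k9 k3 2 (.d k8 k11 k4 0 1)))))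
  .n)) (.c k53 (.l (.s k21 k63 6 (.s k4 k8 1 (.s k38 k55 4 (.s k14 k13 0 (.d k26 k58 k50 3 5))))))
  .n))) (.c k48 (.q k12 [(.s k8 k4 1 (.s k9 k11 0 (.s k14 k13 0 (.d k6 k2 k3 1 2)))), (.s k4 k8 1
  (.s k21 k63 6 (.s k38 k55 4 (.s k51 k25 6 (.d k34 k46 k17 1 4))))), (.s k63 k21 6 (.s k26 k58 3
  (.s k14 k13 0 (.s k46 k29 4 (.d k38 k34 k50 1 5)))))] .n) (.c k53 (.l (.s k21 k63 6 (.s k26 k58 3
  (.s k48 k37 6 (.d k16 k31 k32 2 3))))) (.c k58 (.q k12 [(.s k8 k4 1 (.s k9 k11 0 (.s k6 k3 2 (.d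
  k14 k13 k2 0 1)))), (.s k4 k8 1 (.s k21 k63 6 (.s k38 k55 4 (.s k51 k25 6 (.d k34 k46 k17 1
  4))))), (.s k63 k21 6 (.s k14 k13 0 (.s k46 k29 4 (.s k62 k30 3 (.d k2 k6 k22 1 5)))))] .n) (.c
  k63 (.q k12 [(.s k8 k4 1 (.s k9 k11 0 (.s k14 k13 0 (.d k6 k2 k3 1 2)))), (.s k26 k58 3 (.s k14
  k13 0 (.s k38 k50 5 (.s k51 k25 6 (.d k34 k46 k17 1 4))))), (.s k8 k4 1 (.s k25 k59 4 (.s k26 k58
  3 (.s k51 k38 6 (.d k27 k24 k39 0 5)))))] .n) .n))))))))))))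

def t171 : T TT 256 :=
  (.q k21 [(.s k10 k5 2 (.s k42 k63 6 (.s k26 k58 3 (.s k48 k37 6 (.d k16 k31 k32 2 3)))))] (.c k5
  (.q k12 [(.s k4 k8 1 (.s k42 k63 6 (.s k38 k55 4 (.s k51 k25 6 (.d k34 k46 k17 1 4))))), (.s k63
  k42 6 (.s k14 k13 0 (.s k46 k29 4 (.s k30 k62 3 (.s k45 k60 4 (.d k47 k44 k31 0 3)))))), (.s k4 k8
  1 (.s k38 k55 4 (.s k14 k13 0 (.s k26 k50 5 (.s k16 k31 2 (.d k48 k32 k37 3 6))))))] .n) (.c k10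
  (.q k170 [(.s k85 k255 14 (.s k149 k213 7 (.s k128 k191 6 (.s k192 k64 7 (.d k63 k42 k106 6
  14))))), (.s k63 k42 6 (.s k255 k85 14 (.s k31 k47 3 (.s k95 k175 11 (.s k159 k223 7 (.s k111 k207
  11 (.d k127 k79 k191 3 7)))))))] (.c k42 (.q k154 [(.s k85 k255 14 (.s k16 k223 10 (.s k48 k32 3
  (.d k26 k37 k31 6 2)))), (.s k138 k186 3 (.s k207 k69 10 (.s k143 k79 7 (.s k128 k133 2 (.s k149
  k191 6 (.s k176 k165 6 (.d k144 k159 k160 2 3)))))))] (.c k26 (.q k58 [(.s k255 k85 14 (.s k138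
  k186 3 (.s k207 k69 10 (.s k101 k48 14 (.d k239 k223 k32 3 10))))), (.s k85 k255 14 (.s k149 k213
  7 (.s k128 k191 6 (.s k192 k64 7 (.d k106 k63 k202 14 11))))), (.s k202 k106 11 (.s k138 k186 3
  (.s k207 k69 10 (.s k143 k79 7 (.s k128 k133 2 (.d k192 k197 k64 2 7))))))] .n) (.c k58 (.q k26
  [(.s k48 k37 6 (.d k16 k32 k31 3 2)), (.s k85 k255 14 (.d k16 k31 k223 2 10)), (.s k255 k85 14 (.s
  k48 k37 6 (.d k186 k138 k117 3 10)))] .n) (.c k207 (.l (.s k255 k85 14 (.s k186 k138 3 (.s k48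
  k117 10 (.s k16 k32 3 (.d k26 k37 k31 6 2)))))) .n)))) (.c k63 (.q k12 [(.s k8 k4 1 (.s k255 k85
  14 (.s k174 k93 12 (.s k166 k162 1 (.d k89 k251 k243 12 14))))), (.s k4 k8 1 (.s k38 k55 4 (.s k14
  k13 0 (.s k26 k50 5 (.s k48 k37 6 (.d k16 k31 k32 2 3)))))), (.s k255 k85 14 (.s k13 k14 0 (.s k93
  k174 12 (.s k173 k253 11 (.s k94 k252 12 (.d k95 k92 k175 0 11))))))] .n) (.c k85 (.q k12 [(.s k4
  k8 1 (.s k42 k63 6 (.s k38 k55 4 (.s k51 k25 6 (.d k34 k46 k17 1 4))))), (.s k63 k42 6 (.s k14 k13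
  0 (.s k46 k29 4 (.s k30 k62 3 (.s k45 k60 4 (.d k47 k44 k31 0 3)))))), (.s k4 k8 1 (.s k38 k55 4
  (.s k14 k13 0 (.s k26 k50 5 (.s k16 k31 2 (.d k48 k32 k37 3 6))))))] (.c k80 (.q k95 [(.s k4 k8 1
  (.s k42 k63 6 (.s k38 k55 4 (.s k51 k25 6 (.d k34 k46 k17 1 4))))), (.s k13 k14 0 (.s k255 k175 11
  (.s k93 k174 12 (.s k173 k253 11 (.d k94 k92 k252 0 12)))))] .n) (.c k95 (.q k80 [(.s k4 k8 1 (.s
  k42 k63 6 (.s k38 k55 4 (.s k51 k25 6 (.d k34 k46 k17 1 4))))), (.s k8 k4 1 (.s k160 k240 11 (.s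
  k89 k251 12 (.s k13 k14 0 (.d k165 k175 k241 2 13))))), (.s k63 k42 6 (.s k13 k14 0 (.s k29 k46 4
  (.s k45 k61 3 (.s k30 k60 4 (.d k31 k28 k47 0 3))))))] .n) .n))) (.c k127 (.l (.s k63 k42 6 (.s
  k85 k255 14 (.s k149 k213 7 (.s k192 k106 14 (.d k128 k191 k64 6 7)))))) (.c k191 (.q k12 [(.s k8
  k4 1 (.s k42 k63 6 (.s k25 k59 4 (.s k51 k38 6 (.d k17 k29 k34 1 4))))), (.s k8 k4 1 (.s k255 k85
  14 (.s k89 k251 12 (.s k166 k243 14 (.d k174 k162 k93 1 12))))), (.s k63 k42 6 (.s k13 k14 0 (.s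
  k29 k46 4 (.s k45 k61 3 (.s k30 k60 4 (.d k31 k28 k47 0 3))))))] (.c k131 (.q k151 [(.s k8 k4 1
  (.s k42 k63 6 (.s k25 k59 4 (.s k51 k38 6 (.d k17 k29 k34 1 4))))), (.s k63 k42 6 (.s k85 k255 14
  (.s k149 k213 7 (.s k195 k107 13 (.s k130 k65 8 (.d k150 k148 k190 0 5)))))), (.s k8 k4 1 (.s k255
  k85 14 (.s k89 k251 12 (.s k166 k243 14 (.d k174 k162 k93 1 12)))))] (.c k255 (.l (.s k4 k8 1 (.s
  k63 k42 6 (.s k38 k55 4 (.s k25 k51 6 (.d k29 k17 k46 1 4)))))) .n)) (.c k151 (.q k131 [(.s k8 k4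
  1 (.s k42 k63 6 (.s k25 k59 4 (.s k51 k38 6 (.d k17 k29 k34 1 4))))), (.s k8 k4 1 (.s k255 k85 14
  (.s k89 k251 12 (.s k166 k243 14 (.d k174 k162 k93 1 12))))), (.s k63 k42 6 (.s k13 k14 0 (.s k29
  k46 4 (.s k45 k61 3 (.s k30 k60 4 (.d k31 k28 k47 0 3))))))] .n) .n))) (.c k255 (.q k3 [(.s k2 k1
  0 (.s k42 k63 6 (.s k22 k62 5 (.s k60 k41 6 (.d k20 k23 k40 0 5))))), (.s k63 k42 6 (.s k11 k7 1
  (.s k43 k23 5 (.s k27 k59 3 (.s k39 k51 5 (.d k47 k35 k31 1 3)))))), (.s k1 k2 0 (.s k41 k61 5 (.s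
  k11 k7 1 (.s k26 k56 4 (.s k16 k31 2 (.d k48 k32 k37 3 6))))))] .n) .n))))))) (.c k16 (.q k12 [(.s
  k4 k8 1 (.s k42 k63 6 (.s k38 k55 4 (.s k51 k25 6 (.d k34 k46 k17 1 4))))), (.s k4 k8 1 (.s k5 k10
  2 (.s k6 k7 0 (.s k9 k3 2 (.d k13 k14 k1 0 1))))), (.s k5 k10 2 (.s k63 k42 6 (.s k37 k53 3 (.s
  k13 k14 0 (.s k29 k46 4 (.d k25 k17 k49 1 5))))))] .n) (.c k26 (.f k10 k5 2 (.q k12 [(.s k14 k13 0
  (.s k8 k4 1 (.s k6 k2 1 (.d k9 k11 k3 0 2)))), (.s k4 k8 1 (.s k42 k63 6 (.s k38 k55 4 (.s k51 k25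
  6 (.d k34 k46 k17 1 4))))), (.s k63 k42 6 (.s k13 k14 0 (.s k29 k46 4 (.s k45 k61 3 (.s k30 k60 4
  (.d k31 k28 k47 0 3))))))] (.c k154 (.q k218 [(.s k14 k13 0 (.s k8 k4 1 (.s k6 k2 1 (.d k9 k11 k3
  0 2)))), (.s k4 k8 1 (.s k42 k63 6 (.s k38 k55 4 (.s k51 k25 6 (.d k34 k46 k17 1 4))))), (.s k63
  k42 6 (.s k13 k14 0 (.s k29 k46 4 (.s k45 k61 3 (.s k30 k60 4 (.d k31 k28 k47 0 3))))))] .n) (.c
  k218 (.q k154 [(.s k14 k13 0 (.s k8 k4 1 (.s k6 k2 1 (.d k9 k11 k3 0 2)))), (.s k4 k8 1 (.s k42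
  k63 6 (.s k38 k55 4 (.s k51 k25 6 (.d k34 k46 k17 1 4))))), (.s k63 k42 6 (.s k13 k14 0 (.s k29
  k46 4 (.s k45 k61 3 (.s k30 k60 4 (.d k31 k28 k47 0 3))))))] .n) .n)))) (.c k31 (.l (.s k5 k10 2
  (.s k42 k63 6 (.s k37 k53 3 (.s k48 k26 6 (.d k32 k47 k16 2 3)))))) (.c k32 (.l (.s k5 k10 2 (.s
  k63 k42 6 (.s k37 k53 3 (.s k26 k48 6 (.d k31 k47 k16 3 2)))))) (.c k37 (.q k12 [(.s k4 k8 1 (.s
  k42 k63 6 (.s k38 k55 4 (.s k34 k46 1 (.d k51 k17 k25 4 6))))), (.s k4 k8 1 (.s k5 k10 2 (.s k6 k7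
  0 (.s k9 k3 2 (.d k13 k14 k1 0 1))))), (.s k5 k10 2 (.s k63 k42 6 (.s k13 k14 0 (.s k29 k46 4 (.s
  k61 k45 3 (.d k1 k41 k9 5 1))))))] .n) (.c k42 (.q k12 [(.s k8 k4 1 (.s k14 k13 0 (.s k10 k5 2 (.s
  k6 k2 1 (.d k9 k11 k3 0 2))))), (.s k4 k8 1 (.s k38 k55 4 (.s k14 k13 0 (.s k26 k50 5 (.s k48 k37
  6 (.d k16 k32 k31 3 2)))))), (.s k5 k10 2 (.s k37 k53 3 (.s k13 k14 0 (.s k25 k49 5 (.s k51 k38 6
  (.d k17 k34 k29 4 1)))))), (.s k4 k8 1 (.s k5 k10 2 (.s k38 k55 4 (.s k37 k53 3 (.s k36 k39 0 (.d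
  k48 k26 k24 6 5))))))] .n) (.c k48 (.q k12 [(.s k4 k8 1 (.s k42 k63 6 (.s k38 k55 4 (.s k51 k25 6
  (.d k34 k46 k17 1 4))))), (.s k4 k8 1 (.s k5 k10 2 (.s k6 k7 0 (.s k9 k3 2 (.d k13 k14 k1 0
  1))))), (.s k5 k10 2 (.s k63 k42 6 (.s k37 k53 3 (.s k13 k14 0 (.s k29 k46 4 (.d k25 k17 k49 1
  5))))))] .n) (.c k53 (.l (.s k10 k5 2 (.s k42 k63 6 (.s k26 k58 3 (.s k48 k37 6 (.d k16 k31 k32 2
  3)))))) (.c k58 (.l (.s k5 k10 2 (.s k42 k63 6 (.s k37 k53 3 (.s k48 k26 6 (.d k32 k47 k16 2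
  3)))))) (.c k63 (.q k12 [(.s k8 k4 1 (.s k14 k13 0 (.s k10 k5 2 (.s k6 k2 1 (.d k9 k11 k3 0
  2))))), (.s k4 k8 1 (.s k38 k55 4 (.s k14 k13 0 (.s k26 k50 5 (.s k48 k37 6 (.d k16 k31 k32 2
  3)))))), (.s k5 k10 2 (.s k37 k53 3 (.s k13 k14 0 (.s k25 k49 5 (.s k51 k38 6 (.d k17 k29 k34 1
  4)))))), (.s k4 k8 1 (.s k5 k10 2 (.s k38 k55 4 (.s k37 k53 3 (.s k51 k25 6 (.d k39 k36 k27 0
  5))))))] .n) .n)))))))))))))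

def t175 : T TT 256 :=
  (.q k74 [(.s k10 k5 2 (.s k138 k202 7 (.s k207 k69 10 (.s k133 k192 10 (.d k143 k128 k79 2 7)))))]
  (.c k5 (.q k12 [(.s k13 k14 0 (.s k133 k192 10 (.s k73 k193 9 (.s k195 k134 10 (.d k75 k72 k135 0
  9))))), (.s k4 k8 1 (.s k192 k133 10 (.s k128 k64 7 (.s k132 k72 9 (.s k68 k196 7 (.d k136 k140
  k204 1 9)))))), (.s k4 k8 1 (.s k14 k13 0 (.s k134 k194 9 (.s k69 k199 8 (.s k207 k138 10 (.d k79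
  k64 k143 2 7))))))] .n) (.c k10 (.q k12 [(.s k14 k13 0 (.s k134 k194 9 (.s k73 k195 10 (.s k192
  k133 10 (.d k72 k75 k132 0 9))))), (.s k4 k8 1 (.s k192 k133 10 (.s k128 k64 7 (.s k132 k72 9 (.s
  k68 k196 7 (.d k136 k140 k204 1 9)))))), (.s k4 k8 1 (.s k14 k13 0 (.s k134 k194 9 (.s k69 k199 8
  (.s k207 k138 10 (.d k79 k64 k143 2 7))))))] (.c k170 (.q k250 [(.s k14 k13 0 (.s k134 k194 9 (.s
  k73 k195 10 (.s k192 k133 10 (.d k72 k75 k132 0 9))))), (.s k4 k8 1 (.s k192 k133 10 (.s k128 k64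
  7 (.s k132 k72 9 (.s k68 k196 7 (.d k136 k140 k204 1 9)))))), (.s k4 k8 1 (.s k14 k13 0 (.s k134
  k194 9 (.s k69 k199 8 (.s k207 k138 10 (.d k79 k64 k143 2 7))))))] (.c k160 (.q k165 [(.s k14 k13
  0 (.s k134 k194 9 (.s k73 k195 10 (.s k192 k133 10 (.d k72 k75 k132 0 9))))), (.s k4 k8 1 (.s k192
  k133 10 (.s k128 k64 7 (.s k132 k72 9 (.s k68 k196 7 (.d k136 k140 k204 1 9)))))), (.s k4 k8 1 (.s
  k14 k13 0 (.s k134 k194 9 (.s k69 k199 8 (.s k207 k138 10 (.d k79 k64 k143 2 7))))))] .n) (.c k165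
  (.q k160 [(.s k13 k14 0 (.s k133 k192 10 (.s k73 k193 9 (.s k195 k134 10 (.d k75 k72 k135 0
  9))))), (.s k4 k8 1 (.s k240 k80 11 (.s k164 k88 13 (.s k84 k244 11 (.d k168 k172 k252 1 13)))))]
  .n) .n))) (.c k250 (.q k170 [(.s k14 k13 0 (.s k134 k194 9 (.s k73 k195 10 (.s k192 k133 10 (.d
  k72 k75 k132 0 9))))), (.s k4 k8 1 (.s k85 k255 14 (.s k166 k247 12 (.s k243 k89 14 (.d k162 k174
  k81 1 12)))))] .n) .n))) (.c k69 (.q k12 [(.s k4 k8 1 (.s k5 k10 2 (.s k6 k7 0 (.s k9 k3 2 (.d k13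
  k14 k1 0 1))))), (.s k13 k14 0 (.s k133 k192 10 (.s k73 k193 9 (.s k75 k72 0 (.d k195 k135 k134 9
  10))))), (.s k4 k8 1 (.s k192 k133 10 (.s k128 k64 7 (.s k132 k72 9 (.s k68 k196 7 (.d k136 k140
  k204 1 9))))))] .n) (.c k79 (.q k12 [(.s k8 k4 1 (.s k14 k13 0 (.s k10 k5 2 (.s k6 k2 1 (.d k9 k11
  k3 0 2))))), (.s k13 k14 0 (.s k133 k192 10 (.s k73 k193 9 (.s k195 k134 10 (.d k75 k72 k135 0
  9))))), (.s k4 k8 1 (.s k192 k133 10 (.s k128 k64 7 (.s k132 k72 9 (.s k68 k196 7 (.d k136 k140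
  k204 1 9))))))] (.c k101 (.q k112 [(.s k8 k4 1 (.s k14 k13 0 (.s k10 k5 2 (.s k6 k2 1 (.d k9 k11
  k3 0 2))))), (.s k13 k14 0 (.s k133 k192 10 (.s k73 k193 9 (.s k195 k134 10 (.d k75 k72 k135 0
  9))))), (.s k4 k8 1 (.s k192 k133 10 (.s k128 k64 7 (.s k132 k72 9 (.s k68 k196 7 (.d k136 k140
  k204 1 9))))))] .n) (.c k112 (.q k101 [(.s k8 k4 1 (.s k14 k13 0 (.s k10 k5 2 (.s k6 k2 1 (.d k9
  k11 k3 0 2))))), (.s k13 k14 0 (.s k133 k192 10 (.s k73 k193 9 (.s k195 k134 10 (.d k75 k72 k135 0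
  9))))), (.s k4 k8 1 (.s k192 k133 10 (.s k128 k64 7 (.s k132 k72 9 (.s k68 k196 7 (.d k136 k140
  k204 1 9))))))] .n) .n))) (.c k128 (.l (.s k5 k10 2 (.s k133 k192 10 (.s k69 k197 7 (.s k207 k138
  10 (.d k79 k64 k143 2 7)))))) (.c k133 (.q k12 [(.s k4 k8 1 (.s k5 k10 2 (.s k6 k7 0 (.s k9 k3 2
  (.d k13 k14 k1 0 1))))), (.s k4 k8 1 (.s k14 k13 0 (.s k134 k194 9 (.s k69 k199 8 (.s k207 k138 10
  (.d k79 k143 k64 7 2)))))), (.s k10 k5 2 (.s k138 k202 7 (.s k14 k13 0 (.s k134 k194 9 (.s k130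
  k142 1 (.d k195 k73 k65 10 8)))))), (.s k8 k4 1 (.s k10 k5 2 (.s k138 k202 7 (.s k73 k203 8 (.s
  k195 k134 10 (.d k75 k135 k72 9 0))))))] .n) (.c k138 (.q k12 [(.s k8 k4 1 (.s k10 k5 2 (.s k9 k11
  0 (.s k6 k3 2 (.d k14 k13 k2 0 1))))), (.s k13 k14 0 (.s k133 k192 10 (.s k73 k193 9 (.s k195 k134
  10 (.d k75 k72 k135 0 9))))), (.s k4 k8 1 (.s k192 k133 10 (.s k128 k64 7 (.s k132 k72 9 (.s k68
  k196 7 (.d k136 k140 k204 1 9))))))] .n) (.c k143 (.l (.s k10 k5 2 (.s k138 k202 7 (.s k69 k207 10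
  (.s k192 k133 10 (.d k64 k79 k128 2 7)))))) (.c k192 (.q k12 [(.s k8 k4 1 (.s k14 k13 0 (.s k10 k5
  2 (.s k6 k2 1 (.d k9 k11 k3 0 2))))), (.s k4 k8 1 (.s k14 k13 0 (.s k134 k194 9 (.s k69 k199 8 (.s
  k207 k138 10 (.d k79 k64 k143 2 7)))))), (.s k10 k5 2 (.s k138 k202 7 (.s k207 k69 10 (.s k14 k13
  0 (.s k142 k77 8 (.d k134 k130 k194 1 9)))))), (.s k8 k4 1 (.s k10 k5 2 (.s k138 k202 7 (.s k73
  k203 8 (.s k195 k134 10 (.d k75 k72 k135 0 9))))))] .n) (.c k197 (.l (.s k10 k5 2 (.s k138 k202 7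
  (.s k69 k207 10 (.s k192 k133 10 (.d k64 k79 k128 2 7)))))) (.c k202 (.l (.s k5 k10 2 (.s k133
  k192 10 (.s k69 k197 7 (.s k207 k138 10 (.d k79 k64 k143 2 7)))))) (.c k207 (.q k12 [(.s k8 k4 1
  (.s k14 k13 0 (.s k10 k5 2 (.s k6 k2 1 (.d k9 k11 k3 0 2))))), (.s k13 k14 0 (.s k133 k192 10 (.s
  k73 k193 9 (.s k195 k134 10 (.d k75 k72 k135 0 9))))), (.s k4 k8 1 (.s k192 k133 10 (.s k128 k64 7
  (.s k132 k72 9 (.s k68 k196 7 (.d k136 k140 k204 1 9))))))] .n) .n)))))))))))))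

def t176 : T TT 256 :=
  (.q k74 [(.s k10 k5 2 (.s k138 k202 7 (.s k207 k69 10 (.s k133 k192 10 (.d k143 k128 k79 2 7)))))]
  (.c k5 (.q k12 [(.s k13 k14 0 (.s k133 k192 10 (.s k73 k193 9 (.s k195 k134 10 (.d k75 k72 k135 0
  9))))), (.s k4 k8 1 (.s k192 k133 10 (.s k128 k64 7 (.s k132 k72 9 (.s k68 k196 7 (.d k136 k140
  k204 1 9)))))), (.s k4 k8 1 (.s k14 k13 0 (.s k134 k194 9 (.s k69 k199 8 (.s k207 k138 10 (.d k79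
  k64 k143 2 7))))))] .n) (.c k10 (.q k12 [(.s k14 k13 0 (.s k134 k194 9 (.s k73 k195 10 (.s k192
  k133 10 (.d k72 k75 k132 0 9))))), (.s k4 k8 1 (.s k192 k133 10 (.s k128 k64 7 (.s k132 k72 9 (.s
  k68 k196 7 (.d k136 k140 k204 1 9)))))), (.s k4 k8 1 (.s k14 k13 0 (.s k134 k194 9 (.s k69 k199 8
  (.s k207 k138 10 (.d k79 k64 k143 2 7))))))] (.c k170 (.q k250 [(.s k14 k13 0 (.s k134 k194 9 (.s
  k73 k195 10 (.s k192 k133 10 (.d k72 k75 k132 0 9))))), (.s k4 k8 1 (.s k192 k133 10 (.s k128 k64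
  7 (.s k132 k72 9 (.s k68 k196 7 (.d k136 k140 k204 1 9)))))), (.s k4 k8 1 (.s k14 k13 0 (.s k134
  k194 9 (.s k69 k199 8 (.s k207 k138 10 (.d k79 k64 k143 2 7))))))] .n) (.c k250 (.q k170 [(.s k14
  k13 0 (.s k134 k194 9 (.s k73 k195 10 (.s k192 k133 10 (.d k72 k75 k132 0 9))))), (.s k4 k8 1 (.s
  k85 k255 14 (.s k166 k247 12 (.s k243 k89 14 (.d k162 k174 k81 1 12)))))] .n) .n))) (.c k69 (.q
  k12 [(.s k4 k8 1 (.s k5 k10 2 (.s k6 k7 0 (.s k9 k3 2 (.d k13 k14 k1 0 1))))), (.s k13 k14 0 (.s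
  k133 k192 10 (.s k73 k193 9 (.s k75 k72 0 (.d k195 k135 k134 9 10))))), (.s k4 k8 1 (.s k192 k133
  10 (.s k128 k64 7 (.s k132 k72 9 (.s k68 k196 7 (.d k136 k140 k204 1 9))))))] .n) (.c k79 (.q k12
  [(.s k8 k4 1 (.s k14 k13 0 (.s k10 k5 2 (.s k6 k2 1 (.d k9 k11 k3 0 2))))), (.s k13 k14 0 (.s k133
  k192 10 (.s k73 k193 9 (.s k195 k134 10 (.d k75 k72 k135 0 9))))), (.s k4 k8 1 (.s k192 k133 10
  (.s k128 k64 7 (.s k132 k72 9 (.s k68 k196 7 (.d k136 k140 k204 1 9))))))] (.c k101 (.q k112 [(.s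
  k8 k4 1 (.s k14 k13 0 (.s k10 k5 2 (.s k6 k2 1 (.d k9 k11 k3 0 2))))), (.s k13 k14 0 (.s k133 k192
  10 (.s k73 k193 9 (.s k195 k134 10 (.d k75 k72 k135 0 9))))), (.s k4 k8 1 (.s k192 k133 10 (.s
  k128 k64 7 (.s k132 k72 9 (.s k68 k196 7 (.d k136 k140 k204 1 9))))))] .n) (.c k112 (.q k101 [(.s
  k8 k4 1 (.s k14 k13 0 (.s k10 k5 2 (.s k6 k2 1 (.d k9 k11 k3 0 2))))), (.s k13 k14 0 (.s k133 k192
  10 (.s k73 k193 9 (.s k195 k134 10 (.d k75 k72 k135 0 9))))), (.s k4 k8 1 (.s k192 k133 10 (.s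
  k128 k64 7 (.s k132 k72 9 (.s k68 k196 7 (.d k136 k140 k204 1 9))))))] (.c k48 (.q k240 [(.s k4 k8
  1 (.s k5 k10 2 (.s k6 k7 0 (.s k9 k3 2 (.d k13 k14 k1 0 1))))), (.s k4 k8 1 (.s k160 k80 11 (.s
  k164 k88 13 (.s k84 k244 11 (.d k168 k172 k252 1 13))))), (.s k13 k14 0 (.s k133 k192 10 (.s k73
  k193 9 (.s k195 k134 10 (.d k75 k72 k135 0 9)))))] .n) (.c k240 (.q k48 [(.s k10 k5 2 (.s k138
  k202 7 (.d k207 k69 k154 10 14))), (.s k4 k8 1 (.s k32 k16 3 (.s k36 k24 5 (.s k20 k52 3 (.d k40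
  k44 k60 1 5)))))] .n) .n))) .n))) (.c k128 (.l (.s k5 k10 2 (.s k133 k192 10 (.s k69 k197 7 (.s
  k207 k138 10 (.d k79 k64 k143 2 7)))))) (.c k133 (.q k12 [(.s k4 k8 1 (.s k5 k10 2 (.s k6 k7 0 (.s
  k9 k3 2 (.d k13 k14 k1 0 1))))), (.s k4 k8 1 (.s k14 k13 0 (.s k134 k194 9 (.s k69 k199 8 (.s k207
  k138 10 (.d k79 k143 k64 7 2)))))), (.s k10 k5 2 (.s k138 k202 7 (.s k14 k13 0 (.s k134 k194 9 (.s
  k130 k142 1 (.d k195 k73 k65 10 8)))))), (.s k8 k4 1 (.s k10 k5 2 (.s k138 k202 7 (.s k73 k203 8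
  (.s k195 k134 10 (.d k75 k135 k72 9 0))))))] .n) (.c k138 (.q k12 [(.s k8 k4 1 (.s k10 k5 2 (.s k9
  k11 0 (.s k6 k3 2 (.d k14 k13 k2 0 1))))), (.s k13 k14 0 (.s k133 k192 10 (.s k73 k193 9 (.s k195
  k134 10 (.d k75 k72 k135 0 9))))), (.s k4 k8 1 (.s k192 k133 10 (.s k128 k64 7 (.s k132 k72 9 (.s
  k68 k196 7 (.d k136 k140 k204 1 9))))))] .n) (.c k143 (.l (.s k10 k5 2 (.s k138 k202 7 (.s k69
  k207 10 (.s k192 k133 10 (.d k64 k79 k128 2 7)))))) (.c k192 (.q k12 [(.s k8 k4 1 (.s k14 k13 0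
  (.s k10 k5 2 (.s k6 k2 1 (.d k9 k11 k3 0 2))))), (.s k4 k8 1 (.s k14 k13 0 (.s k134 k194 9 (.s k69
  k199 8 (.s k207 k138 10 (.d k79 k64 k143 2 7)))))), (.s k10 k5 2 (.s k138 k202 7 (.s k207 k69 10
  (.s k14 k13 0 (.s k142 k77 8 (.d k134 k130 k194 1 9)))))), (.s k8 k4 1 (.s k10 k5 2 (.s k138 k202
  7 (.s k73 k203 8 (.s k195 k134 10 (.d k75 k72 k135 0 9))))))] .n) (.c k197 (.l (.s k10 k5 2 (.s
  k138 k202 7 (.s k69 k207 10 (.s k192 k133 10 (.d k64 k79 k128 2 7)))))) (.c k202 (.l (.s k5 k10 2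
  (.s k133 k192 10 (.s k69 k197 7 (.s k207 k138 10 (.d k79 k64 k143 2 7)))))) (.c k207 (.q k12 [(.s
  k8 k4 1 (.s k14 k13 0 (.s k10 k5 2 (.s k6 k2 1 (.d k9 k11 k3 0 2))))), (.s k13 k14 0 (.s k133 k192
  10 (.s k73 k193 9 (.s k195 k134 10 (.d k75 k72 k135 0 9))))), (.s k4 k8 1 (.s k192 k133 10 (.s
  k128 k64 7 (.s k132 k72 9 (.s k68 k196 7 (.d k136 k140 k204 1 9))))))] .n) .n)))))))))))))

def t177 : T TT 256 :=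
  (.q k74 [(.s k10 k5 2 (.s k138 k202 7 (.s k207 k69 10 (.s k133 k192 10 (.d k143 k128 k79 2 7)))))]
  (.c k5 (.q k12 [(.s k13 k14 0 (.s k133 k192 10 (.s k73 k193 9 (.s k195 k134 10 (.d k75 k72 k135 0
  9))))), (.s k4 k8 1 (.s k192 k133 10 (.s k128 k64 7 (.s k132 k72 9 (.s k68 k196 7 (.d k136 k140
  k204 1 9)))))), (.s k4 k8 1 (.s k14 k13 0 (.s k134 k194 9 (.s k69 k199 8 (.s k207 k138 10 (.d k79
  k64 k143 2 7))))))] .n) (.c k10 (.q k12 [(.s k14 k13 0 (.s k134 k194 9 (.s k73 k195 10 (.s k192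
  k133 10 (.d k72 k75 k132 0 9))))), (.s k4 k8 1 (.s k192 k133 10 (.s k128 k64 7 (.s k132 k72 9 (.s
  k68 k196 7 (.d k136 k140 k204 1 9)))))), (.s k4 k8 1 (.s k14 k13 0 (.s k134 k194 9 (.s k69 k199 8
  (.s k207 k138 10 (.d k79 k64 k143 2 7))))))] (.c k170 (.q k250 [(.s k14 k13 0 (.s k134 k194 9 (.s
  k73 k195 10 (.s k192 k133 10 (.d k72 k75 k132 0 9))))), (.s k4 k8 1 (.s k192 k133 10 (.s k128 k64
  7 (.s k132 k72 9 (.s k68 k196 7 (.d k136 k140 k204 1 9)))))), (.s k4 k8 1 (.s k14 k13 0 (.s k134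
  k194 9 (.s k69 k199 8 (.s k207 k138 10 (.d k79 k64 k143 2 7))))))] .n) (.c k250 (.q k170 [(.s k14
  k13 0 (.s k134 k194 9 (.s k73 k195 10 (.s k192 k133 10 (.d k72 k75 k132 0 9))))), (.s k4 k8 1 (.s
  k85 k255 14 (.s k166 k247 12 (.s k243 k89 14 (.d k162 k174 k81 1 12)))))] .n) .n))) (.c k69 (.q
  k12 [(.s k4 k8 1 (.s k5 k10 2 (.s k6 k7 0 (.s k9 k3 2 (.d k13 k14 k1 0 1))))), (.s k13 k14 0 (.s
  k133 k192 10 (.s k73 k193 9 (.s k75 k72 0 (.d k195 k135 k134 9 10))))), (.s k4 k8 1 (.s k192 k133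
  10 (.s k128 k64 7 (.s k132 k72 9 (.s k68 k196 7 (.d k136 k140 k204 1 9))))))] .n) (.c k79 (.q k12
  [(.s k8 k4 1 (.s k14 k13 0 (.s k10 k5 2 (.s k6 k2 1 (.d k9 k11 k3 0 2))))), (.s k13 k14 0 (.s k133
  k192 10 (.s k73 k193 9 (.s k195 k134 10 (.d k75 k72 k135 0 9))))), (.s k4 k8 1 (.s k192 k133 10
  (.s k128 k64 7 (.s k132 k72 9 (.s k68 k196 7 (.d k136 k140 k204 1 9))))))] (.c k101 (.q k112 [(.s
  k8 k4 1 (.s k14 k13 0 (.s k10 k5 2 (.s k6 k2 1 (.d k9 k11 k3 0 2))))), (.s k13 k14 0 (.s k133 k192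
  10 (.s k73 k193 9 (.s k195 k134 10 (.d k75 k72 k135 0 9))))), (.s k4 k8 1 (.s k192 k133 10 (.s
  k128 k64 7 (.s k132 k72 9 (.s k68 k196 7 (.d k136 k140 k204 1 9))))))] .n) (.c k112 (.q k101 [(.s
  k8 k4 1 (.s k14 k13 0 (.s k10 k5 2 (.s k6 k2 1 (.d k9 k11 k3 0 2))))), (.s k13 k14 0 (.s k133 k192
  10 (.s k73 k193 9 (.s k195 k134 10 (.d k75 k72 k135 0 9))))), (.s k4 k8 1 (.s k192 k133 10 (.s
  k128 k64 7 (.s k132 k72 9 (.s k68 k196 7 (.d k136 k140 k204 1 9))))))] .n) .n))) (.c k128 (.l (.s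
  k5 k10 2 (.s k133 k192 10 (.s k69 k197 7 (.s k207 k138 10 (.d k79 k64 k143 2 7)))))) (.c k133 (.q
  k12 [(.s k4 k8 1 (.s k5 k10 2 (.s k6 k7 0 (.s k9 k3 2 (.d k13 k14 k1 0 1))))), (.s k4 k8 1 (.s k14
  k13 0 (.s k134 k194 9 (.s k69 k199 8 (.s k207 k138 10 (.d k79 k143 k64 7 2)))))), (.s k10 k5 2 (.s
  k138 k202 7 (.s k14 k13 0 (.s k134 k194 9 (.s k130 k142 1 (.d k195 k73 k65 10 8)))))), (.s k8 k4 1
  (.s k10 k5 2 (.s k138 k202 7 (.s k73 k203 8 (.s k195 k134 10 (.d k75 k135 k72 9 0))))))] .n) (.c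
  k138 (.q k12 [(.s k8 k4 1 (.s k10 k5 2 (.s k9 k11 0 (.s k6 k3 2 (.d k14 k13 k2 0 1))))), (.s k13
  k14 0 (.s k133 k192 10 (.s k73 k193 9 (.s k195 k134 10 (.d k75 k72 k135 0 9))))), (.s k4 k8 1 (.s
  k192 k133 10 (.s k128 k64 7 (.s k132 k72 9 (.s k68 k196 7 (.d k136 k140 k204 1 9))))))] .n) (.c
  k143 (.l (.s k10 k5 2 (.s k138 k202 7 (.s k69 k207 10 (.s k192 k133 10 (.d k64 k79 k128 2 7))))))
  (.c k192 (.q k12 [(.s k8 k4 1 (.s k14 k13 0 (.s k10 k5 2 (.s k6 k2 1 (.d k9 k11 k3 0 2))))), (.s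
  k4 k8 1 (.s k14 k13 0 (.s k134 k194 9 (.s k69 k199 8 (.s k207 k138 10 (.d k79 k64 k143 2 7)))))),
  (.s k10 k5 2 (.s k138 k202 7 (.s k207 k69 10 (.s k14 k13 0 (.s k142 k77 8 (.d k134 k130 k194 1
  9)))))), (.s k8 k4 1 (.s k10 k5 2 (.s k138 k202 7 (.s k73 k203 8 (.s k195 k134 10 (.d k75 k72 k135
  0 9))))))] .n) (.c k197 (.l (.s k10 k5 2 (.s k138 k202 7 (.s k69 k207 10 (.s k192 k133 10 (.d k64
  k79 k128 2 7)))))) (.c k202 (.l (.s k5 k10 2 (.s k133 k192 10 (.s k69 k197 7 (.s k207 k138 10 (.d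
  k79 k64 k143 2 7)))))) (.c k207 (.q k12 [(.s k8 k4 1 (.s k14 k13 0 (.s k10 k5 2 (.s k6 k2 1 (.d k9
  k11 k3 0 2))))), (.s k13 k14 0 (.s k133 k192 10 (.s k73 k193 9 (.s k195 k134 10 (.d k75 k72 k135 0
  9))))), (.s k4 k8 1 (.s k192 k133 10 (.s k128 k64 7 (.s k132 k72 9 (.s k68 k196 7 (.d k136 k140
  k204 1 9))))))] .n) .n)))))))))))))

def t178 : T TT 256 :=
  (.q k74 [(.s k10 k5 2 (.s k138 k202 7 (.s k207 k69 10 (.s k133 k192 10 (.d k143 k128 k79 2 7)))))]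
  (.c k5 (.q k12 [(.s k13 k14 0 (.s k133 k192 10 (.s k73 k193 9 (.s k195 k134 10 (.d k75 k72 k135 0
  9))))), (.s k4 k8 1 (.s k192 k133 10 (.s k128 k64 7 (.s k132 k72 9 (.s k68 k196 7 (.d k136 k140
  k204 1 9)))))), (.s k4 k8 1 (.s k14 k13 0 (.s k134 k194 9 (.s k69 k199 8 (.s k207 k138 10 (.d k79
  k64 k143 2 7))))))] .n) (.c k10 (.q k12 [(.s k14 k13 0 (.s k134 k194 9 (.s k73 k195 10 (.s k192
  k133 10 (.d k72 k75 k132 0 9))))), (.s k4 k8 1 (.s k192 k133 10 (.s k128 k64 7 (.s k132 k72 9 (.s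
  k68 k196 7 (.d k136 k140 k204 1 9)))))), (.s k4 k8 1 (.s k14 k13 0 (.s k134 k194 9 (.s k69 k199 8
  (.s k207 k138 10 (.d k79 k64 k143 2 7))))))] (.c k170 (.q k250 [(.s k14 k13 0 (.s k134 k194 9 (.s
  k73 k195 10 (.s k192 k133 10 (.d k72 k75 k132 0 9))))), (.s k4 k8 1 (.s k192 k133 10 (.s k128 k64
  7 (.s k132 k72 9 (.s k68 k196 7 (.d k136 k140 k204 1 9)))))), (.s k4 k8 1 (.s k14 k13 0 (.s k134
  k194 9 (.s k69 k199 8 (.s k207 k138 10 (.d k79 k64 k143 2 7))))))] .n) (.c k250 (.q k170 [(.s k14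
  k13 0 (.s k134 k194 9 (.s k73 k195 10 (.s k192 k133 10 (.d k72 k75 k132 0 9))))), (.s k4 k8 1 (.s
  k85 k255 14 (.s k166 k247 12 (.s k243 k89 14 (.d k162 k174 k81 1 12)))))] .n) .n))) (.c k69 (.q
  k12 [(.s k4 k8 1 (.s k5 k10 2 (.s k6 k7 0 (.s k9 k3 2 (.d k13 k14 k1 0 1))))), (.s k13 k14 0 (.s
  k133 k192 10 (.s k73 k193 9 (.s k75 k72 0 (.d k195 k135 k134 9 10))))), (.s k4 k8 1 (.s k192 k133
  10 (.s k128 k64 7 (.s k132 k72 9 (.s k68 k196 7 (.d k136 k140 k204 1 9))))))] .n) (.c k79 (.q k12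
  [(.s k8 k4 1 (.s k14 k13 0 (.s k10 k5 2 (.s k6 k2 1 (.d k9 k11 k3 0 2))))), (.s k13 k14 0 (.s k133
  k192 10 (.s k73 k193 9 (.s k195 k134 10 (.d k75 k72 k135 0 9))))), (.s k4 k8 1 (.s k192 k133 10
  (.s k128 k64 7 (.s k132 k72 9 (.s k68 k196 7 (.d k136 k140 k204 1 9))))))] (.c k101 (.q k112 [(.s
  k8 k4 1 (.s k14 k13 0 (.s k10 k5 2 (.s k6 k2 1 (.d k9 k11 k3 0 2))))), (.s k13 k14 0 (.s k133 k192
  10 (.s k73 k193 9 (.s k195 k134 10 (.d k75 k72 k135 0 9))))), (.s k4 k8 1 (.s k192 k133 10 (.s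
  k128 k64 7 (.s k132 k72 9 (.s k68 k196 7 (.d k136 k140 k204 1 9))))))] .n) (.c k112 (.q k101 [(.s
  k8 k4 1 (.s k14 k13 0 (.s k10 k5 2 (.s k6 k2 1 (.d k9 k11 k3 0 2))))), (.s k13 k14 0 (.s k133 k192
  10 (.s k73 k193 9 (.s k195 k134 10 (.d k75 k72 k135 0 9))))), (.s k4 k8 1 (.s k192 k133 10 (.s
  k128 k64 7 (.s k132 k72 9 (.s k68 k196 7 (.d k136 k140 k204 1 9))))))] .n) .n))) (.c k128 (.l (.s
  k5 k10 2 (.s k133 k192 10 (.s k69 k197 7 (.s k207 k138 10 (.d k79 k64 k143 2 7)))))) (.c k133 (.q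
  k12 [(.s k4 k8 1 (.s k5 k10 2 (.s k6 k7 0 (.s k9 k3 2 (.d k13 k14 k1 0 1))))), (.s k4 k8 1 (.s k14
  k13 0 (.s k134 k194 9 (.s k69 k199 8 (.s k207 k138 10 (.d k79 k143 k64 7 2)))))), (.s k10 k5 2 (.s
  k138 k202 7 (.s k14 k13 0 (.s k134 k194 9 (.s k130 k142 1 (.d k195 k73 k65 10 8)))))), (.s k8 k4 1
  (.s k10 k5 2 (.s k138 k202 7 (.s k73 k203 8 (.s k195 k134 10 (.d k75 k135 k72 9 0))))))] .n) (.c
  k138 (.q k12 [(.s k8 k4 1 (.s k10 k5 2 (.s k9 k11 0 (.s k6 k3 2 (.d k14 k13 k2 0 1))))), (.s k13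
  k14 0 (.s k133 k192 10 (.s k73 k193 9 (.s k195 k134 10 (.d k75 k72 k135 0 9))))), (.s k4 k8 1 (.s
  k192 k133 10 (.s k128 k64 7 (.s k132 k72 9 (.s k68 k196 7 (.d k136 k140 k204 1 9))))))] .n) (.c
  k143 (.l (.s k10 k5 2 (.s k138 k202 7 (.s k69 k207 10 (.s k192 k133 10 (.d k64 k79 k128 2 7))))))
  (.c k192 (.q k12 [(.s k8 k4 1 (.s k14 k13 0 (.s k10 k5 2 (.s k6 k2 1 (.d k9 k11 k3 0 2))))), (.s
  k4 k8 1 (.s k14 k13 0 (.s k134 k194 9 (.s k69 k199 8 (.s k207 k138 10 (.d k79 k64 k143 2 7)))))),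
  (.s k10 k5 2 (.s k138 k202 7 (.s k207 k69 10 (.s k14 k13 0 (.s k142 k77 8 (.d k134 k130 k194 1
  9)))))), (.s k8 k4 1 (.s k10 k5 2 (.s k138 k202 7 (.s k73 k203 8 (.s k195 k134 10 (.d k75 k72 k135
  0 9))))))] .n) (.c k197 (.l (.s k10 k5 2 (.s k138 k202 7 (.s k69 k207 10 (.s k192 k133 10 (.d k64
  k79 k128 2 7)))))) (.c k202 (.l (.s k5 k10 2 (.s k133 k192 10 (.s k69 k197 7 (.s k207 k138 10 (.d
  k79 k64 k143 2 7)))))) (.c k207 (.q k12 [(.s k8 k4 1 (.s k14 k13 0 (.s k10 k5 2 (.s k6 k2 1 (.d k9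
  k11 k3 0 2))))), (.s k13 k14 0 (.s k133 k192 10 (.s k73 k193 9 (.s k195 k134 10 (.d k75 k72 k135 0
  9))))), (.s k4 k8 1 (.s k192 k133 10 (.s k128 k64 7 (.s k132 k72 9 (.s k68 k196 7 (.d k136 k140
  k204 1 9))))))] .n) .n)))))))))))))

def t179 : T TT 256 :=
  (.q k74 [(.s k10 k5 2 (.s k138 k202 7 (.s k207 k69 10 (.s k133 k192 10 (.d k143 k128 k79 2 7)))))]
  (.c k5 (.q k12 [(.s k13 k14 0 (.s k133 k192 10 (.s k73 k193 9 (.s k195 k134 10 (.d k75 k72 k135 0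
  9))))), (.s k4 k8 1 (.s k192 k133 10 (.s k128 k64 7 (.s k132 k72 9 (.s k68 k196 7 (.d k136 k140
  k204 1 9)))))), (.s k4 k8 1 (.s k14 k13 0 (.s k134 k194 9 (.s k69 k199 8 (.s k207 k138 10 (.d k79
  k64 k143 2 7))))))] .n) (.c k10 (.q k12 [(.s k14 k13 0 (.s k134 k194 9 (.s k73 k195 10 (.s k192
  k133 10 (.d k72 k75 k132 0 9))))), (.s k4 k8 1 (.s k192 k133 10 (.s k128 k64 7 (.s k132 k72 9 (.s
  k68 k196 7 (.d k136 k140 k204 1 9)))))), (.s k4 k8 1 (.s k14 k13 0 (.s k134 k194 9 (.s k69 k199 8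
  (.s k207 k138 10 (.d k79 k64 k143 2 7))))))] (.c k170 (.q k250 [(.s k14 k13 0 (.s k134 k194 9 (.s
  k73 k195 10 (.s k192 k133 10 (.d k72 k75 k132 0 9))))), (.s k4 k8 1 (.s k192 k133 10 (.s k128 k64
  7 (.s k132 k72 9 (.s k68 k196 7 (.d k136 k140 k204 1 9)))))), (.s k4 k8 1 (.s k14 k13 0 (.s k134
  k194 9 (.s k69 k199 8 (.s k207 k138 10 (.d k79 k64 k143 2 7))))))] .n) (.c k250 (.q k170 [(.s k14
  k13 0 (.s k134 k194 9 (.s k73 k195 10 (.s k192 k133 10 (.d k72 k75 k132 0 9))))), (.s k4 k8 1 (.s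
  k85 k255 14 (.s k166 k247 12 (.s k243 k89 14 (.d k162 k174 k81 1 12)))))] .n) .n))) (.c k69 (.q
  k12 [(.s k4 k8 1 (.s k5 k10 2 (.s k6 k7 0 (.s k9 k3 2 (.d k13 k14 k1 0 1))))), (.s k13 k14 0 (.s
  k133 k192 10 (.s k73 k193 9 (.s k75 k72 0 (.d k195 k135 k134 9 10))))), (.s k4 k8 1 (.s k192 k133
  10 (.s k128 k64 7 (.s k132 k72 9 (.s k68 k196 7 (.d k136 k140 k204 1 9))))))] .n) (.c k79 (.q k12
  [(.s k8 k4 1 (.s k14 k13 0 (.s k10 k5 2 (.s k6 k2 1 (.d k9 k11 k3 0 2))))), (.s k13 k14 0 (.s k133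
  k192 10 (.s k73 k193 9 (.s k195 k134 10 (.d k75 k72 k135 0 9))))), (.s k4 k8 1 (.s k192 k133 10
  (.s k128 k64 7 (.s k132 k72 9 (.s k68 k196 7 (.d k136 k140 k204 1 9))))))] (.c k101 (.q k112 [(.s
  k8 k4 1 (.s k14 k13 0 (.s k10 k5 2 (.s k6 k2 1 (.d k9 k11 k3 0 2))))), (.s k13 k14 0 (.s k133 k192
  10 (.s k73 k193 9 (.s k195 k134 10 (.d k75 k72 k135 0 9))))), (.s k4 k8 1 (.s k192 k133 10 (.s
  k128 k64 7 (.s k132 k72 9 (.s k68 k196 7 (.d k136 k140 k204 1 9))))))] .n) (.c k112 (.q k101 [(.s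
  k8 k4 1 (.s k14 k13 0 (.s k10 k5 2 (.s k6 k2 1 (.d k9 k11 k3 0 2))))), (.s k13 k14 0 (.s k133 k192
  10 (.s k73 k193 9 (.s k195 k134 10 (.d k75 k72 k135 0 9))))), (.s k4 k8 1 (.s k192 k133 10 (.s
  k128 k64 7 (.s k132 k72 9 (.s k68 k196 7 (.d k136 k140 k204 1 9))))))] .n) .n))) (.c k128 (.l (.s
  k5 k10 2 (.s k133 k192 10 (.s k69 k197 7 (.s k207 k138 10 (.d k79 k64 k143 2 7)))))) (.c k133 (.q
  k12 [(.s k4 k8 1 (.s k5 k10 2 (.s k6 k7 0 (.s k9 k3 2 (.d k13 k14 k1 0 1))))), (.s k4 k8 1 (.s k14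
  k13 0 (.s k134 k194 9 (.s k69 k199 8 (.s k207 k138 10 (.d k79 k143 k64 7 2)))))), (.s k10 k5 2 (.s
  k138 k202 7 (.s k14 k13 0 (.s k134 k194 9 (.s k130 k142 1 (.d k195 k73 k65 10 8)))))), (.s k8 k4 1
  (.s k10 k5 2 (.s k138 k202 7 (.s k73 k203 8 (.s k195 k134 10 (.d k75 k135 k72 9 0))))))] .n) (.c
  k138 (.q k12 [(.s k8 k4 1 (.s k10 k5 2 (.s k9 k11 0 (.s k6 k3 2 (.d k14 k13 k2 0 1))))), (.s k13
  k14 0 (.s k133 k192 10 (.s k73 k193 9 (.s k195 k134 10 (.d k75 k72 k135 0 9))))), (.s k4 k8 1 (.s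
  k192 k133 10 (.s k128 k64 7 (.s k132 k72 9 (.s k68 k196 7 (.d k136 k140 k204 1 9))))))] .n) (.c
  k143 (.l (.s k10 k5 2 (.s k138 k202 7 (.s k69 k207 10 (.s k192 k133 10 (.d k64 k79 k128 2 7))))))
  (.c k192 (.q k12 [(.s k8 k4 1 (.s k14 k13 0 (.s k10 k5 2 (.s k6 k2 1 (.d k9 k11 k3 0 2))))), (.s
  k4 k8 1 (.s k14 k13 0 (.s k134 k194 9 (.s k69 k199 8 (.s k207 k138 10 (.d k79 k64 k143 2 7)))))),
  (.s k10 k5 2 (.s k138 k202 7 (.s k207 k69 10 (.s k14 k13 0 (.s k142 k77 8 (.d k134 k130 k194 1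
  9)))))), (.s k8 k4 1 (.s k10 k5 2 (.s k138 k202 7 (.s k73 k203 8 (.s k195 k134 10 (.d k75 k72 k135
  0 9))))))] .n) (.c k197 (.l (.s k10 k5 2 (.s k138 k202 7 (.s k69 k207 10 (.s k192 k133 10 (.d k64
  k79 k128 2 7)))))) (.c k202 (.l (.s k5 k10 2 (.s k133 k192 10 (.s k69 k197 7 (.s k207 k138 10 (.d
  k79 k64 k143 2 7)))))) (.c k207 (.q k12 [(.s k8 k4 1 (.s k14 k13 0 (.s k10 k5 2 (.s k6 k2 1 (.d k9
  k11 k3 0 2))))), (.s k13 k14 0 (.s k133 k192 10 (.s k73 k193 9 (.s k195 k134 10 (.d k75 k72 k135 0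
  9))))), (.s k4 k8 1 (.s k192 k133 10 (.s k128 k64 7 (.s k132 k72 9 (.s k68 k196 7 (.d k136 k140
  k204 1 9))))))] .n) .n)))))))))))))

def t181 : T TT 256 :=
  (.q k74 [(.s k10 k5 2 (.s k138 k202 7 (.s k207 k69 10 (.s k133 k192 10 (.d k143 k128 k79 2 7)))))]
  (.c k5 (.q k12 [(.s k13 k14 0 (.s k133 k192 10 (.s k73 k193 9 (.s k195 k134 10 (.d k75 k72 k135 0
  9))))), (.s k4 k8 1 (.s k192 k133 10 (.s k128 k64 7 (.s k132 k72 9 (.s k68 k196 7 (.d k136 k140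
  k204 1 9)))))), (.s k4 k8 1 (.s k14 k13 0 (.s k134 k194 9 (.s k69 k199 8 (.s k207 k138 10 (.d k79
  k64 k143 2 7))))))] .n) (.c k10 (.q k12 [(.s k14 k13 0 (.s k134 k194 9 (.s k195 k73 10 (.s k133
  k192 10 (.d k135 k132 k75 0 9))))), (.s k4 k8 1 (.s k192 k133 10 (.s k128 k64 7 (.s k132 k72 9 (.s
  k68 k196 7 (.d k136 k140 k204 1 9)))))), (.s k4 k8 1 (.s k14 k13 0 (.s k134 k194 9 (.s k69 k199 8
  (.s k207 k138 10 (.d k79 k64 k143 2 7))))))] (.c k170 (.q k250 [(.s k14 k13 0 (.s k134 k194 9 (.s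
  k195 k73 10 (.s k133 k192 10 (.d k135 k132 k75 0 9))))), (.s k4 k8 1 (.s k192 k133 10 (.s k128 k64
  7 (.s k132 k72 9 (.s k68 k196 7 (.d k136 k140 k204 1 9)))))), (.s k4 k8 1 (.s k14 k13 0 (.s k134
  k194 9 (.s k69 k199 8 (.s k207 k138 10 (.d k79 k64 k143 2 7))))))] .n) (.c k250 (.q k170 [(.s k14
  k13 0 (.s k134 k194 9 (.s k73 k195 10 (.s k192 k133 10 (.d k72 k75 k132 0 9))))), (.s k4 k8 1 (.s
  k85 k255 14 (.s k166 k247 12 (.s k243 k89 14 (.d k162 k174 k81 1 12)))))] .n) .n))) (.c k69 (.q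
  k12 [(.s k4 k8 1 (.s k5 k10 2 (.s k6 k7 0 (.s k9 k3 2 (.d k13 k14 k1 0 1))))), (.s k13 k14 0 (.s
  k133 k192 10 (.s k73 k193 9 (.s k75 k72 0 (.d k195 k135 k134 9 10))))), (.s k4 k8 1 (.s k192 k133
  10 (.s k128 k64 7 (.s k132 k72 9 (.s k68 k196 7 (.d k136 k140 k204 1 9))))))] .n) (.c k79 (.q k12
  [(.s k8 k4 1 (.s k14 k13 0 (.s k10 k5 2 (.s k6 k2 1 (.d k9 k11 k3 0 2))))), (.s k13 k14 0 (.s k133
  k192 10 (.s k73 k193 9 (.s k195 k134 10 (.d k75 k72 k135 0 9))))), (.s k4 k8 1 (.s k192 k133 10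
  (.s k128 k64 7 (.s k132 k72 9 (.s k68 k196 7 (.d k136 k140 k204 1 9))))))] (.c k101 (.q k112 [(.s
  k8 k4 1 (.s k14 k13 0 (.s k10 k5 2 (.s k6 k2 1 (.d k9 k11 k3 0 2))))), (.s k13 k14 0 (.s k133 k192
  10 (.s k73 k193 9 (.s k195 k134 10 (.d k75 k72 k135 0 9))))), (.s k4 k8 1 (.s k192 k133 10 (.s
  k128 k64 7 (.s k132 k72 9 (.s k68 k196 7 (.d k136 k140 k204 1 9))))))] .n) (.c k112 (.q k101 [(.s
  k8 k4 1 (.s k14 k13 0 (.s k10 k5 2 (.s k6 k2 1 (.d k9 k11 k3 0 2))))), (.s k13 k14 0 (.s k133 k192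
  10 (.s k73 k193 9 (.s k195 k134 10 (.d k75 k72 k135 0 9))))), (.s k4 k8 1 (.s k192 k133 10 (.s
  k128 k64 7 (.s k132 k72 9 (.s k68 k196 7 (.d k136 k140 k204 1 9))))))] .n) .n))) (.c k128 (.l (.s
  k5 k10 2 (.s k133 k192 10 (.s k69 k197 7 (.s k207 k138 10 (.d k79 k64 k143 2 7)))))) (.c k133 (.q
  k12 [(.s k4 k8 1 (.s k5 k10 2 (.s k6 k7 0 (.s k9 k3 2 (.d k13 k14 k1 0 1))))), (.s k4 k8 1 (.s k14
  k13 0 (.s k134 k194 9 (.s k69 k199 8 (.s k207 k138 10 (.d k79 k143 k64 7 2)))))), (.s k10 k5 2 (.s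
  k138 k202 7 (.s k14 k13 0 (.s k134 k194 9 (.s k130 k142 1 (.d k195 k73 k65 10 8)))))), (.s k8 k4 1
  (.s k10 k5 2 (.s k138 k202 7 (.s k73 k203 8 (.s k195 k134 10 (.d k75 k135 k72 9 0))))))] (.c k149
  (.q k165 [(.s k4 k8 1 (.s k5 k10 2 (.s k6 k7 0 (.s k9 k3 2 (.d k13 k14 k1 0 1))))), (.s k4 k8 1
  (.s k14 k13 0 (.s k134 k194 9 (.s k69 k199 8 (.s k207 k138 10 (.d k79 k143 k64 7 2)))))), (.s k5
  k10 2 (.s k85 k245 11 (.s k13 k14 0 (.s k89 k241 13 (.s k81 k93 1 (.d k243 k166 k162 14 12)))))),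
  (.s k4 k8 1 (.s k5 k10 2 (.s k85 k245 11 (.s k166 k247 12 (.s k243 k89 14 (.d k167 k91 k164 13
  0))))))] (.c k31 (.q k208 [(.s k4 k8 1 (.s k5 k10 2 (.s k6 k7 0 (.s k9 k3 2 (.d k13 k14 k1 0
  1))))), (.s k4 k8 1 (.s k14 k13 0 (.s k134 k194 9 (.s k69 k199 8 (.s k207 k138 10 (.d k79 k143 k64
  7 2)))))), (.s k5 k10 2 (.s k85 k245 11 (.s k13 k14 0 (.s k89 k241 13 (.s k81 k93 1 (.d k243 k166
  k162 14 12)))))), (.s k4 k8 1 (.s k5 k10 2 (.s k85 k245 11 (.s k166 k247 12 (.s k243 k89 14 (.d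
  k167 k91 k164 13 0))))))] .n) (.c k208 (.q k31 [(.s k4 k8 1 (.s k5 k10 2 (.s k6 k7 0 (.s k9 k3 2
  (.d k13 k14 k1 0 1))))), (.s k13 k14 0 (.s k63 k47 3 (.s k29 k46 4 (.s k45 k61 3 (.d k30 k28 k60 0
  4))))), (.s k5 k10 2 (.s k63 k47 3 (.s k21 k42 6 (.s k37 k53 3 (.d k26 k16 k48 2 6)))))] .n) .n)))
  (.c k165 (.q k149 [(.s k4 k8 1 (.s k13 k14 0 (.s k5 k10 2 (.s k9 k1 1 (.d k6 k7 k3 0 2))))), (.s
  k4 k8 1 (.s k14 k13 0 (.s k134 k194 9 (.s k69 k199 8 (.s k207 k138 10 (.d k79 k143 k64 7 2)))))),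
  (.s k10 k5 2 (.s k138 k202 7 (.s k14 k13 0 (.s k134 k194 9 (.s k130 k142 1 (.d k195 k73 k65 10
  8)))))), (.s k8 k4 1 (.s k10 k5 2 (.s k138 k202 7 (.s k73 k203 8 (.s k195 k134 10 (.d k75 k135 k72
  9 0))))))] .n) .n))) (.c k138 (.q k12 [(.s k8 k4 1 (.s k10 k5 2 (.s k9 k11 0 (.s k6 k3 2 (.d k14
  k13 k2 0 1))))), (.s k13 k14 0 (.s k133 k192 10 (.s k73 k193 9 (.s k195 k134 10 (.d k75 k72 k135 0
  9))))), (.s k4 k8 1 (.s k192 k133 10 (.s k128 k64 7 (.s k132 k72 9 (.s k68 k196 7 (.d k136 k140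
  k204 1 9))))))] .n) (.c k143 (.l (.s k10 k5 2 (.s k138 k202 7 (.s k69 k207 10 (.s k192 k133 10 (.d
  k64 k79 k128 2 7)))))) (.c k192 (.q k12 [(.s k8 k4 1 (.s k14 k13 0 (.s k10 k5 2 (.s k6 k2 1 (.d k9
  k11 k3 0 2))))), (.s k4 k8 1 (.s k14 k13 0 (.s k134 k194 9 (.s k69 k199 8 (.s k207 k138 10 (.d k79
  k64 k143 2 7)))))), (.s k10 k5 2 (.s k138 k202 7 (.s k207 k69 10 (.s k14 k13 0 (.s k142 k77 8 (.d
  k134 k130 k194 1 9)))))), (.s k8 k4 1 (.s k10 k5 2 (.s k138 k202 7 (.s k73 k203 8 (.s k195 k134 10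
  (.d k75 k72 k135 0 9))))))] .n) (.c k197 (.l (.s k10 k5 2 (.s k138 k202 7 (.s k69 k207 10 (.s k192
  k133 10 (.d k64 k79 k128 2 7)))))) (.c k202 (.l (.s k5 k10 2 (.s k133 k192 10 (.s k69 k197 7 (.s
  k207 k138 10 (.d k79 k64 k143 2 7)))))) (.c k207 (.q k12 [(.s k8 k4 1 (.s k14 k13 0 (.s k10 k5 2
  (.s k6 k2 1 (.d k9 k11 k3 0 2))))), (.s k13 k14 0 (.s k133 k192 10 (.s k73 k193 9 (.s k195 k134 10
  (.d k75 k72 k135 0 9))))), (.s k4 k8 1 (.s k192 k133 10 (.s k128 k64 7 (.s k132 k72 9 (.s k68 k196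
  7 (.d k136 k140 k204 1 9))))))] .n) .n)))))))))))))

def t182 : T TT 256 :=
  (.q k74 [(.s k10 k5 2 (.s k138 k202 7 (.s k207 k69 10 (.s k133 k192 10 (.d k143 k128 k79 2 7)))))]
  (.c k5 (.q k12 [(.s k14 k13 0 (.s k134 k194 9 (.s k195 k73 10 (.s k133 k192 10 (.d k135 k132 k75 0
  9))))), (.s k4 k8 1 (.s k192 k133 10 (.s k128 k64 7 (.s k132 k72 9 (.s k68 k196 7 (.d k136 k140
  k204 1 9)))))), (.s k4 k8 1 (.s k14 k13 0 (.s k134 k194 9 (.s k69 k199 8 (.s k207 k138 10 (.d k79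
  k64 k143 2 7))))))] .n) (.c k10 (.q k12 [(.s k14 k13 0 (.s k134 k194 9 (.s k73 k195 10 (.s k192
  k133 10 (.d k72 k75 k132 0 9))))), (.s k4 k8 1 (.s k192 k133 10 (.s k128 k64 7 (.s k132 k72 9 (.s
  k68 k196 7 (.d k136 k140 k204 1 9)))))), (.s k4 k8 1 (.s k14 k13 0 (.s k134 k194 9 (.s k69 k199 8
  (.s k207 k138 10 (.d k79 k64 k143 2 7))))))] (.c k170 (.q k250 [(.s k14 k13 0 (.s k134 k194 9 (.s
  k73 k195 10 (.s k192 k133 10 (.d k72 k75 k132 0 9))))), (.s k4 k8 1 (.s k192 k133 10 (.s k128 k64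
  7 (.s k132 k72 9 (.s k68 k196 7 (.d k136 k140 k204 1 9)))))), (.s k4 k8 1 (.s k14 k13 0 (.s k134
  k194 9 (.s k69 k199 8 (.s k207 k138 10 (.d k79 k64 k143 2 7))))))] .n) (.c k250 (.q k170 [(.s k14
  k13 0 (.s k134 k194 9 (.s k73 k195 10 (.s k192 k133 10 (.d k72 k75 k132 0 9))))), (.s k4 k8 1 (.s
  k85 k255 14 (.s k166 k247 12 (.s k243 k89 14 (.d k162 k174 k81 1 12)))))] .n) .n))) (.c k69 (.q
  k12 [(.s k4 k8 1 (.s k5 k10 2 (.s k6 k7 0 (.s k9 k3 2 (.d k13 k14 k1 0 1))))), (.s k13 k14 0 (.s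
  k133 k192 10 (.s k73 k193 9 (.s k75 k72 0 (.d k195 k135 k134 9 10))))), (.s k4 k8 1 (.s k192 k133
  10 (.s k128 k64 7 (.s k132 k72 9 (.s k68 k196 7 (.d k136 k140 k204 1 9))))))] .n) (.c k79 (.q k12
  [(.s k8 k4 1 (.s k14 k13 0 (.s k10 k5 2 (.s k6 k2 1 (.d k9 k11 k3 0 2))))), (.s k13 k14 0 (.s k133
  k192 10 (.s k73 k193 9 (.s k195 k134 10 (.d k75 k72 k135 0 9))))), (.s k4 k8 1 (.s k192 k133 10
  (.s k128 k64 7 (.s k132 k72 9 (.s k68 k196 7 (.d k136 k140 k204 1 9))))))] (.c k101 (.q k112 [(.s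
  k8 k4 1 (.s k14 k13 0 (.s k10 k5 2 (.s k6 k2 1 (.d k9 k11 k3 0 2))))), (.s k13 k14 0 (.s k133 k192
  10 (.s k73 k193 9 (.s k195 k134 10 (.d k75 k72 k135 0 9))))), (.s k4 k8 1 (.s k192 k133 10 (.s
  k128 k64 7 (.s k132 k72 9 (.s k68 k196 7 (.d k136 k140 k204 1 9))))))] .n) (.c k112 (.q k101 [(.s
  k8 k4 1 (.s k14 k13 0 (.s k10 k5 2 (.s k6 k2 1 (.d k9 k11 k3 0 2))))), (.s k13 k14 0 (.s k133 k192
  10 (.s k73 k193 9 (.s k195 k134 10 (.d k75 k72 k135 0 9))))), (.s k4 k8 1 (.s k192 k133 10 (.s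
  k128 k64 7 (.s k132 k72 9 (.s k68 k196 7 (.d k136 k140 k204 1 9))))))] .n) .n))) (.c k128 (.l (.s
  k5 k10 2 (.s k133 k192 10 (.s k69 k197 7 (.s k207 k138 10 (.d k79 k64 k143 2 7)))))) (.c k133 (.q
  k12 [(.s k4 k8 1 (.s k5 k10 2 (.s k6 k7 0 (.s k9 k3 2 (.d k13 k14 k1 0 1))))), (.s k4 k8 1 (.s k14
  k13 0 (.s k134 k194 9 (.s k69 k199 8 (.s k207 k138 10 (.d k79 k143 k64 7 2)))))), (.s k10 k5 2 (.s
  k138 k202 7 (.s k14 k13 0 (.s k134 k194 9 (.s k130 k142 1 (.d k195 k73 k65 10 8)))))), (.s k8 k4 1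
  (.s k10 k5 2 (.s k138 k202 7 (.s k73 k203 8 (.s k195 k134 10 (.d k75 k135 k72 9 0))))))] .n) (.c
  k138 (.q k12 [(.s k8 k4 1 (.s k10 k5 2 (.s k9 k11 0 (.s k6 k3 2 (.d k14 k13 k2 0 1))))), (.s k13
  k14 0 (.s k133 k192 10 (.s k73 k193 9 (.s k195 k134 10 (.d k75 k72 k135 0 9))))), (.s k4 k8 1 (.s
  k192 k133 10 (.s k128 k64 7 (.s k132 k72 9 (.s k68 k196 7 (.d k136 k140 k204 1 9))))))] .n) (.c
  k143 (.l (.s k10 k5 2 (.s k138 k202 7 (.s k69 k207 10 (.s k192 k133 10 (.d k64 k79 k128 2 7))))))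
  (.c k192 (.q k12 [(.s k8 k4 1 (.s k14 k13 0 (.s k10 k5 2 (.s k6 k2 1 (.d k9 k11 k3 0 2))))), (.s
  k4 k8 1 (.s k14 k13 0 (.s k134 k194 9 (.s k69 k199 8 (.s k207 k138 10 (.d k79 k64 k143 2 7)))))),
  (.s k10 k5 2 (.s k138 k202 7 (.s k207 k69 10 (.s k14 k13 0 (.s k142 k77 8 (.d k134 k130 k194 1
  9)))))), (.s k8 k4 1 (.s k10 k5 2 (.s k138 k202 7 (.s k73 k203 8 (.s k195 k134 10 (.d k75 k72 k135
  0 9))))))] .n) (.c k197 (.l (.s k10 k5 2 (.s k138 k202 7 (.s k69 k207 10 (.s k192 k133 10 (.d k64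
  k79 k128 2 7)))))) (.c k202 (.l (.s k5 k10 2 (.s k133 k192 10 (.s k69 k197 7 (.s k207 k138 10 (.d
  k79 k64 k143 2 7)))))) (.c k207 (.q k12 [(.s k8 k4 1 (.s k14 k13 0 (.s k10 k5 2 (.s k6 k2 1 (.d k9
  k11 k3 0 2))))), (.s k13 k14 0 (.s k133 k192 10 (.s k73 k193 9 (.s k195 k134 10 (.d k75 k72 k135 0
  9))))), (.s k4 k8 1 (.s k192 k133 10 (.s k128 k64 7 (.s k132 k72 9 (.s k68 k196 7 (.d k136 k140
  k204 1 9))))))] .n) .n)))))))))))))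

theorem c102 : rootOK2 k15 k90 k102 t102 = true := by decide +kernel

theorem c103 : rootOK2 k15 k90 k103 t103 = true := by decide +kernel

theorem c106 : rootOK2 k15 k90 k106 t106 = true := by decide +kernel

theorem c107 : rootOK2 k15 k90 k107 t107 = true := by decide +kernel

theorem c111 : rootOK2 k15 k90 k111 t111 = true := by decide +kernel

theorem c112 : rootOK2 k15 k90 k112 t112 = true := by decide +kernel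

theorem c113 : rootOK2 k15 k90 k113 t113 = true := by decide +kernel

theorem c114 : rootOK2 k15 k90 k114 t114 = true := by decide +kernel

theorem c115 : rootOK2 k15 k90 k115 t115 = true := by decide +kernel

theorem c117 : rootOK2 k15 k90 k117 t117 = true := by decide +kernel

theorem c118 : rootOK2 k15 k90 k118 t118 = true := by decide +kernel

theorem c119 : rootOK2 k15 k90 k119 t119 = true := by decide +kernel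

theorem c122 : rootOK2 k15 k90 k122 t122 = true := by decide +kernel

theorem c123 : rootOK2 k15 k90 k123 t123 = true := by decide +kernel

theorem c127 : rootOK2 k15 k90 k127 t127 = true := by decide +kernel

theorem c160 : rootOK2 k15 k90 k160 t160 = true := by decide +kernel

theorem c161 : rootOK2 k15 k90 k161 t161 = true := by decide +kernel

theorem c162 : rootOK2 k15 k90 k162 t162 = true := by decide +kernel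

theorem c163 : rootOK2 k15 k90 k163 t163 = true := by decide +kernel

theorem c165 : rootOK2 k15 k90 k165 t165 = true := by decide +kernel

theorem c166 : rootOK2 k15 k90 k166 t166 = true := by decide +kernel

theorem c167 : rootOK2 k15 k90 k167 t167 = true := by decide +kernel

theorem c170 : rootOK2 k15 k90 k170 t170 = true := by decide +kernel

theorem c171 : rootOK2 k15 k90 k171 t171 = true := by decide +kernel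

theorem c175 : rootOK2 k15 k90 k175 t175 = true := by decide +kernel

theorem c176 : rootOK2 k15 k90 k176 t176 = true := by decide +kernel

theorem c177 : rootOK2 k15 k90 k177 t177 = true := by decide +kernel

theorem c178 : rootOK2 k15 k90 k178 t178 = true := by decide +kernel

theorem c179 : rootOK2 k15 k90 k179 t179 = true := by decide +kernel

theorem c181 : rootOK2 k15 k90 k181 t181 = true := by decide +kernel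

theorem c182 : rootOK2 k15 k90 k182 t182 = true := by decide +kernel

def l : List Nat :=
  [k102.c, k103.c, k106.c, k107.c, k111.c, k112.c, k113.c, k114.c, k115.c, k117.c, k118.c, k119.c,
  k122.c, k123.c, k127.c, k160.c, k161.c, k162.c, k163.c, k165.c, k166.c, k167.c, k170.c, k171.c,
  k175.c, k176.c, k177.c, k178.c, k179.c, k181.c, k182.c]

theorem ok : AllQ k15.c k90.c l :=
  allQ_cons c102 (allQ_cons c103 (allQ_cons c106 (allQ_cons c107 (allQ_cons c111 (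
  allQ_cons c112 (allQ_cons c113 (allQ_cons c114 (allQ_cons c115 (allQ_cons c117 (
  allQ_cons c118 (allQ_cons c119 (allQ_cons c122 (allQ_cons c123 (allQ_cons c127 (
  allQ_cons c160 (allQ_cons c161 (allQ_cons c162 (allQ_cons c163 (allQ_cons c165 (
  allQ_cons c166 (allQ_cons c167 (allQ_cons c170 (allQ_cons c171 (allQ_cons c175 (
  allQ_cons c176 (allQ_cons c177 (allQ_cons c178 (allQ_cons c179 (allQ_cons c181 (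
  allQ_cons c182 (allQ_nil _ _)))))))))))))))))))))))))))))))

end Pool.Agent.TTT.I05
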