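import Pool.Agent.TTT.Sym2

set_option autoImplicit false
set_option maxRecDepth 100000

namespace Pool.Agent.TTT.I06

def t183 : T TT 256 :=
  (.q k21 [(.s k5 k10 2 (.s k63 k42 6 (.s k37 k53 3 (.s k26 k48 6 (.d k31 k16 k47 2 3))))), (.s k10
  k5 2 (.s k42 k63 6 (.s k26 k58 3 (.s k48 k37 6 (.d k16 k31 k32 2 3)))))] (.c k5 (.q k12 [(.s k4 k8
  1 (.s k63 k42 6 (.s k29 k46 4 (.s k25 k17 1 (.d k38 k55 k51 4 6))))), (.s k4 k8 1 (.s k38 k55 4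
  (.s k14 k13 0 (.s k26 k50 5 (.s k16 k31 2 (.d k48 k32 k37 3 6)))))), (.s k63 k42 6 (.s k14 k13 0
  (.s k46 k29 4 (.s k30 k62 3 (.s k45 k60 4 (.d k47 k44 k31 0 3))))))] .n) (.c k10 (.q k12 [(.s k8
  k4 1 (.s k42 k63 6 (.s k25 k59 4 (.s k51 k38 6 (.d k17 k29 k34 1 4))))), (.s k63 k42 6 (.s k14 k13
  0 (.s k46 k29 4 (.s k30 k62 3 (.s k45 k60 4 (.d k47 k44 k31 0 3)))))), (.s k4 k8 1 (.s k38 k55 4
  (.s k14 k13 0 (.s k26 k50 5 (.s k16 k31 2 (.d k48 k32 k37 3 6))))))] (.c k170 (.q k250 [(.s k8 k4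
  1 (.s k42 k63 6 (.s k25 k59 4 (.s k51 k38 6 (.d k17 k29 k34 1 4))))), (.s k63 k42 6 (.s k14 k13 0
  (.s k46 k29 4 (.s k30 k62 3 (.s k45 k60 4 (.d k47 k44 k31 0 3)))))), (.s k4 k8 1 (.s k38 k55 4 (.s
  k14 k13 0 (.s k26 k50 5 (.s k16 k31 2 (.d k48 k32 k37 3 6))))))] .n) (.c k250 (.q k170 [(.s k8 k4
  1 (.s k42 k63 6 (.s k25 k59 4 (.s k51 k38 6 (.d k17 k29 k34 1 4))))), (.s k63 k42 6 (.s k85 k255
  14 (.s k149 k213 7 (.s k192 k106 14 (.d k128 k191 k64 6 7))))), (.s k4 k8 1 (.s k85 k255 14 (.s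
  k166 k247 12 (.s k243 k89 14 (.d k162 k174 k81 1 12)))))] .n) .n))) (.c k16 (.q k12 [(.s k4 k8 1
  (.s k5 k10 2 (.s k6 k7 0 (.s k9 k3 2 (.d k13 k14 k1 0 1))))), (.s k4 k8 1 (.s k42 k63 6 (.s k38
  k55 4 (.s k51 k25 6 (.d k34 k46 k17 1 4))))), (.s k5 k10 2 (.s k63 k42 6 (.s k37 k53 3 (.s k13 k14
  0 (.s k29 k46 4 (.d k25 k17 k49 1 5))))))] .n) (.c k26 (.f k10 k5 2 (.q k12 [(.s k14 k13 0 (.s k8
  k4 1 (.s k6 k2 1 (.d k9 k11 k3 0 2)))), (.s k4 k8 1 (.s k42 k63 6 (.s k38 k55 4 (.s k51 k25 6 (.d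
  k34 k46 k17 1 4))))), (.s k63 k42 6 (.s k13 k14 0 (.s k29 k46 4 (.s k45 k61 3 (.s k30 k60 4 (.d
  k31 k28 k47 0 3))))))] (.c k154 (.q k218 [(.s k14 k13 0 (.s k8 k4 1 (.s k6 k2 1 (.d k9 k11 k3 0
  2)))), (.s k4 k8 1 (.s k42 k63 6 (.s k38 k55 4 (.s k51 k25 6 (.d k34 k46 k17 1 4))))), (.s k63 k42
  6 (.s k13 k14 0 (.s k29 k46 4 (.s k45 k61 3 (.s k30 k60 4 (.d k31 k28 k47 0 3))))))] .n) (.c k218
  (.q k154 [(.s k14 k13 0 (.s k8 k4 1 (.s k6 k2 1 (.d k9 k11 k3 0 2)))), (.s k4 k8 1 (.s k42 k63 6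
  (.s k38 k55 4 (.s k51 k25 6 (.d k34 k46 k17 1 4))))), (.s k63 k42 6 (.s k13 k14 0 (.s k29 k46 4
  (.s k45 k61 3 (.s k30 k60 4 (.d k31 k28 k47 0 3))))))] .n) .n)))) (.c k31 (.l (.s k5 k10 2 (.s k42
  k63 6 (.s k37 k53 3 (.s k48 k26 6 (.d k32 k47 k16 2 3)))))) (.c k37 (.q k12 [(.s k4 k8 1 (.s k5
  k10 2 (.s k6 k7 0 (.s k9 k3 2 (.d k13 k14 k1 0 1))))), (.s k4 k8 1 (.s k42 k63 6 (.s k38 k55 4 (.s
  k34 k46 1 (.d k51 k17 k25 4 6))))), (.s k5 k10 2 (.s k63 k42 6 (.s k13 k14 0 (.s k29 k46 4 (.s k61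
  k45 3 (.d k1 k41 k9 5 1))))))] .n) (.c k42 (.q k12 [(.s k8 k4 1 (.s k10 k5 2 (.s k9 k11 0 (.s k6
  k3 2 (.d k14 k13 k2 0 1))))), (.s k4 k8 1 (.s k38 k55 4 (.s k14 k13 0 (.s k26 k50 5 (.s k48 k37 6
  (.d k16 k32 k31 3 2)))))), (.s k5 k10 2 (.s k37 k53 3 (.s k13 k14 0 (.s k25 k49 5 (.s k51 k38 6
  (.d k17 k34 k29 4 1)))))), (.s k4 k8 1 (.s k5 k10 2 (.s k38 k55 4 (.s k37 k53 3 (.s k36 k39 0 (.d
  k48 k26 k24 6 5))))))] .n) (.c k48 (.q k12 [(.s k4 k8 1 (.s k5 k10 2 (.s k6 k7 0 (.s k9 k3 2 (.d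
  k13 k14 k1 0 1))))), (.s k4 k8 1 (.s k42 k63 6 (.s k38 k55 4 (.s k51 k25 6 (.d k34 k46 k17 1
  4))))), (.s k5 k10 2 (.s k63 k42 6 (.s k37 k53 3 (.s k13 k14 0 (.s k29 k46 4 (.d k25 k17 k49 1
  5))))))] .n) (.c k53 (.l (.s k10 k5 2 (.s k42 k63 6 (.s k26 k58 3 (.s k48 k37 6 (.d k16 k31 k32 2
  3)))))) (.c k58 (.l (.s k5 k10 2 (.s k42 k63 6 (.s k37 k53 3 (.s k48 k26 6 (.d k32 k47 k16 2
  3)))))) (.c k63 (.q k12 [(.s k8 k4 1 (.s k14 k13 0 (.s k10 k5 2 (.s k6 k2 1 (.d k9 k11 k3 0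
  2))))), (.s k4 k8 1 (.s k38 k55 4 (.s k14 k13 0 (.s k26 k50 5 (.s k48 k37 6 (.d k16 k31 k32 2
  3)))))), (.s k5 k10 2 (.s k37 k53 3 (.s k13 k14 0 (.s k25 k49 5 (.s k51 k38 6 (.d k17 k29 k34 1
  4)))))), (.s k4 k8 1 (.s k5 k10 2 (.s k38 k55 4 (.s k37 k53 3 (.s k51 k25 6 (.d k39 k36 k27 0
  5))))))] (.c k123 (.q k243 [(.s k4 k8 1 (.s k5 k10 2 (.s k6 k7 0 (.s k9 k3 2 (.d k13 k14 k1 0
  1))))), (.s k4 k8 1 (.s k162 k81 12 (.s k166 k89 14 (.s k85 k247 12 (.d k170 k174 k255 1 14))))),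
  (.s k5 k10 2 (.s k81 k162 12 (.s k89 k166 14 (.s k85 k93 1 (.s k165 k245 11 (.d k13 k14 k241 0
  13))))))] (.c k170 (.l (.s k8 k4 1 (.s k10 k5 2 (.s k9 k11 0 (.s k6 k3 2 (.d k14 k13 k2 0 1))))))
  .n)) (.c k243 (.q k123 [(.s k8 k4 1 (.s k14 k13 0 (.s k10 k5 2 (.s k6 k2 1 (.d k9 k11 k3 0 2))))),
  (.s k4 k8 1 (.s k38 k55 4 (.s k14 k13 0 (.s k26 k50 5 (.s k48 k37 6 (.d k16 k31 k32 2 3)))))), (.s
  k5 k10 2 (.s k37 k53 3 (.s k13 k14 0 (.s k25 k49 5 (.s k51 k38 6 (.d k17 k29 k34 1 4)))))), (.s k4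
  k8 1 (.s k5 k10 2 (.s k38 k55 4 (.s k37 k53 3 (.s k51 k25 6 (.d k39 k36 k27 0 5))))))] .n) .n)))
  .n))))))))))))

def t186 : T TT 256 :=
  (.q k21 [(.s k10 k5 2 (.s k42 k63 6 (.s k26 k58 3 (.s k48 k37 6 (.d k16 k31 k32 2 3))))), (.s k63
  k42 6 (.s k31 k47 3 (.s k26 k16 2 (.s k37 k48 6 (.d k5 k10 k53 2 3)))))] (.c k5 (.q k12 [(.s k4 k8
  1 (.s k42 k63 6 (.s k38 k55 4 (.s k51 k25 6 (.d k34 k46 k17 1 4))))), (.s k63 k42 6 (.s k14 k13 0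
  (.s k46 k29 4 (.s k30 k62 3 (.s k45 k60 4 (.d k47 k44 k31 0 3)))))), (.s k4 k8 1 (.s k38 k55 4 (.s
  k14 k13 0 (.s k26 k50 5 (.s k16 k31 2 (.d k48 k32 k37 3 6))))))] .n) (.c k10 (.q k12 [(.s k8 k4 1
  (.s k42 k63 6 (.s k25 k59 4 (.s k51 k38 6 (.d k17 k29 k34 1 4))))), (.s k63 k42 6 (.s k14 k13 0
  (.s k46 k29 4 (.s k30 k62 3 (.s k45 k60 4 (.d k47 k44 k31 0 3)))))), (.s k4 k8 1 (.s k38 k55 4 (.s
  k14 k13 0 (.s k26 k50 5 (.s k16 k31 2 (.d k48 k32 k37 3 6))))))] (.c k170 (.q k250 [(.s k8 k4 1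
  (.s k42 k63 6 (.s k25 k59 4 (.s k51 k38 6 (.d k17 k29 k34 1 4))))), (.s k63 k42 6 (.s k14 k13 0
  (.s k46 k29 4 (.s k30 k62 3 (.s k45 k60 4 (.d k47 k44 k31 0 3)))))), (.s k4 k8 1 (.s k38 k55 4 (.s
  k14 k13 0 (.s k26 k50 5 (.s k16 k31 2 (.d k48 k32 k37 3 6))))))] (.c k138 (.q k154 [(.s k8 k4 1
  (.s k42 k63 6 (.s k25 k59 4 (.s k51 k38 6 (.d k17 k29 k34 1 4))))), (.s k63 k42 6 (.s k14 k13 0
  (.s k46 k29 4 (.s k30 k62 3 (.s k45 k60 4 (.d k47 k44 k31 0 3)))))), (.s k4 k8 1 (.s k38 k55 4 (.s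
  k14 k13 0 (.s k26 k50 5 (.s k16 k31 2 (.d k48 k32 k37 3 6))))))] (.c k74 (.q k202 [(.s k8 k4 1 (.s
  k42 k63 6 (.s k25 k59 4 (.s k51 k38 6 (.d k17 k29 k34 1 4))))), (.s k63 k42 6 (.s k14 k13 0 (.s
  k46 k29 4 (.s k30 k62 3 (.s k45 k60 4 (.d k47 k44 k31 0 3)))))), (.s k4 k8 1 (.s k38 k55 4 (.s k14
  k13 0 (.s k26 k50 5 (.s k16 k31 2 (.d k48 k32 k37 3 6))))))] (.c k106 (.q k122 [(.s k8 k4 1 (.s
  k42 k63 6 (.s k25 k59 4 (.s k51 k38 6 (.d k17 k29 k34 1 4))))), (.s k63 k42 6 (.s k234 k218 3 (.s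
  k13 k14 0 (.s k29 k46 4 (.s k45 k61 3 (.s k30 k60 4 (.d k31 k28 k47 0 3))))))), (.s k4 k8 1 (.s
  k38 k55 4 (.s k14 k13 0 (.s k26 k50 5 (.s k48 k37 6 (.d k16 k31 k32 2 3))))))] (.c k38 (.l (.s k8
  k4 1 (.s k42 k63 6 (.s k25 k59 4 (.s k13 k14 0 (.s k37 k49 5 (.s k32 k47 2 (.d k48 k26 k16 6
  3)))))))) (.c k42 (.l (.s k234 k218 3 (.s k4 k8 1 (.s k38 k55 4 (.s k14 k13 0 (.s k26 k50 5 (.s
  k48 k37 6 (.d k16 k32 k31 3 2)))))))) (.c k234 (.l (.s k42 k63 6 (.s k4 k8 1 (.s k38 k55 4 (.s k51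
  k25 6 (.d k34 k46 k17 1 4)))))) .n)))) (.c k122 (.l (.s k106 k58 11 (.s k4 k8 1 (.s k42 k63 6 (.s
  k38 k55 4 (.s k51 k25 6 (.d k34 k46 k17 1 4))))))) .n))) (.c k202 (.q k74 [(.s k8 k4 1 (.s k42 k63
  6 (.s k25 k59 4 (.s k51 k38 6 (.d k17 k29 k34 1 4))))), (.s k13 k14 0 (.s k133 k192 10 (.s k73
  k193 9 (.s k195 k134 10 (.d k75 k72 k135 0 9)))))] .n) .n))) (.c k154 (.q k138 [(.s k8 k4 1 (.s
  k42 k63 6 (.s k25 k59 4 (.s k51 k38 6 (.d k17 k29 k34 1 4))))), (.s k4 k8 1 (.s k69 k207 10 (.s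
  k134 k199 8 (.s k195 k73 10 (.d k130 k142 k65 1 8))))), (.s k63 k42 6 (.s k13 k14 0 (.s k29 k46 4
  (.s k45 k61 3 (.s k30 k60 4 (.d k31 k28 k47 0 3))))))] (.c k26 (.q k218 [(.s k8 k4 1 (.s k42 k63 6
  (.s k25 k59 4 (.s k51 k38 6 (.d k17 k29 k34 1 4))))), (.s k207 k69 10 (.s k143 k79 7 (.s k128 k133
  2 (.s k202 k234 3 (.d k192 k197 k64 2 7)))))] (.c k42 (.q k58 [(.s k8 k4 1 (.s k207 k69 10 (.s k73
  k203 8 (.s k134 k195 10 (.d k142 k130 k77 1 8))))), (.s k207 k69 10 (.s k13 k14 0 (.s k77 k142 8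
  (.s k141 k205 7 (.s k78 k204 8 (.d k79 k76 k143 0 7)))))), (.s k8 k4 1 (.s k73 k203 8 (.s k13 k14
  0 (.s k133 k193 9 (.s k192 k74 10 (.d k128 k143 k64 2 7))))))] (.c k106 (.l (.s k234 k202 3 (.s k4
  k8 1 (.s k69 k207 10 (.s k134 k199 8 (.s k195 k73 10 (.d k130 k142 k65 1 8))))))) (.c k234 (.q
  k106 [(.s k8 k4 1 (.s k207 k69 10 (.s k73 k203 8 (.s k134 k195 10 (.d k142 k130 k77 1 8))))), (.s
  k207 k69 10 (.s k13 k14 0 (.s k77 k142 8 (.s k141 k205 7 (.s k78 k204 8 (.d k79 k76 k143 0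
  7)))))), (.s k8 k4 1 (.s k73 k203 8 (.s k13 k14 0 (.s k133 k193 9 (.s k192 k74 10 (.d k128 k143
  k64 2 7))))))] .n) .n))) (.c k58 (.l (.s k42 k63 6 (.s k4 k8 1 (.s k38 k55 4 (.s k51 k25 6 (.d k34
  k46 k17 1 4)))))) .n))) (.c k218 (.q k26 [(.s k48 k37 6 (.d k16 k31 k32 2 3)), (.s k4 k8 1 (.s k38
  k55 4 (.d k14 k13 k50 0 5)))] .n) .n))) .n))) (.c k250 (.q k170 [(.s k8 k4 1 (.s k42 k63 6 (.s k25
  k59 4 (.s k51 k38 6 (.d k17 k29 k34 1 4))))), (.s k63 k42 6 (.s k85 k255 14 (.s k149 k213 7 (.s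
  k192 k106 14 (.d k128 k191 k64 6 7))))), (.s k4 k8 1 (.s k85 k255 14 (.s k166 k247 12 (.s k243 k89
  14 (.d k162 k174 k81 1 12)))))] (.c k58 (.q k122 [(.s k4 k8 1 (.s k38 k55 4 (.s k25 k51 6 (.s k29
  k17 1 (.d k63 k42 k46 6 4))))), (.s k85 k255 14 (.s k149 k213 7 (.s k128 k191 6 (.s k192 k64 7 (.d
  k63 k42 k106 6 14)))))] (.c k26 (.l (.s k42 k63 6 (.s k4 k8 1 (.s k38 k55 4 (.s k51 k25 6 (.d k34
  k46 k17 1 4)))))) (.c k42 (.q k26 [(.s k48 k37 6 (.d k16 k32 k31 3 2)), (.s k4 k8 1 (.s k38 k55 4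
  (.d k14 k13 k50 0 5)))] .n) (.c k63 (.l (.s k4 k8 1 (.s k85 k255 14 (.s k166 k247 12 (.s k243 k89
  14 (.d k162 k174 k81 1 12)))))) .n)))) (.c k122 (.q k58 [(.s k63 k42 6 (.s k31 k47 3 (.s k26 k16 2
  (.d k48 k37 k53 6 2)))), (.s k4 k8 1 (.s k85 k255 14 (.s k166 k247 12 (.s k243 k89 14 (.d k162
  k174 k81 1 12)))))] (.c k48 (.l (.s k4 k8 1 (.s k42 k63 6 (.s k38 k55 4 (.s k51 k25 6 (.d k34 k46
  k17 1 4)))))) (.c k74 (.q k106 [(.d k42 k63 k234 6 7), (.s k4 k8 1 (.s k85 k255 14 (.s k166 k247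
  12 (.s k243 k89 14 (.d k162 k174 k81 1 12)))))] (.c k138 (.l (.s k202 k154 11 (.d k42 k63 k234 6
  7))) (.c k202 (.q k138 [(.d k42 k234 k63 7 6), (.s k4 k8 1 (.s k69 k207 10 (.s k134 k199 8 (.s
  k195 k73 10 (.d k130 k142 k65 1 8)))))] (.c k218 (.l (.s k234 k42 7 (.s k85 k255 14 (.s k149 k213
  7 (.s k192 k63 14 (.d k64 k127 k128 6 7)))))) (.c k234 (.q k218 [(.s k63 k42 6 (.s k149 k192 14
  (.d k85 k213 k255 7 14))), (.s k63 k42 6 (.s k31 k47 3 (.s k16 k26 2 (.d k48 k32 k53 3 2)))), (.s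
  k4 k8 1 (.s k69 k207 10 (.s k134 k199 8 (.s k195 k73 10 (.d k130 k142 k65 1 8)))))] .n) .n)))
  .n))) (.c k106 (.q k74 [(.s k63 k42 6 (.s k48 k53 2 (.s k16 k32 3 (.d k26 k37 k31 6 2)))), (.s
  k192 k133 10 (.s k128 k64 7 (.s k149 k191 6 (.d k85 k213 k255 7 14))))] .n) .n)))) .n))) .n))) (.c
  k16 (.q k12 [(.s k4 k8 1 (.s k42 k63 6 (.s k38 k55 4 (.s k51 k25 6 (.d k34 k46 k17 1 4))))), (.s
  k4 k8 1 (.s k5 k10 2 (.s k6 k7 0 (.s k9 k3 2 (.d k13 k14 k1 0 1))))), (.s k5 k10 2 (.s k63 k42 6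
  (.s k37 k53 3 (.s k13 k14 0 (.s k29 k46 4 (.d k25 k17 k49 1 5))))))] .n) (.c k26 (.f k10 k5 2 (.q
  k12 [(.s k14 k13 0 (.s k8 k4 1 (.s k6 k2 1 (.d k9 k11 k3 0 2)))), (.s k4 k8 1 (.s k42 k63 6 (.s
  k38 k55 4 (.s k51 k25 6 (.d k34 k46 k17 1 4))))), (.s k63 k42 6 (.s k13 k14 0 (.s k29 k46 4 (.s
  k45 k61 3 (.s k30 k60 4 (.d k31 k28 k47 0 3))))))] (.c k154 (.q k218 [(.s k14 k13 0 (.s k8 k4 1
  (.s k6 k2 1 (.d k9 k11 k3 0 2)))), (.s k4 k8 1 (.s k42 k63 6 (.s k38 k55 4 (.s k51 k25 6 (.d k34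
  k46 k17 1 4))))), (.s k63 k42 6 (.s k13 k14 0 (.s k29 k46 4 (.s k45 k61 3 (.s k30 k60 4 (.d k31
  k28 k47 0 3))))))] (.c k138 (.q k170 [(.s k14 k13 0 (.s k8 k4 1 (.s k6 k2 1 (.d k9 k11 k3 0 2)))),
  (.s k63 k42 6 (.s k85 k255 14 (.s k149 k213 7 (.s k192 k106 14 (.d k128 k191 k64 6 7)))))] .n) (.c
  k170 (.q k138 [(.s k8 k4 1 (.s k14 k13 0 (.s k6 k2 1 (.d k9 k11 k3 0 2)))), (.s k69 k207 10 (.s
  k74 k202 7 (.s k192 k133 10 (.d k64 k79 k128 2 7))))] .n) .n))) (.c k218 (.q k154 [(.s k14 k13 0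
  (.s k8 k4 1 (.s k6 k2 1 (.d k9 k11 k3 0 2)))), (.s k4 k8 1 (.s k42 k63 6 (.s k38 k55 4 (.s k51 k25
  6 (.d k34 k46 k17 1 4))))), (.s k63 k42 6 (.s k13 k14 0 (.s k29 k46 4 (.s k45 k61 3 (.s k30 k60 4
  (.d k31 k28 k47 0 3))))))] .n) .n)))) (.c k31 (.l (.s k5 k10 2 (.s k42 k63 6 (.s k37 k53 3 (.s k48
  k26 6 (.d k32 k47 k16 2 3)))))) (.c k32 (.l (.s k5 k10 2 (.s k63 k42 6 (.s k37 k53 3 (.s k26 k48 6
  (.d k31 k47 k16 3 2)))))) (.c k37 (.q k12 [(.s k4 k8 1 (.s k42 k63 6 (.s k38 k55 4 (.s k34 k46 1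
  (.d k51 k17 k25 4 6))))), (.s k4 k8 1 (.s k5 k10 2 (.s k6 k7 0 (.s k9 k3 2 (.d k13 k14 k1 0
  1))))), (.s k5 k10 2 (.s k63 k42 6 (.s k13 k14 0 (.s k29 k46 4 (.s k61 k45 3 (.d k1 k41 k9 5
  1))))))] .n) (.c k42 (.q k12 [(.s k8 k4 1 (.s k10 k5 2 (.s k9 k11 0 (.s k6 k3 2 (.d k14 k13 k2 0
  1))))), (.s k4 k8 1 (.s k38 k55 4 (.s k14 k13 0 (.s k26 k50 5 (.s k48 k37 6 (.d k16 k32 k31 3
  2)))))), (.s k5 k10 2 (.s k37 k53 3 (.s k13 k14 0 (.s k25 k49 5 (.s k51 k38 6 (.d k17 k34 k29 4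
  1)))))), (.s k4 k8 1 (.s k5 k10 2 (.s k38 k55 4 (.s k37 k53 3 (.s k36 k39 0 (.d k48 k26 k24 6
  5))))))] .n) (.c k48 (.f k10 k5 2 (.q k12 [(.s k14 k13 0 (.s k8 k4 1 (.s k6 k2 1 (.d k9 k11 k3 0
  2)))), (.s k63 k42 6 (.s k13 k14 0 (.s k29 k46 4 (.s k45 k61 3 (.s k30 k60 4 (.d k31 k28 k47 0
  3)))))), (.s k4 k8 1 (.s k42 k63 6 (.s k38 k55 4 (.s k51 k25 6 (.d k34 k46 k17 1 4)))))] (.c k117
  (.q k255 [(.s k14 k13 0 (.s k8 k4 1 (.s k6 k2 1 (.d k9 k11 k3 0 2)))), (.s k63 k42 6 (.s k85 k170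
  14 (.s k149 k213 7 (.s k106 k192 14 (.d k127 k64 k191 6 7)))))] .n) (.c k255 (.q k117 [(.s k14 k13
  0 (.s k8 k4 1 (.s k6 k2 1 (.d k9 k11 k3 0 2)))), (.s k63 k42 6 (.s k13 k14 0 (.s k29 k46 4 (.s k45
  k61 3 (.s k30 k60 4 (.d k31 k28 k47 0 3)))))), (.s k4 k8 1 (.s k42 k63 6 (.s k38 k55 4 (.s k51 k25
  6 (.d k34 k46 k17 1 4)))))] .n) .n)))) (.c k53 (.l (.s k10 k5 2 (.s k42 k63 6 (.s k26 k58 3 (.s
  k48 k37 6 (.d k16 k31 k32 2 3)))))) (.c k63 (.q k12 [(.s k8 k4 1 (.s k14 k13 0 (.s k10 k5 2 (.s k6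
  k2 1 (.d k9 k11 k3 0 2))))), (.s k4 k8 1 (.s k38 k55 4 (.s k14 k13 0 (.s k26 k50 5 (.s k48 k37 6
  (.d k16 k31 k32 2 3)))))), (.s k5 k10 2 (.s k37 k53 3 (.s k13 k14 0 (.s k25 k49 5 (.s k51 k38 6
  (.d k17 k29 k34 1 4)))))), (.s k4 k8 1 (.s k5 k10 2 (.s k38 k55 4 (.s k37 k53 3 (.s k51 k25 6 (.d
  k39 k36 k27 0 5))))))] .n) .n))))))))))))

def t187 : T TT 256 :=
  (.q k74 [(.s k10 k5 2 (.s k138 k202 7 (.s k207 k69 10 (.s k133 k192 10 (.d k143 k128 k79 2 7)))))]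
  (.c k5 (.q k12 [(.s k13 k14 0 (.s k133 k192 10 (.s k73 k193 9 (.s k195 k134 10 (.d k75 k72 k135 0
  9))))), (.s k4 k8 1 (.s k192 k133 10 (.s k128 k64 7 (.s k132 k72 9 (.s k68 k196 7 (.d k136 k140
  k204 1 9)))))), (.s k4 k8 1 (.s k14 k13 0 (.s k134 k194 9 (.s k69 k199 8 (.s k207 k138 10 (.d k79
  k64 k143 2 7))))))] .n) (.c k10 (.q k12 [(.s k14 k13 0 (.s k134 k194 9 (.s k73 k195 10 (.s k192
  k133 10 (.d k72 k75 k132 0 9))))), (.s k4 k8 1 (.s k192 k133 10 (.s k128 k64 7 (.s k132 k72 9 (.s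
  k68 k196 7 (.d k136 k140 k204 1 9)))))), (.s k4 k8 1 (.s k14 k13 0 (.s k134 k194 9 (.s k69 k199 8
  (.s k207 k138 10 (.d k79 k64 k143 2 7))))))] (.c k170 (.q k250 [(.s k14 k13 0 (.s k134 k194 9 (.s
  k73 k195 10 (.s k192 k133 10 (.d k72 k75 k132 0 9))))), (.s k4 k8 1 (.s k192 k133 10 (.s k128 k64
  7 (.s k132 k72 9 (.s k68 k196 7 (.d k136 k140 k204 1 9)))))), (.s k4 k8 1 (.s k14 k13 0 (.s k134
  k194 9 (.s k69 k199 8 (.s k207 k138 10 (.d k79 k64 k143 2 7))))))] (.c k136 (.q k153 [(.s k14 k13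
  0 (.s k134 k194 9 (.s k73 k195 10 (.s k192 k133 10 (.d k72 k75 k132 0 9))))), (.s k4 k8 1 (.s k14
  k13 0 (.s k134 k194 9 (.s k69 k199 8 (.s k207 k138 10 (.d k79 k64 k143 2 7)))))), (.s k4 k8 1 (.s
  k192 k133 10 (.s k64 k128 7 (.s k69 k79 2 (.s k134 k199 8 (.s k73 k195 10 (.d k72 k132 k75 9
  0))))))), (.s k8 k4 1 (.s k13 k14 0 (.s k133 k192 10 (.s k73 k193 9 (.s k138 k203 8 (.s k143 k128
  2 (.d k207 k79 k69 7 10)))))))] (.c k73 (.l (.s k4 k8 1 (.s k14 k13 0 (.s k134 k194 9 (.s k69 k199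
  8 (.s k64 k79 2 (.d k192 k133 k128 10 7))))))) .n)) (.c k153 (.q k136 [(.s k192 k133 10 (.s k128
  k64 7 (.d k132 k140 k72 1 9))), (.s k8 k4 1 (.s k72 k200 7 (.s k14 k13 0 (.s k134 k194 9 (.d k73
  k75 k195 0 10)))))] (.c k27 (.q k216 [(.s k192 k133 10 (.s k128 k64 7 (.d k132 k140 k72 1 9))),
  (.s k8 k4 1 (.s k72 k200 7 (.s k14 k13 0 (.s k134 k194 9 (.d k73 k75 k195 0 10)))))] (.c k72 (.l
  (.s k192 k133 10 (.s k128 k64 7 (.s k140 k132 1 (.d k204 k76 k68 7 9))))) .n)) (.c k72 (.l (.s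
  k192 k133 10 (.s k128 k64 7 (.s k140 k132 1 (.d k204 k76 k68 7 9))))) (.c k216 (.q k27 [(.s k192
  k133 10 (.s k128 k64 7 (.d k132 k140 k72 1 9))), (.s k8 k4 1 (.s k72 k200 7 (.s k14 k13 0 (.s k134
  k194 9 (.d k73 k75 k195 0 10)))))] (.c k72 (.l (.s k192 k133 10 (.s k128 k64 7 (.s k140 k132 1 (.d
  k204 k76 k68 7 9))))) .n)) .n)))) .n))) (.c k250 (.q k170 [(.s k14 k13 0 (.s k134 k194 9 (.s k73
  k195 10 (.s k192 k133 10 (.d k72 k75 k132 0 9))))), (.s k4 k8 1 (.s k85 k255 14 (.s k166 k247 12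
  (.s k243 k89 14 (.d k162 k174 k81 1 12)))))] .n) .n))) (.c k69 (.q k12 [(.s k4 k8 1 (.s k5 k10 2
  (.s k6 k7 0 (.s k9 k3 2 (.d k13 k14 k1 0 1))))), (.s k13 k14 0 (.s k133 k192 10 (.s k73 k193 9 (.s
  k75 k72 0 (.d k195 k135 k134 9 10))))), (.s k4 k8 1 (.s k192 k133 10 (.s k128 k64 7 (.s k132 k72 9
  (.s k68 k196 7 (.d k136 k140 k204 1 9))))))] .n) (.c k79 (.q k12 [(.s k8 k4 1 (.s k14 k13 0 (.s
  k10 k5 2 (.s k6 k2 1 (.d k9 k11 k3 0 2))))), (.s k13 k14 0 (.s k133 k192 10 (.s k73 k193 9 (.s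
  k195 k134 10 (.d k75 k72 k135 0 9))))), (.s k4 k8 1 (.s k192 k133 10 (.s k128 k64 7 (.s k132 k72 9
  (.s k68 k196 7 (.d k136 k140 k204 1 9))))))] (.c k101 (.q k112 [(.s k8 k4 1 (.s k14 k13 0 (.s k10
  k5 2 (.s k6 k2 1 (.d k9 k11 k3 0 2))))), (.s k13 k14 0 (.s k133 k192 10 (.s k73 k193 9 (.s k195
  k134 10 (.d k75 k72 k135 0 9))))), (.s k4 k8 1 (.s k192 k133 10 (.s k128 k64 7 (.s k132 k72 9 (.s
  k68 k196 7 (.d k136 k140 k204 1 9))))))] .n) (.c k112 (.q k101 [(.s k8 k4 1 (.s k14 k13 0 (.s k10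
  k5 2 (.s k6 k2 1 (.d k9 k11 k3 0 2))))), (.s k13 k14 0 (.s k133 k192 10 (.s k73 k193 9 (.s k195
  k134 10 (.d k75 k72 k135 0 9))))), (.s k4 k8 1 (.s k192 k133 10 (.s k128 k64 7 (.s k132 k72 9 (.s
  k68 k196 7 (.d k136 k140 k204 1 9))))))] .n) .n))) (.c k128 (.l (.s k5 k10 2 (.s k133 k192 10 (.s
  k69 k197 7 (.s k207 k138 10 (.d k79 k64 k143 2 7)))))) (.c k133 (.q k12 [(.s k4 k8 1 (.s k5 k10 2
  (.s k6 k7 0 (.s k9 k3 2 (.d k13 k14 k1 0 1))))), (.s k4 k8 1 (.s k14 k13 0 (.s k134 k194 9 (.s k69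
  k199 8 (.s k207 k138 10 (.d k79 k143 k64 7 2)))))), (.s k10 k5 2 (.s k138 k202 7 (.s k14 k13 0 (.s
  k134 k194 9 (.s k130 k142 1 (.d k195 k73 k65 10 8)))))), (.s k8 k4 1 (.s k10 k5 2 (.s k138 k202 7
  (.s k73 k203 8 (.s k195 k134 10 (.d k75 k135 k72 9 0))))))] .n) (.c k138 (.q k12 [(.s k8 k4 1 (.s
  k10 k5 2 (.s k9 k11 0 (.s k6 k3 2 (.d k14 k13 k2 0 1))))), (.s k13 k14 0 (.s k133 k192 10 (.s k73
  k193 9 (.s k195 k134 10 (.d k75 k72 k135 0 9))))), (.s k4 k8 1 (.s k192 k133 10 (.s k128 k64 7 (.s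
  k132 k72 9 (.s k68 k196 7 (.d k136 k140 k204 1 9))))))] .n) (.c k143 (.l (.s k10 k5 2 (.s k138
  k202 7 (.s k69 k207 10 (.s k192 k133 10 (.d k64 k79 k128 2 7)))))) (.c k192 (.q k12 [(.s k8 k4 1
  (.s k14 k13 0 (.s k10 k5 2 (.s k6 k2 1 (.d k9 k11 k3 0 2))))), (.s k4 k8 1 (.s k14 k13 0 (.s k134
  k194 9 (.s k69 k199 8 (.s k207 k138 10 (.d k79 k64 k143 2 7)))))), (.s k10 k5 2 (.s k138 k202 7
  (.s k207 k69 10 (.s k14 k13 0 (.s k142 k77 8 (.d k134 k130 k194 1 9)))))), (.s k8 k4 1 (.s k10 k5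
  2 (.s k138 k202 7 (.s k73 k203 8 (.s k195 k134 10 (.d k75 k72 k135 0 9))))))] .n) (.c k197 (.l (.s
  k10 k5 2 (.s k138 k202 7 (.s k69 k207 10 (.s k192 k133 10 (.d k64 k79 k128 2 7)))))) (.c k202 (.l
  (.s k5 k10 2 (.s k133 k192 10 (.s k69 k197 7 (.s k207 k138 10 (.d k79 k64 k143 2 7)))))) (.c k207
  (.q k12 [(.s k8 k4 1 (.s k14 k13 0 (.s k10 k5 2 (.s k6 k2 1 (.d k9 k11 k3 0 2))))), (.s k13 k14 0
  (.s k133 k192 10 (.s k73 k193 9 (.s k195 k134 10 (.d k75 k72 k135 0 9))))), (.s k4 k8 1 (.s k192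
  k133 10 (.s k128 k64 7 (.s k132 k72 9 (.s k68 k196 7 (.d k136 k140 k204 1 9))))))] .n)
  .n)))))))))))))

def t191 : T TT 256 :=
  (.q k74 [(.s k10 k5 2 (.s k138 k202 7 (.s k207 k69 10 (.s k133 k192 10 (.d k143 k128 k79 2 7)))))]
  (.c k5 (.q k12 [(.s k13 k14 0 (.s k133 k192 10 (.s k73 k193 9 (.s k195 k134 10 (.d k75 k72 k135 0
  9))))), (.s k4 k8 1 (.s k192 k133 10 (.s k128 k64 7 (.s k132 k72 9 (.s k68 k196 7 (.d k136 k140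
  k204 1 9)))))), (.s k4 k8 1 (.s k14 k13 0 (.s k134 k194 9 (.s k69 k199 8 (.s k207 k138 10 (.d k79
  k64 k143 2 7))))))] .n) (.c k10 (.q k12 [(.s k14 k13 0 (.s k134 k194 9 (.s k73 k195 10 (.s k192
  k133 10 (.d k72 k75 k132 0 9))))), (.s k4 k8 1 (.s k192 k133 10 (.s k128 k64 7 (.s k132 k72 9 (.s
  k68 k196 7 (.d k136 k140 k204 1 9)))))), (.s k4 k8 1 (.s k14 k13 0 (.s k134 k194 9 (.s k69 k199 8
  (.s k207 k138 10 (.d k79 k64 k143 2 7))))))] (.c k170 (.q k250 [(.s k14 k13 0 (.s k134 k194 9 (.s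
  k73 k195 10 (.s k192 k133 10 (.d k72 k75 k132 0 9))))), (.s k4 k8 1 (.s k192 k133 10 (.s k128 k64
  7 (.s k132 k72 9 (.s k68 k196 7 (.d k136 k140 k204 1 9)))))), (.s k4 k8 1 (.s k14 k13 0 (.s k134
  k194 9 (.s k69 k199 8 (.s k207 k138 10 (.d k79 k64 k143 2 7))))))] (.c k128 (.q k149 [(.s k14 k13
  0 (.s k134 k194 9 (.s k195 k73 10 (.s k133 k192 10 (.d k135 k132 k75 0 9))))), (.s k192 k133 10
  (.s k132 k72 9 (.s k63 k106 14 (.s k29 k46 4 (.s k89 k209 9 (.d k166 k183 k243 4 14)))))), (.s k4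
  k8 1 (.s k14 k13 0 (.s k134 k194 9 (.s k69 k199 8 (.s k79 k64 2 (.d k207 k143 k138 7 10))))))] .n)
  (.c k149 (.q k128 [(.d k192 k64 k133 7 10), (.s k4 k8 1 (.s k14 k13 0 (.s k134 k194 9 (.s k69 k199
  8 (.s k207 k138 10 (.d k79 k64 k143 2 7))))))] (.c k31 (.q k208 [(.d k192 k64 k133 7 10), (.s k4
  k8 1 (.s k14 k13 0 (.s k134 k194 9 (.s k69 k199 8 (.s k207 k138 10 (.d k79 k64 k143 2 7))))))] (.c
  k64 (.l (.s k4 k8 1 (.s k192 k133 10 (.s k132 k72 9 (.s k68 k196 7 (.d k136 k140 k204 1 9))))))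
  .n)) (.c k64 (.l (.s k4 k8 1 (.s k192 k133 10 (.s k132 k72 9 (.s k68 k196 7 (.d k136 k140 k204 1
  9)))))) (.c k208 (.q k31 [(.d k192 k64 k133 7 10), (.s k13 k14 0 (.s k63 k47 3 (.s k29 k46 4 (.s
  k45 k61 3 (.d k30 k28 k60 0 4)))))] .n) .n)))) .n))) (.c k250 (.q k170 [(.s k14 k13 0 (.s k134
  k194 9 (.s k73 k195 10 (.s k192 k133 10 (.d k72 k75 k132 0 9))))), (.s k4 k8 1 (.s k85 k255 14 (.s
  k166 k247 12 (.s k243 k89 14 (.d k162 k174 k81 1 12)))))] .n) .n))) (.c k69 (.q k12 [(.s k4 k8 1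
  (.s k5 k10 2 (.s k6 k7 0 (.s k9 k3 2 (.d k13 k14 k1 0 1))))), (.s k13 k14 0 (.s k133 k192 10 (.s
  k73 k193 9 (.s k75 k72 0 (.d k195 k135 k134 9 10))))), (.s k4 k8 1 (.s k192 k133 10 (.s k128 k64 7
  (.s k132 k72 9 (.s k68 k196 7 (.d k136 k140 k204 1 9))))))] .n) (.c k79 (.q k12 [(.s k8 k4 1 (.s
  k14 k13 0 (.s k10 k5 2 (.s k6 k2 1 (.d k9 k11 k3 0 2))))), (.s k13 k14 0 (.s k133 k192 10 (.s k73
  k193 9 (.s k195 k134 10 (.d k75 k72 k135 0 9))))), (.s k4 k8 1 (.s k192 k133 10 (.s k128 k64 7 (.s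
  k132 k72 9 (.s k68 k196 7 (.d k136 k140 k204 1 9))))))] (.c k101 (.q k112 [(.s k8 k4 1 (.s k14 k13
  0 (.s k10 k5 2 (.s k6 k2 1 (.d k9 k11 k3 0 2))))), (.s k13 k14 0 (.s k133 k192 10 (.s k73 k193 9
  (.s k195 k134 10 (.d k75 k72 k135 0 9))))), (.s k4 k8 1 (.s k192 k133 10 (.s k128 k64 7 (.s k132
  k72 9 (.s k68 k196 7 (.d k136 k140 k204 1 9))))))] .n) (.c k112 (.q k101 [(.s k8 k4 1 (.s k14 k13
  0 (.s k10 k5 2 (.s k6 k2 1 (.d k9 k11 k3 0 2))))), (.s k13 k14 0 (.s k133 k192 10 (.s k73 k193 9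
  (.s k195 k134 10 (.d k75 k72 k135 0 9))))), (.s k4 k8 1 (.s k192 k133 10 (.s k128 k64 7 (.s k132
  k72 9 (.s k68 k196 7 (.d k136 k140 k204 1 9))))))] .n) .n))) (.c k128 (.l (.s k5 k10 2 (.s k133
  k192 10 (.s k69 k197 7 (.s k207 k138 10 (.d k79 k64 k143 2 7)))))) (.c k133 (.q k12 [(.s k4 k8 1
  (.s k5 k10 2 (.s k6 k7 0 (.s k9 k3 2 (.d k13 k14 k1 0 1))))), (.s k4 k8 1 (.s k14 k13 0 (.s k134
  k194 9 (.s k69 k199 8 (.s k207 k138 10 (.d k79 k143 k64 7 2)))))), (.s k10 k5 2 (.s k138 k202 7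
  (.s k14 k13 0 (.s k134 k194 9 (.s k130 k142 1 (.d k195 k73 k65 10 8)))))), (.s k8 k4 1 (.s k10 k5
  2 (.s k138 k202 7 (.s k73 k203 8 (.s k195 k134 10 (.d k75 k135 k72 9 0))))))] .n) (.c k138 (.q k12
  [(.s k8 k4 1 (.s k10 k5 2 (.s k9 k11 0 (.s k6 k3 2 (.d k14 k13 k2 0 1))))), (.s k13 k14 0 (.s k133
  k192 10 (.s k73 k193 9 (.s k195 k134 10 (.d k75 k72 k135 0 9))))), (.s k4 k8 1 (.s k192 k133 10
  (.s k128 k64 7 (.s k132 k72 9 (.s k68 k196 7 (.d k136 k140 k204 1 9))))))] .n) (.c k143 (.l (.s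
  k10 k5 2 (.s k138 k202 7 (.s k69 k207 10 (.s k192 k133 10 (.d k64 k79 k128 2 7)))))) (.c k192 (.q
  k12 [(.s k8 k4 1 (.s k14 k13 0 (.s k10 k5 2 (.s k6 k2 1 (.d k9 k11 k3 0 2))))), (.s k4 k8 1 (.s
  k14 k13 0 (.s k134 k194 9 (.s k69 k199 8 (.s k207 k138 10 (.d k79 k64 k143 2 7)))))), (.s k10 k5 2
  (.s k138 k202 7 (.s k207 k69 10 (.s k14 k13 0 (.s k142 k77 8 (.d k134 k130 k194 1 9)))))), (.s k8
  k4 1 (.s k10 k5 2 (.s k138 k202 7 (.s k73 k203 8 (.s k195 k134 10 (.d k75 k72 k135 0 9))))))] .n)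
  (.c k197 (.l (.s k10 k5 2 (.s k138 k202 7 (.s k69 k207 10 (.s k192 k133 10 (.d k64 k79 k128 2
  7)))))) (.c k202 (.l (.s k5 k10 2 (.s k133 k192 10 (.s k69 k197 7 (.s k207 k138 10 (.d k79 k64
  k143 2 7)))))) (.c k207 (.q k12 [(.s k8 k4 1 (.s k14 k13 0 (.s k10 k5 2 (.s k6 k2 1 (.d k9 k11 k3
  0 2))))), (.s k13 k14 0 (.s k133 k192 10 (.s k73 k193 9 (.s k195 k134 10 (.d k75 k72 k135 0
  9))))), (.s k4 k8 1 (.s k192 k133 10 (.s k128 k64 7 (.s k132 k72 9 (.s k68 k196 7 (.d k136 k140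
  k204 1 9))))))] .n) .n)))))))))))))

def t240 : T TT 256 :=
  (.q k74 [(.s k10 k5 2 (.s k138 k202 7 (.s k207 k69 10 (.s k133 k192 10 (.d k143 k128 k79 2 7))))),
  (.s k10 k5 2 (.s k138 k202 7 (.s k69 k207 10 (.s k192 k133 10 (.d k64 k79 k128 2 7)))))] (.c k5
  (.q k12 [(.s k13 k14 0 (.s k133 k192 10 (.s k73 k193 9 (.s k195 k134 10 (.d k75 k72 k135 0 9))))),
  (.s k4 k8 1 (.s k192 k133 10 (.s k128 k64 7 (.s k132 k72 9 (.s k68 k196 7 (.d k136 k140 k204 1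
  9)))))), (.s k4 k8 1 (.s k14 k13 0 (.s k134 k194 9 (.s k69 k199 8 (.s k207 k138 10 (.d k79 k64
  k143 2 7))))))] .n) (.c k10 (.q k12 [(.s k14 k13 0 (.s k134 k194 9 (.s k73 k195 10 (.s k192 k133
  10 (.d k72 k75 k132 0 9))))), (.s k4 k8 1 (.s k192 k133 10 (.s k128 k64 7 (.s k132 k72 9 (.s k68
  k196 7 (.d k136 k140 k204 1 9)))))), (.s k4 k8 1 (.s k14 k13 0 (.s k134 k194 9 (.s k69 k199 8 (.s
  k207 k138 10 (.d k79 k64 k143 2 7))))))] (.c k170 (.q k250 [(.s k14 k13 0 (.s k134 k194 9 (.s k73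
  k195 10 (.s k192 k133 10 (.d k72 k75 k132 0 9))))), (.s k4 k8 1 (.s k192 k133 10 (.s k128 k64 7
  (.s k132 k72 9 (.s k68 k196 7 (.d k136 k140 k204 1 9)))))), (.s k4 k8 1 (.s k14 k13 0 (.s k134
  k194 9 (.s k69 k199 8 (.s k207 k138 10 (.d k79 k64 k143 2 7))))))] .n) (.c k250 (.q k170 [(.s k14
  k13 0 (.s k134 k194 9 (.s k73 k195 10 (.s k192 k133 10 (.d k72 k75 k132 0 9))))), (.s k8 k4 1 (.s
  k255 k85 14 (.s k89 k251 12 (.s k166 k243 14 (.d k174 k162 k93 1 12)))))] (.c k245 (.l (.s k255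
  k85 14 (.s k8 k4 1 (.s k89 k251 12 (.s k166 k243 14 (.d k174 k162 k93 1 12)))))) (.c k255 (.q k245
  [(.s k14 k13 0 (.s k134 k194 9 (.s k73 k195 10 (.s k192 k133 10 (.d k72 k75 k132 0 9))))), (.s k4
  k8 1 (.s k192 k133 10 (.s k128 k64 7 (.s k132 k72 9 (.s k68 k196 7 (.d k136 k140 k204 1 9)))))),
  (.s k4 k8 1 (.s k14 k13 0 (.s k134 k194 9 (.s k69 k199 8 (.s k207 k138 10 (.d k79 k64 k143 2
  7))))))] .n) .n))) .n))) (.c k69 (.q k12 [(.s k4 k8 1 (.s k5 k10 2 (.s k6 k7 0 (.s k9 k3 2 (.d k13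
  k14 k1 0 1))))), (.s k13 k14 0 (.s k133 k192 10 (.s k73 k193 9 (.s k75 k72 0 (.d k195 k135 k134 9
  10))))), (.s k4 k8 1 (.s k192 k133 10 (.s k128 k64 7 (.s k132 k72 9 (.s k68 k196 7 (.d k136 k140
  k204 1 9))))))] .n) (.c k79 (.q k12 [(.s k8 k4 1 (.s k14 k13 0 (.s k10 k5 2 (.s k6 k2 1 (.d k9 k11
  k3 0 2))))), (.s k13 k14 0 (.s k133 k192 10 (.s k73 k193 9 (.s k195 k134 10 (.d k75 k72 k135 0
  9))))), (.s k4 k8 1 (.s k192 k133 10 (.s k128 k64 7 (.s k132 k72 9 (.s k68 k196 7 (.d k136 k140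
  k204 1 9))))))] (.c k101 (.q k112 [(.s k8 k4 1 (.s k14 k13 0 (.s k10 k5 2 (.s k6 k2 1 (.d k9 k11
  k3 0 2))))), (.s k13 k14 0 (.s k133 k192 10 (.s k73 k193 9 (.s k195 k134 10 (.d k75 k72 k135 0
  9))))), (.s k4 k8 1 (.s k192 k133 10 (.s k128 k64 7 (.s k132 k72 9 (.s k68 k196 7 (.d k136 k140
  k204 1 9))))))] .n) (.c k112 (.q k101 [(.s k8 k4 1 (.s k14 k13 0 (.s k10 k5 2 (.s k6 k2 1 (.d k9
  k11 k3 0 2))))), (.s k13 k14 0 (.s k133 k192 10 (.s k73 k193 9 (.s k195 k134 10 (.d k75 k72 k135 0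
  9))))), (.s k4 k8 1 (.s k192 k133 10 (.s k128 k64 7 (.s k132 k72 9 (.s k68 k196 7 (.d k136 k140
  k204 1 9))))))] (.c k48 (.q k176 [(.s k8 k4 1 (.s k14 k13 0 (.s k10 k5 2 (.s k6 k2 1 (.d k9 k11 k3
  0 2))))), (.s k13 k14 0 (.s k133 k192 10 (.s k73 k193 9 (.s k195 k134 10 (.d k75 k72 k135 0
  9))))), (.s k4 k8 1 (.s k192 k133 10 (.s k128 k64 7 (.s k132 k72 9 (.s k68 k196 7 (.d k136 k140
  k204 1 9))))))] .n) (.c k176 (.q k48 [(.s k10 k5 2 (.s k138 k202 7 (.d k207 k69 k154 10 14))), (.s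
  k4 k8 1 (.s k32 k16 3 (.s k36 k24 5 (.s k20 k52 3 (.d k40 k44 k60 1 5)))))] .n) .n))) .n))) (.c
  k128 (.l (.s k5 k10 2 (.s k133 k192 10 (.s k69 k197 7 (.s k207 k138 10 (.d k79 k64 k143 2 7))))))
  (.c k133 (.q k12 [(.s k4 k8 1 (.s k14 k13 0 (.s k134 k194 9 (.s k69 k199 8 (.s k207 k138 10 (.d
  k79 k143 k64 7 2)))))), (.s k4 k8 1 (.s k5 k10 2 (.s k6 k7 0 (.s k9 k3 2 (.d k13 k14 k1 0 1))))),
  (.s k10 k5 2 (.s k138 k202 7 (.s k14 k13 0 (.s k134 k194 9 (.s k130 k142 1 (.d k195 k73 k65 10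
  8)))))), (.s k8 k4 1 (.s k10 k5 2 (.s k138 k202 7 (.s k73 k203 8 (.s k195 k134 10 (.d k75 k135 k72
  9 0))))))] .n) (.c k138 (.q k12 [(.s k8 k4 1 (.s k14 k13 0 (.s k10 k5 2 (.s k6 k2 1 (.d k9 k11 k3
  0 2))))), (.s k13 k14 0 (.s k133 k192 10 (.s k73 k193 9 (.s k195 k134 10 (.d k75 k72 k135 0
  9))))), (.s k4 k8 1 (.s k192 k133 10 (.s k128 k64 7 (.s k132 k72 9 (.s k68 k196 7 (.d k136 k140
  k204 1 9))))))] .n) (.c k192 (.q k12 [(.s k8 k4 1 (.s k14 k13 0 (.s k10 k5 2 (.s k6 k2 1 (.d k9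
  k11 k3 0 2))))), (.s k4 k8 1 (.s k14 k13 0 (.s k134 k194 9 (.s k69 k199 8 (.s k207 k138 10 (.d k79
  k64 k143 2 7)))))), (.s k10 k5 2 (.s k138 k202 7 (.s k207 k69 10 (.s k14 k13 0 (.s k142 k77 8 (.d
  k134 k130 k194 1 9)))))), (.s k8 k4 1 (.s k10 k5 2 (.s k138 k202 7 (.s k73 k203 8 (.s k195 k134 10
  (.d k75 k72 k135 0 9))))))] (.c k208 (.q k224 [(.s k8 k4 1 (.s k14 k13 0 (.s k10 k5 2 (.s k6 k2 1
  (.d k9 k11 k3 0 2))))), (.s k4 k8 1 (.s k14 k13 0 (.s k134 k194 9 (.s k69 k199 8 (.s k207 k138 10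
  (.d k79 k64 k143 2 7)))))), (.s k10 k5 2 (.s k138 k202 7 (.s k207 k69 10 (.s k14 k13 0 (.s k142
  k77 8 (.d k134 k130 k194 1 9)))))), (.s k8 k4 1 (.s k10 k5 2 (.s k138 k202 7 (.s k73 k203 8 (.s
  k195 k134 10 (.d k75 k72 k135 0 9))))))] (.c k31 (.q k149 [(.s k8 k4 1 (.s k14 k13 0 (.s k10 k5 2
  (.s k6 k2 1 (.d k9 k11 k3 0 2))))), (.s k4 k8 1 (.s k14 k13 0 (.s k134 k194 9 (.s k69 k199 8 (.s
  k207 k138 10 (.d k79 k64 k143 2 7)))))), (.s k10 k5 2 (.s k138 k202 7 (.s k207 k69 10 (.s k14 k13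
  0 (.s k142 k77 8 (.d k134 k130 k194 1 9)))))), (.s k8 k4 1 (.s k10 k5 2 (.s k138 k202 7 (.s k73
  k203 8 (.s k195 k134 10 (.d k75 k72 k135 0 9))))))] .n) (.c k149 (.q k31 [(.s k8 k4 1 (.s k14 k13
  0 (.s k10 k5 2 (.s k6 k2 1 (.d k9 k11 k3 0 2))))), (.s k5 k10 2 (.s k63 k47 3 (.s k21 k42 6 (.s
  k37 k53 3 (.d k26 k16 k48 2 6))))), (.s k13 k14 0 (.s k63 k47 3 (.s k29 k46 4 (.s k45 k61 3 (.d
  k30 k28 k60 0 4)))))] (.c k63 (.q k106 [(.s k8 k4 1 (.s k14 k13 0 (.s k10 k5 2 (.s k6 k2 1 (.d k9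
  k11 k3 0 2))))), (.s k4 k8 1 (.s k14 k13 0 (.s k134 k194 9 (.s k69 k199 8 (.s k207 k138 10 (.d k79
  k64 k143 2 7)))))), (.s k10 k5 2 (.s k138 k202 7 (.s k207 k69 10 (.s k14 k13 0 (.s k142 k77 8 (.d
  k134 k130 k194 1 9)))))), (.s k8 k4 1 (.s k10 k5 2 (.s k138 k202 7 (.s k73 k203 8 (.s k195 k134 10
  (.d k75 k72 k135 0 9))))))] (.c k122 (.q k181 [(.s k8 k4 1 (.s k14 k13 0 (.s k10 k5 2 (.s k6 k2 1
  (.d k9 k11 k3 0 2))))), (.s k4 k8 1 (.s k14 k13 0 (.s k134 k194 9 (.s k69 k199 8 (.s k207 k138 10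
  (.d k79 k64 k143 2 7)))))), (.s k10 k5 2 (.s k138 k202 7 (.s k207 k69 10 (.s k14 k13 0 (.s k142
  k77 8 (.d k134 k130 k194 1 9)))))), (.s k8 k4 1 (.s k10 k5 2 (.s k138 k202 7 (.s k73 k203 8 (.s
  k195 k134 10 (.d k75 k72 k135 0 9))))))] .n) (.c k181 (.q k122 [(.s k8 k4 1 (.s k14 k13 0 (.s k10
  k5 2 (.s k6 k2 1 (.d k9 k11 k3 0 2))))), (.s k4 k8 1 (.s k14 k13 0 (.s k134 k194 9 (.s k69 k199 8
  (.s k207 k138 10 (.d k79 k64 k143 2 7)))))), (.s k10 k5 2 (.s k138 k202 7 (.s k207 k69 10 (.s k14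
  k13 0 (.s k142 k77 8 (.d k134 k130 k194 1 9)))))), (.s k8 k4 1 (.s k10 k5 2 (.s k138 k202 7 (.s
  k73 k203 8 (.s k195 k134 10 (.d k75 k72 k135 0 9))))))] (.c k133 (.l (.s k165 k47 10 (.s k4 k8 1
  (.s k5 k10 2 (.s k6 k7 0 (.s k9 k3 2 (.d k13 k14 k1 0 1))))))) (.c k165 (.q k133 [(.s k10 k5 2 (.s
  k138 k202 7 (.s k207 k69 10 (.d k143 k128 k79 2 7)))), (.s k13 k14 0 (.s k73 k193 9 (.s k195 k134
  10 (.d k75 k72 k135 0 9))))] .n) .n))) .n))) (.c k106 (.l (.s k63 k47 3 (.s k5 k10 2 (.s k21 k42 6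
  (.s k37 k53 3 (.d k26 k16 k48 2 6)))))) .n))) .n))) (.c k224 (.q k208 [(.s k8 k4 1 (.s k14 k13 0
  (.s k10 k5 2 (.s k6 k2 1 (.d k9 k11 k3 0 2))))), (.s k4 k8 1 (.s k14 k13 0 (.s k134 k194 9 (.s k69
  k199 8 (.s k207 k138 10 (.d k79 k64 k143 2 7)))))), (.s k10 k5 2 (.s k138 k202 7 (.s k207 k69 10
  (.s k14 k13 0 (.s k142 k77 8 (.d k134 k130 k194 1 9)))))), (.s k8 k4 1 (.s k10 k5 2 (.s k138 k202
  7 (.s k73 k203 8 (.s k195 k134 10 (.d k75 k72 k135 0 9))))))] .n) .n))) (.c k197 (.l (.s k10 k5 2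
  (.s k138 k202 7 (.s k69 k207 10 (.s k192 k133 10 (.d k64 k79 k128 2 7)))))) (.c k202 (.l (.s k5
  k10 2 (.s k133 k192 10 (.s k69 k197 7 (.s k207 k138 10 (.d k79 k64 k143 2 7)))))) (.c k207 (.q k12
  [(.s k8 k4 1 (.s k14 k13 0 (.s k10 k5 2 (.s k6 k2 1 (.d k9 k11 k3 0 2))))), (.s k13 k14 0 (.s k133
  k192 10 (.s k73 k193 9 (.s k195 k134 10 (.d k75 k72 k135 0 9))))), (.s k4 k8 1 (.s k192 k133 10
  (.s k128 k64 7 (.s k132 k72 9 (.s k68 k196 7 (.d k136 k140 k204 1 9))))))] (.c k218 (.q k229 [(.s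
  k8 k4 1 (.s k14 k13 0 (.s k10 k5 2 (.s k6 k2 1 (.d k9 k11 k3 0 2))))), (.s k13 k14 0 (.s k133 k192
  10 (.s k73 k193 9 (.s k195 k134 10 (.d k75 k72 k135 0 9))))), (.s k4 k8 1 (.s k192 k133 10 (.s
  k128 k64 7 (.s k132 k72 9 (.s k68 k196 7 (.d k136 k140 k204 1 9))))))] (.c k26 (.q k154 [(.s k8 k4
  1 (.s k14 k13 0 (.s k10 k5 2 (.s k6 k2 1 (.d k9 k11 k3 0 2))))), (.s k13 k14 0 (.s k133 k192 10
  (.s k73 k193 9 (.s k195 k134 10 (.d k75 k72 k135 0 9))))), (.s k4 k8 1 (.s k192 k133 10 (.s k128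
  k64 7 (.s k132 k72 9 (.s k68 k196 7 (.d k136 k140 k204 1 9))))))] .n) (.c k154 (.q k26 [(.s k8 k4
  1 (.s k14 k13 0 (.s k10 k5 2 (.s k6 k2 1 (.d k9 k11 k3 0 2))))), (.s k10 k5 2 (.s k42 k58 3 (.s
  k21 k63 6 (.s k48 k37 6 (.d k16 k31 k32 2 3))))), (.s k13 k14 0 (.s k133 k192 10 (.s k73 k193 9
  (.s k195 k134 10 (.d k75 k72 k135 0 9)))))] (.c k48 (.q k101 [(.s k8 k4 1 (.s k14 k13 0 (.s k10 k5
  2 (.s k6 k2 1 (.d k9 k11 k3 0 2))))), (.s k5 k10 2 (.s k133 k192 10 (.s k197 k69 7 (.s k37 k165 7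
  (.d k53 k21 k149 3 11))))), (.s k13 k14 0 (.s k133 k192 10 (.s k73 k193 9 (.s k195 k134 10 (.d k75
  k72 k135 0 9)))))] (.c k112 (.q k176 [(.s k8 k4 1 (.s k14 k13 0 (.s k10 k5 2 (.s k6 k2 1 (.d k9
  k11 k3 0 2))))), (.s k5 k10 2 (.s k133 k192 10 (.s k197 k69 7 (.s k37 k165 7 (.d k53 k21 k149 3
  11))))), (.s k13 k14 0 (.s k133 k192 10 (.s k73 k193 9 (.s k195 k134 10 (.d k75 k72 k135 0 9)))))]
  .n) (.c k176 (.q k112 [(.s k8 k4 1 (.s k14 k13 0 (.s k10 k5 2 (.s k6 k2 1 (.d k9 k11 k3 0 2))))),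
  (.s k5 k10 2 (.s k133 k192 10 (.s k197 k69 7 (.s k165 k37 7 (.d k149 k181 k53 3 11))))), (.s k13
  k14 0 (.s k133 k192 10 (.s k73 k193 9 (.s k195 k134 10 (.d k75 k72 k135 0 9)))))] (.c k143 (.l (.s
  k165 k37 7 (.s k5 k10 2 (.s k85 k245 11 (.s k133 k192 10 (.d k69 k197 k117 7 3)))))) (.c k165 (.q
  k143 [(.s k133 k192 10 (.s k138 k128 2 (.d k10 k202 k5 7 2))), (.s k4 k8 1 (.s k5 k10 2 (.s k6 k7
  0 (.s k9 k3 2 (.d k13 k14 k1 0 1))))), (.s k8 k4 1 (.s k13 k14 0 (.s k133 k192 10 (.s k73 k193 9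
  (.d k138 k128 k203 2 8)))))] .n) .n))) .n))) (.c k101 (.l (.s k48 k37 6 (.s k10 k5 2 (.s k16 k32 3
  (.s k42 k58 3 (.d k21 k31 k63 2 6)))))) .n))) .n))) (.c k229 (.q k218 [(.s k8 k4 1 (.s k14 k13 0
  (.s k10 k5 2 (.s k6 k2 1 (.d k9 k11 k3 0 2))))), (.s k13 k14 0 (.s k133 k192 10 (.s k73 k193 9 (.s
  k195 k134 10 (.d k75 k72 k135 0 9))))), (.s k4 k8 1 (.s k192 k133 10 (.s k128 k64 7 (.s k132 k72 9
  (.s k68 k196 7 (.d k136 k140 k204 1 9))))))] .n) .n))) .n))))))))))))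

def t241 : T TT 256 :=
  (.q k21 [(.s k10 k5 2 (.s k42 k63 6 (.s k26 k58 3 (.s k48 k37 6 (.d k16 k31 k32 2 3)))))] (.c k5
  (.q k12 [(.s k4 k8 1 (.s k42 k63 6 (.s k38 k55 4 (.s k51 k25 6 (.d k34 k46 k17 1 4))))), (.s k63
  k42 6 (.s k14 k13 0 (.s k46 k29 4 (.s k30 k62 3 (.s k45 k60 4 (.d k47 k44 k31 0 3)))))), (.s k4 k8
  1 (.s k38 k55 4 (.s k14 k13 0 (.s k26 k50 5 (.s k16 k31 2 (.d k48 k32 k37 3 6))))))] .n) (.c k10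
  (.q k12 [(.s k8 k4 1 (.s k42 k63 6 (.s k25 k59 4 (.s k51 k38 6 (.d k17 k29 k34 1 4))))), (.s k63
  k42 6 (.s k14 k13 0 (.s k46 k29 4 (.s k30 k62 3 (.s k45 k60 4 (.d k47 k44 k31 0 3)))))), (.s k4 k8
  1 (.s k38 k55 4 (.s k14 k13 0 (.s k26 k50 5 (.s k16 k31 2 (.d k48 k32 k37 3 6))))))] (.c k170 (.q
  k250 [(.s k8 k4 1 (.s k42 k63 6 (.s k25 k59 4 (.s k51 k38 6 (.d k17 k29 k34 1 4))))), (.s k63 k42
  6 (.s k14 k13 0 (.s k46 k29 4 (.s k30 k62 3 (.s k45 k60 4 (.d k47 k44 k31 0 3)))))), (.s k4 k8 1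
  (.s k38 k55 4 (.s k14 k13 0 (.s k26 k50 5 (.s k16 k31 2 (.d k48 k32 k37 3 6))))))] .n) (.c k250
  (.q k170 [(.s k8 k4 1 (.s k42 k63 6 (.s k25 k59 4 (.s k51 k38 6 (.d k17 k29 k34 1 4))))), (.s k63
  k42 6 (.s k85 k255 14 (.s k149 k213 7 (.s k192 k106 14 (.d k128 k191 k64 6 7))))), (.s k4 k8 1 (.s
  k85 k255 14 (.s k166 k247 12 (.s k243 k89 14 (.d k162 k174 k81 1 12)))))] .n) .n))) (.c k16 (.q
  k12 [(.s k4 k8 1 (.s k42 k63 6 (.s k38 k55 4 (.s k51 k25 6 (.d k34 k46 k17 1 4))))), (.s k4 k8 1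
  (.s k5 k10 2 (.s k6 k7 0 (.s k9 k3 2 (.d k13 k14 k1 0 1))))), (.s k5 k10 2 (.s k63 k42 6 (.s k37
  k53 3 (.s k13 k14 0 (.s k29 k46 4 (.d k25 k17 k49 1 5))))))] .n) (.c k26 (.f k10 k5 2 (.q k12 [(.s
  k14 k13 0 (.s k8 k4 1 (.s k6 k2 1 (.d k9 k11 k3 0 2)))), (.s k4 k8 1 (.s k42 k63 6 (.s k38 k55 4
  (.s k51 k25 6 (.d k34 k46 k17 1 4))))), (.s k63 k42 6 (.s k13 k14 0 (.s k29 k46 4 (.s k45 k61 3
  (.s k30 k60 4 (.d k31 k28 k47 0 3))))))] (.c k154 (.q k218 [(.s k14 k13 0 (.s k8 k4 1 (.s k6 k2 1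
  (.d k9 k11 k3 0 2)))), (.s k4 k8 1 (.s k42 k63 6 (.s k38 k55 4 (.s k51 k25 6 (.d k34 k46 k17 1
  4))))), (.s k63 k42 6 (.s k13 k14 0 (.s k29 k46 4 (.s k45 k61 3 (.s k30 k60 4 (.d k31 k28 k47 0
  3))))))] .n) (.c k218 (.q k154 [(.s k14 k13 0 (.s k8 k4 1 (.s k6 k2 1 (.d k9 k11 k3 0 2)))), (.s
  k4 k8 1 (.s k42 k63 6 (.s k38 k55 4 (.s k51 k25 6 (.d k34 k46 k17 1 4))))), (.s k63 k42 6 (.s k13
  k14 0 (.s k29 k46 4 (.s k45 k61 3 (.s k30 k60 4 (.d k31 k28 k47 0 3))))))] .n) .n)))) (.c k31 (.l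
  (.s k5 k10 2 (.s k42 k63 6 (.s k37 k53 3 (.s k48 k26 6 (.d k32 k47 k16 2 3)))))) (.c k32 (.l (.s
  k5 k10 2 (.s k63 k42 6 (.s k37 k53 3 (.s k26 k48 6 (.d k31 k47 k16 3 2)))))) (.c k37 (.q k12 [(.s
  k4 k8 1 (.s k42 k63 6 (.s k38 k55 4 (.s k34 k46 1 (.d k51 k17 k25 4 6))))), (.s k4 k8 1 (.s k5 k10
  2 (.s k6 k7 0 (.s k9 k3 2 (.d k13 k14 k1 0 1))))), (.s k5 k10 2 (.s k63 k42 6 (.s k13 k14 0 (.s
  k29 k46 4 (.s k61 k45 3 (.d k1 k41 k9 5 1))))))] .n) (.c k42 (.q k12 [(.s k8 k4 1 (.s k10 k5 2 (.s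
  k9 k11 0 (.s k6 k3 2 (.d k14 k13 k2 0 1))))), (.s k4 k8 1 (.s k38 k55 4 (.s k14 k13 0 (.s k26 k50
  5 (.s k48 k37 6 (.d k16 k32 k31 3 2)))))), (.s k5 k10 2 (.s k37 k53 3 (.s k13 k14 0 (.s k25 k49 5
  (.s k51 k38 6 (.d k17 k34 k29 4 1)))))), (.s k4 k8 1 (.s k5 k10 2 (.s k38 k55 4 (.s k37 k53 3 (.s
  k36 k39 0 (.d k48 k26 k24 6 5))))))] .n) (.c k48 (.q k12 [(.s k4 k8 1 (.s k42 k63 6 (.s k38 k55 4
  (.s k51 k25 6 (.d k34 k46 k17 1 4))))), (.s k4 k8 1 (.s k5 k10 2 (.s k6 k7 0 (.s k9 k3 2 (.d k13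
  k14 k1 0 1))))), (.s k5 k10 2 (.s k63 k42 6 (.s k37 k53 3 (.s k13 k14 0 (.s k29 k46 4 (.d k25 k17
  k49 1 5))))))] .n) (.c k53 (.l (.s k10 k5 2 (.s k42 k63 6 (.s k26 k58 3 (.s k48 k37 6 (.d k16 k31
  k32 2 3)))))) (.c k58 (.l (.s k5 k10 2 (.s k42 k63 6 (.s k37 k53 3 (.s k48 k26 6 (.d k32 k47 k16 2
  3)))))) (.c k63 (.q k12 [(.s k8 k4 1 (.s k14 k13 0 (.s k10 k5 2 (.s k6 k2 1 (.d k9 k11 k3 0
  2))))), (.s k5 k10 2 (.s k37 k53 3 (.s k13 k14 0 (.s k25 k49 5 (.s k51 k38 6 (.d k17 k29 k34 1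
  4)))))), (.s k4 k8 1 (.s k38 k55 4 (.s k14 k13 0 (.s k26 k50 5 (.s k48 k37 6 (.d k16 k31 k32 2
  3)))))), (.s k4 k8 1 (.s k5 k10 2 (.s k38 k55 4 (.s k37 k53 3 (.s k51 k25 6 (.d k39 k36 k27 0
  5))))))] .n) .n)))))))))))))

def t242 : T TT 256 :=
  (.q k12 [(.s k4 k8 1 (.s k5 k10 2 (.s k6 k7 0 (.s k9 k3 2 (.d k13 k14 k1 0 1))))), (.s k8 k4 1 (.s
  k10 k5 2 (.s k9 k11 0 (.s k6 k3 2 (.d k14 k13 k2 0 1)))))] (.c k3 (.q k21 [(.s k4 k8 1 (.s k42 k63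
  6 (.s k38 k55 4 (.s k51 k25 6 (.d k34 k46 k17 1 4))))), (.s k5 k10 2 (.s k42 k63 6 (.s k37 k53 3
  (.s k48 k26 6 (.d k32 k47 k16 2 3))))), (.s k4 k8 1 (.s k5 k10 2 (.s k38 k55 4 (.s k37 k53 3 (.s
  k14 k13 0 (.d k26 k50 k48 5 6))))))] (.c k14 (.q k166 [(.s k4 k8 1 (.s k42 k63 6 (.s k38 k55 4 (.s
  k51 k25 6 (.d k34 k46 k17 1 4))))), (.s k4 k8 1 (.s k85 k247 12 (.s k170 k255 14 (.s k243 k89 14
  (.d k162 k174 k81 1 12))))), (.s k5 k10 2 (.s k42 k63 6 (.s k37 k53 3 (.s k48 k26 6 (.d k32 k47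
  k16 2 3)))))] .n) (.c k166 (.l (.s k14 k13 0 (.s k4 k8 1 (.s k5 k10 2 (.s k38 k55 4 (.s k37 k53 3
  (.d k26 k50 k48 5 6))))))) .n))) (.c k4 (.q k21 [(.s k5 k10 2 (.s k63 k42 6 (.s k37 k53 3 (.s k26
  k48 6 (.d k31 k16 k47 2 3))))), (.s k63 k42 6 (.s k14 k13 0 (.s k46 k29 4 (.s k30 k62 3 (.s k45
  k60 4 (.d k47 k44 k31 0 3)))))), (.s k5 k10 2 (.s k37 k53 3 (.s k14 k13 0 (.s k26 k48 6 (.s k38
  k50 5 (.s k51 k25 6 (.d k39 k36 k27 0 5)))))))] (.c k14 (.q k166 [(.s k63 k42 6 (.s k31 k47 3 (.s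
  k26 k16 2 (.s k37 k48 6 (.d k5 k10 k53 2 3))))), (.s k63 k42 6 (.s k29 k46 4 (.s k89 k243 14 (.s
  k149 k209 9 (.s k192 k106 14 (.d k132 k183 k72 4 9)))))), (.s k5 k10 2 (.s k243 k89 14 (.s k162
  k81 12 (.s k170 k174 1 (.s k85 k255 14 (.s k165 k245 11 (.d k167 k91 k164 13 0)))))))] .n) (.c k63
  (.l (.s k5 k10 2 (.s k37 k53 3 (.s k48 k26 6 (.s k36 k24 5 (.s k38 k39 0 (.s k25 k51 6 (.d k13 k14
  k49 0 5)))))))) (.c k166 (.l (.s k14 k13 0 (.s k5 k10 2 (.s k42 k63 6 (.s k37 k53 3 (.s k48 k26 6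
  (.d k32 k47 k16 2 3))))))) .n)))) (.c k5 (.q k21 [(.s k4 k8 1 (.s k42 k63 6 (.s k38 k55 4 (.s k51
  k25 6 (.d k34 k46 k17 1 4))))), (.s k63 k42 6 (.s k14 k13 0 (.s k46 k29 4 (.s k30 k62 3 (.s k45
  k60 4 (.d k47 k44 k31 0 3)))))), (.s k4 k8 1 (.s k38 k55 4 (.s k14 k13 0 (.s k26 k50 5 (.s k16 k31
  2 (.d k48 k32 k37 3 6))))))] (.c k14 (.q k166 [(.s k4 k8 1 (.s k42 k63 6 (.s k38 k55 4 (.s k51 k25
  6 (.d k34 k46 k17 1 4))))), (.s k4 k8 1 (.s k85 k247 12 (.s k170 k255 14 (.s k243 k89 14 (.d k162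
  k174 k81 1 12))))), (.s k63 k42 6 (.s k29 k46 4 (.s k89 k243 14 (.s k149 k209 9 (.s k192 k106 14
  (.d k132 k183 k72 4 9))))))] .n) (.c k166 (.l (.s k14 k13 0 (.s k4 k8 1 (.s k42 k63 6 (.s k38 k55
  4 (.s k51 k25 6 (.d k34 k46 k17 1 4))))))) .n))) (.c k6 (.f k14 k13 0 (.q k21 [(.s k4 k8 1 (.s k42
  k63 6 (.s k38 k55 4 (.s k51 k25 6 (.d k34 k46 k17 1 4))))), (.s k5 k10 2 (.s k42 k63 6 (.s k37 k53
  3 (.s k48 k26 6 (.d k32 k47 k16 2 3))))), (.s k4 k8 1 (.s k5 k10 2 (.s k38 k55 4 (.s k37 k53 3 (.d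
  k26 k50 k48 5 6)))))] (.c k37 (.l (.s k4 k8 1 (.s k10 k5 2 (.s k42 k63 6 (.s k38 k55 4 (.d k26 k58
  k50 3 5)))))) .n))) (.c k7 (.l (.s k8 k4 1 (.s k14 k13 0 (.s k10 k5 2 (.s k6 k2 1 (.d k9 k11 k3 0
  2)))))) (.c k8 (.q k21 [(.s k10 k5 2 (.s k42 k63 6 (.s k26 k58 3 (.s k48 k37 6 (.d k16 k31 k32 2
  3))))), (.s k63 k42 6 (.s k14 k13 0 (.s k46 k29 4 (.s k30 k62 3 (.s k45 k60 4 (.d k47 k44 k31 0
  3)))))), (.s k5 k10 2 (.s k37 k53 3 (.s k14 k13 0 (.s k26 k48 6 (.s k38 k50 5 (.s k39 k36 0 (.d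
  k51 k27 k25 5 6)))))))] (.c k14 (.q k166 [(.s k10 k5 2 (.s k42 k63 6 (.s k26 k58 3 (.s k48 k37 6
  (.d k16 k31 k32 2 3))))), (.s k63 k42 6 (.s k29 k46 4 (.s k89 k243 14 (.s k149 k209 9 (.s k192
  k106 14 (.d k132 k183 k72 4 9)))))), (.s k5 k10 2 (.s k243 k89 14 (.s k162 k81 12 (.s k170 k174 1
  (.s k85 k255 14 (.s k165 k245 11 (.d k167 k91 k164 13 0)))))))] .n) (.c k63 (.l (.s k5 k10 2 (.s
  k37 k53 3 (.s k48 k26 6 (.s k36 k24 5 (.s k38 k39 0 (.s k25 k51 6 (.d k13 k14 k49 0 5)))))))) (.c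
  k166 (.l (.s k14 k13 0 (.s k5 k10 2 (.s k42 k63 6 (.s k37 k53 3 (.s k48 k26 6 (.d k32 k47 k16 2
  3))))))) .n)))) (.c k9 (.q k21 [(.s k8 k4 1 (.s k42 k63 6 (.s k25 k59 4 (.s k51 k38 6 (.d k17 k29
  k34 1 4))))), (.s k10 k5 2 (.s k42 k63 6 (.s k26 k58 3 (.s k48 k37 6 (.d k16 k31 k32 2 3))))), (.s
  k4 k8 1 (.s k38 k55 4 (.s k14 k13 0 (.s k26 k50 5 (.s k37 k48 6 (.d k5 k10 k53 2 3))))))] (.c k14
  (.q k166 [(.s k10 k5 2 (.s k42 k63 6 (.s k26 k58 3 (.s k48 k37 6 (.d k16 k31 k32 2 3))))), (.s k4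
  k8 1 (.s k85 k247 12 (.s k170 k255 14 (.s k243 k89 14 (.d k162 k174 k81 1 12)))))] (.c k10 (.l (.s
  k8 k4 1 (.s k42 k63 6 (.s k25 k59 4 (.s k51 k38 6 (.d k17 k29 k34 1 4)))))) .n)) (.c k166 (.l (.s
  k14 k13 0 (.s k4 k8 1 (.s k42 k63 6 (.s k38 k55 4 (.s k51 k25 6 (.d k34 k46 k17 1 4))))))) .n)))
  (.c k10 (.f k14 k13 0 (.q k21 [(.s k8 k4 1 (.s k42 k63 6 (.s k25 k59 4 (.s k51 k38 6 (.d k17 k29
  k34 1 4))))), (.s k63 k42 6 (.s k46 k29 4 (.s k30 k62 3 (.s k45 k60 4 (.d k47 k44 k31 0 3))))),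
  (.s k4 k8 1 (.s k38 k55 4 (.s k26 k50 5 (.s k16 k31 2 (.d k48 k32 k37 3 6)))))] (.c k170 (.q k250
  [(.s k8 k4 1 (.s k42 k63 6 (.s k25 k59 4 (.s k51 k38 6 (.d k17 k29 k34 1 4))))), (.s k63 k42 6 (.s
  k46 k29 4 (.s k30 k62 3 (.s k45 k60 4 (.d k47 k44 k31 0 3))))), (.s k4 k8 1 (.s k38 k55 4 (.s k26
  k50 5 (.s k16 k31 2 (.d k48 k32 k37 3 6)))))] .n) (.c k250 (.q k170 [(.s k8 k4 1 (.s k42 k63 6 (.s
  k25 k59 4 (.s k51 k38 6 (.d k17 k29 k34 1 4))))), (.s k63 k42 6 (.s k85 k255 14 (.s k149 k213 7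
  (.s k192 k106 14 (.d k128 k191 k64 6 7))))), (.s k4 k8 1 (.s k85 k255 14 (.s k166 k247 12 (.s k243
  k89 14 (.d k162 k174 k81 1 12)))))] (.c k246 (.q k254 [(.s k255 k85 14 (.d k174 k94 k93 11 12)),
  (.s k4 k8 1 (.s k42 k63 6 (.s k38 k55 4 (.s k51 k25 6 (.d k34 k46 k17 1 4)))))] .n) (.c k254 (.q
  k246 [(.s k8 k4 1 (.s k42 k63 6 (.s k25 k59 4 (.s k51 k38 6 (.d k17 k29 k34 1 4))))), (.s k63 k42
  6 (.s k85 k255 14 (.s k149 k213 7 (.s k192 k106 14 (.d k128 k191 k64 6 7))))), (.s k4 k8 1 (.s k85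
  k255 14 (.s k166 k247 12 (.s k243 k89 14 (.d k162 k174 k81 1 12)))))] .n) .n))) .n)))) (.c k11 (.f
  k14 k13 0 (.q k21 [(.s k8 k4 1 (.s k42 k63 6 (.s k25 k59 4 (.s k51 k38 6 (.d k17 k29 k34 1 4))))),
  (.s k5 k10 2 (.s k42 k63 6 (.s k37 k53 3 (.s k48 k26 6 (.d k32 k47 k16 2 3))))), (.s k4 k8 1 (.s
  k38 k55 4 (.s k26 k50 5 (.s k37 k48 6 (.d k5 k10 k53 2 3)))))] (.c k8 (.l (.s k10 k5 2 (.s k42 k63
  6 (.s k26 k58 3 (.s k48 k37 6 (.d k16 k31 k32 2 3)))))) (.c k169 (.q k248 [(.s k8 k4 1 (.s k42 k63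
  6 (.s k25 k59 4 (.s k51 k38 6 (.d k17 k29 k34 1 4))))), (.s k5 k10 2 (.s k42 k63 6 (.s k37 k53 3
  (.s k48 k26 6 (.d k32 k47 k16 2 3))))), (.s k4 k8 1 (.s k38 k55 4 (.s k26 k50 5 (.s k37 k48 6 (.d
  k5 k10 k53 2 3)))))] (.c k8 (.l (.s k10 k5 2 (.s k42 k63 6 (.s k26 k58 3 (.s k48 k37 6 (.d k16 k31
  k32 2 3)))))) .n)) (.c k248 (.q k169 [(.s k10 k5 2 (.s k42 k63 6 (.s k26 k58 3 (.s k48 k37 6 (.d
  k16 k31 k32 2 3))))), (.s k8 k4 1 (.s k42 k63 6 (.s k25 k59 4 (.s k51 k38 6 (.d k17 k29 k34 1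
  4))))), (.s k4 k8 1 (.s k38 k55 4 (.s k26 k50 5 (.s k37 k48 6 (.d k5 k10 k53 2 3)))))] .n) .n)))))
  (.c k13 (.q k21 [(.s k4 k8 1 (.s k63 k42 6 (.s k38 k55 4 (.s k25 k51 6 (.d k29 k17 k46 1 4))))),
  (.s k5 k10 2 (.s k42 k63 6 (.s k37 k53 3 (.s k48 k26 6 (.d k32 k47 k16 2 3))))), (.s k4 k8 1 (.s
  k5 k10 2 (.s k38 k55 4 (.s k37 k53 3 (.s k36 k39 0 (.d k48 k24 k26 5 6))))))] (.c k14 (.q k166
  [(.s k4 k8 1 (.s k63 k42 6 (.s k38 k55 4 (.s k25 k51 6 (.d k29 k17 k46 1 4))))), (.s k4 k8 1 (.s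
  k85 k247 12 (.s k170 k255 14 (.s k243 k89 14 (.d k162 k174 k81 1 12))))), (.s k5 k10 2 (.s k42 k63
  6 (.s k37 k53 3 (.s k48 k26 6 (.d k32 k47 k16 2 3)))))] .n) (.c k166 (.q k14 [(.s k10 k5 2 (.s k6
  k2 1 (.s k9 k3 2 (.d k8 k11 k4 0 1)))), (.s k5 k10 2 (.s k42 k63 6 (.s k37 k53 3 (.s k48 k26 6 (.d
  k32 k47 k16 2 3))))), (.s k4 k8 1 (.s k42 k63 6 (.s k38 k55 4 (.s k51 k25 6 (.d k34 k46 k17 1
  4)))))] .n) .n))) (.c k14 (.q k166 [(.s k4 k8 1 (.s k85 k247 12 (.s k170 k255 14 (.s k243 k89 14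
  (.d k162 k174 k81 1 12))))), (.s k4 k8 1 (.s k5 k10 2 (.s k85 k247 12 (.s k165 k245 11 (.s k164
  k167 0 (.s k244 k84 11 (.d k7 k6 k86 0 12))))))), (.s k5 k10 2 (.s k243 k89 14 (.s k162 k81 12 (.s
  k170 k174 1 (.s k85 k255 14 (.s k165 k245 11 (.d k167 k91 k164 13 0)))))))] (.c k85 (.f k10 k5 2
  (.l (.s k8 k4 1 (.s k9 k11 0 (.s k89 k243 14 (.s k169 k249 11 (.s k172 k163 2 (.s k252 k92 11 (.d
  k3 k6 k86 2 14))))))))) (.c k170 (.f k10 k5 2 (.l (.s k8 k4 1 (.s k9 k11 0 (.s k89 k243 14 (.s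
  k169 k249 11 (.s k172 k163 2 (.s k252 k92 11 (.d k3 k6 k86 2 14))))))))) .n))) (.c k166 (.l (.s
  k14 k13 0 (.s k8 k4 1 (.s k10 k5 2 (.s k6 k2 1 (.d k9 k11 k3 0 2)))))) .n)))))))))))))

def t243 : T TT 256 :=
  (.q k74 [(.s k10 k5 2 (.s k138 k202 7 (.s k207 k69 10 (.s k133 k192 10 (.d k143 k128 k79 2 7))))),
  (.s k10 k5 2 (.s k138 k202 7 (.s k69 k207 10 (.s k192 k133 10 (.d k64 k79 k128 2 7)))))] (.c k5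
  (.q k12 [(.s k13 k14 0 (.s k133 k192 10 (.s k73 k193 9 (.s k195 k134 10 (.d k75 k72 k135 0 9))))),
  (.s k4 k8 1 (.s k192 k133 10 (.s k128 k64 7 (.s k132 k72 9 (.s k68 k196 7 (.d k136 k140 k204 1
  9)))))), (.s k4 k8 1 (.s k14 k13 0 (.s k134 k194 9 (.s k69 k199 8 (.s k207 k138 10 (.d k79 k64
  k143 2 7))))))] .n) (.c k10 (.q k12 [(.s k14 k13 0 (.s k134 k194 9 (.s k73 k195 10 (.s k192 k133
  10 (.d k72 k75 k132 0 9))))), (.s k4 k8 1 (.s k192 k133 10 (.s k128 k64 7 (.s k132 k72 9 (.s k68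
  k196 7 (.d k136 k140 k204 1 9)))))), (.s k4 k8 1 (.s k14 k13 0 (.s k134 k194 9 (.s k69 k199 8 (.s
  k207 k138 10 (.d k79 k64 k143 2 7))))))] (.c k170 (.q k250 [(.s k14 k13 0 (.s k134 k194 9 (.s k73
  k195 10 (.s k192 k133 10 (.d k72 k75 k132 0 9))))), (.s k4 k8 1 (.s k192 k133 10 (.s k128 k64 7
  (.s k132 k72 9 (.s k68 k196 7 (.d k136 k140 k204 1 9)))))), (.s k4 k8 1 (.s k14 k13 0 (.s k134
  k194 9 (.s k69 k199 8 (.s k207 k138 10 (.d k79 k64 k143 2 7))))))] .n) (.c k250 (.q k170 [(.s k14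
  k13 0 (.s k134 k194 9 (.s k73 k195 10 (.s k192 k133 10 (.d k72 k75 k132 0 9))))), (.s k4 k8 1 (.s
  k192 k133 10 (.s k128 k64 7 (.s k132 k72 9 (.s k68 k196 7 (.d k136 k140 k204 1 9)))))), (.s k4 k8
  1 (.s k14 k13 0 (.s k134 k194 9 (.s k69 k199 8 (.s k207 k138 10 (.d k79 k64 k143 2 7))))))] .n)
  .n))) (.c k69 (.q k12 [(.s k4 k8 1 (.s k5 k10 2 (.s k6 k7 0 (.s k9 k3 2 (.d k13 k14 k1 0 1))))),
  (.s k13 k14 0 (.s k133 k192 10 (.s k73 k193 9 (.s k75 k72 0 (.d k195 k135 k134 9 10))))), (.s k4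
  k8 1 (.s k192 k133 10 (.s k128 k64 7 (.s k132 k72 9 (.s k68 k196 7 (.d k136 k140 k204 1 9))))))]
  .n) (.c k79 (.q k12 [(.s k8 k4 1 (.s k14 k13 0 (.s k10 k5 2 (.s k6 k2 1 (.d k9 k11 k3 0 2))))),
  (.s k13 k14 0 (.s k133 k192 10 (.s k73 k193 9 (.s k195 k134 10 (.d k75 k72 k135 0 9))))), (.s k4
  k8 1 (.s k192 k133 10 (.s k128 k64 7 (.s k132 k72 9 (.s k68 k196 7 (.d k136 k140 k204 1 9))))))]
  (.c k101 (.q k112 [(.s k8 k4 1 (.s k14 k13 0 (.s k10 k5 2 (.s k6 k2 1 (.d k9 k11 k3 0 2))))), (.s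
  k13 k14 0 (.s k133 k192 10 (.s k73 k193 9 (.s k195 k134 10 (.d k75 k72 k135 0 9))))), (.s k4 k8 1
  (.s k192 k133 10 (.s k128 k64 7 (.s k132 k72 9 (.s k68 k196 7 (.d k136 k140 k204 1 9))))))] .n)
  (.c k112 (.q k101 [(.s k8 k4 1 (.s k14 k13 0 (.s k10 k5 2 (.s k6 k2 1 (.d k9 k11 k3 0 2))))), (.s
  k13 k14 0 (.s k133 k192 10 (.s k73 k193 9 (.s k195 k134 10 (.d k75 k72 k135 0 9))))), (.s k4 k8 1
  (.s k192 k133 10 (.s k128 k64 7 (.s k132 k72 9 (.s k68 k196 7 (.d k136 k140 k204 1 9))))))] .n)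
  .n))) (.c k128 (.l (.s k5 k10 2 (.s k133 k192 10 (.s k69 k197 7 (.s k207 k138 10 (.d k79 k64 k143
  2 7)))))) (.c k133 (.q k12 [(.s k4 k8 1 (.s k14 k13 0 (.s k134 k194 9 (.s k69 k199 8 (.s k207 k138
  10 (.d k79 k143 k64 7 2)))))), (.s k4 k8 1 (.s k5 k10 2 (.s k6 k7 0 (.s k9 k3 2 (.d k13 k14 k1 0
  1))))), (.s k10 k5 2 (.s k138 k202 7 (.s k14 k13 0 (.s k134 k194 9 (.s k130 k142 1 (.d k195 k73
  k65 10 8)))))), (.s k8 k4 1 (.s k10 k5 2 (.s k138 k202 7 (.s k73 k203 8 (.s k195 k134 10 (.d k75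
  k135 k72 9 0))))))] .n) (.c k138 (.q k12 [(.s k8 k4 1 (.s k14 k13 0 (.s k10 k5 2 (.s k6 k2 1 (.d
  k9 k11 k3 0 2))))), (.s k13 k14 0 (.s k133 k192 10 (.s k73 k193 9 (.s k195 k134 10 (.d k75 k72
  k135 0 9))))), (.s k4 k8 1 (.s k192 k133 10 (.s k128 k64 7 (.s k132 k72 9 (.s k68 k196 7 (.d k136
  k140 k204 1 9))))))] .n) (.c k192 (.q k12 [(.s k8 k4 1 (.s k14 k13 0 (.s k10 k5 2 (.s k6 k2 1 (.d
  k9 k11 k3 0 2))))), (.s k4 k8 1 (.s k14 k13 0 (.s k134 k194 9 (.s k69 k199 8 (.s k207 k138 10 (.d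
  k79 k64 k143 2 7)))))), (.s k10 k5 2 (.s k138 k202 7 (.s k207 k69 10 (.s k14 k13 0 (.s k142 k77 8
  (.d k134 k130 k194 1 9)))))), (.s k8 k4 1 (.s k10 k5 2 (.s k138 k202 7 (.s k73 k203 8 (.s k195
  k134 10 (.d k75 k72 k135 0 9))))))] (.c k209 (.q k226 [(.s k8 k4 1 (.s k14 k13 0 (.s k10 k5 2 (.s
  k6 k2 1 (.d k9 k11 k3 0 2))))), (.s k4 k8 1 (.s k14 k13 0 (.s k134 k194 9 (.s k69 k199 8 (.s k207
  k138 10 (.d k79 k64 k143 2 7)))))), (.s k10 k5 2 (.s k138 k202 7 (.s k207 k69 10 (.s k14 k13 0 (.s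
  k142 k77 8 (.d k134 k130 k194 1 9)))))), (.s k8 k4 1 (.s k10 k5 2 (.s k138 k202 7 (.s k73 k203 8
  (.s k195 k134 10 (.d k75 k72 k135 0 9))))))] .n) (.c k226 (.q k209 [(.s k8 k4 1 (.s k14 k13 0 (.s
  k10 k5 2 (.s k6 k2 1 (.d k9 k11 k3 0 2))))), (.s k4 k8 1 (.s k14 k13 0 (.s k134 k194 9 (.s k69
  k199 8 (.s k207 k138 10 (.d k79 k64 k143 2 7)))))), (.s k10 k5 2 (.s k138 k202 7 (.s k207 k69 10
  (.s k14 k13 0 (.s k142 k77 8 (.d k134 k130 k194 1 9)))))), (.s k8 k4 1 (.s k10 k5 2 (.s k138 k202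
  7 (.s k73 k203 8 (.s k195 k134 10 (.d k75 k72 k135 0 9))))))] .n) .n))) (.c k197 (.l (.s k10 k5 2
  (.s k138 k202 7 (.s k69 k207 10 (.s k192 k133 10 (.d k64 k79 k128 2 7)))))) (.c k202 (.l (.s k5
  k10 2 (.s k133 k192 10 (.s k69 k197 7 (.s k207 k138 10 (.d k79 k64 k143 2 7)))))) (.c k207 (.q k12
  [(.s k8 k4 1 (.s k14 k13 0 (.s k10 k5 2 (.s k6 k2 1 (.d k9 k11 k3 0 2))))), (.s k13 k14 0 (.s k133
  k192 10 (.s k73 k193 9 (.s k195 k134 10 (.d k75 k72 k135 0 9))))), (.s k4 k8 1 (.s k192 k133 10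
  (.s k128 k64 7 (.s k132 k72 9 (.s k68 k196 7 (.d k136 k140 k204 1 9))))))] (.c k219 (.q k231 [(.s
  k8 k4 1 (.s k14 k13 0 (.s k10 k5 2 (.s k6 k2 1 (.d k9 k11 k3 0 2))))), (.s k13 k14 0 (.s k133 k192
  10 (.s k73 k193 9 (.s k195 k134 10 (.d k75 k72 k135 0 9))))), (.s k4 k8 1 (.s k192 k133 10 (.s
  k128 k64 7 (.s k132 k72 9 (.s k68 k196 7 (.d k136 k140 k204 1 9))))))] .n) (.c k231 (.q k219 [(.s
  k8 k4 1 (.s k14 k13 0 (.s k10 k5 2 (.s k6 k2 1 (.d k9 k11 k3 0 2))))), (.s k13 k14 0 (.s k133 k192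
  10 (.s k73 k193 9 (.s k195 k134 10 (.d k75 k72 k135 0 9))))), (.s k4 k8 1 (.s k192 k133 10 (.s
  k128 k64 7 (.s k132 k72 9 (.s k68 k196 7 (.d k136 k140 k204 1 9))))))] .n) .n))) .n))))))))))))

def t245 : T TT 256 :=
  (.q k12 [(.s k4 k8 1 (.s k5 k10 2 (.s k6 k7 0 (.s k9 k3 2 (.d k13 k14 k1 0 1))))), (.s k8 k4 1 (.s
  k10 k5 2 (.s k9 k11 0 (.s k6 k3 2 (.d k14 k13 k2 0 1)))))] (.c k3 (.q k74 [(.s k13 k14 0 (.s k133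
  k192 10 (.s k73 k193 9 (.s k195 k134 10 (.d k75 k72 k135 0 9))))), (.s k10 k5 2 (.s k138 k202 7
  (.s k69 k207 10 (.s k192 k133 10 (.d k64 k79 k128 2 7))))), (.s k4 k8 1 (.s k10 k5 2 (.s k138 k202
  7 (.s k14 k13 0 (.s k134 k194 9 (.d k69 k199 k207 8 10))))))] .n) (.c k4 (.q k74 [(.s k13 k14 0
  (.s k133 k192 10 (.s k73 k193 9 (.s k75 k72 0 (.d k195 k135 k134 9 10))))), (.s k5 k10 2 (.s k133
  k192 10 (.s k69 k197 7 (.s k207 k138 10 (.d k79 k64 k143 2 7))))), (.s k10 k5 2 (.s k138 k202 7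
  (.s k14 k13 0 (.s k134 k194 9 (.s k130 k142 1 (.d k195 k65 k73 8 10))))))] .n) (.c k5 (.q k74 [(.s
  k13 k14 0 (.s k133 k192 10 (.s k73 k193 9 (.s k195 k134 10 (.d k75 k72 k135 0 9))))), (.s k4 k8 1
  (.s k192 k133 10 (.s k128 k64 7 (.s k132 k72 9 (.s k68 k196 7 (.d k136 k140 k204 1 9)))))), (.s k4
  k8 1 (.s k14 k13 0 (.s k134 k194 9 (.s k69 k199 8 (.s k207 k138 10 (.d k79 k64 k143 2 7))))))] (.c
  k85 (.q k165 [(.s k13 k14 0 (.s k133 k192 10 (.s k73 k193 9 (.s k195 k134 10 (.d k75 k72 k135 0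
  9))))), (.s k4 k8 1 (.s k192 k133 10 (.s k128 k64 7 (.s k132 k72 9 (.s k68 k196 7 (.d k136 k140
  k204 1 9)))))), (.s k4 k8 1 (.s k14 k13 0 (.s k134 k194 9 (.s k69 k199 8 (.s k207 k138 10 (.d k79
  k64 k143 2 7))))))] (.c k80 (.q k95 [(.s k13 k14 0 (.s k133 k192 10 (.s k73 k193 9 (.s k195 k134
  10 (.d k75 k72 k135 0 9))))), (.s k4 k8 1 (.s k192 k133 10 (.s k128 k64 7 (.s k132 k72 9 (.s k68
  k196 7 (.d k136 k140 k204 1 9)))))), (.s k8 k4 1 (.s k13 k14 0 (.s k89 k241 13 (.s k170 k251 12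
  (.d k175 k160 k255 2 11)))))] .n) (.c k95 (.q k80 [(.s k13 k14 0 (.s k133 k192 10 (.s k73 k193 9
  (.s k195 k134 10 (.d k75 k72 k135 0 9))))), (.s k240 k160 11 (.s k88 k164 13 (.s k84 k92 1 (.s
  k168 k252 13 (.d k8 k4 k248 1 11)))))] .n) .n))) (.c k165 (.q k85 [(.s k13 k14 0 (.s k133 k192 10
  (.s k73 k193 9 (.s k195 k134 10 (.d k75 k72 k135 0 9))))), (.s k4 k8 1 (.s k170 k255 14 (.s k166
  k247 12 (.s k162 k174 1 (.d k243 k81 k89 12 14)))))] (.c k166 (.l (.s k14 k13 0 (.s k134 k194 9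
  (.s k73 k195 10 (.s k192 k133 10 (.d k72 k75 k132 0 9)))))) .n)) .n))) (.c k6 (.q k74 [(.s k14 k13
  0 (.s k134 k194 9 (.s k73 k195 10 (.s k192 k133 10 (.d k72 k75 k132 0 9))))), (.s k10 k5 2 (.s
  k138 k202 7 (.s k69 k207 10 (.s k192 k133 10 (.d k64 k79 k128 2 7))))), (.s k4 k8 1 (.s k10 k5 2
  (.s k138 k202 7 (.s k14 k13 0 (.s k134 k194 9 (.d k69 k199 k207 8 10))))))] .n) (.c k7 (.l (.s k8
  k4 1 (.s k14 k13 0 (.s k10 k5 2 (.s k6 k2 1 (.d k9 k11 k3 0 2)))))) (.c k8 (.q k74 [(.s k13 k14 0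
  (.s k133 k192 10 (.s k73 k193 9 (.s k195 k134 10 (.d k75 k72 k135 0 9))))), (.s k10 k5 2 (.s k138
  k202 7 (.s k69 k207 10 (.s k192 k133 10 (.d k64 k79 k128 2 7))))), (.s k10 k5 2 (.s k138 k202 7
  (.s k14 k13 0 (.s k134 k194 9 (.s k130 k142 1 (.d k195 k65 k73 8 10))))))] .n) (.c k9 (.q k74 [(.s
  k13 k14 0 (.s k133 k192 10 (.s k73 k193 9 (.s k195 k134 10 (.d k75 k72 k135 0 9))))), (.s k5 k10 2
  (.s k133 k192 10 (.s k69 k197 7 (.s k207 k138 10 (.d k79 k64 k143 2 7))))), (.s k4 k8 1 (.s k14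
  k13 0 (.s k134 k194 9 (.s k69 k199 8 (.s k138 k207 10 (.d k10 k5 k202 2 7))))))] .n) (.c k10 (.q
  k74 [(.s k14 k13 0 (.s k134 k194 9 (.s k73 k195 10 (.s k192 k133 10 (.d k72 k75 k132 0 9))))), (.s
  k4 k8 1 (.s k192 k133 10 (.s k128 k64 7 (.s k132 k72 9 (.s k68 k196 7 (.d k136 k140 k204 1
  9)))))), (.s k4 k8 1 (.s k14 k13 0 (.s k134 k194 9 (.s k69 k199 8 (.s k207 k138 10 (.d k79 k64
  k143 2 7))))))] (.c k170 (.q k250 [(.s k14 k13 0 (.s k134 k194 9 (.s k73 k195 10 (.s k192 k133 10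
  (.d k72 k75 k132 0 9))))), (.s k4 k8 1 (.s k192 k133 10 (.s k128 k64 7 (.s k132 k72 9 (.s k68 k196
  7 (.d k136 k140 k204 1 9)))))), (.s k4 k8 1 (.s k14 k13 0 (.s k134 k194 9 (.s k69 k199 8 (.s k207
  k138 10 (.d k79 k64 k143 2 7))))))] .n) (.c k250 (.q k170 [(.s k14 k13 0 (.s k134 k194 9 (.s k73
  k195 10 (.s k192 k133 10 (.d k72 k75 k132 0 9))))), (.s k8 k4 1 (.s k255 k85 14 (.s k89 k251 12
  (.s k166 k243 14 (.d k174 k162 k93 1 12)))))] (.c k240 (.l (.s k255 k85 14 (.s k8 k4 1 (.s k89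
  k251 12 (.s k166 k243 14 (.d k174 k162 k93 1 12)))))) (.c k255 (.q k240 [(.s k8 k4 1 (.s k80 k160
  11 (.s k88 k164 13 (.s k84 k92 1 (.d k168 k248 k252 11 13))))), (.s k13 k14 0 (.s k133 k192 10 (.s
  k73 k193 9 (.s k195 k134 10 (.d k75 k72 k135 0 9)))))] .n) .n))) .n))) (.c k11 (.l (.s k4 k8 1 (.s
  k13 k14 0 (.s k5 k10 2 (.s k9 k1 1 (.d k6 k7 k3 0 2)))))) (.c k13 (.q k74 [(.s k5 k10 2 (.s k133
  k192 10 (.s k69 k197 7 (.s k207 k138 10 (.d k79 k64 k143 2 7))))), (.s k4 k8 1 (.s k192 k133 10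
  (.s k128 k64 7 (.s k132 k72 9 (.s k68 k196 7 (.d k136 k140 k204 1 9)))))), (.s k8 k4 1 (.s k10 k5
  2 (.s k138 k202 7 (.s k73 k203 8 (.s k195 k134 10 (.d k75 k72 k135 0 9))))))] .n) (.c k14 (.q k74
  [(.s k10 k5 2 (.s k138 k202 7 (.s k69 k207 10 (.s k192 k133 10 (.d k64 k79 k128 2 7))))), (.s k4
  k8 1 (.s k192 k133 10 (.s k128 k64 7 (.s k132 k72 9 (.s k68 k196 7 (.d k136 k140 k204 1 9)))))),
  (.s k8 k4 1 (.s k10 k5 2 (.s k138 k202 7 (.s k73 k203 8 (.s k195 k134 10 (.d k75 k72 k135 0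
  9))))))] (.c k166 (.q k242 [(.s k10 k5 2 (.s k138 k202 7 (.s k69 k207 10 (.s k192 k133 10 (.d k64
  k79 k128 2 7))))), (.s k4 k8 1 (.s k192 k133 10 (.s k128 k64 7 (.s k132 k72 9 (.s k68 k196 7 (.d
  k136 k140 k204 1 9)))))), (.s k8 k4 1 (.s k10 k5 2 (.s k138 k202 7 (.s k73 k203 8 (.s k195 k134 10
  (.d k75 k72 k135 0 9))))))] .n) (.c k242 (.q k166 [(.s k10 k5 2 (.s k138 k202 7 (.s k69 k207 10
  (.s k192 k133 10 (.d k64 k79 k128 2 7))))), (.s k4 k8 1 (.s k85 k247 12 (.s k170 k255 14 (.s k243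
  k89 14 (.d k162 k174 k81 1 12)))))] (.c k85 (.l (.s k5 k10 2 (.s k133 k192 10 (.s k69 k197 7 (.s
  k207 k138 10 (.d k79 k64 k143 2 7)))))) .n)) .n))) .n))))))))))))

def t246 : T TT 256 :=
  (.q k74 [(.s k10 k5 2 (.s k138 k202 7 (.s k207 k69 10 (.s k133 k192 10 (.d k143 k128 k79 2 7)))))]
  (.c k5 (.q k12 [(.s k13 k14 0 (.s k133 k192 10 (.s k73 k193 9 (.s k195 k134 10 (.d k75 k72 k135 0
  9))))), (.s k4 k8 1 (.s k192 k133 10 (.s k128 k64 7 (.s k132 k72 9 (.s k68 k196 7 (.d k136 k140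
  k204 1 9)))))), (.s k4 k8 1 (.s k14 k13 0 (.s k134 k194 9 (.s k69 k199 8 (.s k207 k138 10 (.d k79
  k64 k143 2 7))))))] .n) (.c k10 (.q k12 [(.s k14 k13 0 (.s k134 k194 9 (.s k73 k195 10 (.s k192
  k133 10 (.d k72 k75 k132 0 9))))), (.s k4 k8 1 (.s k192 k133 10 (.s k128 k64 7 (.s k132 k72 9 (.s
  k68 k196 7 (.d k136 k140 k204 1 9)))))), (.s k4 k8 1 (.s k14 k13 0 (.s k134 k194 9 (.s k69 k199 8
  (.s k207 k138 10 (.d k79 k64 k143 2 7))))))] (.c k170 (.q k250 [(.s k14 k13 0 (.s k134 k194 9 (.s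
  k73 k195 10 (.s k192 k133 10 (.d k72 k75 k132 0 9))))), (.s k4 k8 1 (.s k192 k133 10 (.s k128 k64
  7 (.s k132 k72 9 (.s k68 k196 7 (.d k136 k140 k204 1 9)))))), (.s k4 k8 1 (.s k14 k13 0 (.s k134
  k194 9 (.s k69 k199 8 (.s k207 k138 10 (.d k79 k64 k143 2 7))))))] .n) (.c k250 (.q k170 [(.s k14
  k13 0 (.s k134 k194 9 (.s k73 k195 10 (.s k192 k133 10 (.d k72 k75 k132 0 9))))), (.s k4 k8 1 (.s
  k85 k255 14 (.s k166 k247 12 (.s k243 k89 14 (.d k162 k174 k81 1 12)))))] (.c k242 (.q k254 [(.s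
  k255 k85 14 (.s k14 k13 0 (.d k174 k94 k93 11 12))), (.s k4 k8 1 (.s k85 k255 14 (.s k166 k247 12
  (.s k243 k89 14 (.d k162 k174 k81 1 12))))), (.s k8 k4 1 (.s k89 k251 12 (.s k14 k13 0 (.s k174
  k94 11 (.d k166 k162 k243 1 14)))))] (.c k14 (.q k166 [(.s k8 k4 1 (.d k89 k251 k243 12 14)), (.s
  k255 k85 14 (.d k174 k162 k93 1 12))] (.c k2 (.q k6 [(.s k162 k174 1 (.d k243 k81 k89 12 14)), (.s
  k4 k8 1 (.d k85 k247 k255 12 14))] (.c k82 (.l (.s k162 k174 1 (.d k243 k81 k89 12 14))) (.c k162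
  (.q k82 [(.s k8 k4 1 (.d k89 k251 k243 12 14)), (.s k192 k133 10 (.s k128 k64 7 (.s k132 k72 9 (.d
  k149 k183 k191 4 6))))] .n) .n))) (.c k6 (.l (.s k2 k86 13 (.s k4 k8 1 (.d k85 k247 k255 12 14))))
  .n))) (.c k166 (.l (.s k14 k13 0 (.s k255 k85 14 (.d k174 k94 k93 11 12)))) (.c k174 (.l (.s k8 k4
  1 (.s k85 k255 14 (.s k89 k251 12 (.s k81 k93 1 (.d k243 k162 k166 12 14)))))) .n)))) (.c k254 (.q
  k242 [(.s k13 k14 0 (.s k133 k192 10 (.s k73 k193 9 (.s k195 k134 10 (.d k75 k72 k135 0 9))))),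
  (.s k4 k8 1 (.s k85 k255 14 (.s k166 k247 12 (.s k243 k89 14 (.d k162 k174 k81 1 12)))))] (.c k174
  (.l (.s k8 k4 1 (.s k85 k255 14 (.s k89 k251 12 (.s k243 k166 14 (.d k81 k93 k162 1 12)))))) .n))
  .n))) .n))) (.c k69 (.q k12 [(.s k4 k8 1 (.s k5 k10 2 (.s k6 k7 0 (.s k9 k3 2 (.d k13 k14 k1 0
  1))))), (.s k13 k14 0 (.s k133 k192 10 (.s k73 k193 9 (.s k75 k72 0 (.d k195 k135 k134 9 10))))),
  (.s k4 k8 1 (.s k192 k133 10 (.s k128 k64 7 (.s k132 k72 9 (.s k68 k196 7 (.d k136 k140 k204 1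
  9))))))] .n) (.c k79 (.q k12 [(.s k8 k4 1 (.s k14 k13 0 (.s k10 k5 2 (.s k6 k2 1 (.d k9 k11 k3 0
  2))))), (.s k13 k14 0 (.s k133 k192 10 (.s k73 k193 9 (.s k195 k134 10 (.d k75 k72 k135 0 9))))),
  (.s k4 k8 1 (.s k192 k133 10 (.s k128 k64 7 (.s k132 k72 9 (.s k68 k196 7 (.d k136 k140 k204 1
  9))))))] (.c k101 (.q k112 [(.s k8 k4 1 (.s k14 k13 0 (.s k10 k5 2 (.s k6 k2 1 (.d k9 k11 k3 0
  2))))), (.s k13 k14 0 (.s k133 k192 10 (.s k73 k193 9 (.s k195 k134 10 (.d k75 k72 k135 0 9))))),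
  (.s k4 k8 1 (.s k192 k133 10 (.s k128 k64 7 (.s k132 k72 9 (.s k68 k196 7 (.d k136 k140 k204 1
  9))))))] .n) (.c k112 (.q k101 [(.s k8 k4 1 (.s k14 k13 0 (.s k10 k5 2 (.s k6 k2 1 (.d k9 k11 k3 0
  2))))), (.s k13 k14 0 (.s k133 k192 10 (.s k73 k193 9 (.s k195 k134 10 (.d k75 k72 k135 0 9))))),
  (.s k4 k8 1 (.s k192 k133 10 (.s k128 k64 7 (.s k132 k72 9 (.s k68 k196 7 (.d k136 k140 k204 1
  9))))))] .n) .n))) (.c k128 (.l (.s k5 k10 2 (.s k133 k192 10 (.s k69 k197 7 (.s k207 k138 10 (.d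
  k79 k64 k143 2 7)))))) (.c k133 (.q k12 [(.s k4 k8 1 (.s k5 k10 2 (.s k6 k7 0 (.s k9 k3 2 (.d k13
  k14 k1 0 1))))), (.s k4 k8 1 (.s k14 k13 0 (.s k134 k194 9 (.s k69 k199 8 (.s k207 k138 10 (.d k79
  k143 k64 7 2)))))), (.s k10 k5 2 (.s k138 k202 7 (.s k14 k13 0 (.s k134 k194 9 (.s k130 k142 1 (.d
  k195 k73 k65 10 8)))))), (.s k8 k4 1 (.s k10 k5 2 (.s k138 k202 7 (.s k73 k203 8 (.s k195 k134 10
  (.d k75 k135 k72 9 0))))))] .n) (.c k138 (.q k12 [(.s k8 k4 1 (.s k10 k5 2 (.s k9 k11 0 (.s k6 k3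
  2 (.d k14 k13 k2 0 1))))), (.s k13 k14 0 (.s k133 k192 10 (.s k73 k193 9 (.s k195 k134 10 (.d k75
  k72 k135 0 9))))), (.s k4 k8 1 (.s k192 k133 10 (.s k128 k64 7 (.s k132 k72 9 (.s k68 k196 7 (.d
  k136 k140 k204 1 9))))))] .n) (.c k143 (.l (.s k10 k5 2 (.s k138 k202 7 (.s k69 k207 10 (.s k192
  k133 10 (.d k64 k79 k128 2 7)))))) (.c k192 (.q k12 [(.s k8 k4 1 (.s k14 k13 0 (.s k10 k5 2 (.s k6
  k2 1 (.d k9 k11 k3 0 2))))), (.s k4 k8 1 (.s k14 k13 0 (.s k134 k194 9 (.s k69 k199 8 (.s k207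
  k138 10 (.d k79 k64 k143 2 7)))))), (.s k10 k5 2 (.s k138 k202 7 (.s k207 k69 10 (.s k14 k13 0 (.s
  k142 k77 8 (.d k134 k130 k194 1 9)))))), (.s k8 k4 1 (.s k10 k5 2 (.s k138 k202 7 (.s k73 k203 8
  (.s k195 k134 10 (.d k75 k72 k135 0 9))))))] .n) (.c k197 (.l (.s k10 k5 2 (.s k138 k202 7 (.s k69
  k207 10 (.s k192 k133 10 (.d k64 k79 k128 2 7)))))) (.c k202 (.l (.s k5 k10 2 (.s k133 k192 10 (.s
  k69 k197 7 (.s k207 k138 10 (.d k79 k64 k143 2 7)))))) (.c k207 (.q k12 [(.s k8 k4 1 (.s k14 k13 0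
  (.s k10 k5 2 (.s k6 k2 1 (.d k9 k11 k3 0 2))))), (.s k13 k14 0 (.s k133 k192 10 (.s k73 k193 9 (.s
  k195 k134 10 (.d k75 k72 k135 0 9))))), (.s k4 k8 1 (.s k192 k133 10 (.s k128 k64 7 (.s k132 k72 9
  (.s k68 k196 7 (.d k136 k140 k204 1 9))))))] .n) .n)))))))))))))

def t247 : T TT 256 :=
  (.q k21 [(.s k10 k5 2 (.s k42 k63 6 (.s k26 k58 3 (.s k48 k37 6 (.d k16 k31 k32 2 3)))))] (.c k5
  (.q k12 [(.s k4 k8 1 (.s k63 k42 6 (.s k29 k46 4 (.s k25 k17 1 (.d k38 k55 k51 4 6))))), (.s k4 k8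
  1 (.s k38 k55 4 (.s k14 k13 0 (.s k26 k50 5 (.s k16 k31 2 (.d k48 k32 k37 3 6)))))), (.s k63 k42 6
  (.s k14 k13 0 (.s k46 k29 4 (.s k30 k62 3 (.s k45 k60 4 (.d k47 k44 k31 0 3))))))] .n) (.c k10 (.q
  k12 [(.s k8 k4 1 (.s k42 k63 6 (.s k25 k59 4 (.s k51 k38 6 (.d k17 k29 k34 1 4))))), (.s k63 k42 6
  (.s k14 k13 0 (.s k46 k29 4 (.s k30 k62 3 (.s k45 k60 4 (.d k47 k44 k31 0 3)))))), (.s k4 k8 1 (.s
  k38 k55 4 (.s k14 k13 0 (.s k26 k50 5 (.s k16 k31 2 (.d k48 k32 k37 3 6))))))] (.c k170 (.q k250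
  [(.s k8 k4 1 (.s k42 k63 6 (.s k25 k59 4 (.s k51 k38 6 (.d k17 k29 k34 1 4))))), (.s k63 k42 6 (.s
  k14 k13 0 (.s k46 k29 4 (.s k30 k62 3 (.s k45 k60 4 (.d k47 k44 k31 0 3)))))), (.s k4 k8 1 (.s k38
  k55 4 (.s k14 k13 0 (.s k26 k50 5 (.s k16 k31 2 (.d k48 k32 k37 3 6))))))] .n) (.c k250 (.q k170
  [(.s k8 k4 1 (.s k42 k63 6 (.s k25 k59 4 (.s k51 k38 6 (.d k17 k29 k34 1 4))))), (.s k63 k42 6 (.s
  k85 k255 14 (.s k149 k213 7 (.s k192 k106 14 (.d k128 k191 k64 6 7))))), (.s k8 k4 1 (.s k85 k255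
  14 (.s k89 k251 12 (.s k243 k166 14 (.d k81 k93 k162 1 12)))))] (.c k85 (.l (.s k4 k8 1 (.s k42
  k63 6 (.s k38 k55 4 (.s k51 k25 6 (.d k34 k46 k17 1 4)))))) .n)) .n))) (.c k16 (.q k12 [(.s k4 k8
  1 (.s k42 k63 6 (.s k38 k55 4 (.s k51 k25 6 (.d k34 k46 k17 1 4))))), (.s k4 k8 1 (.s k5 k10 2 (.s
  k6 k7 0 (.s k9 k3 2 (.d k13 k14 k1 0 1))))), (.s k5 k10 2 (.s k63 k42 6 (.s k37 k53 3 (.s k13 k14
  0 (.s k29 k46 4 (.d k25 k17 k49 1 5))))))] .n) (.c k26 (.f k10 k5 2 (.q k12 [(.s k14 k13 0 (.s k6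
  k2 1 (.s k9 k3 2 (.d k8 k11 k4 0 1)))), (.s k4 k8 1 (.s k42 k63 6 (.s k38 k55 4 (.s k51 k25 6 (.d
  k34 k46 k17 1 4))))), (.s k63 k42 6 (.s k13 k14 0 (.s k29 k46 4 (.s k45 k61 3 (.s k30 k60 4 (.d
  k31 k28 k47 0 3))))))] (.c k154 (.q k218 [(.s k14 k13 0 (.s k6 k2 1 (.s k9 k3 2 (.d k8 k11 k4 0
  1)))), (.s k4 k8 1 (.s k42 k63 6 (.s k38 k55 4 (.s k51 k25 6 (.d k34 k46 k17 1 4))))), (.s k63 k42
  6 (.s k13 k14 0 (.s k29 k46 4 (.s k45 k61 3 (.s k30 k60 4 (.d k31 k28 k47 0 3))))))] .n) (.c k218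
  (.q k154 [(.s k14 k13 0 (.s k6 k2 1 (.s k9 k3 2 (.d k8 k11 k4 0 1)))), (.s k4 k8 1 (.s k42 k63 6
  (.s k38 k55 4 (.s k51 k25 6 (.d k34 k46 k17 1 4))))), (.s k63 k42 6 (.s k13 k14 0 (.s k29 k46 4
  (.s k45 k61 3 (.s k30 k60 4 (.d k31 k28 k47 0 3))))))] .n) .n)))) (.c k31 (.l (.s k5 k10 2 (.s k42
  k63 6 (.s k37 k53 3 (.s k48 k26 6 (.d k32 k47 k16 2 3)))))) (.c k32 (.l (.s k5 k10 2 (.s k63 k42 6
  (.s k37 k53 3 (.s k26 k48 6 (.d k31 k47 k16 3 2)))))) (.c k37 (.q k12 [(.s k4 k8 1 (.s k42 k63 6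
  (.s k38 k55 4 (.s k34 k46 1 (.d k51 k17 k25 4 6))))), (.s k4 k8 1 (.s k5 k10 2 (.s k6 k7 0 (.s k9
  k3 2 (.d k13 k14 k1 0 1))))), (.s k5 k10 2 (.s k63 k42 6 (.s k13 k14 0 (.s k29 k46 4 (.s k61 k45 3
  (.d k1 k41 k9 5 1))))))] .n) (.c k42 (.q k12 [(.s k8 k4 1 (.s k10 k5 2 (.s k9 k11 0 (.s k6 k3 2
  (.d k14 k13 k2 0 1))))), (.s k4 k8 1 (.s k38 k55 4 (.s k14 k13 0 (.s k26 k50 5 (.s k48 k37 6 (.d
  k16 k32 k31 3 2)))))), (.s k5 k10 2 (.s k37 k53 3 (.s k13 k14 0 (.s k25 k49 5 (.s k51 k38 6 (.d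
  k17 k34 k29 4 1)))))), (.s k4 k8 1 (.s k5 k10 2 (.s k38 k55 4 (.s k37 k53 3 (.s k36 k39 0 (.d k48
  k26 k24 6 5))))))] .n) (.c k48 (.q k12 [(.s k4 k8 1 (.s k42 k63 6 (.s k38 k55 4 (.s k51 k25 6 (.d
  k34 k46 k17 1 4))))), (.s k4 k8 1 (.s k5 k10 2 (.s k6 k7 0 (.s k9 k3 2 (.d k13 k14 k1 0 1))))),
  (.s k5 k10 2 (.s k63 k42 6 (.s k37 k53 3 (.s k13 k14 0 (.s k29 k46 4 (.d k25 k17 k49 1 5))))))]
  .n) (.c k53 (.l (.s k10 k5 2 (.s k42 k63 6 (.s k26 k58 3 (.s k48 k37 6 (.d k16 k31 k32 2 3))))))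
  (.c k58 (.l (.s k5 k10 2 (.s k42 k63 6 (.s k37 k53 3 (.s k48 k26 6 (.d k32 k47 k16 2 3)))))) (.c
  k63 (.q k12 [(.s k8 k4 1 (.s k14 k13 0 (.s k10 k5 2 (.s k6 k2 1 (.d k9 k11 k3 0 2))))), (.s k4 k8
  1 (.s k38 k55 4 (.s k14 k13 0 (.s k26 k50 5 (.s k48 k37 6 (.d k16 k31 k32 2 3)))))), (.s k5 k10 2
  (.s k37 k53 3 (.s k13 k14 0 (.s k25 k49 5 (.s k51 k38 6 (.d k17 k29 k34 1 4)))))), (.s k4 k8 1 (.s
  k5 k10 2 (.s k38 k55 4 (.s k37 k53 3 (.s k51 k25 6 (.d k39 k36 k27 0 5))))))] .n) .n)))))))))))))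

def t250 : T TT 256 :=
  (.f k10 k5 2 (.q k74 [(.s k138 k202 7 (.s k69 k207 10 (.s k192 k133 10 (.d k64 k79 k128 2 7)))),
  (.s k192 k133 10 (.s k64 k128 7 (.s k69 k79 2 (.d k138 k202 k207 7 10))))] (.c k64 (.l (.s k138
  k202 7 (.s k207 k69 10 (.s k133 k192 10 (.d k143 k128 k79 2 7))))) (.c k69 (.q k12 [(.s k14 k13 0
  (.s k6 k2 1 (.s k9 k3 2 (.d k8 k11 k4 0 1)))), (.s k138 k202 7 (.s k14 k13 0 (.s k134 k194 9 (.s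
  k195 k73 10 (.d k130 k65 k142 8 1))))), (.s k8 k4 1 (.s k138 k202 7 (.s k73 k203 8 (.s k72 k75 0
  (.d k192 k133 k132 10 9)))))] (.c k133 (.q k197 [(.s k14 k13 0 (.s k6 k2 1 (.s k9 k3 2 (.d k8 k11
  k4 0 1)))), (.s k8 k4 1 (.s k138 k202 7 (.s k73 k203 8 (.s k75 k72 0 (.d k195 k134 k135 10 9))))),
  (.s k138 k202 7 (.s k14 k13 0 (.s k134 k194 9 (.s k130 k142 1 (.d k195 k73 k65 10 8)))))] (.c k73
  (.l (.s k8 k4 1 (.s k9 k11 0 (.s k6 k3 2 (.d k14 k13 k2 0 1))))) .n)) (.c k197 (.l (.s k133 k192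
  10 (.s k8 k4 1 (.s k9 k11 0 (.s k6 k3 2 (.d k14 k13 k2 0 1)))))) .n))) (.c k79 (.q k12 [(.s k14
  k13 0 (.s k8 k4 1 (.s k6 k2 1 (.d k9 k11 k3 0 2)))), (.s k4 k8 1 (.s k138 k202 7 (.s k69 k207 10
  (.s k134 k199 8 (.d k14 k13 k194 0 9))))), (.s k138 k202 7 (.s k207 k69 10 (.s k14 k13 0 (.s k142
  k77 8 (.d k134 k130 k194 1 9))))), (.s k8 k4 1 (.s k138 k202 7 (.s k73 k203 8 (.s k195 k134 10 (.d
  k75 k72 k135 0 9)))))] (.c k101 (.q k112 [(.s k14 k13 0 (.s k8 k4 1 (.s k6 k2 1 (.d k9 k11 k3 0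
  2)))), (.s k4 k8 1 (.s k138 k202 7 (.s k69 k207 10 (.s k134 k199 8 (.d k14 k13 k194 0 9))))), (.s
  k138 k202 7 (.s k207 k69 10 (.s k14 k13 0 (.s k142 k77 8 (.d k134 k130 k194 1 9))))), (.s k8 k4 1
  (.s k138 k202 7 (.s k73 k203 8 (.s k195 k134 10 (.d k75 k72 k135 0 9)))))] .n) (.c k112 (.q k101
  [(.s k14 k13 0 (.s k8 k4 1 (.s k6 k2 1 (.d k9 k11 k3 0 2)))), (.s k4 k8 1 (.s k138 k202 7 (.s k69
  k207 10 (.s k134 k199 8 (.d k14 k13 k194 0 9))))), (.s k138 k202 7 (.s k207 k69 10 (.s k14 k13 0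
  (.s k142 k77 8 (.d k134 k130 k194 1 9))))), (.s k8 k4 1 (.s k138 k202 7 (.s k73 k203 8 (.s k195
  k134 10 (.d k75 k72 k135 0 9)))))] .n) .n))) (.c k128 (.q k12 [(.s k14 k13 0 (.s k8 k4 1 (.s k6 k2
  1 (.d k9 k11 k3 0 2)))), (.s k4 k8 1 (.s k138 k202 7 (.s k69 k207 10 (.s k134 k199 8 (.d k14 k13
  k194 0 9))))), (.s k138 k202 7 (.s k207 k69 10 (.s k14 k13 0 (.s k142 k77 8 (.d k134 k130 k194 1
  9))))), (.s k8 k4 1 (.s k138 k202 7 (.s k73 k203 8 (.s k195 k134 10 (.d k75 k72 k135 0 9)))))] .n)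
  (.c k133 (.q k12 [(.s k8 k4 1 (.s k9 k11 0 (.s k6 k3 2 (.d k14 k13 k2 0 1)))), (.s k138 k202 7 (.s
  k14 k13 0 (.s k134 k194 9 (.s k130 k142 1 (.d k195 k73 k65 10 8))))), (.s k8 k4 1 (.s k138 k202 7
  (.s k73 k203 8 (.s k195 k134 10 (.d k75 k135 k72 9 0)))))] (.c k69 (.q k197 [(.s k14 k13 0 (.s k6
  k2 1 (.s k9 k3 2 (.d k8 k11 k4 0 1)))), (.s k8 k4 1 (.s k138 k202 7 (.s k73 k203 8 (.s k75 k72 0
  (.d k195 k134 k135 10 9))))), (.s k138 k202 7 (.s k14 k13 0 (.s k134 k194 9 (.s k130 k142 1 (.d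
  k195 k73 k65 10 8)))))] (.c k73 (.l (.s k8 k4 1 (.s k9 k11 0 (.s k6 k3 2 (.d k14 k13 k2 0 1)))))
  .n)) (.c k197 (.q k69 [(.d k138 k202 k207 7 10), (.s k4 k8 1 (.s k134 k199 8 (.d k14 k13 k194 0
  9)))] .n) .n))) (.c k138 (.q k12 [(.s k8 k4 1 (.s k9 k11 0 (.s k6 k3 2 (.d k14 k13 k2 0 1)))), (.s
  k13 k14 0 (.s k133 k192 10 (.s k73 k193 9 (.s k195 k134 10 (.d k75 k72 k135 0 9))))), (.s k8 k4 1
  (.s k192 k133 10 (.s k72 k132 9 (.s k200 k136 7 (.d k11 k137 k9 8 0)))))] .n) (.c k192 (.q k12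
  [(.s k14 k13 0 (.s k8 k4 1 (.s k6 k2 1 (.d k9 k11 k3 0 2)))), (.s k138 k202 7 (.s k207 k69 10 (.s
  k14 k13 0 (.s k142 k77 8 (.d k134 k130 k194 1 9))))), (.s k8 k4 1 (.s k138 k202 7 (.s k73 k203 8
  (.s k195 k134 10 (.d k75 k72 k135 0 9)))))] .n) (.c k197 (.l (.s k138 k202 7 (.s k69 k207 10 (.s
  k192 k133 10 (.d k64 k79 k128 2 7))))) (.c k202 (.q k12 [(.s k14 k13 0 (.s k8 k4 1 (.s k6 k2 1 (.d
  k9 k11 k3 0 2)))), (.s k13 k14 0 (.s k133 k192 10 (.s k73 k193 9 (.s k195 k134 10 (.d k75 k72 k135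
  0 9))))), (.s k8 k4 1 (.s k192 k133 10 (.s k72 k132 9 (.s k200 k136 7 (.d k11 k9 k137 0 8)))))]
  (.c k218 (.q k234 [(.s k14 k13 0 (.s k8 k4 1 (.s k6 k2 1 (.d k9 k11 k3 0 2)))), (.s k13 k14 0 (.s
  k133 k192 10 (.s k73 k193 9 (.s k195 k134 10 (.d k75 k72 k135 0 9))))), (.s k8 k4 1 (.s k192 k133
  10 (.s k72 k132 9 (.s k200 k136 7 (.d k11 k9 k137 0 8)))))] (.c k26 (.q k154 [(.s k14 k13 0 (.s k8
  k4 1 (.s k6 k2 1 (.d k9 k11 k3 0 2)))), (.s k13 k14 0 (.s k133 k192 10 (.s k73 k193 9 (.s k195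
  k134 10 (.d k75 k72 k135 0 9))))), (.s k8 k4 1 (.s k192 k133 10 (.s k72 k132 9 (.s k200 k136 7 (.d
  k11 k9 k137 0 8)))))] .n) (.c k154 (.q k26 [(.s k8 k4 1 (.s k14 k13 0 (.s k6 k2 1 (.d k9 k11 k3 0
  2)))), (.s k42 k58 3 (.s k106 k170 7 (.s k63 k21 6 (.d k192 k133 k149 10 14))))] (.c k58 (.q k106
  [(.s k192 k133 10 (.s k170 k42 7 (.d k255 k213 k85 6 14))), (.s k8 k4 1 (.s k9 k11 0 (.s k6 k3 2
  (.d k14 k13 k2 0 1))))] (.c k122 (.q k186 [(.s k192 k133 10 (.s k170 k42 7 (.d k255 k213 k85 6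
  14))), (.s k48 k37 6 (.s k170 k42 7 (.d k255 k117 k85 10 14))), (.s k48 k37 6 (.s k192 k133 10 (.d
  k255 k213 k117 6 10)))] (.c k255 (.l (.s k192 k133 10 (.s k42 k170 7 (.d k63 k21 k149 6 14))))
  .n)) (.c k186 (.q k122 [(.s k192 k133 10 (.s k170 k42 7 (.d k255 k213 k85 6 14))), (.s k8 k4 1 (.s
  k9 k11 0 (.s k6 k3 2 (.d k14 k13 k2 0 1))))] (.c k138 (.l (.s k170 k42 7 (.s k255 k85 14 (.d k192
  k213 k133 6 10)))) (.c k170 (.q k138 [(.s k207 k69 10 (.s k133 k192 10 (.d k143 k128 k79 2 7))),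
  (.s k8 k4 1 (.s k9 k11 0 (.s k6 k3 2 (.d k14 k13 k2 0 1))))] .n) .n))) .n))) (.c k106 (.l (.s k58
  k42 3 (.s k8 k4 1 (.s k9 k11 0 (.s k6 k3 2 (.d k14 k13 k2 0 1)))))) .n))) .n))) (.c k234 (.q k218
  [(.s k14 k13 0 (.s k8 k4 1 (.s k6 k2 1 (.d k9 k11 k3 0 2)))), (.s k13 k14 0 (.s k133 k192 10 (.s
  k73 k193 9 (.s k195 k134 10 (.d k75 k72 k135 0 9))))), (.s k8 k4 1 (.s k192 k133 10 (.s k72 k132 9
  (.s k200 k136 7 (.d k11 k9 k137 0 8)))))] .n) .n))) (.c k207 (.q k12 [(.s k14 k13 0 (.s k8 k4 1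
  (.s k6 k2 1 (.d k9 k11 k3 0 2)))), (.s k138 k202 7 (.s k14 k13 0 (.s k134 k194 9 (.s k195 k73 10
  (.d k130 k142 k65 1 8))))), (.s k8 k4 1 (.s k138 k202 7 (.s k73 k203 8 (.s k195 k134 10 (.d k75
  k72 k135 0 9)))))] .n) .n))))))))))))

def t251 : T TT 256 :=
  (.f k10 k5 2 (.q k26 [(.s k42 k58 3 (.s k21 k63 6 (.s k48 k37 6 (.d k16 k31 k32 2 3))))] (.c k16
  (.l (.s k42 k58 3 (.s k63 k21 6 (.s k37 k48 6 (.d k47 k32 k31 2 3))))) (.c k21 (.q k12 [(.s k14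
  k13 0 (.s k6 k2 1 (.s k9 k3 2 (.d k8 k11 k4 0 1)))), (.s k42 k58 3 (.s k14 k13 0 (.s k38 k50 5 (.s
  k51 k25 6 (.d k34 k17 k46 4 1))))), (.s k8 k4 1 (.s k42 k58 3 (.s k25 k59 4 (.s k24 k27 0 (.d k48
  k37 k36 6 5)))))] (.c k37 (.q k53 [(.s k14 k13 0 (.s k6 k2 1 (.s k9 k3 2 (.d k8 k11 k4 0 1)))),
  (.s k8 k4 1 (.s k42 k58 3 (.s k25 k59 4 (.s k27 k24 0 (.d k51 k38 k39 6 5))))), (.s k42 k58 3 (.s
  k14 k13 0 (.s k38 k50 5 (.s k34 k46 1 (.d k51 k25 k17 6 4)))))] (.c k25 (.l (.s k8 k4 1 (.s k9 k11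
  0 (.s k6 k3 2 (.d k14 k13 k2 0 1))))) .n)) (.c k53 (.l (.s k37 k48 6 (.s k8 k4 1 (.s k9 k11 0 (.s
  k6 k3 2 (.d k14 k13 k2 0 1)))))) .n))) (.c k31 (.f k58 k42 3 (.q k12 [(.s k14 k13 0 (.s k8 k4 1
  (.s k6 k2 1 (.d k9 k11 k3 0 2)))), (.s k13 k14 0 (.s k37 k48 6 (.s k25 k49 5 (.s k51 k38 6 (.d k27
  k24 k39 0 5))))), (.s k8 k4 1 (.s k48 k37 6 (.s k24 k36 5 (.s k56 k40 3 (.d k11 k41 k9 4 0)))))]
  (.c k149 (.q k208 [(.s k14 k13 0 (.s k8 k4 1 (.s k6 k2 1 (.d k9 k11 k3 0 2)))), (.s k13 k14 0 (.s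
  k37 k48 6 (.s k25 k49 5 (.s k51 k38 6 (.d k27 k24 k39 0 5))))), (.s k8 k4 1 (.s k48 k37 6 (.s k24
  k36 5 (.s k56 k40 3 (.d k11 k41 k9 4 0)))))] .n) (.c k208 (.q k149 [(.s k14 k13 0 (.s k8 k4 1 (.s
  k6 k2 1 (.d k9 k11 k3 0 2)))), (.s k13 k14 0 (.s k37 k48 6 (.s k25 k49 5 (.s k51 k38 6 (.d k27 k24
  k39 0 5))))), (.s k8 k4 1 (.s k48 k37 6 (.s k24 k36 5 (.s k56 k40 3 (.d k11 k41 k9 4 0)))))] .n)
  .n)))) (.c k32 (.q k12 [(.s k14 k13 0 (.s k8 k4 1 (.s k6 k2 1 (.d k9 k11 k3 0 2)))), (.s k4 k8 1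
  (.s k42 k58 3 (.s k21 k63 6 (.s k38 k55 4 (.d k14 k13 k50 0 5))))), (.s k42 k58 3 (.s k63 k21 6
  (.s k14 k13 0 (.s k46 k29 4 (.d k38 k34 k50 1 5))))), (.s k8 k4 1 (.s k42 k58 3 (.s k25 k59 4 (.s
  k51 k38 6 (.d k27 k24 k39 0 5)))))] .n) (.c k37 (.q k12 [(.s k14 k13 0 (.s k8 k4 1 (.s k6 k2 1 (.d
  k9 k11 k3 0 2)))), (.s k4 k8 1 (.s k42 k58 3 (.s k21 k63 6 (.s k38 k55 4 (.d k14 k13 k50 0 5))))),
  (.s k42 k58 3 (.s k14 k13 0 (.s k38 k50 5 (.s k34 k46 1 (.d k51 k25 k17 6 4))))), (.s k8 k4 1 (.s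
  k42 k58 3 (.s k25 k59 4 (.s k51 k38 6 (.d k27 k39 k24 5 0)))))] (.c k21 (.q k53 [(.s k14 k13 0 (.s
  k6 k2 1 (.s k9 k3 2 (.d k8 k11 k4 0 1)))), (.s k8 k4 1 (.s k42 k58 3 (.s k25 k59 4 (.s k27 k24 0
  (.d k51 k38 k39 6 5))))), (.s k42 k58 3 (.s k14 k13 0 (.s k38 k50 5 (.s k34 k46 1 (.d k51 k25 k17
  6 4)))))] (.c k25 (.l (.s k8 k4 1 (.s k9 k11 0 (.s k6 k3 2 (.d k14 k13 k2 0 1))))) .n)) (.c k53
  (.q k21 [(.d k42 k58 k63 3 6), (.s k4 k8 1 (.s k38 k55 4 (.d k14 k13 k50 0 5)))] .n) .n))) (.c k42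
  (.q k12 [(.s k14 k13 0 (.s k8 k4 1 (.s k6 k2 1 (.d k9 k11 k3 0 2)))), (.s k13 k14 0 (.s k37 k48 6
  (.s k25 k49 5 (.s k51 k38 6 (.d k27 k24 k39 0 5))))), (.s k8 k4 1 (.s k48 k37 6 (.s k24 k36 5 (.s
  k56 k40 3 (.d k11 k41 k9 4 0)))))] .n) (.c k48 (.q k12 [(.s k14 k13 0 (.s k8 k4 1 (.s k6 k2 1 (.d
  k9 k11 k3 0 2)))), (.s k42 k58 3 (.s k63 k21 6 (.s k14 k13 0 (.s k46 k29 4 (.d k38 k34 k50 1
  5))))), (.s k8 k4 1 (.s k42 k58 3 (.s k25 k59 4 (.s k51 k38 6 (.d k27 k24 k39 0 5)))))] .n) (.c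
  k53 (.l (.s k42 k58 3 (.s k21 k63 6 (.s k48 k37 6 (.d k16 k31 k32 2 3))))) (.c k58 (.q k12 [(.s
  k14 k13 0 (.s k8 k4 1 (.s k6 k2 1 (.d k9 k11 k3 0 2)))), (.s k13 k14 0 (.s k37 k48 6 (.s k25 k49 5
  (.s k51 k38 6 (.d k27 k24 k39 0 5))))), (.s k8 k4 1 (.s k48 k37 6 (.s k24 k36 5 (.s k56 k40 3 (.d
  k11 k9 k41 0 4)))))] .n) (.c k63 (.q k12 [(.s k14 k13 0 (.s k8 k4 1 (.s k6 k2 1 (.d k9 k11 k3 0
  2)))), (.s k42 k58 3 (.s k14 k13 0 (.s k38 k50 5 (.s k51 k25 6 (.d k34 k46 k17 1 4))))), (.s k8 k4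
  1 (.s k42 k58 3 (.s k25 k59 4 (.s k51 k38 6 (.d k27 k24 k39 0 5)))))] .n) .n))))))))))))

def t255 : T TT 256 :=
  (.f k10 k5 2 (.q k26 [(.s k42 k58 3 (.s k21 k63 6 (.s k48 k37 6 (.d k16 k31 k32 2 3)))), (.s k42
  k58 3 (.s k63 k21 6 (.s k37 k48 6 (.d k47 k32 k31 2 3))))] (.c k21 (.q k12 [(.s k14 k13 0 (.s k6
  k2 1 (.s k9 k3 2 (.d k8 k11 k4 0 1)))), (.s k42 k58 3 (.s k14 k13 0 (.s k38 k50 5 (.s k51 k25 6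
  (.d k34 k17 k46 4 1))))), (.s k8 k4 1 (.s k42 k58 3 (.s k25 k59 4 (.s k24 k27 0 (.d k48 k37 k36 6
  5)))))] (.c k37 (.q k53 [(.s k14 k13 0 (.s k6 k2 1 (.s k9 k3 2 (.d k8 k11 k4 0 1)))), (.s k8 k4 1
  (.s k42 k58 3 (.s k25 k59 4 (.s k27 k24 0 (.d k51 k38 k39 6 5))))), (.s k42 k58 3 (.s k14 k13 0
  (.s k38 k50 5 (.s k34 k46 1 (.d k51 k25 k17 6 4)))))] (.c k25 (.l (.s k8 k4 1 (.s k9 k11 0 (.s k6
  k3 2 (.d k14 k13 k2 0 1))))) .n)) (.c k53 (.l (.s k37 k48 6 (.s k8 k4 1 (.s k9 k11 0 (.s k6 k3 2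
  (.d k14 k13 k2 0 1)))))) .n))) (.c k31 (.f k58 k42 3 (.q k12 [(.s k8 k4 1 (.s k9 k11 0 (.s k14 k13
  0 (.d k6 k2 k3 1 2)))), (.s k13 k14 0 (.s k37 k48 6 (.s k25 k49 5 (.s k51 k38 6 (.d k27 k24 k39 0
  5))))), (.s k8 k4 1 (.s k48 k37 6 (.s k24 k36 5 (.s k56 k40 3 (.d k11 k41 k9 4 0)))))] (.c k149
  (.q k208 [(.s k8 k4 1 (.s k9 k11 0 (.s k14 k13 0 (.d k6 k2 k3 1 2)))), (.s k13 k14 0 (.s k37 k48 6
  (.s k25 k49 5 (.s k51 k38 6 (.d k27 k24 k39 0 5))))), (.s k8 k4 1 (.s k48 k37 6 (.s k24 k36 5 (.s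
  k56 k40 3 (.d k11 k41 k9 4 0)))))] .n) (.c k208 (.q k149 [(.s k8 k4 1 (.s k9 k11 0 (.s k14 k13 0
  (.d k6 k2 k3 1 2)))), (.s k13 k14 0 (.s k37 k48 6 (.s k25 k49 5 (.s k51 k38 6 (.d k27 k24 k39 0
  5))))), (.s k8 k4 1 (.s k48 k37 6 (.s k24 k36 5 (.s k56 k40 3 (.d k11 k41 k9 4 0)))))] .n) .n))))
  (.c k32 (.q k12 [(.s k14 k13 0 (.s k8 k4 1 (.s k6 k2 1 (.d k9 k11 k3 0 2)))), (.s k4 k8 1 (.s k42
  k58 3 (.s k21 k63 6 (.s k38 k55 4 (.d k14 k13 k50 0 5))))), (.s k42 k58 3 (.s k63 k21 6 (.s k14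
  k13 0 (.s k46 k29 4 (.d k38 k34 k50 1 5))))), (.s k8 k4 1 (.s k42 k58 3 (.s k25 k59 4 (.s k51 k38
  6 (.d k27 k24 k39 0 5)))))] .n) (.c k37 (.q k12 [(.s k14 k13 0 (.s k8 k4 1 (.s k6 k2 1 (.d k9 k11
  k3 0 2)))), (.s k4 k8 1 (.s k42 k58 3 (.s k21 k63 6 (.s k38 k55 4 (.d k14 k13 k50 0 5))))), (.s
  k42 k58 3 (.s k14 k13 0 (.s k38 k50 5 (.s k34 k46 1 (.d k51 k25 k17 6 4))))), (.s k8 k4 1 (.s k42
  k58 3 (.s k25 k59 4 (.s k51 k38 6 (.d k27 k39 k24 5 0)))))] (.c k21 (.q k53 [(.s k14 k13 0 (.s k6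
  k2 1 (.s k9 k3 2 (.d k8 k11 k4 0 1)))), (.s k8 k4 1 (.s k42 k58 3 (.s k25 k59 4 (.s k27 k24 0 (.d
  k51 k38 k39 6 5))))), (.s k42 k58 3 (.s k14 k13 0 (.s k38 k50 5 (.s k34 k46 1 (.d k51 k25 k17 6
  4)))))] (.c k25 (.l (.s k8 k4 1 (.s k9 k11 0 (.s k6 k3 2 (.d k14 k13 k2 0 1))))) .n)) (.c k53 (.q
  k21 [(.d k42 k58 k63 3 6), (.s k4 k8 1 (.s k38 k55 4 (.d k14 k13 k50 0 5)))] .n) .n))) (.c k42 (.q
  k12 [(.s k8 k4 1 (.s k9 k11 0 (.s k14 k13 0 (.d k6 k2 k3 1 2)))), (.s k13 k14 0 (.s k37 k48 6 (.s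
  k25 k49 5 (.s k51 k38 6 (.d k27 k24 k39 0 5))))), (.s k8 k4 1 (.s k48 k37 6 (.s k24 k36 5 (.s k56
  k40 3 (.d k11 k41 k9 4 0)))))] .n) (.c k48 (.q k12 [(.s k14 k13 0 (.s k8 k4 1 (.s k6 k2 1 (.d k9
  k11 k3 0 2)))), (.s k42 k58 3 (.s k63 k21 6 (.s k14 k13 0 (.s k46 k29 4 (.d k38 k34 k50 1 5))))),
  (.s k8 k4 1 (.s k42 k58 3 (.s k25 k59 4 (.s k51 k38 6 (.d k27 k24 k39 0 5)))))] (.c k117 (.q k186
  [(.s k14 k13 0 (.s k8 k4 1 (.s k6 k2 1 (.d k9 k11 k3 0 2)))), (.s k42 k58 3 (.s k63 k21 6 (.s k14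
  k13 0 (.s k46 k29 4 (.d k38 k34 k50 1 5))))), (.s k8 k4 1 (.s k42 k58 3 (.s k25 k59 4 (.s k51 k38
  6 (.d k27 k24 k39 0 5)))))] .n) (.c k186 (.q k117 [(.s k14 k13 0 (.s k8 k4 1 (.s k6 k2 1 (.d k9
  k11 k3 0 2)))), (.s k42 k58 3 (.s k63 k21 6 (.s k14 k13 0 (.s k46 k29 4 (.d k38 k34 k50 1 5))))),
  (.s k8 k4 1 (.s k42 k58 3 (.s k25 k59 4 (.s k51 k38 6 (.d k27 k24 k39 0 5)))))] .n) .n))) (.c k53
  (.l (.s k42 k58 3 (.s k21 k63 6 (.s k48 k37 6 (.d k16 k31 k32 2 3))))) (.c k58 (.q k12 [(.s k14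
  k13 0 (.s k8 k4 1 (.s k6 k2 1 (.d k9 k11 k3 0 2)))), (.s k13 k14 0 (.s k37 k48 6 (.s k25 k49 5 (.s
  k51 k38 6 (.d k27 k24 k39 0 5))))), (.s k8 k4 1 (.s k48 k37 6 (.s k24 k36 5 (.s k56 k40 3 (.d k11
  k9 k41 0 4)))))] .n) (.c k63 (.f k58 k42 3 (.q k12 [(.s k8 k4 1 (.s k9 k11 0 (.s k14 k13 0 (.d k6
  k2 k3 1 2)))), (.s k13 k14 0 (.s k37 k48 6 (.s k25 k49 5 (.s k51 k38 6 (.d k27 k24 k39 0 5))))),
  (.s k8 k4 1 (.s k48 k37 6 (.s k24 k36 5 (.s k56 k40 3 (.d k11 k41 k9 4 0)))))] (.c k127 (.q k191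
  [(.s k8 k4 1 (.s k9 k11 0 (.s k14 k13 0 (.d k6 k2 k3 1 2)))), (.s k13 k14 0 (.s k37 k48 6 (.s k25
  k49 5 (.s k51 k38 6 (.d k27 k24 k39 0 5))))), (.s k8 k4 1 (.s k48 k37 6 (.s k24 k36 5 (.s k56 k40
  3 (.d k11 k41 k9 4 0)))))] .n) (.c k191 (.q k127 [(.s k8 k4 1 (.s k9 k11 0 (.s k14 k13 0 (.d k6 k2
  k3 1 2)))), (.s k13 k14 0 (.s k37 k48 6 (.s k25 k49 5 (.s k51 k38 6 (.d k27 k24 k39 0 5))))), (.s
  k8 k4 1 (.s k48 k37 6 (.s k24 k36 5 (.s k56 k40 3 (.d k11 k41 k9 4 0)))))] .n) .n))))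
  .n)))))))))))

theorem c183 : rootOK2 k15 k90 k183 t183 = true := by decide +kernel

theorem c186 : rootOK2 k15 k90 k186 t186 = true := by decide +kernel

theorem c187 : rootOK2 k15 k90 k187 t187 = true := by decide +kernel

theorem c191 : rootOK2 k15 k90 k191 t191 = true := by decide +kernel

theorem c240 : rootOK2 k15 k90 k240 t240 = true := by decide +kernel

theorem c241 : rootOK2 k15 k90 k241 t241 = true := by decide +kernel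

theorem c242 : rootOK2 k15 k90 k242 t242 = true := by decide +kernel

theorem c243 : rootOK2 k15 k90 k243 t243 = true := by decide +kernel

theorem c245 : rootOK2 k15 k90 k245 t245 = true := by decide +kernel

theorem c246 : rootOK2 k15 k90 k246 t246 = true := by decide +kernel

theorem c247 : rootOK2 k15 k90 k247 t247 = true := by decide +kernel

theorem c250 : rootOK2 k15 k90 k250 t250 = true := by decide +kernel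

theorem c251 : rootOK2 k15 k90 k251 t251 = true := by decide +kernel

theorem c255 : rootOK2 k15 k90 k255 t255 = true := by decide +kernel

def l : List Nat :=
  [k183.c, k186.c, k187.c, k191.c, k240.c, k241.c, k242.c, k243.c, k245.c, k246.c, k247.c, k250.c,
  k251.c, k255.c]

theorem ok : AllQ k15.c k90.c l :=
  allQ_cons c183 (allQ_cons c186 (allQ_cons c187 (allQ_cons c191 (allQ_cons c240 (
  allQ_cons c241 (allQ_cons c242 (allQ_cons c243 (allQ_cons c245 (allQ_cons c246 (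
  allQ_cons c247 (allQ_cons c250 (allQ_cons c251 (allQ_cons c255 (allQ_nil _ _))))))))))))))

end Pool.Agent.TTT.I06
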